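import Pool.Agent.P.MP_cb4022_pr.U.Line

/-! Transport along lattice automorphisms (paper A7). -/

open scoped Classical symmDiff

noncomputable section

namespace Pool.Agent.TAF.U

namespace Aut

/-- the inverse automorphism -/
def symm (a : Aut) : Aut where
  fS := a.fS.symm
  fT := a.fT.symm
  fE := a.fE.symm
  k := -a.k
  typ t := by simpa using (a.typ (a.fT.symm t)).symm
  vtx_eq t i := by
    have := a.vtx_eq (a.fT.symm t) (i + -a.k)
    simp only [Equiv.apply_symm_apply, neg_add_cancel_right] at this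
    rw [this, Equiv.symm_apply_apply]
  nbr_eq t i := by
    have := a.nbr_eq (a.fT.symm t) (i + -a.k)
    simp only [Equiv.apply_symm_apply, neg_add_cancel_right] at this
    rw [this, Equiv.symm_apply_apply]
  side_eq t i := by
    have := a.side_eq (a.fT.symm t) (i + -a.k)
    simp only [Equiv.apply_symm_apply, neg_add_cancel_right] at this
    rw [this, Equiv.symm_apply_apply]
  dst_eq x y := by simpa using (a.dst_eq (a.fS.symm x) (a.fS.symm y)).symm

variable (a : Aut)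

@[simp] theorem mem_mS {S : Finset Site} {x : Site} : a.fS x ∈ a.mS S ↔ x ∈ S := by simp [mS]
@[simp] theorem mem_mT {S : Finset Tri} {x : Tri} : a.fT x ∈ a.mT S ↔ x ∈ S := by simp [mT]
@[simp] theorem mem_mE {S : Finset Edge} {x : Edge} : a.fE x ∈ a.mE S ↔ x ∈ S := by simp [mE]
@[simp] theorem mF_apply (φ : Edge →₀ ℤ) (e : Edge) : a.mF φ (a.fE e) = φ e := by simp [mF]
@[simp] theorem card_mS (S : Finset Site) : (a.mS S).card = S.card := Finset.card_map _
@[simp] theorem card_mT (S : Finset Tri) : (a.mT S).card = S.card := Finset.card_map _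
theorem coe_mS (S : Finset Site) : (a.mS S : Set Site) = a.fS '' S := by simp [mS]

theorem symm_mS (S : Finset Site) : a.symm.mS (a.mS S) = S := by
  ext x
  simp [mS, symm]
theorem mS_symm (S : Finset Site) : a.mS (a.symm.mS S) = S := by
  ext x
  simp [mS, symm]
theorem symm_mE (S : Finset Edge) : a.symm.mE (a.mE S) = S := by
  ext x
  simp [mE, symm]
theorem mE_symm (S : Finset Edge) : a.mE (a.symm.mE S) = S := by
  ext x
  simp [mE, symm]
theorem symm_mT (S : Finset Tri) : a.symm.mT (a.mT S) = S := by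
  ext x
  simp [mT, symm]
theorem mT_symm (S : Finset Tri) : a.mT (a.symm.mT S) = S := by
  ext x
  simp [mT, symm]
theorem mS_union (S S' : Finset Site) : a.mS (S ∪ S') = a.mS S ∪ a.mS S' := by
  ext x
  obtain ⟨x, rfl⟩ := a.fS.surjective x
  simp
theorem mS_inter (S S' : Finset Site) : a.mS (S ∩ S') = a.mS S ∩ a.mS S' := by
  ext x
  obtain ⟨x, rfl⟩ := a.fS.surjective x
  simp
theorem mS_sdiff (S S' : Finset Site) : a.mS (S \ S') = a.mS S \ a.mS S' := by
  ext x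
  obtain ⟨x, rfl⟩ := a.fS.surjective x
  simp
theorem mS_symmDiff (S S' : Finset Site) : a.mS (S ∆ S') = a.mS S ∆ a.mS S' := by
  ext x
  obtain ⟨x, rfl⟩ := a.fS.surjective x
  simp [Finset.mem_symmDiff]
theorem mE_union (S S' : Finset Edge) : a.mE (S ∪ S') = a.mE S ∪ a.mE S' := by
  ext x
  obtain ⟨x, rfl⟩ := a.fE.surjective x
  simp
theorem mE_sdiff (S S' : Finset Edge) : a.mE (S \ S') = a.mE S \ a.mE S' := by
  ext x
  obtain ⟨x, rfl⟩ := a.fE.surjective x
  simp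
theorem mE_symmDiff (S S' : Finset Edge) : a.mE (S ∆ S') = a.mE S ∆ a.mE S' := by
  ext x
  obtain ⟨x, rfl⟩ := a.fE.surjective x
  simp [Finset.mem_symmDiff]
theorem mE_erase (S : Finset Edge) (e : Edge) : a.mE (S.erase e) = (a.mE S).erase (a.fE e) := by
  ext x
  obtain ⟨x, rfl⟩ := a.fE.surjective x
  simp
theorem mT_union (S S' : Finset Tri) : a.mT (S ∪ S') = a.mT S ∪ a.mT S' := by
  ext x
  obtain ⟨x, rfl⟩ := a.fT.surjective x
  simp
theorem mT_insert (t : Tri) (S : Finset Tri) : a.mT (insert t S) = insert (a.fT t) (a.mT S) := by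
  ext x
  obtain ⟨x, rfl⟩ := a.fT.surjective x
  simp
theorem mS_subset {S S' : Finset Site} : a.mS S ⊆ a.mS S' ↔ S ⊆ S' := by
  exact Finset.map_subset_map
theorem mF_add (φ ψ : Edge →₀ ℤ) : a.mF (φ + ψ) = a.mF φ + a.mF ψ := by
  ext x
  obtain ⟨x, rfl⟩ := a.fE.surjective x
  simp
theorem mF_neg (φ : Edge →₀ ℤ) : a.mF (-φ) = -a.mF φ := by
  ext x
  obtain ⟨x, rfl⟩ := a.fE.surjective x
  simp
theorem mF_into (t : Tri) (i : Fin 3) : a.mF (into t i) = into (a.fT t) (i + a.k) := by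
  rw [into, into, mF, Finsupp.equivMapDomain_single, a.side_eq, a.typ]

theorem snd_fE (e : Edge) : (a.fE e).2 = e.2 + a.k := by
  rw [← side_up e, ← a.side_eq, side_snd, side_snd]
theorem up_fE (e : Edge) : up (a.fE e) = a.fT (up e) := by
  have h := a.side_eq (up e) e.2
  rw [side_up] at h
  rw [← h, up_side, a.typ, up_snd, if_pos rfl]
theorem dn_fE (e : Edge) : dn (a.fE e) = a.fT (dn e) := by
  rw [dn, up_fE, snd_fE, a.nbr_eq, nbr_up]
theorem lft_fE (e : Edge) : lft (a.fE e) = a.fS (lft e) := by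
  rw [lft, up_fE, snd_fE, add_right_comm, a.vtx_eq, lft]
theorem rgt_fE (e : Edge) : rgt (a.fE e) = a.fS (rgt e) := by
  rw [rgt, up_fE, snd_fE, add_right_comm, a.vtx_eq, rgt]
theorem adj_iff {x y : Site} : tri.Adj (a.fS x) (a.fS y) ↔ tri.Adj x y := by
  rw [U.adj_iff, U.adj_iff, a.fE.surjective.exists]
  simp only [lft_fE, rgt_fE, EmbeddingLike.apply_eq_iff_eq]
theorem AutL_mem {X : Set Site} {x : Site} : a.fS x ∈ a.fS '' X ↔ x ∈ X :=
  a.fS.injective.mem_set_image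
theorem AutL_ex {P : Fin 3 → Prop} : (∃ i, P i) ↔ ∃ i, P (i + a.k) :=
  (Equiv.addRight a.k).surjective.exists
theorem AutL_all {P : Fin 3 → Prop} : (∀ i, P i) ↔ ∀ i, P (i + a.k) :=
  (Equiv.addRight a.k).surjective.forall
theorem AutL_vtx (t : Tri) (i j : Fin 3) : vtx (a.fT t) (i + a.k + j) = a.fS (vtx t (i + j)) := by
  rw [add_right_comm, a.vtx_eq]
theorem AutL_side (t : Tri) (i j : Fin 3) :
    side (a.fT t) (i + a.k + j) = a.fE (side t (i + j)) := by
  rw [add_right_comm, a.side_eq]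
theorem AutL_rtg {α : Type*} (f : α ≃ α) {r r' : α → α → Prop}
    (h : ∀ x y, r' (f x) (f y) ↔ r x y) {x y : α} :
    Relation.ReflTransGen r' (f x) (f y) ↔ Relation.ReflTransGen r x y := by
  refine ⟨fun H => ?_, fun H => H.lift f fun u v huv => (h u v).2 huv⟩
  have := H.lift (p := r) f.symm fun u v huv => (h _ _).1 (by simpa using huv)
  simpa [Function.onFun] using this
theorem AutL_step {ξ : Finset Edge} {t t' : Tri} :
    (∃ i, side (a.fT t) i ∈ a.mE ξ ∧ a.fT t' = nbr (a.fT t) i) ↔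
      ∃ i, side t i ∈ ξ ∧ t' = nbr t i := by
  rw [a.AutL_ex]
  simp only [a.side_eq, a.nbr_eq, mem_mE, EmbeddingLike.apply_eq_iff_eq]
theorem touch_iff {e : Edge} {X : Set Site} : Touch (a.fE e) (a.fS '' X) ↔ Touch e X := by
  simp only [Touch, lft_fE, rgt_fE, AutL_mem]
theorem inside_iff {e : Edge} {X : Set Site} : Inside (a.fE e) (a.fS '' X) ↔ Inside e X := by
  simp only [Inside, lft_fE, rgt_fE, AutL_mem]
theorem tt_iff {t : Tri} {X : Set Site} : TT (a.fT t) (a.fS '' X) ↔ TT t X := by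
  rw [TT, a.AutL_ex]
  simp only [a.vtx_eq, AutL_mem, TT]
theorem allIn_iff {t : Tri} {X : Set Site} : AllIn (a.fT t) (a.fS '' X) ↔ AllIn t X := by
  rw [AllIn, a.AutL_all]
  simp only [a.vtx_eq, AutL_mem, AllIn]
theorem two_iff {t : Tri} {X : Set Site} : Two (a.fT t) (a.fS '' X) ↔ Two t X := by
  rw [Two, a.AutL_ex]
  simp only [AutL_vtx, AutL_mem, Two]
theorem jn_iff {X : Set Site} {x y : Site} : Jn (a.fS '' X) (a.fS x) (a.fS y) ↔ Jn X x y := by
  exact AutL_rtg a.fS fun u v => by simp only [AutL_mem, adj_iff]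
theorem sconn_iff {X : Set Site} : SConn (a.fS '' X) ↔ SConn X := by
  simp only [SConn, Set.forall_mem_image, jn_iff]
theorem mS_bal (p : Site) (r : ℝ) : a.mS (bal p r) = bal (a.fS p) r := by
  ext x
  obtain ⟨x, rfl⟩ := a.fS.surjective x
  rw [mem_mS, mem_bal, mem_bal, a.dst_eq]
theorem mS_ann (p : Site) (r R : ℝ) : a.mS (ann p r R) = ann (a.fS p) r R := by
  rw [ann, ann, mS_sdiff, mS_bal, mS_bal]
theorem mE_bd (S : Finset Site) : a.mE (bd S) = bd (a.mS S) := by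
  ext x
  obtain ⟨x, rfl⟩ := a.fE.surjective x
  simp only [mem_mE, mem_bd, lft_fE, rgt_fE, mem_mS]
theorem mE_res (ξ : Finset Edge) (X : Set Site) : a.mE (res ξ X) = res (a.mE ξ) (a.fS '' X) := by
  ext x
  obtain ⟨x, rfl⟩ := a.fE.surjective x
  simp only [mem_mE, mem_res, touch_iff]
theorem mE_ins (ξ : Finset Edge) (X : Set Site) : a.mE (ins ξ X) = ins (a.mE ξ) (a.fS '' X) := by
  ext x
  obtain ⟨x, rfl⟩ := a.fE.surjective x
  simp only [mem_mE, mem_ins, inside_iff]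
theorem deg_eq (ξ : Finset Edge) (t : Tri) : deg (a.mE ξ) (a.fT t) = deg ξ t := by
  rw [U.deg_eq _ _ (0 + a.k), U.deg_eq _ _ 0]
  simp only [AutL_side, a.side_eq, mem_mE]
theorem isOdd_iff {ξ : Finset Edge} {t : Tri} : IsOdd (a.mE ξ) (a.fT t) ↔ IsOdd ξ t := by
  rw [IsOdd, IsOdd, deg_eq]
theorem simple_iff {ξ : Finset Edge} : Simple (a.mE ξ) ↔ Simple ξ := by
  rw [Simple, a.fT.surjective.forall]
  simp only [deg_eq, Simple]
theorem conn_iff {ξ : Finset Edge} {t t' : Tri} :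
    Conn (a.mE ξ) (a.fT t) (a.fT t') ↔ Conn ξ t t' := by
  exact AutL_rtg a.fT fun u v => a.AutL_step
theorem dv_eq {A : Type*} [AddCommGroup A] (φ : Edge → A) (t : Tri) :
    dv (fun e => φ (a.fE e)) t = dv φ (a.fT t) := by
  rw [U.dv_eq _ (a.fT t) (0 + a.k), U.dv_eq _ t 0]
  simp only [AutL_side, a.side_eq, a.typ]
theorem dv_mF (φ : Edge →₀ ℤ) (t : Tri) : dv (a.mF φ) (a.fT t) = dv φ t := by
  rw [← dv_eq]
  simp only [mF_apply]
theorem inc_mF (φ : Edge →₀ ℤ) (t : Tri) (p q : Fin 3) :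
    inc (a.mF φ) (a.fT t) (p + a.k) (q + a.k) = inc φ t p q := by
  have h : ∀ j, q + a.k = p + a.k + j ↔ q = p + j := fun j => by
    rw [add_right_comm, add_left_inj]
  simp only [inc, h, AutL_side, mF_apply, a.typ]
theorem line_eq {ξ : Finset Edge} (hs : Simple ξ) {t : Tri} (ht : IsOdd ξ t) :
    line (a.mE ξ) (a.fT t) = a.mF (line ξ t) := by
  obtain ⟨h1, h2, h3⟩ := line_isLine hs ht
  refine U.line_eq (a.simple_iff.2 hs) (a.isOdd_iff.2 ht) ⟨fun e he => ?_, ?_, fun t' ht' => ?_⟩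
  · obtain ⟨e, rfl⟩ := a.fE.surjective e
    rw [mF_apply] at he
    rw [mem_mE, up_fE, conn_iff]
    exact h1 e he
  · rw [dv_mF, h2]
  · obtain ⟨t', rfl⟩ := a.fT.surjective t'
    rw [dv_mF]
    exact h3 t' fun h => ht' (a.isOdd_iff.2 h)
theorem Lf_eq {ξ : Finset Edge} (hs : Simple ξ) {U : Finset Tri} (hU : ∀ u ∈ U, IsOdd ξ u) :
    Lf (a.mE ξ) (a.mT U) = a.mF (Lf ξ U) := by
  rw [Lf, Lf, mF_neg, mT, Finset.sum_map]
  congr 1
  ext e
  obtain ⟨e, rfl⟩ := a.fE.surjective e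
  rw [mF_apply, Finsupp.finsetSum_apply, Finsupp.finsetSum_apply]
  refine Finset.sum_congr rfl fun u hu => ?_
  rw [Equiv.coe_toEmbedding, a.line_eq hs (hU u hu), mF_apply]
theorem thru_iff {ξ : Finset Edge} {V U : Finset Tri} :
    Thru (a.mE ξ) (a.mT V) (a.mT U) ↔ Thru ξ V U := by
  rw [Thru, a.fT.surjective.forall]
  refine forall_congr' fun u => ?_
  rw [a.fT.surjective.exists]
  simp only [mem_mT, conn_iff]
theorem reach_iff {ξ : Finset Edge} {St : Finset Tri} {T : Set Site} {t : Tri} :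
    Reach (a.mE ξ) (a.mT St) (a.fS '' T) (a.fT t) ↔ Reach ξ St T t := by
  rw [Reach, a.fT.surjective.exists]
  refine exists_congr fun u => and_congr a.mem_mT (AutL_rtg a.fT fun x y => ?_)
  rw [tt_iff, AutL_step]
theorem exE_eq (ξ : Finset Edge) (St : Finset Tri) (T : Set Site) :
    exE (a.mE ξ) (a.mT St) (a.fS '' T) = a.mE (exE ξ St T) := by
  ext x
  obtain ⟨x, rfl⟩ := a.fE.surjective x
  simp only [exE, Finset.mem_filter, mem_mE, up_fE, dn_fE, reach_iff, tt_iff]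
theorem AutL_reachF {ξ : Finset Edge} {St : Finset Tri} {T : Set Site} {t : Tri} :
    a.fT t ∈ reachF (a.mE ξ) (a.mT St) (a.fS '' T) ↔ t ∈ reachF ξ St T := by
  simp only [reachF, Finset.mem_filter, Finset.mem_union, Finset.mem_image, reach_iff, mem_mT]
  rw [a.fE.surjective.exists (p := fun e => e ∈ a.mE ξ ∧ up e = a.fT t),
    a.fE.surjective.exists (p := fun e => e ∈ a.mE ξ ∧ dn e = a.fT t)]
  simp only [mem_mE, up_fE, dn_fE, EmbeddingLike.apply_eq_iff_eq]
theorem exX_eq (ξ : Finset Edge) (St : Finset Tri) (T : Set Site) :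
    exX (a.mE ξ) (a.mT St) (a.fS '' T) = a.mS (exX ξ St T) := by
  ext x
  obtain ⟨x, rfl⟩ := a.fS.surjective x
  simp only [exX, mem_mS, Finset.mem_biUnion, Finset.mem_filter, Finset.mem_image, Finset.mem_univ,
    true_and]
  rw [a.fT.surjective.exists]
  refine exists_congr fun t => ?_
  rw [AutL_reachF, tt_iff, a.AutL_ex]
  simp only [a.vtx_eq, EmbeddingLike.apply_eq_iff_eq]
theorem tips_eq (ξ : Finset Edge) (St : Finset Tri) (T : Set Site) :
    tips (a.mE ξ) (a.mT St) (a.fS '' T) = a.mT (tips ξ St T) := by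
  ext x
  obtain ⟨x, rfl⟩ := a.fT.surjective x
  simp only [tips, Finset.mem_filter, mem_mT, AutL_reachF, tt_iff]
theorem AutL_bijOn {W W' : Finset (Finset Site)} (h : ∀ S, a.mS S ∈ W' ↔ S ∈ W) :
    Set.BijOn a.mS W W' := by
  refine ⟨fun S hS => (h S).2 hS, fun S _ S' _ e => ?_, fun S hS => ?_⟩
  · rw [← a.symm_mS S, e, symm_mS]
  · exact ⟨a.symm.mS S, (h _).1 (by rwa [mS_symm]), a.mS_symm S⟩
theorem AutL_disjoint {S S' : Finset Site} : Disjoint (a.mS S) (a.mS S') ↔ Disjoint S S' :=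
  Finset.disjoint_map _
theorem bijOn_powerset (D : Finset Site) : Set.BijOn a.mS D.powerset (a.mS D).powerset := by
  exact a.AutL_bijOn fun S => by simp only [Finset.mem_powerset, mS_subset]
theorem bijOn_Gr (D H : Finset Site) : Set.BijOn a.mS (Gr D H) (Gr (a.mS D) (a.mS H)) := by
  exact a.AutL_bijOn fun S => by simp only [mem_Gr, mS_subset, AutL_disjoint]
theorem link_iff {A S S' : Finset Site} : Link (a.mS A) (a.mS S) (a.mS S') ↔ Link A S S' := by
  rw [Link, a.fS.surjective.forall, a.fT.surjective.forall₂, coe_mS, ← mE_bd, ← mE_bd, ← mE_res,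
    ← mE_res]
  simp only [mem_mS, isOdd_iff, conn_iff, Link]
theorem meas {A : Finset Site} {F : Finset Site → ℝ} (h : Meas (a.mS A) F) :
    Meas A fun S => F (a.mS S) := by
  exact fun S S' hl => h _ _ (a.link_iff.2 hl)
theorem arc_iff {N : ℕ} {ξ : Finset Edge} {p : Site} {r R : ℝ} :
    Arc N (a.mE ξ) (a.fS p) r R ↔ Arc N ξ p r R := by
  have key : ∀ t, (IsOdd (res (a.mE ξ) (ann (a.fS p) r R)) (a.fT t) ∧
      Two (a.fT t) (bal (a.fS p) r) ∧ ∃ t', IsOdd (res (a.mE ξ) (ann (a.fS p) r R)) t' ∧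
        Two t' (bal (a.fS p) R : Set Site)ᶜ ∧ Conn (res (a.mE ξ) (ann (a.fS p) r R)) (a.fT t) t') ↔
      (IsOdd (res ξ (ann p r R)) t ∧ Two t (bal p r) ∧ ∃ t', IsOdd (res ξ (ann p r R)) t' ∧
        Two t' (bal p R : Set Site)ᶜ ∧ Conn (res ξ (ann p r R)) t t') := by
    intro t
    rw [a.fT.surjective.exists, ← mS_ann, ← mS_bal, ← mS_bal, coe_mS, coe_mS, coe_mS, ← mE_res,
      ← Set.image_compl_eq a.fS.bijective]
    simp only [isOdd_iff, two_iff, conn_iff]
  constructor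
  · rintro ⟨W, hW, h⟩
    refine ⟨a.symm.mT W, by rwa [card_mT], fun t ht => (key t).1 (h _ ?_)⟩
    rwa [← a.mT_symm W, mem_mT]
  · rintro ⟨W, hW, h⟩
    refine ⟨a.mT W, by rwa [card_mT], fun t ht => ?_⟩
    obtain ⟨t, rfl⟩ := a.fT.surjective t
    exact (key t).2 (h t (a.mem_mT.1 ht))
theorem arcB {N : ℕ} {p : Site} {r R q : ℝ} (h : ArcB N p r R q) : ArcB N (a.fS p) r R q := by
  intro ξ hξ
  rw [← a.mE_symm ξ] at hξ ⊢
  have h1 := h (a.symm.mE ξ) fun t ht ho =>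
    hξ (a.fT t) (by rwa [← mS_ann, coe_mS, tt_iff]) (a.isOdd_iff.2 ho)
  have h2 := pr_bij a.mS (a.bijOn_powerset (ann p r R))
    fun S => Arc N (a.mE (a.symm.mE ξ) ∆ bd S) (a.fS p) r R
  rw [mS_ann] at h2
  rw [← h2]
  simpa only [← mE_bd, ← mE_symmDiff, arc_iff] using h1
theorem crs_iff {Y : Set Site} {p b : Site} {r R : ℝ} :
    Crs (a.fS '' Y) (a.fS p) r R (a.fS b) ↔ Crs Y p r R b := by
  rw [Crs, a.fS.surjective.exists, a.fS.surjective.exists (p := fun y => R < dst y (a.fS p) ∧ _)]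
  simp only [AutL_mem, a.dst_eq, jn_iff, Crs]
theorem inTip {s : ℝ} {H : Finset Site} {v : Tri} (h0 : a.fS 0 = 0) (h : InTip s H v) :
    InTip s (a.mS H) (a.fT v) := by
  obtain ⟨p, h1, h2, h3⟩ := h
  refine ⟨p + a.k, ?_, ?_, ?_⟩
  · rwa [a.vtx_eq, ← h0, ← mS_bal, mem_mS]
  · rwa [AutL_vtx, mem_mS]
  · rwa [AutL_vtx, mem_mS]

end Aut

theorem rotA_zero : rotA.fS 0 = 0 := rfl
theorem trA_apply (p x : Site) : (trA p).fS x = x + p := rfl
theorem rot_bal (r : ℝ) : rotA.mS (bal 0 r) = bal 0 r := rotA.mS_bal 0 r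
theorem rot_image_bal (r : ℝ) : rotA.fS '' (bal 0 r : Set Site) = bal 0 r := by
  rw [← Aut.coe_mS, rot_bal]
theorem rot_image_compl_bal (r : ℝ) : rotA.fS '' (bal 0 r : Set Site)ᶜ = (bal 0 r : Set Site)ᶜ := by
  rw [Set.image_compl_eq rotA.fS.bijective, rot_image_bal]
theorem rot_cube (S : Finset Site) : rotA.mS (rotA.mS (rotA.mS S)) = S := by
  have h : ∀ x : Site, rotA.fS (rotA.fS (rotA.fS x)) = x := by
    rintro ⟨u, v⟩
    ext <;> simp [rotA, gS]
    ring
  ext x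
  nth_rewrite 1 [← h x]
  simp only [Aut.mem_mS]

/-- the inner data of a frame can be rotated -/
theorem Frame.rot {s R : ℝ} {D H : Finset Site} {V U : Finset Tri} (h : Frame s R D H V U) :
    Frame s R D (rotA.mS H) (rotA.mT V) U := by
  refine ⟨⟨?_, ?_, h.hR, h.gap, ?_, h.connD, h.connO⟩, fun v hv => ?_, h.out⟩
  · exact rotA.mem_mS.2 h.zero
  · rw [← rot_bal]
    exact rotA.mS_subset.2 h.hs
  · rw [Aut.coe_mS]
    exact rotA.sconn_iff.2 h.connH
  · obtain ⟨v, rfl⟩ := rotA.fT.surjective v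
    exact rotA.inTip rotA_zero (h.inn v (rotA.mem_mT.1 hv))

/-- rotate the part of a colouring inside the ball of radius `r` -/
def rotIn (r : ℝ) (S : Finset Site) : Finset Site := rotA.mS (S ∩ bal 0 r) ∪ (S \ bal 0 r)

theorem AutL_sub (r : ℝ) {S : Finset Site} (h : S ⊆ bal 0 r) : rotA.mS S ⊆ bal 0 r := by
  rw [← rot_bal]
  exact rotA.mS_subset.2 h

theorem AutL_inter (r : ℝ) (S : Finset Site) :
    rotIn r S ∩ bal 0 r = rotA.mS (S ∩ bal 0 r) := by
  rw [rotIn, Finset.union_inter_distrib_right, Finset.sdiff_inter_self, Finset.union_empty,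
    Finset.inter_eq_left.2 (AutL_sub r Finset.inter_subset_right)]

theorem AutL_sdiff (r : ℝ) (S : Finset Site) : rotIn r S \ bal 0 r = S \ bal 0 r := by
  rw [rotIn, Finset.union_sdiff_distrib, Finset.sdiff_idem,
    Finset.sdiff_eq_empty_iff_subset.2 (AutL_sub r Finset.inter_subset_right), Finset.empty_union]

theorem AutL_cube (r : ℝ) (S : Finset Site) : rotIn r (rotIn r (rotIn r S)) = S := by
  rw [rotIn, AutL_inter, AutL_inter, rot_cube, AutL_sdiff, AutL_sdiff, Finset.union_comm,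
    Finset.sdiff_union_inter]

theorem AutL_maps {r : ℝ} {D H : Finset Site} (hH : H ⊆ bal 0 r) (hD : bal 0 r ⊆ D)
    {S : Finset Site} (hS : S ∈ Gr D H) : rotIn r S ∈ Gr D (rotA.mS H) := by
  obtain ⟨h1, h2⟩ := mem_Gr.1 hS
  refine mem_Gr.2 ⟨Finset.union_subset ((AutL_sub r Finset.inter_subset_right).trans hD)
    (Finset.sdiff_subset.trans h1), h2.imp (fun h => ?_) fun h => ?_⟩
  · exact (rotA.mS_subset.2 (Finset.subset_inter h hH)).trans Finset.subset_union_left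
  · exact Finset.disjoint_union_left.2
      ⟨rotA.AutL_disjoint.2 (h.mono_left Finset.inter_subset_left),
        Finset.sdiff_disjoint.mono_right (AutL_sub r hH)⟩

theorem rotIn_bijOn {r : ℝ} {D H : Finset Site} (hH : H ⊆ bal 0 r) (hD : bal 0 r ⊆ D) :
    Set.BijOn (rotIn r) (Gr D H) (Gr D (rotA.mS H)) := by
  refine ⟨fun S hS => AutL_maps hH hD hS, fun S _ S' _ e => ?_, fun S hS => ?_⟩
  · rw [← AutL_cube r S, e, AutL_cube]
  · have h := AutL_maps (AutL_sub r (AutL_sub r hH)) hD (AutL_maps (AutL_sub r hH) hD hS)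
    rw [rot_cube] at h
    exact ⟨_, h, AutL_cube r S⟩

theorem rotIn_inter (r : ℝ) (S : Finset Site) :
    rotIn r S ∩ bal 0 r = rotA.mS (S ∩ bal 0 r) := by
  exact AutL_inter r S

theorem rotIn_sdiff (r : ℝ) (S : Finset Site) : rotIn r S \ bal 0 r = S \ bal 0 r := by
  exact AutL_sdiff r S

theorem rotIn_symmDiff (r : ℝ) (S S' : Finset Site) :
    rotIn r (S ∆ S') = rotIn r S ∆ rotIn r S' := by
  ext x
  obtain ⟨x, rfl⟩ := rotA.fS.surjective x
  have h : rotA.fS x ∈ bal 0 r ↔ x ∈ bal 0 r := by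
    nth_rewrite 1 [← rot_bal]
    exact rotA.mem_mS
  simp only [rotIn, Finset.mem_symmDiff, Finset.mem_union, Aut.mem_mS, Finset.mem_inter,
    Finset.mem_sdiff, h]
  tauto

end Pool.Agent.TAF.U
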