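import Pool.Agent.P.MP_cb4022_pr.U.Line

/-! Explorations (paper A9). -/

open scoped Classical symmDiff

noncomputable section

namespace Pool.Agent.TAF.U

section
variable {ξ ξ' : Finset Edge} {St : Finset Tri} {T T' : Set Site}

theorem Reach.start {t : Tri} (h : t ∈ St) : Reach ξ St T t := ⟨t, h, Relation.ReflTransGen.refl⟩
theorem Reach.step {t : Tri} {i : Fin 3} (h : Reach ξ St T t) (hT : ¬ TT t T) (hi : side t i ∈ ξ) :
    Reach ξ St T (nbr t i) := by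
  obtain ⟨t₀, h₀, hr⟩ := h
  exact ⟨t₀, h₀, hr.tail ⟨hT, i, hi, rfl⟩⟩
theorem Expl_ind {P : Tri → Prop} (h0 : ∀ t ∈ St, P t)
    (h1 : ∀ t i, Reach ξ St T t → P t → ¬ TT t T → side t i ∈ ξ → P (nbr t i)) {t : Tri}
    (h : Reach ξ St T t) : P t := by
  obtain ⟨t₀, h₀, hr⟩ := h
  induction hr with
  | refl => exact h0 _ h₀
  | tail hr hs ih =>
    obtain ⟨hT, i, hi, rfl⟩ := hs
    exact h1 _ i ⟨t₀, h₀, hr⟩ ih hT hi
theorem Expl_cases {t : Tri} (h : Reach ξ St T t) :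
    t ∈ St ∨ ∃ i, Reach ξ St T (nbr t i) ∧ ¬ TT (nbr t i) T ∧ side t i ∈ ξ := by
  refine Expl_ind (P := fun t => t ∈ St ∨
    ∃ i, Reach ξ St T (nbr t i) ∧ ¬ TT (nbr t i) T ∧ side t i ∈ ξ) (fun t ht => Or.inl ht)
    (fun t i hr _ hT hi => Or.inr ⟨i, ?_⟩) h
  rw [nbr_nbr, side_nbr]
  exact ⟨hr, hT, hi⟩
theorem Expl_f1 (p : Fin 3) : p + 1 + 2 = p := by revert p; decide
theorem Expl_f2 (p : Fin 3) : p + 2 + 1 = p := by revert p; decide
theorem mem_reachF {t : Tri} : t ∈ reachF ξ St T ↔ Reach ξ St T t := by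
  rw [reachF, Finset.mem_filter]
  refine ⟨fun h => h.2, fun h => ⟨?_, h⟩⟩
  simp only [Finset.mem_union, Finset.mem_image]
  rcases Expl_cases h with h1 | ⟨i, -, -, hi⟩
  · exact Or.inl (Or.inl h1)
  · rcases (side_eq_iff.1 (rfl : side t i = side t i)).2 with e | e
    · exact Or.inl (Or.inr ⟨_, hi, e.symm⟩)
    · exact Or.inr ⟨_, hi, e.symm⟩
theorem mem_tips {t : Tri} : t ∈ tips ξ St T ↔ Reach ξ St T t ∧ TT t T := by
  rw [tips, Finset.mem_filter, mem_reachF]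
theorem mem_exX {x : Site} :
    x ∈ exX ξ St T ↔ ∃ t i, Reach ξ St T t ∧ ¬ TT t T ∧ vtx t i = x := by
  simp only [exX, Finset.mem_biUnion, Finset.mem_filter, mem_reachF, Finset.mem_image,
    Finset.mem_univ, true_and]
  exact ⟨fun ⟨t, ⟨h1, h2⟩, i, h3⟩ => ⟨t, i, h1, h2, h3⟩,
    fun ⟨t, i, h1, h2, h3⟩ => ⟨t, ⟨h1, h2⟩, i, h3⟩⟩
theorem exX_not_mem {x : Site} (h : x ∈ exX ξ St T) : x ∉ T := by
  obtain ⟨t, i, -, hT, rfl⟩ := mem_exX.1 h
  exact fun hx => hT ⟨i, hx⟩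
theorem exE_subset : exE ξ St T ⊆ ξ := Finset.filter_subset _ _
theorem side_mem_exE {t : Tri} {i : Fin 3} : side t i ∈ exE ξ St T ↔ side t i ∈ ξ ∧
    ((Reach ξ St T t ∧ ¬ TT t T) ∨ (Reach ξ St T (nbr t i) ∧ ¬ TT (nbr t i) T)) := by
  rw [exE, Finset.mem_filter, up_side, dn_side]
  cases t.2
  · simp only [Bool.false_eq_true, if_false]
    rw [or_comm]
  · simp only [if_true]
theorem Expl_vtx {t : Tri} (h : Reach ξ St T t) (hT : ¬ TT t T) (i : Fin 3) :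
    vtx t i ∈ exX ξ St T := mem_exX.2 ⟨t, i, h, hT, rfl⟩
theorem Expl_inside {t : Tri} (h : Reach ξ St T t) (hT : ¬ TT t T) (i : Fin 3) :
    Inside (side t i) (exX ξ St T) :=
  inside_side.2 ⟨Expl_vtx h hT _, Expl_vtx h hT _⟩
theorem Expl_inside' {e : Edge} (h : (Reach ξ St T (up e) ∧ ¬ TT (up e) T) ∨
    (Reach ξ St T (dn e) ∧ ¬ TT (dn e) T)) : Inside e (exX ξ St T) := by
  rcases h with h | h
  · simpa using Expl_inside h.1 h.2 e.2
  · simpa using Expl_inside h.1 h.2 e.2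
theorem Expl_side {t : Tri} {i : Fin 3} (h : Reach ξ St T t) (hT : ¬ TT t T)
    (hi : side t i ∈ ξ) : side t i ∈ exE ξ St T := side_mem_exE.2 ⟨hi, Or.inl ⟨h, hT⟩⟩
theorem Expl_not_touch {e : Edge} (h : Inside e (exX ξ St T)) : ¬ Touch e T :=
  fun h' => h'.elim (exX_not_mem h.1) (exX_not_mem h.2)
theorem exE_inside {e : Edge} (h : e ∈ exE ξ St T) : Inside e (exX ξ St T) :=
  Expl_inside' (Finset.mem_filter.1 h).2
theorem reach_of_side {t : Tri} {i : Fin 3} (h : side t i ∈ exE ξ St T) : Reach ξ St T t := by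
  obtain ⟨h1, h2 | h2⟩ := side_mem_exE.1 h
  · exact h2.1
  · simpa using h2.1.step h2.2 (i := i) (by rwa [side_nbr])

/-- stopping property -/
theorem reach_congr (h : ∀ e, Inside e (exX ξ St T) → (e ∈ ξ ↔ e ∈ ξ')) (t : Tri) :
    Reach ξ' St T t ↔ Reach ξ St T t := by
  constructor
  · exact Expl_ind (P := Reach ξ St T) (fun t ht => Reach.start ht)
      fun t i _ ih hT hi => ih.step hT ((h _ (Expl_inside ih hT i)).2 hi)
  · exact Expl_ind (P := Reach ξ' St T) (fun t ht => Reach.start ht)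
      fun t i hr ih hT hi => ih.step hT ((h _ (Expl_inside hr hT i)).1 hi)
theorem expl_congr (h : ∀ e, Inside e (exX ξ St T) → (e ∈ ξ ↔ e ∈ ξ')) :
    exX ξ' St T = exX ξ St T ∧ exE ξ' St T = exE ξ St T ∧ tips ξ' St T = tips ξ St T := by
  refine ⟨?_, ?_, ?_⟩
  · ext x
    simp only [mem_exX, reach_congr h]
  · ext e
    simp only [exE, Finset.mem_filter, reach_congr h]
    exact and_congr_left fun h' => (h e (Expl_inside' h')).symm
  · ext t
    simp only [mem_tips, reach_congr h]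
theorem expl_congr_off (h : ∀ e, ¬ Touch e T → (e ∈ ξ ↔ e ∈ ξ')) :
    exX ξ' St T = exX ξ St T ∧ exE ξ' St T = exE ξ St T ∧ tips ξ' St T = tips ξ St T :=
  expl_congr fun e he => h e (Expl_not_touch he)
theorem expl_act {S : Finset Site} (h : exX ξ St T ⊆ S ∨ Disjoint S (exX ξ St T)) :
    exX (ξ ∆ bd S) St T = exX ξ St T ∧ exE (ξ ∆ bd S) St T = exE ξ St T ∧
      tips (ξ ∆ bd S) St T = tips ξ St T ∧
      (ξ ∆ bd S) \ exE ξ St T = (ξ \ exE ξ St T) ∆ bd S := by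
  have h1 : ∀ e, Inside e (exX ξ St T) → e ∉ bd S := by
    intro e he
    rw [mem_bd, not_not]
    rcases h with h | h
    · exact iff_of_true (h he.1) (h he.2)
    · exact iff_of_false (fun h' => Finset.disjoint_left.1 h h' he.1)
        (fun h' => Finset.disjoint_left.1 h h' he.2)
  obtain ⟨e1, e2, e3⟩ := expl_congr (ξ := ξ) (ξ' := ξ ∆ bd S) (St := St) (T := T) fun e he => by
    have := h1 e he
    rw [Finset.mem_symmDiff]
    tauto
  refine ⟨e1, e2, e3, ?_⟩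
  ext e
  have h2 : e ∈ exE ξ St T → e ∉ bd S := fun he => h1 e (exE_inside he)
  simp only [Finset.mem_sdiff, Finset.mem_symmDiff]
  tauto
theorem reach_anti (h : T ⊆ T') {t : Tri} (ht : Reach ξ St T' t) : Reach ξ St T t :=
  Expl_ind (P := Reach ξ St T) (fun _ ht => Reach.start ht)
    (fun _ _ _ ih hT hi => ih.step (fun ⟨j, hj⟩ => hT ⟨j, h hj⟩) hi) ht
theorem exX_anti (h : T ⊆ T') : exX ξ St T' ⊆ exX ξ St T := by
  intro x hx
  obtain ⟨t, i, h1, h2, rfl⟩ := mem_exX.1 hx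
  exact Expl_vtx (reach_anti h h1) (fun ⟨j, hj⟩ => h2 ⟨j, h hj⟩) i

theorem reach_conn {t : Tri} (h : Reach ξ St T t) : ∃ t₀ ∈ St, Conn (exE ξ St T) t₀ t :=
  Expl_ind (P := fun t => ∃ t₀ ∈ St, Conn (exE ξ St T) t₀ t)
    (fun t ht => ⟨t, ht, Conn.refl _ _⟩)
    (fun _ _ hr ⟨t₀, h₀, hc⟩ hT hi => ⟨t₀, h₀, hc.trans (Conn.step (Expl_side hr hT hi))⟩) h
theorem reach_of_conn {t τ : Tri} (h : Reach ξ St T t) (hc : Conn (exE ξ St T) t τ) :
    Reach ξ St T τ := by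
  induction hc with
  | refl => exact h
  | tail _ hs _ =>
    obtain ⟨i, hi, rfl⟩ := hs
    exact reach_of_side (i := i) (by rwa [side_nbr])
/-- a start either reaches a tip or its whole component is explored -/
theorem conn_cases {t₀ : Tri} (h₀ : t₀ ∈ St) :
    (∃ τ ∈ tips ξ St T, Conn (exE ξ St T) t₀ τ) ∨
      ∀ τ, Conn ξ t₀ τ → Reach ξ St T τ ∧ ¬ TT τ T ∧ Conn (exE ξ St T) t₀ τ := by
  refine or_iff_not_imp_left.2 fun hn => ?_
  have h1 : ∀ τ, Conn (exE ξ St T) t₀ τ → Reach ξ St T τ ∧ ¬ TT τ T := fun τ hc =>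
    have hr := reach_of_conn (Reach.start h₀) hc
    ⟨hr, fun hT => hn ⟨τ, mem_tips.2 ⟨hr, hT⟩, hc⟩⟩
  have h2 : ∀ τ, Conn ξ t₀ τ → Conn (exE ξ St T) t₀ τ := by
    intro τ hc
    induction hc with
    | refl => exact Conn.refl _ _
    | tail _ hs ih =>
      obtain ⟨i, hi, rfl⟩ := hs
      exact ih.trans (Conn.step (Expl_side (h1 _ ih).1 (h1 _ ih).2 hi))
  exact fun τ hc => ⟨(h1 τ (h2 τ hc)).1, (h1 τ (h2 τ hc)).2, h2 τ hc⟩
theorem side_not_mem_sdiff {t : Tri} (h : Reach ξ St T t) (hT : ¬ TT t T) (i : Fin 3) :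
    side t i ∉ ξ \ exE ξ St T := fun hi =>
  (Finset.mem_sdiff.1 hi).2 (Expl_side h hT (Finset.mem_sdiff.1 hi).1)
theorem tip_spec {t : Tri} (h : t ∈ tips ξ St T) (hS : t ∉ St) :
    ∃ p, vtx t p ∈ T ∧ vtx t (p + 1) ∈ exX ξ St T ∧ vtx t (p + 2) ∈ exX ξ St T ∧
      side t p ∈ exE ξ St T ∧ side t (p + 1) ∉ exE ξ St T ∧ side t (p + 2) ∉ exE ξ St T := by
  obtain ⟨hr, j, hj⟩ := mem_tips.1 h
  obtain ⟨p, h1, h2, h3⟩ := (Expl_cases hr).resolve_left hS
  have v1 : vtx t (p + 1) ∈ exX ξ St T := vtx_nbr2 t p ▸ Expl_vtx h1 h2 (p + 2)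
  have v2 : vtx t (p + 2) ∈ exX ξ St T := vtx_nbr1 t p ▸ Expl_vtx h1 h2 (p + 1)
  have v0 : vtx t p ∈ T := by
    rcases fin3_cases p j with rfl | rfl | rfl
    · exact hj
    · exact absurd hj (exX_not_mem v1)
    · exact absurd hj (exX_not_mem v2)
  refine ⟨p, v0, v1, v2, side_mem_exE.2 ⟨h3, Or.inr ⟨h1, h2⟩⟩, fun he => ?_, fun he => ?_⟩
  · have := (inside_side.1 (exE_inside he)).2
    rw [Expl_f1] at this
    exact exX_not_mem this v0
  · have := (inside_side.1 (exE_inside he)).1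
    rw [Expl_f2] at this
    exact exX_not_mem this v0

/-- the starts are odd, do not touch the target, and contain every odd triangle that does not
touch the target -/
structure GoodSt (ξ : Finset Edge) (St : Finset Tri) (T : Set Site) : Prop where
  simple : Simple ξ
  odd : ∀ t ∈ St, IsOdd ξ t
  far : ∀ t ∈ St, ¬ TT t T
  all : ∀ t, IsOdd ξ t → ¬ TT t T → t ∈ St

theorem GoodSt.disjoint (h : GoodSt ξ St T) : Disjoint St (tips ξ St T) :=
  Finset.disjoint_left.2 fun t ht ht' => h.far t ht (mem_tips.1 ht').2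
theorem GoodSt.odd_exE (h : GoodSt ξ St T) (t : Tri) :
    IsOdd (exE ξ St T) t ↔ t ∈ St ∨ t ∈ tips ξ St T := by
  by_cases hr : Reach ξ St T t
  · by_cases hT : TT t T
    · have ht : t ∈ tips ξ St T := mem_tips.2 ⟨hr, hT⟩
      obtain ⟨p, -, -, -, h1, h2, h3⟩ := tip_spec ht fun hS => h.far t hS hT
      refine iff_of_true ?_ (Or.inr ht)
      rw [isOdd_iff _ _ p]
      exact iff_of_true h1 (iff_of_false h2 h3)
    · have h1 : ∀ i, side t i ∈ exE ξ St T ↔ side t i ∈ ξ := fun i =>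
        ⟨fun hi => exE_subset hi, fun hi => Expl_side hr hT hi⟩
      rw [isOdd_iff _ _ 0, h1, h1, h1, ← isOdd_iff]
      exact ⟨fun ho => Or.inl (h.all t ho hT),
        fun ho => ho.elim (h.odd t) fun ht => absurd (mem_tips.1 ht).2 hT⟩
  · have h1 : ∀ i, side t i ∉ exE ξ St T := fun i hi => hr (reach_of_side hi)
    refine iff_of_false ?_ fun ho => ho.elim (fun hS => hr (Reach.start hS))
      fun ht => hr (mem_tips.1 ht).1
    rw [isOdd_iff _ _ 0]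
    exact fun h' => h1 _ (h'.2 (iff_of_false (h1 _) (h1 _)))
theorem GoodSt.odd_sdiff (h : GoodSt ξ St T) (t : Tri) :
    IsOdd (ξ \ exE ξ St T) t ↔ TT t T ∧ ¬ (IsOdd ξ t ↔ t ∈ tips ξ St T) := by
  have e : ξ \ exE ξ St T = ξ ∆ exE ξ St T := by
    ext e
    have : e ∈ exE ξ St T → e ∈ ξ := fun he => exE_subset he
    simp only [Finset.mem_sdiff, Finset.mem_symmDiff]
    tauto
  have h1 := h.odd t
  have h2 := h.far t
  have h3 := h.all t
  have h4 : t ∈ tips ξ St T → TT t T := fun ht => (mem_tips.1 ht).2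
  rw [e, isOdd_symmDiff, h.odd_exE]
  tauto
theorem GoodSt.parity (h : GoodSt ξ St T) : Even (St.card + (tips ξ St T).card) := by
  rw [← Finset.card_union_of_disjoint h.disjoint]
  exact even_odd (ξ := exE ξ St T) fun t => by rw [h.odd_exE, Finset.mem_union]
theorem GoodSt.tips_sep (h : GoodSt ξ St T) {t t' : Tri} (ht : t ∈ tips ξ St T)
    (ht' : t' ∈ tips ξ St T) (hc : Conn (exE ξ St T) t t') : t = t' := by
  obtain ⟨t₀, h₀, c₀⟩ := reach_conn (mem_tips.1 ht).1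
  rcases three_odd (h.simple.mono exE_subset) ((h.odd_exE t₀).2 (Or.inl h₀))
    ((h.odd_exE t).2 (Or.inr ht)) ((h.odd_exE t').2 (Or.inr ht')) c₀ (c₀.trans hc) with
    e | e | e
  · exact absurd (e ▸ ht) (Finset.disjoint_left.1 h.disjoint h₀)
  · exact absurd (e ▸ ht') (Finset.disjoint_left.1 h.disjoint h₀)
  · exact e
theorem GoodSt.card_tips (h : GoodSt ξ St T) : (tips ξ St T).card ≤ St.card := by
  have h1 : ∀ t, ∃ t₀, t ∈ tips ξ St T → t₀ ∈ St ∧ Conn (exE ξ St T) t₀ t := by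
    intro t
    by_cases ht : t ∈ tips ξ St T
    · obtain ⟨t₀, h₀, c₀⟩ := reach_conn (mem_tips.1 ht).1
      exact ⟨t₀, fun _ => ⟨h₀, c₀⟩⟩
    · exact ⟨t, fun h' => absurd h' ht⟩
  choose f hf using h1
  refine Finset.card_le_card_of_injOn f (fun t ht => (hf t ht).1) fun t ht t' ht' e => ?_
  exact h.tips_sep ht ht' ((hf t ht).2.symm.trans (e ▸ (hf t' ht').2))

theorem Expl_mono {S : Finset Site}
    (hS : ∀ e, ¬ Touch e T → (e ∈ ξ \ exE ξ St T ↔ e ∈ bd S)) {t : Tri} (h : Reach ξ St T t)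
    (hT : ¬ TT t T) (i j : Fin 3) : vtx t i ∈ S ↔ vtx t j ∈ S := by
  have h1 : ∀ k, (vtx t (k + 1) ∈ S ↔ vtx t (k + 2) ∈ S) := fun k => by
    have := fun hb => side_not_mem_sdiff h hT k ((hS _ fun h' => hT h'.tt).2 hb)
    rwa [side_mem_bd, imp_false, not_not] at this
  have a0 : vtx t 1 ∈ S ↔ vtx t 2 ∈ S := h1 0
  have a1 : vtx t 2 ∈ S ↔ vtx t 0 ∈ S := h1 1
  have h2 : ∀ k, (vtx t k ∈ S ↔ vtx t 0 ∈ S) := fun k => by
    rcases fin3_cases 0 k with rfl | rfl | rfl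
    · rfl
    · exact a0.trans a1
    · exact a1
  exact (h2 i).trans (h2 j).symm

theorem Expl_mono' {S : Finset Site}
    (hS : ∀ e, ¬ Touch e T → (e ∈ ξ \ exE ξ St T ↔ e ∈ bd S)) (hfar : ∀ t ∈ St, ¬ TT t T)
    {t : Tri} (h : Reach ξ St T t) {i j : Fin 3} (hi : vtx t i ∈ exX ξ St T)
    (hj : vtx t j ∈ exX ξ St T) : vtx t i ∈ S ↔ vtx t j ∈ S := by
  by_cases hT : TT t T
  · obtain ⟨p, v0, -, -, h1, -, -⟩ := tip_spec (mem_tips.2 ⟨h, hT⟩) fun h' => hfar t h' hT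
    have h2 : vtx t (p + 1) ∈ S ↔ vtx t (p + 2) ∈ S := by
      have := fun hb => (Finset.mem_sdiff.1
        ((hS _ (Expl_not_touch (exE_inside h1))).2 hb)).2 h1
      rwa [side_mem_bd, imp_false, not_not] at this
    have h3 : ∀ k, vtx t k ∈ exX ξ St T → (vtx t k ∈ S ↔ vtx t (p + 2) ∈ S) := fun k hk => by
      rcases fin3_cases p k with rfl | rfl | rfl
      · exact absurd v0 (exX_not_mem hk)
      · exact h2
      · rfl
    exact (h3 i hi).trans (h3 j hj).symm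
  · exact Expl_mono hS h hT i j

theorem Expl_col_conn {S : Finset Site}
    (hS : ∀ e, ¬ Touch e T → (e ∈ ξ \ exE ξ St T ↔ e ∈ bd S)) (hfar : ∀ t ∈ St, ¬ TT t T)
    {t τ : Tri} (h : Reach ξ St T t) (hc : Conn (exE ξ St T) t τ) {i : Fin 3}
    (hi : vtx t i ∈ exX ξ St T) :
    ∀ j, vtx τ j ∈ exX ξ St T → (vtx t i ∈ S ↔ vtx τ j ∈ S) := by
  induction hc with
  | refl => exact fun j hj => Expl_mono' hS hfar h hi hj
  | @tail a _ _ hs ih =>
    obtain ⟨k, hk, rfl⟩ := hs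
    intro j hj
    have v1 : vtx a (k + 1) ∈ exX ξ St T := (inside_side.1 (exE_inside hk)).1
    refine (ih _ v1).trans ?_
    rw [← vtx_nbr2] at v1 ⊢
    exact Expl_mono' hS hfar (reach_of_side (i := k) (by rwa [side_nbr])) v1 hj

/-- a colouring of what is left is constant on the vertices of an explored component -/
theorem exX_col {S : Finset Site} (hS : ∀ e, ¬ Touch e T → (e ∈ ξ \ exE ξ St T ↔ e ∈ bd S))
    (hfar : ∀ t ∈ St, ¬ TT t T) {x : Site} (hx : x ∈ exX ξ St T) :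
    ∃ t₀ ∈ St, ∀ i, (x ∈ S ↔ vtx t₀ i ∈ S) := by
  obtain ⟨t, j, h1, h2, rfl⟩ := mem_exX.1 hx
  obtain ⟨t₀, h₀, c₀⟩ := reach_conn h1
  exact ⟨t₀, h₀, fun i => (Expl_col_conn hS hfar (Reach.start h₀) c₀
    (Expl_vtx (Reach.start h₀) (hfar t₀ h₀) i) j hx).symm⟩

/-- every start is joined by explored edges to a start that touches `Y` -/
def Anch (ξ : Finset Edge) (St : Finset Tri) (T Y : Set Site) : Prop :=
  ∀ t ∈ St, ∃ t' ∈ St, Conn (exE ξ St T) t t' ∧ TT t' Y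

theorem Expl_anchor {Y : Set Site} (ha : Anch ξ St T Y) {t : Tri} (h : Reach ξ St T t) :
    ∃ t' ∈ St, Conn (exE ξ St T) t' t ∧ TT t' Y := by
  obtain ⟨t₀, h₀, c₀⟩ := reach_conn h
  obtain ⟨t', h', c', hY⟩ := ha t₀ h₀
  exact ⟨t', h', c'.symm.trans c₀, hY⟩

theorem Expl_jn {t τ : Tri} (hc : Conn (exE ξ St T) t τ) {i : Fin 3}
    (hi : vtx t i ∈ exX ξ St T) :
    ∀ j, vtx τ j ∈ exX ξ St T → Jn (exX ξ St T) (vtx t i) (vtx τ j) := by
  induction hc with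
  | refl => exact fun j hj => Jn.vtx hi hj
  | @tail a _ _ hs ih =>
    obtain ⟨k, hk, rfl⟩ := hs
    intro j hj
    have v1 : vtx a (k + 1) ∈ exX ξ St T := (inside_side.1 (exE_inside hk)).1
    refine (ih _ v1).trans ?_
    rw [← vtx_nbr2] at v1 ⊢
    exact Jn.vtx v1 hj

theorem sconn_exX (h : GoodSt ξ St T) {Y : Set Site} (hY : SConn Y) (ha : Anch ξ St T Y) :
    SConn (Y ∪ exX ξ St T) := by
  have h1 : ∀ x ∈ Y ∪ exX ξ St T, ∃ y ∈ Y, Jn (Y ∪ exX ξ St T) y x := by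
    rintro x (hx | hx)
    · exact ⟨x, hx, Jn.refl _ _⟩
    · obtain ⟨t, j, h1, h2, rfl⟩ := mem_exX.1 hx
      obtain ⟨t', h', c', i, hi⟩ := Expl_anchor ha h1
      exact ⟨_, hi, (Expl_jn c' (Expl_vtx (Reach.start h') (h.far t' h') i) j hx).mono
        Set.subset_union_right⟩
  intro a ha' b hb'
  obtain ⟨y, hy, j1⟩ := h1 a ha'
  obtain ⟨z, hz, j2⟩ := h1 b hb'
  exact j1.symm.trans (((hY y hy z hz).mono Set.subset_union_left).trans j2)

/-- gate property: `col2` for `ξ \ exE` with the connected set `T`, then `exX_col` -/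
theorem no_edge_inside (h : GoodSt ξ St T) (hT : SConn T) {Y : Set Site} (hY : SConn Y)
    (hd : Disjoint Y T) (h0 : ∀ e ∈ ξ, ¬ Inside e Y) (ha : Anch ξ St T Y) :
    ∀ e ∈ ξ \ exE ξ St T, ¬ Inside e (Y ∪ exX ξ St T) := by
  obtain ⟨S, hS⟩ := col2 (ξ \ exE ξ St T) hT fun t ht => ((h.odd_sdiff t).1 ht).1
  have h1 : ∀ x ∈ Y ∪ exX ξ St T, ∃ y ∈ Y, (y ∈ S ↔ x ∈ S) := by
    rintro x (hx | hx)
    · exact ⟨x, hx, Iff.rfl⟩
    · obtain ⟨t, j, h1, h2, rfl⟩ := mem_exX.1 hx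
      obtain ⟨t', h', c', i, hi⟩ := Expl_anchor ha h1
      exact ⟨_, hi, Expl_col_conn hS h.far (Reach.start h') c'
        (Expl_vtx (Reach.start h') (h.far t' h') i) j hx⟩
  have h2 : ∀ e, Inside e Y → (lft e ∈ S ↔ rgt e ∈ S) := fun e he => by
    have hn : ¬ Touch e T := fun h' =>
      h'.elim (Set.disjoint_left.1 hd he.1) (Set.disjoint_left.1 hd he.2)
    have := fun hb => h0 e (Finset.mem_sdiff.1 ((hS e hn).2 hb)).1 he
    rwa [mem_bd, imp_false, not_not] at this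
  have h3 : ∀ a b, Jn Y a b → (a ∈ S ↔ b ∈ S) := by
    intro a b hj
    induction hj with
    | refl => rfl
    | tail _ hs ih =>
      obtain ⟨hu, hv, hadj⟩ := hs
      obtain ⟨e, ⟨rfl, rfl⟩ | ⟨rfl, rfl⟩⟩ := adj_iff.1 hadj
      · exact ih.trans (h2 e ⟨hu, hv⟩)
      · exact ih.trans (h2 e ⟨hv, hu⟩).symm
  have h4 : ∀ x ∈ Y ∪ exX ξ St T, x ∉ T := by
    rintro x (hx | hx)
    · exact Set.disjoint_left.1 hd hx
    · exact exX_not_mem hx
  intro e he hi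
  obtain ⟨y, hy, e1⟩ := h1 _ hi.1
  obtain ⟨z, hz, e2⟩ := h1 _ hi.2
  refine mem_bd.1 ((hS e fun h' => h'.elim (h4 _ hi.1) (h4 _ hi.2)).1 he) ?_
  exact e1.symm.trans ((h3 y z (hY y hy z hz)).trans e2)

end

end Pool.Agent.TAF.U
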