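import Pool.Agent.P.MP_cb4022_pr.U.RSW3
import Pool.Agent.P.MP_cb4022_pr.U.Expl

/-! The gate lemma (paper B6, with the correction of the referees). -/

open scoped Classical symmDiff

noncomputable section

namespace Pool.Agent.TAF.U

structure GateD (D H Z X Rg : Finset Site) (Out W : Set Site) (p : Site) (r ρ : ℝ) (e₀ : Edge) :
    Prop where
  connO : SConn (D : Set Site)ᶜ
  zsub : Z ⊆ D \ H
  zconn : SConn Z
  xsub : X ⊆ Z ∩ bal p r
  znb : ∀ a ∈ Z \ X, ∀ b, tri.Adj a b → b ∈ Z ∨ b ∈ W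
  rsub : Rg ⊆ D \ H
  xr : X ⊆ Rg
  rcl : ∀ a ∈ Rg, ∀ b ∈ D ∩ bal p ρ, tri.Adj a b → b ∈ Rg
  rρ : r + 1 ≤ ρ
  oconn : SConn Out
  d1 : Disjoint Out Rg
  d2 : Disjoint Out Z
  d3 : Disjoint Out W
  wall : W = (D : Set Site)ᶜ ∨ W = ∅
  hW : ∀ x ∈ bal p ρ, x ∉ D → x ∈ W
  e1 : Touch e₀ Z
  e2 : W = ∅ ∨ Touch e₀ W

/-- close to the centre the neighbours of `Rg` lie in `Rg` or in `W` -/
theorem Gate_near {D H Z X Rg : Finset Site} {Out W : Set Site} {p : Site} {r ρ : ℝ} {e₀ : Edge}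
    (h : GateD D H Z X Rg Out W p r ρ e₀) {t : Tri} {i : Fin 3} (h1 : vtx t i ∈ Rg)
    (h2 : dst (vtx t i) p ≤ ρ - 1) (j : Fin 3) : vtx t j ∈ Rg ∨ vtx t j ∈ W := by
  by_cases hij : i = j
  · exact Or.inl (hij ▸ h1)
  have hb : vtx t j ∈ bal p ρ :=
    mem_bal.2 (by linarith [dst_tri (vtx t j) (vtx t i) p, dst_vtx t j i])
  by_cases hD : vtx t j ∈ D
  · exact Or.inl (h.rcl _ h1 _ (Finset.mem_inter.2 ⟨hD, hb⟩) (adj_vtx t hij))
  · exact Or.inr (h.hW _ hb hD)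

theorem Gate_not_out {D H Z X Rg : Finset Site} {Out W : Set Site} {p : Site} {r ρ : ℝ}
    {e₀ : Edge} (h : GateD D H Z X Rg Out W p r ρ e₀) {t : Tri}
    (h1 : ∀ j, vtx t j ∈ Rg ∨ vtx t j ∈ W) : ¬ TT t Out := by
  rintro ⟨j, hj⟩
  exact (h1 j).elim (Set.disjoint_left.1 h.d1 hj) (Set.disjoint_left.1 h.d3 hj)

theorem GateD.not_tt {D H Z X Rg : Finset Site} {Out W : Set Site} {p : Site} {r ρ : ℝ} {e₀ : Edge}
    (h : GateD D H Z X Rg Out W p r ρ e₀) {t : Tri} (h1 : TT t Z) : ¬ TT t Out := by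
  obtain ⟨i, hi⟩ := h1
  by_cases hX : vtx t i ∈ X
  · refine Gate_not_out h (Gate_near h (h.xr hX) ?_)
    linarith [mem_bal.1 (Finset.mem_inter.1 (h.xsub hX)).2, h.rρ]
  · rintro ⟨j, hj⟩
    by_cases hij : i = j
    · exact Set.disjoint_left.1 h.d2 hj (hij ▸ hi)
    · exact (h.znb _ (Finset.mem_sdiff.2 ⟨hi, hX⟩) _ (adj_vtx t hij)).elim
        (Set.disjoint_left.1 h.d2 hj) (Set.disjoint_left.1 h.d3 hj)

theorem Gate_not_inside {D H Z X Rg : Finset Site} {Out W : Set Site} {p : Site} {r ρ : ℝ}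
    {e₀ : Edge} (h : GateD D H Z X Rg Out W p r ρ e₀) {e : Edge} (he : e ∈ allowed D H) :
    ¬ Inside e W := by
  rintro ⟨h1, h2⟩
  rcases h.wall with rfl | rfl
  · exact (mem_allowed.1 he).1.elim h1 h2
  · exact h1

/-- a two-coloured side has a coloured end, which is a vertex of both triangles -/
theorem Gate_end {col : Site → Prop} {t : Tri} {j : Fin 3}
    (h : ¬ (col (lft (side t j)) ↔ col (rgt (side t j)))) :
    ∃ k k', k ≠ j ∧ col (vtx t k) ∧ vtx (nbr t j) k' = vtx t k := by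
  have n1 : j + 1 ≠ j := by generalize j = i; revert i; decide
  have n2 : j + 2 ≠ j := by generalize j = i; revert i; decide
  have : col (vtx t (j + 1)) ∨ col (vtx t (j + 2)) := by
    rw [lft_side, rgt_side] at h
    split_ifs at h <;> tauto
  exact this.elim (fun h => ⟨_, _, n1, h, vtx_nbr2 t j⟩) fun h => ⟨_, _, n2, h, vtx_nbr1 t j⟩

/-- the deterministic part: two tips give a coloured crossing -/
theorem Gate_det {D H Z X Rg : Finset Site} {Out W : Set Site} {p : Site} {r ρ : ℝ} {e₀ : Edge}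
    (h : GateD D H Z X Rg Out W p r ρ e₀) {ζ : Finset Edge} {Tf St : Finset Tri}
    (hall : ζ ⊆ allowed D H) (hs : Simple ζ) (hodd : ∀ t, IsOdd ζ t ↔ t ∈ Tf ∨ t ∈ St)
    (h1 : ∀ t ∈ St, ∀ t' ∈ St, t = t') (hSt : ∀ t ∈ St, TT t Z) (hf : ∀ t ∈ Tf, TT t Out)
    {col : Site → Prop}
    (hc : ∀ e, ¬ Touch e Out → (e ∈ ζ \ exE ζ St Out ↔ ¬ (col (lft e) ↔ col (rgt e))))
    (hW : ∀ x ∈ W, ¬ col x) (hb : 2 ≤ (tips ζ Tf Z).card) :
    ∃ b, Crs {x | x ∈ Rg ∧ col x} p (r + 1) (ρ - 1) b := by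
  have hfar : ∀ t ∈ Tf, ¬ TT t Z := fun t ht hz => h.not_tt hz (hf t ht)
  have hg : GoodSt ζ Tf Z := ⟨hs, fun t ht => (hodd t).2 (Or.inl ht), hfar,
    fun t ht hz => ((hodd t).1 ht).elim id fun h' => absurd (hSt t h') hz⟩
  have key : ∃ τ ∈ tips ζ Tf Z, ∃ t₁ ∈ Tf, Conn (exE ζ Tf Z) t₁ τ ∧ ∀ s ∈ St, ¬ Conn ζ s t₁ := by
    obtain ⟨τ₁, m₁, τ₂, m₂, hne⟩ := Finset.one_lt_card.1 hb
    obtain ⟨t₁, n₁, c₁⟩ := reach_conn (mem_tips.1 m₁).1
    obtain ⟨t₂, n₂, c₂⟩ := reach_conn (mem_tips.1 m₂).1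
    by_contra hno
    push Not at hno
    obtain ⟨s₁, a₁, b₁⟩ := hno τ₁ m₁ t₁ n₁ c₁
    obtain ⟨s₂, a₂, b₂⟩ := hno τ₂ m₂ t₂ n₂ c₂
    obtain rfl := h1 _ a₁ _ a₂
    rcases three_odd hs ((hodd _).2 (Or.inr a₁)) (hg.odd _ n₁) (hg.odd _ n₂) b₁ b₂ with
      rfl | rfl | rfl
    · exact hfar _ n₁ (hSt _ a₁)
    · exact hfar _ n₂ (hSt _ a₁)
    · exact hne (hg.tips_sep m₁ m₂ (c₁.symm.trans c₂))
  obtain ⟨τ, hτ, t₁, ht₁, c₁, hno⟩ := key
  have c₂ : Conn ζ τ t₁ := (c₁.mono exE_subset).symm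
  have bic : ∀ σ, Conn ζ τ σ → ¬ TT σ Out → ∀ j, side σ j ∈ ζ →
      ∃ k k', k ≠ j ∧ col (vtx σ k) ∧ vtx (nbr σ j) k' = vtx σ k := by
    intro σ hσ ho j hj
    refine Gate_end ((hc _ fun ht => ho ht.tt).1 (Finset.mem_sdiff.2 ⟨hj, fun hE => ?_⟩))
    obtain ⟨s, hs1, hs2⟩ := reach_conn (reach_of_side hE)
    exact hno s hs1 ((hs2.mono exE_subset).trans (hσ.symm.trans c₂))
  by_contra hnf
  have small : ∀ y ∈ {x | x ∈ Rg ∧ col x},
      (∃ x, dst x p ≤ r + 1 ∧ Jn {x | x ∈ Rg ∧ col x} y x) → dst y p ≤ ρ - 1 := fun y hy hx =>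
    not_lt.1 fun hlt => hnf ⟨y, hy, hx, y, hlt, Jn.refl _ _⟩
  have inv : ∀ σ, Conn ζ τ σ → ∃ i, vtx σ i ∈ {x | x ∈ Rg ∧ col x} ∧
      ∃ x, dst x p ≤ r + 1 ∧ Jn {x | x ∈ Rg ∧ col x} (vtx σ i) x := by
    intro σ hσ
    induction hσ with
    | refl =>
      obtain ⟨i, a1, a2, a3, a4, -⟩ :=
        tip_spec hτ fun hm => Finset.disjoint_left.1 hg.disjoint hm hτ
      have n1 : i ≠ i + 1 := by generalize i = j; revert j; decide
      have n2 : i ≠ i + 2 := by generalize i = j; revert j; decide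
      have hX : vtx τ i ∈ X := by
        by_contra hX
        refine Gate_not_inside h (hall (exE_subset a4)) (inside_side.2 ⟨?_, ?_⟩)
        · exact (h.znb _ (Finset.mem_sdiff.2 ⟨a1, hX⟩) _ (adj_vtx τ n1)).resolve_left
            (exX_not_mem a2)
        · exact (h.znb _ (Finset.mem_sdiff.2 ⟨a1, hX⟩) _ (adj_vtx τ n2)).resolve_left
            (exX_not_mem a3)
      have hd := mem_bal.1 (Finset.mem_inter.1 (h.xsub hX)).2
      have hn := Gate_near h (h.xr hX) (by linarith [h.rρ])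
      obtain ⟨k, -, -, hk, -⟩ := bic τ (Conn.refl _ _) (Gate_not_out h hn) i (exE_subset a4)
      exact ⟨k, ⟨(hn k).resolve_right fun hw => hW _ hw hk, hk⟩, _,
        by linarith [dst_tri (vtx τ k) (vtx τ i) p, dst_vtx τ k i], Jn.refl _ _⟩
    | @tail σ _ hσ hstep ih =>
      obtain ⟨j, hj, rfl⟩ := hstep
      obtain ⟨i, hi, hx⟩ := ih
      have hn := Gate_near h hi.1 (small _ hi hx)
      obtain ⟨k, k', -, hk, e⟩ := bic σ hσ (Gate_not_out h hn) j hj
      have hk' : vtx σ k ∈ {x | x ∈ Rg ∧ col x} :=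
        ⟨(hn k).resolve_right fun hw => hW _ hw hk, hk⟩
      obtain ⟨x, hx1, hx2⟩ := hx
      exact ⟨k', e ▸ hk', x, hx1, e ▸ (Jn.vtx hk' hi).trans hx2⟩
  obtain ⟨i, hi, hx⟩ := inv t₁ c₂
  exact Gate_not_out h (Gate_near h hi.1 (small _ hi hx)) (hf _ ht₁)

/-- the colouring of what is left after the exploration towards `Out` -/
theorem Gate_col {D H Z X Rg : Finset Site} {Out W : Set Site} {p : Site} {r ρ : ℝ} {e₀ : Edge}
    (h : GateD D H Z X Rg Out W p r ρ e₀) {ζ : Finset Edge} {St : Finset Tri}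
    (hall : ζ ⊆ allowed D H) (hg : GoodSt ζ St Out) (h1 : ∀ t ∈ St, ∀ t' ∈ St, t = t')
    (hSt : ∀ t ∈ St, W = ∅ ∨ TT t W) : ∃ col : Site → Prop,
      (∀ e, ¬ Touch e Out → (e ∈ ζ \ exE ζ St Out ↔ ¬ (col (lft e) ↔ col (rgt e)))) ∧
      (∀ x ∈ W, ¬ col x) ∧ ∀ x ∈ exX ζ St Out, ¬ col x := by
  obtain ⟨S, hS⟩ := col2 (ζ \ exE ζ St Out) h.oconn fun t ht => ((hg.odd_sdiff t).1 ht).1
  have hW : ∀ x ∈ W, x ∉ S := by
    intro x hx
    rcases h.wall with hw | hw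
    · obtain ⟨w, hw1⟩ := Infinite.exists_notMem_finset (D ∪ S)
      rw [Finset.mem_union, not_or] at hw1
      have hj : Jn W w x := hw ▸ h.connO w hw1.1 x (hw ▸ hx)
      clear hx
      induction hj with
      | refl => exact hw1.2
      | tail _ hs ih =>
        obtain ⟨e, he⟩ := adj_iff.1 hs.2.2
        have hi : Inside e W := by
          rcases he with ⟨rfl, rfl⟩ | ⟨rfl, rfl⟩
          exacts [⟨hs.1, hs.2.1⟩, ⟨hs.2.1, hs.1⟩]
        have h2 : e ∉ bd S := fun hb => Gate_not_inside h (hall (Finset.mem_sdiff.1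
          ((hS e fun ht => ht.elim (fun h' => Set.disjoint_left.1 h.d3 h' hi.1)
            fun h' => Set.disjoint_left.1 h.d3 h' hi.2).2 hb)).1) hi
        rw [mem_bd, not_not] at h2
        rcases he with ⟨rfl, rfl⟩ | ⟨rfl, rfl⟩
        exacts [fun h' => ih (h2.2 h'), fun h' => ih (h2.1 h')]
    · exact absurd (hw ▸ hx) (Set.notMem_empty x)
  refine ⟨fun x => ¬ (x ∈ S ↔ ∃ t ∈ St, vtx t 0 ∈ S), fun e he => ?_, fun x hx => ?_,
    fun x hx => ?_⟩
  · rw [hS e he, mem_bd]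
    beta_reduce
    generalize (∃ t ∈ St, vtx t 0 ∈ S) = c
    tauto
  · refine not_not.2 (iff_of_false (hW x hx) ?_)
    rintro ⟨t, ht, h0⟩
    obtain ⟨t₀, ht₀, hc⟩ := exX_col hS hg.far
      (mem_exX.2 ⟨t, 0, Reach.start ht, hg.far t ht, rfl⟩)
    rcases hSt t₀ ht₀ with hw | ⟨i, hi⟩
    · exact absurd (hw ▸ hx) (Set.notMem_empty x)
    · exact hW _ hi ((hc i).1 h0)
  · obtain ⟨t₀, ht₀, hc⟩ := exX_col hS hg.far hx
    refine not_not.2 ⟨fun h' => ⟨t₀, ht₀, (hc 0).1 h'⟩, ?_⟩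
    rintro ⟨t, ht, h0⟩
    exact (hc 0).2 (h1 _ ht _ ht₀ ▸ h0)

theorem Gate_Gr {D H Z X Rg : Finset Site} {Out W : Set Site} {p : Site} {r ρ : ℝ} {e₀ : Edge}
    (h : GateD D H Z X Rg Out W p r ρ e₀) {S : Finset Site} (hS : S ⊆ Rg) : S ∈ Gr D H :=
  mem_Gr.2 ⟨fun _ hx => (Finset.mem_sdiff.1 (h.rsub (hS hx))).1,
    Or.inr (Finset.disjoint_left.2 fun _ hx => (Finset.mem_sdiff.1 (h.rsub (hS hx))).2)⟩

/-- the sides of a start are not changed by the resampling -/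
theorem Gate_side {ζ : Finset Edge} {St : Finset Tri} {T : Set Site} {S : Finset Site}
    (hS : Disjoint S (exX ζ St T)) {t : Tri} (ht : t ∈ St) (hT : ¬ TT t T) (i : Fin 3) :
    side t i ∉ bd S := by
  have : ∀ j, vtx t j ∉ S := fun j hj =>
    Finset.disjoint_left.1 hS hj (mem_exX.2 ⟨t, j, Reach.start ht, hT, rfl⟩)
  rw [side_mem_bd, not_not]
  exact iff_of_false (this _) (this _)

/-- the bound given the exploration -/
theorem Gate_fix {D H Z X Rg : Finset Site} {Out W : Set Site} {p : Site} {r ρ q : ℝ} {e₀ : Edge}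
    (h : GateD D H Z X Rg Out W p r ρ e₀) (hq : ArmB (r + 1) (ρ - 1) q) {ζ : Finset Edge}
    {Tf St : Finset Tri} (hf : ∀ t ∈ Tf, TT t Out ∧ ∃ i, side t i ∉ allowed D H)
    (hall : ζ ⊆ allowed D H) (hodd : ∀ t, IsOdd ζ t ↔ t ∈ Tf ∨ t ∈ St)
    (h1 : ∀ t ∈ St, ∀ t' ∈ St, t = t')
    (hSt : ∀ t ∈ St, TT t Z ∧ (W = ∅ ∨ TT t W) ∧ ∃ i, side t i ∉ ζ) :
    pr (Rg \ exX ζ St Out).powerset (fun S => 2 ≤ (tips (ζ ∆ bd S) Tf Z).card) ≤ q := by
  have hfar : ∀ t ∈ St, ¬ TT t Out := fun t ht => h.not_tt (hSt t ht).1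
  have simp1 : ∀ ζ' : Finset Edge, ζ' ⊆ allowed D H → (∀ t, IsOdd ζ' t → t ∈ Tf ∨ t ∈ St) →
      (∀ t ∈ St, ∃ i, side t i ∉ ζ') → Simple ζ' := by
    intro ζ' a1 a2 a3 t
    by_cases ho : IsOdd ζ' t
    · rcases a2 t ho with ht | ht
      · obtain ⟨i, hi⟩ := (hf t ht).2
        exact deg_le_two_of_not_mem fun h' => hi (a1 h')
      · obtain ⟨i, hi⟩ := a3 t ht
        exact deg_le_two_of_not_mem hi
    · exact deg_le_two_of_not_odd ho
  have hg : GoodSt ζ St Out := ⟨simp1 ζ hall (fun t => (hodd t).1) fun t ht => (hSt t ht).2.2,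
    fun t ht => (hodd t).2 (Or.inr ht), hfar,
    fun t ht hz => ((hodd t).1 ht).elim (fun h' => absurd (hf t h').1 hz) id⟩
  obtain ⟨col, hc, hW, hX⟩ := Gate_col h hall hg h1 fun t ht => (hSt t ht).2.1
  refine (pr_mono fun S hS hb => ?_).trans
    (hq.shift p (S₀ := (Rg \ exX ζ St Out).filter col) (Finset.filter_subset _ _))
  rw [Finset.mem_powerset] at hS
  have hS1 : S ⊆ Rg := hS.trans Finset.sdiff_subset
  have hS2 : Disjoint S (exX ζ St Out) :=
    Finset.disjoint_left.2 fun _ hx => (Finset.mem_sdiff.1 (hS hx)).2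
  obtain ⟨-, e2, -, e4⟩ := expl_act (Or.inr hS2)
  have hall' : ζ ∆ bd S ⊆ allowed D H := fun e he =>
    (Finset.mem_symmDiff.1 he).elim (fun h' => hall h'.1) fun h' => bd_Gr (Gate_Gr h hS1) h'.1
  have hodd' : ∀ t, IsOdd (ζ ∆ bd S) t ↔ t ∈ Tf ∨ t ∈ St := fun t => by
    have := not_isOdd_bd S t
    rw [isOdd_symmDiff, ← hodd]
    tauto
  obtain ⟨b, hb1, ⟨x, hx1, hx2⟩, y, hy1, hy2⟩ := Gate_det h hall'
    (simp1 _ hall' (fun t => (hodd' t).1) fun t ht => by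
      obtain ⟨i, hi⟩ := (hSt t ht).2.2
      exact ⟨i, fun h' => (Finset.mem_symmDiff.1 h').elim (fun h' => hi h'.1)
        fun h' => Gate_side hS2 ht (hfar t ht) i h'.1⟩)
    hodd' h1 (fun t ht => (hSt t ht).1) (fun t ht => (hf t ht).1)
    (col := fun x => ¬ (col x ↔ x ∈ S)) (fun e he => by
      rw [e2, e4, Finset.mem_symmDiff, hc e he, mem_bd]
      tauto)
    (fun x hx => not_not.2 (iff_of_false (hW x hx) fun h' => by
      have := Finset.mem_sdiff.1 (h.rsub (hS1 h'))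
      rcases h.wall with hw | hw
      · exact (hw ▸ hx : x ∈ (D : Set Site)ᶜ) this.1
      · exact absurd (hw ▸ hx) (Set.notMem_empty x))) hb
  have sub : {x | x ∈ Rg ∧ ¬ (col x ↔ x ∈ S)} ⊆
      (S ∆ (Rg \ exX ζ St Out).filter col : Finset Site) := by
    rintro z ⟨z1, z2⟩
    have z3 : z ∉ exX ζ St Out := fun h' =>
      z2 (iff_of_false (hX z h') fun h'' => Finset.disjoint_left.1 hS2 h'' h')
    rw [Finset.mem_coe, Finset.mem_symmDiff, Finset.mem_filter, Finset.mem_sdiff]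
    tauto
  exact ⟨b, sub hb1, ⟨x, hx1, hx2.mono sub⟩, y, hy1, hy2.mono sub⟩

theorem Gate_odd_single (e : Edge) (t : Tri) : IsOdd {e} t ↔ t = up e ∨ t = dn e := by
  have n1 : e.2 + 1 ≠ e.2 := by generalize e.2 = i; revert i; decide
  have n2 : e.2 + 2 ≠ e.2 := by generalize e.2 = i; revert i; decide
  simp [isOdd_iff _ t e.2, side_eq_iff, n1, n2]

/-- the odd triangle next to an erased edge -/
def Gate_st (ξ : Finset Edge) (e : Edge) : Tri := if e ∈ ξ then dn e else up e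

theorem Gate_st_side (ξ : Finset Edge) (e : Edge) : side (Gate_st ξ e) e.2 = e := by
  unfold Gate_st
  split_ifs <;> simp

/-- the reduced case: at most one near source, `up e₀` -/
theorem Gate_red {D H Z X Rg : Finset Site} {Out W : Set Site} {p : Site} {r ρ q : ℝ} {e₀ : Edge}
    (h : GateD D H Z X Rg Out W p r ρ e₀) (hq : ArmB (r + 1) (ρ - 1) q) {Tf : Finset Tri}
    (hf : ∀ t ∈ Tf, TT t Out ∧ ∃ i, side t i ∉ allowed D H) {E : Finset Edge} (hE : E ⊆ {e₀}) :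
    pr (Om D H (Tf ∪ E.image up)) (fun ξ => 2 ≤ (tips ξ Tf Z).card) ≤ q := by
  have hZ : ∀ ξ, TT (Gate_st ξ e₀) Z := fun ξ =>
    Touch.tt (i := e₀.2) (by rw [Gate_st_side]; exact h.e1)
  have hmem : ∀ ξ, ∀ t ∈ E.image (Gate_st ξ), e₀ ∈ E ∧ t = Gate_st ξ e₀ := fun ξ t ht => by
    obtain ⟨e, he, rfl⟩ := Finset.mem_image.1 ht
    obtain rfl := Finset.mem_singleton.1 (hE he)
    exact ⟨he, rfl⟩
  have hbd : ∀ ξ S, S ⊆ Rg \ exX (ξ \ E) (E.image (Gate_st ξ)) Out → ∀ e ∈ E, e ∉ bd S := by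
    intro ξ S hS e he
    obtain rfl := Finset.mem_singleton.1 (hE he)
    have := Gate_side (Finset.disjoint_left.2 fun _ hx => (Finset.mem_sdiff.1 (hS hx)).2)
      (Finset.mem_image_of_mem _ he) (h.not_tt (hZ ξ)) e.2
    rwa [Gate_st_side] at this
  have hsd : ∀ ξ S, S ⊆ Rg \ exX (ξ \ E) (E.image (Gate_st ξ)) Out →
      (ξ ∆ bd S) \ E = (ξ \ E) ∆ bd S := fun ξ S hS => by
    ext e
    have := hbd ξ S hS e
    simp only [Finset.mem_sdiff, Finset.mem_symmDiff]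
    tauto
  rw [pr, markov_act _ (fun ξ S => ξ ∆ bd S)
    (fun ξ => (Rg \ exX (ξ \ E) (E.image (Gate_st ξ)) Out).powerset)
    (fun _ _ => Finset.powerset_nonempty _)]
  · refine avg_le hq.nonneg fun ξ hξ => ?_
    obtain ⟨a1, a2⟩ := mem_Om.1 hξ
    refine le_trans (le_of_eq (pr_congr fun S hS => ?_))
      (Gate_fix h hq hf (ζ := ξ \ E) (St := E.image (Gate_st ξ)) (Finset.sdiff_subset.trans a1)
        (fun t => ?_) (fun t ht t' ht' => (hmem ξ t ht).2.trans (hmem ξ t' ht').2.symm)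
        fun t ht => ?_)
    · rw [← hsd ξ S (Finset.mem_powerset.1 hS), (expl_congr_off (ξ := ξ ∆ bd S)
        (ξ' := (ξ ∆ bd S) \ E) (St := Tf) (T := Z) fun e he => ?_).2.2]
      refine ⟨fun h' => Finset.mem_sdiff.2 ⟨h', fun h'' => he ?_⟩,
        fun h' => (Finset.mem_sdiff.1 h').1⟩
      rw [Finset.mem_singleton.1 (hE h'')]
      exact h.e1
    · rcases Finset.subset_singleton_iff.1 hE with rfl | rfl
      · simp [a2]
      have u1 : up e₀ ∉ Tf := fun h' => h.not_tt h.e1.tt_up (hf _ h').1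
      have u2 : dn e₀ ∉ Tf := fun h' => h.not_tt h.e1.tt_dn (hf _ h').1
      have u3 := up_ne_dn e₀ e₀
      rw [Finset.image_singleton, Finset.mem_singleton, Gate_st]
      split_ifs with he
      · have e : ξ \ {e₀} = ξ ∆ {e₀} := by
          ext e
          simp only [Finset.mem_sdiff, Finset.mem_symmDiff, Finset.mem_singleton]
          constructor
          · exact Or.inl
          · rintro (h' | ⟨rfl, h'⟩)
            exacts [h', absurd he h']
        rw [e, isOdd_symmDiff, a2, Gate_odd_single, Finset.image_singleton, Finset.mem_union,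
          Finset.mem_singleton]
        by_cases t1 : t = up e₀
        · subst t1
          simp [u1, u3]
        by_cases t2 : t = dn e₀
        · subst t2
          simp [u2, t1]
        · simp [t1, t2]
      · rw [Finset.sdiff_singleton_eq_erase, Finset.erase_eq_of_notMem he, a2,
          Finset.image_singleton, Finset.mem_union, Finset.mem_singleton]
    · obtain ⟨he, rfl⟩ := hmem ξ t ht
      refine ⟨hZ ξ, h.e2.imp id fun h' => Touch.tt (i := e₀.2) ?_, e₀.2, ?_⟩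
      · rw [Gate_st_side]
        exact h'
      · rw [Gate_st_side]
        exact fun h' => (Finset.mem_sdiff.1 h').2 he
  · intro ξ hξ S hS
    rw [Finset.mem_powerset] at hS
    refine ⟨Om_act hξ (Gate_Gr h (hS.trans Finset.sdiff_subset)), ?_,
      symmDiff_symmDiff_cancel_right _ _⟩
    have e : E.image (Gate_st (ξ ∆ bd S)) = E.image (Gate_st ξ) :=
      Finset.image_congr fun e he => by
        have := hbd ξ S hS e he
        simp [Gate_st, Finset.mem_symmDiff, this]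
    rw [e, hsd ξ S hS, (expl_act (Or.inr (Finset.disjoint_left.2
      fun _ hx => (Finset.mem_sdiff.1 (hS hx)).2))).1]

/-- B6. `hug2` and `Om_xor` reduce to `Tn = ∅` (no exploration, `e₀` is not erased) or
`Tn = {up e₀}`. If the number of odd triangles is odd the space is empty. -/
theorem gate {D H Z X Rg : Finset Site} {Out W : Set Site} {p : Site} {r ρ q : ℝ} {e₀ : Edge}
    (h : GateD D H Z X Rg Out W p r ρ e₀) (hq : ArmB (r + 1) (ρ - 1) q) {Tf Tn : Finset Tri}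
    (hf : ∀ t ∈ Tf, TT t Out ∧ ∃ i, side t i ∉ allowed D H) (hn : ∀ t ∈ Tn, TT t Z) :
    pr (Om D H (Tf ∪ Tn)) (fun ξ => 2 ≤ (tips ξ Tf Z).card) ≤ q := by
  obtain ⟨E, hE, hev⟩ : ∃ E : Finset Edge, E ⊆ {e₀} ∧ Even (Tn ∆ E.image up).card := by
    rcases Nat.even_or_odd Tn.card with he | ho
    · exact ⟨∅, Finset.empty_subset _, by
        rwa [Finset.image_empty, ← Finset.bot_eq_empty, symmDiff_bot]⟩
    refine ⟨{e₀}, subset_rfl, ?_⟩
    rw [Finset.image_singleton]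
    by_cases hm : up e₀ ∈ Tn
    · have e : Tn ∆ {up e₀} = Tn.erase (up e₀) := by
        ext t
        simp only [Finset.mem_symmDiff, Finset.mem_singleton, Finset.mem_erase]
        constructor
        · rintro (h' | ⟨rfl, h'⟩)
          exacts [h'.symm, absurd hm h']
        · exact fun h' => Or.inl h'.symm
      rw [e, Finset.card_erase_of_mem hm]
      exact Nat.Odd.sub_odd ho odd_one
    · have e : Tn ∆ {up e₀} = insert (up e₀) Tn := by
        ext t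
        simp only [Finset.mem_symmDiff, Finset.mem_singleton, Finset.mem_insert]
        constructor
        · rintro (h' | h')
          exacts [Or.inr h'.1, Or.inl h'.1]
        · rintro (rfl | h')
          exacts [Or.inr ⟨rfl, hm⟩, Or.inl ⟨h', fun e => hm (e ▸ h')⟩]
      rw [e, Finset.card_insert_of_notMem hm]
      exact ho.add_one
  have hup : ∀ t ∈ E.image up, TT t Z := fun t ht => by
    obtain ⟨e, he, rfl⟩ := Finset.mem_image.1 ht
    rw [Finset.mem_singleton.1 (hE he)]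
    exact h.e1.tt_up
  obtain ⟨π, π1, π2⟩ := hug2 h.zconn (fun t ht => (Finset.mem_symmDiff.1 ht).elim
    (fun h' => hn t h'.1) fun h' => hup t h'.1) hev
  have hb := Om_xor (D := D) (H := H) (T := Tf ∪ Tn) (fun e he => mem_allowed.2
    ⟨(π1 e he).imp (fun h' => (Finset.mem_sdiff.1 (h.zsub h')).1)
      fun h' => (Finset.mem_sdiff.1 (h.zsub h')).1, fun hi => (π1 e he).elim
      (fun h' => (Finset.mem_sdiff.1 (h.zsub h')).2 hi.1)
      fun h' => (Finset.mem_sdiff.1 (h.zsub h')).2 hi.2⟩) π2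
  have e : (Tf ∪ Tn) ∆ (Tn ∆ E.image up) = Tf ∪ E.image up := by
    ext t
    have a1 : t ∈ Tf → t ∉ Tn := fun h1 h2 => h.not_tt (hn t h2) (hf t h1).1
    have a2 : t ∈ Tf → t ∉ E.image up := fun h1 h2 => h.not_tt (hup t h2) (hf t h1).1
    simp only [Finset.mem_symmDiff, Finset.mem_union]
    tauto
  rw [e] at hb
  refine le_trans (le_of_eq ?_) (Gate_red h hq hf hE)
  rw [← pr_bij _ hb]
  refine pr_congr fun ξ _ => ?_
  rw [(expl_congr_off (ξ := ξ) (ξ' := ξ ∆ π) (St := Tf) (T := Z) fun e he => ?_).2.2]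
  have : e ∉ π := fun h' => he (π1 e h')
  simp [Finset.mem_symmDiff, this]

end Pool.Agent.TAF.U
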