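import Pool.Agent.P.MP_cb4022_pr.U.ObsB
import Pool.Agent.P.MP_cb4022_pr.U.Gate

/-! Equicontinuity from the gate lemma (paper C6, C7). -/

open scoped Classical symmDiff

noncomputable section

namespace Pool.Agent.TAF.U

section
variable {s R : ℝ} {D H Z X Rg : Finset Site} {V U : Finset Tri} {Out W : Set Site} {c : Site}
  {r ρ q : ℝ} {e₀ : Edge}

theorem Good_side {A : Set Site} {ξ ξ' : Finset Edge} (h : ∀ e, ¬ Touch e A → (e ∈ ξ ↔ e ∈ ξ'))
    {w : Tri} (hw : ∀ τ, Conn ξ w τ → ¬ TT τ A) :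
    ∀ τ, Conn ξ w τ → ∀ i, side τ i ∈ ξ ↔ side τ i ∈ ξ' :=
  fun τ hτ _ => h _ fun h1 => hw τ hτ h1.tt

/-- two starts whose components touch the target are joined if there is only one tip -/
theorem Good_join {A : Set Site} {ξ : Finset Edge} {St : Finset Tri}
    (h : ¬ 2 ≤ (tips ξ St A).card) {w w' τ τ' : Tri} (hw : w ∈ St) (hw' : w' ∈ St)
    (c1 : Conn ξ w τ) (c2 : Conn ξ w' τ') (t1 : TT τ A) (t2 : TT τ' A) : Conn ξ w w' := by
  obtain ⟨a, ha, h1⟩ := (conn_cases (ξ := ξ) (T := A) hw).resolve_right fun h => (h τ c1).2.1 t1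
  obtain ⟨b, hb, h2⟩ := (conn_cases (ξ := ξ) (T := A) hw').resolve_right fun h => (h τ' c2).2.1 t2
  obtain rfl := Finset.card_le_one.1 (Nat.lt_succ_iff.1 (not_le.1 h)) a ha b hb
  exact (h1.mono exE_subset).trans (h2.mono exE_subset).symm

theorem Good_zeta_mem {ξ : Finset Edge} {t : Tri} {i : Fin 3} {e : Edge}
    (h : zeta ξ t i e ≠ 0) : e ∈ ξ := by
  by_contra h1
  have h2 : line (ξ.erase (side t i)) (tz ξ t i) e = 0 := by
    by_contra h2
    exact h1 (Finset.mem_of_mem_erase (line_supp h2).1)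
  refine h ?_
  rw [zeta, Finsupp.add_apply, Finsupp.neg_apply, h2, neg_zero, zero_add]
  split_ifs with h3
  · exact Finsupp.single_eq_of_ne fun h4 => h1 (h4 ▸ h3)
  · rfl

theorem Good_zeta_side {ξ : Finset Edge} {t τ : Tri} {i j : Fin 3}
    (h : ¬ Conn (ξ.erase (side t i)) (tz ξ t i) τ) (h' : side t i ∈ ξ → side τ j ≠ side t i) :
    zeta ξ t i (side τ j) = 0 := by
  rw [zeta, Finsupp.add_apply, Finsupp.neg_apply, line_side_zero h, neg_zero, zero_add]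
  split_ifs with h3
  · exact Finsupp.single_eq_of_ne (h' h3)
  · rfl

theorem Good_allowed (hz : Z ⊆ D \ H) {e : Edge} (he : Touch e Z) : e ∈ allowed D H := by
  refine mem_allowed.2 ⟨he.imp (fun h => ?_) fun h => ?_, fun h1 => he.elim (fun h => ?_) fun h => ?_⟩
  exacts [(Finset.mem_sdiff.1 (hz h)).1, (Finset.mem_sdiff.1 (hz h)).1,
    (Finset.mem_sdiff.1 (hz h)).2 h1.1, (Finset.mem_sdiff.1 (hz h)).2 h1.2]

/-- what is used of one reading -/
theorem Good_read (hf : ∀ τ ∈ V ∪ U, ¬ TT τ Z) {t : Tri} {i p : Fin 3} (a1 : vtx t p ∈ Z)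
    (b1 : Touch (side t i) Z ∨ side t i ∉ allowed D H) {ξ : Finset Edge}
    (hξ : ξ ∈ Om D H (insert t (V ∪ U))) :
    RdOK D H V U t i ∧ TT (tz ξ t i) Z ∧ (side t i ∈ ξ → Touch (side t i) Z) ∧
      ∀ e, ¬ Touch e Z → (e ∈ ξ.erase (side t i) ↔ e ∈ ξ) := by
  have h1 : side t i ∈ allowed D H → Touch (side t i) Z := fun h => b1.resolve_right (not_not.2 h)
  have h2 : side t i ∈ ξ → Touch (side t i) Z := fun h => h1 ((mem_Om.1 hξ).1 h)
  have h3 : Touch (side t i) Z → TT (nbr t i) Z := fun h => Touch.tt (i := i) (by rwa [side_nbr])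
  refine ⟨⟨fun h => hf t h ⟨p, a1⟩, fun h h' => hf _ h' (h3 (h1 h))⟩, ?_, h2, fun e he => ?_⟩
  · unfold tz
    split_ifs with h
    exacts [h3 (h2 h), ⟨p, a1⟩]
  · rw [Finset.mem_erase]
    exact ⟨And.right, fun h => ⟨fun h4 => he (h4 ▸ h2 (h4 ▸ h)), h⟩⟩

/-- off the bad event the pattern and the weight only depend on the edges far from `Z` -/
theorem Good_core (h : Frame s R D H V U) (hne : U.Nonempty) (x : ℂ) (hz : Z ⊆ D \ H)
    (hc : SConn Z) (hZ : Disjoint Z (bal 0 s)) (hf : ∀ τ ∈ V ∪ U, ¬ TT τ Z) {μ : Site → ℤ}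
    (hμ : ∀ e, Inside e Z → cob μ e = kap e) {t t' : Tri} {i p i' p' : Fin 3}
    (a1 : vtx t p ∈ Z) (a2 : vtx t' p' ∈ Z) (b1 : Touch (side t i) Z ∨ side t i ∉ allowed D H)
    (b2 : Touch (side t' i') Z ∨ side t' i' ∉ allowed D H) {ξ ξ' : Finset Edge}
    (hξ : ξ ∈ Om D H (insert t (V ∪ U))) (hξ' : ξ' ∈ Om D H (insert t' (V ∪ U)))
    (he : ∀ e, ¬ Touch e Z → (e ∈ ξ ↔ e ∈ ξ')) (hb : ¬ 2 ≤ (tips ξ (V ∪ U) Z).card)
    (hA : PatA ξ V U t i) : PatA ξ' V U t' i' ∧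
      wt D H U x t i p (μ (vtx t p)) ξ = wt D H U x t' i' p' (μ (vtx t' p')) ξ' := by
  obtain ⟨r1, z1, s1, e1⟩ := Good_read hf a1 b1 hξ
  obtain ⟨r2, z2, s2, e2⟩ := Good_read hf a2 b2 hξ'
  obtain ⟨m1, n1⟩ := read_mem r1 hξ
  obtain ⟨m2, n2⟩ := read_mem r2 hξ'
  have S1 := read_simple h r1 hξ
  have S2 := read_simple h r2 hξ'
  have e3 : ∀ e, ¬ Touch e Z → (e ∈ ξ.erase (side t i) ↔ e ∈ ξ'.erase (side t' i')) :=
    fun e h1 => (e1 e h1).trans ((he e h1).trans (e2 e h1).symm)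
  rw [(expl_congr_off e1).2.2] at hb
  obtain ⟨V₁, -, v, hv, -, c1, -, -, d1, η, Φ, hP⟩ := patA_spec h r1 hξ hA
  have hv' : v ∈ V := (Finset.mem_sdiff.1 hv).1
  have o1 := (mem_Om.1 m1).2
  have o2 := (mem_Om.1 m2).2
  have far : ∀ w ∈ V ∪ U, w ≠ v → ∀ τ, Conn (ξ.erase (side t i)) w τ → ¬ TT τ Z :=
    fun w hw hn τ c t1 => by
      have h1 := Good_join hb hw (Finset.mem_union_left _ hv') c c1.symm t1 z1
      rcases three_odd S1 ((o1 _).2 (Finset.mem_insert_self _ _))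
        ((o1 v).2 (Finset.mem_insert_of_mem (Finset.mem_union_left _ hv')))
        ((o1 w).2 (Finset.mem_insert_of_mem hw)) c1 (c1.trans h1.symm) with h2 | h2 | h2
      exacts [n1 (h2 ▸ Finset.mem_union_left _ hv'), n1 (h2 ▸ hw), hn h2.symm]
  have uniq : ∀ w ∈ V ∪ U, Conn (ξ'.erase (side t' i')) (tz ξ' t' i') w → w = v :=
    fun w hw c => by
      by_contra hn
      exact far w hw hn _ ((conn_congr (Good_side e3 (far w hw hn)) _).1 c.symm) z2
  have farU : ∀ u ∈ U, ∀ τ, Conn (ξ.erase (side t i)) u τ → ¬ TT τ Z := fun u hu =>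
    far u (Finset.mem_union_right _ hu) fun h1 =>
      Finset.disjoint_left.1 h.disjoint hv' (h1 ▸ hu)
  have hA' : PatA ξ' V U t' i' := by
    refine ⟨fun u hu => ?_, v, hv', ?_⟩
    · obtain ⟨w, hw, c⟩ := hA.1 u hu
      exact ⟨w, hw, (conn_congr (Good_side e3 (farU u hu)) _).2 c⟩
    · obtain ⟨w, w1, w2, w3, -⟩ := exists_mate S2 ((o2 _).2 (Finset.mem_insert_self _ _))
      exact uniq w ((Finset.mem_insert.1 ((o2 w).1 w1)).resolve_left w2) w3 ▸ w3
  refine ⟨hA', ?_⟩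
  obtain ⟨V₂, -, v', hv2, -, c2, -, -, d2, -⟩ := patA_spec h r2 hξ' hA'
  obtain rfl := uniq v' (Finset.mem_union_left _ (Finset.mem_sdiff.1 hv2).1) c2
  have hL : Lf (ξ'.erase (side t' i')) U = Lf (ξ.erase (side t i)) U :=
    congrArg Neg.neg (Finset.sum_congr rfl fun u hu => line_congr (Good_side e3 (farU u hu)))
  have L0 : ∀ τ, TT τ Z → ∀ j, Lf (ξ.erase (side t i)) U (side τ j) = 0 := fun τ h1 j =>
    Lf_side_zero (fun u hu c => farU u hu τ c h1) j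
  have hj : ∀ a ∈ Z, jv D H (Lf (ξ.erase (side t i)) U) U.card a = Φ a := fun a ha =>
    jv_eq (h.toDom.sub h.zero) h.hs h.connD hP (Finset.mem_sdiff.1 (hz ha)).1
      (Finset.disjoint_left.1 hZ ha)
  have E1 : Φ (vtx t p) + U.card * μ (vtx t p) = Φ (vtx t' p') + U.card * μ (vtx t' p') := by
    refine Jn.const (Φ := fun a => Φ a + U.card * μ a) (fun e hi => ?_) (hc _ a1 _ a2)
    have h1 := hP.pot e ⟨(Finset.mem_sdiff.1 (hz hi.1)).1, (Finset.mem_sdiff.1 (hz hi.2)).1⟩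
    have h2 := L0 (up e) (Touch.tt_up (Or.inl hi.1)) e.2
    have h3 : η e = 0 := by
      by_contra h3
      exact (hP.supp e h3).elim (Finset.mem_sdiff.1 (hz hi.1)).2 (Finset.mem_sdiff.1 (hz hi.2)).2
    rw [side_up] at h2
    rw [h2, h3, ← hμ e hi] at h1
    simp only [cob] at h1 ⊢
    linear_combination h1
  obtain ⟨ν, k1, k2⟩ := exists_lift_tri (Z := Z)
    (fun h0 => (Finset.mem_sdiff.1 (hz h0)).2 h.zero) hμ
  obtain ⟨φ, f1, f2⟩ := hug hc ⟨p, a1⟩ ⟨p', a2⟩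
  have E2 : Mc φ = ν t' - ν t := lc_pair φ cutInd ν (fun e h1 => (k2 e (f1 e h1)).symm) f2
  have na : ∀ e, e ∉ allowed D H → (zeta ξ' t' i' - zeta ξ t i - φ) e = 0 := fun e h1 => by
    have g1 : zeta ξ' t' i' e = 0 := not_not.1 fun h2 => h1 ((mem_Om.1 hξ').1 (Good_zeta_mem h2))
    have g2 : zeta ξ t i e = 0 := not_not.1 fun h2 => h1 ((mem_Om.1 hξ).1 (Good_zeta_mem h2))
    have g3 : φ e = 0 := not_not.1 fun h2 => h1 (Good_allowed hz (f1 e h2))
    rw [Finsupp.sub_apply, Finsupp.sub_apply, g1, g2, g3, sub_zero, sub_zero]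
  obtain ⟨u, hu⟩ := hne
  obtain ⟨w, hw, cw⟩ := hA.1 u hu
  have E3 : Mc (zeta ξ' t' i' - zeta ξ t i - φ) = 0 := by
    refine Mc_zero_of_chain (fun τ => ?_) (H := H) (O := (D : Set Site)ᶜ) h.zero h.connH h.connO
      D.finite_toSet.infinite_compl (fun e h1 => na e fun h2 => (mem_allowed.1 h2).2 h1)
      (fun e h1 => na e fun h2 => not_touch_iff.2 h1 (mem_allowed.1 h2).1)
      ((h.out u hu).elim fun a ha => ⟨_, ha.2.1⟩) ((h.inn w hw).elim fun a ha => ⟨_, ha.2.1⟩) cw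
      fun τ c j => ?_
    · rw [Finsupp.coe_sub, Finsupp.coe_sub, dv_sub, dv_sub, d1, d2, f2]
      ring
    · have g0 := farU u hu τ c
      have g1 : zeta ξ' t' i' (side τ j) = 0 := Good_zeta_side
        (fun c' => farU u hu _ ((conn_congr (Good_side e3 (farU u hu)) _).1
          (((conn_congr (Good_side e3 (farU u hu)) _).2 c).trans c'.symm)) z2)
        fun h1 h2 => g0 (Touch.tt (h2 ▸ s2 h1))
      have g2 : zeta ξ t i (side τ j) = 0 := Good_zeta_side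
        (fun c' => farU u hu _ (c.trans c'.symm) z1) fun h1 h2 => g0 (Touch.tt (h2 ▸ s1 h1))
      have g3 : φ (side τ j) = 0 := not_not.1 fun h2 => g0 (f1 _ h2).tt
      rw [Finsupp.sub_apply, Finsupp.sub_apply, g1, g2, g3, sub_zero, sub_zero]
  rw [map_sub, map_sub, E2] at E3
  rw [wt, wt, hL, hj _ a1, hj _ a2, E1, inc_eq_zero fun j _ _ => L0 t ⟨p, a1⟩ j,
    inc_eq_zero fun j _ _ => L0 t' ⟨p', a2⟩ j, ← k1 t p a1, ← k1 t' p' a2, map_add, map_add]
  congr 2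
  linear_combination E3

theorem Good_tip (h : Frame s R D H V U) {τ : Tri} (hτ : τ ∈ V ∪ U) :
    ∃ i, side τ i ∉ allowed D H :=
  (Finset.mem_union.1 hτ).elim (fun h1 => (h.inn τ h1).not_allowed)
    fun h1 => (h.out τ h1).not_allowed

/-- C6. `Om_xor` with a configuration from `hug2` in `Z`; off the bad event the weights agree
(`conn_cases`, `line_congr`, `jv_eq`, `Mc_zero_of_chain`, `exists_lift_tri`, `lc_pair`). -/
theorem obs_close (h : Frame s R D H V U) (hne : U.Nonempty) {x : ℂ} (hx : ‖x‖ = 1)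
    (hg : GateD D H Z X Rg Out W c r ρ e₀) (hq : ArmB (r + 1) (ρ - 1) q)
    (hZ : Disjoint Z (bal 0 s)) (ho : ∀ τ ∈ V ∪ U, TT τ Out) {μ : Site → ℤ}
    (hμ : ∀ e, Inside e Z → cob μ e = kap e) {t t' : Tri} {i p i' p' : Fin 3}
    (a1 : vtx t p ∈ Z) (a2 : vtx t' p' ∈ Z) (b1 : Touch (side t i) Z ∨ side t i ∉ allowed D H)
    (b2 : Touch (side t' i') Z ∨ side t' i' ∉ allowed D H) :
    ‖obs D H V U x t i p (μ (vtx t p)) - obs D H V U x t' i' p' (μ (vtx t' p'))‖ ≤ 2 * q := by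
  have hf : ∀ τ ∈ V ∪ U, ¬ TT τ Z := fun τ h1 h2 => hg.not_tt h2 (ho τ h1)
  have n1 : t ∉ V ∪ U := fun h1 => hf t h1 ⟨p, a1⟩
  have n2 : t' ∉ V ∪ U := fun h1 => hf t' h1 ⟨p', a2⟩
  obtain ⟨π, p1, p2⟩ := hug2 hg.zconn (T := {t} ∆ {t'}) (fun τ h1 => by
      rcases Finset.mem_symmDiff.1 h1 with h2 | h2
      · exact Finset.mem_singleton.1 h2.1 ▸ ⟨p, a1⟩
      · exact Finset.mem_singleton.1 h2.1 ▸ ⟨p', a2⟩) (by
      by_cases h1 : t = t'
      · simp [h1]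
      · rw [Disjoint.symmDiff_eq_sup (Finset.disjoint_singleton.2 h1), Finset.sup_eq_union,
          Finset.card_union_of_disjoint (Finset.disjoint_singleton.2 h1)]
        simp)
  have hb := Om_xor (T := insert t (V ∪ U)) (fun e he => Good_allowed hg.zsub (p1 e he)) p2
  have e1 : insert t (V ∪ U) ∆ ({t} ∆ {t'}) = insert t' (V ∪ U) := by
    ext τ
    simp only [Finset.mem_symmDiff, Finset.mem_insert, Finset.mem_singleton]
    by_cases h1 : τ ∈ V ∪ U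
    · have h2 : τ ≠ t := fun h2 => n1 (h2 ▸ h1)
      have h3 : τ ≠ t' := fun h3 => n2 (h3 ▸ h1)
      tauto
    · tauto
  rw [e1] at hb
  have hG := gate hg hq (Tf := V ∪ U) (Tn := {t}) (fun τ h1 => ⟨ho τ h1, Good_tip h h1⟩)
    fun τ h1 => Finset.mem_singleton.1 h1 ▸ ⟨p, a1⟩
  rw [Finset.union_comm, ← Finset.insert_eq] at hG
  rw [obs, obs, ← avg_bij _ hb, ← avg_sub]
  refine (norm_avg_le (g := fun ξ => 2 * if 2 ≤ (tips ξ (V ∪ U) Z).card then (1 : ℝ) else 0)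
    fun ξ hξ => ?_).trans ?_
  · have he : ∀ e, ¬ Touch e Z → (e ∈ ξ ↔ e ∈ ξ ∆ π) := fun e h1 => by
      have h2 : e ∉ π := fun h2 => h1 (p1 e h2)
      simp [Finset.mem_symmDiff, h2]
    by_cases hB : 2 ≤ (tips ξ (V ∪ U) Z).card
    · rw [if_pos hB]
      refine (norm_sub_le _ _).trans ?_
      split_ifs <;> simp only [norm_wt hx, norm_zero] <;> norm_num
    · rw [if_neg hB, mul_zero, norm_le_zero_iff, sub_eq_zero]
      by_cases hA : PatA ξ V U t i
      · obtain ⟨h1, h2⟩ := Good_core h hne x hg.zsub hg.zconn hZ hf hμ a1 a2 b1 b2 hξ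
          (hb.mapsTo hξ) he hB hA
        rw [if_pos hA, if_pos h1, h2]
      · rw [if_neg hA, if_neg fun hA' => hA (Good_core h hne x hg.zsub hg.zconn hZ hf hμ a2 a1 b2 b1
          (hb.mapsTo hξ) hξ (fun e h1 => (he e h1).symm)
          (by rwa [(expl_congr_off he).2.2]) hA').1]
  · rw [avg_mul_left]
    exact mul_le_mul_of_nonneg_left ((avg_congr fun ξ _ => by congr).le.trans hG) zero_le_two

/-- C7 -/
theorem thru_small (h : Frame s R D H V U) (hg : GateD D H Z X Rg Out W c r ρ e₀)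
    (hq : ArmB (r + 1) (ρ - 1) q) (hV : ∀ v ∈ V, TT v Out) (hU : ∀ u ∈ U, TT u Z ∨ TT u Out)
    {u u' : Tri} (hu : u ∈ U) (hu' : u' ∈ U) (hne : u ≠ u') (z1 : TT u Z) (z2 : TT u' Z) :
    pr (Om D H (V ∪ U)) (fun ξ => Thru ξ V U) ≤ q := by
  have hG := gate hg hq (Tf := V ∪ U.filter fun τ => TT τ Out) (Tn := U.filter fun τ => TT τ Z)
    (fun τ h1 => by
      rcases Finset.mem_union.1 h1 with h2 | h2
      · exact ⟨hV τ h2, Good_tip h (Finset.mem_union_left _ h2)⟩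
      · exact ⟨(Finset.mem_filter.1 h2).2,
          Good_tip h (Finset.mem_union_right _ (Finset.mem_filter.1 h2).1)⟩)
    fun τ h1 => (Finset.mem_filter.1 h1).2
  rw [Finset.union_assoc, ← Finset.filter_or,
    Finset.filter_true_of_mem fun τ h1 => (hU τ h1).symm] at hG
  refine (pr_mono fun ξ hξ hT => ?_).trans hG
  by_contra hb
  obtain ⟨v, hv, c1⟩ := hT u hu
  obtain ⟨v', hv', c2⟩ := hT u' hu'
  have c3 := Good_join hb (Finset.mem_union_left _ hv) (Finset.mem_union_left _ hv') c1.symm c2.symm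
    z1 z2
  have o := (mem_Om.1 hξ).2
  rcases three_odd (h.simple hξ) ((o u).2 (Finset.mem_union_right _ hu))
    ((o u').2 (Finset.mem_union_right _ hu')) ((o v).2 (Finset.mem_union_left _ hv))
    ((c1.trans c3).trans c2.symm) c1 with h1 | h1 | h1
  exacts [hne h1, Finset.disjoint_left.1 h.disjoint hv (h1 ▸ hu),
    Finset.disjoint_left.1 h.disjoint hv (h1 ▸ hu')]

/-- the gate in the bulk -/
theorem gateD_bulk (h : Dom s R D H) (h0 : 1 ≤ r) (h1 : r + 1 ≤ ρ) (hb : bal c ρ ⊆ D \ H) :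
    GateD D H (bal c r) (bal c r) (bal c ρ) (bal c ρ : Set Site)ᶜ ∅ c r ρ (c, 2) := by
  have h2 : bal c r ⊆ bal c ρ := bal_mono c (by linarith)
  exact
    { connO := h.connO
      zsub := h2.trans hb
      zconn := sconn_bal c r
      xsub := by rw [Finset.inter_self]
      znb := fun a ha => absurd (Finset.mem_sdiff.1 ha).1 (Finset.mem_sdiff.1 ha).2
      rsub := hb
      xr := h2
      rcl := fun _ _ b hb _ => (Finset.mem_inter.1 hb).2
      rρ := h1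
      oconn := sconn_compl_bal c ρ
      d1 := disjoint_compl_left
      d2 := Set.disjoint_left.2 fun a ha h3 => ha (h2 h3)
      d3 := Set.disjoint_empty _
      wall := Or.inr rfl
      hW := fun a ha h3 => h3 (Finset.mem_sdiff.1 (hb ha)).1
      e1 := Or.inr (show c ∈ bal c r from mem_bal.2 (by rw [dst_self]; linarith))
      e2 := Or.inl rfl }

theorem obsE_close (h : Frame s R D H V U) (hne : U.Nonempty) {x : ℂ} (hx : ‖x‖ = 1)
    (h0 : 1 ≤ r) (h1 : r + 1 ≤ ρ) (hb : bal c ρ ⊆ D \ bal 0 s) (hq : ArmB (r + 1) (ρ - 1) q)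
    {μ : Site → ℤ} (hμ : ∀ e, Inside e (bal c r) → cob μ e = kap e) {e e' : Edge}
    (he : rgt e ∈ bal c r) (he' : rgt e' ∈ bal c r) :
    ‖obsE D H V U x e (μ (rgt e)) - obsE D H V U x e' (μ (rgt e'))‖ ≤ 2 * q := by
  have h2 : bal c r ⊆ bal c ρ := bal_mono c (by linarith)
  refine obs_close h hne hx (gateD_bulk h.toDom h0 h1
    (hb.trans (Finset.sdiff_subset_sdiff le_rfl h.hs))) hq
    (Finset.disjoint_left.2 fun a ha => (Finset.mem_sdiff.1 (hb (h2 ha))).2) (fun τ hτ => ?_) hμ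
    he he' (Or.inl (by rw [side_up]; exact Or.inr he)) (Or.inl (by rw [side_up]; exact Or.inr he'))
  rcases Finset.mem_union.1 hτ with h3 | h3
  · obtain ⟨p, -, h4, -⟩ := h.inn τ h3
    exact ⟨_, fun h5 => (Finset.mem_sdiff.1 (hb h5)).2 (h.hs h4)⟩
  · obtain ⟨p, -, h4, -⟩ := h.out τ h3
    exact ⟨_, fun h5 => h4 (Finset.mem_sdiff.1 (hb h5)).1⟩

end

end Pool.Agent.TAF.U
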