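import Pool.Agent.P.MP_cb4022_pr.U.WGate
import Pool.Agent.P.MP_cb4022_pr.U.Good

/-! Equicontinuity of the observables in the conformal coordinate (paper E7). -/

open scoped Classical symmDiff
open Metric

noncomputable section

namespace Pool.Agent.TAF.U

/-- the sites of the inner ball are mapped far from the unit circle -/
theorem BClose_far {lam Lam s : ℝ} {D : Finset Site} {ψ φ G : ℂ → ℂ} (h : CD lam Lam s D ψ φ G)
    (hl : 4 ≤ lam) (hs : 1 ≤ s) {w : ℂ} (hw : ‖w‖ = 1) {x : Site} (hx : x ∈ bal 0 s) :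
    2 / 3 ≤ ‖ψ (pos x) - w‖ := by
  have h1 : ‖pos x‖ ≤ s := dst_zero x ▸ mem_bal.1 hx
  have h2 := h.psi_le hl hs (z := pos x) (by linarith)
  have h3 : ‖pos x‖ / (3 * s) ≤ 1 / 3 := by
    rw [div_le_iff₀ (by linarith)]
    linarith
  have h4 := norm_sub_norm_le w (ψ (pos x))
  rw [norm_sub_rev] at h4
  linarith

/-- the tips of the inner hole touch the outer region of the gate -/
theorem BClose_inn {lam Lam s R ε₂ : ℝ} {D H : Finset Site} {V U : Finset Tri} {ψ φ G : ℂ → ℂ}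
    (h : CD lam Lam s D ψ φ G) (hl : 4 ≤ lam) (hs : 1 ≤ s) {w : ℂ} (hw : ‖w‖ = 1)
    (hF : Frame s R D H V U) (h3 : ε₂ ≤ 1 / 20) {Out : Set Site}
    (hO : ∀ x ∈ D, 10 * ε₂ ≤ ‖ψ (pos x) - w‖ → x ∈ Out) : ∀ v ∈ V, TT v Out := fun v hv => by
  obtain ⟨p, -, h4, -⟩ := hF.inn v hv
  exact ⟨_, hO _ (hF.toDom.sub h4) (by linarith [BClose_far h hl hs hw (hF.hs h4)])⟩

/-- `cd_bulk`, `cd_close`, `armB_small`, `obsE_close`, `zt_inj` -/
theorem bulk_close (Lam : ℝ) {a q : ℝ} (ha : 0 < a) (hq : 0 < q) : ∃ b s₀ : ℝ, 0 < b ∧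
    ∀ (lam s R : ℝ) (D : Finset Site) (ψ φ G : ℂ → ℂ), 4 ≤ lam → s₀ ≤ s → CD lam Lam s D ψ φ G →
      ∀ (H : Finset Site) (V U : Finset Tri) (x : ℂ), Frame s R D H V U → U.Nonempty → ‖x‖ = 1 →
      ∀ (e e' : Edge) (l l' : ℤ), rgt e ∈ D → rgt e' ∈ D → rgt e' ≠ 0 → 2 * s ≤ ‖pos (rgt e)‖ →
        a ≤ (zt ψ G (rgt e) l).im → ‖zt ψ G (rgt e) l - zt ψ G (rgt e') l'‖ ≤ b →
        ‖obsE D H V U x e l - obsE D H V U x e' l'‖ ≤ q := by
  obtain ⟨K, hK, hA⟩ := armB_small (q := q / 2) (by linarith)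
  obtain ⟨δ, s₁, hδ, hB⟩ := cd_bulk Lam ha one_pos
  have K0 : 0 < 4 * K := by linarith
  obtain ⟨b, hb, hC⟩ := cd_close Lam ha (div_pos hδ K0)
  refine ⟨min b 1, max s₁ (max 1 (4 * K / δ)), lt_min hb one_pos, ?_⟩
  intro lam s R D ψ φ G hl hs h H V U x hF hU hx e e' l l' m1 m2 n2 n1 a1 c1
  have s1 : s₁ ≤ s := (le_max_left _ _).trans hs
  have s2 : 1 ≤ s := (le_max_left _ _).trans ((le_max_right _ _).trans hs)
  have s3 : 4 * K ≤ δ * s := by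
    have := (le_max_right _ _).trans ((le_max_right _ _).trans hs)
    rw [div_le_iff₀ hδ] at this
    linarith
  obtain ⟨b1, μ, b2, b3, b4⟩ := hB lam s D ψ φ G hl s1 h (rgt e) m1 l n1 a1
  have n0 : rgt e ≠ 0 := fun h0 => by
    rw [h0, pos_zero, norm_zero] at n1
    linarith
  have c2 := hC lam s D ψ φ G s2 h _ m1 _ m2 l l' n0 n2 a1 (c1.trans (min_le_left _ _))
  obtain ⟨r, hr⟩ : ∃ r, r = δ / (4 * K) * s := ⟨_, rfl⟩
  rw [← hr] at c2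
  have r1 : 4 * K * r = δ * s := by
    rw [hr]
    field_simp
  have r2 : 1 ≤ r := by
    by_contra h1
    nlinarith
  have r3 : K * (r + 1) ≤ δ * s - 1 := by nlinarith
  have r4 : r + 1 ≤ δ * s := by nlinarith
  have r5 : bal (rgt e) r ⊆ bal (rgt e) (δ * s) := bal_mono _ (by linarith)
  have e1 : rgt e ∈ bal (rgt e) r := mem_bal.2 (by rw [dst_self]; linarith)
  have e2 : rgt e' ∈ bal (rgt e) r := mem_bal.2 (dst_comm _ _ ▸ c2)
  have e3 : μ (rgt e') = l' := by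
    refine zt_inj (ψ := ψ) (G := G) (x := rgt e') ?_
    have h1 := b4 _ (r5 e2)
    have h2 := c1.trans (min_le_right _ _)
    have h3 := norm_sub_le_norm_sub_add_norm_sub (zt ψ G (rgt e') (μ (rgt e')))
      (zt ψ G (rgt e) l) (zt ψ G (rgt e') l')
    linarith
  have h1 := obsE_close hF hU hx r2 r4
    (b1.trans (Finset.sdiff_subset_sdiff le_rfl (bal_mono 0 (by linarith))))
    ((hA (r + 1) (by linarith)).mono le_rfl r3 le_rfl) (μ := μ)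
    (fun e he => b3 e ⟨r5 he.1, r5 he.2⟩) e1 e2
  rw [b2, e3] at h1
  linarith

/-- `wall_gate`, `exists_sheet` and `exists_lift` on `Z` (with `θ - pi` for `θ`), `obs_close` -/
theorem wall_close (Lam : ℝ) {q ε : ℝ} (hq : 0 < q) (hε : 0 < ε) : ∃ b s₀ : ℝ, 0 < b ∧
    ∀ (lam s R : ℝ) (D : Finset Site) (ψ φ G : ℂ → ℂ), 4 ≤ lam → s₀ ≤ s → CD lam Lam s D ψ φ G →
      ∀ (H : Finset Site) (V U : Finset Tri) (x : ℂ) (θ : ℝ), Frame s R D H V U → U.Nonempty →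
      ‖x‖ = 1 → (∀ u ∈ U, ∀ i, vtx u i ∈ D →
        ε ≤ ‖ψ (pos (vtx u i)) - Complex.exp (θ * Complex.I)‖) →
      ∀ (t t' : Tri) (i p i' p' : Fin 3) (l l' : ℤ), vtx t p ∈ D → vtx t' p' ∈ D → vtx t p ≠ 0 →
        vtx t' p' ≠ 0 → (p ≠ i ∨ side t i ∉ allowed D H) → (p' ≠ i' ∨ side t' i' ∉ allowed D H) →
        ‖zt ψ G (vtx t p) l - θ‖ ≤ b → ‖zt ψ G (vtx t' p') l' - θ‖ ≤ b →
        ‖obs D H V U x t i p l - obs D H V U x t' i' p' l'‖ ≤ q := by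
  obtain ⟨ε₂, e1, e2, e3⟩ : ∃ ε₂ : ℝ, 0 < ε₂ ∧ ε₂ ≤ 1 / 20 ∧ 10 * ε₂ ≤ ε :=
    ⟨min (ε / 10) (1 / 20), lt_min (by linarith) (by norm_num), min_le_right _ _,
      by linarith [min_le_left (ε / 10) (1 / 20)]⟩
  obtain ⟨ε₁, s₁, e4, hG⟩ := wall_gate Lam (q := q / 2) (by linarith) e1 e2
  obtain ⟨d, hd, hW⟩ := cd_wolff Lam (ε := 1 / 20) (by norm_num)
  refine ⟨min (ε₁ / 2) 1, max s₁ (max 20 (1 / d)), lt_min (by linarith) one_pos, ?_⟩
  intro lam s R D ψ φ G hl hs h H V U x θ hF hU hx hu t t' i p i' p' l l' m1 m2 n1 n2 k1 k2 c1 c2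
  have s1 : s₁ ≤ s := (le_max_left _ _).trans hs
  have s2 : 20 ≤ s := (le_max_left _ _).trans ((le_max_right _ _).trans hs)
  have s3 : 1 ≤ d * s := by
    have := (le_max_right _ _).trans ((le_max_right _ _).trans hs)
    rw [div_le_iff₀ hd] at this
    linarith
  have s4 : 1 ≤ s := by linarith
  have hw : ‖Complex.exp (θ * Complex.I)‖ = 1 := Complex.norm_exp_ofReal_mul_I θ
  obtain ⟨Z, X, Rg, Out, c, r, ρ, e₀, g1, g2, g3, g4, g5⟩ := hG lam s D ψ φ G hl s1 h _ hw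
  have hg := g2 H hF.hs
  have hZ : Disjoint Z (bal 0 s) := Finset.disjoint_left.2 fun a ha hb => by
    linarith [g4 a ha, BClose_far h hl s4 hw hb]
  have hZD : ∀ a ∈ Z, a ∈ D := fun a ha => (Finset.mem_sdiff.1 (hg.zsub ha)).1
  have pi3 := Real.pi_gt_three
  have hre : ∀ (z : ℂ) (a : ℝ), ‖z - θ‖ ≤ a → θ - a ≤ z.re ∧ z.re ≤ θ + a := fun z a hz => by
    have h1 := abs_le.1 ((Complex.abs_re_le_norm _).trans hz)
    rw [Complex.sub_re, Complex.ofReal_re] at h1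
    constructor <;> linarith [h1.1, h1.2]
  obtain ⟨μ, u1, u2⟩ := exists_lift h.cm ((hW lam s D ψ φ G hl s4 h).mono s3 le_rfl)
    (Z := Z) hZD (R := s) (c := 1 / 2) (θ := θ - Real.pi) (a := 1) (by linarith) (by norm_num)
    (by norm_num) (by
      have : 10 / s ≤ 1 / 2 := by
        rw [div_le_iff₀ (by linarith)]
        linarith
      linarith) fun a ha => by
      have h1 : a ∉ bal 0 s := Finset.disjoint_left.1 hZ ha
      have h2 : a ≠ 0 := fun h0 => h1 (h0 ▸ mem_bal.2 (by rw [dst_self]; linarith))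
      have h3 := g4 a ha
      refine ⟨?_, ?_, ?_⟩
      · rw [mem_bal, dst_zero] at h1
        exact (not_le.1 h1).le
      · have h4 := norm_sub_norm_le (Complex.exp (θ * Complex.I)) (ψ (pos a))
        rw [norm_sub_rev] at h4
        linarith
      · obtain ⟨m, hm⟩ := exists_sheet h.cm (hZD a ha) h2 (z := θ) (a := 1 / 20) (by norm_num)
          (by rw [hw]; linarith)
        obtain ⟨h4, h5⟩ := hre _ _ hm
        exact ⟨m, by linarith, by linarith⟩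
  have key : ∀ (y : Site) (m : ℤ), y ∈ D → y ≠ 0 → ‖zt ψ G y m - θ‖ ≤ min (ε₁ / 2) 1 →
      y ∈ Z ∧ m = μ y := fun y m h1 h2 h3 => by
    have h4 := h3.trans (min_le_left _ _)
    have h5 := h3.trans (min_le_right _ _)
    have h6 : y ∈ Z := by
      refine g3 y h1 ?_
      have e : ψ (pos y) - Complex.exp (θ * Complex.I) = Complex.exp (θ * Complex.I) *
          (Complex.exp ((zt ψ G y m - θ) * Complex.I) - 1) := by
        rw [mul_sub, ← Complex.exp_add, ← exp_zt h.cm h1 h2 m, mul_one]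
        congr 2
        ring
      have n : ‖(zt ψ G y m - θ) * Complex.I‖ = ‖zt ψ G y m - θ‖ := by
        rw [norm_mul, Complex.norm_I, mul_one]
      have h7 := Complex.norm_exp_sub_one_le (n.trans_le h5)
      rw [e, norm_mul, hw, one_mul]
      linarith
    obtain ⟨h7, h8⟩ := hre _ _ h5
    exact ⟨h6, (u2 y h6).2 m ⟨by linarith, by linarith⟩⟩
  have tch : ∀ (τ : Tri) (j k : Fin 3), vtx τ k ∈ Z → (k ≠ j ∨ side τ j ∉ allowed D H) →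
      Touch (side τ j) Z ∨ side τ j ∉ allowed D H := fun τ j k h1 h2 =>
    h2.imp_left fun h3 => touch_side.2 (by
      rcases fin3_cases j k with h4 | h4 | h4
      exacts [absurd h4 h3, Or.inl (h4 ▸ h1), Or.inr (h4 ▸ h1)])
  obtain ⟨z1, rfl⟩ := key _ _ m1 n1 c1
  obtain ⟨z2, rfl⟩ := key _ _ m2 n2 c2
  have h1 := obs_close hF hU hx hg g1 hZ (fun τ hτ => by
    rcases Finset.mem_union.1 hτ with h1 | h1
    · exact BClose_inn h hl s4 hw hF e2 g5 τ h1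
    · obtain ⟨k, h2, -⟩ := hF.out τ h1
      exact ⟨k, g5 _ h2 (e3.trans (hu τ h1 k h2))⟩) u1 z1 z2 (tch t i p z1 k1)
    (tch t' i' p' z2 k2)
  linarith

/-- `wall_gate`, `thru_small` -/
theorem thru_close (Lam : ℝ) {q ε : ℝ} (hq : 0 < q) (hε : 0 < ε) : ∃ b s₀ : ℝ, 0 < b ∧
    ∀ (lam s R : ℝ) (D : Finset Site) (ψ φ G : ℂ → ℂ), 4 ≤ lam → s₀ ≤ s → CD lam Lam s D ψ φ G →
      ∀ (H : Finset Site) (V U : Finset Tri) (w : ℂ), Frame s R D H V U → ‖w‖ = 1 →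
      (∀ u ∈ U, ∀ i, vtx u i ∈ D → ε ≤ ‖ψ (pos (vtx u i)) - w‖ ∨ ‖ψ (pos (vtx u i)) - w‖ ≤ b) →
      ∀ u ∈ U, ∀ u' ∈ U, ∀ i i' : Fin 3, u ≠ u' → vtx u i ∈ D → vtx u' i' ∈ D →
        ‖ψ (pos (vtx u i)) - w‖ ≤ b → ‖ψ (pos (vtx u' i')) - w‖ ≤ b →
        pr (Om D H (V ∪ U)) (fun ξ => Thru ξ V U) ≤ q := by
  obtain ⟨ε₂, e1, e2, e3⟩ : ∃ ε₂ : ℝ, 0 < ε₂ ∧ ε₂ ≤ 1 / 20 ∧ 10 * ε₂ ≤ ε :=
    ⟨min (ε / 10) (1 / 20), lt_min (by linarith) (by norm_num), min_le_right _ _,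
      by linarith [min_le_left (ε / 10) (1 / 20)]⟩
  obtain ⟨ε₁, s₁, e4, hG⟩ := wall_gate Lam hq e1 e2
  refine ⟨ε₁, max s₁ 1, e4, ?_⟩
  intro lam s R D ψ φ G hl hs h H V U w hF hw hU u hu u' hu' i i' hne m1 m2 c1 c2
  obtain ⟨Z, X, Rg, Out, c, r, ρ, e₀, g1, g2, g3, g4, g5⟩ :=
    hG lam s D ψ φ G hl ((le_max_left _ _).trans hs) h w hw
  refine thru_small hF (g2 H hF.hs) g1
    (BClose_inn h hl ((le_max_right _ _).trans hs) hw hF e2 g5) (fun τ hτ => ?_) hu hu' hne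
    ⟨i, g3 _ m1 c1⟩ ⟨i', g3 _ m2 c2⟩
  obtain ⟨k, h2, -⟩ := hF.out τ hτ
  exact (hU τ hτ k h2).elim (fun h3 => Or.inr ⟨k, g5 _ h2 (e3.trans h3)⟩)
    fun h3 => Or.inl ⟨k, g3 _ h2 h3⟩

end Pool.Agent.TAF.U
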