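import Pool.Agent.P.MP_cb4022_pr.U.Defs

/-! Elementary identities. -/

open scoped Classical symmDiff

noncomputable section

namespace Pool.Agent.TAF.U

theorem fin3_cases (p q : Fin 3) : q = p ∨ q = p + 1 ∨ q = p + 2 := by revert p q; decide

@[simp] theorem nbr_snd (t : Tri) (i : Fin 3) : (nbr t i).2 = !t.2 := rfl
@[simp] theorem up_snd (e : Edge) : (up e).2 = true := rfl
@[simp] theorem dn_snd (e : Edge) : (dn e).2 = false := rfl

@[simp] theorem nbr_nbr (t : Tri) (i : Fin 3) : nbr (nbr t i) i = t := by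
  obtain ⟨⟨a, b⟩, c⟩ := t
  fin_cases i <;> cases c <;> simp [nbr, sg]

theorem vtx_nbr1 (t : Tri) (i : Fin 3) : vtx (nbr t i) (i + 1) = vtx t (i + 2) := by
  obtain ⟨⟨a, b⟩, c⟩ := t
  fin_cases i <;> cases c <;> simp [nbr, vtx, sg]

theorem vtx_nbr2 (t : Tri) (i : Fin 3) : vtx (nbr t i) (i + 2) = vtx t (i + 1) := by
  obtain ⟨⟨a, b⟩, c⟩ := t
  fin_cases i <;> cases c <;> simp [nbr, vtx, sg]

@[simp] theorem side_snd (t : Tri) (i : Fin 3) : (side t i).2 = i := by
  unfold side; split_ifs <;> rfl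

@[simp] theorem side_nbr (t : Tri) (i : Fin 3) : side (nbr t i) i = side t i := by
  obtain ⟨⟨a, b⟩, c⟩ := t
  fin_cases i <;> cases c <;> simp [side, nbr, sg]

@[simp] theorem side_up (e : Edge) : side (up e) e.2 = e := by simp [side, up]
@[simp] theorem side_dn (e : Edge) : side (dn e) e.2 = e := by rw [dn, side_nbr, side_up]
@[simp] theorem nbr_up (e : Edge) : nbr (up e) e.2 = dn e := rfl
@[simp] theorem nbr_dn (e : Edge) : nbr (dn e) e.2 = up e := by rw [dn, nbr_nbr]

theorem up_side (t : Tri) (i : Fin 3) : up (side t i) = if t.2 then t else nbr t i := by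
  obtain ⟨⟨a, b⟩, c⟩ := t
  cases c <;> simp [side, up, nbr]

theorem dn_side (t : Tri) (i : Fin 3) : dn (side t i) = if t.2 then nbr t i else t := by
  rw [dn, up_side, side_snd]; split_ifs <;> simp

theorem side_inj {t : Tri} {i j : Fin 3} (h : side t i = side t j) : i = j := by
  simpa using congrArg Prod.snd h

theorem side_eq_iff {t : Tri} {i : Fin 3} {e : Edge} :
    side t i = e ↔ i = e.2 ∧ (t = up e ∨ t = dn e) := by
  constructor
  · rintro rfl
    refine ⟨by simp, ?_⟩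
    rw [up_side, dn_side]; split_ifs <;> simp
  · rintro ⟨rfl, rfl | rfl⟩ <;> simp

theorem side_eq_side {t t' : Tri} {i j : Fin 3} (h : side t i = side t' j) :
    i = j ∧ (t' = t ∨ t' = nbr t i) := by
  have h1 : i = j := by simpa using congrArg Prod.snd h
  subst h1
  refine ⟨rfl, ?_⟩
  have h2 := (side_eq_iff.1 h.symm).2
  rw [up_side, dn_side] at h2
  split_ifs at h2 <;> tauto

theorem nbr_ne (t : Tri) (i : Fin 3) : nbr t i ≠ t := fun h => by
  have := congrArg Prod.snd h; simp at this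

theorem up_ne_dn (e e' : Edge) : up e ≠ dn e' := fun h => by
  have := congrArg Prod.snd h; simp at this

theorem nbr_inj {t : Tri} {i j : Fin 3} (h : nbr t i = nbr t j) : i = j := by
  obtain ⟨⟨a, b⟩, c⟩ := t
  fin_cases i <;> fin_cases j <;> cases c <;> simp_all [nbr, sg]

theorem vtx_inj {t : Tri} {i j : Fin 3} (h : vtx t i = vtx t j) : i = j := by
  obtain ⟨⟨a, b⟩, c⟩ := t
  fin_cases i <;> fin_cases j <;> cases c <;> simp_all [vtx, sg]

theorem lft_side (t : Tri) (i : Fin 3) :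
    lft (side t i) = if t.2 then vtx t (i + 2) else vtx t (i + 1) := by
  rw [lft, up_side, side_snd]; split_ifs <;> simp [vtx_nbr2]

theorem rgt_side (t : Tri) (i : Fin 3) :
    rgt (side t i) = if t.2 then vtx t (i + 1) else vtx t (i + 2) := by
  rw [rgt, up_side, side_snd]; split_ifs <;> simp [vtx_nbr1]

theorem touch_side {t : Tri} {i : Fin 3} {X : Set Site} :
    Touch (side t i) X ↔ vtx t (i + 1) ∈ X ∨ vtx t (i + 2) ∈ X := by
  rw [Touch, lft_side, rgt_side]; split_ifs <;> tauto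

theorem inside_side {t : Tri} {i : Fin 3} {X : Set Site} :
    Inside (side t i) X ↔ vtx t (i + 1) ∈ X ∧ vtx t (i + 2) ∈ X := by
  rw [Inside, lft_side, rgt_side]; split_ifs <;> tauto

theorem not_touch_iff {e : Edge} {X : Set Site} : ¬ Touch e X ↔ Inside e Xᶜ := by
  simp [Touch, Inside]

theorem Touch.tt_up {e : Edge} {X : Set Site} (h : Touch e X) : TT (up e) X :=
  h.elim (fun h => ⟨_, h⟩) fun h => ⟨_, h⟩

theorem Touch.tt {t : Tri} {i : Fin 3} {X : Set Site} (h : Touch (side t i) X) : TT t X :=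
  (touch_side.1 h).elim (fun h => ⟨_, h⟩) fun h => ⟨_, h⟩

theorem Touch.tt_dn {e : Edge} {X : Set Site} (h : Touch e X) : TT (dn e) X :=
  Touch.tt (i := e.2) (by simpa using h)

theorem adj_vtx (t : Tri) {i j : Fin 3} (h : i ≠ j) : tri.Adj (vtx t i) (vtx t j) := by
  obtain ⟨⟨a, b⟩, c⟩ := t
  fin_cases i <;> fin_cases j <;> cases c <;> simp_all [vtx, sg, tri]

theorem adj_lft_rgt (e : Edge) : tri.Adj (lft e) (rgt e) :=
  adj_vtx _ (by generalize e.2 = i; revert i; decide)

theorem lft_ne_rgt (e : Edge) : lft e ≠ rgt e := (adj_lft_rgt e).ne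

theorem lft_eq (e : Edge) : lft e = ![(e.1.1, e.1.2 + 1), e.1, (e.1.1 + 1, e.1.2)] e.2 := by
  obtain ⟨⟨a, b⟩, i⟩ := e
  fin_cases i <;> simp [lft, up, vtx, sg]

theorem rgt_eq (e : Edge) : rgt e = ![(e.1.1 + 1, e.1.2), (e.1.1, e.1.2 + 1), e.1] e.2 := by
  obtain ⟨⟨a, b⟩, i⟩ := e
  fin_cases i <;> simp [rgt, up, vtx, sg]

theorem mem_star {x : Site} {e : Edge} : e ∈ star x ↔ lft e = x ∨ rgt e = x := by
  obtain ⟨⟨a, b⟩, i⟩ := e
  obtain ⟨c, d⟩ := x
  fin_cases i <;> simp [star, lft_eq, rgt_eq] <;> omega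

theorem adj_iff {a b : Site} :
    tri.Adj a b ↔ ∃ e, (lft e = a ∧ rgt e = b) ∨ (lft e = b ∧ rgt e = a) := by
  constructor
  · obtain ⟨a1, a2⟩ := a
    obtain ⟨b1, b2⟩ := b
    intro h
    simp only [tri, Prod.mk_sub_mk, Finset.mem_insert, Finset.mem_singleton, Prod.mk.injEq] at h
    rcases h with h | h | h | h | h | h
    · exact ⟨((a1, a2), 2), by simp [lft_eq, rgt_eq]; omega⟩
    · exact ⟨((b1, b2), 2), by simp [lft_eq, rgt_eq]; omega⟩
    · exact ⟨((a1, a2), 1), by simp [lft_eq, rgt_eq]; omega⟩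
    · exact ⟨((b1, b2), 1), by simp [lft_eq, rgt_eq]; omega⟩
    · exact ⟨((a1, b2), 0), by simp [lft_eq, rgt_eq]; omega⟩
    · exact ⟨((b1, a2), 0), by simp [lft_eq, rgt_eq]; omega⟩
  · rintro ⟨e, ⟨rfl, rfl⟩ | ⟨rfl, rfl⟩⟩
    · exact adj_lft_rgt e
    · exact (adj_lft_rgt e).symm

/-- an edge is determined by its ends -/
theorem edge_ext {e e' : Edge} (h : (lft e = lft e' ∧ rgt e = rgt e') ∨
    (lft e = rgt e' ∧ rgt e = lft e')) : e = e' := by
  obtain ⟨⟨a, b⟩, i⟩ := e
  obtain ⟨⟨c, d⟩, j⟩ := e'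
  fin_cases i <;> fin_cases j <;> simp [lft_eq, rgt_eq] at h ⊢ <;> omega

theorem mem_touchE {D : Finset Site} {e : Edge} : e ∈ touchE D ↔ Touch e D := by
  simp only [touchE, Finset.mem_biUnion, mem_star, Touch, Finset.mem_coe]
  constructor
  · rintro ⟨x, hx, rfl | rfl⟩ <;> tauto
  · rintro (h | h)
    · exact ⟨_, h, Or.inl rfl⟩
    · exact ⟨_, h, Or.inr rfl⟩

theorem mem_bd {S : Finset Site} {e : Edge} : e ∈ bd S ↔ ¬ (lft e ∈ S ↔ rgt e ∈ S) := by
  simp only [bd, Finset.mem_filter, mem_touchE, Touch, Finset.mem_coe]; tauto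

theorem side_mem_bd {S : Finset Site} {t : Tri} {i : Fin 3} :
    side t i ∈ bd S ↔ ¬ (vtx t (i + 1) ∈ S ↔ vtx t (i + 2) ∈ S) := by
  rw [mem_bd, lft_side, rgt_side]; split_ifs <;> tauto

theorem mem_res {ξ : Finset Edge} {A : Set Site} {e : Edge} : e ∈ res ξ A ↔ e ∈ ξ ∧ Touch e A :=
  Finset.mem_filter
theorem mem_ins {ξ : Finset Edge} {A : Set Site} {e : Edge} : e ∈ ins ξ A ↔ e ∈ ξ ∧ Inside e A :=
  Finset.mem_filter
theorem mem_bal {p x : Site} {r : ℝ} : x ∈ bal p r ↔ dst x p ≤ r := by simp [bal]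
theorem mem_ann {p x : Site} {r R : ℝ} : x ∈ ann p r R ↔ r < dst x p ∧ dst x p ≤ R := by
  simp [ann, mem_bal, and_comm]
theorem mem_allowed {D H : Finset Site} {e : Edge} :
    e ∈ allowed D H ↔ Touch e D ∧ ¬ Inside e H := by simp [allowed, mem_touchE]
theorem mem_Om {D H : Finset Site} {T : Finset Tri} {ξ : Finset Edge} :
    ξ ∈ Om D H T ↔ ξ ⊆ allowed D H ∧ ∀ t, IsOdd ξ t ↔ t ∈ T := by simp [Om]
theorem mem_Gr {D H S : Finset Site} : S ∈ Gr D H ↔ S ⊆ D ∧ (H ⊆ S ∨ Disjoint S H) := by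
  simp [Gr]

theorem bd_symmDiff (S S' : Finset Site) : bd (S ∆ S') = bd S ∆ bd S' := by
  ext e; simp only [mem_bd, Finset.mem_symmDiff]; tauto

@[simp] theorem bd_empty : bd ∅ = ∅ := by ext e; simp [mem_bd]

theorem deg_eq (ξ : Finset Edge) (t : Tri) (i : Fin 3) : deg ξ t =
    (if side t i ∈ ξ then 1 else 0) + (if side t (i + 1) ∈ ξ then 1 else 0) +
      (if side t (i + 2) ∈ ξ then 1 else 0) := by
  rw [deg, Finset.card_filter, Fin.sum_univ_three]
  fin_cases i <;> simp; ring; ring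

theorem isOdd_iff (ξ : Finset Edge) (t : Tri) (i : Fin 3) : IsOdd ξ t ↔
    (side t i ∈ ξ ↔ (side t (i + 1) ∈ ξ ↔ side t (i + 2) ∈ ξ)) := by
  rw [IsOdd, deg_eq ξ t i]
  split_ifs <;> simp_all <;> decide

theorem isOdd_symmDiff {ξ ξ' : Finset Edge} {t : Tri} :
    IsOdd (ξ ∆ ξ') t ↔ ¬ (IsOdd ξ t ↔ IsOdd ξ' t) := by
  simp only [isOdd_iff _ t 0, Finset.mem_symmDiff]; tauto

theorem not_isOdd_bd (S : Finset Site) (t : Tri) : ¬ IsOdd (bd S) t := by
  rw [isOdd_iff _ t 0]
  simp only [side_mem_bd]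
  have e1 : (0 + 1 + 1 : Fin 3) = 0 + 2 := rfl
  have e2 : (0 + 1 + 2 : Fin 3) = 0 := rfl
  have e3 : (0 + 2 + 1 : Fin 3) = 0 := rfl
  have e4 : (0 + 2 + 2 : Fin 3) = 0 + 1 := rfl
  rw [e1, e2, e3, e4]; tauto

theorem deg_le (ξ : Finset Edge) (t : Tri) : deg ξ t ≤ 3 := by
  rw [deg_eq ξ t 0]; split_ifs <;> omega

theorem deg_le_two_of_not_odd {ξ : Finset Edge} {t : Tri} (h : ¬ IsOdd ξ t) : deg ξ t ≤ 2 := by
  have := deg_le ξ t
  rcases Nat.lt_or_ge (deg ξ t) 3 with h1 | h1
  · omega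
  · exact absurd (by rw [IsOdd, show deg ξ t = 3 by omega]; decide) h

theorem deg_le_two_of_not_mem {ξ : Finset Edge} {t : Tri} {i : Fin 3} (h : side t i ∉ ξ) :
    deg ξ t ≤ 2 := by
  rw [deg_eq ξ t i]; split_ifs <;> omega

theorem deg_mono {ξ ξ' : Finset Edge} (h : ξ ⊆ ξ') (t : Tri) : deg ξ t ≤ deg ξ' t :=
  Finset.card_le_card fun i hi => by
    simp only [Finset.mem_filter, Finset.mem_univ, true_and] at hi ⊢; exact h hi

theorem Simple.mono {ξ ξ' : Finset Edge} (h : Simple ξ') (hs : ξ ⊆ ξ') : Simple ξ :=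
  fun t => (deg_mono hs t).trans (h t)

theorem simple_bd (S : Finset Site) : Simple (bd S) :=
  fun t => deg_le_two_of_not_odd (not_isOdd_bd S t)

section flows
variable {A : Type*} [AddCommGroup A]

theorem dv_eq (φ : Edge → A) (t : Tri) (i : Fin 3) : dv φ t =
    if t.2 then -(φ (side t i) + φ (side t (i + 1)) + φ (side t (i + 2)))
    else φ (side t i) + φ (side t (i + 1)) + φ (side t (i + 2)) := by
  rw [dv, Fin.sum_univ_three]
  fin_cases i <;> simp <;> split_ifs <;> abel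

theorem dv_add (φ ψ : Edge → A) (t : Tri) : dv (φ + ψ) t = dv φ t + dv ψ t := by
  simp only [dv, Pi.add_apply, Finset.sum_add_distrib]; split_ifs <;> abel
theorem dv_neg (φ : Edge → A) (t : Tri) : dv (-φ) t = -dv φ t := by
  simp only [dv, Pi.neg_apply, Finset.sum_neg_distrib]; split_ifs <;> abel
theorem dv_sub (φ ψ : Edge → A) (t : Tri) : dv (φ - ψ) t = dv φ t - dv ψ t := by
  rw [sub_eq_add_neg, dv_add, dv_neg, sub_eq_add_neg]
@[simp] theorem dv_zero (t : Tri) : dv (0 : Edge → A) t = 0 := by simp [dv]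
theorem dv_sum {ι : Type*} (s : Finset ι) (φ : ι → Edge → A) (t : Tri) :
    dv (∑ i ∈ s, φ i) t = ∑ i ∈ s, dv (φ i) t := by
  induction s using Finset.induction_on with
  | empty => simp
  | insert a s h ih => rw [Finset.sum_insert h, Finset.sum_insert h, dv_add, ih]
theorem dv_congr {φ ψ : Edge → A} {t : Tri} (h : ∀ i, φ (side t i) = ψ (side t i)) :
    dv φ t = dv ψ t := by simp only [dv, h]

theorem cob_side (Φ : Site → A) (t : Tri) (i : Fin 3) : cob Φ (side t i) =
    if t.2 then Φ (vtx t (i + 2)) - Φ (vtx t (i + 1)) else Φ (vtx t (i + 1)) - Φ (vtx t (i + 2)) := by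
  rw [cob, lft_side, rgt_side]; split_ifs <;> rfl

theorem dv_cob (Φ : Site → A) (t : Tri) : dv (cob Φ) t = 0 := by
  rw [dv_eq _ t 0]
  simp only [cob_side]
  have e1 : (0 + 1 + 1 : Fin 3) = 0 + 2 := rfl
  have e2 : (0 + 1 + 2 : Fin 3) = 0 := rfl
  have e3 : (0 + 2 + 1 : Fin 3) = 0 := rfl
  have e4 : (0 + 2 + 2 : Fin 3) = 0 + 1 := rfl
  rw [e1, e2, e3, e4]; split_ifs <;> abel

/-- `inc φ t p q` only reads the side joining the vertices `p` and `q` -/
theorem inc_of_cob {φ : Edge → A} {Φ : Site → A} {t : Tri} {p q : Fin 3}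
    (h : ∀ r, r ≠ p → r ≠ q → cob Φ (side t r) = φ (side t r)) :
    inc φ t p q = Φ (vtx t q) - Φ (vtx t p) := by
  have a1 : p + 2 + 2 = p + 1 := by generalize p = i; revert i; decide
  have a2 : p + 2 + 1 = p := by generalize p = i; revert i; decide
  have a3 : p + 1 + 2 = p := by generalize p = i; revert i; decide
  have a4 : p + 1 + 1 = p + 2 := by generalize p = i; revert i; decide
  have n1 : p + 2 ≠ p := by generalize p = i; revert i; decide
  have n2 : p + 2 ≠ p + 1 := by generalize p = i; revert i; decide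
  have n3 : p + 1 ≠ p := by generalize p = i; revert i; decide
  rcases fin3_cases p q with rfl | rfl | rfl
  · simp [inc, n1.symm, n3.symm]
  · rw [inc, if_pos rfl, ← h _ n1 n2, cob_side, a1, a2]; split_ifs <;> abel
  · rw [inc, if_neg n2, if_pos rfl, ← h _ n3 n2.symm, cob_side, a3, a4]; split_ifs <;> abel

theorem inc_add (φ ψ : Edge → A) (t : Tri) (p q : Fin 3) :
    inc (φ + ψ) t p q = inc φ t p q + inc ψ t p q := by
  simp only [inc, Pi.add_apply]; split_ifs <;> abel
theorem inc_neg (φ : Edge → A) (t : Tri) (p q : Fin 3) : inc (-φ) t p q = -inc φ t p q := by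
  simp only [inc, Pi.neg_apply]; split_ifs <;> abel
theorem inc_self (φ : Edge → A) (t : Tri) (p : Fin 3) : inc φ t p p = 0 := by
  have n1 : p ≠ p + 2 := by generalize p = i; revert i; decide
  have n3 : p ≠ p + 1 := by generalize p = i; revert i; decide
  simp [inc, n1, n3]
theorem inc_eq_zero {φ : Edge → A} {t : Tri} {p q : Fin 3}
    (h : ∀ r, r ≠ p → r ≠ q → φ (side t r) = 0) : inc φ t p q = 0 := by
  have := inc_of_cob (Φ := fun _ => (0 : A)) (φ := φ) (t := t) (p := p) (q := q)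
    fun r h1 h2 => by rw [h r h1 h2]; simp [cob]
  simpa using this

end flows

theorem dv_into (t : Tri) (i : Fin 3) (t' : Tri) :
    dv (into t i) t' = (if t' = t then 1 else 0) - (if t' = nbr t i then 1 else 0) := by
  rw [dv]
  have key : ∑ j, into t i (side t' j) =
      if t' = t ∨ t' = nbr t i then (if t.2 then -1 else 1) else 0 := by
    rw [Finset.sum_eq_single i]
    · rw [into, Finsupp.single_apply]
      congr 1
      refine propext ⟨fun h => (side_eq_side h).2, ?_⟩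
      rintro (rfl | rfl) <;> simp
    · intro j _ hj
      rw [into, Finsupp.single_apply, if_neg]
      exact fun h => hj (side_eq_side h).1.symm
    · simp
  rw [key]
  by_cases h1 : t' = t
  · subst h1; simp [(nbr_ne t' i).symm]; split_ifs <;> simp
  · by_cases h2 : t' = nbr t i
    · subst h2; simp [nbr_ne]; cases t.2 <;> simp
    · simp [h1, h2]

/-! ### distances -/

theorem dst_comm (x y : Site) : dst x y = dst y x := norm_sub_rev _ _
@[simp] theorem dst_self (x : Site) : dst x x = 0 := by simp [dst]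
theorem dst_tri (x y z : Site) : dst x z ≤ dst x y + dst y z := norm_sub_le_norm_sub_add_norm_sub _ _ _
theorem dst_adj {x y : Site} (h : tri.Adj x y) : dst x y = 1 := by
  rw [← sq_eq_sq₀ (dst_nonneg _ _) zero_le_one, dst_sq]
  obtain ⟨a, b⟩ := x
  obtain ⟨c, d⟩ := y
  simp only [tri, Prod.mk_sub_mk, Finset.mem_insert, Finset.mem_singleton, Prod.mk.injEq] at h
  norm_cast
  rcases h with h | h | h | h | h | h <;>
    simp only [show a - c = -(c - a) by ring, show b - d = -(d - b) by ring, h.1, h.2] <;> norm_num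
theorem dst_vtx (t : Tri) (i j : Fin 3) : dst (vtx t i) (vtx t j) ≤ 1 := by
  by_cases h : i = j
  · simp [h]
  · exact (dst_adj (adj_vtx t h)).le
@[simp] theorem pos_zero : pos 0 = 0 := by simp [pos, Complex.ext_iff]
theorem pos_add (x y : Site) : pos (x + y) = pos x + pos y := by
  simp [pos, Complex.ext_iff]; constructor <;> ring
theorem pos_sub (x y : Site) : pos (x - y) = pos x - pos y := by
  simp [pos, Complex.ext_iff]; constructor <;> ring
theorem dst_zero (x : Site) : dst x 0 = ‖pos x‖ := by simp [dst]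
theorem bal_mono (p : Site) {r R : ℝ} (h : r ≤ R) : bal p r ⊆ bal p R :=
  fun _ hx => mem_bal.2 ((mem_bal.1 hx).trans h)

/-! ### connectivity -/

theorem Jn.refl (X : Set Site) (a : Site) : Jn X a a := Relation.ReflTransGen.refl
theorem Jn.trans {X : Set Site} {a b c : Site} (h : Jn X a b) (h' : Jn X b c) : Jn X a c :=
  Relation.ReflTransGen.trans h h'
theorem Jn.single {X : Set Site} {a b : Site} (ha : a ∈ X) (hb : b ∈ X) (h : tri.Adj a b) :
    Jn X a b := Relation.ReflTransGen.single ⟨ha, hb, h⟩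
theorem Jn.symm {X : Set Site} {a b : Site} (h : Jn X a b) : Jn X b a := by
  induction h with
  | refl => exact Jn.refl _ _
  | tail _ h ih => exact (Jn.single h.2.1 h.1 h.2.2.symm).trans ih
theorem Jn.mono {X Y : Set Site} (hXY : X ⊆ Y) {a b : Site} (h : Jn X a b) : Jn Y a b := by
  induction h with
  | refl => exact Jn.refl _ _
  | tail _ h ih => exact ih.trans (Jn.single (hXY h.1) (hXY h.2.1) h.2.2)
theorem Jn.mem {X : Set Site} {a b : Site} (h : Jn X a b) (ha : a ∈ X) : b ∈ X := by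
  induction h with
  | refl => exact ha
  | tail _ h _ => exact h.2.1
theorem Jn.vtx {X : Set Site} {t : Tri} {i j : Fin 3} (hi : vtx t i ∈ X) (hj : vtx t j ∈ X) :
    Jn X (vtx t i) (vtx t j) := by
  by_cases h : i = j
  · rw [h]; exact Jn.refl _ _
  · exact Jn.single hi hj (adj_vtx t h)

/-- a function whose coboundary vanishes inside `X` is constant along paths in `X` -/
theorem Jn.const {A : Type*} [AddCommGroup A] {X : Set Site} {Φ : Site → A}
    (h0 : ∀ e, Inside e X → cob Φ e = 0) {a b : Site} (h : Jn X a b) : Φ a = Φ b := by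
  induction h with
  | refl => rfl
  | tail _ h ih =>
    obtain ⟨e, ⟨rfl, rfl⟩ | ⟨rfl, rfl⟩⟩ := adj_iff.1 h.2.2
    · exact ih.trans (sub_eq_zero.1 (h0 e ⟨h.1, h.2.1⟩))
    · exact ih.trans (sub_eq_zero.1 (h0 e ⟨h.2.1, h.1⟩)).symm

theorem Conn.refl (ξ : Finset Edge) (t : Tri) : Conn ξ t t := Relation.ReflTransGen.refl
theorem Conn.trans {ξ : Finset Edge} {a b c : Tri} (h : Conn ξ a b) (h' : Conn ξ b c) :
    Conn ξ a c := Relation.ReflTransGen.trans h h'
theorem Conn.step {ξ : Finset Edge} {t : Tri} {i : Fin 3} (h : side t i ∈ ξ) :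
    Conn ξ t (nbr t i) := Relation.ReflTransGen.single ⟨i, h, rfl⟩
theorem Conn.symm {ξ : Finset Edge} {a b : Tri} (h : Conn ξ a b) : Conn ξ b a := by
  induction h with
  | refl => exact Conn.refl _ _
  | tail _ h ih =>
    obtain ⟨i, hi, rfl⟩ := h
    have := Conn.step (ξ := ξ) (t := nbr _ i) (i := i) (by simpa using hi)
    rw [nbr_nbr] at this
    exact this.trans ih
theorem Conn.mono {ξ ξ' : Finset Edge} (hs : ξ ⊆ ξ') {a b : Tri} (h : Conn ξ a b) :
    Conn ξ' a b := by
  induction h with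
  | refl => exact Conn.refl _ _
  | tail _ h ih =>
    obtain ⟨i, hi, rfl⟩ := h
    exact ih.trans (Conn.step (hs hi))
theorem conn_up_dn {ξ : Finset Edge} {e : Edge} (h : e ∈ ξ) : Conn ξ (up e) (dn e) :=
  Conn.step (t := up e) (i := e.2) (by simpa using h)
theorem conn_up_side {ξ : Finset Edge} {t : Tri} {i : Fin 3} (h : side t i ∈ ξ) :
    Conn ξ t (up (side t i)) := by
  rw [up_side]; split_ifs
  · exact Conn.refl _ _
  · exact Conn.step h

/-! ### averages -/

section avg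
variable {α E : Type*}

section
variable [AddCommGroup E] [Module ℝ E]
theorem avg_add (W : Finset α) (f g : α → E) :
    avg W (fun x => f x + g x) = avg W f + avg W g := by
  simp [avg, Finset.sum_add_distrib]
theorem avg_sub (W : Finset α) (f g : α → E) :
    avg W (fun x => f x - g x) = avg W f - avg W g := by
  simp [avg, Finset.sum_sub_distrib, smul_sub]
theorem avg_sum {ι : Type*} (W : Finset α) (s : Finset ι) (f : ι → α → E) :
    avg W (fun x => ∑ i ∈ s, f i x) = ∑ i ∈ s, avg W (f i) := by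
  simp only [avg, ← Finset.smul_sum]; rw [Finset.sum_comm]
theorem avg_congr {W : Finset α} {f g : α → E} (h : ∀ x ∈ W, f x = g x) : avg W f = avg W g := by
  rw [avg, avg, Finset.sum_congr rfl h]
@[simp] theorem avg_zero (W : Finset α) : avg W (fun _ => (0 : E)) = 0 := by simp [avg]
@[simp] theorem avg_empty (f : α → E) : avg ∅ f = 0 := by simp [avg]
theorem avg_const {W : Finset α} (h : W.Nonempty) (c : E) : avg W (fun _ => c) = c := by
  have : (W.card : ℝ) ≠ 0 := by exact_mod_cast h.card_pos.ne'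
  rw [avg, Finset.sum_const, ← Nat.cast_smul_eq_nsmul ℝ, smul_smul, inv_mul_cancel₀ this, one_smul]
theorem avg_bij {β : Type*} {W : Finset α} {W' : Finset β} (φ : α → β) (h : Set.BijOn φ W W')
    (f : β → E) : avg W (fun x => f (φ x)) = avg W' f := by
  have h1 : ∑ x ∈ W, f (φ x) = ∑ y ∈ W', f y :=
    Finset.sum_nbij φ (fun _ hx => h.mapsTo hx) h.injOn h.surjOn fun _ _ => rfl
  rw [avg, avg, h1, Finset.card_nbij φ (fun _ hx => h.mapsTo hx) h.injOn h.surjOn]
theorem avg_comm {β : Type*} (W : Finset α) (W' : Finset β) (f : α → β → E) :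
    avg W (fun x => avg W' (f x)) = avg W' fun y => avg W fun x => f x y := by
  simp only [avg, ← Finset.smul_sum]; rw [Finset.sum_comm, smul_comm]
end

theorem avg_mul_left {𝕜 : Type*} [RCLike 𝕜] (W : Finset α) (c : 𝕜) (f : α → 𝕜) :
    avg W (fun x => c * f x) = c * avg W f := by
  simp [avg, ← Finset.mul_sum]

theorem avg_mono {W : Finset α} {f g : α → ℝ} (h : ∀ x ∈ W, f x ≤ g x) : avg W f ≤ avg W g :=
  smul_le_smul_of_nonneg_left (Finset.sum_le_sum h) (by positivity)
theorem avg_nonneg {W : Finset α} {f : α → ℝ} (h : ∀ x ∈ W, 0 ≤ f x) : 0 ≤ avg W f := by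
  simpa using avg_mono (f := fun _ => 0) h
theorem avg_le {W : Finset α} {f : α → ℝ} {c : ℝ} (hc : 0 ≤ c) (h : ∀ x ∈ W, f x ≤ c) :
    avg W f ≤ c := by
  rcases W.eq_empty_or_nonempty with rfl | hW
  · simpa
  · exact (avg_mono h).trans (avg_const hW c).le
theorem norm_avg_le [NormedAddCommGroup E] [NormedSpace ℝ E] {W : Finset α} {f : α → E}
    {g : α → ℝ} (h : ∀ x ∈ W, ‖f x‖ ≤ g x) : ‖avg W f‖ ≤ avg W g := by
  rw [avg, avg, norm_smul, Real.norm_of_nonneg (by positivity), smul_eq_mul]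
  exact mul_le_mul_of_nonneg_left ((norm_sum_le _ _).trans (Finset.sum_le_sum h)) (by positivity)

theorem pr_nonneg (W : Finset α) (P : α → Prop) : 0 ≤ pr W P :=
  avg_nonneg fun _ _ => by split_ifs <;> norm_num
theorem pr_le_one (W : Finset α) (P : α → Prop) : pr W P ≤ 1 :=
  avg_le zero_le_one fun _ _ => by split_ifs <;> norm_num
theorem pr_mono {W : Finset α} {P Q : α → Prop} (h : ∀ x ∈ W, P x → Q x) : pr W P ≤ pr W Q :=
  avg_mono fun x hx => by
    by_cases hP : P x
    · simp [hP, h x hx hP]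
    · simp only [hP, if_false]; split_ifs <;> norm_num
theorem pr_congr {W : Finset α} {P Q : α → Prop} (h : ∀ x ∈ W, P x ↔ Q x) : pr W P = pr W Q :=
  le_antisymm (pr_mono fun x hx => (h x hx).1) (pr_mono fun x hx => (h x hx).2)
theorem pr_or (W : Finset α) (P Q : α → Prop) :
    pr W (fun x => P x ∨ Q x) ≤ pr W P + pr W Q := by
  rw [pr, pr, pr, ← avg_add]
  refine avg_mono fun x _ => ?_
  by_cases hP : P x <;> by_cases hQ : Q x <;> simp [hP, hQ]
theorem pr_exists {ι : Type*} (W : Finset α) (s : Finset ι) (P : ι → α → Prop) :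
    pr W (fun x => ∃ i ∈ s, P i x) ≤ ∑ i ∈ s, pr W (P i) := by
  simp only [pr]
  rw [← avg_sum]
  refine avg_mono fun x _ => ?_
  split_ifs with h
  · obtain ⟨i, hi, hP⟩ := h
    refine le_trans ?_ (Finset.single_le_sum (f := fun i => if P i x then (1 : ℝ) else 0)
      (fun j _ => by split_ifs <;> norm_num) hi)
    simp [hP]
  · exact Finset.sum_nonneg fun j _ => by split_ifs <;> norm_num
theorem pr_not {W : Finset α} (hW : W.Nonempty) (P : α → Prop) :
    pr W (fun x => ¬ P x) = 1 - pr W P := by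
  rw [eq_sub_iff_add_eq, pr, pr, ← avg_add]
  refine (avg_congr fun x _ => ?_).trans (avg_const hW (1 : ℝ))
  by_cases hP : P x <;> simp [hP]
theorem pr_bij {β : Type*} {W : Finset α} {W' : Finset β} (φ : α → β) (h : Set.BijOn φ W W')
    (P : β → Prop) : pr W (fun x => P (φ x)) = pr W' P :=
  avg_bij φ h fun y => if P y then (1 : ℝ) else 0

end avg

end Pool.Agent.TAF.U
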