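import Pool.Agent.P.MP_cb4022_pr.U.KCls

/-! The contraction constant, inner stage (paper F5, stage 2). -/

open scoped Classical symmDiff

noncomputable section

namespace Pool.Agent.TAF.U

theorem Kap1_ms {α β : Type*} (W : Finset α) (act : α → β → α) (e : β) (he : ∀ x, act x e = x)
    (K : ℕ) (G : ℕ → α → Finset β) (stop : ℕ → α → Prop)
    (hne : ∀ k ≤ K, ∀ x ∈ W, (G k x).Nonempty)
    (h : ∀ k ≤ K, ∀ x ∈ W, ∀ S ∈ G k x, act x S ∈ W ∧ G k (act x S) = G k x ∧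
      act (act x S) S = x ∧ ∀ j ≤ k, (stop j (act x S) ↔ stop j x)) (f : α → ℝ) :
    ∃ g : α → ℝ, avg W f = avg W g ∧
      (∀ x k, k ≤ K → stop k x → (∀ j < k, ¬ stop j x) → g x = avg (G k x) fun S => f (act x S)) ∧
      ∀ x, (∀ k ≤ K, ¬ stop k x) → g x = f x := by
  refine ⟨_, ms_act W act e he K G stop hne h f, fun x k hk hs hj => ?_, fun x hx => ?_⟩
  · have h0 : ∃ k, k ≤ K ∧ stop k x := ⟨k, hk, hs⟩
    have h1 : Nat.find h0 = k := (Nat.find_eq_iff h0).2 ⟨⟨hk, hs⟩, fun j hj' hc => hj j hj' hc.2⟩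
    simp only [dif_pos h0, h1]
  · have h0 : ¬ ∃ k, k ≤ K ∧ stop k x := fun ⟨k, hk, hs⟩ => hx k hk hs
    simp only [dif_neg h0]

/-- the radii -/
def Kap1_rho (s : ℝ) (k : ℕ) : ℝ := 2 * s * 2 ^ k

def Kap1_stop (s : ℝ) (D c o : Finset Site) (k : ℕ) (S : Finset Site) : Prop :=
  (kT s (Kap1_rho s k) D c ((c ∪ o) ∆ S)).card ≤ 4

def Kap1_cl (s : ℝ) (D c c' o : Finset Site) (f : Finset Edge → ℝ) (k : ℕ) (S : Finset Site) : ℝ :=
  avg (Gr D (bal 0 s ∪ kX s (Kap1_rho s k) D c ((c ∪ o) ∆ S))) fun S' => dK D c c' o f (S ∆ S')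

def Kap1_t (g : ℝ) (k : ℕ) : ℝ := ((2 : ℝ) ^ (k + 1)) ^ (2 : ℝ) * ((2 : ℝ) ^ k) ^ (-g)

theorem Kap1_t_nonneg (g : ℝ) (k : ℕ) : 0 ≤ Kap1_t g k := by
  unfold Kap1_t
  positivity

theorem Kap1_rho_mono {s : ℝ} (hs : 0 ≤ s) {j k : ℕ} (h : j ≤ k) : Kap1_rho s j ≤ Kap1_rho s k :=
  mul_le_mul_of_nonneg_left (pow_le_pow_right₀ one_le_two h) (by linarith)

theorem Kap1_rho_ge {s : ℝ} (hs : 6 ≤ s) (k : ℕ) : 2 * s ≤ Kap1_rho s k := by
  have h : (1 : ℝ) ≤ 2 ^ k := one_le_pow₀ one_le_two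
  unfold Kap1_rho
  nlinarith

theorem Kap1_rho_le {s r : ℝ} (hs : 6 ≤ s) {k K : ℕ} (hk : k ≤ K) (hK : 5 * s * 2 ^ K ≤ r) :
    2 * Kap1_rho s k + 6 ≤ r := by
  have h : (1 : ℝ) ≤ 2 ^ K := one_le_pow₀ one_le_two
  have h1 := Kap1_rho_mono (s := s) (by linarith) hk
  have h2 : Kap1_rho s K = 2 * s * 2 ^ K := rfl
  nlinarith

theorem Kap1_rho_sq (s r : ℝ) (k : ℕ) :
    (Kap1_rho s k / r) ^ 2 = 4 * ((2 : ℝ) ^ k) ^ 2 * (s / r) ^ 2 := by
  unfold Kap1_rho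
  ring

section
variable {s r ρ : ℝ} {D c c' o S : Finset Site} {U : Finset Tri} {f : Finset Edge → ℝ}

theorem Kap1_dK_le (h : KH s r D c c' o U f) (S : Finset Site) : |dK D c c' o f S| ≤ 2 := by
  have h1 := abs_le.1 (h.f1 (res (bd ((c ∪ o) ∆ S)) D))
  have h2 := abs_le.1 (h.f1 (res (bd ((c' ∪ o) ∆ S)) D))
  rw [dK, abs_le]
  constructor <;> linarith [h1.1, h1.2, h2.1, h2.2]

theorem Kap1_avg_le (h : KH s r D c c' o U f) (W : Finset (Finset Site)) :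
    |avg W (dK D c c' o f)| ≤ 2 :=
  (norm_avg_le (W := W) (f := dK D c c' o f) (g := fun _ => 2) fun S _ => Kap1_dK_le h S).trans
    (avg_le zero_le_two fun _ _ => le_rfl)

theorem Kap1_res (h : KH s r D c c' o U f) (hs : 0 ≤ s) (K : ℕ) :
    ∃ g : Finset Site → ℝ, avg (Gr D (bal 0 s)) (dK D c c' o f) = avg (Gr D (bal 0 s)) g ∧
      (∀ S k, k ≤ K → Kap1_stop s D c o k S → (∀ j < k, ¬ Kap1_stop s D c o j S) →
        g S = Kap1_cl s D c c' o f k S) ∧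
      ∀ S, (∀ k ≤ K, ¬ Kap1_stop s D c o k S) → g S = dK D c c' o f S := by
  refine Kap1_ms (Gr D (bal 0 s)) (fun S S' => S ∆ S') ∅ (fun S => symmDiff_bot S) K
    (fun k S => Gr D (bal 0 s ∪ kX s (Kap1_rho s k) D c ((c ∪ o) ∆ S))) (Kap1_stop s D c o)
    (fun k _ S _ => Gr_nonempty _ _) (fun k _ S hS S' hS' => ⟨?_, ?_, ?_, fun j hj => ?_⟩) _
  · exact Gr_symmDiff hS (Gr_mono le_rfl Finset.subset_union_left hS')
  · rw [(h.act hS' le_rfl).1]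
  · exact symmDiff_symmDiff_cancel_right _ _
  · rw [Kap1_stop, Kap1_stop, (h.act hS' (Kap1_rho_mono hs hj)).2.2]

theorem Kap1_prob (h : KH s r D c c' o U f) (hs : 6 ≤ s) {g C : ℝ} (hC : 0 ≤ C) (hg : 0 ≤ g)
    (hE : ∀ r R : ℝ, 1 ≤ r → r ≤ R → ArcB 6 0 r R (C * (r / R) ^ g)) {k : ℕ}
    (hk : 2 * Kap1_rho s k + 6 ≤ r) :
    pr (Gr D (bal 0 s)) (fun S => ¬ Kap1_stop s D c o k S) ≤ C * ((2 : ℝ) ^ k) ^ (-g) := by
  have h1 := Kap1_rho_ge hs k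
  have hp : (1 : ℝ) ≤ 2 ^ k := one_le_pow₀ one_le_two
  have h2 := pr_arc_Gr (D := D) (H := bal 0 s) (ξ := bd (c ∪ o))
    (hE (s + 1) (Kap1_rho s k - 1) (by linarith) (by linarith))
    (fun x hx => h.dom.hR (mem_bal.2 ((mem_ann.1 hx).2.trans (by linarith))))
    (Finset.disjoint_left.2 fun x hx hx' => by
      linarith [(mem_ann.1 hx).1, mem_bal.1 hx'])
    (fun t _ => not_isOdd_bd _ t)
  refine (pr_mono fun S hS hn => h.arc hS (by linarith) (by linarith) (not_le.1 hn)).trans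
    (h2.trans (mul_le_mul_of_nonneg_left ?_ hC))
  rw [Real.rpow_neg (by positivity), ← Real.inv_rpow (by positivity)]
  refine Real.rpow_le_rpow (div_nonneg (by linarith) (by linarith)) ?_ hg
  rw [div_le_iff₀ (by linarith), inv_mul_eq_div, le_div_iff₀ (by positivity)]
  unfold Kap1_rho
  nlinarith

theorem Kap1_main (h : KH s r D c c' o U f) (hs : 6 ≤ s) {g C : ℝ} (hC : 0 ≤ C) (hg : 0 ≤ g)
    (hE : ∀ r R : ℝ, 1 ≤ r → r ≤ R → ArcB 6 0 r R (C * (r / R) ^ g)) {K : ℕ}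
    (hK : 5 * s * 2 ^ K ≤ r) (hK' : r < 5 * s * 2 ^ (K + 1)) (G : Finset Site → ℝ) (β : ℕ → ℝ)
    (B : ℝ) (hβ : ∀ k, 0 ≤ β k) (hB : 0 ≤ B)
    (h1 : ∀ S ∈ Gr D (bal 0 s), ∀ k ≤ K, Kap1_stop s D c o k S →
      (∀ j < k, ¬ Kap1_stop s D c o j S) → |G S| ≤ β k * (Kap1_rho s k / r) ^ 2)
    (h2 : ∀ S ∈ Gr D (bal 0 s), (∀ k ≤ K, ¬ Kap1_stop s D c o k S) → |G S| ≤ B) :
    |avg (Gr D (bal 0 s)) G| ≤ (4 * β 0 + 4 * C * ∑ k ∈ Finset.range K, β (k + 1) * Kap1_t g k +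
      25 * B * C * Kap1_t g K) * (s / r) ^ 2 := by
  have h3 := ms_bound (Gr D (bal 0 s)) K (Kap1_stop s D c o) G
    (fun k => β k * (Kap1_rho s k / r) ^ 2) (fun k => C * ((2 : ℝ) ^ k) ^ (-g)) B
    (fun k => mul_nonneg (hβ k) (sq_nonneg _)) hB h1 h2
    (fun k hk => Kap1_prob h hs hC hg hE (Kap1_rho_le hs hk hK))
  refine h3.trans ?_
  have hp : (0 : ℝ) < 2 ^ K := by positivity
  have hr : 0 < r := lt_of_lt_of_le (by positivity) hK
  have e1 : ∑ k ∈ Finset.range K, β (k + 1) * (Kap1_rho s (k + 1) / r) ^ 2 *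
      (C * ((2 : ℝ) ^ k) ^ (-g)) =
      (4 * C * ∑ k ∈ Finset.range K, β (k + 1) * Kap1_t g k) * (s / r) ^ 2 := by
    rw [Finset.mul_sum, Finset.sum_mul]
    refine Finset.sum_congr rfl fun k _ => ?_
    rw [Kap1_rho_sq, Kap1_t, Real.rpow_two]
    ring
  have e2 : 1 ≤ 25 * ((2 : ℝ) ^ (K + 1)) ^ 2 * (s / r) ^ 2 := by
    have h4 : 1 ≤ 5 * s * 2 ^ (K + 1) / r := (one_le_div hr).2 hK'.le
    calc (1 : ℝ) ≤ (5 * s * 2 ^ (K + 1) / r) ^ 2 := one_le_pow₀ h4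
      _ = _ := by ring
  have e3 : B * (C * ((2 : ℝ) ^ K) ^ (-g)) ≤ 25 * B * C * Kap1_t g K * (s / r) ^ 2 := by
    have h5 : 0 ≤ B * (C * ((2 : ℝ) ^ K) ^ (-g)) := by positivity
    refine (le_mul_of_one_le_right h5 e2).trans (le_of_eq ?_)
    rw [Kap1_t, Real.rpow_two]
    ring
  simp only [e1]
  rw [Kap1_rho_sq]
  simp only [pow_zero, one_pow]
  linarith

end

theorem Kap1_amp_zero {s R : ℝ} {D H : Finset Site} {V U : Finset Tri} (h : Frame s R D H V U)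
    (hc : V.card < U.card) (x : ℂ) : amp D H V U x = 0 :=
  amp_eq_zero fun _ hξ ht => absurd (h.card_le hξ ht) (not_le.2 hc)

theorem Kap1_bv (hB : BV 4) : ∃ C : ℝ, 0 ≤ C ∧ ∀ Lam : ℝ, ∃ s₀ : ℝ, ∀ (s R : ℝ)
    (D H : Finset Site) (V U : Finset Tri), s₀ ≤ s → Frame s R D H V U → D ⊆ bal 0 (Lam * s) →
      V.card ≤ 4 → U.card = 4 → ‖amp D H V U (-1)‖ ≤ C * (s / R) ^ 2 := by
  obtain ⟨C, hC⟩ := hB
  refine ⟨max C 0, le_max_right _ _, fun Lam => ?_⟩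
  obtain ⟨s₀, h⟩ := hC Lam
  refine ⟨s₀, fun s R D H V U hs hF hD hV hU => ?_⟩
  rcases hV.lt_or_eq with h1 | h1
  · rw [Kap1_amp_zero hF (by omega), norm_zero]
    positivity
  · have h2 := h s R D H V U hs hF hD h1 hU
    have e : aN 4 = 2 := by
      unfold aN
      norm_num
    rw [xN_four, e, Real.rpow_two] at h2
    exact h2.trans (mul_le_mul_of_nonneg_right (le_max_left _ _) (sq_nonneg _))

theorem Kap1_exp {g : ℝ} (hE : ExpB 6 g) : ∃ C : ℝ, 0 ≤ C ∧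
    ∀ r R : ℝ, 1 ≤ r → r ≤ R → ArcB 6 0 r R (C * (r / R) ^ g) := by
  obtain ⟨C, hC⟩ := hE
  refine ⟨max C 0, le_max_right _ _, fun r R h1 h2 ξ hξ => (hC r R h1 h2 ξ hξ).trans ?_⟩
  exact mul_le_mul_of_nonneg_right (le_max_left _ _)
    (Real.rpow_nonneg (div_nonneg (by linarith) (by linarith)) _)

theorem Kap1_sgn (f f' : Tri → Tri → ℤ) (ξ ξ' : Finset Edge) (V V' : Finset Tri) :
    ‖(sgnP f ξ V : ℂ) - (sgnP f' ξ' V' : ℂ)‖ ≤ 2 := by
  refine (norm_sub_le _ _).trans ?_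
  rcases sgnP_cases f ξ V with h | h <;> rcases sgnP_cases f' ξ' V' with h' | h' <;>
    rw [h, h'] <;> norm_num

theorem Kap1_abs {x B a : ℝ} {σ z : ℂ} (h : (x : ℂ) = B * σ * z) (hB : |B| ≤ 1) (hσ : ‖σ‖ ≤ 2)
    (hz : ‖z‖ ≤ a) : |x| ≤ 2 * a := by
  have h1 : |x| = |B| * ‖σ‖ * ‖z‖ := by
    rw [← Real.norm_eq_abs, ← Complex.norm_real, h, norm_mul, norm_mul, Complex.norm_real,
      Real.norm_eq_abs]
  rw [h1]
  refine mul_le_mul ?_ hz (norm_nonneg _) zero_le_two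
  calc |B| * ‖σ‖ ≤ 1 * 2 := mul_le_mul hB hσ (norm_nonneg _) zero_le_one
    _ = 2 := one_mul _

/-- Radii `ρ k = 2 s 2 ^ k`, `k ≤ K`, `K` maximal with `2 ρ K + 6 ≤ r` (small `r / s` is trivial).
`exists_affine`; `ms_act` on `Gr D (bal 0 s)` with `act S S' = S ∆ S'`,
`G k S = Gr D (bal 0 s ∪ kX ..)`, stop at `≤ 4` tips; `KH.cls`, `KH.frame`, `xN_four`,
`amp_eq_zero` for fewer than four tips; `ms_bound` with `KH.arc`, `pr_arc_Gr`, `geo_sum`. -/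
theorem ki0_of (hB : BV 4) {g : ℝ} (hE : ExpB 6 g) (hg : 2 < g) : KI0 := by
  obtain ⟨Cb, hCb, hb⟩ := Kap1_bv hB
  obtain ⟨C, hC, hE'⟩ := Kap1_exp hE
  obtain ⟨Cg, hCg, hgs⟩ := geo_sum hg
  refine ⟨50 + 8 * Cb + 8 * C * Cb * Cg + 50 * C * Cg, fun Lam => ?_⟩
  obtain ⟨s₀, hb⟩ := hb Lam
  refine ⟨max s₀ 6, fun s r D c c' o U f hs h hD => ?_⟩
  have hs6 : 6 ≤ s := (le_max_right _ _).trans hs
  have hs0 : s₀ ≤ s := (le_max_left _ _).trans hs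
  have hr : 0 < r := by linarith [h.dom.gap]
  have hq : 0 ≤ (s / r) ^ 2 := sq_nonneg _
  have p1 : 0 ≤ C * Cb * Cg := by positivity
  have p2 : 0 ≤ C * Cg := by positivity
  rcases le_or_gt (5 * s) r with h5 | h5
  · obtain ⟨K, hK, hK'⟩ := exists_dyadic (by linarith : 0 < 5 * s) h5
    obtain ⟨G, e, g1, g2⟩ := Kap1_res h (by linarith) K
    obtain ⟨A, B, hB1, hAB⟩ := exists_affine h.dom h.out h.card h.f1 h.fP
    have h1 := Kap1_main h hs6 hC (by linarith) hE' hK hK' G (fun _ => 2 * Cb) 2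
      (fun _ => by positivity) zero_le_two (fun S hS k hk hst hj => ?_) (fun S _ hn => ?_)
    · rw [e]
      refine h1.trans (mul_le_mul_of_nonneg_right ?_ hq)
      have h2 : ∑ k ∈ Finset.range K, Kap1_t g k ≤ Cg := hgs K
      have h3 : Kap1_t g K ≤ Cg :=
        (Finset.single_le_sum (f := Kap1_t g) (fun k _ => Kap1_t_nonneg g k)
          (Finset.self_mem_range_succ K)).trans (hgs (K + 1))
      rw [← Finset.mul_sum]
      have h4 := mul_le_mul_of_nonneg_left h2 (by positivity : 0 ≤ C * Cb)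
      have h6 := mul_le_mul_of_nonneg_left h3 hC
      linarith
    · have a1 := Kap1_rho_ge hs6 k
      have a2 := Kap1_rho_le hs6 hk hK
      rw [g1 S k hk hst hj, mul_assoc]
      exact Kap1_abs (h.cls hAB hS (by linarith) a2 hst) hB1 (Kap1_sgn _ _ _ _ _ _)
        (hb _ _ _ _ _ _ (by linarith) (h.frame hS (by linarith) (by linarith))
          (bal_sub_scale (h.dom.hR (mem_bal.2 (by simp [dst, hr.le]))) hD (by linarith)
            (by linarith)) hst h.card)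
    · rw [g2 S hn]
      exact Kap1_dK_le h S
  · refine (Kap1_avg_le h _).trans ?_
    have h1 : 1 ≤ 5 * s / r := (one_le_div hr).2 h5.le
    have h2 : 1 ≤ 25 * (s / r) ^ 2 :=
      calc (1 : ℝ) ≤ (5 * s / r) ^ 2 := one_le_pow₀ h1
        _ = _ := by ring
    have h3 : 0 ≤ (8 * Cb + 8 * C * Cb * Cg + 50 * C * Cg) * (s / r) ^ 2 := by positivity
    linarith

section
variable {s r ρ : ℝ} {D c c' o S : Finset Site} {U : Finset Tri} {f : Finset Edge → ℝ}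

theorem Kap1_rotIn (h : KH s r D c c' o U f) :
    Set.BijOn (rotIn r) (Gr D (bal 0 s)) (Gr D (bal 0 s)) := by
  have h1 := rotIn_bijOn (D := D) (bal_mono 0 (by linarith [h.dom.gap] : s ≤ r)) h.dom.hR
  rwa [rot_bal] at h1

theorem Kap1_stop_rot (h : KH s r D c c' o U f) {k : ℕ} (h1 : s + 1 ≤ Kap1_rho s k)
    (h2 : Kap1_rho s k ≤ r) (S : Finset Site) :
    Kap1_stop s D (rotA.mS c) o k (rotIn r S) ↔ Kap1_stop s D c o k S := by
  rw [Kap1_stop, Kap1_stop, (h.rot_cls h1 h2 S).2.2, Aut.card_mT]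

/-- the sum of the three class averages -/
theorem Kap1_cls3 (h : KH s r D c c' o U f) {A B : ℝ}
    (hB : Anti (Ap D) U → ∀ ξ, Pairs D U ξ → f ξ = A + B * sgnP (Ap D) ξ U)
    (hS : S ∈ Gr D (bal 0 s)) {k : ℕ} (h1 : s + 1 ≤ Kap1_rho s k) (h2 : 2 * Kap1_rho s k + 6 ≤ r)
    (h3 : Kap1_rho s k + 6 ≤ r) (hc : Kap1_stop s D c o k S) : ∃ σ : ℂ, ‖σ‖ ≤ 2 ∧
    ((Kap1_cl s D c c' o f k S + Kap1_cl s D (rotA.mS c) (rotA.mS c') o f k (rotIn r S) +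
      Kap1_cl s D (rotA.mS (rotA.mS c)) (rotA.mS (rotA.mS c')) o f k (rotIn r (rotIn r S)) : ℝ) :
        ℂ) = B * σ * amp3 D (bal 0 s ∪ kX s (Kap1_rho s k) D c ((c ∪ o) ∆ S))
          (kT s (Kap1_rho s k) D c ((c ∪ o) ∆ S)) U := by
  have h4 : Kap1_rho s k ≤ r := by linarith
  have hS1 := (Kap1_rotIn h).mapsTo hS
  have hS2 := (Kap1_rotIn h).mapsTo hS1
  have c1 := (Kap1_stop_rot h h1 h4 S).2 hc
  have c2 := (Kap1_stop_rot h.rot h1 h4 _).2 c1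
  have e0 := h.cls hB hS h1 h2 hc
  have e1 := h.rot.cls hB hS1 h1 h2 c1
  have e2 := h.rot.rot.cls hB hS2 h1 h2 c2
  obtain ⟨x1, y1, z1⟩ := h.rot_cls h1 h4 S
  obtain ⟨x2, y2, z2⟩ := h.rot.rot_cls h1 h4 (rotIn r S)
  have fr := h.frame hS h1 h3
  obtain ⟨p, p'⟩ := h.inPair hS h1 h3
  have a := sgn_amp3 fr h2 hc h.card p
  have a' := sgn_amp3 fr h2 hc h.card p'
  simp only [Aut.mS_union, Aut.mE_union, rot_bal, ← kI_rot] at a a'
  refine ⟨_, Kap1_sgn (Bp (bal 0 s ∪ kX s (Kap1_rho s k) D c ((c ∪ o) ∆ S)))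
    (Bp (bal 0 s ∪ kX s (Kap1_rho s k) D c ((c ∪ o) ∆ S)))
    (kI s c ∪ kE s (Kap1_rho s k) D c ((c ∪ o) ∆ S))
    (kI s c' ∪ kE s (Kap1_rho s k) D c ((c ∪ o) ∆ S))
    (kT s (Kap1_rho s k) D c ((c ∪ o) ∆ S)) (kT s (Kap1_rho s k) D c ((c ∪ o) ∆ S)), ?_⟩
  rw [Complex.ofReal_add, Complex.ofReal_add, Kap1_cl, Kap1_cl, Kap1_cl, e0, e1, e2, x2, y2, z2,
    x1, y1, z1]
  linear_combination B * a - B * a'

end

theorem Kap1_amp3_zero {s R : ℝ} {D H : Finset Site} {V U : Finset Tri} (h : Frame s R D H V U)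
    (hc : V.card < U.card) : amp3 D H V U = 0 := by
  rw [amp3, Kap1_amp_zero h hc, Kap1_amp_zero h.rot (by rwa [Aut.card_mT]),
    Kap1_amp_zero h.rot.rot (by rwa [Aut.card_mT, Aut.card_mT])]
  simp

theorem Kap1_amp3_le {D H : Finset Site} {V U : Finset Tri} {a : ℝ}
    (h0 : ‖amp D H V U (-1)‖ ≤ a) (h1 : ‖amp D (rotA.mS H) (rotA.mT V) U (-1)‖ ≤ a)
    (h2 : ‖amp D (rotA.mS (rotA.mS H)) (rotA.mT (rotA.mT V)) U (-1)‖ ≤ a) :
    ‖amp3 D H V U‖ ≤ 3 * a := by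
  rw [amp3]
  refine (norm_add₃_le).trans ?_
  simp only [norm_mul, norm_zpow, norm_neg, norm_one, one_zpow, one_mul]
  linarith

/-- The same for the three rotations; transport the averages with `rotIn_bijOn` (`rot_bal`,
`avg_bij`), compare the classes with `KH.rot_cls`, `kI_rot`, `sgn_amp3` (for `c` and for `c'`).
Use `CV4` for the scales `k ≤ J` and `BV 4`, `geo_tail` for the others. -/
theorem ki1_of (hB : BV 4) (hC : CV4) {g : ℝ} (hE : ExpB 6 g) (hg : 2 < g) : KI1 := by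
  intro η hη
  obtain ⟨Cb, hCb, hb⟩ := Kap1_bv hB
  obtain ⟨C, hC0, hE'⟩ := Kap1_exp hE
  obtain ⟨Cg, hCg, hgs⟩ := geo_sum hg
  obtain ⟨η₁, hη₁, k1⟩ : ∃ η₁ : ℝ, 0 < η₁ ∧ (8 + 8 * C * Cg) * η₁ ≤ η / 2 :=
    ⟨η / 2 / (8 + 8 * C * Cg), by positivity, le_of_eq (by field_simp)⟩
  obtain ⟨η₂, hη₂, k2⟩ : ∃ η₂ : ℝ, 0 < η₂ ∧ (1 + 24 * C * Cb + 150 * C) * η₂ ≤ η / 2 :=
    ⟨η / 2 / (1 + 24 * C * Cb + 150 * C), by positivity, le_of_eq (by field_simp)⟩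
  obtain ⟨J, hJ⟩ := geo_tail hg hη₂
  obtain ⟨l₀, hcv⟩ := hC η₁ hη₁
  refine ⟨max l₀ 5 * (2 * 2 ^ J), fun Lam => ?_⟩
  obtain ⟨s₀, hb⟩ := hb Lam
  obtain ⟨s₁, hcv⟩ := hcv Lam
  refine ⟨max (max s₀ s₁) 6, fun s r D c c' o U f hs hl h hD => ?_⟩
  have hs6 : 6 ≤ s := (le_max_right _ _).trans hs
  have hs0 : s₀ ≤ s := ((le_max_left _ _).trans (le_max_left _ _)).trans hs
  have hs1 : s₁ ≤ s := ((le_max_right _ _).trans (le_max_left _ _)).trans hs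
  have hr : 0 < r := by linarith [h.dom.gap]
  have hq : 0 ≤ (s / r) ^ 2 := sq_nonneg _
  have hJ1 : (1 : ℝ) ≤ 2 ^ J := one_le_pow₀ one_le_two
  have hl' : max l₀ 5 * Kap1_rho s J ≤ r := by
    refine le_trans (le_of_eq ?_) hl
    unfold Kap1_rho
    ring
  have hl5 : 5 * s * 2 ^ (J + 1) ≤ r := by
    refine le_trans ?_ hl'
    have h1 : 0 ≤ Kap1_rho s J := by linarith [Kap1_rho_ge hs6 J]
    refine le_trans (le_of_eq ?_) (mul_le_mul_of_nonneg_right (le_max_right _ _) h1)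
    unfold Kap1_rho
    ring
  have h5 : 5 * s ≤ r := by
    refine le_trans ?_ hl5
    exact le_mul_of_one_le_right (by linarith) (one_le_pow₀ one_le_two)
  obtain ⟨K, hK, hK'⟩ := exists_dyadic (by linarith : 0 < 5 * s) h5
  have hJK : J ≤ K := by
    have h1 : (2 : ℝ) ^ (J + 1) < 2 ^ (K + 1) :=
      lt_of_mul_lt_mul_left (hl5.trans_lt hK') (by linarith)
    have h2 := (pow_lt_pow_iff_right₀ one_lt_two).1 h1
    omega
  obtain ⟨G₀, e₀, a₀, b₀⟩ := Kap1_res h (by linarith) K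
  obtain ⟨G₁, e₁, a₁, b₁⟩ := Kap1_res h.rot (by linarith) K
  obtain ⟨G₂, e₂, a₂, b₂⟩ := Kap1_res h.rot.rot (by linarith) K
  obtain ⟨A, B, hB1, hAB⟩ := exists_affine h.dom h.out h.card h.f1 h.fP
  have bij := Kap1_rotIn h
  have r1 : ∀ k ≤ K, ∀ S, Kap1_stop s D (rotA.mS c) o k (rotIn r S) ↔ Kap1_stop s D c o k S :=
    fun k hk S => Kap1_stop_rot h (by linarith [Kap1_rho_ge hs6 k])
      (by linarith [Kap1_rho_ge hs6 k, Kap1_rho_le hs6 hk hK]) S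
  have r2 : ∀ k ≤ K, ∀ S, Kap1_stop s D (rotA.mS (rotA.mS c)) o k (rotIn r (rotIn r S)) ↔
      Kap1_stop s D c o k S :=
    fun k hk S => (Kap1_stop_rot h.rot (by linarith [Kap1_rho_ge hs6 k])
      (by linarith [Kap1_rho_ge hs6 k, Kap1_rho_le hs6 hk hK]) _).trans (r1 k hk S)
  have h1 := Kap1_main h hs6 hC0 (by linarith) hE' hK hK'
    (fun S => G₀ S + G₁ (rotIn r S) + G₂ (rotIn r (rotIn r S)))
    (fun k => if k ≤ J then 2 * η₁ else 6 * Cb) 6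
    (fun k => by split_ifs <;> positivity) (by norm_num) (fun S hS k hk hst hj => ?_)
    (fun S _ hn => ?_)
  · rw [e₀, e₁, e₂, ← avg_bij _ bij G₁, ← avg_bij _ bij G₂,
      ← avg_bij _ bij (fun S => G₂ (rotIn r S)), ← avg_add, ← avg_add]
    refine h1.trans (mul_le_mul_of_nonneg_right ?_ hq)
    have h2 : ∑ k ∈ Finset.range K, Kap1_t g k ≤ Cg := hgs K
    have h3 : ∑ k ∈ (Finset.range K).filter (J ≤ ·), Kap1_t g k ≤ η₂ := hJ K
    have h4 : Kap1_t g K ≤ η₂ :=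
      (Finset.single_le_sum (f := Kap1_t g) (fun k _ => Kap1_t_nonneg g k)
        (Finset.mem_filter.2 ⟨Finset.self_mem_range_succ K, hJK⟩)).trans (hJ (K + 1))
    have h6 : ∑ k ∈ Finset.range K, (if k + 1 ≤ J then 2 * η₁ else 6 * Cb) * Kap1_t g k ≤
        2 * η₁ * Cg + 6 * Cb * η₂ := by
      refine le_trans ?_ (add_le_add (mul_le_mul_of_nonneg_left h2 (by positivity))
        (mul_le_mul_of_nonneg_left h3 (by positivity)))
      rw [Finset.sum_filter, Finset.mul_sum, Finset.mul_sum, ← Finset.sum_add_distrib]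
      refine Finset.sum_le_sum fun k _ => ?_
      have h7 := Kap1_t_nonneg g k
      by_cases hk : k + 1 ≤ J
      · rw [if_pos hk, if_neg (by omega), mul_zero, add_zero]
      · rw [if_neg hk, if_pos (by omega)]
        exact le_add_of_nonneg_left (by positivity)
    have h7 := mul_le_mul_of_nonneg_left h6 hC0
    have h8 := mul_le_mul_of_nonneg_left h4 hC0
    simp only [Nat.zero_le, if_true]
    linarith
  · have a1 := Kap1_rho_ge hs6 k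
    have a2 := Kap1_rho_le hs6 hk hK
    obtain ⟨σ, hσ, e⟩ := Kap1_cls3 h hAB hS (by linarith) a2 (by linarith) hst
    have fr := h.frame hS (ρ := Kap1_rho s k) (by linarith) (by linarith)
    have hD' : D ⊆ bal 0 (Lam * Kap1_rho s k) :=
      bal_sub_scale (h.dom.hR (mem_bal.2 (by simp [dst, hr.le]))) hD (by linarith) (by linarith)
    rw [a₀ S k hk hst hj,
      a₁ _ k hk ((r1 k hk S).2 hst) (fun j hjk hc => hj j hjk ((r1 j (by omega) S).1 hc)),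
      a₂ _ k hk ((r2 k hk S).2 hst) (fun j hjk hc => hj j hjk ((r2 j (by omega) S).1 hc))]
    split_ifs with hkJ
    · rw [mul_assoc]
      refine Kap1_abs e hB1 hσ ?_
      rcases (show (kT s (Kap1_rho s k) D c ((c ∪ o) ∆ S)).card ≤ 4 from hst).lt_or_eq with
        h4 | h4
      · rw [Kap1_amp3_zero fr (by rwa [h.card]), norm_zero]
        positivity
      · refine hcv _ _ _ _ _ _ (by linarith) ?_ fr hD' h4 h.card
        refine le_trans ?_ hl'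
        exact mul_le_mul (le_max_left _ _) (Kap1_rho_mono (by linarith) hkJ) (by linarith)
          (le_max_of_le_right (by norm_num))
    · refine (Kap1_abs e hB1 hσ (Kap1_amp3_le
        (hb _ _ _ _ _ _ (by linarith) fr hD' hst h.card)
        (hb _ _ _ _ _ _ (by linarith) fr.rot hD' (by rwa [Aut.card_mT]) h.card)
        (hb _ _ _ _ _ _ (by linarith) fr.rot.rot hD' (by rwa [Aut.card_mT, Aut.card_mT])
          h.card))).trans (le_of_eq ?_)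
      ring
  · rw [b₀ S hn, b₁ _ (fun k hk hc => hn k hk ((r1 k hk S).1 hc)),
      b₂ _ (fun k hk hc => hn k hk ((r2 k hk S).1 hc))]
    refine (abs_add_three _ _ _).trans ?_
    linarith [Kap1_dK_le h S, Kap1_dK_le h.rot (rotIn r S),
      Kap1_dK_le h.rot.rot (rotIn r (rotIn r S))]

end Pool.Agent.TAF.U
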