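import Pool.Agent.P.MP_cb4022_pr.U.KCls

/-! The contraction constant, outer stage (paper F5, stage 1). -/

open scoped Classical symmDiff

noncomputable section

namespace Pool.Agent.TAF.U

structure FH (s R : ℝ) (c c' o : Finset Site) (F : Finset Site → ℝ) : Prop where
  cs : c ⊆ bal 0 s
  cs' : c' ⊆ bal 0 s
  eq : ∀ x ∉ bal 0 (s - 1), x ∈ c ↔ x ∈ c'
  od : Disjoint o (bal 0 R)
  ms : Meas (bal 0 R) F
  f1 : ∀ S, |F S| ≤ 1

/-- mean change of `F` when the inside is changed and the middle is uniform -/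
def dF (s R : ℝ) (c c' o : Finset Site) (F : Finset Site → ℝ) : ℝ :=
  avg (Gr (bal 0 R) (bal 0 s)) fun S => F ((c ∪ o) ∆ S) - F ((c' ∪ o) ∆ S)

def KF0 : Prop := ∃ C : ℝ, 0 < C ∧ ∀ lam : ℝ, 1 ≤ lam → ∃ s₀ : ℝ, ∀ (s : ℝ) (c c' o : Finset Site)
  (F : Finset Site → ℝ), s₀ ≤ s → FH s (lam * s) c c' o F → |dF s (lam * s) c c' o F| ≤ C / lam ^ 2

def KF1 : Prop := ∀ η : ℝ, 0 < η → ∃ lam₀ : ℝ, ∀ lam : ℝ, lam₀ ≤ lam → ∃ s₀ : ℝ, ∀ (s : ℝ)
  (c c' o : Finset Site) (F : Finset Site → ℝ), s₀ ≤ s → FH s (lam * s) c c' o F →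
    |dF s (lam * s) c c' o F + dF s (lam * s) (rotA.mS c) (rotA.mS c') o F +
      dF s (lam * s) (rotA.mS (rotA.mS c)) (rotA.mS (rotA.mS c')) o F| ≤ η / lam ^ 2

/-- the exploration from the outside, which does not see the inside of the target -/
def oU (R : ℝ) (o : Finset Site) : Finset Tri := oddS (res (bd o) (bal 0 R))
def oD (R ρ : ℝ) (o S : Finset Site) : Finset Site :=
  dStar (bal 0 R) (res (bd (o ∆ S)) (bal 0 R)) (oU R o) ρ
def oT (R ρ : ℝ) (o S : Finset Site) : Finset Tri :=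
  tips (res (bd (o ∆ S)) (bal 0 R)) (oU R o) (bal 0 ρ)

section
variable {s R ρ : ℝ} {c c' o S : Finset Site} {F : Finset Site → ℝ}

theorem FH.rot (h : FH s R c c' o F) : FH s R (rotA.mS c) (rotA.mS c') o F := by
  refine ⟨AutL_sub s h.cs, AutL_sub s h.cs', fun x hx => ?_, h.od, h.ms, h.f1⟩
  obtain ⟨y, rfl⟩ := rotA.fS.surjective x
  rw [Aut.mem_mS, Aut.mem_mS]
  refine h.eq y fun hy => hx ?_
  rw [← rot_bal, Aut.mem_mS]
  exact hy

theorem Kap2_odd (hS : S ⊆ bal 0 R) (t : Tri) :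
    IsOdd (res (bd (o ∆ S)) (bal 0 R)) t ↔ t ∈ oU R o := by
  rw [oU, mem_oddS]
  refine odd_res_congr (fun x hx => ?_) t
  have : x ∉ S := fun h => hx (hS h)
  simp [Finset.mem_symmDiff, this]

theorem Kap2_tip {u : Tri} (hu : u ∈ oU R o) : OutTip (bal 0 R) u := by
  rw [oU, mem_oddS, isOdd_res (Or.inl (not_isOdd_bd o u))] at hu
  obtain ⟨q, h0, h1, h2, -⟩ := hu
  exact ⟨q, h0, h1, h2⟩

theorem Kap2_all {u : Tri} (hu : u ∈ oU R o) : AllIn u (bal 0 (R - 1) : Set Site)ᶜ :=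
  (Kap2_tip hu).allIn subset_rfl

theorem Kap2_res_act {ξ : Finset Edge} {A Y : Finset Site} (h : Y ⊆ A) :
    res (ξ ∆ bd Y) A = res ξ A ∆ bd Y := by
  ext e
  have h1 : e ∈ bd Y → Touch e A := fun he =>
    InOut_touch_mono (Finset.coe_subset.2 h) (InOut_touch_bd he)
  simp only [mem_res, Finset.mem_symmDiff]
  tauto

theorem Kap2_simple (Y : Finset Site) (A : Set Site) : Simple (res (bd Y) A) :=
  (simple_bd Y).mono (Link_res_sub _ _)

theorem Kap2_sub : oD R ρ o S ⊆ bal 0 R := dStar_sub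

theorem outH_o (ho : Disjoint o (bal 0 R)) (hS : S ⊆ bal 0 R) (h0 : 0 ≤ ρ) (h1 : ρ + 1 ≤ R) :
    OutH ρ (bal 0 R) (oU R o) (res (bd (o ∆ S)) (bal 0 R)) := by
  have _ := ho
  refine ⟨h0, bal_mono 0 (by linarith), sconn_compl_bal 0 R, fun e he => (mem_res.1 he).2,
    fun u hu => Kap2_tip hu, Kap2_simple _ _, fun t ht => (Kap2_odd hS t).2 ht, ?_,
    fun t ht _ => (Kap2_odd hS t).1 ht⟩
  rintro t ht ⟨i, hi⟩
  exact Kap2_all ht i (bal_mono 0 (by linarith) hi)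

theorem oD_act {S' : Finset Site} (hS' : S' ⊆ oD R ρ o S) {ρ' : ℝ} (h : ρ ≤ ρ') :
    oD R ρ o (S ∆ S') = oD R ρ o S ∧ oT R ρ' o (S ∆ S') = oT R ρ' o S := by
  have e : res (bd (o ∆ (S ∆ S'))) (bal 0 R) = res (bd (o ∆ S)) (bal 0 R) ∆ bd S' := by
    rw [← symmDiff_assoc, bd_symmDiff (o ∆ S), Kap2_res_act (hS'.trans Kap2_sub)]
  unfold oD oT
  rw [e]
  exact dStar_act hS' h

/-- parity, `arc_tips_in`, `arc_congr` -/
theorem arc_o (ho : Disjoint o (bal 0 R)) (hS : S ⊆ bal 0 R) (h0 : 0 ≤ ρ) (h1 : ρ + 3 ≤ R)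
    (hc : 4 < (oT R ρ o S).card) : Arc 6 (bd o ∆ bd S) 0 (ρ + 1) (R - 1) := by
  have H := outH_o ho hS h0 (by linarith)
  have h6 : 6 ≤ (oT R ρ o S).card := by
    obtain ⟨a, ha⟩ := H.good.parity
    obtain ⟨b, hb⟩ := even_odd (Kap2_odd (o := o) hS)
    unfold oT at hc ⊢
    omega
  have hA := arc_tips_in H.good (p := 0) (r := ρ + 1) (R := R - 1) (by linarith)
    (fun t ⟨i, hi⟩ ht => Kap2_all ((Kap2_odd hS t).1 ht) i (mem_bal.2 (mem_ann.1 hi).2))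
    (fun t ht => Kap2_all ht) (Finset.coe_subset.2 (bal_mono 0 (by linarith)))
  refine (arc_congr fun e he => ?_).1 (hA.mono h6)
  rw [mem_res, bd_symmDiff]
  refine and_iff_left (InOut_touch_mono (fun x hx => ?_) he)
  exact mem_bal.2 ((mem_ann.1 hx).2.trans (by linarith))

/-- On the class `F` is a function `f` of the pairing of the tips: for `o' = (o ∆ S) \ oD` put
`f ξ = F (o' ∪ Y)` for a chosen `Y ⊆ oD` with the same pairing (`OutH.odd_res`, `odd_res_congr`,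
`Link.nest`). -/
theorem exists_fun (ho : Disjoint o (bal 0 R)) (hS : S ⊆ bal 0 R) (h0 : 0 ≤ ρ) (h1 : ρ + 1 ≤ R)
    (hF : Meas (bal 0 R) F) (f1 : ∀ S, |F S| ≤ 1) :
    (∀ t, IsOdd (res (bd ((o ∆ S) \ oD R ρ o S)) (oD R ρ o S)) t ↔ t ∈ oT R ρ o S) ∧
    ∃ f : Finset Edge → ℝ, (∀ ξ, |f ξ| ≤ 1) ∧ (∀ ξ ξ', SameP (oT R ρ o S) ξ ξ' → f ξ = f ξ') ∧
      ∀ Y ⊆ oD R ρ o S, F ((o ∆ S) \ oD R ρ o S ∪ Y) =
        f (res (bd ((o ∆ S) \ oD R ρ o S ∪ Y)) (oD R ρ o S)) := by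
  have H := outH_o ho hS h0 h1
  set D := oD R ρ o S with hD
  set o' := (o ∆ S) \ D with ho'
  have hodd : ∀ t, IsOdd (res (bd o') D) t ↔ t ∈ oT R ρ o S := by
    intro t
    have e : res (bd (o ∆ S)) D = res (res (bd (o ∆ S)) (bal 0 R)) D := by
      refine res_congr fun e he => ?_
      rw [mem_res]
      exact (and_iff_left (InOut_touch_mono (Finset.coe_subset.2 Kap2_sub) he)).symm
    rw [odd_res_congr (S' := o ∆ S) (fun x hx => by simp [ho', hx]) t, e]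
    refine (H.odd_res t).trans ⟨fun h => ?_, fun h => ?_⟩
    · by_contra hn
      refine h.2 (iff_of_false (fun h2 => ?_) hn)
      exact H.good.far t ((Kap2_odd hS t).1 h2) h.1
    · have h2 := (mem_tips.1 h).2
      exact ⟨h2, fun h3 => H.good.far t ((Kap2_odd hS t).1 (h3.2 h)) h2⟩
  have key : ∀ Y ⊆ D, ∀ Y' ⊆ D, SameP (oT R ρ o S) (res (bd (o' ∪ Y)) D) (res (bd (o' ∪ Y')) D) →
      F (o' ∪ Y) = F (o' ∪ Y') := by
    intro Y hY Y' hY' hs
    have e : ∀ t, IsOdd (res (bd (o' ∪ Y)) D) t → t ∈ oT R ρ o S := fun t ht => by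
      rw [← hodd, ← odd_res_congr (S := o' ∪ Y) (fun x hx => ?_) t]
      · exact ht
      · have : x ∉ Y := fun h => hx (hY h)
        simp [this]
    refine hF _ _ (Link.nest (B := D) Kap2_sub ⟨fun x hx => ?_, fun t t' ht ht' =>
      hs t (e t ht) t' (e t' ht')⟩)
    have a : x ∉ Y := fun h => hx (hY h)
    have b : x ∉ Y' := fun h => hx (hY' h)
    simp [a, b]
  refine ⟨hodd, fun ξ => if h : ∃ Y, Y ⊆ D ∧ SameP (oT R ρ o S) ξ (res (bd (o' ∪ Y)) D) then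
    F (o' ∪ h.choose) else 0, fun ξ => ?_, fun ξ ξ' hs => ?_, fun Y hY => ?_⟩
  · beta_reduce
    split_ifs
    · exact f1 _
    · simp
  · have e : (fun Y => Y ⊆ D ∧ SameP (oT R ρ o S) ξ (res (bd (o' ∪ Y)) D)) =
        fun Y => Y ⊆ D ∧ SameP (oT R ρ o S) ξ' (res (bd (o' ∪ Y)) D) := by
      funext Y
      exact propext (and_congr_right fun _ => ⟨fun h a ha b hb => (hs a ha b hb).symm.trans
        (h a ha b hb), fun h a ha b hb => (hs a ha b hb).trans (h a ha b hb)⟩)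
    simp only [e]
  · have h : ∃ Y', Y' ⊆ D ∧ SameP (oT R ρ o S) (res (bd (o' ∪ Y)) D) (res (bd (o' ∪ Y')) D) :=
      ⟨Y, hY, fun _ _ _ _ => Iff.rfl⟩
    beta_reduce
    rw [dif_pos h]
    exact key Y hY _ h.choose_spec.1 h.choose_spec.2

/-- The class average is an average of the inner stage (shift by `S ∩ oD`, `avg_Gr_shift`); the
function `f` does not depend on `c`, `c'`. With fewer than four tips it vanishes
(`sameP_of_card`). -/
theorem cls_o (ho : Disjoint o (bal 0 R)) (hS : S ∈ Gr (bal 0 R) (bal 0 s)) (h0 : 0 ≤ s)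
    (h1 : s + 6 ≤ ρ) (h2 : ρ + 1 ≤ R) (hF : Meas (bal 0 R) F) (f1 : ∀ S, |F S| ≤ 1) :
    ∃ (o' : Finset Site) (f : Finset Edge → ℝ), ∀ c c', FH s R c c' o F →
      avg (Gr (oD R ρ o S) (bal 0 s))
          (fun S' => F ((c ∪ o) ∆ (S ∆ S')) - F ((c' ∪ o) ∆ (S ∆ S'))) =
        avg (Gr (oD R ρ o S) (bal 0 s)) (dK (oD R ρ o S) c c' o' f) ∧
      ((oT R ρ o S).card = 4 → KH s ρ (oD R ρ o S) c c' o' (oT R ρ o S) f) ∧
      ((oT R ρ o S).card < 4 →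
        avg (Gr (oD R ρ o S) (bal 0 s)) (dK (oD R ρ o S) c c' o' f) = 0) := by
  have hSB := (mem_Gr.1 hS).1
  have H := outH_o ho hSB (by linarith : 0 ≤ ρ) h2
  obtain ⟨hodd, f, hf1, hfP, hf⟩ := exists_fun ho hSB (by linarith : 0 ≤ ρ) h2 hF f1
  have hH : bal 0 s ⊆ oD R ρ o S := (bal_mono 0 (by linarith)).trans H.bal_sub
  have hdom : Dom s ρ (oD R ρ o S) (bal 0 s) :=
    H.dom (mem_bal.2 (by rwa [dst_self])) subset_rfl (sconn_bal 0 s) h1
  have htip : ∀ u ∈ oT R ρ o S, OutTip (oD R ρ o S) u := H.tip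
  have hDB : oD R ρ o S ⊆ bal 0 R := Kap2_sub
  generalize oD R ρ o S = D at *
  have hS₀ : S ∩ D ∈ Gr D (bal 0 s) := by
    refine mem_Gr.2 ⟨Finset.inter_subset_right, (mem_Gr.1 hS).2.imp
      (fun h => Finset.subset_inter h hH) fun h => h.mono_left Finset.inter_subset_left⟩
  have e : ∀ c ⊆ bal 0 s, ∀ S' ⊆ D, F ((c ∪ o) ∆ (S ∆ S')) =
      f (res (bd ((c ∪ (o ∆ S) \ D) ∆ (S' ∆ (S ∩ D)))) D) := by
    intro c hc S' hS'
    have a : ∀ x, x ∉ D → x ∉ c ∧ x ∉ S' := fun x hx =>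
      ⟨fun h => hx (hH (hc h)), fun h => hx (hS' h)⟩
    have b : ∀ x, x ∈ D → x ∉ o := fun x hx h => Finset.disjoint_left.1 ho h (hDB hx)
    have e1 : (c ∪ o) ∆ (S ∆ S') = (o ∆ S) \ D ∪ c ∆ (S' ∆ (S ∩ D)) := by
      ext x
      by_cases hx : x ∈ D
      · by_cases h1 : x ∈ c <;> by_cases h2 : x ∈ S <;> simp [Finset.mem_symmDiff, hx, b x hx, h1, h2]
      · simp [Finset.mem_symmDiff, hx, (a x hx).1, (a x hx).2]
    have e2 : (c ∪ (o ∆ S) \ D) ∆ (S' ∆ (S ∩ D)) = (o ∆ S) \ D ∪ c ∆ (S' ∆ (S ∩ D)) := by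
      ext x
      by_cases hx : x ∈ D
      · simp [Finset.mem_symmDiff, hx]
      · simp [Finset.mem_symmDiff, hx, (a x hx).1, (a x hx).2]
    rw [e1, e2]
    exact hf _ (Markov_sub (hc.trans hH) (Markov_sub hS' Finset.inter_subset_right))
  refine ⟨(o ∆ S) \ D, f, fun c c' h => ⟨?_, fun h4 => ?_, fun h4 => ?_⟩⟩
  · rw [← avg_Gr_shift hS₀ (dK D c c' ((o ∆ S) \ D) f)]
    refine avg_congr fun S' hS' => ?_
    rw [e c h.cs S' (mem_Gr.1 hS').1, e c' h.cs' S' (mem_Gr.1 hS').1, dK]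
  · exact ⟨hdom, htip, h4, h.cs, h.cs', h.eq, Finset.sdiff_disjoint, hodd, hf1,
      fun ξ ξ' _ _ => hfP ξ ξ'⟩
  · refine (avg_congr fun S' hS' => ?_).trans (avg_zero _)
    have a : ∀ c ⊆ bal 0 s, ∀ t,
        IsOdd (res (bd ((c ∪ (o ∆ S) \ D) ∆ S')) D) t ↔ t ∈ oT R ρ o S := by
      intro c hc t
      rw [← hodd]
      refine odd_res_congr (fun x hx => ?_) t
      have a1 : x ∉ c := fun h => hx (hH (hc h))
      have a2 : x ∉ S' := fun h => hx ((mem_Gr.1 hS').1 h)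
      simp only [Finset.mem_symmDiff (s := c ∪ (o ∆ S) \ D), Finset.mem_union, a1, a2]
      tauto
    rw [dK, sub_eq_zero]
    exact hfP _ _ (sameP_of_card (Kap2_simple _ _) (Kap2_simple _ _) (a c h.cs) (a c' h.cs')
      (by omega))

end

/-- the terms of the geometric sums -/
def Kap2_t (g : ℝ) (k : ℕ) : ℝ := ((2 : ℝ) ^ (k + 1)) ^ (2 : ℝ) * ((2 : ℝ) ^ k) ^ (-g)

theorem Kap2_t_nonneg (g : ℝ) (k : ℕ) : 0 ≤ Kap2_t g k := by
  unfold Kap2_t
  positivity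

theorem Kap2_rad {lam s : ℝ} {K k : ℕ} (hK : 4 * 2 ^ K ≤ lam) (hs : 6 ≤ s) (hk : k ≤ K) :
    2 * s ≤ lam * s / 2 ^ (k + 1) ∧ lam * s / 2 ^ (k + 1) ≤ lam * s / 2 ∧ 24 ≤ lam * s := by
  have a1 : (2 : ℝ) ^ k ≤ 2 ^ K := pow_le_pow_right₀ one_le_two hk
  have a2 : (1 : ℝ) ≤ 2 ^ k := one_le_pow₀ one_le_two
  have a3 : 24 ≤ lam * s := by nlinarith
  refine ⟨?_, ?_, a3⟩
  · rw [le_div_iff₀ (by positivity), pow_succ]
    nlinarith
  · refine div_le_div_of_nonneg_left (by linarith) two_pos ?_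
    rw [pow_succ]
    linarith

theorem Kap2_prob {g : ℝ} (hE : ExpB 6 g) (hg : 0 ≤ g) : ∃ C : ℝ, 0 ≤ C ∧ ∀ (lam s : ℝ) (K k : ℕ)
    (o : Finset Site), 4 * 2 ^ K ≤ lam → 6 ≤ s → k ≤ K → Disjoint o (bal 0 (lam * s)) →
      pr (Gr (bal 0 (lam * s)) (bal 0 s))
        (fun S => ¬ (oT (lam * s) (lam * s / 2 ^ (k + 1)) o S).card ≤ 4) ≤
        C * ((2 : ℝ) ^ k) ^ (-g) := by
  obtain ⟨C, hC⟩ := hE
  refine ⟨max C 0 * 2 ^ g, by positivity, fun lam s K k o hK hs hk ho => ?_⟩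
  obtain ⟨a1, a2, a3⟩ := Kap2_rad hK hs hk
  have e : lam * s = lam * s / 2 ^ (k + 1) * (2 * 2 ^ k) := by
    rw [pow_succ]
    field_simp
  generalize lam * s / 2 ^ (k + 1) = ρ at *
  generalize lam * s = R at *
  refine (pr_mono fun S hS hc => arc_o ho (mem_Gr.1 hS).1 (by linarith) (by linarith)
    (not_le.1 hc)).trans ((pr_arc_Gr (hC (ρ + 1) (R - 1) (by linarith) (by linarith)) ?_ ?_
      fun t _ => not_isOdd_bd o t).trans ?_)
  · exact fun x hx => mem_bal.2 ((mem_ann.1 hx).2.trans (by linarith))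
  · refine Finset.disjoint_left.2 fun x hx hx' => ?_
    linarith [(mem_ann.1 hx).1, mem_bal.1 hx']
  · have b0 : (0 : ℝ) < 2 ^ k := by positivity
    have b1 : 0 ≤ (ρ + 1) / (R - 1) := div_nonneg (by linarith) (by linarith)
    have b2 : (ρ + 1) / (R - 1) ≤ 2 / 2 ^ k := by
      rw [div_le_div_iff₀ (by linarith) b0]
      nlinarith
    refine (mul_le_mul (le_max_left C 0) (Real.rpow_le_rpow b1 b2 hg) (by positivity)
      (le_max_right C 0)).trans (le_of_eq ?_)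
    rw [Real.div_rpow zero_le_two b0.le, Real.rpow_neg b0.le, div_eq_mul_inv, mul_assoc]

theorem Kap2_master {g : ℝ} (hE : ExpB 6 g) (hg : 0 ≤ g) : ∃ C : ℝ, 0 ≤ C ∧ ∀ (lam s : ℝ) (K : ℕ)
    (o : Finset Site) (Φ : Finset Site → ℝ) (β : ℕ → ℝ) (B : ℝ), 4 * 2 ^ K ≤ lam →
    lam < 4 * 2 ^ (K + 1) → 6 ≤ s → Disjoint o (bal 0 (lam * s)) → (∀ S, |Φ S| ≤ B) →
    (∀ k, 0 ≤ β k) → (∀ k ≤ K, ∀ S ∈ Gr (bal 0 (lam * s)) (bal 0 s),
      (oT (lam * s) (lam * s / 2 ^ (k + 1)) o S).card ≤ 4 →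
        |avg (Gr (oD (lam * s) (lam * s / 2 ^ (k + 1)) o S) (bal 0 s)) fun S' => Φ (S ∆ S')| ≤
          β k * (s / (lam * s / 2 ^ (k + 1))) ^ 2) →
    |avg (Gr (bal 0 (lam * s)) (bal 0 s)) Φ| ≤
      (4 * β 0 + C * (∑ k ∈ Finset.range K, β (k + 1) * Kap2_t g k + B * Kap2_t g K)) / lam ^ 2 := by
  obtain ⟨C, hC0, hC⟩ := Kap2_prob hE hg
  refine ⟨16 * C, by positivity, fun lam s K o Φ β B hK hK' hs ho hΦ hβ h => ?_⟩
  have hl : 0 < lam := lt_of_lt_of_le (by positivity) hK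
  have hs0 : 0 < s := by linarith
  have hB : 0 ≤ B := (abs_nonneg _).trans (hΦ ∅)
  rw [ms_act (Gr (bal 0 (lam * s)) (bal 0 s)) (· ∆ ·) ∅ (fun x => symmDiff_bot x) K
    (fun k S => Gr (oD (lam * s) (lam * s / 2 ^ (k + 1)) o S) (bal 0 s))
    (fun k S => (oT (lam * s) (lam * s / 2 ^ (k + 1)) o S).card ≤ 4)
    (fun _ _ _ _ => Gr_nonempty _ _) ?_ Φ]
  · rw [← Real.norm_eq_abs]
    refine (ms_bound _ K (fun k S => (oT (lam * s) (lam * s / 2 ^ (k + 1)) o S).card ≤ 4) _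
      (fun k => β k * (2 ^ (k + 1)) ^ 2 / lam ^ 2) (fun k => C * ((2 : ℝ) ^ k) ^ (-g)) B
      (fun k => by have := hβ k; positivity) hB ?_ ?_ fun k hk => hC lam s K k o hK hs hk ho).trans ?_
    · intro S hS k hk h1 h2
      have h3 : ∃ k, k ≤ K ∧ (oT (lam * s) (lam * s / 2 ^ (k + 1)) o S).card ≤ 4 := ⟨k, hk, h1⟩
      have h4 : ∀ inst, @Nat.find _ inst h3 = k := fun _ =>
        (Nat.find_eq_iff h3).2 ⟨⟨hk, h1⟩, fun j hj hc => h2 j hj hc.2⟩
      rw [dif_pos h3, h4]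
      refine (h k hk S hS h1).trans (le_of_eq ?_)
      field_simp
    · intro S _ h1
      rw [dif_neg fun ⟨k, hk, hc⟩ => h1 k hk hc]
      exact hΦ S
    · rw [le_div_iff₀ (by positivity), add_mul, add_mul, mul_add, add_assoc, Finset.sum_mul,
        Finset.mul_sum]
      refine add_le_add (le_of_eq ?_) (add_le_add (Finset.sum_le_sum fun k _ => ?_) ?_)
      · field_simp
        ring
      · have e : β (k + 1) * (2 ^ (k + 1 + 1)) ^ 2 / lam ^ 2 * (C * ((2 : ℝ) ^ k) ^ (-g)) * lam ^ 2 =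
            4 * C * (β (k + 1) * Kap2_t g k) := by
          rw [Kap2_t, Real.rpow_two, pow_succ 2 (k + 1)]
          field_simp
          ring
        rw [e]
        have := mul_nonneg hC0 (mul_nonneg (hβ (k + 1)) (Kap2_t_nonneg g k))
        linarith
      · have a : lam ^ 2 ≤ (4 * 2 ^ (K + 1)) ^ 2 := pow_le_pow_left₀ hl.le hK'.le 2
        refine (mul_le_mul_of_nonneg_left a (by positivity)).trans (le_of_eq ?_)
        rw [Kap2_t, Real.rpow_two]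
        ring
  · intro k _ S hS S' hS'
    have a := (mem_Gr.1 hS').1
    refine ⟨Gr_symmDiff hS (Gr_mono Kap2_sub subset_rfl hS'), ?_, symmDiff_symmDiff_cancel_right _ _,
      fun j hj => ?_⟩
    · rw [(oD_act a le_rfl).1]
    · rw [(oD_act a (div_le_div_of_nonneg_left (by positivity) (by positivity)
        (pow_le_pow_right₀ one_le_two (Nat.succ_le_succ hj)))).2]

theorem Kap2_two {F : Finset Site → ℝ} (f1 : ∀ S, |F S| ≤ 1) (X Y : Finset Site) :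
    |F X - F Y| ≤ 2 := (abs_sub _ _).trans (by linarith [f1 X, f1 Y])

theorem Kap2_last {g C : ℝ} {K : ℕ} {P : ℕ → Prop} [DecidablePred P] (hP : P K)
    (h : ∑ k ∈ (Finset.range (K + 1)).filter P, Kap2_t g k ≤ C) : Kap2_t g K ≤ C :=
  (Finset.single_le_sum (fun k _ => Kap2_t_nonneg g k)
    (Finset.mem_filter.2 ⟨Finset.self_mem_range_succ K, hP⟩)).trans h

/-- Radii `ρ k = R / 2 ^ (k + 1)` down to about `2 s` (small `lam` is trivial); `ms_act` on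
`Gr (bal 0 R) (bal 0 s)` with `G k S = Gr (oD R (ρ k) o S) (bal 0 s)`, stop at `≤ 4` tips;
`cls_o`; `ms_bound` with `arc_o`, `pr_arc_Gr`, `geo_sum`. -/
theorem kf0_of (h0 : KI0) {g : ℝ} (hE : ExpB 6 g) (hg : 2 < g) : KF0 := by
  obtain ⟨C₀, h0⟩ := h0
  obtain ⟨C₁, hC₁, hM⟩ := Kap2_master hE (by linarith)
  obtain ⟨C₂, hC₂, hG⟩ := geo_sum hg
  have hG' : ∀ K, ∑ k ∈ Finset.range K, Kap2_t g k ≤ C₂ := hG
  have hm := le_max_right C₀ 0
  refine ⟨4 * max C₀ 0 + C₁ * (max C₀ 0 * C₂ + 2 * C₂) + 32, by positivity, fun lam hl => ?_⟩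
  obtain ⟨s₀, h0⟩ := h0 lam
  refine ⟨max s₀ 6, fun s c c' o F hs h => ?_⟩
  have hs6 : 6 ≤ s := (le_max_right _ _).trans hs
  have hp : 0 ≤ C₁ * (max C₀ 0 * C₂ + 2 * C₂) := by positivity
  by_cases h4 : 4 ≤ lam
  · obtain ⟨K, hK, hK'⟩ := exists_dyadic four_pos h4
    refine (hM lam s K o _ (fun _ => max C₀ 0) 2 hK hK' hs6 h.od (fun S => Kap2_two h.f1 _ _)
      (fun _ => hm) fun k hk S hS hc => ?_).trans ?_
    · obtain ⟨a1, a2, a3⟩ := Kap2_rad hK hs6 hk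
      obtain ⟨o', f, hf⟩ := cls_o (ρ := lam * s / 2 ^ (k + 1)) h.od hS (by linarith) (by linarith)
        (by linarith) h.ms h.f1
      obtain ⟨b1, b2, b3⟩ := hf c c' h
      rw [b1]
      rcases hc.eq_or_lt with hc | hc
      · exact (h0 s _ _ c c' o' _ f ((le_max_left _ _).trans hs) (b2 hc) Kap2_sub).trans
          (mul_le_mul_of_nonneg_right (le_max_left _ _) (sq_nonneg _))
      · rw [b3 hc, abs_zero]
        positivity
    · refine div_le_div_of_nonneg_right ?_ (sq_nonneg _)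
      rw [← Finset.mul_sum]
      have a1 := mul_le_mul_of_nonneg_left (hG' K) hm
      have a2 : Kap2_t g K ≤ C₂ :=
        Kap2_last (P := fun _ => True) trivial (by rw [Finset.filter_true]; exact hG' (K + 1))
      have a3 := mul_le_mul_of_nonneg_left (add_le_add a1 (mul_le_mul_of_nonneg_left a2 zero_le_two))
        hC₁
      linarith
  · have a1 : |dF s (lam * s) c c' o F| ≤ 2 := by
      rw [← Real.norm_eq_abs, dF]
      exact (norm_avg_le (g := fun _ => 2) fun S _ => Kap2_two h.f1 _ _).trans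
        (avg_le zero_le_two fun _ _ => le_rfl)
    refine a1.trans ?_
    rw [le_div_iff₀ (by positivity)]
    have a2 : lam ^ 2 ≤ 16 := by nlinarith
    linarith

theorem kf1_of (h0 : KI0) (h1 : KI1) {g : ℝ} (hE : ExpB 6 g) (hg : 2 < g) : KF1 := by
  intro η hη
  obtain ⟨C₀, h0⟩ := h0
  obtain ⟨C₁, hC₁, hM⟩ := Kap2_master hE (by linarith)
  obtain ⟨C₂, hC₂, hG⟩ := geo_sum hg
  have hG' : ∀ K, ∑ k ∈ Finset.range K, Kap2_t g k ≤ C₂ := hG
  have hm := le_max_right C₀ 0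
  obtain ⟨ε, hε, he⟩ : ∃ ε : ℝ, 0 < ε ∧ 4 * ε + C₁ * (ε * C₂ + 3 * max C₀ 0 * ε + 6 * ε) = η := by
    refine ⟨η / (4 + C₁ * (C₂ + 3 * max C₀ 0 + 6)), by positivity, ?_⟩
    field_simp
  obtain ⟨J, hJ⟩ := geo_tail hg hε
  have hJ' : ∀ K, ∑ k ∈ (Finset.range K).filter (J ≤ ·), Kap2_t g k ≤ ε := hJ
  obtain ⟨l₀, h1⟩ := h1 ε hε
  refine ⟨max l₀ 4 * 2 ^ (J + 1), fun lam hl => ?_⟩
  obtain ⟨s₀, h0⟩ := h0 lam
  obtain ⟨s₁, h1⟩ := h1 lam
  refine ⟨max (max s₀ s₁) 6, fun s c c' o F hs h => ?_⟩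
  have hs6 : 6 ≤ s := (le_max_right _ _).trans hs
  have hs0 : s₀ ≤ s := ((le_max_left _ _).trans (le_max_left _ _)).trans hs
  have hs1 : s₁ ≤ s := ((le_max_right _ _).trans (le_max_left _ _)).trans hs
  have hl4 := le_max_right l₀ 4
  have hl' : 4 * 2 ^ (J + 1) ≤ lam :=
    (mul_le_mul_of_nonneg_right hl4 (by positivity)).trans hl
  have h2J : (1 : ℝ) ≤ 2 ^ (J + 1) := one_le_pow₀ one_le_two
  obtain ⟨K, hK, hK'⟩ := exists_dyadic four_pos (by linarith : 4 ≤ lam)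
  have hJK : J ≤ K := by
    have a : (2 : ℝ) ^ (J + 1) < 2 ^ (K + 1) := by linarith
    have := (pow_lt_pow_iff_right₀ one_lt_two).1 a
    omega
  unfold dF
  rw [← avg_add, ← avg_add]
  refine (hM lam s K o _ (fun k => if k ≤ J then ε else 3 * max C₀ 0) 6 hK hK' hs6 h.od
    (fun S => ?_) (fun k => by split_ifs <;> positivity) fun k hk S hS hc => ?_).trans ?_
  · refine (abs_add_three _ _ _).trans ?_
    linarith [Kap2_two h.f1 ((c ∪ o) ∆ S) ((c' ∪ o) ∆ S),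
      Kap2_two h.f1 ((rotA.mS c ∪ o) ∆ S) ((rotA.mS c' ∪ o) ∆ S),
      Kap2_two h.f1 ((rotA.mS (rotA.mS c) ∪ o) ∆ S) ((rotA.mS (rotA.mS c') ∪ o) ∆ S)]
  · obtain ⟨a1, a2, a3⟩ := Kap2_rad hK hs6 hk
    obtain ⟨o', f, hf⟩ := cls_o (ρ := lam * s / 2 ^ (k + 1)) h.od hS (by linarith) (by linarith)
      (by linarith) h.ms h.f1
    obtain ⟨b1, b2, b3⟩ := hf c c' h
    obtain ⟨c1, c2, c3⟩ := hf _ _ h.rot
    obtain ⟨d1, d2, d3⟩ := hf _ _ h.rot.rot
    rw [avg_add, avg_add, b1, c1, d1]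
    rcases hc.eq_or_lt with hc | hc
    · split_ifs with hkJ
      · refine h1 s _ _ c c' o' _ f hs1 ?_ (b2 hc) Kap2_sub
        rw [le_div_iff₀ (by positivity), mul_right_comm]
        refine mul_le_mul_of_nonneg_right (le_trans ?_ hl) (by linarith)
        exact mul_le_mul (le_max_left _ _) (pow_le_pow_right₀ one_le_two (Nat.succ_le_succ hkJ))
          (by positivity) (by linarith)
      · refine (abs_add_three _ _ _).trans ?_
        have e := mul_le_mul_of_nonneg_right (le_max_left C₀ 0)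
          (sq_nonneg (s / (lam * s / 2 ^ (k + 1))))
        linarith [h0 s _ _ _ _ o' _ f hs0 (b2 hc) Kap2_sub, h0 s _ _ _ _ o' _ f hs0 (c2 hc) Kap2_sub,
          h0 s _ _ _ _ o' _ f hs0 (d2 hc) Kap2_sub]
    · rw [b3 hc, c3 hc, d3 hc, add_zero, add_zero, abs_zero]
      split_ifs <;> positivity
  · refine div_le_div_of_nonneg_right ?_ (sq_nonneg _)
    rw [if_pos (Nat.zero_le J), ← he]
    have a1 : ∑ k ∈ Finset.range K, (if k + 1 ≤ J then ε else 3 * max C₀ 0) * Kap2_t g k ≤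
        ε * ∑ k ∈ Finset.range K, Kap2_t g k +
          3 * max C₀ 0 * ∑ k ∈ (Finset.range K).filter (J ≤ ·), Kap2_t g k := by
      rw [Finset.sum_filter, Finset.mul_sum, Finset.mul_sum, ← Finset.sum_add_distrib]
      refine Finset.sum_le_sum fun k _ => ?_
      have t0 := Kap2_t_nonneg g k
      by_cases hk : k + 1 ≤ J
      · rw [if_pos hk, if_neg (by omega), mul_zero, add_zero]
      · rw [if_neg hk, if_pos (by omega)]
        have := mul_nonneg hε.le t0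
        linarith
    have a2 := mul_le_mul_of_nonneg_left (hG' K) hε.le
    have a3 := mul_le_mul_of_nonneg_left (hJ' K) (by positivity : 0 ≤ 3 * max C₀ 0)
    have a4 : Kap2_t g K ≤ ε := Kap2_last (P := (J ≤ ·)) hJK (hJ' (K + 1))
    refine add_le_add le_rfl (mul_le_mul_of_nonneg_left ?_ hC₁)
    linarith

end Pool.Agent.TAF.U
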