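import Pool.Agent.P.MP_cb4022_pr.U.PCls

/-! From amplitudes to observables near the centre (paper F3). -/

open scoped Classical symmDiff

noncomputable section

namespace Pool.Agent.TAF.U

theorem PStep_bound {α : Type*} (W : Finset α) (K : ℕ) (stop : ℕ → α → Prop) (f : α → ℂ)
    (c : ℕ → ℝ) {u a γ E : ℝ} (hc : ∀ k, 0 ≤ c k) (hu : 0 ≤ u)
    (h1 : ∀ x ∈ W, ∀ k ≤ K, stop k x → (∀ j < k, ¬ stop j x) → ‖f x‖ ≤ c k * (2 ^ k) ^ a * u)
    (h2 : ∀ x ∈ W, (∀ k ≤ K, ¬ stop k x) → ‖f x‖ ≤ c (K + 1) * (2 ^ (K + 1)) ^ a * u)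
    (hq : ∀ k ≤ K, pr W (fun x => ¬ stop k x) ≤ E * (2 ^ k) ^ (-γ)) :
    ‖avg W f‖ ≤ (c 0 + E * ∑ k ∈ Finset.range (K + 1),
      c (k + 1) * (((2 : ℝ) ^ (k + 1)) ^ a * ((2 : ℝ) ^ k) ^ (-γ))) * u := by
  have hb : ∀ k : ℕ, 0 ≤ c k * ((2 : ℝ) ^ k) ^ a * u := fun k =>
    mul_nonneg (mul_nonneg (hc k) (by positivity)) hu
  refine (ms_bound W K stop f (fun k => c k * (2 ^ k) ^ a * u) (fun k => E * (2 ^ k) ^ (-γ)) _
    hb (hb _) h1 h2 hq).trans (le_of_eq ?_)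
  rw [add_assoc, ← Finset.sum_range_succ
    (fun k => c (k + 1) * ((2 : ℝ) ^ (k + 1)) ^ a * u * (E * ((2 : ℝ) ^ k) ^ (-γ))), add_mul,
    Finset.mul_sum, Finset.sum_mul]
  congr 1
  · simp
  · exact Finset.sum_congr rfl fun k _ => by ring

/-- the exploration at scale `k` has found few enough tips -/
def PStep_stop (s : ℝ) (V U : Finset Tri) (e : Edge) (k : ℕ) (ξ : Finset Edge) : Prop :=
  (pT ξ V e (6 * s * 2 ^ k)).card ≤ U.card

/-- the resampled contribution -/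
def PStep_g (s : ℝ) (K : ℕ) (D H : Finset Site) (V U : Finset Tri) (x : ℂ) (e : Edge) (m : ℤ)
    (ξ : Finset Edge) : ℂ :=
  if h : ∃ k, k ≤ K ∧ PStep_stop s V U e k ξ then
    avg (Gr D (H ∪ pX ξ V e (6 * s * 2 ^ Nat.find h))) fun S => trm D H V U x e m (ξ ∆ bd S)
  else trm D H V U x e m ξ

theorem PStep_le {s : ℝ} (hs : 0 ≤ s) {j k : ℕ} (h : j ≤ k) : 6 * s * 2 ^ j ≤ 6 * s * 2 ^ k :=
  mul_le_mul_of_nonneg_left (pow_le_pow_right₀ one_le_two h) (by positivity)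

theorem PStep_lo {s : ℝ} (hs : 0 ≤ s) (k : ℕ) : 6 * s ≤ 6 * s * 2 ^ k := by
  simpa using PStep_le hs (Nat.zero_le k)

section
variable {s r R : ℝ} {D H : Finset Site} {V U : Finset Tri} {e : Edge} {ξ : Finset Edge} {x : ℂ}
  {m : ℤ} {K : ℕ}

theorem PStep_down (h : PH s (6 * s * 2 ^ K) R D H V U e) {k : ℕ} (hk : k ≤ K) :
    PH s (6 * s * 2 ^ k) R D H V U e :=
  have h0 : 0 ≤ s := by linarith [h.s3]
  ⟨h.fr, h.card, h.s3, h.lo, h.hi, PStep_lo h0 k, by linarith [PStep_le h0 hk, h.r2]⟩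

theorem PStep_rep (h : PH s (6 * s * 2 ^ K) R D H V U e) :
    obsE D H V U x e m = avg (Om D H (insert (up e) (V ∪ U))) (PStep_g s K D H V U x e m) := by
  have h0 : 0 ≤ s := by linarith [h.s3]
  rw [obsE_eq, ms_act (Om D H (insert (up e) (V ∪ U))) (fun ξ S => ξ ∆ bd S) ∅
    (fun ξ => by rw [bd_empty]; exact symmDiff_bot ξ) K
    (fun k ξ => Gr D (H ∪ pX ξ V e (6 * s * 2 ^ k))) (PStep_stop s V U e)
    (fun k _ ξ _ => Gr_nonempty _ _) (fun k hk ξ hξ S hS => ?_)]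
  · rfl
  · have a := fun j (hj : j ≤ k) =>
      (PStep_down h hk).act hξ hS (PStep_lo h0 j) (PStep_le h0 hj)
    refine ⟨(a k le_rfl).1, ?_, symmDiff_symmDiff_cancel_right _ _, fun j hj => ?_⟩
    · rw [(a k le_rfl).2.1]
    · unfold PStep_stop
      rw [(a j hj).2.2.2]

theorem PStep_at (h : PH s (6 * s * 2 ^ K) R D H V U e) (hx : ‖x‖ = 1)
    (hξ : ξ ∈ Om D H (insert (up e) (V ∪ U))) {k : ℕ} (hk : k ≤ K) (h1 : PStep_stop s V U e k ξ)
    (h2 : ∀ j < k, ¬ PStep_stop s V U e j ξ) :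
    PStep_g s K D H V U x e m ξ = if PGood ξ V e (6 * s * 2 ^ k) then
      wIn H x m ξ V e (6 * s * 2 ^ k) *
        amp D (H ∪ pX ξ V e (6 * s * 2 ^ k)) (pT ξ V e (6 * s * 2 ^ k)) U (x / om) else 0 := by
  have h3 : ∃ k, k ≤ K ∧ PStep_stop s V U e k ξ := ⟨k, hk, h1⟩
  have h4 : Nat.find h3 = k := (Nat.find_eq_iff h3).2 ⟨⟨hk, h1⟩, fun j hj hc => h2 j hj hc.2⟩
  rw [PStep_g, dif_pos h3, h4]
  exact (PStep_down h hk).cls hx hξ h1

theorem PStep_no (h2 : ∀ k ≤ K, ¬ PStep_stop s V U e k ξ) :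
    PStep_g s K D H V U x e m ξ = trm D H V U x e m ξ := by
  rw [PStep_g, dif_neg fun ⟨k, hk, hc⟩ => h2 k hk hc]

theorem PStep_up (h : PH s r R D H V U e) (i : Fin 3) : dst (vtx (up e) i) 0 ≤ 4 * s + 1 := by
  have a := dst_tri (vtx (up e) i) (rgt e) 0
  have b : dst (vtx (up e) i) (rgt e) ≤ 1 := dst_vtx _ _ _
  rw [dst_zero (rgt e)] at a
  linarith [h.hi]

theorem PStep_in (h : PH s r R D H V U e) {v : Tri} (hv : v ∈ V) (i : Fin 3) :
    dst (vtx v i) 0 ≤ s + 1 := by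
  obtain ⟨p, -, b, -⟩ := h.fr.inn v hv
  have a := dst_tri (vtx v i) (vtx v (p + 1)) 0
  linarith [dst_vtx v i (p + 1), mem_bal.1 (h.fr.hs b)]

theorem PStep_out (h : PH s r R D H V U e) {u : Tri} (hu : u ∈ U) (i : Fin 3) :
    R - 1 < dst (vtx u i) 0 := by
  obtain ⟨p, -, b, -⟩ := h.fr.out u hu
  have a := dst_tri (vtx u (p + 1)) (vtx u i) 0
  have c : R < dst (vtx u (p + 1)) 0 := not_le.1 fun c => b (h.fr.hR (mem_bal.2 c))
  linarith [dst_vtx u (p + 1) i]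

theorem PStep_arc (h : PH s r R D H V U e) {q : ℝ} (hq : ArcB (U.card + 2) 0 (5 * s) (r - 1) q) :
    pr (Om D H (insert (up e) (V ∪ U))) (fun ξ => ¬ (pT ξ V e r).card ≤ U.card) ≤ q := by
  have h3 := h.s3
  have h2 := h.r2
  refine (pr_mono fun ξ hξ hc => h.arc hξ (not_le.1 hc)).trans (pr_arc_Om hq ?_ ?_ ?_)
  · intro y hy
    exact h.fr.hR (mem_bal.2 (by linarith [(mem_ann.1 hy).2]))
  · refine Finset.disjoint_left.2 fun y hy hH => ?_
    linarith [(mem_ann.1 hy).1, mem_bal.1 (h.fr.hs hH)]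
  · rintro t ht ⟨i, hi⟩
    obtain ⟨a, b⟩ := mem_ann.1 (Finset.mem_coe.1 hi)
    rcases Finset.mem_insert.1 ht with rfl | ht
    · linarith [PStep_up h i]
    · rcases Finset.mem_union.1 ht with ht | ht
      · linarith [PStep_in h ht i]
      · linarith [PStep_out h ht i]

theorem PStep_q {N : ℕ} {g : ℝ} (hE : ExpB (N + 2) g) (hg : 0 ≤ g) : ∃ E : ℝ, 0 ≤ E ∧
    ∀ (s R : ℝ) (D H : Finset Site) (V U : Finset Tri) (e : Edge) (k : ℕ),
      PH s (6 * s * 2 ^ k) R D H V U e → U.card = N →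
      pr (Om D H (insert (up e) (V ∪ U))) (fun ξ => ¬ PStep_stop s V U e k ξ) ≤
        E * (2 ^ k) ^ (-g) := by
  obtain ⟨C, hC⟩ := hE
  refine ⟨|C|, abs_nonneg C, fun s R D H V U e k h hU => ?_⟩
  have h3 := h.s3
  have h1 := h.r1
  have h4 : (1 : ℝ) ≤ 2 ^ k := one_le_pow₀ one_le_two
  have h5 : 0 < 6 * s * 2 ^ k - 1 := by linarith
  have a := hC (5 * s) (6 * s * 2 ^ k - 1) (by linarith) (by linarith)
  rw [← hU] at a
  refine (PStep_arc h a).trans ?_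
  have b : 0 ≤ 5 * s / (6 * s * 2 ^ k - 1) := div_nonneg (by linarith) h5.le
  refine mul_le_mul (le_abs_self C) ?_ (Real.rpow_nonneg b g) (abs_nonneg C)
  rw [Real.rpow_neg (by positivity), ← Real.inv_rpow (by positivity)]
  refine Real.rpow_le_rpow b ?_ hg
  rw [div_le_iff₀ h5, inv_mul_eq_div, le_div_iff₀ (by positivity)]
  nlinarith

theorem PStep_K (hf : Frame s R D H V U) (hc : V.card = U.card + 1) (h3 : 3 ≤ s)
    (lo : 2 * s ≤ ‖pos (rgt e)‖) (hi : ‖pos (rgt e)‖ ≤ 4 * s) (hR : 8 * s ≤ R) :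
    ∃ K : ℕ, PH s (6 * s * 2 ^ K) R D H V U e ∧ R ≤ 7 * s * 2 ^ (K + 1) := by
  obtain ⟨K, a, b⟩ := exists_dyadic (a := 6 * s) (b := R - 6) (by linarith) (by linarith)
  refine ⟨K, ⟨hf, hc, h3, lo, hi, PStep_lo (by linarith) K, by linarith⟩, ?_⟩
  have h4 : (1 : ℝ) ≤ 2 ^ K := one_le_pow₀ one_le_two
  rw [pow_succ] at b ⊢
  nlinarith

theorem PStep_couple (h : PH s r R D H V U e) : ∃ Θ : Finset Edge → Finset Edge,
    Set.BijOn Θ (Om D H (insert (up e) (V ∪ U)))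
      (Om D (rotA.mS H) (insert (up (gE e)) (rotA.mT V ∪ U))) ∧
    ∀ ξ ∈ Om D H (insert (up e) (V ∪ U)), ∀ r' ≤ r, ∀ e', Inside e' (bal 0 r') →
      (gE e' ∈ Θ ξ ↔ e' ∈ ξ) := by
  have h3 := h.s3
  have h1 := h.r1
  have h2 := h.r2
  obtain ⟨Θ, a, b⟩ := rot_couple h.fr.toDom (T := insert (up e) V) (U := U) (fun t ht => by
    rcases Finset.mem_insert.1 ht with rfl | ht
    · refine ⟨fun i => Finset.mem_coe.2 (mem_bal.2 (by linarith [PStep_up h i])),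
        e.2 + 1, fun c => ?_⟩
      have c' : dst (rgt e) 0 ≤ s := mem_bal.1 (Finset.mem_coe.1 c)
      rw [dst_zero] at c'
      linarith [h.lo]
    · refine ⟨fun i => Finset.mem_coe.2 (mem_bal.2 (by linarith [PStep_in h ht i])), ?_⟩
      obtain ⟨p, c, -⟩ := h.fr.inn t ht
      exact ⟨p, c⟩) h.fr.out
  rw [Aut.mT_insert, Finset.insert_union, Finset.insert_union, ← Aut.up_fE] at a
  rw [Finset.insert_union] at b
  refine ⟨Θ, a, fun ξ hξ r' hr e' he => b ξ hξ e' ?_⟩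
  have c : bal 0 r' ⊆ bal 0 (R - 1) := bal_mono 0 (by linarith)
  exact ⟨c he.1, c he.2⟩

end

theorem PStep_scale {s R a : ℝ} (hs : 0 ≤ s) (hR : 0 ≤ R) (c : ℝ) (hc : 0 ≤ c) (k : ℕ) :
    (c * s * 2 ^ k / R) ^ a = c ^ a * (2 ^ k) ^ a * (s / R) ^ a := by
  rw [← Real.mul_rpow hc (by positivity), ← Real.mul_rpow (by positivity) (by positivity)]
  congr 1
  ring

theorem PStep_one {s R a : ℝ} (hs : 0 ≤ s) (hR : 0 < R) (ha : 0 ≤ a) {c : ℝ} (hc : 0 ≤ c) {k : ℕ}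
    (h : R ≤ c * s * 2 ^ k) : 1 ≤ c ^ a * (2 ^ k) ^ a * (s / R) ^ a := by
  rw [← PStep_scale hs hR.le c hc]
  exact Real.one_le_rpow ((one_le_div hR).2 h) ha

theorem PStep_six {s R a C : ℝ} (hs : 0 ≤ s) (hR : 0 ≤ R) (ha : 0 ≤ a) (k : ℕ) :
    C * (6 * s * 2 ^ k / R) ^ a ≤ |C| * 8 ^ a * (2 ^ k) ^ a * (s / R) ^ a := by
  rw [mul_assoc |C|, mul_assoc |C|, ← PStep_scale hs hR 8 (by norm_num)]
  refine mul_le_mul (le_abs_self C) (Real.rpow_le_rpow (by positivity) ?_ ha) (by positivity)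
    (abs_nonneg C)
  gcongr
  norm_num

/-- the data that are passed to `BV` and `CV` at scale `k` -/
theorem PStep_data {s R Lam : ℝ} {D H : Finset Site} {V U : Finset Tri} {e : Edge}
    {ξ : Finset Edge} {k : ℕ} (h : PH s (6 * s * 2 ^ k) R D H V U e) (hD : D ⊆ bal 0 (Lam * s))
    (hξ : ξ ∈ Om D H (insert (up e) (V ∪ U))) (hg : PGood ξ V e (6 * s * 2 ^ k)) :
    s ≤ 6 * s * 2 ^ k ∧
      Frame (6 * s * 2 ^ k) R D (H ∪ pX ξ V e (6 * s * 2 ^ k)) (pT ξ V e (6 * s * 2 ^ k)) U ∧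
      D ⊆ bal 0 (Lam * (6 * s * 2 ^ k)) ∧ (pT ξ V e (6 * s * 2 ^ k)).card = U.card := by
  have h3 := h.s3
  have a : s ≤ 6 * s * 2 ^ k := by linarith [h.r1]
  refine ⟨a, h.frame hξ hg, bal_sub_scale (h.fr.toDom.sub h.fr.zero) hD (by linarith) a, ?_⟩
  have b := hg.1
  have c := h.card
  omega

theorem PStep_diff {w x y c A A' : ℂ} {m n : ℤ} (hw : ‖w‖ = 1) (hx : ‖x‖ = 1) (hy : ‖y‖ = 1) :
    ‖w * x ^ m * y ^ (-n) * A' - c * x ^ m * (w * A)‖ = ‖A' - c * y ^ n * A‖ := by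
  have h0 : y ≠ 0 := fun h => by simp [h] at hy
  have h1 : y ^ (-n) * y ^ n = 1 := by rw [← zpow_add₀ h0]; simp
  have h2 : w * x ^ m * y ^ (-n) * A' - c * x ^ m * (w * A) =
      w * x ^ m * y ^ (-n) * (A' - c * y ^ n * A) := by
    linear_combination (c * x ^ m * w * A) * h1
  rw [h2]
  simp only [norm_mul, norm_zpow, hw, hx, hy, one_zpow, one_mul]

theorem PStep_sum {a γ η η' M G : ℝ} {J K : ℕ} (hη : 0 ≤ η) (hM : 0 ≤ M)
    (h1 : ∑ k ∈ Finset.range K, ((2 : ℝ) ^ (k + 1)) ^ a * ((2 : ℝ) ^ k) ^ (-γ) ≤ G)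
    (h2 : ∑ k ∈ (Finset.range K).filter (J ≤ ·),
      ((2 : ℝ) ^ (k + 1)) ^ a * ((2 : ℝ) ^ k) ^ (-γ) ≤ η') :
    ∑ k ∈ Finset.range K, (η + if J < k + 1 then M else 0) *
      (((2 : ℝ) ^ (k + 1)) ^ a * ((2 : ℝ) ^ k) ^ (-γ)) ≤ η * G + M * η' := by
  simp only [add_mul, Finset.sum_add_distrib]
  refine add_le_add ?_ ?_
  · rw [← Finset.mul_sum]
    exact mul_le_mul_of_nonneg_left h1 hη
  · refine le_trans (le_of_eq ?_) (mul_le_mul_of_nonneg_left h2 hM)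
    rw [Finset.mul_sum, Finset.sum_filter]
    refine Finset.sum_congr rfl fun k _ => ?_
    simp only [Nat.lt_succ_iff, ite_mul, zero_mul]


/-- Radii `r k = 6 s 2 ^ k`, `k ≤ K`, `K` maximal with `r K + 6 ≤ R` (for `R < 100 s` the bound is
trivial). `ms_act` with `act ξ S = ξ ∆ bd S`, `G k ξ = Gr D (H ∪ pX ξ V e (r k))`,
`stop k ξ = (pT ξ V e (r k)).card ≤ U.card`; `PH.cls`, `PH.frame`, `xN_div`; `ms_bound` with
`PH.arc`, `pr_arc_Om`, `geo_sum`. -/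
theorem pb_of {N : ℕ} (hN : 1 ≤ N) (hB : BV N) {g : ℝ} (hE : ExpB (N + 2) g) (hg : aN N < g) :
    PB N := by
  obtain ⟨C, hB⟩ := hB
  have ha := aN_nonneg N
  obtain ⟨E, hE0, hE⟩ := PStep_q hE (ha.trans hg.le)
  obtain ⟨G, hG0, hG⟩ := geo_sum hg
  have h8 : (0 : ℝ) ≤ 8 ^ aN N := by positivity
  have hM : 0 ≤ (|C| + 1) * 8 ^ aN N := by positivity
  refine ⟨(|C| + 1) * 8 ^ aN N + E * ((|C| + 1) * 8 ^ aN N * G), fun Lam => ?_⟩
  obtain ⟨s₀, hB⟩ := hB Lam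
  refine ⟨max s₀ 3, fun s R D H V U e l hs hf hD hV hU lo hi => ?_⟩
  have h3 : 3 ≤ s := le_of_max_le_right hs
  have h0 : s₀ ≤ s := le_of_max_le_left hs
  have hs0 : 0 ≤ s := by linarith
  have hR : 0 < R := by linarith [hf.gap]
  have hu : 0 ≤ (s / R) ^ aN N := by positivity
  have hk : ∀ k : ℕ, 0 ≤ 8 ^ aN N * ((2 : ℝ) ^ k) ^ aN N * (s / R) ^ aN N := fun k => by positivity
  by_cases hc : 8 * s ≤ R
  · obtain ⟨K, h, hK⟩ := PStep_K hf (by omega) h3 lo hi hc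
    rw [PStep_rep h]
    refine (PStep_bound _ K (PStep_stop s V U e) _ (fun _ => (|C| + 1) * 8 ^ aN N) (a := aN N)
      (γ := g) (E := E) (fun _ => hM) hu (fun ξ hξ k hk' h1 h2 => ?_) (fun ξ hξ h2 => ?_)
      fun k hk' => hE s R D H V U e k (PStep_down h hk') hU).trans ?_
    · rw [PStep_at h (norm_xN _) hξ hk' h1 h2]
      split_ifs with hgd
      · obtain ⟨a, b, c, d⟩ := PStep_data (PStep_down h hk') hD hξ hgd
        rw [norm_mul, norm_wIn (norm_xN _), one_mul, xN_div hN]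
        refine ((hB _ R D _ _ U (h0.trans a) b c (d.trans hU) hU).trans
          (PStep_six hs0 hR.le ha k)).trans ?_
        linarith [hk k]
      · rw [norm_zero]
        positivity
    · rw [PStep_no h2]
      have a := PStep_one hs0 hR ha (c := 8) (by norm_num) (k := K + 1)
        (hK.trans (by gcongr; norm_num))
      have b := mul_nonneg (abs_nonneg C) (hk (K + 1))
      linarith [norm_trm_le (D := D) (H := H) (V := V) (U := U) (e := e) (ξ := ξ) (m := l)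
        (norm_xN (N + 1))]
    · rw [← Finset.mul_sum]
      gcongr
      exact hG _
  · have a := PStep_one hs0 hR ha (c := 8) (by norm_num) (k := 0) (by linarith)
    rw [pow_zero, Real.one_rpow, mul_one] at a
    have b : ‖obsE D H V U (xN (N + 1)) e l‖ ≤ 1 :=
      (norm_avg_le (g := fun _ => 1) fun ξ _ => norm_trm_le (norm_xN _)).trans
        (avg_le zero_le_one fun _ _ => le_rfl)
    have c := mul_nonneg (abs_nonneg C) (mul_nonneg h8 hu)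
    have d := mul_nonneg (mul_nonneg hE0 (mul_nonneg hM hG0)) hu
    linarith

/-- As `pb_of` for both frames; transport the second average with `rot_couple`
(`T = insert (up e) V`, `avg_bij`), compare the classes with `PH.rot_cls`. Use `CV N` for the
scales `k ≤ J` and `BV N`, `geo_tail` for the others. -/
theorem pc_of {N : ℕ} (hN : 1 ≤ N) (hB : BV N) (hC : CV N) {g : ℝ} (hE : ExpB (N + 2) g)
    (hg : aN N < g) : PC N := by
  intro η hη
  obtain ⟨C, hB⟩ := hB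
  have ha := aN_nonneg N
  obtain ⟨E, hE0, hE⟩ := PStep_q hE (ha.trans hg.le)
  obtain ⟨G, hG0, hG⟩ := geo_sum hg
  have h8 : (0 : ℝ) < 8 ^ aN N := by positivity
  obtain ⟨M, hM⟩ : ∃ M : ℝ, M = 2 * (|C| + 1) * 8 ^ aN N := ⟨_, rfl⟩
  have hM0 : 0 ≤ M := by rw [hM]; positivity
  obtain ⟨η₁, hη₁, e1⟩ : ∃ η₁ : ℝ, 0 < η₁ ∧ η₁ * (8 ^ aN N * (1 + E * G)) = η / 2 :=
    ⟨η / 2 / (8 ^ aN N * (1 + E * G)), by positivity, div_mul_cancel₀ _ (by positivity)⟩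
  obtain ⟨η₂, hη₂, e2⟩ : ∃ η₂ : ℝ, 0 < η₂ ∧ η₂ * (E * M + 1) = η / 2 :=
    ⟨η / 2 / (E * M + 1), by positivity, div_mul_cancel₀ _ (by positivity)⟩
  obtain ⟨J, hJ⟩ := geo_tail hg hη₂
  obtain ⟨lam, hC⟩ := hC η₁ hη₁
  refine ⟨(|lam| + 2) * 6 * 2 ^ J, fun Lam => ?_⟩
  obtain ⟨s₀, hB⟩ := hB Lam
  obtain ⟨s₁, hC⟩ := hC Lam
  refine ⟨max (max s₀ s₁) 3, fun s R D H V U e l hs hl hf hD hV hU lo hi => ?_⟩
  have h3 : 3 ≤ s := le_of_max_le_right hs
  have h0 : s₀ ≤ s := le_of_max_le_left (le_of_max_le_left hs)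
  have h0' : s₁ ≤ s := le_of_max_le_right (le_of_max_le_left hs)
  have hs0 : 0 < s := by linarith
  have hR : 0 < R := by linarith [hf.gap]
  have hu : 0 ≤ (s / R) ^ aN N := by positivity
  have hk : ∀ k : ℕ, 0 ≤ 8 ^ aN N * ((2 : ℝ) ^ k) ^ aN N * (s / R) ^ aN N := fun k => by positivity
  have hl0 : 0 ≤ |lam| * (6 * s * 2 ^ J) := by positivity
  have hl1 := PStep_lo hs0.le J
  obtain ⟨K, h, hK⟩ := PStep_K hf (by omega) h3 lo hi (by linarith)
  have hJK : J < K + 1 := by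
    by_contra hc
    have a := PStep_le hs0.le (not_lt.1 hc)
    linarith
  obtain ⟨Θ, hΘ, hΘe⟩ := PStep_couple h
  have hx := norm_xN (N + 1)
  have hrot := fun ξ hξ k (hk' : k ≤ K) => (PStep_down h hk').rot_cls (m := l) hx hξ
    (hΘ.mapsTo hξ) (hΘe ξ hξ _ (PStep_le hs0.le hk'))
  have hst : ∀ ξ ∈ Om D H (insert (up e) (V ∪ U)), ∀ k ≤ K,
      PStep_stop s (rotA.mT V) U (gE e) k (Θ ξ) ↔ PStep_stop s V U e k ξ := fun ξ hξ k hk' => by
    unfold PStep_stop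
    rw [(hrot ξ hξ k hk').2.1, Aut.card_mT]
  rw [PStep_rep h, PStep_rep h.rot, ← avg_bij Θ hΘ, ← avg_mul_left, ← avg_sub]
  refine (PStep_bound _ K (PStep_stop s V U e) _
    (fun k => η₁ * 8 ^ aN N + if J < k then M else 0) (a := aN N) (γ := g) (E := E)
    (fun k => by positivity) hu (fun ξ hξ k hk' h1 h2 => ?_) (fun ξ hξ h2 => ?_)
    fun k hk' => hE s R D H V U e k (PStep_down h hk') hU).trans ?_
  · obtain ⟨r1, r2, r3, r4⟩ := hrot ξ hξ k hk'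
    rw [PStep_at h hx hξ hk' h1 h2, PStep_at h.rot hx (hΘ.mapsTo hξ) hk' ((hst ξ hξ k hk').2 h1)
      fun j hj hc => h2 j hj ((hst ξ hξ j (hj.le.trans hk')).1 hc)]
    by_cases hgd : PGood ξ V e (6 * s * 2 ^ k)
    · obtain ⟨a, b, c, d⟩ := PStep_data (PStep_down h hk') hD hξ hgd
      rw [if_pos hgd, if_pos (r3.2 hgd), r4 hgd, r1, r2, ← Aut.mS_union, xN_div hN,
        PStep_diff (norm_wIn hx) hx (norm_xN N)]
      by_cases hJk : J < k
      · rw [if_pos hJk]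
        have b1 := (hB _ R D _ _ U (h0.trans a) b c (d.trans hU) hU).trans
          (PStep_six hs0.le hR.le ha k)
        have b2 := (hB _ R D _ _ U (h0.trans a) b.rot c ((Aut.card_mT _ _).trans (d.trans hU))
          hU).trans (PStep_six hs0.le hR.le ha k)
        refine (norm_sub_le _ _).trans ?_
        rw [norm_mul, norm_mul, norm_cN, norm_zpow, norm_xN, one_zpow, one_mul, one_mul, hM]
        linarith [hk k, mul_nonneg hη₁.le (hk k)]
      · rw [if_neg hJk, add_zero]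
        have b1 : lam * (6 * s * 2 ^ k) ≤ R := by
          have := mul_le_mul (le_abs_self lam) (PStep_le hs0.le (not_lt.1 hJk)) (by positivity)
            (abs_nonneg lam)
          linarith
        have b2 := (hC _ R D _ _ U (h0'.trans a) b1 b c (d.trans hU) hU).trans
          (PStep_six hs0.le hR.le ha k)
        rwa [abs_of_pos hη₁] at b2
    · rw [if_neg hgd, if_neg fun hc => hgd (r3.1 hc), mul_zero, sub_zero, norm_zero]
      positivity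
  · rw [PStep_no h2, PStep_no fun k hk' hc => h2 k hk' ((hst ξ hξ k hk').1 hc), if_pos hJK]
    have a := PStep_one hs0.le hR ha (c := 8) (by norm_num) (k := K + 1)
      (hK.trans (by gcongr; norm_num))
    refine (norm_sub_le _ _).trans ?_
    rw [norm_mul, norm_mul, norm_cN, norm_zpow, hx, one_zpow, one_mul, one_mul, hM]
    refine (add_le_add (norm_trm_le hx) (norm_trm_le hx)).trans ?_
    linarith [mul_nonneg (abs_nonneg C) (hk (K + 1)), mul_nonneg hη₁.le (hk (K + 1))]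
  · refine mul_le_mul_of_nonneg_right ?_ hu
    have a := mul_le_mul_of_nonneg_left
      (PStep_sum (η := η₁ * 8 ^ aN N) (by positivity) hM0 (hG (K + 1)) (hJ (K + 1))) hE0
    rw [if_neg (Nat.not_lt_zero J)]
    linarith

end Pool.Agent.TAF.U
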