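import Pool.Agent.P.MP_cb4022_pr.U.Markov
import Pool.Agent.P.MP_cb4022_pr.U.AutL

/-! Potentials of line flows (paper A14, A15). -/

open scoped Classical symmDiff

noncomputable section

namespace Pool.Agent.TAF.U

theorem JPot_inf (D : Finset Site) : ((D : Set Site)ᶜ).Infinite :=
  D.finite_toSet.infinite_compl

theorem JPot_dv_mul (k : ℤ) (φ : Edge → ℤ) (t : Tri) : dv (fun e => k * φ e) t = k * dv φ t := by
  simp only [dv, ← Finset.mul_sum]
  split_ifs <;> ring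

theorem JPot_dv_sum {V : Finset Tri} {θ : Tri → Edge →₀ ℤ}
    (h : ∀ v ∈ V, ∀ τ, dv (θ v) τ = (if τ = v then 1 else 0) - (if τ = tau0 then 1 else 0))
    (t : Tri) : dv (∑ v ∈ V, θ v : Edge →₀ ℤ) t =
      (if t ∈ V then 1 else 0) - (if t = tau0 then (V.card : ℤ) else 0) := by
  rw [Finsupp.coe_finsetSum, dv_sum, Finset.sum_congr rfl fun v hv => h v hv t,
    Finset.sum_sub_distrib, Finset.sum_ite_eq, Finset.sum_const, nsmul_eq_mul]
  split_ifs <;> ring

theorem JPot_supp_sum {V : Finset Tri} {θ : Tri → Edge →₀ ℤ} {X : Set Site}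
    (h : ∀ v ∈ V, ∀ e, θ v e ≠ 0 → Touch e X) (e : Edge) (he : (∑ v ∈ V, θ v) e ≠ 0) :
    Touch e X := by
  rw [Finsupp.finsetSum_apply] at he
  obtain ⟨v, hv, h1⟩ := Finset.exists_ne_zero_of_sum_ne_zero he
  exact h v hv e h1

theorem JPot_inc_sum (V : Finset Tri) (θ : Tri → Edge →₀ ℤ) (t : Tri) (p q : Fin 3) :
    inc (∑ v ∈ V, θ v : Edge →₀ ℤ) t p q = ∑ v ∈ V, inc (θ v) t p q := by
  simp only [inc, Finsupp.finsetSum_apply]
  split_ifs <;> simp

/-- two potentials whose flows have the same divergence and agree inside an infinite set -/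
theorem JPot_diff {D : Finset Site} (h0 : (0 : Site) ∈ D) (hD : SConn D) {X : Set Site}
    (hX : SConn X) (hi : X.Infinite) {ψ ψ' : Edge →₀ ℤ} {k : ℤ} {Φ Φ' : Site → ℤ}
    (hz : ∀ e, Inside e X → ψ e = ψ' e) (hd : ∀ t, dv ψ t = dv ψ' t)
    (p1 : ∀ e, Inside e D → cob Φ e = ψ e - k * kap e)
    (p2 : ∀ e, Inside e D → cob Φ' e = ψ' e - k * kap e) (z1 : Φ 0 = Mc ψ) (z2 : Φ' 0 = Mc ψ') :
    ∃ Ψ : Site → ℤ, (∀ e, cob Ψ e = ψ e - ψ' e) ∧ (∀ x ∈ X, Ψ x = 0) ∧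
      ∀ a ∈ D, Φ a - Φ' a = Ψ a := by
  obtain ⟨Ψ, hf, hΨ⟩ := pot_fin (A := ℤ) (ψ - ψ' : Edge →₀ ℤ) (Finsupp.hasFiniteSupport _)
    fun t => by rw [Finsupp.coe_sub, dv_sub, hd, sub_self]
  refine ⟨Ψ, hΨ, zero_of_far hf hX hi fun e he => ?_, fun a ha => ?_⟩
  · rw [hΨ, Finsupp.sub_apply, hz e he, sub_self]
  · have m := Mc_cob hf hΨ
    rw [map_sub] at m
    have c := Jn.const (Φ := fun x => Φ x - Φ' x - Ψ x) (fun e he => ?_) (hD _ ha _ h0)
    · omega
    · have a1 := p1 e he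
      have a2 := p2 e he
      have a3 := hΨ e
      simp only [cob, Finsupp.sub_apply] at a1 a2 a3 ⊢
      omega

theorem JPot_sep {s R : ℝ} {D H : Finset Site} (h : Dom s R D H) (t : Tri) (ht : TT t H) :
    AllIn t D := by
  obtain ⟨i, hi⟩ := ht
  exact h.not_tt ⟨i, h.hs hi⟩

theorem JPot_out_tt {D : Finset Site} {u : Tri} (hu : OutTip D u) : TT u D := by
  obtain ⟨p, h, -, -⟩ := hu
  exact ⟨p, h⟩

theorem JPot_out_tt' {D : Finset Site} {u : Tri} (hu : OutTip D u) : TT u (D : Set Site)ᶜ := by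
  obtain ⟨p, -, h, -⟩ := hu
  exact ⟨p + 1, h⟩

theorem isPot_unique {s : ℝ} {D H : Finset Site} (h0 : (0 : Site) ∈ D) (hs : H ⊆ bal 0 s)
    (hD : SConn D) {φ η η' : Edge →₀ ℤ} {k : ℤ} {Φ Φ' : Site → ℤ} (h : IsPot D H φ k η Φ)
    (h' : IsPot D H φ k η' Φ') {a : Site} (ha : a ∈ D) (has : a ∉ bal 0 s) : Φ a = Φ' a := by
  have hz : ∀ {θ : Edge →₀ ℤ}, (∀ e, θ e ≠ 0 → Touch e H) → ∀ t, ¬ TT t H → ∀ i,
      θ (side t i) = 0 := fun hθ t ht i => by
    by_contra hne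
    exact ht (hθ _ hne).tt
  have key := JPot_diff (ψ := φ + η) (ψ' := φ + η') (k := k) (Φ := Φ) (Φ' := Φ') h0 hD
    (sconn_compl_bal 0 s) (JPot_inf _) (fun e he => ?_) (fun t => ?_) h.pot h'.pot h.zero h'.zero
  · obtain ⟨Ψ, -, h2, h3⟩ := key
    have := h3 a ha
    rw [h2 a has] at this
    omega
  · have n : ¬ Touch e H := fun ht => ht.elim (fun hh => he.1 (hs hh)) fun hh => he.2 (hs hh)
    have e1 : η e = 0 := by
      by_contra hne
      exact n (h.supp e hne)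
    have e2 : η' e = 0 := by
      by_contra hne
      exact n (h'.supp e hne)
    simp [e1, e2]
  · by_cases ht : TT t H
    · rw [h.div t ht, h'.div t ht]
    · refine dv_congr fun i => ?_
      simp [hz h.supp t ht i, hz h'.supp t ht i]

theorem jv_eq {s : ℝ} {D H : Finset Site} (h0 : (0 : Site) ∈ D) (hs : H ⊆ bal 0 s)
    (hD : SConn D) {φ η : Edge →₀ ℤ} {k : ℤ} {Φ : Site → ℤ} (h : IsPot D H φ k η Φ)
    {a : Site} (ha : a ∈ D) (has : a ∉ bal 0 s) : jv D H φ k a = Φ a := by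
  have hex : ∃ P : (Edge →₀ ℤ) × (Site → ℤ), IsPot D H φ k P.1 P.2 := ⟨(η, Φ), h⟩
  rw [jv, dif_pos hex]
  exact isPot_unique h0 hs hD hex.choose_spec h ha has

/-- cut `kap` off far away and apply `col` with `T = Dᶜ` -/
theorem exists_pot {D : Finset Site} (hO : SConn (D : Set Site)ᶜ) (ψ : Edge →₀ ℤ) (k : ℤ)
    (h : ∀ t, AllIn t D → dv ψ t = if t = tau0 then -k else 0) (c : ℤ) :
    ∃ Φ : Site → ℤ, (∀ e, Inside e D → cob Φ e = ψ e - k * kap e) ∧ Φ 0 = c := by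
  have key := col (A := ℤ) (fun e => if Inside e D then ψ e - k * kap e else 0)
    ((touchE D).finite_toSet.subset fun e he => ?_) hO fun t ht => ?_
  · obtain ⟨Φ, -, hΦ⟩ := key
    refine ⟨fun x => Φ x - Φ 0 + c, fun e he => ?_, by simp⟩
    have h1 := hΦ e (by rw [not_touch_iff, compl_compl]; exact he)
    rw [if_pos he] at h1
    rw [← h1]
    simp only [cob]
    ring
  · have h1 : Inside e D := by
      by_contra hn
      exact he (if_neg hn)
    exact mem_touchE.2 (Or.inl h1.1)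
  · by_contra hn
    have ha : AllIn t D := fun i => by
      by_contra hi
      exact hn ⟨i, hi⟩
    refine ht ?_
    have e1 : dv (fun e => if Inside e D then ψ e - k * kap e else 0) t =
        dv (fun e => ψ e - k * kap e) t :=
      dv_congr fun i => if_pos (inside_side.2 ⟨ha _, ha _⟩)
    have e2 : dv (fun e => ψ e - k * kap e) t = dv ψ t - k * dv kap t := by
      rw [← JPot_dv_mul, ← dv_sub]
      rfl
    rw [e1, e2, h t ha, dv_kap]
    split_ifs <;> ring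

theorem exists_isPot {D H : Finset Site} (h0 : (0 : Site) ∈ H) (hH : SConn H)
    (hO : SConn (D : Set Site)ᶜ) (hsep : ∀ t, TT t H → AllIn t D) {φ : Edge →₀ ℤ}
    {V U : Finset Tri} (hV : ∀ v ∈ V, TT v H) (hU : ∀ u ∈ U, TT u (D : Set Site)ᶜ)
    (h : ∀ t, dv φ t = (if t ∈ U then 1 else 0) - (if t ∈ V then 1 else 0)) :
    ∃ η Φ, IsPot D H φ V.card η Φ ∧
      ∀ t, dv η t = (if t ∈ V then 1 else 0) - (if t = tau0 then (V.card : ℤ) else 0) := by
  have hx : ∀ v : Tri, ∃ θ : Edge →₀ ℤ, v ∈ V → (∀ e, θ e ≠ 0 → Touch e H) ∧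
      ∀ τ, dv θ τ = (if τ = v then 1 else 0) - (if τ = tau0 then 1 else 0) := fun v => by
    by_cases hv : v ∈ V
    · obtain ⟨θ, hθ⟩ := hug hH (tt_tau0 h0) (hV v hv)
      exact ⟨θ, fun _ => hθ⟩
    · exact ⟨0, fun h => absurd h hv⟩
  choose θ hθ using hx
  have hd : ∀ t, dv (∑ v ∈ V, θ v : Edge →₀ ℤ) t =
      (if t ∈ V then 1 else 0) - (if t = tau0 then (V.card : ℤ) else 0) :=
    JPot_dv_sum fun v hv => (hθ v hv).2
  have hd2 : ∀ t, AllIn t D → dv (φ + ∑ v ∈ V, θ v : Edge →₀ ℤ) t =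
      if t = tau0 then -(V.card : ℤ) else 0 := fun t ht => by
    have hu : t ∉ U := fun hu => by
      obtain ⟨i, hi⟩ := hU t hu
      exact hi (ht i)
    rw [Finsupp.coe_add, dv_add, h, hd, if_neg hu]
    split_ifs <;> ring
  obtain ⟨Φ, h1, h2⟩ := exists_pot hO (φ + ∑ v ∈ V, θ v) V.card hd2 (Mc (φ + ∑ v ∈ V, θ v))
  exact ⟨∑ v ∈ V, θ v, Φ, ⟨JPot_supp_sum fun v hv => (hθ v hv).1, fun t ht => hd2 t (hsep t ht),
    h1, h2⟩, hd⟩

/-- WallDet: the difference of the two flows is `cob Ψ` with `Ψ = 0` on `Dᶜ` -/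
theorem wall_det {D : Finset Site} (h0 : (0 : Site) ∈ D) (hD : SConn D)
    (hO : SConn (D : Set Site)ᶜ) {ψ ψ' : Edge →₀ ℤ} {k : ℤ} {Φ Φ' : Site → ℤ}
    (t1 : ∀ e, ψ e ≠ 0 → Touch e D) (t2 : ∀ e, ψ' e ≠ 0 → Touch e D)
    (hd : ∀ t, dv ψ t = dv ψ' t) (p1 : ∀ e, Inside e D → cob Φ e = ψ e - k * kap e)
    (p2 : ∀ e, Inside e D → cob Φ' e = ψ' e - k * kap e) (z1 : Φ 0 = Mc ψ) (z2 : Φ' 0 = Mc ψ')
    {t : Tri} {p q : Fin 3} (hp : vtx t p ∈ D) (hq : vtx t q ∉ D) :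
    Φ (vtx t p) + inc ψ t p q = Φ' (vtx t p) + inc ψ' t p q := by
  have key := JPot_diff h0 hD hO (JPot_inf D) (fun e he => ?_) hd p1 p2 z1 z2
  · obtain ⟨Ψ, h1, h2, h3⟩ := key
    have e1 : inc (⇑ψ - ⇑ψ') t p q = Ψ (vtx t q) - Ψ (vtx t p) :=
      inc_of_cob fun r _ _ => h1 _
    rw [sub_eq_add_neg, inc_add, inc_neg, h2 _ hq, ← h3 _ hp] at e1
    omega
  · have n := not_touch_iff.2 he
    have e1 : ψ e = 0 := by
      by_contra hne
      exact n (t1 e hne)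
    have e2 : ψ' e = 0 := by
      by_contra hne
      exact n (t2 e hne)
    rw [e1, e2]

theorem ref_isRef {D : Finset Site} (h0 : (0 : Site) ∈ D) (hD : SConn D) {u : Tri} (hu : TT u D) :
    IsRef D u (ref D u) := by
  have hex : ∃ φ, IsRef D u φ := hug hD (tt_tau0 h0) hu
  rw [ref, dif_pos hex]
  exact hex.choose_spec

theorem JPot_ref_dv {D : Finset Site} {u : Tri} (hu : OutTip D u) {φ : Edge →₀ ℤ}
    (hφ : IsRef D u φ) (t : Tri) (ht : AllIn t D) : dv φ t = if t = tau0 then -1 else 0 := by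
  have n : t ≠ u := by
    rintro rfl
    obtain ⟨i, hi⟩ := JPot_out_tt' hu
    exact hi (ht i)
  rw [hφ.2, if_neg n]
  split_ifs <;> ring

theorem JPot_ref_pot {D : Finset Site} (hO : SConn (D : Set Site)ᶜ) {u : Tri} (hu : OutTip D u)
    {φ : Edge →₀ ℤ} (hφ : IsRef D u φ) :
    ∃ Φ : Site → ℤ, (∀ e, Inside e D → cob Φ e = φ e - kap e) ∧ Φ 0 = Mc φ := by
  obtain ⟨Φ, h1, h2⟩ := exists_pot hO φ 1 (JPot_ref_dv hu hφ) (Mc φ)
  exact ⟨Φ, fun e he => by rw [h1 e he, one_mul], h2⟩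

theorem Jw_spec {D : Finset Site} (hb : bal 0 6 ⊆ D) (hD : SConn D) (hO : SConn (D : Set Site)ᶜ)
    {u : Tri} (hu : OutTip D u) {φ : Edge →₀ ℤ} (hφ : IsRef D u φ) {Φ : Site → ℤ}
    (p1 : ∀ e, Inside e D → cob Φ e = φ e - kap e) (z1 : Φ 0 = Mc φ) {t : Tri} {p : Fin 3}
    (hp : vtx t p ∈ D) (hq : vtx t (p + 1) ∉ D) :
    Jw D u t p = Φ (vtx t p) + inc φ t p (p + 1) := by
  have h0 : (0 : Site) ∈ D := hb (by simp [mem_bal])
  have hr := ref_isRef h0 hD (JPot_out_tt hu)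
  obtain ⟨Φ', q1, q2⟩ := JPot_ref_pot hO hu hr
  have hin : ∀ τ i, vtx τ i ∈ bal 0 1 → AllIn τ D := fun τ i hi j => by
    refine hb (mem_bal.2 ?_)
    have a1 := dst_tri (vtx τ j) (vtx τ i) 0
    have a2 := dst_vtx τ j i
    have a3 := mem_bal.1 hi
    linarith
  have hP : IsPot D {0} (ref D u) 1 0 Φ' := by
    refine ⟨fun e he => absurd rfl he, fun τ hτ => ?_, fun e he => ?_, by rw [add_zero, q2]⟩
    · obtain ⟨i, hi⟩ := hτ
      have hi' : vtx τ i = 0 := by simpa using hi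
      rw [add_zero]
      exact JPot_ref_dv hu hr τ (hin τ i (by simp [hi', mem_bal]))
    · simpa using q1 e he
  have hs : ({0} : Finset Site) ⊆ bal 0 1 := by simp [mem_bal]
  rw [Jw, jv_eq h0 hs hD hP hp fun hh => hq (hin t p hh _)]
  exact wall_det (k := 1) h0 hD hO hr.1 hφ.1 (fun τ => by rw [hr.2, hφ.2])
    (fun e he => by simpa using q1 e he) (fun e he => by simpa using p1 e he) q2 z1 hp hq

/-- the wall index of a family of through lines is deterministic -/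
theorem jv_wall {s R : ℝ} {D H : Finset Site} (h : Dom s R D H) {φ : Edge →₀ ℤ}
    (hφ : ∀ e, φ e ≠ 0 → Touch e D) {V U : Finset Tri} (hV : ∀ v ∈ V, TT v H)
    (hU : ∀ u ∈ U, OutTip D u) (hc : V.card = U.card)
    (hd : ∀ t, dv φ t = (if t ∈ U then 1 else 0) - (if t ∈ V then 1 else 0)) {t : Tri} {p : Fin 3}
    (hp : vtx t p ∈ D) (hq : vtx t (p + 1) ∉ D) :
    jv D H φ U.card (vtx t p) + inc φ t p (p + 1) = ∑ u ∈ U, Jw D u t p := by
  have h0 : (0 : Site) ∈ D := h.sub h.zero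
  have hb : bal 0 6 ⊆ D := (bal_mono 0 (by linarith [h.gap, h.nonneg])).trans h.hR
  have hsep : ∀ τ, TT τ H → AllIn τ D := JPot_sep h
  obtain ⟨η, Φ, hP, hη⟩ := exists_isPot h.zero h.connH h.connO hsep hV
    (fun u hu => JPot_out_tt' (hU u hu)) hd
  rw [hc] at hP hη
  have hx : ∀ u : Tri, ∃ Φ' : Site → ℤ, u ∈ U →
      (∀ e, Inside e D → cob Φ' e = ref D u e - kap e) ∧ Φ' 0 = Mc (ref D u) := fun u => by
    by_cases hu : u ∈ U
    · obtain ⟨Φ', h'⟩ := JPot_ref_pot h.connO (hU u hu)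
        (ref_isRef h0 h.connD (JPot_out_tt (hU u hu)))
      exact ⟨Φ', fun _ => h'⟩
    · exact ⟨0, fun h => absurd h hu⟩
  choose Θ hΘ using hx
  have hr : ∀ u ∈ U, IsRef D u (ref D u) := fun u hu =>
    ref_isRef h0 h.connD (JPot_out_tt (hU u hu))
  have nt : ¬ TT t (bal 0 s) := fun hh => hq (h.not_tt hh _)
  have key := wall_det (ψ := φ + η) (ψ' := ∑ u ∈ U, ref D u) (k := U.card) (Φ := Φ)
    (Φ' := fun x => ∑ u ∈ U, Θ u x) h0 h.connD h.connO (fun e he => ?_)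
    (JPot_supp_sum fun u hu => (hr u hu).1) (fun τ => ?_) hP.pot (fun e he => ?_) hP.zero ?_ hp hq
  · have e1 : inc η t p (p + 1) = 0 := inc_eq_zero fun r _ _ => by
      by_contra hne
      obtain ⟨i, hi⟩ := (hP.supp _ hne).tt
      exact nt ⟨i, h.hs hi⟩
    rw [Finsupp.coe_add, inc_add, e1, add_zero, JPot_inc_sum, ← Finset.sum_add_distrib] at key
    rw [jv_eq h0 h.hs h.connD hP hp fun hh => nt ⟨p, hh⟩, key]
    exact Finset.sum_congr rfl fun u hu =>
      (Jw_spec hb h.connD h.connO (hU u hu) (hr u hu) (hΘ u hu).1 (hΘ u hu).2 hp hq).symm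
  · by_cases h1 : φ e = 0
    · have h2 : η e ≠ 0 := fun h2 => he (by simp [h1, h2])
      exact (hP.supp e h2).imp (fun hh => h.sub hh) fun hh => h.sub hh
    · exact hφ e h1
  · rw [Finsupp.coe_add, dv_add, hd, hη, JPot_dv_sum fun u hu => (hr u hu).2]
    ring
  · have e1 : cob (fun x => ∑ u ∈ U, Θ u x) e = ∑ u ∈ U, cob (Θ u) e := by
      simp only [cob, Finset.sum_sub_distrib]
    rw [e1, Finset.sum_congr rfl fun u hu => (hΘ u hu).1 e he, Finset.sum_sub_distrib,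
      Finsupp.finsetSum_apply, Finset.sum_const, nsmul_eq_mul]
  · rw [map_sum]
    exact Finset.sum_congr rfl fun u hu => (hΘ u hu).2

/-- `Jw` is constant, after lifting, on a connected set `Z` that can be avoided by a connected set
from the origin to `u` -/
theorem Jw_const {D : Finset Site} (hb : bal 0 6 ⊆ D) (hD : SConn D) (hO : SConn (D : Set Site)ᶜ)
    {u : Tri} (hu : OutTip D u) {X Z : Set Site} (hX : SConn X) (hXD : X ⊆ D)
    (h0 : (0 : Site) ∈ X) (huX : TT u X) (hZ : SConn Z) (hZD : Z ⊆ D) (hd : Disjoint X Z)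
    {μ : Site → ℤ} (hμ : ∀ e, Inside e Z → cob μ e = kap e) {t t' : Tri} {p p' : Fin 3}
    (hp : vtx t p ∈ Z) (hq : vtx t (p + 1) ∉ D) (hp' : vtx t' p' ∈ Z) (hq' : vtx t' (p' + 1) ∉ D) :
    Jw D u t p + μ (vtx t p) = Jw D u t' p' + μ (vtx t' p') := by
  obtain ⟨φ, h1, h2⟩ := hug hX (tt_tau0 h0) huX
  have hφ : IsRef D u φ :=
    ⟨fun e he => (h1 e he).imp (fun hh => hXD hh) fun hh => hXD hh, h2⟩
  obtain ⟨Φ, q1, q2⟩ := JPot_ref_pot hO hu hφ
  have nX : ∀ x ∈ Z, x ∉ X := fun x hx hx' => Set.disjoint_left.1 hd hx' hx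
  have hi : ∀ (τ : Tri) (i : Fin 3), vtx τ i ∈ Z → vtx τ (i + 1) ∉ D →
      inc φ τ i (i + 1) = 0 := fun τ i a1 a2 => inc_eq_zero fun r n1 n2 => by
    by_contra hne
    have hr : r = i + 2 := by
      rcases fin3_cases i r with a | a | a
      · exact absurd a n1
      · exact absurd a n2
      · exact a
    have b1 : i + 2 + 1 = i := by generalize i = j; revert j; decide
    have b2 : i + 2 + 2 = i + 1 := by generalize i = j; revert j; decide
    have := touch_side.1 (h1 _ hne)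
    rw [hr, b1, b2] at this
    exact this.elim (nX _ a1) fun hh => a2 (hXD hh)
  rw [Jw_spec hb hD hO hu hφ q1 q2 (hZD hp) hq, Jw_spec hb hD hO hu hφ q1 q2 (hZD hp') hq',
    hi t p hp hq, hi t' p' hp' hq', add_zero, add_zero]
  refine Jn.const (Φ := fun x => Φ x + μ x) (fun e he => ?_) (hZ _ hp _ hp')
  have a1 := q1 e ⟨hZD he.1, hZD he.2⟩
  have a2 := hμ e he
  have a3 : φ e = 0 := by
    by_contra hne
    exact (h1 e hne).elim (nX _ he.1) (nX _ he.2)
  simp only [cob] at a1 a2 ⊢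
  omega

/-- rotation of a potential inside a ball -/
theorem jv_rot {s r : ℝ} {H : Finset Site} (h : Dom s r (bal 0 r) H) {φ : Edge →₀ ℤ}
    {V U : Finset Tri} (hV : ∀ v ∈ V, TT v H) (hU : ∀ u ∈ U, TT u (bal 0 r : Set Site)ᶜ)
    (hc : V.card = U.card)
    (hd : ∀ t, dv φ t = (if t ∈ U then 1 else 0) - (if t ∈ V then 1 else 0)) {a : Site}
    (ha : a ∈ ann 0 s r) :
    jv (bal 0 r) (rotA.mS H) (rotA.mF φ) U.card (gS a) + U.card * secS a =
      jv (bal 0 r) H φ U.card a + ∑ u ∈ U, secT u := by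
  have h0 : (0 : Site) ∈ bal 0 r := h.sub h.zero
  obtain ⟨η, Φ, hP, hη⟩ := exists_isPot h.zero h.connH h.connO (JPot_sep h) hV hU hd
  rw [hc] at hP hη
  have z0 : (0 : Site) ∈ rotA.mS H := (rotA.mem_mS (x := 0)).2 h.zero
  have hsum : ∀ t, dv (φ + η : Edge →₀ ℤ) t =
      (if t ∈ U then 1 else 0) - (if t = tau0 then (U.card : ℤ) else 0) := fun t => by
    rw [Finsupp.coe_add, dv_add, hd, hη]
    ring
  have eq1 : rotA.mF φ + (rotA.mF η + (U.card : ℤ) • kg) =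
      rotA.mF (φ + η) + (U.card : ℤ) • kg := by rw [rotA.mF_add, add_assoc]
  have hQ : IsPot (bal 0 r) (rotA.mS H) (rotA.mF φ) U.card (rotA.mF η + (U.card : ℤ) • kg)
      fun x => Φ (gS.symm x) - U.card * secS (gS.symm x) + ∑ u ∈ U, secT u := by
    refine ⟨fun e he => ?_, fun t ht => ?_, fun e he => ?_, ?_⟩
    · obtain ⟨e, rfl⟩ := rotA.fE.surjective e
      by_cases h1 : η e = 0
      · have h2 : kg (rotA.fE e) ≠ 0 := fun h2 => he (by simp [h1, h2])
        exact (kg_touch h2).imp (fun hh => by rw [hh]; exact z0) fun hh => by rw [hh]; exact z0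
      · rw [rotA.coe_mS, rotA.touch_iff]
        exact hP.supp e h1
    · obtain ⟨t, rfl⟩ := rotA.fT.surjective t
      rw [rotA.coe_mS, rotA.tt_iff] at ht
      have e2 : dv ((U.card : ℤ) • kg : Edge →₀ ℤ) (rotA.fT t) = U.card * dv kg (rotA.fT t) :=
        JPot_dv_mul _ _ _
      have e3 : rotA.fT t = gT tau0 ↔ t = tau0 := gT.injective.eq_iff
      rw [eq1, Finsupp.coe_add, dv_add, rotA.dv_mF, hP.div t ht, e2, dv_kg]
      simp only [e3]
      split_ifs <;> ring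
    · obtain ⟨e, rfl⟩ := rotA.fE.surjective e
      rw [← rot_image_bal, rotA.inside_iff] at he
      have a1 := hP.pot e he
      have a2 : kap e + kg (rotA.fE e) - kap (rotA.fE e) = -cob secS e := kap_rot e
      have a3 : gS.symm (lft (rotA.fE e)) = lft e := by
        rw [rotA.lft_fE]
        exact gS.symm_apply_apply _
      have a4 : gS.symm (rgt (rotA.fE e)) = rgt e := by
        rw [rotA.rgt_fE]
        exact gS.symm_apply_apply _
      simp only [cob, a3, a4, Finsupp.add_apply, Finsupp.smul_apply, smul_eq_mul,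
        Aut.mF_apply] at a1 a2 ⊢
      linear_combination a1 - (U.card : ℤ) * a2
    · have a1 : gS.symm 0 = 0 := rfl
      have a2 : secS 0 = 0 := by simp [secS]
      have a3 := Mc_rot (φ + η) (insert tau0 U) fun t ht => by
        by_contra hn
        rw [Finset.mem_insert, not_or] at hn
        exact ht (by rw [hsum, if_neg hn.1, if_neg hn.2, sub_zero])
      have a4 : ∑ t ∈ insert tau0 U, secT t * dv (φ + η : Edge →₀ ℤ) t = ∑ u ∈ U, secT u := by
        rw [Finset.sum_insert_of_eq_zero_if_notMem (by rw [secT_tau0, zero_mul]; exact fun _ => rfl)]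
        refine Finset.sum_congr rfl fun u hu => ?_
        rw [hsum, if_pos hu]
        split_ifs with h1
        · rw [h1, secT_tau0, zero_mul]
        · ring
      rw [eq1, map_add, map_zsmul, Mc_kg, a3, a4]
      simp only [a1, a2, hP.zero]
      simp
  have ha' : a ∈ bal 0 r ∧ a ∉ bal 0 s := Finset.mem_sdiff.1 ha
  have b1 : ∀ ρ : ℝ, gS a ∈ bal 0 ρ ↔ a ∈ bal 0 ρ := fun ρ => by
    conv_lhs => rw [← rot_bal]
    exact rotA.mem_mS
  have b2 : rotA.mS H ⊆ bal 0 s := by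
    rw [← rot_bal]
    exact rotA.mS_subset.2 h.hs
  rw [jv_eq h0 b2 h.connD hQ ((b1 r).2 ha'.1) fun hh => ha'.2 ((b1 s).1 hh),
    jv_eq h0 h.hs h.connD hP ha'.1 ha'.2, gS.symm_apply_apply]
  ring

/-- `1` if `c` is on the left of the flow `l` at the edge `e` -/
def isL (l : Edge →₀ ℤ) (e : Edge) (c : Site) : ℤ :=
  if (l e = 1 ∧ c = lft e) ∨ (l e = -1 ∧ c = rgt e) then 1 else 0

theorem JPot_end {τ : Tri} {i : Fin 3} {c : Site}
    (h : c = lft (side τ i) ∨ c = rgt (side τ i)) : ∃ p, p ≠ i ∧ c = vtx τ p := by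
  have n1 : i + 1 ≠ i := by generalize i = j; revert j; decide
  have n2 : i + 2 ≠ i := by generalize i = j; revert j; decide
  rw [lft_side, rgt_side] at h
  split_ifs at h
  · exact h.elim (fun h => ⟨_, n2, h⟩) fun h => ⟨_, n1, h⟩
  · exact h.elim (fun h => ⟨_, n1, h⟩) fun h => ⟨_, n2, h⟩

theorem JPot_inside {τ : Tri} {p q r : Fin 3} (h : p ≠ q) (n1 : r ≠ p) (n2 : r ≠ q) {Y : Set Site}
    (hp : vtx τ p ∈ Y) (hq : vtx τ q ∈ Y) : Inside (side τ r) Y := by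
  have key : (p = r + 1 ∧ q = r + 2) ∨ (p = r + 2 ∧ q = r + 1) := by
    revert h n1 n2
    generalize p = a
    generalize q = b
    generalize r = c
    revert a b c
    decide
  rw [inside_side]
  rcases key with ⟨rfl, rfl⟩ | ⟨rfl, rfl⟩
  · exact ⟨hp, hq⟩
  · exact ⟨hq, hp⟩

theorem JPot_isL_vtx (l : Edge →₀ ℤ) (τ : Tri) (i p : Fin 3) :
    isL l (side τ i) (vtx τ p) =
      if (l (side τ i) = 1 ∧ p = if τ.2 then i + 2 else i + 1) ∨
        (l (side τ i) = -1 ∧ p = if τ.2 then i + 1 else i + 2) then 1 else 0 := by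
  have e : ∀ j, vtx τ p = vtx τ j ↔ p = j := fun j => ⟨vtx_inj, fun h => by rw [h]⟩
  rw [isL, lft_side, rgt_side]
  cases τ.2 <;> simp [e]

theorem JPot_fin (x : Fin 3 → ℤ) (b : Bool) {i j p q : Fin 3} (hp : p ≠ i) (hq : q ≠ j)
    (hi : x i = 1 ∨ x i = -1) (hij : i ≠ j → x i + x j = 0 ∧ ∀ r, r ≠ i → r ≠ j → x r = 0) :
    (if (x j = 1 ∧ q = if b then j + 2 else j + 1) ∨
        (x j = -1 ∧ q = if b then j + 1 else j + 2) then 1 else 0) -
      (if (x i = 1 ∧ p = if b then i + 2 else i + 1) ∨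
        (x i = -1 ∧ p = if b then i + 1 else i + 2) then 1 else 0) =
    if q = p + 1 then (if b then x (p + 2) else -x (p + 2))
    else if q = p + 2 then (if b then -x (p + 1) else x (p + 1)) else 0 := by
  by_cases h : i = j
  · subst h
    rcases hi with hi | hi <;> fin_cases i <;> fin_cases p <;> fin_cases q <;> cases b <;>
      simp_all
  · obtain ⟨h1, h2⟩ := hij h
    have h3 : x j = -x i := by omega
    have h4 := h2 0
    have h5 := h2 1
    have h6 := h2 2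
    clear hij h1 h2
    rcases hi with hi | hi <;> fin_cases i <;> fin_cases j <;> fin_cases p <;> fin_cases q <;>
      cases b <;> simp_all

theorem JPot_loc (l : Edge →₀ ℤ) (τ : Tri) {i j p q : Fin 3} (hp : p ≠ i) (hq : q ≠ j)
    (hi : l (side τ i) = 1 ∨ l (side τ i) = -1)
    (hij : i ≠ j → l (side τ i) + l (side τ j) = 0 ∧ ∀ r, r ≠ i → r ≠ j → l (side τ r) = 0) :
    isL l (side τ j) (vtx τ q) - isL l (side τ i) (vtx τ p) = inc l τ p q := by
  rw [JPot_isL_vtx, JPot_isL_vtx]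
  exact JPot_fin (fun r => l (side τ r)) τ.2 hp hq hi hij

theorem JPot_two {ξ : Finset Edge} (hs : Simple ξ) {t₀ : Tri} (h₀ : IsOdd ξ t₀) {τ : Tri}
    {i j : Fin 3} (hi : side τ i ∈ ξ) (hj : side τ j ∈ ξ) (n : i ≠ j) :
    line ξ t₀ (side τ i) + line ξ t₀ (side τ j) = 0 ∧
      ∀ r, r ≠ i → r ≠ j → line ξ t₀ (side τ r) = 0 := by
  have hd := hs τ
  have hz : ∀ r, side τ r ∉ ξ → line ξ t₀ (side τ r) = 0 := fun r hr => by
    by_contra hne
    exact hr (line_supp hne).1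
  rw [deg_eq ξ τ i, if_pos hi] at hd
  have hv := (line_isLine hs h₀).2.2 τ
  rw [isOdd_iff ξ τ i, dv_eq _ τ i] at hv
  rcases fin3_cases i j with rfl | rfl | rfl
  · exact absurd rfl n
  · rw [if_pos hj] at hd
    have h3 : side τ (i + 2) ∉ ξ := fun hh => by
      rw [if_pos hh] at hd
      omega
    have h4 := hz _ h3
    have h5 := hv (by tauto)
    refine ⟨by split_ifs at h5 <;> omega, fun r n1 n2 => ?_⟩
    rcases fin3_cases i r with rfl | rfl | rfl
    · exact absurd rfl n1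
    · exact absurd rfl n2
    · exact h4
  · rw [if_pos hj] at hd
    have h3 : side τ (i + 1) ∉ ξ := fun hh => by
      rw [if_pos hh] at hd
      omega
    have h4 := hz _ h3
    have h5 := hv (by tauto)
    refine ⟨by split_ifs at h5 <;> omega, fun r n1 n2 => ?_⟩
    rcases fin3_cases i r with rfl | rfl | rfl
    · exact absurd rfl n1
    · exact h4
    · exact absurd rfl n2

/-- A15, Side -/
theorem side_lemma {ξ : Finset Edge} (hs : Simple ξ) {t₀ : Tri} (h₀ : IsOdd ξ t₀) {Y : Set Site}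
    {a k : ℤ} (h0 : k = 0 ∨ (0 : Site) ∉ Y) (hY : ∀ e ∈ ξ, Touch e Y) {Φ : Site → ℤ}
    {ψ : Edge → ℤ}
    (hΦ : ∀ e, Inside e Y → cob Φ e = a * line ξ t₀ e + ψ e - k * kap e)
    (hψ : ∀ τ, Conn ξ t₀ τ → ∀ i, ψ (side τ i) = 0) :
    ∃ ρ : Tri → ℤ, (∀ τ, Conn ξ t₀ τ → ∀ i, side τ i ∈ ξ → ∀ c ∈ Y,
        (c = lft (side τ i) ∨ c = rgt (side τ i)) →
        ρ τ = Φ c - k * off c τ - a * isL (line ξ t₀) (side τ i) c) ∧
      ∀ t₁, IsOdd ξ t₁ → t₁ ≠ t₀ → Conn ξ t₀ t₁ → ρ t₁ - ρ t₀ = -k * Mc (line ξ t₀) := by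
  have key : ∀ τ, Conn ξ t₀ τ → ∀ i j, side τ i ∈ ξ → side τ j ∈ ξ → ∀ c ∈ Y, ∀ c' ∈ Y,
      (c = lft (side τ i) ∨ c = rgt (side τ i)) → (c' = lft (side τ j) ∨ c' = rgt (side τ j)) →
      Φ c - k * off c τ - a * isL (line ξ t₀) (side τ i) c =
        Φ c' - k * off c' τ - a * isL (line ξ t₀) (side τ j) c' := by
    intro τ hτ i j hi hj c hc c' hc' e1 e2
    obtain ⟨p, hp, rfl⟩ := JPot_end e1
    obtain ⟨q, hq, rfl⟩ := JPot_end e2
    have a1 := JPot_loc (line ξ t₀) τ hp hq (line_val hs h₀ hi (hτ.trans (conn_up_side hi)))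
      (JPot_two hs h₀ hi hj)
    have a2 : inc (fun e => a * line ξ t₀ e - k * kap e) τ p q = Φ (vtx τ q) - Φ (vtx τ p) := by
      by_cases hpq : p = q
      · rw [hpq, inc_self, sub_self]
      · refine inc_of_cob fun r n1 n2 => ?_
        rw [hΦ _ (JPot_inside hpq n1 n2 hc hc'), hψ τ hτ, add_zero]
    have a3 : inc (fun e => a * line ξ t₀ e - k * kap e) τ p q =
        a * inc (line ξ t₀) τ p q - k * inc kap τ p q := by
      simp only [inc]
      split_ifs <;> ring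
    have a4 : k * (off (vtx τ p) τ - off (vtx τ q) τ) = k * inc kap τ p q := by
      rcases h0 with h0 | h0
      · rw [h0, zero_mul, zero_mul]
      · rw [off_inc (fun hh => h0 (hh ▸ hc)) fun hh => h0 (hh ▸ hc')]
    linear_combination a2 - a3 - a4 + a * a1
  have hx : ∀ τ, ∃ z : ℤ, Conn ξ t₀ τ → ∀ i, side τ i ∈ ξ → ∀ c ∈ Y,
      (c = lft (side τ i) ∨ c = rgt (side τ i)) →
      z = Φ c - k * off c τ - a * isL (line ξ t₀) (side τ i) c := fun τ => by
    by_cases hex : ∃ j, side τ j ∈ ξ ∧ ∃ c' ∈ Y, c' = lft (side τ j) ∨ c' = rgt (side τ j)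
    · obtain ⟨j, hj, c', hc', e2⟩ := hex
      exact ⟨_, fun hτ i hi c hc e1 => key τ hτ j i hj hi c' hc' c hc e2 e1⟩
    · exact ⟨0, fun _ i hi c hc e1 => absurd ⟨i, hi, c, hc, e1⟩ hex⟩
  choose ρ hρ using hx
  refine ⟨ρ, hρ, fun t₁ o1 n1 c1 => ?_⟩
  have b1 := lc_pair (line ξ t₀) (fun e => -k * cutInd e) ρ (fun e he => ?_)
    (dv_line hs h₀ o1 n1.symm c1)
  · rw [← b1, Mc, Finsupp.linearCombination_apply, Finsupp.linearCombination_apply, Finsupp.sum,
      Finsupp.sum, Finset.mul_sum]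
    refine Finset.sum_congr rfl fun e _ => ?_
    simp only [smul_eq_mul]
    ring
  · obtain ⟨m1, m2⟩ := line_supp he
    obtain ⟨c, hc, e1⟩ : ∃ c ∈ Y, c = lft e ∨ c = rgt e :=
      (hY e m1).elim (fun hh => ⟨_, hh, Or.inl rfl⟩) fun hh => ⟨_, hh, Or.inr rfl⟩
    have u1 := hρ (up e) m2 e.2 (by simpa using m1) c hc (by simpa using e1)
    have u2 := hρ (dn e) (m2.trans (conn_up_dn m1)) e.2 (by simpa using m1) c hc
      (by simpa using e1)
    rw [side_up] at u1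
    rw [side_dn] at u2
    have u3 : k * (off c (dn e) - off c (up e)) = k * cutInd e := by
      rcases h0 with h0 | h0
      · rw [h0, zero_mul, zero_mul]
      · rw [off_dn_up e1 fun hh => h0 (hh ▸ hc)]
    linear_combination u1 - u2 + u3

theorem JPot_isL_ends {l : Edge →₀ ℤ} {e : Edge} (h : l e = 1 ∨ l e = -1) :
    (l e = 1 ∧ isL l e (lft e) = 1 ∧ isL l e (rgt e) = 0) ∨
      (l e = -1 ∧ isL l e (lft e) = 0 ∧ isL l e (rgt e) = 1) := by
  have n := lft_ne_rgt e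
  rcases h with h | h
  · exact Or.inl ⟨h, by simp [isL, h], by simp [isL, h, n.symm]⟩
  · exact Or.inr ⟨h, by simp [isL, h, n], by simp [isL, h]⟩

/-- without twist the value next to a line is constant along the line -/
theorem JPot_const {ξ : Finset Edge} (hs : Simple ξ) {t₀ : Tri} (h₀ : IsOdd ξ t₀) {Y : Set Site}
    (hY : ∀ e ∈ ξ, Touch e Y) {a : ℤ} {Φ : Site → ℤ} {ψ : Edge → ℤ}
    (hΦ : ∀ e, Inside e Y → cob Φ e = a * line ξ t₀ e + ψ e)
    (hψ : ∀ τ, Conn ξ t₀ τ → ∀ i, ψ (side τ i) = 0) :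
    ∃ A : ℤ, ∀ e ∈ ξ, Conn ξ t₀ (up e) → ∀ c ∈ Y, (c = lft e ∨ c = rgt e) →
      Φ c - a * isL (line ξ t₀) e c = A := by
  obtain ⟨ρ, hρ, -⟩ := side_lemma hs h₀ (k := 0) (Or.inl rfl) hY (Φ := Φ) (a := a) (ψ := ψ)
    (fun e he => by rw [hΦ e he]; ring) hψ
  have hc : ∀ τ, Conn ξ t₀ τ → ρ τ = ρ t₀ := fun τ hτ => by
    induction hτ with
    | refl => rfl
    | @tail b c hb h ih =>
      obtain ⟨i, hi, rfl⟩ := h
      obtain ⟨c, hc, e1⟩ : ∃ c ∈ Y, c = lft (side b i) ∨ c = rgt (side b i) :=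
        (hY _ hi).elim (fun hh => ⟨_, hh, Or.inl rfl⟩) fun hh => ⟨_, hh, Or.inr rfl⟩
      have u1 := hρ b hb i hi c hc e1
      have u2 := hρ (nbr b i) (Conn.trans hb (Conn.step hi)) i (by simpa using hi) c hc
        (by simpa using e1)
      rw [side_nbr] at u2
      rw [← ih, u1, u2]
      ring
  refine ⟨ρ t₀, fun e he hce c hcY e1 => ?_⟩
  have u1 := hρ (up e) hce e.2 (by simpa using he) c hcY (by simpa using e1)
  rw [side_up] at u1
  rw [← hc _ hce, u1]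
  ring

/-- a through line is not exact -/
theorem JPot_noexact {s R : ℝ} {D H : Finset Site} (h : Dom s R D H) (hR : 2 * s + 6 ≤ R)
    {ξ : Finset Edge} (hs : Simple ξ) {v u : Tri} (o1 : IsOdd ξ v) (o2 : IsOdd ξ u) (t1 : TT v H)
    (t2 : TT u (D : Set Site)ᶜ) (c1 : Conn ξ v u) {θ : Site → ℤ}
    (hθ : ∀ e, Inside e (D \ H : Finset Site) → cob θ e = line ξ v e) : False := by
  have n : v ≠ u := by
    rintro rfl
    obtain ⟨i, hi⟩ := t2
    exact hi (JPot_sep h _ t1 i)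
  obtain ⟨η, Φ, hP, -⟩ := exists_isPot (φ := line ξ v) (V := {v}) (U := {u}) h.zero h.connH h.connO
    (JPot_sep h) (by simpa using t1) (by simpa using t2)
    (fun t => by simpa using dv_line hs o1 o2 n c1 t)
  refine non_exact h.nonneg hR (g := fun x => θ x - Φ x) fun e he => ?_
  have m : ∀ x ∈ ann 0 s R, x ∈ D ∧ x ∉ H := fun x hx =>
    ⟨h.hR (Finset.mem_sdiff.1 hx).1, fun hh => (Finset.mem_sdiff.1 hx).2 (h.hs hh)⟩
  have m1 := m _ he.1
  have m2 := m _ he.2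
  have a1 := hθ e ⟨Finset.mem_sdiff.2 m1, Finset.mem_sdiff.2 m2⟩
  have a2 := hP.pot e ⟨m1.1, m2.1⟩
  have a3 : η e = 0 := by
    by_contra hne
    exact (hP.supp e hne).elim m1.2 m2.2
  simp only [cob, Finset.card_singleton, Nat.cast_one, one_mul] at a1 a2 ⊢
  omega

/-- A15, TwoLines: the value on the right of the first line is the value on the left of the
second. Otherwise threshold `Δ`, and contradict `non_exact`. -/
theorem two_lines {s R : ℝ} {D H : Finset Site} (h : Dom s R D H) (hR : 2 * s + 6 ≤ R)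
    {ξ : Finset Edge} (hξ : ξ ⊆ allowed D H) (hs : Simple ξ) {v u v' u' : Tri}
    (o1 : IsOdd ξ v) (o2 : IsOdd ξ u) (o3 : IsOdd ξ v') (o4 : IsOdd ξ u') (t1 : TT v H)
    (t2 : TT u (D : Set Site)ᶜ) (t3 : TT v' H) (t4 : TT u' (D : Set Site)ᶜ) (c1 : Conn ξ v u)
    (c2 : Conn ξ v' u') (hn : ¬ Conn ξ v v') {Δ : Site → ℤ}
    (hΔ : ∀ e, Inside e (D \ H : Finset Site) → cob Δ e = line ξ v e - line ξ v' e)
    {e e' : Edge} (he : e ∈ ξ) (he' : e' ∈ ξ) (hc : Conn ξ v (up e)) (hc' : Conn ξ v' (up e'))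
    {c c' : Site} (m1 : c ∈ D \ H) (m2 : c' ∈ D \ H) (s1 : c = lft e ∨ c = rgt e)
    (s2 : c' = lft e' ∨ c' = rgt e') :
    Δ c - isL (line ξ v) e c = Δ c' + isL (line ξ v') e' c' - 1 := by
  have hY : ∀ f ∈ ξ, Touch f (D \ H : Finset Site) := fun f hf => by
    obtain ⟨a1, a2⟩ := mem_allowed.1 (hξ hf)
    by_contra hn
    simp only [Touch, Finset.coe_sdiff, Set.mem_sdiff, Finset.mem_coe, not_or, not_and,
      not_not] at hn
    have a3 : Touch f H := a1.imp hn.1 hn.2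
    have a4 := JPot_sep h _ a3.tt_up
    exact a2 ⟨hn.1 (a4 _), hn.2 (a4 _)⟩
  have hn' : ¬ Conn ξ v' v := fun hh => hn hh.symm
  obtain ⟨A, hA⟩ := JPot_const hs o1 hY (a := 1) (Φ := Δ) (ψ := fun f => -line ξ v' f)
    (fun f hf => by rw [hΔ f hf]; ring) fun τ hτ i => by
      rw [line_side_zero fun hh => hn (hτ.trans hh.symm), neg_zero]
  obtain ⟨B, hB⟩ := JPot_const hs o3 hY (a := -1) (Φ := Δ) (ψ := fun f => line ξ v f)
    (fun f hf => by rw [hΔ f hf]; ring) fun τ hτ i =>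
      line_side_zero (fun hh => hn (hh.trans hτ.symm)) i
  have k1 := hA e he hc c m1 s1
  have k2 := hB e' he' hc' c' m2 s2
  suffices hAB : A = B - 1 by omega
  have both : ∀ f, line ξ v f ≠ 0 → line ξ v' f = 0 := fun f h1 => by
    by_contra h2
    exact hn ((line_supp h1).2.trans (line_supp h2).2.symm)
  have vA : ∀ f, Inside f (D \ H : Finset Site) → line ξ v f ≠ 0 →
      (line ξ v f = 1 ∧ Δ (lft f) = A + 1 ∧ Δ (rgt f) = A) ∨
      (line ξ v f = -1 ∧ Δ (lft f) = A ∧ Δ (rgt f) = A + 1) := fun f hf h1 => by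
    obtain ⟨b1, b2⟩ := line_supp h1
    have d1 := hA f b1 b2 _ hf.1 (Or.inl rfl)
    have d2 := hA f b1 b2 _ hf.2 (Or.inr rfl)
    rcases JPot_isL_ends (line_val hs o1 b1 b2) with d | d <;> omega
  have vB : ∀ f, Inside f (D \ H : Finset Site) → line ξ v' f ≠ 0 →
      (line ξ v' f = 1 ∧ Δ (lft f) = B - 1 ∧ Δ (rgt f) = B) ∨
      (line ξ v' f = -1 ∧ Δ (lft f) = B ∧ Δ (rgt f) = B - 1) := fun f hf h1 => by
    obtain ⟨b1, b2⟩ := line_supp h1
    have d1 := hB f b1 b2 _ hf.1 (Or.inl rfl)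
    have d2 := hB f b1 b2 _ hf.2 (Or.inr rfl)
    rcases JPot_isL_ends (line_val hs o3 b1 b2) with d | d <;> omega
  by_contra hne
  rcases lt_or_gt_of_ne hne with hlt | hgt
  · refine JPot_noexact h hR hs o3 o4 t3 t4 c2 (θ := fun x => if Δ x ≤ B - 1 then 1 else 0)
      fun f hf => ?_
    have d0 := hΔ f hf
    simp only [cob] at d0 ⊢
    by_cases h1 : line ξ v f = 0
    · by_cases h2 : line ξ v' f = 0
      · split_ifs <;> omega
      · rcases vB f hf h2 with d | d <;> split_ifs <;> omega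
    · have h2 := both f h1
      rcases vA f hf h1 with d | d <;> split_ifs <;> omega
  · refine JPot_noexact h hR hs o1 o2 t1 t2 c1 (θ := fun x => if A + 1 ≤ Δ x then 1 else 0)
      fun f hf => ?_
    have d0 := hΔ f hf
    simp only [cob] at d0 ⊢
    by_cases h1 : line ξ v f = 0
    · by_cases h2 : line ξ v' f = 0
      · split_ifs <;> omega
      · rcases vB f hf h2 with d | d <;> split_ifs <;> omega
    · rcases vA f hf h1 with d | d <;> split_ifs <;> omega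

end Pool.Agent.TAF.U
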