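import Pool.Agent.P.MP_cb4022_pr.U.Clus
import Pool.Agent.P.MP_cb4022_pr.U.JPot

/-! Arcs and blue clusters; the top bound (paper B5, F1). -/

open scoped Classical symmDiff

noncomputable section

namespace Pool.Agent.TAF.U

theorem Same_in {t : Tri} {p : Site} {r : ℝ} (h : Two t (bal p r)) (i : Fin 3) :
    dst (vtx t i) p ≤ r + 1 := by
  obtain ⟨q, h1, -⟩ := h
  have := mem_bal.1 (Finset.mem_coe.1 h1)
  linarith [dst_tri (vtx t i) (vtx t (q + 1)) p, dst_vtx t i (q + 1)]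

theorem Same_out {t : Tri} {p : Site} {R : ℝ} (h : Two t (bal p R : Set Site)ᶜ) (i : Fin 3) :
    R - 1 < dst (vtx t i) p := by
  obtain ⟨q, h1, -⟩ := h
  have : R < dst (vtx t (q + 1)) p := not_le.1 fun h => h1 (Finset.mem_coe.2 (mem_bal.2 h))
  linarith [dst_tri (vtx t (q + 1)) (vtx t i) p, dst_vtx t (q + 1) i]

theorem Same_simple {ξ : Finset Edge} {A : Set Site} (hev : ∀ t, TT t A → ¬ IsOdd ξ t) :
    Simple (res ξ A) := fun t => by
  by_cases h : TT t A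
  · exact (deg_mono (Finset.filter_subset _ _) t).trans (deg_le_two_of_not_odd (hev t h))
  · exact deg_le_two_of_not_mem (i := 0) fun h' => h (mem_res.1 h').2.tt

theorem Same_sep {η : Finset Edge} (hs : Simple η) {p : Site} {r R : ℝ} (hr : r + 2 ≤ R)
    {a b u : Tri} (oa : IsOdd η a) (ob : IsOdd η b) (ou : IsOdd η u) (ta : Two a (bal p r))
    (tb : Two b (bal p r)) (tu : Two u (bal p R : Set Site)ᶜ) (c1 : Conn η a u)
    (c2 : Conn η a b) : a = b := by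
  rcases three_odd hs oa ou ob c1 c2 with rfl | h | rfl
  · linarith [Same_in ta 0, Same_out tu 0]
  · exact h
  · linarith [Same_in tb 0, Same_out tu 0]

/-- a side in `bd S` has a blue end -/
theorem Same_blue {S : Finset Site} {t : Tri} {i : Fin 3} (h : side t i ∈ bd S) :
    ∃ b, b ∉ S ∧ (b = lft (side t i) ∨ b = rgt (side t i)) ∧ (∃ j, vtx t j = b) ∧
      ∃ j, vtx (nbr t i) j = b := by
  have h' := side_mem_bd.1 h
  by_cases h1 : vtx t (i + 1) ∈ S
  · refine ⟨vtx t (i + 2), fun h2 => h' (iff_of_true h1 h2), ?_, ⟨_, rfl⟩, _, vtx_nbr1 t i⟩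
    rw [lft_side, rgt_side]
    split_ifs <;> simp
  · refine ⟨vtx t (i + 1), h1, ?_, ⟨_, rfl⟩, _, vtx_nbr2 t i⟩
    rw [lft_side, rgt_side]
    split_ifs <;> simp

theorem Same_odd_side {ξ : Finset Edge} {t : Tri} (h : IsOdd ξ t) : ∃ i, side t i ∈ ξ := by
  by_contra hn
  push Not at hn
  rw [isOdd_iff _ t 0] at h
  simp [hn] at h

/-- the blue side of a crossing line contains a crossing path -/
theorem Same_found {S : Finset Site} {ξ : Finset Edge} (hξ : ξ ⊆ bd S) {p : Site} {r R : ℝ}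
    (hR : r + 4 ≤ R) {t u : Tri} (ht : Two t (bal p r)) (ou : IsOdd ξ u)
    (hu : Two u (bal p R : Set Site)ᶜ) (hc : Conn ξ t u) :
    ∃ c, (∃ e ∈ ξ, Conn ξ t (up e) ∧ (c = lft e ∨ c = rgt e)) ∧
      Crs (ann p r R \ S : Finset Site) p (r + 2) (R - 2) c := by
  by_contra hn
  have mem : ∀ x, x ∉ S → r < dst x p → dst x p ≤ R →
      x ∈ ((ann p r R \ S : Finset Site) : Set Site) := fun x h1 h2 h3 =>
    Finset.mem_coe.2 (Finset.mem_sdiff.2 ⟨mem_ann.2 ⟨h2, h3⟩, h1⟩)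
  have key : ∀ τ, Conn ξ t τ → ∀ j, vtx τ j ∉ S → dst (vtx τ j) p ≤ R - 2 ∧
      ∃ x, dst x p ≤ r + 2 ∧ Jn (ann p r R \ S : Finset Site) (vtx τ j) x := by
    intro τ hτ
    induction hτ with
    | refl =>
      intro j _
      have := Same_in ht j
      exact ⟨by linarith, _, by linarith, Jn.refl _ _⟩
    | @tail τ τ' hτ hs ih =>
      obtain ⟨i, hi, rfl⟩ := hs
      intro j hj
      obtain ⟨b, hb, he, ⟨j1, e1⟩, j2, e2⟩ := Same_blue (hξ hi)
      obtain ⟨d1, x, hx, jx⟩ := ih j1 (e1 ▸ hb)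
      rw [e1] at d1 jx
      have d2 := dst_vtx (nbr τ i) j j2
      rw [e2] at d2
      have d3 := dst_tri (vtx (nbr τ i) j) b p
      by_cases h1 : dst (vtx (nbr τ i) j) p ≤ r + 2
      · exact ⟨by linarith, _, h1, Jn.refl _ _⟩
      have m1 := mem _ hj (by linarith) (by linarith)
      have m2 := mem b hb (by linarith) (by linarith)
      have jb : Jn (ann p r R \ S : Finset Site) (vtx (nbr τ i) j) b := by
        have := Jn.vtx (t := nbr τ i) (i := j) (j := j2) m1 (e2 ▸ m2)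
        rwa [e2] at this
      refine ⟨not_lt.1 fun h2 => hn ⟨b, ⟨_, hi, Conn.trans hτ (conn_up_side hi), he⟩, m2,
        ⟨x, hx, jx⟩, _, h2, jb.symm⟩, x, hx, jb.trans jx⟩
  obtain ⟨i, hi⟩ := Same_odd_side ou
  obtain ⟨b, hb, -, ⟨j, e⟩, -⟩ := Same_blue (hξ hi)
  linarith [(key u hc j (e ▸ hb)).1, Same_out hu j]

/-- the indicator of `S` -/
def Same_ind (S : Finset Site) (x : Site) : ℤ := if x ∈ S then 1 else 0

/-- the coboundary of the indicator on the edges of `ξ` -/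
def Same_g (S : Finset Site) (ξ : Finset Edge) (e : Edge) : ℤ :=
  if e ∈ ξ then cob (Same_ind S) e else 0

theorem Same_dv {S : Finset Site} {ξ : Finset Edge} (hξ : ξ ⊆ bd S) (t : Tri) :
    (¬ IsOdd ξ t → dv (Same_g S ξ) t = 0) ∧
      (IsOdd ξ t → dv (Same_g S ξ) t = 1 ∨ dv (Same_g S ξ) t = -1) := by
  have e1 : (0 + 1 + 1 : Fin 3) = 0 + 2 := rfl
  have e2 : (0 + 1 + 2 : Fin 3) = 0 := rfl
  have e3 : (0 + 2 + 1 : Fin 3) = 0 := rfl
  have e4 : (0 + 2 + 2 : Fin 3) = 0 + 1 := rfl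
  have a0 : side t 0 ∈ ξ → _ := fun h => side_mem_bd.1 (hξ h)
  have a1 : side t (0 + 1) ∈ ξ → _ := fun h => side_mem_bd.1 (hξ h)
  have a2 : side t (0 + 2) ∈ ξ → _ := fun h => side_mem_bd.1 (hξ h)
  rw [isOdd_iff _ t 0, dv_eq _ t 0]
  simp only [Same_g, cob_side, Same_ind]
  rw [e1, e2] at a1
  rw [e3, e4] at a2
  rw [e1, e2, e3, e4]
  generalize side t 0 = s0 at *
  generalize side t (0 + 1) = s1 at *
  generalize side t (0 + 2) = s2 at *
  generalize vtx t 0 = v0 at *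
  generalize vtx t (0 + 1) = v1 at *
  generalize vtx t (0 + 2) = v2 at *
  clear e1 e2 e3 e4 hξ
  cases t.2 <;> by_cases h0 : s0 ∈ ξ <;> by_cases h1 : s1 ∈ ξ <;> by_cases h2 : s2 ∈ ξ <;>
    by_cases k0 : v0 ∈ S <;> by_cases k1 : v1 ∈ S <;> by_cases k2 : v2 ∈ S <;> simp_all

theorem Same_line {S : Finset Site} {ξ : Finset Edge} (hξ : ξ ⊆ bd S) {t : Tri} (ht : IsOdd ξ t)
    {e : Edge} (he : e ∈ ξ) (hc : Conn ξ t (up e)) :
    line ξ t e = -dv (Same_g S ξ) t * cob (Same_ind S) e := by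
  have hs := (simple_bd S).mono hξ
  have hl := line_isLine hs ht
  obtain ⟨ε, hε⟩ : ∃ ε, ε = -dv (Same_g S ξ) t := ⟨_, rfl⟩
  have d : ∀ τ, Conn ξ t τ → dv (fun e => if e ∈ ξ ∧ Conn ξ t (up e) then
      line ξ t e - ε * Same_g S ξ e else 0) τ = dv (line ξ t) τ - ε * dv (Same_g S ξ) τ := by
    intro τ hτ
    have : ∀ i, (if side τ i ∈ ξ ∧ Conn ξ t (up (side τ i)) then
        line ξ t (side τ i) - ε * Same_g S ξ (side τ i) else 0) =
        line ξ t (side τ i) - ε * Same_g S ξ (side τ i) := fun i => by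
      by_cases h : side τ i ∈ ξ
      · rw [if_pos ⟨h, hτ.trans (conn_up_side h)⟩]
      · have z : line ξ t (side τ i) = 0 := by
          by_contra h'
          exact h (line_supp h').1
        rw [if_neg fun h' => h h'.1, z, Same_g, if_neg h]
        simp
    simp only [dv, this, Fin.sum_univ_three]
    split_ifs <;> ring
  have := flow_unique hs ht (ψ := fun e => if e ∈ ξ ∧ Conn ξ t (up e) then
    line ξ t e - ε * Same_g S ξ e else 0) (fun e h => by
      by_contra h'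
      exact h (if_neg h')) (by
      rw [d t (Conn.refl _ _), hl.2.1, hε]
      rcases (Same_dv hξ t).2 ht with h | h <;> rw [h] <;> norm_num) (fun τ hτ ho => by
      rw [d τ hτ, hl.2.2 τ ho, (Same_dv hξ τ).1 ho]
      simp) e
  simp only [if_pos (And.intro he hc), Same_g, if_pos he] at this
  rw [← hε]
  linarith

theorem Same_isL {S : Finset Site} {ξ : Finset Edge} (hξ : ξ ⊆ bd S) {t : Tri} (ht : IsOdd ξ t)
    {e : Edge} (he : e ∈ ξ) (hc : Conn ξ t (up e)) {c : Site} (hb : c ∉ S)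
    (s : c = lft e ∨ c = rgt e) :
    isL (line ξ t) e c = if dv (Same_g S ξ) t = 1 then 1 else 0 := by
  have b := mem_bd.1 (hξ he)
  have n := lft_ne_rgt e
  rw [isL, Same_line hξ ht he hc, cob, Same_ind, Same_ind]
  rcases s with rfl | rfl
  · have b' : rgt e ∈ S := by tauto
    rcases (Same_dv hξ t).2 ht with h | h <;> simp [h, hb, b', n]
  · have b' : lft e ∈ S := by tauto
    rcases (Same_dv hξ t).2 ht with h | h <;> simp [h, hb, b', n.symm]

theorem Same_two {S : Finset Site} {r R : ℝ} (h0 : 0 ≤ r) (hR : 2 * r + 8 ≤ R) {ξ : Finset Edge}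
    (hξ : ξ = res (bd S) (ann 0 r R)) {v u v' u' : Tri} (o1 : IsOdd ξ v) (o2 : IsOdd ξ u)
    (o3 : IsOdd ξ v') (o4 : IsOdd ξ u') (t1 : Two v (bal 0 r)) (t2 : Two u (bal 0 R : Set Site)ᶜ)
    (t3 : Two v' (bal 0 r)) (t4 : Two u' (bal 0 R : Set Site)ᶜ) (c1 : Conn ξ v u)
    (c2 : Conn ξ v' u') (hn : v ≠ v') (ty : dv (Same_g S ξ) v = dv (Same_g S ξ) v') {c c' : Site}
    (hc : ∃ e ∈ ξ, Conn ξ v (up e) ∧ (c = lft e ∨ c = rgt e))
    (hc' : ∃ e ∈ ξ, Conn ξ v' (up e) ∧ (c' = lft e ∨ c' = rgt e)) (m1 : c ∈ ann 0 r R \ S)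
    (m2 : c' ∈ ann 0 r R \ S) : ¬ Jn (ann 0 r R \ S : Finset Site) c c' := by
  intro hj
  have sb : ξ ⊆ bd S := hξ ▸ Finset.filter_subset _ _
  have hs := (simple_bd S).mono sb
  have tt : ∀ {t : Tri} {X : Set Site}, Two t X → TT t X := fun ⟨_, h, _⟩ => ⟨_, h⟩
  have n1 : v ≠ u := fun h => by linarith [Same_in t1 0, Same_out t2 0, h ▸ Same_in t1 0]
  have n2 : v' ≠ u' := fun h => by linarith [Same_out t4 0, h ▸ Same_in t3 0]
  obtain ⟨φ, hφ, dφ⟩ := hug (sconn_bal 0 r) (tt t3) (tt t1)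
  obtain ⟨Δ, hΔ, -⟩ := exists_pot (sconn_compl_bal 0 R) (line ξ v - line ξ v' + φ) 0 (fun t ht => by
    have a1 : t ≠ u := fun h => by
      obtain ⟨q, h1, -⟩ := t2
      exact h1 (h ▸ ht _)
    have a2 : t ≠ u' := fun h => by
      obtain ⟨q, h1, -⟩ := t4
      exact h1 (h ▸ ht _)
    rw [Finsupp.coe_add, Finsupp.coe_sub, dv_add, dv_sub, dv_line hs o1 o2 n1 c1,
      dv_line hs o3 o4 n2 c2, dφ, if_neg a1, if_neg a2]
    simp) 0
  have hΔ' : ∀ e, Inside e (bal 0 R \ bal 0 r : Finset Site) →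
      cob Δ e = line ξ v e - line ξ v' e := fun e he => by
    have a := Finset.mem_sdiff.1 (Finset.mem_coe.1 he.1)
    have b := Finset.mem_sdiff.1 (Finset.mem_coe.1 he.2)
    have z : φ e = 0 := by
      by_contra h
      exact (hφ e h).elim a.2 b.2
    rw [hΔ e ⟨a.1, b.1⟩, Finsupp.add_apply, Finsupp.sub_apply, z]
    simp
  obtain ⟨e, he, ce, se⟩ := hc
  obtain ⟨e', he', ce', se'⟩ := hc'
  have al : ξ ⊆ allowed (bal 0 R) (bal 0 r) := fun e he => by
    rw [hξ] at he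
    rcases (mem_res.1 he).2 with h | h
    · have a := Finset.mem_sdiff.1 (Finset.mem_coe.1 h)
      exact mem_allowed.2 ⟨Or.inl a.1, fun h' => a.2 h'.1⟩
    · have a := Finset.mem_sdiff.1 (Finset.mem_coe.1 h)
      exact mem_allowed.2 ⟨Or.inr a.1, fun h' => a.2 h'.2⟩
  have m1' := Finset.mem_sdiff.1 m1
  have m2' := Finset.mem_sdiff.1 m2
  have key := two_lines (dom_bal h0 (by linarith)) (by linarith) al hs o1 o2 o3 o4 (tt t1) (tt t2)
    (tt t3) (tt t4) c1 c2 (fun h => hn (Same_sep hs (by linarith) o1 o3 o2 t1 t3 t2 c1 h)) hΔ'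
    he he' ce ce' m1'.1 m2'.1 se se'
  have eq : Δ c = Δ c' := Jn.const (fun e he => by
    have a := Finset.mem_sdiff.1 (Finset.mem_coe.1 he.1)
    have b := Finset.mem_sdiff.1 (Finset.mem_coe.1 he.2)
    have z : ∀ t, line ξ t e = 0 := fun t => by
      by_contra h
      exact mem_bd.1 (sb (line_supp h).1) (iff_of_false a.2 b.2)
    rw [hΔ' e ⟨a.1, b.1⟩, z, z, sub_zero]) hj
  rw [Same_isL sb o1 he ce m1'.2 se, Same_isL sb o3 he' ce' m2'.2 se', eq, ty] at key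
  split_ifs at key <;> omega

theorem Same_zero {N : ℕ} {S : Finset Site} {r R : ℝ} (h0 : 0 ≤ r) (hR : 2 * r + 8 ≤ R)
    (h : Arc N (bd S) 0 r R) : ∃ f : Fin N → Site,
      (∀ i, Crs (ann 0 r R \ S : Finset Site) 0 (r + 2) (R - 2) (f i)) ∧
      ∀ i j k, i ≠ j → i ≠ k → j ≠ k → Jn (ann 0 r R \ S : Finset Site) (f i) (f j) →
        ¬ Jn (ann 0 r R \ S : Finset Site) (f i) (f k) := by
  obtain ⟨W, hN, hW⟩ := h
  obtain ⟨ξ, hξ⟩ : ∃ ξ, ξ = res (bd S) (ann 0 r R) := ⟨_, rfl⟩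
  rw [← hξ] at hW
  have sb : ξ ⊆ bd S := hξ ▸ Finset.filter_subset _ _
  obtain ⟨v, hv, mv⟩ : ∃ v : Fin N → Tri, Function.Injective v ∧ ∀ i, v i ∈ W :=
    ⟨fun i => W.equivFin.symm (Fin.castLE hN i), fun i j e =>
      Fin.castLE_injective hN (W.equivFin.symm.injective (Subtype.ext e)), fun i => Subtype.prop _⟩
  choose o1 t1 u o2 t2 c1 using fun i => hW (v i) (mv i)
  choose f hf cf using fun i => Same_found sb (by linarith) (t1 i) (o2 i) (t2 i) (c1 i)
  have two : ∀ i j, i ≠ j → dv (Same_g S ξ) (v i) = dv (Same_g S ξ) (v j) →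
      ¬ Jn (ann 0 r R \ S : Finset Site) (f i) (f j) := fun i j hij ty =>
    Same_two h0 hR hξ (o1 i) (o2 i) (o1 j) (o2 j) (t1 i) (t2 i) (t1 j) (t2 j) (c1 i) (c1 j)
      (hv.ne hij) ty (hf i) (hf j) (cf i).1 (cf j).1
  refine ⟨f, cf, fun i j k hij hik hjk j1 j2 => ?_⟩
  have a := fun h => two i j hij h j1
  have b := fun h => two i k hik h j2
  have c := fun h => two j k hjk h (j1.symm.trans j2)
  have d := fun i => (Same_dv sb (v i)).2 (o1 i)
  rcases d i with h1 | h1 <;> rcases d j with h2 | h2 <;> rcases d k with h3 | h3 <;>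
    first
    | exact a (h1.trans h2.symm)
    | exact b (h1.trans h3.symm)
    | exact c (h2.trans h3.symm)

/-- B5. Translate to `p = 0`; `D = bal 0 R`, `H = bal 0 r`, `ξ = res (bd S) (ann 0 r R)`. Each line
is `± cob` of the indicator of `S` on its component (`flow_unique`); `two_lines` excludes two
lines of the same sign with blue sides in one cluster. `f i` is a blue end in the annulus of an
edge of the line `i`. -/
theorem same_type {N : ℕ} {S : Finset Site} {p : Site} {r R : ℝ} (h0 : 0 ≤ r) (hR : 2 * r + 8 ≤ R)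
    (h : Arc N (bd S) p r R) : ∃ f : Fin N → Site,
      (∀ i, Crs (ann p r R \ S : Finset Site) p (r + 2) (R - 2) (f i)) ∧
      ∀ i j k, i ≠ j → i ≠ k → j ≠ k → Jn (ann p r R \ S : Finset Site) (f i) (f j) →
        ¬ Jn (ann p r R \ S : Finset Site) (f i) (f k) := by
  obtain ⟨a, ha⟩ : ∃ a : Aut, a.fS p = 0 := ⟨trA (-p), add_neg_cancel p⟩
  have h' := a.arc_iff.2 h
  rw [a.mE_bd, ha] at h'
  obtain ⟨f, hf, hj⟩ := Same_zero h0 hR h'
  have e : ((ann 0 r R \ a.mS S : Finset Site) : Set Site) =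
      a.fS '' (ann p r R \ S : Finset Site) := by
    rw [← a.coe_mS, a.mS_sdiff, a.mS_ann, ha]
  rw [e] at hf hj
  refine ⟨fun i => a.fS.symm (f i), fun i => a.crs_iff.1 ?_, fun i j k h1 h2 h3 j1 j2 =>
    hj i j k h1 h2 h3 ?_ ?_⟩
  · rw [ha, Equiv.apply_symm_apply]
    exact hf i
  · simpa only [Equiv.apply_symm_apply] using a.jn_iff.2 j1
  · simpa only [Equiv.apply_symm_apply] using a.jn_iff.2 j2

theorem cl_of_arc {k : ℕ} {S : Finset Site} {p : Site} {r R : ℝ} (h0 : 0 ≤ r) (hR : 2 * r + 8 ≤ R)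
    (h : Arc (2 * k) (bd S) p r R) : Cl k (ann p r R \ S) p (r + 2) (R - 2) := by
  obtain ⟨f, hf, hj⟩ := same_type h0 hR h
  generalize ann p r R \ S = Z at hf hj ⊢
  obtain ⟨ρ, h1, h2⟩ : ∃ ρ : Fin (2 * k) → Site, (∀ i, (∃ j, ρ i = f j) ∧ Jn Z (f i) (ρ i)) ∧
      ∀ i j, Jn Z (f i) (f j) → ρ i = ρ j := by
    refine ⟨fun i => Classical.epsilon fun x => (∃ j, x = f j) ∧ Jn Z (f i) x, fun i =>
      Classical.epsilon_spec (p := fun x => (∃ j, x = f j) ∧ Jn Z (f i) x)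
        ⟨f i, ⟨i, rfl⟩, Jn.refl _ _⟩, fun i j hij => ?_⟩
    refine congrArg Classical.epsilon (funext fun x => propext ?_)
    exact and_congr_right fun _ => ⟨hij.symm.trans, hij.trans⟩
  refine ⟨Finset.univ.image ρ, ?_, ?_, ?_⟩
  · have := Finset.card_le_mul_card_image (f := ρ) Finset.univ 2 fun b _ => not_lt.1 fun h => by
      obtain ⟨i, hi, j, hj', l, hl, n1, n2, n3⟩ := Finset.two_lt_card.1 h
      have e1 := (Finset.mem_filter.1 hi).2
      have e2 := (Finset.mem_filter.1 hj').2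
      have e3 := (Finset.mem_filter.1 hl).2
      have a1 := (h1 i).2
      have a2 := (h1 j).2
      have a3 := (h1 l).2
      rw [e1] at a1
      rw [e2] at a2
      rw [e3] at a3
      exact hj i j l n1 n2 n3 (a1.trans a2.symm) (a1.trans a3.symm)
    rw [Finset.card_univ, Fintype.card_fin] at this
    omega
  · intro b hb
    obtain ⟨i, -, rfl⟩ := Finset.mem_image.1 hb
    obtain ⟨j, e⟩ := (h1 i).1
    rw [e]
    exact hf j
  · intro b hb b' hb' hbb
    obtain ⟨i, -, rfl⟩ := Finset.mem_image.1 hb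
    obtain ⟨j, -, rfl⟩ := Finset.mem_image.1 hb'
    exact h2 i j (((h1 i).2.trans hbb).trans (h1 j).2.symm)

/-- a path from the inside to the outside passes through the middle -/
theorem Same_mid {η : Finset Edge} {t u : Tri} (h : Conn η t u) {c : ℝ}
    (h1 : dst (vtx t 0) 0 ≤ c) (h2 : c < dst (vtx u 0) 0) :
    ∃ τ, Conn η t τ ∧ c < dst (vtx τ 0) 0 ∧ dst (vtx τ 0) 0 ≤ c + 2 := by
  induction h with
  | refl => exact absurd h1 (not_le.2 h2)
  | @tail τ τ' hτ hs ih =>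
    obtain ⟨i, hi, rfl⟩ := hs
    by_cases h3 : c < dst (vtx τ 0) 0
    · exact ih h3
    · refine ⟨_, Conn.trans hτ (Conn.step hi), h2, ?_⟩
      have a := dst_vtx (nbr τ i) 0 (i + 1)
      rw [vtx_nbr1] at a
      linarith [dst_tri (vtx (nbr τ i) 0) (vtx τ (i + 2)) 0, dst_tri (vtx τ (i + 2)) (vtx τ 0) 0,
        dst_vtx τ (i + 2) 0]

/-- the dilated lattice -/
def Same_sc (m : ℕ) (y : Site) : Site := (m * y.1, m * y.2)

theorem Same_sc_dst (m : ℕ) (y : Site) : dst (Same_sc m y) 0 = m * dst y 0 := by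
  rw [← sq_eq_sq₀ (dst_nonneg _ _) (mul_nonneg m.cast_nonneg (dst_nonneg _ _)), mul_pow, dst_sq,
    dst_sq]
  simp only [Same_sc, Prod.fst_zero, Prod.snd_zero]
  push_cast
  ring

theorem Same_sc_near {m : ℕ} (hm : 1 ≤ m) (x : Site) : ∃ y, dst x (Same_sc m y) ≤ 2 * m := by
  refine ⟨(x.1 / m, x.2 / m), le_of_sq_le_sq ?_ (by positivity)⟩
  have m0 : (0 : ℤ) < m := by exact_mod_cast hm
  have a1 := Int.emod_nonneg x.1 m0.ne'
  have a2 := Int.emod_lt_of_pos x.1 m0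
  have b1 := Int.emod_nonneg x.2 m0.ne'
  have b2 := Int.emod_lt_of_pos x.2 m0
  rw [dst_sq]
  simp only [Same_sc]
  rw [← Int.emod_def, ← Int.emod_def]
  have : (x.1 % m) ^ 2 + (x.1 % m) * (x.2 % m) + (x.2 % m) ^ 2 ≤ (2 * m) ^ 2 := by nlinarith
  exact_mod_cast this

/-- the bound in a small annulus -/
theorem Same_loc {A : Finset Site} {p : Site} {r R q : ℝ} (h0 : 0 ≤ r) (hR : 2 * r + 8 ≤ R)
    (hA : bal p (R + 1) ⊆ A) (h : ArmB (r + 2) (R - 2) q) {ξ : Finset Edge}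
    (hev : ∀ t, TT t A → ¬ IsOdd ξ t) (k : ℕ) :
    pr A.powerset (fun S => Arc (2 * k) (ξ ∆ bd S) p r R) ≤ q ^ k := by
  obtain ⟨S₀, hS⟩ := col2 ξ (sconn_compl_bal p (R + 1)) fun t ht => by
    by_contra hn
    exact hev t ⟨0, hA (by_contra fun h' => hn ⟨0, h'⟩)⟩ ht
  have hY : ann p r R ⊆ A := Finset.sdiff_subset.trans ((bal_mono p (by linarith)).trans hA)
  have b : ∀ e, Touch e (ann p r R) → ¬ Touch e (bal p (R + 1) : Set Site)ᶜ := fun e he => by
    have d := dst_adj (adj_lft_rgt e)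
    have d' := d
    rw [dst_comm] at d'
    have d1 := dst_tri (lft e) (rgt e) p
    have d2 := dst_tri (rgt e) (lft e) p
    rw [not_touch_iff, compl_compl]
    rcases he with he | he
    · have := (mem_ann.1 (Finset.mem_coe.1 he)).2
      exact ⟨Finset.mem_coe.2 (mem_bal.2 (by linarith)), Finset.mem_coe.2 (mem_bal.2 (by linarith))⟩
    · have := (mem_ann.1 (Finset.mem_coe.1 he)).2
      exact ⟨Finset.mem_coe.2 (mem_bal.2 (by linarith)), Finset.mem_coe.2 (mem_bal.2 (by linarith))⟩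
  have e1 := avg_restrict hY fun S => if Cl k (ann p r R \ S ∆ (S₀ ∩ ann p r R)) p (r + 2) (R - 2)
    then (1 : ℝ) else 0
  have e2 := avg_shift (D := ann p r R) (S₀ := S₀ ∩ ann p r R) Finset.inter_subset_right
    fun S => if Cl k (ann p r R \ S) p (r + 2) (R - 2) then (1 : ℝ) else 0
  refine le_trans (pr_mono (Q := fun S => Cl k (ann p r R \ (S ∩ ann p r R) ∆ (S₀ ∩ ann p r R)) p
    (r + 2) (R - 2)) fun S _ ha => ?_) ((e1.trans e2).le.trans (cl_tail h p k _))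
  have a := (arc_congr (ξ' := bd (S₀ ∆ S)) fun e he => by
    rw [bd_symmDiff, Finset.mem_symmDiff, Finset.mem_symmDiff, hS e (b e he)]).1 ha
  have c := cl_of_arc h0 hR a
  have e : ann p r R \ S₀ ∆ S = ann p r R \ (S ∩ ann p r R) ∆ (S₀ ∩ ann p r R) := by
    ext x
    simp only [Finset.mem_sdiff, Finset.mem_symmDiff, Finset.mem_inter]
    tauto
  rwa [e] at c

/-- many arcs cross one of the small annuli -/
theorem Same_pigeon {m n : ℕ} (hm : 1 ≤ m) {K r : ℝ} (hK : 2 ≤ K) (r1 : 10 * K * m ≤ r)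
    (r2 : r ≤ 20 * K * m) {ξ : Finset Edge} (hev : ∀ t, TT t (ann 0 r (4 * r)) → ¬ IsOdd ξ t)
    (h : Arc ((bal 0 (60 * K)).card * n + 1) ξ 0 r (4 * r)) : ∃ y ∈ bal 0 (60 * K),
      bal (Same_sc m y) (8 * K * m + 1) ⊆ ann 0 r (4 * r) ∧
        Arc n ξ (Same_sc m y) (2 * m + 1) (8 * K * m) := by
  obtain ⟨W, hN, hW⟩ := h
  have m1 : (1 : ℝ) ≤ m := by exact_mod_cast hm
  have Km : 2 * (m : ℝ) ≤ K * m := by nlinarith
  have hs := Same_simple hev
  obtain ⟨η, hη⟩ : ∃ η, η = res ξ (ann 0 r (4 * r)) := ⟨_, rfl⟩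
  rw [← hη] at hW hs
  have ex : ∀ t ∈ W, ∃ τ y, Conn η t τ ∧ 2 * r < dst (vtx τ 0) 0 ∧ dst (vtx τ 0) 0 ≤ 2 * r + 2 ∧
      dst (vtx τ 0) (Same_sc m y) ≤ 2 * m := fun t ht => by
    obtain ⟨-, t1, u, -, t2, c⟩ := hW t ht
    obtain ⟨τ, h1, h2, h3⟩ := Same_mid c (c := 2 * r) (by linarith [Same_in t1 0])
      (by linarith [Same_out t2 0])
    obtain ⟨y, hy⟩ := Same_sc_near hm (vtx τ 0)
    exact ⟨τ, y, h1, h2, h3, hy⟩
  choose! τ y c1 d1 d2 d3 using ex
  have lo : ∀ t ∈ W, 2 * r - 2 * m < dst (Same_sc m (y t)) 0 := fun t ht => by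
    linarith [d1 t ht, d3 t ht, dst_tri (vtx (τ t) 0) (Same_sc m (y t)) 0]
  have hi : ∀ t ∈ W, dst (Same_sc m (y t)) 0 ≤ 2 * r + 2 + 2 * m := fun t ht => by
    linarith [d2 t ht, d3 t ht, dst_tri (Same_sc m (y t)) (vtx (τ t) 0) 0,
      dst_comm (Same_sc m (y t)) (vtx (τ t) 0)]
  have my : ∀ t ∈ W, y t ∈ bal 0 (60 * K) := fun t ht => by
    refine mem_bal.2 (le_of_mul_le_mul_left ?_ (show (0 : ℝ) < m by linarith))
    rw [← Same_sc_dst]
    linarith [hi t ht]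
  obtain ⟨z, hz, hc⟩ := Finset.exists_lt_card_fiber_of_mul_lt_card_of_maps_to my
    (Nat.lt_of_succ_le hN)
  obtain ⟨t₀, ht₀⟩ := Finset.card_pos.1 ((Nat.zero_le n).trans_lt hc)
  obtain ⟨w₀, e₀⟩ := Finset.mem_filter.1 ht₀
  have l0 := lo t₀ w₀
  have h0 := hi t₀ w₀
  rw [e₀] at l0 h0
  have sub : bal (Same_sc m z) (8 * K * m + 1) ⊆ ann 0 r (4 * r) := fun x hx => by
    have := mem_bal.1 hx
    exact mem_ann.2 ⟨by linarith [dst_tri (Same_sc m z) x 0, dst_comm (Same_sc m z) x],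
      by linarith [dst_tri x (Same_sc m z) 0]⟩
  have sep : ∀ a ∈ W, ∀ b ∈ W, Conn η a b → a = b := fun a ha b hb hab => by
    obtain ⟨o1, t1, u, o2, t2, c⟩ := hW a ha
    exact Same_sep hs (by linarith) o1 (hW b hb).1 o2 t1 (hW b hb).2.1 t2 c hab
  refine ⟨z, hz, sub, ?_⟩
  have ar := arc_paths (ξ := ξ) (η := η) (hη ▸ Finset.filter_subset _ _) (p := Same_sc m z)
    (r := 2 * m + 1) (R := 8 * K * m) (by linarith) (fun t ⟨i, ht⟩ => hev t ⟨i, sub
      (bal_mono _ (by linarith) (Finset.mem_sdiff.1 (Finset.mem_coe.1 ht)).1)⟩)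
    ((W.filter fun t => y t = z).image τ) (fun σ hσ => by
      obtain ⟨t, ht, rfl⟩ := Finset.mem_image.1 hσ
      obtain ⟨w, e⟩ := Finset.mem_filter.1 ht
      have d := d3 t w
      rw [e] at d
      refine ⟨AllIn.endOK fun i => Finset.mem_coe.2 (mem_bal.2 ?_), t,
        AllIn.endOK fun i hi => ?_, (c1 t w).symm⟩
      · linarith [dst_tri (vtx (τ t) i) (vtx (τ t) 0) (Same_sc m z), dst_vtx (τ t) i 0]
      · linarith [mem_bal.1 (Finset.mem_coe.1 hi), Same_in (hW t w).2.1 i,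
          dst_tri (Same_sc m z) (vtx t i) 0, dst_comm (Same_sc m z) (vtx t i)])
    (fun σ hσ σ' hσ' hh => by
      obtain ⟨t, ht, rfl⟩ := Finset.mem_image.1 hσ
      obtain ⟨t', ht', rfl⟩ := Finset.mem_image.1 hσ'
      have w := (Finset.mem_filter.1 ht).1
      have w' := (Finset.mem_filter.1 ht').1
      rw [sep t w t' w' (((c1 t w).trans hh).trans (c1 t' w').symm)])
  rw [Finset.card_image_of_injOn fun t ht t' ht' e => by
    have w := (Finset.mem_filter.1 ht).1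
    have w' := (Finset.mem_filter.1 ht').1
    exact sep t w t' w' ((c1 t w).trans (e ▸ (c1 t' w').symm))] at ar
  exact ar.mono hc.le

/-- F1. Cover the middle of the annulus by a bounded number of small balls, pigeonhole,
`arc_paths`, `col2` in a ball that lies in the annulus, `cl_of_arc`, `cl_tail`. -/
theorem top_bound {q : ℝ} (hq : 0 < q) :
    ∃ (N : ℕ) (r₀ : ℝ), ∀ r, r₀ ≤ r → ArcB N 0 r (4 * r) q := by
  obtain ⟨K, hK, hA⟩ := armB_small (q := 1 / 2) (by norm_num)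
  obtain ⟨k, hk⟩ := exists_pow_lt_of_lt_one (show 0 < q / ((bal 0 (60 * K)).card + 1) by
    positivity) (show (1 / 2 : ℝ) < 1 by norm_num)
  refine ⟨(bal 0 (60 * K)).card * (2 * k) + 1, 10 * K, fun r hr ξ hξ => ?_⟩
  have K0 : 0 < 10 * K := by linarith
  obtain ⟨m, hm⟩ : ∃ m, m = ⌊r / (10 * K)⌋₊ := ⟨_, rfl⟩
  have q1 : 1 ≤ r / (10 * K) := (one_le_div K0).2 hr
  have hm1 : 1 ≤ m := hm ▸ Nat.le_floor (by exact_mod_cast q1)
  have m1 : (1 : ℝ) ≤ m := by exact_mod_cast hm1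
  have Km : 2 * (m : ℝ) ≤ K * m := by nlinarith
  have r1 : 10 * K * m ≤ r := by
    have := Nat.floor_le (zero_le_one.trans q1)
    rw [← hm, le_div_iff₀ K0] at this
    linarith
  have r2 : r ≤ 20 * K * m := by
    have := Nat.lt_floor_add_one (r / (10 * K))
    rw [← hm, div_lt_iff₀ K0] at this
    nlinarith
  have arm : ArmB (2 * m + 1 + 2) (8 * K * m - 2) (1 / 2) :=
    (hA (2 * m + 1 + 2) (by linarith)).mono le_rfl (by nlinarith) le_rfl
  refine le_trans (pr_mono (Q := fun S => ∃ y ∈ bal 0 (60 * K),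
    bal (Same_sc m y) (8 * K * m + 1) ⊆ ann 0 r (4 * r) ∧
      Arc (2 * k) (ξ ∆ bd S) (Same_sc m y) (2 * m + 1) (8 * K * m)) fun S _ h =>
    Same_pigeon hm1 hK r1 r2 (fun t ht ho =>
      isOdd_symmDiff.1 ho (iff_of_false (hξ t ht) (not_isOdd_bd S t))) h) ?_
  refine (pr_exists _ _ _).trans ((Finset.sum_le_card_nsmul _ _ ((1 / 2 : ℝ) ^ k)
    fun y _ => ?_).trans ?_)
  · by_cases hy : bal (Same_sc m y) (8 * K * m + 1) ⊆ ann 0 r (4 * r)
    · exact (pr_mono fun S _ h => h.2).trans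
        (Same_loc (by linarith) (by linarith) hy arm hξ k)
    · exact avg_le (by positivity) fun S _ => by
        rw [if_neg fun h => hy h.1]
        positivity
  · rw [lt_div_iff₀ (by positivity)] at hk
    rw [nsmul_eq_mul]
    nlinarith [pow_pos (show (0 : ℝ) < 1 / 2 by norm_num) k]

theorem expB_top (γ : ℝ) : ∃ N₀ : ℕ, ∀ N, N₀ ≤ N → ExpB N γ := by
  rcases le_total γ 0 with h | h
  · exact ⟨0, fun N _ => expB_nonpos N h⟩
  · obtain ⟨N₀, r₀, hN⟩ := top_bound (q := (2 * 4 : ℝ) ^ (-γ)) (by positivity)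
    exact ⟨N₀, fun N h' => (expB_of_scale (l := 4) (r₀ := r₀) h (by norm_num)
      fun r h1 _ => hN r h1).mono h' le_rfl⟩

end Pool.Agent.TAF.U
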