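import Pool.Agent.P.MP_cb4022_pr.U.FDef

/-! The induction step for the arc exponents (paper F2). -/

open scoped Classical symmDiff

noncomputable section

namespace Pool.Agent.TAF.U

/-- `isOdd_res`, `dom_bal` -/
theorem frame_of_even {r R : ℝ} (h0 : 0 ≤ r) (h : r + 6 ≤ R) {ξ : Finset Edge}
    (hev : ∀ t, TT t (ann 0 r R) → ¬ IsOdd ξ t) : ∃ V U : Finset Tri,
      Frame r R (bal 0 R) (bal 0 r) V U ∧
        res ξ (ann 0 r R) ∈ Om (bal 0 R) (bal 0 r) (V ∪ U) := by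
  refine ⟨(oddS (res ξ (ann 0 r R))).filter (InTip r (bal 0 r)),
    (oddS (res ξ (ann 0 r R))).filter (OutTip (bal 0 R)),
    ⟨dom_bal h0 h, fun v hv => (Finset.mem_filter.1 hv).2, fun u hu => (Finset.mem_filter.1 hu).2⟩,
    mem_Om.2 ⟨fun e he => mem_allowed.2 ⟨?_, fun hi => ?_⟩, fun t => ?_⟩⟩
  · exact (mem_res.1 he).2.imp (fun x => mem_bal.2 (mem_ann.1 x).2)
      fun x => mem_bal.2 (mem_ann.1 x).2
  · rcases (mem_res.1 he).2 with x | x
    · exact (mem_ann.1 x).1.not_ge (mem_bal.1 hi.1)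
    · exact (mem_ann.1 x).1.not_ge (mem_bal.1 hi.2)
  · rw [Finset.mem_union, Finset.mem_filter, Finset.mem_filter, mem_oddS, ← and_or_left]
    refine ⟨fun ht => ⟨ht, ?_⟩, fun ht => ht.1⟩
    obtain ⟨q, a0, a1, a2, -⟩ := (isOdd_res (imp_iff_or_not.1 (hev t))).1 ht
    rw [Finset.mem_coe, mem_ann] at a0
    rw [Finset.mem_coe, mem_ann, not_and_or, not_lt, not_le] at a1 a2
    have b1 := Link_dst_le t (q + 1) (q + 2) 0
    have b2 := Link_dst_le t (q + 2) (q + 1) 0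
    rcases a1 with a1 | a1
    · exact Or.inl ⟨q, fun x => a0.1.not_ge (mem_bal.1 x), mem_bal.2 a1,
        mem_bal.2 (a2.resolve_right fun x => by linarith)⟩
    · exact Or.inr ⟨q, mem_bal.2 a0.2, fun x => a1.not_ge (mem_bal.1 x),
        fun x => (a2.resolve_left fun x => by linarith).not_ge (mem_bal.1 x)⟩

theorem Step_res {s R : ℝ} {T : Finset Tri} {ξ : Finset Edge}
    (hξ : ξ ∈ Om (bal 0 R) (bal 0 s) T) (h : s + 1 ≤ R) : res ξ (ann 0 s R) = ξ := by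
  refine Finset.filter_true_of_mem fun e he => ?_
  obtain ⟨h1, h2⟩ := mem_allowed.1 ((mem_Om.1 hξ).1 he)
  have a1 := dst_tri (lft e) (rgt e) 0
  have a2 := dst_tri (rgt e) (lft e) 0
  rw [dst_adj (adj_lft_rgt e)] at a1
  rw [dst_adj (adj_lft_rgt e).symm] at a2
  simp only [Touch, Inside, Finset.mem_coe, mem_bal, mem_ann] at h1 h2 ⊢
  by_cases b1 : dst (lft e) 0 ≤ s
  · exact Or.inr ⟨not_le.1 fun x => h2 ⟨b1, x⟩, by linarith⟩
  by_cases b2 : dst (rgt e) 0 ≤ s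
  · exact Or.inl ⟨not_le.1 b1, by linarith⟩
  exact h1.imp (fun x => ⟨not_le.1 b1, x⟩) fun x => ⟨not_le.1 b2, x⟩

/-- `N` different elements of `V` are joined to tips (`OutH.conn`), and the tips are different
(`three_odd`) -/
theorem thru_of_arc {N : ℕ} {s r R : ℝ} {V U : Finset Tri} {ξ : Finset Edge}
    (h : Frame s R (bal 0 R) (bal 0 s) V U) (hξ : ξ ∈ Om (bal 0 R) (bal 0 s) (V ∪ U))
    (h1 : s + 6 ≤ r) (h2 : r + 1 ≤ R) (ha : Arc N ξ 0 s R)
    (hc : (tips ξ U (bal 0 r)).card ≤ N) : (tips ξ U (bal 0 r)).card = N ∧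
      Thru (res ξ (dStar (bal 0 R) ξ U r)) V (tips ξ U (bal 0 r)) := by
  obtain ⟨ho, hf, hm⟩ := h.outH hξ h1 h2
  obtain ⟨W, hN, hW⟩ := ha
  have hodd := (mem_Om.1 hξ).2
  have e := Step_res hξ (by linarith)
  rw [e] at hW
  have key : ∀ t ∈ W, t ∈ V ∧ ∃ τ ∈ tips ξ U (bal 0 r),
      Conn (res ξ (dStar (bal 0 R) ξ U r)) τ t := by
    intro t ht
    obtain ⟨o1, ⟨q, w1, -⟩, t', o2, ⟨q', w2, -⟩, hc⟩ := hW t ht
    have a1 : t ∈ V := (Finset.mem_union.1 ((hodd t).1 o1)).resolve_right fun hu =>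
      (h.out t hu).allIn h.hR (q + 1) (bal_mono 0 (by linarith) w1)
    have a2 : t' ∈ U := (Finset.mem_union.1 ((hodd t').1 o2)).resolve_left fun hv =>
      w2 (bal_mono 0 (by linarith) ((h.inn t' hv).allIn h.hs (q' + 1)))
    exact ⟨a1, ho.conn a2 ⟨q + 1, bal_mono 0 (by linarith) w1⟩ hc.symm⟩
  choose! hV f hf1 hf2 using key
  have hodd' := (mem_Om.1 hm).2
  have hinj : Set.InjOn f W := by
    intro a ha b hb hab
    have hd := Finset.disjoint_left.1 hf.disjoint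
    rcases three_odd (hf.simple hm) ((hodd' _).2 (Finset.mem_union_right _ (hf1 a ha)))
      ((hodd' _).2 (Finset.mem_union_left _ (hV a ha)))
      ((hodd' _).2 (Finset.mem_union_left _ (hV b hb))) (hf2 a ha) (hab ▸ hf2 b hb) with x | x | x
    · exact (hd (hV a ha) (x ▸ hf1 a ha)).elim
    · exact (hd (hV b hb) (x ▸ hf1 a ha)).elim
    · exact x
  have him : W.image f = tips ξ U (bal 0 r) :=
    Finset.eq_of_subset_of_card_le (Finset.image_subset_iff.2 hf1)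
      (by rw [Finset.card_image_of_injOn hinj]; omega)
  refine ⟨le_antisymm hc (by rw [← him, Finset.card_image_of_injOn hinj]; exact hN),
    fun τ hτ => ?_⟩
  obtain ⟨t, ht, rfl⟩ := Finset.mem_image.1 (him ▸ hτ)
  exact ⟨t, hV t ht, hf2 t ht⟩

/-- `avg_Gr`, `avg_coset`, `arc_congr` -/
theorem arcB_of_Om {N : ℕ} {r R q : ℝ} (h0 : 0 ≤ r) (h : r + 6 ≤ R)
    (hq : ∀ V U : Finset Tri, Frame r R (bal 0 R) (bal 0 r) V U →
      pr (Om (bal 0 R) (bal 0 r) (V ∪ U)) (fun ξ => Arc N ξ 0 r R) ≤ q) :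
    ArcB N 0 r R (2 * q) := by
  intro ξ hev
  obtain ⟨V, U, hf, hm⟩ := frame_of_even h0 h hev
  have h1 := hq V U hf
  rw [pr, ← avg_coset hf.connH hf.connO hm, avg_Gr hf.toDom.sub ⟨0, hf.zero⟩] at h1
  have h2 : pr (ann 0 r R).powerset (fun S => Arc N (ξ ∆ bd S) 0 r R) =
      pr (ann 0 r R).powerset (fun S => Arc N (res ξ (ann 0 r R) ∆ bd S) 0 r R) :=
    pr_congr fun S _ => arc_congr fun e he => by
      rw [Finset.mem_symmDiff, Finset.mem_symmDiff, mem_res, and_iff_left he]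
  have h3 := pr_nonneg (ann 0 r R).powerset
    (fun S => Arc N (res ξ (ann 0 r R) ∆ bd (S ∪ bal 0 r)) 0 r R)
  rw [smul_eq_mul] at h1
  rw [h2]
  unfold pr ann at *
  linarith

/-- the resampled probability at a scale with few tips -/
theorem Step_stop {N : ℕ} {s r R b : ℝ} {V U : Finset Tri} {ξ : Finset Edge}
    (h : Frame s R (bal 0 R) (bal 0 s) V U) (hξ : ξ ∈ Om (bal 0 R) (bal 0 s) (V ∪ U))
    (h1 : s + 6 ≤ r) (h2 : r + 1 ≤ R) (hc : (tips ξ U (bal 0 r)).card ≤ N) (hb : 0 ≤ b)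
    (hq : ∀ (D : Finset Site) (U' : Finset Tri), Frame s r D (bal 0 s) V U' → D ⊆ bal 0 R →
      U'.card = N → pr (Om D (bal 0 s) (V ∪ U')) (fun ξ => Thru ξ V U') ≤ b) :
    pr (Gr (dStar (bal 0 R) ξ U r) (bal 0 s)) (fun S => Arc N (ξ ∆ bd S) 0 s R) ≤ b := by
  obtain ⟨ho, hf, hm⟩ := h.outH hξ h1 h2
  have key : ∀ S ∈ Gr (dStar (bal 0 R) ξ U r) (bal 0 s), Arc N (ξ ∆ bd S) 0 s R →
      (tips ξ U (bal 0 r)).card = N ∧
        Thru (res ξ (dStar (bal 0 R) ξ U r) ∆ bd S) V (tips ξ U (bal 0 r)) := by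
    intro S hS ha
    have a1 := Om_act hξ (Gr_mono dStar_sub Finset.Subset.rfl hS)
    have a2 := (dStar_act (mem_Gr.1 hS).1 le_rfl).2
    obtain ⟨-, a3, a4⟩ := ho.act (mem_Gr.1 hS).1 (h.simple a1)
    have a5 := thru_of_arc h a1 h1 h2 ha (a2 ▸ hc)
    rwa [a2, a3, a4] at a5
  by_cases hN : (tips ξ U (bal 0 r)).card = N
  · refine (pr_mono fun S hS ha => (key S hS ha).2).trans ?_
    have a1 := avg_coset hf.connH hf.connO hm
      (fun η => if Thru η V (tips ξ U (bal 0 r)) then (1 : ℝ) else 0)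
    exact a1.le.trans (hq _ _ hf dStar_sub hN)
  · exact avg_le hb fun S hS => by rw [if_neg fun ha => hN (key S hS ha).1]; exact hb

/-- many tips give many arcs -/
theorem Step_tips {N : ℕ} {s r R q : ℝ} {V U : Finset Tri}
    (h : Frame s R (bal 0 R) (bal 0 s) V U) (h1 : s + 6 ≤ r) (h2 : r + 3 ≤ R)
    (hq : ArcB (N + 1) 0 (r + 1) (R - 1) q) :
    pr (Om (bal 0 R) (bal 0 s) (V ∪ U)) (fun ξ => ¬ (tips ξ U (bal 0 r)).card ≤ N) ≤ q := by
  have hT : ∀ t ∈ V ∪ U, ¬ TT t (ann 0 (r + 1) (R - 1)) := by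
    rintro t ht ⟨i, hi⟩
    rcases Finset.mem_union.1 ht with x | x
    · have a1 := mem_bal.1 ((h.inn t x).allIn h.hs i)
      linarith [(mem_ann.1 hi).1]
    · exact (h.out t x).allIn h.hR i (mem_bal.2 (mem_ann.1 hi).2)
  refine (pr_mono fun ξ hξ hn => ?_).trans (pr_arc_Om hq
    (fun x hx => mem_bal.2 (by linarith [(mem_ann.1 hx).2]))
    (Finset.disjoint_left.2 fun x hx hx' => by linarith [(mem_ann.1 hx).1, mem_bal.1 hx']) hT)
  refine (arc_tips_in (h.outH hξ h1 (by linarith)).1.good (by linarith)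
    (fun t ht ho => hT t (((mem_Om.1 hξ).2 t).1 ho) ht) (fun t ht => (h.out t ht).allIn h.hR)
    (by rw [add_sub_cancel_right])).mono (by omega)

/-- the multiscale bound -/
theorem Step_ms {N K : ℕ} {s R : ℝ} {V U : Finset Tri} (h : Frame s R (bal 0 R) (bal 0 s) V U)
    {ρ b q : ℕ → ℝ} (hρ : Antitone ρ) (h1 : s + 6 ≤ ρ K) (h2 : ρ 0 + 3 ≤ R) (hb : ∀ k, 0 ≤ b k)
    (hb' : ∀ k ≤ K, ∀ (D : Finset Site) (U' : Finset Tri), Frame s (ρ k) D (bal 0 s) V U' →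
      D ⊆ bal 0 R → U'.card = N → pr (Om D (bal 0 s) (V ∪ U')) (fun ξ => Thru ξ V U') ≤ b k)
    (hq : ∀ k ≤ K, ArcB (N + 1) 0 (ρ k + 1) (R - 1) (q k)) :
    pr (Om (bal 0 R) (bal 0 s) (V ∪ U)) (fun ξ => Arc N ξ 0 s R) ≤
      b 0 + ∑ k ∈ Finset.range K, b (k + 1) * q k + 1 * q K := by
  have a1 : ∀ k ≤ K, s + 6 ≤ ρ k := fun k hk => h1.trans (hρ hk)
  have a2 : ∀ k, ρ k + 3 ≤ R := fun k => by linarith [hρ (Nat.zero_le k)]
  rw [pr, ms_act (Om (bal 0 R) (bal 0 s) (V ∪ U)) (fun ξ S => ξ ∆ bd S) ∅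
    (fun ξ => by rw [bd_empty]; exact symmDiff_bot ξ) K
    (fun k ξ => Gr (dStar (bal 0 R) ξ U (ρ k)) (bal 0 s))
    (fun k ξ => (tips ξ U (bal 0 (ρ k))).card ≤ N) (fun k _ ξ _ => Gr_nonempty _ _)
    fun k _ ξ hξ S hS => ⟨Om_act hξ (Gr_mono dStar_sub Finset.Subset.rfl hS),
      by rw [(dStar_act (mem_Gr.1 hS).1 le_rfl).1], symmDiff_symmDiff_cancel_right _ _,
      fun j hj => by rw [(dStar_act (mem_Gr.1 hS).1 (hρ hj)).2]⟩]
  refine (Real.le_norm_self _).trans (ms_bound _ K (fun k ξ => (tips ξ U (bal 0 (ρ k))).card ≤ N) _ b q 1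
    hb zero_le_one (fun ξ hξ k hk hs hj => ?_) (fun ξ _ hn => ?_)
    fun k hk => Step_tips h (a1 k hk) (a2 k) (hq k hk))
  · have a3 : ∃ k, k ≤ K ∧ (tips ξ U (bal 0 (ρ k))).card ≤ N := ⟨k, hk, hs⟩
    have a4 : ∀ d, @Nat.find _ d a3 = k := fun d =>
      (Nat.find_eq_iff a3).2 ⟨⟨hk, hs⟩, fun j hj' x => hj j hj' x.2⟩
    rw [dif_pos a3, a4]
    exact (Real.norm_of_nonneg (pr_nonneg _ _)).le.trans
      (Step_stop h hξ (a1 k hk) (by linarith [a2 k]) hs (hb k) (hb' k hk))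
  · rw [dif_neg fun ⟨k, hk, hs⟩ => hn k hk hs]
    split_ifs <;> simp

theorem Step_main {N : ℕ} {a g₁ : ℝ} (h1 : ExpB (N + 1) g₁) (h3 : ThB N a) (ha : 0 < a)
    (hg : a < g₁) : ∃ C : ℝ, ∀ l : ℝ, 4 ≤ l → ∃ r₀ : ℝ, ∀ r : ℝ, r₀ ≤ r → 6 ≤ r →
      ∀ V U : Finset Tri, Frame r (l * r) (bal 0 (l * r)) (bal 0 r) V U →
        pr (Om (bal 0 (l * r)) (bal 0 r) (V ∪ U)) (fun ξ => Arc N ξ 0 r (l * r)) ≤
          C * l ^ (-a) := by
  obtain ⟨C₁, h1⟩ := h1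
  obtain ⟨C₃, h3⟩ := h3
  obtain ⟨C₀, -, h0⟩ := geo_sum hg
  have hC₁ : 0 ≤ C₁ := by
    have a1 := (h1 1 1 le_rfl le_rfl).nonneg
    rwa [div_one, Real.one_rpow, mul_one] at a1
  refine ⟨|C₃| * 2 ^ a * (1 + C₁ * C₀) + C₁ * 8 ^ a, fun l hl => ?_⟩
  obtain ⟨r₀, h3⟩ := h3 l
  refine ⟨r₀, fun r hr hr6 V U hf => ?_⟩
  have hl0 : 0 < l := by linarith
  have hr0 : 0 < r := by linarith
  have hR : 4 * r ≤ l * r := by nlinarith
  obtain ⟨K, hK1, hK2⟩ := exists_dyadic (a := 4 * r) (by linarith) hR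
  have hρ : Antitone fun k : ℕ => l * r / 2 ^ (k + 1) := fun j k hjk =>
    div_le_div_of_nonneg_left (by linarith) (by positivity)
      (pow_le_pow_right₀ one_le_two (by omega))
  have hK : 2 * r ≤ l * r / 2 ^ (K + 1) := by
    rw [le_div_iff₀ (by positivity), pow_succ]
    linarith
  have hA : 0 ≤ |C₃| * 2 ^ a * l ^ (-a) := by positivity
  refine (Step_ms (K := K) hf (b := fun k => |C₃| * 2 ^ a * l ^ (-a) * ((2 : ℝ) ^ k) ^ a)
    (q := fun k => C₁ * ((2 : ℝ) ^ k) ^ (-g₁)) hρ (by linarith) (by norm_num; linarith)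
    (fun k => by positivity) (fun k _ D U' hf' hD hN => ?_) fun k hk => ?_).trans ?_
  · refine (h3 r _ D _ V U' hr hf' hD hN).trans ?_
    have a1 : r / (l * r / 2 ^ (k + 1)) = 2 * l⁻¹ * 2 ^ k := by
      field_simp
      ring
    rw [a1, Real.mul_rpow (by positivity) (by positivity), Real.mul_rpow zero_le_two (by positivity),
      Real.inv_rpow hl0.le, ← Real.rpow_neg hl0.le, ← mul_assoc, ← mul_assoc]
    gcongr
    exact le_abs_self _
  · have a1 : 2 * r ≤ l * r / 2 ^ (k + 1) := hK.trans (hρ hk)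
    have a2 : l * r / 2 ^ (k + 1) ≤ l * r / 2 ^ (0 + 1) := hρ (Nat.zero_le k)
    rw [zero_add, pow_one] at a2
    refine (h1 _ _ (by linarith) (by linarith)).mono (mul_le_mul_of_nonneg_left ?_ hC₁)
    rw [Real.rpow_neg (by positivity), ← Real.inv_rpow (by positivity)]
    refine Real.rpow_le_rpow (div_nonneg (by linarith) (by linarith)) ?_ (ha.trans hg).le
    have a3 : l * r = l * r / 2 ^ (k + 1) * 2 * 2 ^ k := by
      field_simp
      ring
    have a4 : (1 : ℝ) ≤ 2 ^ k := one_le_pow₀ one_le_two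
    rw [div_le_iff₀ (by linarith), le_inv_mul_iff₀ (by positivity)]
    generalize l * r / 2 ^ (k + 1) = x at a1 a3 ⊢
    nlinarith
  · have a1 : ∑ k ∈ Finset.range K, |C₃| * 2 ^ a * l ^ (-a) * ((2 : ℝ) ^ (k + 1)) ^ a *
        (C₁ * ((2 : ℝ) ^ k) ^ (-g₁)) ≤ |C₃| * 2 ^ a * l ^ (-a) * C₁ * C₀ := by
      refine le_of_eq_of_le ?_ (mul_le_mul_of_nonneg_left (h0 K) (mul_nonneg hA hC₁))
      rw [Finset.mul_sum]
      exact Finset.sum_congr rfl fun k _ => by ring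
    have a2 : ((2 : ℝ) ^ K) ^ (-g₁) ≤ 8 ^ a * l ^ (-a) := by
      refine (Real.rpow_le_rpow_of_exponent_le (one_le_pow₀ one_le_two) (neg_le_neg hg.le)).trans ?_
      rw [Real.rpow_neg hl0.le, ← Real.inv_rpow hl0.le, ← Real.mul_rpow (by norm_num) (by positivity),
        Real.rpow_neg (by positivity), ← Real.inv_rpow (by positivity)]
      refine Real.rpow_le_rpow (by positivity) ?_ ha.le
      rw [← div_eq_mul_inv, inv_le_iff_one_le_mul₀ (by positivity), div_mul_eq_mul_div,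
        le_div_iff₀ hl0]
      rw [pow_succ] at hK2
      nlinarith
    have a3 := mul_le_mul_of_nonneg_left a2 hC₁
    rw [pow_zero, Real.one_rpow]
    linarith

/-- `expB_of_scale`. Lower `g₃` (`ThB.mono`) so that `g < g₃ < g₁`. `R = l r`, targets
`bal 0 (R / 2 ^ (k + 1))` down to about `2 r`; `ms_act` with `G k ξ = Gr (dStar ..) (bal 0 r)`,
`stop k ξ` = at most `N` tips (`Frame.outH`, `OutH.act`, `dStar_act`, `avg_coset`,
`thru_of_arc`); `ms_bound` with `arc_tips_in`, `pr_arc_Om`, `geo_sum`. -/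
theorem expB_step {N : ℕ} {g g₁ g₃ : ℝ} (h1 : ExpB (N + 1) g₁) (h3 : ThB N g₃) (hg1 : g < g₁)
    (hg3 : g < g₃) : ExpB N g := by
  rcases le_or_gt g 0 with hg | hg
  · exact expB_nonpos N hg
  obtain ⟨a, ha1, ha2⟩ := exists_between (lt_min hg1 hg3)
  obtain ⟨C, hC⟩ := Step_main h1 (h3.mono (ha2.le.trans (min_le_right _ _))) (hg.trans ha1)
    (ha2.trans_le (min_le_left _ _))
  obtain ⟨l, hl1, hl2⟩ := (((tendsto_rpow_atTop (sub_pos.2 ha1)).eventually_ge_atTop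
    (2 * C * 2 ^ g)).and (Filter.eventually_ge_atTop 4)).exists
  obtain ⟨r₀, hr₀⟩ := hC l hl2
  refine expB_of_scale (l := l) (r₀ := max r₀ 6) hg.le (by linarith) fun r hr _ => ?_
  have hr6 : 6 ≤ r := (le_max_right _ _).trans hr
  refine (arcB_of_Om (by linarith) (by nlinarith)
    (hr₀ r ((le_max_left _ _).trans hr) hr6)).mono ?_
  have hl0 : 0 < l := by linarith
  rw [Real.mul_rpow zero_le_two hl0.le, Real.rpow_neg zero_le_two,
    show -g = (a - g) + -a by ring, Real.rpow_add hl0, ← mul_assoc, ← mul_assoc]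
  refine mul_le_mul_of_nonneg_right ?_ (Real.rpow_nonneg hl0.le _)
  rw [le_inv_mul_iff₀ (Real.rpow_pos_of_pos two_pos g)]
  linarith

end Pool.Agent.TAF.U
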