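import Pool.Agent.P.MP_cb4022_pr.U.VStep
import Pool.Agent.P.MP_cb4022_pr.U.PStep
import Pool.Agent.P.MP_cb4022_pr.U.Step
import Pool.Agent.P.MP_cb4022_pr.U.Same
import Pool.Agent.P.MP_cb4022_pr.U.Kap1
import Pool.Agent.P.MP_cb4022_pr.U.Kap2

/-! The arc exponents and the contraction constants (paper F2, F5). -/

open scoped Classical symmDiff

noncomputable section

namespace Pool.Agent.TAF.U

def fB : ℕ → ℕ → ℝ
  | 0, _ => 0
  | j + 1, N => if N ≤ 1 then 0 else fB j (N - 1) + ((N : ℝ) - 1) / 6

theorem fB_nonneg (j N : ℕ) : 0 ≤ fB j N := by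
  induction j generalizing N with
  | zero => simp [fB]
  | succ j ih =>
    simp only [fB]
    split_ifs with h
    · exact le_rfl
    · have : (2 : ℝ) ≤ N := by exact_mod_cast (by omega : 2 ≤ N)
      have := ih (N - 1); linarith

theorem fB_mono (j N : ℕ) : fB j N ≤ fB j (N + 1) := by
  induction j generalizing N with
  | zero => simp [fB]
  | succ j ih =>
    have h0 := fB_nonneg (j + 1) (N + 1)
    simp only [fB] at h0 ⊢
    split_ifs with h1 h2 h2
    · exact le_rfl
    · simpa [h2] using h0
    · omega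
    · obtain ⟨M, rfl⟩ : ∃ M, N = M + 1 := ⟨N - 1, by omega⟩
      have := ih M
      simp only [Nat.add_sub_cancel]
      push_cast; linarith

theorem expB_fB (j : ℕ) : ∀ (N : ℕ) (g : ℝ), g < fB j N → ExpB N g := by
  induction j with
  | zero => exact fun N g h => expB_nonpos N h.le
  | succ j ih =>
    intro N g hg
    obtain ⟨N₀, h₀⟩ := expB_top (g + 1)
    have key : ∀ d M : ℕ, M + d = N₀ + N → N ≤ M → ∀ g', g' < min (g + 1) (fB (j + 1) N) →
        ExpB M g' := by
      intro d
      induction d with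
      | zero =>
        intro M hM _ g' h'
        exact (h₀ M (by omega)).mono le_rfl (h'.le.trans (min_le_left _ _))
      | succ d ihd =>
        intro M hM hNM g' h'
        obtain ⟨g₁, h1, h2⟩ := exists_between h'
        have hm : fB (j + 1) N ≤ fB (j + 1) M :=
          monotone_nat_of_le_succ (f := fB (j + 1)) (fB_mono (j + 1)) hNM
        have h3 : g' < fB (j + 1) M := (h'.trans_le (min_le_right _ _)).trans_le hm
        by_cases hg' : g' ≤ 0
        · exact expB_nonpos M hg'
        simp only [fB] at h3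
        split_ifs at h3 with hM1
        · linarith
        obtain ⟨k, rfl⟩ : ∃ k, M = k + 1 := ⟨M - 1, by omega⟩
        simp only [Nat.add_sub_cancel] at h3
        push_cast at h3
        have hk : (1 : ℝ) ≤ k := by exact_mod_cast (by omega : 1 ≤ k)
        have hE1 := ihd (k + 1 + 1) (by omega) (by omega) g₁ h2
        by_cases h4 : g' < k / 6
        · exact expB_step hE1 (thB_of (by omega) le_rfl (expB_nonpos k le_rfl)) h1 (by linarith)
        · obtain ⟨g₂, h5, h6⟩ := exists_between (show g' - k / 6 < fB j k by linarith)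
          exact expB_step hE1 (thB_of (by omega) (by linarith) (ih k g₂ h6)) h1 (by linarith)
    exact key N₀ N (by omega) le_rfl g (lt_min (by linarith) hg)

theorem expB_two : ExpB 2 (1 / 7) := expB_fB 1 2 _ (by norm_num [fB])
theorem expB_three : ExpB 3 (1 / 4) := expB_fB 1 3 _ (by norm_num [fB])
theorem expB_four : ExpB 4 (2 / 5) := expB_fB 1 4 _ (by norm_num [fB])
theorem expB_five : ExpB 5 (9 / 8) := expB_fB 2 5 _ (by norm_num [fB])
theorem expB_six : ExpB 6 (9 / 4) := expB_fB 4 6 _ (by norm_num [fB])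

theorem pb1 : PB 1 := pb_of le_rfl bv_one expB_three (by norm_num [aN])
theorem pc1 : PC 1 := pc_of le_rfl bv_one cv_one expB_three (by norm_num [aN])
theorem bv2 : BV 2 := bv_of le_rfl (by norm_num) pb1
theorem cv2 : CV 2 := cv_of le_rfl le_rfl (expB_nonpos 1 le_rfl) (by norm_num [aN]) pb1 pc1
theorem pb2 : PB 2 := pb_of (by norm_num) bv2 expB_four (by norm_num [aN])
theorem pc2 : PC 2 := pc_of (by norm_num) bv2 cv2 expB_four (by norm_num [aN])
theorem bv3 : BV 3 := bv_of (by norm_num) le_rfl pb2
theorem cv3 : CV 3 := cv_of (by norm_num) (by norm_num) expB_two (by norm_num [aN]) pb2 pc2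
theorem pb3 : PB 3 := pb_of (by norm_num) bv3 expB_five (by norm_num [aN])
theorem pc3 : PC 3 := pc_of (by norm_num) bv3 cv3 expB_five (by norm_num [aN])
theorem bv4 : BV 4 := bv_four pb3
theorem cv4 : CV4 := cv_four pb3 pc3
theorem ki0 : KI0 := ki0_of bv4 expB_six (by norm_num)
theorem ki1 : KI1 := ki1_of bv4 cv4 expB_six (by norm_num)
theorem kf0 : KF0 := kf0_of ki0 expB_six (by norm_num)
theorem kf1 : KF1 := kf1_of ki0 ki1 expB_six (by norm_num)

end Pool.Agent.TAF.U
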