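import Pool.Agent.P.MP_cb4022_pr.U.RSW3

/-! Number of crossing clusters (paper B4). -/

open scoped Classical symmDiff

noncomputable section

namespace Pool.Agent.TAF.U

/-- `Z` has at least `k` different crossing clusters -/
def Cl (k : ℕ) (Z : Finset Site) (p : Site) (r R : ℝ) : Prop :=
  ∃ W : Finset Site, k ≤ W.card ∧ (∀ b ∈ W, Crs Z p r R b) ∧
    ∀ b ∈ W, ∀ b' ∈ W, Jn Z b b' → b = b'

/-- the number of crossing clusters -/
def ncl (Z : Finset Site) (p : Site) (r R : ℝ) : ℕ :=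
  Nat.findGreatest (fun k => Cl k Z p r R) Z.card

theorem Clus_zero (Z : Finset Site) (p : Site) (r R : ℝ) : Cl 0 Z p r R :=
  ⟨∅, le_rfl, by simp, by simp⟩

theorem Clus_le_card {k : ℕ} {Z : Finset Site} {p : Site} {r R : ℝ} (h : Cl k Z p r R) :
    k ≤ Z.card := by
  obtain ⟨W, h1, h2, -⟩ := h
  exact h1.trans (Finset.card_le_card fun b hb => Finset.mem_coe.1 (h2 b hb).1)

theorem le_ncl {k : ℕ} {Z : Finset Site} {p : Site} {r R : ℝ} : k ≤ ncl Z p r R ↔ Cl k Z p r R := by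
  refine ⟨fun h => ?_, fun h => Nat.le_findGreatest (Clus_le_card h) h⟩
  obtain ⟨W, h1, h2⟩ : Cl (ncl Z p r R) Z p r R :=
    Nat.findGreatest_spec (P := fun k => Cl k Z p r R) (Nat.zero_le _) (Clus_zero Z p r R)
  exact ⟨W, h.trans h1, h2⟩

theorem Clus_crs_mono {X X' : Set Site} (h : X ⊆ X') {p b : Site} {r R : ℝ} (hb : Crs X p r R b) :
    Crs X' p r R b := by
  obtain ⟨h1, ⟨x, hx, h2⟩, y, hy, h3⟩ := hb
  exact ⟨h h1, ⟨x, hx, h2.mono h⟩, y, hy, h3.mono h⟩

theorem Clus_crs_jn {X : Set Site} {p a b : Site} {r R : ℝ} (ha : a ∈ X) (h : Jn X a b)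
    (hb : Crs X p r R b) : Crs X p r R a := by
  obtain ⟨-, ⟨x, hx, h2⟩, y, hy, h3⟩ := hb
  exact ⟨ha, ⟨x, hx, h.trans h2⟩, y, hy, h.trans h3⟩

/-- the sites that are revealed when the cluster of `a` is explored -/
def Clus_X (Y : Finset Site) (a : Site) (S : Finset Site) : Finset Site :=
  Y.filter fun y => y = a ∨ (a ∈ S ∧ ∃ x, Jn S a x ∧ tri.Adj x y)

theorem Clus_mem_X {Y S : Finset Site} {a y : Site} :
    y ∈ Clus_X Y a S ↔ y ∈ Y ∧ (y = a ∨ (a ∈ S ∧ ∃ x, Jn S a x ∧ tri.Adj x y)) :=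
  Finset.mem_filter

/-- the cluster of `a` only depends on the colours of the revealed sites -/
theorem Clus_jn_iff {Y S S' : Finset Site} {a : Site} (hS : S ⊆ Y) (hS' : S' ⊆ Y) (ha : a ∈ S)
    (ha' : a ∈ S') (h : ∀ y ∈ Clus_X Y a S, y ∈ S ↔ y ∈ S') (x : Site) :
    Jn S a x ↔ Jn S' a x := by
  constructor
  · intro hx
    induction hx with
    | refl => exact Jn.refl _ _
    | @tail u v h1 h2 ih =>
      have hv : v ∈ S := h2.2.1
      have hv' : v ∈ S' := (h v (Clus_mem_X.2 ⟨hS hv, Or.inr ⟨ha, u, h1, h2.2.2⟩⟩)).1 hv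
      exact ih.trans (Jn.single (ih.mem ha') hv' h2.2.2)
  · intro hx
    induction hx with
    | refl => exact Jn.refl _ _
    | @tail u v h1 h2 ih =>
      have hv : v ∈ S' := h2.2.1
      have hv' : v ∈ S := (h v (Clus_mem_X.2 ⟨hS' hv, Or.inr ⟨ha, u, ih, h2.2.2⟩⟩)).2 hv
      exact ih.trans (Jn.single (ih.mem ha) hv' h2.2.2)

theorem Clus_X_eq {Y S S' : Finset Site} {a : Site} (hS : S ⊆ Y) (hS' : S' ⊆ Y) (haY : a ∈ Y)
    (h : ∀ y ∈ Clus_X Y a S, y ∈ S ↔ y ∈ S') :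
    Clus_X Y a S' = Clus_X Y a S ∧ ∀ p r R, (Crs S' p r R a ↔ Crs S p r R a) := by
  have ha : a ∈ S ↔ a ∈ S' := h a (Clus_mem_X.2 ⟨haY, Or.inl rfl⟩)
  by_cases h1 : a ∈ S
  · have h2 := ha.1 h1
    have h3 := Clus_jn_iff hS hS' h1 h2 h
    refine ⟨?_, fun p r R => ?_⟩
    · ext y
      simp only [Clus_mem_X, h1, h2, h3]
    · simp only [Crs, Finset.mem_coe, h1, h2, h3]
  · have h2 : a ∉ S' := fun h2 => h1 (ha.2 h2)
    refine ⟨?_, fun p r R => ?_⟩
    · ext y
      simp only [Clus_mem_X, h1, h2, false_and]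
    · simp only [Crs, Finset.mem_coe, h1, h2, false_and]

/-- the other clusters avoid the revealed sites -/
theorem Clus_avoid {Y S : Finset Site} {a b : Site} (hb : b ∈ S) (h : ¬ (a ∈ S ∧ Jn S a b))
    {x : Site} (hx : Jn S b x) : x ∉ Clus_X Y a S := by
  intro hX
  have hxS : x ∈ (S : Set Site) := hx.mem hb
  rcases (Clus_mem_X.1 hX).2 with rfl | ⟨ha, u, h1, h2⟩
  · exact h ⟨hxS, hx.symm⟩
  · exact h ⟨ha, (h1.trans (Jn.single (h1.mem ha) hxS h2)).trans hx.symm⟩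

theorem Clus_crs_sdiff {Y S : Finset Site} {a b p : Site} {r R : ℝ} (hb : Crs S p r R b)
    (h : ¬ (a ∈ S ∧ Jn S a b)) : Crs (S \ Clus_X Y a S : Finset Site) p r R b := by
  have key : ∀ x, Jn S b x → Jn (S \ Clus_X Y a S : Finset Site) b x := by
    intro x hx
    induction hx with
    | refl => exact Jn.refl _ _
    | @tail u v h1 h2 ih =>
      refine ih.trans (Jn.single ?_ ?_ h2.2.2)
      · exact Finset.mem_coe.2 (Finset.mem_sdiff.2 ⟨h2.1, Clus_avoid hb.1 h h1⟩)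
      · exact Finset.mem_coe.2 (Finset.mem_sdiff.2 ⟨h2.2.1, Clus_avoid hb.1 h (h1.tail h2)⟩)
  obtain ⟨h1, ⟨x, hx, h2⟩, y, hy, h3⟩ := hb
  exact ⟨Finset.mem_coe.2 (Finset.mem_sdiff.2 ⟨h1, Clus_avoid h1 h (Jn.refl _ _)⟩),
    ⟨x, hx, key x h2⟩, y, hy, key y h3⟩

theorem Clus_succ {k : ℕ} {S : Finset Site} {p : Site} {r R : ℝ} (h : Cl (k + 1) S p r R)
    (Y : Finset Site) (a : Site) : Cl k (S \ Clus_X Y a S) p r R := by
  obtain ⟨W, h1, h2, h3⟩ := h
  refine ⟨W.filter fun b => ¬ (a ∈ S ∧ Jn S a b), ?_, fun b hb => ?_, fun b hb b' hb' hj => ?_⟩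
  · have h4 : (W.filter fun b => a ∈ S ∧ Jn S a b).card ≤ 1 :=
      Finset.card_le_one.2 fun b hb b' hb' => by
        obtain ⟨hb, -, hj⟩ := Finset.mem_filter.1 hb
        obtain ⟨hb', -, hj'⟩ := Finset.mem_filter.1 hb'
        exact h3 b hb b' hb' (hj.symm.trans hj')
    have h5 := Finset.card_filter_add_card_filter_not (s := W) fun b => a ∈ S ∧ Jn S a b
    omega
  · exact Clus_crs_sdiff (h2 b (Finset.mem_filter.1 hb).1) (Finset.mem_filter.1 hb).2
  · exact h3 b (Finset.mem_filter.1 hb).1 b' (Finset.mem_filter.1 hb').1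
      (hj.mono (Finset.coe_subset.2 Finset.sdiff_subset))

theorem Clus_keep {k : ℕ} {S : Finset Site} {p : Site} {r R : ℝ} (h : Cl k S p r R)
    (Y : Finset Site) {a : Site} (ha : ¬ Crs S p r R a) : Cl k (S \ Clus_X Y a S) p r R := by
  obtain ⟨W, h1, h2, h3⟩ := h
  exact ⟨W, h1, fun b hb => Clus_crs_sdiff (h2 b hb) fun h => ha (Clus_crs_jn h.1 h.2 (h2 b hb)),
    fun b hb b' hb' hj => h3 b hb b' hb' (hj.mono (Finset.coe_subset.2 Finset.sdiff_subset))⟩

theorem Clus_symmDiff_subset {Y X S T : Finset Site} (hS : S ⊆ Y) (hT : T ⊆ Y \ X) :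
    S ∆ T ⊆ Y := fun y hy => by
  rcases Finset.mem_symmDiff.1 hy with h | h
  · exact hS h.1
  · exact (Finset.mem_sdiff.1 (hT h.1)).1

theorem Clus_agree {Y X S T : Finset Site} (hT : T ⊆ Y \ X) : ∀ y ∈ X, y ∈ S ↔ y ∈ S ∆ T := by
  intro y hy
  have h : y ∉ T := fun h => (Finset.mem_sdiff.1 (hT h)).2 hy
  simp [Finset.mem_symmDiff, h]

theorem Clus_sdiff_eq {Y X S T : Finset Site} (hT : T ⊆ Y \ X) :
    (S ∆ T) \ X = T ∆ (S \ X) := by
  ext y
  have h : y ∈ T → y ∉ X := fun h => (Finset.mem_sdiff.1 (hT h)).2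
  simp only [Finset.mem_sdiff, Finset.mem_symmDiff]
  tauto

theorem Clus_pr_shift {D S₀ : Finset Site} (h : S₀ ⊆ D) (P : Finset Site → Prop) :
    pr D.powerset (fun S => P (S ∆ S₀)) = pr D.powerset P :=
  avg_shift h fun S => if P S then (1 : ℝ) else 0

/-- one more crossing cluster -/
theorem Clus_step {r R c : ℝ} (hc : 0 ≤ c) (p : Site) (k : ℕ)
    (hk : ∀ Y : Finset Site, pr Y.powerset (fun S => Cl k S p r R) ≤ c) (Y : Finset Site) :
    pr Y.powerset (fun S => Cl (k + 1) S p r R) ≤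
      c * pr Y.powerset fun S => ∃ b, Crs S p r R b := by
  induction Y using Finset.strongInduction with
  | H Y ih =>
  rcases Y.eq_empty_or_nonempty with rfl | ⟨a, ha⟩
  · refine avg_le (mul_nonneg hc (pr_nonneg _ _)) fun S hS => ?_
    have h0 : S = ∅ := by simpa using hS
    have h1 : ¬ Cl (k + 1) S p r R := fun h => by simpa [h0] using Clus_le_card h
    rw [if_neg h1]
    exact mul_nonneg hc (pr_nonneg _ _)
  have hm := fun f : Finset Site → ℝ => markov_act Y.powerset (fun S T => S ∆ T)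
    (fun S => (Y \ Clus_X Y a S).powerset) (fun S _ => ⟨∅, Finset.empty_mem_powerset _⟩)
    (fun S hS T hT => by
      have hS := Finset.mem_powerset.1 hS
      have hT := Finset.mem_powerset.1 hT
      have h1 := Clus_symmDiff_subset hS hT
      refine ⟨Finset.mem_powerset.2 h1, ?_, symmDiff_symmDiff_cancel_right _ _⟩
      rw [(Clus_X_eq hS h1 ha (Clus_agree hT)).1]) f
  unfold pr
  rw [hm, hm fun S => if ∃ b, Crs S p r R b then 1 else 0, ← avg_mul_left]
  refine avg_mono fun S hS => ?_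
  have hS := Finset.mem_powerset.1 hS
  set X := Clus_X Y a S with hX
  have hS0 : S \ X ⊆ Y \ X := Finset.sdiff_subset_sdiff hS le_rfl
  have hT : ∀ T ∈ (Y \ X).powerset, (S ∆ T) \ Clus_X Y a (S ∆ T) = T ∆ (S \ X) ∧
      (Crs (S ∆ T : Finset Site) p r R a ↔ Crs S p r R a) := fun T hT => by
    have hT := Finset.mem_powerset.1 hT
    obtain ⟨h1, h2⟩ := Clus_X_eq hS (Clus_symmDiff_subset hS hT) ha (Clus_agree hT)
    exact ⟨by rw [h1, Clus_sdiff_eq hT], h2 p r R⟩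
  change pr (Y \ X).powerset (fun T => Cl (k + 1) (S ∆ T) p r R) ≤
    c * pr (Y \ X).powerset fun T => ∃ b, Crs (S ∆ T : Finset Site) p r R b
  by_cases hcr : Crs S p r R a
  · have h1 : pr (Y \ X).powerset (fun T => ∃ b, Crs (S ∆ T : Finset Site) p r R b) = 1 := by
      unfold pr
      rw [avg_congr fun T h => if_pos ⟨a, (hT T h).2.2 hcr⟩]
      exact avg_const ⟨∅, Finset.empty_mem_powerset _⟩ _
    rw [h1, mul_one]
    refine le_trans ?_ (hk (Y \ X))
    rw [← Clus_pr_shift hS0 fun T => Cl k T p r R]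
    refine pr_mono fun T h h2 => ?_
    rw [← (hT T h).1]
    exact Clus_succ h2 Y a
  · have hlt : Y \ X ⊂ Y :=
      Finset.sdiff_ssubset (Finset.filter_subset _ _) ⟨a, Clus_mem_X.2 ⟨ha, Or.inl rfl⟩⟩
    have h1 := ih _ hlt
    rw [← Clus_pr_shift hS0 fun T => Cl (k + 1) T p r R,
      ← Clus_pr_shift hS0 fun T => ∃ b, Crs T p r R b] at h1
    refine le_trans (pr_mono fun T h h2 => ?_) (h1.trans (mul_le_mul_of_nonneg_left
      (pr_mono fun T h h2 => ?_) hc))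
    · rw [← (hT T h).1]
      exact Clus_keep h2 Y fun h3 => hcr ((hT T h).2.1 h3)
    · obtain ⟨b, hb⟩ := h2
      rw [← (hT T h).1] at hb
      exact ⟨b, Clus_crs_mono (Finset.coe_subset.2 Finset.sdiff_subset) hb⟩

theorem Clus_tail {r R q : ℝ} (h : ArmB r R q) (p : Site) (k : ℕ) (Y : Finset Site) :
    pr Y.powerset (fun S => Cl k S p r R) ≤ q ^ k := by
  induction k generalizing Y with
  | zero => simpa using pr_le_one _ _
  | succ k ih =>
    have h0 := pow_nonneg h.nonneg k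
    rw [pow_succ]
    exact (Clus_step h0 p k ih Y).trans (mul_le_mul_of_nonneg_left (h p Y) h0)

/-- Induction on `k`, for all `Y`. Fix an order of the sites, reveal the blue clusters (with
their neighbours in `Y`) up to the first crossing one; `markov_act`. -/
theorem cl_tail {r R q : ℝ} (h : ArmB r R q) (p : Site) (k : ℕ) (Y : Finset Site) :
    pr Y.powerset (fun S => Cl k (Y \ S) p r R) ≤ q ^ k := by
  have e : pr Y.powerset (fun S => Cl k (Y \ S) p r R) = pr Y.powerset fun S => Cl k S p r R :=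
    avg_compl Y fun S => if Cl k S p r R then (1 : ℝ) else 0
  rw [e]
  exact Clus_tail h p k Y

theorem Clus_sq {m n : ℕ} (h : m ≤ n) : (m : ℝ) ^ 2 =
    ∑ j ∈ Finset.range n, (2 * (j : ℝ) + 1) * if j + 1 ≤ m then 1 else 0 := by
  have h1 : ∀ m : ℕ, (m : ℝ) ^ 2 = ∑ j ∈ Finset.range m, (2 * (j : ℝ) + 1) := fun m => by
    induction m with
    | zero => simp
    | succ m ih =>
      rw [Finset.sum_range_succ, ← ih]
      push_cast
      ring
  rw [h1, ← Finset.sum_subset (Finset.range_subset_range.2 h) fun j _ hj => ?_]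
  · refine Finset.sum_congr rfl fun j hj => ?_
    rw [if_pos (show j + 1 ≤ m from Finset.mem_range.1 hj), mul_one]
  · rw [if_neg fun h : j + 1 ≤ m => hj (Finset.mem_range.2 h), mul_zero]

theorem Clus_sum (n : ℕ) : ∑ j ∈ Finset.range n, (2 * (j : ℝ) + 1) * (1 / 2) ^ (j + 1) =
    3 - (2 * n + 3) * (1 / 2) ^ n := by
  induction n with
  | zero => simp
  | succ n ih =>
    rw [Finset.sum_range_succ, ih]
    push_cast
    ring

theorem ncl_sq {r R : ℝ} (h : ArmB r R (1 / 2)) (p : Site) (Y : Finset Site) :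
    avg Y.powerset (fun S => (ncl (Y \ S) p r R : ℝ) ^ 2) ≤ 3 := by
  have h1 : ∀ S ∈ Y.powerset, (ncl (Y \ S) p r R : ℝ) ^ 2 = ∑ j ∈ Finset.range Y.card,
      (2 * (j : ℝ) + 1) * if Cl (j + 1) (Y \ S) p r R then 1 else 0 := fun S _ => by
    have h0 : ncl (Y \ S) p r R ≤ Y.card :=
      (Nat.findGreatest_le _).trans (Finset.card_le_card Finset.sdiff_subset)
    rw [Clus_sq h0]
    simp only [le_ncl]
  rw [avg_congr h1, avg_sum]
  have h2 : ∀ j ∈ Finset.range Y.card, avg Y.powerset (fun S => (2 * (j : ℝ) + 1) *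
      if Cl (j + 1) (Y \ S) p r R then 1 else 0) ≤ (2 * (j : ℝ) + 1) * (1 / 2) ^ (j + 1) :=
    fun j _ => by
      rw [avg_mul_left]
      exact mul_le_mul_of_nonneg_left (cl_tail h p (j + 1) Y) (by positivity)
  refine (Finset.sum_le_sum h2).trans ?_
  rw [Clus_sum]
  have : (0 : ℝ) ≤ (2 * Y.card + 3) * (1 / 2) ^ Y.card := by positivity
  linarith

theorem ncl_mean {r R : ℝ} (h : ArmB r R (1 / 2)) (p : Site) (Y : Finset Site) :
    avg Y.powerset (fun S => (ncl (Y \ S) p r R : ℝ)) ≤ 3 := by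
  refine (avg_mono fun S _ => ?_).trans (ncl_sq h p Y)
  exact_mod_cast Nat.le_self_pow two_ne_zero _

theorem Clus_inner {Z : Finset Site} {p b : Site} {r R r' R' : ℝ} (h : Crs Z p r R b)
    (h1 : r ≤ r') (h2 : R' ≤ R) (h3 : r' + 2 ≤ R') :
    ∃ c, Jn Z b c ∧ Crs (Z ∩ ann p r' R' : Finset Site) p (r' + 1) (R' - 1) c := by
  obtain ⟨hb, ⟨x, hx, hbx⟩, y, hy, hby⟩ := h
  obtain ⟨c, y', j1, hc, hy', a1, -⟩ := (hbx.symm.trans hby).exit (Z := {z | dst z p ≤ R'})
    (hbx.mem hb) (show dst x p ≤ R' by linarith) (show ¬ dst y p ≤ R' by push Not; linarith)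
  have d1 : R' - 1 < dst c p := by
    have e1 : ¬ dst y' p ≤ R' := hy'.2
    have e2 := dst_tri y' c p
    rw [dst_adj a1.symm] at e2
    linarith [not_le.1 e1]
  obtain ⟨u, v, j2, -, hv, a2, -⟩ := j1.symm.exit (Z := {z | r' < dst z p}) hc
    (show r' < dst c p by linarith) (show ¬ r' < dst x p by push Not; linarith)
  have d2 : dst u p ≤ r' + 1 := by
    have e1 : ¬ r' < dst v p := hv.2
    have e2 := dst_tri u v p
    rw [dst_adj a2] at e2
    linarith [not_lt.1 e1]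
  have hsub : (Z : Set Site) ∩ {z | dst z p ≤ R'} ∩ {z | r' < dst z p} ⊆
      (Z ∩ ann p r' R' : Finset Site) := fun z hz =>
    Finset.mem_coe.2 (Finset.mem_inter.2 ⟨hz.1.1, mem_ann.2 ⟨hz.2, hz.1.2⟩⟩)
  exact ⟨c, hbx.trans (j1.mono Set.inter_subset_left),
    hsub ⟨hc, show r' < dst c p by linarith⟩, ⟨u, d2, j2.mono hsub⟩, c, d1, Jn.refl _ _⟩

/-- different clusters of `Z` that cross contain different crossing clusters of the part of `Z` in
an annulus -/
theorem Cl.restrict {k : ℕ} {Z : Finset Site} {p : Site} {r R r' R' : ℝ} (h : Cl k Z p r R)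
    (h1 : r ≤ r') (h2 : R' ≤ R) (h3 : r' + 2 ≤ R') :
    Cl k (Z ∩ ann p r' R') p (r' + 1) (R' - 1) := by
  obtain ⟨W, w1, w2, w3⟩ := h
  choose! c hc using fun b (hb : b ∈ W) => Clus_inner (w2 b hb) h1 h2 h3
  have key : ∀ b ∈ W, ∀ b' ∈ W, Jn Z (c b) (c b') → b = b' := fun b hb b' hb' hj =>
    w3 b hb b' hb' (((hc b hb).1.trans hj).trans (hc b' hb').1.symm)
  refine ⟨W.image c, ?_, ?_, ?_⟩
  · have hi : Set.InjOn c W := fun b hb b' hb' e => key b hb b' hb' (e ▸ Jn.refl _ _)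
    rwa [Finset.card_image_of_injOn hi]
  · intro x hx
    obtain ⟨b, hb, rfl⟩ := Finset.mem_image.1 hx
    exact (hc b hb).2
  · intro x hx x' hx' hj
    obtain ⟨b, hb, rfl⟩ := Finset.mem_image.1 hx
    obtain ⟨b', hb', rfl⟩ := Finset.mem_image.1 hx'
    rw [key b hb b' hb' (hj.mono (Finset.coe_subset.2 Finset.inter_subset_left))]

end Pool.Agent.TAF.U
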