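import Pool.Agent.P.MP_cb4022_pr.U.Pot
import Pool.Agent.P.MP_677d31_pr.Riemann

/-! The conformal map of a lattice domain (paper E1, E4). -/

open scoped Classical symmDiff
open Metric

noncomputable section

namespace Pool.Agent.TAF.U

/-- the union of the discs round the sites of `D` -/
def OmD (D : Finset Site) : Set ℂ := ⋃ x ∈ D, ball (pos x) 0.7

theorem mem_OmD {D : Finset Site} {z : ℂ} : z ∈ OmD D ↔ ∃ x ∈ D, ‖pos x - z‖ < 0.7 := by
  simp only [OmD, Set.mem_iUnion, mem_ball, dist_eq_norm, exists_prop, norm_sub_rev z]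
theorem pos_mem_OmD {D : Finset Site} {x : Site} : pos x ∈ OmD D ↔ x ∈ D := by
  rw [mem_OmD]
  refine ⟨?_, fun h => ⟨x, h, by rw [sub_self, norm_zero]; norm_num⟩⟩
  rintro ⟨y, hy, h⟩
  by_cases e : y = x
  · exact e ▸ hy
  · have := one_le_dst e
    rw [dst] at this
    linarith
theorem isOpen_OmD (D : Finset Site) : IsOpen (OmD D) := by
  exact isOpen_biUnion fun _ _ => isOpen_ball
theorem seg_sub_OmD {D : Finset Site} {a b : Site} (ha : a ∈ D) (hb : b ∈ D)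
    (h : a = b ∨ tri.Adj a b) : segment ℝ (pos a) (pos b) ⊆ OmD D := by
  have h1 : ‖pos a - pos b‖ ≤ 1 := by
    rcases h with rfl | h
    · simp
    · exact (dst_adj h).le
  rintro z ⟨s, t, hs, ht, hst, rfl⟩
  rw [mem_OmD]
  have hs' : s = 1 - t := by linarith
  by_cases h2 : t ≤ 1 / 2
  · refine ⟨a, ha, ?_⟩
    have e : pos a - (s • pos a + t • pos b) = t • (pos a - pos b) := by
      rw [hs']
      module
    rw [e, norm_smul, Real.norm_of_nonneg ht]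
    have := mul_le_mul_of_nonneg_left h1 ht
    linarith
  · refine ⟨b, hb, ?_⟩
    have e : pos b - (s • pos a + t • pos b) = (-s) • (pos a - pos b) := by
      rw [hs']
      module
    rw [e, norm_smul, norm_neg, Real.norm_of_nonneg hs]
    have := mul_le_mul_of_nonneg_left h1 hs
    linarith
theorem preconn_OmD {D : Finset Site} (h : SConn D) : IsPreconnected (OmD D) := by
  have key : ∀ a ∈ D, ∀ b, Jn D a b →
      ∃ t ⊆ OmD D, IsPreconnected t ∧ pos a ∈ t ∧ pos b ∈ t := by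
    intro a ha b hab
    induction hab with
    | refl =>
      exact ⟨{pos a}, Set.singleton_subset_iff.2 (pos_mem_OmD.2 ha), isPreconnected_singleton,
        rfl, rfl⟩
    | @tail b c _ hbc ih =>
      obtain ⟨t, h1, h2, h3, h4⟩ := ih
      exact ⟨t ∪ segment ℝ (pos b) (pos c),
        Set.union_subset h1 (seg_sub_OmD hbc.1 hbc.2.1 (Or.inr hbc.2.2)),
        h2.union (pos b) h4 (left_mem_segment _ _ _) (convex_segment _ _).isPreconnected,
        Or.inl h3, Or.inr (right_mem_segment _ _ _)⟩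
  have hb : ∀ a ∈ D, ball (pos a) 0.7 ⊆ OmD D := fun a ha =>
    Set.subset_biUnion_of_mem (u := fun x => ball (pos x) 0.7) ha
  refine isPreconnected_of_forall_pair fun x hx y hy => ?_
  obtain ⟨a, ha, hxa⟩ := Set.mem_iUnion₂.1 hx
  obtain ⟨b, hb', hyb⟩ := Set.mem_iUnion₂.1 hy
  obtain ⟨t, h1, h2, h3, h4⟩ := key a ha b (h a ha b hb')
  have h0 : (0 : ℝ) < 0.7 := by norm_num
  refine ⟨(ball (pos a) 0.7 ∪ t) ∪ ball (pos b) 0.7,
    Set.union_subset (Set.union_subset (hb a ha) h1) (hb b hb'), Or.inl (Or.inl hxa), Or.inr hyb,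
    ?_⟩
  exact ((convex_ball _ _).isPreconnected.union (pos a) (mem_ball_self h0) h3 h2).union (pos b)
    (Or.inr h4) (mem_ball_self h0) (convex_ball _ _).isPreconnected
theorem ball_sub_OmD {D : Finset Site} {R : ℝ} (h : bal 0 R ⊆ D) : ball 0 (R - 1) ⊆ OmD D := by
  intro z hz
  obtain ⟨x, hx⟩ := exists_near z
  rw [mem_ball_zero_iff] at hz
  refine mem_OmD.2 ⟨x, h (mem_bal.2 ?_), by linarith⟩
  rw [dst_zero]
  have := norm_le_norm_sub_add (pos x) z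
  linarith
theorem OmD_sub_ball {D : Finset Site} {R : ℝ} (h : D ⊆ bal 0 R) : OmD D ⊆ ball 0 (R + 1) := by
  intro z hz
  obtain ⟨x, hx, h1⟩ := mem_OmD.1 hz
  have h2 := mem_bal.1 (h hx)
  rw [dst_zero] at h2
  rw [mem_ball_zero_iff]
  have := norm_le_norm_sub_add z (pos x)
  rw [norm_sub_rev] at this
  linarith

theorem Conf_centre (t : Tri) : ∃ w : ℂ, ∀ i, w ∈ ball (pos (vtx t i)) 0.7 := by
  refine ⟨(pos (vtx t 0) + pos (vtx t 1) + pos (vtx t 2)) / 3, fun i => ?_⟩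
  have key : ∀ a b c : ℂ, ‖b - a‖ ≤ 1 → ‖c - a‖ ≤ 1 → (a + b + c) / 3 ∈ ball a 0.7 := by
    intro a b c h1 h2
    have e : (a + b + c) / 3 - a = ((b - a) + (c - a)) / 3 := by ring
    have h3 := norm_add_le (b - a) (c - a)
    rw [mem_ball, dist_eq_norm, e, norm_div, Complex.norm_ofNat]
    linarith
  fin_cases i
  · exact key _ _ _ (dst_vtx t 1 0) (dst_vtx t 2 0)
  · rw [add_comm (pos (vtx t 0))]
    exact key _ _ _ (dst_vtx t 0 1) (dst_vtx t 2 1)
  · rw [add_comm, ← add_assoc]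
    exact key _ _ _ (dst_vtx t 0 2) (dst_vtx t 1 2)

/-- Local logarithms on the (convex) discs. Two discs meet only for equal or adjacent sites; the
integer cocycle on the edges inside `D` is closed on the triangles inside `D` (the centre of the
triangle is in the three discs); `col` with `T = Dᶜ`; glue. -/
theorem hasLogs_OmD {D : Finset Site} (h : SConn (D : Set Site)ᶜ) :
    Pool.Agent.P.MP_677d31_pr.HasLogs (OmD D) := by
  intro F hF hF0
  have h0 : (0 : ℝ) < 0.7 := by norm_num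
  have hb : ∀ a ∈ D, ball (pos a) 0.7 ⊆ OmD D := fun a ha =>
    Set.subset_biUnion_of_mem (u := fun x => ball (pos x) 0.7) ha
  have h1 : ∀ x : Site, ∃ l : ℂ → ℂ, x ∈ D → ContinuousOn l (ball (pos x) 0.7) ∧
      ∀ w ∈ ball (pos x) 0.7, Complex.exp (l w) = F w := by
    intro x
    by_cases hx : x ∈ D
    · have : ContractibleSpace (ball (pos x) 0.7) :=
        (convex_ball _ _).contractibleSpace ⟨_, mem_ball_self h0⟩
      obtain ⟨l, k1, k2⟩ := Complex.exists_continuousOn_eqOn_exp_comp (U := ball (pos x) 0.7)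
        (SimplyConnectedSpace.ofContractible _) isOpen_ball (hF.mono (hb x hx))
        (fun ⟨w, hw, h⟩ => hF0 w (hb x hx hw) h)
      exact ⟨l, fun _ => ⟨k1, k2⟩⟩
    · exact ⟨0, fun h => absurd h hx⟩
  choose l hl using h1
  have h2 : ∀ x y : Site, ∃ n : ℤ, x ∈ D → y ∈ D → ∀ w ∈ ball (pos x) 0.7,
      w ∈ ball (pos y) 0.7 → l x w - l y w = n • (2 * Real.pi * Complex.I) := by
    intro x y
    by_cases hne : x ∈ D ∧ y ∈ D ∧ (ball (pos x) 0.7 ∩ ball (pos y) 0.7).Nonempty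
    · obtain ⟨hx, hy, w₀, hw₀⟩ := hne
      have he : ∀ w ∈ ball (pos x) 0.7 ∩ ball (pos y) 0.7, Complex.exp (l x w - l y w) = 1 :=
        fun w hw => by
          rw [Complex.exp_sub, (hl x hx).2 w hw.1, (hl y hy).2 w hw.2,
            div_self (hF0 w (hb x hx hw.1))]
      obtain ⟨n, hn⟩ := Complex.exp_eq_one_iff.1 (he w₀ hw₀)
      refine ⟨n, fun _ _ w hw hw' => ?_⟩
      rw [zsmul_eq_mul, ← hn]
      exact Complex.isCoveringMap_exp.constOn_of_comp (g := fun w => l x w - l y w)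
        ((convex_ball _ _).inter (convex_ball _ _)).isPreconnected
        (((hl x hx).1.mono Set.inter_subset_left).sub ((hl y hy).1.mono Set.inter_subset_right))
        (fun a ha a' ha' => Subtype.ext ((he a ha).trans (he a' ha').symm)) ⟨hw, hw'⟩ hw₀
    · exact ⟨0, fun hx hy w hw hw' => absurd ⟨hx, hy, w, hw, hw'⟩ hne⟩
  choose n hn using h2
  have hc : (2 * Real.pi * Complex.I : ℂ) ≠ 0 := Complex.two_pi_I_ne_zero
  obtain ⟨Φ, -, hΦ⟩ := col (fun e => if Inside e D then n (lft e) (rgt e) else 0)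
    ((touchE D).finite_toSet.subset fun e he => mem_touchE.2
      (Or.inl (by_contra fun h3 => he (if_neg fun h4 => h3 h4.1)))) h (by
      intro t ht
      by_contra h3
      have h4 : ∀ i, vtx t i ∈ D := fun i => by_contra fun h5 => h3 ⟨i, h5⟩
      obtain ⟨w, hw⟩ := Conf_centre t
      apply ht
      have h5 := Pot_smul (fun e => if Inside e D then n (lft e) (rgt e) else 0)
        (2 * Real.pi * Complex.I : ℂ) t
      rw [dv_congr (ψ := cob fun x => l x w), dv_cob] at h5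
      · exact (smul_eq_zero.1 h5.symm).resolve_right hc
      · intro i
        have h6 : Inside (side t i) D := inside_side.2 ⟨h4 _, h4 _⟩
        rw [if_pos h6, cob]
        refine (hn _ _ h6.1 h6.2 w ?_ ?_).symm
        · rw [lft_side]
          split_ifs <;> exact hw _
        · rw [rgt_side]
          split_ifs <;> exact hw _)
  have h3 : ∀ e, lft e ∈ D → rgt e ∈ D → ∀ w ∈ ball (pos (lft e)) 0.7,
      w ∈ ball (pos (rgt e)) 0.7 → l (lft e) w - Φ (lft e) • (2 * Real.pi * Complex.I) =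
        l (rgt e) w - Φ (rgt e) • (2 * Real.pi * Complex.I) := by
    intro e h4 h5 w hw hw'
    have h6 := hΦ e fun h7 => h7.elim (fun h8 => h8 h4) fun h8 => h8 h5
    rw [if_pos ⟨h4, h5⟩, cob] at h6
    have h7 := hn _ _ h4 h5 w hw hw'
    rw [← h6, sub_smul] at h7
    linear_combination h7
  have h4 : ∀ x ∈ D, ∀ y ∈ D, ∀ w ∈ ball (pos x) 0.7, w ∈ ball (pos y) 0.7 →
      l x w - Φ x • (2 * Real.pi * Complex.I) = l y w - Φ y • (2 * Real.pi * Complex.I) := by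
    intro x hx y hy w hw hw'
    have h5 : dst x y < 1.7 := by
      have := dist_triangle_left (pos x) (pos y) w
      rw [mem_ball] at hw hw'
      rw [dst, ← dist_eq_norm]
      linarith
    rcases adj_of_dst h5 with rfl | h6
    · rfl
    · obtain ⟨e, ⟨rfl, rfl⟩ | ⟨rfl, rfl⟩⟩ := adj_iff.1 h6
      · exact h3 e hx hy w hw hw'
      · exact (h3 e hy hx w hw' hw).symm
  have h5 : ∀ w, ∃ x : Site, w ∈ OmD D → x ∈ D ∧ w ∈ ball (pos x) 0.7 := by
    intro w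
    by_cases hw : w ∈ OmD D
    · obtain ⟨x, hx, hx'⟩ := Set.mem_iUnion₂.1 hw
      exact ⟨x, fun _ => ⟨hx, hx'⟩⟩
    · exact ⟨0, fun h => absurd h hw⟩
  choose c hcw using h5
  refine ⟨fun w => l (c w) w - Φ (c w) • (2 * Real.pi * Complex.I), fun w hw => ?_,
    fun w hw => ?_⟩
  · obtain ⟨k1, k2⟩ := hcw w hw
    have k3 : ContinuousOn (fun u => l (c w) u - Φ (c w) • (2 * Real.pi * Complex.I))
        (ball (pos (c w)) 0.7) := (hl _ k1).1.sub continuousOn_const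
    refine ((k3.congr fun u hu => ?_).continuousAt (isOpen_ball.mem_nhds k2)).continuousWithinAt
    obtain ⟨k4, k5⟩ := hcw u (hb _ k1 hu)
    exact h4 _ k4 _ k1 u k5 hu
  · obtain ⟨k1, k2⟩ := hcw w hw
    rw [Complex.exp_sub, zsmul_eq_mul, Complex.exp_int_mul_two_pi_mul_I, div_one]
    exact (hl _ k1).2 w k2

/-- Riemann map `ψ` with inverse `φ` and `ψ z = z * exp (G z)`; `ψ' 0 = exp (re (G 0))` -/
structure CM (Ω : Set ℂ) (ψ φ G : ℂ → ℂ) : Prop where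
  isOpen : IsOpen Ω
  zero : (0 : ℂ) ∈ Ω
  dψ : DifferentiableOn ℂ ψ Ω
  dφ : DifferentiableOn ℂ φ (ball 0 1)
  dG : DifferentiableOn ℂ G Ω
  mψ : Set.MapsTo ψ Ω (ball 0 1)
  mφ : Set.MapsTo φ (ball 0 1) Ω
  inv1 : ∀ z ∈ Ω, φ (ψ z) = z
  inv2 : ∀ w ∈ ball (0 : ℂ) 1, ψ (φ w) = w
  expG : ∀ z ∈ Ω, ψ z = z * Complex.exp (G z)
  imG : (G 0).im = 0
  koebe : ∀ z ∉ Ω, 1 ≤ 64 * ‖z‖ * Real.exp (G 0).re

/-- Redo the last lines of `riemann` in `MP_677d31_pr/Riemann.lean` (`RM.exists_max`,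
`RM.improve`, `RM.koebe`; `RM.Fam` has injectivity), multiply by a unit constant; `G` is a
logarithm of `dslope ψ 0`; the inverse is holomorphic by the open mapping or inverse function
theorem. -/
theorem exists_CM {Ω : Set ℂ} (ho : IsOpen Ω) (hc : IsPreconnected Ω) (h0 : (0 : ℂ) ∈ Ω) {M : ℝ}
    (hb : Ω ⊆ ball 0 M) (hl : Pool.Agent.P.MP_677d31_pr.HasLogs Ω) : ∃ ψ φ G, CM Ω ψ φ G := by
  have hR : 0 < M := nonempty_ball.1 ⟨0, hb h0⟩
  have hR' : (M : ℂ) ≠ 0 := by exact_mod_cast hR.ne'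
  have d0 : ∀ u : ℂ, HasDerivAt (fun u => u / (M : ℂ)) (1 / M) u := fun u =>
    (hasDerivAt_id u).div_const _
  have h₀ : Pool.Agent.P.MP_677d31_pr.RM.Fam Ω 0 (fun u => u / (M : ℂ)) :=
    ⟨fun u _ => (d0 u).differentiableAt.differentiableWithinAt,
      fun u _ w _ h => by simpa [hR'] using h,
      fun u hu => by
        rw [norm_div, Complex.norm_real, Real.norm_of_nonneg hR.le, div_lt_one hR]
        exact mem_ball_zero_iff.1 (hb hu),
      by simp, fun u _ => by rw [(d0 u).deriv]; simpa using hR'⟩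
  obtain ⟨f, hf, hmax⟩ := Pool.Agent.P.MP_677d31_pr.RM.exists_max ho hc h0 h₀
  have hne : Ωᶜ.Nonempty := ⟨M, fun h => by
    have := mem_ball_zero_iff.1 (hb h)
    simp [abs_of_pos hR] at this⟩
  have hs : ∀ a : ℂ, ‖a‖ < 1 → ∃ w ∈ Ω, f w = a := fun a ha => by
    by_contra h
    push Not at h
    obtain ⟨g, hg, hlt⟩ := Pool.Agent.P.MP_677d31_pr.RM.improve ho hl h0 hf ha h
    exact absurd (hmax g hg) (not_le.2 hlt)
  have hk := Pool.Agent.P.MP_677d31_pr.RM.koebe ho hl hne hf hs h0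
  have hd : DifferentiableOn ℂ (dslope f 0) Ω :=
    (Complex.differentiableOn_dslope (ho.mem_nhds h0)).2 hf.diff
  have hm : ∀ z, f z = z * dslope f 0 z := fun z => by
    have := sub_smul_dslope f 0 z
    rw [sub_zero, hf.zero, sub_zero, smul_eq_mul] at this
    exact this.symm
  obtain ⟨L, hL, hLe⟩ := hl (dslope f 0) hd.continuousOn fun z hz h => by
    by_cases e : z = 0
    · rw [e, dslope_same] at h
      exact hf.der 0 h0 h
    · exact e (hf.inj hz h0 (by rw [hm z, h, mul_zero, hf.zero]))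
  have dL : DifferentiableOn ℂ L Ω := fun w hw =>
    (HasDerivAt.of_comp_left (f := Complex.exp) (hL.continuousAt (ho.mem_nhds hw))
      (Complex.hasDerivAt_exp _) (hd.differentiableAt (ho.mem_nhds hw)).hasDerivAt
      (Complex.exp_ne_zero _)
      (by filter_upwards [ho.mem_nhds hw] with u hu using hLe u hu)).differentiableAt.differentiableWithinAt
  obtain ⟨θ, hθ⟩ : ∃ θ : ℂ, θ = ((L 0).im : ℂ) * Complex.I := ⟨_, rfl⟩
  have n1 : ‖Complex.exp θ‖ = 1 := by rw [hθ, Complex.norm_exp_ofReal_mul_I]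
  have n2 : ‖Complex.exp (-θ)‖ = 1 := by rw [Complex.exp_neg, norm_inv, n1, inv_one]
  have n3 : Complex.exp θ * Complex.exp (-θ) = 1 := by
    rw [← Complex.exp_add, add_neg_cancel, Complex.exp_zero]
  have : Nonempty ℂ := ⟨0⟩
  obtain ⟨j, hj⟩ : ∃ j : ℂ → ℂ, ∀ u ∈ Ω, j (f u) = u :=
    ⟨Function.invFunOn f Ω, fun u hu => hf.inj.leftInvOn_invFunOn hu⟩
  have dj : ∀ u ∈ Ω, DifferentiableAt ℂ j (f u) := fun u hu =>
    ((hf.diff.analyticAt (ho.mem_nhds hu)).hasStrictDerivAt.to_local_left_inverse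
      (hf.der u hu) (g := j)
      (by filter_upwards [ho.mem_nhds hu] with v hv using hj v hv)).hasDerivAt.differentiableAt
  have hs' : ∀ w ∈ ball (0 : ℂ) 1, ∃ u ∈ Ω, f u = Complex.exp θ * w := fun w hw =>
    hs _ (by rw [norm_mul, n1, one_mul]; exact mem_ball_zero_iff.1 hw)
  refine ⟨fun z => Complex.exp (-θ) * f z, fun w => j (Complex.exp θ * w), fun z => L z - θ,
    ho, h0, hf.diff.const_mul _, fun w hw => ?_, dL.sub_const _, fun z hz => ?_, fun w hw => ?_,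
    fun z hz => ?_, fun w hw => ?_, fun z hz => ?_, ?_, fun z hz => ?_⟩
  · obtain ⟨u, hu, e⟩ := hs' w hw
    have h1 := dj u hu
    rw [e] at h1
    exact (h1.comp w (differentiableAt_id.const_mul _)).differentiableWithinAt
  · rw [mem_ball_zero_iff, norm_mul, n2, one_mul]
    exact hf.maps z hz
  · obtain ⟨u, hu, e⟩ := hs' w hw
    rw [← e, hj u hu]
    exact hu
  · rw [← mul_assoc, n3, one_mul, hj z hz]
  · obtain ⟨u, hu, e⟩ := hs' w hw
    rw [← e, hj u hu, e, ← mul_assoc, mul_comm (Complex.exp (-θ)), n3, one_mul]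
  · rw [sub_eq_add_neg, Complex.exp_add, hLe z hz, hm z]
    ring
  · rw [hθ]
    simp
  · have e1 : Real.exp (L 0 - θ).re = ‖deriv f 0‖ := by
      rw [← Complex.norm_exp, sub_eq_add_neg, Complex.exp_add, norm_mul, n2, mul_one, hLe 0 h0,
        dslope_same]
    have e2 : infDist 0 Ωᶜ ≤ ‖z‖ := by
      have := infDist_le_dist_of_mem (x := (0 : ℂ)) (show z ∈ Ωᶜ from hz)
      rwa [dist_zero_left] at this
    rw [hf.zero, norm_zero, sub_zero] at hk
    rw [e1]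
    refine hk.trans (mul_le_mul_of_nonneg_right ?_ (norm_nonneg _))
    linarith

/-- small connected sets have small images -/
def Wolff (Ω : Set ℂ) (ψ : ℂ → ℂ) (d ε : ℝ) : Prop :=
  ∀ C ⊆ Ω, IsPreconnected C → (∀ a ∈ C, ∀ b ∈ C, ‖a - b‖ ≤ d) →
    ∀ a ∈ C, ∀ b ∈ C, ‖ψ a - ψ b‖ ≤ ε

theorem Wolff.mono {Ω : Set ℂ} {ψ : ℂ → ℂ} {d ε d' ε' : ℝ} (h : Wolff Ω ψ d ε) (h1 : d' ≤ d)
    (h2 : ε ≤ ε') : Wolff Ω ψ d' ε' := fun C hC hp hd a ha b hb =>
  (h C hC hp (fun a ha b hb => (hd a ha b hb).trans h1) a ha b hb).trans h2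

namespace CM
variable {Ω : Set ℂ} {ψ φ G : ℂ → ℂ} {d M : ℝ}

theorem psi_zero (h : CM Ω ψ φ G) : ψ 0 = 0 := by rw [h.expG 0 h.zero, zero_mul]
theorem phi_zero (h : CM Ω ψ φ G) : φ 0 = 0 := by simpa [h.psi_zero] using h.inv1 0 h.zero
theorem psi_ne (h : CM Ω ψ φ G) {z : ℂ} (hz : z ∈ Ω) (h0 : z ≠ 0) : ψ z ≠ 0 := by
  rw [h.expG z hz]; exact mul_ne_zero h0 (Complex.exp_ne_zero _)
theorem norm_lt (h : CM Ω ψ φ G) {z : ℂ} (hz : z ∈ Ω) : ‖ψ z‖ < 1 := by simpa using h.mψ hz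

/-- Schwarz lemma -/
theorem psi_le (h : CM Ω ψ φ G) (hd : ball 0 d ⊆ Ω) {z : ℂ} (hz : ‖z‖ < d) : ‖ψ z‖ ≤ ‖z‖ / d := by
  have h1 := Complex.dist_le_div_mul_dist_of_mapsTo_ball (R₂ := 1) (h.dψ.mono hd)
    (fun u hu => by
      rw [h.psi_zero, mem_closedBall_zero_iff]
      exact (h.norm_lt (hd hu)).le) (mem_ball_zero_iff.2 hz)
  rw [h.psi_zero, dist_zero_right, dist_zero_right] at h1
  rwa [div_eq_inv_mul, ← one_div]
theorem phi_le (h : CM Ω ψ φ G) (hM : Ω ⊆ ball 0 M) {w : ℂ} (hw : ‖w‖ < 1) : ‖φ w‖ ≤ M * ‖w‖ := by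
  have h1 := Complex.dist_le_div_mul_dist_of_mapsTo_ball (R₂ := M) h.dφ
    (fun u hu => by
      rw [h.phi_zero]
      exact ball_subset_closedBall (hM (h.mφ hu))) (mem_ball_zero_iff.2 hw)
  rwa [h.phi_zero, dist_zero_right, dist_zero_right, div_one] at h1
theorem psi_ge (h : CM Ω ψ φ G) (hM : Ω ⊆ ball 0 M) {z : ℂ} (hz : z ∈ Ω) : ‖z‖ ≤ M * ‖ψ z‖ := by
  have h1 := h.phi_le hM (h.norm_lt hz)
  rwa [h.inv1 z hz] at h1
theorem Conf_norm (h : CM Ω ψ φ G) {z : ℂ} (hz : z ∈ Ω) :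
    ‖ψ z‖ = ‖z‖ * Real.exp (G z).re := by
  rw [h.expG z hz, norm_mul, Complex.norm_exp]

theorem Conf_lim (h : CM Ω ψ φ G) : Filter.Tendsto (fun z => Real.exp (G z).re)
    (nhdsWithin 0 {0}ᶜ) (nhds (Real.exp (G 0).re)) := by
  have h1 : ContinuousAt G 0 := h.dG.continuousOn.continuousAt (h.isOpen.mem_nhds h.zero)
  have h2 : ContinuousAt (fun z => Real.exp (G z).re) 0 :=
    (Real.continuous_exp.comp Complex.continuous_re).continuousAt.comp h1
  exact h2.tendsto.mono_left nhdsWithin_le_nhds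

theorem rho_le (h : CM Ω ψ φ G) (hd : ball 0 d ⊆ Ω) (h0 : 0 < d) :
    d * Real.exp (G 0).re ≤ 1 := by
  refine le_of_tendsto (h.Conf_lim.const_mul d) ?_
  filter_upwards [self_mem_nhdsWithin, mem_nhdsWithin_of_mem_nhds (ball_mem_nhds (0 : ℂ) h0)]
    with z hz hz'
  have h1 := h.psi_le hd (mem_ball_zero_iff.1 hz')
  have h2 : 0 < ‖z‖ := norm_pos_iff.2 hz
  rw [h.Conf_norm (hd hz'), le_div_iff₀ h0] at h1
  refine le_of_mul_le_mul_left ?_ h2
  linarith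
theorem rho_ge (h : CM Ω ψ φ G) (hM : Ω ⊆ ball 0 M) : 1 ≤ M * Real.exp (G 0).re := by
  refine ge_of_tendsto (h.Conf_lim.const_mul M) ?_
  filter_upwards [self_mem_nhdsWithin, mem_nhdsWithin_of_mem_nhds (h.isOpen.mem_nhds h.zero)]
    with z hz hz'
  have h1 := h.psi_ge hM hz'
  have h2 : 0 < ‖z‖ := norm_pos_iff.2 hz
  rw [h.Conf_norm hz'] at h1
  refine le_of_mul_le_mul_left ?_ h2
  linarith

/-- E4: `Complex.borelCaratheodory_zero` on the largest disc in `Ω`, with `koebe` -/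
theorem dist_G (h : CM Ω ψ φ G) (hd : ball 0 d ⊆ Ω) (hM : Ω ⊆ ball 0 M) (h0 : 0 < d) {z : ℂ}
    (hz : ‖z‖ ≤ d / 2) : ‖G z - G 0‖ ≤ 20 * ‖z‖ / d := by
  have hR : 0 < M := nonempty_ball.1 ⟨0, hM h.zero⟩
  have hne : Ωᶜ.Nonempty := ⟨M, fun h => by
    have := mem_ball_zero_iff.1 (hM h)
    simp [abs_of_pos hR] at this⟩
  obtain ⟨e, he, hed⟩ := h.isOpen.isClosed_compl.exists_infDist_eq_dist hne 0
  have hb : ball 0 (dist 0 e) ⊆ Ω := hed ▸ ball_infDist_compl_subset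
  rw [dist_zero_left] at hb
  have hde : d ≤ ‖e‖ := not_lt.1 fun h1 => he (hd (mem_ball_zero_iff.2 h1))
  have he0 : 0 < ‖e‖ := h0.trans_le hde
  have hk := h.koebe e he
  have h64 : (64 : ℝ) ≤ Real.exp 5 := by
    have h1 : Real.exp 5 = Real.exp 1 ^ 5 := by rw [← Real.exp_nat_mul]; norm_num
    have h2 : (2.5 : ℝ) ≤ Real.exp 1 := by linarith [Real.exp_one_gt_d9]
    have h3 := pow_le_pow_left₀ (by norm_num) h2 5
    rw [h1]
    refine le_trans (by norm_num) h3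
  have h1 : ∀ u ∈ ball (0 : ℂ) ‖e‖, ‖e‖ * Real.exp (G u).re ≤ 1 := by
    intro u hu
    by_cases hu0 : u = 0
    · rw [hu0]
      exact h.rho_le hb he0
    · have h2 := h.psi_le hb (mem_ball_zero_iff.1 hu)
      rw [h.Conf_norm (hb hu), le_div_iff₀ he0] at h2
      refine le_of_mul_le_mul_left ?_ (norm_pos_iff.2 hu0)
      linarith
  have h2 := Complex.borelCaratheodory_zero (f := fun u => G u - G 0) (M := 5) (R := ‖e‖) (z := z)
    (by norm_num) ((h.dG.mono hb).sub_const _) (fun u hu => by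
      have h3 : Real.exp (G u).re ≤ Real.exp (5 + (G 0).re) := by
        refine le_of_mul_le_mul_left ((h1 u hu).trans (hk.trans ?_)) he0
        rw [Real.exp_add]
        have := mul_le_mul_of_nonneg_right h64 (mul_pos he0 (Real.exp_pos (G 0).re)).le
        linarith
      have h4 := Real.exp_le_exp.1 h3
      show (G u - G 0).re ≤ 5
      rw [Complex.sub_re]
      linarith) he0 (mem_ball_zero_iff.2 (by linarith)) (sub_self _)
  refine h2.trans ?_
  rw [div_le_div_iff₀ (by linarith) h0]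
  have h3 : d ≤ 2 * (‖e‖ - ‖z‖) := by linarith
  have := mul_le_mul_of_nonneg_left h3 (norm_nonneg z)
  linarith

theorem phi_lip (h : CM Ω ψ φ G) (hM : Ω ⊆ ball 0 M) {a : ℝ} (ha : 0 < a) {w w' : ℂ}
    (hw : ‖w‖ ≤ 1 - a) (hw' : ‖w'‖ ≤ 1 - a) : ‖φ w - φ w'‖ ≤ 2 * M / a * ‖w - w'‖ := by
  have hφ : ∀ u v : ℂ, ‖u‖ < 1 → ‖v‖ < 1 → ‖φ u - φ v‖ ≤ 2 * M := fun u v hu hv => by
    have h1 := mem_ball_zero_iff.1 (hM (h.mφ (mem_ball_zero_iff.2 hu)))
    have h2 := mem_ball_zero_iff.1 (hM (h.mφ (mem_ball_zero_iff.2 hv)))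
    linarith [norm_sub_le (φ u) (φ v)]
  have hb : ball w' a ⊆ ball 0 1 := fun u hu => by
    rw [mem_ball_iff_norm] at hu
    rw [mem_ball_zero_iff]
    linarith [norm_le_norm_sub_add u w']
  by_cases h1 : ‖w - w'‖ < a
  · have h2 := Complex.dist_le_div_mul_dist_of_mapsTo_ball (R₂ := 2 * M) (h.dφ.mono hb)
      (fun u hu => by
        rw [mem_closedBall, dist_eq_norm]
        exact hφ _ _ (mem_ball_zero_iff.1 (hb hu)) (by linarith)) (mem_ball_iff_norm.2 h1)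
    rwa [dist_eq_norm, dist_eq_norm] at h2
  · have hR : 0 < M := nonempty_ball.1 ⟨0, hM h.zero⟩
    refine (hφ w w' (by linarith) (by linarith)).trans ?_
    rw [div_mul_eq_mul_div, le_div_iff₀ ha]
    exact mul_le_mul_of_nonneg_left (not_lt.1 h1) (by linarith)

/-- a compact part of `Ω` has its image in a smaller disc -/
theorem compact_lt (h : CM Ω ψ φ G) {K : Set ℂ} (hK : IsCompact K) (hs : K ⊆ Ω) :
    ∃ r < 1, ∀ z ∈ K, ‖ψ z‖ ≤ r := by
  rcases K.eq_empty_or_nonempty with rfl | hne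
  · exact ⟨0, zero_lt_one, fun z hz => hz.elim⟩
  · obtain ⟨z, hz, hm⟩ := hK.exists_isMaxOn hne (h.dψ.continuousOn.mono hs).norm
    exact ⟨‖ψ z‖, h.norm_lt (hs hz), fun u hu => hm hu⟩

/-- Follow the segment from `a` to the first exit point; `φ '' closedBall 0 r` is compact. -/
theorem exit (h : CM Ω ψ φ G) {ε : ℝ} (hW : Wolff Ω ψ d ε) {a b : ℂ} (ha : a ∈ Ω) (hb : b ∉ Ω)
    (hab : ‖a - b‖ ≤ d) : 1 - ε ≤ ‖ψ a‖ := by
  by_contra hc
  have hr : ‖ψ a‖ + ε < 1 := by linarith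
  have hsub : closedBall (0 : ℂ) (‖ψ a‖ + ε) ⊆ ball 0 1 := closedBall_subset_ball hr
  have hK : IsCompact (φ '' closedBall 0 (‖ψ a‖ + ε)) :=
    (isCompact_closedBall _ _).image_of_continuousOn (h.dφ.continuousOn.mono hsub)
  have hKΩ : φ '' closedBall 0 (‖ψ a‖ + ε) ⊆ Ω := by
    rintro _ ⟨w, hw, rfl⟩
    exact h.mφ (hsub hw)
  obtain ⟨γ, hγ⟩ : ∃ γ : ℝ → ℂ, ∀ t, γ t = a + (t : ℂ) * (b - a) := ⟨_, fun _ => rfl⟩
  have hγc : Continuous γ := by
    rw [show γ = fun t : ℝ => a + (t : ℂ) * (b - a) from funext hγ]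
    fun_prop
  have key : ∀ v ∈ Set.Icc (0 : ℝ) 1, (∀ u ∈ Set.Icc 0 v, γ u ∈ Ω) →
      γ v ∈ φ '' closedBall 0 (‖ψ a‖ + ε) := by
    intro v hv hΩ
    have h1 := hW (γ '' Set.Icc 0 v) (by rintro _ ⟨u, hu, rfl⟩; exact hΩ u hu)
      (isPreconnected_Icc.image _ hγc.continuousOn) (by
        rintro _ ⟨s, hs, rfl⟩ _ ⟨t, ht, rfl⟩
        have e : γ s - γ t = ((t - s : ℝ) : ℂ) * (a - b) := by
          rw [hγ, hγ]
          push_cast
          ring
        have h2 : |t - s| ≤ 1 := abs_le.2 ⟨by linarith [hs.2, ht.1, hv.2],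
          by linarith [hs.1, ht.2, hv.2]⟩
        rw [e, norm_mul, Complex.norm_real, Real.norm_eq_abs]
        exact (mul_le_of_le_one_left (norm_nonneg _) h2).trans hab)
      (γ v) ⟨v, ⟨hv.1, le_rfl⟩, rfl⟩ a ⟨0, ⟨le_rfl, hv.1⟩, by simp [hγ]⟩
    refine ⟨ψ (γ v), mem_closedBall_zero_iff.2 ?_, h.inv1 _ (hΩ v ⟨hv.1, le_rfl⟩)⟩
    linarith [norm_le_norm_sub_add (ψ (γ v)) (ψ a)]
  have h1 : Set.Icc (0 : ℝ) 1 ⊆ γ ⁻¹' (φ '' closedBall 0 (‖ψ a‖ + ε)) := by
    refine IsClosed.Icc_subset_of_forall_mem_nhdsGT_of_Icc_subset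
      ((hK.isClosed.preimage hγc).inter isClosed_Icc) ?_ fun t ht hs => ?_
    · refine key 0 ⟨le_rfl, zero_le_one⟩ fun u hu => ?_
      rw [le_antisymm hu.2 hu.1, hγ]
      simpa using ha
    · have h2 : γ ⁻¹' Ω ∩ Set.Iio 1 ∈ nhdsWithin t (Set.Ioi t) :=
        mem_nhdsWithin_of_mem_nhds (((h.isOpen.preimage hγc).inter isOpen_Iio).mem_nhds
          ⟨hKΩ (hs ⟨ht.1, le_rfl⟩), ht.2⟩)
      obtain ⟨u, hu, h3⟩ := mem_nhdsGT_iff_exists_Ioo_subset.1 h2
      refine mem_nhdsGT_iff_exists_Ioo_subset.2 ⟨u, hu, fun v hv => ?_⟩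
      refine key v ⟨ht.1.trans hv.1.le, (h3 hv).2.le⟩ fun x hx => ?_
      rcases le_or_gt x t with h4 | h4
      · exact hKΩ (hs ⟨hx.1, h4⟩)
      · exact (h3 ⟨h4, hx.2.trans_lt hv.2⟩).1
  have h2 := hKΩ (h1 ⟨zero_le_one, le_rfl⟩)
  rw [hγ] at h2
  exact hb (by simpa using h2)

theorem Conf_ratio (h : CM Ω ψ φ G) (hd : ball 0 d ⊆ Ω) (hM : Ω ⊆ ball 0 M) {s : ℝ} (hs : 0 < s)
    (hsd : 9000 * s ≤ d) {z : ℂ} (hz : ‖z‖ ≤ 4 * s) :
    0.99 * Real.exp (G z).re ≤ Real.exp (G 0).re ∧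
      0.99 * Real.exp (G 0).re ≤ Real.exp (G z).re := by
  have h0 : 0 < d := by linarith
  have h1 := h.dist_G hd hM h0 (z := z) (by linarith)
  have h2 : 20 * ‖z‖ / d ≤ 0.01 := by
    rw [div_le_iff₀ h0]
    linarith
  have h3 := abs_le.1 ((Complex.abs_re_le_norm _).trans (h1.trans h2))
  rw [Complex.sub_re] at h3
  have key : ∀ x y : ℝ, x - y ≤ 0.01 → 0.99 * Real.exp x ≤ Real.exp y := fun x y hxy => by
    have h4 : Real.exp y = Real.exp (y - x) * Real.exp x := by rw [← Real.exp_add, sub_add_cancel]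
    rw [h4]
    exact mul_le_mul_of_nonneg_right (by linarith [Real.add_one_le_exp (y - x)])
      (Real.exp_pos x).le
  exact ⟨key _ _ h3.2, key _ _ (by linarith [h3.1])⟩

theorem band_ge (h : CM Ω ψ φ G) (hd : ball 0 d ⊆ Ω) (hM : Ω ⊆ ball 0 M) {s : ℝ} (hs : 0 < s)
    (hsd : 9000 * s ≤ d) {z : ℂ} (hz : z ∈ Ω) (h1 : 2.3 * s * Real.exp (G 0).re ≤ ‖ψ z‖) :
    2.1 * s ≤ ‖z‖ := by
  by_contra hc
  push Not at hc
  have h2 := (h.Conf_ratio hd hM hs hsd (z := z) (by linarith)).1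
  rw [h.Conf_norm hz] at h1
  have h3 := mul_le_mul_of_nonneg_right hc.le (Real.exp_pos (G z).re).le
  have h4 := mul_le_mul_of_nonneg_left h2 hs.le
  have h5 := mul_pos hs (Real.exp_pos (G 0).re)
  linarith

/-- the connected set `φ '' segment 0 (ψ z)` misses the circle of radius `3.9 s` -/
theorem band_le (h : CM Ω ψ φ G) (hd : ball 0 d ⊆ Ω) (hM : Ω ⊆ ball 0 M) {s : ℝ} (hs : 0 < s)
    (hsd : 9000 * s ≤ d) {z : ℂ} (hz : z ∈ Ω) (h1 : ‖ψ z‖ ≤ 3.8 * s * Real.exp (G 0).re) :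
    ‖z‖ ≤ 3.9 * s := by
  by_contra hc
  push Not at hc
  have hm : ∀ t ∈ Set.Icc (0 : ℝ) 1, ‖(t : ℂ) * ψ z‖ ≤ ‖ψ z‖ := fun t ht => by
    rw [norm_mul, Complex.norm_real, Real.norm_of_nonneg ht.1]
    exact mul_le_of_le_one_left (norm_nonneg _) ht.2
  have hm' : ∀ t ∈ Set.Icc (0 : ℝ) 1, (t : ℂ) * ψ z ∈ ball (0 : ℂ) 1 := fun t ht =>
    mem_ball_zero_iff.2 ((hm t ht).trans_lt (h.norm_lt hz))
  have hcont : ContinuousOn (fun t : ℝ => ‖φ ((t : ℂ) * ψ z)‖) (Set.Icc 0 1) :=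
    (h.dφ.continuousOn.comp (f := fun t : ℝ => (t : ℂ) * ψ z) (by fun_prop) hm').norm
  obtain ⟨t, ht, e⟩ := intermediate_value_Icc zero_le_one hcont (show 3.9 * s ∈ _ from ⟨by
    rw [Complex.ofReal_zero, zero_mul, h.phi_zero, norm_zero]
    linarith, by
    rw [Complex.ofReal_one, one_mul, h.inv1 z hz]
    exact hc.le⟩)
  beta_reduce at e
  have h2 := (h.Conf_ratio hd hM hs hsd (z := φ ((t : ℂ) * ψ z)) (by linarith)).2
  have h3 := h.Conf_norm (h.mφ (hm' t ht))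
  rw [h.inv2 _ (hm' t ht), e] at h3
  have h4 := mul_le_mul_of_nonneg_left h2 hs.le
  have h5 := mul_pos hs (Real.exp_pos (G 0).re)
  have h6 := hm t ht
  linarith

end CM

end Pool.Agent.TAF.U
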