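import Pool.Agent.P.MP_cb4022_pr.U.Link

/-! Gibbs measures with site dependent couplings (paper G). -/

open scoped Classical symmDiff

noncomputable section

namespace Pool.Agent.TAF.U

/-- number of walls at the site `x` -/
def hx (x : Site) (S : Finset Site) : ℝ := ((star x ∩ bd S).card : ℝ)
def ew (j : Site → ℝ) (e : Edge) : ℝ := j (lft e) + j (rgt e)
def ham (j : Site → ℝ) (S : Finset Site) : ℝ := ∑ e ∈ bd S, ew j e

/-- expectation when the colours in `Λ` are resampled and the others are those of `S₀` -/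
def gib (Λ S₀ : Finset Site) (j : Site → ℝ) (F : Finset Site → ℝ) : ℝ :=
  (∑ S ∈ Λ.powerset, Real.exp (ham j (S₀ ∆ S)) * F (S₀ ∆ S)) /
    ∑ S ∈ Λ.powerset, Real.exp (ham j (S₀ ∆ S))

def cov (Λ S₀ : Finset Site) (j : Site → ℝ) (F G : Finset Site → ℝ) : ℝ :=
  gib Λ S₀ j (fun S => F S * G S) - gib Λ S₀ j F * gib Λ S₀ j G

def ind (P : Finset Site → Prop) (S : Finset Site) : ℝ := if P S then 1 else 0
def Bd (j : Site → ℝ) (b : ℝ) : Prop := ∀ x, |j x| ≤ b
def Lip (j : Site → ℝ) (L : ℝ) : Prop := ∀ x y, |j x - j y| ≤ L * dst x y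
/-- `F` depends only on the colours in `A` -/
def Dep (A : Set Site) (F : Finset Site → ℝ) : Prop :=
  ∀ S S' : Finset Site, (∀ x ∈ A, x ∈ S ↔ x ∈ S') → F S = F S'
/-- equal off `Λ` -/
def Off (Λ S S' : Finset Site) : Prop := ∀ x ∉ Λ, x ∈ S ↔ x ∈ S'

theorem hx_nonneg (x : Site) (S : Finset Site) : 0 ≤ hx x S := Nat.cast_nonneg _
theorem hx_le (x : Site) (S : Finset Site) : hx x S ≤ 6 := by
  have h : (star x ∩ bd S).card ≤ 6 :=
    (Finset.card_le_card Finset.inter_subset_left).trans Finset.card_le_six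
  unfold hx
  exact_mod_cast h
theorem hx_dep (x : Site) : Dep (bal x 1) (hx x) := by
  intro S S' h
  have h0 : x ∈ (bal x 1 : Set Site) := Finset.mem_coe.2 (mem_bal.2 (by simp))
  have he : ∀ e ∈ star x, lft e ∈ (bal x 1 : Set Site) ∧ rgt e ∈ (bal x 1 : Set Site) := by
    intro e he
    have h1 := dst_adj (adj_lft_rgt e)
    rcases mem_star.1 he with h2 | h2
    · refine ⟨h2 ▸ h0, Finset.mem_coe.2 (mem_bal.2 ?_)⟩
      rw [← h2, dst_comm, h1]
    · refine ⟨Finset.mem_coe.2 (mem_bal.2 ?_), h2 ▸ h0⟩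
      rw [← h2, h1]
  have : star x ∩ bd S = star x ∩ bd S' := by
    ext e
    simp only [Finset.mem_inter, and_congr_right_iff]
    intro h1
    rw [mem_bd, mem_bd, h _ (he e h1).1, h _ (he e h1).2]
  unfold hx
  rw [this]
theorem hx_act {x : Site} {Y : Finset Site} (h : ∀ e ∈ bd Y, ¬ Touch e {x}) (S : Finset Site) :
    hx x (S ∆ Y) = hx x S := by
  have : star x ∩ bd (S ∆ Y) = star x ∩ bd S := by
    ext e
    simp only [Finset.mem_inter, and_congr_right_iff]
    intro h1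
    have h2 : e ∉ bd Y := fun h2 => h e h2 (mem_star.1 h1)
    rw [bd_symmDiff, Finset.mem_symmDiff]
    tauto
  unfold hx
  rw [this]
theorem Aut.hx_eq (a : Aut) (x : Site) (S : Finset Site) : hx (a.fS x) (a.mS S) = hx x S := by
  have : star (a.fS x) ∩ bd (a.mS S) = a.mE (star x ∩ bd S) := by
    ext e
    obtain ⟨e, rfl⟩ := a.fE.surjective e
    rw [a.mem_mE, Finset.mem_inter, Finset.mem_inter, ← a.mE_bd, a.mem_mE, mem_star, mem_star,
      a.lft_fE, a.rgt_fE, a.fS.apply_eq_iff_eq, a.fS.apply_eq_iff_eq]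
  unfold hx
  rw [this, Aut.mE, Finset.card_map]
theorem Lip.mono {j : Site → ℝ} {L L' : ℝ} (h : Lip j L) (hL : L ≤ L') : Lip j L' :=
  fun x y => (h x y).trans (mul_le_mul_of_nonneg_right hL (dst_nonneg x y))
theorem Bd.mono {j : Site → ℝ} {b b' : ℝ} (h : Bd j b) (hb : b ≤ b') : Bd j b' :=
  fun x => (h x).trans hb

theorem Gib_cut {c t : ℝ} (hc : c ∈ Set.Icc (0 : ℝ) 1) (ht : t ∈ Set.Icc (0 : ℝ) 1) :
    |1 - t * c| ≤ 1 := by
  have h1 : 0 ≤ t * c := mul_nonneg ht.1 hc.1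
  have h2 : t * c ≤ 1 := mul_le_one₀ ht.2 hc.1 hc.2
  exact abs_le.2 ⟨by linarith, by linarith⟩

/-- switching a coupling off -/
theorem cut_bd {j χ : Site → ℝ} {b t : ℝ} (h : Bd j b) (hχ : ∀ x, χ x ∈ Set.Icc (0 : ℝ) 1)
    (ht : t ∈ Set.Icc (0 : ℝ) 1) : Bd (fun x => j x * (1 - t * χ x)) b := by
  intro x
  have h1 := Gib_cut (hχ x) ht
  rw [abs_mul]
  calc |j x| * |1 - t * χ x| ≤ |j x| * 1 := mul_le_mul_of_nonneg_left h1 (abs_nonneg _)
    _ ≤ b := by rw [mul_one]; exact h x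
theorem cut_lip {j χ : Site → ℝ} {b t L L' : ℝ} (h : Bd j b) (hL : Lip j L) (hL' : Lip χ L')
    (hχ : ∀ x, χ x ∈ Set.Icc (0 : ℝ) 1) (ht : t ∈ Set.Icc (0 : ℝ) 1) :
    Lip (fun x => j x * (1 - t * χ x)) (L + b * L') := by
  intro x y
  have h1 := Gib_cut (hχ x) ht
  have e : j x * (1 - t * χ x) - j y * (1 - t * χ y) =
      (j x - j y) * (1 - t * χ x) - j y * (t * (χ x - χ y)) := by ring
  have h2 : |(j x - j y) * (1 - t * χ x)| ≤ L * dst x y := by
    rw [abs_mul]
    calc |j x - j y| * |1 - t * χ x| ≤ |j x - j y| * 1 :=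
          mul_le_mul_of_nonneg_left h1 (abs_nonneg _)
      _ ≤ L * dst x y := by rw [mul_one]; exact hL x y
  have h3 : |t * (χ x - χ y)| ≤ L' * dst x y := by
    rw [abs_mul, abs_of_nonneg ht.1]
    exact (mul_le_of_le_one_left (abs_nonneg _) ht.2).trans (hL' x y)
  have h4 : |j y * (t * (χ x - χ y))| ≤ b * (L' * dst x y) := by
    rw [abs_mul]
    exact mul_le_mul (h y) h3 (abs_nonneg _) ((abs_nonneg _).trans (h y))
  show |j x * (1 - t * χ x) - j y * (1 - t * χ y)| ≤ _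
  rw [e]
  refine (abs_sub _ _).trans ?_
  linarith

/-- a radial plateau function -/
theorem exists_plateau (p : Site) (r R : ℝ) {w : ℝ} (hw : 0 < w) : ∃ g : ℝ → ℝ,
    (∀ u, g u ∈ Set.Icc (0 : ℝ) 1) ∧ Lip (fun x => g (dst x p)) (1 / w) ∧
      (∀ u, r ≤ u → u ≤ R → g u = 1) ∧ ∀ u, g u ≠ 0 → r - w < u ∧ u < R + w := by
  refine ⟨fun u => max 0 (min 1 (min ((u - (r - w)) / w) ((R + w - u) / w))),
    fun u => ⟨le_max_left _ _, max_le zero_le_one (min_le_left _ _)⟩, fun x y => ?_,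
    fun u h1 h2 => ?_, fun u hu => ?_⟩
  · have hd : |dst x p - dst y p| ≤ dst x y := by
      have h1 := dst_tri x y p
      have h2 := dst_tri y x p
      rw [dst_comm y x] at h2
      exact abs_le.2 ⟨by linarith, by linarith⟩
    have h0 : 0 ≤ 1 / w * dst x y := mul_nonneg (by positivity) (dst_nonneg _ _)
    have h3 : |dst x p - dst y p| / w ≤ 1 / w * dst x y := by
      rw [one_div, inv_mul_eq_div]
      exact div_le_div_of_nonneg_right hd hw.le
    refine (abs_max_sub_max_le_max _ _ _ _).trans (max_le (by simpa using h0) ?_)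
    refine (abs_min_sub_min_le_max _ _ _ _).trans (max_le (by simpa using h0) ?_)
    refine (abs_min_sub_min_le_max _ _ _ _).trans (max_le ?_ ?_)
    · have e : (dst x p - (r - w)) / w - (dst y p - (r - w)) / w = (dst x p - dst y p) / w := by
        ring
      rw [e, abs_div, abs_of_pos hw]
      exact h3
    · have e : (R + w - dst x p) / w - (R + w - dst y p) / w = -(dst x p - dst y p) / w := by
        ring
      rw [e, abs_div, abs_of_pos hw, abs_neg]
      exact h3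
  · have h3 : 1 ≤ (u - (r - w)) / w := by rw [le_div_iff₀ hw]; linarith
    have h4 : 1 ≤ (R + w - u) / w := by rw [le_div_iff₀ hw]; linarith
    show max 0 (min 1 _) = 1
    rw [min_eq_left (le_min h3 h4), max_eq_right zero_le_one]
  · have h1 : 0 < min 1 (min ((u - (r - w)) / w) ((R + w - u) / w)) := by
      by_contra h
      exact hu (max_eq_left (not_lt.1 h))
    have h2 := lt_min_iff.1 (lt_min_iff.1 h1).2
    have h3 := (div_pos_iff_of_pos_right hw).1 h2.1
    have h4 := (div_pos_iff_of_pos_right hw).1 h2.2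
    constructor <;> linarith

section
variable {Λ Λ' S₀ S₁ : Finset Site} {j j' : Site → ℝ} {F G : Finset Site → ℝ}

theorem Gib_Z_pos (Λ S₀ : Finset Site) (j : Site → ℝ) :
    0 < ∑ S ∈ Λ.powerset, Real.exp (ham j (S₀ ∆ S)) :=
  Finset.sum_pos (fun _ _ => Real.exp_pos _) ⟨∅, Finset.empty_mem_powerset Λ⟩

theorem Gib_ratio {α : Type*} {W : Finset α} {H H' f f' : α → ℝ} {c : ℝ}
    (hH : ∀ x ∈ W, H x = H' x + c) (hf : ∀ x ∈ W, f x = f' x) :
    (∑ x ∈ W, Real.exp (H x) * f x) / ∑ x ∈ W, Real.exp (H x) =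
      (∑ x ∈ W, Real.exp (H' x) * f' x) / ∑ x ∈ W, Real.exp (H' x) := by
  have h1 : ∑ x ∈ W, Real.exp (H x) * f x = Real.exp c * ∑ x ∈ W, Real.exp (H' x) * f' x := by
    rw [Finset.mul_sum]
    refine Finset.sum_congr rfl fun x hx => ?_
    rw [hH x hx, hf x hx, Real.exp_add]
    ring
  have h2 : ∑ x ∈ W, Real.exp (H x) = Real.exp c * ∑ x ∈ W, Real.exp (H' x) := by
    rw [Finset.mul_sum]
    refine Finset.sum_congr rfl fun x hx => ?_
    rw [hH x hx, Real.exp_add]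
    ring
  rw [h1, h2, mul_div_mul_left _ _ (Real.exp_pos c).ne']

theorem Gib_sum_shift (h : Off Λ S₀ S₁) (f : Finset Site → ℝ) :
    ∑ S ∈ Λ.powerset, f (S₀ ∆ S) = ∑ S ∈ Λ.powerset, f (S₁ ∆ S) := by
  have hT : S₀ ∆ S₁ ⊆ Λ := by
    intro x hx
    by_contra h1
    have h2 := h x h1
    rw [Finset.mem_symmDiff] at hx
    tauto
  have hm : ∀ S ∈ Λ.powerset, (S₀ ∆ S₁) ∆ S ∈ Λ.powerset := fun S hS =>
    Finset.mem_powerset.2 (Markov_sub hT (Finset.mem_powerset.1 hS))
  refine Finset.sum_nbij' (fun S => (S₀ ∆ S₁) ∆ S) (fun S => (S₀ ∆ S₁) ∆ S) hm hm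
    (fun S _ => symmDiff_symmDiff_cancel_left _ _) (fun S _ => symmDiff_symmDiff_cancel_left _ _)
    fun S _ => ?_
  congr 1
  ext x
  simp only [Finset.mem_symmDiff]
  tauto

/-- the energy of the edges that touch `Λ` -/
def Gib_hl (Λ : Finset Site) (j : Site → ℝ) (S : Finset Site) : ℝ :=
  ∑ e ∈ touchE Λ, if e ∈ bd S then ew j e else 0

theorem Gib_split (h : Off Λ S₁ S₀) (j : Site → ℝ) :
    ham j S₁ = Gib_hl Λ j S₁ + ∑ e ∈ bd S₀ \ touchE Λ, ew j e := by
  have h1 : bd S₀ \ touchE Λ = bd S₁ \ touchE Λ := by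
    ext e
    simp only [Finset.mem_sdiff, and_congr_left_iff]
    intro he
    rw [mem_touchE, Touch, not_or] at he
    rw [mem_bd, mem_bd, h _ he.1, h _ he.2]
  rw [h1, Gib_hl, ← Finset.sum_filter, Finset.filter_mem_eq_inter, Finset.inter_comm, ham,
    Finset.sum_inter_add_sum_sdiff]

theorem off_symmDiff {S : Finset Site} (h : S ⊆ Λ) (S₀ : Finset Site) : Off Λ (S₀ ∆ S) S₀ := by
  intro x hx
  have h1 : x ∉ S := fun h1 => hx (h h1)
  rw [Finset.mem_symmDiff]
  tauto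
theorem gib_congr (h : ∀ S, Off Λ S S₀ → F S = G S) : gib Λ S₀ j F = gib Λ S₀ j G := by
  unfold gib
  congr 1
  exact Finset.sum_congr rfl fun S hS => by
    rw [h _ (off_symmDiff (Finset.mem_powerset.1 hS) S₀)]
theorem gib_mono (h : ∀ S, Off Λ S S₀ → F S ≤ G S) : gib Λ S₀ j F ≤ gib Λ S₀ j G := by
  unfold gib
  refine div_le_div_of_nonneg_right (Finset.sum_le_sum fun S hS => ?_) (Gib_Z_pos Λ S₀ j).le
  exact mul_le_mul_of_nonneg_left (h _ (off_symmDiff (Finset.mem_powerset.1 hS) S₀))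
    (Real.exp_pos _).le
theorem gib_const (c : ℝ) : gib Λ S₀ j (fun _ => c) = c := by
  unfold gib
  rw [← Finset.sum_mul, mul_div_cancel_left₀ _ (Gib_Z_pos Λ S₀ j).ne']
theorem gib_add : gib Λ S₀ j (fun S => F S + G S) = gib Λ S₀ j F + gib Λ S₀ j G := by
  unfold gib
  simp only [mul_add, Finset.sum_add_distrib, add_div]
theorem gib_sub : gib Λ S₀ j (fun S => F S - G S) = gib Λ S₀ j F - gib Λ S₀ j G := by
  unfold gib
  simp only [mul_sub, Finset.sum_sub_distrib, sub_div]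
theorem gib_mul (c : ℝ) : gib Λ S₀ j (fun S => c * F S) = c * gib Λ S₀ j F := by
  unfold gib
  rw [← mul_div_assoc, Finset.mul_sum]
  congr 1
  exact Finset.sum_congr rfl fun S _ => by ring
theorem gib_sum {ι : Type*} (s : Finset ι) (f : ι → Finset Site → ℝ) :
    gib Λ S₀ j (fun S => ∑ i ∈ s, f i S) = ∑ i ∈ s, gib Λ S₀ j (f i) := by
  unfold gib
  simp only [Finset.mul_sum]
  rw [Finset.sum_comm, Finset.sum_div]
theorem abs_gib_le {c : ℝ} (h : ∀ S, Off Λ S S₀ → |F S| ≤ c) : |gib Λ S₀ j F| ≤ c := by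
  refine abs_le.2 ⟨?_, ?_⟩
  · rw [← gib_const (Λ := Λ) (S₀ := S₀) (j := j) (-c)]
    exact gib_mono fun S hS => (abs_le.1 (h S hS)).1
  · rw [← gib_const (Λ := Λ) (S₀ := S₀) (j := j) c]
    exact gib_mono fun S hS => (abs_le.1 (h S hS)).2
theorem abs_gib_le_gib (h : ∀ S, Off Λ S S₀ → |F S| ≤ G S) : |gib Λ S₀ j F| ≤ gib Λ S₀ j G := by
  refine abs_le.2 ⟨?_, gib_mono fun S hS => (abs_le.1 (h S hS)).2⟩
  rw [← neg_one_mul, ← gib_mul]
  exact gib_mono fun S hS => by linarith [(abs_le.1 (h S hS)).1]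
theorem gib_shift (h : Off Λ S₀ S₁) : gib Λ S₀ j F = gib Λ S₁ j F := by
  unfold gib
  rw [Gib_sum_shift h fun S => Real.exp (ham j S) * F S,
    Gib_sum_shift h fun S => Real.exp (ham j S)]
theorem gib_empty : gib ∅ S₀ j F = F S₀ := by
  rw [← gib_const (Λ := ∅) (S₀ := S₀) (j := j) (F S₀)]
  refine gib_congr fun S hS => ?_
  congr 1
  ext x
  exact hS x (Finset.notMem_empty x)

theorem Gib_loc (Λ S₀ : Finset Site) (j : Site → ℝ) (F : Finset Site → ℝ) :
    gib Λ S₀ j F = (∑ S ∈ Λ.powerset, Real.exp (Gib_hl Λ j (S₀ ∆ S)) * F (S₀ ∆ S)) /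
      ∑ S ∈ Λ.powerset, Real.exp (Gib_hl Λ j (S₀ ∆ S)) :=
  Gib_ratio (fun _ hS => Gib_split (off_symmDiff (Finset.mem_powerset.1 hS) S₀) j) fun _ _ => rfl

/-- only the weights of the edges that touch `Λ` matter -/
theorem gib_congr_j (h : ∀ e, Touch e Λ → ew j e = ew j' e) : gib Λ S₀ j F = gib Λ S₀ j' F := by
  rw [Gib_loc, Gib_loc]
  refine Gib_ratio (c := 0) (fun S _ => ?_) fun _ _ => rfl
  rw [add_zero]
  exact Finset.sum_congr rfl fun e he => by rw [h e (mem_touchE.1 he)]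

/-- DLR -/
theorem gib_dlr (h : Λ' ⊆ Λ) : gib Λ S₀ j (fun S => gib Λ' S j F) = gib Λ S₀ j F := by
  have key : ∑ S ∈ Λ.powerset, Real.exp (ham j (S₀ ∆ S)) * gib Λ' (S₀ ∆ S) j F =
      ∑ S ∈ Λ.powerset, Real.exp (ham j (S₀ ∆ S)) * F (S₀ ∆ S) := by
    set Z : Finset Site → ℝ := fun S => ∑ T ∈ Λ'.powerset, Real.exp (ham j (S ∆ T)) with hZ
    have hZ' : ∀ S, ∀ T ∈ Λ'.powerset, Z (S ∆ T) = Z S := fun S T hT =>
      Gib_sum_shift (off_symmDiff (Finset.mem_powerset.1 hT) S) fun S => Real.exp (ham j S)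
    have h1 : ∀ T ∈ Λ'.powerset, ∑ S ∈ Λ.powerset, Real.exp (ham j (S₀ ∆ S)) *
        (Real.exp (ham j ((S₀ ∆ S) ∆ T)) * F ((S₀ ∆ S) ∆ T) / Z (S₀ ∆ S)) =
        ∑ S ∈ Λ.powerset, Real.exp (ham j (S₀ ∆ S)) * F (S₀ ∆ S) *
          (Real.exp (ham j ((S₀ ∆ S) ∆ T)) / Z (S₀ ∆ S)) := by
      intro T hT
      rw [← Gib_sum_shift (off_symmDiff ((Finset.mem_powerset.1 hT).trans h) S₀)
        fun S => Real.exp (ham j S) * (Real.exp (ham j (S ∆ T)) * F (S ∆ T) / Z S)]
      refine Finset.sum_congr rfl fun S _ => ?_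
      rw [symmDiff_right_comm S₀ T S, symmDiff_symmDiff_cancel_right, hZ' _ T hT]
      ring
    calc ∑ S ∈ Λ.powerset, Real.exp (ham j (S₀ ∆ S)) * gib Λ' (S₀ ∆ S) j F
        = ∑ S ∈ Λ.powerset, ∑ T ∈ Λ'.powerset, Real.exp (ham j (S₀ ∆ S)) *
            (Real.exp (ham j ((S₀ ∆ S) ∆ T)) * F ((S₀ ∆ S) ∆ T) / Z (S₀ ∆ S)) := by
          refine Finset.sum_congr rfl fun S _ => ?_
          rw [gib, Finset.sum_div, Finset.mul_sum]
      _ = ∑ S ∈ Λ.powerset, ∑ T ∈ Λ'.powerset, Real.exp (ham j (S₀ ∆ S)) * F (S₀ ∆ S) *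
            (Real.exp (ham j ((S₀ ∆ S) ∆ T)) / Z (S₀ ∆ S)) := by
          rw [Finset.sum_comm, Finset.sum_congr rfl h1, Finset.sum_comm]
      _ = _ := by
          refine Finset.sum_congr rfl fun S _ => ?_
          rw [← Finset.mul_sum, ← Finset.sum_div, div_self (Gib_Z_pos Λ' (S₀ ∆ S) j).ne', mul_one]
  rw [gib, key, gib]
theorem gib_pull (h : Dep (Λ : Set Site)ᶜ G) :
    gib Λ S₀ j (fun S => G S * F S) = G S₀ * gib Λ S₀ j F := by
  rw [← gib_mul]
  exact gib_congr fun S hS => by rw [h S S₀ hS]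
theorem gib_dep : Dep (Λ : Set Site)ᶜ fun S => gib Λ S j F := by
  exact fun S S' h => gib_shift h

/-- flipping a set whose walls carry no weight near `Λ` -/
theorem gib_act {Y : Finset Site} (h : ∀ e ∈ bd Y, Touch e Λ → ew j e = 0) :
    gib Λ (S₀ ∆ Y) j F = gib Λ S₀ j fun S => F (S ∆ Y) := by
  rw [Gib_loc, Gib_loc]
  refine Gib_ratio (c := 0) (fun S _ => ?_) fun S _ => by rw [symmDiff_right_comm]
  rw [add_zero, symmDiff_right_comm]
  refine Finset.sum_congr rfl fun e he => ?_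
  by_cases hY : e ∈ bd Y
  · rw [h e hY (mem_touchE.1 he), ite_self, ite_self]
  · refine if_congr ?_ rfl rfl
    rw [bd_symmDiff (S₀ ∆ S) Y, Finset.mem_symmDiff]
    tauto
theorem gib_aut (a : Aut) :
    gib (a.mS Λ) (a.mS S₀) j F = gib Λ S₀ (fun x => j (a.fS x)) fun S => F (a.mS S) := by
  have hh : ∀ S, ham j (a.mS S) = ham (fun x => j (a.fS x)) S := by
    intro S
    rw [ham, ham, ← a.mE_bd, Aut.mE, Finset.sum_map]
    refine Finset.sum_congr rfl fun e _ => ?_
    simp only [ew, Equiv.coe_toEmbedding, a.lft_fE, a.rgt_fE]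
  have hs : ∀ f : Finset Site → ℝ, ∑ S ∈ (a.mS Λ).powerset, f (a.mS S₀ ∆ S) =
      ∑ S ∈ Λ.powerset, f (a.mS (S₀ ∆ S)) := by
    intro f
    have hb := a.bijOn_powerset Λ
    refine (Finset.sum_nbij a.mS (fun S hS => hb.mapsTo hS) hb.injOn hb.surjOn fun S _ => ?_).symm
    rw [a.mS_symmDiff]
  unfold gib
  rw [hs fun S => Real.exp (ham j S) * F S, hs fun S => Real.exp (ham j S)]
  simp only [hh]
theorem gib_prod (hd : Disjoint Λ Λ') (h : ∀ e, Touch e Λ → Touch e Λ' → ew j e = 0) :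
    gib (Λ ∪ Λ') S₀ j F = gib Λ S₀ j fun S => gib Λ' S j F := by
  have _ := hd
  rw [← gib_dlr (Λ' := Λ') Finset.subset_union_right,
    ← gib_dlr (Λ' := Λ) Finset.subset_union_left]
  refine (gib_congr fun S hS => ?_).trans (gib_const _)
  have hY : (S ∆ S₀) ∩ Λ' ⊆ Λ' := Finset.inter_subset_right
  have e : S = (S ∆ ((S ∆ S₀) ∩ Λ')) ∆ ((S ∆ S₀) ∩ Λ') :=
    (symmDiff_symmDiff_cancel_right _ _).symm
  have h1 : ∀ e ∈ bd ((S ∆ S₀) ∩ Λ'), Touch e Λ → ew j e = 0 := by
    intro e he he'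
    refine h e he' ?_
    rcases mem_touchE.1 (Finset.mem_filter.1 he).1 with h2 | h2
    · exact Or.inl (hY h2)
    · exact Or.inr (hY h2)
  have h2 : Off Λ (S ∆ ((S ∆ S₀) ∩ Λ')) S₀ := by
    intro x hx
    have h3 := hS x
    simp only [Finset.mem_symmDiff, Finset.mem_inter, Finset.mem_union] at h3 ⊢
    tauto
  rw [e, gib_act h1, gib_shift h2]
  exact gib_congr fun T _ => gib_shift (off_symmDiff hY T)
theorem gib_zero (h : ∀ e, Touch e Λ → ew j e = 0) :
    gib Λ S₀ j F = avg Λ.powerset fun S => F (S₀ ∆ S) := by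
  rw [Gib_loc]
  have h1 : ∀ S, Gib_hl Λ j S = 0 := fun S =>
    Finset.sum_eq_zero fun e he => by rw [h e (mem_touchE.1 he), ite_self]
  simp only [h1, Real.exp_zero, one_mul, Finset.sum_const, nsmul_eq_mul, mul_one, avg,
    smul_eq_mul]
  rw [div_eq_inv_mul]

theorem cov_comm : cov Λ S₀ j F G = cov Λ S₀ j G F := by
  unfold cov
  simp only [mul_comm]
theorem cov_congr {F' : Finset Site → ℝ} (h : ∀ S, Off Λ S S₀ → F S = F' S) :
    cov Λ S₀ j F G = cov Λ S₀ j F' G := by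
  unfold cov
  rw [gib_congr h, gib_congr (G := fun S => F' S * G S) fun S hS => by rw [h S hS]]
theorem cov_add {F' : Finset Site → ℝ} :
    cov Λ S₀ j (fun S => F S + F' S) G = cov Λ S₀ j F G + cov Λ S₀ j F' G := by
  unfold cov
  simp only [add_mul, gib_add]
  ring
theorem cov_mul (c : ℝ) : cov Λ S₀ j (fun S => c * F S) G = c * cov Λ S₀ j F G := by
  unfold cov
  simp only [mul_assoc, gib_mul]
  ring
theorem cov_const (c : ℝ) : cov Λ S₀ j (fun _ => c) G = 0 := by
  unfold cov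
  rw [gib_mul, gib_const, sub_self]
theorem abs_cov_le {a b : ℝ} (h : ∀ S, |F S| ≤ a) (h' : ∀ S, |G S| ≤ b) :
    |cov Λ S₀ j F G| ≤ 2 * a * b := by
  have ha : 0 ≤ a := (abs_nonneg _).trans (h ∅)
  have h1 : |gib Λ S₀ j fun S => F S * G S| ≤ a * b := abs_gib_le fun S _ => by
    rw [abs_mul]
    exact mul_le_mul (h S) (h' S) (abs_nonneg _) ha
  have h2 : |gib Λ S₀ j F * gib Λ S₀ j G| ≤ a * b := by
    rw [abs_mul]
    exact mul_le_mul (abs_gib_le fun S _ => h S) (abs_gib_le fun S _ => h' S) (abs_nonneg _) ha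
  unfold cov
  refine (abs_sub _ _).trans ?_
  linarith
theorem cov_dlr (h : Λ' ⊆ Λ) (hG : Dep (Λ' : Set Site)ᶜ G) :
    cov Λ S₀ j F G = cov Λ S₀ j (fun S => gib Λ' S j F) G := by
  unfold cov
  rw [gib_dlr h, ← gib_dlr h (F := fun S => F S * G S)]
  congr 1
  refine gib_congr fun S _ => ?_
  rw [mul_comm, ← gib_pull hG]
  simp only [mul_comm]
/-- law of total covariance -/
theorem cov_total (h : Λ' ⊆ Λ) : cov Λ S₀ j F G = gib Λ S₀ j (fun S => cov Λ' S j F G) +
    cov Λ S₀ j (fun S => gib Λ' S j F) fun S => gib Λ' S j G := by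
  unfold cov
  rw [gib_sub, gib_dlr h, gib_dlr h, gib_dlr h]
  ring

theorem Gib_ham_hx (W : Finset Site) (d : Site → ℝ) (S : Finset Site) :
    ham (fun x => if x ∈ W then d x else 0) S = ∑ w ∈ W, d w * hx w S := by
  have h1 : ∀ w, d w * hx w S = ∑ e ∈ bd S, ((if lft e = w then d w else 0) +
      if rgt e = w then d w else 0) := by
    intro w
    rw [hx, Finset.inter_comm, ← Finset.filter_mem_eq_inter, Finset.card_filter, Nat.cast_sum,
      Finset.mul_sum]
    refine Finset.sum_congr rfl fun e _ => ?_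
    have h2 := lft_ne_rgt e
    by_cases h3 : lft e = w
    · have h4 : ¬ rgt e = w := fun h4 => h2 (h3.trans h4.symm)
      simp [mem_star, h3, h4]
    · by_cases h4 : rgt e = w <;> simp [mem_star, h3, h4]
  simp only [h1]
  rw [Finset.sum_comm, ham]
  refine Finset.sum_congr rfl fun e _ => ?_
  rw [Finset.sum_add_distrib, Finset.sum_ite_eq, Finset.sum_ite_eq, ew]

theorem Gib_cov_sum {ι : Type*} (s : Finset ι) (c : ι → ℝ) (f : ι → Finset Site → ℝ) :
    cov Λ S₀ j F (fun S => ∑ i ∈ s, c i * f i S) = ∑ i ∈ s, c i * cov Λ S₀ j F (f i) := by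
  unfold cov
  have h1 : (fun S => F S * ∑ i ∈ s, c i * f i S) = fun S => ∑ i ∈ s, c i * (F S * f i S) := by
    funext S
    rw [Finset.mul_sum]
    exact Finset.sum_congr rfl fun i _ => by ring
  rw [h1, gib_sum, gib_sum, Finset.mul_sum, ← Finset.sum_sub_distrib]
  refine Finset.sum_congr rfl fun i _ => ?_
  rw [gib_mul, gib_mul]
  ring

theorem Gib_deriv (Λ S₀ : Finset Site) (j δ : Site → ℝ) (F : Finset Site → ℝ) (t : ℝ) :
    HasDerivAt (fun s : ℝ => gib Λ S₀ (fun x => j x + s * δ x) F)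
      (cov Λ S₀ (fun x => j x + t * δ x) F (ham δ)) t := by
  have hh : ∀ (s : ℝ) S, ham (fun x => j x + s * δ x) S = ham j S + s * ham δ S := by
    intro s S
    simp only [ham, ew, Finset.mul_sum, ← Finset.sum_add_distrib]
    exact Finset.sum_congr rfl fun e _ => by ring
  have he : ∀ S, HasDerivAt (fun s : ℝ => Real.exp (ham j S + s * ham δ S))
      (Real.exp (ham j S + t * ham δ S) * ham δ S) t := fun S => by
    simpa using (((hasDerivAt_id t).mul_const (ham δ S)).const_add (ham j S)).exp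
  have hN := HasDerivAt.fun_sum (u := Λ.powerset) fun S _ => (he (S₀ ∆ S)).mul_const (F (S₀ ∆ S))
  have hZ := HasDerivAt.fun_sum (u := Λ.powerset) fun S _ => he (S₀ ∆ S)
  have hp := Gib_Z_pos Λ S₀ fun x => j x + t * δ x
  simp only [hh] at hp
  have hD := hN.fun_div hZ hp.ne'
  simp only [cov, gib, hh]
  refine hD.congr_deriv ?_
  have e : ∑ S ∈ Λ.powerset, Real.exp (ham j (S₀ ∆ S) + t * ham δ (S₀ ∆ S)) *
      (F (S₀ ∆ S) * ham δ (S₀ ∆ S)) = ∑ S ∈ Λ.powerset,
        Real.exp (ham j (S₀ ∆ S) + t * ham δ (S₀ ∆ S)) * ham δ (S₀ ∆ S) * F (S₀ ∆ S) :=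
    Finset.sum_congr rfl fun S _ => by ring
  rw [e]
  field_simp

/-- The derivative in `t` of `gib Λ S₀ (j + t (j' - j)) F` is the covariance with `ham (j' - j)`,
which is `∑ w ∈ W, (j' w - j w) * hx w`; mean value theorem. -/
theorem gib_interp (W : Finset Site) (hW : ∀ e, Touch e Λ → (j (lft e) ≠ j' (lft e) → lft e ∈ W) ∧
      (j (rgt e) ≠ j' (rgt e) → rgt e ∈ W)) {b c : ℝ} (hb0 : 0 ≤ b)
    (hb : ∀ w ∈ W, |j' w - j w| ≤ b)
    (hc : ∀ t ∈ Set.Icc (0 : ℝ) 1,
      ∑ w ∈ W, |cov Λ S₀ (fun x => j x + t * (j' x - j x)) F (hx w)| ≤ c) :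
    |gib Λ S₀ j' F - gib Λ S₀ j F| ≤ b * c := by
  set δ : Site → ℝ := fun x => if x ∈ W then j' x - j x else 0 with hδ
  have hδ' : ∀ x, (j x ≠ j' x → x ∈ W) → δ x = j' x - j x := by
    intro x h
    by_cases h1 : x ∈ W
    · simp only [hδ, if_pos h1]
    · have h2 : j x = j' x := by
        by_contra h2
        exact h1 (h h2)
      simp only [hδ, if_neg h1, h2, sub_self]
  have hg : ∀ (t : ℝ) (G : Finset Site → ℝ), gib Λ S₀ (fun x => j x + t * (j' x - j x)) G =
      gib Λ S₀ (fun x => j x + t * δ x) G := fun t G => gib_congr_j fun e he => by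
    simp only [ew, hδ' _ (hW e he).1, hδ' _ (hW e he).2]
  have hd := fun t => Gib_deriv Λ S₀ j δ F t
  have hm := norm_image_sub_le_of_norm_deriv_le_segment_01' (C := b * c)
    (fun t _ => (hd t).hasDerivWithinAt) fun t ht => by
      have h1 : ham δ = fun S => ∑ w ∈ W, (j' w - j w) * hx w S := funext fun S =>
        Gib_ham_hx W (fun x => j' x - j x) S
      rw [h1, Gib_cov_sum, Real.norm_eq_abs]
      refine (Finset.abs_sum_le_sum_abs _ _).trans ?_
      refine le_trans ?_ (mul_le_mul_of_nonneg_left (hc t (Set.Ico_subset_Icc_self ht)) hb0)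
      rw [Finset.mul_sum]
      refine Finset.sum_le_sum fun w hw => ?_
      rw [abs_mul]
      have e : cov Λ S₀ (fun x => j x + t * δ x) F (hx w) =
          cov Λ S₀ (fun x => j x + t * (j' x - j x)) F (hx w) := by
        simp only [cov, hg]
      rw [e]
      exact mul_le_mul_of_nonneg_right (hb w hw) (abs_nonneg _)
  rw [← hg, ← hg, Real.norm_eq_abs] at hm
  simpa using hm

theorem gib_tv (W : Finset Site) (hW : ∀ x ∉ W, j x = j' x) {b : ℝ} (hb : ∀ w ∈ W, |j' w - j w| ≤ b)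
    (hF : ∀ S, |F S| ≤ 1) : |gib Λ S₀ j' F - gib Λ S₀ j F| ≤ 12 * b * W.card := by
  rcases W.eq_empty_or_nonempty with rfl | ⟨w₀, hw₀⟩
  · have : j = j' := funext fun x => hW x (Finset.notMem_empty x)
    simp [this]
  have hW' : ∀ x, j x ≠ j' x → x ∈ W := fun x h => by
    by_contra h1
    exact h (hW x h1)
  have h := gib_interp (Λ := Λ) (S₀ := S₀) (F := F) (c := 12 * W.card) W
    (fun e _ => ⟨hW' _, hW' _⟩) ((abs_nonneg _).trans (hb w₀ hw₀)) hb fun t _ => by
      refine (Finset.sum_le_card_nsmul W _ 12 fun w _ => ?_).trans ?_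
      · refine (abs_cov_le hF (b := 6) fun S => ?_).trans (by norm_num)
        rw [abs_of_nonneg (hx_nonneg w S)]
        exact hx_le w S
      · rw [nsmul_eq_mul, mul_comm]
  linarith

/-- successive conditioning -/
theorem gib_prod_le (m : ℕ) (A : ℕ → Finset Site) (E : ℕ → Finset Site → Prop) {u : ℝ}
    (hu : 0 ≤ u) (hA : ∀ i < m, A i ⊆ Λ)
    (hd : ∀ i < m, ∀ k < i, Dep (A i : Set Site)ᶜ (ind (E k)))
    (h : ∀ i < m, ∀ S, Off Λ S S₀ → gib (A i) S j (ind (E i)) ≤ u) :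
    gib Λ S₀ j (ind fun S => ∀ i < m, E i S) ≤ u ^ m := by
  induction m with
  | zero =>
    have : (ind fun S => ∀ i < 0, E i S) = fun _ => 1 := by
      funext S
      simp [ind]
    rw [this, gib_const, pow_zero]
  | succ m ih =>
    have ih' := ih (fun i hi => hA i (by omega)) (fun i hi => hd i (by omega))
      fun i hi => h i (by omega)
    have e : (ind fun S => ∀ i < m + 1, E i S) =
        fun S => ind (fun S => ∀ i < m, E i S) S * ind (E m) S := by
      funext S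
      simp only [ind, Nat.forall_lt_succ_right]
      by_cases h1 : ∀ i < m, E i S <;> by_cases h2 : E m S <;> simp [h1, h2]
    have hD : Dep (A m : Set Site)ᶜ (ind fun S => ∀ i < m, E i S) := by
      intro S S' hS
      have hiff : (∀ i < m, E i S) ↔ ∀ i < m, E i S' := by
        refine forall₂_congr fun i hi => ?_
        have h1 := hd m (by omega) i hi S S' hS
        unfold ind at h1
        by_cases h2 : E i S <;> by_cases h3 : E i S' <;> simp [h2, h3] at h1 ⊢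
      unfold ind
      by_cases h2 : ∀ i < m, E i S
      · rw [if_pos h2, if_pos (hiff.1 h2)]
      · rw [if_neg h2, if_neg fun h3 => h2 (hiff.2 h3)]
    rw [e, ← gib_dlr (hA m (by omega))]
    calc _ ≤ gib Λ S₀ j fun S => u * ind (fun S => ∀ i < m, E i S) S := by
          refine gib_mono fun S hS => ?_
          rw [gib_pull hD, mul_comm]
          refine mul_le_mul_of_nonneg_right (h m (by omega) S hS) ?_
          unfold ind
          split_ifs <;> norm_num
      _ ≤ u ^ (m + 1) := by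
          rw [gib_mul, pow_succ']
          exact mul_le_mul_of_nonneg_left ih' hu

end

theorem Gib_energy {D S : Finset Site} (h : S ⊆ D) :
    energy D S + (bd S).card = (touchE D).card := by
  have hs : bd S ⊆ touchE D := by
    intro e he
    rcases mem_touchE.1 (Finset.mem_filter.1 he).1 with h2 | h2
    · exact mem_touchE.2 (Or.inl (h h2))
    · exact mem_touchE.2 (Or.inr (h h2))
  have hi : Function.Injective fun e : Edge => s(lft e, rgt e) := fun e e' he =>
    edge_ext (Sym2.eq_iff.1 he)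
  have hset : {e ∈ tri.edgeSet | (∃ u ∈ e, u ∈ D) ∧ ∀ u ∈ e, ∀ v ∈ e, (u ∈ S ↔ v ∈ S)} =
      (((touchE D \ bd S).image fun e : Edge => s(lft e, rgt e) : Finset (Sym2 Site)) :
        Set (Sym2 Site)) := by
    ext z
    simp only [Set.mem_ofPred_eq, Finset.coe_image, Set.mem_image, Finset.mem_coe,
      Finset.mem_sdiff, mem_touchE, mem_bd, not_not, Touch]
    constructor
    · rintro ⟨h1, h2, h3⟩
      obtain ⟨e, rfl⟩ : ∃ e : Edge, z = s(lft e, rgt e) := by
        induction z using Sym2.ind with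
        | _ a b =>
          obtain ⟨e, he | he⟩ := adj_iff.1 (tri.mem_edgeSet.1 h1)
          · exact ⟨e, by rw [he.1, he.2]⟩
          · exact ⟨e, by rw [he.1, he.2, Sym2.eq_swap]⟩
      refine ⟨e, ⟨?_, h3 _ (Sym2.mem_mk_left _ _) _ (Sym2.mem_mk_right _ _)⟩, rfl⟩
      obtain ⟨u, hu, hu'⟩ := h2
      rcases Sym2.mem_iff.1 hu with rfl | rfl
      · exact Or.inl hu'
      · exact Or.inr hu'
    · rintro ⟨e, ⟨h1, h2⟩, rfl⟩
      refine ⟨tri.mem_edgeSet.2 (adj_lft_rgt e), ?_, ?_⟩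
      · rcases h1 with h1 | h1
        · exact ⟨_, Sym2.mem_mk_left _ _, h1⟩
        · exact ⟨_, Sym2.mem_mk_right _ _, h1⟩
      · intro u hu v hv
        rcases Sym2.mem_iff.1 hu with rfl | rfl <;> rcases Sym2.mem_iff.1 hv with rfl | rfl <;>
          tauto
  rw [energy, hset, Set.ncard_coe_finset, Finset.card_image_of_injective _ hi,
    Finset.card_sdiff_add_card_eq_card hs]

/-- the energy is the number of edges that touch `D` minus the number of walls -/
theorem expect_eq (β : ℝ) (D : Finset Site) (F : Finset Site → ℝ) :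
    expect β D F = gib D ∅ (fun _ => β / 2) F := by
  refine Gib_ratio (c := -β * (touchE D).card) (fun S hS => ?_) fun S _ => by
    rw [show (∅ : Finset Site) ∆ S = S from bot_symmDiff S]
  rw [show (∅ : Finset Site) ∆ S = S from bot_symmDiff S]
  have h1 := Gib_energy (Finset.mem_powerset.1 hS)
  have h2 : (energy D S : ℝ) = (touchE D).card - (bd S).card := by
    rw [← h1]
    push_cast
    ring
  rw [h2, ham]
  simp only [ew, Finset.sum_const, nsmul_eq_mul]
  ring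

end Pool.Agent.TAF.U
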