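import Pool.Agent.P.MP_cb4022_pr.U.Curve
import Pool.Agent.P.MP_cb4022_pr.U.Gib

/-! Couplings; a partition of unity (paper I1). -/

open scoped Classical symmDiff

noncomputable section

namespace Pool.Agent.TAF.U

def law (D : Finset Site) (j : Site → ℝ) (S : Finset Site) : ℝ := gib D ∅ j (ind fun T => T = S)

theorem law_eq (β : ℝ) (D S : Finset Site) :
    prob β D (fun T => T = S) = law D (fun _ => β / 2) S := by
  exact expect_eq β D _

section
variable {D : Finset Site} {j j' j'' : Site → ℝ} {R R' R'' : Finset Site → Finset Site → Prop}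
  {E : Finset Site → Prop} {ε ε' : ℝ}

theorem law_nonneg (S : Finset Site) : 0 ≤ law D j S := by
  refine (gib_const 0).symm.trans_le (gib_mono fun T _ => ?_)
  unfold ind
  split_ifs <;> norm_num
theorem sum_law (F : Finset Site → ℝ) : ∑ S ∈ D.powerset, law D j S * F S = gib D ∅ j F := by
  simp only [law, mul_comm _ (F _), ← gib_mul, ← gib_sum]
  refine gib_congr fun T hT => ?_
  have h : T ∈ D.powerset := Finset.mem_powerset.2 fun x hx => by
    by_contra h
    simpa using (hT x h).1 hx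
  simp [ind, h]

theorem Cpl_div {x q : ℝ} (h0 : 0 ≤ x) (h : x ≤ q) : x * q / q = x := by
  rcases eq_or_ne q 0 with rfl | hq
  · simp [le_antisymm h h0]
  · exact mul_div_cancel_right₀ x hq

/-- a subcoupling is completed by the product of the rests -/
theorem Cpl_sub {P Q : Finset Site → ℝ} {π : Finset Site → Finset Site → ℝ}
    (h0 : ∀ S S', 0 ≤ π S S') (hR : ∀ S S', ¬ R S S' → π S S' = 0)
    (hP : ∀ S, ∑ S' ∈ D.powerset, π S S' ≤ P S) (hQ : ∀ S', ∑ S ∈ D.powerset, π S S' ≤ Q S')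
    (hs : ∑ S ∈ D.powerset, P S = ∑ S ∈ D.powerset, Q S)
    (he : ∑ S ∈ D.powerset, (P S - ∑ S' ∈ D.powerset, π S S') ≤ ε) : Coupling D P Q R ε := by
  obtain ⟨a, ha⟩ : ∃ a : Finset Site → ℝ, a = fun S => P S - ∑ S' ∈ D.powerset, π S S' := ⟨_, rfl⟩
  obtain ⟨b, hb⟩ : ∃ b : Finset Site → ℝ, b = fun S' => Q S' - ∑ S ∈ D.powerset, π S S' :=
    ⟨_, rfl⟩
  have a0 : ∀ S, 0 ≤ a S := fun S => ha ▸ sub_nonneg.2 (hP S)
  have b0 : ∀ S, 0 ≤ b S := fun S => hb ▸ sub_nonneg.2 (hQ S)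
  have e : ∑ S ∈ D.powerset, b S = ∑ S ∈ D.powerset, a S := by
    simp only [ha, hb, Finset.sum_sub_distrib, hs]
    rw [Finset.sum_comm]
  have d0 : 0 ≤ ∑ S ∈ D.powerset, a S := Finset.sum_nonneg fun S _ => a0 S
  have r1 : ∀ S ∈ D.powerset, ∑ S' ∈ D.powerset, a S * b S' / ∑ T ∈ D.powerset, a T = a S :=
    fun S hS => by
      rw [← Finset.sum_div, ← Finset.mul_sum, e]
      exact Cpl_div (a0 S) (Finset.single_le_sum (fun T _ => a0 T) hS)
  refine ⟨fun S S' => π S S' + a S * b S' / ∑ T ∈ D.powerset, a T,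
    fun S S' => add_nonneg (h0 S S') (div_nonneg (mul_nonneg (a0 S) (b0 S')) d0),
    fun S hS => ?_, fun S' hS => ?_, ?_⟩
  · rw [Finset.sum_add_distrib, r1 S hS, ha]
    ring
  · rw [Finset.sum_add_distrib, ← Finset.sum_div, ← Finset.sum_mul, mul_comm, ← e,
      Cpl_div (b0 S') (Finset.single_le_sum (fun T _ => b0 T) hS), hb]
    ring
  · refine le_trans (Finset.sum_le_sum fun S hS => ?_) (ha ▸ he)
    rw [← r1 S hS]
    refine Finset.sum_le_sum fun S' _ => ?_
    split_ifs with h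
    · exact div_nonneg (mul_nonneg (a0 S) (b0 S')) d0
    · simp only [hR S S' h, zero_add, le_refl]

/-- Maximal coupling of the laws of the classes: with `p`, `q` the masses of the classes and
`m = min p q`, couple independently inside each class with mass `m`, and independently the
rests. -/
theorem cpl_tv (hR : Equivalence R)
    (h : ∀ F : Finset Site → ℝ, (∀ S S', R S S' → F S = F S') → (∀ S, |F S| ≤ 1) →
      |gib D ∅ j' F - gib D ∅ j F| ≤ ε) : Coupling D (law D j) (law D j') R ε := by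
  obtain ⟨c, hc⟩ : ∃ c : (Site → ℝ) → Finset Site → ℝ,
      c = fun i S => ∑ T ∈ D.powerset, if R S T then law D i T else 0 := ⟨_, rfl⟩
  have c0 : ∀ i S, 0 ≤ c i S := fun i S => hc ▸ Finset.sum_nonneg fun T _ => by
    split_ifs
    exacts [law_nonneg T, le_rfl]
  have c1 : ∀ i S S', R S S' → c i S = c i S' := fun i S S' h => by
    simp only [hc]
    exact Finset.sum_congr rfl fun T _ =>
      if_congr ⟨fun h' => hR.trans (hR.symm h) h', fun h' => hR.trans h h'⟩ rfl rfl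
  have c2 : ∀ i, ∀ S ∈ D.powerset, law D i S ≤ c i S := fun i S hS => by
    have := Finset.single_le_sum (f := fun T => if R S T then law D i T else 0) (fun T _ => by
      split_ifs
      exacts [law_nonneg T, le_rfl]) hS
    rwa [if_pos (hR.refl S), ← show c i S = _ from congrFun (congrFun hc i) S] at this
  obtain ⟨π, hπ⟩ : ∃ π : Finset Site → Finset Site → ℝ, π = fun S S' =>
      if R S S' then law D j S * law D j' S' / max (c j S) (c j' S) else 0 := ⟨_, rfl⟩
  have r1 : ∀ S, ∑ S' ∈ D.powerset, π S S' = law D j S * c j' S / max (c j S) (c j' S) := fun S => by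
    rw [show c j' S = _ from congrFun (congrFun hc j') S, Finset.mul_sum, Finset.sum_div]
    refine Finset.sum_congr rfl fun T _ => ?_
    simp only [hπ, hc]
    split_ifs <;> simp
  have r2 : ∀ S', ∑ S ∈ D.powerset, π S S' = law D j' S' * c j S' / max (c j S') (c j' S') :=
    fun S' => by
      nth_rw 1 [show c j S' = _ from congrFun (congrFun hc j) S']
      rw [Finset.mul_sum, Finset.sum_div]
      refine Finset.sum_congr rfl fun T _ => ?_
      simp only [hπ]
      by_cases h : R T S'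
      · rw [if_pos h, if_pos (hR.symm h), c1 j _ _ h, c1 j' _ _ h, mul_comm]
      · rw [if_neg h, if_neg fun h' => h (hR.symm h')]
        simp
  have le : ∀ {x y z : ℝ}, 0 ≤ x → 0 ≤ y → y ≤ z → x * y / z ≤ x := fun hx hy h => by
    rw [mul_div_assoc]
    exact mul_le_of_le_one_right hx (div_le_one_of_le₀ h (hy.trans h))
  refine Cpl_sub (π := π) (fun S S' => ?_) (fun S S' h => by simp [hπ, h])
    (fun S => (r1 S).trans_le (le (law_nonneg S) (c0 _ _) (le_max_right _ _)))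
    (fun S => (r2 S).trans_le (le (law_nonneg S) (c0 _ _) (le_max_left _ _))) ?_ ?_
  · simp only [hπ]
    split_ifs
    · exact div_nonneg (mul_nonneg (law_nonneg _) (law_nonneg _)) (le_max_of_le_left (c0 _ _))
    · exact le_rfl
  · have := fun i => sum_law (D := D) (j := i) fun _ => 1
    simp only [mul_one, gib_const] at this
    rw [this, this]
  · have f1 : ∀ S S', R S S' → ind (fun S => c j' S < c j S) S = ind (fun S => c j' S < c j S) S' :=
      fun S S' h => by simp only [ind, c1 _ _ _ h]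
    refine le_trans (le_of_eq ?_) ((neg_le_abs _).trans (h _ f1 fun S => by
      unfold ind
      split_ifs <;> norm_num))
    rw [neg_sub, ← sum_law, ← sum_law]
    have e1 : ∑ S ∈ D.powerset, law D j' S * ind (fun S => c j' S < c j S) S =
        ∑ S ∈ D.powerset, (∑ S' ∈ D.powerset, π S S') * ind (fun S => c j' S < c j S) S := by
      simp only [Finset.sum_mul]
      rw [Finset.sum_comm]
      refine Finset.sum_congr rfl fun S' hS => ?_
      have e2 : ∑ S ∈ D.powerset, π S S' * ind (fun S => c j' S < c j S) S =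
          ∑ S ∈ D.powerset, π S S' * ind (fun S => c j' S < c j S) S' :=
        Finset.sum_congr rfl fun S _ => by
          by_cases h : R S S'
          · rw [f1 _ _ h]
          · simp [hπ, h]
      rw [e2, ← Finset.sum_mul, r2]
      unfold ind
      split_ifs with h
      · rw [max_eq_left h.le, Cpl_div (law_nonneg _) ((c2 _ _ hS).trans h.le)]
      · simp
    rw [e1, ← Finset.sum_sub_distrib]
    refine Finset.sum_congr rfl fun S hS => ?_
    unfold ind
    split_ifs with h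
    · simp
    · rw [r1, max_eq_right (not_lt.1 h), Cpl_div (law_nonneg _) ((c2 _ _ hS).trans (not_lt.1 h))]
      simp

theorem cpl_mono {P Q : Finset Site → ℝ} (h : Coupling D P Q R ε)
    (hR : ∀ S ⊆ D, ∀ S' ⊆ D, R S S' → R' S S') (he : ε ≤ ε') : Coupling D P Q R' ε' := by
  obtain ⟨π, h0, h1, h2, h3⟩ := h
  refine ⟨π, h0, h1, h2, (Finset.sum_le_sum fun S hS => Finset.sum_le_sum fun S' hS' => ?_).trans
    (h3.trans he)⟩
  by_cases h : R S S'
  · rw [if_pos h, if_pos (hR S (Finset.mem_powerset.1 hS) S' (Finset.mem_powerset.1 hS') h)]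
  · rw [if_neg h]
    split_ifs
    exacts [h0 S S', le_rfl]

/-- `π S S'' = ∑ S', π₁ S S' * π₂ S' S'' / Q S'` -/
theorem cpl_glue {P Q T : Finset Site → ℝ} (h : Coupling D P Q R ε) (h' : Coupling D Q T R' ε')
    (hR : ∀ S S' S'', R S S' → R' S' S'' → R'' S S'') : Coupling D P T R'' (ε + ε') := by
  obtain ⟨π, h0, h1, h2, h3⟩ := h
  obtain ⟨π', g0, g1, g2, g3⟩ := h'
  have q0 : ∀ S' ∈ D.powerset, 0 ≤ Q S' := fun S' hS => h2 S' hS ▸ Finset.sum_nonneg fun S _ => h0 S S'
  have a1 : ∀ S ∈ D.powerset, ∀ S' ∈ D.powerset,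
      ∑ S'' ∈ D.powerset, π S S' * π' S' S'' / Q S' = π S S' := fun S hS S' hS' => by
    rw [← Finset.sum_div, ← Finset.mul_sum, g1 S' hS']
    exact Cpl_div (h0 _ _) (h2 S' hS' ▸ Finset.single_le_sum (fun T _ => h0 T S') hS)
  have a2 : ∀ S'' ∈ D.powerset, ∀ S' ∈ D.powerset,
      ∑ S ∈ D.powerset, π S S' * π' S' S'' / Q S' = π' S' S'' := fun S hS S' hS' => by
    rw [← Finset.sum_div, ← Finset.sum_mul, h2 S' hS', mul_comm]
    exact Cpl_div (g0 _ _) (g1 S' hS' ▸ Finset.single_le_sum (fun T _ => g0 S' T) hS)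
  have n0 : ∀ S, ∀ S' ∈ D.powerset, ∀ S'', 0 ≤ π S S' * π' S' S'' / Q S' := fun S S' hS S'' =>
    div_nonneg (mul_nonneg (h0 _ _) (g0 _ _)) (q0 S' hS)
  refine ⟨fun S S'' => ∑ S' ∈ D.powerset, π S S' * π' S' S'' / Q S',
    fun S S'' => Finset.sum_nonneg fun S' hS => n0 S S' hS S'', fun S hS => ?_, fun S hS => ?_, ?_⟩
  · rw [Finset.sum_comm, Finset.sum_congr rfl (a1 S hS), h1 S hS]
  · rw [Finset.sum_comm, Finset.sum_congr rfl (a2 S hS), g2 S hS]
  · have b1 : ∑ S ∈ D.powerset, ∑ S'' ∈ D.powerset, ∑ S' ∈ D.powerset,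
        (if R S S' then 0 else π S S' * π' S' S'' / Q S') ≤ ε := by
      refine le_trans (le_of_eq (Finset.sum_congr rfl fun S hS => ?_)) h3
      rw [Finset.sum_comm]
      refine Finset.sum_congr rfl fun S' hS' => ?_
      split_ifs
      · simp
      · exact a1 S hS S' hS'
    have b2 : ∑ S ∈ D.powerset, ∑ S'' ∈ D.powerset, ∑ S' ∈ D.powerset,
        (if R' S' S'' then 0 else π S S' * π' S' S'' / Q S') ≤ ε' := by
      refine le_trans (le_of_eq ?_) g3
      rw [Finset.sum_comm, Finset.sum_comm (f := fun S S' => if R' S S' then 0 else π' S S')]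
      refine Finset.sum_congr rfl fun S hS => ?_
      rw [Finset.sum_comm]
      refine Finset.sum_congr rfl fun S' hS' => ?_
      split_ifs
      · simp
      · exact a2 S hS S' hS'
    refine le_trans ?_ (add_le_add b1 b2)
    simp only [← Finset.sum_add_distrib]
    refine Finset.sum_le_sum fun S _ => Finset.sum_le_sum fun S'' _ => ?_
    by_cases h : R'' S S''
    · rw [if_pos h]
      refine Finset.sum_nonneg fun S' hS => ?_
      have := n0 S S' hS S''
      split_ifs <;> linarith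
    · rw [if_neg h]
      refine Finset.sum_le_sum fun S' hS => ?_
      have := n0 S S' hS S''
      split_ifs with e1 e2
      · exact absurd (hR _ _ _ e1 e2) h
      all_goals linarith

theorem cpl_left {Q : Finset Site → ℝ} (h : Coupling D (law D j) Q R ε)
    (hE : gib D ∅ j (ind fun S => ¬ E S) ≤ ε') :
    Coupling D (law D j) Q (fun S S' => R S S' ∧ E S) (ε + ε') := by
  obtain ⟨π, h0, h1, h2, h3⟩ := h
  refine ⟨π, h0, h1, h2, le_trans ?_ (add_le_add h3 hE)⟩
  rw [← sum_law, ← Finset.sum_add_distrib]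
  refine Finset.sum_le_sum fun S hS => ?_
  rw [← h1 S hS, Finset.sum_mul, ← Finset.sum_add_distrib]
  refine Finset.sum_le_sum fun S' _ => ?_
  have := h0 S S'
  by_cases a : R S S' <;> by_cases b : E S <;> simp [ind, a, b, this]

theorem cpl_right {P : Finset Site → ℝ} (h : Coupling D P (law D j) R ε)
    (hE : gib D ∅ j (ind fun S => ¬ E S) ≤ ε') :
    Coupling D P (law D j) (fun S S' => R S S' ∧ E S') (ε + ε') := by
  obtain ⟨π, h0, h1, h2, h3⟩ := h
  refine ⟨π, h0, h1, h2, le_trans ?_ (add_le_add h3 hE)⟩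
  rw [← sum_law, Finset.sum_comm, Finset.sum_comm (f := fun S S' => if R S S' then 0 else π S S'),
    ← Finset.sum_add_distrib]
  refine Finset.sum_le_sum fun S hS => ?_
  rw [← h2 S hS, Finset.sum_mul, ← Finset.sum_add_distrib]
  refine Finset.sum_le_sum fun S' _ => ?_
  have := h0 S' S
  by_cases a : R S' S <;> by_cases b : E S <;> simp [ind, a, b, this]

end

theorem Cpl_coord (x y : Site) :
    |(x.1 : ℝ) - y.1| ≤ 7 / 6 * dst x y ∧ |(x.2 : ℝ) - y.2| ≤ 7 / 6 * dst x y := by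
  have h := dst_sq x y
  have h0 := dst_nonneg x y
  push_cast at h
  constructor <;> refine abs_le_of_sq_le_sq ?_ (by positivity) <;>
    nlinarith [sq_nonneg ((x.1 : ℝ) - y.1 + 2 * (x.2 - y.2)),
      sq_nonneg (2 * ((x.1 : ℝ) - y.1) + (x.2 - y.2)), sq_nonneg (dst x y)]

theorem Cpl_box {x y : Site} {r : ℝ} (h1 : |(x.1 : ℝ) - y.1| ≤ r) (h2 : |(x.2 : ℝ) - y.2| ≤ r) :
    dst x y ≤ 2 * r := by
  have h := dst_sq x y
  have h0 := (abs_nonneg _).trans h1
  push_cast at h
  have e1 := sq_le_sq' (abs_le.1 h1).1 (abs_le.1 h1).2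
  have e2 := sq_le_sq' (abs_le.1 h2).1 (abs_le.1 h2).2
  refine le_trans (le_abs_self _) (abs_le_of_sq_le_sq ?_ (by positivity))
  nlinarith [sq_nonneg ((x.1 : ℝ) - y.1 - (x.2 - y.2))]

theorem Cpl_mul {f g : Site → ℝ} {L L' : ℝ} (hf : Lip f L) (hg : Lip g L') (f1 : ∀ x, |f x| ≤ 1)
    (g1 : ∀ x, |g x| ≤ 1) : Lip (fun x => f x * g x) (L + L') := fun x y => by
  rw [show f x * g x - f y * g y = (f x - f y) * g x + f y * (g x - g y) by ring, add_mul]
  refine (abs_add_le _ _).trans (add_le_add ?_ ?_) <;> rw [abs_mul]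
  · exact (mul_le_of_le_one_right (abs_nonneg _) (g1 x)).trans (hf x y)
  · exact (mul_le_of_le_one_left (abs_nonneg _) (f1 y)).trans (hg x y)

theorem Cpl_rho (u : ℝ) (k : ℤ) : |u - 3 * round (u / 3)| ≤ |u - 3 * k| := by
  have e : ∀ k : ℤ, |u - 3 * k| = 3 * |u / 3 - k| := fun k => by
    rw [show u - 3 * k = 3 * (u / 3 - k) by ring, abs_mul, abs_of_pos three_pos]
  rw [e, e]
  linarith [round_le (u / 3) k]

/-- the partition of unity on the line -/
theorem Cpl_one : ∃ (f : Bool → ℝ → ℝ) (B : Bool → Set ℝ) (c : Bool → ℝ → ℤ),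
    (∀ b u, 0 ≤ f b u) ∧ (∀ u, f false u + f true u = 1) ∧
    (∀ b u v, |f b u - f b v| ≤ 2 * |u - v|) ∧ (∀ b u v, f b u ≠ 0 → |v - u| ≤ 1 / 4 → v ∈ B b) ∧
    (∀ b, ∀ u ∈ B b, ∀ v ∈ B b, |u - v| < 1 / 2 → c b u = c b v) ∧
    ∀ b, ∀ u ∈ B b, ∀ v ∈ B b, c b u = c b v → |u - v| ≤ 5 / 2 := by
  obtain ⟨ρ, hρ⟩ : ∃ ρ : ℝ → ℝ, ρ = fun u : ℝ => |u - 3 * (round (u / 3) : ℝ)| := ⟨_, rfl⟩
  have r1 : ∀ u v, ρ u ≤ ρ v + |u - v| := fun u v => by
    simp only [hρ]
    refine (Cpl_rho u (round (v / 3))).trans ?_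
    rw [add_comm]
    exact abs_sub_le _ _ _
  have r2 : ∀ u, 1 / 2 < ρ u → ρ (u - 3 / 2) < 1 := fun u h => by
    simp only [hρ] at h ⊢
    have e1 := Cpl_rho (u - 3 / 2) (round (u / 3))
    have e2 := Cpl_rho (u - 3 / 2) (round (u / 3) - 1)
    have e3 := abs_le.1 (abs_sub_round (u / 3))
    push_cast at e2
    rcases lt_abs.1 h with h | h
    · exact e1.trans_lt (abs_lt.2 ⟨by linarith, by linarith⟩)
    · exact e2.trans_lt (abs_lt.2 ⟨by linarith, by linarith⟩)
  obtain ⟨τ, hτ⟩ : ∃ τ : ℝ → ℝ, τ = fun u => max 0 (min 1 (2 * (1 - ρ u))) := ⟨_, rfl⟩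
  have t1 : ∀ u v, |τ u - τ v| ≤ 2 * |u - v| := fun u v => by
    simp only [hτ]
    refine (abs_max_sub_max_le_max _ _ _ _).trans (max_le (by simp) ?_)
    refine (abs_min_sub_min_le_max _ _ _ _).trans (max_le (by simp) ?_)
    have e1 := r1 u v
    have e2 := r1 v u
    rw [abs_sub_comm] at e2
    exact abs_le.2 ⟨by linarith, by linarith⟩
  refine ⟨fun b u => if b then 1 - τ u else τ u,
    fun b => {u | ρ (u - if b then 3 / 2 else 0) ≤ 5 / 4},
    fun b u => round ((u - if b then 3 / 2 else 0) / 3), fun b u => ?_, fun u => by simp,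
    fun b u v => ?_, fun b u v h h' => ?_, fun b u hu v hv h => ?_, fun b u hu v hv h => ?_⟩
  · cases b
    · exact hτ ▸ le_max_left _ _
    · exact hτ ▸ sub_nonneg.2 (max_le zero_le_one (min_le_left _ _))
  · cases b
    · exact t1 u v
    · simpa [abs_sub_comm] using t1 v u
  · have e := r1 (v - if b then 3 / 2 else 0) (u - if b then 3 / 2 else 0)
    rw [sub_sub_sub_cancel_right] at e
    suffices ρ (u - if b then 3 / 2 else 0) < 1 by
      show ρ _ ≤ _
      linarith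
    cases b
    · by_contra h1
      simp only [Bool.false_eq_true, if_false, sub_zero, not_lt, hτ] at h h1
      exact h (max_eq_left ((min_le_right _ _).trans (by linarith)))
    · refine r2 u (by_contra fun h1 => ?_)
      simp only [if_true, hτ] at h
      rw [min_eq_left (by linarith), max_eq_right zero_le_one, sub_self] at h
      exact h rfl
  · simp only [hρ, Set.mem_ofPred_eq, abs_le, abs_lt] at hu hv h
    beta_reduce
    generalize round ((u - if b then 3 / 2 else 0) / 3) = k at *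
    generalize round ((v - if b then 3 / 2 else 0) / 3) = k' at *
    have e1 : (k : ℝ) < k' + 1 := by linarith [hu.1, hv.2, h.2]
    have e2 : (k' : ℝ) < k + 1 := by linarith [hu.2, hv.1, h.1]
    norm_cast at e1 e2
    omega
  · simp only [hρ, Set.mem_ofPred_eq, abs_le] at hu hv h ⊢
    rw [h] at hu
    exact ⟨by linarith [hu.1, hv.2], by linarith [hu.2, hv.1]⟩

/-- Products of the trapezoid `τ u = max 0 (min 1 (2 * (1 - |u - 3 * round (u / 3)|)))` and of
`1 - τ` in the coordinates `x.1 / l`, `x.2 / l`; the cells of `τ` are the intervals of radius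
`5 / 4` round `3 k`, those of `1 - τ` round `3 k + 3 / 2`. -/
theorem exists_part {l : ℝ} (hl : 4 ≤ l) : ∃ (χ : Fin 4 → Site → ℝ) (A : Fin 4 → Set Site)
    (cell : Fin 4 → Site → ℤ × ℤ), (∀ i x, 0 ≤ χ i x) ∧ (∀ x, ∑ i, χ i x = 1) ∧
      (∀ i, Lip (χ i) (5 / l)) ∧ (∀ i x y, χ i x ≠ 0 → dst y x ≤ l / 5 → y ∈ A i) ∧
      (∀ i, ∀ x ∈ A i, ∀ y ∈ A i, dst x y ≤ 1 → cell i x = cell i y) ∧
      ∀ i, ∀ x ∈ A i, ∀ y ∈ A i, cell i x = cell i y → dst x y ≤ 5 * l := by
  obtain ⟨f, B, c, f0, f1, f2, f3, f4, f5⟩ := Cpl_one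
  have l0 : 0 < l := by linarith
  have k : ∀ a b : ℤ, |(a : ℝ) / l - b / l| = |(a : ℝ) - b| / l := fun a b => by
    rw [← sub_div, abs_div, abs_of_pos l0]
  have f6 : ∀ b u, |f b u| ≤ 1 := fun b u => by
    have := f0 false u
    have := f0 true u
    have := f1 u
    rw [abs_of_nonneg (f0 b u)]
    cases b <;> linarith
  have lp : ∀ b (g : Site → ℤ), (∀ x y, |(g x : ℝ) - g y| ≤ 7 / 6 * dst x y) →
      Lip (fun x => f b (g x / l)) (5 / 2 / l) := fun b g hg x y => by
    refine (f2 b _ _).trans ?_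
    rw [k, ← mul_div_assoc, div_mul_eq_mul_div]
    exact div_le_div_of_nonneg_right (by linarith [hg x y, dst_nonneg x y]) l0.le
  refine ⟨fun i x => f (![false, false, true, true] i) (x.1 / l) *
      f (![false, true, false, true] i) (x.2 / l),
    fun i => {x | x.1 / l ∈ B (![false, false, true, true] i) ∧
      x.2 / l ∈ B (![false, true, false, true] i)},
    fun i x => (c (![false, false, true, true] i) (x.1 / l),
      c (![false, true, false, true] i) (x.2 / l)),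
    fun i x => mul_nonneg (f0 _ _) (f0 _ _), fun x => ?_, fun i => ?_, fun i x y h h' => ⟨?_, ?_⟩,
    fun i x hx y hy h => Prod.ext ?_ ?_, fun i x hx y hy h => ?_⟩
  · simp only [Fin.sum_univ_four, Matrix.cons_val]
    linear_combination (f false (x.2 / l) + f true (x.2 / l)) * f1 (x.1 / l) + f1 (x.2 / l)
  · exact (Cpl_mul (lp _ Prod.fst fun x y => (Cpl_coord x y).1)
      (lp _ Prod.snd fun x y => (Cpl_coord x y).2) (fun _ => f6 _ _) fun _ => f6 _ _).mono
        (le_of_eq (by ring))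
  · refine f3 _ _ _ (left_ne_zero_of_mul h) ?_
    rw [k, div_le_iff₀ l0]
    linarith [(Cpl_coord y x).1]
  · refine f3 _ _ _ (right_ne_zero_of_mul h) ?_
    rw [k, div_le_iff₀ l0]
    linarith [(Cpl_coord y x).2]
  · refine f4 _ _ hx.1 _ hy.1 ?_
    rw [k, div_lt_iff₀ l0]
    linarith [(Cpl_coord x y).1]
  · refine f4 _ _ hx.2 _ hy.2 ?_
    rw [k, div_lt_iff₀ l0]
    linarith [(Cpl_coord x y).2]
  · have h1 := f5 _ _ hx.1 _ hy.1 (congrArg Prod.fst h)
    have h2 := f5 _ _ hx.2 _ hy.2 (congrArg Prod.snd h)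
    rw [k, div_le_iff₀ l0] at h1 h2
    linarith [Cpl_box h1 h2]

theorem exists_cut (Z : Finset ℂ) {a : ℝ} (ha : 0 < a) : ∃ ψ : Site → ℝ,
    (∀ x, ψ x ∈ Set.Icc (0 : ℝ) 1) ∧ Lip ψ (1 / a) ∧ (∀ x, ψ x ≠ 0 → ∀ z ∈ Z, a < ‖pos x - z‖) ∧
      ∀ x, (∀ z ∈ Z, 2 * a ≤ ‖pos x - z‖) → ψ x = 1 := by
  induction Z using Finset.induction_on with
  | empty =>
    exact ⟨fun _ => 1, fun _ => ⟨zero_le_one, le_rfl⟩, fun x y => by
      have := dst_nonneg x y
      simp only [sub_self, abs_zero]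
      positivity, by simp, fun _ _ => rfl⟩
  | insert z Z _ ih =>
    obtain ⟨ψ, h1, h2, h3, h4⟩ := ih
    refine ⟨fun x => max 0 (min (ψ x) (‖pos x - z‖ / a - 1)),
      fun x => ⟨le_max_left _ _, max_le zero_le_one ((min_le_left _ _).trans (h1 x).2)⟩,
      fun x y => ?_, fun x hx => ?_, fun x hx => ?_⟩
    · refine (abs_max_sub_max_le_max _ _ _ _).trans (max_le (by
        simpa using (abs_nonneg _).trans (h2 x y)) ?_)
      refine (abs_min_sub_min_le_max _ _ _ _).trans (max_le (h2 x y) ?_)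
      rw [sub_sub_sub_cancel_right, ← sub_div, abs_div, abs_of_pos ha, one_div, inv_mul_eq_div]
      refine div_le_div_of_nonneg_right ((abs_norm_sub_norm_le _ _).trans_eq ?_) ha.le
      rw [sub_sub_sub_cancel_right, dst]
    · have h5 : 0 < min (ψ x) (‖pos x - z‖ / a - 1) := by
        by_contra h
        exact hx (max_eq_left (not_lt.1 h))
      rw [lt_min_iff, sub_pos, one_lt_div ha] at h5
      exact Finset.forall_mem_insert _ _ _ |>.2 ⟨h5.2, h3 x h5.1.ne'⟩
    · have h5 := (le_div_iff₀ ha).2 (hx z (Finset.mem_insert_self _ _))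
      simp only [h4 x fun w hw => hx w (Finset.mem_insert_of_mem hw)]
      rw [min_eq_left (by linarith), max_eq_right zero_le_one]

theorem Lip.mul {f g : Site → ℝ} {L L' : ℝ} (hf : Lip f L) (hg : Lip g L') (f1 : ∀ x, |f x| ≤ 1)
    (g1 : ∀ x, |g x| ≤ 1) : Lip (fun x => f x * g x) (L + L') := by
  exact Cpl_mul hf hg f1 g1

theorem exists_cover (M : ℝ) : ∃ N : ℕ, ∀ s : ℝ, 1 ≤ s → ∃ P : Finset Site, P.card ≤ N ∧
    ∀ x ∈ bal 0 (M * s), ∃ p ∈ P, x ∈ bal p s := by
  refine ⟨(Finset.Icc (-⌈3 * |M|⌉) ⌈3 * |M|⌉ ×ˢ Finset.Icc (-⌈3 * |M|⌉) ⌈3 * |M|⌉).card,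
    fun s hs => ?_⟩
  obtain ⟨k, k1, k2⟩ : ∃ k : ℤ, s / 2 < k ∧ (k : ℝ) - 1 ≤ s / 2 :=
    ⟨⌊s / 2⌋ + 1, by push_cast; exact Int.lt_floor_add_one _, by simpa using Int.floor_le _⟩
  have k0 : 0 < k := by exact_mod_cast (show (0 : ℝ) < k by linarith)
  have h1 : ∀ a : ℤ, |(a : ℝ) - (0 : ℤ)| ≤ 7 / 6 * (M * s) →
      a / k ∈ Finset.Icc (-⌈3 * |M|⌉) ⌈3 * |M|⌉ := fun a h => by
    have h2 : |a| ≤ ⌈3 * |M|⌉ * k := by
      have e1 := Int.le_ceil (3 * |M|)
      have e2 := le_abs_self M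
      have e3 := abs_nonneg M
      rw [Int.cast_zero, sub_zero] at h
      have : |(a : ℝ)| ≤ ⌈3 * |M|⌉ * k := by nlinarith
      exact_mod_cast this
    rw [abs_le] at h2
    exact Finset.mem_Icc.2 ⟨Int.le_ediv_of_mul_le k0 (by linarith [h2.1]),
      Int.ediv_le_of_le_mul k0 h2.2⟩
  have h2 : ∀ a : ℤ, |(a : ℝ) - (k * (a / k) : ℤ)| ≤ s / 2 := fun a => by
    have e1 := Int.emod_nonneg a k0.ne'
    have e2 := Int.emod_lt_of_pos a k0
    have e3 : |a - k * (a / k)| ≤ k - 1 := by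
      rw [← Int.emod_def, abs_of_nonneg e1]
      omega
    exact le_trans (by exact_mod_cast e3) k2
  refine ⟨_, Finset.card_image_le (f := fun q : ℤ × ℤ => ((k * q.1, k * q.2) : Site)),
    fun x hx => ⟨(k * (x.1 / k), k * (x.2 / k)), Finset.mem_image.2 ⟨(x.1 / k, x.2 / k),
      Finset.mem_product.2 ⟨h1 _ ?_, h1 _ ?_⟩, rfl⟩, mem_bal.2 ?_⟩⟩
  · exact (Cpl_coord x 0).1.trans (by linarith [mem_bal.1 hx])
  · exact (Cpl_coord x 0).2.trans (by linarith [mem_bal.1 hx])
  · linarith [Cpl_box (x := x) (y := (k * (x.1 / k), k * (x.2 / k))) (h2 x.1) (h2 x.2)]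

end Pool.Agent.TAF.U
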