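import Pool.Agent.P.MP_cb4022_pr.Model

/-! Domain-wall loops as closed curves, the distance between collections of loops, couplings. -/

open scoped Classical

noncomputable section

namespace Pool.Agent.TAF

/-- An ordered pair of adjacent sites, the first of colour `2` (in `S`), the second of colour `1`.
It stands for the dual hexagonal edge, a piece of domain wall, oriented so that colour `2` is on
its left. -/
def IsDart (S : Finset (ℤ × ℤ)) (d : (ℤ × ℤ) × (ℤ × ℤ)) : Prop :=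
  tri.Adj d.1 d.2 ∧ d.1 ∈ S ∧ d.2 ∉ S

/-- The third vertex of the triangle into which the oriented wall points: `d.2` turned by
`pi / 3` about `d.1`. -/
def apex (d : (ℤ × ℤ) × (ℤ × ℤ)) : ℤ × ℤ :=
  (d.1.1 - (d.2.2 - d.1.2), d.1.2 + (d.2.1 - d.1.1) + (d.2.2 - d.1.2))

/-- The next piece of the same domain wall. -/
def nxt (S : Finset (ℤ × ℤ)) (d : (ℤ × ℤ) × (ℤ × ℤ)) : (ℤ × ℤ) × (ℤ × ℤ) :=
  if apex d ∈ S then (apex d, d.2) else (d.1, apex d)

/-- The hexagonal vertex at the head of the oriented wall (the centre of the triangle). -/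
def ctr (d : (ℤ × ℤ) × (ℤ × ℤ)) : ℂ := (pos d.1 + pos d.2 + pos (apex d)) / 3

/-- The number of edges of the loop through `d`. -/
def len (S : Finset (ℤ × ℤ)) (d : (ℤ × ℤ) × (ℤ × ℤ)) : ℕ := Function.minimalPeriod (nxt S) d

/-- The vertices of the loop through `d`, in cyclic order. -/
def node (S : Finset (ℤ × ℤ)) (d : (ℤ × ℤ) × (ℤ × ℤ)) (k : ℤ) : ℂ :=
  ctr ((nxt S)^[(k % len S d).toNat] d)

/-- The loop through `d` on the lattice of mesh `δ`: the closed polygon through its vertices, run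
once in unit time. -/
def loop (δ : ℝ) (S : Finset (ℤ × ℤ)) (d : (ℤ × ℤ) × (ℤ × ℤ)) (t : ℝ) : ℂ :=
  δ * (node S d ⌊len S d * t⌋ +
    Int.fract (len S d * t) * (node S d (⌊len S d * t⌋ + 1) - node S d ⌊len S d * t⌋))

/-- Two closed curves of period `1` are uniformly within `ε` of each other after an orientation
preserving reparametrisation of the circle. -/
def LoopClose (ε : ℝ) (γ γ' : ℝ → ℂ) : Prop :=
  ∃ φ : ℝ ≃o ℝ, (∀ t, φ (t + 1) = φ t + 1) ∧ ∀ t, ‖γ t - γ' (φ t)‖ ≤ ε

/-- Every loop of each of the two colourings is within `ε` of a loop of the other one. -/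
def Close (ε δ : ℝ) (S S' : Finset (ℤ × ℤ)) : Prop :=
  (∀ d, IsDart S d → ∃ d', IsDart S' d' ∧ LoopClose ε (loop δ S d) (loop δ S' d')) ∧
    ∀ d', IsDart S' d' → ∃ d, IsDart S d ∧ LoopClose ε (loop δ S' d') (loop δ S d)

/-- There is a coupling of the laws `P` and `Q` on the subsets of `D` under which the relation `R`
fails with probability at most `ε`. -/
def Coupling (D : Finset (ℤ × ℤ)) (P Q : Finset (ℤ × ℤ) → ℝ)
    (R : Finset (ℤ × ℤ) → Finset (ℤ × ℤ) → Prop) (ε : ℝ) : Prop :=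
  ∃ π : Finset (ℤ × ℤ) → Finset (ℤ × ℤ) → ℝ, (∀ S S', 0 ≤ π S S') ∧
    (∀ S ∈ D.powerset, ∑ S' ∈ D.powerset, π S S' = P S) ∧
    (∀ S' ∈ D.powerset, ∑ S ∈ D.powerset, π S S' = Q S') ∧
    ∑ S ∈ D.powerset, ∑ S' ∈ D.powerset, (if R S S' then 0 else π S S') ≤ ε

end Pool.Agent.TAF
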