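import Pool.Agent.P.MP_cb4022_pr.U.Pot

/-! The cut along the negative axis and the rotation (paper A6, A7). All lattice identities were checked by brute force; prove them by cases on the index and the type, then omega. -/

open scoped Classical symmDiff

noncomputable section

namespace Pool.Agent.TAF.U

theorem Mc_apply (φ : Edge →₀ ℤ) : Mc φ = ∑ e ∈ φ.support, φ e * cutInd e := by
  rw [Mc, Finsupp.linearCombination_apply, Finsupp.sum]
  rfl

/-- telescoping along the negative axis -/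
theorem Mc_cob {φ : Edge →₀ ℤ} {Φ : Site → ℤ} (hf : (Function.support Φ).Finite)
    (h : ∀ e, cob Φ e = φ e) : Mc φ = Φ 0 := by
  obtain ⟨N, hN⟩ := (hf.image fun x => (-x.1).toNat + 1).bddAbove
  have h0 : ∀ a : ℤ, a ≤ -(N : ℤ) → Φ (a, 0) = 0 := fun a ha => by
    by_contra hne
    have h1 : (-a).toNat + 1 ≤ N := hN ⟨(a, 0), hne, rfl⟩
    omega
  have h1 : ∀ a : ℤ, φ ((a, 0), 2) = Φ (a + 1, 0) - Φ (a, 0) := fun a => by
    rw [← h, cob, lft_eq, rgt_eq]
    rfl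
  have h2 : Mc φ = ∑ e ∈ (Finset.range N).image fun n : ℕ => (((-((n : ℤ) + 1), 0), 2) : Edge),
      φ e := by
    rw [Mc_apply]
    refine Finset.sum_congr_of_eq_on_inter ?_ ?_ ?_
    · rintro ⟨⟨a, b⟩, i⟩ h3 h4
      rw [cutInd]
      split_ifs with h5
      · obtain ⟨rfl, rfl, h6⟩ : i = 2 ∧ b = 0 ∧ a ≤ -1 := h5
        by_cases h7 : a + 1 ≤ -(N : ℤ)
        · rw [h1, h0 _ h7, h0 a (by omega)]
          simp
        · refine (h4 (Finset.mem_image.2 ⟨(-a - 1).toNat, Finset.mem_range.2 (by omega), ?_⟩)).elim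
          rw [show -((((-a - 1).toNat : ℕ) : ℤ) + 1) = a by omega]
      · simp
    · exact fun e _ h4 => Finsupp.notMem_support_iff.1 h4
    · intro e _ h4
      obtain ⟨n, -, rfl⟩ := Finset.mem_image.1 h4
      rw [cutInd, if_pos ⟨rfl, rfl, by simp⟩, mul_one]
  rw [h2, Finset.sum_image fun n _ m _ e => by simpa using e]
  have h3 := Finset.sum_range_sub' (fun n : ℕ => Φ (-(n : ℤ), 0)) N
  rw [h0 _ le_rfl, sub_zero] at h3
  refine Eq.trans (Finset.sum_congr rfl fun n _ => ?_) h3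
  rw [h1]
  simp

theorem Mc_into (t : Tri) (i : Fin 3) :
    Mc (into t i) = (if t.2 then -1 else 1) * cutInd (side t i) := by
  rw [Mc, into, Finsupp.linearCombination_single, smul_eq_mul]

theorem dv_kap (t : Tri) : dv kap t = if t = tau0 then -1 else 0 := by
  obtain ⟨⟨a, b⟩, c⟩ := t
  cases c <;> simp [dv, Fin.sum_univ_three, side, nbr, kap, sg, tau0] <;> split_ifs <;> omega

theorem off_inc {t : Tri} {p q : Fin 3} (hp : vtx t p ≠ 0) (hq : vtx t q ≠ 0) :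
    off (vtx t p) t - off (vtx t q) t = inc kap t p q := by
  obtain ⟨⟨a, b⟩, c⟩ := t
  fin_cases p <;> fin_cases q <;> cases c <;>
    simp [inc, side, nbr, kap, sg, off, vtx] at hp hq ⊢ <;> split_ifs <;> omega

theorem off_dn_up {e : Edge} {c : Site} (hc : c = lft e ∨ c = rgt e) (h0 : c ≠ 0) :
    off c (dn e) - off c (up e) = cutInd e := by
  obtain ⟨⟨a, b⟩, i⟩ := e
  rcases hc with rfl | rfl <;> fin_cases i <;>
    simp [lft_eq, rgt_eq, dn, up, nbr, sg, off, cutInd] at h0 ⊢ <;> split_ifs <;> omega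

theorem tt_tau0 {X : Set Site} (h : (0 : Site) ∈ X) : TT tau0 X := ⟨0, h⟩

/-- a lift `μ` of the sites of `Z` gives a lift of the triangles that touch `Z` -/
theorem exists_lift_tri {Z : Set Site} (h0 : (0 : Site) ∉ Z) {μ : Site → ℤ}
    (hμ : ∀ e, Inside e Z → cob μ e = kap e) :
    ∃ ν : Tri → ℤ, (∀ t p, vtx t p ∈ Z → ν t = μ (vtx t p) + off (vtx t p) t) ∧
      ∀ e, Touch e Z → ν (dn e) - ν (up e) = cutInd e := by
  have hz : ∀ {x}, x ∈ Z → x ≠ 0 := fun hx e => h0 (e ▸ hx)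
  have key : ∀ t p q, vtx t p ∈ Z → vtx t q ∈ Z →
      μ (vtx t q) + off (vtx t q) t = μ (vtx t p) + off (vtx t p) t := fun t p q hp hq => by
    by_cases hpq : p = q
    · rw [hpq]
    have h1 := off_inc (hz hp) (hz hq)
    rw [inc_of_cob (Φ := μ) fun r r1 r2 => hμ _ (inside_side.2 ?_)] at h1
    · omega
    rcases (by decide : ∀ p q r : Fin 3, ¬ p = q → r ≠ p → r ≠ q →
      (p = r + 1 ∧ q = r + 2) ∨ (q = r + 1 ∧ p = r + 2)) p q r hpq r1 r2 with
      ⟨rfl, rfl⟩ | ⟨rfl, rfl⟩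
    exacts [⟨hp, hq⟩, ⟨hq, hp⟩]
  have hν : ∀ t p, vtx t p ∈ Z → (if h : ∃ q, vtx t q ∈ Z then
      μ (vtx t h.choose) + off (vtx t h.choose) t else 0) = μ (vtx t p) + off (vtx t p) t :=
    fun t p hp => by
      have h : ∃ q, vtx t q ∈ Z := ⟨p, hp⟩
      rw [dif_pos h]
      exact key t p _ hp h.choose_spec
  refine ⟨_, hν, fun e he => ?_⟩
  rcases he with he | he
  · have h1 : vtx (dn e) (e.2 + 1) = lft e := vtx_nbr1 _ _
    rw [hν (dn e) (e.2 + 1) (h1 ▸ he), hν (up e) (e.2 + 2) he, h1,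
      ← off_dn_up (Or.inl rfl) (hz he), lft]
    ring
  · have h1 : vtx (dn e) (e.2 + 2) = rgt e := vtx_nbr2 _ _
    rw [hν (dn e) (e.2 + 2) (h1 ▸ he), hν (up e) (e.2 + 1) he, h1,
      ← off_dn_up (Or.inr rfl) (hz he), rgt]
    ring

theorem Cut_ang {a b : ℝ} (h : (a : Real.Angle) = b) (h' : |a - b| < 2 * Real.pi) : a = b := by
  obtain ⟨k, hk⟩ := Real.Angle.angle_eq_iff_two_pi_dvd_sub.1 h
  have hp := Real.two_pi_pos
  rw [hk, abs_mul, abs_of_pos hp] at h'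
  have h1 : |(k : ℝ)| < 1 := by nlinarith
  have h2 : k = 0 := Int.abs_lt_one_iff.1 (by exact_mod_cast h1)
  rw [h2, Int.cast_zero, mul_zero] at hk
  linarith

theorem Cut_two_pi (k : ℤ) : ((2 * Real.pi * k : ℝ) : Real.Angle) = 0 :=
  Real.Angle.angle_eq_iff_two_pi_dvd_sub.2 ⟨k, by rw [sub_zero]⟩

theorem Cut_s3 : (0 : ℝ) < √3 / 2 := by positivity

theorem Cut_up {x : Site} (h : 0 ≤ x.2) : 0 ≤ (pos x).arg :=
  Complex.arg_nonneg_iff.2 (mul_nonneg Cut_s3.le (by exact_mod_cast h))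

theorem Cut_dn {x : Site} (h : x.2 ≤ -1) : (pos x).arg < 0 :=
  Complex.arg_neg_iff.2 (mul_neg_of_pos_of_neg Cut_s3 (by exact_mod_cast (by omega : x.2 < 0)))

theorem Cut_pi {x : Site} (h : x.1 ≤ -1) (h' : x.2 = 0) : (pos x).arg = Real.pi := by
  have h1 : (x.1 : ℝ) ≤ -1 := by exact_mod_cast h
  refine Complex.arg_eq_pi_iff.2 ⟨?_, ?_⟩ <;> simp only [pos, h', Int.cast_zero]
  · linarith
  · ring

theorem Cut_re {x : Site} (h : 0 ≤ 2 * x.1 + x.2) : |(pos x).arg| ≤ Real.pi / 2 := by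
  have h1 : (0 : ℝ) ≤ 2 * x.1 + x.2 := by exact_mod_cast h
  refine Complex.abs_arg_le_pi_div_two_iff.2 ?_
  simp only [pos]
  linarith

theorem Cut_step {e : Edge} (h1 : pos (rgt e) ≠ 0) :
    |Complex.arg (pos (lft e)) + 2 * Real.pi * kap e - Complex.arg (pos (rgt e))| ≤ Real.pi := by
  have a1 := Complex.neg_pi_lt_arg (pos (lft e))
  have a2 := Complex.arg_le_pi (pos (lft e))
  have a3 := Complex.neg_pi_lt_arg (pos (rgt e))
  have a4 := Complex.arg_le_pi (pos (rgt e))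
  have h3 : rgt e ≠ 0 := fun h => h1 (by rw [h, pos_zero])
  have hc : (kap e = 0 ∧ ((0 ≤ (lft e).2 ∧ 0 ≤ (rgt e).2) ∨ ((lft e).2 ≤ -1 ∧ (rgt e).2 ≤ -1) ∨
      (0 ≤ 2 * (lft e).1 + (lft e).2 ∧ 0 ≤ 2 * (rgt e).1 + (rgt e).2))) ∨
      (kap e = -1 ∧ (lft e).1 ≤ -1 ∧ (lft e).2 = 0 ∧ (rgt e).2 ≤ -1) ∨
      (kap e = 1 ∧ (rgt e).1 ≤ -1 ∧ (rgt e).2 = 0 ∧ (lft e).2 ≤ -1) := by
    clear a1 a2 a3 a4 h1
    obtain ⟨⟨a, b⟩, i⟩ := e
    fin_cases i <;> simp [lft_eq, rgt_eq, kap] at h3 ⊢ <;> omega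
  rw [abs_le]
  rcases hc with ⟨hk, h | h | h⟩ | ⟨hk, h⟩ | ⟨hk, h⟩ <;> rw [hk] <;> push_cast
  · constructor <;> linarith [Cut_up h.1, Cut_up h.2]
  · constructor <;> linarith [Cut_dn h.1, Cut_dn h.2]
  · have b1 := abs_le.1 (Cut_re h.1)
    have b2 := abs_le.1 (Cut_re h.2)
    constructor <;> linarith [b1.1, b1.2, b2.1, b2.2]
  · constructor <;> linarith [Cut_pi h.1 h.2.1, Cut_dn h.2.2]
  · constructor <;> linarith [Cut_pi h.1 h.2.1, Cut_dn h.2.2]

/-- the quantity is the argument of `pos (lft e) / pos (rgt e)` -/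
theorem arg_step {e : Edge} (h1 : 2 ≤ ‖pos (rgt e)‖) (h2 : 2 ≤ ‖pos (lft e)‖) :
    |Complex.arg (pos (lft e)) + 2 * Real.pi * kap e - Complex.arg (pos (rgt e))| ≤
      2 / ‖pos (rgt e)‖ := by
  have hw : pos (rgt e) ≠ 0 := fun h => by rw [h, norm_zero] at h1; linarith
  have hz : pos (lft e) ≠ 0 := fun h => by rw [h, norm_zero] at h2; linarith
  have hn : 0 < ‖pos (rgt e)‖ := by linarith
  have h3 : ‖(pos (lft e) - pos (rgt e)) / pos (rgt e)‖ = 1 / ‖pos (rgt e)‖ := by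
    rw [norm_div]
    exact congrArg (· / _) (dst_adj (adj_lft_rgt e))
  have h4 : 1 / ‖pos (rgt e)‖ ≤ 1 / 2 := one_div_le_one_div_of_le two_pos h1
  have h5 := Complex.norm_log_one_add_half_le_self (h3.le.trans h4)
  rw [h3, show 1 + (pos (lft e) - pos (rgt e)) / pos (rgt e) = pos (lft e) / pos (rgt e) by
    field_simp; ring] at h5
  have h6 := (Complex.abs_im_le_norm _).trans h5
  rw [Complex.log_im] at h6
  have h7 := Cut_step hw
  have hp := Real.pi_gt_three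
  refine (congrArg abs (Cut_ang (b := (pos (lft e) / pos (rgt e)).arg) ?_ ?_)).le.trans ?_
  · rw [Complex.arg_div_coe_angle hz hw, Real.Angle.coe_sub, Real.Angle.coe_add, Cut_two_pi,
      add_zero]
  · rw [abs_le] at h6 h7
    rw [abs_lt]
    constructor <;> linarith [h6.1, h6.2, h7.1, h7.2]
  · rw [div_eq_mul_one_div 2]
    linarith [one_div_pos.2 hn]

theorem Cut_seg {X : Set Site} (f : ℤ → Site) (hf : ∀ j, tri.Adj (f j) (f (j + 1))) {a b : ℤ}
    (hab : a ≤ b) (h : ∀ j, a ≤ j → j ≤ b → f j ∈ X) : Jn X (f a) (f b) := by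
  induction b, hab using Int.leInduction with
  | base => exact Jn.refl _ _
  | succ n hn ih =>
    exact (ih fun j j0 j1 => h j j0 (by omega)).trans
      (Jn.single (h n hn (by omega)) (h _ (by omega) le_rfl) (hf n))

/-- Take the lattice hexagon of radius `k = ⌊R⌋ - 1`: `(k,0)` and `(-k,0)` are joined inside the
annulus in the rows `≥ 0`, and `(k,-1)`, `(1-k,-1)` in the rows `≤ -1`. -/
theorem non_exact {r R : ℝ} (h0 : 0 ≤ r) (h : 2 * r + 6 ≤ R) {g : Site → ℤ}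
    (hg : ∀ e, Inside e (ann 0 r R) → cob g e = kap e) : False := by
  obtain ⟨k, k1, k2⟩ : ∃ k : ℤ, (k : ℝ) ≤ R ∧ R < k + 1 :=
    ⟨⌊R⌋, Int.floor_le R, Int.lt_floor_add_one R⟩
  have k3 : 1 ≤ k := by
    have : (1 : ℝ) ≤ k := by linarith
    exact_mod_cast this
  have hm : ∀ (x : Site) (j : ℤ), 0 ≤ j → j ≤ k →
      x.1 ^ 2 + x.1 * x.2 + x.2 ^ 2 = k ^ 2 - k * j + j ^ 2 → x ∈ (ann 0 r R : Set Site) := by
    intro x j j0 j1 hx
    have e := dst_sq x 0
    simp only [Prod.fst_zero, Prod.snd_zero, sub_zero, hx] at e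
    push_cast at e
    have j2 : (0 : ℝ) ≤ j := by exact_mod_cast j0
    have j3 : (j : ℝ) ≤ k := by exact_mod_cast j1
    refine Finset.mem_coe.2 (mem_ann.2 ⟨lt_of_pow_lt_pow_left₀ 2 (dst_nonneg _ _) ?_,
      le_trans (le_of_sq_le_sq ?_ (by linarith)) k1⟩)
    · rw [e]
      nlinarith [sq_nonneg ((k : ℝ) - 2 * j), mul_self_le_mul_self h0 (by linarith : r ≤ k / 2 - 2)]
    · rw [e]
      nlinarith [mul_nonneg j2 (sub_nonneg.2 j3)]
  have c1 : ∀ e, Inside e ((ann 0 r R : Set Site) ∩ {x | 0 ≤ x.2}) → cob g e = 0 := fun e he => by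
    rw [hg e ⟨he.1.1, he.2.1⟩]
    have b1 : 0 ≤ (lft e).2 := he.1.2
    have b2 : 0 ≤ (rgt e).2 := he.2.2
    clear he
    obtain ⟨⟨a, b⟩, i⟩ := e
    fin_cases i <;> simp [lft_eq, rgt_eq, kap] at b1 b2 ⊢ <;> omega
  have c2 : ∀ e, Inside e ((ann 0 r R : Set Site) ∩ {x | x.2 ≤ -1}) → cob g e = 0 := fun e he => by
    rw [hg e ⟨he.1.1, he.2.1⟩]
    have b1 : (lft e).2 ≤ -1 := he.1.2
    have b2 : (rgt e).2 ≤ -1 := he.2.2
    clear he
    obtain ⟨⟨a, b⟩, i⟩ := e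
    fin_cases i <;> simp [lft_eq, rgt_eq, kap] at b1 b2 ⊢ <;> omega
  have u1 := Jn.const c1 (Cut_seg (fun j => (k - j, j)) (fun j => by simp [tri]) (by omega : 0 ≤ k)
    fun j j0 j1 => ⟨hm _ j j0 j1 (by ring), j0⟩)
  have u2 := Jn.const c1 (Cut_seg (fun j => (-j, k)) (fun j => by simp [tri]) (by omega : 0 ≤ k)
    fun j j0 j1 => ⟨hm _ j j0 j1 (by ring), (by omega : 0 ≤ k)⟩)
  have u3 := Jn.const c1 (Cut_seg (fun j => (-k, k - j)) (fun j => by simp [tri]) (by omega : 0 ≤ k)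
    fun j j0 j1 => ⟨hm _ j j0 j1 (by ring), (by omega : 0 ≤ k - j)⟩)
  have d1 := Jn.const c2 (Cut_seg (fun j => (k, -j)) (fun j => by simp [tri]) k3
    fun j j0 j1 => ⟨hm _ j (by omega) j1 (by ring), (by omega : -j ≤ -1)⟩)
  have d2 := Jn.const c2 (Cut_seg (fun j => (k - j, -k)) (fun j => by simp [tri]) (by omega : 0 ≤ k)
    fun j j0 j1 => ⟨hm _ j j0 j1 (by ring), (by omega : -k ≤ -1)⟩)
  have d3 := Jn.const c2 (Cut_seg (fun j => (-j, j - k)) (fun j => by simp [tri]) (by omega : 0 ≤ k - 1)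
    fun j j0 j1 => ⟨hm _ j j0 (by omega) (by ring), (by omega : j - k ≤ -1)⟩)
  have e1 := hg ((k, -1), 1) ⟨hm _ 1 (by omega) k3 (by simp [lft_eq]; ring),
    hm _ 0 le_rfl (by omega) (by simp [rgt_eq])⟩
  have e2 := hg ((-k, -1), 0) ⟨hm _ 0 le_rfl (by omega) (by simp [lft_eq]),
    hm _ 1 (by omega) k3 (by simp [rgt_eq]; ring)⟩
  rw [kap, if_neg (by simp; omega)] at e1
  rw [kap, if_pos ⟨rfl, by simp; omega⟩] at e2
  simp [cob, lft_eq, rgt_eq] at e1 e2 u1 u2 u3 d1 d2 d3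
  rw [show 1 - k = -k + 1 by ring] at d3
  omega

theorem Cut_ta : ta = ⟨-1 / 2, √3 / 2⟩ := by
  have e : 2 * Real.pi / 3 = Real.pi - Real.pi / 3 := by ring
  refine Complex.ext ?_ ?_
  · rw [ta, Complex.exp_ofReal_mul_I_re, e, Real.cos_pi_sub, Real.cos_pi_div_three]
    norm_num
  · rw [ta, Complex.exp_ofReal_mul_I_im, e, Real.sin_pi_sub, Real.sin_pi_div_three]

theorem Cut_sq : √3 * √3 = (3 : ℝ) := Real.mul_self_sqrt (by norm_num)

theorem norm_om : ‖om‖ = 1 := by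
  rw [om, ← Complex.ofReal_neg, Complex.norm_exp_ofReal_mul_I]
theorem om_ne : om ≠ 0 := Complex.exp_ne_zero _
theorem om_eq : om = -ta := by
  rw [← neg_eq_iff_eq_neg, om, ← Complex.exp_add_pi_mul_I, ta]
  congr 1
  push_cast
  ring
theorem ta_sum : 1 + ta + ta ^ 2 = 0 := by
  rw [Cut_ta, sq]
  refine Complex.ext ?_ ?_ <;> simp <;> linarith [Cut_sq]
theorem ta_cube : ta ^ 3 = 1 := by
  linear_combination (ta - 1) * ta_sum
theorem om_cube : om ^ 3 = -1 := by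
  rw [om_eq]
  linear_combination -ta_cube
theorem norm_ta : ‖ta‖ = 1 := by
  rw [ta, Complex.norm_exp_ofReal_mul_I]
theorem conj_om : (starRingEnd ℂ) om = om⁻¹ := by
  exact (Complex.inv_eq_conj norm_om).symm
theorem pos_lft_sub (e : Edge) : pos (lft e) - pos (rgt e) = ta * ta ^ (e.2 : ℕ) := by
  have h1 : pos (-1, 1) = ta := by
    rw [Cut_ta]
    refine Complex.ext ?_ ?_ <;> simp [pos]
    norm_num
  have h2 : pos (1, 0) = 1 := by
    refine Complex.ext ?_ ?_ <;> simp [pos]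
  have h3 : pos (0, -1) = -1 - ta := by
    rw [Cut_ta]
    refine Complex.ext ?_ ?_ <;> simp [pos]
    norm_num
  obtain ⟨⟨a, b⟩, i⟩ := e
  rw [← pos_sub]
  fin_cases i <;> simp [lft_eq, rgt_eq]
  · exact h1
  · rw [h3]
    linear_combination -ta_sum
  · rw [h2]
    linear_combination -ta_cube

theorem pos_gS (x : Site) : pos (gS x) = ta * pos x := by
  rw [Cut_ta]
  refine Complex.ext ?_ ?_ <;> simp [pos, gS]
  · linear_combination (x.2 / 4 : ℝ) * Cut_sq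
  · ring
theorem arg_gS {x : Site} (h : x ≠ 0) :
    Complex.arg (pos (gS x)) = Complex.arg (pos x) + 2 * Real.pi / 3 - 2 * Real.pi * secS x := by
  have hx : pos x ≠ 0 := fun e => by
    have h1 := one_le_dst h
    rw [dst_zero, e, norm_zero] at h1
    linarith
  have hp := Real.pi_pos
  have ht : ta.arg = 2 * Real.pi / 3 := by
    rw [ta, Complex.exp_mul_I]
    exact Complex.arg_cos_add_sin_mul_I ⟨by linarith, by linarith⟩
  have a1 := Complex.neg_pi_lt_arg (pos x)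
  have a2 := Complex.arg_le_pi (pos x)
  have a3 := Complex.neg_pi_lt_arg (pos (gS x))
  have a4 := Complex.arg_le_pi (pos (gS x))
  refine Cut_ang ?_ ?_
  · rw [pos_gS, Complex.arg_mul_coe_angle (x := ta) (Complex.exp_ne_zero _) hx, Real.Angle.coe_sub,
      Cut_two_pi, sub_zero, Real.Angle.coe_add, add_comm, ht]
  · rw [abs_lt, secS]
    split_ifs with hs <;> push_cast
    · constructor <;> linarith [Cut_up hs.2, Cut_dn (x := gS x) hs.1]
    · rcases (by omega : 0 ≤ x.1 ∨ x.2 ≤ -1) with h1 | h1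
      · constructor <;> linarith [Cut_up (x := gS x) h1]
      · constructor <;> linarith [Cut_dn h1]
theorem cutInd_gE (e : Edge) : cutInd (gE e) - cutInd e = secT (dn e) - secT (up e) := by
  obtain ⟨⟨a, b⟩, i⟩ := e
  fin_cases i <;> simp [cutInd, gE, secT, dn, up, nbr, sg] <;> split_ifs <;> omega
theorem Mc_rot (φ : Edge →₀ ℤ) (T : Finset Tri) (hT : ∀ t, dv φ t ≠ 0 → t ∈ T) :
    Mc (rotA.mF φ) = Mc φ + ∑ t ∈ T, secT t * dv φ t := by
  rw [← lc_parts φ (fun e => cutInd (gE e) - cutInd e) secT (fun e _ => cutInd_gE e) T hT, Mc,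
    Aut.mF, Finsupp.linearCombination_equivMapDomain]
  simp only [Finsupp.linearCombination_apply, Finsupp.sum, ← Finset.sum_add_distrib]
  refine Finset.sum_congr rfl fun e _ => ?_
  change φ e * cutInd (gE e) = φ e * cutInd e + φ e * (cutInd (gE e) - cutInd e)
  ring
theorem dv_kg (t : Tri) :
    dv kg t = (if t = gT tau0 then 1 else 0) - (if t = tau0 then 1 else 0) := by
  have e : kg = into ((0, -1), true) 1 + into (gT tau0) 0 := by
    simp [kg, into, side, nbr, gT, tau0, sg]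
  have e1 : nbr ((0, -1), true) 1 = tau0 := by simp [nbr, tau0, sg]
  have e2 : nbr (gT tau0) 0 = ((0, -1), true) := by simp [nbr, gT, tau0, sg]
  rw [e, Finsupp.coe_add, dv_add, dv_into, dv_into, e1, e2]
  ring
theorem Mc_kg : Mc kg = 0 := by
  simp [Mc, kg, cutInd]
theorem kg_touch {e : Edge} (h : kg e ≠ 0) : Touch e {0} := by
  have h1 : e = ((0, -1), 1) ∨ e = ((0, -1), 0) := by
    by_contra h2
    rw [not_or] at h2
    exact h (by rw [kg, Finsupp.add_apply, Finsupp.single_eq_of_ne h2.1,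
      Finsupp.single_eq_of_ne h2.2, add_zero])
  rcases h1 with rfl | rfl <;> simp [Touch, lft_eq, rgt_eq]
theorem secT_tau0 : secT tau0 = 0 := by
  simp [secT, tau0]
theorem kap_rot (e : Edge) : kap e + kg (gE e) - kap (gE e) = -cob secS e := by
  obtain ⟨⟨a, b⟩, i⟩ := e
  fin_cases i <;> simp [kap, kg, gE, cob, secS, lft_eq, rgt_eq, Finsupp.single_apply] <;>
    split_ifs <;> omega
theorem off_rot {t : Tri} {p : Fin 3} (h : vtx t p ≠ 0) :
    off (gS (vtx t p)) (gT t) = off (vtx t p) t + secT t - secS (vtx t p) := by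
  obtain ⟨⟨a, b⟩, c⟩ := t
  fin_cases p <;> cases c <;> simp [off, gS, gT, vtx, secT, secS, sg] at h ⊢ <;>
    split_ifs <;> omega

end Pool.Agent.TAF.U
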