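import Pool.Agent.P.MP_cb4022_pr.Model

/-! Definitions for the universality proof (paper: sections A, B, C, F). -/

open scoped Classical symmDiff

noncomputable section

namespace Pool.Agent.TAF.U

abbrev Site := ℤ × ℤ
/-- a triangle: base vertex, and `true` for an up triangle -/
abbrev Tri := (ℤ × ℤ) × Bool
/-- an edge: side number `e.2` of the up triangle with base vertex `e.1` -/
abbrev Edge := (ℤ × ℤ) × Fin 3

def sg (b : Bool) : ℤ := if b then 1 else -1

/-- the vertices of a triangle, counterclockwise -/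
def vtx (t : Tri) (i : Fin 3) : Site :=
  ![t.1, (t.1.1 + sg t.2, t.1.2), (t.1.1, t.1.2 + sg t.2)] i

/-- the triangle across side `i` (the side opposite to vertex `i`) -/
def nbr (t : Tri) (i : Fin 3) : Tri :=
  (![(t.1.1 + sg t.2, t.1.2 + sg t.2), (t.1.1, t.1.2 + sg t.2), (t.1.1 + sg t.2, t.1.2)] i, !t.2)

def side (t : Tri) (i : Fin 3) : Edge := if t.2 then (t.1, i) else ((nbr t i).1, i)
def up (e : Edge) : Tri := (e.1, true)
def dn (e : Edge) : Tri := nbr (up e) e.2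
/-- the site on the left when the edge is crossed from `up e` to `dn e` -/
def lft (e : Edge) : Site := vtx (up e) (e.2 + 2)
def rgt (e : Edge) : Site := vtx (up e) (e.2 + 1)

/-- net inflow of a flow at a triangle -/
def dv {A : Type*} [AddCommGroup A] (φ : Edge → A) (t : Tri) : A :=
  if t.2 then -∑ i, φ (side t i) else ∑ i, φ (side t i)

def cob {A : Type*} [AddCommGroup A] (Φ : Site → A) (e : Edge) : A := Φ (lft e) - Φ (rgt e)

/-- for `φ = cob Φ` this is `Φ (vtx t q) - Φ (vtx t p)` -/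
def inc {A : Type*} [AddCommGroup A] (φ : Edge → A) (t : Tri) (p q : Fin 3) : A :=
  if q = p + 1 then (if t.2 then φ (side t (p + 2)) else -φ (side t (p + 2)))
  else if q = p + 2 then (if t.2 then -φ (side t (p + 1)) else φ (side t (p + 1))) else 0

/-- unit flow from `nbr t i` into `t` -/
def into (t : Tri) (i : Fin 3) : Edge →₀ ℤ := Finsupp.single (side t i) (if t.2 then -1 else 1)

def Touch (e : Edge) (X : Set Site) : Prop := lft e ∈ X ∨ rgt e ∈ X
def Inside (e : Edge) (X : Set Site) : Prop := lft e ∈ X ∧ rgt e ∈ X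
def TT (t : Tri) (X : Set Site) : Prop := ∃ i, vtx t i ∈ X
def AllIn (t : Tri) (X : Set Site) : Prop := ∀ i, vtx t i ∈ X

/-- joined by a lattice path inside `X` -/
def Jn (X : Set Site) (a b : Site) : Prop :=
  Relation.ReflTransGen (fun u v => u ∈ X ∧ v ∈ X ∧ tri.Adj u v) a b
def SConn (X : Set Site) : Prop := ∀ a ∈ X, ∀ b ∈ X, Jn X a b

def dst (x y : Site) : ℝ := ‖pos x - pos y‖

theorem finite_ball (p : Site) (r : ℝ) : {x : Site | dst x p ≤ r}.Finite := by
  refine ((Set.finite_Icc (p.1 - 3 * ⌈r⌉) (p.1 + 3 * ⌈r⌉)).prod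
    (Set.finite_Icc (p.2 - 2 * ⌈r⌉) (p.2 + 2 * ⌈r⌉))).subset ?_
  rintro ⟨a, b⟩ h
  simp only [Set.mem_ofPred_eq, dst] at h
  have h1 := (Complex.abs_re_le_norm _).trans h
  have h2 := (Complex.abs_im_le_norm _).trans h
  simp only [pos, Complex.sub_re, Complex.sub_im] at h1 h2
  have h3 : (1 : ℝ) ≤ √3 := Real.one_le_sqrt.2 (by norm_num)
  have hr := Int.le_ceil r
  have h4 : |(b : ℝ) - p.2| ≤ 2 * r := by
    have e : √3 / 2 * (b : ℝ) - √3 / 2 * p.2 = √3 / 2 * ((b : ℝ) - p.2) := by ring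
    rw [e, abs_mul, abs_of_pos (by positivity : (0 : ℝ) < √3 / 2)] at h2
    nlinarith [abs_nonneg ((b : ℝ) - p.2)]
  have hr0 : 0 ≤ r := (abs_nonneg _).trans h1
  rw [abs_le] at h1 h4
  refine ⟨⟨?_, ?_⟩, ?_, ?_⟩
  all_goals
    simp only
    refine Int.cast_le (R := ℝ) |>.1 ?_
    push_cast
    linarith [h1.1, h1.2, h4.1, h4.2]

/-- closed discrete ball -/
def bal (p : Site) (r : ℝ) : Finset Site := (finite_ball p r).toFinset
def ann (p : Site) (r R : ℝ) : Finset Site := bal p R \ bal p r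

/-! ### the cut -/

def cutInd (e : Edge) : ℤ := if e.2 = 2 ∧ e.1.2 = 0 ∧ e.1.1 ≤ -1 then 1 else 0
/-- signed number of crossings of the negative axis -/
def Mc : (Edge →₀ ℤ) →ₗ[ℤ] ℤ := Finsupp.linearCombination ℤ cutInd
def tau0 : Tri := ((0, 0), false)
/-- the flow from `tau0` to infinity between the rows `0` and `-1` -/
def kap (e : Edge) : ℤ :=
  if e.1.2 = -1 ∧ e.1.1 ≤ -1 then (if e.2 = 0 then -1 else if e.2 = 1 then 1 else 0) else 0
/-- change of sheet from the vertex `c` to the centre of `t` -/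
def off (c : Site) (t : Tri) : ℤ :=
  if c.2 = 0 ∧ c.1 ≤ -1 ∧ (t.1.2 = -1 ∨ (t.1.2 = 0 ∧ t.2 = false)) then 1 else 0

/-! ### automorphisms -/

structure Aut where
  fS : Site ≃ Site
  fT : Tri ≃ Tri
  fE : Edge ≃ Edge
  k : Fin 3
  typ : ∀ t, (fT t).2 = t.2
  vtx_eq : ∀ t i, vtx (fT t) (i + k) = fS (vtx t i)
  nbr_eq : ∀ t i, nbr (fT t) (i + k) = fT (nbr t i)
  side_eq : ∀ t i, side (fT t) (i + k) = fE (side t i)
  dst_eq : ∀ x y, dst (fS x) (fS y) = dst x y

def Aut.mS (a : Aut) (S : Finset Site) : Finset Site := S.map a.fS.toEmbedding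
def Aut.mT (a : Aut) (S : Finset Tri) : Finset Tri := S.map a.fT.toEmbedding
def Aut.mE (a : Aut) (S : Finset Edge) : Finset Edge := S.map a.fE.toEmbedding
def Aut.mF (a : Aut) (φ : Edge →₀ ℤ) : Edge →₀ ℤ := Finsupp.equivMapDomain a.fE φ

def gS : Site ≃ Site where
  toFun x := (-x.1 - x.2, x.1)
  invFun x := (x.2, -x.1 - x.2)
  left_inv := by rintro ⟨a, b⟩; ext <;> simp
  right_inv := by rintro ⟨a, b⟩; ext <;> simp; ring

def gT : Tri ≃ Tri where
  toFun t := ((-t.1.1 - t.1.2 - sg t.2, t.1.1), t.2)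
  invFun t := ((t.1.2, -t.1.1 - t.1.2 - sg t.2), t.2)
  left_inv := by rintro ⟨⟨a, b⟩, c⟩; ext <;> simp; ring
  right_inv := by rintro ⟨⟨a, b⟩, c⟩; ext <;> simp; ring

def gE : Edge ≃ Edge where
  toFun e := ((-e.1.1 - e.1.2 - 1, e.1.1), e.2 + 1)
  invFun e := ((e.1.2, -e.1.1 - e.1.2 - 1), e.2 - 1)
  left_inv := by rintro ⟨⟨a, b⟩, c⟩; ext <;> simp; ring
  right_inv := by rintro ⟨⟨a, b⟩, c⟩; ext <;> simp; ring

theorem dst_sq (x y : Site) : dst x y ^ 2 =
    ((x.1 - y.1) ^ 2 + (x.1 - y.1) * (x.2 - y.2) + (x.2 - y.2) ^ 2 : ℤ) := by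
  have h : √3 ^ 2 = (3 : ℝ) := Real.sq_sqrt (by norm_num)
  rw [dst, Complex.sq_norm, Complex.normSq_apply]
  simp only [pos, Complex.sub_re, Complex.sub_im]
  push_cast
  linear_combination ((x.2 : ℝ) - y.2) ^ 2 / 4 * h

theorem dst_nonneg (x y : Site) : 0 ≤ dst x y := norm_nonneg _

theorem dst_congr {x y x' y' : Site}
    (h : (x.1 - y.1) ^ 2 + (x.1 - y.1) * (x.2 - y.2) + (x.2 - y.2) ^ 2 =
      (x'.1 - y'.1) ^ 2 + (x'.1 - y'.1) * (x'.2 - y'.2) + (x'.2 - y'.2) ^ 2) :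
    dst x y = dst x' y' := by
  rw [← sq_eq_sq₀ (dst_nonneg _ _) (dst_nonneg _ _), dst_sq, dst_sq, h]

/-- rotation by `2 pi / 3` about the origin -/
def rotA : Aut where
  fS := gS
  fT := gT
  fE := gE
  k := 1
  typ _ := rfl
  vtx_eq := by
    rintro ⟨⟨a, b⟩, c⟩ i
    fin_cases i <;> cases c <;> simp [vtx, gT, gS, sg] <;> omega
  nbr_eq := by
    rintro ⟨⟨a, b⟩, c⟩ i
    fin_cases i <;> cases c <;> simp [nbr, gT, sg] <;> omega
  side_eq := by
    rintro ⟨⟨a, b⟩, c⟩ i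
    fin_cases i <;> cases c <;> simp [side, nbr, gT, gE, sg] <;> omega
  dst_eq x y := dst_congr (by simp only [gS, Equiv.coe_fn_mk]; ring)

/-- translation by `p` -/
def trA (p : Site) : Aut where
  fS := Equiv.addRight p
  fT := (Equiv.addRight p).prodCongr (Equiv.refl _)
  fE := (Equiv.addRight p).prodCongr (Equiv.refl _)
  k := 0
  typ _ := rfl
  vtx_eq := by
    rintro ⟨⟨a, b⟩, c⟩ i
    fin_cases i <;> simp [vtx] <;> ext <;> simp <;> ring
  nbr_eq := by
    rintro ⟨⟨a, b⟩, c⟩ i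
    fin_cases i <;> simp [nbr] <;> ext <;> simp <;> ring
  side_eq := by
    rintro ⟨⟨a, b⟩, c⟩ i
    fin_cases i <;> cases c <;> simp [side, nbr] <;> ext <;> simp <;> ring
  dst_eq x y := dst_congr (by simp)

/-- `1` if the argument of the centre of `t` exceeds `pi / 3` -/
def secT (t : Tri) : ℤ :=
  if t.2 then (if t.1.1 ≤ -1 ∧ 0 ≤ t.1.2 then 1 else 0)
  else (if t.1.1 ≤ 0 ∧ 1 ≤ t.1.2 then 1 else 0)
/-- `1` if the argument of `pos a` exceeds `pi / 3` -/
def secS (a : Site) : ℤ := if a.1 ≤ -1 ∧ 0 ≤ a.2 then 1 else 0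
/-- flow from `tau0` to `gT tau0` counterclockwise round the origin -/
def kg : Edge →₀ ℤ := Finsupp.single ((0, -1), 1) (-1) + Finsupp.single ((0, -1), 0) 1

/-! ### configurations -/

def deg (ξ : Finset Edge) (t : Tri) : ℕ := (Finset.univ.filter fun i => side t i ∈ ξ).card
def IsOdd (ξ : Finset Edge) (t : Tri) : Prop := Odd (deg ξ t)
def Simple (ξ : Finset Edge) : Prop := ∀ t, deg ξ t ≤ 2
def Conn (ξ : Finset Edge) (t t' : Tri) : Prop :=
  Relation.ReflTransGen (fun a b => ∃ i, side a i ∈ ξ ∧ b = nbr a i) t t'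

/-- the six edges with endpoint `x` -/
def star (x : Site) : Finset Edge :=
  {(x, 1), (x, 2), ((x.1 - 1, x.2), 0), ((x.1 - 1, x.2), 2), ((x.1, x.2 - 1), 0),
    ((x.1, x.2 - 1), 1)}
def touchE (D : Finset Site) : Finset Edge := D.biUnion star
/-- the walls of the colouring whose yellow sites are `S` -/
def bd (S : Finset Site) : Finset Edge := (touchE S).filter fun e => ¬ (lft e ∈ S ↔ rgt e ∈ S)
def res (ξ : Finset Edge) (A : Set Site) : Finset Edge := ξ.filter fun e => Touch e A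
def ins (ξ : Finset Edge) (A : Set Site) : Finset Edge := ξ.filter fun e => Inside e A

def IsLine (ξ : Finset Edge) (t : Tri) (φ : Edge →₀ ℤ) : Prop :=
  (∀ e, φ e ≠ 0 → e ∈ ξ ∧ Conn ξ t (up e)) ∧ dv φ t = -1 ∧ ∀ t', ¬ IsOdd ξ t' → dv φ t' = 0
/-- the unit flow along the line that starts at the odd triangle `t` -/
def line (ξ : Finset Edge) (t : Tri) : Edge →₀ ℤ :=
  if h : ∃ φ, IsLine ξ t φ then h.choose else 0

/-! ### exploration -/

def Reach (ξ : Finset Edge) (St : Finset Tri) (T : Set Site) (t : Tri) : Prop :=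
  ∃ t₀ ∈ St, Relation.ReflTransGen (fun a b => ¬ TT a T ∧ ∃ i, side a i ∈ ξ ∧ b = nbr a i) t₀ t
def reachF (ξ : Finset Edge) (St : Finset Tri) (T : Set Site) : Finset Tri :=
  (St ∪ ξ.image up ∪ ξ.image dn).filter (Reach ξ St T)
def exE (ξ : Finset Edge) (St : Finset Tri) (T : Set Site) : Finset Edge :=
  ξ.filter fun e => (Reach ξ St T (up e) ∧ ¬ TT (up e) T) ∨ (Reach ξ St T (dn e) ∧ ¬ TT (dn e) T)
def exX (ξ : Finset Edge) (St : Finset Tri) (T : Set Site) : Finset Site :=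
  ((reachF ξ St T).filter fun t => ¬ TT t T).biUnion fun t => Finset.univ.image (vtx t)
def tips (ξ : Finset Edge) (St : Finset Tri) (T : Set Site) : Finset Tri :=
  (reachF ξ St T).filter fun t => TT t T

/-! ### averages and configuration spaces -/

def avg {α E : Type*} [AddCommGroup E] [Module ℝ E] (W : Finset α) (f : α → E) : E :=
  ((W.card : ℝ)⁻¹) • ∑ x ∈ W, f x
def pr {α : Type*} (W : Finset α) (P : α → Prop) : ℝ := avg W fun x => if P x then (1 : ℝ) else 0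

def allowed (D H : Finset Site) : Finset Edge := (touchE D).filter fun e => ¬ Inside e H
def Om (D H : Finset Site) (T : Finset Tri) : Finset (Finset Edge) :=
  (allowed D H).powerset.filter fun ξ => ∀ t, IsOdd ξ t ↔ t ∈ T
def Gr (D H : Finset Site) : Finset (Finset Site) :=
  D.powerset.filter fun S => H ⊆ S ∨ Disjoint S H

/-- same colours off `A` and same pairing of the dangling ends through `A` -/
def Link (A S S' : Finset Site) : Prop :=
  (∀ x ∉ A, x ∈ S ↔ x ∈ S') ∧ ∀ t t', IsOdd (res (bd S) A) t → IsOdd (res (bd S) A) t' →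
    (Conn (res (bd S) A) t t' ↔ Conn (res (bd S') A) t t')
def Meas (A : Finset Site) (F : Finset Site → ℝ) : Prop := ∀ S S', Link A S S' → F S = F S'

/-- two vertices in `X` -/
def Two (t : Tri) (X : Set Site) : Prop := ∃ q, vtx t (q + 1) ∈ X ∧ vtx t (q + 2) ∈ X

/-- at least `N` arcs cross the annulus -/
def Arc (N : ℕ) (ξ : Finset Edge) (p : Site) (r R : ℝ) : Prop :=
  ∃ W : Finset Tri, N ≤ W.card ∧ ∀ t ∈ W, IsOdd (res ξ (ann p r R)) t ∧ Two t (bal p r) ∧
    ∃ t', IsOdd (res ξ (ann p r R)) t' ∧ Two t' (bal p R : Set Site)ᶜ ∧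
      Conn (res ξ (ann p r R)) t t'
def ArcB (N : ℕ) (p : Site) (r R q : ℝ) : Prop :=
  ∀ ξ : Finset Edge, (∀ t, TT t (ann p r R) → ¬ IsOdd ξ t) →
    pr (ann p r R).powerset (fun S => Arc N (ξ ∆ bd S) p r R) ≤ q
def ExpB (N : ℕ) (γ : ℝ) : Prop :=
  ∃ C : ℝ, ∀ r R : ℝ, 1 ≤ r → r ≤ R → ArcB N 0 r R (C * (r / R) ^ γ)

/-- a path inside `Y` from distance at most `r` to distance more than `R` from `p` -/
def Crs (Y : Set Site) (p : Site) (r R : ℝ) (b : Site) : Prop :=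
  b ∈ Y ∧ (∃ x, dst x p ≤ r ∧ Jn Y b x) ∧ ∃ y, R < dst y p ∧ Jn Y b y
/-- one-arm bound: for every finite set of fresh sites -/
def ArmB (r R q : ℝ) : Prop :=
  ∀ (p : Site) (Y : Finset Site), pr Y.powerset (fun S => ∃ b, Crs S p r R b) ≤ q

/-! ### potentials and observables -/

structure IsPot (D H : Finset Site) (φ : Edge →₀ ℤ) (k : ℤ) (η : Edge →₀ ℤ) (Φ : Site → ℤ) :
    Prop where
  supp : ∀ e, η e ≠ 0 → Touch e H
  div : ∀ t, TT t H → dv (φ + η) t = if t = tau0 then -k else 0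
  pot : ∀ e, Inside e D → cob Φ e = φ e + η e - k * kap e
  zero : Φ 0 = Mc (φ + η)

def jv (D H : Finset Site) (φ : Edge →₀ ℤ) (k : ℤ) (a : Site) : ℤ :=
  if h : ∃ P : (Edge →₀ ℤ) × (Site → ℤ), IsPot D H φ k P.1 P.2 then h.choose.2 a else 0

/-- the geometric part of a frame -/
structure Dom (s R : ℝ) (D H : Finset Site) : Prop where
  zero : (0 : Site) ∈ H
  hs : H ⊆ bal 0 s
  hR : bal 0 R ⊆ D
  gap : s + 6 ≤ R
  connH : SConn H
  connD : SConn D
  connO : SConn (D : Set Site)ᶜ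

def InTip (s : ℝ) (H : Finset Site) (v : Tri) : Prop :=
  ∃ p, vtx v p ∉ bal 0 s ∧ vtx v (p + 1) ∈ H ∧ vtx v (p + 2) ∈ H
def OutTip (D : Finset Site) (u : Tri) : Prop :=
  ∃ p, vtx u p ∈ D ∧ vtx u (p + 1) ∉ D ∧ vtx u (p + 2) ∉ D

structure Frame (s R : ℝ) (D H : Finset Site) (V U : Finset Tri) : Prop extends Dom s R D H where
  inn : ∀ v ∈ V, InTip s H v
  out : ∀ u ∈ U, OutTip D u

def Thru (ξ : Finset Edge) (V U : Finset Tri) : Prop := ∀ u ∈ U, ∃ v ∈ V, Conn ξ u v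
/-- the flow of the lines that end at the elements of `U` -/
def Lf (ξ : Finset Edge) (U : Finset Tri) : Edge →₀ ℤ := -∑ u ∈ U, line ξ u

def om : ℂ := Complex.exp (-(Real.pi / 3 : ℝ) * Complex.I)
def ta : ℂ := Complex.exp ((2 * Real.pi / 3 : ℝ) * Complex.I)

def amp (D H : Finset Site) (V U : Finset Tri) (x : ℂ) : ℂ :=
  avg (Om D H (V ∪ U)) fun ξ => if Thru ξ V U then x ^ (-Mc (Lf ξ U)) else 0

/-- end of the moving line -/
def tz (ξ : Finset Edge) (t : Tri) (i : Fin 3) : Tri := if side t i ∈ ξ then nbr t i else t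
def PatA (ξ : Finset Edge) (V U : Finset Tri) (t : Tri) (i : Fin 3) : Prop :=
  Thru (ξ.erase (side t i)) V U ∧ ∃ v ∈ V, Conn (ξ.erase (side t i)) (tz ξ t i) v
def zeta (ξ : Finset Edge) (t : Tri) (i : Fin 3) : Edge →₀ ℤ :=
  -line (ξ.erase (side t i)) (tz ξ t i) + if side t i ∈ ξ then into t i else 0
def wt (D H : Finset Site) (U : Finset Tri) (x : ℂ) (t : Tri) (i p : Fin 3) (m : ℤ)
    (ξ : Finset Edge) : ℂ :=
  om ^ (jv D H (Lf (ξ.erase (side t i)) U) U.card (vtx t p) + U.card * m +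
      inc (Lf (ξ.erase (side t i)) U) t p (i + 1)) *
    x ^ (m + off (vtx t p) t - Mc (Lf (ξ.erase (side t i)) U + zeta ξ t i))
def obs (D H : Finset Site) (V U : Finset Tri) (x : ℂ) (t : Tri) (i p : Fin 3) (m : ℤ) : ℂ :=
  avg (Om D H (insert t (V ∪ U))) fun ξ => if PatA ξ V U t i then wt D H U x t i p m ξ else 0
/-- the observable at the edge `e`, anchored at `rgt e` -/
def obsE (D H : Finset Site) (V U : Finset Tri) (x : ℂ) (e : Edge) (m : ℤ) : ℂ :=
  obs D H V U x (up e) e.2 (e.2 + 1) m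

/-- standing assumption on the twist -/
def HX (V U : Finset Tri) (x : ℂ) : Prop := ‖x‖ = 1 ∧ (x = 1 ∨ V.card = U.card + 1)

/-- a reference flow from `tau0` to `u` -/
def IsRef (D : Finset Site) (u : Tri) (φ : Edge →₀ ℤ) : Prop :=
  (∀ e, φ e ≠ 0 → Touch e D) ∧
    ∀ t, dv φ t = (if t = u then 1 else 0) - (if t = tau0 then 1 else 0)
def ref (D : Finset Site) (u : Tri) : Edge →₀ ℤ := if h : ∃ φ, IsRef D u φ then h.choose else 0
/-- sector index of the wall triangle `t` (free vertex `p`) with respect to `u`, on sheet `0` of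
the vertex -/
def Jw (D : Finset Site) (u t : Tri) (p : Fin 3) : ℤ :=
  jv D {0} (ref D u) 1 (vtx t p) + inc (ref D u) t p (p + 1)

end Pool.Agent.TAF.U
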