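import Pool.Agent.P.MP_cb4022_pr.U.ThmH
import Pool.Agent.P.MP_cb4022_pr.U.Cpl

/-! Changing the coupling inside cells does not change the law of the link pattern (paper I1). -/

open scoped Classical symmDiff

noncomputable section

namespace Pool.Agent.TAF.U

def StepTV (η b₀ : ℝ) : Prop := ∀ M ε : ℝ, 0 < ε → ∃ s₀ : ℝ, ∀ (D Q : Finset Site) (W : Set Site)
  (j j' : Site → ℝ) (F : Finset Site → ℝ) (s r₁ : ℝ), s₀ ≤ s → Nice D W r₁ η → 200 * s ≤ r₁ →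
    D ⊆ bal 0 (M * s) → Bd j b₀ → Bd j' b₀ → Lip j (2 / s) → Lip j' (2 / s) →
    (∀ w, j w ≠ j' w → bal w s ∩ D ⊆ Q ∧ ∀ x ∈ D, dst x w ≤ 3 * s → x ∈ W) → Meas Q F →
    (∀ S, |F S| ≤ 1) → |gib D ∅ j' F - gib D ∅ j F| ≤ ε

theorem EndA_bd {j j' : Site → ℝ} {b t : ℝ} (h : Bd j b) (h' : Bd j' b)
    (ht : t ∈ Set.Icc (0 : ℝ) 1) : Bd (fun x => j x + t * (j' x - j x)) b := by
  intro x
  have h1 := abs_le.1 (h x)
  have h2 := abs_le.1 (h' x)
  have h3 : 0 ≤ 1 - t := by linarith [ht.2]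
  have h4 := mul_le_mul_of_nonneg_left h1.1 h3
  have h5 := mul_le_mul_of_nonneg_left h1.2 h3
  have h6 := mul_le_mul_of_nonneg_left h2.1 ht.1
  have h7 := mul_le_mul_of_nonneg_left h2.2 ht.1
  exact abs_le.2 ⟨by linarith, by linarith⟩

theorem EndA_lip {j j' : Site → ℝ} {L t : ℝ} (h : Lip j L) (h' : Lip j' L)
    (ht : t ∈ Set.Icc (0 : ℝ) 1) : Lip (fun x => j x + t * (j' x - j x)) L := by
  intro x y
  have h1 := abs_le.1 (h x y)
  have h2 := abs_le.1 (h' x y)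
  have h3 : 0 ≤ 1 - t := by linarith [ht.2]
  have h4 := mul_le_mul_of_nonneg_left h1.1 h3
  have h5 := mul_le_mul_of_nonneg_left h1.2 h3
  have h6 := mul_le_mul_of_nonneg_left h2.1 ht.1
  have h7 := mul_le_mul_of_nonneg_left h2.2 ht.1
  exact abs_le.2 ⟨by linarith, by linarith⟩

theorem EndA_touch {e : Edge} {D : Finset Site} {M s : ℝ} (hs : 1 ≤ s) (hD : D ⊆ bal 0 (M * s))
    (h : Touch e (D : Set Site)) :
    lft e ∈ bal 0 ((M + 1) * s) ∧ rgt e ∈ bal 0 ((M + 1) * s) := by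
  have h1 : dst (lft e) (rgt e) ≤ 1 := dst_vtx _ _ _
  have h2 : dst (rgt e) (lft e) ≤ 1 := dst_vtx _ _ _
  have h3 := dst_tri (lft e) (rgt e) 0
  have h4 := dst_tri (rgt e) (lft e) 0
  rcases h with h | h <;>
  · have h5 := mem_bal.1 (hD h)
    exact ⟨mem_bal.2 (by linarith), mem_bal.2 (by linarith)⟩

theorem EndA_cover {X P : Finset Site} {f : Site → ℝ} {s c : ℝ} {N : ℕ} (hf : ∀ w, 0 ≤ f w)
    (hc : 0 ≤ c) (hP : P.card ≤ N) (h : ∀ x ∈ X, ∃ p ∈ P, x ∈ bal p s)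
    (h' : ∀ p, ∑ w ∈ X ∩ bal p s, f w ≤ c) : ∑ w ∈ X, f w ≤ N * c := by
  have h1 : ∑ w ∈ X, f w ≤ ∑ w ∈ X, ∑ p ∈ P, if w ∈ bal p s then f w else 0 := by
    refine Finset.sum_le_sum fun w hw => ?_
    obtain ⟨p, hp, hwp⟩ := h w hw
    refine le_trans (le_of_eq (if_pos hwp).symm)
      (Finset.single_le_sum (f := fun p => if w ∈ bal p s then f w else 0) (fun q _ => ?_) hp)
    split_ifs
    · exact hf w
    · exact le_rfl
  rw [Finset.sum_comm] at h1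
  refine h1.trans ((Finset.sum_le_card_nsmul P _ c fun p _ => ?_).trans ?_)
  · rw [Finset.sum_ite_mem]
    exact h' p
  · rw [nsmul_eq_mul]
    exact mul_le_mul_of_nonneg_right (by exact_mod_cast hP) hc

theorem EndA_small {K ε δ : ℝ} (hε : 0 < ε) (hδ : 0 < δ) :
    ∃ s₀ : ℝ, 1 ≤ s₀ ∧ ∀ s, s₀ ≤ s → K * s ^ (-ε) ≤ δ := by
  have h1 := (tendsto_rpow_neg_atTop hε).const_mul K
  rw [mul_zero] at h1
  obtain ⟨a, ha⟩ := Filter.eventually_atTop.1 (h1.eventually (ge_mem_nhds hδ))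
  exact ⟨max 1 a, le_max_left _ _, fun s hs => ha s ((le_max_right _ _).trans hs)⟩

/-- `gib_interp` with the sites `w ∈ bal 0 ((M + 1) s)` where `j w ≠ j' w`; `exists_cover`;
`sum_cov` with `M = 1` in each ball that contains such a site; `thH` with `R = s / 3` -/
theorem stepTV_of {b A ε : ℝ} (hb0 : 0 < b) (hb : b ≤ 1 / 12) (hA : 0 ≤ A) (hε : 0 < ε)
    (hε' : ε ≤ 1 / 16) (hG : ThG b A ε) :
    ∃ η b₀ : ℝ, 0 < η ∧ 0 < b₀ ∧ b₀ ≤ 1 / 12 ∧ StepTV η b₀ := by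
  obtain ⟨η, b₀, C, hη, hb₀, hb₀b, hC, hH⟩ := thH hb0 hb hA hε hε' hG
  obtain ⟨C', hC'0, hC'⟩ := sum_cov hb hA hε hε' hG hC (M := 1) le_rfl
  refine ⟨η, b₀, hη, hb₀, hb₀b.trans hb, fun M δ hδ => ?_⟩
  obtain ⟨N, hN⟩ := exists_cover (M + 1)
  obtain ⟨s₀, hs₀, hsm⟩ := EndA_small (K := 2 * b₀ * (N * C')) hε hδ
  refine ⟨s₀, fun D Q W j j' F s r₁ hs hNi hr hD hj hj' hl hl' hQ hM hF => ?_⟩
  have hs1 : 1 ≤ s := hs₀.trans hs
  have hs0 : 0 < s := by linarith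
  obtain ⟨P, hP, hcov⟩ := hN s hs1
  have hi := gib_interp (Λ := D) (S₀ := ∅) (j := j) (j' := j') (F := F)
    ((bal 0 ((M + 1) * s)).filter fun w => j w ≠ j' w)
    (fun e he => ⟨fun h => Finset.mem_filter.2 ⟨(EndA_touch hs1 hD he).1, h⟩,
      fun h => Finset.mem_filter.2 ⟨(EndA_touch hs1 hD he).2, h⟩⟩)
    (b := 2 * b₀) (c := N * (C' * s ^ (-ε))) (by linarith) ?_ ?_
  · refine hi.trans (le_trans (le_of_eq ?_) (hsm s hs))
    ring
  · intro w _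
    have h1 := abs_le.1 (hj w)
    have h2 := abs_le.1 (hj' w)
    exact abs_le.2 ⟨by linarith, by linarith⟩
  · intro t ht
    have hbd := EndA_bd hj hj' ht
    have hlip := EndA_lip hl hl' ht
    have hpos : 0 ≤ C' * s ^ (-ε) := by positivity
    refine EndA_cover (fun w => abs_nonneg _) hpos hP
      (fun x hx => hcov x (Finset.mem_filter.1 hx).1) fun p => ?_
    rcases (((bal 0 ((M + 1) * s)).filter fun w => j w ≠ j' w) ∩ bal p s).eq_empty_or_nonempty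
      with h0 | ⟨w₀, hw₀⟩
    · rw [h0, Finset.sum_empty]
      exact hpos
    rw [Finset.mem_inter, Finset.mem_filter] at hw₀
    refine hC' D Q D ∅ _ W _ F p s r₁ η hNi hs1 (by linarith) (fun x hx hxp => ?_) subset_rfl
      (Finset.empty_subset _) (hbd.mono hb₀b) hlip hM hF ?_ fun w hw => ?_
    · refine (hQ w₀ hw₀.1.2).2 x hx ?_
      have h1 := dst_tri x p w₀
      have h2 := mem_bal.1 hw₀.2
      rw [dst_comm] at h2
      linarith
    · rw [one_mul]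
      exact Finset.inter_subset_right
    · rw [Finset.mem_inter, Finset.mem_filter] at hw
      obtain ⟨h1, h2⟩ := hQ w hw.1.2
      refine ⟨fun x hx => ?_, hH D D ∅ W _ w r₁ (s / 3) hNi (by linarith) subset_rfl
        (Finset.empty_subset _) Finset.inter_subset_left (fun x hx hxw => h2 x hx (by linarith))
        hbd (hlip.mono ?_)⟩
      · rw [Finset.mem_inter] at hx
        exact Finset.mem_inter.2 ⟨h1 (Finset.mem_inter.2
          ⟨bal_mono w (by linarith) hx.1, hx.2⟩), hx.2⟩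
      · rw [div_le_div_iff₀ hs0 (by linarith)]
        linarith

end Pool.Agent.TAF.U
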