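import Pool.Agent.P.MP_cb4022_pr.U.Basic

/-! Discrete geometry (paper A5). -/

open scoped Classical symmDiff

noncomputable section

namespace Pool.Agent.TAF.U

/-- round the row first, then the abscissa: squared distance at most `3/16 + 1/4` -/
theorem exists_near (z : ℂ) : ∃ x : Site, ‖pos x - z‖ ≤ 2 / 3 := by
  have h3 : √3 ^ 2 = (3 : ℝ) := Real.sq_sqrt (by norm_num)
  have hp : (0 : ℝ) < √3 := Real.sqrt_pos.2 (by norm_num)
  obtain ⟨b, hb⟩ : ∃ b : ℤ, |z.im / (√3 / 2) - b| ≤ 1 / 2 := ⟨_, abs_sub_round _⟩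
  obtain ⟨a, ha⟩ : ∃ a : ℤ, |z.re - b / 2 - a| ≤ 1 / 2 := ⟨_, abs_sub_round _⟩
  refine ⟨(a, b), abs_le_of_sq_le_sq' ?_ (by norm_num) |>.2⟩
  rw [Complex.sq_norm, Complex.normSq_apply]
  simp only [pos, Complex.sub_re, Complex.sub_im]
  have e : √3 / 2 * (b : ℝ) - z.im = -(√3 / 2) * (z.im / (√3 / 2) - b) := by
    field_simp
    ring
  have h1 := sq_le_sq' (abs_le.1 ha).1 (abs_le.1 ha).2
  have h2 := sq_le_sq' (abs_le.1 hb).1 (abs_le.1 hb).2
  rw [e]
  generalize z.im / (√3 / 2) - b = w at *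
  have e2 : -(√3 / 2) * w * (-(√3 / 2) * w) = 3 / 4 * w ^ 2 := by
    linear_combination w ^ 2 / 4 * h3
  rw [e2]
  nlinarith

/-- use `dst_sq`: the integer form takes the values `0, 1, 3, ..` -/
theorem adj_of_dst {x y : Site} (h : dst x y < 1.7) : x = y ∨ tri.Adj x y := by
  have h1 := dst_sq x y
  have h0 := dst_nonneg x y
  have h2 : (((x.1 - y.1) ^ 2 + (x.1 - y.1) * (x.2 - y.2) + (x.2 - y.2) ^ 2 : ℤ) : ℝ) < 3 := by
    rw [← h1]
    nlinarith
  have h3 : (x.1 - y.1) ^ 2 + (x.1 - y.1) * (x.2 - y.2) + (x.2 - y.2) ^ 2 < 3 := by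
    exact_mod_cast h2
  obtain ⟨a, b⟩ := x
  obtain ⟨c, d⟩ := y
  simp only [tri, Prod.mk_sub_mk, Finset.mem_insert, Finset.mem_singleton, Prod.mk.injEq] at h3 ⊢
  obtain ⟨u, hu⟩ : ∃ u, u = a - c := ⟨_, rfl⟩
  obtain ⟨v, hv⟩ : ∃ v, v = b - d := ⟨_, rfl⟩
  rw [← hu, ← hv] at h3
  have u1 : u < 2 := by nlinarith [sq_nonneg (u + 2 * v)]
  have u2 : -2 < u := by nlinarith [sq_nonneg (u + 2 * v)]
  have v1 : v < 2 := by nlinarith [sq_nonneg (2 * u + v)]
  have v2 : -2 < v := by nlinarith [sq_nonneg (2 * u + v)]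
  interval_cases u <;> interval_cases v <;> omega

theorem one_le_dst {x y : Site} (h : x ≠ y) : 1 ≤ dst x y := by
  by_contra hlt
  rcases adj_of_dst (x := x) (y := y) (by linarith [not_le.1 hlt]) with e | e
  · exact h e
  · exact hlt (dst_adj e).ge

theorem Geo_step {X : Set Site} {a x y : Site} {z : ℂ} (h : Jn X a x) (hx : x ∈ X) (hy : y ∈ X)
    (h1 : ‖pos x - z‖ < 0.7) (h2 : ‖pos y - z‖ < 0.7) : Jn X a y := by
  have h3 : dst x y ≤ ‖pos x - z‖ + ‖pos y - z‖ := by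
    rw [norm_sub_rev (pos y)]
    exact norm_sub_le_norm_sub_add_norm_sub _ _ _
  rcases adj_of_dst (x := x) (y := y) (by linarith) with e | e
  · exact e ▸ h
  · exact h.trans (Jn.single hx hy e)

/-- Approx. For `a` in the set, the union of the discs round the sites joined to `a` and the union
of the discs round the other sites are disjoint open sets that cover `C`. -/
theorem approx (D : Set Site) {C : Set ℂ} (hC : IsPreconnected C)
    (h : ∀ z ∈ C, ∃ x ∈ D, ‖pos x - z‖ < 0.7) :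
    SConn {x | x ∈ D ∧ ∃ z ∈ C, ‖pos x - z‖ < 0.7} := by
  set X : Set Site := {x | x ∈ D ∧ ∃ z ∈ C, ‖pos x - z‖ < 0.7} with hX
  have op : ∀ P : Site → Prop, IsOpen {z : ℂ | ∃ x, P x ∧ ‖pos x - z‖ < 0.7} := by
    intro P
    have e : {z : ℂ | ∃ x, P x ∧ ‖pos x - z‖ < 0.7} =
        ⋃ x ∈ {x | P x}, {z : ℂ | ‖pos x - z‖ < 0.7} := by
      ext z
      simp
    rw [e]
    exact isOpen_biUnion fun x _ => isOpen_lt (by fun_prop) continuous_const
  rintro a ⟨aD, z, zC, hz⟩ b ⟨bD, w, wC, hw⟩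
  have ha : a ∈ X := ⟨aD, z, zC, hz⟩
  have hb : b ∈ X := ⟨bD, w, wC, hw⟩
  have key : C ⊆ {z : ℂ | ∃ x, (x ∈ X ∧ Jn X a x) ∧ ‖pos x - z‖ < 0.7} := by
    refine hC.subset_left_of_subset_union (op _) (op fun x => x ∈ X ∧ ¬ Jn X a x) ?_ ?_
      ⟨z, zC, a, ⟨ha, Jn.refl _ _⟩, hz⟩
    · refine Set.disjoint_left.2 ?_
      rintro u ⟨x, ⟨hx, jx⟩, h1⟩ ⟨y, ⟨hy, jy⟩, h2⟩
      exact jy (Geo_step jx hx hy h1 h2)
    · intro u hu
      obtain ⟨x, xD, hx⟩ := h u hu
      by_cases j : Jn X a x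
      · exact Or.inl ⟨x, ⟨⟨xD, u, hu, hx⟩, j⟩, hx⟩
      · exact Or.inr ⟨x, ⟨⟨xD, u, hu, hx⟩, j⟩, hx⟩
  obtain ⟨x, ⟨hx, jx⟩, h1⟩ := key wC
  exact Geo_step jx hx hb h1 hw

theorem Geo_radial (p : Site) {S : Set ℝ} (hS : IsPreconnected S) (h0 : ∀ t ∈ S, 0 ≤ t)
    {D : Set Site} (h1 : ∀ t ∈ S, ∀ x, |dst x p - t| ≤ 2 / 3 → x ∈ D)
    (h2 : ∀ x ∈ D, ∃ t ∈ S, |dst x p - t| < 0.7) : SConn D := by
  have hC : IsPreconnected ((fun q : ℝ × ℝ => circleMap (pos p) q.1 q.2) '' S ×ˢ Set.univ) := by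
    refine (hS.prod isPreconnected_univ).image _ (Continuous.continuousOn ?_)
    unfold circleMap
    fun_prop
  have key := approx D hC (by
    rintro _ ⟨⟨t, θ⟩, ⟨ht, -⟩, rfl⟩
    obtain ⟨x, hx⟩ := exists_near (circleMap (pos p) t θ)
    refine ⟨x, h1 t ht x ?_, hx.trans_lt (by norm_num)⟩
    have e : ‖circleMap (pos p) t θ - pos p‖ = t := by
      rw [circleMap_sub_center, norm_circleMap_zero, abs_of_nonneg (h0 t ht)]
    have := abs_norm_sub_norm_le (pos x - pos p) (circleMap (pos p) t θ - pos p)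
    rw [e, sub_sub_sub_cancel_right] at this
    exact this.trans hx)
  have e : {x | x ∈ D ∧ ∃ z ∈ (fun q : ℝ × ℝ => circleMap (pos p) q.1 q.2) '' S ×ˢ Set.univ,
      ‖pos x - z‖ < 0.7} = D := by
    refine Set.Subset.antisymm (fun x hx => hx.1) fun x hx => ⟨hx, ?_⟩
    obtain ⟨t, ht, h3⟩ := h2 x hx
    refine ⟨_, ⟨(t, Complex.arg (pos x - pos p)), ⟨ht, trivial⟩, rfl⟩, ?_⟩
    have e1 := Complex.norm_mul_exp_arg_mul_I (pos x - pos p)
    have e2 : pos x - circleMap (pos p) t (Complex.arg (pos x - pos p)) =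
        ((dst x p - t : ℝ) : ℂ) * Complex.exp (Complex.arg (pos x - pos p) * Complex.I) := by
      rw [circleMap, dst]
      push_cast
      linear_combination -e1
    change ‖pos x - circleMap (pos p) t (Complex.arg (pos x - pos p))‖ < 0.7
    rw [e2, norm_mul, Complex.norm_exp_ofReal_mul_I, mul_one, Complex.norm_real, Real.norm_eq_abs]
    exact h3
  rwa [e] at key

/-- every site other than `p` has a neighbour that is closer to `p` (or use `approx`) -/
theorem sconn_bal (p : Site) (r : ℝ) : SConn (bal p r) := by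
  by_cases hr : r < 1
  · have : ∀ x ∈ (bal p r : Set Site), x = p := fun x hx => by
      by_contra hne
      have h1 := one_le_dst hne
      have h2 := mem_bal.1 hx
      linarith
    intro a ha b hb
    rw [this a ha, this b hb]
    exact Jn.refl _ _
  · refine Geo_radial p (S := Set.Icc 0 (r - 0.68)) isPreconnected_Icc (fun t ht => ht.1)
      (fun t ht x hx => mem_bal.2 ?_) fun x hx => ?_
    · linarith [(abs_le.1 hx).2, ht.2]
    · have h1 := mem_bal.1 hx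
      have h2 := dst_nonneg x p
      rcases le_total (dst x p) (r - 0.68) with h | h
      · exact ⟨dst x p, ⟨h2, h⟩, by norm_num⟩
      · exact ⟨r - 0.68, ⟨by linarith, le_rfl⟩, abs_lt.2 ⟨by linarith, by linarith⟩⟩

/-- `approx` with `C = {z | r + 0.68 ≤ ‖z - pos p‖}` -/
theorem sconn_compl_bal (p : Site) (r : ℝ) : SConn (bal p r : Set Site)ᶜ := by
  refine Geo_radial p (S := Set.Ici (max 0 (r + 0.68))) isPreconnected_Ici
    (fun t ht => (le_max_left _ _).trans ht) (fun t ht x hx hb => ?_) fun x hx => ?_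
  · have h1 := mem_bal.1 hb
    have h2 : r + 0.68 ≤ t := (le_max_right _ _).trans ht
    linarith [(abs_le.1 hx).1]
  · have h1 : r < dst x p := not_le.1 fun h => hx (mem_bal.2 h)
    have h2 := dst_nonneg x p
    rcases le_total (r + 0.68) (dst x p) with h | h
    · exact ⟨dst x p, max_le h2 h, by norm_num⟩
    · exact ⟨r + 0.68, max_le (h2.trans h) le_rfl, abs_lt.2 ⟨by linarith, by linarith⟩⟩

/-- `approx` with `C = {z | r + 0.68 ≤ ‖z - pos p‖ ≤ R - 0.68}` -/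
theorem sconn_ann (p : Site) {r R : ℝ} (h0 : 0 ≤ r) (h : r + 2 ≤ R) : SConn (ann p r R) := by
  refine Geo_radial p (S := Set.Icc (r + 0.68) (R - 0.68)) isPreconnected_Icc
    (fun t ht => by linarith [ht.1]) (fun t ht x hx => mem_ann.2 ⟨?_, ?_⟩) fun x hx => ?_
  · linarith [(abs_le.1 hx).1, ht.1]
  · linarith [(abs_le.1 hx).2, ht.2]
  · obtain ⟨h1, h2⟩ := mem_ann.1 hx
    rcases le_total (dst x p) (r + 0.68) with a | a
    · exact ⟨r + 0.68, ⟨le_rfl, by linarith⟩, abs_lt.2 ⟨by linarith, by linarith⟩⟩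
    · rcases le_total (dst x p) (R - 0.68) with b | b
      · exact ⟨dst x p, ⟨a, b⟩, by norm_num⟩
      · exact ⟨R - 0.68, ⟨by linarith, le_rfl⟩, abs_lt.2 ⟨by linarith, by linarith⟩⟩

theorem card_bal (p : Site) {r : ℝ} (h : 0 ≤ r) : ((bal p r).card : ℝ) ≤ 9 * (r + 1) ^ 2 := by
  set n : ℕ := ⌊3 / 2 * r⌋₊ with hn
  have key : ∀ u : ℤ, 3 / 4 * (u : ℝ) ^ 2 ≤ r ^ 2 → -(n : ℤ) ≤ u ∧ u ≤ n := by
    intro u hu
    have h1 : |(u : ℝ)| ≤ 3 / 2 * r := abs_le_of_sq_le_sq (by nlinarith [sq_nonneg r]) (by linarith)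
    have h2 : u.natAbs ≤ n := Nat.le_floor (by
      rw [Nat.cast_natAbs, Int.cast_abs]
      exact h1)
    omega
  have hs : bal p r ⊆ Finset.Icc (p.1 - n) (p.1 + n) ×ˢ Finset.Icc (p.2 - n) (p.2 + n) := by
    intro x hx
    have h1 := mem_bal.1 hx
    have h2 := dst_sq x p
    have h3 : dst x p ^ 2 ≤ r ^ 2 := pow_le_pow_left₀ (dst_nonneg _ _) h1 2
    rw [h2] at h3
    push_cast at h3
    have a := key (x.1 - p.1) (by
      push_cast
      nlinarith [sq_nonneg (((x.1 : ℝ) - p.1) + 2 * (x.2 - p.2))])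
    have b := key (x.2 - p.2) (by
      push_cast
      nlinarith [sq_nonneg (2 * ((x.1 : ℝ) - p.1) + (x.2 - p.2))])
    simp only [Finset.mem_product, Finset.mem_Icc]
    omega
  have h1 := Finset.card_le_card hs
  rw [Finset.card_product, Int.card_Icc, Int.card_Icc] at h1
  have e1 : (p.1 + n + 1 - (p.1 - n)).toNat = 2 * n + 1 := by omega
  have e2 : (p.2 + n + 1 - (p.2 - n)).toNat = 2 * n + 1 := by omega
  rw [e1, e2] at h1
  have h2 : ((bal p r).card : ℝ) ≤ (2 * n + 1) * (2 * n + 1) := by exact_mod_cast h1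
  have h3 : (n : ℝ) ≤ 3 / 2 * r := Nat.floor_le (by linarith)
  have h4 : (0 : ℝ) ≤ n := Nat.cast_nonneg n
  nlinarith

theorem exists_bal (D : Finset Site) (p : Site) : ∃ r : ℝ, 0 ≤ r ∧ D ⊆ bal p r := by
  refine ⟨∑ x ∈ D, dst x p, Finset.sum_nonneg fun x _ => dst_nonneg x p, fun x hx => ?_⟩
  exact mem_bal.2 (Finset.single_le_sum (f := fun x => dst x p) (fun x _ => dst_nonneg x p) hx)

theorem SConn.union {X Y : Set Site} (hX : SConn X) (hY : SConn Y)
    (h : ∃ x ∈ X, ∃ y ∈ Y, x = y ∨ tri.Adj x y) : SConn (X ∪ Y) := by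
  obtain ⟨x, hx, y, hy, h⟩ := h
  have j : Jn (X ∪ Y) x y := by
    rcases h with e | e
    · exact e ▸ Jn.refl _ _
    · exact Jn.single (Or.inl hx) (Or.inr hy) e
  have k : ∀ a ∈ X ∪ Y, Jn (X ∪ Y) a x := by
    rintro a (ha | ha)
    · exact (hX a ha x hx).mono Set.subset_union_left
    · exact ((hY a ha y hy).mono Set.subset_union_right).trans j.symm
  exact fun a ha b hb => (k a ha).trans (k b hb).symm

/-- a set all of whose points are joined to a connected subset -/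
theorem sconn_of_jn {X Y : Set Site} (hX : SConn X) (hXY : X ⊆ Y)
    (h : ∀ y ∈ Y, ∃ x ∈ X, Jn Y y x) : SConn Y := by
  intro a ha b hb
  obtain ⟨x, hx, j1⟩ := h a ha
  obtain ⟨y, hy, j2⟩ := h b hb
  exact (j1.trans ((hX x hx y hy).mono hXY)).trans j2.symm

/-- first exit from `Z` of a path in `X` -/
theorem Jn.exit {X Z : Set Site} {a b : Site} (h : Jn X a b) (haX : a ∈ X) (ha : a ∈ Z)
    (hb : b ∉ Z) : ∃ x y, Jn (X ∩ Z) a x ∧ x ∈ X ∩ Z ∧ y ∈ X \ Z ∧ tri.Adj x y ∧ Jn X y b := by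
  induction h using Relation.ReflTransGen.head_induction_on with
  | refl => exact absurd ha hb
  | @head u v h1 h2 ih =>
    by_cases hv : v ∈ Z
    · obtain ⟨x, y, j, r⟩ := ih h1.2.1 hv
      exact ⟨x, y, (Jn.single (X := X ∩ Z) ⟨haX, ha⟩ ⟨h1.2.1, hv⟩ h1.2.2).trans j, r⟩
    · exact ⟨u, v, Jn.refl _ _, ⟨haX, ha⟩, ⟨h1.2.1, hv⟩, h1.2.2, h2⟩

/-- component of `a` in `X` -/
def cmp (X : Finset Site) (a : Site) : Finset Site := X.filter fun x => Jn X a x

theorem mem_cmp {X : Finset Site} {a x : Site} : x ∈ cmp X a ↔ x ∈ X ∧ Jn X a x :=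
  Finset.mem_filter

theorem sconn_cmp (X : Finset Site) (a : Site) : SConn (cmp X a) := by
  have k : ∀ x, Jn X a x → Jn (cmp X a) a x := by
    intro x hx
    induction hx with
    | refl => exact Jn.refl _ _
    | tail h1 h2 ih =>
      exact ih.trans (Jn.single (mem_cmp.2 ⟨h2.1, h1⟩)
        (mem_cmp.2 ⟨h2.2.1, Relation.ReflTransGen.tail h1 h2⟩) h2.2.2)
  exact fun x hx y hy => (k x (mem_cmp.1 hx).2).symm.trans (k y (mem_cmp.1 hy).2)

theorem cmp_closed {X : Finset Site} {a x y : Site} (hx : x ∈ cmp X a) (hy : y ∈ X)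
    (h : tri.Adj x y) : y ∈ cmp X a := by
  obtain ⟨h1, h2⟩ := mem_cmp.1 hx
  exact mem_cmp.2 ⟨hy, h2.trans (Jn.single h1 hy h)⟩

/-- a site of another component walks to the right until it leaves `X` -/
theorem sconn_compl_cmp {X : Finset Site} (h : SConn (X : Set Site)ᶜ) (a : Site) :
    SConn (cmp X a : Set Site)ᶜ := by
  refine sconn_of_jn h (fun x hx hc => hx (mem_cmp.1 hc).1) ?_
  obtain ⟨N, hN⟩ : ∃ N : ℤ, ∀ x ∈ X, x.1 < N := by
    obtain ⟨N, hN⟩ := (X.image fun x => x.1).bddAbove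
    exact ⟨N + 1, fun x hx => Int.lt_add_one_iff.2 (hN (Finset.mem_image_of_mem _ hx))⟩
  have key : ∀ k : ℕ, ∀ y ∈ (cmp X a : Set Site)ᶜ, N - y.1 ≤ k →
      ∃ x ∈ (X : Set Site)ᶜ, Jn (cmp X a : Set Site)ᶜ y x := by
    intro k
    induction k with
    | zero =>
      intro y _ h1
      refine ⟨y, fun hy => ?_, Jn.refl _ _⟩
      have := hN y hy
      omega
    | succ k ih =>
      intro y hy h1
      by_cases hX : y ∈ X
      · have ad : tri.Adj y (y.1 + 1, y.2) := by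
          obtain ⟨y1, y2⟩ := y
          simp [tri]
        have h2 : (y.1 + 1, y.2) ∈ (cmp X a : Set Site)ᶜ := fun hc =>
          hy (cmp_closed hc hX ad.symm)
        obtain ⟨x, hx, j⟩ := ih _ h2 (by
          simp only
          omega)
        exact ⟨x, hx, (Jn.single hy h2 ad).trans j⟩
      · exact ⟨y, hX, Jn.refl _ _⟩
  exact fun y hy => key (N - y.1).toNat y hy (Int.self_le_toNat _)

theorem Dom.nonneg {s R : ℝ} {D H : Finset Site} (h : Dom s R D H) : 0 ≤ s := by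
  simpa [mem_bal] using h.hs h.zero

theorem Dom.sub {s R : ℝ} {D H : Finset Site} (h : Dom s R D H) : H ⊆ D :=
  h.hs.trans ((bal_mono 0 (by linarith [h.gap])).trans h.hR)

theorem Dom.not_tt {s R : ℝ} {D H : Finset Site} (h : Dom s R D H) {t : Tri}
    (h1 : TT t (bal 0 s)) : AllIn t D := by
  obtain ⟨i, hi⟩ := h1
  intro j
  refine h.hR (mem_bal.2 ?_)
  have h2 := mem_bal.1 hi
  have h3 := dst_tri (vtx t j) (vtx t i) 0
  have h4 := dst_vtx t j i
  linarith [h.gap]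

/-- a path in `D` to the origin first enters the ball of radius `R` inside the annulus -/
theorem Dom.sconn_diff {s R : ℝ} {D H : Finset Site} (h : Dom s R D H) :
    SConn (D \ bal 0 s : Finset Site) := by
  have h0 := h.nonneg
  have hg := h.gap
  refine sconn_of_jn (sconn_ann 0 (R := R) h0 (by linarith)) (fun x hx => ?_) fun y hy => ?_
  · obtain ⟨h1, h2⟩ := mem_ann.1 hx
    exact Finset.mem_sdiff.2 ⟨h.hR (mem_bal.2 h2), fun hb => not_le.2 h1 (mem_bal.1 hb)⟩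
  · obtain ⟨yD, ys⟩ := Finset.mem_sdiff.1 hy
    by_cases hR : dst y 0 ≤ R
    · exact ⟨y, mem_ann.2 ⟨not_le.1 fun hb => ys (mem_bal.2 hb), hR⟩, Jn.refl _ _⟩
    · obtain ⟨x, w, j, hx, hw, ad, -⟩ := Jn.exit (Z := {x | R < dst x 0})
        (h.connD y yD 0 (h.sub h.zero)) yD (not_le.1 hR) (by
          simp only [Set.mem_ofPred_eq, dst_self]
          linarith)
      have hs : (D : Set Site) ∩ {x | R < dst x 0} ⊆ (D \ bal 0 s : Finset Site) := fun u hu =>
        Finset.mem_sdiff.2 ⟨hu.1, fun hb => by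
          have h1 := mem_bal.1 hb
          have h2 : R < dst u 0 := hu.2
          linarith⟩
      have h1 : R < dst x 0 := hx.2
      have h2 : dst w 0 ≤ R := not_lt.1 hw.2
      have h3 := dst_tri x w 0
      rw [dst_adj ad] at h3
      have h4 : s < dst w 0 := by linarith
      exact ⟨w, mem_ann.2 ⟨h4, h2⟩, (j.mono hs).trans (Jn.single (hs hx)
        (Finset.mem_sdiff.2 ⟨hw.1, fun hb => not_le.2 h4 (mem_bal.1 hb)⟩) ad)⟩

theorem dom_bal {s R : ℝ} (h0 : 0 ≤ s) (h : s + 6 ≤ R) : Dom s R (bal 0 R) (bal 0 s) := by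
  exact ⟨mem_bal.2 (by rw [dst_self]; exact h0), Finset.Subset.refl _, Finset.Subset.refl _, h,
    sconn_bal _ _, sconn_bal _ _, sconn_compl_bal _ _⟩

/-- rotation by `pi / 3` -/
def Geo_rot (d : Site) : Site := (-d.2, d.1 + d.2)

theorem Geo_iter : ∀ d ∈ ({(1, 0), (-1, 0), (0, 1), (0, -1), (1, -1), (-1, 1)} : Finset (ℤ × ℤ)),
    ∀ e ∈ ({(1, 0), (-1, 0), (0, 1), (0, -1), (1, -1), (-1, 1)} : Finset (ℤ × ℤ)),
      ∃ k < 6, Geo_rot^[k] d = e := by
  decide

theorem Geo_turn {a c : Site} (h : tri.Adj a c) : tri.Adj a (a + Geo_rot (c - a)) ∧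
    tri.Adj c (a + Geo_rot (c - a)) ∧
    ∃ t p, vtx t p = c ∧ vtx t (p + 1) = a + Geo_rot (c - a) ∧ vtx t (p + 2) = a := by
  have key : ∃ t p, vtx t p = c ∧ vtx t (p + 1) = a + Geo_rot (c - a) ∧ vtx t (p + 2) = a := by
    obtain ⟨a1, a2⟩ := a
    obtain ⟨c1, c2⟩ := c
    simp only [tri, Prod.mk_sub_mk, Finset.mem_insert, Finset.mem_singleton, Prod.mk.injEq] at h
    rcases h with h | h | h | h | h | h
    · refine ⟨((a1, a2), true), 1, ?_⟩
      simp [vtx, sg, Geo_rot]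
      omega
    · refine ⟨((a1, a2), false), 1, ?_⟩
      simp [vtx, sg, Geo_rot]
      omega
    · refine ⟨((c1, c2), false), 0, ?_⟩
      simp [vtx, sg, Geo_rot]
      omega
    · refine ⟨((c1, c2), true), 0, ?_⟩
      simp [vtx, sg, Geo_rot]
      omega
    · refine ⟨((a1 + 1, a2), false), 2, ?_⟩
      simp [vtx, sg, Geo_rot]
      omega
    · refine ⟨((a1 - 1, a2), true), 2, ?_⟩
      simp [vtx, sg, Geo_rot]
      omega
  obtain ⟨t, p, h1, h2, h3⟩ := key
  have n1 : ∀ p : Fin 3, p + 2 ≠ p + 1 ∧ p ≠ p + 1 := by decide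
  have a1 := adj_vtx t (n1 p).1
  have a2 := adj_vtx t (n1 p).2
  rw [h3, h2] at a1
  rw [h1, h2] at a2
  exact ⟨a1, a2, t, p, h1, h2, h3⟩

/-- a site of `D` next to the connected infinite set `Dᶜ` is close to a wall triangle: turn round
the neighbour `a` -/
theorem exists_outTip {D : Finset Site} (hO : SConn (D : Set Site)ᶜ) {c a : Site} (hc : c ∈ D)
    (ha : a ∉ D) (h : tri.Adj c a) : ∃ t p, vtx t p ∈ D ∧ vtx t (p + 1) ∉ D ∧ vtx t (p + 2) ∉ D ∧
      Jn (D ∩ bal a 1 : Finset Site) c (vtx t p) := by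
  obtain ⟨e, he, ae⟩ : ∃ e, e ∉ D ∧ tri.Adj a e := by
    obtain ⟨b, hb⟩ := Infinite.exists_notMem_finset (insert a D)
    rw [Finset.mem_insert, not_or] at hb
    rcases (hO a ha b hb.2).cases_head with e | ⟨e, he, -⟩
    · exact absurd e.symm hb.1
    · exact ⟨e, he.2.1, he.2.2⟩
  have key : ∀ (k : ℕ) (c : Site), c ∈ D → tri.Adj a c → Geo_rot^[k] (c - a) = e - a →
      ∃ t p, vtx t p ∈ D ∧ vtx t (p + 1) ∉ D ∧ vtx t (p + 2) ∉ D ∧
        Jn (D ∩ bal a 1 : Finset Site) c (vtx t p) := by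
    intro k
    induction k with
    | zero =>
      intro c hc _ h1
      rw [Function.iterate_zero_apply, sub_left_inj] at h1
      exact absurd (h1 ▸ hc) he
    | succ k ih =>
      intro c hc ac h1
      obtain ⟨a1, a2, t, p, e1, e2, e3⟩ := Geo_turn ac
      by_cases hd : a + Geo_rot (c - a) ∈ D
      · obtain ⟨t, p, b1, b2, b3, j⟩ := ih _ hd a1 (by
          rw [add_sub_cancel_left, ← Function.iterate_succ_apply]
          exact h1)
        refine ⟨t, p, b1, b2, b3, (Jn.single ?_ ?_ a2).trans j⟩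
        · exact Finset.mem_inter.2 ⟨hc, mem_bal.2 (dst_adj ac.symm).le⟩
        · exact Finset.mem_inter.2 ⟨hd, mem_bal.2 (dst_adj a1.symm).le⟩
      · refine ⟨t, p, e1 ▸ hc, e2 ▸ hd, e3 ▸ ha, ?_⟩
        rw [e1]
        exact Jn.refl _ _
  obtain ⟨k, -, hk⟩ := Geo_iter _ h.symm _ ae
  exact key k c hc h.symm hk

end Pool.Agent.TAF.U
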