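import Pool.Agent.P.MP_cb4022_pr.U.Curve
import Pool.Agent.P.MP_cb4022_pr.U.Geo

/-! Loops as curves: basic facts (paper I). -/

open scoped Classical symmDiff

noncomputable section

namespace Pool.Agent.TAF.U

section
variable {S S' S'' D B : Finset Site} {d : Site × Site} {ρ ρ' : ℝ}

theorem exists_tri (h : tri.Adj d.1 d.2) :
    ∃ t i, vtx t i = apex d ∧ vtx t (i + 1) = d.1 ∧ vtx t (i + 2) = d.2 := by
  obtain ⟨⟨a, b⟩, ⟨c, e⟩⟩ := d
  simp only [tri, Prod.mk_sub_mk, Finset.mem_insert, Finset.mem_singleton, Prod.mk.injEq] at h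
  rcases h with h | h | h | h | h | h
  · exact ⟨((a, b), true), 2, by simp [vtx, apex, sg]; omega⟩
  · exact ⟨((a, b), false), 2, by simp [vtx, apex, sg]; omega⟩
  · exact ⟨((c, e), false), 1, by simp [vtx, apex, sg]; omega⟩
  · exact ⟨((c, e), true), 1, by simp [vtx, apex, sg]; omega⟩
  · exact ⟨((c, b), false), 0, by simp [vtx, apex, sg]; omega⟩
  · exact ⟨((c, b), true), 0, by simp [vtx, apex, sg]; omega⟩

theorem apex_vtx (t : Tri) (i : Fin 3) : apex (vtx t (i + 1), vtx t (i + 2)) = vtx t i := by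
  obtain ⟨⟨a, b⟩, c⟩ := t
  fin_cases i <;> cases c <;> simp [vtx, apex, sg, sub_eq_add_neg]

theorem LoopB_adj (h : tri.Adj d.1 d.2) : tri.Adj d.1 (apex d) ∧ tri.Adj (apex d) d.2 := by
  obtain ⟨t, i, h0, h1, h2⟩ := exists_tri h
  rw [← h0, ← h1, ← h2]
  exact ⟨adj_vtx t (by generalize i = j; revert j; decide), adj_vtx t (by generalize i = j; revert j; decide)⟩

theorem LoopB_nxt_pos (h : apex d ∈ S) : nxt S d = (apex d, d.2) := if_pos h
theorem LoopB_nxt_neg (h : apex d ∉ S) : nxt S d = (d.1, apex d) := if_neg h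

theorem dart_nxt (h : IsDart S d) : IsDart S (nxt S d) := by
  by_cases e : apex d ∈ S
  · rw [LoopB_nxt_pos e]
    exact ⟨(LoopB_adj h.1).2, e, h.2.2⟩
  · rw [LoopB_nxt_neg e]
    exact ⟨(LoopB_adj h.1).1, h.2.1, e⟩
theorem dart_iter (h : IsDart S d) (k : ℕ) : IsDart S ((nxt S)^[k] d) := by
  induction k with
  | zero => exact h
  | succ k ih => rw [Function.iterate_succ_apply']; exact dart_nxt ih

/-- the triangle ahead of the next dart is a neighbour of the triangle ahead of `d` -/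
theorem nxt_tri {t : Tri} {i : Fin 3} (h : IsDart S (vtx t (i + 1), vtx t (i + 2))) :
    ∃ k, k ≠ i ∧ side t k ∈ bd S ∧ nxt S (vtx t (i + 1), vtx t (i + 2)) =
      (vtx (nbr t k) (k + 1), vtx (nbr t k) (k + 2)) := by
  have a1 : i + 1 + 1 = i + 2 := by generalize i = j; revert j; decide
  have a2 : i + 1 + 2 = i := by generalize i = j; revert j; decide
  have a3 : i + 2 + 1 = i := by generalize i = j; revert j; decide
  have a4 : i + 2 + 2 = i + 1 := by generalize i = j; revert j; decide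
  have n1 : i + 1 ≠ i := by generalize i = j; revert j; decide
  have n2 : i + 2 ≠ i := by generalize i = j; revert j; decide
  have h1 : vtx t (i + 1) ∈ S := h.2.1
  have h2 : vtx t (i + 2) ∉ S := h.2.2
  by_cases e : vtx t i ∈ S
  · refine ⟨i + 1, n1, ?_, ?_⟩
    · rw [side_mem_bd, a1, a2]
      tauto
    · rw [LoopB_nxt_pos (by rwa [apex_vtx]), apex_vtx, vtx_nbr1, vtx_nbr2, a1, a2]
  · refine ⟨i + 2, n2, ?_, ?_⟩
    · rw [side_mem_bd, a3, a4]
      tauto
    · rw [LoopB_nxt_neg (by rwa [apex_vtx]), apex_vtx, vtx_nbr1, vtx_nbr2, a3, a4]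

theorem LoopB_prev (h : IsDart S d) :
    (if apex (nxt S d).swap ∈ S then (apex (nxt S d).swap, (nxt S d).2)
      else ((nxt S d).1, apex (nxt S d).swap)) = d := by
  have e1 : apex (d.2, apex d) = d.1 := by ext <;> simp [apex] <;> ring
  have e2 : apex (apex d, d.1) = d.2 := by ext <;> simp [apex] <;> ring
  by_cases e : apex d ∈ S
  · rw [LoopB_nxt_pos e, Prod.swap_prod_mk, e1, if_pos h.2.1]
  · rw [LoopB_nxt_neg e, Prod.swap_prod_mk, e2, if_neg h.2.2]

theorem nxt_injOn (S : Finset Site) : Set.InjOn (nxt S) {d | IsDart S d} := by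
  intro d hd d' hd' e
  rw [← LoopB_prev hd, ← LoopB_prev hd', e]

/-- an injective self-map of the finite set of darts -/
theorem dart_periodic (h : IsDart S d) : d ∈ Function.periodicPts (nxt S) := by
  have hf : {d | IsDart S d}.Finite := by
    refine ((S ×ˢ ({(1, 0), (-1, 0), (0, 1), (0, -1), (1, -1), (-1, 1)} : Finset (ℤ × ℤ))).image
      fun p => (p.1, p.1 + p.2)).finite_toSet.subset fun d hd => ?_
    exact Finset.mem_coe.2 (Finset.mem_image.2 ⟨(d.1, d.2 - d.1),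
      Finset.mem_product.2 ⟨hd.2.1, hd.1⟩, by simp⟩)
  obtain ⟨a, b, hab, e⟩ := hf.exists_lt_map_eq_of_forall_mem
    (f := fun k : ℕ => (nxt S)^[k] d) (dart_iter h)
  obtain ⟨c, rfl⟩ := Nat.exists_eq_add_of_lt hab
  have e' : (nxt S)^[a] d = (nxt S)^[a] ((nxt S)^[c + 1] d) := by
    rw [← Function.iterate_add_apply, ← add_assoc]
    exact e
  exact ⟨c + 1, c.succ_pos, (((nxt_injOn S).iterate (fun _ => dart_nxt) a) h
    (dart_iter h _) e').symm⟩
theorem len_pos (h : IsDart S d) : 0 < len S d := by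
  exact Function.minimalPeriod_pos_of_mem_periodicPts (dart_periodic h)
theorem node_nat (h : IsDart S d) (k : ℕ) : node S d k = ctr ((nxt S)^[k] d) := by
  rw [node, ← Int.natCast_mod, Int.toNat_natCast, len, Function.iterate_mod_minimalPeriod_eq]
theorem LoopB_node_congr {j k : ℤ} (h : j % len S d = k % len S d) :
    node S d j = node S d k := by
  rw [node, node, h]
theorem loop_add_one (h : IsDart S d) (δ t : ℝ) : loop δ S d (t + 1) = loop δ S d t := by
  have e : (len S d : ℝ) * (t + 1) = len S d * t + len S d := by ring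
  have n1 : ∀ j : ℤ, node S d (j + len S d) = node S d j := fun j => LoopB_node_congr (by simp)
  rw [loop, loop, e, Int.floor_add_natCast, Int.fract_add_natCast, add_right_comm _ _ (1 : ℤ), n1,
    n1]
theorem loop_scale (δ : ℝ) (S : Finset Site) (d : Site × Site) (t : ℝ) :
    loop δ S d t = δ * loop 1 S d t := by
  simp [loop]
theorem loop_zero (S : Finset Site) (d : Site × Site) : loop 1 S d 0 = ctr d := by
  simp [loop, node]
theorem ctr_near (h : tri.Adj d.1 d.2) :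
    ‖ctr d - pos d.1‖ ≤ 1 ∧ ‖ctr d - pos d.2‖ ≤ 1 ∧ ‖ctr d - pos (apex d)‖ ≤ 1 := by
  have key : ∀ x y z : Site, tri.Adj y x → tri.Adj z x →
      ‖(pos x + pos y + pos z) / 3 - pos x‖ ≤ 1 := fun x y z h1 h2 => by
    have e : (pos x + pos y + pos z) / 3 - pos x = ((pos y - pos x) + (pos z - pos x)) / 3 := by
      ring
    have a1 : ‖pos y - pos x‖ = 1 := dst_adj h1
    have a2 : ‖pos z - pos x‖ = 1 := dst_adj h2
    have a3 := norm_add_le (pos y - pos x) (pos z - pos x)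
    rw [e, norm_div, Complex.norm_ofNat]
    linarith
  obtain ⟨h1, h2⟩ := LoopB_adj h
  refine ⟨key _ _ _ h.symm h1.symm, ?_, ?_⟩
  · rw [ctr, add_comm (pos d.1)]
    exact key _ _ _ h h2
  · rw [ctr, add_comm _ (pos (apex d)), ← add_assoc]
    exact key _ _ _ h1 h2.symm
theorem loop_seg (h : IsDart S d) (k : ℕ) {t : ℝ} (h1 : (k : ℝ) / len S d ≤ t)
    (h2 : t ≤ (k + 1 : ℝ) / len S d) :
    loop 1 S d t ∈ segment ℝ (ctr ((nxt S)^[k] d)) (ctr ((nxt S)^[k + 1] d)) := by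
  have hn : (0 : ℝ) < len S d := by exact_mod_cast len_pos h
  rw [div_le_iff₀' hn] at h1
  rw [le_div_iff₀' hn] at h2
  have n1 : node S d (k + 1) = ctr ((nxt S)^[k + 1] d) := by
    rw [← node_nat h]
    rfl
  rcases h2.lt_or_eq with h2 | h2
  · have e : ⌊(len S d : ℝ) * t⌋ = k := Int.floor_eq_iff.2 ⟨by simpa using h1, by simpa using h2⟩
    rw [loop, e, node_nat h, n1, segment_eq_image']
    exact ⟨Int.fract (len S d * t), ⟨Int.fract_nonneg _, (Int.fract_lt_one _).le⟩, by simp⟩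
  · have e : (len S d : ℝ) * t = ((k + 1 : ℤ) : ℝ) := by simpa using h2
    rw [loop, e, Int.floor_intCast, Int.fract_intCast, n1]
    simpa using right_mem_segment ℝ _ _
theorem LoopB_int {f : ℝ → ℂ} (h : ∀ t, f (t + 1) = f t) (t : ℝ) (n : ℤ) : f (t + n) = f t := by
  have := Function.Periodic.int_mul (f := f) (c := 1) h n t
  rwa [mul_one] at this
theorem LoopB_fract {f : ℝ → ℂ} (h : ∀ t, f (t + 1) = f t) (t : ℝ) : f (Int.fract t) = f t := by
  rw [← LoopB_int h _ ⌊t⌋, Int.fract_add_floor]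
theorem loop_near (h : IsDart S d) (t : ℝ) :
    ∃ k : ℕ, ‖loop 1 S d t - pos ((nxt S)^[k] d).1‖ ≤ 1 := by
  have hn : (0 : ℝ) < len S d := by exact_mod_cast len_pos h
  have h0 : 0 ≤ len S d * Int.fract t := mul_nonneg hn.le (Int.fract_nonneg t)
  have h1 := loop_seg h ⌊len S d * Int.fract t⌋₊ (t := Int.fract t)
    ((div_le_iff₀' hn).2 (Nat.floor_le h0)) ((le_div_iff₀' hn).2 (Nat.lt_floor_add_one _).le)
  rw [LoopB_fract (loop_add_one h 1)] at h1
  generalize ⌊len S d * Int.fract t⌋₊ = k at h1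
  refine ⟨k + 1, mem_closedBall_iff_norm.1 ((convex_closedBall _ _).segment_subset
    (mem_closedBall_iff_norm.2 ?_) (mem_closedBall_iff_norm.2 ?_) h1)⟩
  · rw [Function.iterate_succ_apply', nxt]
    split_ifs
    · exact (ctr_near (dart_iter h k).1).2.2
    · exact (ctr_near (dart_iter h k).1).1
  · exact (ctr_near (dart_iter h (k + 1)).1).1
theorem loop_shift (h : IsDart S d) (k : ℕ) :
    LoopClose 0 (loop 1 S d) (loop 1 S ((nxt S)^[k] d)) := by
  have hn : (0 : ℝ) < len S d := by exact_mod_cast len_pos h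
  have hn' : (0 : ℤ) < len S d := by exact_mod_cast len_pos h
  have e1 : len S ((nxt S)^[k] d) = len S d :=
    Function.minimalPeriod_apply_iterate (dart_periodic h) k
  have e2 : ∀ j : ℤ, node S ((nxt S)^[k] d) (j - k) = node S d j := fun j => by
    rw [node, e1, ← Function.iterate_add_apply, ← node_nat h]
    refine LoopB_node_congr ?_
    rw [Nat.cast_add, Int.toNat_of_nonneg (Int.emod_nonneg _ hn'.ne'), Int.emod_add_emod,
      sub_add_cancel]
  refine ⟨OrderIso.subRight ((k : ℝ) / len S d), fun t => by simp; ring, fun t => ?_⟩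
  have e3 : (len S d : ℝ) * (t - k / len S d) = len S d * t - k := by field_simp
  rw [OrderIso.subRight_apply, loop, loop, e1, e3, Int.floor_sub_natCast, Int.fract_sub_natCast,
    sub_add_eq_add_sub, e2, e2, sub_self, norm_zero]

theorem loopClose_id {ε : ℝ} {γ γ' : ℝ → ℂ} (h : ∀ t, ‖γ t - γ' t‖ ≤ ε) : LoopClose ε γ γ' := by
  exact ⟨OrderIso.refl ℝ, fun _ => rfl, h⟩
theorem loopClose_symm {ε : ℝ} {γ γ' : ℝ → ℂ} (h : LoopClose ε γ γ') : LoopClose ε γ' γ := by
  obtain ⟨φ, h1, h2⟩ := h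
  refine ⟨φ.symm, fun t => φ.injective ?_, fun t => ?_⟩
  · rw [h1, φ.apply_symm_apply, φ.apply_symm_apply]
  · have := h2 (φ.symm t)
    rwa [φ.apply_symm_apply, norm_sub_rev] at this
theorem loopClose_trans {ε ε' : ℝ} {γ γ' γ'' : ℝ → ℂ} (h : LoopClose ε γ γ')
    (h' : LoopClose ε' γ' γ'') : LoopClose (ε + ε') γ γ'' := by
  obtain ⟨φ, h1, h2⟩ := h
  obtain ⟨ψ, h3, h4⟩ := h'
  refine ⟨φ.trans ψ, fun t => ?_, fun t => ?_⟩
  · rw [OrderIso.trans_apply, OrderIso.trans_apply, h1, h3]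
  · exact (norm_sub_le_norm_sub_add_norm_sub _ _ _).trans (add_le_add (h2 t) (h4 (φ t)))
theorem loopClose_mono {ε ε' : ℝ} {γ γ' : ℝ → ℂ} (h : LoopClose ε γ γ') (he : ε ≤ ε') :
    LoopClose ε' γ γ' := by
  obtain ⟨φ, h1, h2⟩ := h
  exact ⟨φ, h1, fun t => (h2 t).trans he⟩

theorem LoopB_mono {m : ℕ} {a : ℕ → ℝ} (ha : ∀ k < m, a k < a (k + 1)) {i j : ℕ} (hij : i ≤ j)
    (hj : j ≤ m) : a i ≤ a j := by
  induction j, hij using Nat.le_induction with
  | base => exact le_rfl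
  | succ j _ ih => exact (ih (by omega)).trans (ha j hj).le

theorem LoopB_locate {m : ℕ} {a : ℕ → ℝ} {s : ℝ} (h0 : a 0 ≤ s) (h1 : s < a m) :
    ∃ k < m, a k ≤ s ∧ s < a (k + 1) := by
  induction m with
  | zero => exact absurd h1 (not_lt.2 h0)
  | succ m ih =>
    rcases lt_or_ge s (a m) with h | h
    · obtain ⟨k, hk, h⟩ := ih h
      exact ⟨k, by omega, h⟩
    · exact ⟨m, m.lt_succ_self, h, h1⟩

/-- piecewise linear interpolation -/
theorem LoopB_interp {m : ℕ} {a b : ℕ → ℝ} (ha : ∀ k < m, a k < a (k + 1))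
    (hb : ∀ k < m, b k < b (k + 1)) : ∃ g : ℝ → ℝ, Continuous g ∧ Monotone g ∧
      (∀ s t, a 0 ≤ s → s < a m → s < t → g s < g t) ∧ ∀ j ≤ m, g (a j) = b j - b 0 := by
  have hc : ∀ k ∈ Finset.range m, 0 < (b (k + 1) - b k) / (a (k + 1) - a k) := fun k hk =>
    div_pos (sub_pos.2 (hb k (Finset.mem_range.1 hk))) (sub_pos.2 (ha k (Finset.mem_range.1 hk)))
  have hm : ∀ s t, s ≤ t → ∀ k ∈ Finset.range m,
      (b (k + 1) - b k) / (a (k + 1) - a k) * (min (max s (a k)) (a (k + 1)) - a k) ≤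
      (b (k + 1) - b k) / (a (k + 1) - a k) * (min (max t (a k)) (a (k + 1)) - a k) :=
    fun s t h k hk => by
      have := hc k hk
      gcongr
  refine ⟨fun t => ∑ k ∈ Finset.range m,
    (b (k + 1) - b k) / (a (k + 1) - a k) * (min (max t (a k)) (a (k + 1)) - a k), by fun_prop,
    fun s t h => Finset.sum_le_sum (hm s t h), fun s t h0 h1 h => ?_, fun j hj => ?_⟩
  · obtain ⟨k, hk, h2, h3⟩ := LoopB_locate h0 h1
    refine Finset.sum_lt_sum (hm s t h.le) ⟨k, Finset.mem_range.2 hk, ?_⟩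
    rw [max_eq_left h2, min_eq_left h3.le, max_eq_left (h2.trans h.le)]
    exact mul_lt_mul_of_pos_left (sub_lt_sub_right (lt_min h h3) _) (hc k (Finset.mem_range.2 hk))
  · rw [← Finset.sum_range_sub b j]
    refine (Finset.sum_subset (Finset.range_mono hj) fun k hk hk' => ?_).symm.trans
      (Finset.sum_congr rfl fun k hk => ?_)
    · rw [Finset.mem_range] at hk hk'
      rw [max_eq_right (LoopB_mono ha (not_lt.1 hk') hk.le), min_eq_left (ha k hk).le, sub_self,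
        mul_zero]
    · rw [Finset.mem_range] at hk
      rw [min_eq_right (le_max_of_le_left (LoopB_mono ha hk hj)),
        div_mul_cancel₀ _ (sub_pos.2 (ha k (by omega))).ne']

/-- a piecewise linear time change -/
theorem exists_timechange {m : ℕ} {a b : ℕ → ℝ} (a0 : a 0 = 0) (b0 : b 0 = 0) (a1 : a m = 1)
    (b1 : b m = 1) (ha : ∀ k < m, a k < a (k + 1)) (hb : ∀ k < m, b k < b (k + 1)) :
    ∃ φ : ℝ ≃o ℝ, (∀ t, φ (t + 1) = φ t + 1) ∧
      ∀ k < m, ∀ t ∈ Set.Icc (a k) (a (k + 1)), φ t ∈ Set.Icc (b k) (b (k + 1)) := by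
  obtain ⟨g, gc, gm, gs, gv⟩ := LoopB_interp ha hb
  have g0 : g 0 = 0 := by rw [← a0, gv 0 (Nat.zero_le m), b0, sub_self, a0]
  have g1 : g 1 = 1 := by rw [← a1, gv m le_rfl, b0, b1, sub_zero, a1]
  rw [a0, a1] at gs
  have hs : StrictMono fun t : ℝ => (⌊t⌋ : ℝ) + g (Int.fract t) := by
    intro x y hxy
    rcases (Int.floor_mono hxy.le).lt_or_eq with e | e
    · have h1 := gs _ _ (Int.fract_nonneg x) (Int.fract_lt_one x) (Int.fract_lt_one x)
      have h2 := gm (Int.fract_nonneg y)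
      have h3 : (⌊x⌋ : ℝ) + 1 ≤ ⌊y⌋ := by exact_mod_cast e
      dsimp only
      linarith
    · have h1 : Int.fract x < Int.fract y := by
        rw [Int.fract, Int.fract, e]
        linarith
      have h2 := gs _ _ (Int.fract_nonneg x) (Int.fract_lt_one x) h1
      dsimp only
      rw [e]
      linarith
  have hv : ∀ (n : ℤ) (s : ℝ), 0 ≤ s → s < 1 →
      (⌊n + s⌋ : ℝ) + g (Int.fract (n + s)) = n + g s := fun n s h0 h1 => by
    rw [Int.floor_intCast_add, Int.fract_intCast_add, Int.floor_eq_zero_iff.2 ⟨h0, h1⟩,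
      Int.fract_eq_self.2 ⟨h0, h1⟩, add_zero]
  have hsurj : Function.Surjective fun t : ℝ => (⌊t⌋ : ℝ) + g (Int.fract t) := by
    intro y
    obtain ⟨s, hs, e⟩ := intermediate_value_Icc zero_le_one gc.continuousOn
      (show Int.fract y ∈ Set.Icc (g 0) (g 1) by
        rw [g0, g1]
        exact ⟨Int.fract_nonneg y, (Int.fract_lt_one y).le⟩)
    have h1 : s < 1 := lt_of_le_of_ne hs.2 fun h => by
      rw [h, g1] at e
      exact (Int.fract_lt_one y).ne' e
    exact ⟨⌊y⌋ + s, (hv _ s hs.1 h1).trans (by rw [e, Int.floor_add_fract])⟩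
  refine ⟨hs.orderIsoOfSurjective _ hsurj, fun t => ?_, fun k hk t ht => ?_⟩
  · simp only [StrictMono.coe_orderIsoOfSurjective, Int.floor_add_one, Int.fract_add_one]
    push_cast
    ring
  · have h0 : 0 ≤ t := le_trans (a0 ▸ LoopB_mono ha (Nat.zero_le k) hk.le) ht.1
    have h1 : t ≤ 1 := ht.2.trans (a1 ▸ LoopB_mono ha hk le_rfl)
    have e : (⌊t⌋ : ℝ) + g (Int.fract t) = g t := by
      rcases h1.lt_or_eq with h | rfl
      · simpa using hv 0 t h0 h
      · simp [g0, g1]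
    have h2 := gm ht.1
    have h3 := gm ht.2
    rw [gv k hk.le, b0, sub_zero] at h2
    rw [gv (k + 1) hk, b0, sub_zero] at h3
    simp only [StrictMono.coe_orderIsoOfSurjective, e]
    exact ⟨h2, h3⟩

theorem loopClose_of_pieces {ε : ℝ} {γ γ' : ℝ → ℂ} (p1 : ∀ t, γ (t + 1) = γ t)
    (p2 : ∀ t, γ' (t + 1) = γ' t) {m : ℕ} {a b : ℕ → ℝ} (a0 : a 0 = 0) (b0 : b 0 = 0)
    (a1 : a m = 1) (b1 : b m = 1) (ha : ∀ k < m, a k < a (k + 1)) (hb : ∀ k < m, b k < b (k + 1))
    (h : ∀ k < m, ∀ t ∈ Set.Icc (a k) (a (k + 1)), ∀ t' ∈ Set.Icc (b k) (b (k + 1)),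
      ‖γ t - γ' t'‖ ≤ ε) : LoopClose ε γ γ' := by
  obtain ⟨φ, h1, h2⟩ := exists_timechange a0 b0 a1 b1 ha hb
  refine ⟨φ, h1, fun t => ?_⟩
  obtain ⟨k, hk, h3, h4⟩ := LoopB_locate (a := a) (m := m) (s := Int.fract t)
    (a0 ▸ Int.fract_nonneg t) (a1 ▸ Int.fract_lt_one t)
  have e := LoopB_fract (f := fun t => γ' (φ t)) (fun t => by rw [h1, p2]) t
  have := h k hk _ ⟨h3, h4.le⟩ _ (h2 k hk _ ⟨h3, h4.le⟩)
  rwa [LoopB_fract p1, e] at this

end

def Small (ρ : ℝ) (S : Finset Site) (d : Site × Site) : Prop :=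
  ∀ t t', ‖loop 1 S d t - loop 1 S d t'‖ ≤ ρ

/-- every loop of `S` is small or close to a loop of `S'` -/
def Near (ρ : ℝ) (S S' : Finset Site) : Prop :=
  ∀ d, IsDart S d → Small ρ S d ∨ ∃ d', IsDart S' d' ∧ LoopClose ρ (loop 1 S d) (loop 1 S' d')

/-- isolated yellow sites are everywhere -/
def Dense (ρ : ℝ) (D S : Finset Site) : Prop :=
  ∀ x ∈ D, ∃ y ∈ S, dst x y ≤ ρ ∧ ∀ z, tri.Adj y z → z ∉ S

/-- the loops that meet `B` are small -/
def Quiet (ρ : ℝ) (B S : Finset Site) : Prop :=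
  ∀ d, IsDart S d → (d.1 ∈ B ∨ d.2 ∈ B) → Small ρ S d

section
variable {S S' S'' D B : Finset Site} {d : Site × Site} {ρ ρ' : ℝ}

theorem Small.mono (h : Small ρ S d) (hρ : ρ ≤ ρ') : Small ρ' S d := fun t t' => (h t t').trans hρ
theorem Quiet.mono (h : Quiet ρ B S) (hρ : ρ ≤ ρ') : Quiet ρ' B S :=
  fun d hd hb => (h d hd hb).mono hρ
theorem Near.mono (h : Near ρ S S') (hρ : ρ ≤ ρ') : Near ρ' S S' := by
  exact fun d hd => (h d hd).imp (fun h => h.mono hρ)
    fun ⟨d', h1, h2⟩ => ⟨d', h1, loopClose_mono h2 hρ⟩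
theorem LoopB_small {d' : Site × Site} (h : LoopClose ρ (loop 1 S d) (loop 1 S' d'))
    (h' : Small ρ' S' d') : Small (2 * ρ + ρ') S d := by
  obtain ⟨φ, -, h2⟩ := h
  intro t t'
  have a1 := norm_sub_le_norm_sub_add_norm_sub (loop 1 S d t) (loop 1 S' d' (φ t)) (loop 1 S d t')
  have a2 := norm_sub_le_norm_sub_add_norm_sub (loop 1 S' d' (φ t)) (loop 1 S' d' (φ t'))
    (loop 1 S d t')
  have a3 := h2 t'
  rw [norm_sub_rev] at a3
  linarith [h2 t, h' (φ t) (φ t')]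
theorem Near.trans (h0 : 0 ≤ ρ') (h : Near ρ S S') (h' : Near ρ' S' S'') :
    Near (2 * ρ + ρ') S S'' := by
  intro d hd
  rcases h d hd with h1 | ⟨d', h1, h2⟩
  · have := (norm_nonneg _).trans (h1 0 0)
    exact Or.inl (h1.mono (by linarith))
  · have : 0 ≤ ρ := by
      obtain ⟨φ, -, h3⟩ := h2
      exact (norm_nonneg _).trans (h3 0)
    rcases h' d' h1 with h3 | ⟨d'', h3, h4⟩
    · exact Or.inl (LoopB_small h2 h3)
    · exact Or.inr ⟨d'', h3, loopClose_mono (loopClose_trans h2 h4) (by linarith)⟩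

/-- a loop that does not meet `B` is a loop of both colourings -/
theorem near_of_quiet (h0 : 0 ≤ ρ) (h : ∀ x ∉ B, x ∈ S ↔ x ∈ S') (hq : Quiet ρ B S) :
    Near ρ S S' := by
  intro d hd
  by_cases hb : ∃ k, ((nxt S)^[k] d).1 ∈ B ∨ ((nxt S)^[k] d).2 ∈ B
  · obtain ⟨k, hk⟩ := hb
    exact Or.inl ((LoopB_small (loop_shift hd k) (hq _ (dart_iter hd k) hk)).mono (by simp))
  push Not at hb
  have e : ∀ k, (nxt S')^[k] d = (nxt S)^[k] d := by
    intro k
    induction k with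
    | zero => rfl
    | succ k ih =>
      have h1 := hb (k + 1)
      rw [Function.iterate_succ_apply'] at h1
      rw [Function.iterate_succ_apply', Function.iterate_succ_apply', ih]
      by_cases h2 : apex ((nxt S)^[k] d) ∈ S
      · rw [LoopB_nxt_pos h2] at h1 ⊢
        exact LoopB_nxt_pos ((h _ h1.1).1 h2)
      · rw [LoopB_nxt_neg h2] at h1 ⊢
        exact LoopB_nxt_neg fun h3 => h2 ((h _ h1.2).2 h3)
  have e1 : len S' d = len S d := Function.minimalPeriod_eq_minimalPeriod_iff.2 fun n => by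
    rw [Function.IsPeriodicPt, Function.IsPeriodicPt, Function.IsFixedPt, Function.IsFixedPt, e]
  refine Or.inr ⟨d, ⟨hd.1, (h _ (hb 0).1).1 hd.2.1, fun h1 => hd.2.2 ((h _ (hb 0).2).2 h1)⟩,
    loopClose_id fun t => ?_⟩
  simp only [loop, node, e, e1, sub_self, norm_zero]
  exact h0

/-- the yellow sides of the darts form a path in `S` -/
theorem crs_of_not_small {p : Site} {r R : ℝ} (h : IsDart S d)
    (hp : d.1 ∈ bal p r ∨ d.2 ∈ bal p r) (hn : ¬ Small (2 * R + 2) S d) :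
    ∃ b, Crs S p (r + 1) R b := by
  have hj : ∀ k, Jn S d.1 ((nxt S)^[k] d).1 := by
    intro k
    induction k with
    | zero => exact Jn.refl _ _
    | succ k ih =>
      rw [Function.iterate_succ_apply']
      by_cases h2 : apex ((nxt S)^[k] d) ∈ S
      · rw [LoopB_nxt_pos h2]
        exact ih.trans (Jn.single (dart_iter h k).2.1 h2 (LoopB_adj (dart_iter h k).1).1)
      · rw [LoopB_nxt_neg h2]
        exact ih
  refine ⟨d.1, h.2.1, ⟨d.1, ?_, Jn.refl _ _⟩, ?_⟩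
  · rcases hp with hp | hp
    · linarith [mem_bal.1 hp]
    · linarith [mem_bal.1 hp, dst_tri d.1 d.2 p, dst_adj h.1]
  · by_contra hc
    push Not at hc
    have a1 : ∀ t, ‖loop 1 S d t - pos p‖ ≤ R + 1 := fun t => by
      obtain ⟨k, hk⟩ := loop_near h t
      have a2 : ‖pos ((nxt S)^[k] d).1 - pos p‖ ≤ R := not_lt.1 fun h => hc _ h (hj k)
      linarith [norm_sub_le_norm_sub_add_norm_sub (loop 1 S d t) (pos ((nxt S)^[k] d).1) (pos p)]
    refine hn fun t t' => ?_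
    have a3 := a1 t'
    rw [norm_sub_rev] at a3
    linarith [norm_sub_le_norm_sub_add_norm_sub (loop 1 S d t) (pos p) (loop 1 S d t'), a1 t]

theorem LoopB_half (h0 : 0 ≤ ρ) (hS : S ⊆ D) (n1 : Near ρ S S') (d2 : Dense ρ D S')
    (hd : IsDart S d) : ∃ d', IsDart S' d' ∧ LoopClose (2 * ρ + 2) (loop 1 S d) (loop 1 S' d') := by
  rcases n1 d hd with h | ⟨d', h1, h2⟩
  swap
  · exact ⟨d', h1, loopClose_mono h2 (by linarith)⟩
  obtain ⟨y, y1, y2, y3⟩ := d2 d.1 (hS hd.2.1)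
  have a1 : tri.Adj y (y + (1, 0)) := by simp [tri]
  have a2 : IsDart S' (y, y + (1, 0)) := ⟨a1, y1, y3 _ a1⟩
  have a3 : ∀ k, ((nxt S')^[k] (y, y + (1, 0))).1 = y := by
    intro k
    induction k with
    | zero => rfl
    | succ k ih =>
      have a4 := (LoopB_adj (dart_iter a2 k).1).1
      rw [ih] at a4
      rw [Function.iterate_succ_apply', LoopB_nxt_neg (y3 _ a4), ih]
  refine ⟨_, a2, loopClose_id fun t => ?_⟩
  obtain ⟨k, hk⟩ := loop_near a2 t
  rw [a3, norm_sub_rev] at hk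
  have b1 := h t 0
  rw [loop_zero] at b1
  have b2 := (ctr_near hd.1).1
  have b3 : ‖pos d.1 - pos y‖ ≤ ρ := y2
  linarith [norm_sub_le_norm_sub_add_norm_sub (loop 1 S d t) (ctr d) (loop 1 S' (y, y + (1, 0)) t),
    norm_sub_le_norm_sub_add_norm_sub (ctr d) (pos d.1) (loop 1 S' (y, y + (1, 0)) t),
    norm_sub_le_norm_sub_add_norm_sub (pos d.1) (pos y) (loop 1 S' (y, y + (1, 0)) t)]

theorem LoopB_scale {ε δ : ℝ} {d' : Site × Site} (hδ : 0 < δ) (he : δ * ρ ≤ ε)
    (h : LoopClose ρ (loop 1 S d) (loop 1 S' d')) : LoopClose ε (loop δ S d) (loop δ S' d') := by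
  obtain ⟨φ, h1, h2⟩ := h
  refine ⟨φ, h1, fun t => le_trans ?_ he⟩
  rw [loop_scale δ S, loop_scale δ S', ← mul_sub, norm_mul, Complex.norm_real,
    Real.norm_of_nonneg hδ.le]
  exact mul_le_mul_of_nonneg_left (h2 t) hδ.le

theorem close_of_near {ε δ : ℝ} (hδ : 0 < δ) (h0 : 0 ≤ ρ) (he : δ * (2 * ρ + 2) ≤ ε) (hS : S ⊆ D)
    (hS' : S' ⊆ D) (n1 : Near ρ S S') (n2 : Near ρ S' S) (d1 : Dense ρ D S) (d2 : Dense ρ D S') :
    Close ε δ S S' := by
  refine ⟨fun d hd => ?_, fun d hd => ?_⟩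
  · obtain ⟨d', h1, h2⟩ := LoopB_half h0 hS n1 d2 hd
    exact ⟨d', h1, LoopB_scale hδ he h2⟩
  · obtain ⟨d', h1, h2⟩ := LoopB_half h0 hS' n2 d1 hd
    exact ⟨d', h1, LoopB_scale hδ he h2⟩

end

end Pool.Agent.TAF.U
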