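import Pool.Agent.P.MP_cb4022_pr.U.Gib
import Pool.Agent.P.MP_cb4022_pr.U.LoopB
import Pool.Agent.P.MP_cb4022_pr.U.Clus

/-! Exceptional points and small loops (paper I3, I4). -/

open scoped Classical symmDiff
open Metric

noncomputable section

namespace Pool.Agent.TAF.U

theorem EndB_red {D B : Finset Site} {j : Site → ℝ}
    (h : ∀ e, Touch e (B : Set Site)ᶜ → ew j e = 0) {F : Finset Site → ℝ}
    (hF : Dep (B : Set Site)ᶜ F) : gib D ∅ j F = gib (D \ B) ∅ (fun _ => 0) F := by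
  have h1 : ∀ e, Touch e (D \ B : Finset Site) → ew j e = 0 := fun e he =>
    h e (he.imp (fun a => (Finset.mem_sdiff.1 a).2) fun a => (Finset.mem_sdiff.1 a).2)
  have h2 : gib D ∅ j F = gib (D \ B ∪ D ∩ B) ∅ j F := by rw [Finset.sdiff_union_inter]
  rw [h2, gib_prod (Finset.disjoint_sdiff_inter D B) fun e he _ => h1 e he]
  have h3 : ∀ S, gib (D ∩ B) S j F = F S := fun S =>
    (gib_congr (G := fun _ => F S) fun T hT => hF T S fun x hx =>
      hT x fun hx' => hx (Finset.mem_inter.1 hx').2).trans (gib_const _)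
  simp only [h3]
  exact gib_congr_j fun e he => by rw [h1 e he, ew, add_zero]

/-- `gib_prod` for `D \ B` and `D ∩ B`, `gib_zero` -/
theorem gib_off {D B : Finset Site} {j : Site → ℝ} (h : ∀ e, Touch e (B : Set Site)ᶜ → ew j e = 0)
    {F : Finset Site → ℝ} (hF : Dep (B : Set Site)ᶜ F) :
    gib D ∅ j F = gib D ∅ (fun _ => 0) F := by
  exact (EndB_red h hF).trans (EndB_red (fun e _ => by rw [ew, add_zero]) hF).symm

theorem EndB_ind_nonneg (P : Finset Site → Prop) (S : Finset Site) : 0 ≤ ind P S := by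
  unfold ind
  split_ifs <;> norm_num

theorem EndB_ind_congr {P : Finset Site → Prop} {S S' : Finset Site} (h : P S ↔ P S') :
    ind P S = ind P S' := by
  unfold ind
  exact if_congr h rfl rfl

theorem EndB_ends {e : Edge} {X : Set Site} (he : Touch e X) {P : Site → Prop}
    (h : ∀ x ∈ X, ∀ y, dst x y ≤ 1 → P y) : P (lft e) ∧ P (rgt e) := by
  have h1 := dst_adj (adj_lft_rgt e)
  rcases he with he | he
  · exact ⟨h _ he _ (by simp), h _ he _ h1.le⟩
  · exact ⟨h _ he _ (by rw [dst_comm]; exact h1.le), h _ he _ (by simp)⟩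

/-- union bound -/
theorem EndB_union {ι : Type*} {D : Finset Site} {j : Site → ℝ} (s : Finset ι)
    {P : Finset Site → Prop} {Q : ι → Finset Site → Prop} {q : ℝ}
    (h : ∀ S, P S → ∃ i ∈ s, Q i S) (hq : ∀ i ∈ s, gib D ∅ j (ind (Q i)) ≤ q) :
    gib D ∅ j (ind P) ≤ s.card * q := by
  calc _ ≤ gib D ∅ j fun S => ∑ i ∈ s, ind (Q i) S := by
        refine gib_mono fun S _ => ?_
        by_cases hP : P S
        · obtain ⟨i, hi, hQ⟩ := h S hP
          refine le_trans ?_ (Finset.single_le_sum (f := fun i => ind (Q i) S)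
            (fun i _ => EndB_ind_nonneg _ _) hi)
          simp only [ind, if_pos hP, if_pos hQ, le_refl]
        · rw [ind, if_neg hP]
          exact Finset.sum_nonneg fun i _ => EndB_ind_nonneg _ _
    _ ≤ s.card * q := by
        rw [gib_sum, ← nsmul_eq_mul]
        exact Finset.sum_le_card_nsmul _ _ _ hq

/-- `gib_dlr` with `D ∩ ann p (r + 1) R`, `gib_zero`, `Cl.restrict` with `k = 1`, `ArmB.shift` -/
theorem gib_crs {D : Finset Site} {j : Site → ℝ} {p : Site} {r R q : ℝ}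
    (h : ∀ x, r < dst x p → dst x p ≤ R + 1 → j x = 0) (hq : ArmB (r + 2) (R - 1) q)
    (hr : r + 3 ≤ R) : gib D ∅ j (ind fun S => ∃ b, Crs S p (r + 1) R b) ≤ q := by
  rw [← gib_dlr (Λ' := D ∩ ann p (r + 1) R) Finset.inter_subset_left,
    ← gib_const (Λ := D) (S₀ := ∅) (j := j) q]
  refine gib_mono fun S hS => ?_
  have hSD : S ⊆ D := fun x hx => by
    by_contra h1
    exact Finset.notMem_empty x ((hS x h1).1 hx)
  have h0 : ∀ e, Touch e (D ∩ ann p (r + 1) R : Finset Site) → ew j e = 0 := fun e he => by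
    obtain ⟨h1, h2⟩ := EndB_ends he (P := fun y => j y = 0) fun x hx y hy => by
      obtain ⟨h3, h4⟩ := mem_ann.1 (Finset.mem_inter.1 hx).2
      have h5 := dst_tri x y p
      have h6 := dst_tri y x p
      rw [dst_comm y x] at h6
      exact h y (by linarith) (by linarith)
    rw [ew, h1, h2, add_zero]
  rw [gib_zero h0]
  refine le_trans ?_ (hq.shift p (Y := D ∩ ann p (r + 1) R) (S₀ := S ∩ ann p (r + 1) R)
    (Finset.inter_subset_inter hSD le_rfl))
  refine pr_mono (P := fun T => ∃ b, Crs (S ∆ T : Finset Site) p (r + 1) R b) fun T hT hb => ?_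
  obtain ⟨b, hb⟩ := hb
  obtain ⟨c, -, hc⟩ := Clus_inner hb le_rfl le_rfl (by linarith)
  have e : (S ∆ T) ∩ ann p (r + 1) R = T ∆ (S ∩ ann p (r + 1) R) := by
    ext x
    have h1 : x ∈ T → x ∈ ann p (r + 1) R := fun h1 =>
      (Finset.mem_inter.1 (Finset.mem_powerset.1 hT h1)).2
    simp only [Finset.mem_inter, Finset.mem_symmDiff]
    tauto
  rw [e, show r + 1 + 1 = r + 2 by ring] at hc
  exact ⟨c, hc⟩

theorem gib_not_quiet {D P : Finset Site} {j : Site → ℝ} {r R q : ℝ}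
    (h : ∀ p ∈ P, ∀ x, r < dst x p → dst x p ≤ R + 1 → j x = 0) (hq : ArmB (r + 2) (R - 1) q)
    (hr : r + 3 ≤ R) :
    gib D ∅ j (ind fun S => ¬ Quiet (2 * R + 2) (P.biUnion fun p => bal p r) S) ≤ P.card * q := by
  refine EndB_union P (Q := fun p S => ∃ b, Crs S p (r + 1) R b) (fun S hS => ?_)
    fun p hp => gib_crs (h p hp) hq hr
  unfold Quiet at hS
  push Not at hS
  obtain ⟨d, h1, h2, h3⟩ := hS
  rcases h2 with h2 | h2
  · obtain ⟨p, hp, h4⟩ := Finset.mem_biUnion.1 h2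
    exact ⟨p, hp, crs_of_not_small h1 (Or.inl h4) h3⟩
  · obtain ⟨p, hp, h4⟩ := Finset.mem_biUnion.1 h2
    exact ⟨p, hp, crs_of_not_small h1 (Or.inr h4) h3⟩

theorem EndB_hl {Λ : Finset Site} {j : Site → ℝ} (hj : Bd j (1 / 12)) (S : Finset Site) :
    |Gib_hl Λ j S| ≤ Λ.card := by
  have h1 : (touchE Λ).card ≤ Λ.card * 6 :=
    Finset.card_biUnion_le_card_mul _ _ _ fun x _ => Finset.card_le_six
  have h2 : ((touchE Λ).card : ℝ) ≤ Λ.card * 6 := by exact_mod_cast h1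
  refine (Finset.abs_sum_le_sum_abs _ _).trans
    ((Finset.sum_le_card_nsmul _ _ (1 / 6 : ℝ) fun e _ => ?_).trans ?_)
  · split_ifs
    · refine (abs_add_le _ _).trans ?_
      linarith [hj (lft e), hj (rgt e)]
    · norm_num
  · rw [nsmul_eq_mul]
    linarith

/-- finite energy -/
theorem EndB_fin {Λ S₀ T₀ : Finset Site} {j : Site → ℝ} {E : Finset Site → Prop}
    (hj : Bd j (1 / 12)) (hT : T₀ ⊆ Λ) (hE : ¬ E (S₀ ∆ T₀)) {N : ℕ} (hN : Λ.card ≤ N) :
    gib Λ S₀ j (ind E) ≤ 1 - Real.exp (-N) / (2 ^ N * Real.exp N) := by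
  have hN' : (Λ.card : ℝ) ≤ N := by exact_mod_cast hN
  have e : ind E = fun S => 1 - ind (fun S => ¬ E S) S := by
    funext S
    by_cases h : E S <;> simp [ind, h]
  rw [e, gib_sub, gib_const, Gib_loc]
  refine sub_le_sub_left (div_le_div₀ ?_ ?_ ?_ ?_) 1
  · exact Finset.sum_nonneg fun S _ => mul_nonneg (Real.exp_pos _).le (EndB_ind_nonneg _ _)
  · refine le_trans ?_ (Finset.single_le_sum
      (f := fun S => Real.exp (Gib_hl Λ j (S₀ ∆ S)) * ind (fun S => ¬ E S) (S₀ ∆ S))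
      (fun S _ => mul_nonneg (Real.exp_pos _).le (EndB_ind_nonneg _ _))
      (Finset.mem_powerset.2 hT))
    simp only [ind, if_pos hE, mul_one]
    exact Real.exp_le_exp.2 (by linarith [(abs_le.1 (EndB_hl (Λ := Λ) hj (S₀ ∆ T₀))).1])
  · exact Finset.sum_pos (fun _ _ => Real.exp_pos _) ⟨∅, Finset.empty_mem_powerset Λ⟩
  · refine (Finset.sum_le_card_nsmul _ _ (Real.exp N) fun S _ => ?_).trans ?_
    · exact Real.exp_le_exp.2 (by linarith [(abs_le.1 (EndB_hl (Λ := Λ) hj (S₀ ∆ S))).2])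
    · rw [nsmul_eq_mul, Finset.card_powerset]
      push_cast
      exact mul_le_mul_of_nonneg_right (pow_le_pow_right₀ one_le_two hN) (Real.exp_pos _).le

theorem EndB_card (x : Site) : (bal x 1).card ≤ (bal 0 1).card := by
  refine le_trans (Finset.card_le_card fun y hy => ?_)
    (Finset.card_image_le (s := bal 0 1) (f := fun y => y + x))
  refine Finset.mem_image.2 ⟨y - x, mem_bal.2 ?_, sub_add_cancel _ _⟩
  rw [dst_zero, pos_sub]
  exact mem_bal.1 hy

theorem EndB_row (c : Site) {i k : ℕ} (h : k ≤ i) :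
    dst (c + (3 * (i : ℤ), 0)) (c + (3 * (k : ℤ), 0)) = 3 * ((i : ℝ) - k) := by
  have h1 : (k : ℝ) ≤ i := by exact_mod_cast h
  rw [← sq_eq_sq₀ (dst_nonneg _ _) (by linarith), dst_sq]
  simp only [Prod.fst_add, Prod.snd_add]
  push_cast
  ring

/-- Finite energy: `gib_prod_le` for the patches `bal (c + (3 i, 0)) 1`; each colouring of a patch
has conditional probability bounded below. -/
theorem iso_bound {q : ℝ} (hq : 0 < q) : ∃ ρ₀ : ℝ, ∀ (D : Finset Site) (j : Site → ℝ) (c : Site)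
    (ρ : ℝ), ρ₀ ≤ ρ → Bd j (1 / 12) → bal c ρ ⊆ D →
      gib D ∅ j (ind fun S => ¬ ∃ y ∈ S, dst y c ≤ ρ ∧ ∀ z, tri.Adj y z → z ∉ S) ≤ q := by
  set N := (bal 0 1).card with hN
  have u0 : 0 < Real.exp (-N) / (2 ^ N * Real.exp N) := by positivity
  have u1 : Real.exp (-N) / (2 ^ N * Real.exp N) ≤ 1 := by
    refine (div_le_one (by positivity)).2 ?_
    have h1 : Real.exp (-N) ≤ Real.exp N :=
      Real.exp_le_exp.2 (by linarith [Nat.cast_nonneg (α := ℝ) N])
    exact h1.trans (le_mul_of_one_le_left (Real.exp_pos _).le (one_le_pow₀ one_le_two))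
  obtain ⟨m, hm⟩ := exists_pow_lt_of_lt_one hq (sub_lt_self 1 u0)
  refine ⟨3 * m + 1, fun D j c ρ hρ hj hD => ?_⟩
  have hc : ∀ i < m, dst (c + (3 * (i : ℤ), 0)) c ≤ 3 * m := fun i hi => by
    have h1 := EndB_row c (Nat.zero_le i)
    have h2 : (i : ℝ) ≤ m := by exact_mod_cast hi.le
    rw [show c + (3 * ((0 : ℕ) : ℤ), 0) = c by simp [Prod.ext_iff]] at h1
    rw [h1]
    push_cast
    linarith
  have key := gib_prod_le (Λ := D) (S₀ := ∅) (j := j) m (fun i => bal (c + (3 * (i : ℤ), 0)) 1)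
    (fun i S => ¬ (c + (3 * (i : ℤ), 0) ∈ S ∧ ∀ z, tri.Adj (c + (3 * (i : ℤ), 0)) z → z ∉ S))
    (sub_nonneg.2 u1) (fun i hi x hx => hD (mem_bal.2 ?_)) (fun i _ k hk S S' hS => ?_)
    fun i _ S _ => ?_
  · refine le_trans (gib_mono fun S _ => ?_) (key.trans hm.le)
    unfold ind
    split_ifs with h1 h2
    · exact le_rfl
    · refine absurd (fun i hi h3 => h1 ⟨_, h3.1, ?_, h3.2⟩) h2
      linarith [hc i hi]
    · exact zero_le_one
    · exact le_rfl
  · linarith [hc i hi, mem_bal.1 hx, dst_tri x (c + (3 * (i : ℤ), 0)) c]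
  · have h1 := EndB_row c hk.le
    have h2 : (k : ℝ) + 1 ≤ i := by exact_mod_cast hk
    have h3 : ∀ z, dst (c + (3 * (k : ℤ), 0)) z ≤ 1 → (z ∈ S ↔ z ∈ S') := fun z hz => by
      refine hS z fun h4 => ?_
      have h5 := mem_bal.1 (Finset.mem_coe.1 h4)
      have h6 := dst_tri (c + (3 * (i : ℤ), 0)) z (c + (3 * (k : ℤ), 0))
      rw [dst_comm _ z, dst_comm z (c + (3 * (k : ℤ), 0))] at h6
      linarith
    have h4 : (c + (3 * (k : ℤ), 0) ∈ S ∧ ∀ z, tri.Adj (c + (3 * (k : ℤ), 0)) z → z ∉ S) ↔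
        (c + (3 * (k : ℤ), 0) ∈ S' ∧ ∀ z, tri.Adj (c + (3 * (k : ℤ), 0)) z → z ∉ S') :=
      and_congr (h3 _ (by simp)) (forall₂_congr fun z hz => not_congr (h3 z (dst_adj hz).le))
    exact EndB_ind_congr (not_congr h4)
  · generalize c + (3 * (i : ℤ), 0) = x
    have hx : x ∈ bal x 1 := mem_bal.2 (by simp)
    refine EndB_fin (T₀ := (S ∩ bal x 1) ∆ {x}) hj
      (Markov_sub Finset.inter_subset_right (Finset.singleton_subset_iff.2 hx))
      (not_not.2 ⟨?_, fun z hz => ?_⟩) (EndB_card x)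
    · simp only [Finset.mem_symmDiff, Finset.mem_inter, Finset.mem_singleton]
      tauto
    · have h1 : z ∈ bal x 1 := mem_bal.2 (dst_adj hz.symm).le
      have h2 : z ≠ x := hz.ne.symm
      simp only [Finset.mem_symmDiff, Finset.mem_inter, Finset.mem_singleton]
      tauto

/-- total boundedness -/
theorem exists_net {Ω : Set ℂ} (ho : IsOpen Ω) (hb : Bornology.IsBounded Ω) {a : ℝ} (ha : 0 < a) :
    ∃ (Y : Finset ℂ) (r : ℝ), 0 < r ∧ r ≤ a ∧ (∀ y ∈ Y, ball y r ⊆ Ω) ∧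
      ∀ z ∈ Ω, ∃ y ∈ Y, ‖z - y‖ ≤ a := by
  obtain ⟨t, h1, h2, h3⟩ := Metric.finite_approx_of_totallyBounded
    (hb.isCompact_closure.totallyBounded.subset subset_closure) a ha
  have h4 : ∀ᶠ r in nhds (0 : ℝ), ∀ y ∈ t, closedBall y r ⊆ Ω :=
    (Filter.eventually_all_finite h2).2 fun y hy =>
      eventually_closedBall_subset (ho.mem_nhds (h1 hy))
  obtain ⟨ε, h5, h6⟩ := Metric.eventually_nhds_iff.1 h4
  refine ⟨h2.toFinset, min a (ε / 2), lt_min ha (by linarith), min_le_left _ _, fun y hy => ?_,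
    fun z hz => ?_⟩
  · have h7 : dist (ε / 2) 0 < ε := by
      rw [Real.dist_eq, sub_zero, abs_of_pos (by linarith)]
      linarith
    exact (ball_subset_closedBall.trans (closedBall_subset_closedBall (min_le_right _ _))).trans
      (h6 h7 y (h2.mem_toFinset.1 hy))
  · obtain ⟨y, hy, h7⟩ := Set.mem_iUnion₂.1 (h3 hz)
    exact ⟨y, h2.mem_toFinset.2 hy, (mem_ball_iff_norm.1 h7).le⟩

/-- distances to the site nearest to `z / δ` -/
theorem EndB_scale {δ : ℝ} (hδ : 0 < δ) {z : ℂ} {c : Site} (hc : ‖pos c - z / δ‖ ≤ 2 / 3)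
    (x : Site) : ‖δ * pos x - z‖ ≤ δ * dst x c + δ * (2 / 3) ∧
      δ * dst x c ≤ ‖δ * pos x - z‖ + δ * (2 / 3) := by
  have h0 : (δ : ℂ) ≠ 0 := by exact_mod_cast hδ.ne'
  have e : ‖δ * pos x - z‖ = δ * ‖pos x - z / δ‖ := by
    rw [show δ * pos x - z = δ * (pos x - z / δ) by field_simp, norm_mul, Complex.norm_real,
      Real.norm_of_nonneg hδ.le]
  have h1 := norm_sub_le_norm_sub_add_norm_sub (pos x) (pos c) (z / δ)
  have h2 := norm_sub_le_norm_sub_add_norm_sub (pos x) (z / δ) (pos c)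
  rw [norm_sub_rev (z / δ)] at h2
  rw [e, ← mul_add, ← mul_add, dst]
  exact ⟨mul_le_mul_of_nonneg_left (by linarith) hδ.le,
    mul_le_mul_of_nonneg_left (by linarith) hδ.le⟩

theorem EndB_frac {ε : ℝ} (hε : 0 < ε) {m n : ℕ} (h : m ≤ n) : m * (ε / (n + 1)) ≤ ε := by
  have h1 : (m : ℝ) ≤ n := by exact_mod_cast h
  rw [← mul_div_assoc, div_le_iff₀ (by positivity)]
  nlinarith

theorem dense_bound {Ω : Set ℂ} (ho : IsOpen Ω) (hb : Bornology.IsBounded Ω) {a ε : ℝ} (ha : 0 < a)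
    (hε : 0 < ε) : ∃ δ₀ : ℝ, 0 < δ₀ ∧ ∀ (δ : ℝ) (D : Finset Site) (j : Site → ℝ), 0 < δ → δ < δ₀ →
      (∀ u, u ∈ D ↔ δ * pos u ∈ Ω) → Bd j (1 / 12) →
      gib D ∅ j (ind fun S => ¬ Dense (a / δ) D S) ≤ ε := by
  obtain ⟨Y, r, r0, ra, hY, hn⟩ := exists_net ho hb (half_pos ha)
  obtain ⟨ρ₀, hρ⟩ := iso_bound (q := ε / (Y.card + 1)) (by positivity)
  refine ⟨r / (|ρ₀| + 1), by positivity, fun δ D j δ0 δ1 hD hj => ?_⟩
  choose c hc using fun z : ℂ => exists_near (z / δ)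
  have h1 : ρ₀ ≤ r / δ - 1 := by
    rw [lt_div_iff₀ (by positivity)] at δ1
    rw [le_sub_iff_add_le, le_div_iff₀ δ0]
    nlinarith [le_abs_self ρ₀]
  have h2 : δ * (r / δ - 1) = r - δ := by field_simp
  refine (EndB_union Y (q := ε / (Y.card + 1))
    (Q := fun z S => ¬ ∃ y ∈ S, dst y (c z) ≤ r / δ - 1 ∧ ∀ w, tri.Adj y w → w ∉ S)
    (fun S hS => ?_) fun z hz => hρ D j (c z) _ h1 hj fun u hu => ?_).trans (EndB_frac hε le_rfl)
  · unfold Dense at hS
    obtain ⟨x, hS⟩ := not_forall.1 hS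
    obtain ⟨hx, hS⟩ := Classical.not_imp.1 hS
    obtain ⟨z, hz, h3⟩ := hn _ ((hD x).1 hx)
    refine ⟨z, hz, fun ⟨y, h4, h5, h6⟩ => hS ⟨y, h4, ?_, h6⟩⟩
    have h7 := (EndB_scale δ0 (hc z) x).2
    have h8 := mul_le_mul_of_nonneg_left h5 δ0.le
    have h9 := mul_le_mul_of_nonneg_left (dst_tri x (c z) y) δ0.le
    rw [dst_comm (c z) y, mul_add] at h9
    rw [le_div_iff₀ δ0]
    linarith
  · refine (hD u).2 (hY z hz (mem_ball_iff_norm.2 ?_))
    have h7 := (EndB_scale δ0 (hc z) u).1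
    have h8 := mul_le_mul_of_nonneg_left (mem_bal.1 hu) δ0.le
    linarith

theorem EndB_sep (Z : Finset ℂ) {ρ : ℝ} (hρ : 0 < ρ) :
    ∃ m : ℝ, 0 < m ∧ m ≤ ρ ∧ ∀ z ∈ Z, ∀ z' ∈ Z, z ≠ z' → m ≤ ‖z - z'‖ := by
  have h : ∀ (W : Finset (ℂ × ℂ)), ∃ m : ℝ, 0 < m ∧ m ≤ ρ ∧
      ∀ w ∈ W, w.1 ≠ w.2 → m ≤ ‖w.1 - w.2‖ := fun W => by
    induction W using Finset.induction_on with
    | empty => exact ⟨ρ, hρ, le_rfl, by simp⟩
    | insert w W _ ih =>
      obtain ⟨m, h1, h2, h3⟩ := ih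
      by_cases hw : w.1 = w.2
      · refine ⟨m, h1, h2, fun v hv h4 => ?_⟩
        rcases Finset.mem_insert.1 hv with rfl | hv
        · exact absurd hw h4
        · exact h3 v hv h4
      · refine ⟨min m ‖w.1 - w.2‖, lt_min h1 (norm_pos_iff.2 (sub_ne_zero.2 hw)),
          (min_le_left _ _).trans h2, fun v hv h4 => ?_⟩
        rcases Finset.mem_insert.1 hv with rfl | hv
        · exact min_le_right _ _
        · exact (min_le_left _ _).trans (h3 v hv h4)
  obtain ⟨m, h1, h2, h3⟩ := h (Z ×ˢ Z)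
  exact ⟨m, h1, h2, fun z hz z' hz' => h3 (z, z') (Finset.mem_product.2 ⟨hz, hz'⟩)⟩

/-- I3. The coupling lives within `2 a / δ` of the points `z / δ`, `z ∈ Z`. Take the nearest sites
`P` (`exists_near`), `r = 2 a / δ + 2`, `R` of order `min ρ (least distance in Z) / (4 δ)`,
`armB_small`, `gib_not_quiet`, `Quiet.mono`. -/
theorem last_step (Z : Finset ℂ) {ρ ε : ℝ} (hρ : 0 < ρ) (hε : 0 < ε) : ∃ a δ₀ : ℝ, 0 < a ∧ 0 < δ₀ ∧
    ∀ δ : ℝ, 0 < δ → δ < δ₀ → ∃ B : Finset Site, ∀ (D : Finset Site) (j : Site → ℝ),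
      (∀ x, (∀ z ∈ Z, 2 * a ≤ ‖δ * pos x - z‖) → j x = 0) →
      (∀ e, Touch e (B : Set Site)ᶜ → ew j e = 0) ∧
        gib D ∅ j (ind fun S => ¬ Quiet (ρ / δ) B S) ≤ ε := by
  obtain ⟨m, m0, mρ, hm⟩ := EndB_sep Z hρ
  obtain ⟨K, hK, hA⟩ := armB_small (q := ε / (Z.card + 1)) (by positivity)
  have K0 : 0 < K := by linarith
  obtain ⟨a, a0, ha⟩ : ∃ a : ℝ, 0 < a ∧ a * (8 * (K + 1)) = m :=
    ⟨m / (8 * (K + 1)), by positivity, by field_simp⟩
  refine ⟨a, m / (16 * K + 8), a0, by positivity, fun δ δ0 δ1 => ?_⟩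
  rw [lt_div_iff₀ (by positivity)] at δ1
  choose c hc using fun z : ℂ => exists_near (z / δ)
  obtain ⟨r, r0, hr⟩ : ∃ r : ℝ, 0 ≤ r ∧ δ * r = 2 * a + 2 * δ :=
    ⟨2 * a / δ + 2, by positivity, by field_simp⟩
  have hR : δ * (K * (r + 2) + 1) = 2 * (a * K) + 4 * (δ * K) + δ := by
    linear_combination K * hr
  have dK : 0 < δ * K := by positivity
  have aK : 0 < a * K := by positivity
  refine ⟨(Z.image c).biUnion fun p => bal p r, fun D j hj => ⟨fun e he => ?_, ?_⟩⟩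
  · obtain ⟨h1, h2⟩ := EndB_ends he (P := fun y => j y = 0) fun x hx y hy => by
      refine hj y fun z hz => ?_
      have h3 : r < dst x (c z) := by
        by_contra h3
        exact hx (Finset.mem_coe.2 (Finset.mem_biUnion.2
          ⟨c z, Finset.mem_image_of_mem c hz, mem_bal.2 (not_lt.1 h3)⟩))
      have h4 : r - 1 ≤ dst y (c z) := by linarith [dst_tri x y (c z)]
      have h5 := mul_le_mul_of_nonneg_left h4 δ0.le
      have h6 := (EndB_scale δ0 (hc z) y).2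
      linarith
    rw [ew, h1, h2, add_zero]
  · have h1 := gib_not_quiet (D := D) (P := Z.image c) (j := j) (r := r) (R := K * (r + 2) + 1)
      (q := ε / (Z.card + 1)) (fun p hp x h2 h3 => ?_)
      ((hA (r + 2) (by linarith)).mono le_rfl (by linarith) le_rfl) (by nlinarith)
    · refine le_trans (gib_mono fun S _ => ?_) (h1.trans (EndB_frac hε Finset.card_image_le))
      have h2 : 2 * (K * (r + 2) + 1) + 2 ≤ ρ / δ := by
        rw [le_div_iff₀ δ0]
        linarith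
      unfold ind
      split_ifs with h3 h4
      · exact le_rfl
      · exact absurd ((not_not.1 h4).mono h2) h3
      · exact zero_le_one
      · exact le_rfl
    · obtain ⟨z, hz, rfl⟩ := Finset.mem_image.1 hp
      obtain ⟨h4, h5⟩ := EndB_scale δ0 (hc z) x
      have h6 := mul_le_mul_of_nonneg_left h2.le δ0.le
      have h7 := mul_le_mul_of_nonneg_left h3 δ0.le
      refine hj x fun z' hz' => ?_
      by_cases h8 : z = z'
      · rw [← h8]
        linarith
      · have h9 := hm z hz z' hz' h8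
        have h10 := norm_sub_le_norm_sub_add_norm_sub z (δ * pos x) z'
        rw [norm_sub_rev z (δ * pos x)] at h10
        linarith

end Pool.Agent.TAF.U
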