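import Pool.Agent.P.MP_cb4022_pr.U.Markov
import Pool.Agent.P.MP_cb4022_pr.U.Expl

/-! Inward and outward explorations produce frames (paper F2 OutExpl, F3). -/

open scoped Classical symmDiff

noncomputable section

namespace Pool.Agent.TAF.U

/-- walk from `u` until the first explored edge -/
theorem InOut_first {ξ : Finset Edge} {St : Finset Tri} {T : Set Site} {u w : Tri} (hu : TT u T)
    (hc : Conn ξ u w) : Conn (ξ \ exE ξ St T) u w ∨
      ∃ τ ∈ tips ξ St T, Conn (ξ \ exE ξ St T) u τ := by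
  induction hc with
  | refl => exact Or.inl (Conn.refl _ _)
  | @tail b c _ h ih =>
    obtain ⟨i, hi, rfl⟩ := h
    refine ih.elim (fun ih => ?_) Or.inr
    by_cases he : side b i ∈ exE ξ St T
    · refine Or.inr ⟨b, mem_tips.2 ⟨reach_of_side he, by_contra fun hb => hb ?_⟩, ih⟩
      rwa [← conn_of_deg_zero (side_not_mem_sdiff (reach_of_side he) hb) ih.symm]
    · exact Or.inl (ih.trans (Conn.step (Finset.mem_sdiff.2 ⟨hi, he⟩)))

theorem InOut_odd_act {ξ : Finset Edge} {S : Finset Site} {t : Tri} :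
    IsOdd (ξ ∆ bd S) t ↔ IsOdd ξ t := by
  have := not_isOdd_bd S t
  rw [isOdd_symmDiff]
  tauto

theorem InOut_touch_bd {S : Finset Site} {e : Edge} (h : e ∈ bd S) : Touch e S :=
  mem_touchE.1 (Finset.mem_filter.1 h).1

theorem InOut_touch_mono {X Y : Set Site} (h : X ⊆ Y) {e : Edge} (he : Touch e X) : Touch e Y :=
  he.imp (fun a => h a) fun a => h a

/-! ### exploring from the inside up to radius `r` -/

section inn
variable {s r R : ℝ} {D H : Finset Site} {St U : Finset Tri} {ξ : Finset Edge}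

/-- hypotheses of the exploration from the inside -/
structure InH (s r R : ℝ) (D H : Finset Site) (St U : Finset Tri) (ξ : Finset Edge) : Prop where
  dom : Dom s R D H
  mem : ξ ∈ Om D H (St ∪ U)
  simple : Simple ξ
  st : ∀ t ∈ St, AllIn t (bal 0 r)
  out : ∀ u ∈ U, OutTip D u
  sr : s ≤ r
  rR : r + 6 ≤ R

theorem InOut_tt (h : InH s r R D H St U ξ) {u : Tri} (hu : u ∈ U) :
    TT u (bal 0 r : Set Site)ᶜ := by
  obtain ⟨p, -, h1, -⟩ := h.out u hu
  exact ⟨p + 1, fun h2 => h1 (h.dom.hR (bal_mono 0 (by linarith [h.rR]) h2))⟩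

theorem InH.good (h : InH s r R D H St U ξ) : GoodSt ξ St (bal 0 r : Set Site)ᶜ := by
  have hm := (mem_Om.1 h.mem).2
  refine ⟨h.simple, fun t ht => (hm t).2 (Finset.mem_union_left _ ht),
    fun t ht ⟨i, hi⟩ => hi (h.st t ht i), fun t ht hn => ?_⟩
  exact (Finset.mem_union.1 ((hm t).1 ht)).elim id fun hu => (hn (InOut_tt h hu)).elim

theorem InOut_ns (h : InH s r R D H St U ξ) {u : Tri} (hu : u ∈ U) : u ∉ St :=
  fun hs => h.good.far u hs (InOut_tt h hu)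

theorem InOut_nt (h : InH s r R D H St U ξ) {u : Tri} (hu : u ∈ U) :
    u ∉ tips ξ St (bal 0 r : Set Site)ᶜ := fun ht => by
  obtain ⟨p, -, h1, -⟩ := tip_spec ht (InOut_ns h hu)
  exact (h.out u hu).allIn h.dom.hR (p + 1)
    (bal_mono 0 (by linarith [h.rR]) (not_not.1 (exX_not_mem h1)))

theorem InOut_odd (h : InH s r R D H St U ξ) (t : Tri) :
    IsOdd (ξ \ exE ξ St (bal 0 r : Set Site)ᶜ) t ↔
      t ∈ tips ξ St (bal 0 r : Set Site)ᶜ ∨ t ∈ U := by
  have h1 := InOut_nt h (u := t)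
  have h2 := InOut_tt h (u := t)
  have h3 := h.good.far t
  have h4 : t ∈ tips ξ St (bal 0 r : Set Site)ᶜ → TT t (bal 0 r : Set Site)ᶜ :=
    fun h => (mem_tips.1 h).2
  rw [h.good.odd_sdiff, (mem_Om.1 h.mem).2, Finset.mem_union]
  tauto

theorem InH.frame (h : InH s r R D H St U ξ) (ha : Anch ξ St (bal 0 r : Set Site)ᶜ H) :
    Frame r R D (H ∪ exX ξ St (bal 0 r : Set Site)ᶜ) (tips ξ St (bal 0 r : Set Site)ᶜ) U := by
  refine ⟨⟨Finset.mem_union_left _ h.dom.zero, Finset.union_subset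
    (h.dom.hs.trans (bal_mono 0 h.sr)) fun x hx => not_not.1 (exX_not_mem hx), h.dom.hR, h.rR, ?_,
    h.dom.connD, h.dom.connO⟩, fun v hv => ?_, h.out⟩
  · rw [Finset.coe_union]
    exact sconn_exX h.good h.dom.connH ha
  · obtain ⟨p, h1, h2, h3, -⟩ := tip_spec hv (Finset.disjoint_right.1 h.good.disjoint hv)
    exact ⟨p, h1, Finset.mem_union_right _ h2, Finset.mem_union_right _ h3⟩

theorem InH.mem_Om (h : InH s r R D H St U ξ) (ha : Anch ξ St (bal 0 r : Set Site)ᶜ H) :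
    ξ \ exE ξ St (bal 0 r : Set Site)ᶜ ∈
      Om D (H ∪ exX ξ St (bal 0 r : Set Site)ᶜ) (tips ξ St (bal 0 r : Set Site)ᶜ ∪ U) := by
  have hm := fun e (he : e ∈ ξ) => mem_allowed.1 ((TAF.U.mem_Om.1 h.mem).1 he)
  refine TAF.U.mem_Om.2 ⟨fun e he => mem_allowed.2 ⟨(hm e (Finset.mem_sdiff.1 he).1).1, ?_⟩,
    fun t => by rw [InOut_odd h, Finset.mem_union]⟩
  rw [Finset.coe_union]
  exact no_edge_inside h.good (sconn_compl_bal 0 r) h.dom.connH
    (Set.disjoint_left.2 fun x hx h1 => h1 (bal_mono 0 h.sr (h.dom.hs hx)))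
    (fun e he => (hm e he).2) ha e he

/-- a line from `u` to a start passes through a tip; it does not use explored edges before -/
theorem InH.conn_iff (h : InH s r R D H St U ξ) {u v : Tri} (hu : u ∈ U) (hv : v ∈ St) :
    Conn ξ u v ↔ ∃ τ ∈ tips ξ St (bal 0 r : Set Site)ᶜ,
      Conn (ξ \ exE ξ St (bal 0 r : Set Site)ᶜ) u τ ∧ Conn (exE ξ St (bal 0 r : Set Site)ᶜ) τ v := by
  refine ⟨fun hc => ?_, fun ⟨τ, _, h1, h2⟩ =>
    (h1.mono Finset.sdiff_subset).trans (h2.mono exE_subset)⟩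
  rcases InOut_first (St := St) (InOut_tt h hu) hc with h1 | ⟨τ, hτ, h1⟩
  · exact (InOut_ns h hu (conn_of_deg_zero (side_not_mem_sdiff (Reach.start hv)
      (h.good.far v hv)) h1.symm ▸ hv)).elim
  · obtain ⟨t₀, h0, h2⟩ := reach_conn (mem_tips.1 hτ).1
    rcases three_odd h.simple (((TAF.U.mem_Om.1 h.mem).2 u).2 (Finset.mem_union_right _ hu))
      (h.good.odd v hv) (h.good.odd t₀ h0) hc
      ((h1.mono Finset.sdiff_subset).trans (h2.symm.mono exE_subset)) with rfl | rfl | rfl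
    · exact (InOut_ns h hu hv).elim
    · exact (InOut_ns h hu h0).elim
    · exact ⟨τ, hτ, h1, h2.symm⟩

theorem InH.thru_iff (h : InH s r R D H St U ξ) : Thru ξ St U ↔
    Thru (ξ \ exE ξ St (bal 0 r : Set Site)ᶜ) (tips ξ St (bal 0 r : Set Site)ᶜ) U := by
  refine ⟨fun ht u hu => ?_, fun ht u hu => ?_⟩
  · obtain ⟨v, hv, hc⟩ := ht u hu
    obtain ⟨τ, hτ, h1, -⟩ := (h.conn_iff hu hv).1 hc
    exact ⟨τ, hτ, h1⟩
  · obtain ⟨τ, hτ, h1⟩ := ht u hu
    obtain ⟨t₀, h0, h2⟩ := reach_conn (mem_tips.1 hτ).1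
    exact ⟨t₀, h0, (h.conn_iff hu h0).2 ⟨τ, hτ, h1, h2.symm⟩⟩

theorem InOut_map (h : InH s r R D H St U ξ) (ht : Thru ξ St U) : ∃ f : Tri → Tri,
    Set.InjOn f U ∧ ∀ u ∈ U, f u ∈ tips ξ St (bal 0 r : Set Site)ᶜ ∧ line ξ u =
      line (ξ \ exE ξ St (bal 0 r : Set Site)ᶜ) u +
        line (exE ξ St (bal 0 r : Set Site)ᶜ) (f u) := by
  have h1 : ∀ u ∈ U, ∃ τ ∈ tips ξ St (bal 0 r : Set Site)ᶜ, ∃ v ∈ St,
      Conn (ξ \ exE ξ St (bal 0 r : Set Site)ᶜ) u τ ∧
        Conn (exE ξ St (bal 0 r : Set Site)ᶜ) τ v := fun u hu => by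
    obtain ⟨v, hv, hc⟩ := ht u hu
    obtain ⟨τ, hτ, h1⟩ := (h.conn_iff hu hv).1 hc
    exact ⟨τ, hτ, v, hv, h1⟩
  choose! f hf g hg c1 c2 using h1
  refine ⟨f, fun u hu u' hu' e => ?_, fun u hu => ⟨hf u hu, ?_⟩⟩
  · rcases three_odd (h.simple.mono Finset.sdiff_subset) ((InOut_odd h _).2 (Or.inl (hf u hu)))
      ((InOut_odd h u).2 (Or.inr hu)) ((InOut_odd h u').2 (Or.inr hu')) (c1 u hu).symm
      (e ▸ (c1 u' hu').symm) with h2 | h2 | h2
    · exact (InOut_nt h hu (h2 ▸ hf u hu)).elim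
    · exact (InOut_nt h hu' (h2 ▸ hf u hu)).elim
    · exact h2
  · exact line_concat h.simple Finset.sdiff_subset exE_subset
      (((TAF.U.mem_Om.1 h.mem).2 u).2 (Finset.mem_union_right _ hu)) ((InOut_odd h u).2 (Or.inr hu))
      ((InOut_odd h _).2 (Or.inl (hf u hu))) ((h.good.odd_exE _).2 (Or.inr (hf u hu)))
      ((h.good.odd_exE _).2 (Or.inl (hg u hu))) (h.good.odd _ (hg u hu))
      (fun e => InOut_nt h hu (e ▸ hf u hu))
      (fun e => Finset.disjoint_left.1 h.good.disjoint (hg u hu) (e ▸ hf u hu))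
      (fun e => InOut_ns h hu (e ▸ hg u hu)) (c1 u hu) (c2 u hu)

/-- `line_concat` for every element of `U`; the tips are all used -/
theorem InH.Lf_eq (h : InH s r R D H St U ξ) (ht : Thru ξ St U)
    (hc : (tips ξ St (bal 0 r : Set Site)ᶜ).card ≤ U.card) :
    Lf ξ U = Lf (ξ \ exE ξ St (bal 0 r : Set Site)ᶜ) U +
      Lf (exE ξ St (bal 0 r : Set Site)ᶜ) (tips ξ St (bal 0 r : Set Site)ᶜ) := by
  obtain ⟨f, hi, hf⟩ := InOut_map h ht
  have h1 : Finset.image f U = tips ξ St (bal 0 r : Set Site)ᶜ :=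
    Finset.eq_of_subset_of_card_le (Finset.image_subset_iff.2 fun u hu => (hf u hu).1)
      (by rwa [Finset.card_image_of_injOn hi])
  rw [Lf, Lf, Lf, ← h1, Finset.sum_image hi, ← neg_add, ← Finset.sum_add_distrib,
    Finset.sum_congr rfl fun u hu => (hf u hu).2]

theorem InH.card_le (h : InH s r R D H St U ξ) (ht : Thru ξ St U) :
    U.card ≤ (tips ξ St (bal 0 r : Set Site)ᶜ).card := by
  obtain ⟨f, hi, hf⟩ := InOut_map h ht
  exact Finset.card_le_card_of_injOn f (fun u hu => (hf u hu).1) hi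

theorem InH.act (h : InH s r R D H St U ξ) {S : Finset Site} (hS : S ∈ Gr D H)
    (hs : ∀ t ∈ St, ∃ i, side t i ∉ ξ ∆ bd S) : InH s r R D H St U (ξ ∆ bd S) := by
  have hm := Om_act h.mem hS
  refine ⟨h.dom, hm, fun t => ?_, h.st, h.out, h.sr, h.rR⟩
  by_cases ht : IsOdd (ξ ∆ bd S) t
  · rcases Finset.mem_union.1 (((TAF.U.mem_Om.1 hm).2 t).1 ht) with h1 | h1
    · exact (hs t h1).elim fun _ => deg_le_two_of_not_mem
    · obtain ⟨i, hi⟩ := (h.out t h1).not_allowed (H := H)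
      exact deg_le_two_of_not_mem fun h2 => hi ((TAF.U.mem_Om.1 hm).1 h2)
  · exact deg_le_two_of_not_odd ht

end inn

/-! ### exploring from the outside down to radius `r` -/

section out
variable {r : ℝ} {D : Finset Site} {U : Finset Tri} {ξ : Finset Edge}

/-- the domain that is left -/
def dStar (D : Finset Site) (ξ : Finset Edge) (U : Finset Tri) (r : ℝ) : Finset Site :=
  cmp (D \ exX ξ U (bal 0 r)) 0

structure OutH (r : ℝ) (D : Finset Site) (U : Finset Tri) (ξ : Finset Edge) : Prop where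
  r0 : 0 ≤ r
  hb : bal 0 r ⊆ D
  connO : SConn (D : Set Site)ᶜ
  touch : ∀ e ∈ ξ, Touch e D
  out : ∀ u ∈ U, OutTip D u
  good : GoodSt ξ U (bal 0 r)

theorem OutH.bal_sub (h : OutH r D U ξ) : bal 0 r ⊆ dStar D ξ U r := by
  have h1 : bal 0 r ⊆ D \ exX ξ U (bal 0 r) := fun x hx =>
    Finset.mem_sdiff.2 ⟨h.hb hx, fun h2 => exX_not_mem h2 hx⟩
  exact fun x hx => mem_cmp.2 ⟨h1 hx, (sconn_bal 0 r 0 (mem_bal.2 (by simpa using h.r0)) x hx).mono
    (Finset.coe_subset.2 h1)⟩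
theorem dStar_sub : dStar D ξ U r ⊆ D := by
  exact fun x hx => (Finset.mem_sdiff.1 (mem_cmp.1 hx).1).1
theorem dStar_disjoint : Disjoint (dStar D ξ U r) (exX ξ U (bal 0 r)) := by
  exact Finset.disjoint_left.2 fun x hx => (Finset.mem_sdiff.1 (mem_cmp.1 hx).1).2
theorem InOut_anch (h : OutH r D U ξ) : Anch ξ U (bal 0 r) (D : Set Site)ᶜ := fun t ht =>
  ⟨t, ht, Conn.refl _ _, (h.out t ht).elim fun p hp => ⟨p + 1, hp.2.1⟩⟩
theorem OutH.connO' (h : OutH r D U ξ) : SConn (dStar D ξ U r : Set Site)ᶜ := by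
  refine sconn_compl_cmp ?_ 0
  rw [Finset.coe_sdiff, Set.sdiff_eq, Set.compl_inter, compl_compl]
  exact sconn_exX h.good h.connO (InOut_anch h)
theorem OutH.dom (h : OutH r D U ξ) {s : ℝ} {H : Finset Site} (h0 : (0 : Site) ∈ H)
    (hs : H ⊆ bal 0 s) (hH : SConn H) (hr : s + 6 ≤ r) : Dom s r (dStar D ξ U r) H := by
  exact ⟨h0, hs, h.bal_sub, hr, hH, sconn_cmp _ _, h.connO'⟩
theorem OutH.tip (h : OutH r D U ξ) :
    ∀ u ∈ tips ξ U (bal 0 r), OutTip (dStar D ξ U r) u := by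
  intro u hu
  obtain ⟨p, h1, h2, h3, -⟩ := tip_spec hu (Finset.disjoint_right.1 h.good.disjoint hu)
  exact ⟨p, h.bal_sub h1, Finset.disjoint_right.1 dStar_disjoint h2,
    Finset.disjoint_right.1 dStar_disjoint h3⟩

theorem InOut_wall (h : OutH r D U ξ) {t : Tri} {i : Fin 3} (hi : side t i ∈ ξ)
    (hn : ¬ Touch (side t i) (dStar D ξ U r)) (ht : TT t (dStar D ξ U r)) :
    side t i ∈ exE ξ U (bal 0 r) := by
  obtain ⟨j, hj⟩ := ht
  have h1 : ∀ k, vtx t k ∉ dStar D ξ U r → vtx t k ∈ (D : Set Site)ᶜ ∪ exX ξ U (bal 0 r) :=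
    fun k hk => by_contra fun h2 => hk (by
      by_cases e : j = k
      · exact e ▸ hj
      · rw [Set.mem_union, not_or] at h2
        exact cmp_closed hj (Finset.mem_sdiff.2 ⟨not_not.1 h2.1, h2.2⟩) (adj_vtx t e))
  rw [touch_side, not_or] at hn
  exact by_contra fun he => no_edge_inside h.good (sconn_bal 0 r) h.connO
    (Set.disjoint_left.2 fun x hx h2 => hx (h.hb h2))
    (fun e he h2 => not_touch_iff.2 h2 (h.touch e he)) (InOut_anch h) _
    (Finset.mem_sdiff.2 ⟨hi, he⟩) (inside_side.2 ⟨h1 _ hn.1, h1 _ hn.2⟩)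

theorem InOut_reach {t : Tri} (h : Reach ξ U (bal 0 r) t) (ht : TT t (dStar D ξ U r)) :
    TT t (bal 0 r) := by_contra fun hn => ht.elim fun i hi =>
  Finset.disjoint_left.1 dStar_disjoint hi (mem_exX.2 ⟨t, i, h, hn, rfl⟩)

/-- an edge of `ξ` with both ends outside the remaining domain, on a triangle that touches it,
is the explored side of a tip (`no_edge_inside` with `Y = Dᶜ`) -/
theorem OutH.wall (h : OutH r D U ξ) {t : Tri} {i : Fin 3} (hi : side t i ∈ ξ)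
    (hn : ¬ Touch (side t i) (dStar D ξ U r)) (ht : TT t (dStar D ξ U r)) :
    t ∈ tips ξ U (bal 0 r) := by
  have h1 := reach_of_side (InOut_wall h hi hn ht)
  exact mem_tips.2 ⟨h1, InOut_reach h1 ht⟩

theorem OutH.odd_res (h : OutH r D U ξ) (t : Tri) : IsOdd (res ξ (dStar D ξ U r)) t ↔
    TT t (bal 0 r) ∧ ¬ (IsOdd ξ t ↔ t ∈ tips ξ U (bal 0 r)) := by
  by_cases ht : TT t (dStar D ξ U r)
  · have h1 : ∀ i, side t i ∈ res ξ (dStar D ξ U r) ↔ side t i ∈ ξ \ exE ξ U (bal 0 r) :=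
      fun i => by
      rw [mem_res, Finset.mem_sdiff]
      refine and_congr_right fun hi => ⟨fun h2 h3 => ?_,
        fun h2 => by_contra fun h3 => h2 (InOut_wall h hi h3 ht)⟩
      exact h2.elim (fun a => Finset.disjoint_left.1 dStar_disjoint a (exE_inside h3).1)
        fun a => Finset.disjoint_left.1 dStar_disjoint a (exE_inside h3).2
    rw [← h.good.odd_sdiff, isOdd_iff _ t 0, isOdd_iff _ t 0, h1, h1, h1]
  · have h1 : ∀ i, side t i ∉ res ξ (dStar D ξ U r) := fun i hi => ht (mem_res.1 hi).2.tt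
    refine iff_of_false ?_ fun h2 => ht (h2.1.imp fun i hi => h.bal_sub hi)
    simp [isOdd_iff _ t 0, h1]

theorem OutH.conn (h : OutH r D U ξ) {u v : Tri} (hu : u ∈ U) (hv : TT v (bal 0 r))
    (hc : Conn ξ u v) : ∃ τ ∈ tips ξ U (bal 0 r), Conn (res ξ (dStar D ξ U r)) τ v := by
  have h1 : ∀ w, Conn ξ v w → (Conn (res ξ (dStar D ξ U r)) v w ∧ TT w (dStar D ξ U r)) ∨
      ∃ τ ∈ tips ξ U (bal 0 r), Conn (res ξ (dStar D ξ U r)) τ v := fun w hw => by
    induction hw with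
    | refl => exact Or.inl ⟨Conn.refl _ _, hv.imp fun i hi => h.bal_sub hi⟩
    | @tail b c _ hs ih =>
      obtain ⟨i, hi, rfl⟩ := hs
      refine ih.elim (fun ih => ?_) Or.inr
      by_cases he : Touch (side b i) (dStar D ξ U r)
      · exact Or.inl ⟨ih.1.trans (Conn.step (mem_res.2 ⟨hi, he⟩)),
          Touch.tt (i := i) (by rwa [side_nbr])⟩
      · exact Or.inr ⟨b, h.wall hi he ih.2, ih.1.symm⟩
  exact (h1 u hc.symm).resolve_left fun h2 => h.good.far u hu (InOut_reach (Reach.start hu) h2.2)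

theorem InOut_act {S : Finset Site} (hS : S ⊆ dStar D ξ U r) :
    dStar D (ξ ∆ bd S) U r = dStar D ξ U r := by
  rw [dStar, dStar, (expl_act (Or.inr (dStar_disjoint.mono_left hS))).1]

theorem OutH.act (h : OutH r D U ξ) {S : Finset Site} (hS : S ⊆ dStar D ξ U r)
    (hs : Simple (ξ ∆ bd S)) : OutH r D U (ξ ∆ bd S) ∧
      dStar D (ξ ∆ bd S) U r = dStar D ξ U r ∧
      res (ξ ∆ bd S) (dStar D ξ U r) = res ξ (dStar D ξ U r) ∆ bd S := by
  refine ⟨⟨h.r0, h.hb, h.connO, fun e he => ?_, h.out, hs,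
    fun t ht => InOut_odd_act.2 (h.good.odd t ht), h.good.far,
    fun t ht => h.good.all t (InOut_odd_act.1 ht)⟩, InOut_act hS, ?_⟩
  · exact (Finset.mem_symmDiff.1 he).elim (fun a => h.touch e a.1) fun a =>
      InOut_touch_mono (Finset.coe_subset.2 (hS.trans dStar_sub)) (InOut_touch_bd a.1)
  · ext e
    have h1 : e ∈ bd S → Touch e (dStar D ξ U r) := fun a =>
      InOut_touch_mono (Finset.coe_subset.2 hS) (InOut_touch_bd a)
    simp only [mem_res, Finset.mem_symmDiff]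
    tauto

theorem dStar_act {S : Finset Site} (hS : S ⊆ dStar D ξ U r) {r' : ℝ} (hr : r ≤ r') :
    dStar D (ξ ∆ bd S) U r = dStar D ξ U r ∧
      tips (ξ ∆ bd S) U (bal 0 r') = tips ξ U (bal 0 r') := by
  exact ⟨InOut_act hS, (expl_act (Or.inr (dStar_disjoint.mono hS
    (exX_anti (Finset.coe_subset.2 (bal_mono 0 hr)))))).2.2.1⟩

/-- the case of a frame -/
theorem Frame.outH {s R : ℝ} {H : Finset Site} {V : Finset Tri} (h : Frame s R D H V U)
    (hξ : ξ ∈ Om D H (V ∪ U)) (hr : s + 6 ≤ r) (hR : r + 1 ≤ R) : OutH r D U ξ ∧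
      Frame s r (dStar D ξ U r) H V (tips ξ U (bal 0 r)) ∧
      res ξ (dStar D ξ U r) ∈ Om (dStar D ξ U r) H (V ∪ tips ξ U (bal 0 r)) := by
  obtain ⟨h1, h2⟩ := mem_Om.1 hξ
  have h3 : ∀ v ∈ V, TT v (bal 0 r) := fun v hv => (h.inn v hv).elim fun p hp =>
    ⟨p + 1, bal_mono 0 (by linarith) (h.hs hp.2.1)⟩
  have ho : OutH r D U ξ := ⟨by linarith [h.toDom.nonneg], (bal_mono 0 (by linarith)).trans h.hR,
    h.connO, fun e he => (mem_allowed.1 (h1 he)).1, h.out, h.simple hξ,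
    fun t ht => (h2 t).2 (Finset.mem_union_right _ ht),
    fun t ht ⟨i, hi⟩ => (h.out t ht).allIn h.hR i (bal_mono 0 (by linarith) hi),
    fun t ht hn => (Finset.mem_union.1 ((h2 t).1 ht)).resolve_left fun hv => hn (h3 t hv)⟩
  have hf : Frame s r (dStar D ξ U r) H V (tips ξ U (bal 0 r)) :=
    ⟨ho.dom h.zero h.hs h.connH hr, h.inn, ho.tip⟩
  refine ⟨ho, hf, mem_Om.2 ⟨fun e he => mem_allowed.2
    ⟨(mem_res.1 he).2, (mem_allowed.1 (h1 (mem_res.1 he).1)).2⟩, fun t => ?_⟩⟩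
  have h4 := h3 t
  have h5 := ho.good.far t
  have h6 : t ∈ tips ξ U (bal 0 r) → TT t (bal 0 r) := fun a => (mem_tips.1 a).2
  have h7 : t ∈ V → t ∉ tips ξ U (bal 0 r) := fun a => Finset.disjoint_left.1 hf.disjoint a
  rw [ho.odd_res, h2, Finset.mem_union, Finset.mem_union]
  tauto

end out

end Pool.Agent.TAF.U
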