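import Pool.Agent.P.MP_cb4022_pr.U.ObsB
import Pool.Agent.P.MP_cb4022_pr.U.InOut

/-! The bounds that are proved by induction on the number of lines (paper F). -/

open scoped Classical symmDiff

noncomputable section

namespace Pool.Agent.TAF.U

def aN (N : ℕ) : ℝ := N * (N - 1) / 6
def xN (N : ℕ) : ℂ := om ^ (N - 1)
def cN (N : ℕ) : ℂ := Complex.exp ((2 * Real.pi * aN N / 3 : ℝ) * Complex.I)
def sV (V : Finset Tri) : ℤ := ∑ v ∈ V, secT v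

/-- probability that `N` outer sources are all joined to the inside -/
def ThB (N : ℕ) (γ : ℝ) : Prop := ∃ C : ℝ, ∀ Lam : ℝ, ∃ s₀ : ℝ, ∀ (s R : ℝ) (D H : Finset Site)
  (V U : Finset Tri), s₀ ≤ s → Frame s R D H V U → D ⊆ bal 0 (Lam * s) → U.card = N →
    pr (Om D H (V ∪ U)) (fun ξ => Thru ξ V U) ≤ C * (s / R) ^ γ

def BV (N : ℕ) : Prop := ∃ C : ℝ, ∀ Lam : ℝ, ∃ s₀ : ℝ, ∀ (s R : ℝ) (D H : Finset Site)
  (V U : Finset Tri), s₀ ≤ s → Frame s R D H V U → D ⊆ bal 0 (Lam * s) → V.card = N →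
    U.card = N → ‖amp D H V U (xN N)‖ ≤ C * (s / R) ^ aN N

def CV (N : ℕ) : Prop := ∀ η : ℝ, 0 < η → ∃ lam₀ : ℝ, ∀ Lam : ℝ, ∃ s₀ : ℝ, ∀ (s R : ℝ)
  (D H : Finset Site) (V U : Finset Tri), s₀ ≤ s → lam₀ * s ≤ R → Frame s R D H V U →
    D ⊆ bal 0 (Lam * s) → V.card = N → U.card = N →
    ‖amp D (rotA.mS H) (rotA.mT V) U (xN N) - cN N * xN N ^ sV V * amp D H V U (xN N)‖ ≤
      η * (s / R) ^ aN N

/-- the rotation average of the four-line amplitude -/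
def amp3 (D H : Finset Site) (V U : Finset Tri) : ℂ :=
  amp D H V U (-1) + (-1) ^ sV V * amp D (rotA.mS H) (rotA.mT V) U (-1) +
    (-1) ^ (sV V + sV (rotA.mT V)) * amp D (rotA.mS (rotA.mS H)) (rotA.mT (rotA.mT V)) U (-1)

def CV4 : Prop := ∀ η : ℝ, 0 < η → ∃ lam₀ : ℝ, ∀ Lam : ℝ, ∃ s₀ : ℝ, ∀ (s R : ℝ)
  (D H : Finset Site) (V U : Finset Tri), s₀ ≤ s → lam₀ * s ≤ R → Frame s R D H V U →
    D ⊆ bal 0 (Lam * s) → V.card = 4 → U.card = 4 → ‖amp3 D H V U‖ ≤ η * (s / R) ^ 2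

def PB (N : ℕ) : Prop := ∃ C : ℝ, ∀ Lam : ℝ, ∃ s₀ : ℝ, ∀ (s R : ℝ) (D H : Finset Site)
  (V U : Finset Tri) (e : Edge) (l : ℤ), s₀ ≤ s → Frame s R D H V U → D ⊆ bal 0 (Lam * s) →
    V.card = N + 1 → U.card = N → 2 * s ≤ ‖pos (rgt e)‖ → ‖pos (rgt e)‖ ≤ 4 * s →
    ‖obsE D H V U (xN (N + 1)) e l‖ ≤ C * (s / R) ^ aN N

def PC (N : ℕ) : Prop := ∀ η : ℝ, 0 < η → ∃ lam₀ : ℝ, ∀ Lam : ℝ, ∃ s₀ : ℝ, ∀ (s R : ℝ)
  (D H : Finset Site) (V U : Finset Tri) (e : Edge) (l : ℤ), s₀ ≤ s → lam₀ * s ≤ R →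
    Frame s R D H V U → D ⊆ bal 0 (Lam * s) → V.card = N + 1 → U.card = N →
    2 * s ≤ ‖pos (rgt e)‖ → ‖pos (rgt e)‖ ≤ 4 * s →
    ‖obsE D (rotA.mS H) (rotA.mT V) U (xN (N + 1)) (gE e) (l + secS (rgt e)) -
      cN N * xN (N + 1) ^ sV V * obsE D H V U (xN (N + 1)) e l‖ ≤ η * (s / R) ^ aN N

theorem aN_nonneg (N : ℕ) : 0 ≤ aN N := by
  unfold aN
  rcases Nat.eq_zero_or_pos N with h | h
  · subst h; simp
  · have h1 : (1 : ℝ) ≤ N := by exact_mod_cast h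
    have h2 : (0 : ℝ) ≤ N - 1 := by linarith
    positivity
theorem aN_succ (N : ℕ) : aN (N + 1) = aN N + N / 3 := by
  unfold aN; push_cast; ring
theorem norm_xN (N : ℕ) : ‖xN N‖ = 1 := by
  rw [xN, norm_pow, norm_om, one_pow]
theorem norm_cN (N : ℕ) : ‖cN N‖ = 1 := by
  exact Complex.norm_exp_ofReal_mul_I _
theorem xN_div {N : ℕ} (h : 1 ≤ N) : xN (N + 1) / om = xN N := by
  obtain ⟨n, rfl⟩ := Nat.exists_eq_add_of_le' h
  simp only [xN, Nat.add_sub_cancel]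
  rw [pow_succ, mul_div_cancel_right₀ _ om_ne]
theorem xN_four : xN 4 = -1 := by
  exact om_cube

theorem FDef_aN_one : aN 1 = 0 := by simp [aN]

theorem ThB.mono {N : ℕ} {γ γ' : ℝ} (h : ThB N γ) (hγ : γ' ≤ γ) : ThB N γ' := by
  obtain ⟨C, hC⟩ := h
  refine ⟨max C 0, fun Lam => ?_⟩
  obtain ⟨s₀, hs₀⟩ := hC Lam
  refine ⟨max s₀ 1, fun s R D H V U hs hF hD hU => ?_⟩
  have h1 : 1 ≤ s := (le_max_right _ _).trans hs
  have h2 := hF.gap
  have h3 : 0 < s / R := div_pos (by linarith) (by linarith)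
  have h4 : s / R ≤ 1 := (div_le_one (by linarith)).2 (by linarith)
  refine (hs₀ s R D H V U ((le_max_left _ _).trans hs) hF hD hU).trans ?_
  exact mul_le_mul (le_max_left _ _) (Real.rpow_le_rpow_of_exponent_ge h3 h4 hγ)
    (Real.rpow_nonneg h3.le _) (le_max_right _ _)
theorem bv_one : BV 1 := by
  refine ⟨1, fun _ => ⟨0, fun s R D H V U _ _ _ _ _ => ?_⟩⟩
  rw [FDef_aN_one, Real.rpow_zero, one_mul]
  exact (norm_amp_le_pr (norm_xN 1)).trans (pr_le_one _ _)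
theorem cv_one : CV 1 := by
  refine fun η hη => ⟨0, fun _ => ⟨0, fun s R D H V U _ _ hF _ hV hU => ?_⟩⟩
  have h1 : xN 1 = 1 := by simp [xN]
  have h2 : cN 1 = 1 := by simp [cN, FDef_aN_one]
  rw [FDef_aN_one, Real.rpow_zero, mul_one, h1, h2, amp_single hF hV hU,
    amp_single hF.rot (by rw [Aut.card_mT, hV]) hU]
  simpa using hη.le

theorem amp_eq_zero {D H : Finset Site} {V U : Finset Tri} {x : ℂ}
    (h : ∀ ξ ∈ Om D H (V ∪ U), ¬ Thru ξ V U) : amp D H V U x = 0 := by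
  rw [amp, avg_congr (g := fun _ => 0) fun ξ hξ => if_neg (h ξ hξ), avg_zero]

theorem Frame.card_le {s R : ℝ} {D H : Finset Site} {V U : Finset Tri} (h : Frame s R D H V U)
    {ξ : Finset Edge} (hξ : ξ ∈ Om D H (V ∪ U)) (ht : Thru ξ V U) : U.card ≤ V.card := by
  have ho := (mem_Om.1 hξ).2
  obtain ⟨V', h1, h2, -⟩ := dv_Lf (h.simple hξ)
    (fun v hv => (ho v).2 (Finset.mem_union_left _ hv))
    (fun u hu => (ho u).2 (Finset.mem_union_right _ hu)) h.disjoint ht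
  exact h2 ▸ Finset.card_le_card h1

theorem bal_sub_scale {Lam s r : ℝ} {D : Finset Site} (h0 : (0 : Site) ∈ D)
    (h : D ⊆ bal 0 (Lam * s)) (hs : 0 < s) (hr : s ≤ r) : D ⊆ bal 0 (Lam * r) := by
  have h1 : 0 ≤ Lam * s := by simpa using mem_bal.1 (h h0)
  have h2 : 0 ≤ Lam := nonneg_of_mul_nonneg_left h1 hs
  exact h.trans (bal_mono _ (mul_le_mul_of_nonneg_left hr h2))

/-- the odd triangles -/
def oddS (ξ : Finset Edge) : Finset Tri := (ξ.image up ∪ ξ.image dn).filter (IsOdd ξ)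

theorem mem_oddS {ξ : Finset Edge} {t : Tri} : t ∈ oddS ξ ↔ IsOdd ξ t := by
  rw [oddS, Finset.mem_filter]
  refine ⟨fun h => h.2, fun h => ⟨?_, h⟩⟩
  obtain ⟨i, hi⟩ := Line_exists_side h
  rcases (side_eq_iff.1 (rfl : side t i = side t i)).2 with h1 | h1
  · exact Finset.mem_union_left _ (Finset.mem_image.2 ⟨_, hi, h1.symm⟩)
  · exact Finset.mem_union_right _ (Finset.mem_image.2 ⟨_, hi, h1.symm⟩)

theorem FDef_summable {a γ : ℝ} (h : a < γ) :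
    Summable fun k : ℕ => ((2 : ℝ) ^ (k + 1)) ^ a * ((2 : ℝ) ^ k) ^ (-γ) := by
  have h1 : (2 : ℝ) ^ (a - γ) < 1 := Real.rpow_lt_one_of_one_lt_of_neg one_lt_two (by linarith)
  refine ((summable_geometric_of_lt_one (by positivity) h1).mul_left ((2 : ℝ) ^ a)).congr
    fun k => ?_
  have h2 : (0 : ℝ) < 2 := two_pos
  simp only [← Real.rpow_natCast, ← Real.rpow_mul h2.le, ← Real.rpow_add h2]
  congr 1
  push_cast
  ring

theorem geo_sum {a γ : ℝ} (h : a < γ) : ∃ C : ℝ, 0 ≤ C ∧ ∀ K : ℕ,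
    ∑ k ∈ Finset.range K, ((2 : ℝ) ^ (k + 1)) ^ a * ((2 : ℝ) ^ k) ^ (-γ) ≤ C := by
  refine ⟨∑' k : ℕ, ((2 : ℝ) ^ (k + 1)) ^ a * ((2 : ℝ) ^ k) ^ (-γ),
    tsum_nonneg fun k => by positivity, fun K => ?_⟩
  exact (FDef_summable h).sum_le_tsum _ fun k _ => by positivity

theorem geo_tail {a γ η : ℝ} (h : a < γ) (hη : 0 < η) : ∃ J : ℕ, ∀ K : ℕ,
    ∑ k ∈ (Finset.range K).filter (J ≤ ·), ((2 : ℝ) ^ (k + 1)) ^ a * ((2 : ℝ) ^ k) ^ (-γ) ≤ η := by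
  obtain ⟨s, hs⟩ := summable_iff_vanishing_norm.1 (FDef_summable h) η hη
  refine ⟨s.sup id + 1, fun K => ((le_abs_self _).trans_lt (hs _ ?_)).le⟩
  refine Finset.disjoint_left.2 fun k hk hk' => ?_
  have h1 : s.sup id + 1 ≤ k := (Finset.mem_filter.1 hk).2
  have h2 : id k ≤ s.sup id := Finset.le_sup hk'
  simp only [id] at h1 h2
  omega

/-- the last dyadic scale -/
theorem exists_dyadic {a b : ℝ} (ha : 0 < a) (hab : a ≤ b) :
    ∃ K : ℕ, a * 2 ^ K ≤ b ∧ b < a * 2 ^ (K + 1) := by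
  obtain ⟨K, h1, h2⟩ := exists_nat_pow_near (x := b / a) (y := 2) ((one_le_div ha).2 hab)
    one_lt_two
  refine ⟨K, ?_, ?_⟩
  · rw [mul_comm]; exact (le_div_iff₀ ha).1 h1
  · rw [mul_comm]; exact (div_lt_iff₀ ha).1 h2

theorem FDef_dom {s R : ℝ} {D H : Finset Site} (h : Dom s R D H) : Dom s R D (rotA.mS H) :=
  (Frame.rot (V := ∅) (U := ∅) ⟨h, by simp, by simp⟩).toDom

theorem FDef_rotT {s R : ℝ} {T : Finset Tri}
    (hT : ∀ t ∈ T, AllIn t (bal 0 R) ∧ TT t (bal 0 s : Set Site)ᶜ) :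
    ∀ t ∈ rotA.mT T, AllIn t (bal 0 R) ∧ TT t (bal 0 s : Set Site)ᶜ := by
  intro t ht
  obtain ⟨t, rfl⟩ := rotA.fT.surjective t
  obtain ⟨h1, h2⟩ := hT t (rotA.mem_mT.1 ht)
  rw [← rot_image_bal, ← rot_image_compl_bal]
  exact ⟨rotA.allIn_iff.2 h1, rotA.tt_iff.2 h2⟩

theorem FDef_card {s R : ℝ} {D H : Finset Site} (h : Dom s R D H) {T U : Finset Tri}
    (hT : ∀ t ∈ T, AllIn t (bal 0 R) ∧ TT t (bal 0 s : Set Site)ᶜ) (hU : ∀ u ∈ U, OutTip D u) :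
    (T ∪ U).card = T.card + U.card := by
  refine Finset.card_union_of_disjoint (Finset.disjoint_left.2 fun t ht hu => ?_)
  obtain ⟨p, -, h1, -⟩ := hU t hu
  exact h1 (h.hR ((hT t ht).1 _))

theorem FDef_tt {s R : ℝ} {D H : Finset Site} (h : Dom s R D H) {T U : Finset Tri}
    (hT : ∀ t ∈ T, AllIn t (bal 0 R) ∧ TT t (bal 0 s : Set Site)ᶜ) (hU : ∀ u ∈ U, OutTip D u) :
    ∀ t ∈ T ∪ U, TT t (D \ bal 0 s : Finset Site) := by
  intro t ht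
  rcases Finset.mem_union.1 ht with ht | ht
  · obtain ⟨h1, i, h2⟩ := hT t ht
    exact ⟨i, Finset.mem_coe.2 (Finset.mem_sdiff.2 ⟨h.hR (h1 i), h2⟩)⟩
  · have h1 := OutTip.allIn h.hR (hU t ht)
    obtain ⟨p, h2, -⟩ := hU t ht
    have h3 := h.gap
    exact ⟨p, Finset.mem_coe.2 (Finset.mem_sdiff.2
      ⟨h2, fun h4 => h1 p (bal_mono _ (by linarith) h4)⟩)⟩

theorem FDef_inside {r : ℝ} {e : Edge} (h : Inside e (bal 0 r)) : Inside (gE e) (bal 0 r) := by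
  rw [← rot_image_bal]
  exact rotA.inside_iff.2 h

theorem FDef_rotIn {r : ℝ} {S : Finset Site} {x : Site} (h : x ∈ bal 0 r) :
    rotA.fS x ∈ rotIn r S ↔ x ∈ S := by
  have h1 : rotA.fS x ∈ bal 0 r := by rw [← rot_bal]; exact rotA.mem_mS.2 h
  have h2 : rotA.fS x ∈ rotIn r S ∩ bal 0 r ↔ x ∈ S ∩ bal 0 r := by
    rw [rotIn_inter]; exact rotA.mem_mS
  simpa only [Finset.mem_inter, h, h1, and_true] using h2

theorem FDef_bd {r : ℝ} {S : Finset Site} {e : Edge} (h : Inside e (bal 0 r)) :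
    gE e ∈ bd (rotIn r S) ↔ e ∈ bd S := by
  have h1 : lft (gE e) = rotA.fS (lft e) := rotA.lft_fE e
  have h2 : rgt (gE e) = rotA.fS (rgt e) := rotA.rgt_fE e
  rw [mem_bd, mem_bd, h1, h2, FDef_rotIn h.1, FDef_rotIn h.2]

theorem FDef_correct {s R : ℝ} {D H : Finset Site} (h : Dom s R D H) {T U : Finset Tri}
    (hU : ∀ u ∈ U, OutTip D u) {ξ₀ ξ₂ : Finset Edge} (h0 : ξ₀ ∈ Om D H (T ∪ U))
    (h2 : ξ₂ ∈ Om D (rotA.mS H) (rotA.mT T ∪ U)) :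
    ∃ ξ₁ ∈ Om D (rotA.mS H) (rotA.mT T ∪ U),
      ∀ e, Inside e (bal 0 (R - 1)) → (e ∈ ξ₁ ↔ e ∈ rotA.mE ξ₀) := by
  have hr : Dom s R D (rotA.mS H) := FDef_dom h
  have hgap := h.gap
  obtain ⟨S, hS⟩ := col2 (ξ₂ ∆ rotA.mE ξ₀) (sconn_compl_bal 0 (R - 1)) (fun t ht => by
    obtain ⟨t, rfl⟩ := rotA.fT.surjective t
    rw [isOdd_symmDiff, rotA.isOdd_iff, (mem_Om.1 h0).2, (mem_Om.1 h2).2, Finset.mem_union,
      Finset.mem_union, rotA.mem_mT] at ht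
    by_cases h3 : rotA.fT t ∈ U
    · exact ⟨0, OutTip.allIn h.hR (hU _ h3) 0⟩
    · have h4 : t ∈ U := by tauto
      rw [← rot_image_compl_bal]
      exact rotA.tt_iff.2 ⟨0, OutTip.allIn h.hR (hU _ h4) 0⟩)
  have hS' : ∀ e, Inside e (bal 0 (R - 1)) →
      (e ∈ ξ₂ ∆ rotA.mE ξ₀ ↔ e ∈ bd (S ∩ bal 0 (R - 1))) := by
    intro e he
    have h3 : lft e ∈ bal 0 (R - 1) := he.1
    have h4 : rgt e ∈ bal 0 (R - 1) := he.2
    rw [hS e (not_touch_iff.2 (by rwa [compl_compl])), mem_bd, mem_bd, Finset.mem_inter,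
      Finset.mem_inter]
    simp only [h3, h4, and_true]
  have hH : rotA.mS H ⊆ bal 0 (R - 1) := hr.hs.trans (bal_mono _ (by linarith))
  have hG : S ∩ bal 0 (R - 1) ∈ Gr D (rotA.mS H) := by
    have hc : ∀ e, Inside e (rotA.mS H) → e ∉ bd (S ∩ bal 0 (R - 1)) := by
      intro e he
      rw [← hS' e ⟨hH he.1, hH he.2⟩, Finset.mem_symmDiff]
      have h3 : e ∉ ξ₂ := fun h3 => (mem_allowed.1 ((mem_Om.1 h2).1 h3)).2 he
      have h4 : e ∉ rotA.mE ξ₀ := fun h4 => by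
        obtain ⟨e, rfl⟩ := rotA.fE.surjective e
        rw [Aut.coe_mS, rotA.inside_iff] at he
        exact (mem_allowed.1 ((mem_Om.1 h0).1 (rotA.mem_mE.1 h4))).2 he
      tauto
    refine mem_Gr.2 ⟨Finset.inter_subset_right.trans
      ((bal_mono _ (by linarith)).trans h.hR), ?_⟩
    by_cases hz : (0 : Site) ∈ S ∩ bal 0 (R - 1)
    · exact Or.inl fun x hx => (Markov_const hc (hr.connH 0 hr.zero x hx)).1 hz
    · exact Or.inr (Finset.disjoint_right.2 fun x hx hx' =>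
        hz ((Markov_const hc (hr.connH 0 hr.zero x hx)).2 hx'))
  refine ⟨_, Om_act h2 hG, fun e he => ?_⟩
  rw [Finset.mem_symmDiff, ← hS' e he, Finset.mem_symmDiff]
  tauto

/-- Both spaces are empty if the number of sources is odd (`even_odd`). Otherwise take `ξ₀`, `ξ₁`
from `Om_nonempty`, correct `ξ₁` by `col2` for `ξ₁ ∆ rotA.mE ξ₀` with the target
`(bal 0 (R - 1))ᶜ`, and map `ξ₀ ∆ bd S` to `ξ₁ ∆ bd (rotIn (R - 1) S)` (`coset`, `rotIn_bijOn`). -/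
theorem rot_couple {s R : ℝ} {D H : Finset Site} (h : Dom s R D H) {T U : Finset Tri}
    (hT : ∀ t ∈ T, AllIn t (bal 0 R) ∧ TT t (bal 0 s : Set Site)ᶜ) (hU : ∀ u ∈ U, OutTip D u) :
    ∃ Θ : Finset Edge → Finset Edge,
      Set.BijOn Θ (Om D H (T ∪ U)) (Om D (rotA.mS H) (rotA.mT T ∪ U)) ∧
      ∀ ξ ∈ Om D H (T ∪ U), ∀ e, Inside e (bal 0 (R - 1)) → (gE e ∈ Θ ξ ↔ e ∈ ξ) := by
  have hr : Dom s R D (rotA.mS H) := FDef_dom h
  have hT' := FDef_rotT hT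
  have hgap := h.gap
  have c1 := FDef_card h hT hU
  have c2 := FDef_card h hT' hU
  rw [Aut.card_mT] at c2
  by_cases he : Even (T.card + U.card)
  swap
  · have e1 : Om D H (T ∪ U) = ∅ := Finset.eq_empty_of_forall_notMem fun ξ hξ =>
      he (c1 ▸ even_odd (mem_Om.1 hξ).2)
    have e2 : Om D (rotA.mS H) (rotA.mT T ∪ U) = ∅ :=
      Finset.eq_empty_of_forall_notMem fun ξ hξ => he (c2 ▸ even_odd (mem_Om.1 hξ).2)
    refine ⟨id, ?_, ?_⟩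
    · rw [e1, e2]; exact Set.bijOn_id _
    · rw [e1]; exact fun ξ hξ => absurd hξ (Finset.notMem_empty _)
  obtain ⟨ξ₀, h0⟩ := Om_nonempty h (FDef_tt h hT hU) (c1 ▸ he)
  obtain ⟨ξ₂, h2⟩ := Om_nonempty hr (FDef_tt h hT' hU) (c2 ▸ he)
  obtain ⟨ξ₁, h1, hag⟩ := FDef_correct h hU h0 h2
  have b0 := coset h.connH h.connO h0
  have b1 := coset hr.connH h.connO h1
  have b2 := rotIn_bijOn (r := R - 1) (D := D) (H := H)
    (h.hs.trans (bal_mono _ (by linarith))) ((bal_mono _ (by linarith)).trans h.hR)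
  have i0 := b0.invOn_invFunOn
  have b3 := Set.BijOn.symm i0.symm b0
  refine ⟨_, (b1.comp b2).comp b3, fun ξ hξ e hin => ?_⟩
  have e1 := i0.2 hξ
  simp only [Function.comp_apply] at e1 ⊢
  generalize Function.invFunOn (fun S => ξ₀ ∆ bd S) (Gr D H) ξ = S at e1 ⊢
  rw [← e1, Finset.mem_symmDiff, Finset.mem_symmDiff, hag _ (FDef_inside hin), FDef_bd hin]
  exact Iff.of_eq (by rw [show (gE e ∈ rotA.mE ξ₀) = (e ∈ ξ₀) from propext (rotA.mem_mE)])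

end Pool.Agent.TAF.U
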