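import Pool.Agent.P.MP_cb4022_pr.U.GRec1

/-! The recursion, part 2 (paper G2). -/

open scoped Classical symmDiff

noncomputable section

namespace Pool.Agent.TAF.U

theorem GRec2_dst (e : Edge) (p : Site) :
    dst (lft e) p ≤ dst (rgt e) p + 1 ∧ dst (rgt e) p ≤ dst (lft e) p + 1 := by
  have h1 := dst_adj (adj_lft_rgt e)
  have h2 := dst_tri (lft e) (rgt e) p
  have h3 := dst_tri (rgt e) (lft e) p
  rw [dst_comm (rgt e) (lft e)] at h3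
  constructor <;> linarith

/-- both ends of a wall of a ball are near the rim -/
theorem GRec2_far {M : ℝ} {e : Edge} (he : e ∈ bd (bal 0 M)) :
    M - 1 < dst (lft e) 0 ∧ M - 1 < dst (rgt e) 0 := by
  rw [mem_bd, mem_bal, mem_bal] at he
  obtain ⟨h1, h2⟩ := GRec2_dst e 0
  by_cases a : dst (lft e) 0 ≤ M
  · have b : ¬ dst (rgt e) 0 ≤ M := fun b => he ⟨fun _ => b, fun _ => a⟩
    rw [not_le] at b
    constructor <;> linarith
  · rw [not_le] at a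
    constructor <;> linarith

theorem GRec2_noTouch {M : ℝ} {X : Set Site} (hX : ∀ x ∈ X, dst x 0 ≤ M - 1) {e : Edge}
    (he : e ∈ bd (bal 0 M)) : ¬ Touch e X := by
  obtain ⟨h1, h2⟩ := GRec2_far he
  rintro (h | h)
  · exact absurd (hX _ h) (not_le.2 h1)
  · exact absurd (hX _ h) (not_le.2 h2)

theorem GRec2_rot_mem {r : ℝ} {x : Site} : rotA.fS x ∈ bal 0 r ↔ x ∈ bal 0 r := by
  conv_lhs => rw [← rot_bal]
  exact rotA.mem_mS

theorem GRec2_rot_dst (x : Site) : dst (gS x) 0 = dst x 0 := rotA.dst_eq x 0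

theorem GRec2_dep_fl {ρ : ℝ} {A : Set Site} {g : Finset Site → ℝ} (hd : Dep A g) :
    Dep A fun c => g (fl ρ c) := by
  intro S S' h
  refine hd _ _ fun x hx => ?_
  simp only [fl, Finset.mem_symmDiff, h x hx]

theorem GRec2_dep_rot {r : ℝ} {g : Finset Site → ℝ} (hd : Dep (bal 0 r) g) :
    Dep (bal 0 r) fun c => g (rotA.mS c) := by
  intro S S' h
  refine hd _ _ fun x hx => ?_
  obtain ⟨y, rfl⟩ := rotA.fS.surjective x
  rw [rotA.mem_mS, rotA.mem_mS]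
  exact h y (Finset.mem_coe.2 (GRec2_rot_mem.1 (Finset.mem_coe.1 hx)))

theorem GRec2_off_fl {ρ : ℝ} {A c c' : Finset Site} (h : Off A c c') :
    Off A (fl ρ c) (fl ρ c') := by
  intro x hx
  simp only [fl, Finset.mem_symmDiff, h x hx]

theorem GRec2_off_rot {r : ℝ} {c c' : Finset Site} (h : Off (bal 0 r) c c') :
    Off (bal 0 r) (rotA.mS c) (rotA.mS c') := by
  intro x hx
  obtain ⟨y, rfl⟩ := rotA.fS.surjective x
  rw [rotA.mem_mS, rotA.mem_mS]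
  exact h y fun hy => hx (GRec2_rot_mem.2 hy)

theorem GRec2_half (ρ : ℝ) : 0 ≤ (1 / 2 : ℝ) ^ ρ := Real.rpow_nonneg (by norm_num) _

/-- `cov_mix` around the origin -/
theorem GRec2_mix {Λ Λ' S₀ S₁ : Finset Site} {j j' : Site → ℝ} {g : Finset Site → ℝ} {ρ : ℝ}
    (hρ : 2 ≤ ρ) (hj : Bd j (1 / 12)) (hj' : Bd j' (1 / 12))
    (h : ∀ x ∈ bal 0 (3 * ρ), x ∈ Λ ∧ x ∈ Λ' ∧ j x = j' x)
    (hd : Dep (bal 0 (2 * ρ)) g) (hg : ∀ S, |g S| ≤ 1) :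
    |cov Λ S₀ j g (hx 0) - cov Λ' S₁ j' g (hx 0)| ≤ 10000 * ρ ^ 2 * (1 / 2) ^ ρ := by
  have h1 := cov_mix (Λ := Λ) (Λ' := Λ') (S₀ := S₀) (S₁ := S₁) (A := bal 0 (2 * ρ)) hj hj'
    (ρ := ρ) (fun x hx => by
      obtain ⟨a, ha, hxa⟩ := hx
      refine h x (mem_bal.2 ?_)
      have := dst_tri x a 0
      have := mem_bal.1 ha
      linarith) (w := 0) (bal_mono 0 (by linarith)) hd hg
  refine h1.trans (mul_le_mul_of_nonneg_right ?_ (GRec2_half ρ))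
  have h2 := card_bal (0 : Site) (r := 2 * ρ) (by linarith)
  nlinarith

section
variable {Λ S₀ : Finset Site} {j : Site → ℝ} {g : Finset Site → ℝ} {ρ n κ : ℝ}

theorem meas_fl (hρ : 2 ≤ ρ) (hg : Meas (bal 0 ρ) g) : Meas (bal 0 ρ) fun c => g (fl ρ c) := by
  intro S S' h
  refine hg _ _ (h.act fun e he => GRec2_noTouch (fun x hx => ?_) he)
  have := mem_bal.1 (Finset.mem_coe.1 hx)
  linarith

theorem meas_rot (hg : Meas (bal 0 ρ) g) : Meas (bal 0 ρ) fun c => g (rotA.mS c) := by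
  refine rotA.meas ?_
  rwa [rot_bal]

/-- Flip `Λ` and its neighbours (`gib_act`, `hx_act`), then `cov_mix` with `A = bal 0 (2 ρ)`. -/
theorem cov_fl (hρ : 2 ≤ ρ) (hΛ : bal 0 (3 * ρ) ⊆ Λ) (hj : Bd j (1 / 12))
    (hd : Dep (bal 0 (2 * ρ)) g) (hg : ∀ S, |g S| ≤ 1) :
    |cov Λ S₀ j (fun c => g (fl ρ c)) (hx 0) - cov Λ S₀ j g (hx 0)| ≤
      10000 * ρ ^ 2 * (1 / 2) ^ ρ := by
  obtain ⟨M, hM⟩ : ∃ M : ℝ, 2 * ρ ≤ M ∧ ∀ x ∈ Λ, dst x 0 ≤ M - 1 := by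
    obtain ⟨M, hM⟩ := (Λ.image fun x => dst x 0).bddAbove
    refine ⟨max (2 * ρ) (M + 1), le_max_left _ _, fun x hx => ?_⟩
    have h1 : dst x 0 ≤ M := hM (Finset.mem_coe.2 (Finset.mem_image_of_mem _ hx))
    have h2 := le_max_right (2 * ρ) (M + 1)
    linarith
  have hY : ∀ e ∈ bd (bal 0 M), Touch e Λ → ew j e = 0 := fun e he ht =>
    absurd ht (GRec2_noTouch (fun x hx => hM.2 x (Finset.mem_coe.1 hx)) he)
  have hx0 : ∀ S, hx 0 (S ∆ bal 0 M) = hx 0 S := hx_act fun e he =>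
    GRec2_noTouch (fun x hx => by
      rw [Set.mem_singleton_iff.1 hx, dst_self]
      linarith [hM.1]) he
  have hgf : ∀ S, g (S ∆ bal 0 M) = g (fl ρ S) := fun S => hd _ _ fun x hx => by
    have a : x ∈ bal 0 (2 * ρ) := Finset.mem_coe.1 hx
    have b : x ∈ bal 0 M := bal_mono 0 hM.1 a
    simp only [fl, Finset.mem_symmDiff, a, b]
  have e : cov Λ S₀ j (fun c => g (fl ρ c)) (hx 0) = cov Λ (S₀ ∆ bal 0 M) j g (hx 0) := by
    simp only [cov, gib_act hY, hx0, hgf]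
  rw [e]
  exact GRec2_mix hρ hj hj (fun x hx => ⟨hΛ hx, hΛ hx, rfl⟩) hd hg

/-- `gib_aut`, `Aut.hx_eq`, `cov_mix` -/
theorem cov_rot (hρ : 2 ≤ ρ) (hΛ : bal 0 (3 * ρ) ⊆ Λ) (hj : Bd j (1 / 12))
    (hc : ∀ x ∈ bal 0 (3 * ρ), j x = j 0) (hd : Dep (bal 0 (2 * ρ)) g) (hg : ∀ S, |g S| ≤ 1) :
    |cov Λ S₀ j (fun c => g (rotA.mS c)) (hx 0) - cov Λ S₀ j g (hx 0)| ≤
      10000 * ρ ^ 2 * (1 / 2) ^ ρ := by
  have hx0 : ∀ S, hx 0 (rotA.mS S) = hx 0 S := fun S => rotA.hx_eq 0 S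
  have e : cov Λ S₀ j (fun c => g (rotA.mS c)) (hx 0) =
      cov (rotA.mS Λ) (rotA.mS S₀) (fun x => j (rotA.fS.symm x)) g (hx 0) := by
    simp only [cov, gib_aut, hx0, Equiv.symm_apply_apply]
  rw [e]
  refine GRec2_mix hρ (fun x => hj _) hj (fun x hx => ?_) hd hg
  obtain ⟨y, rfl⟩ := rotA.fS.surjective x
  have hy := GRec2_rot_mem.1 hx
  refine ⟨rotA.mem_mS.2 (hΛ hy), hΛ hx, ?_⟩
  rw [Equiv.symm_apply_apply, hc _ hy, hc _ hx]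

/-- split `g S = (g S - g (S \ bal 0 ρ)) + g (S \ bal 0 ρ)`; `CB.scale`, `cov_far` -/
theorem cov_osc (hj : Bd j (1 / 12)) (hn : CB Λ S₀ j 0 ρ n) (hm : Meas (bal 0 ρ) g)
    (hg : ∀ S, |g S| ≤ 1) (ho : ∀ c c', Off (bal 0 ρ) c c' → |g c - g c'| ≤ κ) :
    |cov Λ S₀ j g (hx 0)| ≤ κ * n + 4000 * (1 / 2) ^ ρ := by
  have hs : ∀ S S' : Finset Site, (∀ x ∉ bal 0 ρ, x ∈ S ↔ x ∈ S') →
      S \ bal 0 ρ = S' \ bal 0 ρ := fun S S' h => by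
    ext x
    simp only [Finset.mem_sdiff]
    exact ⟨fun a => ⟨(h x a.2).1 a.1, a.2⟩, fun a => ⟨(h x a.2).2 a.1, a.2⟩⟩
  have e : cov Λ S₀ j g (hx 0) = cov Λ S₀ j (fun S => g S - g (S \ bal 0 ρ)) (hx 0) +
      cov Λ S₀ j (fun S => g (S \ bal 0 ρ)) (hx 0) := by
    rw [← cov_add]
    exact cov_congr fun S _ => by ring
  have h1 : |cov Λ S₀ j (fun S => g S - g (S \ bal 0 ρ)) (hx 0)| ≤ κ * n := by
    refine hn.scale (fun S S' h => ?_) fun S => ho _ _ fun x hx => ?_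
    · simp only [hm S S' h, hs S S' h.1]
    · simp only [Finset.mem_sdiff, hx, not_false_eq_true, and_true]
  have h2 : |cov Λ S₀ j (fun S => g (S \ bal 0 ρ)) (hx 0)| ≤ 4000 * (1 / 2) ^ ρ := by
    refine cov_far hj (fun S S' h => ?_) fun S => hg _
    simp only [hs S S' fun x hx => h x fun a => hx (Finset.mem_coe.1 a)]
  rw [e]
  exact (abs_add_le _ _).trans (add_le_add h1 h2)

end

/-- the hybrid coupling -/
theorem GRec2_hyb {Λ S₀ : Finset Site} {j : Site → ℝ} {F : Finset Site → ℝ} {ρ lam b a : ℝ}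
    (hρ : 2 ≤ ρ) (hl : 100 ≤ lam) (hb : b ≤ 1 / 12) (hΛ : bal 0 (2 * (lam * ρ)) ⊆ Λ)
    (hj : Bd j b) (hL : Lip j (1 / ρ)) (hN : NB b (ρ / 2) a) (hF : Meas (bal 0 (lam * ρ)) F)
    (f1 : ∀ S, |F S| ≤ 1) : ∃ u : ℝ → ℝ,
      (∀ x, 4 * ρ + 1 - 1 < dst x 0 → dst x 0 ≤ lam / 10 * (4 * ρ + 1) + 1 →
        j x * (1 - u (dst x 0)) = 0) ∧
      ∀ c c', Off (bal 0 ρ) c c' →
        |dI Λ S₀ j F ρ c c' - dI Λ S₀ (fun x => j x * (1 - u (dst x 0))) F ρ c c'| ≤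
          2 * (80 * b * lam ^ 2 * ρ ^ 2 * a) := by
  obtain ⟨u, u1, u2, u3, u4⟩ := exists_plateau 0 (4 * ρ) (lam * ρ / 2 + 1) (w := ρ) (by linarith)
  refine ⟨u, fun x h1 h2 => ?_, fun c c' h => ?_⟩
  · rw [u3 _ (by linarith) (by nlinarith), sub_self, mul_zero]
  · have c3 : ∀ x : Site, u (dst x 0) ≠ 0 → 3 * ρ < dst x 0 ∧ dst x 0 < lam * ρ / 2 + 1 + ρ :=
      fun x hx => ⟨by linarith [(u4 _ hx).1], (u4 _ hx).2⟩
    have h1 := gI_interp (S₀ := S₀) hρ hl hb hΛ hj hL hN hF f1 (χ := fun x => u (dst x 0))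
      (fun x => u1 _) u2 c3 h
    have h2 := gI_interp (S₀ := S₀) hρ hl hb hΛ hj hL hN hF f1 (χ := fun x => u (dst x 0))
      (fun x => u1 _) u2 c3 (GRec2_off_fl (ρ := ρ) h)
    rw [abs_le] at h1 h2 ⊢
    simp only [dI]
    constructor <;> linarith [h1.1, h1.2, h2.1, h2.2]

theorem GRec2_rad {ρ lam : ℝ} (hρ : 2 ≤ ρ) (hl : 100 ≤ lam) :
    4 * ρ + 1 ≤ lam / 10 * (4 * ρ + 1) ∧ lam / 10 * (4 * ρ + 1) ≤ lam * ρ ∧ ρ ≤ lam * ρ ∧
      3 * ρ ≤ 2 * (lam * ρ) ∧ lam * ρ ≤ 2 * (lam * ρ) := by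
  refine ⟨?_, ?_, ?_, ?_, ?_⟩ <;> nlinarith

theorem GRec2_meas_add {A : Finset Site} {f g : Finset Site → ℝ} (hf : Meas A f) (hg : Meas A g) :
    Meas A fun c => f c + g c := fun S S' h => by
  simp only [hf S S' h, hg S S' h]

theorem GRec2_meas_mul {A : Finset Site} {f : Finset Site → ℝ} (k : ℝ) (hf : Meas A f) :
    Meas A fun c => k * f c := fun S S' h => by
  simp only [hf S S' h]

/-- `s = 4 ρ + 1`, `R = (lam / 10) * s`, `χ` from `exists_plateau 0 (4 ρ) (lam ρ / 2 + 1)` with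
`w = ρ`; average `gI` over the flip; `cov_gI`, `cov_fl`, `gI_interp` (twice), `dI_le`, `cov_osc` -/
theorem rec0_of (h : KF0) : Rec0 := by
  obtain ⟨C, hC, h⟩ := h
  refine ⟨max 1 (100 * C), 6000, le_max_left _ _, by norm_num, fun lam hl => ?_⟩
  obtain ⟨s₀, h⟩ := h (lam / 10) (by linarith)
  refine ⟨max 2 s₀, fun ρ b a n Λ S₀ j hρ₀ hb hΛ hj hL hN hn F hF f1 => ?_⟩
  have hρ : 2 ≤ ρ := (le_max_left _ _).trans hρ₀
  have hs : s₀ ≤ 4 * ρ + 1 := by linarith [(le_max_right _ _).trans hρ₀]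
  obtain ⟨r1, r2, r3, r4, r5⟩ := GRec2_rad hρ hl
  obtain ⟨u, u1, u2⟩ := GRec2_hyb (S₀ := S₀) hρ hl hb hΛ hj hL hN hF f1
  have hj' : Bd j (1 / 12) := hj.mono hb
  have hn0 : 0 ≤ n := hn.nonneg
  have hm : Meas (bal 0 ρ) (gI Λ S₀ j F ρ) := gI_meas hρ (hF.mono (bal_mono 0 r3))
  have g1 : ∀ c, |gI Λ S₀ j F ρ c| ≤ 1 := gI_abs f1
  have hΛ3 : bal 0 (3 * ρ) ⊆ Λ := (bal_mono 0 r4).trans hΛ
  have e0 : cov Λ S₀ j F (hx 0) = cov Λ S₀ j (gI Λ S₀ j F ρ) (hx 0) :=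
    cov_gI hρ ((bal_mono 0 (by linarith)).trans hΛ3)
  have e1 := cov_fl (S₀ := S₀) hρ hΛ3 hj' (gI_dep (Λ := Λ) (S₀ := S₀) (j := j) (F := F)) g1
  have e2 := cov_osc (S₀ := S₀)
    (g := fun c => 1 / 2 * (gI Λ S₀ j F ρ c + gI Λ S₀ j F ρ (fl ρ c)))
    (κ := C / (lam / 10) ^ 2 + 80 * b * lam ^ 2 * ρ ^ 2 * a) hj' hn
    (GRec2_meas_mul _ (GRec2_meas_add hm (meas_fl hρ hm)))
    (fun S => by
      have a1 := abs_le.1 (g1 S)
      have a2 := abs_le.1 (g1 (fl ρ S))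
      rw [abs_le]
      constructor <;> linarith [a1.1, a1.2, a2.1, a2.2])
    (fun c c' ho => by
      have a1 := abs_le.1 (u2 c c' ho)
      have a2 := abs_le.1 (dI_le (S₀ := S₀) (j := fun x => j x * (1 - u (dst x 0))) hρ
        (by linarith) r1 ((bal_mono 0 (r2.trans r5)).trans hΛ) u1 ho (hF.mono (bal_mono 0 r2)) f1
        fun X X' o hH => h _ X X' o F hs hH)
      have a3 : 1 / 2 * (gI Λ S₀ j F ρ c + gI Λ S₀ j F ρ (fl ρ c)) -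
          1 / 2 * (gI Λ S₀ j F ρ c' + gI Λ S₀ j F ρ (fl ρ c')) = 1 / 2 * dI Λ S₀ j F ρ c c' := by
        simp only [dI]
        ring
      rw [a3, abs_le]
      constructor <;> linarith [a1.1, a1.2, a2.1, a2.2])
  rw [cov_mul, cov_add] at e2
  have hk : C / (lam / 10) ^ 2 ≤ max 1 (100 * C) / lam ^ 2 := by
    have : C / (lam / 10) ^ 2 = 100 * C / lam ^ 2 := by
      field_simp
      norm_num
    rw [this]
    exact div_le_div_of_nonneg_right (le_max_right _ _) (by positivity)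
  have hk' := mul_le_mul_of_nonneg_right hk hn0
  have hq : 4 * (1 / 2 : ℝ) ^ ρ ≤ ρ ^ 2 * (1 / 2) ^ ρ :=
    mul_le_mul_of_nonneg_right (by nlinarith) (GRec2_half ρ)
  rw [e0]
  rw [abs_le] at e1 e2 ⊢
  constructor <;> nlinarith [e1.1, e1.2, e2.1, e2.2]

/-- the same with the average over the flip and the rotations (`cov_rot`, `dI_rot_le`) -/
theorem rec1_of (h : KF1) : Rec1 := by
  refine ⟨16000, by norm_num, fun η hη => ?_⟩
  obtain ⟨l₀, h⟩ := h (η / 100) (by positivity)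
  refine ⟨max 100 (10 * l₀), fun lam hl₀ => ?_⟩
  have hl : 100 ≤ lam := (le_max_left _ _).trans hl₀
  obtain ⟨s₀, h⟩ := h (lam / 10) (by linarith [(le_max_right _ _).trans hl₀])
  refine ⟨max 2 s₀, fun ρ b a n Λ S₀ j hρ₀ hb hΛ hj hL hc hN hn F hF f1 => ?_⟩
  have hρ : 2 ≤ ρ := (le_max_left _ _).trans hρ₀
  have hs : s₀ ≤ 4 * ρ + 1 := by linarith [(le_max_right _ _).trans hρ₀]
  obtain ⟨r1, r2, r3, r4, r5⟩ := GRec2_rad hρ hl
  obtain ⟨u, u1, u2⟩ := GRec2_hyb (S₀ := S₀) hρ hl hb hΛ hj hL hN hF f1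
  have hj' : Bd j (1 / 12) := hj.mono hb
  have hn0 : 0 ≤ n := hn.nonneg
  have hm : Meas (bal 0 ρ) (gI Λ S₀ j F ρ) := gI_meas hρ (hF.mono (bal_mono 0 r3))
  have hm' := meas_fl hρ hm
  have g1 : ∀ c, |gI Λ S₀ j F ρ c| ≤ 1 := gI_abs f1
  have hΛ3 : bal 0 (3 * ρ) ⊆ Λ := (bal_mono 0 r4).trans hΛ
  have hc3 : ∀ x ∈ bal 0 (3 * ρ), j x = j 0 := fun x hx => hc x (bal_mono 0 (by linarith) hx)
  have hd : Dep (bal 0 (2 * ρ)) (gI Λ S₀ j F ρ) := gI_dep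
  have hd' := GRec2_dep_fl (ρ := ρ) hd
  have e0 : cov Λ S₀ j F (hx 0) = cov Λ S₀ j (gI Λ S₀ j F ρ) (hx 0) :=
    cov_gI hρ ((bal_mono 0 (by linarith)).trans hΛ3)
  have e1 := cov_fl (S₀ := S₀) hρ hΛ3 hj' hd g1
  have e3 := cov_rot (S₀ := S₀) hρ hΛ3 hj' hc3 hd g1
  have e4 := cov_rot (S₀ := S₀) hρ hΛ3 hj' hc3 hd' fun S => g1 _
  have e5 := cov_rot (S₀ := S₀) hρ hΛ3 hj' hc3 (GRec2_dep_rot hd) fun S => g1 _
  have e6 := cov_rot (S₀ := S₀) hρ hΛ3 hj' hc3 (GRec2_dep_rot hd') fun S => g1 _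
  have hr : ∀ x ∈ bal 0 (4 * ρ + 1 + 1),
      j (gS x) * (1 - u (dst (gS x) 0)) = j x * (1 - u (dst x 0)) := fun x hx => by
    have a1 : x ∈ bal 0 (7 * ρ) := bal_mono 0 (by linarith) hx
    have a2 : gS x ∈ bal 0 (7 * ρ) := GRec2_rot_mem.2 a1
    rw [GRec2_rot_dst, hc _ a1, hc _ a2]
  have e2 := cov_osc (S₀ := S₀)
    (g := fun c => 1 / 6 * (gI Λ S₀ j F ρ c + gI Λ S₀ j F ρ (fl ρ c) +
      (gI Λ S₀ j F ρ (rotA.mS c) + gI Λ S₀ j F ρ (fl ρ (rotA.mS c))) +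
      (gI Λ S₀ j F ρ (rotA.mS (rotA.mS c)) + gI Λ S₀ j F ρ (fl ρ (rotA.mS (rotA.mS c))))))
    (κ := η / lam ^ 2 + 80 * b * lam ^ 2 * ρ ^ 2 * a) hj' hn
    (GRec2_meas_mul _ (GRec2_meas_add (GRec2_meas_add (GRec2_meas_add hm hm')
      (GRec2_meas_add (meas_rot hm) (meas_rot hm')))
      (GRec2_meas_add (meas_rot (meas_rot hm)) (meas_rot (meas_rot hm')))))
    (fun S => by
      have a1 := abs_le.1 (g1 S)
      have a2 := abs_le.1 (g1 (fl ρ S))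
      have a3 := abs_le.1 (g1 (rotA.mS S))
      have a4 := abs_le.1 (g1 (fl ρ (rotA.mS S)))
      have a5 := abs_le.1 (g1 (rotA.mS (rotA.mS S)))
      have a6 := abs_le.1 (g1 (fl ρ (rotA.mS (rotA.mS S))))
      rw [abs_le]
      constructor <;>
        linarith [a1.1, a1.2, a2.1, a2.2, a3.1, a3.2, a4.1, a4.2, a5.1, a5.2, a6.1, a6.2])
    (fun c c' ho => by
      have a1 := abs_le.1 (u2 c c' ho)
      have a4 := abs_le.1 (u2 _ _ (GRec2_off_rot ho))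
      have a5 := abs_le.1 (u2 _ _ (GRec2_off_rot (GRec2_off_rot ho)))
      have a2 := abs_le.1 (dI_rot_le (S₀ := S₀) (j := fun x => j x * (1 - u (dst x 0))) hρ
        (by linarith) r1 ((bal_mono 0 (r2.trans r5)).trans hΛ) u1 hr ho
        (hF.mono (bal_mono 0 r2)) f1 fun X X' o hH => h _ X X' o F hs hH)
      have a3 : 1 / 6 * (gI Λ S₀ j F ρ c + gI Λ S₀ j F ρ (fl ρ c) +
          (gI Λ S₀ j F ρ (rotA.mS c) + gI Λ S₀ j F ρ (fl ρ (rotA.mS c))) +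
          (gI Λ S₀ j F ρ (rotA.mS (rotA.mS c)) + gI Λ S₀ j F ρ (fl ρ (rotA.mS (rotA.mS c))))) -
          1 / 6 * (gI Λ S₀ j F ρ c' + gI Λ S₀ j F ρ (fl ρ c') +
          (gI Λ S₀ j F ρ (rotA.mS c') + gI Λ S₀ j F ρ (fl ρ (rotA.mS c'))) +
          (gI Λ S₀ j F ρ (rotA.mS (rotA.mS c')) + gI Λ S₀ j F ρ (fl ρ (rotA.mS (rotA.mS c'))))) =
          1 / 6 * (dI Λ S₀ j F ρ c c' + dI Λ S₀ j F ρ (rotA.mS c) (rotA.mS c') +
            dI Λ S₀ j F ρ (rotA.mS (rotA.mS c)) (rotA.mS (rotA.mS c'))) := by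
        simp only [dI]
        ring
      have a6 : η / 100 / (lam / 10) ^ 2 = η / lam ^ 2 := by
        field_simp
        norm_num
      have a7 : 0 ≤ η / lam ^ 2 := by positivity
      rw [a6] at a2
      rw [a3, abs_le]
      constructor <;> linarith [a1.1, a1.2, a2.1, a2.2, a4.1, a4.2, a5.1, a5.2])
  rw [cov_mul, cov_add, cov_add, cov_add, cov_add, cov_add] at e2
  have hq : 4 * (1 / 2 : ℝ) ^ ρ ≤ ρ ^ 2 * (1 / 2) ^ ρ :=
    mul_le_mul_of_nonneg_right (by nlinarith) (GRec2_half ρ)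
  rw [e0]
  rw [abs_le] at e1 e2 e3 e4 e5 e6 ⊢
  constructor <;>
    nlinarith [e1.1, e1.2, e2.1, e2.2, e3.1, e3.2, e4.1, e4.2, e5.1, e5.2, e6.1, e6.2]

end Pool.Agent.TAF.U
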