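import Pool.Agent.P.MP_cb4022_pr.U.Mix

/-! Theorem G from the recursions (paper G3). -/

open scoped Classical symmDiff

noncomputable section

namespace Pool.Agent.TAF.U

/-- `j' x = j 0 + (j x - j 0) * ψ x` with `ψ = 0` on `bal 0 (7 r)`, `ψ = 1` off `bal 0 (14 r)` -/
theorem exists_flat {j : Site → ℝ} {b L r : ℝ} (hr : 0 < r) (hL0 : 0 ≤ L) (hb : Bd j b)
    (hL : Lip j L) : ∃ j' : Site → ℝ, Bd j' b ∧ Lip j' (3 * L) ∧ (∀ x ∈ bal 0 (7 * r), j' x = j' 0) ∧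
      (∀ x ∉ bal 0 (14 * r), j' x = j x) ∧ ∀ x ∈ bal 0 (14 * r), |j x - j' x| ≤ 14 * r * L := by
  have h7 : 0 < 7 * r := by linarith
  let ψ : Site → ℝ := fun x => min 1 (max 0 ((dst x 0 - 7 * r) / (7 * r)))
  have ψ0 : ∀ x, 0 ≤ ψ x := fun x => le_min zero_le_one (le_max_left _ _)
  have ψ1 : ∀ x, ψ x ≤ 1 := fun x => min_le_left _ _
  have ψz : ∀ x, dst x 0 ≤ 7 * r → ψ x = 0 := fun x hx => by
    simp only [ψ]
    rw [max_eq_left (div_nonpos_of_nonpos_of_nonneg (by linarith) h7.le), min_eq_right zero_le_one]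
  have ψo : ∀ x, 14 * r < dst x 0 → ψ x = 1 := fun x hx =>
    min_eq_left (le_max_of_le_right (by rw [le_div_iff₀ h7]; linarith))
  have ψL : ∀ x y, |ψ x - ψ y| ≤ dst x y / (7 * r) := fun x y => by
    refine (abs_min_sub_min_le_max _ _ _ _).trans (max_le (by
      rw [sub_self, abs_zero]; exact div_nonneg (dst_nonneg _ _) h7.le) ?_)
    refine (abs_max_sub_max_le_max _ _ _ _).trans (max_le (by
      rw [sub_self, abs_zero]; exact div_nonneg (dst_nonneg _ _) h7.le) ?_)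
    rw [← sub_div, abs_div, abs_of_pos h7]
    refine div_le_div_of_nonneg_right (abs_le.2 ⟨?_, ?_⟩) h7.le
    · linarith [dst_tri y x 0, dst_comm x y]
    · linarith [dst_tri x y 0]
  have near : ∀ y, dst y 0 ≤ 14 * r → |j y - j 0| ≤ 14 * r * L := fun y hy =>
    (hL y 0).trans (by nlinarith)
  have key : ∀ x y, dst y 0 ≤ 14 * r →
      |j 0 + (j x - j 0) * ψ x - (j 0 + (j y - j 0) * ψ y)| ≤ 3 * L * dst x y := fun x y hy => by
    have e : j 0 + (j x - j 0) * ψ x - (j 0 + (j y - j 0) * ψ y) =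
        (j x - j y) * ψ x + (j y - j 0) * (ψ x - ψ y) := by ring
    rw [e]
    refine (abs_add_le _ _).trans ?_
    rw [abs_mul, abs_mul, abs_of_nonneg (ψ0 x)]
    have a1 : |j x - j y| * ψ x ≤ L * dst x y :=
      (mul_le_of_le_one_right (abs_nonneg _) (ψ1 x)).trans (hL x y)
    have a2 : |j y - j 0| * |ψ x - ψ y| ≤ 14 * r * L * (dst x y / (7 * r)) :=
      mul_le_mul (near y hy) (ψL x y) (abs_nonneg _) (by positivity)
    have a3 : 14 * r * L * (dst x y / (7 * r)) = 2 * (L * dst x y) := by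
      field_simp
      ring
    linarith
  refine ⟨fun x => j 0 + (j x - j 0) * ψ x, fun x => ?_, fun x y => ?_, fun x hx => ?_,
    fun x hx => ?_, fun x hx => ?_⟩
  · obtain ⟨a1, a2⟩ := abs_le.1 (hb x)
    obtain ⟨a3, a4⟩ := abs_le.1 (hb 0)
    have := ψ0 x
    have := ψ1 x
    refine abs_le.2 ⟨?_, ?_⟩ <;> nlinarith
  · by_cases hy : dst y 0 ≤ 14 * r
    · exact key x y hy
    by_cases hx : dst x 0 ≤ 14 * r
    · rw [abs_sub_comm, dst_comm]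
      exact key y x hx
    · simp only [ψo x (not_le.1 hx), ψo y (not_le.1 hy)]
      have e : j 0 + (j x - j 0) * 1 - (j 0 + (j y - j 0) * 1) = j x - j y := by ring
      rw [e]
      have := mul_nonneg hL0 (dst_nonneg x y)
      linarith [hL x y]
  · simp only [ψz x (mem_bal.1 hx), sub_self, zero_mul, mul_zero]
  · simp only [ψo x (not_le.1 fun h => hx (mem_bal.2 h))]
    ring
  · have e : j x - (j 0 + (j x - j 0) * ψ x) = (j x - j 0) * (1 - ψ x) := by ring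
    rw [e, abs_mul, abs_of_nonneg (sub_nonneg.2 (ψ1 x))]
    exact (mul_le_of_le_one_right (abs_nonneg _) (by linarith [ψ0 x])).trans
      (near x (mem_bal.1 hx))

theorem cb_iter {Λ S₀ : Finset Site} {j : Site → ℝ} {ρ e : ℕ → ℝ} {α x : ℝ} {m n : ℕ}
    (hmn : m ≤ n) (h0 : CB Λ S₀ j 0 (ρ m) x)
    (h : ∀ k, m ≤ k → k < n → ∀ y, CB Λ S₀ j 0 (ρ k) y → CB Λ S₀ j 0 (ρ (k + 1)) (α * y + e k)) :
    CB Λ S₀ j 0 (ρ n) (α ^ (n - m) * x + ∑ k ∈ Finset.Ico m n, α ^ (n - 1 - k) * e k) := by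
  induction n, hmn using Nat.le_induction with
  | base => simpa using h0
  | succ n hmn ih =>
    have h1 := h n hmn (Nat.lt_succ_self n) _ (ih fun k h1 h2 => h k h1 (by omega))
    have e1 : α ^ (n + 1 - m) * x + ∑ k ∈ Finset.Ico m (n + 1), α ^ (n + 1 - 1 - k) * e k =
        α * (α ^ (n - m) * x + ∑ k ∈ Finset.Ico m n, α ^ (n - 1 - k) * e k) + e n := by
      rw [Finset.sum_Ico_succ_top hmn, mul_add, Finset.mul_sum,
        show n + 1 - m = n - m + 1 by omega, show n + 1 - 1 - n = 0 by omega, pow_zero, one_mul,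
        pow_succ', mul_assoc, add_assoc]
      congr 2
      refine Finset.sum_congr rfl fun k hk => ?_
      have := (Finset.mem_Ico.1 hk).2
      rw [show n + 1 - 1 - k = n - 1 - k + 1 by omega, pow_succ', mul_assoc]
    rw [e1]
    exact h1

theorem ThmG_decay (n : ℕ) : ∃ C : ℝ, 0 ≤ C ∧ ∀ x : ℝ, 0 ≤ x → x ^ n * (1 / 2) ^ x ≤ C := by
  have hl : 0 < Real.log 2 := Real.log_pos one_lt_two
  refine ⟨n.factorial / Real.log 2 ^ n, by positivity, fun x hx => ?_⟩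
  have h1 := Real.pow_div_factorial_le_exp (x * Real.log 2) (by positivity) n
  have h2 : (1 / 2 : ℝ) ^ x = (Real.exp (x * Real.log 2))⁻¹ := by
    rw [one_div, Real.inv_rpow zero_le_two, Real.rpow_def_of_pos two_pos, mul_comm]
  have h3 : (0 : ℝ) < n.factorial := by positivity
  rw [h2, ← div_eq_mul_inv, div_le_div_iff₀ (Real.exp_pos _) (by positivity), ← mul_pow]
  rw [div_le_iff₀ h3] at h1
  linarith

theorem err_sum {M lam ρ₀ : ℝ} (hM : 0 ≤ M) (hl : 2 ≤ lam) (hρ : 1 ≤ ρ₀) : ∃ E : ℝ, ∀ n : ℕ,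
    ∑ k ∈ Finset.range n, M ^ (k + 1) * ((ρ₀ * lam ^ k) ^ 2 * (1 / 2) ^ (ρ₀ * lam ^ k)) ≤ E := by
  obtain ⟨N, hN⟩ := pow_unbounded_of_one_lt (2 * M) (one_lt_two (α := ℝ))
  obtain ⟨C, hC0, hC⟩ := ThmG_decay (N + 2)
  refine ⟨M * C * 2, fun n => ?_⟩
  have key : ∀ k : ℕ, M ^ (k + 1) * ((ρ₀ * lam ^ k) ^ 2 * (1 / 2) ^ (ρ₀ * lam ^ k)) ≤
      M * C * (1 / 2) ^ k := by
    intro k
    have a1 : (2 : ℝ) ^ k ≤ ρ₀ * lam ^ k :=
      (pow_le_pow_left₀ zero_le_two hl k).trans (le_mul_of_one_le_left (by positivity) hρ)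
    generalize ρ₀ * lam ^ k = x at a1
    have hx : 0 < x := lt_of_lt_of_le (by positivity) a1
    have a2 : (2 * M) ^ k ≤ x ^ N := by
      calc (2 * M) ^ k ≤ (2 ^ N) ^ k := pow_le_pow_left₀ (by positivity) hN.le k
        _ = (2 ^ k) ^ N := by rw [← pow_mul, ← pow_mul, mul_comm]
        _ ≤ x ^ N := pow_le_pow_left₀ (by positivity) a1 N
    have a3 : 0 ≤ x ^ 2 * (1 / 2 : ℝ) ^ x := by positivity
    have a4 : M ^ k = (2 * M) ^ k * (1 / 2) ^ k := by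
      rw [← mul_pow]
      congr 1
      ring
    calc M ^ (k + 1) * (x ^ 2 * (1 / 2) ^ x)
        = M * ((2 * M) ^ k * (x ^ 2 * (1 / 2) ^ x)) * (1 / 2) ^ k := by rw [pow_succ, a4]; ring
      _ ≤ M * (x ^ N * (x ^ 2 * (1 / 2) ^ x)) * (1 / 2) ^ k := by gcongr
      _ = M * (x ^ (N + 2) * (1 / 2) ^ x) * (1 / 2) ^ k := by ring
      _ ≤ M * C * (1 / 2) ^ k := by
        have := hC x hx.le
        gcongr
  refine (Finset.sum_le_sum fun k _ => key k).trans ?_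
  rw [← Finset.mul_sum]
  exact mul_le_mul_of_nonneg_left (sum_geometric_two_le n) (by positivity)

/-- the bookkeeping of the constants -/
theorem ThmG_arith {P Q θ M E c T : ℝ} {e : ℕ → ℝ} {K K' : ℕ} (hP : 1 ≤ P) (hQ : P ^ 5 * Q = 1)
    (hθ : 0 ≤ θ) (hM : M * θ = P ^ 5) (he : ∀ k, 0 ≤ e k)
    (hE : ∀ n, ∑ k ∈ Finset.range n, M ^ (k + 1) * e k ≤ E) (hM0 : 0 ≤ M)
    (hT : T ≤ c * (Q * θ) ^ K') (hc : 0 ≤ c) (h1 : K' ≤ K) (h2 : K ≤ 6 * K' + 5) :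
    (P * θ) ^ (K - K') * ((Q * θ) ^ (K' - 0) * 12 +
        ∑ k ∈ Finset.Ico 0 K', (Q * θ) ^ (K' - 1 - k) * e k + T) +
      ∑ k ∈ Finset.Ico K' K, (P * θ) ^ (K - 1 - k) * e k ≤ P ^ 5 * (12 + 2 * E + c) * θ ^ K := by
  have hP0 : 0 < P := by linarith
  have hQ0 : 0 ≤ Q := (pos_of_mul_pos_right (hQ ▸ one_pos : 0 < P ^ 5 * Q) (by positivity)).le
  have hP5 : 1 ≤ P ^ 5 := one_le_pow₀ hP
  obtain ⟨D, rfl⟩ := Nat.exists_eq_add_of_le h1
  have hD : P ^ D ≤ P ^ 5 * (P ^ 5) ^ K' := by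
    rw [← pow_mul, ← pow_add]
    exact pow_le_pow_right₀ hP (by omega)
  have hQk : ∀ m : ℕ, (P ^ 5) ^ m * Q ^ m = 1 := fun m => by rw [← mul_pow, hQ, one_pow]
  have t1 : (P * θ) ^ D * (Q * θ) ^ K' ≤ P ^ 5 * θ ^ (K' + D) := by
    calc (P * θ) ^ D * (Q * θ) ^ K' = P ^ D * (Q ^ K' * θ ^ (K' + D)) := by ring
      _ ≤ P ^ 5 * (P ^ 5) ^ K' * (Q ^ K' * θ ^ (K' + D)) := by gcongr
      _ = P ^ 5 * ((P ^ 5) ^ K' * Q ^ K') * θ ^ (K' + D) := by ring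
      _ = P ^ 5 * θ ^ (K' + D) := by rw [hQk, mul_one]
  have t2 : (P * θ) ^ D * ∑ k ∈ Finset.Ico 0 K', (Q * θ) ^ (K' - 1 - k) * e k ≤
      P ^ 5 * E * θ ^ (K' + D) := by
    have a1 : ∀ k ∈ Finset.Ico 0 K', (P * θ) ^ D * ((Q * θ) ^ (K' - 1 - k) * e k) ≤
        P ^ 5 * θ ^ (K' + D) * (M ^ (k + 1) * e k) := by
      intro k hk
      obtain ⟨m, rfl⟩ := Nat.exists_eq_add_of_lt (Finset.mem_Ico.1 hk).2
      have := he k
      rw [show k + m + 1 - 1 - k = m by omega]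
      calc (P * θ) ^ D * ((Q * θ) ^ m * e k) = P ^ D * (Q ^ m * θ ^ (m + D) * e k) := by ring
        _ ≤ P ^ 5 * (P ^ 5) ^ (k + m + 1) * (Q ^ m * θ ^ (m + D) * e k) := by gcongr
        _ = P ^ 5 * (P ^ 5) ^ (k + 1) * ((P ^ 5) ^ m * Q ^ m) * (θ ^ (m + D) * e k) := by
          generalize P ^ 5 = R
          ring
        _ = P ^ 5 * (M * θ) ^ (k + 1) * (θ ^ (m + D) * e k) := by rw [hQk, mul_one, hM]
        _ = P ^ 5 * θ ^ (k + m + 1 + D) * (M ^ (k + 1) * e k) := by ring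
    rw [Finset.mul_sum]
    refine (Finset.sum_le_sum a1).trans ?_
    rw [← Finset.mul_sum, ← Finset.range_eq_Ico]
    calc _ ≤ P ^ 5 * θ ^ (K' + D) * E := mul_le_mul_of_nonneg_left (hE K') (by positivity)
      _ = _ := by ring
  have t3 : (P * θ) ^ D * T ≤ P ^ 5 * c * θ ^ (K' + D) := by
    calc (P * θ) ^ D * T ≤ (P * θ) ^ D * (c * (Q * θ) ^ K') := by gcongr
      _ = c * ((P * θ) ^ D * (Q * θ) ^ K') := by ring
      _ ≤ c * (P ^ 5 * θ ^ (K' + D)) := by gcongr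
      _ = _ := by ring
  have t4 : ∑ k ∈ Finset.Ico K' (K' + D), (P * θ) ^ (K' + D - 1 - k) * e k ≤
      P ^ 5 * E * θ ^ (K' + D) := by
    have a1 : ∀ k ∈ Finset.Ico K' (K' + D), (P * θ) ^ (K' + D - 1 - k) * e k ≤
        θ ^ (K' + D) * (M ^ (k + 1) * e k) := by
      intro k hk
      obtain ⟨b1, b2⟩ := Finset.mem_Ico.1 hk
      obtain ⟨m, hm⟩ := Nat.exists_eq_add_of_lt b2
      have := he k
      have b3 : P ^ m ≤ (P ^ 5) ^ (k + 1) := by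
        rw [← pow_mul]
        exact pow_le_pow_right₀ hP (by omega)
      rw [hm, show k + m + 1 - 1 - k = m by omega]
      calc (P * θ) ^ m * e k = P ^ m * (θ ^ m * e k) := by ring
        _ ≤ (P ^ 5) ^ (k + 1) * (θ ^ m * e k) := by gcongr
        _ = (M * θ) ^ (k + 1) * (θ ^ m * e k) := by rw [hM]
        _ = _ := by ring
    refine (Finset.sum_le_sum a1).trans ?_
    rw [← Finset.mul_sum]
    have a2 : ∑ k ∈ Finset.Ico K' (K' + D), M ^ (k + 1) * e k ≤ E := by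
      refine le_trans (Finset.sum_le_sum_of_subset_of_nonneg (fun k hk => ?_) fun k _ _ => ?_)
        (hE (K' + D))
      · exact Finset.mem_range.2 (Finset.mem_Ico.1 hk).2
      · exact mul_nonneg (by positivity) (he k)
    have a3 : 0 ≤ E := by simpa using hE 0
    calc _ ≤ θ ^ (K' + D) * E := by gcongr
      _ ≤ θ ^ (K' + D) * (P ^ 5 * E) := by gcongr; exact le_mul_of_one_le_left a3 hP5
      _ = _ := by ring
  rw [Nat.add_sub_cancel_left, Nat.sub_zero]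
  calc _ = 12 * ((P * θ) ^ D * (Q * θ) ^ K') +
        (P * θ) ^ D * ∑ k ∈ Finset.Ico 0 K', (Q * θ) ^ (K' - 1 - k) * e k + (P * θ) ^ D * T +
        ∑ k ∈ Finset.Ico K' (K' + D), (P * θ) ^ (K' + D - 1 - k) * e k := by ring
    _ ≤ 12 * (P ^ 5 * θ ^ (K' + D)) + P ^ 5 * E * θ ^ (K' + D) + P ^ 5 * c * θ ^ (K' + D) +
        P ^ 5 * E * θ ^ (K' + D) := by gcongr
    _ = _ := by ring

/-- the perturbation term of a step -/
theorem ThmG_pert {b lam ρ₀ A η : ℝ} (hl : 1 ≤ lam) (hρ : 1 ≤ ρ₀) (hA : 0 < A) (hb0 : 0 ≤ b)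
    (hb : b ≤ η / (160 * lam ^ 6 * ρ₀ ^ 2 * A)) (k : ℕ) :
    80 * b * lam ^ 2 * (ρ₀ * lam ^ k) ^ 2 * (2 * lam ^ 2 * (A * (1 / (2 * lam ^ 2)) ^ k)) ≤
      η / lam ^ 2 := by
  have hl0 : 0 < lam := by linarith
  have a1 : (lam ^ k) ^ 2 * (1 / (2 * lam ^ 2)) ^ k ≤ 1 := by
    rw [← pow_mul, mul_comm k 2, pow_mul, ← mul_pow]
    refine pow_le_one₀ (by positivity) ?_
    rw [mul_one_div, div_le_one (by positivity)]
    nlinarith [sq_nonneg lam]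
  rw [le_div_iff₀ (by positivity)] at hb
  rw [le_div_iff₀ (by positivity)]
  calc _ = b * (160 * lam ^ 6 * ρ₀ ^ 2 * A) * ((lam ^ k) ^ 2 * (1 / (2 * lam ^ 2)) ^ k) := by ring
    _ ≤ b * (160 * lam ^ 6 * ρ₀ ^ 2 * A) * 1 := by gcongr
    _ ≤ η := by linarith

/-- the cost of flattening the coupling -/
theorem ThmG_tv {lam ρ₀ P Q : ℝ} {K K' : ℕ} (hP : 1 ≤ P) (hQ : P ^ 5 * Q = 1) (hl : 2 * P ^ 5 ≤ lam)
    (hρ : 1 ≤ ρ₀) (hK : 6 * K' ≤ K) :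
    216 * (14 * (ρ₀ * lam ^ K') * (1 / (ρ₀ * lam ^ K))) * (9 * (14 * (ρ₀ * lam ^ K') + 1) ^ 2) ≤
      10 ^ 7 * ρ₀ ^ 2 * (Q * (1 / (2 * lam ^ 2))) ^ K' := by
  have hP5 : 1 ≤ P ^ 5 := one_le_pow₀ hP
  have hl1 : 1 ≤ lam := by linarith
  have hl0 : 0 < lam := by linarith
  have a0 : 1 ≤ lam ^ K' := one_le_pow₀ hl1
  have a1 : 1 ≤ ρ₀ * lam ^ K' := one_le_mul_of_one_le_of_one_le hρ a0
  have a2 : 1 / lam ^ 3 ≤ Q * (1 / (2 * lam ^ 2)) := by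
    have hq : Q = 1 / P ^ 5 := by
      rw [eq_div_iff (by positivity)]
      linarith
    rw [hq, one_div_mul_one_div]
    refine one_div_le_one_div_of_le (by positivity) ?_
    nlinarith [sq_nonneg lam]
  have a3 : (lam ^ K') ^ 6 ≤ lam ^ K := by
    rw [← pow_mul]
    exact pow_le_pow_right₀ hl1 (by omega)
  calc _ ≤ 216 * (14 * (ρ₀ * lam ^ K') * (1 / (ρ₀ * (lam ^ K') ^ 6))) *
        (9 * (14 * (ρ₀ * lam ^ K') + ρ₀ * lam ^ K') ^ 2) := by gcongr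
    _ = 6123600 * ρ₀ ^ 2 * (1 / lam ^ 3) ^ K' := by
      rw [one_div_pow, ← pow_mul lam 3 K', mul_comm 3 K', pow_mul lam K' 3]
      field_simp
      norm_num
    _ ≤ _ := by
      gcongr
      norm_num

/-- Put `P = 4 a₀`, `η = 1 / (4 P ^ 5)`, `Q = 4 η`, `θ = 1 / (2 lam ^ 2)`,
`lam ≥ max lam₀ 100 (2 P ^ 5)`, `ρ k = ρ₀ lam ^ k`. Strong induction on `K` for
`NB b (ρ K) (A θ ^ K)`: with `b ≤ η / (160 lam ^ 6 ρ₀ ^ 2 A)` the perturbation term is at most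
`η / lam ^ 2` (`NB.mono`; `cb_triv` for `k = 0`), so a plain step has the factor `P θ` and a
symmetric one `Q θ`. With `K' = K / 6` replace `j` by `exists_flat` at `r = ρ K'` (`cov_tv`), make
`K'` symmetric steps for `j'`, then `K - K' ≤ 5 K' + 5` plain steps for `j`. The constant
`A = 12 P ^ 5 + ..` does not depend on `b`. -/
theorem nb_scales (h0 : Rec0) (h1 : Rec1) : ∃ b A lam ρ₀ : ℝ, 0 < b ∧ b ≤ 1 / 12 ∧ 12 ≤ A ∧
    2 ≤ lam ∧ 1 ≤ ρ₀ ∧ ∀ K : ℕ, NB b (ρ₀ * lam ^ K) (A * (1 / (2 * lam ^ 2)) ^ K) := by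
  obtain ⟨a₀, C₀, ha₀, hC₀, h0⟩ := h0
  obtain ⟨C₁, hC₁, h1⟩ := h1
  obtain ⟨P, hPd⟩ : ∃ P : ℝ, P = 4 * a₀ := ⟨_, rfl⟩
  have hP : 1 ≤ P := by linarith
  have hP5 : 1 ≤ P ^ 5 := one_le_pow₀ hP
  obtain ⟨Q, hQd⟩ : ∃ Q : ℝ, Q = 1 / P ^ 5 := ⟨_, rfl⟩
  have hQ : P ^ 5 * Q = 1 := by rw [hQd]; field_simp
  have hQ0 : 0 < Q := by rw [hQd]; positivity
  have hQ1 : Q ≤ 1 := by rw [hQd, div_le_one (by positivity)]; exact hP5
  obtain ⟨lam₀, h1⟩ := h1 (Q / 4) (by positivity)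
  obtain ⟨lam, hl0, hl1, hl2⟩ : ∃ lam : ℝ, lam₀ ≤ lam ∧ 100 ≤ lam ∧ 2 * P ^ 5 ≤ lam :=
    ⟨max lam₀ (max 100 (2 * P ^ 5)), le_max_left _ _, le_max_of_le_right (le_max_left _ _),
      le_max_of_le_right (le_max_right _ _)⟩
  have hl : 0 < lam := by linarith
  have hl' : 1 ≤ lam := by linarith
  obtain ⟨r₀, h0⟩ := h0 lam hl1
  obtain ⟨r₁, h1⟩ := h1 lam hl0
  obtain ⟨ρ₀, hr₀, hr₁, hρ₀⟩ : ∃ ρ₀ : ℝ, r₀ ≤ ρ₀ ∧ r₁ ≤ ρ₀ ∧ 1 ≤ ρ₀ :=
    ⟨max r₀ (max r₁ 1), le_max_left _ _, le_max_of_le_right (le_max_left _ _),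
      le_max_of_le_right (le_max_right _ _)⟩
  obtain ⟨E, hE⟩ := err_sum (M := P ^ 5 * (2 * lam ^ 2)) (lam := lam) (by positivity)
    (by linarith) hρ₀
  have hE0 : 0 ≤ E := by simpa using hE 0
  obtain ⟨A, hA⟩ : ∃ A : ℝ, A = P ^ 5 * (12 + 2 * ((C₀ + C₁) * E) + 10 ^ 7 * ρ₀ ^ 2) := ⟨_, rfl⟩
  have hA12 : 12 ≤ A := by
    have a1 : 0 ≤ 2 * ((C₀ + C₁) * E) + 10 ^ 7 * ρ₀ ^ 2 := by positivity
    rw [hA]
    nlinarith
  obtain ⟨b, hb0, hb1, hb2⟩ : ∃ b : ℝ, 0 < b ∧ b ≤ 1 / 12 ∧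
      b ≤ Q / 4 / (160 * lam ^ 6 * ρ₀ ^ 2 * A) :=
    ⟨min (1 / 12) (Q / 4 / (160 * lam ^ 6 * ρ₀ ^ 2 * A)),
      lt_min (by norm_num) (by have : 0 < A := by linarith
                               positivity), min_le_left _ _, min_le_right _ _⟩
  refine ⟨b, A, lam, ρ₀, hb0, hb1, hA12, by linarith, hρ₀, fun K => ?_⟩
  have pert := ThmG_pert hl' hρ₀ (by linarith : 0 < A) hb0.le hb2
  have rpos : ∀ k : ℕ, 0 < ρ₀ * lam ^ k := fun k => by positivity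
  have rge : ∀ k : ℕ, ρ₀ ≤ ρ₀ * lam ^ k := fun k =>
    le_mul_of_one_le_right (by linarith) (one_le_pow₀ hl')
  have rmono : ∀ {k l : ℕ}, k ≤ l → ρ₀ * lam ^ k ≤ ρ₀ * lam ^ l := fun h =>
    mul_le_mul_of_nonneg_left (pow_le_pow_right₀ hl' h) (by linarith)
  have rsucc : ∀ k : ℕ, lam * (ρ₀ * lam ^ k) = ρ₀ * lam ^ (k + 1) := fun k => by ring
  induction K using Nat.strong_induction_on with
  | _ K ih =>
  have half : ∀ k < K,
      NB b (ρ₀ * lam ^ k / 2) (2 * lam ^ 2 * (A * (1 / (2 * lam ^ 2)) ^ k)) := by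
    intro k hk
    rcases k with _ | k
    · intro Λ S₀ j v _ _ _
      refine (cb_triv Λ S₀ j v _).mono le_rfl ?_
      rw [pow_zero, mul_one]
      nlinarith
    · refine (ih k (by omega)).mono (rpos k) le_rfl ?_ (le_of_eq ?_)
      · rw [← rsucc]
        nlinarith [rpos k]
      · rw [pow_succ (1 / (2 * lam ^ 2))]
        field_simp
  refine nb_of_zero fun Λ S₀ j hΛ hj hL => ?_
  obtain ⟨K', hK1, hK2⟩ : ∃ K' : ℕ, 6 * K' ≤ K ∧ K ≤ 6 * K' + 5 := ⟨K / 6, by omega, by omega⟩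
  obtain ⟨j', g1, g2, g3, g4, g5⟩ := exists_flat (rpos K') (by have := rpos K; positivity) hj hL
  have sub : ∀ k < K, bal 0 (2 * (lam * (ρ₀ * lam ^ k))) ⊆ Λ := fun k hk =>
    (bal_mono 0 (by rw [rsucc]; linarith [rmono (show k + 1 ≤ K from hk)])).trans hΛ
  have lip : ∀ k < K, 3 * (1 / (ρ₀ * lam ^ K)) ≤ 1 / (ρ₀ * lam ^ k) := fun k hk => by
    have a1 := rmono (show k + 1 ≤ K from hk)
    rw [← rsucc] at a1
    rw [mul_one_div, div_le_div_iff₀ (rpos K) (rpos k)]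
    nlinarith [rpos k]
  have err : ∀ k : ℕ, 0 ≤ (ρ₀ * lam ^ k) ^ 2 * (1 / 2 : ℝ) ^ (ρ₀ * lam ^ k) := fun k => by
    positivity
  have s1 := cb_iter (Λ := Λ) (S₀ := S₀) (j := j') (ρ := fun k => ρ₀ * lam ^ k)
    (e := fun k => (C₀ + C₁) * ((ρ₀ * lam ^ k) ^ 2 * (1 / 2) ^ (ρ₀ * lam ^ k)))
    (α := Q * (1 / (2 * lam ^ 2))) (x := 12) (Nat.zero_le K') (cb_triv _ _ _ _ _)
    fun k _ hk y hy => by
      have hk' : k < K := by omega
      have a1 := h1 (ρ₀ * lam ^ k) b _ y Λ S₀ j' (hr₁.trans (rge k)) hb1 (sub k hk') g1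
        (g2.mono (lip k hk')) (fun x hx => g3 x (bal_mono 0 (by linarith [rmono hk.le]) hx))
        (half k hk') hy
      refine a1.mono (rsucc k).le (add_le_add (mul_le_mul_of_nonneg_right ?_ hy.nonneg) ?_)
      · have e : Q * (1 / (2 * lam ^ 2)) = Q / 4 / lam ^ 2 + Q / 4 / lam ^ 2 := by
          field_simp
          norm_num
        linarith [pert k]
      · nlinarith [mul_nonneg hC₀ (err k)]
  have s2 : CB Λ S₀ j 0 (ρ₀ * lam ^ K') ((Q * (1 / (2 * lam ^ 2))) ^ (K' - 0) * 12 +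
      ∑ k ∈ Finset.Ico 0 K', (Q * (1 / (2 * lam ^ 2))) ^ (K' - 1 - k) *
        ((C₀ + C₁) * ((ρ₀ * lam ^ k) ^ 2 * (1 / 2) ^ (ρ₀ * lam ^ k))) +
      10 ^ 7 * ρ₀ ^ 2 * (Q * (1 / (2 * lam ^ 2))) ^ K') := by
    intro F hF f1
    have a1 := s1 F hF f1
    have a2 := cov_tv (Λ := Λ) (S₀ := S₀) (bal 0 (14 * (ρ₀ * lam ^ K'))) g4 g5 f1 0
    have a3 := card_bal 0 (r := 14 * (ρ₀ * lam ^ K')) (by have := rpos K'; positivity)
    have a4 := ThmG_tv hP hQ hl2 hρ₀ hK1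
    have a5 := mul_le_mul_of_nonneg_left a3 (show
      0 ≤ 216 * (14 * (ρ₀ * lam ^ K') * (1 / (ρ₀ * lam ^ K))) by
        have := rpos K
        have := rpos K'
        positivity)
    have a6 := abs_sub_abs_le_abs_sub (cov Λ S₀ j F (hx 0)) (cov Λ S₀ j' F (hx 0))
    linarith
  have s3 := cb_iter (Λ := Λ) (S₀ := S₀) (j := j) (ρ := fun k => ρ₀ * lam ^ k)
    (e := fun k => (C₀ + C₁) * ((ρ₀ * lam ^ k) ^ 2 * (1 / 2) ^ (ρ₀ * lam ^ k)))
    (α := P * (1 / (2 * lam ^ 2))) (show K' ≤ K by omega) s2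
    fun k _ hk y hy => by
      have a1 := h0 (ρ₀ * lam ^ k) b _ y Λ S₀ j (hr₀.trans (rge k)) hb1 (sub k hk) hj
        (hL.mono (one_div_le_one_div_of_le (rpos k) (rmono hk.le))) (half k hk) hy
      refine a1.mono (rsucc k).le (add_le_add (mul_le_mul_of_nonneg_right ?_ hy.nonneg) ?_)
      · have e : P * (1 / (2 * lam ^ 2)) = a₀ / lam ^ 2 + a₀ / lam ^ 2 := by
          rw [hPd]
          field_simp
          norm_num
        have a2 : Q / 4 / lam ^ 2 ≤ a₀ / lam ^ 2 :=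
          div_le_div_of_nonneg_right (by linarith) (by positivity)
        linarith [pert k]
      · nlinarith [mul_nonneg hC₁ (err k)]
  refine s3.mono le_rfl ?_
  rw [hA]
  refine ThmG_arith (M := P ^ 5 * (2 * lam ^ 2)) hP hQ (by positivity) (by field_simp)
    (fun k => mul_nonneg (by linarith) (err k)) (fun n => ?_) (by positivity) le_rfl
    (by positivity) (by omega) hK2
  refine le_trans (le_of_eq ?_) (mul_le_mul_of_nonneg_left (hE n) (by linarith : 0 ≤ C₀ + C₁))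
  rw [Finset.mul_sum]
  exact Finset.sum_congr rfl fun k _ => by ring

theorem thG_of (h0 : Rec0) (h1 : Rec1) : ∃ b A ε : ℝ, 0 < b ∧ b ≤ 1 / 12 ∧ 0 ≤ A ∧ 0 < ε ∧
    ε ≤ 1 / 16 ∧ ThG b A ε := by
  obtain ⟨b, A, lam, ρ₀, hb0, hb1, hA, hl, hρ₀, h⟩ := nb_scales h0 h1
  have hl1 : 1 < lam := by linarith
  have hl0 : 0 < lam := by linarith
  obtain ⟨ε, e0, e1, e2⟩ : ∃ ε : ℝ, 0 < ε ∧ ε ≤ 1 / 16 ∧ lam ^ ε ≤ 2 := by
    refine ⟨min (1 / 16) (Real.logb lam 2), lt_min (by norm_num) (Real.logb_pos hl1 one_lt_two),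
      min_le_left _ _, ?_⟩
    exact (Real.rpow_le_rpow_of_exponent_le hl1.le (min_le_right _ _)).trans
      (Real.rpow_logb hl0 hl1.ne' two_pos).le
  refine ⟨b, A * (ρ₀ * lam) ^ 3, ε, hb0, hb1, by positivity, e0, e1, fun ρ hρ => ?_⟩
  have hρ0 : 0 < ρ := by linarith
  obtain ⟨K, k1, k2⟩ : ∃ K : ℕ, ρ ≤ ρ₀ * lam ^ (K + 1) ∧
      NB b ρ (A * (1 / (2 * lam ^ 2)) ^ K) := by
    rcases le_total ρ ρ₀ with h2 | h2
    · refine ⟨0, by rw [zero_add, pow_one]; nlinarith, fun Λ S₀ j v _ _ _ => (cb_triv Λ S₀ j v _).mono le_rfl ?_⟩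
      rwa [pow_zero, mul_one]
    · obtain ⟨K, k1, k2⟩ := exists_nat_pow_near (x := ρ / ρ₀)
        (by rwa [le_div_iff₀ (by linarith), one_mul]) hl1
      rw [le_div_iff₀ (by linarith), mul_comm] at k1
      rw [div_lt_iff₀ (by linarith), mul_comm] at k2
      exact ⟨K, k2.le, (h K).mono (by positivity) le_rfl k1 le_rfl⟩
  refine k2.mono hρ0 le_rfl le_rfl ?_
  have a0 : 1 ≤ ρ₀ * lam := by nlinarith
  have a1 : ρ ^ (2 + ε) ≤ (ρ₀ * lam) ^ 3 * (2 * lam ^ 2) ^ K := by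
    calc ρ ^ (2 + ε) ≤ (ρ₀ * lam * lam ^ K) ^ (2 + ε) :=
          Real.rpow_le_rpow hρ0.le (k1.trans (le_of_eq (by ring))) (by linarith)
      _ = (ρ₀ * lam) ^ (2 + ε) * (lam ^ (2 + ε)) ^ K := by
          rw [Real.mul_rpow (by positivity) (by positivity), ← Real.rpow_natCast lam K,
            ← Real.rpow_mul hl0.le, mul_comm (K : ℝ), Real.rpow_mul hl0.le, Real.rpow_natCast]
      _ ≤ (ρ₀ * lam) ^ 3 * (2 * lam ^ 2) ^ K := by
          refine mul_le_mul ?_ (pow_le_pow_left₀ (by positivity) ?_ K) (by positivity)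
            (by positivity)
          · rw [← Real.rpow_natCast]
            exact Real.rpow_le_rpow_of_exponent_le a0 (by push_cast; linarith)
          · rw [Real.rpow_add hl0, Real.rpow_two, mul_comm]
            gcongr
  rw [Real.rpow_neg hρ0.le, one_div_pow, mul_assoc]
  refine mul_le_mul_of_nonneg_left ?_ (by linarith)
  rw [← div_eq_mul_inv, div_le_div_iff₀ (by positivity) (by positivity), one_mul]
  exact a1

end Pool.Agent.TAF.U
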