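import Pool.Agent.P.MP_cb4022_pr.U.Main
import Pool.Agent.P.MP_cb4022_pr.U.Boot
import Pool.Agent.P.MP_cb4022_pr.U.GRec2
import Pool.Agent.P.MP_cb4022_pr.U.ThmG

/-! Universality of the domain-wall loops for small couplings. -/

open Filter Topology

namespace Pool.Agent.TAF.U

theorem stepTV : ∃ η b₀ : ℝ, 0 < η ∧ 0 < b₀ ∧ b₀ ≤ 1 / 12 ∧ StepTV η b₀ := by
  obtain ⟨b, A, ε, h1, h2, h3, h4, h5, h6⟩ := thG_of (rec0_of kf0) (rec1_of kf1)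
  exact stepTV_of h1 h2 h3 h4 h5 h6

theorem universal : ∃ β₀ : ℝ, 0 < β₀ ∧ ∀ β : ℝ, |β| ≤ β₀ → ∀ Ω : Set ℂ, IsOpen Ω →
    Bornology.IsBounded Ω → ∀ Z : Finset ℂ,
    (∀ q ∈ frontier Ω, q ∉ Z → ∃ f : ℂ → ℝ, ContDiffAt ℝ 1 f q ∧ fderiv ℝ f q ≠ 0 ∧
      ∀ᶠ z in 𝓝 q, z ∈ Ω ↔ f z < 0) →
    ∀ ε : ℝ, 0 < ε → ∃ δ₀ : ℝ, 0 < δ₀ ∧ ∀ δ : ℝ, 0 < δ → δ < δ₀ → ∀ D : Finset (ℤ × ℤ),
      (∀ u, u ∈ D ↔ δ * pos u ∈ Ω) →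
      Coupling D (fun S => prob β D fun T => T = S) (fun S => prob 0 D fun T => T = S)
        (Close ε δ) ε := by
  obtain ⟨η, b₀, h1, h2, h3, h4⟩ := stepTV
  exact ⟨b₀, h2, fun β hβ Ω ho hb Z hZ ε hε => main_of h1 h3 h4 hβ ho hb hZ hε⟩

end Pool.Agent.TAF.U
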