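import Pool.Agent.P.MP_cb4022_pr.U.Mix
import Pool.Agent.P.MP_cb4022_pr.U.Kap2

/-! The recursion, part 1: the conditional expectation given the inner ball (paper G2). -/

open scoped Classical symmDiff

noncomputable section

namespace Pool.Agent.TAF.U

/-- expectation of `F` given the colours `c` in `bal 0 (2 ρ)` -/
def gI (Λ S₀ : Finset Site) (j : Site → ℝ) (F : Finset Site → ℝ) (ρ : ℝ) (c : Finset Site) : ℝ :=
  gib (Λ \ bal 0 (2 * ρ)) (S₀ \ bal 0 (2 * ρ) ∪ c ∩ bal 0 (2 * ρ)) j F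

/-- flip of the inner ball -/
def fl (ρ : ℝ) (c : Finset Site) : Finset Site := c ∆ bal 0 (2 * ρ)

/-- change of `gI` between two insides, summed over the flip -/
def dI (Λ S₀ : Finset Site) (j : Site → ℝ) (F : Finset Site → ℝ) (ρ : ℝ) (c c' : Finset Site) : ℝ :=
  gI Λ S₀ j F ρ c - gI Λ S₀ j F ρ c' + (gI Λ S₀ j F ρ (fl ρ c) - gI Λ S₀ j F ρ (fl ρ c'))

section
variable {Λ S₀ c c' : Finset Site} {j : Site → ℝ} {F : Finset Site → ℝ} {ρ lam b a κ : ℝ}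

theorem GRec1_adj (e : Edge) (p : Site) :
    dst (lft e) p ≤ dst (rgt e) p + 1 ∧ dst (rgt e) p ≤ dst (lft e) p + 1 := by
  have h := dst_adj (adj_lft_rgt e)
  have h1 := dst_tri (lft e) (rgt e) p
  have h2 := dst_tri (rgt e) (lft e) p
  rw [dst_comm (rgt e) (lft e)] at h2
  constructor <;> linarith

theorem GRec1_touch_bd {Y : Finset Site} {e : Edge} (h : e ∈ bd Y) : Touch e Y := by
  rw [mem_bd] at h
  by_cases h1 : lft e ∈ Y
  · exact Or.inl h1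
  · exact Or.inr (by by_contra h2; exact h ⟨fun a => absurd a h1, fun a => absurd a h2⟩)

/-- both ends of an edge that touches a set inside a ball -/
theorem GRec1_in {X : Set Site} {r : ℝ} (hX : ∀ x ∈ X, dst x 0 ≤ r) {e : Edge} (h : Touch e X) :
    dst (lft e) 0 ≤ r + 1 ∧ dst (rgt e) 0 ≤ r + 1 := by
  obtain ⟨h1, h2⟩ := GRec1_adj e 0
  rcases h with h | h <;> have := hX _ h <;> constructor <;> linarith

/-- both ends of an edge that touches a set outside a ball -/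
theorem GRec1_out {X : Set Site} {r : ℝ} (hX : ∀ x ∈ X, r < dst x 0) {e : Edge} (h : Touch e X) :
    r - 1 < dst (lft e) 0 ∧ r - 1 < dst (rgt e) 0 := by
  obtain ⟨h1, h2⟩ := GRec1_adj e 0
  rcases h with h | h <;> have := hX _ h <;> constructor <;> linarith

theorem GRec1_ew {s R : ℝ} (hj : ∀ x, s - 1 < dst x 0 → dst x 0 ≤ R + 1 → j x = 0)
    {X X' : Set Site} (hX : ∀ x ∈ X, dst x 0 ≤ R) (hX' : ∀ x ∈ X', s < dst x 0) {e : Edge}
    (h : Touch e X) (h' : Touch e X') : ew j e = 0 := by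
  obtain ⟨h1, h2⟩ := GRec1_in hX h
  obtain ⟨h3, h4⟩ := GRec1_out hX' h'
  rw [ew, hj _ h3 h1, hj _ h4 h2, add_zero]

theorem GRec1_Y (h : Off (bal 0 ρ) c c') : ∀ x ∈ c ∆ c', dst x 0 ≤ ρ := by
  intro x hx
  by_contra h1
  have := h x fun h2 => h1 (mem_bal.1 h2)
  rw [Finset.mem_symmDiff] at hx
  tauto

theorem gI_abs (hF : ∀ S, |F S| ≤ 1) (c : Finset Site) : |gI Λ S₀ j F ρ c| ≤ 1 := by
  exact abs_gib_le fun S _ => hF S

theorem gI_dep : Dep (bal 0 (2 * ρ)) (gI Λ S₀ j F ρ) := by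
  intro S S' h
  have : S ∩ bal 0 (2 * ρ) = S' ∩ bal 0 (2 * ρ) := by
    ext x
    simp only [Finset.mem_inter]
    exact and_congr_left fun hx => h x (Finset.mem_coe.2 hx)
  rw [gI, gI, this]

/-- `gib_act` with `Y = c ∆ c'` -/
theorem gI_diff (hρ : 2 ≤ ρ) (h : Off (bal 0 ρ) c c') : gI Λ S₀ j F ρ c - gI Λ S₀ j F ρ c' =
    gib (Λ \ bal 0 (2 * ρ)) (S₀ \ bal 0 (2 * ρ) ∪ c ∩ bal 0 (2 * ρ)) j
      fun S => F S - F (S ∆ (c ∆ c')) := by
  have hY := GRec1_Y h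
  have e : S₀ \ bal 0 (2 * ρ) ∪ c' ∩ bal 0 (2 * ρ) =
      (S₀ \ bal 0 (2 * ρ) ∪ c ∩ bal 0 (2 * ρ)) ∆ (c ∆ c') := by
    ext x
    have h1 : x ∈ c ∆ c' → x ∈ bal 0 (2 * ρ) := fun hx =>
      mem_bal.2 (by linarith [hY x hx])
    simp only [Finset.mem_symmDiff, Finset.mem_union, Finset.mem_sdiff, Finset.mem_inter] at h1 ⊢
    tauto
  rw [gib_sub, gI, gI, e, gib_act]
  intro e he ht
  exfalso
  obtain ⟨h1, h2⟩ := GRec1_in (fun x hx => hY x (Finset.mem_coe.1 hx)) (GRec1_touch_bd he)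
  rcases ht with ht | ht <;>
    exact (Finset.mem_sdiff.1 (Finset.mem_coe.1 ht)).2 (mem_bal.2 (by linarith))

/-- `Link.act` -/
theorem gI_meas (hρ : 2 ≤ ρ) (hF : Meas (bal 0 ρ) F) : Meas (bal 0 ρ) (gI Λ S₀ j F ρ) := by
  intro c c' hl
  have h : Off (bal 0 ρ) c c' := hl.1
  rw [← sub_eq_zero, gI_diff hρ h, ← gib_const (Λ := Λ \ bal 0 (2 * ρ))
    (S₀ := S₀ \ bal 0 (2 * ρ) ∪ c ∩ bal 0 (2 * ρ)) (j := j) 0]
  refine gib_congr fun S hS => ?_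
  have hZ : ∀ x ∈ c ∆ S, 2 * ρ < dst x 0 := by
    intro x hx
    by_contra h1
    have h2 : x ∈ bal 0 (2 * ρ) := mem_bal.2 (not_lt.1 h1)
    have h3 := hS x fun h4 => (Finset.mem_sdiff.1 h4).2 h2
    simp only [Finset.mem_symmDiff, Finset.mem_union, Finset.mem_sdiff, Finset.mem_inter] at hx h3
    tauto
  have hl' := hl.act (Y := c ∆ S) fun e he ht => by
    obtain ⟨h1, h2⟩ := GRec1_out (fun x hx => hZ x (Finset.mem_coe.1 hx)) (GRec1_touch_bd he)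
    rcases ht with ht | ht <;> have := mem_bal.1 (Finset.mem_coe.1 ht) <;> linarith
  have e1 : c ∆ (c ∆ S) = S := symmDiff_symmDiff_cancel_left _ _
  have e2 : c' ∆ (c ∆ S) = S ∆ (c ∆ c') := by
    ext x
    simp only [Finset.mem_symmDiff]
    tauto
  rw [e1, e2] at hl'
  rw [hF _ _ hl', sub_self]

theorem cov_gI (hρ : 2 ≤ ρ) (hΛ : bal 0 (2 * ρ) ⊆ Λ) :
    cov Λ S₀ j F (hx 0) = cov Λ S₀ j (gI Λ S₀ j F ρ) (hx 0) := by
  have _h := hΛ
  have hd : Dep ((Λ \ bal 0 (2 * ρ) : Finset Site) : Set Site)ᶜ (hx 0) := by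
    intro S S' h
    refine hx_dep 0 S S' fun x hx => h x fun h1 => ?_
    have := mem_bal.1 (Finset.mem_coe.1 hx)
    exact (Finset.mem_sdiff.1 (Finset.mem_coe.1 h1)).2 (mem_bal.2 (by linarith))
  rw [cov_dlr Finset.sdiff_subset hd]
  refine cov_congr fun S hS => gib_shift fun x hx => ?_
  have h1 := hS x
  simp only [Finset.mem_union, Finset.mem_sdiff, Finset.mem_inter] at hx ⊢
  tauto

/-- `gib_interp` on `Λ \ bal 0 (2 ρ)` for `S ↦ F S - F (S ∆ (c ∆ c'))`, which is bounded by `2`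
and measurable for `bal w (ρ / 2)`; `cut_bd`, `cut_lip`, `card_bal` -/
theorem gI_interp (hρ : 2 ≤ ρ) (hl : 100 ≤ lam) (hb : b ≤ 1 / 12) (hΛ : bal 0 (2 * (lam * ρ)) ⊆ Λ)
    (hj : Bd j b) (hL : Lip j (1 / ρ)) (hN : NB b (ρ / 2) a) (hF : Meas (bal 0 (lam * ρ)) F)
    (f1 : ∀ S, |F S| ≤ 1) {χ : Site → ℝ} (c1 : ∀ x, χ x ∈ Set.Icc (0 : ℝ) 1) (c2 : Lip χ (1 / ρ))
    (c3 : ∀ x, χ x ≠ 0 → 3 * ρ < dst x 0 ∧ dst x 0 < lam * ρ / 2 + 1 + ρ)
    (h : Off (bal 0 ρ) c c') :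
    |gI Λ S₀ j F ρ c - gI Λ S₀ j F ρ c' - (gI Λ S₀ (fun x => j x * (1 - χ x)) F ρ c -
      gI Λ S₀ (fun x => j x * (1 - χ x)) F ρ c')| ≤ 80 * b * lam ^ 2 * ρ ^ 2 * a := by
  have hY := GRec1_Y h
  have hρ0 : 0 < ρ := by linarith
  have hb0 : 0 ≤ b := (abs_nonneg _).trans (hj 0)
  have hlr : 100 * ρ ≤ lam * ρ := mul_le_mul_of_nonneg_right hl hρ0.le
  have hLL : 1 / ρ + b * (1 / ρ) ≤ 1 / (ρ / 2) := by
    have h1 : 0 < 1 / ρ := by positivity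
    have h2 : 1 / (ρ / 2) = 2 * (1 / ρ) := by field_simp
    nlinarith
  have ha : 0 ≤ a := by
    refine (hN _ ∅ j 0 subset_rfl hj (hL.mono ?_)).nonneg
    have h1 : 0 ≤ b * (1 / ρ) := by positivity
    linarith
  set W : Finset Site := ann 0 (3 * ρ) (lam * ρ / 2 + 1 + ρ) with hW
  have hmem : ∀ x, j x ≠ j x * (1 - χ x) → x ∈ W := by
    intro x hx
    have h1 : χ x ≠ 0 := fun h2 => hx (by rw [h2]; ring)
    exact mem_ann.2 ⟨(c3 x h1).1, (c3 x h1).2.le⟩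
  have hcard : (W.card : ℝ) ≤ 9 * (lam * ρ) ^ 2 := by
    have h1 : (W.card : ℝ) ≤ (bal 0 (lam * ρ / 2 + 1 + ρ)).card := by
      exact_mod_cast Finset.card_le_card Finset.sdiff_subset
    have h2 := card_bal 0 (r := lam * ρ / 2 + 1 + ρ) (by linarith)
    have h3 : (lam * ρ / 2 + 1 + ρ + 1) ^ 2 ≤ (lam * ρ) ^ 2 :=
      pow_le_pow_left₀ (by linarith) (by linarith) 2
    linarith
  rw [gI_diff hρ h, gI_diff hρ h, abs_sub_comm]
  refine (gib_interp (j := j) (j' := fun x => j x * (1 - χ x)) W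
    (fun e _ => ⟨hmem _, hmem _⟩) hb0 (c := 9 * (lam * ρ) ^ 2 * (2 * a)) ?_ ?_).trans ?_
  · intro w _
    have h1 : j w * (1 - χ w) - j w = -(j w * χ w) := by ring
    rw [h1, abs_neg, abs_mul, abs_of_nonneg (c1 w).1]
    exact (mul_le_of_le_one_right (abs_nonneg _) (c1 w).2).trans (hj w)
  · intro t ht
    have e : (fun x => j x + t * (j x * (1 - χ x) - j x)) = fun x => j x * (1 - t * χ x) := by
      funext x; ring
    rw [e]
    refine (Finset.sum_le_card_nsmul W _ (2 * a) fun w hw => ?_).trans ?_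
    · obtain ⟨w1, w2⟩ := mem_ann.1 hw
      have near : ∀ x r, x ∈ bal w r → 3 * ρ - r < dst x 0 ∧
          dst x 0 ≤ lam * ρ / 2 + 1 + ρ + r := by
        intro x r hx
        have h1 := mem_bal.1 hx
        have h2 := dst_tri x w 0
        have h3 := dst_tri w x 0
        rw [dst_comm w x] at h3
        constructor <;> linarith
      refine (hN _ _ _ w ?_ (cut_bd hj c1 ht) ((cut_lip hj hL c2 c1 ht).mono hLL)).scale ?_ ?_
      · intro x hx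
        obtain ⟨h1, h2⟩ := near x _ hx
        exact Finset.mem_sdiff.2 ⟨hΛ (mem_bal.2 (by linarith)), fun h3 => by
          linarith [mem_bal.1 h3]⟩
      · have hF' : Meas (bal w (ρ / 2)) F := hF.mono fun x hx =>
          mem_bal.2 (by linarith [(near x _ hx).2])
        intro S S' hl'
        have h1 := hl'.act (Y := c ∆ c') fun e he ht => by
          obtain ⟨h1, h2⟩ := GRec1_in (fun x hx => hY x (Finset.mem_coe.1 hx))
            (GRec1_touch_bd he)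
          rcases ht with ht | ht <;> have := (near _ _ (Finset.mem_coe.1 ht)).1 <;> linarith
        show F S - F (S ∆ (c ∆ c')) = F S' - F (S' ∆ (c ∆ c'))
        rw [hF' _ _ hl', hF' _ _ h1]
      · intro S
        have h1 := f1 S
        have h2 := f1 (S ∆ (c ∆ c'))
        exact (abs_sub _ _).trans (by linarith)
    · rw [nsmul_eq_mul]
      exact mul_le_mul_of_nonneg_right hcard (by linarith)
  · have h1 : 0 ≤ b * (lam * ρ) ^ 2 * a := by positivity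
    nlinarith

/-- outside, collar and middle are independent, the middle is uniform -/
theorem GRec1_split {s R : ℝ} (hs : 2 * ρ + 1 ≤ s) (hR : s ≤ R) (hΛ : bal 0 R ⊆ Λ)
    (hj : ∀ x, s - 1 < dst x 0 → dst x 0 ≤ R + 1 → j x = 0) (c : Finset Site)
    (G : Finset Site → ℝ) :
    gib (Λ \ bal 0 (2 * ρ)) (S₀ \ bal 0 (2 * ρ) ∪ c ∩ bal 0 (2 * ρ)) j G =
      gib (Λ \ bal 0 R) S₀ j fun o => gib (bal 0 s \ bal 0 (2 * ρ)) (c ∩ bal 0 (2 * ρ)) j fun X =>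
        avg (bal 0 R \ bal 0 s).powerset fun T => G ((X ∪ o \ bal 0 R) ∆ T) := by
  have i1 : ∀ x, x ∈ bal 0 (2 * ρ) → x ∈ bal 0 s := fun x hx => bal_mono 0 (by linarith) hx
  have i2 : ∀ x, x ∈ bal 0 s → x ∈ bal 0 R := fun x hx => bal_mono 0 hR hx
  have i3 : ∀ x, x ∈ bal 0 R → x ∈ Λ := fun x hx => hΛ hx
  have inR : ∀ {X : Finset Site}, (∀ x ∈ X, x ∈ bal 0 R) → ∀ x ∈ (X : Set Site), dst x 0 ≤ R :=
    fun h x hx => mem_bal.1 (h x hx)
  have outs : ∀ {X : Finset Site}, (∀ x ∈ X, x ∉ bal 0 s) → ∀ x ∈ (X : Set Site), s < dst x 0 :=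
    fun h x hx => not_le.1 fun h1 => h x hx (mem_bal.2 h1)
  have e1 : Λ \ bal 0 (2 * ρ) =
      Λ \ bal 0 R ∪ (bal 0 s \ bal 0 (2 * ρ) ∪ bal 0 R \ bal 0 s) := by
    ext x
    have := i1 x; have := i2 x; have := i3 x
    simp only [Finset.mem_union, Finset.mem_sdiff]
    tauto
  have d1 : Disjoint (Λ \ bal 0 R) (bal 0 s \ bal 0 (2 * ρ) ∪ bal 0 R \ bal 0 s) := by
    refine Finset.disjoint_left.2 fun x h1 h2 => ?_
    have := i2 x
    simp only [Finset.mem_union, Finset.mem_sdiff] at h1 h2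
    tauto
  have d2 : Disjoint (bal 0 s \ bal 0 (2 * ρ)) (bal 0 R \ bal 0 s) :=
    Finset.disjoint_left.2 fun x h1 h2 => (Finset.mem_sdiff.1 h2).2 (Finset.mem_sdiff.1 h1).1
  have e2 : S₀ \ bal 0 (2 * ρ) ∪ c ∩ bal 0 (2 * ρ) = S₀ ∆ ((S₀ ∆ c) ∩ bal 0 (2 * ρ)) := by
    ext x
    simp only [Finset.mem_symmDiff, Finset.mem_union, Finset.mem_sdiff, Finset.mem_inter]
    tauto
  have cR : ∀ x ∈ bal 0 s \ bal 0 (2 * ρ), x ∈ bal 0 R := fun x hx =>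
    i2 x (Finset.mem_sdiff.1 hx).1
  have mR : ∀ x ∈ bal 0 R \ bal 0 s, x ∈ bal 0 R := fun x hx => (Finset.mem_sdiff.1 hx).1
  have ms : ∀ x ∈ bal 0 R \ bal 0 s, x ∉ bal 0 s := fun x hx => (Finset.mem_sdiff.1 hx).2
  rw [e1, gib_prod d1, e2, gib_act]
  · refine gib_congr fun o ho => ?_
    rw [gib_prod d2 fun e h1 h2 => GRec1_ew hj (inR cR) (outs ms) h1 h2,
      gib_shift (S₁ := (c ∩ bal 0 (2 * ρ)) ∆ (o \ bal 0 s)), gib_act]
    · refine gib_congr fun X hX => ?_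
      rw [gib_shift (S₁ := X ∪ o \ bal 0 R),
        gib_zero fun e h1 => GRec1_ew hj (inR mR) (outs ms) h1 h1]
      intro x hx
      have := hX x; have := i1 x; have := i2 x
      simp only [Finset.mem_symmDiff, Finset.mem_union, Finset.mem_sdiff, Finset.mem_inter] at *
      tauto
    · exact fun e h1 h2 => GRec1_ew hj (inR cR)
        (outs fun x hx => (Finset.mem_sdiff.1 hx).2) h2 (GRec1_touch_bd h1)
    · intro x hx
      have := ho x; have := i1 x; have := i2 x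
      simp only [Finset.mem_symmDiff, Finset.mem_sdiff, Finset.mem_inter] at *
      tauto
  · intro e h1 h2
    exfalso
    obtain ⟨h3, h4⟩ := GRec1_in (r := 2 * ρ)
      (fun x hx => mem_bal.1 (Finset.mem_inter.1 (Finset.mem_coe.1 hx)).2) (GRec1_touch_bd h1)
    rcases h2 with h2 | h2 <;>
      exact (Finset.mem_sdiff.1 (Finset.mem_coe.1 h2)).2 (mem_bal.2 (by linarith))
  · refine fun e h1 h2 => GRec1_ew hj (inR fun x hx => ?_)
      (outs fun x hx h3 => (Finset.mem_sdiff.1 hx).2 (i2 x h3)) h2 h1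
    rcases Finset.mem_union.1 hx with h3 | h3
    · exact cR x h3
    · exact mR x h3

/-- flip of the inner ball together with the collar -/
theorem GRec1_flip {s R : ℝ} (hs : 2 * ρ + 1 ≤ s) (hR : s ≤ R)
    (hj : ∀ x, s - 1 < dst x 0 → dst x 0 ≤ R + 1 → j x = 0) (c : Finset Site)
    (K : Finset Site → ℝ) :
    gib (bal 0 s \ bal 0 (2 * ρ)) (fl ρ c ∩ bal 0 (2 * ρ)) j K =
      gib (bal 0 s \ bal 0 (2 * ρ)) (c ∩ bal 0 (2 * ρ)) j fun X => K (X ∆ bal 0 s) := by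
  have i1 : ∀ x, x ∈ bal 0 (2 * ρ) → x ∈ bal 0 s := fun x hx => bal_mono 0 (by linarith) hx
  rw [gib_shift (S₁ := (c ∩ bal 0 (2 * ρ)) ∆ bal 0 s), gib_act]
  · intro e h1 _
    refine GRec1_ew hj (X := bal 0 s) (X' := (bal 0 s : Set Site)ᶜ)
      (fun x hx => (mem_bal.1 (Finset.mem_coe.1 hx)).trans hR)
      (fun x hx => not_le.1 fun h3 => hx (Finset.mem_coe.2 (mem_bal.2 h3))) (GRec1_touch_bd h1) ?_
    rw [mem_bd] at h1
    simp only [Touch, Set.mem_compl_iff, Finset.mem_coe]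
    tauto
  · intro x hx
    have := i1 x
    simp only [fl, Finset.mem_symmDiff, Finset.mem_sdiff, Finset.mem_inter] at *
    tauto

theorem GRec1_sub {s : ℝ} (hs : 2 * ρ + 1 ≤ s) {X : Finset Site}
    (hX : Off (bal 0 s \ bal 0 (2 * ρ)) X (c ∩ bal 0 (2 * ρ))) : X ⊆ bal 0 s := by
  intro x hx
  by_contra h1
  have h2 := (hX x fun h3 => h1 (Finset.mem_sdiff.1 h3).1).1 hx
  exact h1 (bal_mono 0 (by linarith) (Finset.mem_inter.1 h2).2)

theorem GRec1_set1 {X Y o D S : Finset Site} (h : Y ⊆ D) :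
    (X ∆ Y ∪ o \ D) ∆ S = ((X ∪ o \ D) ∆ S) ∆ Y := by
  ext x
  have h1 : x ∈ Y → x ∈ D := fun hx => h hx
  simp only [Finset.mem_symmDiff, Finset.mem_union, Finset.mem_sdiff]
  by_cases x ∈ Y <;> by_cases x ∈ S <;> tauto

theorem GRec1_set2 {X H o D T : Finset Site} (h : H ⊆ D) (hT : T ⊆ D \ H) :
    (X ∆ H ∪ o \ D) ∆ T = (X ∪ o \ D) ∆ (T ∪ H) := by
  ext x
  have h1 : x ∈ T → x ∉ H := fun hx => (Finset.mem_sdiff.1 (hT hx)).2
  have h2 : x ∈ H → x ∈ D := fun hx => h hx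
  simp only [Finset.mem_symmDiff, Finset.mem_union, Finset.mem_sdiff]
  by_cases x ∈ H <;> by_cases x ∈ T <;> tauto

/-- In the hybrid measure the collar `bal 0 s \ bal 0 (2 ρ)`, the middle `bal 0 R \ bal 0 s` and
the outside are independent (`gib_prod`), the middle is uniform (`gib_zero`), the flip of
`bal 0 s` costs nothing (`gib_act`); `avg_Gr`. -/
theorem dI_eq {s R : ℝ} (hρ : 2 ≤ ρ) (hs : 2 * ρ + 1 ≤ s) (hR : s ≤ R) (hΛ : bal 0 R ⊆ Λ)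
    (hj : ∀ x, s - 1 < dst x 0 → dst x 0 ≤ R + 1 → j x = 0) (h : Off (bal 0 ρ) c c') :
    dI Λ S₀ j F ρ c c' = 2 * gib (Λ \ bal 0 R) S₀ j fun o =>
      gib (bal 0 s \ bal 0 (2 * ρ)) (c ∩ bal 0 (2 * ρ)) j fun X =>
        dF s R X (X ∆ (c ∆ c')) (o \ bal 0 R) F := by
  have hY := GRec1_Y h
  have h' : Off (bal 0 ρ) (fl ρ c) (fl ρ c') := fun x hx => by
    rw [fl, fl, Finset.mem_symmDiff, Finset.mem_symmDiff, h x hx]
  have e : fl ρ c ∆ fl ρ c' = c ∆ c' := by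
    ext x
    simp only [fl, Finset.mem_symmDiff]
    tauto
  rw [dI, gI_diff hρ h, gI_diff hρ h', e, GRec1_split hs hR hΛ hj, GRec1_split hs hR hΛ hj,
    ← gib_add, ← gib_mul]
  refine gib_congr fun o _ => ?_
  rw [GRec1_flip hs hR hj, ← gib_add, ← gib_mul]
  refine gib_congr fun X _ => ?_
  have e1 : ∀ S, (X ∆ (c ∆ c') ∪ o \ bal 0 R) ∆ S = ((X ∪ o \ bal 0 R) ∆ S) ∆ (c ∆ c') :=
    fun S => GRec1_set1 fun x hx => mem_bal.2 (by linarith [hY x hx])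
  have e2 : ∀ T ∈ (bal 0 R \ bal 0 s).powerset,
      (X ∆ bal 0 s ∪ o \ bal 0 R) ∆ T = (X ∪ o \ bal 0 R) ∆ (T ∪ bal 0 s) :=
    fun T hT => GRec1_set2 (bal_mono 0 hR) (Finset.mem_powerset.1 hT)
  rw [dF, avg_Gr (bal_mono 0 hR) ⟨0, mem_bal.2 (by rw [dst_self]; linarith)⟩, smul_eq_mul,
    ← mul_assoc, show (2 : ℝ) * (1 / 2) = 1 by norm_num, one_mul]
  simp only [e1]
  congr 1
  exact avg_congr fun T hT => by rw [e2 T hT]

theorem GRec1_FH {s R : ℝ} (hρ : 2 ≤ ρ) (hs : 2 * ρ + 1 ≤ s) (h : Off (bal 0 ρ) c c')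
    (hF : Meas (bal 0 R) F) (f1 : ∀ S, |F S| ≤ 1) {X : Finset Site}
    (hX : Off (bal 0 s \ bal 0 (2 * ρ)) X (c ∩ bal 0 (2 * ρ))) (o : Finset Site) :
    FH s R X (X ∆ (c ∆ c')) (o \ bal 0 R) F := by
  have hY := GRec1_Y h
  have hXs := GRec1_sub hs hX
  refine ⟨hXs, fun x hx => ?_, fun x hx => ?_, Finset.sdiff_disjoint, hF, f1⟩
  · rcases Finset.mem_symmDiff.1 hx with h1 | h1
    · exact hXs h1.1
    · exact mem_bal.2 (by linarith [hY x h1.1])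
  · have h1 : x ∉ c ∆ c' := fun h2 => hx (mem_bal.2 (by linarith [hY x h2]))
    rw [Finset.mem_symmDiff]
    tauto

theorem dI_le {s R : ℝ} (hρ : 2 ≤ ρ) (hs : 2 * ρ + 1 ≤ s) (hR : s ≤ R) (hΛ : bal 0 R ⊆ Λ)
    (hj : ∀ x, s - 1 < dst x 0 → dst x 0 ≤ R + 1 → j x = 0) (h : Off (bal 0 ρ) c c')
    (hF : Meas (bal 0 R) F) (f1 : ∀ S, |F S| ≤ 1)
    (hκ : ∀ X X' o, FH s R X X' o F → |dF s R X X' o F| ≤ κ) : |dI Λ S₀ j F ρ c c'| ≤ 2 * κ := by
  rw [dI_eq hρ hs hR hΛ hj h, abs_mul, abs_two]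
  refine mul_le_mul_of_nonneg_left ?_ zero_le_two
  exact abs_gib_le fun o _ => abs_gib_le fun X hX => hκ _ _ _ (GRec1_FH hρ hs h hF f1 hX o)

theorem GRec1_off_rot (h : Off (bal 0 ρ) c c') : Off (bal 0 ρ) (rotA.mS c) (rotA.mS c') := by
  intro x hx
  obtain ⟨x, rfl⟩ := rotA.fS.surjective x
  rw [← rot_bal, rotA.mem_mS] at hx
  rw [rotA.mem_mS, rotA.mem_mS]
  exact h x hx

theorem GRec1_rot {s : ℝ} (hr : ∀ x ∈ bal 0 (s + 1), j (gS x) = j x) (c : Finset Site)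
    (K : Finset Site → ℝ) :
    gib (bal 0 s \ bal 0 (2 * ρ)) (rotA.mS c ∩ bal 0 (2 * ρ)) j K =
      gib (bal 0 s \ bal 0 (2 * ρ)) (c ∩ bal 0 (2 * ρ)) j fun X => K (rotA.mS X) := by
  have h1 := gib_aut (Λ := bal 0 s \ bal 0 (2 * ρ)) (S₀ := c ∩ bal 0 (2 * ρ)) (j := j) (F := K)
    rotA
  rw [rotA.mS_sdiff, rotA.mS_inter, rot_bal, rot_bal] at h1
  rw [h1]
  refine gib_congr_j fun e he => ?_
  obtain ⟨h2, h3⟩ := GRec1_in (r := s)
    (fun x hx => mem_bal.1 (Finset.mem_sdiff.1 (Finset.mem_coe.1 hx)).1) he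
  exact congrArg₂ (· + ·) (hr _ (mem_bal.2 h2)) (hr _ (mem_bal.2 h3))

/-- the law of the collar is equivariant (`gib_aut`, `gib_congr_j`) -/
theorem dI_rot_le {s R : ℝ} (hρ : 2 ≤ ρ) (hs : 2 * ρ + 1 ≤ s) (hR : s ≤ R) (hΛ : bal 0 R ⊆ Λ)
    (hj : ∀ x, s - 1 < dst x 0 → dst x 0 ≤ R + 1 → j x = 0)
    (hr : ∀ x ∈ bal 0 (s + 1), j (gS x) = j x) (h : Off (bal 0 ρ) c c')
    (hF : Meas (bal 0 R) F) (f1 : ∀ S, |F S| ≤ 1)
    (hκ : ∀ X X' o, FH s R X X' o F → |dF s R X X' o F + dF s R (rotA.mS X) (rotA.mS X') o F +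
      dF s R (rotA.mS (rotA.mS X)) (rotA.mS (rotA.mS X')) o F| ≤ κ) :
    |dI Λ S₀ j F ρ c c' + dI Λ S₀ j F ρ (rotA.mS c) (rotA.mS c') +
      dI Λ S₀ j F ρ (rotA.mS (rotA.mS c)) (rotA.mS (rotA.mS c'))| ≤ 2 * κ := by
  have h1 := GRec1_off_rot h
  have h2 := GRec1_off_rot h1
  rw [dI_eq hρ hs hR hΛ hj h, dI_eq hρ hs hR hΛ hj h1, dI_eq hρ hs hR hΛ hj h2, ← mul_add,
    ← mul_add, ← gib_add, ← gib_add, abs_mul, abs_two]
  refine mul_le_mul_of_nonneg_left (abs_gib_le fun o _ => ?_) zero_le_two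
  rw [GRec1_rot hr (rotA.mS c), GRec1_rot hr c, GRec1_rot hr c, ← gib_add, ← gib_add]
  refine abs_gib_le fun X hX => ?_
  simp only [← Aut.mS_symmDiff]
  exact hκ _ _ _ (GRec1_FH hρ hs h hF f1 hX o)

end

end Pool.Agent.TAF.U
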