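import Pool.Agent.P.MP_cb4022_pr.U.HP1

/-! Flat boundaries (paper H, geometry). -/

open scoped Classical symmDiff
open Filter Topology

noncomputable section

namespace Pool.Agent.TAF.U

/-- near the sites of `W` the domain is almost a half-plane up to the scale `r₁` -/
def Nice (D : Finset Site) (W : Set Site) (r₁ η : ℝ) : Prop :=
  ∀ x ∈ D, x ∈ W → ∀ o ∉ D, dst x o ≤ r₁ / 10 → ∃ q n : ℂ, ‖n‖ = 1 ∧ ‖q - pos x‖ ≤ dst x o ∧
    (∀ y ∈ D, ‖pos y - q‖ < r₁ → -(η * ‖pos y - q‖) ≤ hgt n (pos y - q)) ∧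
    ∀ o' ∉ D, ∀ y : Site, ‖pos o' - q‖ < r₁ → ‖pos y - q‖ < r₁ →
      hgt n (pos y - pos o') ≤ -(‖pos y - pos o'‖ / 2) → y ∉ D

/-- one of the six lattice directions makes an angle at most `pi / 6` with `- n` -/
theorem exists_dir {n : ℂ} (hn : ‖n‖ = 1) : ∃ e : Site, tri.Adj 0 e ∧ hgt n (pos e) ≤ -0.86 := by
  by_contra hc
  push Not at hc
  have h3 : √3 ^ 2 = (3 : ℝ) := Real.sq_sqrt (by norm_num)
  have hn2 : n.re ^ 2 + n.im ^ 2 = 1 := by
    have := Complex.sq_norm n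
    rw [hn, Complex.normSq_apply] at this
    linarith
  have a1 := hc (1, 0) (by simp [tri])
  have a2 := hc (-1, 0) (by simp [tri])
  have a3 := hc (0, 1) (by simp [tri])
  have a4 := hc (0, -1) (by simp [tri])
  have a5 := hc (1, -1) (by simp [tri])
  have a6 := hc (-1, 1) (by simp [tri])
  simp only [hgt, pos, Complex.mul_re, Complex.conj_re, Complex.conj_im] at a1 a2 a3 a4 a5 a6
  push_cast at a1 a2 a3 a4 a5 a6
  obtain ⟨b, hb⟩ : ∃ b, b = n.re / 2 + √3 / 2 * n.im := ⟨_, rfl⟩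
  obtain ⟨c, hc⟩ : ∃ c, c = n.re / 2 - √3 / 2 * n.im := ⟨_, rfl⟩
  have e1 : (b + c) ^ 2 + b ^ 2 + c ^ 2 = 3 / 2 := by
    rw [hb, hc]
    linear_combination 3 / 2 * hn2 + n.im ^ 2 / 2 * h3
  have b1 : b ^ 2 < 0.86 ^ 2 := sq_lt_sq' (by linarith) (by linarith)
  have b2 : c ^ 2 < 0.86 ^ 2 := sq_lt_sq' (by linarith) (by linarith)
  have b3 : (b + c) ^ 2 < 0.86 ^ 2 := sq_lt_sq' (by linarith) (by linarith)
  rcases le_total 0 b with h1 | h1 <;> rcases le_total 0 c with h2 | h2 <;>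
    rcases le_total 0 (b + c) with h4 | h4 <;> nlinarith

theorem Nice_pos_smul (k : ℤ) (e : Site) : pos (k • e) = ((k : ℝ) : ℂ) * pos e := by
  apply Complex.ext <;> simp [pos] <;> ring

theorem Nice_norm {e : Site} (he : tri.Adj 0 e) : ‖pos e‖ = 1 := by
  rw [← dst_zero, dst_comm, dst_adj he]

theorem Nice_dst_ray {e : Site} (he : tri.Adj 0 e) (a : Site) {k : ℤ} (hk : 0 ≤ k) :
    dst (a + k • e) a = k := by
  rw [dst, pos_add, add_sub_cancel_left, Nice_pos_smul, norm_mul, Nice_norm he, mul_one,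
    Complex.norm_real, Real.norm_of_nonneg (by exact_mod_cast hk)]

theorem Nice_dst_shift (a b t : Site) : dst (a + t) (b + t) = dst a b := by
  rw [dst, dst, pos_add, pos_add, add_sub_add_right_eq_sub]

/-- a site close to a far point of the ray from `o` is in the cone below `o` -/
theorem Nice_cone {n : ℂ} (hn : ‖n‖ = 1) {e : Site} (he : tri.Adj 0 e)
    (hh : hgt n (pos e) ≤ -0.86) {o y : Site} {k : ℤ} (hk : 0 ≤ k)
    (h : 5 * dst y (o + k • e) ≤ k) : hgt n (pos y - pos o) ≤ -(‖pos y - pos o‖ / 2) := by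
  have k0 : (0 : ℝ) ≤ k := by exact_mod_cast hk
  have h1 : pos y - pos o = ((k : ℝ) : ℂ) * pos e + (pos y - pos (o + k • e)) := by
    rw [pos_add, Nice_pos_smul]
    ring
  have h2 : ‖pos y - pos o‖ ≤ dst y (o + k • e) + k := by
    have := dst_tri y (o + k • e) o
    rwa [Nice_dst_ray he o hk] at this
  have h3 := (abs_le.1 (abs_hgt_le hn (pos y - pos (o + k • e)))).2
  have h4 := mul_le_mul_of_nonneg_left hh k0
  have h5 := dst_nonneg y (o + k • e)
  have h6 : hgt n (pos y - pos o) = k * hgt n (pos e) + hgt n (pos y - pos (o + k • e)) := by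
    rw [h1, hgt_add, hgt_smul]
  rw [h6]
  unfold dst at h h2 h5
  linarith

theorem Nice_ray {X : Set Site} {e : Site} (he : tri.Adj 0 e) (a : Site) (T : ℕ)
    (h : ∀ k : ℤ, 0 ≤ k → k ≤ T → a + k • e ∈ X) : Jn X a (a + (T : ℤ) • e) := by
  induction T with
  | zero => simpa using Jn.refl X a
  | succ T ih =>
    refine (ih fun k h0 h1 => h k h0 (by push_cast; omega)).trans
      (Jn.single (h _ (by omega) (by push_cast; omega)) (h _ (by omega) le_rfl) ?_)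
    have e1 : a + ((T + 1 : ℕ) : ℤ) • e - (a + (T : ℤ) • e) = e - 0 := by
      push_cast
      rw [add_smul, one_smul]
      abel
    change _ - _ ∈ _
    rw [e1]
    exact he

/-- The sites outside `D` in the middle annulus are joined outside `D`: follow the rays in the
direction `e` for `⌊R / 2⌋` steps into `bal (p + ⌊R / 2⌋ e) (R / 20)`, which is in the cone below
`o`. A ray that entered `bal p s` would put `x` in the cone below its starting point. -/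
theorem out_joined {D : Finset Site} {p x o : Site} {q n : ℂ} {s R r₁ : ℝ} (hn : ‖n‖ = 1)
    (hs : 1 ≤ s) (hR : 100 * s ≤ R) (hr : 3 * R ≤ r₁) (hx : x ∈ D) (h1 : dst x p ≤ s) (ho : o ∉ D)
    (h2 : dst o p ≤ s) (hq : ‖q - pos p‖ ≤ 3 * s)
    (hF : ∀ o' ∉ D, ∀ y : Site, ‖pos o' - q‖ < r₁ → ‖pos y - q‖ < r₁ →
      hgt n (pos y - pos o') ≤ -(‖pos y - pos o'‖ / 2) → y ∉ D)
    {a b : Site} (ha : a ∈ ann p (20 * s) (R / 20) \ D) (hb : b ∈ ann p (20 * s) (R / 20) \ D) :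
    Jn (ann p s R \ D : Finset Site) a b := by
  obtain ⟨e, he, hh⟩ := exists_dir hn
  set T : ℕ := ⌊R / 2⌋₊ with hT
  have T1 : (T : ℝ) ≤ R / 2 := Nat.floor_le (by linarith)
  have T2 : R / 2 < T + 1 := Nat.lt_floor_add_one _
  have T0 : (0 : ℤ) ≤ T := Int.natCast_nonneg _
  have near : ∀ y : Site, dst y p ≤ R → ‖pos y - q‖ < r₁ := fun y hy => by
    have := norm_sub_le_norm_sub_add_norm_sub (pos y) (pos p) q
    rw [norm_sub_rev (pos p)] at this
    unfold dst at hy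
    linarith
  have mem : ∀ y : Site, s < dst y p → dst y p ≤ R → y ∉ D →
      y ∈ ((ann p s R \ D : Finset Site) : Set Site) := fun y a1 a2 a3 =>
    Finset.mem_coe.2 (Finset.mem_sdiff.2 ⟨mem_ann.2 ⟨a1, a2⟩, a3⟩)
  have ray : ∀ a ∈ ann p (20 * s) (R / 20) \ D, Jn (ann p s R \ D : Finset Site) a
      (a + (T : ℤ) • e) ∧ a + (T : ℤ) • e ∈ (bal (p + (T : ℤ) • e) (R / 20) : Set Site) := by
    intro a ha
    obtain ⟨a1, a3⟩ := Finset.mem_sdiff.1 ha
    obtain ⟨a1, a2⟩ := mem_ann.1 a1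
    refine ⟨Nice_ray he a T fun k k0 k1 => ?_, mem_bal.2 (by rwa [Nice_dst_shift])⟩
    have k2 : (k : ℝ) ≤ T := by exact_mod_cast k1
    have d1 := Nice_dst_ray he a k0
    have d2 := dst_tri (a + k • e) a p
    have d3 : dst (a + k • e) p ≤ R := by linarith
    have d4 := near a (by linarith)
    refine mem _ (not_le.1 fun hc => ?_) d3 (hF a a3 _ d4 (near _ d3)
      (Nice_cone hn he hh k0 (by rw [dst_self, mul_zero]; exact_mod_cast k0)))
    refine hF a a3 x d4 (near x (by linarith)) (Nice_cone hn he hh k0 ?_) hx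
    have d5 := dst_tri x p (a + k • e)
    have d6 := dst_tri a (a + k • e) p
    rw [dst_comm p] at d5
    rw [dst_comm a (a + k • e)] at d6
    linarith
  have ball : (bal (p + (T : ℤ) • e) (R / 20) : Set Site) ⊆ (ann p s R \ D : Finset Site) := by
    intro y hy
    have y1 := mem_bal.1 hy
    have d1 := Nice_dst_ray he p T0
    have d2 := dst_tri y (p + (T : ℤ) • e) p
    have d3 := dst_tri (p + (T : ℤ) • e) y p
    have d4 := dst_tri y (p + (T : ℤ) • e) (o + (T : ℤ) • e)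
    rw [dst_comm _ y] at d3
    rw [Nice_dst_shift, dst_comm p o] at d4
    push_cast at d1
    have d5 : dst y p ≤ R := by linarith
    refine mem y (by linarith) d5 (hF o ho y (near o (by linarith)) (near y d5)
      (Nice_cone hn he hh T0 ?_))
    push_cast
    linarith
  obtain ⟨a1, a2⟩ := ray a ha
  obtain ⟨b1, b2⟩ := ray b hb
  exact a1.trans (((sconn_bal _ _ _ a2 _ b2).mono ball).trans b1.symm)

theorem Nice_dual {e : Site} (he : tri.Adj 0 e) : ∃ f : Site, e.1 * f.2 - e.2 * f.1 = 1 := by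
  obtain ⟨a, b⟩ := e
  simp only [tri, sub_zero, Finset.mem_insert, Finset.mem_singleton, Prod.mk.injEq] at he
  rcases he with ⟨rfl, rfl⟩ | ⟨rfl, rfl⟩ | ⟨rfl, rfl⟩ | ⟨rfl, rfl⟩ | ⟨rfl, rfl⟩ | ⟨rfl, rfl⟩
  exacts [⟨(0, 1), rfl⟩, ⟨(0, -1), rfl⟩, ⟨(-1, 0), rfl⟩, ⟨(1, 0), rfl⟩, ⟨(1, 0), rfl⟩,
    ⟨(-1, 0), rfl⟩]

theorem Nice_det {e : Site} (he : tri.Adj 0 e) (w p : Site) :
    |((e.1 * (w.2 - p.2) - e.2 * (w.1 - p.1) : ℤ) : ℝ)| ≤ 3 / 2 * dst w p := by
  have h1 := dst_sq w p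
  have h2 := dst_sq e 0
  rw [dst_comm, dst_adj he] at h2
  simp only [Prod.fst_zero, Prod.snd_zero, sub_zero] at h2
  push_cast at h1 h2 ⊢
  refine abs_le_of_sq_le_sq ?_ (by linarith [dst_nonneg w p])
  generalize ((w.1 : ℝ) - p.1) = u at *
  generalize ((w.2 : ℝ) - p.2) = v at *
  have h3 : dst w p ^ 2 = (u * e.1 + (u * e.2 + v * e.1) / 2 + v * e.2) ^ 2 +
      3 / 4 * (e.1 * v - e.2 * u) ^ 2 := by
    rw [h1]
    linear_combination (u ^ 2 + u * v + v ^ 2) * h2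
  nlinarith [sq_nonneg (u * e.1 + (u * e.2 + v * e.1) / 2 + v * e.2), sq_nonneg (dst w p)]

/-- At most `5 d + 1` such sites on each lattice line parallel to `e`, with one pair `q, n` for the
whole ball; for `d > ρ` use `card_bal`. -/
theorem count_near {D : Finset Site} {W : Set Site} {r₁ η ρ d : ℝ} (h : Nice D W r₁ η) {p : Site}
    (h0 : 0 ≤ ρ) (hρ : 100 * ρ ≤ r₁) (hW : ∀ x ∈ D, dst x p ≤ ρ → x ∈ W) (hd : 1 ≤ d) :
    (((D ∩ bal p ρ).filter fun w => ∃ o ∉ D, dst o w ≤ d).card : ℝ) ≤ 30 * (ρ + 1) * d := by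
  set S := (D ∩ bal p ρ).filter fun w => ∃ o ∉ D, dst o w ≤ d with hS
  have hm : ∀ w ∈ S, w ∈ D ∧ dst w p ≤ ρ ∧ ∃ o ∉ D, dst o w ≤ d := fun w hw => by
    obtain ⟨a1, a2⟩ := Finset.mem_filter.1 hw
    exact ⟨(Finset.mem_inter.1 a1).1, mem_bal.1 (Finset.mem_inter.1 a1).2, a2⟩
  by_cases hdρ : ρ ≤ d
  · have h1 : (S.card : ℝ) ≤ (bal p ρ).card := Nat.cast_le.2
      (Finset.card_le_card fun w hw => mem_bal.2 (hm w hw).2.1)
    have h2 := card_bal p h0
    nlinarith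
  rcases S.eq_empty_or_nonempty with hE | ⟨w₀, hw₀⟩
  · rw [hE, Finset.card_empty, Nat.cast_zero]
    positivity
  rw [not_le] at hdρ
  obtain ⟨w1, w2, o₀, w3, w4⟩ := hm w₀ hw₀
  rw [dst_comm] at w4
  obtain ⟨q, n, hn, hq, -, hF⟩ := h w₀ w1 (hW w₀ w1 w2) o₀ w3 (by linarith)
  obtain ⟨e, he, hh⟩ := exists_dir hn
  obtain ⟨f, hf⟩ := Nice_dual he
  have near : ∀ y : Site, dst y p ≤ 2 * ρ → ‖pos y - q‖ < r₁ := fun y hy => by
    have a1 := norm_sub_le_norm_sub_add_norm_sub (pos y) (pos w₀) q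
    have a2 := dst_tri y p w₀
    rw [norm_sub_rev (pos w₀)] at a1
    rw [dst_comm p] at a2
    unfold dst at *
    linarith
  set M : ℤ := ⌈5 * d⌉ with hM
  set N : ℤ := ⌊3 / 2 * ρ⌋ with hN
  have M1 : 5 * d ≤ M := Int.le_ceil _
  have M2 : (M : ℝ) < 5 * d + 1 := Int.ceil_lt_add_one _
  have M0 : 0 < M := by
    have : (0 : ℝ) < M := by linarith
    exact_mod_cast this
  have N1 : (N : ℝ) ≤ 3 / 2 * ρ := Int.floor_le _
  have N0 : 0 ≤ N := Int.floor_nonneg.2 (by linarith)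
  have key : ∀ w ∈ S, ∀ k : ℤ, M ≤ k → w + k • e ∉ S := fun w hw k hk hw' => by
    obtain ⟨-, a2, o, a3, a4⟩ := hm w hw
    obtain ⟨b1, b2, -⟩ := hm _ hw'
    have k1 : (M : ℝ) ≤ k := by exact_mod_cast hk
    refine hF o a3 _ (near o (by linarith [dst_tri o w p])) (near _ (by linarith))
      (Nice_cone hn he hh (k := k) (by omega) ?_) b1
    rw [Nice_dst_shift, dst_comm]
    linarith
  have h1 : S.card ≤ (Finset.Icc (-N) N ×ˢ Finset.Ico 0 M).card := by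
    refine Finset.card_le_card_of_injOn
      (fun w => (e.1 * (w.2 - p.2) - e.2 * (w.1 - p.1), (w.1 * f.2 - w.2 * f.1) % M))
      (fun w hw => ?_) fun w hw w' hw' hE => ?_
    · have a1 := (Nice_det he w p).trans (mul_le_mul_of_nonneg_left (hm w hw).2.1 (by norm_num))
      rw [← Int.cast_abs] at a1
      exact Finset.mem_coe.2 (Finset.mem_product.2 ⟨Finset.mem_Icc.2 (abs_le.1 (Int.le_floor.2 a1)),
        Finset.mem_Ico.2 ⟨Int.emod_nonneg _ M0.ne', Int.emod_lt_of_pos _ M0⟩⟩)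
    · obtain ⟨e1, e2⟩ := Prod.mk.inj hE
      obtain ⟨j, hj⟩ := Int.ModEq.dvd e2
      have e3 : w' = w + (M * j) • e := by
        rw [← hj]
        ext
        · simp only [Prod.fst_add, Prod.smul_fst, smul_eq_mul]
          linear_combination (w.1 - w'.1) * hf - f.1 * e1
        · simp only [Prod.snd_add, Prod.smul_snd, smul_eq_mul]
          linear_combination (w.2 - w'.2) * hf - f.2 * e1
      rcases lt_trichotomy j 0 with j0 | j0 | j0
      · refine absurd hw (fun hw => key w' hw' (-(M * j)) (by nlinarith) ?_)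
        rw [e3, neg_smul, add_neg_cancel_right]
        exact hw
      · rw [e3, j0, mul_zero, zero_smul, add_zero]
      · exact absurd (e3 ▸ hw') (key w hw (M * j) (by nlinarith))
  rw [Finset.card_product, Int.card_Icc, Int.card_Ico] at h1
  have h2 : (S.card : ℤ) ≤ (2 * N + 1) * M := by
    have := Int.ofNat_le.2 h1
    rw [Nat.cast_mul, Int.toNat_of_nonneg (by omega), Int.toNat_of_nonneg (by omega)] at this
    linarith
  have h3 : (S.card : ℝ) ≤ (2 * N + 1) * M := by exact_mod_cast h2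
  have h4 : (2 * N + 1 : ℝ) * M ≤ (3 * (ρ + 1)) * (6 * d) :=
    mul_le_mul (by linarith) (by linarith) (by linarith) (by linarith)
  nlinarith

/-- the local form of the two conditions -/
theorem Nice_loc {Ω : Set ℂ} {q : ℂ} {f : ℂ → ℝ} (h1 : ContDiffAt ℝ 1 f q)
    (h2 : fderiv ℝ f q ≠ 0) (h3 : ∀ᶠ z in 𝓝 q, z ∈ Ω ↔ f z < 0) {η : ℝ} (hη : 0 < η) :
    ∃ ρ : ℝ, 0 < ρ ∧ ∃ n : ℂ, ‖n‖ = 1 ∧ ∀ o ∈ Metric.ball q ρ, ∀ y ∈ Metric.ball q ρ, o ∉ Ω →
      y ∈ Ω → -(min η (1 / 4) * ‖y - o‖) ≤ hgt n (y - o) := by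
  set L := fderiv ℝ f q with hL
  let m : ℂ := ⟨L 1, L Complex.I⟩
  have hm : ∀ v : ℂ, L v = v.re * m.re + v.im * m.im := fun v => by
    have : v = v.re • (1 : ℂ) + v.im • Complex.I := by
      apply Complex.ext <;> simp
    conv_lhs => rw [this, map_add, map_smul, map_smul]
    rfl
  have m0 : 0 < ‖m‖ := by
    refine norm_pos_iff.2 fun h => h2 (ContinuousLinearMap.ext fun v => ?_)
    rw [hm, h]
    simp
  have hs : HasStrictFDerivAt f L q := h1.hasStrictFDerivAt one_ne_zero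
  have ε0 : 0 < min η (1 / 4) * ‖m‖ := by positivity
  have h4 := Asymptotics.isLittleO_iff.1 hs.isLittleO ε0
  have h5 : ∀ᶠ p : ℂ × ℂ in 𝓝 (q, q), (p.1 ∈ Ω ↔ f p.1 < 0) ∧ (p.2 ∈ Ω ↔ f p.2 < 0) :=
    ((continuousAt_fst (p := (q, q))).eventually h3).and
      ((continuousAt_snd (p := (q, q))).eventually h3)
  obtain ⟨ρ, ρ0, hρ⟩ := Metric.eventually_nhds_iff_ball.1 (h4.and h5)
  refine ⟨ρ, ρ0, ((-‖m‖⁻¹ : ℝ) : ℂ) * m, ?_, fun o ho y hy a1 a2 => ?_⟩
  · rw [norm_mul, Complex.norm_real, norm_neg, norm_inv, norm_norm, inv_mul_cancel₀ m0.ne']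
  · obtain ⟨b1, b2, b3⟩ := hρ (y, o) (by rw [← ball_prod_same]; exact ⟨hy, ho⟩)
    have b4 := b2.1 a2
    have b5 := not_lt.1 (mt b3.2 a1)
    have b6 := (abs_le.1 b1).1
    dsimp only at b4 b5 b6
    have b7 : hgt (((-‖m‖⁻¹ : ℝ) : ℂ) * m) (y - o) = -(‖m‖⁻¹ * L (y - o)) := by
      rw [hm, hgt, map_mul, Complex.conj_ofReal, mul_left_comm, Complex.re_ofReal_mul,
        Complex.mul_re, Complex.conj_re, Complex.conj_im]
      ring
    rw [b7, neg_le_neg_iff, inv_mul_le_iff₀ m0]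
    linarith

/-- Compactness of `frontier Ω` minus the open discs of radius `a / 2` round `Z`, Lebesgue number,
mean value inequality for `f - fderiv ℝ f q₀`; `n` is minus the normalised gradient. -/
theorem nice_of_C1 {Ω : Set ℂ} (ho : IsOpen Ω) (hb : Bornology.IsBounded Ω) {Z : Finset ℂ}
    (hZ : ∀ q ∈ frontier Ω, q ∉ Z → ∃ f : ℂ → ℝ, ContDiffAt ℝ 1 f q ∧ fderiv ℝ f q ≠ 0 ∧
      ∀ᶠ z in 𝓝 q, z ∈ Ω ↔ f z < 0) {η a : ℝ} (hη : 0 < η) (ha : 0 < a) :
    ∃ r : ℝ, 0 < r ∧ ∀ (δ : ℝ) (D : Finset Site), 0 < δ → (∀ u, u ∈ D ↔ δ * pos u ∈ Ω) →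
      Nice D {x | ∀ z ∈ Z, a ≤ ‖δ * pos x - z‖} (r / δ) η := by
  set K := frontier Ω ∩ {q | ∀ z ∈ Z, a / 2 ≤ ‖q - z‖} with hK
  have hc : IsCompact K := by
    refine (hb.isCompact_closure.of_isClosed_subset isClosed_frontier
      frontier_subset_closure).inter_right ?_
    simp only [Set.ofPred_forall]
    exact isClosed_iInter fun z => isClosed_iInter fun _ =>
      isClosed_le continuous_const (by fun_prop)
  have hl : ∀ q : K, ∃ ρ : ℝ, 0 < ρ ∧ ∃ n : ℂ, ‖n‖ = 1 ∧ ∀ o ∈ Metric.ball (q : ℂ) ρ,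
      ∀ y ∈ Metric.ball (q : ℂ) ρ, o ∉ Ω → y ∈ Ω →
        -(min η (1 / 4) * ‖y - o‖) ≤ hgt n (y - o) := by
    rintro ⟨q, h1, h2⟩
    obtain ⟨f, a1, a2, a3⟩ := hZ q h1 fun hq => by
      have := h2 q hq
      rw [sub_self, norm_zero] at this
      linarith
    exact Nice_loc a1 a2 a3 hη
  choose ρ ρ0 n hn hρ using hl
  obtain ⟨l, l0, hl⟩ := lebesgue_number_lemma_of_metric (c := fun q : K => Metric.ball (q : ℂ) (ρ q))
    hc (fun _ => Metric.isOpen_ball)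
    fun q hq => Set.mem_iUnion.2 ⟨⟨q, hq⟩, Metric.mem_ball_self (ρ0 _)⟩
  refine ⟨min l a, lt_min l0 ha, fun δ D δ0 hD x hx hW o hoD hxo => ?_⟩
  have sc : ∀ v : ℂ, ‖(δ : ℂ) * v‖ = δ * ‖v‖ := fun v => by
    rw [norm_mul, Complex.norm_real, Real.norm_of_nonneg δ0.le]
  have δ1 : (δ : ℂ) ≠ 0 := Complex.ofReal_ne_zero.2 δ0.ne'
  obtain ⟨q, q1, q2⟩ : ∃ q ∈ frontier Ω, ‖q - δ * pos x‖ ≤ δ * dst x o := by
    by_contra hcon
    push Not at hcon
    have h1 : Metric.closedBall (δ * pos x) (δ * dst x o) ⊆ Ω := by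
      refine (convex_closedBall _ _).isPreconnected.subset_of_closure_inter_subset ho
        ⟨_, Metric.mem_closedBall_self (mul_nonneg δ0.le (dst_nonneg _ _)), (hD x).1 hx⟩ ?_
      rintro z ⟨z1, z2⟩
      by_contra z3
      exact (hcon z (ho.frontier_eq ▸ ⟨z1, z3⟩)).not_ge (mem_closedBall_iff_norm.1 z2)
    refine hoD ((hD o).2 (h1 (mem_closedBall_iff_norm.2 ?_)))
    rw [← mul_sub, sc, dst_comm, dst]
  have q3 : δ * dst x o ≤ a / 10 := by
    have h1 := mul_le_mul_of_nonneg_left hxo δ0.le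
    have h2 : δ * (min l a / δ / 10) = min l a / 10 := by field_simp
    linarith [min_le_right l a]
  have q4 : q ∈ K := by
    refine ⟨q1, fun z hz => ?_⟩
    have h1 := hW z hz
    have h2 := norm_sub_le_norm_sub_add_norm_sub (δ * pos x) q z
    rw [norm_sub_rev _ q] at h2
    linarith
  have q5 : q ∉ Ω := (ho.frontier_eq ▸ q1).2
  obtain ⟨i, hi⟩ := hl q q4
  have e1 : ∀ v : ℂ, δ * v - q = δ * (v - q / δ) := fun v => by field_simp
  have inb : ∀ y : Site, ‖pos y - q / δ‖ < min l a / δ → δ * pos y ∈ Metric.ball (i : ℂ) (ρ i) := by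
    intro y hy
    refine hi (mem_ball_iff_norm.2 ?_)
    rw [e1, sc]
    rw [lt_div_iff₀' δ0] at hy
    exact hy.trans_le (min_le_left _ _)
  have dv : ∀ v : ℂ, -(min η (1 / 4) * ‖δ * v‖) ≤ hgt (n i) (δ * v) →
      -(min η (1 / 4) * ‖v‖) ≤ hgt (n i) v := fun v hv => by
    rw [sc, hgt_smul] at hv
    refine le_of_mul_le_mul_left ?_ δ0
    linarith
  refine ⟨q / δ, n i, hn i, ?_, fun y hy h1 => ?_, fun o' ho' y h1 h2 h3 hy => ?_⟩
  · refine le_of_mul_le_mul_left ?_ δ0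
    rwa [norm_sub_rev, ← sc, ← e1, norm_sub_rev]
  · have h2 := hρ i q (hi (Metric.mem_ball_self l0)) _ (inb y h1) q5 ((hD y).1 hy)
    rw [e1] at h2
    refine le_trans (neg_le_neg ?_) (dv _ h2)
    exact mul_le_mul_of_nonneg_right (min_le_left _ _) (norm_nonneg _)
  · have h4 := hρ i _ (inb o' h1) _ (inb y h2) (fun h => ho' ((hD o').2 h)) ((hD y).1 hy)
    rw [← mul_sub] at h4
    have h5 := dv _ h4
    have h6 := mul_le_mul_of_nonneg_right (min_le_right η (1 / 4)) (norm_nonneg (pos y - pos o'))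
    have h7 := one_le_dst (x := y) (y := o') fun h => ho' (h ▸ hy)
    unfold dst at h7
    linarith

end Pool.Agent.TAF.U
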