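import Pool.Agent.P.MP_cb4022_pr.U.HP2
import Pool.Agent.P.MP_cb4022_pr.U.Nice
import Pool.Agent.P.MP_cb4022_pr.U.Same

/-! Three arcs near a flat boundary (paper H3). -/

open scoped Classical symmDiff

noncomputable section

namespace Pool.Agent.TAF.U

/-- `same_type` gives two different blue crossing clusters of `ann p s R`; by `out_joined` one of
their restrictions to the middle annulus has no site outside `D`, hence no neighbour outside `D`
in the middle annulus: it is a cluster for every recolouring `T` of the outside. -/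
theorem he_of_arc {D σ T : Finset Site} {p x o : Site} {q n : ℂ} {s R r₁ η : ℝ} (hn : ‖n‖ = 1)
    (hs : 1 ≤ s) (hR : 1000 * s ≤ R) (hr : 3 * R ≤ r₁) (hη : η * R ≤ s) (hx : x ∈ D)
    (h1 : dst x p ≤ s) (ho : o ∉ D) (h2 : dst o p ≤ s) (hq : ‖q - pos p‖ ≤ 3 * s)
    (F1 : ∀ y ∈ D, ‖pos y - q‖ < r₁ → -(η * ‖pos y - q‖) ≤ hgt n (pos y - q))
    (F2 : ∀ o' ∉ D, ∀ y : Site, ‖pos o' - q‖ < r₁ → ‖pos y - q‖ < r₁ →
      hgt n (pos y - pos o') ≤ -(‖pos y - pos o'‖ / 2) → y ∉ D)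
    (hσ : σ ⊆ D) (hT : Disjoint T D) (ha : Arc 3 (bd σ) p s R) :
    HE p n (hgt n q - 2 * s) (20 * s) (R / 20) (σ ∪ T) := by
  obtain ⟨f, hf, hj⟩ := same_type (by linarith) (by linarith) ha
  obtain ⟨b₁, b₂, c₁, c₂, nj⟩ : ∃ b₁ b₂, Crs (ann p s R \ σ : Finset Site) p (s + 2) (R - 2) b₁ ∧
      Crs (ann p s R \ σ : Finset Site) p (s + 2) (R - 2) b₂ ∧
        ¬ Jn (ann p s R \ σ : Finset Site) b₁ b₂ := by
    by_cases h : Jn (ann p s R \ σ : Finset Site) (f 0) (f 1)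
    · exact ⟨f 0, f 2, hf 0, hf 2, hj 0 1 2 (by decide) (by decide) (by decide) h⟩
    · exact ⟨f 0, f 1, hf 0, hf 1, h⟩
  obtain ⟨d₁, j₁, k₁⟩ := Clus_inner c₁ (r' := 20 * s) (R' := R / 20) (by linarith) (by linarith)
    (by linarith)
  obtain ⟨d₂, j₂, k₂⟩ := Clus_inner c₂ (r' := 20 * s) (R' := R / 20) (by linarith) (by linarith)
    (by linarith)
  obtain ⟨Z, hZ⟩ : ∃ Z, Z = (ann p s R \ σ) ∩ ann p (20 * s) (R / 20) := ⟨_, rfl⟩
  rw [← hZ] at k₁ k₂
  have z1 : (Z : Set Site) ⊆ (ann p s R \ σ : Finset Site) :=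
    Finset.coe_subset.2 (hZ ▸ Finset.inter_subset_left)
  have z2 : ∀ y ∈ Z, y ∈ ann p (20 * s) (R / 20) ∧ y ∉ σ := fun y hy => by
    rw [hZ, Finset.mem_inter, Finset.mem_sdiff] at hy
    exact ⟨hy.2, hy.1.2⟩
  obtain ⟨d, k, hd⟩ : ∃ d, Crs Z p (20 * s + 1) (R / 20 - 1) d ∧ ∀ y, Jn Z d y → y ∈ D := by
    by_contra hc
    push Not at hc
    obtain ⟨y₁, a₁, o₁⟩ := hc d₁ k₁
    obtain ⟨y₂, a₂, o₂⟩ := hc d₂ k₂
    have := out_joined hn hs (by linarith) hr hx h1 ho h2 hq F2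
      (Finset.mem_sdiff.2 ⟨(z2 y₁ (a₁.mem k₁.1)).1, o₁⟩)
      (Finset.mem_sdiff.2 ⟨(z2 y₂ (a₂.mem k₂.1)).1, o₂⟩)
    exact nj ((((j₁.trans (a₁.mono z1)).trans (this.mono (Finset.coe_subset.2
      (Finset.sdiff_subset_sdiff subset_rfl hσ)))).trans (a₂.mono z1).symm).trans j₂.symm)
  have z3 : ((ann p (20 * s) (R / 20) \ (σ ∪ T) : Finset Site) : Set Site) ⊆ Z := fun y hy => by
    rw [Finset.mem_coe, Finset.mem_sdiff, Finset.mem_union, not_or] at hy
    have := mem_ann.1 hy.1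
    rw [hZ, Finset.mem_coe, Finset.mem_inter, Finset.mem_sdiff]
    exact ⟨⟨mem_ann.2 ⟨by linarith [this.1], by linarith [this.2]⟩, hy.2.1⟩, hy.1⟩
  have z4 : ∀ y, Jn Z d y →
      y ∈ ((ann p (20 * s) (R / 20) \ (σ ∪ T) : Finset Site) : Set Site) := fun y hy => by
    obtain ⟨a, b⟩ := z2 y (hy.mem k.1)
    rw [Finset.mem_coe, Finset.mem_sdiff, Finset.mem_union, not_or]
    exact ⟨a, b, fun t => Finset.disjoint_left.1 hT t (hd y hy)⟩
  have z5 : ∀ y, Jn Z d y → Jn (ann p (20 * s) (R / 20) \ (σ ∪ T) : Finset Site) d y := by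
    intro y hy
    induction hy with
    | refl => exact Jn.refl _ _
    | tail a b ih => exact ih.trans (Jn.single (z4 _ a) (z4 _ (a.tail b)) b.2.2)
  obtain ⟨-, ⟨u, u1, u2⟩, v, v1, v2⟩ := id k
  refine he_iff.2 ⟨d, ⟨z4 d (Jn.refl _ _), ⟨u, u1, z5 u u2⟩, v, v1, z5 v v2⟩, fun y hy => ?_⟩
  have hy' := hy.mono z3
  have a := (mem_ann.1 (z2 y (hy'.mem k.1)).1).2
  have b : ‖pos y - q‖ ≤ R := by
    have := norm_sub_le_norm_sub_add_norm_sub (pos y) (pos p) q
    rw [norm_sub_rev (pos p) q] at this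
    unfold dst at a
    linarith
  have c := F1 y (hd y hy') (by linarith)
  rw [hgt_sub] at c
  have e : η * ‖pos y - q‖ ≤ s := by
    rcases le_total 0 η with h | h
    · exact (mul_le_mul_of_nonneg_left b h).trans hη
    · linarith [mul_nonpos_of_nonpos_of_nonneg h (norm_nonneg (pos y - q))]
  linarith

theorem exists_yellow {N : ℕ} {σ : Finset Site} {p : Site} {s R : ℝ} (h : Arc (N + 1) (bd σ) p s R) :
    ∃ x ∈ σ, dst x p ≤ s := by
  obtain ⟨W, hN, hW⟩ := h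
  obtain ⟨t, ht⟩ := Finset.card_pos.1 (lt_of_lt_of_le (Nat.succ_pos N) hN)
  obtain ⟨o, ⟨i, a, b⟩, -⟩ := hW t ht
  have a' := mem_bal.1 (Finset.mem_coe.1 a)
  have b' := mem_bal.1 (Finset.mem_coe.1 b)
  by_contra hn
  push Not at hn
  have n1 : vtx t (i + 1) ∉ σ := fun h => not_lt.2 a' (hn _ h)
  have n2 : vtx t (i + 2) ∉ σ := fun h => not_lt.2 b' (hn _ h)
  have m1 : vtx t (i + 1) ∉ ann p s R := fun h => not_lt.2 a' (mem_ann.1 h).1
  have m2 : vtx t (i + 2) ∉ ann p s R := fun h => not_lt.2 b' (mem_ann.1 h).1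
  have e1 : i + 1 + 1 = i + 2 := by generalize i = j; revert j; decide
  have e2 : i + 1 + 2 = i := by generalize i = j; revert j; decide
  have e3 : i + 2 + 1 = i := by generalize i = j; revert j; decide
  have e4 : i + 2 + 2 = i + 1 := by generalize i = j; revert j; decide
  rw [isOdd_iff _ t i] at o
  simp only [mem_res, side_mem_bd, touch_side, Finset.mem_coe, e1, e2, e3, e4] at o
  tauto

/-- H3: `he_of_arc`, `hb_two`, `avg_union`, `avg_shift`; small `R / s` is trivial -/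
theorem arc3_bound : ∃ C : ℝ, 0 < C ∧ ∀ (D S₀ : Finset Site) (W : Set Site) (p o : Site)
    (s R r₁ η : ℝ), Nice D W r₁ η → 1 ≤ s → s ≤ R → 3 * R ≤ r₁ → η * R ≤ s →
    (∀ x ∈ D, dst x p ≤ s → x ∈ W) → o ∉ D → dst o p ≤ s → S₀ ⊆ D →
    pr (D ∩ ann p s R).powerset (fun S => Arc 3 (bd (S₀ ∆ S)) p s R) ≤
      C * (s / R) ^ (11 / 8 : ℝ) := by
  obtain ⟨C, hC, hb⟩ := hb_two
  refine ⟨(C + 1) * 1000 ^ (11 / 8 : ℝ), by positivity, ?_⟩
  intro D S₀ W p o s R r₁ η hN hs hsR hr hη hW ho h2 hS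
  have R0 : 0 < R := by linarith
  have q0 : 0 ≤ s / R := by positivity
  rw [mul_assoc, ← Real.mul_rpow (by norm_num) q0]
  rcases le_total R (1000 * s) with hR | hR
  · have : 1 ≤ (1000 * (s / R)) ^ (11 / 8 : ℝ) :=
      Real.one_le_rpow (by rw [← mul_div_assoc, one_le_div R0]; exact hR) (by norm_num)
    exact (pr_le_one _ _).trans (by nlinarith)
  have sub : ∀ S ∈ (D ∩ ann p s R).powerset, S₀ ∆ S ⊆ D := fun S h x hx => by
    rcases Finset.mem_symmDiff.1 hx with a | a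
    · exact hS a.1
    · exact (Finset.mem_inter.1 (Finset.mem_powerset.1 h a.1)).1
  by_cases hex : ∃ S ∈ (D ∩ ann p s R).powerset, Arc 3 (bd (S₀ ∆ S)) p s R
  swap
  · refine avg_le (by positivity) fun S h => ?_
    rw [if_neg fun h' => hex ⟨S, h, h'⟩]
    positivity
  obtain ⟨S₁, m₁, a₁⟩ := hex
  obtain ⟨x, hx, h1⟩ := exists_yellow a₁
  have hxD := sub S₁ m₁ hx
  have xo : dst x o ≤ 2 * s := by linarith [dst_tri x p o, dst_comm p o]
  obtain ⟨q, n, hn, hq, F1, F2⟩ := hN x hxD (hW x hxD h1) o ho (by linarith)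
  have hq' : ‖q - pos p‖ ≤ 3 * s := by
    have := norm_sub_le_norm_sub_add_norm_sub q (pos x) (pos p)
    unfold dst at h1
    linarith
  have hM : ann p (20 * s) (R / 20) ⊆ ann p s R := fun y hy => by
    have := mem_ann.1 hy
    exact mem_ann.2 ⟨by linarith [this.1], by linarith [this.2]⟩
  obtain ⟨c, hc⟩ : ∃ c, c = hgt n q - 2 * s := ⟨_, rfl⟩
  have dj : Disjoint (D ∩ ann p s R) (ann p s R \ D) :=
    Finset.disjoint_sdiff.mono_left Finset.inter_subset_left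
  have un : D ∩ ann p s R ∪ ann p s R \ D = ann p s R := by
    rw [Finset.union_comm, Finset.inter_comm, Finset.sdiff_union_inter]
  have k1 : pr (D ∩ ann p s R).powerset (fun S => Arc 3 (bd (S₀ ∆ S)) p s R) ≤
      pr (ann p s R).powerset (HE p n c (20 * s) (R / 20)) := by
    rw [pr, pr, ← avg_shift (S₀ := S₀ ∩ ann p s R) Finset.inter_subset_right]
    conv_rhs => rw [← un, avg_union dj, un]
    refine avg_mono fun S m => ?_
    split_ifs with a
    · refine le_of_eq ((avg_congr fun T hT => if_pos ?_).trans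
        (avg_const (Finset.powerset_nonempty _) _)).symm
      have dT : Disjoint T D := Finset.sdiff_disjoint.mono_left (Finset.mem_powerset.1 hT)
      have := he_of_arc hn hs hR hr hη hxD h1 ho h2 hq' F1 F2 (sub S m) dT a
      rw [← hc, HE, ← goodC_inter] at this
      rw [HE, ← goodC_inter]
      convert this using 2
      ext y
      have b1 : y ∈ T → y ∉ S₀ := fun h h' => Finset.disjoint_left.1 dT h (hS h')
      have b2 : y ∈ ann p (20 * s) (R / 20) → y ∈ ann p s R := fun h => hM h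
      simp only [Finset.mem_inter, Finset.mem_union, Finset.mem_symmDiff]
      tauto
    · exact avg_nonneg fun T _ => by split_ifs <;> norm_num
  have k2 := hb (20 * s) (R / 20) (by linarith) (by linarith) p n c hn (by
    have := (le_abs_self _).trans (abs_hgt_le hn (pos p - q))
    rw [hgt_sub, norm_sub_rev] at this
    linarith)
  rw [pr_he hM] at k1
  have k3 : (20 * s / (R / 20)) ^ (11 / 8 : ℝ) ≤ (1000 * (s / R)) ^ (11 / 8 : ℝ) := by
    refine Real.rpow_le_rpow (by positivity) ?_ (by norm_num)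
    rw [show 20 * s / (R / 20) = 400 * (s / R) by field_simp; norm_num]
    linarith
  have k4 : 0 ≤ (1000 * (s / R)) ^ (11 / 8 : ℝ) := by positivity
  nlinarith

end Pool.Agent.TAF.U
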