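import Pool.Agent.P.MP_cb4022_pr.U.Clus
import Pool.Agent.P.MP_cb4022_pr.U.AutL

/-! Crossing clusters in a half-plane, first moment (paper H2). -/

open scoped Classical symmDiff

noncomputable section

namespace Pool.Agent.TAF.U

/-- height in the direction `n` -/
def hgt (n z : ℂ) : ℝ := (z * (starRingEnd ℂ) n).re

theorem hgt_add (n z w : ℂ) : hgt n (z + w) = hgt n z + hgt n w := by
  simp only [hgt, add_mul, Complex.add_re]
theorem hgt_sub (n z w : ℂ) : hgt n (z - w) = hgt n z - hgt n w := by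
  simp only [hgt, sub_mul, Complex.sub_re]
theorem hgt_smul (n z : ℂ) (t : ℝ) : hgt n (t * z) = t * hgt n z := by
  simp only [hgt, mul_assoc, Complex.re_ofReal_mul]
theorem abs_hgt_le {n : ℂ} (hn : ‖n‖ = 1) (z : ℂ) : |hgt n z| ≤ ‖z‖ := by
  refine (Complex.abs_re_le_norm _).trans ?_
  rw [norm_mul, Complex.norm_conj, hn, mul_one]

/-- blue crossing clusters of the annulus that lie above the height `c` -/
def goodC (S : Finset Site) (p : Site) (n : ℂ) (c r R : ℝ) : Finset (Finset Site) :=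
  ((ann p r R \ S).filter fun b => Crs (ann p r R \ S : Finset Site) p (r + 1) (R - 1) b ∧
    ∀ y, Jn (ann p r R \ S : Finset Site) b y → c < hgt n (pos y)).image (cmp (ann p r R \ S))

/-- those whose cluster in the full ball stays in the cluster or near the centre -/
def confC (S : Finset Site) (p : Site) (n : ℂ) (c r R K : ℝ) : Finset (Finset Site) :=
  (goodC S p n c r R).filter fun C => ∀ x ∈ C, ∀ y, Jn (bal p R \ S : Finset Site) x y →
    y ∈ C ∨ dst y p ≤ K * r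

def HE (p : Site) (n : ℂ) (c r R : ℝ) (S : Finset Site) : Prop := (goodC S p n c r R).Nonempty

def HB (r R q : ℝ) : Prop := ∀ (p : Site) (n : ℂ) (c : ℝ), ‖n‖ = 1 → hgt n (pos p) - c ≤ r →
  pr (ann p r R).powerset (HE p n c r R) ≤ q

section
variable {S Y : Finset Site} {p : Site} {n : ℂ} {c r R K q : ℝ}

theorem HP1_mem_good {C : Finset Site} : C ∈ goodC S p n c r R ↔
    ∃ b, Crs (ann p r R \ S : Finset Site) p (r + 1) (R - 1) b ∧
      (∀ y, Jn (ann p r R \ S : Finset Site) b y → c < hgt n (pos y)) ∧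
      cmp (ann p r R \ S) b = C := by
  simp only [goodC, Finset.mem_image, Finset.mem_filter]
  constructor
  · rintro ⟨b, ⟨-, h1, h2⟩, h3⟩
    exact ⟨b, h1, h2, h3⟩
  · rintro ⟨b, h1, h2, h3⟩
    exact ⟨b, ⟨Finset.mem_coe.1 h1.1, h1, h2⟩, h3⟩

theorem HP1_cmp_eq {Z : Finset Site} {a b : Site} (h : Jn Z a b) : cmp Z a = cmp Z b := by
  ext x
  simp only [mem_cmp]
  exact and_congr_right fun _ => ⟨fun h' => h.symm.trans h', fun h' => h.trans h'⟩

theorem HP1_inner {Z : Finset Site} {b : Site} {r' R' : ℝ} (h : Crs Z p r R b)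
    (h1 : r ≤ r' + 1) (h2 : R' - 1 ≤ R) (h3 : r' + 2 ≤ R') :
    ∃ c, Jn Z b c ∧ Crs (Z ∩ ann p r' R' : Finset Site) p (r' + 1) (R' - 1) c := by
  obtain ⟨hb, ⟨x, hx, hbx⟩, y, hy, hby⟩ := h
  obtain ⟨u, v, j1, hu, hv, a1, -⟩ := (hbx.symm.trans hby).exit (Z := {z | dst z p ≤ R' - 1})
    (hbx.mem hb) (show dst x p ≤ R' - 1 by linarith)
    (show ¬ dst y p ≤ R' - 1 by push Not; linarith)
  have d1 : R' - 1 < dst v p := not_le.1 hv.2
  have d2 : dst v p ≤ R' := by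
    have e1 : dst u p ≤ R' - 1 := hu.2
    have e2 := dst_tri v u p
    rw [dst_adj a1.symm] at e2
    linarith
  have hs1 : (Z : Set Site) ∩ {z | dst z p ≤ R' - 1} ⊆ (Z : Set Site) ∩ {z | dst z p ≤ R'} :=
    fun z hz => ⟨hz.1, le_trans (show dst z p ≤ R' - 1 from hz.2) (by linarith)⟩
  have hv' : v ∈ (Z : Set Site) ∩ {z | dst z p ≤ R'} := ⟨hv.1, d2⟩
  have j2 : Jn ((Z : Set Site) ∩ {z | dst z p ≤ R'}) x v :=
    (j1.mono hs1).trans (Jn.single (hs1 hu) hv' a1)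
  obtain ⟨u', v', j3, hu', hw, a2, -⟩ := j2.symm.exit (Z := {z | r' + 1 < dst z p}) hv'
    (show r' + 1 < dst v p by linarith) (show ¬ r' + 1 < dst x p by push Not; linarith)
  have d3 : dst v' p ≤ r' + 1 := not_lt.1 hw.2
  have d4 : r' < dst v' p := by
    have e1 : r' + 1 < dst u' p := hu'.2
    have e2 := dst_tri u' v' p
    rw [dst_adj a2] at e2
    linarith
  have hsub : (Z : Set Site) ∩ {z | dst z p ≤ R'} ∩ {z | r' + 1 < dst z p} ⊆
      (Z ∩ ann p r' R' : Finset Site) := fun z hz =>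
    Finset.mem_coe.2 (Finset.mem_inter.2 ⟨hz.1.1, mem_ann.2
      ⟨lt_trans (by linarith) (show r' + 1 < dst z p from hz.2), hz.1.2⟩⟩)
  have hv'' : v' ∈ ((Z ∩ ann p r' R' : Finset Site) : Set Site) :=
    Finset.mem_coe.2 (Finset.mem_inter.2 ⟨hw.1.1, mem_ann.2 ⟨d4, hw.1.2⟩⟩)
  exact ⟨v, hbx.trans (j2.mono Set.inter_subset_left),
    hsub ⟨hv', show r' + 1 < dst v p by linarith⟩,
    ⟨v', d3, (j3.mono hsub).trans (Jn.single (hsub hu') hv'' a2)⟩, v, d1, Jn.refl _ _⟩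

theorem HP1_ann_inter {r' R' : ℝ} (h1 : r ≤ r') (h2 : R' ≤ R) :
    (ann p r R \ S) ∩ ann p r' R' = ann p r' R' \ S := by
  ext z
  simp only [Finset.mem_inter, Finset.mem_sdiff, mem_ann]
  constructor
  · rintro ⟨⟨-, h3⟩, h4⟩
    exact ⟨h4, h3⟩
  · rintro ⟨h4, h3⟩
    exact ⟨⟨⟨h1.trans_lt h4.1, h4.2.trans h2⟩, h3⟩, h4⟩

theorem HP1_card_le {α : Type*} {G : Finset α} {Z : Finset Site} (w : α → Site)
    (h1 : ∀ a ∈ G, Crs Z p r R (w a)) (h2 : ∀ a ∈ G, ∀ a' ∈ G, Jn Z (w a) (w a') → a = a') :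
    G.card ≤ ncl Z p r R := by
  refine le_ncl.2 ⟨G.image w, ?_, ?_, ?_⟩
  · have hi : Set.InjOn w G := fun b hb b' hb' e => h2 b hb b' hb' (e ▸ Jn.refl _ _)
    rw [Finset.card_image_of_injOn hi]
  · intro x hx
    obtain ⟨b, hb, rfl⟩ := Finset.mem_image.1 hx
    exact h1 b hb
  · intro x hx x' hx' hj
    obtain ⟨b, hb, rfl⟩ := Finset.mem_image.1 hx
    obtain ⟨b', hb', rfl⟩ := Finset.mem_image.1 hx'
    rw [h2 b hb b' hb' hj]

theorem he_iff : HE p n c r R S ↔ ∃ b, Crs (ann p r R \ S : Finset Site) p (r + 1) (R - 1) b ∧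
    ∀ y, Jn (ann p r R \ S : Finset Site) b y → c < hgt n (pos y) := by
  constructor
  · rintro ⟨C, hC⟩
    obtain ⟨b, h1, h2, -⟩ := HP1_mem_good.1 hC
    exact ⟨b, h1, h2⟩
  · rintro ⟨b, h1, h2⟩
    exact ⟨_, HP1_mem_good.2 ⟨b, h1, h2, rfl⟩⟩

theorem goodC_inter : goodC (S ∩ ann p r R) p n c r R = goodC S p n c r R := by
  unfold goodC
  rw [Finset.sdiff_inter_self_right]

theorem pr_he (h : ann p r R ⊆ Y) :
    pr Y.powerset (HE p n c r R) = pr (ann p r R).powerset (HE p n c r R) := by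
  rw [pr, pr, ← avg_restrict h]
  refine avg_congr fun S _ => ?_
  have : HE p n c r R (S ∩ ann p r R) ↔ HE p n c r R S := by rw [HE, HE, goodC_inter]
  rw [this]

theorem pr_he_shift (t : Site) : pr (ann (p + t) r R).powerset (HE (p + t) n (c + hgt n (pos t)) r R) =
    pr (ann p r R).powerset (HE p n c r R) := by
  have e : ann (p + t) r R = (trA t).mS (ann p r R) := by rw [Aut.mS_ann, trA_apply]
  rw [e, ← pr_bij _ ((trA t).bijOn_powerset (ann p r R))]
  refine pr_congr fun S _ => ?_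
  have e2 : ((ann (p + t) r R \ (trA t).mS S : Finset Site) : Set Site) =
      (trA t).fS '' (ann p r R \ S : Finset Site) := by
    rw [e, ← Aut.mS_sdiff, Aut.coe_mS]
  rw [he_iff, he_iff, e2, ← trA_apply, (trA t).fS.surjective.exists]
  refine exists_congr fun b => ?_
  rw [Aut.crs_iff, (trA t).fS.surjective.forall]
  refine and_congr_right fun _ => forall_congr' fun y => ?_
  rw [Aut.jn_iff, trA_apply, pos_add, hgt_add, add_lt_add_iff_right]

theorem HE.sub {r' R' : ℝ} (h : HE p n c r R S) (h1 : r ≤ r') (h2 : R' ≤ R) (h3 : r' + 2 ≤ R') :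
    HE p n c r' R' S := by
  obtain ⟨b, hb, hc⟩ := he_iff.1 h
  obtain ⟨d, j, hd⟩ := HP1_inner (r' := r') (R' := R') hb (by linarith) (by linarith) h3
  rw [he_iff, ← HP1_ann_inter (S := S) h1 h2]
  exact ⟨d, hd, fun y hy => hc y (j.trans (hy.mono (Finset.coe_subset.2 Finset.inter_subset_left)))⟩

/-- `Cl.restrict`, `le_ncl` -/
theorem card_goodC_le {R' : ℝ} (h2 : R' ≤ R) (h3 : r + 2 ≤ R') :
    (goodC S p n c r R).card ≤ ncl (ann p r R' \ S) p (r + 1) (R' - 1) := by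
  have key : ∀ C ∈ goodC S p n c r R, ∃ d, cmp (ann p r R \ S) d = C ∧
      Crs (ann p r R' \ S : Finset Site) p (r + 1) (R' - 1) d := by
    intro C hC
    obtain ⟨b, hb, -, rfl⟩ := HP1_mem_good.1 hC
    obtain ⟨d, j, hd⟩ := HP1_inner (r' := r) (R' := R') hb le_rfl (by linarith) h3
    rw [HP1_ann_inter le_rfl h2] at hd
    exact ⟨d, (HP1_cmp_eq j).symm, hd⟩
  choose! w hw using key
  refine HP1_card_le w (fun C hC => (hw C hC).2) fun C hC C' hC' j => ?_
  rw [← (hw C hC).1, ← (hw C' hC').1]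
  refine HP1_cmp_eq (j.mono (Finset.coe_subset.2 ?_))
  rw [← HP1_ann_inter (S := S) le_rfl h2]
  exact Finset.inter_subset_left

theorem HP1_card_eq {α : Type*} [DecidableEq α] {A B : Finset α} (h : ∀ x ∈ A, x ∈ B) :
    (A.card : ℝ) = ∑ x ∈ B, if x ∈ A then (1 : ℝ) else 0 := by
  rw [Finset.sum_boole, Finset.filter_mem_eq_inter, Finset.inter_eq_right.2 h]

theorem HP1_good_sub {C : Finset Site} (hC : C ∈ goodC S p n c r R) : C ⊆ ann p r R := by
  obtain ⟨b, -, -, rfl⟩ := HP1_mem_good.1 hC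
  exact (Finset.filter_subset _ _).trans Finset.sdiff_subset

/-- a set and its neighbours in `A` -/
def HP1_X (A C : Finset Site) : Finset Site := A.filter fun y => y ∈ C ∨ ∃ x ∈ C, tri.Adj x y

theorem HP1_dep {C T T' : Finset Site} (h : ∀ y ∈ HP1_X (ann p r R) C, y ∈ T ↔ y ∈ T')
    (hC : C ∈ goodC T p n c r R) : C ∈ goodC T' p n c r R := by
  obtain ⟨b, hb, hc, hC'⟩ := HP1_mem_good.1 hC
  have hbZ : b ∈ ann p r R \ T := Finset.mem_coe.1 hb.1
  have hbC : b ∈ C := hC' ▸ mem_cmp.2 ⟨hbZ, Jn.refl _ _⟩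
  have hsub : C ⊆ ann p r R \ T' := by
    intro y hy
    have hy' := Finset.mem_sdiff.1 (mem_cmp.1 (hC' ▸ hy : y ∈ cmp (ann p r R \ T) b)).1
    exact Finset.mem_sdiff.2 ⟨hy'.1, fun e =>
      hy'.2 ((h y (Finset.mem_filter.2 ⟨hy'.1, Or.inl hy⟩)).2 e)⟩
  have hj : ∀ y, Jn (ann p r R \ T' : Finset Site) b y ↔ Jn (ann p r R \ T : Finset Site) b y := by
    intro y
    constructor
    · intro j
      induction j with
      | refl => exact Jn.refl _ _
      | @tail u v _ h2 ih =>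
        have hu : u ∈ ann p r R \ T := Finset.mem_coe.1 (ih.mem hb.1)
        have huC : u ∈ C := hC' ▸ mem_cmp.2 ⟨hu, ih⟩
        have hv := Finset.mem_sdiff.1 (Finset.mem_coe.1 h2.2.1)
        have hv' : v ∈ ann p r R \ T := Finset.mem_sdiff.2 ⟨hv.1, fun e =>
          hv.2 ((h v (Finset.mem_filter.2 ⟨hv.1, Or.inr ⟨u, huC, h2.2.2⟩⟩)).1 e)⟩
        exact Jn.trans ih (Jn.single (Finset.mem_coe.2 hu) (Finset.mem_coe.2 hv') h2.2.2)
    · intro j
      have hy : y ∈ cmp (ann p r R \ T) b := mem_cmp.2 ⟨Finset.mem_coe.1 (j.mem hb.1), j⟩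
      have := sconn_cmp (ann p r R \ T) b b (Finset.mem_coe.2 (mem_cmp.2 ⟨hbZ, Jn.refl _ _⟩)) y
        (Finset.mem_coe.2 hy)
      rw [hC'] at this
      exact this.mono (Finset.coe_subset.2 hsub)
  have hb' : b ∈ ((ann p r R \ T' : Finset Site) : Set Site) := Finset.mem_coe.2 (hsub hbC)
  obtain ⟨-, ⟨x, hx, jx⟩, y, hy, jy⟩ := id hb
  refine HP1_mem_good.2 ⟨b, ⟨hb', ⟨x, hx, (hj x).2 jx⟩, y, hy, (hj y).2 jy⟩,
    fun y j => hc y ((hj y).1 j), ?_⟩
  rw [← hC']
  ext y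
  simp only [mem_cmp]
  constructor
  · rintro ⟨-, j⟩
    exact ⟨Finset.mem_coe.1 (((hj y).1 j).mem hb.1), (hj y).1 j⟩
  · rintro ⟨-, j⟩
    exact ⟨Finset.mem_coe.1 (((hj y).2 j).mem hb'), (hj y).2 j⟩

theorem HP1_fail {C T S' : Finset Site} (h : bal p R ⊆ Y) (hS : S' ⊆ T)
    (hC : C ∈ goodC T p n c r R) (hn : C ∉ confC T p n c r R K) :
    ∃ b, Crs ((Y \ HP1_X (ann p r R) C) \ S' : Finset Site) p r (K * r) b := by
  rw [confC, Finset.mem_filter, not_and] at hn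
  have hn' := hn hC
  push Not at hn'
  obtain ⟨x, hx, y, j, hy, hd⟩ := hn'
  obtain ⟨b, hb, -, hC'⟩ := HP1_mem_good.1 hC
  have hCZ : ∀ z ∈ C, z ∈ ann p r R \ T := fun z hz =>
    (mem_cmp.1 (hC' ▸ hz : z ∈ cmp (ann p r R \ T) b)).1
  have hcl : ∀ z ∈ C, ∀ w ∈ ann p r R \ T, tri.Adj z w → w ∈ C := fun z hz w hw a =>
    hC' ▸ cmp_closed (hC' ▸ hz : z ∈ cmp (ann p r R \ T) b) hw a
  have hxB : x ∈ ((bal p R \ T : Finset Site) : Set Site) := by
    have := Finset.mem_sdiff.1 (hCZ x hx)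
    exact Finset.mem_coe.2 (Finset.mem_sdiff.2 ⟨mem_bal.2 (mem_ann.1 this.1).2, this.2⟩)
  obtain ⟨u, v, j1, hu, hv, a, -⟩ := j.symm.exit (Z := (C : Set Site)ᶜ) (j.mem hxB)
    (fun e => hy (Finset.mem_coe.1 e)) (fun e => e (Finset.mem_coe.2 hx))
  have hvC : v ∈ C := by
    by_contra e
    exact hv.2 fun e' => e (Finset.mem_coe.1 e')
  have hsub : ((bal p R \ T : Finset Site) : Set Site) ∩ (C : Set Site)ᶜ ⊆
      ((Y \ HP1_X (ann p r R) C) \ S' : Finset Site) := by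
    rintro z ⟨h1, h2⟩
    have h3 := Finset.mem_sdiff.1 (Finset.mem_coe.1 h1)
    refine Finset.mem_coe.2 (Finset.mem_sdiff.2 ⟨Finset.mem_sdiff.2 ⟨h h3.1, fun e => ?_⟩,
      fun e => h3.2 (hS e)⟩)
    obtain ⟨e1, e2 | ⟨w, hw, a'⟩⟩ := Finset.mem_filter.1 e
    · exact h2 (Finset.mem_coe.2 e2)
    · exact h2 (Finset.mem_coe.2 (hcl w hw z (Finset.mem_sdiff.2 ⟨e1, h3.2⟩) a'))
  refine ⟨u, hsub hu, ⟨u, ?_, Jn.refl _ _⟩, y, hd, j1.symm.mono hsub⟩
  by_contra e
  have h3 := Finset.mem_sdiff.1 (Finset.mem_coe.1 hu.1)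
  exact hu.2 (Finset.mem_coe.2 (hcl v hvC u
    (Finset.mem_sdiff.2 ⟨mem_ann.2 ⟨not_le.1 e, mem_bal.1 h3.1⟩, h3.2⟩) a.symm))

theorem HP1_one (ha : ArmB r (K * r) (1 / 2)) (h : bal p R ⊆ Y) (C : Finset Site) :
    avg Y.powerset (fun S => if C ∈ goodC S p n c r R then (1 : ℝ) else 0) ≤
      2 * avg Y.powerset fun S => if C ∈ confC S p n c r R K then (1 : ℝ) else 0 := by
  have hX : HP1_X (ann p r R) C ⊆ Y :=
    (Finset.filter_subset _ _).trans (Finset.sdiff_subset.trans h)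
  obtain ⟨W, hW⟩ : ∃ W, W = Y \ HP1_X (ann p r R) C := ⟨_, rfl⟩
  have hd : Disjoint (HP1_X (ann p r R) C) W := hW ▸ Finset.disjoint_sdiff
  have hY : Y = HP1_X (ann p r R) C ∪ W := by rw [hW, Finset.union_sdiff_of_subset hX]
  have hfail : ∀ T S' : Finset Site, S' ⊆ T → C ∈ goodC T p n c r R →
      C ∉ confC T p n c r R K → ∃ b, Crs (W \ S' : Finset Site) p r (K * r) b :=
    fun T S' h1 h2 h3 => hW ▸ HP1_fail h h1 h2 h3
  rw [hY, avg_union hd, avg_union hd, ← avg_mul_left]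
  refine avg_mono fun S _ => ?_
  have hag : ∀ S' ∈ W.powerset, ∀ y ∈ HP1_X (ann p r R) C, y ∈ S ↔ y ∈ S ∪ S' := by
    intro S' hS' y hy
    rw [Finset.mem_union]
    exact ⟨Or.inl, fun e => e.resolve_right fun e' =>
      Finset.disjoint_left.1 hd hy (Finset.mem_powerset.1 hS' e')⟩
  by_cases hG : C ∈ goodC S p n c r R
  · have h1 := pr_le_one W.powerset fun S' => C ∈ goodC (S ∪ S') p n c r R
    have h2 := pr_not (Finset.powerset_nonempty W) fun S' => C ∈ confC (S ∪ S') p n c r R K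
    have h3 : pr W.powerset (fun S' => ¬ C ∈ confC (S ∪ S') p n c r R K) ≤ 1 / 2 :=
      (pr_mono fun S' hS' e => hfail _ _ Finset.subset_union_right
        (HP1_dep (hag S' hS') hG) e).trans (ha.blue p W)
    have h4 : 1 ≤ 2 * pr W.powerset fun S' => C ∈ confC (S ∪ S') p n c r R K := by linarith
    have h5 := h1.trans h4
    refine le_trans (le_of_eq (avg_congr fun S' _ => ?_)) (h5.trans (le_of_eq ?_))
    · congr
    · congr 1
      refine avg_congr fun S' _ => ?_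
      congr
  · have h1 : avg W.powerset (fun S' => if C ∈ goodC (S ∪ S') p n c r R then (1 : ℝ) else 0) =
        0 := by
      refine (avg_congr fun S' hS' => if_neg fun e => hG ?_).trans (avg_zero W.powerset)
      exact HP1_dep (fun y hy => (hag S' hS' y hy).symm) e
    rw [h1]
    refine mul_nonneg zero_le_two (avg_nonneg fun S' _ => ?_)
    split_ifs <;> norm_num

/-- For a fixed `C` the event that `C` is a cluster depends on `C` and its neighbours in the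
annulus; given it, a failure of confinement needs a blue arm among the other sites
(`ArmB.blue`, `avg_union`). -/
theorem avg_good_le (ha : ArmB r (K * r) (1 / 2)) (h : bal p R ⊆ Y) :
    avg Y.powerset (fun S => ((goodC S p n c r R).card : ℝ)) ≤
      2 * avg Y.powerset fun S => ((confC S p n c r R K).card : ℝ) := by
  have e1 : ∀ S, ((goodC S p n c r R).card : ℝ) =
      ∑ C ∈ (ann p r R).powerset, if C ∈ goodC S p n c r R then (1 : ℝ) else 0 := fun S =>
    HP1_card_eq fun C hC => Finset.mem_powerset.2 (HP1_good_sub hC)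
  have e2 : ∀ S, ((confC S p n c r R K).card : ℝ) =
      ∑ C ∈ (ann p r R).powerset, if C ∈ confC S p n c r R K then (1 : ℝ) else 0 := fun S =>
    HP1_card_eq fun C hC => Finset.mem_powerset.2 (HP1_good_sub (Finset.mem_filter.1 hC).1)
  simp only [e1, e2]
  rw [avg_sum, avg_sum, Finset.mul_sum]
  exact Finset.sum_le_sum fun C _ => HP1_one ha h C

/-- A confined cluster gives a crossing cluster of `bal p₀ (R / 2) \ S` whose lowest height is in
`[hgt (f i) - K r, hgt (f i) + r + 1]`; these clusters are all different. -/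
theorem sum_conf_le {ι : Type} (I : Finset ι) (f : ι → Site) (cc : ι → ℝ) {p₀ : Site} {τ : ℝ}
    (hn : ‖n‖ = 1) (hr : 1 ≤ r) (hK : 1 ≤ K) (hR : K * r + 2 ≤ R) (hτ : 4 * τ ≤ R)
    (h1 : ∀ i ∈ I, dst (f i) p₀ + r + 1 ≤ τ) (h2 : ∀ i ∈ I, hgt n (pos (f i)) - cc i ≤ r)
    (h3 : ∀ i ∈ I, ∀ k ∈ I, i ≠ k → (K + 1) * r + 1 < |hgt n (pos (f i)) - hgt n (pos (f k))|) :
    ∑ i ∈ I, (confC S (f i) n (cc i) r R K).card ≤
      ncl (bal p₀ (R / 2) \ S) p₀ τ (R / 2 - 1) := by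
  have key : ∀ q ∈ I.sigma fun i => confC S (f i) n (cc i) r R K, ∃ x, x ∈ q.2 ∧
      cmp (ann (f q.1) r R \ S) x = q.2 ∧ dst x (f q.1) ≤ r + 1 ∧
      (∃ y ∈ q.2, R - 1 < dst y (f q.1) ∧ Jn (ann (f q.1) r R \ S : Finset Site) x y) ∧
      ∀ y ∈ q.2, cc q.1 < hgt n (pos y) := by
    rintro ⟨i, C⟩ hq
    obtain ⟨b, ⟨hb, ⟨x, hx, jx⟩, y, hy, jy⟩, hc, hC⟩ :=
      HP1_mem_good.1 (Finset.mem_filter.1 (Finset.mem_sigma.1 hq).2).1
    dsimp only at hC ⊢
    subst hC
    exact ⟨x, mem_cmp.2 ⟨Finset.mem_coe.1 (jx.mem hb), jx⟩, (HP1_cmp_eq jx).symm, hx,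
      ⟨y, mem_cmp.2 ⟨Finset.mem_coe.1 (jy.mem hb), jy⟩, hy, jx.symm.trans jy⟩,
      fun z hz => hc z (mem_cmp.1 hz).2⟩
  choose! w hw using key
  have hd0 : ∀ x y : Site, 0 ≤ dst x y := fun x y => norm_nonneg _
  have hB : ∀ i ∈ I, ((bal p₀ (R / 2) \ S : Finset Site) : Set Site) ⊆
      (bal (f i) R \ S : Finset Site) := by
    intro i hi
    refine Finset.coe_subset.2 (Finset.sdiff_subset_sdiff (fun z hz => mem_bal.2 ?_) le_rfl)
    have e1 := dst_tri z p₀ (f i)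
    rw [dst_comm p₀] at e1
    linarith [mem_bal.1 hz, h1 i hi, hd0 (f i) p₀]
  have hA : ∀ i, ((ann (f i) r R \ S : Finset Site) : Set Site) ⊆
      (bal (f i) R \ S : Finset Site) := fun i =>
    Finset.coe_subset.2 (Finset.sdiff_subset_sdiff Finset.sdiff_subset le_rfl)
  have hlow : ∀ q ∈ I.sigma fun i => confC S (f i) n (cc i) r R K, ∀ z,
      Jn (bal p₀ (R / 2) \ S : Finset Site) (w q) z →
      hgt n (pos (f q.1)) - K * r ≤ hgt n (pos z) := by
    intro q hq z j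
    obtain ⟨hi, hC⟩ := Finset.mem_sigma.1 hq
    rcases (Finset.mem_filter.1 hC).2 _ (hw q hq).1 z (j.mono (hB _ hi)) with e | e
    · have e1 := (hw q hq).2.2.2.2 z e
      have e2 : r ≤ K * r := le_mul_of_one_le_left (by linarith) hK
      linarith [h2 _ hi]
    · have e1 := abs_le.1 ((abs_hgt_le hn (pos z - pos (f q.1))).trans e)
      rw [hgt_sub] at e1
      linarith [e1.1]
  have hup : ∀ q ∈ I.sigma fun i => confC S (f i) n (cc i) r R K,
      hgt n (pos (w q)) ≤ hgt n (pos (f q.1)) + r + 1 := by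
    intro q hq
    have e1 := abs_le.1 ((abs_hgt_le hn (pos (w q) - pos (f q.1))).trans (hw q hq).2.2.1)
    rw [hgt_sub] at e1
    linarith [e1.2]
  rw [← Finset.card_sigma]
  refine HP1_card_le w (fun q hq => ?_) fun q hq q' hq' j => ?_
  · obtain ⟨hi, -⟩ := Finset.mem_sigma.1 hq
    obtain ⟨hx, hc, hd, ⟨y, -, hy, j⟩, -⟩ := hw q hq
    have hxZ : w q ∈ ann (f q.1) r R \ S :=
      (mem_cmp.1 (hc ▸ hx : w q ∈ cmp (ann (f q.1) r R \ S) (w q))).1
    have e0 := h1 _ hi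
    have e1 := hd0 (f q.1) p₀
    have e2 : dst (w q) p₀ ≤ τ := by linarith [dst_tri (w q) (f q.1) p₀]
    have e3 : R / 2 - 1 < dst y p₀ := by
      have := dst_tri y p₀ (f q.1)
      rw [dst_comm p₀] at this
      linarith
    obtain ⟨u, v, j1, hu, hv, a, -⟩ := j.exit (Z := {z | dst z p₀ ≤ R / 2 - 1})
      (Finset.mem_coe.2 hxZ) (show dst (w q) p₀ ≤ R / 2 - 1 by linarith)
      (show ¬ dst y p₀ ≤ R / 2 - 1 from not_le.2 e3)
    have hsub : ((ann (f q.1) r R \ S : Finset Site) : Set Site) ∩ {z | dst z p₀ ≤ R / 2 - 1} ⊆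
        (bal p₀ (R / 2) \ S : Finset Site) := fun z hz =>
      Finset.mem_coe.2 (Finset.mem_sdiff.2 ⟨mem_bal.2
        (le_trans (show dst z p₀ ≤ R / 2 - 1 from hz.2) (by linarith)),
        (Finset.mem_sdiff.1 (Finset.mem_coe.1 hz.1)).2⟩)
    have hv' : v ∈ ((bal p₀ (R / 2) \ S : Finset Site) : Set Site) := by
      refine Finset.mem_coe.2 (Finset.mem_sdiff.2 ⟨mem_bal.2 ?_,
        (Finset.mem_sdiff.1 (Finset.mem_coe.1 hv.1)).2⟩)
      have e4 : dst u p₀ ≤ R / 2 - 1 := hu.2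
      have e5 := dst_tri v u p₀
      rw [dst_adj a.symm] at e5
      linarith
    exact ⟨hsub ⟨Finset.mem_coe.2 hxZ, show dst (w q) p₀ ≤ R / 2 - 1 by linarith⟩,
      ⟨w q, e2, Jn.refl _ _⟩, v, not_le.1 hv.2, (j1.mono hsub).trans (Jn.single (hsub hu) hv' a)⟩
  · obtain ⟨hi, hC⟩ := Finset.mem_sigma.1 hq
    obtain ⟨hk, -⟩ := Finset.mem_sigma.1 hq'
    have hik : q.1 = q'.1 := by
      by_contra e
      have e1 := h3 _ hi _ hk e
      have e2 := hlow q hq _ j
      have e3 := hlow q' hq' _ j.symm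
      have e4 := hup q hq
      have e5 := hup q' hq'
      have e6 : |hgt n (pos (f q.1)) - hgt n (pos (f q'.1))| ≤ (K + 1) * r + 1 :=
        abs_le.2 ⟨by linarith, by linarith⟩
      linarith
    obtain ⟨hx, hc, -, -, -⟩ := hw q hq
    obtain ⟨-, hc', -, ⟨y, -, hy, jy⟩, -⟩ := hw q' hq'
    obtain ⟨i, C⟩ := q
    obtain ⟨k, C'⟩ := q'
    dsimp only at hik hc hc' hx hy jy hi hC
    subst hik
    rcases (Finset.mem_filter.1 hC).2 _ hx y ((j.mono (hB _ hi)).trans (jy.mono (hA _))) with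
      e | e
    · have e1 : y ∈ cmp (ann (f i) r R \ S) (w ⟨i, C⟩) := hc.symm ▸ e
      have e2 : C = C' := hc.symm.trans
        ((HP1_cmp_eq ((mem_cmp.1 e1).2.trans jy.symm)).trans hc')
      rw [e2]
    · linarith

end

/-- Translate along `n` in steps of `(K + 1) r + 3` (`exists_near`), `avg_good_le`, `sum_conf_le`,
`ncl_mean`, `armB_small`. -/
theorem hb_one : ∃ C : ℝ, 0 < C ∧ ∀ r R : ℝ, 1 ≤ r → r ≤ R → HB r R (C * (r / R)) := by
  obtain ⟨K, hK, hA⟩ := armB_small (q := 1 / 2) (by norm_num)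
  have hK0 : 0 < K := by linarith
  refine ⟨48 * K * (K + 4), by positivity, fun r R hr hrR p n c hn hc => ?_⟩
  have hR0 : 0 < R := by linarith
  have hr0 : 0 < r := by linarith
  have hKr : 0 < K * (K + 4) * r := by positivity
  rw [← mul_div_assoc, le_div_iff₀ hR0]
  obtain ⟨P, hP⟩ : ∃ P, P = pr (ann p r R).powerset (HE p n c r R) := ⟨_, rfl⟩
  have hP0 : 0 ≤ P := hP ▸ pr_nonneg _ _
  have hP1 : P ≤ 1 := hP ▸ pr_le_one _ _
  rw [← hP]
  by_cases hbig : R < 4 * (K * (K + 4) * r)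
  · have := mul_le_of_le_one_left hR0.le hP1
    linarith
  have hbig' := not_lt.1 hbig
  obtain ⟨L, hL⟩ : ∃ L, L = (K + 1) * r + 3 := ⟨_, rfl⟩
  obtain ⟨τ, hτ⟩ : ∃ τ, τ = R / (4 * K) := ⟨_, rfl⟩
  have hτK : τ * (4 * K) = R := by rw [hτ]; field_simp
  have hKr1 : 2 * r ≤ K * r := mul_le_mul_of_nonneg_right hK hr0.le
  have hL1 : L ≤ (K + 4) * r := by rw [hL]; linarith
  have hL2 : r + 3 ≤ L := by rw [hL]; linarith
  have hL0 : 0 < L := by linarith
  have hτL : (K + 4) * r ≤ τ := by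
    rw [hτ, le_div_iff₀ (by positivity)]
    linarith
  have hτ0 : 0 ≤ τ := by linarith
  have hτ4 : 8 * τ ≤ R := by
    have := mul_le_mul_of_nonneg_left hK hτ0
    linarith
  obtain ⟨m, hm⟩ : ∃ m, m = ⌊τ / L⌋₊ := ⟨_, rfl⟩
  have hm1 : (m : ℝ) * L ≤ τ := by
    rw [← le_div_iff₀ hL0, hm]
    exact Nat.floor_le (div_nonneg hτ0 hL0.le)
  have hm2 : τ < (m + 1) * L := by
    rw [← div_lt_iff₀ hL0, hm]
    exact Nat.lt_floor_add_one _
  have hm3 : (1 : ℝ) ≤ m := by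
    have : 1 ≤ m := by
      rw [hm]
      exact Nat.le_floor (by rw [Nat.cast_one, le_div_iff₀ hL0]; linarith)
    exact_mod_cast this
  choose t ht using fun i : ℕ => exists_near (((i * L : ℝ) : ℂ) * n)
  have hnn : hgt n n = 1 := by
    rw [hgt, Complex.mul_conj, Complex.normSq_eq_norm_sq, hn]
    simp
  have hth : ∀ i : ℕ, |hgt n (pos (t i)) - i * L| ≤ 2 / 3 := by
    intro i
    have := (abs_hgt_le hn _).trans (ht i)
    rwa [hgt_sub, hgt_smul, hnn, mul_one] at this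
  have hdst : ∀ i ∈ Finset.range m, dst (p + t i) p + r + 1 ≤ τ := by
    intro i hi
    have e1 : dst (p + t i) p = ‖pos (t i)‖ := by rw [dst, pos_add, add_sub_cancel_left]
    have e2 := norm_le_norm_add_norm_sub' (pos (t i)) (((i * L : ℝ) : ℂ) * n)
    rw [norm_mul, hn, mul_one, Complex.norm_real, Real.norm_eq_abs,
      abs_of_nonneg (by positivity)] at e2
    have e3 : (i : ℝ) + 1 ≤ m := by exact_mod_cast Finset.mem_range.1 hi
    have e4 := mul_le_mul_of_nonneg_right e3 hL0.le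
    linarith [ht i]
  have hsep : ∀ i ∈ Finset.range m, ∀ k ∈ Finset.range m, i ≠ k →
      (K + 1) * r + 1 < |hgt n (pos (p + t i)) - hgt n (pos (p + t k))| := by
    intro i _ k _ hik
    rw [pos_add, pos_add, hgt_add, hgt_add, lt_abs]
    have e1 := abs_le.1 (hth i)
    have e2 := abs_le.1 (hth k)
    rcases lt_or_gt_of_ne hik with e | e
    · have e3 : (i : ℝ) + 1 ≤ k := by exact_mod_cast e
      have e4 := mul_le_mul_of_nonneg_right e3 hL0.le
      right
      linarith [e1.1, e1.2, e2.1, e2.2]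
    · have e3 : (k : ℝ) + 1 ≤ i := by exact_mod_cast e
      have e4 := mul_le_mul_of_nonneg_right e3 hL0.le
      left
      linarith [e1.1, e1.2, e2.1, e2.2]
  have hone : ∀ i ∈ Finset.range m, P ≤ 2 * avg (bal p (2 * R)).powerset fun S =>
      ((confC S (p + t i) n (c + hgt n (pos (t i))) r R K).card : ℝ) := by
    intro i hi
    have hsub : bal (p + t i) R ⊆ bal p (2 * R) := fun z hz => mem_bal.2 (by
      linarith [dst_tri z (p + t i) p, mem_bal.1 hz, hdst i hi])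
    rw [hP, ← pr_he_shift (t i), ← pr_he (Finset.sdiff_subset.trans hsub)]
    refine le_trans (avg_mono fun S _ => ?_) (avg_good_le (hA r hr) hsub)
    split_ifs with e
    · exact_mod_cast Finset.Nonempty.card_pos e
    · positivity
  have hsum := Finset.sum_le_sum hone
  rw [Finset.sum_const, Finset.card_range, nsmul_eq_mul, ← Finset.mul_sum, ← avg_sum] at hsum
  have harm : ArmB τ (R / 2 - 1) (1 / 2) :=
    (hA τ (by linarith)).mono le_rfl (by linarith) le_rfl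
  have h3 : avg (bal p (2 * R)).powerset (fun S => ∑ i ∈ Finset.range m,
      ((confC S (p + t i) n (c + hgt n (pos (t i))) r R K).card : ℝ)) ≤ 3 := by
    refine le_trans ?_ (ncl_mean harm p (bal p (R / 2)))
    rw [← avg_restrict (bal_mono p (show R / 2 ≤ 2 * R by linarith))]
    refine avg_mono fun S _ => ?_
    rw [Finset.sdiff_inter_self_right]
    exact_mod_cast sum_conf_le (Finset.range m) (fun i => p + t i)
      (fun i => c + hgt n (pos (t i))) hn hr (by linarith) (by linarith) (by linarith) hdst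
      (fun i _ => by rw [pos_add, hgt_add]; linarith) hsep
  have h4 : P * τ ≤ 12 * L := by
    have e1 : τ ≤ 2 * m * L := by
      have := mul_le_mul_of_nonneg_right hm3 hL0.le
      linarith
    have e2 := mul_le_mul_of_nonneg_left e1 hP0
    have e3 : (m : ℝ) * P * L ≤ 6 * L := mul_le_mul_of_nonneg_right (by linarith) hL0.le
    linarith
  have h5 := mul_le_mul_of_nonneg_right (h4.trans (by linarith : 12 * L ≤ 12 * ((K + 4) * r)))
    (show 0 ≤ 4 * K by linarith)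
  rw [mul_assoc P, hτK] at h5
  linarith

end Pool.Agent.TAF.U
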