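import Pool.Agent.P.MP_cb4022_pr.U.HP1

/-! Crossing clusters in a half-plane, second moment (paper H2). -/

open scoped Classical symmDiff

noncomputable section

namespace Pool.Agent.TAF.U

/-- Cauchy-Schwarz -/
theorem avg_sq_le {α : Type*} (W : Finset α) (f : α → ℝ) :
    avg W f ^ 2 ≤ pr W (fun x => f x ≠ 0) * avg W fun x => f x ^ 2 := by
  have h := Finset.sum_mul_sq_le_sq_mul_sq W (fun x => if f x ≠ 0 then (1 : ℝ) else 0) f
  have e1 : ∑ x ∈ W, (if f x ≠ 0 then (1 : ℝ) else 0) * f x = ∑ x ∈ W, f x :=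
    Finset.sum_congr rfl fun x _ => by split_ifs with h <;> simp_all
  have e2 : ∑ x ∈ W, (if f x ≠ 0 then (1 : ℝ) else 0) ^ 2 =
      ∑ x ∈ W, (if f x ≠ 0 then (1 : ℝ) else 0) :=
    Finset.sum_congr rfl fun x _ => by split_ifs <;> simp
  rw [e1, e2] at h
  have h' := mul_le_mul_of_nonneg_left h (sq_nonneg ((W.card : ℝ)⁻¹))
  have e3 : pr W (fun x => f x ≠ 0) =
      (W.card : ℝ)⁻¹ * ∑ x ∈ W, (if f x ≠ 0 then (1 : ℝ) else 0) := by
    simp only [pr, avg, smul_eq_mul]
    congr!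
  rw [e3]
  simp only [avg, smul_eq_mul]
  linarith

/-- `f` depends only on the sites of `A` -/
def HP2_Dep (A : Finset Site) (f : Finset Site → ℝ) : Prop := ∀ S, f (S ∩ A) = f S

theorem HP2_Dep.mono {A A' : Finset Site} {f : Finset Site → ℝ} (h : HP2_Dep A f) (hA : A ⊆ A') :
    HP2_Dep A' f := fun S => by
  rw [← h (S ∩ A'), Finset.inter_assoc, Finset.inter_eq_right.2 hA, h]

theorem HP2_Dep.mul {A : Finset Site} {f g : Finset Site → ℝ} (h : HP2_Dep A f)
    (h' : HP2_Dep A g) : HP2_Dep A fun S => f S * g S := fun S => by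
  simp only [h S, h' S]

theorem HP2_Dep.avg {A Y : Finset Site} {f : Finset Site → ℝ} (h : HP2_Dep A f) (hA : A ⊆ Y) :
    avg Y.powerset f = avg A.powerset f := by
  rw [← avg_restrict hA f]
  exact avg_congr fun S _ => (h S).symm

theorem HP2_indep {A B Y : Finset Site} {f g : Finset Site → ℝ} (h : HP2_Dep A f)
    (h' : HP2_Dep B g) (hA : A ⊆ Y) (hB : B ⊆ Y) (hd : Disjoint A B) :
    avg Y.powerset (fun S => f S * g S) = avg Y.powerset f * avg Y.powerset g := by
  rw [h.avg hA, h'.avg hB, ← avg_indep hA hB hd]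
  exact avg_congr fun S _ => by rw [h S, h' S]

/-- indicator of the half-plane event -/
def HP2_I (p : Site) (n : ℂ) (c r R : ℝ) (S : Finset Site) : ℝ := if HE p n c r R S then 1 else 0

/-- the number of blue crossing clusters -/
def HP2_N (Z : Finset Site) (p : Site) (r R : ℝ) (S : Finset Site) : ℝ := ncl (Z \ S) p r R

theorem HP2_dep_I (p : Site) (n : ℂ) (c r R : ℝ) : HP2_Dep (ann p r R) (HP2_I p n c r R) :=
  fun S => by
    have : HE p n c r R (S ∩ ann p r R) = HE p n c r R S := by rw [HE, HE, goodC_inter]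
    rw [HP2_I, HP2_I, this]

theorem HP2_dep_N (Z : Finset Site) (p : Site) (r R : ℝ) : HP2_Dep Z (HP2_N Z p r R) :=
  fun S => by rw [HP2_N, HP2_N, Finset.sdiff_inter_self_right]

theorem HP2_I_nonneg (p : Site) (n : ℂ) (c r R : ℝ) (S : Finset Site) : 0 ≤ HP2_I p n c r R S := by
  unfold HP2_I
  split_ifs <;> norm_num

theorem HP2_ann_sub (p : Site) (r : ℝ) {R R' : ℝ} (h : R ≤ R') : ann p r R ⊆ bal p R' :=
  Finset.sdiff_subset.trans (bal_mono p h)

theorem HP2_avg_I {Y : Finset Site} {p : Site} {n : ℂ} {c r R q : ℝ} (h : HB r R q) (hn : ‖n‖ = 1)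
    (hc : hgt n (pos p) - c ≤ r) (hY : ann p r R ⊆ Y) : avg Y.powerset (HP2_I p n c r R) ≤ q :=
  (pr_he hY).trans_le (h p n c hn hc)

section
variable {Y : Finset Site} {p p' : Site} {n : ℂ} {c c' r R K C : ℝ}

theorem HP2_card (S : Finset Site) {R' : ℝ} (hr : 1 ≤ r) (hK : 3 ≤ K) (h1 : K * r + 3 ≤ R')
    (h2 : R' ≤ R) : ((goodC S p n c r R).card : ℝ) ≤
      HP2_N (ann p r (K * r)) p (r + 1) (K * r - 1) S * HP2_I p n c (K * r + 1) R' S := by
  have h3 : r + 2 ≤ K * r := by nlinarith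
  by_cases h : HE p n c r R S
  · rw [HP2_I, if_pos (h.sub (by linarith) h2 (by linarith)), mul_one, HP2_N]
    exact_mod_cast card_goodC_le (by linarith) h3
  · rw [Finset.not_nonempty_iff_eq_empty.1 h, Finset.card_empty, Nat.cast_zero]
    exact mul_nonneg (Nat.cast_nonneg _) (HP2_I_nonneg _ _ _ _ _ _)

theorem HP2_disj (p : Site) (r K R : ℝ) : Disjoint (ann p r (K * r)) (ann p (K * r + 1) R) :=
  Finset.disjoint_left.2 fun x h h' => by
    have h1 := (mem_ann.1 h).2
    have h2 := (mem_ann.1 h').1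
    linarith

theorem HP2_one {f : Finset Site → ℝ} (hf : HP2_Dep (ann p r (K * r)) f)
    (h3 : avg (ann p r (K * r)).powerset f ≤ 3) (hr : 1 ≤ r) (hK : 3 ≤ K) (hR : K * r + 3 ≤ R)
    (hC : ∀ r R : ℝ, 1 ≤ r → r ≤ R → HB r R (C * (r / R))) (hn : ‖n‖ = 1)
    (hc : hgt n (pos p) - c ≤ r) (hY : bal p R ⊆ Y) :
    avg Y.powerset (fun S => f S * HP2_I p n c (K * r + 1) R S) ≤ 3 * (C * ((K * r + 1) / R)) := by
  have h1 : ann p r (K * r) ⊆ Y := (HP2_ann_sub p r (by linarith)).trans hY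
  have h2 : ann p (K * r + 1) R ⊆ Y := (HP2_ann_sub p _ le_rfl).trans hY
  have h4 : r ≤ K * r := by nlinarith
  rw [HP2_indep hf (HP2_dep_I _ _ _ _ _) h1 h2 (HP2_disj _ _ _ _), hf.avg h1]
  exact mul_le_mul h3 (HP2_avg_I (hC _ _ (by linarith) (by linarith)) hn (by linarith) h2)
    (avg_nonneg fun _ _ => HP2_I_nonneg _ _ _ _ _ _) (by norm_num)

/-- `goodC ≤ 1 {HE (K r + 1) R} * ncl (ann p r (K r))`, independence (`avg_indep`), `ncl_sq` -/
theorem good_sq (ha : ArmB (r + 1) (K * r - 1) (1 / 2)) (hr : 1 ≤ r) (hK : 3 ≤ K)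
    (hR : K * r + 3 ≤ R) (hC : ∀ r R : ℝ, 1 ≤ r → r ≤ R → HB r R (C * (r / R))) (hn : ‖n‖ = 1)
    (hc : hgt n (pos p) - c ≤ r) (hY : bal p R ⊆ Y) :
    avg Y.powerset (fun S => ((goodC S p n c r R).card : ℝ) ^ 2) ≤ 3 * (C * ((K * r + 1) / R)) := by
  refine le_trans (avg_mono fun S _ => ?_) (HP2_one
    (f := fun S => HP2_N (ann p r (K * r)) p (r + 1) (K * r - 1) S ^ 2)
    (fun S => by simp only [HP2_dep_N _ _ _ _ S]) (ncl_sq ha p _) hr hK hR hC hn hc hY)
  refine (pow_le_pow_left₀ (Nat.cast_nonneg _) (HP2_card S hr hK hR le_rfl) 2).trans (le_of_eq ?_)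
  rw [mul_pow, HP2_I]
  split_ifs <;> simp

/-- five disjoint annuli: `ann p r (K r)`, `ann p' r (K r)`, `ann p (K r + 1) (d / 3)`,
`ann p' (K r + 1) (d / 3)`, `ann p (2 d) R` with `d = dst p p'` -/
theorem good_pair (ha : ArmB (r + 1) (K * r - 1) (1 / 2)) (hr : 1 ≤ r) (hK : 3 ≤ K)
    (hC : ∀ r R : ℝ, 1 ≤ r → r ≤ R → HB r R (C * (r / R))) (hn : ‖n‖ = 1)
    (hc : hgt n (pos p) - c ≤ r) (hc' : hgt n (pos p') - c' ≤ r) (hY : bal p R ⊆ Y)
    (hY' : bal p' R ⊆ Y) (h1 : 3 * (K * r + 3) ≤ dst p p') (h2 : 2 * dst p p' + 2 ≤ R) :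
    avg Y.powerset (fun S => ((goodC S p n c r R).card : ℝ) * (goodC S p' n c' r R).card) ≤
      9 * (C * ((K * r + 1) / (dst p p' / 3))) ^ 2 * (C * (2 * dst p p' / R)) := by
  obtain ⟨d, hd⟩ : ∃ d, d = dst p p' := ⟨_, rfl⟩
  rw [← hd] at h1 h2 ⊢
  have h4 : 3 * r ≤ K * r := by nlinarith
  let u : Site → ℝ → Finset Site → ℝ := fun q e S =>
    HP2_N (ann q r (K * r)) q (r + 1) (K * r - 1) S * HP2_I q n e (K * r + 1) (d / 3) S
  have u0 : ∀ q e S, 0 ≤ u q e S := fun q e S =>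
    mul_nonneg (Nat.cast_nonneg _) (HP2_I_nonneg _ _ _ _ _ _)
  have ud : ∀ q e, HP2_Dep (bal q (d / 3)) (u q e) := fun q e =>
    ((HP2_dep_N _ _ _ _).mono (HP2_ann_sub q r (by linarith))).mul
      ((HP2_dep_I _ _ _ _ _).mono (HP2_ann_sub q _ le_rfl))
  have ub : ∀ q e, hgt n (pos q) - e ≤ r → bal q R ⊆ Y →
      avg Y.powerset (u q e) ≤ 3 * (C * ((K * r + 1) / (d / 3))) := fun q e h h' =>
    HP2_one (HP2_dep_N _ _ _ _) (ncl_mean ha q _) hr hK (by linarith) hC hn h
      ((bal_mono q (by linarith)).trans h')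
  have s1 : bal p (d / 3) ⊆ bal p (2 * d) := bal_mono p (by linarith)
  have s2 : bal p' (d / 3) ⊆ bal p (2 * d) := fun x hx => by
    have h5 := mem_bal.1 hx
    have h6 := dst_tri x p' p
    rw [dst_comm p' p, ← hd] at h6
    exact mem_bal.2 (by linarith)
  have s3 : bal p (2 * d) ⊆ Y := (bal_mono p (by linarith)).trans hY
  have s4 : ann p (2 * d) R ⊆ Y := (HP2_ann_sub p _ le_rfl).trans hY
  have d1 : Disjoint (bal p (d / 3)) (bal p' (d / 3)) := Finset.disjoint_left.2 fun x h h' => by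
    have h5 := mem_bal.1 h
    have h6 := mem_bal.1 h'
    have h7 := dst_tri p x p'
    rw [dst_comm p x, ← hd] at h7
    linarith
  calc _ ≤ avg Y.powerset fun S => u p c S * u p' c' S * HP2_I p n c (2 * d) R S := by
        refine avg_mono fun S _ => ?_
        by_cases h : HE p n c r R S
        · rw [HP2_I, if_pos (h.sub (by linarith) le_rfl h2), mul_one]
          exact mul_le_mul (HP2_card S hr hK (by linarith) (by linarith))
            (HP2_card S hr hK (by linarith) (by linarith)) (Nat.cast_nonneg _) (u0 _ _ _)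
        · rw [Finset.not_nonempty_iff_eq_empty.1 h, Finset.card_empty, Nat.cast_zero, zero_mul]
          exact mul_nonneg (mul_nonneg (u0 _ _ _) (u0 _ _ _)) (HP2_I_nonneg _ _ _ _ _ _)
    _ = avg Y.powerset (u p c) * avg Y.powerset (u p' c') *
          avg Y.powerset (HP2_I p n c (2 * d) R) := by
        rw [HP2_indep (((ud p c).mono s1).mul ((ud p' c').mono s2)) (HP2_dep_I _ _ _ _ _) s3 s4
          Finset.disjoint_sdiff, HP2_indep (ud p c) (ud p' c') (s1.trans s3) (s2.trans s3) d1]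
    _ ≤ 3 * (C * ((K * r + 1) / (d / 3))) * (3 * (C * ((K * r + 1) / (d / 3)))) *
          (C * (2 * d / R)) := by
        have a1 := ub p c hc hY
        have a2 := ub p' c' hc' hY'
        have a3 : 0 ≤ avg Y.powerset (u p c) := avg_nonneg fun _ _ => u0 _ _ _
        have a4 : 0 ≤ avg Y.powerset (u p' c') := avg_nonneg fun _ _ => u0 _ _ _
        exact mul_le_mul (mul_le_mul a1 a2 a4 (a3.trans a1))
          (HP2_avg_I (hC _ _ (by linarith) (by linarith)) hn (by linarith) s4)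
          (avg_nonneg fun _ _ => HP2_I_nonneg _ _ _ _ _ _) (mul_nonneg (a3.trans a1) (a4.trans a2))
    _ = _ := by ring

end

theorem HP2_pts {n : ℂ} (hn : ‖n‖ = 1) {a : ℝ} (ha : 0 ≤ a) : ∃ t : ℕ → ℕ → Site,
    (∀ i j, |hgt n (pos (t i j)) - i * a| ≤ 2 / 3) ∧
    (∀ i j, ‖pos (t i j)‖ ≤ (i + j) * a + 2 / 3) ∧
    ∀ i j l : ℕ, |(j : ℝ) - l| * a - 4 / 3 ≤ ‖pos (t i j) - pos (t i l)‖ := by
  let z : ℕ → ℕ → ℂ := fun i j => ((i * a : ℝ) : ℂ) * n + ((j * a : ℝ) : ℂ) * (Complex.I * n)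
  choose t ht using fun i j : ℕ => exists_near (z i j)
  have h0 : n * (starRingEnd ℂ) n = 1 := by
    rw [Complex.mul_conj, Complex.normSq_eq_norm_sq, hn]
    norm_num
  have h1 : hgt n n = 1 := by rw [hgt, h0, Complex.one_re]
  have h2 : hgt n (Complex.I * n) = 0 := by rw [hgt, mul_assoc, h0, mul_one, Complex.I_re]
  refine ⟨t, fun i j => ?_, fun i j => ?_, fun i j l => ?_⟩
  · have e : hgt n (z i j) = i * a := by
      rw [hgt_add, hgt_smul, hgt_smul, h1, h2]
      ring
    rw [← e, ← hgt_sub]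
    exact (abs_hgt_le hn _).trans (ht i j)
  · have e : ‖z i j‖ ≤ (i + j) * a := by
      refine (norm_add_le _ _).trans (le_of_eq ?_)
      rw [norm_mul, norm_mul, norm_mul, hn, Complex.norm_I, Complex.norm_real, Complex.norm_real,
        Real.norm_of_nonneg (by positivity), Real.norm_of_nonneg (by positivity)]
      ring
    have := norm_sub_norm_le (pos (t i j)) (z i j)
    linarith [ht i j]
  · have e : ‖z i j - z i l‖ = |(j : ℝ) - l| * a := by
      have : z i j - z i l = ((((j : ℝ) - l) * a : ℝ) : ℂ) * (Complex.I * n) := by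
        simp only [z]
        push_cast
        ring
      rw [this, norm_mul, norm_mul, hn, Complex.norm_I, Complex.norm_real, Real.norm_eq_abs,
        abs_mul, abs_of_nonneg ha]
      ring
    have h3 : z i j - z i l = (pos (t i j) - pos (t i l)) - (pos (t i j) - z i j) +
        (pos (t i l) - z i l) := by ring
    have h4 := norm_add_le ((pos (t i j) - pos (t i l)) - (pos (t i j) - z i j))
      (pos (t i l) - z i l)
    have h5 := norm_sub_le (pos (t i j) - pos (t i l)) (pos (t i j) - z i j)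
    rw [← h3, e] at h4
    linarith [ht i j, ht i l]

theorem HP2_H {k m : ℕ} (hk : k ≤ m) (hm : 1 ≤ m) :
    ∑ l ∈ Finset.range k, ((l : ℝ) + 1)⁻¹ ≤ 5 * (m : ℝ) ^ (1 / 4 : ℝ) := by
  have h1 : ∑ l ∈ Finset.range k, ((l : ℝ) + 1)⁻¹ ≤ ∑ l ∈ Finset.range m, ((l : ℝ) + 1)⁻¹ :=
    Finset.sum_le_sum_of_subset_of_nonneg (Finset.range_mono hk) fun _ _ _ => by positivity
  have h2 := harmonic_le_one_add_log m
  have h3 := Real.log_le_rpow_div (Nat.cast_nonneg m) (by norm_num : (0 : ℝ) < 1 / 4)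
  have h4 : (1 : ℝ) ≤ (m : ℝ) ^ (1 / 4 : ℝ) :=
    Real.one_le_rpow (by exact_mod_cast hm) (by norm_num)
  rw [harmonic] at h2
  push_cast at h2
  linarith

theorem HP2_harm {m j : ℕ} (hj : j < m) :
    ∑ l ∈ Finset.range m, |(j : ℝ) - l|⁻¹ ≤ 10 * (m : ℝ) ^ (1 / 4 : ℝ) := by
  rw [← Finset.sum_range_add_sum_Ico _ (Nat.succ_le_of_lt hj), Finset.sum_range_succ, sub_self,
    abs_zero, inv_zero, add_zero, Finset.sum_Ico_eq_sum_range, ← Finset.sum_range_reflect]
  have h1 := HP2_H hj.le (by omega : 1 ≤ m)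
  have h2 := HP2_H (Nat.sub_le m (j + 1)) (by omega : 1 ≤ m)
  have e1 : ∑ l ∈ Finset.range j, |(j : ℝ) - ((j - 1 - l : ℕ) : ℝ)|⁻¹ =
      ∑ l ∈ Finset.range j, ((l : ℝ) + 1)⁻¹ := Finset.sum_congr rfl fun l hl => by
    have h := Finset.mem_range.1 hl
    obtain ⟨k, rfl⟩ : ∃ k, j = l + 1 + k := ⟨j - (l + 1), by omega⟩
    have : l + 1 + k - 1 - l = k := by omega
    rw [this]
    push_cast
    rw [add_sub_cancel_right, abs_of_pos (by positivity)]
  have e2 : ∑ l ∈ Finset.range (m - (j + 1)), |(j : ℝ) - ((j + 1 + l : ℕ) : ℝ)|⁻¹ =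
      ∑ l ∈ Finset.range (m - (j + 1)), ((l : ℝ) + 1)⁻¹ := Finset.sum_congr rfl fun l _ => by
    push_cast
    rw [abs_sub_comm, show (j : ℝ) + 1 + l - j = l + 1 by ring, abs_of_pos (by positivity)]
  rw [e1, e2]
  linarith

theorem HP2_core {K₀ K L C r R τ : ℝ} {m : ℕ} (hK₀ : 2 ≤ K₀)
    (hA : ∀ r, 1 ≤ r → ArmB r (K₀ * r) (1 / 2)) (hC0 : 0 < C)
    (hC : ∀ r R : ℝ, 1 ≤ r → r ≤ R → HB r R (C * (r / R))) (hr : 1 ≤ r) (hm : 1 ≤ m)
    (hK : K = 2 * K₀ + 1) (hL : L = 3 * K + 11) (hτ : R = 4 * K₀ * τ)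
    (hR : 2 * (m * (L * r)) ≤ τ) (p : Site) {n : ℂ} {c : ℝ} (hn : ‖n‖ = 1)
    (hc : hgt n (pos p) - c ≤ r) :
    (m * pr (ann p r R).powerset (HE p n c r R) / 2) ^ 2 ≤
      3 / m * ((3 * C * (K + 1) + 1620 * C ^ 3 * (K + 1) ^ 2) * (m : ℝ) ^ (1 / 4 : ℝ)) := by
  have hm' : (1 : ℝ) ≤ m := by exact_mod_cast hm
  have k1 : 2 * r ≤ K₀ * r := by nlinarith
  have k2 : K * r = 2 * (K₀ * r) + r := by rw [hK]; ring
  have k3 : L * r = 3 * (K * r) + 11 * r := by rw [hL]; ring
  have k4 : L * r ≤ m * (L * r) := le_mul_of_one_le_left (by linarith) hm'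
  have k5 : 1 ≤ τ := by linarith
  have k6 : 2 * τ ≤ K₀ * τ := by nlinarith
  have k7 : R = 4 * (K₀ * τ) := by rw [hτ]; ring
  have hK3 : 3 ≤ K := by linarith
  have hR0 : 0 < R := by linarith
  have a1 : ArmB (r + 1) (K * r - 1) (1 / 2) :=
    (hA (r + 1) (by linarith)).mono le_rfl (by nlinarith) le_rfl
  have a2 : ArmB r (K * r) (1 / 2) := (hA r hr).mono le_rfl (by linarith) le_rfl
  have a3 : ArmB τ (R / 2 - 1) (1 / 2) := (hA τ k5).mono le_rfl (by linarith) le_rfl
  obtain ⟨t, t1, t2, t3⟩ := HP2_pts hn (a := L * r) (by linarith)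
  have d1 : ∀ i j, i < m → j < m → dst (p + t i j) p + r + 1 ≤ τ := fun i j hi hj => by
    have hi' : (i : ℝ) + 1 ≤ m := by exact_mod_cast hi
    have hj' : (j : ℝ) + 1 ≤ m := by exact_mod_cast hj
    have h1 : ((i : ℝ) + j + 2) * (L * r) ≤ 2 * m * (L * r) :=
      mul_le_mul_of_nonneg_right (by linarith) (by linarith)
    rw [dst, pos_add, add_sub_cancel_left]
    linarith [t2 i j]
  have d2 : ∀ i j, hgt n (pos (p + t i j)) - (c + hgt n (pos (t i j))) ≤ r := fun i j => by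
    rw [pos_add, hgt_add]
    linarith
  have d3 : ∀ i j, i < m → j < m → bal (p + t i j) R ⊆ bal p (2 * R) := fun i j hi hj x hx => by
    have h1 := mem_bal.1 hx
    have h2 := dst_tri x (p + t i j) p
    exact mem_bal.2 (by linarith [d1 i j hi hj])
  have d4 : ∀ {i k : ℕ}, i ≠ k → 1 ≤ |(i : ℝ) - k| := fun {i k} h => by
    have : (1 : ℤ) ≤ |(i : ℤ) - k| := Int.one_le_abs (by omega)
    exact_mod_cast this
  let X : ℕ → Finset Site → ℝ := fun i S => ∑ j ∈ Finset.range m,
    ((confC S (p + t i j) n (c + hgt n (pos (t i j))) r R K).card : ℝ)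
  -- some row is rarely occupied
  have hrow : ∃ i ∈ Finset.range m, pr (bal p (2 * R)).powerset (fun S => X i S ≠ 0) ≤ 3 / m := by
    refine Finset.exists_le_of_sum_le ⟨0, Finset.mem_range.2 hm⟩ ?_
    rw [Finset.sum_const, Finset.card_range, nsmul_eq_mul, mul_div_cancel₀ _ (by linarith)]
    simp only [pr]
    rw [← avg_sum]
    refine le_trans (avg_mono fun S _ => ?_) (((HP2_dep_N (bal p (R / 2)) p τ (R / 2 - 1)).avg
      (bal_mono p (by linarith))).trans_le (ncl_mean a3 p _))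
    have hj : ∀ i, ∃ j, X i S ≠ 0 → j < m ∧
        1 ≤ (confC S (p + t i j) n (c + hgt n (pos (t i j))) r R K).card := fun i => by
      by_cases h : X i S = 0
      · exact ⟨0, fun h' => absurd h h'⟩
      · obtain ⟨j, hj, h'⟩ := Finset.exists_ne_zero_of_sum_ne_zero h
        exact ⟨j, fun _ => ⟨Finset.mem_range.1 hj, Nat.one_le_iff_ne_zero.2 (Nat.cast_ne_zero.1 h')⟩⟩
    choose J hJ using hj
    have key := sum_conf_le (S := S) ((Finset.range m).filter fun i => X i S ≠ 0)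
      (fun i => p + t i (J i)) (fun i => c + hgt n (pos (t i (J i)))) (p₀ := p) (τ := τ) (K := K)
      (R := R) hn hr (by linarith) (by linarith) (by linarith)
      (fun i hi => d1 i _ (Finset.mem_range.1 (Finset.mem_filter.1 hi).1)
        (hJ i (Finset.mem_filter.1 hi).2).1) (fun i _ => d2 i _) fun i _ k _ h => by
        have h1 := abs_le.1 (t1 i (J i))
        have h2 := abs_le.1 (t1 k (J k))
        have h3 : 1 * (L * r) ≤ |(i : ℝ) - k| * (L * r) :=
          mul_le_mul_of_nonneg_right (d4 h) (by linarith)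
        rw [← abs_of_nonneg (by linarith : 0 ≤ L * r), ← abs_mul,
          abs_of_nonneg (by linarith : 0 ≤ L * r)] at h3
        rw [pos_add, pos_add, hgt_add, hgt_add]
        rcases le_abs.1 h3 with h4 | h4
        · exact lt_abs.2 (Or.inl (by linarith))
        · exact lt_abs.2 (Or.inr (by linarith))
    refine le_trans ?_ (Nat.cast_le.2 key)
    rw [Nat.cast_sum, Finset.sum_filter]
    refine Finset.sum_le_sum fun i _ => ?_
    by_cases h : X i S ≠ 0
    · rw [if_pos h, if_pos h]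
      exact_mod_cast (hJ i h).2
    · rw [if_neg h, if_neg h]
  obtain ⟨i, hi, hrow⟩ := hrow
  replace hi := Finset.mem_range.1 hi
  -- first moment
  have hone : m * pr (ann p r R).powerset (HE p n c r R) / 2 ≤
      avg (bal p (2 * R)).powerset (X i) := by
    have e : m * pr (ann p r R).powerset (HE p n c r R) / 2 =
        ∑ _j ∈ Finset.range m, pr (ann p r R).powerset (HE p n c r R) / 2 := by
      rw [Finset.sum_const, Finset.card_range, nsmul_eq_mul]
      ring
    rw [e, avg_sum]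
    refine Finset.sum_le_sum fun j hj => ?_
    have h0 := d3 i j hi (Finset.mem_range.1 hj)
    have h1 := avg_good_le (n := n) (c := c + hgt n (pos (t i j))) a2 h0
    have h2 : pr (bal p (2 * R)).powerset (HE (p + t i j) n (c + hgt n (pos (t i j))) r R) ≤
        avg (bal p (2 * R)).powerset fun S =>
          ((goodC S (p + t i j) n (c + hgt n (pos (t i j))) r R).card : ℝ) :=
      avg_mono fun S _ => by
        split_ifs with h
        · exact_mod_cast Finset.card_pos.2 h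
        · exact Nat.cast_nonneg _
    rw [pr_he ((HP2_ann_sub _ _ le_rfl).trans h0), pr_he_shift] at h2
    linarith
  -- second moment
  have hq : K * r + 1 ≤ (K + 1) * r := by linarith
  have hm4 : (1 : ℝ) ≤ (m : ℝ) ^ (1 / 4 : ℝ) := Real.one_le_rpow hm' (by norm_num)
  have htwo : avg (bal p (2 * R)).powerset (fun S => X i S ^ 2) ≤
      (3 * C * (K + 1) + 1620 * C ^ 3 * (K + 1) ^ 2) * (m : ℝ) ^ (1 / 4 : ℝ) := by
    let g : ℕ → Finset Site → ℝ := fun j S =>
      ((goodC S (p + t i j) n (c + hgt n (pos (t i j))) r R).card : ℝ)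
    have hp : ∀ j ∈ Finset.range m, ∀ l ∈ Finset.range m,
        avg (bal p (2 * R)).powerset (fun S => g j S * g l S) ≤
          (if l = j then 3 * C * (K + 1) * (r / R) else 0) +
            162 * C ^ 3 * (K + 1) ^ 2 * (r / R) * |(j : ℝ) - l|⁻¹ := fun j hj l hl => by
      replace hj := Finset.mem_range.1 hj
      replace hl := Finset.mem_range.1 hl
      split_ifs with h
      · subst h
        rw [sub_self, abs_zero, inv_zero, mul_zero, add_zero]
        simp only [← sq]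
        refine (good_sq a1 hr hK3 (by linarith) hC hn (d2 i l) (d3 i l hi hl)).trans ?_
        calc 3 * (C * ((K * r + 1) / R)) ≤ 3 * (C * ((K + 1) * r / R)) := by gcongr
          _ = _ := by ring
      · have h1 := d4 (Ne.symm h)
        have h2 : |(j : ℝ) - l| * (L * r) - 4 / 3 ≤ dst (p + t i j) (p + t i l) := by
          rw [dst, pos_add, pos_add, add_sub_add_left_eq_sub]
          exact t3 i j l
        have h3 := dst_tri (p + t i j) p (p + t i l)
        rw [dst_comm p] at h3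
        have h4 : 1 * (L * r - r) ≤ |(j : ℝ) - l| * (L * r - r) :=
          mul_le_mul_of_nonneg_right h1 (by linarith)
        have h5 : 1 * r ≤ |(j : ℝ) - l| * r := mul_le_mul_of_nonneg_right h1 (by linarith)
        refine (good_pair a1 hr hK3 hC hn (d2 i j) (d2 i l) (d3 i j hi hj) (d3 i l hi hl)
          (by linarith) (by linarith [d1 i j hi hj, d1 i l hi hl])).trans ?_
        have h6 : |(j : ℝ) - l| * r ≤ dst (p + t i j) (p + t i l) := by linarith
        generalize dst (p + t i j) (p + t i l) = d at h6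
        generalize |(j : ℝ) - l| = w at h1 h5 h6
        have hd : 0 < d := by linarith
        have hw : 0 < w := by linarith
        have hr0 : 0 < r := by linarith
        calc 9 * (C * ((K * r + 1) / (d / 3))) ^ 2 * (C * (2 * d / R))
            = 162 * C ^ 3 * (K * r + 1) ^ 2 / (d * R) := by field_simp; ring
          _ ≤ 162 * C ^ 3 * ((K + 1) * r) ^ 2 / (w * r * R) := by gcongr
          _ = _ := by field_simp; ring
    have hmr : m * (r / R) ≤ 1 := by
      rw [← mul_div_assoc, div_le_one hR0]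
      have : m * r ≤ m * (L * r) := mul_le_mul_of_nonneg_left (by linarith) (by linarith)
      linarith
    calc _ ≤ avg (bal p (2 * R)).powerset
          (fun S => ∑ j ∈ Finset.range m, ∑ l ∈ Finset.range m, g j S * g l S) := by
          refine avg_mono fun S _ => ?_
          rw [← Finset.sum_mul_sum, ← sq]
          refine pow_le_pow_left₀ (Finset.sum_nonneg fun _ _ => Nat.cast_nonneg _)
            (Finset.sum_le_sum fun j _ => ?_) 2
          exact Nat.cast_le.2 (Finset.card_filter_le _ _)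
      _ ≤ ∑ _j ∈ Finset.range m, (r / R) * ((3 * C * (K + 1) + 1620 * C ^ 3 * (K + 1) ^ 2) *
            (m : ℝ) ^ (1 / 4 : ℝ)) := by
          rw [avg_sum]
          refine Finset.sum_le_sum fun j hj => ?_
          rw [avg_sum]
          refine (Finset.sum_le_sum (hp j hj)).trans ?_
          rw [Finset.sum_add_distrib, Finset.sum_ite_eq', if_pos hj, ← Finset.mul_sum]
          have h1 := HP2_harm (Finset.mem_range.1 hj)
          have h2 : 0 ≤ r / R := by positivity
          calc _ ≤ 3 * C * (K + 1) * (r / R) * (m : ℝ) ^ (1 / 4 : ℝ) +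
                162 * C ^ 3 * (K + 1) ^ 2 * (r / R) * (10 * (m : ℝ) ^ (1 / 4 : ℝ)) :=
                add_le_add (le_mul_of_one_le_right (by positivity) hm4) (by gcongr)
            _ = _ := by ring
      _ ≤ _ := by
          rw [Finset.sum_const, Finset.card_range, nsmul_eq_mul, ← mul_assoc]
          exact mul_le_of_le_one_left (by positivity) hmr
  refine (pow_le_pow_left₀ (div_nonneg (mul_nonneg (by linarith) (pr_nonneg _ _)) (by norm_num))
    hone 2).trans ((avg_sq_le _ _).trans ?_)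
  exact mul_le_mul hrow htwo (avg_nonneg fun _ _ => sq_nonneg _) (by positivity)

/-- Take `m` of order `R / r` rows at heights `i L r` and `m` points in each row at spacing `L r`
(`exists_near`, directions `n` and `I * n`). `Y i` is the number of confined clusters of the row
`i`. By `sum_conf_le` (one point for each row with `Y i ≠ 0`; the heights in a row differ by at
most `2`) and `ncl_mean` some row has `pr (Y i ≠ 0) ≤ 3 / m`; its mean is at least `m P / 2`
(`avg_good_le`, `pr_he_shift`), its second moment at most `C log m ≤ C m ^ (1 / 4)` (`good_sq`,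
`good_pair`); `avg_sq_le`. -/
theorem hb_two : ∃ C : ℝ, 0 < C ∧ ∀ r R : ℝ, 1 ≤ r → r ≤ R →
    HB r R (C * (r / R) ^ (11 / 8 : ℝ)) := by
  obtain ⟨K₀, hK₀, hA⟩ := armB_small (q := 1 / 2) (by norm_num)
  obtain ⟨C, hC0, hC⟩ := hb_one
  obtain ⟨K, hK⟩ : ∃ K, K = 2 * K₀ + 1 := ⟨_, rfl⟩
  obtain ⟨L, hL⟩ : ∃ L, L = 3 * K + 11 := ⟨_, rfl⟩
  obtain ⟨A, hA'⟩ : ∃ A, A = 3 * C * (K + 1) + 1620 * C ^ 3 * (K + 1) ^ 2 := ⟨_, rfl⟩
  have hK0 : 0 < K := by linarith
  have hL0 : 0 < L := by linarith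
  have hK1 : 0 < K₀ := by linarith
  have hA0 : 0 < A := by rw [hA']; positivity
  refine ⟨(√(12 * A) + 1) * (16 * K₀ * L) ^ (11 / 8 : ℝ), by positivity,
    fun r R hr hR p n c hn hc => ?_⟩
  have hr0 : 0 < r := by linarith
  have hR0 : 0 < R := by linarith
  rw [mul_assoc, ← Real.mul_rpow (by positivity) (by positivity)]
  obtain ⟨x, hx⟩ : ∃ x, x = R / (8 * K₀ * L * r) := ⟨_, rfl⟩
  have hx0 : 0 < x := by rw [hx]; positivity
  have e : 16 * K₀ * L * (r / R) = 2 / x := by
    rw [hx]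
    field_simp
    ring
  rw [e]
  have hs := Real.sqrt_nonneg (12 * A)
  rcases le_or_gt x 1 with h | h
  · refine (pr_le_one _ _).trans (one_le_mul_of_one_le_of_one_le (by linarith)
      (Real.one_le_rpow ?_ (by norm_num)))
    rw [le_div_iff₀ hx0]
    linarith
  · have hm : 1 ≤ ⌊x⌋₊ := Nat.le_floor (by exact_mod_cast h.le)
    have h1 := Nat.floor_le hx0.le
    have h2 := Nat.lt_floor_add_one x
    generalize ⌊x⌋₊ = m at hm h1 h2
    have hm' : (1 : ℝ) ≤ m := by exact_mod_cast hm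
    have hm0 : (0 : ℝ) < m := by linarith
    have key := HP2_core (R := R) (τ := R / (4 * K₀)) hK₀ hA hC0 hC hr hm hK hL (by field_simp)
      (by
        rw [hx, le_div_iff₀ (by positivity)] at h1
        rw [le_div_iff₀ (by positivity)]
        linarith) p hn hc
    rw [← hA'] at key
    generalize pr (ann p r R).powerset (HE p n c r R) = P at key ⊢
    have h3 : ((m : ℝ)⁻¹ ^ (11 / 8 : ℝ)) ^ 2 = (m : ℝ) ^ (1 / 4 : ℝ) / m ^ 3 := by
      rw [Real.inv_rpow hm0.le, ← Real.rpow_neg hm0.le, ← Real.rpow_natCast, ← Real.rpow_natCast,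
        ← Real.rpow_mul hm0.le, ← Real.rpow_sub hm0]
      norm_num
    have h4 : P ^ 2 ≤ (√(12 * A) * (m : ℝ)⁻¹ ^ (11 / 8 : ℝ)) ^ 2 := by
      rw [mul_pow, Real.sq_sqrt (by positivity), h3]
      calc P ^ 2 = 4 / m ^ 2 * (m * P / 2) ^ 2 := by field_simp; ring
        _ ≤ 4 / m ^ 2 * (3 / m * (A * (m : ℝ) ^ (1 / 4 : ℝ))) := by gcongr
        _ = _ := by field_simp; ring
    refine (abs_le_of_sq_le_sq' h4 (by positivity)).2.trans ?_
    have h5 : (m : ℝ)⁻¹ ≤ 2 / x := by
      rw [inv_eq_one_div, div_le_div_iff₀ hm0 hx0]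
      linarith
    gcongr
    linarith

end Pool.Agent.TAF.U
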