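import Pool.Agent.P.MP_cb4022_pr.U.Sgn2

/-! One class of the exploration from the inside for the contraction constant (paper F5,
stage 2). -/

open scoped Classical symmDiff

noncomputable section

namespace Pool.Agent.TAF.U

/-- data of the inner stage -/
structure KH (s r : ℝ) (D c c' o : Finset Site) (U : Finset Tri) (f : Finset Edge → ℝ) :
    Prop where
  dom : Dom s r D (bal 0 s)
  out : ∀ u ∈ U, OutTip D u
  card : U.card = 4
  cs : c ⊆ bal 0 s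
  cs' : c' ⊆ bal 0 s
  eq : ∀ x ∉ bal 0 (s - 1), x ∈ c ↔ x ∈ c'
  od : Disjoint o D
  odd : ∀ t, IsOdd (res (bd o) D) t ↔ t ∈ U
  f1 : ∀ ξ, |f ξ| ≤ 1
  fP : ∀ ξ ξ', Pairs D U ξ → Pairs D U ξ' → SameP U ξ ξ' → f ξ = f ξ'

def dK (D c c' o : Finset Site) (f : Finset Edge → ℝ) (S : Finset Site) : ℝ :=
  f (res (bd ((c ∪ o) ∆ S)) D) - f (res (bd ((c' ∪ o) ∆ S)) D)

def KI0 : Prop := ∃ C : ℝ, ∀ Lam : ℝ, ∃ s₀ : ℝ, ∀ (s r : ℝ) (D c c' o : Finset Site)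
  (U : Finset Tri) (f : Finset Edge → ℝ), s₀ ≤ s → KH s r D c c' o U f → D ⊆ bal 0 (Lam * s) →
    |avg (Gr D (bal 0 s)) (dK D c c' o f)| ≤ C * (s / r) ^ 2

def KI1 : Prop := ∀ η : ℝ, 0 < η → ∃ lam₀ : ℝ, ∀ Lam : ℝ, ∃ s₀ : ℝ, ∀ (s r : ℝ)
  (D c c' o : Finset Site) (U : Finset Tri) (f : Finset Edge → ℝ), s₀ ≤ s → lam₀ * s ≤ r →
    KH s r D c c' o U f → D ⊆ bal 0 (Lam * s) →
    |avg (Gr D (bal 0 s)) (dK D c c' o f) +
      avg (Gr D (bal 0 s)) (dK D (rotA.mS c) (rotA.mS c') o f) +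
      avg (Gr D (bal 0 s)) (dK D (rotA.mS (rotA.mS c)) (rotA.mS (rotA.mS c')) o f)| ≤
      η * (s / r) ^ 2

/-- walls inside the small ball, their ends, and the walls outside -/
def kI (s : ℝ) (c : Finset Site) : Finset Edge := ins (bd c) (bal 0 s)
def kV (s : ℝ) (c : Finset Site) : Finset Tri := oddS (kI s c)
def kZ (s : ℝ) (D σ : Finset Site) : Finset Edge := bd σ ∩ allowed D (bal 0 s)
def kX (s ρ : ℝ) (D c σ : Finset Site) : Finset Site :=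
  exX (kZ s D σ) (kV s c) (bal 0 ρ : Set Site)ᶜ
def kE (s ρ : ℝ) (D c σ : Finset Site) : Finset Edge :=
  exE (kZ s D σ) (kV s c) (bal 0 ρ : Set Site)ᶜ
def kT (s ρ : ℝ) (D c σ : Finset Site) : Finset Tri :=
  tips (kZ s D σ) (kV s c) (bal 0 ρ : Set Site)ᶜ

section
variable {s r ρ : ℝ} {D c c' o S : Finset Site} {U : Finset Tri} {f : Finset Edge → ℝ}

theorem KCls_union {a b : Finset Edge} (h : Disjoint a b) : a ∪ b = a ∆ b := by
  ext e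
  have : e ∈ a → e ∉ b := fun h' => Finset.disjoint_left.1 h h'
  simp only [Finset.mem_union, Finset.mem_symmDiff]
  tauto

theorem KCls_touch {e : Edge} {X : Set Site} (h : ¬ Inside e X) : Touch e Xᶜ := by
  by_contra h'
  rw [not_touch_iff, compl_compl] at h'
  exact h h'

theorem KCls_far {e : Edge} (h : Touch e (bal 0 s : Set Site)ᶜ) :
    lft e ∉ bal 0 (s - 1) ∧ rgt e ∉ bal 0 (s - 1) := by
  have h1 := dst_adj (adj_lft_rgt e)
  have h2 := dst_tri (lft e) (rgt e) 0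
  have h3 := dst_tri (rgt e) (lft e) 0
  rw [dst_comm (rgt e) (lft e)] at h3
  rw [mem_bal, mem_bal]
  rcases h with h | h
  · have h4 : ¬ dst (lft e) 0 ≤ s := fun h' => h (mem_bal.2 h')
    constructor <;> intro h5 <;> apply h4 <;> linarith
  · have h4 : ¬ dst (rgt e) 0 ≤ s := fun h' => h (mem_bal.2 h')
    constructor <;> intro h5 <;> apply h4 <;> linarith

theorem KCls_mem_kV {t : Tri} : t ∈ kV s c ↔ IsOdd (res (bd c) (bal 0 s : Set Site)ᶜ) t := by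
  have h1 : bd c = kI s c ∆ res (bd c) (bal 0 s : Set Site)ᶜ := by
    ext e
    have h2 : Touch e (bal 0 s : Set Site)ᶜ ↔ ¬ Inside e (bal 0 s) :=
      ⟨fun h h' => (not_touch_iff.2 (by rwa [compl_compl])) h, KCls_touch⟩
    simp only [kI, Finset.mem_symmDiff, mem_ins, mem_res, h2]
    tauto
  have h3 := not_isOdd_bd c t
  rw [h1, isOdd_symmDiff, not_not] at h3
  rw [kV, mem_oddS, h3]

theorem KCls_bd (h : KH s r D c c' o U f) {e : Edge} (he : Touch e (bal 0 s : Set Site)ᶜ) :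
    e ∈ bd c' ↔ e ∈ bd c := by
  obtain ⟨h1, h2⟩ := KCls_far he
  rw [mem_bd, mem_bd, h.eq _ h1, h.eq _ h2]

theorem KCls_disj {σ : Finset Site} {ζ : Finset Edge} (h : ζ ⊆ kZ s D σ) :
    Disjoint (kI s c) ζ :=
  Finset.disjoint_left.2 fun _ h1 h2 =>
    (mem_allowed.1 (Finset.mem_inter.1 (h h2)).2).2 (mem_ins.1 h1).2

theorem KH.symm (h : KH s r D c c' o U f) : KH s r D c' c o U f := by
  exact ⟨h.dom, h.out, h.card, h.cs', h.cs, fun x hx => (h.eq x hx).symm, h.od, h.odd, h.f1, h.fP⟩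

theorem KH.rot (h : KH s r D c c' o U f) : KH s r D (rotA.mS c) (rotA.mS c') o U f := by
  refine ⟨h.dom, h.out, h.card, AutL_sub s h.cs, AutL_sub s h.cs', fun x hx => ?_, h.od, h.odd,
    h.f1, h.fP⟩
  obtain ⟨y, rfl⟩ := rotA.fS.surjective x
  rw [Aut.mem_mS, Aut.mem_mS]
  refine h.eq y fun hy => hx ?_
  rw [← rot_bal, Aut.mem_mS]
  exact hy

theorem KH.kV_eq (h : KH s r D c c' o U f) : kV s c' = kV s c := by
  ext t
  rw [KCls_mem_kV, KCls_mem_kV, res_congr fun e he => KCls_bd h he]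

theorem KH.kZ_eq (h : KH s r D c c' o U f) (S : Finset Site) :
    kZ s D ((c' ∪ o) ∆ S) = kZ s D ((c ∪ o) ∆ S) := by
  ext e
  simp only [kZ, Finset.mem_inter]
  refine and_congr_left fun he => ?_
  obtain ⟨h1, h2⟩ := KCls_far (KCls_touch (mem_allowed.1 he).2)
  simp only [mem_bd, Finset.mem_symmDiff, Finset.mem_union, h.eq _ h1, h.eq _ h2]

theorem KH.res_eq (h : KH s r D c c' o U f) (hS : S ∈ Gr D (bal 0 s)) :
    res (bd ((c ∪ o) ∆ S)) D = kI s c ∪ kZ s D ((c ∪ o) ∆ S) := by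
  ext e
  simp only [mem_res, kI, kZ, Finset.mem_union, Finset.mem_inter, mem_ins, mem_allowed]
  by_cases he : Inside e (bal 0 s)
  · have h1 : lft e ∈ D := h.dom.sub he.1
    have h2 : rgt e ∈ D := h.dom.sub he.2
    have h3 : lft e ∉ o := fun h' => Finset.disjoint_left.1 h.od h' h1
    have h4 : rgt e ∉ o := fun h' => Finset.disjoint_left.1 h.od h' h2
    have h5 : e ∉ bd S := fun h' => (mem_allowed.1 (bd_Gr hS h')).2 he
    have h6 : Touch e D := Or.inl h1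
    have h7 : e ∈ bd (c ∪ o) ↔ e ∈ bd c := by
      simp only [mem_bd, Finset.mem_union, h3, h4, or_false]
    rw [bd_symmDiff, Finset.mem_symmDiff, h7]
    tauto
  · tauto

theorem KH.kZ_act (h : KH s r D c c' o U f) {S' : Finset Site} (hS' : S' ∈ Gr D (bal 0 s)) :
    kZ s D ((c ∪ o) ∆ (S ∆ S')) = kZ s D ((c ∪ o) ∆ S) ∆ bd S' := by
  ext e
  have h1 : e ∈ bd S' → e ∈ allowed D (bal 0 s) := fun h' => bd_Gr hS' h'
  rw [← symmDiff_assoc, kZ, kZ, bd_symmDiff]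
  simp only [Finset.mem_inter, Finset.mem_symmDiff]
  tauto

theorem KH.frame0 (h : KH s r D c c' o U f) : Frame s r D (bal 0 s) (kV s c) U := by
  refine ⟨h.dom, fun v hv => ?_, h.out⟩
  obtain ⟨q, h0, h1, h2, -⟩ := (isOdd_res (Or.inl (not_isOdd_bd c v))).1 (KCls_mem_kV.1 hv)
  exact ⟨q, h0, not_not.1 h1, not_not.1 h2⟩

theorem KH.mem (h : KH s r D c c' o U f) (hS : S ∈ Gr D (bal 0 s)) :
    kZ s D ((c ∪ o) ∆ S) ∈ Om D (bal 0 s) (kV s c ∪ U) := by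
  refine mem_Om.2 ⟨Finset.inter_subset_right, fun t => ?_⟩
  have h1 : IsOdd (res (bd ((c ∪ o) ∆ S)) D) t ↔ t ∈ U := by
    rw [← h.odd]
    refine odd_res_congr (fun x hx => ?_) t
    have h2 : x ∉ c := fun h' => hx (h.dom.sub (h.cs h'))
    have h3 : x ∉ S := fun h' => hx ((mem_Gr.1 hS).1 h')
    simp only [Finset.mem_symmDiff, Finset.mem_union, h2, h3]
    tauto
  rw [h.res_eq hS, KCls_union (KCls_disj (Finset.Subset.refl _)), isOdd_symmDiff,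
    ← mem_oddS (ξ := kI s c)] at h1
  have h4 : t ∈ kV s c → t ∉ U := fun h' => Finset.disjoint_left.1 h.frame0.disjoint h'
  rw [Finset.mem_union]
  unfold kV at h4 ⊢
  tauto

theorem KH.inH (h : KH s r D c c' o U f) (hS : S ∈ Gr D (bal 0 s)) (h1 : s + 1 ≤ ρ)
    (h2 : ρ + 6 ≤ r) : InH s ρ r D (bal 0 s) (kV s c) U (kZ s D ((c ∪ o) ∆ S)) := by
  exact ⟨h.dom, h.mem hS, h.frame0.simple (h.mem hS), fun t ht i =>
    bal_mono 0 h1 ((h.frame0.inn t ht).allIn (Finset.Subset.refl _) i), h.out, by linarith, h2⟩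

theorem KCls_anch (h : KH s r D c c' o U f) (ξ : Finset Edge) (T : Set Site) :
    Anch ξ (kV s c) T (bal 0 s) := fun t ht => by
  obtain ⟨p, -, h1, -⟩ := h.frame0.inn t ht
  exact ⟨t, ht, Conn.refl _ _, p + 1, h1⟩

theorem KH.frame (h : KH s r D c c' o U f) (hS : S ∈ Gr D (bal 0 s)) (h1 : s + 1 ≤ ρ)
    (h2 : ρ + 6 ≤ r) : Frame ρ r D (bal 0 s ∪ kX s ρ D c ((c ∪ o) ∆ S))
      (kT s ρ D c ((c ∪ o) ∆ S)) U := by
  exact (h.inH hS h1 h2).frame (KCls_anch h _ _)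

theorem KCls_pair (h : KH s r D c c' o U f) (hS : S ∈ Gr D (bal 0 s)) (h1 : s + 1 ≤ ρ)
    (h2 : ρ + 6 ≤ r) :
    InPair (bal 0 s ∪ kX s ρ D c ((c ∪ o) ∆ S)) (kT s ρ D c ((c ∪ o) ∆ S))
      (kI s c ∪ kE s ρ D c ((c ∪ o) ∆ S)) := by
  have hg := (h.inH hS h1 h2).good
  refine ⟨(simple_bd ((c ∪ o) ∆ S)).mono ?_, fun e he => ?_, fun t => ?_⟩
  · refine Finset.Subset.trans ?_ (Link_res_sub _ (D : Set Site))
    rw [h.res_eq hS]
    exact Finset.union_subset_union_right exE_subset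
  · rw [Finset.coe_union]
    rcases Finset.mem_union.1 he with he | he
    · exact ⟨Or.inl (mem_ins.1 he).2.1, Or.inl (mem_ins.1 he).2.2⟩
    · exact ⟨Or.inr (exE_inside he).1, Or.inr (exE_inside he).2⟩
  · have h3 := fun h' : t ∈ kV s c => Finset.disjoint_left.1 hg.disjoint h'
    rw [kE, KCls_union (KCls_disj exE_subset), isOdd_symmDiff, hg.odd_exE,
      ← mem_oddS (ξ := kI s c), kT]
    unfold kV at h3 ⊢
    tauto

theorem KH.inPair (h : KH s r D c c' o U f) (hS : S ∈ Gr D (bal 0 s)) (h1 : s + 1 ≤ ρ)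
    (h2 : ρ + 6 ≤ r) :
    InPair (bal 0 s ∪ kX s ρ D c ((c ∪ o) ∆ S)) (kT s ρ D c ((c ∪ o) ∆ S))
        (kI s c ∪ kE s ρ D c ((c ∪ o) ∆ S)) ∧
      InPair (bal 0 s ∪ kX s ρ D c ((c ∪ o) ∆ S)) (kT s ρ D c ((c ∪ o) ∆ S))
        (kI s c' ∪ kE s ρ D c ((c ∪ o) ∆ S)) := by
  refine ⟨KCls_pair h hS h1 h2, ?_⟩
  have h3 := KCls_pair h.symm hS h1 h2
  rwa [kX, kT, kE, h.kZ_eq, h.kV_eq] at h3

theorem KCls_expl (_h : KH s r D c c' o U f) {S' : Finset Site}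
    (hS' : S' ∈ Gr D (bal 0 s ∪ kX s ρ D c ((c ∪ o) ∆ S))) {ρ' : ℝ} (h1 : ρ' ≤ ρ) :
    exX (kZ s D ((c ∪ o) ∆ S) ∆ bd S') (kV s c) (bal 0 ρ' : Set Site)ᶜ =
        exX (kZ s D ((c ∪ o) ∆ S)) (kV s c) (bal 0 ρ' : Set Site)ᶜ ∧
      exE (kZ s D ((c ∪ o) ∆ S) ∆ bd S') (kV s c) (bal 0 ρ' : Set Site)ᶜ =
        exE (kZ s D ((c ∪ o) ∆ S)) (kV s c) (bal 0 ρ' : Set Site)ᶜ ∧
      tips (kZ s D ((c ∪ o) ∆ S) ∆ bd S') (kV s c) (bal 0 ρ' : Set Site)ᶜ =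
        tips (kZ s D ((c ∪ o) ∆ S)) (kV s c) (bal 0 ρ' : Set Site)ᶜ ∧
      (kZ s D ((c ∪ o) ∆ S) ∆ bd S') \
          exE (kZ s D ((c ∪ o) ∆ S)) (kV s c) (bal 0 ρ' : Set Site)ᶜ =
        (kZ s D ((c ∪ o) ∆ S) \ exE (kZ s D ((c ∪ o) ∆ S)) (kV s c) (bal 0 ρ' : Set Site)ᶜ) ∆
          bd S' := by
  have h2 : exX (kZ s D ((c ∪ o) ∆ S)) (kV s c) (bal 0 ρ' : Set Site)ᶜ ⊆
      bal 0 s ∪ kX s ρ D c ((c ∪ o) ∆ S) :=
    (exX_anti (Set.compl_subset_compl.2 (Finset.coe_subset.2 (bal_mono 0 h1)))).trans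
      Finset.subset_union_right
  refine expl_act ?_
  rcases (mem_Gr.1 hS').2 with h3 | h3
  · exact Or.inl (h2.trans h3)
  · exact Or.inr (h3.mono_right h2)

theorem KH.act (h : KH s r D c c' o U f) {S' : Finset Site}
    (hS' : S' ∈ Gr D (bal 0 s ∪ kX s ρ D c ((c ∪ o) ∆ S))) {ρ' : ℝ} (h1 : ρ' ≤ ρ) :
    kX s ρ' D c ((c ∪ o) ∆ (S ∆ S')) = kX s ρ' D c ((c ∪ o) ∆ S) ∧
      kE s ρ' D c ((c ∪ o) ∆ (S ∆ S')) = kE s ρ' D c ((c ∪ o) ∆ S) ∧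
      kT s ρ' D c ((c ∪ o) ∆ (S ∆ S')) = kT s ρ' D c ((c ∪ o) ∆ S) := by
  have h2 := KCls_expl h hS' h1
  rw [kX, kE, kT, h.kZ_act (Gr_mono (Finset.Subset.refl _) Finset.subset_union_left hS')]
  exact ⟨h2.1, h2.2.1, h2.2.2.1⟩

/-- parity (`even_odd`, `GoodSt.parity`), `arc_tips_out`, `arc_congr` -/
theorem KH.arc (h : KH s r D c c' o U f) (hS : S ∈ Gr D (bal 0 s)) (h1 : s + 3 ≤ ρ)
    (h2 : ρ + 6 ≤ r) (hc : 4 < (kT s ρ D c ((c ∪ o) ∆ S)).card) :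
    Arc 6 (bd (c ∪ o) ∆ bd S) 0 (s + 1) (ρ - 1) := by
  have hI := h.inH hS (show s + 1 ≤ ρ by linarith) h2
  have hV : Even (kV s c).card := even_odd fun t => mem_oddS.symm
  have hT : Even (kT s ρ D c ((c ∪ o) ∆ S)).card := (Nat.even_add.1 hI.good.parity).1 hV
  have h6 : 6 ≤ (kT s ρ D c ((c ∪ o) ∆ S)).card := by
    obtain ⟨k, hk⟩ := hT
    omega
  have hin : ∀ t ∈ kV s c, AllIn t (bal 0 (s + 1)) := fun t ht =>
    (h.frame0.inn t ht).allIn (Finset.Subset.refl _)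
  have h7 := arc_tips_out hI.good (p := 0) (r := s + 1) (R := ρ - 1) (by linarith)
    (fun t ht ho => by
      obtain ⟨i, hi⟩ := ht
      obtain ⟨a1, a2⟩ := mem_ann.1 hi
      rcases Finset.mem_union.1 (((mem_Om.1 hI.mem).2 t).1 ho) with h' | h'
      · exact absurd (mem_bal.1 (hin t h' i)) (not_le.2 a1)
      · exact (h.out t h').allIn h.dom.hR i (mem_bal.2 (by linarith)))
    hin (by rw [sub_add_cancel])
  refine (arc_congr fun e he => ?_).1 (h7.mono h6)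
  rw [kZ, bd_symmDiff, Finset.mem_inter]
  refine and_iff_left (mem_allowed.2 ⟨InOut_touch_mono (fun x hx => h.dom.hR
    (mem_bal.2 ((mem_ann.1 hx).2.trans (by linarith)))) he, fun h' => ?_⟩)
  rcases he with he | he
  · linarith [(mem_ann.1 he).1, mem_bal.1 h'.1]
  · linarith [(mem_ann.1 he).1, mem_bal.1 h'.2]

theorem KCls_cast {α : Type*} (W : Finset α) (g : α → ℝ) :
    ((avg W g : ℝ) : ℂ) = avg W fun x => (g x : ℂ) := by
  simp only [avg, smul_eq_mul, Complex.real_smul]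
  push_cast
  rfl

theorem KCls_amp (h : KH s r D c c' o U f) {A B : ℝ}
    (hB : Anti (Ap D) U → ∀ ξ, Pairs D U ξ → f ξ = A + B * sgnP (Ap D) ξ U) {H : Finset Site}
    {T : Finset Tri} (hF : Frame ρ r D H T U) (h2 : 2 * ρ + 6 ≤ r) (hc : T.card ≤ 4)
    {π π' : Finset Edge} (hπ : InPair H T π) (hπ' : InPair H T π') :
    ((avg (Om D H (T ∪ U)) fun ζ => f (π ∪ ζ) - f (π' ∪ ζ) : ℝ) : ℂ) =
      B * ((sgnP (Bp H) π T : ℂ) - (sgnP (Bp H) π' T : ℂ)) * amp D H T U (-1) := by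
  rw [KCls_cast, amp, ← avg_mul_left]
  refine avg_congr fun ζ hζ => ?_
  have p1 := pairs_union hF hπ hζ
  have p2 := pairs_union hF hπ' hζ
  split_ifs with ht
  · have h4 : T.card = 4 := le_antisymm hc (h.card ▸ hF.card_le hζ ht)
    have ha := anti_of_thru hF h2 hζ ht
    rw [hB ha _ p1, hB ha _ p2, (sgn_thru hF h2 h4 h.card hπ hζ ht).2,
      (sgn_thru hF h2 h4 h.card hπ' hζ ht).2]
    push_cast
    ring
  · simp only [Thru, not_forall, not_exists, not_and] at ht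
    obtain ⟨u, hu, hn⟩ := ht
    have ho := (mem_Om.1 hζ).2
    obtain ⟨u', o', hne, hcon, -⟩ :=
      exists_mate (hF.simple hζ) ((ho u).2 (Finset.mem_union_right _ hu))
    have hu' : u' ∈ U :=
      (Finset.mem_union.1 ((ho u').1 o')).resolve_left fun h' => hn u' h' hcon
    rw [h.fP _ _ p1 p2 (sameP_of_pair (p1.simple h.out) (p2.simple h.out) p1.2 p2.2 h.card hu hu'
      hne.symm (hcon.mono Finset.subset_union_right) (hcon.mono Finset.subset_union_right))]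
    simp

/-- On the class write the configuration as `π ∪ ζ`, `ζ` uniform in `Om` (`InH.mem_Om`,
`avg_coset`). If `ζ` is not through, two elements of `U` are joined in `ζ` (`sameP_of_pair`).
Otherwise `anti_of_thru`, `sgn_thru`. -/
theorem KH.cls (h : KH s r D c c' o U f) {A B : ℝ}
    (hB : Anti (Ap D) U → ∀ ξ, Pairs D U ξ → f ξ = A + B * sgnP (Ap D) ξ U)
    (hS : S ∈ Gr D (bal 0 s)) (h1 : s + 1 ≤ ρ) (h2 : 2 * ρ + 6 ≤ r)
    (hc : (kT s ρ D c ((c ∪ o) ∆ S)).card ≤ 4) :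
    ((avg (Gr D (bal 0 s ∪ kX s ρ D c ((c ∪ o) ∆ S))) fun S' => dK D c c' o f (S ∆ S') : ℝ) : ℂ) =
      B * ((sgnP (Bp (bal 0 s ∪ kX s ρ D c ((c ∪ o) ∆ S))) (kI s c ∪ kE s ρ D c ((c ∪ o) ∆ S))
          (kT s ρ D c ((c ∪ o) ∆ S)) : ℂ) -
        (sgnP (Bp (bal 0 s ∪ kX s ρ D c ((c ∪ o) ∆ S))) (kI s c' ∪ kE s ρ D c ((c ∪ o) ∆ S))
          (kT s ρ D c ((c ∪ o) ∆ S)) : ℂ)) *
        amp D (bal 0 s ∪ kX s ρ D c ((c ∪ o) ∆ S)) (kT s ρ D c ((c ∪ o) ∆ S)) U (-1) := by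
  have h0 := h.dom.nonneg
  have h3 : ρ + 6 ≤ r := by linarith
  have hF := h.frame hS h1 h3
  have hP := h.inPair hS h1 h3
  have hζ := (h.inH hS h1 h3).mem_Om (KCls_anch h _ _)
  have e1 : ∀ S' ∈ Gr D (bal 0 s ∪ kX s ρ D c ((c ∪ o) ∆ S)), dK D c c' o f (S ∆ S') =
      f (kI s c ∪ kE s ρ D c ((c ∪ o) ∆ S) ∪
        (kZ s D ((c ∪ o) ∆ S) \ kE s ρ D c ((c ∪ o) ∆ S)) ∆ bd S') -
      f (kI s c' ∪ kE s ρ D c ((c ∪ o) ∆ S) ∪
        (kZ s D ((c ∪ o) ∆ S) \ kE s ρ D c ((c ∪ o) ∆ S)) ∆ bd S') := fun S' hS' => by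
    have a1 : S' ∈ Gr D (bal 0 s) := Gr_mono (Finset.Subset.refl _) Finset.subset_union_left hS'
    have a2 := KCls_expl h hS' le_rfl
    have a3 : kZ s D ((c ∪ o) ∆ (S ∆ S')) = kE s ρ D c ((c ∪ o) ∆ S) ∪
        (kZ s D ((c ∪ o) ∆ S) \ kE s ρ D c ((c ∪ o) ∆ S)) ∆ bd S' := by
      rw [h.kZ_act a1, kE, ← a2.2.2.2, Finset.union_sdiff_of_subset]
      rw [← a2.2.1]
      exact exE_subset
    rw [dK, h.res_eq (Gr_symmDiff hS a1), h.symm.res_eq (Gr_symmDiff hS a1), h.kZ_eq, a3,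
      Finset.union_assoc, Finset.union_assoc]
  rw [avg_congr e1]
  refine (congrArg _ (avg_coset hF.connH hF.connO hζ fun ζ =>
    f (kI s c ∪ kE s ρ D c ((c ∪ o) ∆ S) ∪ ζ) -
      f (kI s c' ∪ kE s ρ D c ((c ∪ o) ∆ S) ∪ ζ))).trans ?_
  exact KCls_amp h hB hF h2 hc hP.1 hP.2

theorem kI_rot (s : ℝ) (c : Finset Site) : kI s (rotA.mS c) = rotA.mE (kI s c) := by
  rw [kI, kI, Aut.mE_ins, Aut.mE_bd, rot_image_bal]

/-- `expl_congr`: the two configurations are rotations of each other inside `bal 0 r` -/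
theorem KH.rot_cls (h : KH s r D c c' o U f) (h1 : s + 1 ≤ ρ) (h2 : ρ ≤ r) (S : Finset Site) :
    kX s ρ D (rotA.mS c) ((rotA.mS c ∪ o) ∆ rotIn r S) = rotA.mS (kX s ρ D c ((c ∪ o) ∆ S)) ∧
      kE s ρ D (rotA.mS c) ((rotA.mS c ∪ o) ∆ rotIn r S) = rotA.mE (kE s ρ D c ((c ∪ o) ∆ S)) ∧
      kT s ρ D (rotA.mS c) ((rotA.mS c ∪ o) ∆ rotIn r S) = rotA.mT (kT s ρ D c ((c ∪ o) ∆ S)) := by
  have hV : kV s (rotA.mS c) = rotA.mT (kV s c) := by
    ext t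
    obtain ⟨t, rfl⟩ := rotA.fT.surjective t
    rw [Aut.mem_mT, kV, kV, mem_oddS, mem_oddS, kI_rot, Aut.isOdd_iff]
  have hb : ∀ (a : ℝ) (x : Site), rotA.fS x ∈ bal 0 a ↔ x ∈ bal 0 a := fun a x => by
    conv_lhs => rw [← rot_bal]
    exact Aut.mem_mS _
  have hx : ∀ x ∈ bal 0 r, rotA.fS x ∈ (rotA.mS c ∪ o) ∆ rotIn r S ↔ x ∈ (c ∪ o) ∆ S := by
    intro x hx
    have a0 := (hb r x).2 hx
    have a1 : x ∉ o := fun h' => Finset.disjoint_left.1 h.od h' (h.dom.hR hx)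
    have a2 : rotA.fS x ∉ o := fun h' => Finset.disjoint_left.1 h.od h' (h.dom.hR a0)
    have a3 : rotA.fS x ∈ rotIn r S ↔ x ∈ S := by
      have a4 : rotA.fS x ∈ rotIn r S ∩ bal 0 r ↔ x ∈ S ∩ bal 0 r := by
        rw [rotIn_inter, Aut.mem_mS]
      simpa only [Finset.mem_inter, a0, hx, and_true] using a4
    simp only [Finset.mem_symmDiff, Finset.mem_union, Aut.mem_mS, a1, a2, a3]
  have key := expl_congr_off (ξ := rotA.mE (kZ s D ((c ∪ o) ∆ S)))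
    (ξ' := kZ s D ((rotA.mS c ∪ o) ∆ rotIn r S)) (St := rotA.mT (kV s c))
    (T := (bal 0 ρ : Set Site)ᶜ) fun e he => by
      obtain ⟨e, rfl⟩ := rotA.fE.surjective e
      rw [not_touch_iff, compl_compl] at he
      obtain ⟨b1, b2⟩ := he
      rw [Aut.lft_fE] at b1
      rw [Aut.rgt_fE] at b2
      have b3 : lft e ∈ bal 0 r := bal_mono 0 h2 ((hb ρ _).1 b1)
      have b4 : rgt e ∈ bal 0 r := bal_mono 0 h2 ((hb ρ _).1 b2)
      have b5 : Touch e D := Or.inl (h.dom.hR b3)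
      have b6 : Touch (rotA.fE e) D := Or.inl (by
        rw [Aut.lft_fE]
        exact h.dom.hR ((hb r _).2 b3))
      have b7 : Inside (rotA.fE e) (bal 0 s) ↔ Inside e (bal 0 s) := by
        conv_lhs => rw [← rot_image_bal]
        exact Aut.inside_iff _
      rw [Aut.mem_mE]
      simp only [kZ, Finset.mem_inter, mem_allowed, mem_bd, Aut.lft_fE, Aut.rgt_fE, hx _ b3,
        hx _ b4, b5, b6, b7]
  rw [kX, kE, kT, hV, key.1, key.2.1, key.2.2, kX, kE, kT, ← Aut.exX_eq, ← Aut.exE_eq,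
    ← Aut.tips_eq, rot_image_compl_bal]
  exact ⟨rfl, rfl, rfl⟩

end

end Pool.Agent.TAF.U
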