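import Pool.Agent.P.MP_cb4022_pr.U.Basic

/-! The length-area inequality (paper E2). -/

open scoped Classical
open Metric MeasureTheory

noncomputable section

namespace Pool.Agent.TAF.U

/-- the image under `f` of the part of the circle in `U` has length at most `l`, in the form of a
bound for its projections -/
def ShortArc (f : ℂ → ℂ) (U : Set ℂ) (c : ℂ) (r l : ℝ) : Prop :=
  ∀ (h : ℂ → ℝ) (A : Set ℂ) (L : ℝ), 0 ≤ L → MeasurableSet A → A ⊆ sphere c r ∩ U →
    (∀ z ∈ A, DifferentiableAt ℝ h (f z) ∧ ‖fderiv ℝ h (f z)‖ ≤ L) →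
    volume (h '' (f '' A)) ≤ ENNReal.ofReal (L * l)

/-- `addHaar_image_le_lintegral_abs_det_fderiv` for `h ∘ f ∘ circleMap c r` -/
theorem shortArc_of_lintegral {f : ℂ → ℂ} {U : Set ℂ} (hU : IsOpen U)
    (hf : DifferentiableOn ℂ f U) {c : ℂ} {r l : ℝ} (hr : 0 < r) (hl : 0 ≤ l)
    (h : ∫⁻ t in {t ∈ Set.Ioc (-Real.pi) Real.pi | circleMap c r t ∈ U},
      ENNReal.ofReal (‖deriv f (circleMap c r t)‖ * r) ≤ ENNReal.ofReal l) :
    ShortArc f U c r l := by
  intro g A L hL hA hAs hd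
  set S : Set ℝ := {t ∈ Set.Ioc (-Real.pi) Real.pi | circleMap c r t ∈ A} with hS
  have hSm : MeasurableSet S := measurableSet_Ioc.inter (measurable_circleMap c r hA)
  have hsub : g '' (f '' A) ⊆ (fun t => g (f (circleMap c r t))) '' S := by
    rintro _ ⟨_, ⟨z, hz, rfl⟩, rfl⟩
    have h1 : z ∈ Set.range (circleMap c r) := by
      rw [range_circleMap, abs_of_pos hr]
      exact (hAs hz).1
    rw [← (periodic_circleMap c r).image_Ioc Real.two_pi_pos (-Real.pi)] at h1
    obtain ⟨t, ht, rfl⟩ := h1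
    refine ⟨t, ⟨⟨ht.1, ?_⟩, hz⟩, rfl⟩
    linarith [ht.2]
  set g' : ℝ → ℝ := fun t => fderiv ℝ g (f (circleMap c r t))
    (deriv f (circleMap c r t) * (circleMap 0 r t * Complex.I)) with hg'
  have hder : ∀ t ∈ S, HasDerivWithinAt (fun t => g (f (circleMap c r t))) (g' t) S t := by
    intro t ht
    have h1 : HasDerivAt f (deriv f (circleMap c r t)) (circleMap c r t) :=
      (hf.differentiableAt (hU.mem_nhds (hAs ht.2).2)).hasDerivAt
    have h2 : HasDerivAt (fun t => f (circleMap c r t))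
        (deriv f (circleMap c r t) * (circleMap 0 r t * Complex.I)) t := by
      have := h1.complexToReal_fderiv.comp_hasDerivAt t (hasDerivAt_circleMap c r t)
      simpa [Function.comp_def] using this
    exact ((hd _ ht.2).1.hasFDerivAt.comp_hasDerivAt t h2).hasDerivWithinAt
  have h1 : volume ((fun t => g (f (circleMap c r t))) '' S) ≤
      ∫⁻ t in S, ENNReal.ofReal |g' t| := by
    simpa only [ContinuousLinearMap.det_toSpanSingleton] using
      addHaar_image_le_lintegral_abs_det_fderiv volume hSm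
        (fun x hx => (hder x hx).hasFDerivWithinAt)
  have h2 : ∫⁻ t in S, ENNReal.ofReal |g' t| ≤
      ∫⁻ t in S, ENNReal.ofReal L * ENNReal.ofReal (‖deriv f (circleMap c r t)‖ * r) := by
    refine setLIntegral_mono' hSm fun t ht => ?_
    rw [← ENNReal.ofReal_mul hL]
    refine ENNReal.ofReal_le_ofReal ?_
    have h3 := (fderiv ℝ g (f (circleMap c r t))).le_opNorm
      (deriv f (circleMap c r t) * (circleMap 0 r t * Complex.I))
    rw [norm_mul, norm_mul, norm_circleMap_zero, Complex.norm_I, mul_one, abs_of_pos hr] at h3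
    exact h3.trans (mul_le_mul_of_nonneg_right (hd _ ht.2).2 (by positivity))
  refine (measure_mono hsub).trans (h1.trans (h2.trans ?_))
  rw [lintegral_const_mul' _ _ ENNReal.ofReal_ne_top, ENNReal.ofReal_mul hL]
  refine mul_le_mul_right (le_trans (lintegral_mono_set fun t ht => ?_) h) _
  exact ⟨ht.1, (hAs ht.2).2⟩

/-- the area density of `f` on `U` -/
def LenA_G (f : ℂ → ℂ) (U : Set ℂ) : ℂ → ENNReal :=
  U.indicator fun z => ENNReal.ofReal (‖deriv f z‖ ^ 2)

theorem LenA_G_meas (f : ℂ → ℂ) {U : Set ℂ} (hU : IsOpen U) : Measurable (LenA_G f U) :=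
  (((measurable_deriv f).norm.pow_const 2).ennreal_ofReal).indicator hU.measurableSet

theorem LenA_det (a : ℂ) : (a • (1 : ℂ →L[ℝ] ℂ)).det = ‖a‖ ^ 2 := by
  rw [← Complex.normSq_eq_norm_sq, ← Algebra.norm_complex_apply, Algebra.norm_apply,
    ContinuousLinearMap.det]
  congr 1

theorem LenA_area {f : ℂ → ℂ} {U : Set ℂ} (hU : IsOpen U) (hf : DifferentiableOn ℂ f U)
    (hi : Set.InjOn f U) {M : ℝ} (hM0 : 0 < M) (hM : Set.MapsTo f U (ball 0 M)) :
    ∫⁻ z, LenA_G f U z ≤ ENNReal.ofReal (Real.pi * M ^ 2) := by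
  unfold LenA_G
  rw [lintegral_indicator hU.measurableSet]
  have h1 := lintegral_abs_det_fderiv_eq_addHaar_image volume hU.measurableSet
    (f' := fun z => deriv f z • (1 : ℂ →L[ℝ] ℂ))
    (fun z hz => (hf.differentiableAt
      (hU.mem_nhds hz)).hasDerivAt.complexToReal_fderiv.hasFDerivWithinAt) hi
  simp only [LenA_det, abs_pow, abs_norm] at h1
  rw [h1]
  refine (measure_mono hM.image_subset).trans (le_of_eq ?_)
  rw [Complex.volume_ball, mul_comm, ENNReal.ofReal_mul Real.pi_pos.le,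
    ENNReal.ofReal_pow hM0.le, ← NNReal.coe_real_pi, ENNReal.ofReal_coe_nnreal]

theorem LenA_polar {G : ℂ → ENNReal} (hG : Measurable G) (c : ℂ) {r₁ r₂ : ℝ} (h1 : 0 < r₁) :
    ∫⁻ r in Set.Ioo r₁ r₂, ∫⁻ t in Set.Ioo (-Real.pi) Real.pi,
      ENNReal.ofReal r * G (circleMap c r t) ≤ ∫⁻ z, G z := by
  have hm : Measurable fun p : ℝ × ℝ => ENNReal.ofReal p.1 * G (circleMap c p.1 p.2) := by
    refine measurable_fst.ennreal_ofReal.mul (hG.comp ?_)
    unfold circleMap
    fun_prop
  rw [← setLIntegral_prod (fun p : ℝ × ℝ => ENNReal.ofReal p.1 * G (circleMap c p.1 p.2))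
    hm.aemeasurable, ← lintegral_add_left_eq_self G c,
    ← Complex.lintegral_comp_polarCoord_symm fun z => G (c + z)]
  have e : ∀ p : ℝ × ℝ, ENNReal.ofReal p.1 • G (c + Complex.polarCoord.symm p) =
      ENNReal.ofReal p.1 * G (circleMap c p.1 p.2) := by
    intro p
    rw [smul_eq_mul, Complex.polarCoord_symm_apply, circleMap, Complex.exp_mul_I,
      Complex.ofReal_cos, Complex.ofReal_sin]
  simp only [e]
  refine lintegral_mono_set ?_
  rintro ⟨r, t⟩ ⟨hr, ht⟩
  exact ⟨h1.trans hr.1, ht⟩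

theorem LenA_circle {f : ℂ → ℂ} {U : Set ℂ} (hU : IsOpen U) (c : ℂ) {r l : ℝ} (hr : 0 < r)
    (hl : 0 < l) (h : ∫⁻ t in Set.Ioo (-Real.pi) Real.pi,
      ENNReal.ofReal r * LenA_G f U (circleMap c r t) ≤
        ENNReal.ofReal (l ^ 2 / (2 * Real.pi) * r⁻¹)) :
    ∫⁻ t in {t ∈ Set.Ioc (-Real.pi) Real.pi | circleMap c r t ∈ U},
      ENNReal.ofReal (‖deriv f (circleMap c r t)‖ * r) ≤ ENNReal.ofReal l := by
  have hπ := Real.pi_pos
  have hSm : MeasurableSet {t ∈ Set.Ioc (-Real.pi) Real.pi | circleMap c r t ∈ U} :=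
    measurableSet_Ioc.inter (measurable_circleMap c r hU.measurableSet)
  calc ∫⁻ t in {t ∈ Set.Ioc (-Real.pi) Real.pi | circleMap c r t ∈ U},
        ENNReal.ofReal (‖deriv f (circleMap c r t)‖ * r)
      ≤ ∫⁻ t in {t ∈ Set.Ioc (-Real.pi) Real.pi | circleMap c r t ∈ U},
        (ENNReal.ofReal (Real.pi * r / l) * (ENNReal.ofReal r * LenA_G f U (circleMap c r t)) +
          ENNReal.ofReal (l / (4 * Real.pi))) := by
        refine setLIntegral_mono' hSm fun t ht => ?_
        unfold LenA_G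
        rw [Set.indicator_of_mem ht.2, ← ENNReal.ofReal_mul hr.le,
          ← ENNReal.ofReal_mul (by positivity), ← ENNReal.ofReal_add (by positivity)
            (by positivity)]
        refine ENNReal.ofReal_le_ofReal ?_
        set a := ‖deriv f (circleMap c r t)‖
        have e : Real.pi * r / l * (r * a ^ 2) + l / (4 * Real.pi) - a * r =
            (2 * Real.pi * r * a - l) ^ 2 / (4 * Real.pi * l) := by
          field_simp
          ring
        have : 0 ≤ (2 * Real.pi * r * a - l) ^ 2 / (4 * Real.pi * l) := by positivity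
        linarith
    _ ≤ ∫⁻ t in Set.Ioc (-Real.pi) Real.pi,
        (ENNReal.ofReal (Real.pi * r / l) * (ENNReal.ofReal r * LenA_G f U (circleMap c r t)) +
          ENNReal.ofReal (l / (4 * Real.pi))) := lintegral_mono_set fun t ht => ht.1
    _ = ENNReal.ofReal (Real.pi * r / l) * (∫⁻ t in Set.Ioo (-Real.pi) Real.pi,
          ENNReal.ofReal r * LenA_G f U (circleMap c r t)) +
          ENNReal.ofReal (l / (4 * Real.pi)) * ENNReal.ofReal (Real.pi - -Real.pi) := by
        rw [← setLIntegral_congr Ioo_ae_eq_Ioc, lintegral_add_right _ measurable_const,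
          lintegral_const_mul' _ _ ENNReal.ofReal_ne_top, setLIntegral_const, Real.volume_Ioo]
    _ ≤ ENNReal.ofReal (Real.pi * r / l) * ENNReal.ofReal (l ^ 2 / (2 * Real.pi) * r⁻¹) +
          ENNReal.ofReal (l / (4 * Real.pi)) * ENNReal.ofReal (Real.pi - -Real.pi) := by
        gcongr
    _ = ENNReal.ofReal l := by
        rw [← ENNReal.ofReal_mul (by positivity), ← ENNReal.ofReal_mul (by positivity),
          ← ENNReal.ofReal_add (by positivity) (by
            have : 0 ≤ Real.pi - -Real.pi := by linarith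
            positivity)]
        congr 1
        field_simp
        ring

theorem LenA_log {K r₁ r₂ : ℝ} (hK : 0 ≤ K) (h1 : 0 < r₁) (h2 : r₁ < r₂) :
    ∫⁻ r in Set.Ioo r₁ r₂, ENNReal.ofReal (K * r⁻¹) =
      ENNReal.ofReal (K * Real.log (r₂ / r₁)) := by
  have hc : ContinuousOn (fun r : ℝ => K * r⁻¹) (Set.Icc r₁ r₂) :=
    continuousOn_const.mul (continuousOn_id.inv₀ fun x hx => (h1.trans_le hx.1).ne')
  rw [← ofReal_integral_eq_lintegral_ofReal, ← integral_Ioc_eq_integral_Ioo,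
    ← intervalIntegral.integral_of_le h2.le, intervalIntegral.integral_const_mul,
    integral_inv_of_pos h1 (h1.trans h2)]
  · exact (hc.integrableOn_Icc).mono_set Set.Ioo_subset_Icc_self
  · refine (ae_restrict_iff' measurableSet_Ioo).2 (Filter.Eventually.of_forall fun x hx => ?_)
    have := h1.trans hx.1
    positivity

/-- E2. Area formula (`lintegral_abs_det_fderiv_eq_addHaar_image`, the real determinant of a
complex derivative is the squared norm), polar coordinates (`Complex.lintegral_comp_polarCoord_symm`),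
Cauchy-Schwarz on each circle. There is slack: `7 ^ 2 > 2 * pi ^ 2`. -/
theorem length_area {f : ℂ → ℂ} {U : Set ℂ} (hU : IsOpen U) (hf : DifferentiableOn ℂ f U)
    (hi : Set.InjOn f U) {M : ℝ} (hM0 : 0 < M) (hM : Set.MapsTo f U (ball 0 M)) (c : ℂ)
    {r₁ r₂ : ℝ} (h1 : 0 < r₁) (h2 : r₁ < r₂) :
    ∃ r ∈ Set.Ioo r₁ r₂, ShortArc f U c r (7 * M / √(Real.log (r₂ / r₁))) := by
  by_contra hn
  have hΛ : 0 < Real.log (r₂ / r₁) := Real.log_pos ((one_lt_div h1).2 h2)
  have hs : 0 < √(Real.log (r₂ / r₁)) := Real.sqrt_pos.2 hΛ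
  have hπ := Real.pi_pos
  set l := 7 * M / √(Real.log (r₂ / r₁)) with hl
  have hl0 : 0 < l := by positivity
  have key : ∀ r ∈ Set.Ioo r₁ r₂, ENNReal.ofReal (l ^ 2 / (2 * Real.pi) * r⁻¹) ≤
      ∫⁻ t in Set.Ioo (-Real.pi) Real.pi, ENNReal.ofReal r * LenA_G f U (circleMap c r t) := by
    intro r hr
    by_contra hlt
    have hr0 := h1.trans hr.1
    exact hn ⟨r, hr, shortArc_of_lintegral hU hf hr0 hl0.le
      (LenA_circle hU c hr0 hl0 (not_le.1 hlt).le)⟩
  have h3 := (setLIntegral_mono' measurableSet_Ioo key).trans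
    ((LenA_polar (LenA_G_meas f hU) c h1).trans (LenA_area hU hf hi hM0 hM))
  rw [LenA_log (by positivity) h1 h2, ENNReal.ofReal_le_ofReal_iff (by positivity)] at h3
  have e : l ^ 2 / (2 * Real.pi) * Real.log (r₂ / r₁) = 49 * M ^ 2 / (2 * Real.pi) := by
    rw [hl, div_pow, Real.sq_sqrt hΛ.le]
    field_simp
    norm_num
  rw [e, div_le_iff₀ (by positivity)] at h3
  have h4 : Real.pi ≤ 4 := Real.pi_le_four
  have h5 : 0 < M ^ 2 := by positivity
  have h6 : Real.pi * Real.pi ≤ 16 := by nlinarith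
  nlinarith

theorem ShortArc.interval {f : ℂ → ℂ} {U : Set ℂ} {c : ℂ} {r l : ℝ} (hs : ShortArc f U c r l)
    (hl : 0 ≤ l) {h : ℂ → ℝ} {A : Set ℂ} {L : ℝ} (hL : 0 ≤ L) (hA : MeasurableSet A)
    (hAs : A ⊆ sphere c r ∩ U)
    (hd : ∀ z ∈ A, DifferentiableAt ℝ h (f z) ∧ ‖fderiv ℝ h (f z)‖ ≤ L) {a b : ℝ}
    (hab : Set.Ioo a b ⊆ h '' (f '' A)) : b - a ≤ L * l := by
  have h1 := (measure_mono hab).trans (hs h A L hL hA hAs hd)
  rwa [Real.volume_Ioo, ENNReal.ofReal_le_ofReal_iff (mul_nonneg hL hl)] at h1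

/-- project on the direction of `f a - f b` -/
theorem ShortArc.diam {f : ℂ → ℂ} {U : Set ℂ} {c : ℂ} {r l : ℝ} (hs : ShortArc f U c r l)
    (hl : 0 ≤ l) {A : Set ℂ} (hA : MeasurableSet A) (hAs : A ⊆ sphere c r ∩ U)
    (hc : IsPreconnected A) (hf : ContinuousOn f A) {a b : ℂ} (ha : a ∈ A) (hb : b ∈ A) :
    ‖f a - f b‖ ≤ l := by
  set u := f a - f b with hu
  have hcont : ContinuousOn (fun z => innerSL ℝ u (f z)) A :=
    (innerSL ℝ u).continuous.comp_continuousOn hf
  have hpre := hc.image _ hcont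
  have hsub : Set.Ioo (innerSL ℝ u (f b)) (innerSL ℝ u (f a)) ⊆ innerSL ℝ u '' (f '' A) := by
    rw [Set.image_image]
    exact Set.Ioo_subset_Icc_self.trans (hpre.Icc_subset ⟨b, hb, rfl⟩ ⟨a, ha, rfl⟩)
  have h1 := hs.interval hl (h := innerSL ℝ u) (L := ‖u‖) (norm_nonneg u) hA hAs
    (fun z _ => ⟨(innerSL ℝ u).differentiableAt, by
      rw [ContinuousLinearMap.fderiv, innerSL_apply_norm]⟩) hsub
  rw [← map_sub, ← hu, innerSL_apply_apply, real_inner_self_eq_norm_mul_norm] at h1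
  rcases (norm_nonneg u).eq_or_lt with h0 | h0
  · rw [← h0]
    exact hl
  · exact le_of_mul_le_mul_left h1 h0

theorem LenA_norm_lt {u : ℂ} (hu : ‖u‖ = 1) {r : ℝ} (h0 : 0 < r) :
    ‖1 - (r : ℂ) * u‖ < 1 ↔ r / 2 < u.re := by
  have h1 : u.re ^ 2 + u.im ^ 2 = 1 := by
    have := Complex.sq_norm u
    rw [hu, Complex.normSq_apply] at this
    nlinarith
  have h2 : ‖1 - (r : ℂ) * u‖ ^ 2 = 1 - 2 * r * u.re + r ^ 2 := by
    rw [Complex.sq_norm, Complex.normSq_apply]
    simp only [Complex.sub_re, Complex.one_re, Complex.mul_re, Complex.ofReal_re,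
      Complex.ofReal_im, Complex.sub_im, Complex.one_im, Complex.mul_im]
    linear_combination r ^ 2 * h1
  rw [← sq_lt_one_iff₀ (norm_nonneg _), h2]
  constructor
  · intro h
    nlinarith
  · intro h
    nlinarith

theorem arc_connected {w : ℂ} (hw : ‖w‖ = 1) {r : ℝ} (h0 : 0 < r) (h1 : r ≤ 1) :
    IsConnected (sphere w r ∩ ball 0 1) := by
  set K : Set ℂ := {z | r / 2 * ‖z‖ < z.re} with hK
  have hconv : Convex ℝ K := by
    have h2 : ConvexOn ℝ Set.univ fun z : ℂ => r / 2 * ‖z‖ - z.re :=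
      ((convexOn_norm convex_univ).smul (by positivity : (0 : ℝ) ≤ r / 2)).sub
        (Complex.reLm.concaveOn convex_univ)
    have h3 := h2.convex_lt 0
    have e : K = {x | x ∈ Set.univ ∧ r / 2 * ‖x‖ - x.re < 0} := by
      ext z
      simp [hK]
    rw [e]
    exact h3
  have hne : ∀ z ∈ K, z ≠ 0 := by
    rintro z hz rfl
    simp [hK] at hz
  have hcon : IsConnected K := hconv.isConnected ⟨1, by
    simp only [hK, Set.mem_ofPred_eq, norm_one, Complex.one_re]
    linarith⟩
  have hcont : ContinuousOn (fun z : ℂ => w * (1 - (r : ℂ) * (z / (‖z‖ : ℂ)))) K := by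
    refine continuousOn_const.mul (continuousOn_const.sub (continuousOn_const.mul ?_))
    refine continuousOn_id.div (Complex.continuous_ofReal.comp continuous_norm).continuousOn ?_
    intro z hz
    exact_mod_cast norm_ne_zero_iff.2 (hne z hz)
  convert hcon.image _ hcont using 1
  have hw0 : w ≠ 0 := by
    rintro rfl
    simp at hw
  have hr0 : (r : ℂ) ≠ 0 := by exact_mod_cast h0.ne'
  ext z
  constructor
  · rintro ⟨h2, h3⟩
    rw [mem_sphere_iff_norm] at h2
    rw [mem_ball_zero_iff] at h3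
    have hu : ‖(w - z) / (w * r)‖ = 1 := by
      rw [norm_div, norm_mul, hw, norm_sub_rev, h2, Complex.norm_real, Real.norm_of_nonneg h0.le,
        one_mul, div_self h0.ne']
    have e : z = w * (1 - (r : ℂ) * ((w - z) / (w * r))) := by
      field_simp
      ring
    refine ⟨(w - z) / (w * r), ?_, ?_⟩
    · show r / 2 * ‖(w - z) / (w * r)‖ < _
      rw [hu, mul_one, ← LenA_norm_lt hu h0]
      rwa [e, norm_mul, hw, one_mul] at h3
    · simp only [hu, Complex.ofReal_one, div_one]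
      exact e.symm
  · rintro ⟨y, hy, rfl⟩
    have hy0 : 0 < ‖y‖ := norm_pos_iff.2 (hne y hy)
    have hu : ‖y / (‖y‖ : ℂ)‖ = 1 := by
      rw [norm_div, Complex.norm_real, norm_norm, div_self hy0.ne']
    constructor
    · rw [mem_sphere_iff_norm]
      have e : w * (1 - (r : ℂ) * (y / (‖y‖ : ℂ))) - w = -(w * (r * (y / (‖y‖ : ℂ)))) := by ring
      rw [e, norm_neg, norm_mul, norm_mul, hw, hu, Complex.norm_real, Real.norm_of_nonneg h0.le,
        one_mul, mul_one]
    · rw [mem_ball_zero_iff, norm_mul, hw, one_mul, LenA_norm_lt hu h0, Complex.div_ofReal_re,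
        lt_div_iff₀ hy0]
      exact hy

end Pool.Agent.TAF.U
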