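import Pool.Agent.P.MP_cb4022_pr.U.RH1
import Pool.Agent.P.MP_cb4022_pr.U.Cut

/-! The Riemann-Hilbert estimate on a strip (paper E6). -/

open scoped Classical
open Metric Filter Topology MeasureTheory

noncomputable section

namespace Pool.Agent.TAF.U

def strip (T : ℝ) : Set ℂ := {z | 0 < z.im ∧ z.im < T + 0.2}

/-- Fourier coefficient on the line `im = T` -/
def Iw (p : ℂ → ℂ) (e T : ℝ) : ℂ :=
  (2 * Real.pi : ℂ)⁻¹ * ∫ t in (0 : ℝ)..2 * Real.pi,
    p (t + T * Complex.I) * Complex.exp (-(e * t : ℝ) * Complex.I)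

theorem isOpen_strip (T : ℝ) : IsOpen (strip T) := by
  exact (isOpen_lt continuous_const Complex.continuous_im).inter
    (isOpen_lt Complex.continuous_im continuous_const)

theorem cont_line {p : ℂ → ℂ} {T : ℝ} (hT : 0 < T) (hp : DifferentiableOn ℂ p (strip T)) :
    Continuous fun t : ℝ => p (t + T * Complex.I) := by
  refine hp.continuousOn.comp_continuous (by fun_prop) fun t => ?_
  constructor
  · simpa using hT
  · simp only [Complex.add_im, Complex.ofReal_im, Complex.mul_im, Complex.ofReal_re, Complex.I_im,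
      Complex.I_re]
    linarith

theorem norm_Iw_le {p : ℂ → ℂ} {e T m : ℝ} (h : ∀ t : ℝ, ‖p (t + T * Complex.I)‖ ≤ m) :
    ‖Iw p e T‖ ≤ m := by
  have h1 := intervalIntegral.norm_integral_le_of_norm_le_const (a := 0) (b := 2 * Real.pi)
    (C := m) (f := fun t : ℝ => p (t + T * Complex.I) * Complex.exp (-(e * t : ℝ) * Complex.I))
    fun t _ => by
      rw [norm_mul, ← Complex.ofReal_neg, Complex.norm_exp_ofReal_mul_I, mul_one]
      exact h t
  have h2 : ‖(2 * Real.pi : ℂ)⁻¹‖ = (2 * Real.pi)⁻¹ := by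
    simp [abs_of_pos Real.pi_pos]
  rw [sub_zero, abs_of_pos Real.two_pi_pos] at h1
  rw [Iw, norm_mul, h2, inv_mul_le_iff₀ Real.two_pi_pos, mul_comm _ m]
  exact h1

theorem RH2_ce (e : ℝ) : Continuous fun t : ℝ => Complex.exp (-(e * t : ℝ) * Complex.I) := by
  fun_prop

theorem Iw_sum {ι : Type*} (s : Finset ι) (c : ι → ℂ) {p : ι → ℂ → ℂ} {T : ℝ} (e : ℝ)
    (h : ∀ j, Continuous fun t : ℝ => p j (t + T * Complex.I)) :
    Iw (fun z => ∑ j ∈ s, c j * p j z) e T = ∑ j ∈ s, c j * Iw (p j) e T := by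
  unfold Iw
  simp only [Finset.sum_mul, mul_assoc]
  rw [intervalIntegral.integral_finsetSum fun j _ => Continuous.intervalIntegrable
    (continuous_const.fun_mul ((h j).fun_mul (RH2_ce e))) _ _, Finset.mul_sum]
  refine Finset.sum_congr rfl fun j _ => ?_
  rw [intervalIntegral.integral_const_mul]
  ring

/-- the integrand of `Iw q e T` is periodic: shift the variable by `2 pi / 3` -/
theorem Iw_shift {p q : ℂ → ℂ} {e T δ : ℝ} {b : ℂ}
    (hp : Continuous fun t : ℝ => p (t + T * Complex.I))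
    (hq : Continuous fun t : ℝ => q (t + T * Complex.I))
    (per : ∀ t : ℝ, q (t + T * Complex.I + 2 * Real.pi) =
      Complex.exp ((2 * Real.pi * e : ℝ) * Complex.I) * q (t + T * Complex.I))
    (h : ∀ t : ℝ, ‖q (t + T * Complex.I + 2 * Real.pi / 3) - b * p (t + T * Complex.I)‖ ≤ δ) :
    ‖Iw q e T - b * Complex.exp (-(2 * Real.pi * e / 3 : ℝ) * Complex.I) * Iw p e T‖ ≤ δ := by
  have hQ : Function.Periodic
      (fun t : ℝ => q (t + T * Complex.I) * Complex.exp (-(e * t : ℝ) * Complex.I))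
      (2 * Real.pi) := fun t => by
    have h1 : ((t + 2 * Real.pi : ℝ) : ℂ) + T * Complex.I = t + T * Complex.I + 2 * Real.pi := by
      push_cast
      ring
    beta_reduce
    rw [h1, per, mul_comm (Complex.exp _), mul_assoc, ← Complex.exp_add]
    congr 2
    push_cast
    ring
  have hq' : Continuous fun t : ℝ => q (t + T * Complex.I + 2 * Real.pi / 3) := by
    have h1 := hq.comp (continuous_add_const (2 * Real.pi / 3))
    refine h1.congr fun t => ?_
    simp only [Function.comp_apply]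
    congr 1
    push_cast
    ring
  have h1 : Iw q e T = Complex.exp (-(2 * Real.pi * e / 3 : ℝ) * Complex.I) *
      Iw (fun z => q (z + 2 * Real.pi / 3)) e T := by
    have h2 := hQ.intervalIntegral_add_eq 0 (2 * Real.pi / 3)
    have h4 := intervalIntegral.integral_comp_add_right (a := 0) (b := 2 * Real.pi)
      (fun t : ℝ => q (t + T * Complex.I) * Complex.exp (-(e * t : ℝ) * Complex.I))
      (2 * Real.pi / 3)
    rw [zero_add, add_comm (2 * Real.pi), ← h2, zero_add] at h4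
    rw [Iw, Iw, ← h4, mul_left_comm (Complex.exp _), ← intervalIntegral.integral_const_mul
      (Complex.exp _)]
    congr 1
    refine intervalIntegral.integral_congr fun t _ => ?_
    have h3 : ((t + 2 * Real.pi / 3 : ℝ) : ℂ) + T * Complex.I =
        t + T * Complex.I + 2 * Real.pi / 3 := by
      push_cast
      ring
    rw [h3, mul_left_comm, ← Complex.exp_add]
    congr 2
    push_cast
    ring
  have h2 : Iw (fun z => q (z + 2 * Real.pi / 3) - b * p z) e T =
      Iw (fun z => q (z + 2 * Real.pi / 3)) e T - b * Iw p e T := by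
    unfold Iw
    simp only [sub_mul, mul_assoc]
    rw [intervalIntegral.integral_sub ((hq'.fun_mul (RH2_ce e)).intervalIntegrable _ _)
      ((continuous_const.fun_mul (hp.fun_mul (RH2_ce e))).intervalIntegrable _ _),
      intervalIntegral.integral_const_mul]
    ring
  have h3 := norm_Iw_le (p := fun z => q (z + 2 * Real.pi / 3) - b * p z) (e := e) h
  rw [h2] at h3
  rw [h1, mul_comm b, mul_assoc _ b, ← mul_sub, norm_mul, ← Complex.ofReal_neg,
    Complex.norm_exp_ofReal_mul_I, one_mul]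
  exact h3

/-- Schwarz lemma on `ball z 0.2` -/
theorem strip_lip {p : ℂ → ℂ} {T m : ℝ} (hT : 1 ≤ T) (hp : DifferentiableOn ℂ p (strip T))
    (hm : ∀ z : ℂ, |z.im - T| < 0.2 → ‖p z‖ ≤ m) {z z' : ℂ} (hz : z.im = T) (hz' : ‖z' - z‖ < 0.2) :
    ‖p z' - p z‖ ≤ 10 * m * ‖z' - z‖ := by
  have h1 : ∀ w ∈ ball z 0.2, |w.im - T| < 0.2 := fun w hw => by
    rw [← hz, ← Complex.sub_im]
    exact (Complex.abs_im_le_norm _).trans_lt (mem_ball_iff_norm.1 hw)
  have h2 := Complex.dist_le_div_mul_dist_of_mapsTo_ball (f := p) (c := z) (R₁ := 0.2)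
    (R₂ := 2 * m) (z := z') (hp.mono fun w hw => by
      have h3 := abs_lt.1 (h1 w hw)
      constructor <;> linarith [h3.1, h3.2]) (fun w hw => by
      rw [mem_closedBall, dist_eq_norm]
      have h3 := hm w (h1 w hw)
      have h4 := hm z (by rw [hz]; norm_num)
      linarith [norm_sub_le (p w) (p z)]) (mem_ball_iff_norm.2 hz')
  rw [dist_eq_norm, dist_eq_norm] at h2
  refine h2.trans_eq ?_
  ring

theorem RH2_descend {f : ℂ → ℂ} {T : ℝ} (hf : DifferentiableOn ℂ f (strip T))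
    (per : ∀ z ∈ strip T, f (z + 2 * Real.pi) = f z) :
    ∃ F : ℂ → ℂ, (∀ z ∈ strip T, F (Complex.exp (z * Complex.I)) = f z) ∧
      DifferentiableOn ℂ F {w | Real.exp (-(T + 0.2)) < ‖w‖ ∧ ‖w‖ < 1} := by
  have hP : Function.Periodic ((strip T).indicator f) ((2 * Real.pi : ℝ) : ℂ) := fun z => by
    have h1 : z + ((2 * Real.pi : ℝ) : ℂ) ∈ strip T ↔ z ∈ strip T := by
      simp only [strip, Set.mem_ofPred_eq, Complex.add_im, Complex.ofReal_im, add_zero]
    by_cases hz : z ∈ strip T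
    · rw [Set.indicator_of_mem hz, Set.indicator_of_mem (h1.2 hz), ← per z hz]
      push_cast
      rfl
    · rw [Set.indicator_of_notMem hz, Set.indicator_of_notMem (mt h1.1 hz)]
  have hq : ∀ z : ℂ, Function.Periodic.qParam (2 * Real.pi) z = Complex.exp (z * Complex.I) :=
    fun z => by
      have : (Real.pi : ℂ) ≠ 0 := Complex.ofReal_ne_zero.2 Real.pi_ne_zero
      rw [Function.Periodic.qParam]
      congr 1
      push_cast
      field_simp
  refine ⟨Function.Periodic.cuspFunction (2 * Real.pi) ((strip T).indicator f), fun z hz => ?_,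
    fun w hw => ?_⟩
  · rw [← hq, Function.Periodic.eq_cuspFunction Real.two_pi_pos.ne' hP, Set.indicator_of_mem hz]
  · have h0 : 0 < ‖w‖ := (Real.exp_pos _).trans hw.1
    have h1 : Function.Periodic.invQParam (2 * Real.pi) w ∈ strip T := by
      have h2 : (Function.Periodic.invQParam (2 * Real.pi) w).im = -Real.log ‖w‖ := by
        rw [Function.Periodic.im_invQParam, neg_div, div_self Real.two_pi_pos.ne', neg_one_mul]
      have h3 := Real.log_neg h0 hw.2
      have h4 := (Real.lt_log_iff_exp_lt h0).2 hw.1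
      constructor <;> rw [h2] <;> linarith
    rw [← Function.Periodic.qParam_right_inv Real.two_pi_pos.ne' (norm_pos_iff.1 h0)]
    refine (Function.Periodic.differentiableAt_cuspFunction Real.two_pi_pos.ne' hP
      ?_).differentiableWithinAt
    refine (hf.differentiableAt ((isOpen_strip T).mem_nhds h1)).congr_of_eventuallyEq ?_
    filter_upwards [(isOpen_strip T).mem_nhds h1] with z hz using Set.indicator_of_mem hz f

/-- the inverse of the function `E`, in the variable `w` -/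
def RH2_G {k : ℕ} (θ : Fin k → ℝ) (w : ℂ) : ℂ :=
  ∏ j, Complex.exp (-(1 / 3) * Complex.log (1 - w * Complex.exp (-(θ j) * Complex.I)))

theorem RH2_norm_u (w : ℂ) (θ : ℝ) : ‖w * Complex.exp (-θ * Complex.I)‖ = ‖w‖ := by
  rw [norm_mul, ← Complex.ofReal_neg, Complex.norm_exp_ofReal_mul_I, mul_one]

theorem RH2_slit {u : ℂ} (h : ‖u‖ ≤ 1) (h1 : u ≠ 1) : 1 - u ∈ Complex.slitPlane := by
  by_cases h2 : u.im = 0
  · left
    have h3 : u.re ≤ 1 := (Complex.re_le_norm u).trans h
    have h4 : u.re ≠ 1 := fun h4 => h1 (Complex.ext h4 h2)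
    simp only [Complex.sub_re, Complex.one_re, sub_pos]
    exact lt_of_le_of_ne h3 h4
  · right
    simpa using h2

theorem RH2_G_diff {k : ℕ} (θ : Fin k → ℝ) {w : ℂ} (h : ‖w‖ ≤ 1)
    (h1 : ∀ j, w * Complex.exp (-(θ j) * Complex.I) ≠ 1) : DifferentiableAt ℂ (RH2_G θ) w := by
  unfold RH2_G
  refine DifferentiableAt.fun_finsetProd fun j _ => DifferentiableAt.cexp ?_
  refine DifferentiableAt.const_mul (DifferentiableAt.clog (by fun_prop) ?_) _
  exact RH2_slit ((RH2_norm_u w _).trans_le h) (h1 j)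

theorem RH2_ne {w : ℂ} (h : ‖w‖ < 1) (θ : ℝ) : w * Complex.exp (-θ * Complex.I) ≠ 1 := fun h1 => by
  rw [← RH2_norm_u w θ, h1, norm_one] at h
  exact lt_irrefl _ h

theorem RH2_G_diff' {k : ℕ} (θ : Fin k → ℝ) {w : ℂ} (h : ‖w‖ < 1) :
    DifferentiableAt ℂ (RH2_G θ) w := RH2_G_diff θ h.le fun j => RH2_ne h (θ j)

theorem RH2_G_norm {k : ℕ} (θ : Fin k → ℝ) {w : ℂ} (h : ‖w‖ < 1) :
    ‖RH2_G θ w‖ = ∏ j, ‖1 - w * Complex.exp (-(θ j) * Complex.I)‖ ^ (-(1 / 3 : ℝ)) := by
  rw [RH2_G, norm_prod]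
  refine Finset.prod_congr rfl fun j _ => ?_
  rw [Complex.norm_exp, Real.rpow_def_of_pos (norm_pos_iff.2 (sub_ne_zero.2 (RH2_ne h _).symm)),
    ← Complex.log_re]
  congr 1
  simp [mul_comm]

theorem RH2_G_le {k : ℕ} (θ : Fin k → ℝ) {w : ℂ} (h : ‖w‖ ≤ 1 / 2) : ‖RH2_G θ w‖ ≤ 2 ^ k := by
  rw [RH2_G_norm θ (by linarith)]
  refine (Finset.prod_le_prod (g := fun _ => 2) (fun j _ => by positivity)
    fun j _ => ?_).trans (by simp)
  have h1 := norm_sub_norm_le (1 : ℂ) (w * Complex.exp (-(θ j) * Complex.I))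
  rw [norm_one, RH2_norm_u] at h1
  refine (Real.rpow_le_rpow_of_nonpos (x := 1 / 2) (by norm_num) (by linarith) (by norm_num)).trans ?_
  refine (Real.rpow_le_rpow_of_exponent_ge (y := -(1 / 3)) (z := -1) (by norm_num) (by norm_num)
    (by norm_num)).trans ?_
  rw [Real.rpow_neg_one]
  norm_num

theorem RH2_G_ge {k : ℕ} (θ : Fin k → ℝ) {w : ℂ} (h : ‖w‖ < 1) : 1 ≤ 2 ^ k * ‖RH2_G θ w‖ := by
  have h0 : (1 / 2 : ℝ) ^ k ≤ ‖RH2_G θ w‖ := by
    rw [RH2_G_norm θ h]
    refine le_trans (by simp) (Finset.prod_le_prod (f := fun _ => 1 / 2) (fun j _ => by norm_num)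
      fun j _ => ?_)
    have h1 := norm_sub_le (1 : ℂ) (w * Complex.exp (-(θ j) * Complex.I))
    rw [norm_one, RH2_norm_u] at h1
    refine le_trans ?_ (Real.rpow_le_rpow_of_nonpos (y := 2)
      (norm_pos_iff.2 (sub_ne_zero.2 (RH2_ne h _).symm)) (by linarith) (by norm_num))
    refine le_trans ?_ (Real.rpow_le_rpow_of_exponent_le (y := -1) (by norm_num) (by norm_num))
    rw [Real.rpow_neg_one]
    norm_num
  refine le_trans ?_ (mul_le_mul_of_nonneg_left h0 (by positivity))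
  rw [← mul_pow]
  norm_num

theorem RH2_G_sub {k : ℕ} (θ : Fin k → ℝ) {w : ℂ} (h : ‖w‖ < 1 / 2) :
    ‖RH2_G θ w - 1‖ ≤ 2 * (2 ^ k + 1) * ‖w‖ := by
  have h0 : RH2_G θ 0 = 1 := by simp [RH2_G]
  have h2 := Complex.dist_le_div_mul_dist_of_mapsTo_ball (f := RH2_G θ) (c := 0) (R₁ := 1 / 2)
    (R₂ := 2 ^ k + 1) (z := w) (fun u hu => (RH2_G_diff' θ (by
      have := mem_ball_zero_iff.1 hu
      linarith)).differentiableWithinAt) (fun u hu => by
      rw [mem_closedBall, dist_eq_norm, h0]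
      have h3 := RH2_G_le θ (mem_ball_zero_iff.1 hu).le
      have h4 := norm_sub_le (RH2_G θ u) 1
      rw [norm_one] at h4
      linarith) (mem_ball_zero_iff.2 h)
  rw [dist_eq_norm, h0, dist_zero_right] at h2
  refine h2.trans_eq ?_
  ring

theorem RH2_log {s : ℝ} (h0 : 0 < s) (h1 : s < 2 * Real.pi) :
    Complex.log (1 - Complex.exp (s * Complex.I)) =
      (Real.log (2 * Real.sin (s / 2)) : ℝ) + ((s - Real.pi) / 2 : ℝ) * Complex.I := by
  have h2 : 0 < 2 * Real.sin (s / 2) :=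
    mul_pos two_pos (Real.sin_pos_of_pos_of_lt_pi (by linarith) (by linarith))
  have h3 : 1 - Complex.exp (s * Complex.I) = Complex.exp
      ((Real.log (2 * Real.sin (s / 2)) : ℝ) + ((s - Real.pi) / 2 : ℝ) * Complex.I) := by
    have h4 : ((((s - Real.pi) / 2 : ℝ) : ℂ)) * Complex.I =
        s / 2 * Complex.I + -(Real.pi / 2 * Complex.I) := by
      push_cast
      ring
    have h5 : Complex.exp (s * Complex.I) =
        Complex.exp (s / 2 * Complex.I) * Complex.exp (s / 2 * Complex.I) := by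
      rw [← Complex.exp_add]
      congr 1
      ring
    have h6 : Complex.exp (-(s / 2) * Complex.I) * Complex.exp (s / 2 * Complex.I) = 1 := by
      rw [← Complex.exp_add]
      simp
    rw [Complex.exp_add, ← Complex.ofReal_exp, Real.exp_log h2, h4, Complex.exp_add,
      Complex.exp_neg, Complex.exp_pi_div_two_mul_I, Complex.inv_I, h5]
    push_cast
    rw [Complex.two_sin]
    linear_combination -h6 + (Complex.exp (-(s / 2) * Complex.I) - Complex.exp (s / 2 * Complex.I)) *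
      Complex.exp (s / 2 * Complex.I) * Complex.I_mul_I
  rw [h3, Complex.log_exp]
  · simp only [Complex.add_im, Complex.ofReal_im, Complex.mul_im, Complex.ofReal_re, Complex.I_im,
      Complex.I_re]
    linarith [Real.pi_pos]
  · simp only [Complex.add_im, Complex.ofReal_im, Complex.mul_im, Complex.ofReal_re, Complex.I_im,
      Complex.I_re]
    linarith [Real.pi_pos]

theorem RH2_factor {t θ : ℝ} (h : Complex.exp (t * Complex.I) ≠ Complex.exp (θ * Complex.I)) :
    (om ^ ⌊(t - θ) / (2 * Real.pi)⌋) ^ 2 * Complex.exp (-(1 / 3) *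
      Complex.log (1 - Complex.exp (t * Complex.I) * Complex.exp (-θ * Complex.I))) =
      Complex.exp (((θ + Real.pi - t) / 3 : ℝ) * Complex.I) * (starRingEnd ℂ) (Complex.exp (-(1 / 3) *
        Complex.log (1 - Complex.exp (t * Complex.I) * Complex.exp (-θ * Complex.I)))) := by
  set n := ⌊(t - θ) / (2 * Real.pi)⌋ with hn
  have h1 : Complex.exp (t * Complex.I) * Complex.exp (-θ * Complex.I) =
      Complex.exp ((t - θ - n * (2 * Real.pi) : ℝ) * Complex.I) := by
    rw [← Complex.exp_add, ← mul_one (Complex.exp ((t - θ - n * (2 * Real.pi) : ℝ) * Complex.I)),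
      ← Complex.exp_int_mul_two_pi_mul_I n, ← Complex.exp_add]
    congr 1
    push_cast
    ring
  have h2 : (n : ℝ) * (2 * Real.pi) ≤ t - θ := (le_div_iff₀ Real.two_pi_pos).1 (Int.floor_le _)
  have h3 : t - θ < (n + 1) * (2 * Real.pi) :=
    (div_lt_iff₀ Real.two_pi_pos).1 (Int.lt_floor_add_one _)
  have h4 : t - θ - n * (2 * Real.pi) ≠ 0 := fun h4 => h (by
    rw [h4, Complex.ofReal_zero, zero_mul, Complex.exp_zero, neg_mul, Complex.exp_neg,
      mul_inv_eq_one₀ (Complex.exp_ne_zero _)] at h1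
    exact h1)
  rw [h1, RH2_log (lt_of_le_of_ne (by linarith) h4.symm) (by linarith), om, ← Complex.exp_int_mul,
    ← Complex.exp_nat_mul, ← Complex.exp_conj, ← Complex.exp_add, ← Complex.exp_add]
  congr 1
  simp only [map_mul, map_neg, map_div₀, map_one, map_ofNat, map_add, Complex.conj_ofReal,
    Complex.conj_I]
  push_cast
  ring

theorem RH2_bdry {k : ℕ} (θ : Fin k → ℝ) {t : ℝ}
    (h : ∀ j, Complex.exp (t * Complex.I) ≠ Complex.exp (θ j * Complex.I)) :
    (om ^ ∑ j, ⌊(t - θ j) / (2 * Real.pi)⌋) ^ 2 * RH2_G θ (Complex.exp (t * Complex.I)) =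
      Complex.exp ((∑ j, (θ j + Real.pi) / 3 : ℝ) * Complex.I) *
        Complex.exp ((-(k : ℝ) / 3 * t : ℝ) * Complex.I) *
        (starRingEnd ℂ) (RH2_G θ (Complex.exp (t * Complex.I))) := by
  have h1 : om ^ ∑ j, ⌊(t - θ j) / (2 * Real.pi)⌋ = ∏ j, om ^ ⌊(t - θ j) / (2 * Real.pi)⌋ := by
    simp only [om, ← Complex.exp_int_mul, ← Complex.exp_sum, ← Finset.sum_mul, Int.cast_sum]
  rw [h1, RH2_G, ← Finset.prod_pow, ← Finset.prod_mul_distrib,
    Finset.prod_congr rfl fun j _ => RH2_factor (h j), Finset.prod_mul_distrib, map_prod,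
    ← Complex.exp_sum, ← Complex.exp_add]
  congr 2
  simp only [← Finset.sum_mul, ← add_mul, ← Complex.ofReal_sum, ← Complex.ofReal_add, sub_div,
    Finset.sum_sub_distrib, Finset.sum_const, Finset.card_univ, Fintype.card_fin, nsmul_eq_mul]
  congr 2
  ring

theorem RH2_circ (t y : ℝ) :
    circleMap 0 (Real.exp (-y)) t = Complex.exp ((t + y * Complex.I) * Complex.I) := by
  rw [circleMap_zero, Complex.ofReal_exp, ← Complex.exp_add]
  congr 1
  push_cast
  linear_combination (-y : ℂ) * Complex.I_mul_I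

theorem RH2_norm_exp (e t y : ℝ) :
    ‖Complex.exp (-(e * (t + y * Complex.I)) * Complex.I)‖ = Real.exp (e * y) := by
  rw [Complex.norm_exp]
  simp

theorem RH2_avg {Φ q G : ℂ → ℂ} {e T m c : ℝ}
    (hq : Continuous fun t : ℝ => q (t + T * Complex.I))
    (hG : Continuous fun t : ℝ => G (circleMap 0 (Real.exp (-T)) t))
    (hm : ∀ t : ℝ, ‖q (t + T * Complex.I)‖ ≤ m)
    (hc : ∀ t : ℝ, ‖G (circleMap 0 (Real.exp (-T)) t) - 1‖ ≤ c)
    (h : ∀ t : ℝ, Φ (circleMap 0 (Real.exp (-T)) t) = q (t + T * Complex.I) *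
      Complex.exp (-(e * (t + T * Complex.I)) * Complex.I) * G (circleMap 0 (Real.exp (-T)) t)) :
    ‖Real.circleAverage Φ 0 (Real.exp (-T))‖ ≤ Real.exp (e * T) * (‖Iw q e T‖ + c * m) := by
  have h1 : Real.circleAverage Φ 0 (Real.exp (-T)) = (Real.exp (e * T) : ℂ) * (Iw q e T +
      Iw (fun z => q z * (G (Complex.exp (z * Complex.I)) - 1)) e T) := by
    rw [Real.circleAverage_def, Iw, Iw, ← mul_add, ← intervalIntegral.integral_add
      ((hq.fun_mul (RH2_ce e)).intervalIntegrable _ _) (Continuous.intervalIntegrable (by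
        simp only [← RH2_circ]
        exact (hq.mul (hG.sub continuous_const)).mul (RH2_ce e)) _ _), mul_left_comm,
      ← intervalIntegral.integral_const_mul, Complex.real_smul]
    congr 1
    · push_cast
      rfl
    · refine intervalIntegral.integral_congr fun t _ => ?_
      have h2 : Complex.exp (-(e * (t + T * Complex.I)) * Complex.I) =
          (Real.exp (e * T) : ℂ) * Complex.exp (-(e * t : ℝ) * Complex.I) := by
        rw [Complex.ofReal_exp, ← Complex.exp_add]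
        congr 1
        push_cast
        linear_combination (-e * T : ℂ) * Complex.I_mul_I
      rw [h, h2, ← RH2_circ]
      ring
  have h2 := norm_Iw_le (p := fun z => q z * (G (Complex.exp (z * Complex.I)) - 1)) (e := e)
    (T := T) (m := c * m) fun t => by
      rw [norm_mul, ← RH2_circ, mul_comm]
      exact mul_le_mul (hc t) (hm t) (norm_nonneg _) ((norm_nonneg _).trans (hc t))
  rw [h1, norm_mul, Complex.norm_real, Real.norm_of_nonneg (Real.exp_pos _).le]
  exact mul_le_mul_of_nonneg_left ((norm_add_le _ _).trans (by linarith)) (Real.exp_pos _).le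

theorem RH2_ae {k : ℕ} (θ : Fin k → ℝ) :
    ∀ᵐ t : ℝ, ∀ j, Complex.exp (t * Complex.I) ≠ Complex.exp (θ j * Complex.I) := by
  refine ae_all_iff.2 fun j => ?_
  have h1 := (Set.countable_range fun n : ℤ => θ j + n * (2 * Real.pi)).ae_notMem volume
  filter_upwards [h1] with t ht h2
  obtain ⟨n, hn⟩ := Complex.exp_eq_exp_iff_exists_int.1 h2
  refine ht ⟨n, ?_⟩
  have h3 := congrArg Complex.im hn
  simpa using h3.symm

theorem RH2_tendsto : Tendsto (fun r : ℝ => -Real.log r) (𝓝[<] 1) (𝓝[>] 0) := by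
  refine tendsto_nhdsWithin_iff.2 ⟨?_, ?_⟩
  · have h1 := (Real.continuousAt_log one_ne_zero).neg.tendsto
    rw [Pi.neg_apply, Real.log_one, neg_zero] at h1
    exact h1.mono_left nhdsWithin_le_nhds
  · filter_upwards [Ioo_mem_nhdsLT (zero_lt_one' ℝ)] with r hr
    exact neg_pos.2 (Real.log_neg hr.1 hr.2)

theorem RH2_mem {T y : ℝ} (t : ℝ) (h0 : 0 < y) (h1 : y < T + 0.2) :
    (t + y * Complex.I : ℂ) ∈ strip T := by
  constructor
  · simpa using h0
  · simpa using h1

theorem RH2_polar (t : ℝ) {r : ℝ} (hr : r ∈ Set.Ico (1 / 2 : ℝ) 1) :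
    0 < -Real.log r ∧ -Real.log r ≤ 1 ∧
      circleMap 0 r t = Complex.exp ((t + (-Real.log r : ℝ) * Complex.I) * Complex.I) := by
  have h0 : 0 < r := by linarith [hr.1]
  refine ⟨neg_pos.2 (Real.log_neg h0 hr.2), ?_, by rw [← RH2_circ, neg_neg, Real.exp_log h0]⟩
  have h1 := Real.one_sub_inv_le_log_of_pos h0
  have h2 : r⁻¹ ≤ 2 := by
    rw [inv_le_comm₀ h0 two_pos]
    linarith [hr.1]
  linarith

theorem RH2_S {k : ℕ} (θ : Fin k → ℝ) {T e m B : ℝ} {p : ℂ → ℂ} (hT : 2 ≤ T)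
    (hp : DifferentiableOn ℂ p (strip T)) (hB : ∀ z ∈ strip T, ‖p z‖ ≤ B)
    (per : ∀ z ∈ strip T, p (z + 2 * Real.pi) =
      Complex.exp ((2 * Real.pi * e : ℝ) * Complex.I) * p z)
    (hm : ∀ t : ℝ, ‖p (t + T * Complex.I)‖ ≤ m) :
    ∃ S : ℂ → ℂ, (∀ z ∈ strip T, S (Complex.exp (z * Complex.I)) =
        p z * Complex.exp (-(e * z) * Complex.I) * RH2_G θ (Complex.exp (z * Complex.I))) ∧
      DifferentiableOn ℂ S {w | Real.exp (-(T + 0.2)) < ‖w‖ ∧ ‖w‖ < 1} ∧
      (∀ r ∈ Set.Ico (1 / 2 : ℝ) 1, ∀ t : ℝ, ‖S (circleMap 0 r t)‖ ≤ B * Real.exp |e| *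
        ∏ j, ‖1 - r * Complex.exp ((t - θ j) * Complex.I)‖ ^ (-(1 / 3 : ℝ))) ∧
      ∀ w ∈ sphere (0 : ℂ) (Real.exp (-T)), ‖S w‖ ≤ Real.exp (e * T) * m * 2 ^ k := by
  obtain ⟨F, hF, hFd⟩ := RH2_descend (f := fun z => p z * Complex.exp (-(e * z) * Complex.I))
    (hp.mul (by fun_prop)) fun z hz => by
      rw [per z hz, mul_comm (Complex.exp _), mul_assoc, ← Complex.exp_add]
      congr 2
      push_cast
      ring
  refine ⟨fun w => F w * RH2_G θ w, fun z hz => by rw [← hF z hz],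
    hFd.mul fun w hw => (RH2_G_diff' θ hw.2).differentiableWithinAt, fun r hr t => ?_,
    fun w hw => ?_⟩
  · obtain ⟨h2, h3, h4⟩ := RH2_polar t hr
    have h5 := RH2_mem (T := T) t h2 (by linarith)
    have h6 : ‖circleMap 0 r t‖ < 1 := by
      rw [norm_circleMap_zero, abs_of_pos (by linarith [hr.1])]
      exact hr.2
    have h7 : ‖F (circleMap 0 r t)‖ ≤ B * Real.exp |e| := by
      rw [h4, hF _ h5, norm_mul, RH2_norm_exp]
      refine mul_le_mul (hB _ h5) (Real.exp_le_exp.2 ?_) (Real.exp_pos _).le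
        ((norm_nonneg _).trans (hB _ h5))
      nlinarith [le_abs_self e, abs_nonneg e]
    rw [norm_mul, RH2_G_norm θ h6]
    refine (mul_le_mul_of_nonneg_right h7 (Finset.prod_nonneg fun j _ => by positivity)).trans_eq ?_
    congr 1
    refine Finset.prod_congr rfl fun j _ => ?_
    rw [circleMap_zero, mul_assoc, ← Complex.exp_add, ← add_mul, ← sub_eq_add_neg]
  · have h1 : Real.exp (-T) ≤ 1 / 2 := by
      rw [Real.exp_neg, one_div]
      exact inv_anti₀ two_pos (by linarith [Real.add_one_le_exp T])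
    rw [← abs_of_pos (Real.exp_pos (-T)), ← range_circleMap] at hw
    obtain ⟨t, rfl⟩ := hw
    have h2 := RH2_G_le θ (w := circleMap 0 (Real.exp (-T)) t) (by
      rwa [norm_circleMap_zero, abs_of_pos (Real.exp_pos _)])
    have h3 : ‖F (circleMap 0 (Real.exp (-T)) t)‖ ≤ Real.exp (e * T) * m := by
      rw [RH2_circ, hF _ (RH2_mem t (by linarith) (by linarith)), norm_mul, RH2_norm_exp, mul_comm]
      exact mul_le_mul_of_nonneg_left (hm t) (Real.exp_pos _).le
    rw [norm_mul]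
    exact mul_le_mul h3 h2 (norm_nonneg _) ((norm_nonneg _).trans h3)

theorem RH2_lim {k : ℕ} (θ : Fin k → ℝ) {T e e' B t : ℝ} {p p' : ℂ → ℂ} {k₀ : ℂ} (hT : 0 < T)
    (hee : e + e' = -(k : ℝ) / 3) (hB : ∀ z ∈ strip T, ‖p' z‖ ≤ B)
    (ht : ∀ j, Complex.exp (t * Complex.I) ≠ Complex.exp (θ j * Complex.I))
    (hl : Tendsto (fun y : ℝ => p (t + y * Complex.I) -
        k₀ * (om ^ ∑ j, ⌊(t - θ j) / (2 * Real.pi)⌋) ^ 2 *
          (starRingEnd ℂ) (p' (t + y * Complex.I))) (𝓝[>] 0) (𝓝 0)) :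
    Tendsto (fun y : ℝ => p (t + y * Complex.I) *
      Complex.exp (-(e * (t + y * Complex.I)) * Complex.I) *
        RH2_G θ (Complex.exp ((t + y * Complex.I) * Complex.I)) -
      k₀ * Complex.exp ((∑ j, (θ j + Real.pi) / 3 : ℝ) * Complex.I) *
        (starRingEnd ℂ) (p' (t + y * Complex.I) *
          Complex.exp (-(e' * (t + y * Complex.I)) * Complex.I) *
            RH2_G θ (Complex.exp ((t + y * Complex.I) * Complex.I)))) (𝓝[>] 0) (𝓝 0) := by
  have hG : Tendsto (fun y : ℝ => RH2_G θ (Complex.exp ((t + y * Complex.I) * Complex.I)))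
      (𝓝[>] 0) (𝓝 (RH2_G θ (Complex.exp (t * Complex.I)))) := by
    refine (RH2_G_diff θ (Complex.norm_exp_ofReal_mul_I t).le fun j h => ht j
      ?_).continuousAt.tendsto.comp (Tendsto.mono_left (Continuous.tendsto' (by fun_prop) _ _
        (by simp)) nhdsWithin_le_nhds)
    rwa [neg_mul, Complex.exp_neg, mul_inv_eq_one₀ (Complex.exp_ne_zero _)] at h
  have hE : ∀ e : ℝ, Tendsto (fun y : ℝ => Complex.exp (-(e * (t + y * Complex.I)) * Complex.I))
      (𝓝[>] 0) (𝓝 (Complex.exp (-(e * t) * Complex.I))) := fun e =>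
    Tendsto.mono_left (Continuous.tendsto' (by fun_prop) _ _ (by simp)) nhdsWithin_le_nhds
  have h1 := hl.mul ((hE e).mul hG)
  have h2 := (((hE e).mul hG).const_mul (k₀ * (om ^ ∑ j, ⌊(t - θ j) / (2 * Real.pi)⌋) ^ 2)).sub
    (((Complex.continuous_conj.tendsto _).comp ((hE e').mul hG)).const_mul
      (k₀ * Complex.exp ((∑ j, (θ j + Real.pi) / 3 : ℝ) * Complex.I)))
  have h3 : Complex.exp (-(e * t) * Complex.I) * Complex.exp ((-(k : ℝ) / 3 * t : ℝ) * Complex.I) =
      (starRingEnd ℂ) (Complex.exp (-(e' * t) * Complex.I)) := by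
    rw [← Complex.exp_add, ← Complex.exp_conj, ← hee]
    congr 1
    simp only [map_mul, map_neg, Complex.conj_ofReal, Complex.conj_I]
    push_cast
    ring
  have h4 : k₀ * (om ^ ∑ j, ⌊(t - θ j) / (2 * Real.pi)⌋) ^ 2 * (Complex.exp (-(e * t) * Complex.I) *
      RH2_G θ (Complex.exp (t * Complex.I))) -
      k₀ * Complex.exp ((∑ j, (θ j + Real.pi) / 3 : ℝ) * Complex.I) * (starRingEnd ℂ)
        (Complex.exp (-(e' * t) * Complex.I) * RH2_G θ (Complex.exp (t * Complex.I))) = 0 := by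
    rw [map_mul, ← h3]
    linear_combination k₀ * Complex.exp (-(e * t) * Complex.I) * RH2_bdry θ ht
  rw [h4] at h2
  have h5 : IsBoundedUnder (· ≤ ·) (𝓝[>] (0 : ℝ))
      (norm ∘ fun y : ℝ => (starRingEnd ℂ) (p' (t + y * Complex.I))) := by
    refine ⟨B, ?_⟩
    rw [eventually_map]
    filter_upwards [Ioo_mem_nhdsGT hT] with y hy
    rw [Function.comp_apply, Complex.norm_conj]
    exact hB _ (RH2_mem t hy.1 (by linarith [hy.2]))
  have h6 := h1.add (h2.zero_mul_isBoundedUnder_le h5)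
  rw [zero_mul, zero_add] at h6
  refine h6.congr fun y => ?_
  simp only [Function.comp_apply, map_mul]
  ring

/-- E6. With `E z = ∏ j, (1 - exp ((z - θ j) I)) ^ (1 / 3)` the functions
`p z * exp (- e z I) / E z` and `p' z * exp (- e' z I) / E z` have period `2 pi`; descend to
`w = exp (z I)` (`S w = S₀ (- I * log w)`, use `log (- w)` near the negative axis, or
`Function.Periodic.cuspFunction`). On the boundary
`E / conj E = const * exp (k t I / 3) * (om ^ ∑ floor) ^ 2`. Apply `annulus_rh` with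
`ε = exp (- T)`, `a = exp (- T - 0.2)`; `1 / E = 1 + O ε` on the small circle. -/
theorem rh (k : ℕ) : ∃ C : ℝ, 0 < C ∧ ∀ (θ : Fin k → ℝ) (T e e' m m' B : ℝ) (p p' : ℂ → ℂ) (k₀ : ℂ),
    (∀ i j, Complex.exp (θ i * Complex.I) = Complex.exp (θ j * Complex.I) → i = j) →
    2 ≤ T → e ≤ 0 → e' ≤ 1 → e + e' = -(k : ℝ) / 3 →
    DifferentiableOn ℂ p (strip T) → DifferentiableOn ℂ p' (strip T) →
    (∀ z ∈ strip T, ‖p z‖ ≤ B ∧ ‖p' z‖ ≤ B) →
    (∀ z ∈ strip T, p (z + 2 * Real.pi) = Complex.exp ((2 * Real.pi * e : ℝ) * Complex.I) * p z ∧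
      p' (z + 2 * Real.pi) = Complex.exp ((2 * Real.pi * e' : ℝ) * Complex.I) * p' z) →
    ‖k₀‖ = 1 →
    (∀ t : ℝ, (∀ j, Complex.exp (t * Complex.I) ≠ Complex.exp (θ j * Complex.I)) →
      Tendsto (fun y : ℝ => p (t + y * Complex.I) -
        k₀ * (om ^ ∑ j, ⌊(t - θ j) / (2 * Real.pi)⌋) ^ 2 *
          (starRingEnd ℂ) (p' (t + y * Complex.I))) (𝓝[>] 0) (𝓝 0)) →
    (∀ t : ℝ, ‖p (t + T * Complex.I)‖ ≤ m ∧ ‖p' (t + T * Complex.I)‖ ≤ m') →
    ∀ z : ℂ, 0 < z.im → z.im ≤ 1 / 2 →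
      ‖p z‖ ≤ C * (Real.exp (e * T) * (‖Iw p e T‖ + Real.exp (-T) * m) +
        Real.exp ((e' - 1) * T) * (‖Iw p' (e' - 1) T‖ + Real.exp (-T) * m')) := by
  refine ⟨Real.exp (k + 1) * 2 ^ k * (1 + 2 * (2 ^ k + 1) + 4 * 2 ^ k), by positivity, ?_⟩
  intro θ T e e' m m' B p p' k₀ hθ hT he he' hee hp hp' hB per hk hl hm z hz0 hz1
  obtain ⟨F, hF, hFd, hFb, hFm⟩ := RH2_S θ hT hp (fun z hz => (hB z hz).1)
    (fun z hz => (per z hz).1) fun t => (hm t).1
  obtain ⟨F', hF', hFd', hFb', hFm'⟩ := RH2_S θ hT hp' (fun z hz => (hB z hz).2)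
    (fun z hz => (per z hz).2) fun t => (hm t).2
  obtain ⟨g, hg, hgb⟩ := exists_majorant θ hθ
  have hm0 : 0 ≤ m := (norm_nonneg _).trans (hm 0).1
  have hm0' : 0 ≤ m' := (norm_nonneg _).trans (hm 0).2
  have hε : Real.exp (-T) ≤ 1 / 4 := by
    have h1 : (2 : ℝ) ≤ Real.exp 1 := by linarith [Real.add_one_le_exp 1]
    have h2 : Real.exp 1 * Real.exp 1 ≤ Real.exp T := by
      rw [← Real.exp_add]
      exact Real.exp_le_exp.2 (by linarith)
    rw [Real.exp_neg, one_div]
    exact inv_anti₀ (by norm_num) (by nlinarith)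
  have hzs : z ∈ strip T := ⟨hz0, by linarith⟩
  have hst : ∀ t : ℝ, (t + T * Complex.I : ℂ) ∈ strip T := fun t => RH2_mem t (by linarith)
    (by linarith)
  have hB0 : 0 ≤ B := (norm_nonneg _).trans (hB z hzs).1
  have hw : ‖Complex.exp (z * Complex.I)‖ = Real.exp (-z.im) := by
    rw [Complex.norm_exp]
    simp
  have hw1 : ‖Complex.exp (z * Complex.I)‖ < 1 := by
    rw [hw]
    exact Real.exp_lt_one_iff.2 (by linarith)
  have hw2 : 1 / 2 ≤ ‖Complex.exp (z * Complex.I)‖ := by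
    rw [hw]
    linarith [Real.add_one_le_exp (-z.im)]
  have key := annulus_rh (Real.exp_pos (-(T + 0.2))) (Real.exp_lt_exp.2 (by linarith)) hε hFd hFd'
    (k₁ := k₀ * Complex.exp ((∑ j, (θ j + Real.pi) / 3 : ℝ) * Complex.I))
    (by rw [norm_mul, hk, Complex.norm_exp_ofReal_mul_I, one_mul])
    (g := fun t => B * (Real.exp |e| + Real.exp |e'|) * g t) (hg.const_mul _) ?_ ?_ hFm hFm' hw2 hw1
  · have hG : Continuous fun t : ℝ => RH2_G θ (circleMap 0 (Real.exp (-T)) t) :=
      continuous_iff_continuousAt.2 fun t => ContinuousAt.comp (g := RH2_G θ)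
        (RH2_G_diff' θ (by
          rw [norm_circleMap_zero, abs_of_pos (Real.exp_pos _)]
          linarith)).continuousAt (continuous_circleMap _ _).continuousAt
    have hc : ∀ t : ℝ, ‖RH2_G θ (circleMap 0 (Real.exp (-T)) t) - 1‖ ≤
        2 * (2 ^ k + 1) * Real.exp (-T) := fun t => by
      have h1 : ‖circleMap 0 (Real.exp (-T)) t‖ = Real.exp (-T) := by
        rw [norm_circleMap_zero, abs_of_pos (Real.exp_pos _)]
      have h2 := RH2_G_sub θ (w := circleMap 0 (Real.exp (-T)) t) (by rw [h1]; linarith)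
      rwa [h1] at h2
    have h1 := RH2_avg (Φ := F) (e := e) (cont_line (by linarith) hp) hG (fun t => (hm t).1) hc
      fun t => by rw [RH2_circ, hF _ (hst t)]
    have h2 := RH2_avg (Φ := fun t => F' t * t) (e := e' - 1) (cont_line (by linarith) hp') hG
      (fun t => (hm t).2) hc fun t => by
        rw [RH2_circ, hF' _ (hst t), mul_right_comm, mul_assoc (p' _), ← Complex.exp_add]
        congr 3
        push_cast
        ring
    have h3 : Real.exp (e' * T) * Real.exp (-T) = Real.exp ((e' - 1) * T) := by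
      rw [← Real.exp_add]
      congr 1
      ring
    have h4 : ‖F (Complex.exp (z * Complex.I))‖ ≤ (1 + 2 * (2 ^ k + 1) + 4 * 2 ^ k) *
        (Real.exp (e * T) * (‖Iw p e T‖ + Real.exp (-T) * m) +
          Real.exp ((e' - 1) * T) * (‖Iw p' (e' - 1) T‖ + Real.exp (-T) * m')) := by
      refine key.trans ?_
      have h5 : 2 * Real.exp (-T) ^ 2 * (Real.exp (e' * T) * m' * 2 ^ k) =
          2 * 2 ^ k * (Real.exp ((e' - 1) * T) * (Real.exp (-T) * m')) := by
        rw [← h3]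
        ring
      rw [h5]
      have a1 : 0 ≤ Real.exp (e * T) * ‖Iw p e T‖ := by positivity
      have a2 : 0 ≤ Real.exp (e * T) * (Real.exp (-T) * m) := by positivity
      have a3 : 0 ≤ Real.exp ((e' - 1) * T) * ‖Iw p' (e' - 1) T‖ := by positivity
      have a4 : 0 ≤ Real.exp ((e' - 1) * T) * (Real.exp (-T) * m') := by positivity
      have a5 : (0 : ℝ) ≤ 2 ^ k := by positivity
      nlinarith [mul_nonneg a5 a1, mul_nonneg a5 a3, mul_nonneg a5 a4]
    have h5 : ‖F (Complex.exp (z * Complex.I))‖ =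
        ‖p z‖ * Real.exp (e * z.im) * ‖RH2_G θ (Complex.exp (z * Complex.I))‖ := by
      rw [hF z hzs, norm_mul, norm_mul, ← RH2_norm_exp e z.re z.im, Complex.re_add_im]
    have h6 : 1 ≤ Real.exp (k + 1) * Real.exp (e * z.im) := by
      rw [← Real.exp_add]
      have : (0 : ℝ) ≤ k := Nat.cast_nonneg k
      exact Real.one_le_exp (by nlinarith)
    have h7 := RH2_G_ge θ hw1
    calc ‖p z‖ ≤ ‖p z‖ * ((Real.exp (k + 1) * Real.exp (e * z.im)) *
          (2 ^ k * ‖RH2_G θ (Complex.exp (z * Complex.I))‖)) :=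
          le_mul_of_one_le_right (norm_nonneg _) (one_le_mul_of_one_le_of_one_le h6 h7)
      _ = Real.exp (k + 1) * 2 ^ k * ‖F (Complex.exp (z * Complex.I))‖ := by
          rw [h5]
          ring
      _ ≤ _ := by
          rw [mul_assoc _ (1 + 2 * (2 ^ k + 1) + 4 * 2 ^ k)]
          exact mul_le_mul_of_nonneg_left h4 (by positivity)
  · intro r hr
    filter_upwards [RH2_ae θ] with t ht _
    have h1 := hgb r t (by linarith [hr.1]) hr.2.le ht
    have h2 : 0 ≤ g t := le_trans (Finset.prod_nonneg fun j _ => by positivity) h1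
    have h3 := Real.exp_pos |e|
    have h4 := Real.exp_pos |e'|
    constructor
    · refine (hFb r hr t).trans ?_
      gcongr
      linarith
    · refine (hFb' r hr t).trans ?_
      gcongr
      linarith
  · filter_upwards [RH2_ae θ] with t ht _
    have h1 := RH2_lim θ (T := T) (by linarith) hee (fun z hz => (hB z hz).2) ht (hl t ht)
    refine (h1.comp RH2_tendsto).congr' ?_
    filter_upwards [Ioo_mem_nhdsLT (by norm_num : (1 / 2 : ℝ) < 1)] with r hr
    obtain ⟨h2, h3, h4⟩ := RH2_polar t ⟨hr.1.le, hr.2⟩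
    have h5 := RH2_mem (T := T) t h2 (by linarith)
    rw [h4, hF _ h5, hF' _ h5]
    rfl

end Pool.Agent.TAF.U
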