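import Pool.Agent.P.MP_cb4022_pr.U.Tri1

/-! Discrete holomorphicity, part 2 (paper C4). -/

open scoped Classical symmDiff

noncomputable section

namespace Pool.Agent.TAF.U

section
variable {s R : ℝ} {D H : Finset Site} {V U : Finset Tri} {x : ℂ} {t : Tri} {p : Fin 3}
  {m : ℤ} {ξ : Finset Edge}

theorem Tri2_side0 {τ : Tri} {i : Fin 3} :
    side τ i ∈ ξ \ Finset.univ.image (side t) ↔ side τ i ∈ ξ ∧ τ ≠ t ∧ τ ≠ nbr t i := by
  simp only [Finset.mem_sdiff, Finset.mem_image, Finset.mem_univ, true_and, not_exists]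
  refine and_congr_right fun _ => ⟨fun h => ⟨?_, ?_⟩, fun h j e => ?_⟩
  · rintro rfl
    exact h i rfl
  · rintro rfl
    exact h i (side_nbr t i).symm
  · obtain ⟨rfl, e'⟩ := side_eq_side e
    exact e'.elim h.1 h.2

theorem Tri2_sub (a : Fin 3) : ξ \ Finset.univ.image (side t) ⊆ ξ.erase (side t a) := by
  intro e he
  rw [Finset.mem_sdiff] at he
  exact Finset.mem_erase.2 ⟨fun h => he.2 (h ▸ Finset.mem_image_of_mem _ (Finset.mem_univ a)), he.1⟩

theorem Tri2_iso {σ : Tri} (hσ : σ ≠ t) : ¬ Conn (ξ \ Finset.univ.image (side t)) σ t := fun h =>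
  hσ (conn_of_deg_zero (fun _ hi => (Tri2_side0.1 hi).2.1 rfl) h.symm)

theorem Tri2_same {σ : Tri} {a : Fin 3} (hσ : σ ≠ t)
    (h : ∀ j, j ≠ a → ¬ Conn (ξ \ Finset.univ.image (side t)) σ (nbr t j)) (τ : Tri)
    (hc : Conn (ξ \ Finset.univ.image (side t)) σ τ) (i : Fin 3) :
    side τ i ∈ ξ \ Finset.univ.image (side t) ↔ side τ i ∈ ξ.erase (side t a) := by
  refine ⟨fun h => Tri2_sub a h, fun h' => ?_⟩
  rw [Finset.mem_erase] at h'
  refine Tri2_side0.2 ⟨h'.2, fun e => Tri2_iso hσ (e ▸ hc), fun e => ?_⟩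
  by_cases hi : i = a
  · exact h'.1 (by rw [e, side_nbr, hi])
  · exact h i hi (e ▸ hc)

theorem Tri2_odd (h : TriH s R D H V U x t) (hξ : ξ ∈ Om D H (insert t (V ∪ U)))
    (hd : ∀ i, side t i ∈ ξ) (τ : Tri) :
    IsOdd (ξ \ Finset.univ.image (side t)) τ ↔ τ ∈ V ∪ U ∨ ∃ i, τ = nbr t i := by
  have ho := (mem_Om.1 hξ).2 τ
  rw [Finset.mem_insert] at ho
  by_cases h1 : τ = t
  · subst h1
    rw [isOdd_iff _ _ 0]
    simp only [Tri2_side0, ne_eq, not_true, false_and, and_false, iff_self, iff_true, false_iff]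
    rintro (h2 | ⟨i, h2⟩)
    · exact h.t0 h2
    · exact nbr_ne _ i h2.symm
  by_cases h2 : ∃ i, τ = nbr t i
  · obtain ⟨i, rfl⟩ := h2
    have n1 : nbr t i ≠ nbr t (i + 1) := fun e => by simpa using nbr_inj e
    have n2 : nbr t i ≠ nbr t (i + 2) := fun e => by
      have := nbr_inj e
      revert this
      fin_cases i <;> decide
    have h3 := hd i
    rw [isOdd_iff _ _ i, side_nbr] at ho
    rw [isOdd_iff _ _ i]
    simp only [Tri2_side0, ne_eq, not_true, and_false, h1, n1, n2, not_false_iff, and_true]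
    have h4 := h.t1 i
    refine iff_of_true ?_ (Or.inr ⟨i, rfl⟩)
    tauto
  · rw [isOdd_iff _ _ 0] at ho ⊢
    have h3 : ∀ i, τ ≠ nbr t i := fun i e => h2 ⟨i, e⟩
    simp only [Tri2_side0, ne_eq, h1, h3, not_false_iff, and_true, exists_false, or_false]
    simpa only [h1, false_or] using ho

theorem Tri2_fin (c : Fin 3) : c + 1 ≠ c ∧ c + 2 ≠ c ∧ c + 2 ≠ c + 1 ∧ c + 1 + 1 = c + 2 ∧
    c + 1 + 2 = c ∧ c + 2 + 1 = c := by
  revert c
  decide

theorem Tri2_sum {A : Type*} [AddCommMonoid A] (f : Fin 3 → A) (c : Fin 3) :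
    ∑ i, f i = f c + f (c + 1) + f (c + 2) := by
  rw [Fin.sum_univ_three]
  fin_cases c
  · rfl
  · exact show f 0 + f 1 + f 2 = f 1 + f 2 + f 0 by abel
  · exact show f 0 + f 1 + f 2 = f 2 + f 0 + f 1 by abel

theorem Tri2_const {f : Fin 3 → ℂ} (h : ∀ i j, f i = f j) : ∑ i : Fin 3, ta ^ (i : ℕ) * f i = 0 := by
  rw [Fin.sum_univ_three, h 1 0, h 2 0]
  simp only [Fin.val_zero, Fin.val_one, Fin.val_two]
  linear_combination f 0 * ta_sum

theorem Tri2_ta (a : Fin 3) : ta ^ ((a + 1 : Fin 3) : ℕ) = ta ^ (a : ℕ) * ta := by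
  fin_cases a
  · simp
  · exact pow_succ ta 1
  · exact show ta ^ 0 = ta ^ 2 * ta by rw [← pow_succ, ta_cube, pow_zero]

theorem Tri2_inc {φ : Edge → ℤ} {a : Fin 3} (h : dv φ t = 0) (h0 : φ (side t a) = 0) (p : Fin 3) :
    inc φ t p (a + 2) = inc φ t p (a + 1) := by
  rw [dv_eq _ _ 0] at h
  fin_cases a <;> fin_cases p <;> cases ht : t.2 <;> simp [inc, ht] at h h0 ⊢ <;> omega

theorem Tri2_pres {η : Finset Edge} {τ : Tri} (h : IsOdd η τ) : ∃ i, side τ i ∈ η := by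
  rw [isOdd_iff _ _ 0] at h
  by_contra hc
  simp only [not_exists] at hc
  simp [hc] at h

/-- the difference of two potentials extends by zero -/
theorem Tri2_pot (h : Dom s R D H) {φ φ' η η' : Edge →₀ ℤ} {k : ℤ} {Φ Φ' : Site → ℤ}
    (p1 : IsPot D H φ k η Φ) (p2 : IsPot D H φ' k η' Φ') (t1 : ∀ e, φ e ≠ 0 → Touch e D)
    (t2 : ∀ e, φ' e ≠ 0 → Touch e D) (hd : ∀ τ, ¬ TT τ H → dv φ τ = dv φ' τ) :
    ∃ Ψ : Site → ℤ, (∀ y ∈ D, Ψ y = Φ' y - Φ y) ∧ (∀ y ∉ D, Ψ y = 0) ∧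
      ∀ e, ¬ Touch e H → cob Ψ e = φ' e - φ e := by
  have z : ∀ {η : Edge →₀ ℤ}, (∀ e, η e ≠ 0 → Touch e H) → ∀ e, ¬ Touch e H → η e = 0 :=
    fun h e he => not_not.1 fun h' => he (h e h')
  obtain ⟨Ψ, hf, hΨ⟩ := pot_fin (⇑(φ' + η' - (φ + η))) (Finsupp.hasFiniteSupport _) fun τ => by
    rw [Finsupp.coe_sub, dv_sub, sub_eq_zero]
    by_cases hτ : TT τ H
    · rw [p1.div τ hτ, p2.div τ hτ]
    · rw [dv_congr (ψ := φ') fun i => by
          rw [Finsupp.add_apply, z p2.supp _ fun h => hτ h.tt, add_zero],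
        dv_congr (φ := ⇑(φ + η)) (ψ := φ) fun i => by
          rw [Finsupp.add_apply, z p1.supp _ fun h => hτ h.tt, add_zero], hd τ hτ]
  have h0 := Mc_cob hf hΨ
  simp only [Finsupp.sub_apply, Finsupp.add_apply] at hΨ
  refine ⟨Ψ, fun y hy => ?_, zero_of_far hf h.connO (Set.Finite.infinite_compl D.finite_toSet)
    fun e he => ?_, fun e he => by rw [hΨ, z p1.supp e he, z p2.supp e he, add_zero, add_zero]⟩
  · have := Jn.const (Φ := fun y => Ψ y - (Φ' y - Φ y)) (fun e he => by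
      have a1 := p1.pot e he
      have a2 := p2.pot e he
      have a3 := hΨ e
      simp only [cob] at a1 a2 a3 ⊢
      linarith) (h.connD y hy 0 (h.sub h.zero))
    rw [map_sub, ← p1.zero, ← p2.zero] at h0
    linarith
  · have h1 := not_touch_iff.2 he
    have h2 : ¬ Touch e H := fun h3 => h1 (h3.imp (fun a => h.sub a) fun a => h.sub a)
    rw [hΨ, z p1.supp e h2, z p2.supp e h2, not_not.1 fun a => h1 (t1 e a),
      not_not.1 fun a => h1 (t2 e a), sub_self]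

/-- the three strands and their ends -/
structure Tri2_S (V U : Finset Tri) (t : Tri) (ξ : Finset Edge) (μ : Fin 3 → Tri) : Prop where
  hd : ∀ i, side t i ∈ ξ
  hl : ∀ b c, b ≠ c → ¬ Conn (ξ \ Finset.univ.image (side t)) (nbr t b) (nbr t c)
  t0 : t ∉ V ∪ U
  t1 : ∀ i, nbr t i ∉ V ∪ U
  dis : Disjoint V U
  sE : ∀ i, Simple (ξ.erase (side t i))
  oE : ∀ i τ, IsOdd (ξ.erase (side t i)) τ ↔ τ ∈ insert (nbr t i) (V ∪ U)
  o0 : ∀ τ, IsOdd (ξ \ Finset.univ.image (side t)) τ ↔ τ ∈ V ∪ U ∨ ∃ i, τ = nbr t i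
  mem : ∀ i, μ i ∈ V ∪ U
  cn : ∀ i, Conn (ξ \ Finset.univ.image (side t)) (nbr t i) (μ i)
  un : ∀ i, ∀ τ ∈ V ∪ U, Conn (ξ \ Finset.univ.image (side t)) (nbr t i) τ → τ = μ i

theorem Tri2_rd (h : TriH s R D H V U x t) (i : Fin 3) : RdOK D H V U t i :=
  ⟨h.t0, fun _ => h.t1 i⟩

theorem Tri2_ex (h : TriH s R D H V U x t) (hξ : ξ ∈ Om D H (insert t (V ∪ U)))
    (hd : ∀ i, side t i ∈ ξ)
    (hl : ∀ b c, b ≠ c → ¬ Conn (ξ \ Finset.univ.image (side t)) (nbr t b) (nbr t c)) :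
    ∃ μ, Tri2_S V U t ξ μ := by
  have sE := fun i => read_simple h.fr (Tri2_rd h i) hξ
  have o0 := Tri2_odd h hξ hd
  choose μ m1 m2 m3 m4 _ using fun i =>
    exists_mate ((sE 0).mono (Tri2_sub 0)) ((o0 (nbr t i)).2 (Or.inr ⟨i, rfl⟩))
  refine ⟨μ, hd, hl, h.t0, h.t1, h.fr.disjoint, sE, fun i τ => ?_, o0, fun i => ?_, m3,
    fun i τ hτ hc => (m4 i τ ((o0 τ).2 (Or.inl hτ)) hc).resolve_left fun e => h.t1 i (e ▸ hτ)⟩
  · have := (mem_Om.1 (read_mem (Tri2_rd h i) hξ).1).2 τ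
    rwa [tz, if_pos (hd i)] at this
  · refine ((o0 _).1 (m1 i)).resolve_right fun ⟨j, e⟩ => ?_
    exact hl i j (fun e' => m2 i (e.trans (by rw [e']))) (e ▸ m3 i)

namespace Tri2_S

variable {μ : Fin 3 → Tri} (S : Tri2_S V U t ξ μ) {a b c : Fin 3}
include S

theorem s0 : Simple (ξ \ Finset.univ.image (side t)) := (S.sE 0).mono (Tri2_sub 0)

theorem ne (h : b ≠ c) : μ b ≠ μ c := fun e => S.hl b c h ((S.cn b).trans (e ▸ (S.cn c).symm))

theorem same (a : Fin 3) : ∀ τ, Conn (ξ \ Finset.univ.image (side t)) (nbr t a) τ → ∀ i,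
    side τ i ∈ ξ \ Finset.univ.image (side t) ↔ side τ i ∈ ξ.erase (side t a) :=
  Tri2_same (nbr_ne t a) fun j hj => S.hl a j hj.symm

theorem sameU (a : Fin 3) {u : Tri} (hu : u ∈ V ∪ U) (h : ∀ j, j ≠ a → u ≠ μ j) :
    ∀ τ, Conn (ξ \ Finset.univ.image (side t)) u τ → ∀ i,
      side τ i ∈ ξ \ Finset.univ.image (side t) ↔ side τ i ∈ ξ.erase (side t a) :=
  Tri2_same (fun e => S.t0 (e ▸ hu)) fun j hj hc => h j hj (S.un j u hu hc.symm)

theorem pat (a : Fin 3) : PatA ξ V U t a ↔ Thru (ξ.erase (side t a)) V U ∧ μ a ∈ V := by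
  rw [PatA, tz, if_pos (S.hd a)]
  refine and_congr_right fun _ => ⟨fun ⟨v, hv, hc⟩ => ?_, fun h => ⟨_, h, ?_⟩⟩
  · rwa [← S.un a v (Finset.mem_union_left _ hv) ((conn_congr (S.same a) v).1 hc)]
  · exact (S.cn a).mono (Tri2_sub a)

theorem zeta_eq (a : Fin 3) :
    zeta ξ t a = into t a - line (ξ \ Finset.univ.image (side t)) (nbr t a) := by
  rw [zeta, tz, if_pos (S.hd a), if_pos (S.hd a), line_congr (S.same a), neg_add_eq_sub]

theorem toT (h : b ≠ a) : Conn (ξ.erase (side t a)) (μ b) t :=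
  ((S.cn b).symm.mono (Tri2_sub a)).trans
    (Conn.step (Finset.mem_erase.2 ⟨fun e => h (side_inj e), S.hd b⟩)).symm

theorem oddE (a : Fin 3) {τ : Tri} (h : τ ∈ V ∪ U) : IsOdd (ξ.erase (side t a)) τ :=
  (S.oE a τ).2 (Finset.mem_insert_of_mem h)

theorem notU {v : Tri} (h : v ∈ V) : v ∉ U := Finset.disjoint_left.1 S.dis h

theorem two (hb : b ≠ a) (hc : c ≠ a) (h : b ≠ c) (h1 : μ b ∈ U) (h2 : μ c ∈ U) :
    ¬ PatA ξ V U t a := fun hA => by
  obtain ⟨v, hv, hc'⟩ := hA.1 _ h1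
  rcases three_odd (S.sE a) (S.oddE a (S.mem b)) (S.oddE a (S.mem c))
    (S.oddE a (Finset.mem_union_left _ hv)) ((S.toT hb).trans (S.toT hc).symm) hc' with e | e | e
  · exact S.ne h e
  · exact S.notU hv (e ▸ h1)
  · exact S.notU hv (e ▸ h2)

theorem line_eq' (hb : b ≠ a) (hc : c ≠ a) (h : b ≠ c) : line (ξ.erase (side t a)) (μ c) =
    line (ξ \ Finset.univ.image (side t)) (μ c) + into t c -
      (into t b - line (ξ \ Finset.univ.image (side t)) (nbr t b)) := by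
  have hdv : ∀ τ, dv (⇑(line (ξ \ Finset.univ.image (side t)) (μ c) + into t c -
      (into t b - line (ξ \ Finset.univ.image (side t)) (nbr t b)))) τ =
      (if τ = μ b then 1 else 0) - (if τ = μ c then 1 else 0) := fun τ => by
    rw [Finsupp.coe_sub, Finsupp.coe_sub, Finsupp.coe_add, dv_sub, dv_sub, dv_add, dv_into, dv_into,
      dv_line S.s0 ((S.o0 _).2 (Or.inl (S.mem c))) ((S.o0 _).2 (Or.inr ⟨c, rfl⟩))
        (fun e => S.t1 c (e ▸ S.mem c)) (S.cn c).symm,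
      dv_line S.s0 ((S.o0 _).2 (Or.inr ⟨b, rfl⟩)) ((S.o0 _).2 (Or.inl (S.mem b)))
        (fun e => S.t1 b (e ▸ S.mem b)) (S.cn b)]
    ring
  have hi : ∀ j, j ≠ a → ∀ e, into t j e ≠ 0 →
      e ∈ ξ.erase (side t a) ∧ Conn (ξ.erase (side t a)) (μ c) (up e) := fun j hj e he => by
    obtain rfl : e = side t j := by
      by_contra h1
      exact he (Finsupp.single_eq_of_ne h1)
    have h1 : side t j ∈ ξ.erase (side t a) :=
      Finset.mem_erase.2 ⟨fun e => hj (side_inj e), S.hd j⟩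
    exact ⟨h1, (S.toT hc).trans (conn_up_side h1)⟩
  refine line_eq (S.sE a) (S.oddE a (S.mem c)) ⟨fun e he => ?_, ?_, fun τ hτ => ?_⟩
  · by_contra h0
    refine he ?_
    have a1 : line (ξ \ Finset.univ.image (side t)) (μ c) e = 0 := not_not.1 fun h1 =>
      h0 ⟨Tri2_sub a (line_supp h1).1, (line_supp h1).2.mono (Tri2_sub a)⟩
    have a2 : line (ξ \ Finset.univ.image (side t)) (nbr t b) e = 0 := not_not.1 fun h1 =>
      h0 ⟨Tri2_sub a (line_supp h1).1, ((S.toT hc).trans (S.toT hb).symm).trans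
        (((S.cn b).symm.trans (line_supp h1).2).mono (Tri2_sub a))⟩
    rw [Finsupp.sub_apply, Finsupp.sub_apply, Finsupp.add_apply, a1, a2,
      not_not.1 fun h1 => h0 (hi c hc e h1), not_not.1 fun h1 => h0 (hi b hb e h1)]
    rfl
  · rw [hdv, if_neg (S.ne h).symm, if_pos rfl]
    rfl
  · rw [hdv, if_neg fun e : τ = μ b => hτ (e ▸ S.oddE a (S.mem b)),
      if_neg fun e : τ = μ c => hτ (e ▸ S.oddE a (S.mem c))]
    rfl

theorem one (hb : b ≠ a) (hc : c ≠ a) (h : b ≠ c) (h1 : μ a ∈ V) (h2 : μ b ∈ V) (h3 : μ c ∈ U) :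
    (PatA ξ V U t a ↔
      ∀ u ∈ U.erase (μ c), ∃ v ∈ V, Conn (ξ \ Finset.univ.image (side t)) u v) ∧
    Lf (ξ.erase (side t a)) U =
      -(line (ξ \ Finset.univ.image (side t)) (μ c) + into t c +
        ∑ u ∈ U.erase (μ c), line (ξ \ Finset.univ.image (side t)) u) + zeta ξ t b := by
  have key : ∀ u ∈ U.erase (μ c), ∀ j, j ≠ a → u ≠ μ j := fun u hu j hj e => by
    rw [Finset.mem_erase] at hu
    have : j = b ∨ j = c := by omega
    rcases this with rfl | rfl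
    · exact S.notU h2 (e ▸ hu.2)
    · exact hu.1 e
  have sm := fun u hu => S.sameU a (Finset.mem_union_right _ (Finset.mem_of_mem_erase hu))
    (key u hu)
  refine ⟨?_, ?_⟩
  · rw [S.pat, and_iff_left h1]
    refine ⟨fun hT u hu => ?_, fun hT u hu => ?_⟩
    · obtain ⟨v, hv, hc'⟩ := hT u (Finset.mem_of_mem_erase hu)
      exact ⟨v, hv, (conn_congr (sm u hu) v).1 hc'⟩
    · by_cases e : u = μ c
      · exact ⟨_, h2, e ▸ (S.toT hc).trans (S.toT hb).symm⟩
      · obtain ⟨v, hv, hc'⟩ := hT u (Finset.mem_erase.2 ⟨e, hu⟩)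
        exact ⟨v, hv, hc'.mono (Tri2_sub a)⟩
  · rw [Lf, ← Finset.add_sum_erase _ _ h3, S.line_eq' hb hc h, S.zeta_eq,
      Finset.sum_congr rfl fun u hu => line_congr (sm u hu)]
    abel

end Tri2_S

/-- no strand ends in `U` -/
theorem Tri2_none (h : TriH s R D H V U x t) {μ : Fin 3 → Tri} (S : Tri2_S V U t ξ μ)
    (hμ : ∀ c, μ c ∉ U) (i j : Fin 3) :
    term D H V U x t p m ξ i = term D H V U x t p m ξ j := by
  have hV : ∀ c, μ c ∈ V := fun c => (Finset.mem_union.1 (S.mem c)).resolve_right (hμ c)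
  have sm := fun a u (hu : u ∈ U) => S.sameU a (Finset.mem_union_right _ hu)
    fun j _ e => hμ j (e ▸ hu)
  have hP : ∀ a, PatA ξ V U t a ↔ Thru (ξ \ Finset.univ.image (side t)) V U := fun a => by
    rw [S.pat, and_iff_left (hV a)]
    exact forall₂_congr fun u hu => exists_congr fun v =>
      and_congr_right fun _ => conn_congr (sm a u hu) v
  have hL : ∀ a, Lf (ξ.erase (side t a)) U = Lf (ξ \ Finset.univ.image (side t)) U := fun a =>
    congrArg Neg.neg (Finset.sum_congr rfl fun u hu => line_congr (sm a u hu))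
  simp only [term, hP]
  split_ifs with hT
  · rcases h.hx.2 with rfl | hc
    · have z : ∀ q, inc (Lf (ξ \ Finset.univ.image (side t)) U) t p q = 0 := fun q =>
        inc_eq_zero fun r _ _ => Lf_side_zero
          (fun u hu => Tri2_iso fun e : u = t => S.t0 (e ▸ Finset.mem_union_right _ hu)) r
      simp only [wt, hL, z, one_zpow]
    · exfalso
      obtain ⟨V', hs, hk, hv, -⟩ := dv_Lf S.s0
        (fun v hv => (S.o0 v).2 (Or.inl (Finset.mem_union_left _ hv)))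
        (fun v hv => (S.o0 v).2 (Or.inl (Finset.mem_union_right _ hv))) S.dis hT
      have n : ∀ c, μ c ∉ V' := fun c hc' => by
        obtain ⟨u, hu, hc''⟩ := (hv _ (hV c)).1 hc'
        exact hμ c (S.un c u (Finset.mem_union_right _ hu) ((S.cn c).trans hc''.symm) ▸ hu)
      have := Finset.card_le_card (show insert (μ 0) (insert (μ 1) V') ⊆ V from
        Finset.insert_subset (hV 0) (Finset.insert_subset (hV 1) hs))
      rw [Finset.card_insert_of_notMem (by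
        rw [Finset.mem_insert, not_or]
        exact ⟨S.ne (by decide), n 0⟩), Finset.card_insert_of_notMem (n 1)] at this
      omega
  · rfl

/-- exactly one strand ends in `U` -/
theorem Tri2_one (h : TriH s R D H V U x t) (hξ : ξ ∈ Om D H (insert t (V ∪ U)))
    {μ : Fin 3 → Tri} (S : Tri2_S V U t ξ μ) {c : Fin 3} (h1 : μ (c + 1) ∈ V) (h2 : μ (c + 2) ∈ V)
    (h3 : μ c ∈ U) :
    om * term D H V U x t p m ξ (c + 2) = term D H V U x t p m ξ (c + 1) := by
  obtain ⟨n1, n2, n3, e1, e2, e3⟩ := Tri2_fin c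
  obtain ⟨pa, la⟩ := S.one n3 n1.symm n2 h1 h2 h3
  obtain ⟨pb, lb⟩ := S.one n3.symm n2.symm n1 h2 h1 h3
  by_cases hA : PatA ξ V U t (c + 1)
  swap
  · rw [term, term, if_neg hA, if_neg fun hB => hA (pa.2 (pb.1 hB)), mul_zero]
  have hB := pb.2 (pa.1 hA)
  obtain ⟨Va, sa, -, -, -, -, -, da, -, ηa, Φa, Pa⟩ := patA_spec h.fr (Tri2_rd h _) hξ hA
  obtain ⟨Vb, sb, -, -, -, -, -, db, -, ηb, Φb, Pb⟩ := patA_spec h.fr (Tri2_rd h _) hξ hB
  have al := (mem_Om.1 hξ).1
  have tv : ∀ v ∈ V, TT v H := fun v hv => by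
    obtain ⟨q, -, hq, -⟩ := h.fr.inn v hv
    exact ⟨_, hq⟩
  obtain ⟨Ψ, q1, q2, q3⟩ := Tri2_pot h.fr.toDom Pa Pb
    (fun e he => (mem_allowed.1 (al (Finset.mem_of_mem_erase (Lf_supp he).1))).1)
    (fun e he => (mem_allowed.1 (al (Finset.mem_of_mem_erase (Lf_supp he).1))).1)
    fun τ hτ => by
      rw [da, db, if_neg fun a => hτ (tv τ (sa a)), if_neg fun a => hτ (tv τ (sb a))]
  have tot : Lf (ξ.erase (side t (c + 2))) U + zeta ξ t (c + 2) =
      Lf (ξ.erase (side t (c + 1))) U + zeta ξ t (c + 1) := by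
    rw [la, lb]
    abel
  have dif : ∀ e, Lf (ξ.erase (side t (c + 2))) U e - Lf (ξ.erase (side t (c + 1))) U e =
      zeta ξ t (c + 1) e - zeta ξ t (c + 2) e := fun e => by
    have := DFunLike.congr_fun tot e
    rw [Finsupp.add_apply, Finsupp.add_apply] at this
    linarith
  have vD : ∀ i, vtx t i ∈ D := fun i => (Finset.mem_sdiff.1 (h.vt i)).1
  have vB : ∀ i, vtx t i ∉ bal 0 s := fun i => (Finset.mem_sdiff.1 (h.vt i)).2
  have vH : ∀ i, vtx t i ∈ (H : Set Site)ᶜ := fun i a => vB i (h.fr.hs a)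
  have nt : ∀ i, ¬ Touch (side t i) H := fun i a => (touch_side.1 a).elim (vH _) (vH _)
  have zc : ∀ j, j ≠ c → ∀ τ, Conn (ξ \ Finset.univ.image (side t)) (nbr t c) τ → ∀ i,
      zeta ξ t j (side τ i) = 0 := fun j hj τ hτ i => by
    rw [S.zeta_eq, Finsupp.sub_apply, line_side_zero fun a => S.hl j c hj (a.trans hτ.symm),
      sub_zero]
    refine Finsupp.single_eq_of_ne fun e => ?_
    rcases (side_eq_side e.symm).2 with rfl | rfl
    · exact Tri2_iso (nbr_ne _ c) hτ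
    · exact S.hl c j hj.symm hτ
  have oc := (S.o0 _).2 (Or.inr ⟨c, rfl⟩)
  have ou := (S.o0 _).2 (Or.inl (S.mem c))
  obtain ⟨ρ, r1, r2⟩ := side_lemma S.s0 oc (Y := (H : Set Site)ᶜ) (a := 0) (k := 0) (Φ := Ψ)
    (ψ := fun e => zeta ξ t (c + 1) e - zeta ξ t (c + 2) e) (Or.inl rfl)
    (fun e he => not_not.1 fun a => (mem_allowed.1 (al (Finset.mem_sdiff.1 he).1)).2
      (by simpa only [compl_compl] using not_touch_iff.1 a))
    (fun e he => by rw [q3 e (not_touch_iff.2 he), dif]; ring)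
    fun τ hτ i => by rw [zc _ n1 τ hτ, zc _ n2 τ hτ, sub_self]
  simp only [zero_mul, sub_zero, neg_zero] at r1 r2
  have ends : ∀ (τ : Tri) (i q : Fin 3), q ≠ i →
      vtx τ q = lft (side τ i) ∨ vtx τ q = rgt (side τ i) := fun τ i q hq => by
    rw [lft_side, rgt_side]
    rcases fin3_cases i q with e | e | e
    · exact absurd e hq
    all_goals cases τ.2 <;> simp [e]
  have u0 : ρ (μ c) = 0 := by
    obtain ⟨i, hi⟩ := Tri2_pres ou
    obtain ⟨q, -, b1, b2⟩ := h.fr.out _ h3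
    by_cases e : q + 1 = i
    · rw [r1 _ (S.cn c) i hi _ (fun a => b2 (h.fr.toDom.sub a)) (ends _ i _ (by omega)), q2 _ b2]
    · rw [r1 _ (S.cn c) i hi _ (fun a => b1 (h.fr.toDom.sub a)) (ends _ i _ e), q2 _ b1]
  have u1 := r2 _ ou (fun e => S.t1 c (e ▸ S.mem c)) (S.cn c)
  have u2 : Ψ (vtx t (c + 1)) = Ψ (vtx t (c + 2)) := by
    have := q3 _ (nt c)
    rw [dif, ← side_nbr, zc _ n1 _ (Conn.refl _ _), zc _ n2 _ (Conn.refl _ _), side_nbr,
      cob_side] at this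
    split_ifs at this <;> linarith
  have u3 : Ψ (vtx t (c + 2)) = 0 := by
    obtain ⟨i, hi⟩ := Tri2_pres oc
    rcases fin3_cases c i with e | e | e
    · exact absurd (e ▸ rfl) (Tri2_side0.1 hi).2.2
    · have := r1 _ (Conn.refl _ _) i hi (vtx (nbr t c) (c + 2)) (vtx_nbr2 t c ▸ vH _)
        (ends _ i _ (e ▸ n3))
      rw [vtx_nbr2] at this
      linarith
    · have := r1 _ (Conn.refl _ _) i hi (vtx (nbr t c) (c + 1)) (vtx_nbr1 t c ▸ vH _)
        (ends _ i _ (e ▸ n3.symm))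
      rw [vtx_nbr1] at this
      linarith
  have lz : ∀ σ i, line (ξ \ Finset.univ.image (side t)) σ (side t i) = 0 := fun σ i =>
    not_not.1 fun a => (Tri2_side0.1 (line_supp a).1).2.1 rfl
  have u4 : Ψ (vtx t c) = -1 := by
    have := q3 _ (nt (c + 1))
    rw [dif, S.zeta_eq, S.zeta_eq, Finsupp.sub_apply, Finsupp.sub_apply, lz, lz, into, into,
      Finsupp.single_eq_same, Finsupp.single_eq_of_ne fun e => n3 (side_inj e).symm, cob_side, e1,
      e2] at this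
    split_ifs at this <;> linarith
  have u5 := Tri2_inc (φ := Lf (ξ.erase (side t (c + 1))) U) (t := t) (a := c + 1) (by
    rw [da, if_neg fun a => S.t0 (Finset.mem_union_right _ a),
      if_neg fun a => S.t0 (Finset.mem_union_left _ (sa a)), sub_self])
    (not_not.1 fun a => Finset.notMem_erase _ _ (Lf_supp a).1) p
  have u6 := inc_of_cob (Φ := Ψ) (t := t) (p := p) (q := c)
    (φ := ⇑(Lf (ξ.erase (side t (c + 2))) U) + -⇑(Lf (ξ.erase (side t (c + 1))) U))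
    fun r _ _ => by rw [q3 _ (nt r), Pi.add_apply, Pi.neg_apply, sub_eq_add_neg]
  rw [inc_add, inc_neg, q1 _ (vD p), u4] at u6
  rw [e2] at u5
  have hz := h.fr.toDom.sub h.fr.zero
  rw [term, term, if_pos hA, if_pos hB, wt, wt, tot, jv_eq hz h.fr.hs h.fr.connD Pa (vD p) (vB p),
    jv_eq hz h.fr.hs h.fr.connD Pb (vD p) (vB p), e3, ← mul_assoc, ← zpow_one_add₀ om_ne]
  congr 2
  linarith

/-- Degree three, the three strands end at three sources. With exactly one of them, `c`, in `U`: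
the readings `a = c + 1` and `b = c + 2` have the same total flow; the difference of the two
extended `L` flows is `cob Ψ`; use `side_lemma` with `a = k = 0` on the component of `nbr t c` in
the configuration without the sides of `t` (it may touch `H`), `Ψ = 0` on `Dᶜ`; so `Ψ` is `0` at
`vtx t a`, `vtx t b` and `-1` at `vtx t c`. -/
theorem tripod_three (h : TriH s R D H V U x t) (hξ : ξ ∈ Om D H (insert t (V ∪ U)))
    (hd : ∀ i, side t i ∈ ξ)
    (hl : ∀ b c, b ≠ c → ¬ Conn (ξ \ Finset.univ.image (side t)) (nbr t b) (nbr t c)) :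
    ∑ i : Fin 3, ta ^ (i : ℕ) * term D H V U x t p m ξ i = 0 := by
  obtain ⟨μ, S⟩ := Tri2_ex h hξ hd hl
  by_cases hc : ∃ c, μ c ∈ U
  swap
  · exact Tri2_const (Tri2_none h S fun c a => hc ⟨c, a⟩)
  obtain ⟨c, hc⟩ := hc
  obtain ⟨n1, n2, n3, e1, -, -⟩ := Tri2_fin c
  have z : ∀ a, μ a ∈ U → term D H V U x t p m ξ a = 0 := fun a ha =>
    if_neg fun hA => S.notU ((S.pat a).1 hA).2 ha
  rw [Tri2_sum _ c, z c hc, mul_zero, zero_add]
  rcases Finset.mem_union.1 (S.mem (c + 1)) with h1 | h1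
  · rcases Finset.mem_union.1 (S.mem (c + 2)) with h2 | h2
    · rw [← Tri2_one h hξ S h1 h2 hc, ← e1, Tri2_ta (c + 1), om_eq]
      ring
    · rw [z _ h2, term, if_neg (S.two n3 n1.symm n2 h2 hc), mul_zero, mul_zero, add_zero]
  · rw [z _ h1, term, if_neg (S.two n3.symm n2.symm n1 h1 hc), mul_zero, mul_zero, add_zero]

/-- C4 -/
theorem tripod (h : TriH s R D H V U x t) :
    ∑ i : Fin 3, ta ^ (i : ℕ) * obs D H V U x t i p m = 0 := by
  simp only [obs, ← avg_mul_left]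
  rw [← avg_sum]
  refine (avg_congr fun ξ hξ => ?_).trans (avg_zero _)
  change ∑ i : Fin 3, ta ^ (i : ℕ) * term D H V U x t p m ξ i = 0
  by_cases hd : ∀ i, side t i ∈ ξ
  · by_cases hl : ∃ b c, b ≠ c ∧ Conn (ξ \ Finset.univ.image (side t)) (nbr t b) (nbr t c)
    · obtain ⟨b, c, hbc, hl⟩ := hl
      exact Tri2_const (tripod_loop h hξ hd hbc hl)
    · exact tripod_three h hξ hd fun b c hbc a => hl ⟨b, c, hbc, a⟩
  · obtain ⟨i, hi⟩ := not_forall.1 hd
    have h1 := deg_le_two_of_not_mem hi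
    obtain ⟨k, hk⟩ := ((mem_Om.1 hξ).2 t).2 (Finset.mem_insert_self _ _)
    exact Tri2_const (tripod_one h hξ (by omega))

/-- the form used in the scaling limit: with a lift `μ` near `t` the complex flow is divergence
free (`obs_anchor`, `obs_swap`, `pos_lft_sub`) -/
theorem tripod_dv (h : Frame s R D H V U) (hne : U.Nonempty) (hx : HX V U x)
    (h1 : ∀ i, vtx t i ∉ bal 0 (s + 2)) (h2 : ∀ i, bal (vtx t i) 2 ⊆ D) {μ : Site → ℤ}
    (hμ : ∀ i, cob μ (side t i) = kap (side t i)) :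
    dv (fun e => obsE D H V U x e (μ (rgt e)) * (pos (lft e) - pos (rgt e))) t = 0 := by
  have r : ∀ i, RdOK D H V U t i ∧ RdOK D H V U (nbr t i) i ∧ side t i ∈ allowed D H := fun i => by
    have := rdOK_of_mem h (e := side t i) (by rw [rgt_side]; split_ifs <;> exact h1 _)
      (by rw [rgt_side]; split_ifs <;> exact h2 _)
    rw [up_side, dn_side, side_snd] at this
    split_ifs at this
    · exact this
    · exact ⟨this.2.1, this.1, this.2.2⟩
  have vt : ∀ i, vtx t i ∈ D \ bal 0 s := fun i => Finset.mem_sdiff.2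
    ⟨h2 i (mem_bal.2 (by simp)), fun a => h1 i (bal_mono 0 (by linarith) a)⟩
  have T := tripod (p := 0) (m := μ (vtx t 0))
    ⟨h, hne, hx, (r 0).1.1, fun i => (r i).2.1.1, vt⟩
  have an : ∀ i q, obs D H V U x t i q (μ (vtx t q)) = obs D H V U x t i 0 (μ (vtx t 0)) :=
    fun i q => by
      rw [← obs_anchor h (r i).1 (vt 0) (vt q), inc_of_cob fun j _ _ => hμ j, add_sub_cancel]
  have e : ∀ i, obsE D H V U x (side t i) (μ (rgt (side t i))) =
      obs D H V U x t i 0 (μ (vtx t 0)) := fun i => by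
    rw [obsE, up_side, rgt_side, side_snd]
    split_ifs
    · exact an i _
    · rw [← obs_swap h hx.1 (r i).2.1 (by rw [side_nbr]; exact (r i).2.2)
        (by rw [vtx_nbr1]; exact vt _), nbr_nbr]
      exact an i _
  have z : ∑ i, obsE D H V U x (side t i) (μ (rgt (side t i))) *
      (pos (lft (side t i)) - pos (rgt (side t i))) = 0 := by
    rw [← mul_zero ta, ← T, Finset.mul_sum]
    exact Finset.sum_congr rfl fun i _ => by rw [e, pos_lft_sub, side_snd]; ring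
  simp only [dv, z, neg_zero, ite_self]

end

end Pool.Agent.TAF.U
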