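import Pool.Agent.P.MP_cb4022_pr.U.Pot

/-! Limits along an ultrafilter; discrete holomorphic functions (paper E5). -/

open scoped Classical
open Metric Filter Topology

noncomputable section

namespace Pool.Agent.TAF.U

theorem exists_ulim (uf : Ultrafilter ℕ) {E : Type*} [NormedAddCommGroup E] [ProperSpace E]
    {f : ℕ → E} {M : ℝ} (h : ∀ᶠ n in uf, ‖f n‖ ≤ M) : ∃ a, Tendsto f uf (𝓝 a) := by
  obtain ⟨a, -, ha⟩ := (isCompact_closedBall (0 : E) M).ultrafilter_le_nhds (uf.map f)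
    (le_principal_iff.2 (h.mono fun n hn => mem_closedBall_zero_iff.2 hn))
  exact ⟨a, ha⟩

/-- diagonal choice: take `y n` with `f n (y n)` within `1 / s n` of the infimum -/
theorem diag {uf : Filter ℕ} {s : ℕ → ℝ} (hs : Tendsto s uf atTop) {Y : Type*} [Nonempty Y]
    {P : ℕ → Y → Prop} {f : ℕ → Y → ℝ} (h0 : ∀ n y, 0 ≤ f n y)
    (h : ∀ η, 0 < η → ∀ᶠ n in uf, ∃ y, P n y ∧ f n y ≤ η) :
    ∃ y : ℕ → Y, (∀ᶠ n in uf, P n (y n)) ∧ Tendsto (fun n => f n (y n)) uf (𝓝 0) := by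
  have h1 : ∀ n, ∃ y, (∃ y, P n y) →
      P n y ∧ ∀ y', P n y' → f n y < f n y' + (max (s n) 1)⁻¹ := by
    intro n
    by_cases hn : ∃ y, P n y
    · have hb : BddBelow (f n '' {y | P n y}) := ⟨0, by rintro _ ⟨y, -, rfl⟩; exact h0 n y⟩
      obtain ⟨_, ⟨y, hy, rfl⟩, hlt⟩ := exists_lt_of_csInf_lt
        (Set.Nonempty.image (s := {y | P n y}) (f n) hn)
        (lt_add_of_pos_right _ (show 0 < (max (s n) 1)⁻¹ by positivity))
      refine ⟨y, fun _ => ⟨hy, fun y' hy' => ?_⟩⟩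
      have := csInf_le hb ⟨y', hy', rfl⟩
      linarith
    · exact ⟨Classical.arbitrary Y, fun h' => absurd h' hn⟩
  choose y hy using h1
  have h2 : Tendsto (fun n => (max (s n) 1)⁻¹) uf (𝓝 0) :=
    (tendsto_atTop_mono (fun n => le_max_left _ _) hs).inv_tendsto_atTop
  refine ⟨y, (h 1 one_pos).mono fun n ⟨y', hy', _⟩ => (hy n ⟨y', hy'⟩).1, ?_⟩
  refine tendsto_order.2 ⟨fun a ha => Eventually.of_forall fun n => ha.trans_le (h0 _ _),
    fun a ha => ?_⟩
  filter_upwards [h (a / 2) (by linarith), (tendsto_order.1 h2).2 (a / 2) (by linarith)]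
    with n hn hn'
  obtain ⟨y', hy', hle⟩ := hn
  have := (hy n ⟨y', hy'⟩).2 y' hy'
  linarith

theorem ULim_lip {U : Set ℂ} (hU : IsOpen U) {z : ℂ} (hz : z ∈ U) (M : ℝ) :
    ∃ r, 0 < r ∧ ball z r ⊆ U ∧ ∀ F : ℂ → ℂ, DifferentiableOn ℂ F U → (∀ w ∈ U, ‖F w‖ ≤ M) →
      ∀ y ∈ ball z r, ‖F y - F z‖ ≤ |M| / r * ‖y - z‖ := by
  obtain ⟨ρ, hρ, hsub⟩ := Metric.isOpen_iff.1 hU z hz
  have hb : ball z (ρ / 2) ⊆ U := (ball_subset_ball (by linarith)).trans hsub
  refine ⟨ρ / 2, by linarith, hb, fun F hF hM y hy => ?_⟩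
  refine (convex_ball z (ρ / 2)).norm_image_sub_le_of_norm_deriv_le (𝕜 := ℂ)
    (fun w hw => hF.differentiableAt (hU.mem_nhds (hb hw))) (fun w hw => ?_)
    (mem_ball_self (by linarith)) hy
  have hc : closedBall w (ρ / 2) ⊆ U :=
    (closedBall_subset_ball' (by rw [mem_ball] at hw; linarith)).trans hsub
  exact Complex.norm_deriv_le_of_forall_mem_sphere_norm_le (by linarith)
    (hF.diffContOnCl_ball hc) fun u hu =>
      (hM u (hc (sphere_subset_closedBall hu))).trans (le_abs_self M)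

/-- Cauchy estimates give local equicontinuity, hence locally uniform convergence;
`TendstoLocallyUniformlyOn.differentiableOn`. -/
theorem ulim_holo (uf : Ultrafilter ℕ) {U : Set ℂ} (hU : IsOpen U) {f : ℕ → ℂ → ℂ} {M : ℝ}
    (h : ∀ᶠ n in uf, DifferentiableOn ℂ (f n) U ∧ ∀ z ∈ U, ‖f n z‖ ≤ M) :
    ∃ g : ℂ → ℂ, DifferentiableOn ℂ g U ∧ ∀ z ∈ U, ∀ w : ℕ → ℂ, Tendsto w uf (𝓝 z) →
      Tendsto (fun n => f n (w n)) uf (𝓝 (g z)) := by
  have h1 : ∀ z, ∃ a, z ∈ U → Tendsto (fun n => f n z) uf (𝓝 a) := by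
    intro z
    by_cases hz : z ∈ U
    · obtain ⟨a, ha⟩ := exists_ulim uf (f := fun n => f n z) (h.mono fun n hn => hn.2 z hz)
      exact ⟨a, fun _ => ha⟩
    · exact ⟨0, fun h' => absurd h' hz⟩
  choose g hg using h1
  have key : ∀ z ∈ U, ∀ ε > 0, ∃ t ∈ 𝓝 z, t ⊆ U ∧ ∀ᶠ n in uf, ∀ y ∈ t, ‖f n y - f n z‖ ≤ ε := by
    intro z hz ε hε
    obtain ⟨r, hr, hsub, hL⟩ := ULim_lip hU hz M
    have hM : 0 < |M| / r + 1 := by positivity
    refine ⟨ball z (min r (ε / (|M| / r + 1))), ball_mem_nhds z (by positivity),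
      (ball_subset_ball (min_le_left _ _)).trans hsub, h.mono fun n hn y hy => ?_⟩
    have h2 := hL (f n) hn.1 hn.2 y (ball_subset_ball (min_le_left _ _) hy)
    have h3 : ‖y - z‖ ≤ ε / (|M| / r + 1) := by
      rw [mem_ball, dist_eq_norm] at hy
      exact hy.le.trans (min_le_right _ _)
    rw [le_div_iff₀ hM] at h3
    nlinarith [norm_nonneg (y - z)]
  refine ⟨g, TendstoLocallyUniformlyOn.differentiableOn (F := f) (φ := (uf : Filter ℕ)) ?_
    (h.mono fun n hn => hn.1) hU, fun z hz w hw => ?_⟩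
  · refine Metric.tendstoLocallyUniformlyOn_iff.2 fun ε hε z hz => ?_
    obtain ⟨t, ht, hsub, hn⟩ := key z hz (ε / 3) (by linarith)
    refine ⟨t, mem_nhdsWithin_of_mem_nhds ht, ?_⟩
    have h2 : ∀ y ∈ t, ‖g y - g z‖ ≤ ε / 3 := fun y hy =>
      le_of_tendsto ((hg y (hsub hy)).sub (hg z hz)).norm (hn.mono fun n h' => h' y hy)
    filter_upwards [hn, Metric.tendsto_nhds.1 (hg z hz) (ε / 3) (by linarith)] with n a b y hy
    have h3 := dist_triangle4 (g y) (g z) (f n z) (f n y)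
    rw [dist_eq_norm (g y) (g z), dist_comm (g z), dist_comm (f n z) (f n y),
      dist_eq_norm (f n y)] at h3
    linarith [h2 y hy, a y hy]
  · refine Metric.tendsto_nhds.2 fun ε hε => ?_
    obtain ⟨t, ht, -, hn⟩ := key z hz (ε / 2) (by linarith)
    filter_upwards [hn, hw ht, Metric.tendsto_nhds.1 (hg z hz) (ε / 2) (by linarith)] with n a b c
    have h3 := dist_triangle (f n (w n)) (f n z) (g z)
    rw [dist_eq_norm (f n (w n)) (f n z)] at h3
    linarith [a (w n) b]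

theorem ULim_walk {Ψ : Site → ℂ} {a : Site} {R η : ℝ}
    (h : ∀ e, Inside e (bal a R) → ‖cob Ψ e‖ ≤ η) (n : ℕ) : ∀ b : Site,
      (b.1 - a.1).natAbs + (b.2 - a.2).natAbs = n → (n : ℝ) ≤ R →
        dst b a ≤ n ∧ ‖Ψ b - Ψ a‖ ≤ n * η := by
  induction n with
  | zero =>
    intro b hb _
    obtain rfl : b = a := Prod.ext (by omega) (by omega)
    simp [dst]
  | succ n ih =>
    intro b hb hR
    obtain ⟨b', hb', ad⟩ : ∃ b' : Site, (b'.1 - a.1).natAbs + (b'.2 - a.2).natAbs = n ∧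
        tri.Adj b b' := by
      rcases lt_trichotomy b.1 a.1 with h1 | h1 | h1
      · exact ⟨(b.1 + 1, b.2), by simp only; omega, by simp [tri, Prod.ext_iff]⟩
      · rcases lt_trichotomy b.2 a.2 with h2 | h2 | h2
        · exact ⟨(b.1, b.2 + 1), by simp only; omega, by simp [tri, Prod.ext_iff]⟩
        · omega
        · exact ⟨(b.1, b.2 - 1), by simp only; omega, by simp [tri, Prod.ext_iff]⟩
      · exact ⟨(b.1 - 1, b.2), by simp only; omega, by simp [tri, Prod.ext_iff]⟩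
    push_cast at hR ⊢
    obtain ⟨i1, i2⟩ := ih b' hb' (by linarith)
    have d1 := dst_tri b b' a
    rw [dst_adj ad] at d1
    have m1 : b ∈ (bal a R : Set Site) := mem_bal.2 (by linarith)
    have m2 : b' ∈ (bal a R : Set Site) := mem_bal.2 (by linarith)
    have h3 : ‖Ψ b - Ψ b'‖ ≤ η := by
      obtain ⟨e, ⟨e1, e2⟩ | ⟨e1, e2⟩⟩ := adj_iff.1 ad
      · have := h e ⟨e1 ▸ m1, e2 ▸ m2⟩
        rwa [cob, e1, e2] at this
      · have := h e ⟨e1 ▸ m2, e2 ▸ m1⟩
        rwa [cob, e1, e2, norm_sub_rev] at this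
    refine ⟨by linarith, ?_⟩
    have h4 := norm_sub_le_norm_sub_add_norm_sub (Ψ b) (Ψ b') (Ψ a)
    linarith

/-- walk along a row and then along a column -/
theorem pot_path {Ψ : Site → ℂ} {a b : Site} {r η : ℝ} (hη : 0 ≤ η) (hab : dst b a ≤ r)
    (h : ∀ e, Inside e (bal a (4 * r)) → ‖cob Ψ e‖ ≤ η) : ‖Ψ b - Ψ a‖ ≤ 4 * r * η := by
  have h0 := dst_nonneg b a
  have h1 := dst_sq b a
  have h2 : dst b a ^ 2 ≤ r ^ 2 := pow_le_pow_left₀ h0 hab 2
  push_cast at h1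
  have hx : |(b.1 : ℝ) - a.1| ≤ 2 * r :=
    abs_le_of_sq_le_sq (by nlinarith [sq_nonneg ((b.1 : ℝ) - a.1 + 2 * (b.2 - a.2))]) (by linarith)
  have hy : |(b.2 : ℝ) - a.2| ≤ 2 * r :=
    abs_le_of_sq_le_sq (by nlinarith [sq_nonneg ((b.2 : ℝ) - a.2 + 2 * (b.1 - a.1))]) (by linarith)
  have hn : (((b.1 - a.1).natAbs + (b.2 - a.2).natAbs : ℕ) : ℝ) ≤ 4 * r := by
    rw [Nat.cast_add, Nat.cast_natAbs, Nat.cast_natAbs]
    push_cast
    linarith
  exact (ULim_walk h _ b rfl hn).2.trans (mul_le_mul_of_nonneg_right hn hη)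

theorem ULim_prim (φ : Edge → ℂ) (c : Site) (R : ℝ) : ∃ F : Site → ℂ,
    (∀ t, AllIn t (bal c R) → dv φ t = 0) → ∀ e, Inside e (bal c R) → cob F e = φ e := by
  by_cases h : ∀ t, AllIn t (bal c R) → dv φ t = 0
  · obtain ⟨F, -, hF⟩ := col (fun e => if Inside e (bal c R) then φ e else 0)
      ((touchE (bal c R)).finite_toSet.subset fun e he => by
        refine mem_touchE.2 (Or.inl ?_)
        by_contra hn
        exact he (if_neg fun h' => hn h'.1)) (sconn_compl_bal c R) fun t ht => by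
      by_contra hn
      have hall : AllIn t (bal c R) := fun i => by
        by_contra hi
        exact hn ⟨i, hi⟩
      exact ht ((dv_congr fun i => if_pos (inside_side.2 ⟨hall _, hall _⟩)).trans (h t hall))
    refine ⟨F, fun _ e he => ?_⟩
    rw [hF e (not_touch_iff.2 (by rwa [compl_compl])), if_pos he]
  · exact ⟨0, fun h' => absurd h' h⟩

theorem ULim_near {uf : Filter ℕ} {s : ℕ → ℝ} (hs : Tendsto s uf atTop) {c y y' : ℕ → Site}
    {z z' : ℂ} (hy : Tendsto (fun n => (pos (y n) - pos (c n)) / s n) uf (𝓝 z))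
    (hy' : Tendsto (fun n => (pos (y' n) - pos (c n)) / s n) uf (𝓝 z')) {ρ : ℝ}
    (h : ‖z - z'‖ < ρ) : ∀ᶠ n in uf, dst (y n) (y' n) ≤ ρ * s n := by
  filter_upwards [hs.eventually_gt_atTop 0, (hy.sub hy').norm.eventually_lt_const h] with n h0 h1
  rw [← sub_div, sub_sub_sub_cancel_right, norm_div, Complex.norm_real,
    Real.norm_of_nonneg h0.le, div_lt_iff₀ h0] at h1
  exact h1.le

theorem ULim_rgt (x : Site) : rgt (x, 2) = x := by
  rw [rgt_eq]
  rfl

/-- E5. `col` over `ℂ` with `T` the complement of the ball gives primitives `F n` with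
`F n (c n) = 0`; the limit of `F n / s n` has complex derivative `f` (`pot_path` for
`F n - Q n e₀ * pos`), so `f` is holomorphic. -/
theorem dh (uf : Ultrafilter ℕ) {s : ℕ → ℝ} (hs : Tendsto s uf atTop) {c : ℕ → Site} {δ : ℝ}
    (hδ : 0 < δ) {Q : ℕ → Edge → ℂ} (hb : ∀ n e, ‖Q n e‖ ≤ 1)
    (hd : ∀ᶠ n in uf, ∀ t, AllIn t (bal (c n) (δ * s n)) →
      dv (fun e => Q n e * (pos (lft e) - pos (rgt e))) t = 0)
    (he : ∀ η, 0 < η → ∃ b, 0 < b ∧ ∀ᶠ n in uf, ∀ e e', rgt e ∈ bal (c n) (δ * s n) →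
      rgt e' ∈ bal (c n) (δ * s n) → dst (rgt e) (rgt e') ≤ b * s n → ‖Q n e - Q n e'‖ ≤ η) :
    ∃ f : ℂ → ℂ, DifferentiableOn ℂ f (ball 0 (δ / 8)) ∧ ∀ z ∈ ball (0 : ℂ) (δ / 8),
      ∀ e : ℕ → Edge, Tendsto (fun n => (pos (rgt (e n)) - pos (c n)) / s n) uf (𝓝 z) →
        Tendsto (fun n => Q n (e n)) uf (𝓝 (f z)) := by
  have hs0 : ∀ᶠ n in uf, 0 < s n := hs.eventually_gt_atTop 0
  choose F hF using fun n => ULim_prim (fun e => Q n e * (pos (lft e) - pos (rgt e))) (c n)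
    (δ * s n)
  choose x hx using fun (n : ℕ) (z : ℂ) => exists_near (pos (c n) + s n * z)
  have hc : Tendsto (fun n => (pos (c n) - pos (c n)) / s n) uf (𝓝 0) := by simp
  have hu : ∀ z, Tendsto (fun n => (pos (x n z) - pos (c n)) / s n) uf (𝓝 z) := by
    intro z
    rw [tendsto_iff_norm_sub_tendsto_zero]
    refine squeeze_zero' (Eventually.of_forall fun _ => norm_nonneg _) (hs0.mono fun n hn => ?_)
      (hs.const_div_atTop (2 / 3))
    have h0 : (s n : ℂ) ≠ 0 := by exact_mod_cast hn.ne'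
    have e : (pos (x n z) - pos (c n)) / s n - z = (pos (x n z) - (pos (c n) + s n * z)) / s n := by
      field_simp
      ring
    rw [e, norm_div, Complex.norm_real, Real.norm_of_nonneg hn.le]
    exact div_le_div_of_nonneg_right (hx n z) hn.le
  have hin : ∀ {y : ℕ → Site} {z : ℂ}, z ∈ ball (0 : ℂ) (δ / 8) →
      Tendsto (fun n => (pos (y n) - pos (c n)) / s n) uf (𝓝 z) →
      ∀ᶠ n in uf, dst (y n) (c n) ≤ δ / 4 * s n := fun hz hy =>
    ULim_near hs hy hc (by rw [mem_ball_zero_iff] at hz; rw [sub_zero]; linarith)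
  have hl : ∀ e, ‖pos (lft e) - pos (rgt e)‖ = 1 := fun e => dst_adj (adj_lft_rgt e)
  choose f hf using fun z : ℂ => exists_ulim uf (f := fun n => Q n (x n z, 2))
    (Eventually.of_forall fun n => hb n _)
  have hG : ∀ z : ℂ, ∃ a, z ∈ ball (0 : ℂ) (δ / 8) →
      Tendsto (fun n => (F n (x n z) - F n (c n)) / s n) uf (𝓝 a) := by
    intro z
    by_cases hz : z ∈ ball (0 : ℂ) (δ / 8)
    · obtain ⟨a, ha⟩ := exists_ulim uf (f := fun n => (F n (x n z) - F n (c n)) / s n) (M := δ) (by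
        filter_upwards [hs0, hd, hin hz (hu z)] with n h0 h1 h2
        have h3 := pot_path (Ψ := F n) zero_le_one h2 fun e h4 => by
          rw [show 4 * (δ / 4 * s n) = δ * s n by ring] at h4
          rw [hF n h1 e h4, norm_mul, hl, mul_one]
          exact hb n e
        rw [norm_div, Complex.norm_real, Real.norm_of_nonneg h0.le, div_le_iff₀ h0]
        linarith)
      exact ⟨a, fun _ => ha⟩
    · exact ⟨0, fun h' => absurd h' hz⟩
  choose G hG using hG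
  have hD : ∀ z₀ ∈ ball (0 : ℂ) (δ / 8), HasDerivAt G (f z₀) z₀ := by
    intro z₀ hz₀
    rw [hasDerivAt_iff_isLittleO, Asymptotics.isLittleO_iff]
    intro ε hε
    obtain ⟨b, hb0, hbe⟩ := he (ε / 8) (by linarith)
    filter_upwards [isOpen_ball.mem_nhds hz₀, ball_mem_nhds z₀ (show 0 < b / 8 by linarith),
      ball_mem_nhds z₀ (show 0 < δ / 16 by linarith)] with z hz h1 h2
    rw [mem_ball, dist_eq_norm] at h1 h2
    rcases eq_or_ne z z₀ with rfl | hne
    · simp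
    have hpos : 0 < ‖z - z₀‖ := norm_pos_iff.2 (sub_ne_zero.2 hne)
    have hlim := (((hG z hz).sub (hG z₀ hz₀)).sub (((hu z).sub (hu z₀)).mul (hf z₀))).norm
    rw [smul_eq_mul]
    refine le_of_tendsto hlim ?_
    filter_upwards [hs0, hd, hbe, hin hz₀ (hu z₀),
      ULim_near hs (hu z) (hu z₀) (show ‖z - z₀‖ < 2 * ‖z - z₀‖ by linarith)] with n h0 h3 h4 h5 h6
    have hsub : ∀ y, y ∈ (bal (x n z₀) (4 * (2 * ‖z - z₀‖ * s n)) : Set Site) →
        y ∈ bal (c n) (δ * s n) ∧ dst y (x n z₀) ≤ b * s n := by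
      intro y hy
      have hy' := mem_bal.1 hy
      have := dst_tri y (x n z₀) (c n)
      exact ⟨mem_bal.2 (by nlinarith), by nlinarith⟩
    have h7 := pot_path (Ψ := fun y => F n y - pos y * Q n (x n z₀, 2))
      (show 0 ≤ ε / 8 by linarith) h6 fun e h8 => by
        have e1 : cob (fun y => F n y - pos y * Q n (x n z₀, 2)) e =
            (Q n e - Q n (x n z₀, 2)) * (pos (lft e) - pos (rgt e)) := by
          have := hF n h3 e ⟨(hsub _ h8.1).1, (hsub _ h8.2).1⟩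
          simp only [cob] at this ⊢
          linear_combination this
        rw [e1, norm_mul, hl, mul_one]
        exact h4 e _ (hsub _ h8.2).1 (mem_bal.2 (by rw [ULim_rgt]; nlinarith)) (hsub _ h8.2).2
    have h0' : (s n : ℂ) ≠ 0 := by exact_mod_cast h0.ne'
    have e2 : (F n (x n z) - F n (c n)) / s n - (F n (x n z₀) - F n (c n)) / s n -
        ((pos (x n z) - pos (c n)) / s n - (pos (x n z₀) - pos (c n)) / s n) * Q n (x n z₀, 2) =
        (F n (x n z) - pos (x n z) * Q n (x n z₀, 2) -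
          (F n (x n z₀) - pos (x n z₀) * Q n (x n z₀, 2))) / s n := by
      field_simp
      ring
    rw [e2, norm_div, Complex.norm_real, Real.norm_of_nonneg h0.le, div_le_iff₀ h0]
    linarith
  have hGd : DifferentiableOn ℂ G (ball 0 (δ / 8)) := fun z hz =>
    (hD z hz).differentiableAt.differentiableWithinAt
  refine ⟨f, (hGd.deriv isOpen_ball).congr fun z hz => (hD z hz).deriv.symm, fun z hz e hez => ?_⟩
  refine (hf z).congr_dist (Metric.tendsto_nhds.2 fun ε hε => ?_)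
  obtain ⟨b, hb0, hbe⟩ := he (ε / 2) (by linarith)
  filter_upwards [hs0, hbe, hin hz (hu z), hin hz hez,
    ULim_near hs (hu z) hez (show ‖z - z‖ < b by simpa using hb0)] with n h0 h1 h2 h3 h4
  have h5 := h1 (x n z, 2) (e n) (mem_bal.2 (by rw [ULim_rgt]; nlinarith))
    (mem_bal.2 (by nlinarith)) h4
  rw [dist_zero_right, Real.norm_of_nonneg dist_nonneg, dist_eq_norm]
  linarith

/-- from single ratios to a range of ratios: use the ratios `lam₀ * 2 ^ i` -/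
theorem dyadic_unif {lam₀ : ℝ} (h0 : 0 < lam₀) {Q : ℝ → ℝ → Prop}
    (h : ∀ lam, lam₀ ≤ lam → ∃ s₀, ∀ s, s₀ ≤ s → Q lam s) (Lam : ℝ) :
    ∃ s₀, ∀ s, s₀ ≤ s → ∀ lam, lam₀ ≤ lam → lam ≤ Lam →
      ∃ l, lam₀ ≤ l ∧ l ≤ lam ∧ lam ≤ 2 * l ∧ Q l s := by
  choose s₁ hs₁ using fun i : ℕ => h (lam₀ * 2 ^ i)
    (le_mul_of_one_le_right h0.le (one_le_pow₀ one_le_two))
  obtain ⟨N, hN⟩ := pow_unbounded_of_one_lt (Lam / lam₀) (one_lt_two (α := ℝ))
  obtain ⟨s₀, hs₀⟩ := ((Set.finite_Iio N).image s₁).bddAbove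
  refine ⟨s₀, fun s hs lam h1 h2 => ?_⟩
  obtain ⟨i, a, b⟩ := exists_nat_pow_near ((one_le_div h0).2 h1) (one_lt_two (α := ℝ))
  have hi : i < N := (pow_lt_pow_iff_right₀ (one_lt_two (α := ℝ))).1
    (a.trans_lt ((div_le_div_of_nonneg_right h2 h0.le).trans_lt hN))
  rw [le_div_iff₀ h0] at a
  rw [div_lt_iff₀ h0, pow_succ] at b
  exact ⟨lam₀ * 2 ^ i, le_mul_of_one_le_right h0.le (one_le_pow₀ one_le_two), by linarith,
    by linarith, hs₁ i s ((hs₀ ⟨i, hi, rfl⟩).trans hs)⟩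

end Pool.Agent.TAF.U
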