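import Pool.Agent.P.MP_cb4022_pr.U.BClose
import Pool.Agent.P.MP_cb4022_pr.U.Tri2
import Pool.Agent.P.MP_cb4022_pr.U.ULim
import Pool.Agent.P.MP_cb4022_pr.U.RH2

/-! The limit of the observables in the bulk (paper E7 a, b, c). -/

open scoped Classical symmDiff
open Metric Filter Topology

noncomputable section

namespace Pool.Agent.TAF.U

/-- a sequence of domains; `exp (- T)` is the limit of `3 s ψ' 0` -/
structure SeqD (uf : Ultrafilter ℕ) (lam Lam T : ℝ) (s : ℕ → ℝ) (D : ℕ → Finset Site)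
    (ψ φ G : ℕ → ℂ → ℂ) : Prop where
  big : 10000 ≤ lam
  hs : Tendsto s uf atTop
  cd : ∀ n, CD lam Lam (s n) (D n) (ψ n) (φ n) (G n)
  hT : Tendsto (fun n => -(Real.log (3 * s n) + (G n 0).re)) uf (𝓝 T)

/-- lifted sites whose conformal coordinate tends to `z` -/
def Adm (uf : Ultrafilter ℕ) (D : ℕ → Finset Site) (ψ G : ℕ → ℂ → ℂ) (x : ℕ → Site) (l : ℕ → ℤ)
    (z : ℂ) : Prop :=
  (∀ᶠ n in uf, x n ∈ D n ∧ x n ≠ 0) ∧ Tendsto (fun n => zt (ψ n) (G n) (x n) (l n)) uf (𝓝 z)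

def IsLim (uf : Ultrafilter ℕ) (T : ℝ) (D : ℕ → Finset Site) (ψ G : ℕ → ℂ → ℂ)
    (P : ℕ → Edge → ℤ → ℂ) (p : ℂ → ℂ) : Prop :=
  ∀ z ∈ strip T, ∀ (e : ℕ → Edge) (l : ℕ → ℤ), Adm uf D ψ G (fun n => rgt (e n)) l z →
    Tendsto (fun n => P n (e n) (l n)) uf (𝓝 (p z))

/-- the edges on which the observables are controlled -/
def Band (s : ℝ) (e : Edge) : Prop := 2 * s ≤ ‖pos (rgt e)‖ ∧ ‖pos (rgt e)‖ ≤ 4 * s

theorem rgt_two (x : Site) : rgt (x, 2) = x := rfl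

theorem Lim1_rgt (e : Edge) : rgt (gE e) = gS (rgt e) := rotA.rgt_fE e

theorem Lim1_norm (x : Site) : ‖pos (gS x)‖ = ‖pos x‖ := by
  rw [pos_gS, norm_mul, norm_ta, one_mul]

theorem Band.rot {s : ℝ} {e : Edge} (h : Band s e) : Band s (gE e) := by
  unfold Band at h ⊢
  rw [Lim1_rgt, Lim1_norm]
  exact h

theorem Lim1_out {lam Lam s : ℝ} {D : Finset Site} {ψ φ G : ℂ → ℂ} (h : CD lam Lam s D ψ φ G)
    (hs : 1 ≤ s) : OmD D ⊆ ball 0 ((|Lam| + 1) * s) := by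
  refine (OmD_sub_ball h.out).trans (ball_subset_ball ?_)
  nlinarith [le_abs_self Lam]

theorem Lim1_rho {lam Lam s : ℝ} {D : Finset Site} {ψ φ G : ℂ → ℂ} (h : CD lam Lam s D ψ φ G)
    (hl : 10000 ≤ lam) (hs : 1 ≤ s) : 3 * s * Real.exp (G 0).re ≤ 4 / lam ∧
      1 ≤ (|Lam| + 1) * s * Real.exp (G 0).re := by
  have h4 : 4 ≤ lam * s := by nlinarith
  have h1 := h.cm.rho_le (ball_sub_OmD h.inn) (by linarith)
  have h2 := h.cm.rho_ge (Lim1_out h hs)
  have h3 := Real.exp_pos (G 0).re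
  refine ⟨?_, h2⟩
  rw [le_div_iff₀ (by linarith)]
  nlinarith

/-- `CM.rho_le`, `CM.rho_ge` -/
theorem exists_seqD (uf : Ultrafilter ℕ) {lam Lam : ℝ} (hl : 10000 ≤ lam) {s : ℕ → ℝ}
    (hs : Tendsto s uf atTop) {D : ℕ → Finset Site} {ψ φ G : ℕ → ℂ → ℂ}
    (h : ∀ n, CD lam Lam (s n) (D n) (ψ n) (φ n) (G n)) : ∃ T, SeqD uf lam Lam T s D ψ φ G := by
  have hb : ∀ᶠ n in uf, ‖-(Real.log (3 * s n) + (G n 0).re)‖ ≤ |Lam| + 1 := by
    filter_upwards [hs.eventually_ge_atTop 1] with n hn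
    obtain ⟨h1, h2⟩ := Lim1_rho (h n) hl hn
    have h3 := Real.exp_pos (G n 0).re
    have h4 : Real.log (3 * s n) + (G n 0).re = Real.log (3 * s n * Real.exp (G n 0).re) := by
      rw [Real.log_mul (by positivity) h3.ne', Real.log_exp]
    have h5 : 0 < 3 * s n * Real.exp (G n 0).re := by positivity
    have h6 : 4 / lam ≤ 1 := by rw [div_le_one (by linarith)]; linarith
    have h7 := Real.log_nonpos h5.le (h1.trans h6)
    have h8 := Real.one_sub_inv_le_log_of_pos h5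
    have h9 : (3 * s n * Real.exp (G n 0).re)⁻¹ ≤ |Lam| + 1 := by
      rw [inv_le_iff_one_le_mul₀ h5]
      nlinarith [abs_nonneg Lam]
    rw [norm_neg, h4, Real.norm_eq_abs, abs_le]
    constructor <;> linarith [abs_nonneg Lam]
  obtain ⟨T, hT⟩ := exists_ulim uf hb
  exact ⟨T, hl, hs, h, hT⟩

namespace SeqD
variable {uf : Ultrafilter ℕ} {lam Lam T : ℝ} {s : ℕ → ℝ} {D : ℕ → Finset Site}
  {ψ φ G : ℕ → ℂ → ℂ}

theorem Lim1_tend (h : SeqD uf lam Lam T s D ψ φ G) :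
    Tendsto (fun n => 3 * s n * Real.exp (G n 0).re) uf (𝓝 (Real.exp (-T))) := by
  refine ((Real.continuous_exp.tendsto _).comp h.hT.neg).congr' ?_
  filter_upwards [h.hs.eventually_ge_atTop 1] with n hn
  simp only [Function.comp, neg_neg]
  rw [Real.exp_add, Real.exp_log (by positivity)]

theorem exp_le (h : SeqD uf lam Lam T s D ψ φ G) : Real.exp (-T) ≤ 4 / lam := by
  refine le_of_tendsto h.Lim1_tend ?_
  filter_upwards [h.hs.eventually_ge_atTop 1] with n hn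
  exact (Lim1_rho (h.cd n) h.big hn).1

theorem two_le (h : SeqD uf lam Lam T s D ψ φ G) : 2 ≤ T := by
  by_contra hT
  have h1 := h.exp_le
  have h2 : 4 / lam ≤ 4 / 10000 := div_le_div_of_nonneg_left (by norm_num) (by norm_num) h.big
  have h3 : Real.exp (-2) ≤ Real.exp (-T) := Real.exp_le_exp.2 (by linarith)
  have h4 : Real.exp (-2) = (Real.exp (-(1 / 2))) ^ 4 := by
    rw [← Real.exp_nat_mul]; norm_num
  have h5 : (1 / 2 : ℝ) ≤ Real.exp (-(1 / 2)) := by linarith [Real.add_one_le_exp (-(1 / 2))]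
  have h6 : (1 / 2 : ℝ) ^ 4 ≤ (Real.exp (-(1 / 2))) ^ 4 := pow_le_pow_left₀ (by norm_num) h5 4
  norm_num at h6 h4
  linarith

/-- `cd_exists_site`, `diag` -/
theorem exists_adm (h : SeqD uf lam Lam T s D ψ φ G) {z : ℂ} (hz : 0 < z.im) :
    ∃ (e : ℕ → Edge) (l : ℕ → ℤ), Adm uf D ψ G (fun n => rgt (e n)) l z := by
  obtain ⟨y, h1, h2⟩ := diag (Y := Site × ℤ) h.hs (P := fun n y => y.1 ∈ D n ∧ y.1 ≠ 0)
    (f := fun n y => ‖zt (ψ n) (G n) y.1 y.2 - z‖) (fun _ _ => norm_nonneg _) fun η hη => by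
      obtain ⟨s₀, hs₀⟩ := cd_exists_site Lam hη z.im
      filter_upwards [h.hs.eventually_ge_atTop s₀] with n hn
      obtain ⟨x, hx, h0, l, hl⟩ := hs₀ lam (s n) (D n) (ψ n) (φ n) (G n) (by linarith [h.big]) hn
        (h.cd n) z hz le_rfl
      exact ⟨(x, l), ⟨hx, h0⟩, hl⟩
  exact ⟨fun n => ((y n).1, 2), fun n => (y n).2, h1, tendsto_iff_norm_sub_tendsto_zero.2 h2⟩

theorem adm_psi (h : SeqD uf lam Lam T s D ψ φ G) {x : ℕ → Site} {l : ℕ → ℤ} {z : ℂ}
    (ha : Adm uf D ψ G x l z) :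
    Tendsto (fun n => ψ n (pos (x n))) uf (𝓝 (Complex.exp (z * Complex.I))) := by
  refine ((Complex.continuous_exp.tendsto _).comp (ha.2.mul_const Complex.I)).congr' ?_
  filter_upwards [ha.1] with n hn
  exact exp_zt (h.cd n).cm hn.1 hn.2 (l n)

theorem adm_of_psi (h : SeqD uf lam Lam T s D ψ φ G) {x : ℕ → Site} {z : ℂ}
    (hx : ∀ᶠ n in uf, x n ∈ D n)
    (ha : Tendsto (fun n => ψ n (pos (x n))) uf (𝓝 (Complex.exp (z * Complex.I)))) :
    ∃ l, Adm uf D ψ G x l z := by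
  have h0 : ∀ᶠ n in uf, x n ∈ D n ∧ x n ≠ 0 := by
    filter_upwards [hx, ha.eventually_ne (Complex.exp_ne_zero _)] with n h1 h2
    refine ⟨h1, fun e => h2 ?_⟩
    rw [e, pos_zero, (h.cd n).cm.psi_zero]
  obtain ⟨l, -, h2⟩ := diag (Y := ℤ) h.hs (P := fun _ _ => True)
    (f := fun n l => ‖zt (ψ n) (G n) (x n) l - z‖) (fun _ _ => norm_nonneg _) fun η hη => by
      have h3 : 0 < min (η / 2) (1 / 2) * ‖Complex.exp (z * Complex.I)‖ :=
        mul_pos (lt_min (by linarith) (by norm_num)) (norm_pos_iff.2 (Complex.exp_ne_zero _))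
      filter_upwards [h0, (tendsto_iff_norm_sub_tendsto_zero.1 ha).eventually_le_const h3]
        with n h1 h4
      obtain ⟨l, hl⟩ := exists_sheet (h.cd n).cm h1.1 h1.2 (min_le_right _ _) h4
      exact ⟨l, trivial, hl.trans (by linarith [min_le_left (η / 2) (1 / 2)])⟩
  exact ⟨l, h0, tendsto_iff_norm_sub_tendsto_zero.2 h2⟩

theorem Lim1_norm_psi (h : SeqD uf lam Lam T s D ψ φ G) {x : ℕ → Site} {l : ℕ → ℤ} {z : ℂ}
    (ha : Adm uf D ψ G x l z) :
    Tendsto (fun n => ‖ψ n (pos (x n))‖) uf (𝓝 (Real.exp (-z.im))) := by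
  have := (h.adm_psi ha).norm
  rwa [Complex.norm_exp, Complex.mul_I_re] at this

/-- (c): `CM.band_ge`, `CM.band_le` -/
theorem adm_far (h : SeqD uf lam Lam T s D ψ φ G) {x : ℕ → Site} {l : ℕ → ℤ} {z : ℂ}
    (ha : Adm uf D ψ G x l z) (hz : z.im < T + 0.2) : ∀ᶠ n in uf, 2 * s n ≤ ‖pos (x n)‖ := by
  have h1 : 2.3 / 3 * Real.exp (-T) < Real.exp (-z.im) := by
    have h2 : Real.exp (-T) * Real.exp (-0.2) < Real.exp (-z.im) := by
      rw [← Real.exp_add]; exact Real.exp_lt_exp.2 (by linarith)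
    nlinarith [Real.add_one_le_exp (-0.2), Real.exp_pos (-T)]
  filter_upwards [h.hs.eventually_ge_atTop 1, ha.1,
    (h.Lim1_tend.const_mul (2.3 / 3)).eventually_lt (h.Lim1_norm_psi ha) h1] with n hn h2 h3
  have := (h.cd n).cm.band_ge (ball_sub_OmD (h.cd n).inn) (Lim1_out (h.cd n) hn) (s := s n)
    (by linarith) (by nlinarith [h.big]) (pos_mem_OmD.2 h2.1) (by linarith)
  linarith

theorem adm_near (h : SeqD uf lam Lam T s D ψ φ G) {x : ℕ → Site} {l : ℕ → ℤ} {z : ℂ}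
    (ha : Adm uf D ψ G x l z) (hz : T - 0.2 < z.im) : ∀ᶠ n in uf, ‖pos (x n)‖ ≤ 4 * s n := by
  have h1 : Real.exp (-z.im) < 3.8 / 3 * Real.exp (-T) := by
    have h2 : Real.exp (-z.im) * Real.exp (-0.2) < Real.exp (-T) := by
      rw [← Real.exp_add]; exact Real.exp_lt_exp.2 (by linarith)
    nlinarith [Real.add_one_le_exp (-0.2), Real.exp_pos (-T), Real.exp_pos (-z.im)]
  filter_upwards [h.hs.eventually_ge_atTop 1, ha.1,
    (h.Lim1_norm_psi ha).eventually_lt (h.Lim1_tend.const_mul (3.8 / 3)) h1] with n hn h2 h3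
  have := (h.cd n).cm.band_le (ball_sub_OmD (h.cd n).inn) (Lim1_out (h.cd n) hn) (s := s n)
    (by linarith) (by nlinarith [h.big]) (pos_mem_OmD.2 h2.1) (by linarith)
  linarith

theorem lim_bound (h : SeqD uf lam Lam T s D ψ φ G) {P : ℕ → Edge → ℤ → ℂ} {p : ℂ → ℂ}
    (hp : IsLim uf T D ψ G P p) {m : ℝ} (hm : ∀ n e l, ‖P n e l‖ ≤ m) {z : ℂ} (hz : z ∈ strip T) :
    ‖p z‖ ≤ m := by
  obtain ⟨e, l, ha⟩ := h.exists_adm hz.1
  exact le_of_tendsto' (hp z hz e l ha).norm fun n => hm n _ _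

theorem lim_band (h : SeqD uf lam Lam T s D ψ φ G) {P : ℕ → Edge → ℤ → ℂ} {p : ℂ → ℂ}
    (hp : IsLim uf T D ψ G P p) {m : ℝ} (hm : ∀ n e l, Band (s n) e → ‖P n e l‖ ≤ m) {z : ℂ}
    (hz : |z.im - T| < 0.2) : ‖p z‖ ≤ m := by
  rw [abs_lt] at hz
  have h1 : z ∈ strip T := ⟨by linarith [h.two_le], by linarith⟩
  obtain ⟨e, l, ha⟩ := h.exists_adm h1.1
  refine le_of_tendsto (hp z h1 e l ha).norm ?_
  filter_upwards [h.adm_far ha h1.2, h.adm_near ha (by linarith)] with n h2 h3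
  exact hm n _ _ ⟨h2, h3⟩

theorem lim_per (h : SeqD uf lam Lam T s D ψ φ G) {P : ℕ → Edge → ℤ → ℂ} {p : ℂ → ℂ}
    (hp : IsLim uf T D ψ G P p) {c : ℂ} (hm : ∀ n e l, P n e (l + 1) = c * P n e l) {z : ℂ}
    (hz : z ∈ strip T) : p (z + 2 * Real.pi) = c * p z := by
  obtain ⟨e, l, ha⟩ := h.exists_adm hz.1
  have h1 : z + 2 * Real.pi ∈ strip T := by
    have : (z + 2 * Real.pi).im = z.im := by simp
    exact ⟨this ▸ hz.1, this ▸ hz.2⟩
  have h2 : Adm uf D ψ G (fun n => rgt (e n)) (fun n => l n + 1) (z + 2 * Real.pi) := by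
    refine ⟨ha.1, (ha.2.add_const _).congr fun n => ?_⟩
    rw [zt_add]; simp
  refine tendsto_nhds_unique (hp _ h1 e _ h2) ?_
  exact ((hp z hz e l ha).const_mul c).congr fun n => (hm n _ _).symm

/-- the limit does not depend on the admissible sequence -/
theorem Lim1_indep (h : SeqD uf lam Lam T s D ψ φ G) {H : ℕ → Finset Site} {V U : ℕ → Finset Tri}
    {x : ℂ} (hf : ∀ n, Frame (s n) (lam * s n) (D n) (H n) (V n) (U n) ∧ (U n).Nonempty ∧
      HX (V n) (U n) x) {z : ℂ} (hz : z ∈ strip T) {e e' : ℕ → Edge} {l l' : ℕ → ℤ}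
    (ha : Adm uf D ψ G (fun n => rgt (e n)) l z) (ha' : Adm uf D ψ G (fun n => rgt (e' n)) l' z) :
    Tendsto (fun n => obsE (D n) (H n) (V n) (U n) x (e n) (l n) -
      obsE (D n) (H n) (V n) (U n) x (e' n) (l' n)) uf (𝓝 0) := by
  rw [NormedAddGroup.tendsto_nhds_zero]
  intro q hq
  have h0 : 0 < z.im := hz.1
  obtain ⟨b, s₀, hb, hc⟩ := bulk_close Lam (a := z.im / 2) (q := q / 2) (by linarith) (by linarith)
  have h1 : Tendsto (fun n => (zt (ψ n) (G n) (rgt (e n)) (l n)).im) uf (𝓝 z.im) :=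
    (Complex.continuous_im.tendsto _).comp ha.2
  have h2 := (ha.2.sub ha'.2).norm
  rw [sub_self, norm_zero] at h2
  filter_upwards [h.hs.eventually_ge_atTop s₀, ha.1, ha'.1, h.adm_far ha hz.2,
    h1.eventually_const_le (show z.im / 2 < z.im by linarith), h2.eventually_le_const hb]
    with n h3 h4 h5 h6 h7 h8
  have := hc lam (s n) (lam * s n) (D n) (ψ n) (φ n) (G n) (by linarith [h.big]) h3 (h.cd n)
    (H n) (V n) (U n) x (hf n).1 (hf n).2.1 (hf n).2.2.1 (e n) (e' n) (l n) (l' n) h4.1 h5.1 h5.2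
    h6 h7 h8
  linarith

theorem Lim1_exists (h : SeqD uf lam Lam T s D ψ φ G) {H : ℕ → Finset Site}
    {V U : ℕ → Finset Tri} {x : ℂ}
    (hf : ∀ n, Frame (s n) (lam * s n) (D n) (H n) (V n) (U n) ∧ (U n).Nonempty ∧
      HX (V n) (U n) x) :
    ∃ p : ℂ → ℂ, IsLim uf T D ψ G (fun n => obsE (D n) (H n) (V n) (U n) x) p := by
  have h1 : ∀ z : ℂ, ∃ a : ℂ, z ∈ strip T → ∀ (e : ℕ → Edge) (l : ℕ → ℤ),
      Adm uf D ψ G (fun n => rgt (e n)) l z →
        Tendsto (fun n => obsE (D n) (H n) (V n) (U n) x (e n) (l n)) uf (𝓝 a) := by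
    intro z
    by_cases hz : z ∈ strip T
    · obtain ⟨e', l', ha'⟩ := h.exists_adm hz.1
      obtain ⟨a, h2⟩ := exists_ulim uf (M := 1)
        (f := fun n => obsE (D n) (H n) (V n) (U n) x (e' n) (l' n))
        (Eventually.of_forall fun n => norm_obs_le (hf n).2.2.1)
      refine ⟨a, fun _ e l ha => ?_⟩
      simpa using (h.Lim1_indep hf hz ha ha').add h2
    · exact ⟨0, fun h => absurd h hz⟩
  choose p hp using h1
  exact ⟨p, hp⟩

/-- the rescaled inverse conformal maps converge -/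
theorem Lim1_phi (h : SeqD uf lam Lam T s D ψ φ G) : ∃ Φ : ℂ → ℂ,
    DifferentiableOn ℂ Φ (ball 0 1) ∧ ∀ (x : ℕ → Site) (l : ℕ → ℤ) (z : ℂ), 0 < z.im →
      Adm uf D ψ G x l z →
        Tendsto (fun n => pos (x n) / s n) uf (𝓝 (Φ (Complex.exp (z * Complex.I)))) := by
  obtain ⟨Φ, h1, h2⟩ := ulim_holo uf (U := ball 0 1) isOpen_ball
    (f := fun n w => φ n w / s n) (M := |Lam| + 1) (by
      filter_upwards [h.hs.eventually_ge_atTop 1] with n hn
      refine ⟨(h.cd n).cm.dφ.div_const _, fun w hw => ?_⟩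
      have h3 := Lim1_out (h.cd n) hn ((h.cd n).cm.mφ hw)
      rw [mem_ball_zero_iff] at h3
      rw [norm_div, Complex.norm_real, Real.norm_eq_abs, abs_of_pos (by linarith),
        div_le_iff₀ (by linarith)]
      exact h3.le)
  refine ⟨Φ, h1, fun x l z hz ha => ?_⟩
  have h3 : Complex.exp (z * Complex.I) ∈ ball (0 : ℂ) 1 := by
    rw [mem_ball_zero_iff, Complex.norm_exp, Complex.mul_I_re]
    exact Real.exp_lt_one_iff.2 (by linarith)
  refine (h2 _ h3 _ (h.adm_psi ha)).congr' ?_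
  filter_upwards [ha.1] with n hn
  rw [(h.cd n).cm.inv1 _ (pos_mem_OmD.2 hn.1)]

/-- balls with lifts round the centres -/
theorem Lim1_ball (h : SeqD uf lam Lam T s D ψ φ G) {z : ℂ} (hz : z ∈ strip T) {c : ℕ → Site}
    {l : ℕ → ℤ} (ha : Adm uf D ψ G c l z) : ∃ δ : ℝ, 0 < δ ∧ ∃ μ : ℕ → Site → ℤ, ∀ᶠ n in uf,
      bal (c n) (δ * s n) ⊆ D n \ bal 0 (3 / 2 * s n) ∧
        (∀ e, Inside e (bal (c n) (δ * s n)) → cob (μ n) e = kap e) ∧
        ∀ y ∈ bal (c n) (δ * s n),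
          ‖zt (ψ n) (G n) y (μ n y) - zt (ψ n) (G n) (c n) (l n)‖ ≤ 1 := by
  have h0 : 0 < z.im := hz.1
  obtain ⟨δ, s₀, hδ, hc⟩ := cd_bulk Lam (a := z.im / 2) (η := 1) (by linarith) one_pos
  have h1 : Tendsto (fun n => (zt (ψ n) (G n) (c n) (l n)).im) uf (𝓝 z.im) :=
    (Complex.continuous_im.tendsto _).comp ha.2
  refine ⟨δ, hδ, Filter.Eventually.choice (l := (uf : Filter ℕ)) (r := fun n (μ : Site → ℤ) =>
    bal (c n) (δ * s n) ⊆ D n \ bal 0 (3 / 2 * s n) ∧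
      (∀ e, Inside e (bal (c n) (δ * s n)) → cob μ e = kap e) ∧ ∀ y ∈ bal (c n) (δ * s n),
        ‖zt (ψ n) (G n) y (μ y) - zt (ψ n) (G n) (c n) (l n)‖ ≤ 1) ?_⟩
  filter_upwards [h.hs.eventually_ge_atTop s₀, ha.1, h.adm_far ha hz.2,
    h1.eventually_const_le (show z.im / 2 < z.im by linarith)] with n h3 h4 h5 h6
  obtain ⟨h7, μ, -, h8, h9⟩ := hc lam (s n) (D n) (ψ n) (φ n) (G n) (by linarith [h.big]) h3
    (h.cd n) (c n) h4.1 (l n) h5 h6
  exact ⟨μ, h7, h8, h9⟩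

theorem Lim1_bal_sub {c y : Site} {r ρ R : ℝ} (h : y ∈ bal c r) (h' : ρ + r ≤ R) :
    bal y ρ ⊆ bal c R := fun w hw => by
  rw [mem_bal] at h hw ⊢
  linarith [dst_tri w y c]

/-- the discrete holomorphic limit near the centres -/
theorem Lim1_dh (hs : Tendsto s uf atTop) {H : ℕ → Finset Site} {V U : ℕ → Finset Tri} {x : ℂ}
    (hf : ∀ n, Frame (s n) (lam * s n) (D n) (H n) (V n) (U n) ∧ (U n).Nonempty ∧
      HX (V n) (U n) x) {c : ℕ → Site} {δ : ℝ} (hδ : 0 < δ) {μ : ℕ → Site → ℤ}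
    (hμ : ∀ᶠ n in uf, bal (c n) (δ * s n) ⊆ D n \ bal 0 (3 / 2 * s n) ∧
      ∀ e, Inside e (bal (c n) (δ * s n)) → cob (μ n) e = kap e) :
    ∃ f : ℂ → ℂ, DifferentiableOn ℂ f (ball 0 (δ / 2 / 8)) ∧ ∀ w ∈ ball (0 : ℂ) (δ / 2 / 8),
      ∀ e : ℕ → Edge, Tendsto (fun n => (pos (rgt (e n)) - pos (c n)) / s n) uf (𝓝 w) →
        Tendsto (fun n => obsE (D n) (H n) (V n) (U n) x (e n) (μ n (rgt (e n)))) uf
          (𝓝 (f w)) := by
  have hδs : Tendsto (fun n => δ * s n) uf atTop := hs.const_mul_atTop hδ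
  refine dh uf hs (c := c) (δ := δ / 2) (by linarith)
    (Q := fun n e => obsE (D n) (H n) (V n) (U n) x e (μ n (rgt e)))
    (fun n e => norm_obs_le (hf n).2.2.1) ?_ fun η hη => ?_
  · filter_upwards [hμ, hs.eventually_ge_atTop 4, hδs.eventually_ge_atTop 4] with n h1 h2 h3 t ht
    have h4 : ∀ i, vtx t i ∈ bal (c n) (δ * s n) := fun i =>
      bal_mono _ (by linarith) (ht i)
    refine tripod_dv (hf n).1 (hf n).2.1 (hf n).2.2 (fun i h5 => ?_) (fun i => ?_) fun i => ?_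
    · exact (Finset.mem_sdiff.1 (h1.1 (h4 i))).2 (bal_mono _ (by linarith) h5)
    · exact (Lim1_bal_sub (ht i) (by linarith)).trans (h1.1.trans Finset.sdiff_subset)
    · exact h1.2 _ (inside_side.2 ⟨h4 _, h4 _⟩)
  · obtain ⟨K, hK, hA⟩ := armB_small (q := η / 2) (by linarith)
    have hb : 0 < δ / (8 * K) := by positivity
    refine ⟨δ / (8 * K), hb, ?_⟩
    filter_upwards [hμ, hs.eventually_ge_atTop 0, hδs.eventually_ge_atTop (3 * (K + 1)),
      (hs.const_mul_atTop hb).eventually_ge_atTop 1] with n h1 h2 h3 h4 e e' he _ hd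
    have h5 : K * (δ / (8 * K) * s n) = δ * s n / 8 := by field_simp
    have h6 : bal (rgt e) (K * (δ / (8 * K) * s n + 1) + 1) ⊆ bal (c n) (δ * s n) :=
      Lim1_bal_sub he (by rw [mul_add, h5]; linarith)
    have h7 : δ / (8 * K) * s n + 1 ≤ K * (δ / (8 * K) * s n + 1) + 1 := by nlinarith
    have h8 := obsE_close (hf n).1 (hf n).2.1 (hf n).2.2.1 (c := rgt e) (r := δ / (8 * K) * s n)
      (ρ := K * (δ / (8 * K) * s n + 1) + 1) (q := η / 2) h4 h7
      (h6.trans (h1.1.trans (Finset.sdiff_subset_sdiff le_rfl (bal_mono _ (by linarith)))))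
      (by rw [add_sub_cancel_right]; exact hA _ (by linarith)) (μ := μ n)
      (fun e'' h9 => h1.2 e'' ⟨h6 (bal_mono _ (by linarith) h9.1),
        h6 (bal_mono _ (by linarith) h9.2)⟩) (e := e) (e' := e')
      (mem_bal.2 (by rw [dst_self]; linarith)) (mem_bal.2 (by rw [dst_comm]; exact hd))
    linarith

/-- (a). Define `p z` as the limit along one admissible sequence; `bulk_close` shows that the
choice does not matter. Near `z₀` take centres `c n`, lifts `μ n` from `cd_bulk`,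
`Q n e = obsE .. e (μ n (rgt e))`, `f` from `dh` (`tripod_dv`, `obsE_close`, use a smaller ball),
`Φ` the limit of `φ n / s n` (`ulim_holo`); then `p z = f (Φ (exp (z I)) - Φ (exp (z₀ I)))`. -/
theorem exists_lim (h : SeqD uf lam Lam T s D ψ φ G) {H : ℕ → Finset Site} {V U : ℕ → Finset Tri}
    {x : ℂ} (hf : ∀ n, Frame (s n) (lam * s n) (D n) (H n) (V n) (U n) ∧ (U n).Nonempty ∧
      HX (V n) (U n) x) : ∃ p : ℂ → ℂ, DifferentiableOn ℂ p (strip T) ∧
        IsLim uf T D ψ G (fun n => obsE (D n) (H n) (V n) (U n) x) p := by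
  obtain ⟨p, hp⟩ := h.Lim1_exists hf
  obtain ⟨Φ, dΦ, hΦ⟩ := h.Lim1_phi
  refine ⟨p, fun z₀ hz₀ => DifferentiableAt.differentiableWithinAt ?_, hp⟩
  obtain ⟨e₀, l₀, ha₀⟩ := h.exists_adm hz₀.1
  obtain ⟨δ, hδ, μ, hμ⟩ := h.Lim1_ball hz₀ ha₀
  obtain ⟨f, df, hl⟩ := Lim1_dh h.hs hf hδ (hμ.mono fun n hn => ⟨hn.1, hn.2.1⟩)
  have h3 : Complex.exp (z₀ * Complex.I) ∈ ball (0 : ℂ) 1 := by
    rw [mem_ball_zero_iff, Complex.norm_exp, Complex.mul_I_re]
    exact Real.exp_lt_one_iff.2 (by linarith [hz₀.1])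
  have dw : DifferentiableAt ℂ
      (fun z => Φ (Complex.exp (z * Complex.I)) - Φ (Complex.exp (z₀ * Complex.I))) z₀ :=
    (DifferentiableAt.comp (g := Φ) (f := fun z => Complex.exp (z * Complex.I)) z₀
      (dΦ.differentiableAt (isOpen_ball.mem_nhds h3)) (by fun_prop)).sub_const _
  have h4 : Φ (Complex.exp (z₀ * Complex.I)) - Φ (Complex.exp (z₀ * Complex.I)) ∈
      ball (0 : ℂ) (δ / 2 / 8) := by
    rw [sub_self]; exact mem_ball_self (by linarith)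
  refine DifferentiableAt.congr_of_eventuallyEq (DifferentiableAt.comp (g := f) z₀
    (df.differentiableAt (isOpen_ball.mem_nhds h4)) dw) ?_
  filter_upwards [(isOpen_strip T).mem_nhds hz₀, dw.continuousAt.eventually
    (isOpen_ball.mem_nhds h4), ball_mem_nhds z₀ one_pos] with z hz hw hzz
  obtain ⟨e, l, ha⟩ := h.exists_adm hz.1
  have h5 : Tendsto (fun n => (pos (rgt (e n)) - pos (rgt (e₀ n))) / s n) uf
      (𝓝 (Φ (Complex.exp (z * Complex.I)) - Φ (Complex.exp (z₀ * Complex.I)))) :=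
    ((hΦ _ _ _ hz.1 ha).sub (hΦ _ _ _ hz₀.1 ha₀)).congr fun n => (sub_div _ _ _).symm
  refine tendsto_nhds_unique (hp z hz e l ha) ((hl _ hw e h5).congr' ?_)
  rw [dist_zero_right] at hw
  rw [mem_ball, dist_eq_norm] at hzz
  filter_upwards [hμ, h.hs.eventually_ge_atTop 1,
    h5.norm.eventually_le_const (show _ < δ from hw.trans (by linarith)),
    (tendsto_iff_norm_sub_tendsto_zero.1 ha.2).eventually_le_const one_pos,
    (tendsto_iff_norm_sub_tendsto_zero.1 ha₀.2).eventually_le_const one_pos] with n h6 h7 h8 h9 h10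
  rw [norm_div, Complex.norm_real, Real.norm_eq_abs, abs_of_pos (by linarith),
    div_le_iff₀ (by linarith)] at h8
  have h11 := h6.2.2 (rgt (e n)) (mem_bal.2 h8)
  have h12 : μ n (rgt (e n)) = l n := by
    refine zt_inj (ψ := ψ n) (G := G n) (x := rgt (e n)) ?_
    have e1 : zt (ψ n) (G n) (rgt (e n)) (μ n (rgt (e n))) - zt (ψ n) (G n) (rgt (e n)) (l n) =
        (zt (ψ n) (G n) (rgt (e n)) (μ n (rgt (e n))) - zt (ψ n) (G n) (rgt (e₀ n)) (l₀ n)) +
          (zt (ψ n) (G n) (rgt (e₀ n)) (l₀ n) - z₀) - (z - z₀) -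
          (zt (ψ n) (G n) (rgt (e n)) (l n) - z) := by ring
    rw [e1]
    refine ((norm_sub_le _ _).trans (add_le_add ((norm_sub_le _ _).trans
      (add_le_add (norm_add_le _ _) le_rfl)) le_rfl)).trans_lt ?_
    linarith
  rw [h12]

/-- sites near the circle of radius `3 s` -/
theorem Lim1_polar (h : SeqD uf lam Lam T s D ψ φ G) {y : ℕ → Site} {l : ℕ → ℤ} {t : ℝ}
    (h1 : Tendsto (fun n => Complex.arg (pos (y n)) + 2 * Real.pi * l n) uf (𝓝 t))
    (h2 : ∀ᶠ n in uf, |‖pos (y n)‖ - 3 * s n| ≤ 2 / 3) :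
    ∃ z, ‖z - (t + T * Complex.I)‖ ≤ 100 / lam ∧ Adm uf D ψ G y l z := by
  have h0 : ∀ᶠ n in uf, (y n ∈ D n ∧ y n ≠ 0) ∧ 1 ≤ s n ∧ 0 < ‖pos (y n)‖ ∧
      ‖pos (y n)‖ ≤ 4 * s n := by
    filter_upwards [h2, h.hs.eventually_ge_atTop 1] with n h3 h4
    rw [abs_le] at h3
    refine ⟨⟨(h.cd n).inn (mem_bal.2 ?_), fun e => ?_⟩, h4, by linarith, by linarith⟩
    · rw [dst_zero]; nlinarith [h.big]
    · rw [e, pos_zero, norm_zero] at h3
      linarith
  have h3 : Tendsto (fun n => ‖pos (y n)‖ / (3 * s n)) uf (𝓝 1) := by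
    rw [tendsto_iff_norm_sub_tendsto_zero]
    refine squeeze_zero' (Eventually.of_forall fun _ => norm_nonneg _) ?_
      (tendsto_inv_atTop_zero.comp h.hs)
    filter_upwards [h2, h.hs.eventually_ge_atTop 1] with n h3 h4
    have e : ‖pos (y n)‖ / (3 * s n) - 1 = (‖pos (y n)‖ - 3 * s n) / (3 * s n) := by field_simp
    rw [e, Real.norm_eq_abs, abs_div, abs_of_pos (by linarith : 0 < 3 * s n),
      div_le_iff₀ (by linarith)]
    have e' : (s n)⁻¹ * (3 * s n) = 3 := by field_simp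
    simp only [Function.comp]
    linarith
  have h4 : Tendsto (fun n => Real.log ‖pos (y n)‖ + (G n 0).re) uf (𝓝 (-T)) := by
    have h5 := (h3.log one_ne_zero).sub h.hT
    rw [Real.log_one, zero_sub] at h5
    refine h5.congr' ?_
    filter_upwards [h0] with n hn
    rw [Real.log_div hn.2.2.1.ne' (by linarith [hn.2.1] : (0 : ℝ) < 3 * s n).ne']
    ring
  have h5 : Tendsto (fun n => (((Complex.arg (pos (y n)) + 2 * Real.pi * l n : ℝ) : ℂ) -
      (Real.log ‖pos (y n)‖ + (G n 0).re : ℝ) * Complex.I)) uf (𝓝 (t + T * Complex.I)) := by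
    have := ((Complex.continuous_ofReal.tendsto _).comp h1).sub
      (((Complex.continuous_ofReal.tendsto _).comp h4).mul_const Complex.I)
    rw [Complex.ofReal_neg, neg_mul, sub_neg_eq_add] at this
    exact this
  have h6 : ∀ᶠ n in uf, ‖zt (ψ n) (G n) (y n) (l n) -
      (((Complex.arg (pos (y n)) + 2 * Real.pi * l n : ℝ) : ℂ) -
        (Real.log ‖pos (y n)‖ + (G n 0).re : ℝ) * Complex.I)‖ ≤ 100 / lam := by
    filter_upwards [h0] with n hn
    exact (h.cd n).polar (by linarith [h.big]) hn.2.1 hn.1.2 hn.2.2.2 (l n)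
  obtain ⟨β, hβ⟩ := exists_ulim uf h6
  refine ⟨β + (t + T * Complex.I), ?_, h0.mono fun n hn => hn.1, ?_⟩
  · rw [add_sub_cancel_right]
    exact le_of_tendsto hβ.norm h6
  · exact (hβ.add h5).congr fun n => sub_add_cancel _ _

/-- (b). `exists_polar` with `R = 3 s n`, `CD.polar`, `arg_gS`, `exists_ulim`, `strip_lip` -/
theorem lim_rot (h : SeqD uf lam Lam T s D ψ φ G) {P Q : ℕ → Edge → ℤ → ℂ} {p q : ℂ → ℂ}
    (hp : IsLim uf T D ψ G P p) (hq : IsLim uf T D ψ G Q q) (dp : DifferentiableOn ℂ p (strip T))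
    (dq : DifferentiableOn ℂ q (strip T)) {m δ : ℝ}
    (hm : ∀ n e l, Band (s n) e → ‖P n e l‖ ≤ m ∧ ‖Q n e l‖ ≤ m) {b : ℕ → ℂ} {b₀ : ℂ}
    (hb : Tendsto b uf (𝓝 b₀)) (h1 : ‖b₀‖ ≤ 1)
    (hr : ∀ n e l, Band (s n) e → ‖Q n (gE e) (l + secS (rgt e)) - b n * P n e l‖ ≤ δ) (t : ℝ) :
    ‖q (t + T * Complex.I + 2 * Real.pi / 3) - b₀ * p (t + T * Complex.I)‖ ≤
      δ + 2000 * m / lam := by
  obtain ⟨y, hy⟩ : ∃ y : ℕ → Site × ℤ, ∀ᶠ n in uf, 1 ≤ s n ∧
      ‖pos (y n).1 - (3 * s n : ℝ) * Complex.exp (t * Complex.I)‖ ≤ 2 / 3 ∧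
      |Complex.arg (pos (y n).1) + 2 * Real.pi * (y n).2 - t| ≤ 2 / (3 * s n) := by
    refine Filter.Eventually.choice (l := (uf : Filter ℕ)) (r := fun n (y : Site × ℤ) =>
      1 ≤ s n ∧ ‖pos y.1 - (3 * s n : ℝ) * Complex.exp (t * Complex.I)‖ ≤ 2 / 3 ∧
        |Complex.arg (pos y.1) + 2 * Real.pi * y.2 - t| ≤ 2 / (3 * s n)) ?_
    filter_upwards [h.hs.eventually_ge_atTop 1] with n hn
    obtain ⟨y, l, h2⟩ := exists_polar t (R := 3 * s n) (by linarith)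
    exact ⟨(y, l), hn, h2⟩
  have h2 : ∀ᶠ n in uf, |‖pos (y n).1‖ - 3 * s n| ≤ 2 / 3 := by
    filter_upwards [hy] with n hn
    refine le_trans ?_ hn.2.1
    have := abs_norm_sub_norm_le (pos (y n).1) ((3 * s n : ℝ) * Complex.exp (t * Complex.I))
    rwa [norm_mul, Complex.norm_exp_ofReal_mul_I, mul_one, Complex.norm_real, Real.norm_eq_abs,
      abs_of_pos (by linarith [hn.1] : 0 < 3 * s n)] at this
  have h3 : Tendsto (fun n => Complex.arg (pos (y n).1) + 2 * Real.pi * (y n).2) uf (𝓝 t) := by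
    rw [tendsto_iff_norm_sub_tendsto_zero]
    refine squeeze_zero' (Eventually.of_forall fun _ => norm_nonneg _) ?_
      (tendsto_inv_atTop_zero.comp h.hs)
    filter_upwards [hy] with n hn
    refine hn.2.2.trans ?_
    have h4 : 0 < s n := by linarith [hn.1]
    simp only [Function.comp]
    rw [div_le_iff₀ (by linarith)]
    have e' : (s n)⁻¹ * (3 * s n) = 3 := by field_simp
    linarith
  obtain ⟨z₁, hz₁, ha₁⟩ := h.Lim1_polar h3 h2
  obtain ⟨z₂, hz₂, ha₂⟩ := h.Lim1_polar (y := fun n => gS (y n).1)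
    (l := fun n => (y n).2 + secS (y n).1) (t := t + 2 * Real.pi / 3) (by
      refine (h3.add_const _).congr' ?_
      filter_upwards [ha₁.1] with n hn
      rw [arg_gS hn.2]
      push_cast
      ring) (h2.mono fun n hn => by rwa [Lim1_norm])
  have h4 : 100 / lam ≤ 100 / 10000 := div_le_div_of_nonneg_left (by norm_num) (by norm_num) h.big
  have hT := h.two_le
  have hs : ∀ (z : ℂ) (τ : ℝ), ‖z - (τ + T * Complex.I)‖ ≤ 100 / lam → z ∈ strip T := by
    intro z τ hz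
    have h5 := (Complex.abs_im_le_norm _).trans hz
    simp only [Complex.sub_im, Complex.add_im, Complex.ofReal_im, Complex.mul_I_im,
      Complex.ofReal_re, zero_add] at h5
    rw [abs_le] at h5
    exact ⟨by linarith, by linarith⟩
  have hi : ∀ τ : ℝ, ((τ : ℂ) + T * Complex.I).im = T := fun τ => by simp
  have mp : ∀ z : ℂ, |z.im - T| < 0.2 → ‖p z‖ ≤ m := fun z hz =>
    h.lim_band hp (fun n e l hb => (hm n e l hb).1) hz
  have mq : ∀ z : ℂ, |z.im - T| < 0.2 → ‖q z‖ ≤ m := fun z hz =>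
    h.lim_band hq (fun n e l hb => (hm n e l hb).2) hz
  have m0 : 0 ≤ m := (norm_nonneg _).trans (mp _ (by rw [hi t]; norm_num))
  have lp := strip_lip (by linarith) dp mp (hi t) (z' := z₁) (by linarith)
  have lq := strip_lip (by linarith) dq mq (hi (t + 2 * Real.pi / 3)) (z' := z₂) (by linarith)
  have t1 := hp z₁ (hs _ _ hz₁) (fun n => ((y n).1, 2)) _ ha₁
  have t2 := hq z₂ (hs _ _ hz₂) (fun n => gE ((y n).1, 2)) (fun n => (y n).2 + secS (y n).1)
    (by simpa only [Lim1_rgt, rgt_two] using ha₂)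
  have h5 : ‖q z₂ - b₀ * p z₁‖ ≤ δ := by
    refine le_of_tendsto (t2.sub (hb.mul t1)).norm ?_
    filter_upwards [h2, h.hs.eventually_ge_atTop 1] with n h6 h7
    rw [abs_le] at h6
    exact hr n ((y n).1, 2) (y n).2 ⟨by rw [rgt_two]; linarith, by rw [rgt_two]; linarith⟩
  have e1 : (t : ℂ) + T * Complex.I + 2 * Real.pi / 3 =
      ((t + 2 * Real.pi / 3 : ℝ) : ℂ) + T * Complex.I := by push_cast; ring
  rw [e1]
  have e2 : q (((t + 2 * Real.pi / 3 : ℝ) : ℂ) + T * Complex.I) - b₀ * p (t + T * Complex.I) =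
      (q z₂ - b₀ * p z₁) - (q z₂ - q (((t + 2 * Real.pi / 3 : ℝ) : ℂ) + T * Complex.I)) +
        b₀ * (p z₁ - p (t + T * Complex.I)) := by ring
  have h6 : ‖b₀ * (p z₁ - p (t + T * Complex.I))‖ ≤ ‖p z₁ - p (t + T * Complex.I)‖ := by
    rw [norm_mul]
    exact mul_le_of_le_one_left (norm_nonneg _) h1
  have h7 := mul_le_mul_of_nonneg_left hz₁ (by positivity : 0 ≤ 10 * m)
  have h8 := mul_le_mul_of_nonneg_left hz₂ (by positivity : 0 ≤ 10 * m)
  have e3 : 2000 * m / lam = 10 * m * (100 / lam) + 10 * m * (100 / lam) := by ring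
  rw [e2, e3]
  refine ((norm_add_le _ _).trans (add_le_add (norm_sub_le _ _) h6)).trans ?_
  linarith

end SeqD

end Pool.Agent.TAF.U
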