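import Pool.Agent.P.MP_cb4022_pr.U.Lim1

/-! The limit of the observables at the boundary (paper E7 d, e). -/

open scoped Classical symmDiff
open Metric Filter Topology

noncomputable section

namespace Pool.Agent.TAF.U

/-- a wall triangle with its free vertex -/
def WallT (D : Finset Site) (t : Tri) (i : Fin 3) : Prop :=
  vtx t i ∈ D ∧ vtx t (i + 1) ∉ D ∧ vtx t (i + 2) ∉ D

theorem WallT.unique {D : Finset Site} {t : Tri} {i j : Fin 3} (h : WallT D t i)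
    (hj : vtx t j ∈ D) : j = i := by
  rcases fin3_cases i j with e | e | e
  · exact e
  · exact absurd (e ▸ hj) h.2.1
  · exact absurd (e ▸ hj) h.2.2

theorem Lim2_eps {ι : Type*} [Finite ι] (f : ι → ℝ) :
    ∃ ε : ℝ, 0 < ε ∧ ∀ j, 0 < f j → 2 * ε ≤ f j := by
  have h1 : ∀ᶠ ε : ℝ in 𝓝[>] 0, ∀ j, 0 < f j → 2 * ε ≤ f j := by
    refine eventually_all.2 fun j => ?_
    by_cases hj : 0 < f j
    · filter_upwards [Ioo_mem_nhdsGT (half_pos hj)] with ε hε _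
      linarith [hε.2]
    · exact Eventually.of_forall fun _ h => absurd h hj
  obtain ⟨ε, h2, h3⟩ := (h1.and self_mem_nhdsWithin).exists
  exact ⟨ε, h3, h2⟩

theorem Lim2_near {l : Filter ℕ} {f : ℕ → ℂ} {z : ℂ} (h : Tendsto f l (𝓝 z)) {ε : ℝ}
    (hε : 0 < ε) : ∀ᶠ n in l, ‖f n - z‖ ≤ ε := by
  filter_upwards [Metric.tendsto_nhds.1 h ε hε] with n hn
  rw [← dist_eq_norm]
  exact hn.le

theorem Lim2_far {a b c : ℂ} {ε : ℝ} (h1 : 2 * ε ≤ ‖b - c‖) (h2 : ‖a - b‖ ≤ ε) : ε ≤ ‖a - c‖ := by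
  have h3 := norm_sub_le (a - c) (a - b)
  rw [sub_sub_sub_cancel_left] at h3
  linarith

theorem Lim2_succ_ne (i : Fin 3) : i + 1 ≠ i := by
  revert i
  decide

theorem WallT.Lim2_not_allowed {D : Finset Site} {t : Tri} {i : Fin 3} (h : WallT D t i)
    (H : Finset Site) : side t i ∉ allowed D H := fun ha =>
  (touch_side.1 (mem_allowed.1 ha).1).elim h.2.1 h.2.2

/-- the reduced angle lies strictly inside the period -/
theorem Lim2_floor {τ θ : ℝ} (h : Complex.exp (τ * Complex.I) ≠ Complex.exp (θ * Complex.I)) :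
    ∃ a : ℝ, 0 < a ∧ a ≤ 1 ∧ θ + 2 * a ≤ τ - 2 * Real.pi * ⌊(τ - θ) / (2 * Real.pi)⌋ ∧
      τ - 2 * Real.pi * ⌊(τ - θ) / (2 * Real.pi)⌋ ≤ θ + 2 * Real.pi - 2 * a := by
  have hp : 0 < 2 * Real.pi := Real.two_pi_pos
  have h1 := Int.floor_le ((τ - θ) / (2 * Real.pi))
  have h2 := Int.lt_floor_add_one ((τ - θ) / (2 * Real.pi))
  generalize ⌊(τ - θ) / (2 * Real.pi)⌋ = m at h1 h2
  rw [le_div_iff₀ hp] at h1
  rw [div_lt_iff₀ hp] at h2
  have h3 : (m : ℝ) * (2 * Real.pi) ≠ τ - θ := by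
    intro e
    refine h (Complex.exp_eq_exp_iff_exists_int.2 ⟨m, ?_⟩)
    have e' : τ = θ + m * (2 * Real.pi) := by linarith
    rw [e']
    push_cast
    ring
  have h4 := lt_of_le_of_ne h1 h3
  refine ⟨min 1 (min ((τ - θ - m * (2 * Real.pi)) / 2) (((m + 1) * (2 * Real.pi) - (τ - θ)) / 2)),
    lt_min one_pos (lt_min (by linarith) (by linarith)), min_le_left _ _, ?_, ?_⟩
  · have := (min_le_right 1 _).trans (min_le_left ((τ - θ - m * (2 * Real.pi)) / 2)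
      (((m + 1) * (2 * Real.pi) - (τ - θ)) / 2))
    linarith
  · have := (min_le_right 1 _).trans (min_le_right ((τ - θ - m * (2 * Real.pi)) / 2)
      (((m + 1) * (2 * Real.pi) - (τ - θ)) / 2))
    linarith

namespace SeqD
variable {uf : Ultrafilter ℕ} {lam Lam T : ℝ} {s : ℕ → ℝ} {D : ℕ → Finset Site}
  {ψ φ G : ℕ → ℂ → ℂ}

theorem Lim2_four (h : SeqD uf lam Lam T s D ψ φ G) : 4 ≤ lam := by
  linarith [h.big]

/-- `exists_ulim`, `cd_wall` -/
theorem exists_angle (h : SeqD uf lam Lam T s D ψ φ G) {t : ℕ → Tri} {i : ℕ → Fin 3}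
    (hw : ∀ n, WallT (D n) (t n) (i n)) : ∃ θ : ℝ,
      Tendsto (fun n => ψ n (pos (vtx (t n) (i n)))) uf (𝓝 (Complex.exp (θ * Complex.I))) := by
  have h1 : ∀ n, ‖ψ n (pos (vtx (t n) (i n)))‖ ≤ 1 := fun n =>
    (mem_ball_zero_iff.1 ((h.cd n).cm.mψ (pos_mem_OmD.2 (hw n).1))).le
  obtain ⟨a, ha⟩ := exists_ulim uf (Eventually.of_forall h1)
  have h2 : ‖a‖ = 1 := by
    refine le_antisymm (le_of_tendsto' ha.norm h1) (le_of_forall_pos_le_add fun ε hε => ?_)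
    obtain ⟨s₀, hs₀⟩ := cd_wall Lam hε
    have h3 : 1 - ε ≤ ‖a‖ := by
      refine ge_of_tendsto ha.norm ?_
      filter_upwards [h.hs.eventually_ge_atTop s₀] with n hn
      exact hs₀ lam _ _ _ _ _ h.Lim2_four hn (h.cd n) _ (hw n).1 _ (hw n).2.1
        (adj_vtx _ (Lim2_succ_ne _).symm)
    linarith
  refine ⟨Complex.arg a, ?_⟩
  have h3 := Complex.norm_mul_exp_arg_mul_I a
  rw [h2, Complex.ofReal_one, one_mul] at h3
  rw [h3]
  exact ha

/-- `cd_exists_wall`, `diag`, `adm_of_psi` -/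
theorem exists_wall_adm (h : SeqD uf lam Lam T s D ψ φ G) (θ : ℝ) :
    ∃ (t : ℕ → Tri) (i : ℕ → Fin 3) (l : ℕ → ℤ), (∀ᶠ n in uf, WallT (D n) (t n) (i n)) ∧
      Adm uf D ψ G (fun n => vtx (t n) (i n)) l θ := by
  obtain ⟨y, h1, h2⟩ := diag h.hs (Y := Tri × Fin 3) (P := fun n y => WallT (D n) y.1 y.2)
    (f := fun n y => ‖ψ n (pos (vtx y.1 y.2)) - Complex.exp (θ * Complex.I)‖)
    (fun _ _ => norm_nonneg _) fun η hη => by
      obtain ⟨s₀, hs₀⟩ := cd_exists_wall Lam hη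
      filter_upwards [h.hs.eventually_ge_atTop s₀] with n hn
      obtain ⟨t, i, a1, a2, a3, a4⟩ := hs₀ lam _ _ _ _ _ h.Lim2_four hn (h.cd n) _
        (Complex.norm_exp_ofReal_mul_I θ)
      exact ⟨(t, i), ⟨a1, a2, a3⟩, a4⟩
  obtain ⟨l, hl⟩ := h.adm_of_psi (x := fun n => vtx (y n).1 (y n).2) (z := θ)
    (h1.mono fun n hn => hn.1) (tendsto_iff_norm_sub_tendsto_zero.2 h2)
  exact ⟨fun n => (y n).1, fun n => (y n).2, l, h1, hl⟩

/-- Compare with a wall sequence at `θ + pi` (`Jw_arc`, `zt_add`). -/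
theorem Jw_lim (h : SeqD uf lam Lam T s D ψ φ G) {u : ℕ → Tri} {i : ℕ → Fin 3}
    (hw : ∀ n, WallT (D n) (u n) (i n)) {θ : ℝ}
    (hθ : Tendsto (fun n => ψ n (pos (vtx (u n) (i n)))) uf (𝓝 (Complex.exp (θ * Complex.I)))) :
    ∃ N : ℕ → ℤ, ∀ (τ : ℝ) (t : ℕ → Tri) (p : ℕ → Fin 3) (l : ℕ → ℤ),
      Complex.exp (τ * Complex.I) ≠ Complex.exp (θ * Complex.I) →
      (∀ᶠ n in uf, WallT (D n) (t n) (p n)) → Adm uf D ψ G (fun n => vtx (t n) (p n)) l τ →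
      ∀ᶠ n in uf, Jw (D n) (u n) (t n) (p n) + l n = N n + ⌊(τ - θ) / (2 * Real.pi)⌋ := by
  obtain ⟨t₀, p₀, l₀, w₀, a₀⟩ := h.exists_wall_adm (θ + Real.pi)
  refine ⟨fun n => Jw (D n) (u n) (t₀ n) (p₀ n) + l₀ n, fun τ t p l hτ ht ha => ?_⟩
  obtain ⟨a, a0, a1, a2, a3⟩ := Lim2_floor hτ
  generalize ⌊(τ - θ) / (2 * Real.pi)⌋ = m at a2 a3 ⊢
  obtain ⟨s₀, hs₀⟩ := Jw_arc Lam a0 a1
  filter_upwards [h.hs.eventually_ge_atTop s₀, w₀, ht, Lim2_near hθ (ε := a / 100) (by positivity),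
    Lim2_near a₀.2 a0, Lim2_near ha.2 a0] with n b1 b2 b3 b4 b5 b6
  have c1 := abs_le.1 ((Complex.abs_re_le_norm _).trans b5)
  have c2 := abs_le.1 ((Complex.abs_re_le_norm _).trans b6)
  rw [Complex.sub_re, Complex.ofReal_re] at c1 c2
  have c3 : (zt (ψ n) (G n) (vtx (t n) (p n)) (l n + -m)).re =
      (zt (ψ n) (G n) (vtx (t n) (p n)) (l n)).re - 2 * Real.pi * m := by
    rw [zt_add]
    simp [sub_eq_add_neg]
  have c4 := hs₀ lam _ _ _ _ _ h.Lim2_four b1 (h.cd n) (u n) (i n) θ ⟨i n, hw n⟩ (hw n).1 b4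
    (t n) (t₀ n) (p n) (p₀ n) (l n + -m) (l₀ n) b3.1 b3.2.1 b2.1 b2.2.1
    (by rw [c3]; constructor <;> linarith [c2.1, c2.2])
    (by constructor <;> linarith [c1.1, c1.2, Real.pi_gt_three])
  linarith

/-- (e): `wall_close`, `exists_adm` -/
theorem lim_star (h : SeqD uf lam Lam T s D ψ φ G) {k : ℕ} (hk : 1 ≤ k) {u : ℕ → Fin k → Tri}
    {i : ℕ → Fin k → Fin 3} {θ : Fin k → ℝ} (hw : ∀ n j, WallT (D n) (u n j) (i n j))
    (hθ : ∀ j, Tendsto (fun n => ψ n (pos (vtx (u n j) (i n j)))) uf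
      (𝓝 (Complex.exp (θ j * Complex.I))))
    {H : ℕ → Finset Site} {V : ℕ → Finset Tri} {x : ℂ} (hx : ‖x‖ = 1)
    (hf : ∀ n, Frame (s n) (lam * s n) (D n) (H n) (V n) (Finset.univ.image (u n))) {p : ℂ → ℂ}
    (hp : IsLim uf T D ψ G (fun n => obsE (D n) (H n) (V n) (Finset.univ.image (u n)) x) p)
    {τ : ℝ} (hτ : ∀ j, Complex.exp (τ * Complex.I) ≠ Complex.exp (θ j * Complex.I))
    {t : ℕ → Tri} {a : ℕ → Fin 3} {l : ℕ → ℤ} (ht : ∀ᶠ n in uf, WallT (D n) (t n) (a n))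
    (ha : Adm uf D ψ G (fun n => vtx (t n) (a n)) l τ) {η : ℝ} (hη : 0 < η) :
    ∀ᶠ y : ℝ in 𝓝[>] 0, ∀ᶠ n in uf,
      ‖obs (D n) (H n) (V n) (Finset.univ.image (u n)) x (t n) (a n) (a n) (l n) -
        p (τ + y * Complex.I)‖ ≤ η := by
  obtain ⟨ε, hε, h1⟩ := Lim2_eps fun j =>
    ‖Complex.exp (θ j * Complex.I) - Complex.exp (τ * Complex.I)‖
  obtain ⟨b, s₀, hb, h2⟩ := wall_close Lam (half_pos hη) hε
  have h3 : ∀ᶠ n in uf, ∀ j, ‖ψ n (pos (vtx (u n j) (i n j))) - Complex.exp (θ j * Complex.I)‖ ≤ ε :=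
    eventually_all.2 fun j => Lim2_near (hθ j) hε
  filter_upwards [Ioo_mem_nhdsGT (lt_min one_pos (half_pos hb))] with y hy
  have y1 : y < 1 := hy.2.trans_le (min_le_left _ _)
  have y2 : y < b / 2 := hy.2.trans_le (min_le_right _ _)
  have him : ((τ : ℂ) + y * Complex.I).im = y := by simp
  have hz : (τ : ℂ) + y * Complex.I ∈ strip T :=
    ⟨by rw [him]; exact hy.1, by rw [him]; linarith [h.two_le]⟩
  obtain ⟨e, l', he⟩ := h.exists_adm hz.1
  filter_upwards [h.hs.eventually_ge_atTop s₀, h3, ht, ha.1, he.1, Lim2_near ha.2 hb,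
    Lim2_near he.2 (half_pos hb), Lim2_near (hp _ hz e l' he) (half_pos hη)]
    with n b1 b2 b3 b4 b5 b6 b7 b8
  have c1 : ‖zt (ψ n) (G n) (rgt (e n)) (l' n) - τ‖ ≤ b := by
    have c2 := norm_add_le (zt (ψ n) (G n) (rgt (e n)) (l' n) - (τ + y * Complex.I))
      (y * Complex.I)
    rw [norm_mul, Complex.norm_I, mul_one, Complex.norm_real, Real.norm_of_nonneg hy.1.le,
      show zt (ψ n) (G n) (rgt (e n)) (l' n) - (τ + y * Complex.I) + y * Complex.I =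
        zt (ψ n) (G n) (rgt (e n)) (l' n) - τ by ring] at c2
    linarith
  have c2 := h2 lam _ _ _ _ _ _ h.Lim2_four b1 (h.cd n) _ _ _ x τ (hf n)
    ⟨u n ⟨0, hk⟩, Finset.mem_image_of_mem _ (Finset.mem_univ _)⟩ hx
    (fun v hv j hj => by
      obtain ⟨c, -, rfl⟩ := Finset.mem_image.1 hv
      rw [(hw n c).unique hj]
      exact Lim2_far (h1 c (norm_pos_iff.2 (sub_ne_zero.2 (hτ c).symm))) (b2 c))
    (t n) (up (e n)) (a n) (a n) (e n).2 ((e n).2 + 1) (l n) (l' n) b3.1 b5.1 b4.2 b5.2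
    (Or.inr (b3.Lim2_not_allowed _)) (Or.inl (Lim2_succ_ne _)) b6 c1
  have c3 := norm_sub_le_norm_sub_add_norm_sub
    (obs (D n) (H n) (V n) (Finset.univ.image (u n)) x (t n) (a n) (a n) (l n))
    (obsE (D n) (H n) (V n) (Finset.univ.image (u n)) x (e n) (l' n)) (p (τ + y * Complex.I))
  exact c3.trans ((add_le_add c2 b8).trans_eq (add_halves η))

/-- (d): `Jw_lim`, `lim_star` for `x` and its conjugate, `obs_wall_conj` -/
theorem lim_wall (h : SeqD uf lam Lam T s D ψ φ G) {k : ℕ} (hk : 1 ≤ k) {u : ℕ → Fin k → Tri}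
    {i : ℕ → Fin k → Fin 3} {θ : Fin k → ℝ} (hi : ∀ n, Function.Injective (u n))
    (hw : ∀ n j, WallT (D n) (u n j) (i n j))
    (hθ : ∀ j, Tendsto (fun n => ψ n (pos (vtx (u n j) (i n j)))) uf
      (𝓝 (Complex.exp (θ j * Complex.I)))) :
    ∃ k₀ : ℂ, ‖k₀‖ = 1 ∧ ∀ (H : ℕ → Finset Site) (V : ℕ → Finset Tri) (x : ℂ) (p p' : ℂ → ℂ),
      ‖x‖ = 1 → (∀ n, Frame (s n) (lam * s n) (D n) (H n) (V n) (Finset.univ.image (u n))) →
      IsLim uf T D ψ G (fun n => obsE (D n) (H n) (V n) (Finset.univ.image (u n)) x) p →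
      IsLim uf T D ψ G
        (fun n => obsE (D n) (H n) (V n) (Finset.univ.image (u n)) ((starRingEnd ℂ) x)) p' →
      ∀ t : ℝ, (∀ j, Complex.exp (t * Complex.I) ≠ Complex.exp (θ j * Complex.I)) →
        Tendsto (fun y : ℝ => p (t + y * Complex.I) -
          k₀ * (om ^ ∑ j, ⌊(t - θ j) / (2 * Real.pi)⌋) ^ 2 *
            (starRingEnd ℂ) (p' (t + y * Complex.I))) (𝓝[>] 0) (𝓝 0) := by
  choose N hN using fun j => h.Jw_lim (u := fun n => u n j) (i := fun n => i n j)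
    (fun n => hw n j) (hθ j)
  have hn : ∀ m : ℤ, ‖(om ^ m) ^ 2‖ = 1 := fun m => by
    rw [norm_pow, norm_zpow, norm_om, one_zpow, one_pow]
  obtain ⟨k₀, hk₀⟩ := exists_ulim uf (f := fun n => (om ^ ∑ j, N j n) ^ 2) (M := 1)
    (Eventually.of_forall fun n => (hn _).le)
  refine ⟨k₀, ?_, fun H V x p p' hx hf hp hp' τ hτ => ?_⟩
  · have h1 := hk₀.norm
    simp only [hn] at h1
    exact tendsto_nhds_unique h1 tendsto_const_nhds
  obtain ⟨t, a, l, ht, ha⟩ := h.exists_wall_adm τ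
  obtain ⟨ε, hε, h1⟩ := Lim2_eps fun j =>
    ‖Complex.exp (θ j * Complex.I) - Complex.exp (τ * Complex.I)‖
  have h2 : ∀ᶠ n in uf, ∀ j, ‖ψ n (pos (vtx (u n j) (i n j))) - Complex.exp (θ j * Complex.I)‖ ≤ ε :=
    eventually_all.2 fun j => Lim2_near (hθ j) hε
  have h3 : ∀ᶠ n in uf, ∀ j, Jw (D n) (u n j) (t n) (a n) + l n =
      N j n + ⌊(τ - θ j) / (2 * Real.pi)⌋ :=
    eventually_all.2 fun j => hN j τ t a l (hτ j) ht ha
  have h4 : ∀ᶠ n in uf,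
      obs (D n) (H n) (V n) (Finset.univ.image (u n)) x (t n) (a n) (a n) (l n) =
        (om ^ ∑ j, N j n) ^ 2 * (om ^ ∑ j, ⌊(τ - θ j) / (2 * Real.pi)⌋) ^ 2 *
          (starRingEnd ℂ) (obs (D n) (H n) (V n) (Finset.univ.image (u n)) ((starRingEnd ℂ) x)
            (t n) (a n) (a n) (l n)) := by
    filter_upwards [h2, h3, ht, Lim2_near (h.adm_psi ha) (half_pos hε)] with n b1 b2 b3 b4
    have c1 : t n ∉ Finset.univ.image (u n) := by
      intro hv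
      obtain ⟨c, -, hc⟩ := Finset.mem_image.1 hv
      have c2 := Lim2_far (h1 c (norm_pos_iff.2 (sub_ne_zero.2 (hτ c).symm))) (b1 c)
      have c3 : a n = i n c := (hw n c).unique (hc ▸ b3.1)
      rw [← hc, c3] at b4
      linarith
    rw [obs_wall_conj (hf n) hx c1 b3.1 b3.2.1 b3.2.2, JW,
      Finset.sum_image fun c _ d _ e => hi n e, Finset.sum_congr rfl fun j _ => b2 j,
      Finset.sum_add_distrib, zpow_add₀ om_ne, mul_pow]
  rw [Metric.tendsto_nhds]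
  intro η hη
  have hη' : 0 < η / 3 := by positivity
  filter_upwards [h.lim_star hk hw hθ hx hf hp hτ ht ha hη',
    h.lim_star hk hw hθ (by rwa [RCLike.norm_conj]) hf hp' hτ ht ha hη'] with y b1 b2
  rw [dist_zero_right]
  refine lt_of_le_of_lt (b := η / 3 + η / 3) ?_ (by linarith)
  refine le_of_tendsto (((hk₀.mul_const _).mul_const _).const_sub _).norm ?_
  filter_upwards [b1, b2, h4] with n c1 c2 c3
  rw [c3] at c1
  generalize obs (D n) (H n) (V n) (Finset.univ.image (u n)) ((starRingEnd ℂ) x)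
    (t n) (a n) (a n) (l n) = w at c1 c2
  have c4 := norm_sub_le_norm_sub_add_norm_sub (p (τ + y * Complex.I))
    ((om ^ ∑ j, N j n) ^ 2 * (om ^ ∑ j, ⌊(τ - θ j) / (2 * Real.pi)⌋) ^ 2 * (starRingEnd ℂ) w)
    ((om ^ ∑ j, N j n) ^ 2 * (om ^ ∑ j, ⌊(τ - θ j) / (2 * Real.pi)⌋) ^ 2 *
      (starRingEnd ℂ) (p' (τ + y * Complex.I)))
  rw [← mul_sub, norm_mul, norm_mul, hn, hn, one_mul, one_mul, ← map_sub, RCLike.norm_conj] at c4
  rw [norm_sub_rev] at c1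
  exact c4.trans (add_le_add c1 c2)

/-- two boundary points merge: `thru_close` -/
theorem lim_deg (h : SeqD uf lam Lam T s D ψ φ G) {ι : Type} [Fintype ι] {u : ℕ → ι → Tri}
    {i : ℕ → ι → Fin 3} {θ : ι → ℝ} (hi : ∀ n, Function.Injective (u n))
    (hw : ∀ n j, WallT (D n) (u n j) (i n j))
    (hθ : ∀ j, Tendsto (fun n => ψ n (pos (vtx (u n j) (i n j)))) uf
      (𝓝 (Complex.exp (θ j * Complex.I))))
    {a b : ι} (hab : a ≠ b) (he : Complex.exp (θ a * Complex.I) = Complex.exp (θ b * Complex.I))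
    {H : ℕ → Finset Site} {V : ℕ → Finset Tri}
    (hf : ∀ n, Frame (s n) (lam * s n) (D n) (H n) (V n) (Finset.univ.image (u n))) :
    Tendsto (fun n => pr (Om (D n) (H n) (V n ∪ Finset.univ.image (u n)))
      fun ξ => Thru ξ (V n) (Finset.univ.image (u n))) uf (𝓝 0) := by
  obtain ⟨ε, hε, h1⟩ := Lim2_eps fun j =>
    ‖Complex.exp (θ j * Complex.I) - Complex.exp (θ a * Complex.I)‖
  rw [Metric.tendsto_nhds]
  intro q hq
  obtain ⟨c, s₀, hc, h2⟩ := thru_close Lam (half_pos hq) hε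
  filter_upwards [h.hs.eventually_ge_atTop s₀, eventually_all.2 fun j => Lim2_near (hθ j) hε,
    eventually_all.2 fun j => Lim2_near (hθ j) hc] with n b1 b2 b3
  rw [dist_zero_right, Real.norm_of_nonneg (pr_nonneg _ _)]
  refine lt_of_le_of_lt ?_ (half_lt_self hq)
  refine h2 lam _ _ _ _ _ _ h.Lim2_four b1 (h.cd n) _ _ _ _ (hf n)
    (Complex.norm_exp_ofReal_mul_I (θ a)) (fun v hv j hj => ?_)
    (u n a) (Finset.mem_image_of_mem _ (Finset.mem_univ _))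
    (u n b) (Finset.mem_image_of_mem _ (Finset.mem_univ _)) (i n a) (i n b)
    (fun e => hab (hi n e)) (hw n a).1 (hw n b).1 (b3 a) (he ▸ b3 b)
  obtain ⟨d, -, rfl⟩ := Finset.mem_image.1 hv
  rw [(hw n d).unique hj]
  by_cases e : Complex.exp (θ d * Complex.I) = Complex.exp (θ a * Complex.I)
  · exact Or.inr (e ▸ b3 d)
  · exact Or.inl (Lim2_far (h1 d (norm_pos_iff.2 (sub_ne_zero.2 e))) (b2 d))

end SeqD

end Pool.Agent.TAF.U
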