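import Pool.Agent.P.MP_cb4022_pr.U.Cut

/-! Lines of simple configurations (paper A8). -/

open scoped Classical symmDiff

noncomputable section

namespace Pool.Agent.TAF.U

theorem Line_exists_side {ξ : Finset Edge} {t : Tri} (ht : IsOdd ξ t) : ∃ i, side t i ∈ ξ := by
  by_contra h
  push Not at h
  rw [isOdd_iff ξ t 0] at ht
  simp [h] at ht

theorem Line_not_all {ξ : Finset Edge} (hs : Simple ξ) (t : Tri) (i : Fin 3) :
    ¬ (side t i ∈ ξ ∧ side t (i + 1) ∈ ξ ∧ side t (i + 2) ∈ ξ) := fun h => by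
  have := hs t
  rw [deg_eq ξ t i, if_pos h.1, if_pos h.2.1, if_pos h.2.2] at this
  omega

theorem Line_side_unique {ξ : Finset Edge} (hs : Simple ξ) {t : Tri} (ht : IsOdd ξ t) {i j : Fin 3}
    (hi : side t i ∈ ξ) (hj : side t j ∈ ξ) : j = i := by
  have h1 := Line_not_all hs t i
  rw [isOdd_iff ξ t i] at ht
  rcases fin3_cases i j with rfl | rfl | rfl <;> tauto

theorem Line_dv_zero {ψ : Edge → ℤ} {t : Tri} (h : dv ψ t = 0) (i : Fin 3) :
    ψ (side t i) + ψ (side t (i + 1)) + ψ (side t (i + 2)) = 0 := by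
  rw [dv_eq ψ t i] at h
  split_ifs at h <;> omega

theorem Line_isOdd_congr {ξ ξ' : Finset Edge} {t : Tri} (h : ∀ i, side t i ∈ ξ ↔ side t i ∈ ξ') :
    IsOdd ξ t ↔ IsOdd ξ' t := by
  simp only [isOdd_iff _ t 0, h]

theorem Line_side_zero {ξ : Finset Edge} {t τ : Tri} {ψ : Edge → ℤ}
    (hψ : ∀ e, ψ e ≠ 0 → e ∈ ξ ∧ Conn ξ t (up e)) (h : ¬ Conn ξ t τ) (i : Fin 3) :
    ψ (side τ i) = 0 := by
  by_contra h1
  obtain ⟨h2, h3⟩ := hψ _ h1
  exact h (h3.trans (conn_up_side h2).symm)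

theorem conn_of_deg_zero {ξ : Finset Edge} {t τ : Tri} (h : ∀ i, side t i ∉ ξ) (hc : Conn ξ t τ) :
    τ = t := by
  induction hc with
  | refl => rfl
  | tail _ h1 ih =>
    obtain ⟨i, hi, -⟩ := h1
    exact absurd (ih ▸ hi) (h i)

/-- propagate along the component: at an even triangle of degree two a flow that vanishes on one
present side vanishes on the other -/
theorem flow_unique {ξ : Finset Edge} (hs : Simple ξ) {t : Tri} (ht : IsOdd ξ t) {ψ : Edge → ℤ}
    (hψ : ∀ e, ψ e ≠ 0 → e ∈ ξ ∧ Conn ξ t (up e)) (h0 : dv ψ t = 0)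
    (h1 : ∀ τ, Conn ξ t τ → ¬ IsOdd ξ τ → dv ψ τ = 0) : ∀ e, ψ e = 0 := by
  have hz : ∀ e, e ∉ ξ → ψ e = 0 := fun e he => by_contra fun h => he (hψ e h).1
  have key : ∀ τ, Conn ξ t τ → ∀ j, ψ (side τ j) = 0 := by
    intro τ hτ
    induction hτ with
    | refl =>
      intro j
      by_cases hj : side t j ∈ ξ
      · have n1 : j + 1 ≠ j := by generalize j = i; revert i; decide
        have n2 : j + 2 ≠ j := by generalize j = i; revert i; decide
        have := Line_dv_zero h0 j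
        rwa [hz _ fun h => n1 (Line_side_unique hs ht hj h),
          hz _ fun h => n2 (Line_side_unique hs ht hj h), add_zero, add_zero] at this
      · exact hz _ hj
    | @tail a b hc h ih =>
      obtain ⟨i, hi, rfl⟩ := h
      have e0 : ψ (side (nbr a i) i) = 0 := by rw [side_nbr, ih]
      have hi' : side (nbr a i) i ∈ ξ := by rwa [side_nbr]
      intro j
      by_cases ho : IsOdd ξ (nbr a i)
      · by_cases hj : side (nbr a i) j ∈ ξ
        · rw [Line_side_unique hs ho hi' hj, e0]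
        · exact hz _ hj
      · have h2 := Line_dv_zero (h1 _ (Conn.trans hc (Conn.step hi)) ho) i
        have h3 := Line_not_all hs (nbr a i) i
        have h4 : ψ (side (nbr a i) (i + 1)) = 0 ∨ ψ (side (nbr a i) (i + 2)) = 0 := by
          by_contra h5
          push Not at h5
          exact h3 ⟨hi', (hψ _ h5.1).1, (hψ _ h5.2).1⟩
        rcases fin3_cases i j with rfl | rfl | rfl <;> omega
  intro e
  by_contra h
  exact h (by simpa using key _ (hψ e h).2 e.2)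

/-- induction on the number of edges: erase the edge at `t` -/
theorem exists_mate {ξ : Finset Edge} (hs : Simple ξ) {t : Tri} (ht : IsOdd ξ t) :
    ∃ t', IsOdd ξ t' ∧ t' ≠ t ∧ Conn ξ t t' ∧
      (∀ τ, IsOdd ξ τ → Conn ξ t τ → τ = t ∨ τ = t') ∧
      ∃ φ : Edge →₀ ℤ, (∀ e, φ e ≠ 0 → e ∈ ξ ∧ Conn ξ t (up e)) ∧
        (∀ e ∈ ξ, Conn ξ t (up e) → φ e = 1 ∨ φ e = -1) ∧
        ∀ τ, dv φ τ = (if τ = t' then 1 else 0) - (if τ = t then 1 else 0) := by
  induction hn : ξ.card using Nat.strong_induction_on generalizing ξ t with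
  | _ n ih =>
  obtain ⟨i, hi⟩ := Line_exists_side ht
  set s := nbr t i with hsd
  set ξ' := ξ.erase (side t i) with hξ'
  have hsub : ξ' ⊆ ξ := Finset.erase_subset _ _
  have hst : side s i = side t i := side_nbr t i
  have ht0 : ∀ j, side t j ∉ ξ' := fun j hj => by
    obtain ⟨h1, h2⟩ := Finset.mem_erase.1 hj
    exact h1 (by rw [Line_side_unique hs ht hi h2])
  have hnt : ∀ τ, Conn ξ' s τ → τ ≠ t := fun τ h e =>
    nbr_ne t i (conn_of_deg_zero ht0 (e ▸ h).symm)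
  have hconn : ∀ τ, Conn ξ t τ → τ = t ∨ Conn ξ' s τ := by
    intro τ hτ
    induction hτ with
    | refl => exact Or.inl rfl
    | @tail a b _ h ih' =>
      obtain ⟨j, hj, rfl⟩ := h
      by_cases e : side t i = side a j
      · obtain ⟨rfl, rfl | rfl⟩ := side_eq_side e
        · exact Or.inr (Conn.refl _ _)
        · exact Or.inl (nbr_nbr _ _)
      · have h1 : side a j ∈ ξ' := Finset.mem_erase.2 ⟨Ne.symm e, hj⟩
        rcases ih' with rfl | h2
        · exact absurd h1 (ht0 j)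
        · exact Or.inr (h2.trans (Conn.step h1))
  have hconn' : ∀ τ, Conn ξ' s τ → Conn ξ t τ := fun τ h => (Conn.step hi).trans (h.mono hsub)
  have hodd : ∀ τ, τ ≠ t → τ ≠ s → (IsOdd ξ' τ ↔ IsOdd ξ τ) := fun τ h1 h2 =>
    Line_isOdd_congr fun j => ⟨fun h => hsub h, fun h => Finset.mem_erase.2
      ⟨fun e => (side_eq_side e.symm).2.elim h1 h2, h⟩⟩
  have key : ∃ t', IsOdd ξ t' ∧ Conn ξ' s t' ∧ (∀ τ, IsOdd ξ τ → Conn ξ' s τ → τ = t') ∧
      ∃ φ : Edge →₀ ℤ, (∀ e, φ e ≠ 0 → e ∈ ξ' ∧ Conn ξ' s (up e)) ∧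
        (∀ e ∈ ξ', Conn ξ' s (up e) → φ e = 1 ∨ φ e = -1) ∧
        ∀ τ, dv φ τ = (if τ = t' then 1 else 0) - (if τ = s then 1 else 0) := by
    by_cases ho : IsOdd ξ s
    · have hs0 : ∀ j, side s j ∉ ξ' := fun j hj => by
        obtain ⟨h1, h2⟩ := Finset.mem_erase.1 hj
        exact h1 (by rw [Line_side_unique hs ho (hst ▸ hi) h2, hst])
      refine ⟨s, ho, Conn.refl _ _, fun τ _ h => conn_of_deg_zero hs0 h, 0, by simp,
        fun e he hc => absurd ?_ (hs0 e.2), fun τ => by simp⟩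
      rwa [← conn_of_deg_zero hs0 hc, side_up]
    · have ho' : IsOdd ξ' s := by
        have n1 : side s (i + 1) ≠ side t i := fun e => by
          have := (side_eq_side e).1
          revert this; generalize i = k; revert k; decide
        have n2 : side s (i + 2) ≠ side t i := fun e => by
          have := (side_eq_side e).1
          revert this; generalize i = k; revert k; decide
        rw [isOdd_iff _ s i, hst] at ho ⊢
        simp only [hξ', Finset.mem_erase, ne_eq, not_true, false_and, n1, n2, not_false_iff,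
          true_and]
        tauto
      obtain ⟨t', a1, a2, a3, a4, a5⟩ := ih _ (hn ▸ Finset.card_erase_lt_of_mem hi) (hs.mono hsub)
        ho' rfl
      refine ⟨t', (hodd t' (hnt t' a3) a2).1 a1, a3, fun τ h1 h2 => ?_, a5⟩
      have h3 : τ ≠ s := fun e => ho (e ▸ h1)
      exact (a4 τ ((hodd τ (hnt τ h2) h3).2 h1) h2).resolve_left h3
  obtain ⟨t', a1, a2, a3, φ, a4, a5, a6⟩ := key
  have hin : ∀ e, e ≠ side t i → into s i e = 0 := fun e he => by
    rw [into, hst, Finsupp.single_eq_of_ne he]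
  refine ⟨t', a1, hnt t' a2, hconn' t' a2, fun τ h1 h2 => (hconn τ h2).imp_right (a3 τ h1),
    φ + into s i, fun e he => ?_, fun e he hc => ?_, fun τ => ?_⟩
  · by_cases h1 : e = side t i
    · rw [h1]
      exact ⟨hi, conn_up_side hi⟩
    · rw [Finsupp.add_apply, hin e h1, add_zero] at he
      exact ⟨hsub (a4 e he).1, hconn' _ (a4 e he).2⟩
  · by_cases h1 : e = side t i
    · have h2 : φ e = 0 := by_contra fun h => ht0 i (h1 ▸ (a4 e h).1)
      rw [Finsupp.add_apply, h2, zero_add, into, hst, h1, Finsupp.single_eq_same]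
      split_ifs <;> simp
    · have h2 : e ∈ ξ' := Finset.mem_erase.2 ⟨h1, he⟩
      rw [Finsupp.add_apply, hin e h1, add_zero]
      refine a5 e h2 ((hconn _ hc).resolve_left fun h => ht0 e.2 ?_)
      rwa [← h, side_up]
  · rw [Finsupp.coe_add, dv_add, a6, dv_into, hsd, nbr_nbr]
    ring

theorem line_isLine {ξ : Finset Edge} (hs : Simple ξ) {t : Tri} (ht : IsOdd ξ t) :
    IsLine ξ t (line ξ t) := by
  have h : ∃ φ, IsLine ξ t φ := by
    obtain ⟨t', a1, a2, -, -, φ, a4, -, a6⟩ := exists_mate hs ht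
    refine ⟨φ, a4, by rw [a6, if_neg a2.symm, if_pos rfl, zero_sub], fun τ hτ => ?_⟩
    rw [a6, if_neg fun e : τ = t' => hτ (e ▸ a1), if_neg fun e : τ = t => hτ (e ▸ ht), sub_self]
  rw [line, dif_pos h]
  exact h.choose_spec

theorem line_eq {ξ : Finset Edge} (hs : Simple ξ) {t : Tri} (ht : IsOdd ξ t) {φ : Edge →₀ ℤ}
    (h : IsLine ξ t φ) : line ξ t = φ := by
  have h' := line_isLine hs ht
  ext e
  refine sub_eq_zero.1 (flow_unique hs ht (ψ := ⇑(line ξ t) - ⇑φ) (fun e he => ?_) ?_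
    (fun τ _ hτ => ?_) e)
  · by_cases h1 : φ e = 0
    · exact h'.1 e (by simpa [h1] using he)
    · exact h.1 e h1
  · rw [dv_sub, h.2.1, h'.2.1, sub_self]
  · rw [dv_sub, h.2.2 τ hτ, h'.2.2 τ hτ, sub_self]

theorem line_supp {ξ : Finset Edge} {t : Tri} {e : Edge} (h : line ξ t e ≠ 0) :
    e ∈ ξ ∧ Conn ξ t (up e) := by
  rw [line] at h
  split_ifs at h with h1
  · exact h1.choose_spec.1 e h
  · exact absurd rfl h

theorem line_side_zero {ξ : Finset Edge} {t τ : Tri} (h : ¬ Conn ξ t τ) (i : Fin 3) :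
    line ξ t (side τ i) = 0 := by
  exact Line_side_zero (fun _ => line_supp) h i

theorem Line_spec {ξ : Finset Edge} (hs : Simple ξ) {t : Tri} (ht : IsOdd ξ t) :
    ∃ t', IsOdd ξ t' ∧ t' ≠ t ∧ Conn ξ t t' ∧
      (∀ τ, IsOdd ξ τ → Conn ξ t τ → τ = t ∨ τ = t') ∧
        (∀ e ∈ ξ, Conn ξ t (up e) → line ξ t e = 1 ∨ line ξ t e = -1) ∧
        ∀ τ, dv (line ξ t) τ = (if τ = t' then 1 else 0) - (if τ = t then 1 else 0) := by
  obtain ⟨t', a1, a2, a3, a3', φ, a4, a5, a6⟩ := exists_mate hs ht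
  have e : line ξ t = φ := line_eq hs ht
    ⟨a4, by rw [a6, if_neg a2.symm, if_pos rfl, zero_sub], fun τ hτ => by
      rw [a6, if_neg fun e : τ = t' => hτ (e ▸ a1), if_neg fun e : τ = t => hτ (e ▸ ht), sub_self]⟩
  rw [e]
  exact ⟨t', a1, a2, a3, a3', a5, a6⟩

theorem line_val {ξ : Finset Edge} (hs : Simple ξ) {t : Tri} (ht : IsOdd ξ t) {e : Edge}
    (he : e ∈ ξ) (hc : Conn ξ t (up e)) : line ξ t e = 1 ∨ line ξ t e = -1 := by
  obtain ⟨t', -, -, -, -, a5, -⟩ := Line_spec hs ht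
  exact a5 e he hc

theorem three_odd {ξ : Finset Edge} (hs : Simple ξ) {a b c : Tri} (ha : IsOdd ξ a)
    (hb : IsOdd ξ b) (hc : IsOdd ξ c) (hab : Conn ξ a b) (hac : Conn ξ a c) :
    a = b ∨ a = c ∨ b = c := by
  obtain ⟨t', -, -, -, a3, -⟩ := exists_mate hs ha
  rcases a3 b hb hab with h | h
  · exact Or.inl h.symm
  · rcases a3 c hc hac with h' | h'
    · exact Or.inr (Or.inl h'.symm)
    · exact Or.inr (Or.inr (h.trans h'.symm))

theorem dv_line {ξ : Finset Edge} (hs : Simple ξ) {t t' : Tri} (ht : IsOdd ξ t) (ht' : IsOdd ξ t')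
    (hne : t ≠ t') (hc : Conn ξ t t') (τ : Tri) :
    dv (line ξ t) τ = (if τ = t' then 1 else 0) - (if τ = t then 1 else 0) := by
  obtain ⟨s, -, -, -, a3, -, a6⟩ := Line_spec hs ht
  rw [a6, (a3 t' ht' hc).resolve_left hne.symm]

theorem line_rev {ξ : Finset Edge} (hs : Simple ξ) {t t' : Tri} (ht : IsOdd ξ t) (ht' : IsOdd ξ t')
    (hne : t ≠ t') (hc : Conn ξ t t') : line ξ t' = -line ξ t := by
  refine line_eq hs ht' ⟨fun e he => ?_, ?_, fun τ hτ => ?_⟩
  · have := line_supp (ξ := ξ) (t := t) (e := e) (by simpa using he)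
    exact ⟨this.1, hc.symm.trans this.2⟩
  · rw [Finsupp.coe_neg, dv_neg, dv_line hs ht ht' hne hc, if_pos rfl, if_neg hne.symm, sub_zero]
  · rw [Finsupp.coe_neg, dv_neg, (line_isLine hs ht).2.2 τ hτ, neg_zero]

theorem conn_congr {ξ ξ' : Finset Edge} {t : Tri}
    (h : ∀ τ, Conn ξ t τ → ∀ i, side τ i ∈ ξ ↔ side τ i ∈ ξ') (τ : Tri) :
    Conn ξ' t τ ↔ Conn ξ t τ := by
  constructor
  · intro hc
    induction hc with
    | refl => exact Conn.refl _ _
    | tail _ h1 ih =>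
      obtain ⟨i, hi, rfl⟩ := h1
      exact ih.trans (Conn.step ((h _ ih i).2 hi))
  · intro hc
    induction hc with
    | refl => exact Conn.refl _ _
    | tail h0 h1 ih =>
      obtain ⟨i, hi, rfl⟩ := h1
      exact Conn.trans ih (Conn.step ((h _ h0 i).1 hi))

theorem Line_isLine_congr {ξ ξ' : Finset Edge} {t : Tri}
    (h : ∀ τ, Conn ξ t τ → ∀ i, side τ i ∈ ξ ↔ side τ i ∈ ξ') {φ : Edge →₀ ℤ}
    (hφ : IsLine ξ t φ) : IsLine ξ' t φ := by
  refine ⟨fun e he => ?_, hφ.2.1, fun τ hτ => ?_⟩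
  · obtain ⟨h1, h2⟩ := hφ.1 e he
    have := h _ h2 e.2
    rw [side_up] at this
    exact ⟨this.1 h1, (conn_congr h _).2 h2⟩
  · by_cases hc : Conn ξ t τ
    · exact hφ.2.2 τ fun ho => hτ ((Line_isOdd_congr (h τ hc)).1 ho)
    · exact (dv_congr (ψ := 0) (Line_side_zero hφ.1 hc)).trans (dv_zero τ)

/-- the predicates `IsLine ξ t` and `IsLine ξ' t` are equal -/
theorem line_congr {ξ ξ' : Finset Edge} {t : Tri}
    (h : ∀ τ, Conn ξ t τ → ∀ i, side τ i ∈ ξ ↔ side τ i ∈ ξ') : line ξ' t = line ξ t := by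
  have e : IsLine ξ' t = IsLine ξ t := funext fun φ => propext
    ⟨Line_isLine_congr fun τ hτ i => (h τ ((conn_congr h τ).1 hτ) i).symm, Line_isLine_congr h⟩
  unfold line
  rw [e]

theorem chain {A : Type*} [AddCommGroup A] {ξ : Finset Edge} {t τ : Tri} {Φ : Site → A}
    (h : ∀ τ, Conn ξ t τ → ∀ i, cob Φ (side τ i) = 0) (hc : Conn ξ t τ) (i j : Fin 3) :
    Φ (vtx τ i) = Φ (vtx t j) := by
  have key : ∀ τ, Conn ξ t τ → ∀ p q, Φ (vtx τ q) = Φ (vtx τ p) := fun τ hτ p q =>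
    sub_eq_zero.1 ((inc_of_cob (φ := cob Φ) fun _ _ _ => rfl).symm.trans
      (inc_eq_zero fun r _ _ => h τ hτ r))
  induction hc generalizing i with
  | refl => exact key t (Conn.refl _ _) j i
  | tail h0 h1 ih =>
    obtain ⟨k, hk, rfl⟩ := h1
    rw [key _ (Conn.trans h0 (Conn.step hk)) (k + 1) i, vtx_nbr1, ih]

/-- a closed flow that vanishes inside `H`, inside `O` and on the triangles of a component that
touches both does not cross the cut -/
theorem Mc_zero_of_chain {ξ : Finset Edge} {φ : Edge →₀ ℤ} (hφ : ∀ t, dv φ t = 0)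
    {H O : Set Site} (h0 : (0 : Site) ∈ H) (hH : SConn H) (hO : SConn O) (hi : O.Infinite)
    (zH : ∀ e, Inside e H → φ e = 0) (zO : ∀ e, Inside e O → φ e = 0) {u v : Tri}
    (hu : TT u O) (hv : TT v H) (hc : Conn ξ u v)
    (hz : ∀ τ, Conn ξ u τ → ∀ i, φ (side τ i) = 0) : Mc φ = 0 := by
  obtain ⟨Φ, h1, h2⟩ := pot_fin φ φ.hasFiniteSupport hφ
  obtain ⟨i, hi'⟩ := hu
  obtain ⟨j, hj⟩ := hv
  rw [Mc_cob h1 h2, Jn.const (fun e he => (h2 e).trans (zH e he)) (hH 0 h0 _ hj),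
    chain (fun τ hτ k => (h2 _).trans (hz τ hτ k)) hc j i]
  exact zero_of_far h1 hO hi (fun e he => (h2 e).trans (zO e he)) _ hi'

theorem Lf_supp {ξ : Finset Edge} {U : Finset Tri} {e : Edge} (h : Lf ξ U e ≠ 0) :
    e ∈ ξ ∧ ∃ u ∈ U, Conn ξ u (up e) := by
  rw [Lf, Finsupp.neg_apply, neg_ne_zero, Finsupp.finsetSum_apply] at h
  obtain ⟨u, hu, h1⟩ := Finset.exists_ne_zero_of_sum_ne_zero h
  exact ⟨(line_supp h1).1, u, hu, (line_supp h1).2⟩

theorem Lf_side_zero {ξ : Finset Edge} {U : Finset Tri} {τ : Tri} (h : ∀ u ∈ U, ¬ Conn ξ u τ)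
    (i : Fin 3) : Lf ξ U (side τ i) = 0 := by
  by_contra h1
  obtain ⟨h2, u, hu, h3⟩ := Lf_supp h1
  exact h u hu (h3.trans (conn_up_side h2).symm)

theorem dv_Lf {ξ : Finset Edge} (hs : Simple ξ) {V U : Finset Tri} (hV : ∀ v ∈ V, IsOdd ξ v)
    (hU : ∀ u ∈ U, IsOdd ξ u) (hd : Disjoint V U) (h : Thru ξ V U) :
    ∃ V' ⊆ V, V'.card = U.card ∧ (∀ v ∈ V, v ∈ V' ↔ ∃ u ∈ U, Conn ξ u v) ∧
      ∀ τ, dv (Lf ξ U) τ = (if τ ∈ U then 1 else 0) - (if τ ∈ V' then 1 else 0) := by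
  choose! m hm hc using h
  have hne : ∀ u ∈ U, ∀ v ∈ V, u ≠ v := fun u hu v hv e =>
    Finset.disjoint_left.1 hd hv (e ▸ hu)
  have hinj : Set.InjOn m U := fun u hu u' hu' e => by
    rcases three_odd hs (hV _ (hm u hu)) (hU u hu) (hU u' hu') (hc u hu).symm
      (e ▸ (hc u' hu').symm) with h | h | h
    · exact absurd h.symm (hne u hu _ (hm u hu))
    · exact absurd h.symm (hne u' hu' _ (hm u hu))
    · exact h
  refine ⟨U.image m, fun v hv => ?_, Finset.card_image_of_injOn hinj, fun v hv => ?_, fun τ => ?_⟩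
  · obtain ⟨u, hu, rfl⟩ := Finset.mem_image.1 hv
    exact hm u hu
  · rw [Finset.mem_image]
    refine exists_congr fun u => and_congr_right fun hu => ⟨fun e => e ▸ hc u hu, fun h => ?_⟩
    rcases three_odd hs (hU u hu) (hV _ (hm u hu)) (hV v hv) (hc u hu) h with h | h | h
    · exact absurd h (hne u hu _ (hm u hu))
    · exact absurd h (hne u hu v hv)
    · exact h
  · rw [Lf, Finsupp.coe_neg, dv_neg, Finsupp.coe_finsetSum, dv_sum,
      Finset.sum_congr rfl fun u hu => dv_line hs (hU u hu) (hV _ (hm u hu))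
        (hne u hu _ (hm u hu)) (hc u hu) τ, Finset.sum_sub_distrib, neg_sub,
      ← Finset.sum_image (f := fun v => if τ = v then (1 : ℤ) else 0) hinj, Finset.sum_ite_eq,
      Finset.sum_ite_eq]

/-- Concatenation: the line from `u` runs in `η` up to `τ` and then in `ζ` up to `v`. -/
theorem line_concat {ξ η ζ : Finset Edge} (hs : Simple ξ) (hη : η ⊆ ξ) (hζ : ζ ⊆ ξ)
    {u τ v : Tri} (h1 : IsOdd ξ u) (h2 : IsOdd η u) (h3 : IsOdd η τ) (h4 : IsOdd ζ τ)
    (h5 : IsOdd ζ v) (h6 : IsOdd ξ v) (n1 : u ≠ τ) (n2 : τ ≠ v) (n3 : u ≠ v) (c1 : Conn η u τ)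
    (c2 : Conn ζ τ v) : line ξ u = line η u + line ζ τ := by
  have e : ∀ σ, dv (line η u + line ζ τ) σ =
      (if σ = v then 1 else 0) - (if σ = u then 1 else 0) := fun σ => by
    rw [Finsupp.coe_add, dv_add, dv_line (hs.mono hη) h2 h3 n1 c1,
      dv_line (hs.mono hζ) h4 h5 n2 c2]
    ring
  refine line_eq hs h1 ⟨fun e he => ?_, ?_, fun σ hσ => ?_⟩
  · by_cases h : line η u e = 0
    · rw [Finsupp.add_apply, h, zero_add] at he
      exact ⟨hζ (line_supp he).1, (c1.mono hη).trans ((line_supp he).2.mono hζ)⟩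
    · exact ⟨hη (line_supp h).1, (line_supp h).2.mono hη⟩
  · rw [e, if_neg n3, if_pos rfl, zero_sub]
  · rw [e, if_neg fun h : σ = v => hσ (h ▸ h6), if_neg fun h : σ = u => hσ (h ▸ h1), sub_self]

end Pool.Agent.TAF.U
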