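import Pool.Agent.P.MP_cb4022_pr.U.Markov
import Pool.Agent.P.MP_cb4022_pr.U.Expl
import Pool.Agent.P.MP_cb4022_pr.U.AutL

/-! Link patterns and arcs (paper A12, A13, H1, SubMul). -/

open scoped Classical symmDiff

noncomputable section

namespace Pool.Agent.TAF.U

theorem Link_ex3 (P : Fin 3 → Prop) : (∃ q, P q) ↔ P 0 ∨ P 1 ∨ P 2 := by
  constructor
  · rintro ⟨q, hq⟩
    fin_cases q
    · exact Or.inl hq
    · exact Or.inr (Or.inl hq)
    · exact Or.inr (Or.inr hq)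
  · rintro (h | h | h) <;> exact ⟨_, h⟩

theorem Link_a11 (q : Fin 3) : q + 1 + 1 = q + 2 := by revert q; decide
theorem Link_a12 (q : Fin 3) : q + 1 + 2 = q := by revert q; decide
theorem Link_a21 (q : Fin 3) : q + 2 + 1 = q := by revert q; decide
theorem Link_a22 (q : Fin 3) : q + 2 + 2 = q + 1 := by revert q; decide

theorem Link_res_sub (ξ : Finset Edge) (A : Set Site) : res ξ A ⊆ ξ := Finset.filter_subset _ _

theorem Link_res_mono (ξ : Finset Edge) {A B : Set Site} (h : B ⊆ A) : res ξ B ⊆ res ξ A :=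
  fun _ he => mem_res.2 ⟨(mem_res.1 he).1, (mem_res.1 he).2.imp (fun x => h x) fun x => h x⟩

theorem Link_side_far {ξ : Finset Edge} {A : Set Site} {t : Tri} (h : ¬ TT t A) (i : Fin 3) :
    side t i ∉ res ξ A := fun hi => h (mem_res.1 hi).2.tt

theorem Link_conn_far {ξ : Finset Edge} {A : Set Site} {t τ : Tri} (h : ¬ TT t A)
    (hc : Conn (res ξ A) t τ) : τ = t := conn_of_deg_zero (Link_side_far h) hc

theorem res_congr {ξ ξ' : Finset Edge} {A : Set Site} (h : ∀ e, Touch e A → (e ∈ ξ ↔ e ∈ ξ')) :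
    res ξ A = res ξ' A := by
  ext e
  simp only [mem_res]
  exact ⟨fun he => ⟨(h e he.2).1 he.1, he.2⟩, fun he => ⟨(h e he.2).2 he.1, he.2⟩⟩

/-- for a configuration that is even at `t` -/
theorem isOdd_res {ξ : Finset Edge} {A : Set Site} {t : Tri} (h : ¬ IsOdd ξ t ∨ ¬ TT t A) :
    IsOdd (res ξ A) t ↔ ∃ q, vtx t q ∈ A ∧ vtx t (q + 1) ∉ A ∧ vtx t (q + 2) ∉ A ∧ side t q ∈ ξ := by
  rw [isOdd_iff _ t 0, TT, Link_ex3] at h
  rw [isOdd_iff _ t 0, Link_ex3]
  simp only [mem_res, touch_side]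
  have e0 : (0 + 1 : Fin 3) = 1 := rfl
  have e1 : (0 + 2 : Fin 3) = 2 := rfl
  have e2 : (1 + 1 : Fin 3) = 2 := rfl
  have e3 : (1 + 2 : Fin 3) = 0 := rfl
  have e4 : (2 + 1 : Fin 3) = 0 := rfl
  have e5 : (2 + 2 : Fin 3) = 1 := rfl
  simp only [e0, e1, e2, e3, e4, e5] at h ⊢
  by_cases a0 : vtx t 0 ∈ A <;> by_cases a1 : vtx t 1 ∈ A <;> by_cases a2 : vtx t 2 ∈ A <;>
    simp only [a0, a1, a2] at h ⊢ <;> tauto

theorem odd_res_congr {A S S' : Finset Site} (h : ∀ x ∉ A, x ∈ S ↔ x ∈ S') (t : Tri) :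
    IsOdd (res (bd S) A) t ↔ IsOdd (res (bd S') A) t := by
  rw [isOdd_res (Or.inl (not_isOdd_bd S t)), isOdd_res (Or.inl (not_isOdd_bd S' t))]
  refine exists_congr fun q => ?_
  refine and_congr_right fun _ => and_congr_right fun h1 => and_congr_right fun h2 => ?_
  rw [side_mem_bd, side_mem_bd, h _ (by simpa using h1), h _ (by simpa using h2)]

theorem Link.refl (A S : Finset Site) : Link A S S := ⟨fun _ _ => Iff.rfl, fun _ _ _ _ => Iff.rfl⟩
theorem Link.symm {A S S' : Finset Site} (h : Link A S S') : Link A S' S := by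
  refine ⟨fun x hx => (h.1 x hx).symm, fun t t' ht ht' => ?_⟩
  exact (h.2 t t' ((odd_res_congr h.1 t).2 ht) ((odd_res_congr h.1 t').2 ht')).symm
theorem Link.trans {A S S' S'' : Finset Site} (h : Link A S S') (h' : Link A S' S'') :
    Link A S S'' := by
  refine ⟨fun x hx => (h.1 x hx).trans (h'.1 x hx), fun t t' ht ht' => ?_⟩
  exact (h.2 t t' ht ht').trans
    (h'.2 t t' ((odd_res_congr h.1 t).1 ht) ((odd_res_congr h.1 t').1 ht'))

theorem Link_good {B S : Finset Site} {t : Tri} {q : Fin 3} (h1 : vtx t (q + 1) ∉ (B : Set Site))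
    (h2 : vtx t (q + 2) ∉ (B : Set Site)) (hs : side t q ∈ bd S) :
    ¬ TT t B ∨ IsOdd (res (bd S) B) t := by
  by_cases h0 : vtx t q ∈ (B : Set Site)
  · exact Or.inr ((isOdd_res (Or.inl (not_isOdd_bd S t))).2 ⟨q, h0, h1, h2, hs⟩)
  · refine Or.inl ?_
    rintro ⟨i, hi⟩
    rcases fin3_cases q i with rfl | rfl | rfl
    exacts [h0 hi, h1 hi, h2 hi]

theorem Link_good_conn {B S S' : Finset Site} (h : Link B S S') {a b : Tri}
    (ha : ¬ TT a B ∨ IsOdd (res (bd S) B) a) (hb : ¬ TT b B ∨ IsOdd (res (bd S) B) b)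
    (hc : Conn (res (bd S) B) a b) : Conn (res (bd S') B) a b := by
  rcases ha with ha | ha
  · rw [Link_conn_far ha hc]; exact Conn.refl _ _
  rcases hb with hb | hb
  · rw [Link_conn_far hb hc.symm]; exact Conn.refl _ _
  exact (h.2 a b ha hb).1 hc

theorem Link_nest_aux {A B S S' : Finset Site} (hB : B ⊆ A) (h : Link B S S') {t t' : Tri}
    (ht : IsOdd (res (bd S) A) t) (ht' : IsOdd (res (bd S) A) t')
    (hc : Conn (res (bd S) A) t t') : Conn (res (bd S') A) t t' := by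
  have hBA : (B : Set Site) ⊆ A := fun x hx => hB hx
  have good : ∀ σ, IsOdd (res (bd S) A) σ → ¬ TT σ B ∨ IsOdd (res (bd S) B) σ := by
    intro σ hσ
    obtain ⟨q, -, h1, h2, hs⟩ := (isOdd_res (Or.inl (not_isOdd_bd S σ))).1 hσ
    exact Link_good (fun x => h1 (hBA x)) (fun x => h2 (hBA x)) hs
  have key : ∀ τ, Conn (res (bd S) A) t τ → ∃ t₀, (¬ TT t₀ B ∨ IsOdd (res (bd S) B) t₀) ∧
      Conn (res (bd S') A) t t₀ ∧ Conn (res (bd S) B) t₀ τ := by
    intro τ hτ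
    induction hτ with
    | refl => exact ⟨t, good t ht, Conn.refl _ _, Conn.refl _ _⟩
    | @tail σ _ _ hs ih =>
      obtain ⟨i, hi, rfl⟩ := hs
      obtain ⟨t₀, g0, c1, c2⟩ := ih
      obtain ⟨hi1, hi2⟩ := mem_res.1 hi
      by_cases hT : Touch (side σ i) B
      · exact ⟨t₀, g0, c1, c2.trans (Conn.step (mem_res.2 ⟨hi1, hT⟩))⟩
      · rw [touch_side, not_or] at hT
        have g1 := Link_good hT.1 hT.2 hi1
        have g2 : ¬ TT (nbr σ i) B ∨ IsOdd (res (bd S) B) (nbr σ i) :=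
          Link_good (q := i) (by rw [vtx_nbr1]; exact hT.2) (by rw [vtx_nbr2]; exact hT.1)
            (by rw [side_nbr]; exact hi1)
        have hi3 : side σ i ∈ bd S' := by
          rw [side_mem_bd] at hi1 ⊢
          rwa [← h.1 _ (by simpa using hT.1), ← h.1 _ (by simpa using hT.2)]
        refine ⟨nbr σ i, g2, ?_, Conn.refl _ _⟩
        exact (c1.trans ((Link_good_conn h g0 g1 c2).mono (Link_res_mono _ hBA))).trans
          (Conn.step (mem_res.2 ⟨hi3, hi2⟩))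
  obtain ⟨t₀, g0, c1, c2⟩ := key t' hc
  exact c1.trans ((Link_good_conn h g0 (good t' ht') c2).mono (Link_res_mono _ hBA))

/-- Nest. Call a triangle good if it does not touch `B` or is odd for `res (bd S) B`. Along a path
from `t` keep a good `t₀` joined to `t` in the second configuration and to the current triangle
in `res (bd S) B`. -/
theorem Link.nest {A B S S' : Finset Site} (hB : B ⊆ A) (h : Link B S S') : Link A S S' := by
  have h1 : ∀ x ∉ A, x ∈ S ↔ x ∈ S' := fun x hx => h.1 x fun hb => hx (hB hb)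
  refine ⟨h1, fun t t' ht ht' => ⟨Link_nest_aux hB h ht ht', ?_⟩⟩
  exact Link_nest_aux hB h.symm ((odd_res_congr h1 t).1 ht) ((odd_res_congr h1 t').1 ht')

theorem Meas.mono {A B : Finset Site} (hB : B ⊆ A) {F : Finset Site → ℝ} (h : Meas A F) :
    Meas B F := fun S S' hl => h S S' (hl.nest hB)

theorem Link.act {A S S' Y : Finset Site} (h : Link A S S') (hY : ∀ e ∈ bd Y, ¬ Touch e A) :
    Link A (S ∆ Y) (S' ∆ Y) := by
  have key : ∀ Z : Finset Site, res (bd (Z ∆ Y)) A = res (bd Z) A := by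
    intro Z
    refine res_congr fun e he => ?_
    have : e ∉ bd Y := fun hy => hY e hy he
    rw [bd_symmDiff, Finset.mem_symmDiff]; tauto
  refine ⟨fun x hx => ?_, ?_⟩
  · rw [Finset.mem_symmDiff, Finset.mem_symmDiff, h.1 x hx]
  · rw [key, key]; exact h.2

theorem arc_congr {N : ℕ} {ξ ξ' : Finset Edge} {p : Site} {r R : ℝ}
    (h : ∀ e, Touch e (ann p r R) → (e ∈ ξ ↔ e ∈ ξ')) : Arc N ξ p r R ↔ Arc N ξ' p r R := by
  simp only [Arc, res_congr h]

theorem Link_arc_link {N : ℕ} {S S' : Finset Site} {p : Site} {r R : ℝ}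
    (h : Link (ann p r R) S S') (ha : Arc N (bd S) p r R) : Arc N (bd S') p r R := by
  obtain ⟨W, hN, hW⟩ := ha
  refine ⟨W, hN, fun t ht => ?_⟩
  obtain ⟨o1, w1, t', o2, w2, hc⟩ := hW t ht
  exact ⟨(odd_res_congr h.1 t).1 o1, w1, t', (odd_res_congr h.1 t').1 o2, w2,
    (h.2 t t' o1 o2).1 hc⟩

theorem arc_link {N : ℕ} {S S' : Finset Site} {p : Site} {r R : ℝ} (h : Link (ann p r R) S S') :
    Arc N (bd S) p r R ↔ Arc N (bd S') p r R := by
  exact ⟨Link_arc_link h, Link_arc_link h.symm⟩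

theorem Arc.mono {N N' : ℕ} (hN : N' ≤ N) {ξ : Finset Edge} {p : Site} {r R : ℝ}
    (h : Arc N ξ p r R) : Arc N' ξ p r R := by
  obtain ⟨W, h1, h2⟩ := h
  exact ⟨W, hN.trans h1, h2⟩

/-- two vertices in `X`, and either the third too or the side between them is present -/
def EndOK (ξ : Finset Edge) (X : Set Site) (t : Tri) : Prop :=
  ∃ q, vtx t (q + 1) ∈ X ∧ vtx t (q + 2) ∈ X ∧ (side t q ∈ ξ ∨ vtx t q ∈ X)

theorem AllIn.endOK {ξ : Finset Edge} {X : Set Site} {t : Tri} (h : AllIn t X) : EndOK ξ X t :=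
  ⟨0, h _, h _, Or.inr (h _)⟩

theorem Link_endOK_mono {ξ : Finset Edge} {X Y : Set Site} (hXY : X ⊆ Y) {t : Tri}
    (h : EndOK ξ X t) : EndOK ξ Y t := by
  obtain ⟨q, h1, h2, h3⟩ := h
  exact ⟨q, hXY h1, hXY h2, h3.imp id fun x => hXY x⟩

theorem Link_dst_le (t : Tri) (i j : Fin 3) (p : Site) : dst (vtx t i) p ≤ dst (vtx t j) p + 1 := by
  linarith [dst_tri (vtx t i) (vtx t j) p, dst_vtx t i j]

theorem Link_inner {ξ : Finset Edge} {p : Site} {r R : ℝ} (hr : r + 1 ≤ R)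
    (hev : ∀ t, TT t (ann p r R) → ¬ IsOdd ξ t) {t : Tri} (h : EndOK ξ (bal p r) t) :
    AllIn t (bal p r) ∨ (IsOdd (res ξ (ann p r R)) t ∧ Two t (bal p r)) := by
  obtain ⟨q, h1, h2, h3⟩ := h
  by_cases h0 : vtx t q ∈ (bal p r : Set Site)
  · refine Or.inl fun i => ?_
    rcases fin3_cases q i with rfl | rfl | rfl
    exacts [h0, h1, h2]
  · refine Or.inr ⟨?_, q, h1, h2⟩
    simp only [Finset.mem_coe, mem_bal, not_le] at h0 h1 h2
    have hq : vtx t q ∈ (ann p r R : Set Site) :=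
      mem_ann.2 ⟨h0, by linarith [Link_dst_le t q (q + 1) p]⟩
    refine (isOdd_res (Or.inl (hev t ⟨q, hq⟩))).2 ⟨q, hq, ?_, ?_, ?_⟩
    · intro hx; linarith [(mem_ann.1 hx).1]
    · intro hx; linarith [(mem_ann.1 hx).1]
    · exact h3.resolve_right fun hx => absurd (mem_bal.1 hx) (not_le.2 h0)

theorem Link_outer {ξ : Finset Edge} {p : Site} {r R : ℝ} (hr : r + 1 ≤ R)
    (hev : ∀ t, TT t (ann p r R) → ¬ IsOdd ξ t) {τ t : Tri} (ho : IsOdd (res ξ (ann p r R)) τ)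
    (hc : Conn (res ξ (ann p r R)) τ t) (h : EndOK ξ (bal p R : Set Site)ᶜ t) :
    IsOdd (res ξ (ann p r R)) t ∧ Two t (bal p R : Set Site)ᶜ := by
  obtain ⟨q, h1, h2, h3⟩ := h
  refine ⟨?_, q, h1, h2⟩
  simp only [Set.mem_compl_iff, Finset.mem_coe, mem_bal, not_le] at h1 h2 h3
  by_cases h0 : R < dst (vtx t q) p
  · have hf : ¬ TT t (ann p r R) := by
      rintro ⟨i, hi⟩
      have := (mem_ann.1 hi).2
      rcases fin3_cases q i with rfl | rfl | rfl <;> linarith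
    rw [← Link_conn_far hf hc.symm]; exact ho
  · have hq : vtx t q ∈ (ann p r R : Set Site) :=
      mem_ann.2 ⟨by linarith [Link_dst_le t (q + 1) q p], not_lt.1 h0⟩
    refine (isOdd_res (Or.inl (hev t ⟨q, hq⟩))).2 ⟨q, hq, ?_, ?_, h3.resolve_right h0⟩
    · intro hx; linarith [(mem_ann.1 hx).2]
    · intro hx; linarith [(mem_ann.1 hx).2]

theorem Link_cross {ξ η : Finset Edge} (hη : η ⊆ ξ) {p : Site} {r R : ℝ} (hr : r + 1 ≤ R)
    (hev : ∀ t, TT t (ann p r R) → ¬ IsOdd ξ t) {t t' : Tri} (ht : EndOK ξ (bal p r) t)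
    (ht' : EndOK ξ (bal p R : Set Site)ᶜ t') (hc : Conn η t t') :
    ∃ τ, Conn η t τ ∧ IsOdd (res ξ (ann p r R)) τ ∧ Two τ (bal p r) ∧
      ∃ τ', IsOdd (res ξ (ann p r R)) τ' ∧ Two τ' (bal p R : Set Site)ᶜ ∧
        Conn (res ξ (ann p r R)) τ τ' := by
  have key : ∀ σ, Conn η t σ → AllIn σ (bal p r) ∨
      ∃ τ, Conn η t τ ∧ IsOdd (res ξ (ann p r R)) τ ∧ Two τ (bal p r) ∧
        (Conn (res ξ (ann p r R)) τ σ ∨ ∃ τ', IsOdd (res ξ (ann p r R)) τ' ∧
          Two τ' (bal p R : Set Site)ᶜ ∧ Conn (res ξ (ann p r R)) τ τ') := by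
    have base : ∀ σ, Conn η t σ → EndOK ξ (bal p r) σ → AllIn σ (bal p r) ∨
      ∃ τ, Conn η t τ ∧ IsOdd (res ξ (ann p r R)) τ ∧ Two τ (bal p r) ∧
        (Conn (res ξ (ann p r R)) τ σ ∨ ∃ τ', IsOdd (res ξ (ann p r R)) τ' ∧
          Two τ' (bal p R : Set Site)ᶜ ∧ Conn (res ξ (ann p r R)) τ τ') := by
      intro σ hσ he
      rcases Link_inner hr hev he with h | h
      · exact Or.inl h
      · exact Or.inr ⟨σ, hσ, h.1, h.2, Or.inl (Conn.refl _ _)⟩
    intro σ hσ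
    induction hσ with
    | refl => exact base t (Conn.refl _ _) ht
    | @tail σ _ hσ hs ih =>
      obtain ⟨i, hi, rfl⟩ := hs
      have hσ' : Conn η t (nbr σ i) := Conn.trans hσ (Conn.step hi)
      have hin : vtx σ (i + 1) ∈ (bal p r : Set Site) → vtx σ (i + 2) ∈ (bal p r : Set Site) →
          EndOK ξ (bal p r) (nbr σ i) := fun a b =>
        ⟨i, by rw [vtx_nbr1]; exact b, by rw [vtx_nbr2]; exact a,
          Or.inl (by rw [side_nbr]; exact hη hi)⟩
      rcases ih with ih | ⟨τ, c1, o1, w1, c2 | hf⟩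
      · exact base _ hσ' (hin (ih _) (ih _))
      · by_cases hT : Touch (side σ i) (ann p r R)
        · exact Or.inr ⟨τ, c1, o1, w1, Or.inl (c2.trans (Conn.step (mem_res.2 ⟨hη hi, hT⟩)))⟩
        · rw [touch_side, not_or] at hT
          obtain ⟨n1, n2⟩ := hT
          simp only [Finset.mem_coe, mem_ann, not_and, not_le] at n1 n2
          have d1 := Link_dst_le σ (i + 1) (i + 2) p
          have d2 := Link_dst_le σ (i + 2) (i + 1) p
          by_cases b1 : dst (vtx σ (i + 1)) p ≤ r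
          · have b2 : dst (vtx σ (i + 2)) p ≤ r := by
              by_contra b2
              linarith [n2 (not_le.1 b2)]
            exact base _ hσ' (hin (mem_bal.2 b1) (mem_bal.2 b2))
          · have m1 := n1 (not_le.1 b1)
            have m2 := n2 (by linarith)
            have he : EndOK ξ (bal p R : Set Site)ᶜ σ :=
              ⟨i, fun hx => absurd (mem_bal.1 hx) (not_le.2 m1),
                fun hx => absurd (mem_bal.1 hx) (not_le.2 m2), Or.inl (hη hi)⟩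
            obtain ⟨o2, w2⟩ := Link_outer hr hev o1 c2 he
            exact Or.inr ⟨τ, c1, o1, w1, Or.inr ⟨σ, o2, w2, c2⟩⟩
      · exact Or.inr ⟨τ, c1, o1, w1, Or.inr hf⟩
  rcases key t' hc with h | ⟨τ, c1, o1, w1, c2 | hf⟩
  · obtain ⟨q, h1, -, -⟩ := ht'
    exact absurd (bal_mono p (by linarith) (h (q + 1))) h1
  · obtain ⟨o2, w2⟩ := Link_outer hr hev o1 c2 ht'
    exact ⟨τ, c1, o1, w1, t', o2, w2, c2⟩
  · exact ⟨τ, c1, o1, w1, hf⟩

/-- ArcPaths. Invariant along the path from `t`: the current triangle has all vertices in the small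
ball, or is joined in `res ξ (ann p r R)` to an inner odd triangle that is joined to `t` in `η`,
or a crossing was found. -/
theorem arc_paths {ξ η : Finset Edge} (hη : η ⊆ ξ) {p : Site} {r R : ℝ} (hr : r + 1 ≤ R)
    (hev : ∀ t, TT t (ann p r R) → ¬ IsOdd ξ t) (W : Finset Tri)
    (hW : ∀ t ∈ W, EndOK ξ (bal p r) t ∧ ∃ t', EndOK ξ (bal p R : Set Site)ᶜ t' ∧ Conn η t t')
    (hsep : ∀ t ∈ W, ∀ t' ∈ W, Conn η t t' → t = t') : Arc W.card ξ p r R := by
  have key : ∀ t ∈ W, ∃ τ, Conn η t τ ∧ IsOdd (res ξ (ann p r R)) τ ∧ Two τ (bal p r) ∧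
      ∃ τ', IsOdd (res ξ (ann p r R)) τ' ∧ Two τ' (bal p R : Set Site)ᶜ ∧
        Conn (res ξ (ann p r R)) τ τ' := by
    intro t ht
    obtain ⟨h1, t', h2, h3⟩ := hW t ht
    exact Link_cross hη hr hev h1 h2 h3
  choose! f hf using key
  refine ⟨W.image f, ?_, ?_⟩
  · rw [Finset.card_image_of_injOn]
    intro a ha b hb hab
    refine hsep a ha b hb ((hf a ha).1.trans ?_)
    rw [hab]; exact (hf b hb).1.symm
  · intro τ hτ
    obtain ⟨t, ht, rfl⟩ := Finset.mem_image.1 hτ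
    exact (hf t ht).2

theorem Link_arc_paths {ξ η : Finset Edge} (hη : η ⊆ ξ) {p : Site} {r R : ℝ} (hr : r + 1 ≤ R)
    (hev : ∀ t, TT t (ann p r R) → ¬ IsOdd ξ t) (W : Finset Tri)
    (hW : ∀ t' ∈ W, EndOK ξ (bal p R : Set Site)ᶜ t' ∧ ∃ t, EndOK ξ (bal p r) t ∧ Conn η t t')
    (hsep : ∀ t ∈ W, ∀ t' ∈ W, Conn η t t' → t = t') : Arc W.card ξ p r R := by
  have key : ∀ t' ∈ W, ∃ t, EndOK ξ (bal p r) t ∧ Conn η t t' := fun t' h => (hW t' h).2
  choose! f hf using key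
  have hinj : ∀ a ∈ W, ∀ b ∈ W, Conn η (f a) (f b) → a = b := fun a ha b hb hc =>
    hsep a ha b hb ((hf a ha).2.symm.trans (hc.trans (hf b hb).2))
  have hcard : (W.image f).card = W.card := by
    rw [Finset.card_image_of_injOn]
    intro a ha b hb hab
    exact hinj a ha b hb (by rw [hab]; exact Conn.refl _ _)
  rw [← hcard]
  refine arc_paths hη hr hev _ ?_ ?_
  · intro t ht
    obtain ⟨a, ha, rfl⟩ := Finset.mem_image.1 ht
    exact ⟨(hf a ha).1, a, (hW a ha).1, (hf a ha).2⟩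
  · intro t ht t' ht' hc
    obtain ⟨a, ha, rfl⟩ := Finset.mem_image.1 ht
    obtain ⟨b, hb, rfl⟩ := Finset.mem_image.1 ht'
    rw [hinj a ha b hb hc]

theorem Link_endOK {ξ : Finset Edge} {A X : Set Site} {t : Tri} (hev : TT t A → ¬ IsOdd ξ t)
    (ho : IsOdd (res ξ A) t) (hw : Two t X) (hd : ∀ x ∈ X, x ∉ A) : EndOK ξ X t := by
  obtain ⟨q, h0, -, -, h3⟩ := (isOdd_res (by tauto)).1 ho
  obtain ⟨q', h1, h2⟩ := hw
  rcases fin3_cases q' q with rfl | rfl | rfl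
  · exact ⟨q, h1, h2, Or.inl h3⟩
  · exact absurd h0 (hd _ h1)
  · exact absurd h0 (hd _ h2)

theorem Link_two {t : Tri} {X Y : Set Site} (hX : Two t X) (hY : Two t Y) : ∃ x ∈ X, x ∈ Y := by
  obtain ⟨q, h1, h2⟩ := hX
  obtain ⟨q', h3, h4⟩ := hY
  rcases fin3_cases q q' with rfl | rfl | rfl
  · exact ⟨_, h1, h3⟩
  · rw [Link_a11] at h3; exact ⟨_, h2, h3⟩
  · rw [Link_a22] at h4; exact ⟨_, h1, h4⟩

theorem Link_simple_res {ξ : Finset Edge} {A : Set Site} (hev : ∀ t, TT t A → ¬ IsOdd ξ t) :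
    Simple (res ξ A) := by
  intro t
  by_cases h : TT t A
  · exact (deg_mono (Link_res_sub ξ A) t).trans (deg_le_two_of_not_odd (hev t h))
  · exact deg_le_two_of_not_mem (Link_side_far h 0)

theorem Link_ann_sub (p : Site) {r R r' R' : ℝ} (h1 : r ≤ r') (h2 : R' ≤ R) :
    ann p r' R' ⊆ ann p r R := fun _ hx =>
  mem_ann.2 ⟨h1.trans_lt (mem_ann.1 hx).1, (mem_ann.1 hx).2.trans h2⟩

theorem Link_tt_mono {t : Tri} {X Y : Set Site} (h : X ⊆ Y) (ht : TT t X) : TT t Y := by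
  obtain ⟨i, hi⟩ := ht
  exact ⟨i, h hi⟩

theorem Arc.sub {N : ℕ} {ξ : Finset Edge} {p : Site} {r R r' R' : ℝ} (h : Arc N ξ p r R)
    (hev : ∀ t, TT t (ann p r R) → ¬ IsOdd ξ t) (h1 : r ≤ r') (h2 : R' ≤ R) (h3 : r' + 1 ≤ R') :
    Arc N ξ p r' R' := by
  obtain ⟨W, hN, hW⟩ := h
  refine Arc.mono hN (arc_paths (Link_res_sub ξ (ann p r R)) h3
    (fun t ht => hev t (Link_tt_mono (fun x hx => Link_ann_sub p h1 h2 hx) ht)) W ?_ ?_)
  · intro t ht
    obtain ⟨o1, w1, t', o2, w2, hc⟩ := hW t ht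
    refine ⟨Link_endOK_mono (fun x hx => bal_mono p h1 hx) (Link_endOK (hev t) o1 w1 ?_), t',
      Link_endOK_mono (X := (bal p R : Set Site)ᶜ) (fun x hx hy => hx (bal_mono p h2 hy))
        (Link_endOK (hev t') o2 w2 ?_), hc⟩
    · intro x hx hy
      linarith [mem_bal.1 hx, (mem_ann.1 hy).1]
    · intro x hx hy
      exact hx (mem_bal.2 (mem_ann.1 hy).2)
  · intro t ht t' ht' hc
    obtain ⟨o1, w1, τ, o2, w2, hc2⟩ := hW t ht
    obtain ⟨o3, w3, -⟩ := hW t' ht'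
    have hrR : r ≤ R := by linarith
    rcases three_odd (Link_simple_res hev) o1 o3 o2 hc hc2 with h | rfl | rfl
    · exact h
    · obtain ⟨x, hx, hy⟩ := Link_two w1 w2
      exact absurd (bal_mono p hrR hx) hy
    · obtain ⟨x, hx, hy⟩ := Link_two w3 w2
      exact absurd (bal_mono p hrR hx) hy

theorem arc_tips_out {ξ : Finset Edge} {St : Finset Tri} {T : Set Site} (h : GoodSt ξ St T)
    {p : Site} {r R : ℝ} (hr : r + 1 ≤ R) (hev : ∀ t, TT t (ann p r R) → ¬ IsOdd ξ t)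
    (h1 : ∀ t ∈ St, AllIn t (bal p r)) (h2 : T ⊆ (bal p (R + 1) : Set Site)ᶜ) :
    Arc (tips ξ St T).card ξ p r R := by
  refine Link_arc_paths (exE_subset (St := St) (T := T)) hr hev _ ?_
    fun t ht t' ht' hc => h.tips_sep ht ht' hc
  intro τ hτ
  obtain ⟨hR, i, hi⟩ := mem_tips.1 hτ
  obtain ⟨t₀, h₀, hc⟩ := reach_conn hR
  refine ⟨AllIn.endOK fun j hj => h2 hi (mem_bal.2 ?_), t₀, (h1 t₀ h₀).endOK, hc⟩
  linarith [mem_bal.1 hj, Link_dst_le τ i j p]

theorem arc_tips_in {ξ : Finset Edge} {St : Finset Tri} {T : Set Site} (h : GoodSt ξ St T)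
    {p : Site} {r R : ℝ} (hr : r + 1 ≤ R) (hev : ∀ t, TT t (ann p r R) → ¬ IsOdd ξ t)
    (h1 : ∀ t ∈ St, AllIn t (bal p R : Set Site)ᶜ) (h2 : T ⊆ bal p (r - 1)) :
    Arc (tips ξ St T).card ξ p r R := by
  refine arc_paths (exE_subset (St := St) (T := T)) hr hev _ ?_
    fun t ht t' ht' hc => h.tips_sep ht ht' hc
  intro τ hτ
  obtain ⟨hR, i, hi⟩ := mem_tips.1 hτ
  obtain ⟨t₀, h₀, hc⟩ := reach_conn hR
  refine ⟨AllIn.endOK fun j => mem_bal.2 ?_, t₀, (h1 t₀ h₀).endOK, hc.symm⟩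
  linarith [mem_bal.1 (h2 hi), Link_dst_le τ j i p]

theorem arc_thru {ξ : Finset Edge} (hs : Simple ξ) {V U : Finset Tri} (hV : ∀ v ∈ V, IsOdd ξ v)
    (hU : ∀ u ∈ U, IsOdd ξ u) (h : Thru ξ V U) {p : Site} {r R : ℝ} (hr : r + 1 ≤ R)
    (hev : ∀ t, TT t (ann p r R) → ¬ IsOdd ξ t) (h1 : ∀ v ∈ V, AllIn v (bal p r))
    (h2 : ∀ u ∈ U, AllIn u (bal p R : Set Site)ᶜ) : Arc U.card ξ p r R := by
  refine Link_arc_paths (Finset.Subset.refl ξ) hr hev _ ?_ ?_
  · intro u hu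
    obtain ⟨v, hv, hc⟩ := h u hu
    exact ⟨(h2 u hu).endOK, v, (h1 v hv).endOK, hc.symm⟩
  · intro u hu u' hu' hc
    obtain ⟨v, hv, hc2⟩ := h u hu
    have hrR : r ≤ R := by linarith
    rcases three_odd hs (hU u hu) (hU u' hu') (hV v hv) hc hc2 with h | rfl | rfl
    · exact h
    · exact absurd (bal_mono p hrR (h1 _ hv 0)) (h2 _ hu 0)
    · exact absurd (bal_mono p hrR (h1 _ hv 0)) (h2 _ hu' 0)

theorem ArcB.mono {N : ℕ} {p : Site} {r R q q' : ℝ} (h : ArcB N p r R q) (hq : q ≤ q') :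
    ArcB N p r R q' := fun ξ hξ => (h ξ hξ).trans hq
theorem ArcB.nonneg {N : ℕ} {p : Site} {r R q : ℝ} (h : ArcB N p r R q) : 0 ≤ q :=
  (pr_nonneg _ _).trans (h ∅ fun t _ => by simp [IsOdd, deg])
theorem arcB_one (N : ℕ) (p : Site) (r R : ℝ) : ArcB N p r R 1 := fun _ _ => pr_le_one _ _
theorem ArcB.of_le {N N' : ℕ} (hN : N ≤ N') {p : Site} {r R q : ℝ} (h : ArcB N p r R q) :
    ArcB N' p r R q := fun ξ hξ => (pr_mono fun _ _ ha => ha.mono hN).trans (h ξ hξ)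

theorem Link_even_act {ξ : Finset Edge} {t : Tri} (h : ¬ IsOdd ξ t) (S : Finset Site) :
    ¬ IsOdd (ξ ∆ bd S) t := by
  have := not_isOdd_bd S t
  rw [isOdd_symmDiff]; tauto

theorem Link_act_act (ξ : Finset Edge) (S₀ S : Finset Site) :
    ξ ∆ bd (S₀ ∆ S) = (ξ ∆ bd S₀) ∆ bd S := by rw [bd_symmDiff, symmDiff_assoc]

theorem Link_Gr_empty (D : Finset Site) : Gr D ∅ = D.powerset := by
  ext S; simp [mem_Gr]

theorem Link_pr_Gr {N : ℕ} {p : Site} {r R q : ℝ} (h : ArcB N p r R q) {D H : Finset Site}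
    (hA : ann p r R ⊆ D) (hd : Disjoint (ann p r R) H) {ξ : Finset Edge}
    (hev : ∀ t, TT t (ann p r R) → ¬ IsOdd ξ t) :
    pr (Gr D H) (fun S => Arc N (ξ ∆ bd S) p r R) ≤ q := by
  refine pr_Gr_le hA hd fun S₀ _ => ?_
  simp only [Link_act_act]
  exact h _ fun t ht => Link_even_act (hev t ht) S₀

theorem ArcB.sub {N : ℕ} {p : Site} {r R r' R' q : ℝ} (h : ArcB N p r' R' q) (h1 : r ≤ r')
    (h2 : R' ≤ R) (h3 : r' + 1 ≤ R') : ArcB N p r R q := by
  intro ξ hev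
  have hs := Link_ann_sub p h1 h2
  refine (pr_mono (Q := fun S => Arc N (ξ ∆ bd S) p r' R') fun S _ ha =>
    ha.sub (fun t ht => Link_even_act (hev t ht) S) h1 h2 h3).trans ?_
  rw [← Link_Gr_empty]
  exact Link_pr_Gr h hs (Finset.disjoint_empty_right _)
    fun t ht => hev t (Link_tt_mono (fun x hx => hs hx) ht)

theorem pr_arc_Om {N : ℕ} {p : Site} {r R q : ℝ} (h : ArcB N p r R q) {D H : Finset Site}
    {T : Finset Tri} (hA : ann p r R ⊆ D) (hd : Disjoint (ann p r R) H)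
    (hT : ∀ t ∈ T, ¬ TT t (ann p r R)) : pr (Om D H T) (fun ξ => Arc N ξ p r R) ≤ q := by
  refine pr_Om_le hA hd h.nonneg fun ξ hξ => h ξ fun t ht ho => ?_
  exact hT t (((mem_Om.1 hξ).2 t).1 ho) ht

theorem pr_arc_Gr {N : ℕ} {p : Site} {r R q : ℝ} (h : ArcB N p r R q) {D H : Finset Site}
    (hA : ann p r R ⊆ D) (hd : Disjoint (ann p r R) H) {ξ : Finset Edge}
    (hev : ∀ t, TT t (ann p r R) → ¬ IsOdd ξ t) :
    pr (Gr D H) (fun S => Arc N (ξ ∆ bd S) p r R) ≤ q := by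
  exact Link_pr_Gr h hA hd hev

theorem Link_arc_inter {N : ℕ} {ξ : Finset Edge} {p : Site} {r R : ℝ} {B S : Finset Site}
    (hS : S ⊆ ann p r R ∪ B) (hB : ∀ x ∈ ann p r R, ∀ y ∈ B, 1 < dst x y) :
    Arc N (ξ ∆ bd S) p r R ↔ Arc N (ξ ∆ bd (S ∩ ann p r R)) p r R := by
  refine arc_congr fun e he => ?_
  have d1 : dst (lft e) (rgt e) = 1 := dst_adj (adj_lft_rgt e)
  have key : ∀ x, x = lft e ∨ x = rgt e → (x ∈ S ↔ x ∈ S ∩ ann p r R) := by
    intro x hx
    refine ⟨fun h => Finset.mem_inter.2 ⟨h, ?_⟩, fun h => (Finset.mem_inter.1 h).1⟩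
    refine (Finset.mem_union.1 (hS h)).resolve_right fun hb => ?_
    rcases he with he | he <;> have := hB _ he _ hb <;> rcases hx with rfl | rfl
    · simp at this; linarith
    · linarith
    · rw [dst_comm] at this; linarith
    · simp at this; linarith
  have : e ∈ bd S ↔ e ∈ bd (S ∩ ann p r R) := by
    rw [mem_bd, mem_bd, ← key _ (Or.inl rfl), ← key _ (Or.inr rfl)]
  rw [Finset.mem_symmDiff, Finset.mem_symmDiff, this]

theorem ArcB.mul {N : ℕ} {p : Site} {r r' R q q' : ℝ} (h : ArcB N p r r' q)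
    (h' : ArcB N p (r' + 1) R q') (h1 : r + 1 ≤ r') (h2 : r' + 2 ≤ R) : ArcB N p r R (q * q') := by
  intro ξ hev
  have hA : ann p r r' ⊆ ann p r R := Link_ann_sub p le_rfl (by linarith)
  have hB : ann p (r' + 1) R ⊆ ann p r R := Link_ann_sub p (by linarith) le_rfl
  have far : ∀ x ∈ ann p r r', ∀ y ∈ ann p (r' + 1) R, 1 < dst x y := by
    intro x hx y hy
    have := dst_tri y x p
    rw [dst_comm y x] at this
    linarith [(mem_ann.1 hx).2, (mem_ann.1 hy).1]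
  have hd : Disjoint (ann p r r') (ann p (r' + 1) R) := by
    refine Finset.disjoint_left.2 fun x hx hy => ?_
    have := far x hx x hy
    simp at this; linarith
  refine (pr_mono (Q := fun S => Arc N (ξ ∆ bd S) p r r' ∧ Arc N (ξ ∆ bd S) p (r' + 1) R)
    fun S _ ha => ⟨ha.sub (fun t ht => Link_even_act (hev t ht) S) le_rfl (by linarith) h1,
      ha.sub (fun t ht => Link_even_act (hev t ht) S) (by linarith) le_rfl (by linarith)⟩).trans ?_
  rw [← Link_Gr_empty]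
  refine pr_Gr_le (Finset.union_subset hA hB) (Finset.disjoint_empty_right _) fun S₀ _ => ?_
  simp only [Link_act_act]
  have hev' : ∀ t, TT t (ann p r R) → ¬ IsOdd (ξ ∆ bd S₀) t := fun t ht =>
    Link_even_act (hev t ht) S₀
  generalize ξ ∆ bd S₀ = ζ at hev' ⊢
  have e1 := avg_indep (D := ann p r r' ∪ ann p (r' + 1) R) Finset.subset_union_left
    Finset.subset_union_right hd (fun S => if Arc N (ζ ∆ bd S) p r r' then (1 : ℝ) else 0)
    (fun S => if Arc N (ζ ∆ bd S) p (r' + 1) R then (1 : ℝ) else 0)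
  have b1 := h ζ fun t ht => hev' t (Link_tt_mono (fun x hx => hA hx) ht)
  have b2 := h' ζ fun t ht => hev' t (Link_tt_mono (fun x hx => hB hx) ht)
  refine le_trans (le_of_eq ?_) (mul_le_mul b1 b2 (pr_nonneg _ _) h.nonneg)
  refine Eq.trans ?_ e1
  refine avg_congr fun S hS => ?_
  have hS' := Finset.mem_powerset.1 hS
  have i1 := Link_arc_inter (N := N) (ξ := ζ) hS' far
  have i2 := Link_arc_inter (N := N) (ξ := ζ) (B := ann p r r') (S := S) (p := p) (r := r' + 1)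
    (R := R) (by rwa [Finset.union_comm]) fun x hx y hy => by rw [dst_comm]; exact far y hy x hx
  by_cases c1 : Arc N (ζ ∆ bd S) p r r' <;> by_cases c2 : Arc N (ζ ∆ bd S) p (r' + 1) R <;>
    simp [c1, c2, ← i1, ← i2]

theorem Link_scale {N : ℕ} {c l r₀ : ℝ} (hl : 2 ≤ l)
    (h : ∀ r, r₀ ≤ r → 1 ≤ r → ArcB N 0 r (l * r) c) {r₁ : ℝ} (h0 : r₀ ≤ r₁) (h1 : 1 ≤ r₁)
    (k : ℕ) : ArcB N 0 r₁ (l * (r₁ * (2 * l) ^ k)) (c ^ (k + 1)) := by
  induction k with
  | zero => simpa using h r₁ h0 h1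
  | succ k ih =>
    have p1 : (1 : ℝ) ≤ (2 * l) ^ k := one_le_pow₀ (by linarith)
    have p2 : r₁ ≤ r₁ * (2 * l) ^ k := le_mul_of_one_le_right (by linarith) p1
    have e : r₁ * (2 * l) ^ (k + 1) = 2 * l * (r₁ * (2 * l) ^ k) := by ring
    rw [pow_succ c, e]
    generalize r₁ * (2 * l) ^ k = ρ at *
    have p3 : 2 * ρ ≤ l * ρ := by nlinarith
    have p4 : 2 * (2 * l * ρ) ≤ l * (2 * l * ρ) := by nlinarith
    refine ih.mul ((h (2 * l * ρ) (by linarith) (by linarith)).sub (by linarith) le_rfl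
      (by linarith)) (by linarith) (by linarith)

/-- use the radii `r₁ (2 l) ^ k` with `r₁ = max r r₀` -/
theorem expB_of_scale {N : ℕ} {γ l r₀ : ℝ} (hγ : 0 ≤ γ) (hl : 2 ≤ l)
    (h : ∀ r, r₀ ≤ r → 1 ≤ r → ArcB N 0 r (l * r) ((2 * l) ^ (-γ))) : ExpB N γ := by
  have hm : (1 : ℝ) ≤ max r₀ 1 := le_max_right _ _
  have hl1 : (1 : ℝ) < 2 * l := by linarith
  refine ⟨(max r₀ 1 * (2 * l)) ^ γ, fun r R hr hR => ?_⟩
  have h0 : r₀ ≤ max r r₀ := le_max_right _ _
  have h1 : r ≤ max r r₀ := le_max_left _ _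
  have h2 : max r r₀ ≤ max r₀ 1 * r := by
    refine max_le (le_mul_of_one_le_left (by linarith) hm) ?_
    exact (le_max_left r₀ 1).trans (le_mul_of_one_le_right (by linarith) hr)
  generalize max r r₀ = r₁ at *
  generalize max r₀ 1 = m at *
  have key : ∀ k : ℕ, R ≤ r₁ * (2 * l) ^ (k + 1) →
      ((2 * l) ^ (-γ)) ^ k ≤ (m * (2 * l)) ^ γ * (r / R) ^ γ := by
    intro k hk
    have hRp : 0 < R := by linarith
    have hp : (0 : ℝ) < (2 * l) ^ k := by positivity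
    rw [← Real.mul_rpow (by positivity) (by positivity), ← Real.rpow_natCast,
      ← Real.rpow_mul (by positivity), show -γ * k = -(k : ℝ) * γ by ring,
      Real.rpow_mul (by positivity)]
    refine Real.rpow_le_rpow (by positivity) ?_ hγ
    rw [Real.rpow_neg (by positivity), Real.rpow_natCast, ← mul_div_assoc, le_div_iff₀ hRp,
      inv_mul_le_iff₀ hp]
    calc R ≤ r₁ * (2 * l) ^ (k + 1) := hk
      _ ≤ m * r * (2 * l) ^ (k + 1) := by gcongr
      _ = _ := by ring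
  by_cases hc : R ≤ r₁ * (2 * l)
  · refine (arcB_one N 0 r R).mono ?_
    simpa using key 0 (by simpa using hc)
  · have hr1 : 0 < r₁ := by linarith
    have hx : 1 ≤ R / r₁ := by
      rw [le_div_iff₀ hr1]; nlinarith
    obtain ⟨n, n1, n2⟩ := exists_nat_pow_near hx hl1
    rw [le_div_iff₀ hr1] at n1
    rw [div_lt_iff₀ hr1] at n2
    cases n with
    | zero => exact absurd (by simpa [mul_comm] using n2.le) hc
    | succ k =>
      have p1 : (1 : ℝ) ≤ (2 * l) ^ k := one_le_pow₀ hl1.le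
      have p2 : r₁ ≤ r₁ * (2 * l) ^ k := le_mul_of_one_le_right hr1.le p1
      have e : (2 * l) ^ (k + 1) * r₁ = 2 * (l * (r₁ * (2 * l) ^ k)) := by ring
      have p3 : 2 * (r₁ * (2 * l) ^ k) ≤ l * (r₁ * (2 * l) ^ k) := by nlinarith
      refine ((Link_scale hl h h0 (hr.trans h1) k).sub h1 (by linarith) (by linarith)).mono ?_
      exact key (k + 1) (by linarith)

theorem expB_nonpos (N : ℕ) {γ : ℝ} (h : γ ≤ 0) : ExpB N γ := by
  refine ⟨1, fun r R hr hR => (arcB_one N 0 r R).mono ?_⟩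
  have hRp : 0 < R := by linarith
  rw [one_mul]
  exact Real.one_le_rpow_of_pos_of_le_one_of_nonpos (by positivity) ((div_le_one hRp).2 hR) h

theorem ExpB.mono {N N' : ℕ} {γ γ' : ℝ} (h : ExpB N γ) (hN : N ≤ N') (hγ : γ' ≤ γ) :
    ExpB N' γ' := by
  obtain ⟨C, hC⟩ := h
  have h0 : 0 ≤ C := by simpa using (hC 1 1 le_rfl le_rfl).nonneg
  refine ⟨C, fun r R hr hR => ((hC r R hr hR).of_le hN).mono ?_⟩
  have hRp : 0 < R := by linarith
  exact mul_le_mul_of_nonneg_left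
    (Real.rpow_le_rpow_of_exponent_ge (by positivity) ((div_le_one hRp).2 hR) hγ) h0

theorem Link_pair {ξ ξ' : Finset Edge} {St : Finset Tri} {T : Set Site} (hg : GoodSt ξ' St T)
    (hSt : ∀ t, IsOdd ξ' t → t ∈ St) (h : ∀ e, ¬ Touch e T → (e ∈ ξ ↔ e ∈ ξ'))
    (h2 : (tips ξ St T).card ≤ 2) {t t' : Tri} (ht : t ∈ St) (ht' : t' ∈ St) (hc : Conn ξ t t') :
    Conn ξ' t t' := by
  obtain ⟨-, e2, e3⟩ := expl_congr_off (St := St) h
  have hE : exE ξ St T ⊆ ξ' := by rw [← e2]; exact exE_subset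
  rcases conn_cases (ξ := ξ) (T := T) ht with ⟨τ, hτ, c1⟩ | h1
  swap
  · exact (h1 t' hc).2.2.mono hE
  rcases conn_cases (ξ := ξ) (T := T) ht' with ⟨τ', hτ', c2⟩ | h1
  swap
  · exact ((h1 t hc.symm).2.2.mono hE).symm
  refine (c1.mono hE).trans (Conn.trans ?_ (c2.mono hE).symm)
  by_cases hne : τ = τ'
  · rw [hne]; exact Conn.refl _ _
  have odd : ∀ σ, IsOdd (ξ' \ exE ξ' St T) σ ↔ σ ∈ tips ξ St T := by
    intro σ
    rw [hg.odd_sdiff, e3]
    constructor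
    · rintro ⟨a, b⟩
      have : ¬ IsOdd ξ' σ := fun ho => hg.far σ (hSt σ ho) a
      tauto
    · intro b
      have a := (mem_tips.1 b).2
      have : ¬ IsOdd ξ' σ := fun ho => hg.far σ (hSt σ ho) a
      tauto
  obtain ⟨σ, o1, n1, c3, -⟩ := exists_mate (hg.simple.mono Finset.sdiff_subset) ((odd τ).2 hτ)
  have hσ : σ = τ' := by
    by_contra hn
    have hsub : ({τ, τ', σ} : Finset Tri) ⊆ tips ξ St T := by
      intro x hx
      simp only [Finset.mem_insert, Finset.mem_singleton] at hx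
      rcases hx with rfl | rfl | rfl
      exacts [hτ, hτ', (odd _).1 o1]
    have := Finset.card_le_card hsub
    rw [Finset.card_eq_three.2 ⟨τ, τ', σ, hne, n1.symm, Ne.symm hn, rfl⟩] at this
    omega
  rw [← hσ]
  exact c3.mono Finset.sdiff_subset

/-- at most two tips: the pairing is forced -/
theorem link_of_tips {Q B S S' : Finset Site} (hB : B ⊆ Q) (h : ∀ x ∉ B, x ∈ S ↔ x ∈ S')
    {St : Finset Tri} (hSt : ∀ t, IsOdd (res (bd S) Q) t ↔ t ∈ St) (hfar : ∀ t ∈ St, ¬ TT t B)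
    (h2 : (tips (res (bd S) Q) St B).card ≤ 2) : Link Q S S' := by
  have h1 : ∀ x ∉ Q, x ∈ S ↔ x ∈ S' := fun x hx => h x fun hb => hx (hB hb)
  have hSt' : ∀ t, IsOdd (res (bd S') Q) t ↔ t ∈ St := fun t =>
    (odd_res_congr h1 t).symm.trans (hSt t)
  have he : ∀ e, ¬ Touch e B → (e ∈ res (bd S) Q ↔ e ∈ res (bd S') Q) := by
    intro e hn
    rw [Touch, not_or] at hn
    rw [mem_res, mem_res, mem_bd, mem_bd, h _ (by simpa using hn.1), h _ (by simpa using hn.2)]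
  have g1 : GoodSt (res (bd S) Q) St B := ⟨(simple_bd S).mono (Link_res_sub _ _),
    fun t ht => (hSt t).2 ht, hfar, fun t ht _ => (hSt t).1 ht⟩
  have g2 : GoodSt (res (bd S') Q) St B := ⟨(simple_bd S').mono (Link_res_sub _ _),
    fun t ht => (hSt' t).2 ht, hfar, fun t ht _ => (hSt' t).1 ht⟩
  refine ⟨h1, fun t t' ht ht' => ⟨?_, ?_⟩⟩
  · exact Link_pair g2 (fun t ht => (hSt' t).1 ht) he h2 ((hSt t).1 ht) ((hSt t').1 ht')
  · refine Link_pair g1 (fun t ht => (hSt t).1 ht) (fun e hn => (he e hn).symm) ?_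
      ((hSt t).1 ht) ((hSt t').1 ht')
    rw [(expl_congr_off (St := St) he).2.2]; exact h2

/-- H1 -/
theorem pivot {D Q S S' : Finset Site} {w : Site} {r R : ℝ} (hS : S ⊆ D) (hS' : S' ⊆ D)
    (h : ∀ x ∉ bal w r, x ∈ S ↔ x ∈ S') (hQ : bal w (R + 1) ∩ D ⊆ Q) (hr : r + 2 ≤ R)
    (hn : ¬ Arc 4 (bd S) w (r + 1) R) : Link Q S S' := by
  obtain ⟨St, hSt⟩ := exists_oddSet (res (bd S) Q)
  have hin : ∀ x ∈ S, dst x w ≤ R + 1 → x ∈ Q := fun x hx hd =>
    hQ (Finset.mem_inter.2 ⟨mem_bal.2 hd, hS hx⟩)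
  have hout : ∀ t, IsOdd (res (bd S) Q) t → AllIn t (bal w R : Set Site)ᶜ := by
    intro t ht i hi
    obtain ⟨q, -, n1, n2, hs⟩ := (isOdd_res (Or.inl (not_isOdd_bd S t))).1 ht
    rw [side_mem_bd] at hs
    have hi' := mem_bal.1 hi
    have a1 : vtx t (q + 1) ∉ S := fun hx =>
      n1 (hin _ hx (by linarith [Link_dst_le t (q + 1) i w]))
    have a2 : vtx t (q + 2) ∉ S := fun hx =>
      n2 (hin _ hx (by linarith [Link_dst_le t (q + 2) i w]))
    tauto
  have hfar : ∀ t ∈ St, ¬ TT t (bal w r ∩ D : Finset Site) := by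
    rintro t ht ⟨i, hi⟩
    exact hout t ((hSt t).2 ht) i (bal_mono w (by linarith) (Finset.mem_inter.1 hi).1)
  have g1 : GoodSt (res (bd S) Q) St (bal w r ∩ D : Finset Site) :=
    ⟨(simple_bd S).mono (Link_res_sub _ _), fun t ht => (hSt t).2 ht, hfar,
      fun t ht _ => (hSt t).1 ht⟩
  refine link_of_tips (B := bal w r ∩ D) ?_ ?_ hSt hfar ?_
  · exact (Finset.inter_subset_inter (bal_mono w (by linarith)) (Finset.Subset.refl D)).trans hQ
  · intro x hx
    by_cases hD : x ∈ D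
    · exact h x fun hb => hx (Finset.mem_inter.2 ⟨hb, hD⟩)
    · exact ⟨fun a => absurd (hS a) hD, fun a => absurd (hS' a) hD⟩
  · by_contra hc
    have p1 := g1.parity
    have p2 := even_odd hSt
    have p3 : 4 ≤ (tips (res (bd S) Q) St (bal w r ∩ D : Finset Site)).card := by
      obtain ⟨a, ha⟩ := p1
      obtain ⟨b, hb⟩ := p2
      omega
    have ha := arc_tips_in g1 (p := w) (r := r + 1) (R := R) (by linarith)
      (fun t ⟨i, hi⟩ ho => hout t ho i (mem_bal.2 (mem_ann.1 hi).2))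
      (fun t ht => hout t ((hSt t).2 ht))
      (fun x hx => by
        rw [add_sub_cancel_right]; exact (Finset.mem_inter.1 hx).1)
    refine hn ((arc_congr fun e he => ?_).1 (ha.mono p3))
    refine ⟨fun a => (mem_res.1 a).1, fun a => mem_res.2 ⟨a, ?_⟩⟩
    have d1 : dst (lft e) (rgt e) = 1 := dst_adj (adj_lft_rgt e)
    have d2 := dst_tri (lft e) (rgt e) w
    have d3 := dst_tri (rgt e) (lft e) w
    rw [dst_comm (rgt e) (lft e)] at d3
    have d4 : dst (lft e) w ≤ R + 1 ∧ dst (rgt e) w ≤ R + 1 := by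
      rcases he with he | he <;> have := (mem_ann.1 he).2 <;> constructor <;> linarith
    rw [mem_bd] at a
    by_cases hl : lft e ∈ S
    · exact Or.inl (hin _ hl d4.1)
    · exact Or.inr (hin _ (by tauto) d4.2)

end Pool.Agent.TAF.U
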