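import Pool.Agent.P.MP_cb4022_pr.U.LoopB
import Pool.Agent.P.MP_cb4022_pr.U.Link

/-! Equal link patterns give close loops (paper I2). -/

open scoped Classical symmDiff

noncomputable section

namespace Pool.Agent.TAF.U

/-- `A` is a union of well separated cells of diameter at most `ρ` -/
def Cells (A : Finset Site) (ρ : ℝ) : Prop :=
  ∃ cell : Site → ℤ × ℤ, (∀ x ∈ A, ∀ y ∈ A, dst x y ≤ 1 → cell x = cell y) ∧
    ∀ x ∈ A, ∀ y ∈ A, cell x = cell y → dst x y ≤ ρ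

/-- both ends are outside `A` -/
def OutD (A : Finset Site) (d : Site × Site) : Prop := d.1 ∉ A ∧ d.2 ∉ A

/-- `k` is the time of the first return to the darts outside `A` -/
def Ret (A S : Finset Site) (d : Site × Site) (k : ℕ) : Prop :=
  0 < k ∧ OutD A ((nxt S)^[k] d) ∧ ∀ i, 0 < i → i < k → ¬ OutD A ((nxt S)^[i] d)

section
variable {A S S' : Finset Site} {d : Site × Site} {ρ : ℝ} {k k' : ℕ}

theorem exists_ret (h : IsDart S d) (ho : OutD A d) : ∃ k, Ret A S d k := by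
  have h1 : ∃ k, 0 < k ∧ OutD A ((nxt S)^[k] d) :=
    ⟨len S d, len_pos h, by rwa [len, Function.iterate_minimalPeriod]⟩
  exact ⟨Nat.find h1, (Nat.find_spec h1).1, (Nat.find_spec h1).2,
    fun i hi hk h2 => Nat.find_min h1 hk ⟨hi, h2⟩⟩

theorem LoopL_dart (hl : ∀ x ∉ A, x ∈ S ↔ x ∈ S') (h : IsDart S d) (ho : OutD A d) :
    IsDart S' d := ⟨h.1, (hl _ ho.1).1 h.2.1, fun h' => h.2.2 ((hl _ ho.2).2 h')⟩

theorem LoopL_one (ho : OutD A d) (ha : apex d ∉ A) (h1 : Ret A S d k) : k = 1 := by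
  by_contra hk
  refine h1.2.2 1 one_pos (by have := h1.1; omega) ?_
  simp only [Function.iterate_one, nxt]
  split_ifs
  · exact ⟨ha, ho.2⟩
  · exact ⟨ho.1, ha⟩

theorem LoopL_uniq {t : Tri} {m q : Fin 3} (hq : vtx t q ∈ A) (h1 : vtx t (m + 1) ∉ A)
    (h2 : vtx t (m + 2) ∉ A) : q = m := by
  rcases fin3_cases m q with h | h | h
  · exact h
  · exact absurd (h ▸ hq) h1
  · exact absurd (h ▸ hq) h2

theorem LoopL_walk {t : Tri} {i : Fin 3} (h : IsDart S (vtx t (i + 1), vtx t (i + 2)))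
    (ha : vtx t i ∈ A) (h1 : Ret A S (vtx t (i + 1), vtx t (i + 2)) k) (j : ℕ) (hj : j < k) :
    ∃ τ q, (nxt S)^[j] (vtx t (i + 1), vtx t (i + 2)) = (vtx τ (q + 1), vtx τ (q + 2)) ∧
      Conn (res (bd S) A) t τ ∧ TT τ A := by
  induction j with
  | zero => exact ⟨t, i, rfl, Conn.refl _ _, i, ha⟩
  | succ j ih =>
    obtain ⟨τ, q, e, hc, -⟩ := ih (by omega)
    obtain ⟨m, -, hm, e'⟩ := nxt_tri (S := S) (t := τ) (i := q) (e ▸ dart_iter h j)
    have hn := h1.2.2 (j + 1) (by omega) hj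
    rw [Function.iterate_succ_apply', e, e'] at hn ⊢
    have ht : Touch (side (nbr τ m) m) (A : Set Site) := by
      rw [touch_side]
      by_contra hx
      exact hn ⟨fun h' => hx (Or.inl h'), fun h' => hx (Or.inr h')⟩
    refine ⟨nbr τ m, m, rfl, hc.trans (Conn.step (mem_res.2 ⟨hm, ?_⟩)), ht.tt⟩
    rwa [side_nbr] at ht

theorem LoopL_exit {t : Tri} {i : Fin 3} (h : IsDart S (vtx t (i + 1), vtx t (i + 2)))
    (ho : OutD A (vtx t (i + 1), vtx t (i + 2))) (ha : vtx t i ∈ A)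
    (h1 : Ret A S (vtx t (i + 1), vtx t (i + 2)) k) :
    ∃ τ m, (nxt S)^[k] (vtx t (i + 1), vtx t (i + 2)) = (vtx τ (m + 2), vtx τ (m + 1)) ∧
      vtx τ m ∈ A ∧ vtx τ (m + 1) ∉ A ∧ vtx τ (m + 2) ∉ A ∧ IsOdd (res (bd S) A) τ ∧
      Conn (res (bd S) A) t τ ∧ t ≠ τ := by
  obtain ⟨j, rfl⟩ : ∃ j, k = j + 1 := ⟨k - 1, by have := h1.1; omega⟩
  obtain ⟨τ, q, e, hc, p, hp⟩ := LoopL_walk h ha h1 j (by omega)
  obtain ⟨m, -, hm, e'⟩ := nxt_tri (S := S) (t := τ) (i := q) (e ▸ dart_iter h j)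
  have hn := h1.2.1
  have hd := dart_iter h (j + 1)
  rw [Function.iterate_succ_apply', e, e', vtx_nbr1, vtx_nbr2] at hn hd ⊢
  obtain rfl : p = m := LoopL_uniq hp hn.2 hn.1
  refine ⟨τ, p, rfl, hp, hn.2, hn.1, (isOdd_res (Or.inl (not_isOdd_bd S τ))).2
    ⟨p, hp, hn.2, hn.1, hm⟩, hc, ?_⟩
  rintro rfl
  obtain rfl : p = i := LoopL_uniq hp ho.1 ho.2
  exact h.2.2 hd.2.1

/-- If `apex d ∈ A`, the triangle `t` ahead of `d` and the triangle `t'` behind the return dart are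
different odd triangles of `res (bd S) A` (`isOdd_res`) that are joined (`nxt_tri`); the same holds
for `S'`, so the two `t'` agree (`three_odd`), and the dart is read from the colours. -/
theorem ret_eq (hl : Link A S S') (h : IsDart S d) (ho : OutD A d) (h1 : Ret A S d k)
    (h2 : Ret A S' d k') : (nxt S)^[k] d = (nxt S')^[k'] d := by
  by_cases ha : apex d ∈ A
  · have h' := LoopL_dart hl.1 h ho
    obtain ⟨t, i, e0, e1, e2⟩ := exists_tri h.1
    obtain rfl : d = (vtx t (i + 1), vtx t (i + 2)) := Prod.ext e1.symm e2.symm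
    rw [← e0] at ha
    obtain ⟨τ, m, a1, a2, a3, a4, a5, a6, a7⟩ := LoopL_exit h ho ha h1
    obtain ⟨τ', m', b1, b2, b3, b4, b5, b6, b7⟩ := LoopL_exit h' ho ha h2
    have ht : IsOdd (res (bd S) A) t := (isOdd_res (Or.inl (not_isOdd_bd S t))).2
      ⟨i, ha, ho.1, ho.2, side_mem_bd.2 fun e => h.2.2 (e.1 h.2.1)⟩
    rcases three_odd ((simple_bd S').mono (Link_res_sub _ _)) ((odd_res_congr hl.1 t).1 ht)
      ((odd_res_congr hl.1 τ).1 a5) b5 ((hl.2 t τ ht a5).1 a6) b6 with e | e | e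
    · exact absurd e a7
    · exact absurd e b7
    · subst e
      obtain rfl : m = m' := LoopL_uniq a2 b3 b4
      rw [a1, b1]
  · rw [LoopL_one ho ha h1, LoopL_one ho ha h2]
    simp only [Function.iterate_one, nxt, hl.1 _ ha]

/-- `x` is a vertex of the triangle ahead of `d` -/
def LoopL_V (d : Site × Site) (x : Site) : Prop := x = d.1 ∨ x = d.2 ∨ x = apex d

theorem LoopL_dst (h : tri.Adj d.1 d.2) {x y : Site} (hx : LoopL_V d x) (hy : LoopL_V d y) :
    dst x y ≤ 1 := by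
  obtain ⟨t, i, e0, e1, e2⟩ := exists_tri h
  rw [LoopL_V, ← e0, ← e1, ← e2] at hx hy
  rcases hx with rfl | rfl | rfl <;> rcases hy with rfl | rfl | rfl <;> exact dst_vtx _ _ _

theorem LoopL_ctr (h : tri.Adj d.1 d.2) {x : Site} (hx : LoopL_V d x) : ‖ctr d - pos x‖ ≤ 1 := by
  rcases hx with rfl | rfl | rfl
  exacts [(ctr_near h).1, (ctr_near h).2.1, (ctr_near h).2.2]

theorem LoopL_nxt (S : Finset Site) (d : Site × Site) :
    LoopL_V d (nxt S d).1 ∧ LoopL_V d (nxt S d).2 := by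
  unfold nxt
  split_ifs <;> simp [LoopL_V]

theorem LoopL_cell {cell : Site → ℤ × ℤ}
    (hc : ∀ x ∈ A, ∀ y ∈ A, dst x y ≤ 1 → cell x = cell y) (h : IsDart S d) {x : Site}
    (hA : x ∈ A) (hx : LoopL_V d x) (j : ℕ)
    (hn : ∀ i, 0 < i → i ≤ j → ¬ OutD A ((nxt S)^[i] d)) :
    ∃ y ∈ A, cell y = cell x ∧ LoopL_V ((nxt S)^[j] d) y := by
  induction j with
  | zero => exact ⟨x, hA, rfl, hx⟩
  | succ j ih =>
    obtain ⟨y, h1, h2, h3⟩ := ih fun i h0 hi => hn i h0 (by omega)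
    have h4 := hn (j + 1) (by omega) le_rfl
    have h5 := LoopL_nxt S ((nxt S)^[j] d)
    have h6 := (dart_iter h j).1
    rw [Function.iterate_succ_apply'] at h4 ⊢
    by_cases h7 : (nxt S ((nxt S)^[j] d)).1 ∈ A
    · exact ⟨_, h7, (hc _ h7 _ h1 (LoopL_dst h6 h5.1 h3)).trans h2, Or.inl rfl⟩
    · have h8 : (nxt S ((nxt S)^[j] d)).2 ∈ A := by
        by_contra h8
        exact h4 ⟨h7, h8⟩
      exact ⟨_, h8, (hc _ h8 _ h1 (LoopL_dst h6 h5.2 h3)).trans h2, Or.inr (Or.inl rfl)⟩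

/-- all the sites of `A` met during one excursion are in the cell of `apex d` -/
theorem ret_near (hc : Cells A ρ) (h0 : 0 ≤ ρ) (h : IsDart S d) (h1 : Ret A S d k) {i : ℕ}
    (hi : i ≤ k) (ho : OutD A d) : ‖ctr ((nxt S)^[i] d) - pos (apex d)‖ ≤ ρ + 2 := by
  obtain ⟨cell, c1, c2⟩ := hc
  rcases i with _ | j
  · exact (ctr_near h.1).2.2.trans (by linarith)
  · obtain ⟨y, h2, h3⟩ : ∃ y, dst y (apex d) ≤ ρ ∧ LoopL_V ((nxt S)^[j] d) y := by
      by_cases ha : apex d ∈ A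
      · obtain ⟨y, h2, h3, h4⟩ := LoopL_cell c1 h ha (Or.inr (Or.inr rfl)) j
          fun i h0 hj => h1.2.2 i h0 (by omega)
        exact ⟨y, c2 _ h2 _ ha h3, h4⟩
      · obtain rfl : j = 0 := by have := LoopL_one ho ha h1; omega
        exact ⟨apex d, by simpa [dst] using h0, Or.inr (Or.inr rfl)⟩
    have h4 := (ctr_near (dart_iter h (j + 1)).1).1
    have h5 := LoopL_dst (dart_iter h j).1 (LoopL_nxt S _).1 h3
    rw [← Function.iterate_succ_apply' (nxt S)] at h5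
    have h6 := dst_tri ((nxt S)^[j + 1] d).1 y (apex d)
    refine (norm_sub_le_norm_sub_add_norm_sub _ (pos ((nxt S)^[j + 1] d).1) _).trans ?_
    change _ + dst _ _ ≤ _
    linarith

theorem small_of_in (hc : Cells A ρ) (h0 : 0 ≤ ρ) (h : IsDart S d)
    (hn : ∀ i, ¬ OutD A ((nxt S)^[i] d)) : Small (ρ + 4) S d := by
  have _ := h0
  obtain ⟨cell, c1, c2⟩ := hc
  obtain ⟨x, hA, hx⟩ : ∃ x ∈ A, LoopL_V d x := by
    by_contra hx
    exact hn 0 ⟨fun h' => hx ⟨_, h', Or.inl rfl⟩, fun h' => hx ⟨_, h', Or.inr (Or.inl rfl)⟩⟩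
  have key : ∀ t, ∃ y ∈ A, cell y = cell x ∧ ‖loop 1 S d t - pos y‖ ≤ 2 := fun t => by
    obtain ⟨j, hj⟩ := loop_near h t
    obtain ⟨y, h1, h2, h3⟩ := LoopL_cell c1 h hA hx j fun i _ _ => hn i
    have h4 := LoopL_dst (dart_iter h j).1 (Or.inl rfl) h3
    refine ⟨y, h1, h2,
      (norm_sub_le_norm_sub_add_norm_sub _ (pos ((nxt S)^[j] d).1) _).trans ?_⟩
    change _ + dst _ _ ≤ _
    linarith
  intro t t'
  obtain ⟨y, h1, h2, h3⟩ := key t
  obtain ⟨y', h1', h2', h3'⟩ := key t'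
  have h4 : ‖pos y - pos y'‖ ≤ ρ := c2 _ h1 _ h1' (h2.trans h2'.symm)
  have h5 := norm_sub_le_norm_sub_add_norm_sub (loop 1 S d t) (pos y) (loop 1 S d t')
  have h6 := norm_sub_le_norm_sub_add_norm_sub (pos y) (pos y') (loop 1 S d t')
  rw [norm_sub_rev] at h3'
  linarith

theorem LoopL_floor {p q : ℕ} (hpq : p < q) {x : ℝ} (h1 : (p : ℝ) ≤ x) (h2 : x ≤ q) :
    ∃ j : ℕ, p ≤ j ∧ j < q ∧ (j : ℝ) ≤ x ∧ x ≤ j + 1 := by
  induction q, hpq using Nat.le_induction with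
  | base => exact ⟨p, le_rfl, by omega, h1, by exact_mod_cast h2⟩
  | succ q hq ih =>
    rcases le_total x q with h | h
    · obtain ⟨j, a1, a2, a3⟩ := ih h
      exact ⟨j, a1, by omega, a3⟩
    · exact ⟨q, by omega, by omega, h, by exact_mod_cast h2⟩

theorem LoopL_piece (hc : Cells A ρ) (h0 : 0 ≤ ρ) (h : IsDart S d) {p : ℕ}
    (ho : OutD A ((nxt S)^[p] d)) (h1 : Ret A S ((nxt S)^[p] d) k) {t : ℝ}
    (ht : t ∈ Set.Icc ((p : ℝ) / len S d) (((p + k : ℕ) : ℝ) / len S d)) :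
    ‖loop 1 S d t - pos (apex ((nxt S)^[p] d))‖ ≤ ρ + 2 := by
  have hL : (0 : ℝ) < len S d := by exact_mod_cast len_pos h
  obtain ⟨j, a1, a2, a3, a4⟩ := LoopL_floor (p := p) (q := p + k) (by have := h1.1; omega)
    ((div_le_iff₀ hL).1 ht.1) ((le_div_iff₀ hL).1 ht.2)
  obtain ⟨i, rfl⟩ := Nat.exists_eq_add_of_le' a1
  have b1 := ret_near hc h0 (dart_iter h p) h1 (i := i) (by omega) ho
  have b2 := ret_near hc h0 (dart_iter h p) h1 (i := i + 1) (by omega) ho
  rw [← Function.iterate_add_apply] at b1 b2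
  rw [Nat.add_right_comm] at b2
  exact mem_closedBall_iff_norm.1 ((convex_closedBall _ _).segment_subset
    (mem_closedBall_iff_norm.2 b1) (mem_closedBall_iff_norm.2 b2)
    (loop_seg h (i + p) ((div_le_iff₀ hL).2 a3) ((le_div_iff₀ hL).2 a4)))

theorem LoopL_times {a r : ℕ → ℕ} (a0 : a 0 = 0) (ha : ∀ n, a (n + 1) = a n + r n)
    (hr : ∀ n, Ret A S ((nxt S)^[a n] d) (r n)) {j : ℕ} (hj : OutD A ((nxt S)^[j] d)) :
    ∃ n, a n = j := by
  have h1 : ∀ j, ∃ n, a n ≤ j ∧ j < a (n + 1) := by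
    intro j
    induction j with
    | zero => exact ⟨0, a0.le, by have := (hr 0).1; have := ha 0; omega⟩
    | succ j ih =>
      obtain ⟨n, h1, h2⟩ := ih
      rcases Nat.lt_or_ge (j + 1) (a (n + 1)) with h | h
      · exact ⟨n, by omega, h⟩
      · exact ⟨n + 1, h, by have := (hr (n + 1)).1; have := ha (n + 1); omega⟩
  obtain ⟨n, h2, h3⟩ := h1 j
  obtain ⟨i, rfl⟩ := Nat.exists_eq_add_of_le' h2
  rcases Nat.eq_zero_or_pos i with rfl | hi
  · exact ⟨n, by omega⟩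
  · rw [Function.iterate_add_apply] at hj
    exact absurd hj ((hr n).2.2 i hi (by have := ha n; omega))

theorem LoopL_close (hc : Cells A ρ) (h0 : 0 ≤ ρ) (hl : Link A S S') (h : IsDart S d)
    (ho : OutD A d) : LoopClose (2 * ρ + 4) (loop 1 S d) (loop 1 S' d) := by
  have h' := LoopL_dart hl.1 h ho
  choose! r hr using fun e : Site × Site => fun he : IsDart S e ∧ OutD A e => exists_ret he.1 he.2
  choose! r' hr' using fun e : Site × Site => fun he : IsDart S e ∧ OutD A e =>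
    exists_ret (LoopL_dart hl.1 he.1 he.2) he.2
  obtain ⟨E, E0, E1⟩ : ∃ E : ℕ → Site × Site, E 0 = d ∧ ∀ n, E (n + 1) = (nxt S)^[r (E n)] (E n) :=
    ⟨fun n => (fun e => (nxt S)^[r e] e)^[n] d, rfl, fun n => Function.iterate_succ_apply' _ _ _⟩
  have hE : ∀ n, IsDart S (E n) ∧ OutD A (E n) := by
    intro n
    induction n with
    | zero => exact E0 ▸ ⟨h, ho⟩
    | succ n ih => exact E1 n ▸ ⟨dart_iter ih.1 _, (hr _ ih).2.1⟩
  have E2 : ∀ n, E (n + 1) = (nxt S')^[r' (E n)] (E n) := fun n =>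
    (E1 n).trans (ret_eq hl (hE n).1 (hE n).2 (hr _ (hE n)) (hr' _ (hE n)))
  obtain ⟨a, a0, a1⟩ : ∃ a : ℕ → ℕ, a 0 = 0 ∧ ∀ n, a (n + 1) = a n + r (E n) :=
    ⟨fun n => ∑ j ∈ Finset.range n, r (E j), rfl, fun n => Finset.sum_range_succ _ _⟩
  obtain ⟨b, b0, b1⟩ : ∃ b : ℕ → ℕ, b 0 = 0 ∧ ∀ n, b (n + 1) = b n + r' (E n) :=
    ⟨fun n => ∑ j ∈ Finset.range n, r' (E j), rfl, fun n => Finset.sum_range_succ _ _⟩
  have a2 : ∀ n, (nxt S)^[a n] d = E n := by
    intro n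
    induction n with
    | zero => rw [a0, E0]; rfl
    | succ n ih => rw [a1, add_comm, Function.iterate_add_apply, ih, E1]
  have b2 : ∀ n, (nxt S')^[b n] d = E n := by
    intro n
    induction n with
    | zero => rw [b0, E0]; rfl
    | succ n ih => rw [b1, add_comm, Function.iterate_add_apply, ih, E2]
  have a3 : ∀ n, Ret A S ((nxt S)^[a n] d) (r (E n)) := fun n => by
    rw [a2]; exact hr _ (hE n)
  have b3 : ∀ n, Ret A S' ((nxt S')^[b n] d) (r' (E n)) := fun n => by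
    rw [b2]; exact hr' _ (hE n)
  have a4 : StrictMono a := strictMono_nat_of_lt_succ fun n => by
    have := (a3 n).1; have := a1 n; omega
  have b4 : StrictMono b := strictMono_nat_of_lt_succ fun n => by
    have := (b3 n).1; have := b1 n; omega
  obtain ⟨m, hm⟩ := LoopL_times a0 a1 a3 (j := len S d)
    (by rwa [len, Function.iterate_minimalPeriod])
  obtain ⟨m', hm'⟩ := LoopL_times b0 b1 b3 (j := len S' d)
    (by rwa [len, Function.iterate_minimalPeriod])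
  have p1 := len_pos h
  have p2 := len_pos h'
  have e1 : E m = d := by rw [← a2, hm, len, Function.iterate_minimalPeriod]
  have e2 : E m' = d := by rw [← b2, hm', len, Function.iterate_minimalPeriod]
  have q1 : 0 < m := a4.lt_iff_lt.1 (by omega)
  have q2 : 0 < m' := b4.lt_iff_lt.1 (by omega)
  have l1 : len S d ≤ a m' := Function.IsPeriodicPt.minimalPeriod_le
    (by have := a4 q2; omega) ((a2 m').trans e2)
  have l2 : len S' d ≤ b m := Function.IsPeriodicPt.minimalPeriod_le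
    (by have := b4 q1; omega) ((b2 m).trans e1)
  obtain rfl : m = m' := le_antisymm (a4.le_iff_le.1 (hm ▸ l1)) (b4.le_iff_le.1 (hm' ▸ l2))
  have hL : (0 : ℝ) < len S d := by exact_mod_cast p1
  have hL' : (0 : ℝ) < len S' d := by exact_mod_cast p2
  refine loopClose_of_pieces (loop_add_one h 1) (loop_add_one h' 1) (m := m)
    (a := fun n => (a n : ℝ) / len S d) (b := fun n => (b n : ℝ) / len S' d) (by simp [a0])
    (by simp [b0]) (by simp [hm, hL.ne']) (by simp [hm', hL'.ne'])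
    (fun n _ => div_lt_div_of_pos_right (by exact_mod_cast a4 (by omega)) hL)
    (fun n _ => div_lt_div_of_pos_right (by exact_mod_cast b4 (by omega)) hL')
    fun n _ t ht t' ht' => ?_
  have c1 := LoopL_piece hc h0 h (a2 n ▸ (hE n).2) (a3 n) (a1 n ▸ ht)
  have c2 := LoopL_piece hc h0 h' (b2 n ▸ (hE n).2) (b3 n) (b1 n ▸ ht')
  rw [a2] at c1
  rw [b2, norm_sub_rev] at c2
  exact (norm_sub_le_norm_sub_add_norm_sub _ _ _).trans ((add_le_add c1 c2).trans (by linarith))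

/-- Start from a dart outside `A` (`loop_shift`). The successive return times `i 0 < i 1 < ..` and
`i' 0 < i' 1 < ..` give the same darts; for the least `m > 0` at which `d` comes back,
`i m = len S d` and `i' m = len S' d`. `loopClose_of_pieces`, `loop_seg`. -/
theorem near_of_link (hc : Cells A ρ) (h0 : 0 ≤ ρ) (hl : Link A S S') : Near (2 * ρ + 4) S S' := by
  intro d h
  by_cases hn : ∀ i, ¬ OutD A ((nxt S)^[i] d)
  · exact Or.inl ((small_of_in hc h0 h hn).mono (by linarith))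
  · obtain ⟨i, hi⟩ := not_forall.1 hn
    have ho := not_not.1 hi
    refine Or.inr ⟨_, LoopL_dart hl.1 (dart_iter h i) ho, ?_⟩
    simpa using loopClose_trans (loop_shift h i) (LoopL_close hc h0 hl (dart_iter h i) ho)

end

end Pool.Agent.TAF.U
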