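import Pool.Agent.P.MP_cb4022_pr.U.EndA
import Pool.Agent.P.MP_cb4022_pr.U.EndB
import Pool.Agent.P.MP_cb4022_pr.U.LoopL

/-! Gluing the couplings (paper I). -/

open scoped Classical symmDiff
open Filter Topology

noncomputable section

namespace Pool.Agent.TAF.U

def Near2 (ρ : ℝ) (S S' : Finset Site) : Prop := Near ρ S S' ∧ Near ρ S' S

theorem Near2.trans {ρ ρ' : ℝ} {S S' S'' : Finset Site} (h0 : 0 ≤ ρ) (h0' : 0 ≤ ρ')
    (h : Near2 ρ S S') (h' : Near2 ρ' S' S'') : Near2 (2 * (ρ + ρ')) S S'' := by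
  refine ⟨(Near.trans h0' h.1 h'.1).mono (by linarith), (Near.trans h0 h'.2 h.2).mono (by linarith)⟩

theorem Main_near2_mono {ρ ρ' : ℝ} {S S' : Finset Site} (h : Near2 ρ S S') (hρ : ρ ≤ ρ') :
    Near2 ρ' S S' := ⟨h.1.mono hρ, h.2.mono hρ⟩

/-- one family of cells: `cpl_tv` for `Link Q`, `near_of_link` -/
theorem cpl_cells {D Q : Finset Site} {j j' : Site → ℝ} {ρ ε : ℝ} (hc : Cells Q ρ) (h0 : 0 ≤ ρ)
    (h : ∀ F, Meas Q F → (∀ S, |F S| ≤ 1) → |gib D ∅ j' F - gib D ∅ j F| ≤ ε) :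
    Coupling D (law D j) (law D j') (Near2 (2 * ρ + 4)) ε := by
  refine cpl_mono (cpl_tv (R := Link Q) ⟨Link.refl Q, Link.symm, Link.trans⟩ h)
    (fun S _ S' _ hl => ⟨near_of_link hc h0 hl, near_of_link hc h0 hl.symm⟩) le_rfl

/-- `cpl_tv` for `Off B`, `gib_off`, `cpl_left`, `cpl_right`, `near_of_quiet` -/
theorem cpl_last {D B : Finset Site} {j : Site → ℝ} {ρ ε : ℝ} (h0 : 0 ≤ ρ)
    (h : ∀ e, Touch e (B : Set Site)ᶜ → ew j e = 0)
    (h1 : gib D ∅ j (ind fun S => ¬ Quiet ρ B S) ≤ ε)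
    (h2 : gib D ∅ (fun _ => 0) (ind fun S => ¬ Quiet ρ B S) ≤ ε) :
    Coupling D (law D j) (law D fun _ => 0) (Near2 ρ) (2 * ε) := by
  have e : Equivalence (Off B) := ⟨fun _ _ _ => Iff.rfl, fun a x hx => (a x hx).symm,
    fun a b x hx => (a x hx).trans (b x hx)⟩
  have c0 : Coupling D (law D j) (law D fun _ => 0) (Off B) 0 := by
    refine cpl_tv e fun F hF _ => ?_
    rw [gib_off h (F := F) fun S S' hS => hF S S' fun x hx => hS x hx, sub_self, abs_zero]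
  refine cpl_mono (cpl_right (cpl_left c0 h1) h2) (fun S _ S' _ hS => ?_) (by linarith)
  exact ⟨near_of_quiet h0 hS.1.1 hS.1.2, near_of_quiet h0 (e.symm hS.1.1) hS.2⟩

theorem Main_lip_mono {f : Site → ℝ} {L L' : ℝ} (h : Lip f L) (hL : L ≤ L') : Lip f L' :=
  fun x y => (h x y).trans (mul_le_mul_of_nonneg_right hL (dst_nonneg x y))

theorem Main_lip_sum {χ : Fin 4 → Site → ℝ} {L : ℝ} (hL : 0 ≤ L) (h : ∀ i, Lip (χ i) L)
    (T : Finset (Fin 4)) : Lip (fun x => ∑ i ∈ T, χ i x) (4 * L) := by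
  intro x y
  have h1 : (T.card : ℝ) ≤ 4 := by
    have := T.card_le_univ
    rw [Fintype.card_fin] at this
    exact_mod_cast this
  have h2 := mul_nonneg hL (dst_nonneg x y)
  rw [← Finset.sum_sub_distrib]
  refine (Finset.abs_sum_le_sum_abs _ _).trans ?_
  refine (Finset.sum_le_card_nsmul _ _ _ fun i _ => h i x y).trans ?_
  rw [nsmul_eq_mul]
  nlinarith

theorem Main_bd {b b₀ : ℝ} (hb : |b| ≤ b₀) {u : Site → ℝ} (hu : ∀ x, u x ∈ Set.Icc (0 : ℝ) 1) :
    Bd (fun x => b * (1 - u x)) b₀ := by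
  intro x
  have h1 : |1 - u x| ≤ 1 := abs_le.2 ⟨by linarith [(hu x).2], by linarith [(hu x).1]⟩
  rw [abs_mul]
  exact (mul_le_of_le_one_right (abs_nonneg b) h1).trans hb

theorem Main_lip_j {b L : ℝ} (hb : |b| ≤ 1 / 12) {u : Site → ℝ} (hu : Lip u L) :
    Lip (fun x => b * (1 - u x)) (L / 12) := by
  intro x y
  have h1 := hu x y
  rw [show b * (1 - u x) - b * (1 - u y) = -(b * (u x - u y)) by ring, abs_neg, abs_mul]
  refine (mul_le_mul hb h1 (abs_nonneg _) (by norm_num)).trans (le_of_eq ?_)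
  ring

/-- I1 in lattice units. `j m x = b * (1 - ψ x * ∑ i < m, χ i x)` with `χ` from `exists_part`;
four times `StepTV` and `cpl_cells` with `Q = D.filter (· ∈ A i)`; `cpl_glue`. -/
theorem cpl_four {η b₀ : ℝ} (hb₀ : b₀ ≤ 1 / 12) (h : StepTV η b₀) (M : ℝ) {ε : ℝ} (hε : 0 < ε) :
    ∃ s₀ : ℝ, ∀ (D : Finset Site) (W : Set Site) (ψ : Site → ℝ) (b s r₁ : ℝ), s₀ ≤ s → |b| ≤ b₀ →
      Nice D W r₁ η → 200 * s ≤ r₁ → D ⊆ bal 0 (M * s) → (∀ x, ψ x ∈ Set.Icc (0 : ℝ) 1) →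
      Lip ψ (1 / s) → (∀ w, ψ w ≠ 0 → ∀ x ∈ D, dst x w ≤ 3 * s → x ∈ W) →
      Coupling D (law D fun _ => b) (law D fun x => b * (1 - ψ x)) (Near2 (2000 * s)) ε := by
  obtain ⟨s₁, hs₁⟩ := h M (ε / 4) (by positivity)
  refine ⟨max s₁ 1, fun D W ψ b s r₁ hs hb hN hr hD hψ hL hW => ?_⟩
  have s1 : 1 ≤ s := (le_max_right _ _).trans hs
  have s0 : 0 < s := by linarith
  obtain ⟨χ, A, cell, c0, c1, cL, cA, cc, cd⟩ := exists_part (l := 5 * s) (by linarith)
  set u : Finset (Fin 4) → Site → ℝ := fun T x => ψ x * ∑ i ∈ T, χ i x with hu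
  have σm : ∀ (T : Finset (Fin 4)) x, ∑ i ∈ T, χ i x ∈ Set.Icc (0 : ℝ) 1 := fun T x =>
    ⟨Finset.sum_nonneg fun i _ => c0 i x, (c1 x) ▸
      Finset.sum_le_sum_of_subset_of_nonneg T.subset_univ fun i _ _ => c0 i x⟩
  have um : ∀ T x, u T x ∈ Set.Icc (0 : ℝ) 1 := fun T x =>
    ⟨mul_nonneg (hψ x).1 (σm T x).1, mul_le_one₀ (hψ x).2 (σm T x).1 (σm T x).2⟩
  have uL : ∀ T, Lip (fun x => b * (1 - u T x)) (2 / s) := fun T => by
    have h1 := Lip.mul hL (Main_lip_sum (by positivity) cL T)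
      (fun x => abs_le.2 ⟨by linarith [(hψ x).1], (hψ x).2⟩)
      (fun x => abs_le.2 ⟨by linarith [(σm T x).1], (σm T x).2⟩)
    refine Main_lip_mono (Main_lip_j (hb.trans hb₀) h1) ?_
    rw [show (1 / s + 4 * (5 / (5 * s))) / 12 = (5 / 12) / s by field_simp; ring]
    exact div_le_div_of_nonneg_right (by norm_num) s0.le
  have step : ∀ (T : Finset (Fin 4)) (i : Fin 4), i ∉ T →
      Coupling D (law D fun x => b * (1 - u T x)) (law D fun x => b * (1 - u (insert i T) x))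
        (Near2 (54 * s)) (ε / 4) := by
    intro T i hi
    have hc : Cells (D.filter (· ∈ A i)) (5 * (5 * s)) :=
      ⟨cell i, fun x hx y hy => cc i x (Finset.mem_filter.1 hx).2 y (Finset.mem_filter.1 hy).2,
        fun x hx y hy => cd i x (Finset.mem_filter.1 hx).2 y (Finset.mem_filter.1 hy).2⟩
    refine cpl_mono (cpl_cells hc (by positivity) fun F hF hF1 => ?_)
      (fun S _ S' _ hS => Main_near2_mono hS (by linarith)) le_rfl
    refine hs₁ D _ W _ _ F s r₁ ((le_max_left _ _).trans hs) hN hr hD (Main_bd hb (um _))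
      (Main_bd hb (um _)) (uL _) (uL _) (fun w hw => ?_) hF hF1
    have hw' : ψ w * χ i w ≠ 0 := fun e => hw (by
      simp only [hu, Finset.sum_insert hi, mul_add, e, zero_add])
    refine ⟨fun y hy => ?_, hW w (left_ne_zero_of_mul hw')⟩
    obtain ⟨y1, y2⟩ := Finset.mem_inter.1 hy
    exact Finset.mem_filter.2 ⟨y2, cA i w y (right_ne_zero_of_mul hw')
      ((mem_bal.1 y1).trans (le_of_eq (by ring)))⟩
  have p0 : (0 : ℝ) ≤ 54 * s := by positivity
  have p1 : (0 : ℝ) ≤ 2 * (54 * s + 54 * s) := by positivity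
  have g1 := cpl_glue (step ∅ 0 (by decide)) (step _ 1 (by decide))
    fun _ _ _ a b => Near2.trans p0 p0 a b
  have g2 := cpl_glue (step (insert 1 (insert 0 ∅)) 2 (by decide)) (step _ 3 (by decide))
    fun _ _ _ a b => Near2.trans p0 p0 a b
  have g3 := cpl_glue g1 g2 fun _ _ _ a b => Near2.trans p1 p1 a b
  have e0 : (fun x => b * (1 - u ∅ x)) = fun _ => b := by
    funext x
    simp [hu]
  have e1 : (fun x => b * (1 - u (insert 3 (insert 2 (insert 1 (insert 0 ∅)))) x)) =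
      fun x => b * (1 - ψ x) := by
    have : (insert 3 (insert 2 (insert 1 (insert 0 ∅))) : Finset (Fin 4)) = Finset.univ := by
      decide
    funext x
    simp only [hu, this, c1, mul_one]
  rw [e0, e1] at g3
  exact cpl_mono g3 (fun S _ S' _ hS => Main_near2_mono hS (by linarith)) (by linarith)

theorem Main_norm {δ : ℝ} (hδ : 0 < δ) (w z : ℂ) : ‖δ * w - z‖ = δ * ‖w - z / δ‖ := by
  have h : (δ : ℂ) ≠ 0 := Complex.ofReal_ne_zero.2 hδ.ne'
  rw [show δ * w - z = δ * (w - z / δ) by field_simp, norm_mul, Complex.norm_real,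
    Real.norm_of_nonneg hδ.le]

/-- Order of choices: `ρ = ε / 100`; `a`, `δ₀` from `last_step`; `r` from `nice_of_C1` with `a / 2`
for `a`; `s = σ / δ` with `σ = min (min (ρ / 2000) (a / 6)) (r / 200)`; `ψ` from `exists_cut` for
the points `z / δ` and `a / δ`; `cpl_four`, `cpl_last`, `cpl_glue`, `dense_bound` with `cpl_left`
and `cpl_right`, `close_of_near`, `law_eq`. -/
theorem main_of {η b₀ : ℝ} (hη : 0 < η) (hb₀ : b₀ ≤ 1 / 12) (h : StepTV η b₀) {β : ℝ}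
    (hβ : |β| ≤ b₀) {Ω : Set ℂ} (ho : IsOpen Ω) (hb : Bornology.IsBounded Ω) {Z : Finset ℂ}
    (hZ : ∀ q ∈ frontier Ω, q ∉ Z → ∃ f : ℂ → ℝ, ContDiffAt ℝ 1 f q ∧ fderiv ℝ f q ≠ 0 ∧
      ∀ᶠ z in 𝓝 q, z ∈ Ω ↔ f z < 0) {ε : ℝ} (hε : 0 < ε) :
    ∃ δ₀ : ℝ, 0 < δ₀ ∧ ∀ δ : ℝ, 0 < δ → δ < δ₀ → ∀ D : Finset (ℤ × ℤ),
      (∀ u, u ∈ D ↔ δ * pos u ∈ Ω) →
      Coupling D (fun S => prob β D fun T => T = S) (fun S => prob 0 D fun T => T = S)
        (Close ε δ) ε := by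
  set ρ := ε / 100 with hρ
  have ρ0 : 0 < ρ := by positivity
  obtain ⟨a, δ₁, a0, δ1, hlast⟩ := last_step Z ρ0 (ε := ε / 10) (by positivity)
  obtain ⟨r, r0, hnice⟩ := nice_of_C1 ho hb hZ hη (a := a / 2) (by positivity)
  obtain ⟨δ₂, δ2, hdense⟩ := dense_bound ho hb (a := 4 * ρ) (ε := ε / 10) (by positivity)
    (by positivity)
  obtain ⟨Λ, hΛ⟩ := hb.exists_norm_le
  set σ := min (min (ρ / 2000) (a / 6)) (r / 200) with hσ
  have σ0 : 0 < σ := by positivity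
  have σ1 : σ ≤ ρ / 2000 := (min_le_left _ _).trans (min_le_left _ _)
  have σ2 : σ ≤ a / 6 := (min_le_left _ _).trans (min_le_right _ _)
  have σ3 : σ ≤ r / 200 := min_le_right _ _
  obtain ⟨s₀, hfour⟩ := cpl_four hb₀ h (Λ / σ) (ε := ε / 10) (by positivity)
  have m0 : 0 < max s₀ 1 := lt_of_lt_of_le one_pos (le_max_right _ _)
  refine ⟨min (min δ₁ δ₂) (min (σ / max s₀ 1) (ε / 4)), by positivity, fun δ δ0 hδ D hD => ?_⟩
  obtain ⟨h12, h34⟩ := lt_min_iff.1 hδ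
  obtain ⟨h1, h2⟩ := lt_min_iff.1 h12
  obtain ⟨h3, h4⟩ := lt_min_iff.1 h34
  have hβ2 : |β / 2| ≤ b₀ := by
    rw [abs_div, abs_two]
    linarith [abs_nonneg β]
  obtain ⟨B, hB⟩ := hlast δ δ0 h1
  obtain ⟨ψ, ψm, ψL, ψ1, ψ2⟩ := exists_cut (Z.image (· / (δ : ℂ))) (a := a / δ) (by positivity)
  have mono : ∀ {x y : ℝ}, x ≤ y → x / δ ≤ y / δ := fun h => div_le_div_of_nonneg_right h δ0.le
  have c1 := hfour D _ ψ (β / 2) (σ / δ) (r / δ)
    (by
      rw [lt_div_iff₀ m0] at h3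
      rw [le_div_iff₀ δ0]
      nlinarith [le_max_left s₀ 1])
    hβ2 (hnice δ D δ0 hD)
    (by
      rw [← mul_div_assoc]
      exact mono (by linarith))
    (fun x hx => by
      have := hΛ _ ((hD x).1 hx)
      rw [norm_mul, Complex.norm_real, Real.norm_of_nonneg δ0.le] at this
      rw [mem_bal, dst_zero, show Λ / σ * (σ / δ) = Λ / δ by field_simp, le_div_iff₀ δ0]
      linarith)
    ψm
    (Main_lip_mono ψL (one_div_le_one_div_of_le (by positivity) (mono (by linarith))))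
    (fun w hw x _ hxw z hz => by
      have k1 := ψ1 w hw _ (Finset.mem_image_of_mem _ hz)
      have k2 : ‖pos w - z / δ‖ ≤ ‖pos w - pos x‖ + ‖pos x - z / δ‖ :=
        norm_sub_le_norm_sub_add_norm_sub _ _ _
      have k3 : ‖pos w - pos x‖ ≤ 3 * (σ / δ) := by
        rw [dst_comm] at hxw
        exact hxw
      have k4 : 3 * (σ / δ) ≤ a / 2 / δ := by
        rw [← mul_div_assoc]
        exact mono (by linarith)
      have k5 : a / δ = a / 2 / δ + a / 2 / δ := by ring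
      rw [Main_norm δ0, ← div_le_iff₀' δ0]
      linarith)
  obtain ⟨b1, b2⟩ := hB D (fun x => β / 2 * (1 - ψ x)) fun x hx => by
    rw [ψ2 x, sub_self, mul_zero]
    intro z hz
    obtain ⟨z', hz', rfl⟩ := Finset.mem_image.1 hz
    have := hx z' hz'
    rw [Main_norm δ0, ← div_le_iff₀' δ0, mul_div_assoc] at this
    exact this
  have b3 := (hB D (fun _ => 0) fun _ _ => rfl).2
  have c2 := cpl_last (by positivity) b1 b2 b3
  have c3 := cpl_glue c1 c2 fun _ _ _ u v => Near2.trans (by positivity) (by positivity) u v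
  have c4 := cpl_right (cpl_left c3 (hdense δ D (fun _ => β / 2) δ0 h2 hD fun _ => hβ2.trans hb₀))
    (hdense δ D (fun _ => 0) δ0 h2 hD fun _ => by norm_num)
  have e1 : (fun S => prob β D fun T => T = S) = law D fun _ => β / 2 :=
    funext fun S => law_eq β D S
  have e2 : (fun S => prob 0 D fun T => T = S) = law D fun _ => 0 :=
    funext fun S => by rw [law_eq, zero_div]
  rw [e1, e2]
  refine cpl_mono c4 (fun S hS S' hS' k => ?_) (by linarith)
  have k1 : Near2 (4 * ρ / δ) S S' := by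
    refine Main_near2_mono k.1.1 ?_
    rw [show 2 * (2000 * (σ / δ) + ρ / δ) = (2 * (2000 * σ + ρ)) / δ by ring]
    exact mono (by linarith)
  refine close_of_near δ0 (by positivity) ?_ hS hS' k1.1 k1.2 k.1.2 k.2
  rw [show δ * (2 * (4 * ρ / δ) + 2) = 8 * ρ + 2 * δ by field_simp; ring]
  linarith

end Pool.Agent.TAF.U
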