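import Pool.Agent.P.MP_cb4022_pr.U.Line

/-! Resampling, cosets, independence (paper A10, A11). -/

open scoped Classical symmDiff

noncomputable section

namespace Pool.Agent.TAF.U

theorem Markov_sub {α : Type*} [DecidableEq α] {A B C : Finset α} (hA : A ⊆ C) (hB : B ⊆ C) :
    A ∆ B ⊆ C := fun _ hx => (Finset.mem_symmDiff.1 hx).elim (fun a => hA a.1) fun a => hB a.1

theorem Markov_left {A B S S' : Finset Site} (h : Disjoint A B) (hS : S ⊆ A) (hS' : S' ⊆ B) :
    (S ∪ S') ∩ A = S := by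
  rw [Finset.union_inter_distrib_right, Finset.inter_eq_left.2 hS,
    Finset.disjoint_iff_inter_eq_empty.1 (h.symm.mono_left hS'), Finset.union_empty]

theorem Markov_right {A B S S' : Finset Site} (h : Disjoint A B) (hS : S ⊆ A) (hS' : S' ⊆ B) :
    (S ∪ S') ∩ B = S' := by
  rw [Finset.union_comm, Markov_left h.symm hS' hS]

theorem Markov_mem {D H A S : Finset Site} (hA : A ⊆ D) (hd : Disjoint A H)
    (hS : S ∈ A.powerset) : S ∈ Gr D H :=
  mem_Gr.2 ⟨(Finset.mem_powerset.1 hS).trans hA, Or.inr (hd.mono_left (Finset.mem_powerset.1 hS))⟩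

/-- the colour is constant along a path that crosses no wall -/
theorem Markov_const {X : Set Site} {S : Finset Site} (h0 : ∀ e, Inside e X → e ∉ bd S)
    {a b : Site} (h : Jn X a b) : a ∈ S ↔ b ∈ S := by
  induction h with
  | refl => rfl
  | tail _ h ih =>
    obtain ⟨e, ⟨rfl, rfl⟩ | ⟨rfl, rfl⟩⟩ := adj_iff.1 h.2.2
    · exact ih.trans (not_not.1 (mem_bd.not.1 (h0 e ⟨h.1, h.2.1⟩)))
    · exact ih.trans (not_not.1 (mem_bd.not.1 (h0 e ⟨h.2.1, h.1⟩))).symm

theorem Markov_pr {α : Type*} (W : Finset α) (P : α → Prop) [DecidablePred P] :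
    pr W P = ((W.filter P).card : ℝ) / W.card := by
  rw [pr, avg, smul_eq_mul, div_eq_inv_mul, ← Finset.sum_boole]
  congr!

section
variable {α β E : Type*} [AddCommGroup E] [Module ℝ E]

theorem Markov_prod (W : Finset α) (W' : Finset β) (f : α → β → E) :
    avg (W ×ˢ W') (fun q => f q.1 q.2) = avg W fun x => avg W' (f x) := by
  simp only [avg, ← Finset.smul_sum]
  rw [Finset.sum_product', Finset.card_product, smul_smul, Nat.cast_mul, mul_inv]

theorem Markov_smul (W : Finset α) (c : ℝ) (f : α → E) :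
    avg W (fun x => c • f x) = c • avg W f := by
  simp only [avg, ← Finset.smul_sum]
  rw [smul_comm]

/-- A10. The map `(x, S) ↦ (act x S, S)` is an involution of the set of pairs `x ∈ W`,
`S ∈ G x`. -/
theorem markov_act (W : Finset α) (act : α → β → α) (G : α → Finset β)
    (hne : ∀ x ∈ W, (G x).Nonempty)
    (h : ∀ x ∈ W, ∀ S ∈ G x, act x S ∈ W ∧ G (act x S) = G x ∧ act (act x S) S = x) (f : α → E) :
    avg W f = avg W fun x => avg (G x) fun S => f (act x S) := by
  have h1 : ∑ x ∈ W, f x = ∑ q ∈ W.sigma G, ((G q.1).card : ℝ)⁻¹ • f q.1 := by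
    rw [Finset.sum_sigma]
    refine Finset.sum_congr rfl fun x hx => ?_
    dsimp only
    rw [← Finset.smul_sum]
    exact (avg_const (hne x hx) (f x)).symm
  have h2 : ∑ x ∈ W, avg (G x) (fun S => f (act x S)) =
      ∑ q ∈ W.sigma G, ((G q.1).card : ℝ)⁻¹ • f (act q.1 q.2) := by
    rw [Finset.sum_sigma]
    exact Finset.sum_congr rfl fun x _ => Finset.smul_sum
  have hm : ∀ q ∈ W.sigma G, (⟨act q.1 q.2, q.2⟩ : (_ : α) × β) ∈ W.sigma G := fun q hq => by
    obtain ⟨a, b⟩ := Finset.mem_sigma.1 hq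
    obtain ⟨c, d, -⟩ := h _ a _ b
    exact Finset.mem_sigma.2 ⟨c, d.symm ▸ b⟩
  have hi : ∀ q ∈ W.sigma G, (⟨act (act q.1 q.2) q.2, q.2⟩ : (_ : α) × β) = q := fun q hq => by
    obtain ⟨a, b⟩ := Finset.mem_sigma.1 hq
    rw [(h _ a _ b).2.2]
  rw [avg, avg, h1, h2]
  congr 1
  refine (Finset.sum_nbij' (fun q => ⟨act q.1 q.2, q.2⟩) (fun q => ⟨act q.1 q.2, q.2⟩) hm hm hi hi
    fun q hq => ?_).symm
  obtain ⟨a, b⟩ := Finset.mem_sigma.1 hq
  rw [(h _ a _ b).2.1]

/-- multiscale version: resample with the family of the first stopping index -/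
theorem ms_act (W : Finset α) (act : α → β → α) (e : β) (he : ∀ x, act x e = x) (K : ℕ)
    (G : ℕ → α → Finset β) (stop : ℕ → α → Prop) (hne : ∀ k ≤ K, ∀ x ∈ W, (G k x).Nonempty)
    (h : ∀ k ≤ K, ∀ x ∈ W, ∀ S ∈ G k x, act x S ∈ W ∧ G k (act x S) = G k x ∧
      act (act x S) S = x ∧ ∀ j ≤ k, (stop j (act x S) ↔ stop j x)) (f : α → E) :
    avg W f = avg W fun x => if h : ∃ k, k ≤ K ∧ stop k x then
      avg (G (Nat.find h) x) fun S => f (act x S) else f x := by
  rw [markov_act W act (fun x => if h : ∃ k, k ≤ K ∧ stop k x then G (Nat.find h) x else {e})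
    (fun x hx => ?_) (fun x hx S hS => ?_) f]
  · refine avg_congr fun x _ => ?_
    split_ifs with hx
    · rfl
    · simp [avg, he]
  · split_ifs with h0
    · exact hne _ (Nat.find_spec h0).1 x hx
    · exact Finset.singleton_nonempty e
  · by_cases h0 : ∃ k, k ≤ K ∧ stop k x
    · rw [dif_pos h0] at hS
      obtain ⟨a1, a2, a3, a4⟩ := h _ (Nat.find_spec h0).1 x hx S hS
      have h1 : ∃ k, k ≤ K ∧ stop k (act x S) :=
        ⟨_, (Nat.find_spec h0).1, (a4 _ le_rfl).2 (Nat.find_spec h0).2⟩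
      have h2 : Nat.find h1 = Nat.find h0 := (Nat.find_eq_iff h1).2
        ⟨⟨(Nat.find_spec h0).1, (a4 _ le_rfl).2 (Nat.find_spec h0).2⟩, fun j hj hc =>
          Nat.find_min h0 hj ⟨hc.1, (a4 j hj.le).1 hc.2⟩⟩
      refine ⟨a1, ?_, a3⟩
      rw [dif_pos h0, dif_pos h1, h2, a2]
    · rw [dif_neg h0, Finset.mem_singleton] at hS
      simp only [hS, he]
      exact ⟨hx, trivial, trivial⟩

end

theorem ms_bound {α E : Type*} [NormedAddCommGroup E] [NormedSpace ℝ E] (W : Finset α) (K : ℕ)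
    (stop : ℕ → α → Prop) (g : α → E) (b q : ℕ → ℝ) (B : ℝ) (hb : ∀ k, 0 ≤ b k) (hB : 0 ≤ B)
    (h1 : ∀ x ∈ W, ∀ k ≤ K, stop k x → (∀ j < k, ¬ stop j x) → ‖g x‖ ≤ b k)
    (h2 : ∀ x ∈ W, (∀ k ≤ K, ¬ stop k x) → ‖g x‖ ≤ B)
    (hq : ∀ k ≤ K, pr W (fun x => ¬ stop k x) ≤ q k) :
    ‖avg W g‖ ≤ b 0 + ∑ k ∈ Finset.range K, b (k + 1) * q k + B * q K := by
  have hn : ∀ (k : ℕ) (x : α), (0 : ℝ) ≤ if ¬ stop k x then 1 else 0 := fun k x => by
    split_ifs <;> norm_num
  refine (norm_avg_le (g := fun x => b 0 + ∑ k ∈ Finset.range K,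
    b (k + 1) * (if ¬ stop k x then 1 else 0) + B * if ¬ stop K x then 1 else 0)
      fun x hx => ?_).trans ?_
  · have s0 : 0 ≤ ∑ k ∈ Finset.range K, b (k + 1) * (if ¬ stop k x then 1 else 0) :=
      Finset.sum_nonneg fun k _ => mul_nonneg (hb _) (hn k x)
    have s1 := mul_nonneg hB (hn K x)
    by_cases h0 : ∃ k, k ≤ K ∧ stop k x
    · have a1 := Nat.find_spec h0
      have a2 : ∀ j < Nat.find h0, ¬ stop j x := fun j hj hc =>
        Nat.find_min h0 hj ⟨hj.le.trans a1.1, hc⟩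
      have a3 := h1 x hx _ a1.1 a1.2 a2
      generalize Nat.find h0 = k at a1 a2 a3
      rcases k with _ | k
      · linarith
      · have a4 := Finset.single_le_sum
          (f := fun k => b (k + 1) * (if ¬ stop k x then (1 : ℝ) else 0))
          (fun k _ => mul_nonneg (hb _) (hn k x)) (Finset.mem_range.2 a1.1)
        rw [if_pos (a2 k k.lt_succ_self)] at a4
        linarith [hb 0]
    · have a1 : ∀ k ≤ K, ¬ stop k x := fun k hk hc => h0 ⟨k, hk, hc⟩
      rw [if_pos (a1 K le_rfl)]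
      linarith [h2 x hx a1, hb 0]
  · rw [avg_add, avg_add, avg_sum, avg_mul_left]
    refine add_le_add (add_le_add (avg_le (hb 0) fun _ _ => le_rfl)
      (Finset.sum_le_sum fun k hk => ?_)) (mul_le_mul_of_nonneg_left ?_ hB)
    · rw [avg_mul_left]
      refine mul_le_mul_of_nonneg_left ?_ (hb _)
      exact (avg_congr fun x _ => by congr).trans_le (hq k (Finset.mem_range.1 hk).le)
    · exact (avg_congr fun x _ => by congr).trans_le (hq K le_rfl)

theorem Gr_nonempty (D H : Finset Site) : (Gr D H).Nonempty := ⟨∅, by simp [mem_Gr]⟩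

theorem Gr_symmDiff {D H S S' : Finset Site} (h : S ∈ Gr D H) (h' : S' ∈ Gr D H) :
    S ∆ S' ∈ Gr D H := by
  simp only [mem_Gr, Finset.subset_iff, Finset.disjoint_right, Finset.mem_symmDiff] at h h' ⊢
  obtain ⟨a, b⟩ := h
  obtain ⟨c, d⟩ := h'
  refine ⟨fun x hx => hx.elim (fun y => a y.1) fun y => c y.1, ?_⟩
  rcases b with b | b <;> rcases d with d | d
  · exact Or.inr fun x hx y => y.elim (fun y => y.2 (d hx)) fun y => y.2 (b hx)
  · exact Or.inl fun x hx => Or.inl ⟨b hx, d hx⟩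
  · exact Or.inl fun x hx => Or.inr ⟨d hx, b hx⟩
  · exact Or.inr fun x hx y => y.elim (fun y => b hx y.1) fun y => d hx y.1

theorem Gr_mono {D D' H H' : Finset Site} (hD : D' ⊆ D) (hH : H ⊆ H') : Gr D' H' ⊆ Gr D H := by
  intro S hS
  rw [mem_Gr] at hS ⊢
  exact ⟨hS.1.trans hD, hS.2.imp hH.trans fun a => a.mono_right hH⟩

theorem bd_Gr {D H S : Finset Site} (h : S ∈ Gr D H) : bd S ⊆ allowed D H := by
  intro e he
  rw [mem_bd] at he
  obtain ⟨a, b⟩ := mem_Gr.1 h
  refine mem_allowed.2 ⟨?_, fun c => he ?_⟩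
  · by_cases c : lft e ∈ S
    · exact Or.inl (a c)
    · exact Or.inr (a (by tauto))
  · rcases b with b | b
    · exact iff_of_true (b c.1) (b c.2)
    · exact iff_of_false (Finset.disjoint_right.1 b c.1) (Finset.disjoint_right.1 b c.2)

theorem Om_act {D H S : Finset Site} {T : Finset Tri} {ξ : Finset Edge} (hξ : ξ ∈ Om D H T)
    (hS : S ∈ Gr D H) : ξ ∆ bd S ∈ Om D H T := by
  rw [mem_Om] at hξ ⊢
  refine ⟨Markov_sub hξ.1 (bd_Gr hS), fun t => ?_⟩
  have := not_isOdd_bd S t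
  rw [isOdd_symmDiff, ← hξ.2]
  tauto

theorem Om_xor {D H : Finset Site} {T Q : Finset Tri} {π : Finset Edge} (h : π ⊆ allowed D H)
    (hQ : ∀ t, IsOdd π t ↔ t ∈ Q) : Set.BijOn (· ∆ π) (Om D H T) (Om D H (T ∆ Q)) := by
  refine Set.InvOn.bijOn (f' := (· ∆ π)) ⟨fun ξ _ => symmDiff_symmDiff_cancel_right _ _,
    fun ξ _ => symmDiff_symmDiff_cancel_right _ _⟩ (fun ξ hξ => ?_) fun ξ hξ => ?_
  · rw [Finset.mem_coe, mem_Om] at hξ ⊢
    refine ⟨Markov_sub hξ.1 h, fun t => ?_⟩
    rw [isOdd_symmDiff, hξ.2, hQ, Finset.mem_symmDiff]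
    tauto
  · rw [Finset.mem_coe, mem_Om] at hξ ⊢
    refine ⟨Markov_sub hξ.1 h, fun t => ?_⟩
    rw [isOdd_symmDiff, hξ.2, hQ, Finset.mem_symmDiff]
    tauto

/-- A11; onto by `pot2`: the potential is constant on `H` and vanishes on `Dᶜ` -/
theorem coset {D H : Finset Site} (hH : SConn H) (hO : SConn (D : Set Site)ᶜ) {T : Finset Tri}
    {ξ₀ : Finset Edge} (h : ξ₀ ∈ Om D H T) :
    Set.BijOn (fun S => ξ₀ ∆ bd S) (Gr D H) (Om D H T) := by
  refine ⟨fun S hS => Om_act h hS, fun S _ S' _ he => bd_injective (symmDiff_right_injective _ he),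
    fun η hη => ?_⟩
  rw [Finset.mem_coe, mem_Om] at hη
  rw [mem_Om] at h
  obtain ⟨S, hS⟩ := pot2 (ξ₀ ∆ η) fun t => by
    rw [isOdd_symmDiff, h.2, hη.2]
    tauto
  have hb : bd S ⊆ allowed D H := hS ▸ Markov_sub h.1 hη.1
  refine ⟨S, mem_Gr.2 ⟨fun x hx => ?_, ?_⟩, by
    dsimp only
    rw [hS, symmDiff_symmDiff_cancel_left]⟩
  · by_contra hc
    obtain ⟨y, hy⟩ := Infinite.exists_notMem_finset (D ∪ S)
    rw [Finset.mem_union, not_or] at hy
    exact hy.2 ((Markov_const (fun e he hc => not_touch_iff.2 he (mem_allowed.1 (hb hc)).1)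
      (hO x hc y hy.1)).1 hx)
  · by_cases hd : Disjoint S H
    · exact Or.inr hd
    · obtain ⟨x, hx, hx'⟩ := Finset.not_disjoint_iff.1 hd
      exact Or.inl fun y hy => (Markov_const (fun e he hc => (mem_allowed.1 (hb hc)).2 he)
        (hH x hx' y hy)).1 hx

section
variable {E : Type*} [AddCommGroup E] [Module ℝ E]

theorem avg_coset {D H : Finset Site} (hH : SConn H) (hO : SConn (D : Set Site)ᶜ) {T : Finset Tri}
    {ξ₀ : Finset Edge} (h : ξ₀ ∈ Om D H T) (f : Finset Edge → E) :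
    avg (Gr D H) (fun S => f (ξ₀ ∆ bd S)) = avg (Om D H T) f :=
  avg_bij _ (coset hH hO h) f

theorem avg_shift {D S₀ : Finset Site} (h : S₀ ⊆ D) (f : Finset Site → E) :
    avg D.powerset (fun S => f (S ∆ S₀)) = avg D.powerset f := by
  have hm : Set.MapsTo (· ∆ S₀) (D.powerset : Set (Finset Site)) D.powerset := fun S hS =>
    Finset.mem_powerset.2 (Markov_sub (Finset.mem_powerset.1 hS) h)
  exact avg_bij _ (Set.InvOn.bijOn ⟨fun _ _ => symmDiff_symmDiff_cancel_right _ _,
    fun _ _ => symmDiff_symmDiff_cancel_right _ _⟩ hm hm) f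

theorem avg_compl (D : Finset Site) (f : Finset Site → E) :
    avg D.powerset (fun S => f (D \ S)) = avg D.powerset f := by
  have hm : Set.MapsTo (D \ ·) (D.powerset : Set (Finset Site)) D.powerset := fun S _ =>
    Finset.mem_powerset.2 Finset.sdiff_subset
  have hi : Set.LeftInvOn (D \ ·) (D \ ·) (D.powerset : Set (Finset Site)) := fun S hS =>
    Finset.sdiff_sdiff_eq_self (Finset.mem_powerset.1 hS)
  exact avg_bij _ (Set.InvOn.bijOn ⟨hi, hi⟩ hm hm) f

theorem avg_Gr_shift {D H S₀ : Finset Site} (h : S₀ ∈ Gr D H) (f : Finset Site → E) :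
    avg (Gr D H) (fun S => f (S ∆ S₀)) = avg (Gr D H) f := by
  have hm : Set.MapsTo (· ∆ S₀) (Gr D H : Set (Finset Site)) (Gr D H) := fun S hS =>
    Gr_symmDiff hS h
  exact avg_bij _ (Set.InvOn.bijOn ⟨fun _ _ => symmDiff_symmDiff_cancel_right _ _,
    fun _ _ => symmDiff_symmDiff_cancel_right _ _⟩ hm hm) f

theorem avg_union {A B : Finset Site} (h : Disjoint A B) (f : Finset Site → E) :
    avg (A ∪ B).powerset f = avg A.powerset fun S => avg B.powerset fun S' => f (S ∪ S') := by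
  rw [← Markov_prod A.powerset B.powerset fun S S' => f (S ∪ S')]
  refine (avg_bij (fun q : Finset Site × Finset Site => q.1 ∪ q.2) (Set.InvOn.bijOn
    (f' := fun S => (S ∩ A, S ∩ B)) ⟨fun q hq => ?_, fun S hS => ?_⟩ (fun q hq => ?_)
      fun S _ => ?_) f).symm
  · rw [Finset.mem_coe, Finset.mem_product, Finset.mem_powerset, Finset.mem_powerset] at hq
    exact Prod.ext (Markov_left h hq.1 hq.2) (Markov_right h hq.1 hq.2)
  · dsimp only
    rw [← Finset.inter_union_distrib_left]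
    exact Finset.inter_eq_left.2 (Finset.mem_powerset.1 hS)
  · rw [Finset.mem_coe, Finset.mem_product, Finset.mem_powerset, Finset.mem_powerset] at hq
    exact Finset.mem_powerset.2 (Finset.union_subset_union hq.1 hq.2)
  · rw [Finset.mem_coe, Finset.mem_product, Finset.mem_powerset, Finset.mem_powerset]
    exact ⟨Finset.inter_subset_right, Finset.inter_subset_right⟩

theorem avg_restrict {A D : Finset Site} (h : A ⊆ D) (f : Finset Site → E) :
    avg D.powerset (fun S => f (S ∩ A)) = avg A.powerset f := by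
  conv_lhs => rw [← Finset.union_sdiff_of_subset h, avg_union Finset.disjoint_sdiff]
  refine avg_congr fun S hS => ?_
  refine (avg_congr fun S' hS' => ?_).trans (avg_const (Finset.powerset_nonempty _) _)
  rw [Markov_left Finset.disjoint_sdiff (Finset.mem_powerset.1 hS) (Finset.mem_powerset.1 hS')]

theorem avg_Gr {D H : Finset Site} (h : H ⊆ D) (hne : H.Nonempty) (f : Finset Site → E) :
    avg (Gr D H) f = (1 / 2 : ℝ) • (avg (D \ H).powerset f +
      avg (D \ H).powerset fun S => f (S ∪ H)) := by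
  have h1 := avg_bij (W := (D \ H).powerset ×ˢ ({∅, H} : Finset (Finset Site))) (W' := Gr D H)
    (fun q => q.1 ∪ q.2) (Set.InvOn.bijOn (f' := fun S => (S ∩ (D \ H), S ∩ H))
      ⟨fun q hq => ?_, fun S hS => ?_⟩ (fun q hq => ?_) fun S hS => ?_) f
  · rw [← h1, Markov_prod (D \ H).powerset ({∅, H} : Finset (Finset Site)) fun S S' => f (S ∪ S'),
      ← avg_add, ← Markov_smul]
    refine avg_congr fun S _ => ?_
    rw [avg, Finset.sum_pair hne.ne_empty.symm, Finset.card_pair hne.ne_empty.symm,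
      Finset.union_empty]
    norm_num
  · rw [Finset.mem_coe, Finset.mem_product, Finset.mem_powerset] at hq
    have a : q.2 ⊆ H := by
      rcases Finset.mem_insert.1 hq.2 with a | a
      · rw [a]
        exact Finset.empty_subset _
      · rw [Finset.mem_singleton.1 a]
    exact Prod.ext (Markov_left Finset.sdiff_disjoint hq.1 a)
      (Markov_right Finset.sdiff_disjoint hq.1 a)
  · dsimp only
    rw [← Finset.inter_union_distrib_left, Finset.sdiff_union_of_subset h]
    exact Finset.inter_eq_left.2 (mem_Gr.1 hS).1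
  · rw [Finset.mem_coe, Finset.mem_product, Finset.mem_powerset] at hq
    have a := hq.1.trans Finset.sdiff_subset
    rw [Finset.mem_coe, mem_Gr]
    rcases Finset.mem_insert.1 hq.2 with b | b
    · rw [b, Finset.union_empty]
      exact ⟨a, Or.inr (Finset.sdiff_disjoint.mono_left hq.1)⟩
    · rw [Finset.mem_singleton.1 b]
      exact ⟨Finset.union_subset a h, Or.inl Finset.subset_union_right⟩
  · rw [Finset.mem_coe, Finset.mem_product, Finset.mem_powerset, Finset.mem_insert,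
      Finset.mem_singleton]
    refine ⟨Finset.inter_subset_right, ?_⟩
    rcases (mem_Gr.1 hS).2 with a | a
    · exact Or.inr (Finset.inter_eq_right.2 a)
    · exact Or.inl (Finset.disjoint_iff_inter_eq_empty.1 a)

end

theorem avg_indep {A B D : Finset Site} (hA : A ⊆ D) (hB : B ⊆ D) (h : Disjoint A B)
    (f g : Finset Site → ℝ) :
    avg D.powerset (fun S => f (S ∩ A) * g (S ∩ B)) = avg A.powerset f * avg B.powerset g := by
  have h1 := avg_restrict (Finset.union_subset hA hB) fun S => f (S ∩ A) * g (S ∩ B)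
  simp only [Finset.inter_assoc, Finset.union_inter_cancel_left,
    Finset.union_inter_cancel_right] at h1
  rw [h1, avg_union h, mul_comm, ← avg_mul_left]
  refine avg_congr fun S hS => ?_
  rw [mul_comm, ← avg_mul_left]
  refine avg_congr fun S' hS' => ?_
  rw [Markov_left h (Finset.mem_powerset.1 hS) (Finset.mem_powerset.1 hS'),
    Markov_right h (Finset.mem_powerset.1 hS) (Finset.mem_powerset.1 hS')]

/-- Harris inequality (`IsUpperSet.le_card_inter_finset` on the subtype of `D`) -/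
theorem harris (D : Finset Site) {P Q : Finset Site → Prop}
    (hP : ∀ S S', S ⊆ S' → S' ⊆ D → P S' → P S) (hQ : ∀ S S', S ⊆ S' → S' ⊆ D → Q S' → Q S) :
    pr D.powerset P * pr D.powerset Q ≤ pr D.powerset fun S => P S ∧ Q S := by
  have low : ∀ {R : Finset Site → Prop}, (∀ S S', S ⊆ S' → S' ⊆ D → R S' → R S) →
      IsLowerSet (D.powerset.filter R : Set (Finset Site)) := fun hR S S' h1 h2 => by
    rw [Finset.mem_coe, Finset.mem_filter, Finset.mem_powerset] at h2 ⊢
    exact ⟨h1.trans h2.1, hR _ _ h1 h2.1 h2.2⟩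
  have h1 := (low hP).le_card_inter_finset' (low hQ) (s := D)
    (fun t ht => Finset.mem_powerset.1 (Finset.mem_filter.1 ht).1)
    fun t ht => Finset.mem_powerset.1 (Finset.mem_filter.1 ht).1
  rw [← Finset.filter_and, ← Finset.card_powerset] at h1
  have h2 : (0 : ℝ) < D.powerset.card := by
    exact_mod_cast (Finset.powerset_nonempty D).card_pos
  rw [Markov_pr, Markov_pr, Markov_pr, div_mul_div_comm, div_le_div_iff₀ (by positivity) h2]
  have h3 : ((D.powerset.filter P).card : ℝ) * (D.powerset.filter Q).card ≤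
      D.powerset.card * (D.powerset.filter fun S => P S ∧ Q S).card := by
    exact_mod_cast h1
  have h4 := mul_le_mul_of_nonneg_right h3 h2.le
  linarith

/-- resampling a fixed set of free sites -/
theorem pr_Om_le {D H A : Finset Site} {T : Finset Tri} (hA : A ⊆ D) (hd : Disjoint A H)
    {P : Finset Edge → Prop} {q : ℝ} (hq : 0 ≤ q)
    (h : ∀ ξ ∈ Om D H T, pr A.powerset (fun S => P (ξ ∆ bd S)) ≤ q) : pr (Om D H T) P ≤ q := by
  rw [pr, markov_act (Om D H T) (fun ξ S => ξ ∆ bd S) (fun _ => A.powerset)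
    (fun _ _ => Finset.powerset_nonempty _) fun ξ hξ S hS =>
      ⟨Om_act hξ (Markov_mem hA hd hS), rfl, symmDiff_symmDiff_cancel_right _ _⟩]
  exact avg_le hq h

theorem pr_Gr_le {D H A : Finset Site} (hA : A ⊆ D) (hd : Disjoint A H)
    {P : Finset Site → Prop} {q : ℝ}
    (h : ∀ S₀ ∈ Gr D H, pr A.powerset (fun S => P (S₀ ∆ S)) ≤ q) : pr (Gr D H) P ≤ q := by
  obtain ⟨S₁, hS₁⟩ := Gr_nonempty D H
  rw [pr, markov_act (Gr D H) (fun S₀ S => S₀ ∆ S) (fun _ => A.powerset)
    (fun _ _ => Finset.powerset_nonempty _) fun ξ hξ S hS =>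
      ⟨Gr_symmDiff hξ (Markov_mem hA hd hS), rfl, symmDiff_symmDiff_cancel_right _ _⟩]
  exact avg_le ((pr_nonneg _ _).trans (h S₁ hS₁)) h

theorem InTip.not_allowed {s : ℝ} {D H : Finset Site} {v : Tri} (h : InTip s H v) :
    ∃ i, side v i ∉ allowed D H := by
  obtain ⟨p, -, h1, h2⟩ := h
  exact ⟨p, fun hc => (mem_allowed.1 hc).2 (inside_side.2 ⟨h1, h2⟩)⟩

theorem OutTip.not_allowed {D H : Finset Site} {u : Tri} (h : OutTip D u) :
    ∃ i, side u i ∉ allowed D H := by
  obtain ⟨p, -, h1, h2⟩ := h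
  exact ⟨p, fun hc => (touch_side.1 (mem_allowed.1 hc).1).elim h1 h2⟩

theorem simple_of_Om {D H : Finset Site} {T : Finset Tri} {ξ : Finset Edge} (h : ξ ∈ Om D H T)
    (hT : ∀ t ∈ T, ∃ i, side t i ∉ allowed D H) : Simple ξ := by
  intro t
  rw [mem_Om] at h
  by_cases ht : IsOdd ξ t
  · obtain ⟨i, hi⟩ := hT t ((h.2 t).1 ht)
    exact deg_le_two_of_not_mem fun hc => hi (h.1 hc)
  · exact deg_le_two_of_not_odd ht

theorem Frame.disjoint {s R : ℝ} {D H : Finset Site} {V U : Finset Tri} (h : Frame s R D H V U) :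
    Disjoint V U := by
  refine Finset.disjoint_left.2 fun t hV hU => ?_
  obtain ⟨p, -, a1, a2⟩ := h.inn t hV
  obtain ⟨q, -, b1, b2⟩ := h.out t hU
  have e1 : p + 1 + 1 = p + 2 := by generalize p = i; revert i; decide
  have e2 : p + 2 + 2 = p + 1 := by generalize p = i; revert i; decide
  rcases fin3_cases p q with rfl | rfl | rfl
  · exact b1 (h.toDom.sub a1)
  · exact b1 (e1 ▸ h.toDom.sub a2)
  · exact b2 (e2 ▸ h.toDom.sub a1)

theorem Frame.simple {s R : ℝ} {D H : Finset Site} {V U : Finset Tri} (h : Frame s R D H V U)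
    {ξ : Finset Edge} (hξ : ξ ∈ Om D H (V ∪ U)) : Simple ξ := by
  refine simple_of_Om hξ fun t ht => ?_
  rcases Finset.mem_union.1 ht with a | a
  · exact (h.inn t a).not_allowed
  · exact (h.out t a).not_allowed

theorem InTip.allIn {s : ℝ} {H : Finset Site} (hH : H ⊆ bal 0 s) {v : Tri} (h : InTip s H v) :
    AllIn v (bal 0 (s + 1)) := by
  obtain ⟨p, -, h1, -⟩ := h
  intro i
  have h2 := mem_bal.1 (hH h1)
  exact mem_bal.2 (by linarith [dst_tri (vtx v i) (vtx v (p + 1)) 0, dst_vtx v i (p + 1)])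

theorem OutTip.allIn {R : ℝ} {D : Finset Site} (hD : bal 0 R ⊆ D) {u : Tri} (h : OutTip D u) :
    AllIn u (bal 0 (R - 1) : Set Site)ᶜ := by
  obtain ⟨p, -, h1, -⟩ := h
  intro i hi
  have h2 := mem_bal.1 hi
  exact h1 (hD (mem_bal.2
    (by linarith [dst_tri (vtx u (p + 1)) (vtx u i) 0, dst_vtx u (p + 1) i])))

/-- every source touches the connected set `D \ bal 0 s`; use `hug2` -/
theorem Om_nonempty {s R : ℝ} {D H : Finset Site} (h : Dom s R D H) {T : Finset Tri}
    (hT : ∀ t ∈ T, TT t (D \ bal 0 s : Finset Site)) (he : Even T.card) : (Om D H T).Nonempty := by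
  obtain ⟨π, h1, h2⟩ := hug2 h.sconn_diff hT he
  refine ⟨π, mem_Om.2 ⟨fun e he => mem_allowed.2 ?_, h2⟩⟩
  rcases h1 e he with a | a
  · have b := Finset.mem_sdiff.1 a
    exact ⟨Or.inl b.1, fun c => b.2 (h.hs c.1)⟩
  · have b := Finset.mem_sdiff.1 a
    exact ⟨Or.inr b.1, fun c => b.2 (h.hs c.2)⟩

end Pool.Agent.TAF.U
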