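import Pool.Agent.P.MP_cb4022_pr.U.Gib

/-! Dobrushin mixing (paper G1) and the covariance bounds. -/

open scoped Classical symmDiff

noncomputable section

namespace Pool.Agent.TAF.U

/-- `δ x` bounds the change of `f` under a flip of `x` -/
def Mix_Osc (f : Finset Site → ℝ) (δ : Site → ℝ) : Prop := ∀ x S, |f (S ∆ {x}) - f S| ≤ δ x

/-- `a` is an estimate for the two functionals -/
def Mix_Est (W : Finset Site) (μ ν : (Finset Site → ℝ) → ℝ) (a : Site → ℝ) : Prop :=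
  ∀ f δ, Mix_Osc f δ → |μ f - ν f| ≤ ∑ x ∈ W, a x * δ x

theorem Mix_Osc.nonneg {f : Finset Site → ℝ} {δ : Site → ℝ} (h : Mix_Osc f δ) (x : Site) :
    0 ≤ δ x := (abs_nonneg _).trans (h x ∅)

theorem Mix_Est.mono {W : Finset Site} {μ ν : (Finset Site → ℝ) → ℝ} {a a' : Site → ℝ}
    (h : Mix_Est W μ ν a) (ha : ∀ x ∈ W, a x ≤ a' x) : Mix_Est W μ ν a' := fun f δ hδ =>
  (h f δ hδ).trans (Finset.sum_le_sum fun x hx =>
    mul_le_mul_of_nonneg_right (ha x hx) (hδ.nonneg x))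

theorem Mix_flip {f : Finset Site → ℝ} {δ : Site → ℝ} (h : Mix_Osc f δ) (S T : Finset Site) :
    |f (S ∆ T) - f S| ≤ ∑ x ∈ T, δ x := by
  induction T using Finset.induction_on with
  | empty => simp [show S ∆ ∅ = S from symmDiff_bot S]
  | insert x T hx ih =>
    have e : S ∆ insert x T = (S ∆ T) ∆ {x} := by
      ext y
      simp only [Finset.mem_symmDiff, Finset.mem_insert, Finset.mem_singleton]
      by_cases hy : y = x
      · subst hy
        simp [hx]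
      · simp [hy]
    rw [e, Finset.sum_insert hx]
    have h1 := h x (S ∆ T)
    have h2 := abs_sub_le (f ((S ∆ T) ∆ {x})) (f (S ∆ T)) (f S)
    linarith

theorem Mix_est_one {W Λ Λ' S₀ S₁ : Finset Site} (j j' : Site → ℝ) (h₁ : Λ ⊆ W) (h₂ : Λ' ⊆ W)
    (h₃ : S₀ ⊆ W) (h₄ : S₁ ⊆ W) : Mix_Est W (gib Λ S₀ j) (gib Λ' S₁ j') fun _ => 1 := by
  intro f δ hδ
  rw [← gib_const (Λ := Λ) (S₀ := S₀) (j := j) (gib Λ' S₁ j' f), ← gib_sub]
  refine abs_gib_le fun S hS => ?_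
  rw [← gib_const (Λ := Λ') (S₀ := S₁) (j := j') (f S), ← gib_sub]
  refine abs_gib_le fun S' hS' => ?_
  have h5 := Mix_flip hδ S' (S' ∆ S)
  rw [symmDiff_symmDiff_cancel_left] at h5
  refine h5.trans ?_
  simp only [one_mul]
  refine Finset.sum_le_sum_of_subset_of_nonneg (fun x hx => ?_) fun x _ _ => hδ.nonneg x
  rcases Finset.mem_symmDiff.1 hx with k | k
  · by_cases hx : x ∈ Λ'
    · exact h₂ hx
    · exact h₄ ((hS' x hx).1 k.1)
  · by_cases hx : x ∈ Λ
    · exact h₁ hx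
    · exact h₃ ((hS x hx).1 k.1)

theorem Mix_swap (S : Finset Site) (x y : Site) : (S ∆ {x}) ∆ {y} = (S ∆ {y}) ∆ {x} :=
  symmDiff_right_comm _ _ _

/-- a site that is frozen to the same colour -/
theorem Mix_frozen {W Λ Λ' S₀ S₁ : Finset Site} {j j' a : Site → ℝ}
    (h : Mix_Est W (gib Λ S₀ j) (gib Λ' S₁ j') a) {x : Site} (h₁ : x ∉ Λ) (h₂ : x ∉ Λ')
    (h₃ : x ∈ S₀ ↔ x ∈ S₁) : Mix_Est W (gib Λ S₀ j) (gib Λ' S₁ j') (Function.update a x 0) := by
  intro f δ hδ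
  set g : Finset Site → ℝ := fun S => f (if x ∈ S ↔ x ∈ S₀ then S else S ∆ {x}) with hg
  have e₁ : gib Λ S₀ j f = gib Λ S₀ j g := gib_congr fun S hS => by
    simp only [hg, if_pos (hS x h₁)]
  have e₂ : gib Λ' S₁ j' f = gib Λ' S₁ j' g := gib_congr fun S hS => by
    simp only [hg, if_pos ((hS x h₂).trans h₃.symm)]
  have ho : Mix_Osc g (Function.update δ x 0) := by
    intro y S
    by_cases hy : y = x
    · subst hy
      have e : (y ∈ S ∆ {y} ↔ y ∈ S₀) ↔ ¬ (y ∈ S ↔ y ∈ S₀) := by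
        simp only [Finset.mem_symmDiff, Finset.mem_singleton]
        tauto
      simp only [hg, e, Function.update_self]
      by_cases k : y ∈ S ↔ y ∈ S₀
      · simp [k]
      · simp [k]
    · have e : (x ∈ S ∆ {y} ↔ x ∈ S₀) ↔ (x ∈ S ↔ x ∈ S₀) := by
        simp [Finset.mem_symmDiff, Ne.symm hy]
      simp only [hg, e, Function.update_of_ne hy]
      split_ifs
      · exact hδ y S
      · rw [Mix_swap]
        exact hδ y _
  rw [e₁, e₂]
  refine (h g _ ho).trans (le_of_eq (Finset.sum_congr rfl fun y _ => ?_))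
  by_cases hy : y = x
  · subst hy
    simp
  · simp [Function.update_of_ne hy]

theorem Mix_bd_single (x : Site) : bd {x} = star x := by
  ext e
  have := lft_ne_rgt e
  rw [mem_bd, mem_star, Finset.mem_singleton, Finset.mem_singleton]
  constructor
  · tauto
  · rintro (h | h) k
    · exact this (h.trans (k.1 h).symm)
    · exact this ((k.2 h).trans h.symm)

theorem Mix_sum_symmDiff {α : Type*} [DecidableEq α] (B T : Finset α) (w : α → ℝ) :
    ∑ e ∈ B, w e - ∑ e ∈ B ∆ T, w e = ∑ e ∈ T, if e ∈ B then w e else -w e := by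
  have h1 : ∑ e ∈ B ∆ T, w e = ∑ e ∈ B \ T, w e + ∑ e ∈ T \ B, w e := by
    rw [symmDiff_def]
    exact Finset.sum_union disjoint_sdiff_sdiff
  have h2 : ∑ e ∈ B, w e = ∑ e ∈ B \ T, w e + ∑ e ∈ T ∩ B, w e := by
    rw [Finset.inter_comm, add_comm, Finset.sum_inter_add_sum_sdiff]
  rw [h1, h2, Finset.sum_ite, Finset.filter_mem_eq_inter, Finset.filter_notMem_eq_sdiff,
    Finset.sum_neg_distrib]
  ring

/-- the energy gained by keeping the colour of `x` -/
def Mix_D (j : Site → ℝ) (x : Site) (S : Finset Site) : ℝ := ham j S - ham j (S ∆ {x})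

theorem Mix_D_eq (j : Site → ℝ) (x : Site) (S : Finset Site) :
    Mix_D j x S = ∑ e ∈ star x, if e ∈ bd S then ew j e else -ew j e := by
  rw [Mix_D, ham, ham, bd_symmDiff, Mix_bd_single, Mix_sum_symmDiff]

theorem Mix_D_lip {j : Site → ℝ} (hj : Bd j (1 / 12)) (x y : Site) (S : Finset Site) :
    |Mix_D j x (S ∆ {y}) - Mix_D j x S| ≤ 1 / 3 * ((star x ∩ star y).card : ℝ) := by
  rw [Mix_D_eq, Mix_D_eq, ← Finset.sum_sub_distrib, bd_symmDiff, Mix_bd_single,
    ← Finset.filter_mem_eq_inter, Finset.card_filter]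
  push_cast
  rw [Finset.mul_sum]
  refine (Finset.abs_sum_le_sum_abs _ _).trans (Finset.sum_le_sum fun e _ => ?_)
  have h1 := abs_le.1 (hj (lft e))
  have h2 := abs_le.1 (hj (rgt e))
  by_cases k : e ∈ bd S <;> by_cases k' : e ∈ star y <;>
    simp only [Finset.mem_symmDiff, k, k', ew, abs_le, not_true, not_false_iff, and_true,
      and_false, or_true, or_false, if_true, if_false] <;>
    constructor <;> linarith [h1.1, h1.2, h2.1, h2.2]

theorem Mix_sigmoid (s t : ℝ) : |Real.sigmoid s - Real.sigmoid t| ≤ 1 / 4 * |s - t| := by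
  have h := Convex.norm_image_sub_le_of_norm_deriv_le (f := Real.sigmoid) (s := Set.univ)
    (C := 1 / 4) (x := t) (y := s) (fun x _ => differentiableAt_sigmoid)
    (fun x _ => by
      rw [Real.deriv_sigmoid, Real.norm_eq_abs, abs_of_nonneg
        (mul_nonneg (Real.sigmoid_nonneg x) (sub_nonneg.2 (Real.sigmoid_le_one x)))]
      nlinarith [sq_nonneg (Real.sigmoid x - 1 / 2)]) convex_univ trivial trivial
  simpa only [Real.norm_eq_abs] using h

theorem Mix_gib_single (x : Site) (S : Finset Site) (j : Site → ℝ) (f : Finset Site → ℝ) :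
    gib {x} S j f = Real.sigmoid (Mix_D j x S) * f S +
      (1 - Real.sigmoid (Mix_D j x S)) * f (S ∆ {x}) := by
  have e : ({x} : Finset Site).powerset = {∅, {x}} := by
    ext T
    simp [Finset.subset_singleton_iff]
  have hne : (∅ : Finset Site) ≠ {x} := (Finset.singleton_ne_empty x).symm
  have e0 : S ∆ ∅ = S := symmDiff_bot S
  rw [gib, e, Finset.sum_pair hne, Finset.sum_pair hne, e0, Real.sigmoid_def, Mix_D, neg_sub,
    Real.exp_sub]
  have h1 := Real.exp_pos (ham j S)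
  have h2 := Real.exp_pos (ham j (S ∆ {x}))
  field_simp
  ring

theorem Mix_osc_single {j : Site → ℝ} (hj : Bd j (1 / 12)) (x : Site) {f : Finset Site → ℝ}
    {δ : Site → ℝ} (hδ : Mix_Osc f δ) : Mix_Osc (fun S => gib {x} S j f)
      (Function.update (fun y => δ y + 1 / 12 * ((star x ∩ star y).card : ℝ) * δ x) x 0) := by
  intro y S
  by_cases hy : y = x
  · subst hy
    have : gib {y} (S ∆ {y}) j f = gib {y} S j f := gib_shift (off_symmDiff subset_rfl S)
    simp [this]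
  rw [Function.update_of_ne hy]
  simp only [Mix_gib_single]
  set p := Real.sigmoid (Mix_D j x S)
  set q := Real.sigmoid (Mix_D j x (S ∆ {y}))
  have hq0 : 0 ≤ q := Real.sigmoid_nonneg _
  have hq1 : 0 ≤ 1 - q := sub_nonneg.2 (Real.sigmoid_le_one _)
  have h1 : |q - p| ≤ 1 / 12 * ((star x ∩ star y).card : ℝ) := by
    have := Mix_D_lip hj x y S
    linarith [Mix_sigmoid (Mix_D j x (S ∆ {y})) (Mix_D j x S)]
  have h2 := hδ y S
  have h3 := hδ y (S ∆ {x})
  have h4 := hδ x S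
  rw [Mix_swap] at h3
  have e : q * f (S ∆ {y}) + (1 - q) * f ((S ∆ {y}) ∆ {x}) - (p * f S + (1 - p) * f (S ∆ {x})) =
      q * (f (S ∆ {y}) - f S) + (1 - q) * (f ((S ∆ {y}) ∆ {x}) - f (S ∆ {x})) -
        (q - p) * (f (S ∆ {x}) - f S) := by ring
  rw [e]
  refine (abs_sub _ _).trans (add_le_add ((abs_add_le _ _).trans ?_) ?_)
  · rw [abs_mul, abs_mul, abs_of_nonneg hq0, abs_of_nonneg hq1]
    nlinarith [mul_le_mul_of_nonneg_left h2 hq0, mul_le_mul_of_nonneg_left h3 hq1]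
  · rw [abs_mul]
    exact mul_le_mul h1 h4 (abs_nonneg _) (by positivity)

theorem Mix_card_star (x : Site) : (star x).card ≤ 6 := Finset.card_le_six

theorem Mix_sum_card (W : Finset Site) (x : Site) :
    ∑ y ∈ W.erase x, ((star x ∩ star y).card : ℝ) ≤ 6 := by
  have h : ∑ y ∈ W.erase x, (star x ∩ star y).card ≤ 6 := by
    rw [← Finset.card_biUnion]
    · exact (Finset.card_le_card (Finset.biUnion_subset.2 fun y _ =>
        Finset.inter_subset_left)).trans (Mix_card_star x)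
    · intro y hy z hz hyz
      have hy' := Finset.ne_of_mem_erase (Finset.mem_coe.1 hy)
      have hz' := Finset.ne_of_mem_erase (Finset.mem_coe.1 hz)
      refine Finset.disjoint_left.2 fun e h1 h2 => ?_
      simp only [Finset.mem_inter, mem_star] at h1 h2
      obtain ⟨h3, h4⟩ := h1
      obtain ⟨-, h5⟩ := h2
      rcases h3 with h3 | h3 <;> rcases h4 with h4 | h4 <;> rcases h5 with h5 | h5 <;> simp_all
  exact_mod_cast h

theorem Mix_dst_star {x y : Site} {e : Edge} (h : e ∈ star x) (h' : e ∈ star y) : dst y x ≤ 1 := by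
  have h1 := dst_adj (adj_lft_rgt e)
  rcases mem_star.1 h with rfl | rfl <;> rcases mem_star.1 h' with rfl | rfl
  · simp
  · rw [dst_comm, h1]
  · rw [h1]
  · simp

/-- a site that is free in both measures -/
theorem Mix_free {W Λ Λ' S₀ S₁ : Finset Site} {j j' a : Site → ℝ} (hj : Bd j (1 / 12))
    (h : Mix_Est W (gib Λ S₀ j) (gib Λ' S₁ j') a) {x : Site} (hW : x ∈ W) (h₁ : x ∈ Λ)
    (h₂ : x ∈ Λ') (h₃ : ∀ y, dst y x ≤ 1 → j y = j' y) {M : ℝ} (hM : 0 ≤ M)
    (ha : ∀ y, dst y x ≤ 1 → a y ≤ M) :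
    Mix_Est W (gib Λ S₀ j) (gib Λ' S₁ j') (Function.update a x (M / 2)) := by
  intro f δ hδ
  have e : ∀ S, gib {x} S j' f = gib {x} S j f := fun S => gib_congr_j fun e he => by
    have he' : e ∈ star x := mem_star.2 (by simpa [Touch] using he)
    rw [ew, ew, h₃ _ (Mix_dst_star he' (mem_star.2 (.inl rfl))),
      h₃ _ (Mix_dst_star he' (mem_star.2 (.inr rfl)))]
  rw [← gib_dlr (Finset.singleton_subset_iff.2 h₁) (F := f),
    ← gib_dlr (Finset.singleton_subset_iff.2 h₂) (F := f)]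
  simp only [e]
  refine (h _ _ (Mix_osc_single hj x hδ)).trans ?_
  rw [← Finset.add_sum_erase _ _ hW, ← Finset.add_sum_erase _ _ hW, Function.update_self,
    Function.update_self, mul_zero, zero_add]
  have h4 : ∀ y ∈ W.erase x, a y * Function.update
      (fun y => δ y + 1 / 12 * ((star x ∩ star y).card : ℝ) * δ x) x 0 y ≤
      M / 12 * δ x * ((star x ∩ star y).card : ℝ) + Function.update a x (M / 2) y * δ y := by
    intro y hy
    rw [Function.update_of_ne (Finset.ne_of_mem_erase hy),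
      Function.update_of_ne (Finset.ne_of_mem_erase hy)]
    rcases (star x ∩ star y).eq_empty_or_nonempty with k | ⟨e, k⟩
    · simp [k]
    · have h5 := ha y (Mix_dst_star (Finset.mem_inter.1 k).1 (Finset.mem_inter.1 k).2)
      have h6 : 0 ≤ 1 / 12 * ((star x ∩ star y).card : ℝ) * δ x :=
        mul_nonneg (by positivity) (hδ.nonneg x)
      nlinarith [mul_le_mul_of_nonneg_right h5 h6]
  refine (Finset.sum_le_sum h4).trans ?_
  rw [Finset.sum_add_distrib, ← Finset.mul_sum]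
  have h7 := mul_le_mul_of_nonneg_left (Mix_sum_card W x)
    (mul_nonneg (div_nonneg hM (by norm_num : (0 : ℝ) ≤ 12)) (hδ.nonneg x))
  linarith

theorem Mix_iter {W Λ Λ' S₀ S₁ A : Finset Site} {j j' : Site → ℝ} (hj : Bd j (1 / 12)) {ρ : ℝ}
    (h : ∀ x, (∃ a ∈ A, dst x a ≤ ρ) →
      (x ∈ Λ ↔ x ∈ Λ') ∧ (x ∉ Λ → (x ∈ S₀ ↔ x ∈ S₁)) ∧ j x = j' x)
    (h₀ : Mix_Est W (gib Λ S₀ j) (gib Λ' S₁ j') fun _ => 1) (k : ℕ) :
    Mix_Est W (gib Λ S₀ j) (gib Λ' S₁ j')
      fun x => if ∃ a ∈ A, dst x a ≤ ρ - k then (1 / 2) ^ k else 1 := by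
  induction k with
  | zero => exact h₀.mono fun x _ => by simp
  | succ k ih =>
    have key : ∀ T : Finset Site, (∀ x ∈ T, x ∈ W ∧ ∃ a ∈ A, dst x a ≤ ρ - (k + 1 : ℕ)) →
        Mix_Est W (gib Λ S₀ j) (gib Λ' S₁ j') fun x => if x ∈ T then (1 / 2) ^ (k + 1) else
          if ∃ a ∈ A, dst x a ≤ ρ - k then (1 / 2) ^ k else 1 := by
      intro T
      induction T using Finset.induction_on with
      | empty => exact fun _ => ih.mono fun x _ => by simp
      | insert x T hx ihT =>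
        intro hT
        have h1 := ihT fun y hy => hT y (Finset.mem_insert_of_mem hy)
        obtain ⟨hW, a, ha, hd⟩ := hT x (Finset.mem_insert_self _ _)
        push_cast at hd
        have hk : (0 : ℝ) ≤ k := Nat.cast_nonneg k
        have hn : ∀ y, dst y x ≤ 1 → dst y a ≤ ρ - k := fun y hy => by
          linarith [dst_tri y x a]
        obtain ⟨h2, h3, -⟩ := h x ⟨a, ha, by linarith⟩
        have hp : (0 : ℝ) < (1 / 2) ^ k := by positivity
        have hu : ∀ c : ℝ, c ≤ (1 / 2) ^ (k + 1) → ∀ y ∈ W, Function.update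
            (fun x => if x ∈ T then ((1 / 2) ^ (k + 1) : ℝ) else
              if ∃ a ∈ A, dst x a ≤ ρ - k then (1 / 2) ^ k else 1) x c y ≤
            if y ∈ insert x T then (1 / 2) ^ (k + 1) else
              if ∃ a ∈ A, dst y a ≤ ρ - k then (1 / 2) ^ k else 1 := by
          intro c hc y _
          by_cases hy : y = x
          · subst hy
            rwa [Function.update_self, if_pos (Finset.mem_insert_self _ _)]
          · simp only [Function.update_of_ne hy, Finset.mem_insert, hy, false_or, le_refl]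
        by_cases hΛ : x ∈ Λ
        · refine (Mix_free hj h1 hW hΛ (h2.1 hΛ)
            (fun y hy => (h y ⟨a, ha, by linarith [hn y hy]⟩).2.2) hp.le fun y hy => ?_).mono
            (hu _ (by rw [pow_succ]; linarith))
          split_ifs with k1 k2
          · rw [pow_succ]
            linarith
          · exact le_rfl
          · exact absurd ⟨a, ha, hn y hy⟩ k2
        · exact (Mix_frozen h1 hΛ (fun k => hΛ (h2.2 k)) (h3 hΛ)).mono (hu _ (by positivity))
    refine (key (W.filter fun x => ∃ a ∈ A, dst x a ≤ ρ - (k + 1 : ℕ))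
      fun x hx => Finset.mem_filter.1 hx).mono fun x hx => ?_
    by_cases k1 : ∃ a ∈ A, dst x a ≤ ρ - (k + 1 : ℕ)
    · rw [if_pos (Finset.mem_filter.2 ⟨hx, k1⟩), if_pos k1]
    · rw [if_neg (by rw [Finset.mem_filter]; exact fun l => k1 l.2), if_neg k1]
      split_ifs
      · exact pow_le_one₀ (by norm_num) (by norm_num)
      · exact le_rfl

theorem Mix_cov {Λ Λ' S₀ S₁ : Finset Site} {j j' : Site → ℝ} {A : Set Site} {ε : ℝ}
    (h : ∀ f, Dep A f → (∀ S, |f S| ≤ 1) → |gib Λ S₀ j f - gib Λ' S₁ j' f| ≤ ε) {w : Site}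
    (hw : Dep A (hx w)) {g : Finset Site → ℝ} (hd : Dep A g) (hg : ∀ S, |g S| ≤ 1) :
    |cov Λ S₀ j g (hx w) - cov Λ' S₁ j' g (hx w)| ≤ 18 * ε := by
  have hh : ∀ S, |hx w S| ≤ 6 := fun S => by
    rw [abs_of_nonneg (hx_nonneg w S)]
    exact hx_le w S
  have h1 := h (fun S => 1 / 6 * (g S * hx w S))
    (fun S S' k => by simp only [hd S S' k, hw S S' k]) fun S => by
      rw [abs_mul, abs_mul, abs_of_pos (by norm_num : (0 : ℝ) < 1 / 6)]
      nlinarith [mul_le_mul (hg S) (hh S) (abs_nonneg _) zero_le_one]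
  have h2 := h g hd hg
  have h3 := h (fun S => 1 / 6 * hx w S) (fun S S' k => by simp only [hw S S' k]) fun S => by
    rw [abs_mul, abs_of_pos (by norm_num : (0 : ℝ) < 1 / 6)]
    linarith [hh S]
  rw [gib_mul, gib_mul, ← mul_sub, abs_mul, abs_of_pos (by norm_num : (0 : ℝ) < 1 / 6)] at h1 h3
  have h4 : |gib Λ S₀ j (hx w)| ≤ 6 := abs_gib_le fun S _ => hh S
  have h5 : |gib Λ' S₁ j' g| ≤ 1 := abs_gib_le fun S _ => hg S
  have e : cov Λ S₀ j g (hx w) - cov Λ' S₁ j' g (hx w) =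
      (gib Λ S₀ j (fun S => g S * hx w S) - gib Λ' S₁ j' fun S => g S * hx w S) -
        ((gib Λ S₀ j g - gib Λ' S₁ j' g) * gib Λ S₀ j (hx w) +
          gib Λ' S₁ j' g * (gib Λ S₀ j (hx w) - gib Λ' S₁ j' (hx w))) := by
    unfold cov
    ring
  rw [e]
  refine (abs_sub _ _).trans ((add_le_add le_rfl (abs_add_le _ _)).trans ?_)
  rw [abs_mul, abs_mul]
  have h6 := mul_le_mul h2 h4 (abs_nonneg _) ((abs_nonneg _).trans h2)
  have h7 := mul_le_mul_of_nonneg_right h5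
    (abs_nonneg (gib Λ S₀ j (hx w) - gib Λ' S₁ j' (hx w)))
  linarith

theorem Mix_Dep_mono {A B : Set Site} (h : A ⊆ B) {F : Finset Site → ℝ} (hF : Dep A F) :
    Dep B F := fun S S' k => hF S S' fun x hx => k x (h hx)

/-- G1. Call `a : Site → ℝ` an estimate if the difference of the two expectations of every `f` is
at most `∑ x ∈ W, a x * δ x` whenever `δ x` bounds the change of `f` under a flip of `x` (`W` a
finite set that contains `Λ`, `Λ'`, `S₀`, `S₁`). `a = 1` is an estimate. At a site that is free in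
both measures (`gib_dlr` with `{x}`) `a x` can be replaced by `(1 / 12) * ∑ a y` over the six
neighbours (the logistic function is `1 / 4`-Lipschitz); at a site that is frozen in both by `0`.
By induction on `k`, `a x = 2⁻¹ ^ k` on the sites within `ρ - k` of `A`. -/
theorem mix {Λ Λ' S₀ S₁ A : Finset Site} {j j' : Site → ℝ} (hj : Bd j (1 / 12))
    (hj' : Bd j' (1 / 12)) {ρ : ℝ}
    (h : ∀ x, (∃ a ∈ A, dst x a ≤ ρ) →
      (x ∈ Λ ↔ x ∈ Λ') ∧ (x ∉ Λ → (x ∈ S₀ ↔ x ∈ S₁)) ∧ j x = j' x)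
    {f : Finset Site → ℝ} (hd : Dep A f) (hf : ∀ S, |f S| ≤ 1) :
    |gib Λ S₀ j f - gib Λ' S₁ j' f| ≤ 4 * A.card * (1 / 2) ^ ρ := by
  have h1 := Mix_iter hj h (Mix_est_one (W := Λ ∪ Λ' ∪ S₀ ∪ S₁) j j'
    (fun x hx => by simp [hx]) (fun x hx => by simp [hx]) (fun x hx => by simp [hx])
    fun x hx => by simp [hx]) ⌊ρ⌋₊ f (fun x => if x ∈ A then 2 else 0) (by
      intro x S
      beta_reduce
      split_ifs with k
      · linarith [abs_sub (f (S ∆ {x})) (f S), hf (S ∆ {x}), hf S]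
      · rw [hd (S ∆ {x}) S fun y hy => by
          have : y ≠ x := fun e => k (e ▸ hy)
          simp [Finset.mem_symmDiff, this]]
        simp)
  have h2 : ((1 / 2 : ℝ)) ^ ⌊ρ⌋₊ ≤ 2 * (1 / 2) ^ ρ := by
    rw [← Real.rpow_natCast]
    calc ((1 / 2 : ℝ)) ^ (⌊ρ⌋₊ : ℝ) ≤ (1 / 2) ^ (ρ - 1) :=
          Real.rpow_le_rpow_of_exponent_ge (by norm_num) (by norm_num)
            (Nat.sub_one_lt_floor ρ).le
      _ = _ := by
        rw [Real.rpow_sub (by norm_num), Real.rpow_one]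
        ring
  refine h1.trans ?_
  calc _ ≤ ∑ x ∈ Λ ∪ Λ' ∪ S₀ ∪ S₁, if x ∈ A then 4 * (1 / 2 : ℝ) ^ ρ else 0 := by
        refine Finset.sum_le_sum fun x _ => ?_
        by_cases k : x ∈ A
        · rw [if_pos k, if_pos k]
          beta_reduce
          split_ifs with k'
          · linarith
          · have : ρ < 0 := not_le.1 fun l => k' ⟨x, k, by
              rw [dst_self]
              exact sub_nonneg.2 (Nat.floor_le l)⟩
            rw [Nat.floor_of_nonpos this.le, pow_zero] at h2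
            linarith
        · rw [if_neg k, if_neg k, mul_zero]
    _ ≤ _ := by
      rw [← Finset.sum_filter, Finset.sum_const, nsmul_eq_mul, Finset.filter_mem_eq_inter]
      have h3 : (((Λ ∪ Λ' ∪ S₀ ∪ S₁) ∩ A).card : ℝ) ≤ A.card := by
        exact_mod_cast Finset.card_le_card Finset.inter_subset_right
      have h4 : 0 ≤ 4 * (1 / 2 : ℝ) ^ ρ := by positivity
      nlinarith [mul_le_mul_of_nonneg_right h3 h4]

/-- the conditional expectation of `hx w` given the outside of a ball is almost constant -/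
theorem mix_hx {Λ S₀ S : Finset Site} {j : Site → ℝ} (hj : Bd j (1 / 12)) (hS : Off Λ S S₀)
    (w : Site) (r : ℝ) :
    |gib (Λ ∩ bal w r) S j (hx w) - gib Λ S₀ j (hx w)| ≤ 2000 * (1 / 2) ^ r := by
  have h1 := mix (Λ := Λ ∩ bal w r) (Λ' := Λ) (S₀ := S) (S₁ := S₀) (A := bal w 1) hj hj
    (ρ := r - 1) (fun x ⟨a, ha, hd⟩ => by
      have : x ∈ bal w r := mem_bal.2 (by linarith [dst_tri x a w, mem_bal.1 ha])
      exact ⟨by simp [this], fun k => hS x fun l => k (Finset.mem_inter.2 ⟨l, this⟩), rfl⟩)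
    (f := fun S => 1 / 6 * hx w S) (fun S S' k => by simp only [hx_dep w S S' k]) fun S => by
      rw [abs_of_nonneg (mul_nonneg (by norm_num) (hx_nonneg w S))]
      linarith [hx_le w S]
  rw [gib_mul, gib_mul, ← mul_sub, abs_mul, abs_of_pos (by norm_num : (0 : ℝ) < 1 / 6),
    Real.rpow_sub (by norm_num), Real.rpow_one] at h1
  have h2 := card_bal w (r := 1) zero_le_one
  have h3 : 0 ≤ (1 / 2 : ℝ) ^ r := by positivity
  nlinarith [mul_le_mul_of_nonneg_right h2 h3]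

theorem cov_far {Λ S₀ : Finset Site} {j : Site → ℝ} (hj : Bd j (1 / 12)) {w : Site} {r : ℝ}
    {G : Finset Site → ℝ} (hd : Dep (bal w r : Set Site)ᶜ G) (hG : ∀ S, |G S| ≤ 1) :
    |cov Λ S₀ j G (hx w)| ≤ 4000 * (1 / 2) ^ r := by
  have h0 : 0 ≤ 2000 * (1 / 2 : ℝ) ^ r := by positivity
  rw [cov_comm, cov_dlr (Λ' := Λ ∩ bal w r) Finset.inter_subset_left
    (Mix_Dep_mono (Set.compl_subset_compl.2 (by simp)) hd),
    cov_congr (F' := fun S => (if Off Λ S S₀ then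
      gib (Λ ∩ bal w r) S j (hx w) - gib Λ S₀ j (hx w) else 0) + gib Λ S₀ j (hx w))
      fun S hS => by rw [if_pos hS, sub_add_cancel], cov_add, cov_const, add_zero]
  refine (abs_cov_le (a := 2000 * (1 / 2) ^ r) (fun S => ?_) hG).trans (le_of_eq (by ring))
  split_ifs with k
  · exact mix_hx hj k w r
  · rwa [abs_zero]

/-- `mix` for `g * hx w / 6`, `g` and `hx w / 6` -/
theorem cov_mix {Λ Λ' S₀ S₁ A : Finset Site} {j j' : Site → ℝ} (hj : Bd j (1 / 12))
    (hj' : Bd j' (1 / 12)) {ρ : ℝ}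
    (h : ∀ x, (∃ a ∈ A, dst x a ≤ ρ) → x ∈ Λ ∧ x ∈ Λ' ∧ j x = j' x) {w : Site} (hw : bal w 1 ⊆ A)
    {g : Finset Site → ℝ} (hd : Dep A g) (hg : ∀ S, |g S| ≤ 1) :
    |cov Λ S₀ j g (hx w) - cov Λ' S₁ j' g (hx w)| ≤ 72 * A.card * (1 / 2) ^ ρ := by
  refine (Mix_cov (A := A) (ε := 4 * A.card * (1 / 2) ^ ρ) (fun f h1 h2 => mix hj hj'
    (fun x hx => ?_) h1 h2) (Mix_Dep_mono (Finset.coe_subset.2 hw) (hx_dep w)) hd hg).trans
    (le_of_eq (by ring))
  obtain ⟨k1, k2, k3⟩ := h x hx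
  exact ⟨iff_of_true k1 k2, fun k => absurd k1 k, k3⟩

theorem cov_tv {Λ S₀ : Finset Site} {j j' : Site → ℝ} (W : Finset Site) (hW : ∀ x ∉ W, j x = j' x)
    {b : ℝ} (hb : ∀ w ∈ W, |j' w - j w| ≤ b) {F : Finset Site → ℝ} (hF : ∀ S, |F S| ≤ 1)
    (v : Site) : |cov Λ S₀ j' F (hx v) - cov Λ S₀ j F (hx v)| ≤ 216 * b * W.card := by
  have hu : ∀ f : Finset Site → ℝ, Dep Set.univ f := fun f S S' k => by
    rw [Finset.ext fun x => k x trivial]
  exact (Mix_cov (A := Set.univ) (fun f _ h2 => gib_tv W hW hb h2) (hu _) (hu _) hF).trans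
    (le_of_eq (by ring))

/-- covariance bound for one measure -/
def CB (Λ S₀ : Finset Site) (j : Site → ℝ) (v : Site) (ρ a : ℝ) : Prop :=
  ∀ F, Meas (bal v ρ) F → (∀ S, |F S| ≤ 1) → |cov Λ S₀ j F (hx v)| ≤ a

/-- covariance bound for all measures -/
def NB (b ρ a : ℝ) : Prop := ∀ (Λ S₀ : Finset Site) (j : Site → ℝ) (v : Site),
  bal v (2 * ρ) ⊆ Λ → Bd j b → Lip j (1 / ρ) → CB Λ S₀ j v ρ a

theorem cb_triv (Λ S₀ : Finset Site) (j : Site → ℝ) (v : Site) (ρ : ℝ) : CB Λ S₀ j v ρ 12 := by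
  intro F _ hF
  refine (abs_cov_le (b := 6) hF fun S => ?_).trans (by norm_num)
  rw [abs_of_nonneg (hx_nonneg v S)]
  exact hx_le v S
theorem CB.nonneg {Λ S₀ : Finset Site} {j : Site → ℝ} {v : Site} {ρ a : ℝ}
    (h : CB Λ S₀ j v ρ a) : 0 ≤ a := by
  exact (abs_nonneg _).trans (h (fun _ => 0) (fun _ _ _ => rfl) fun _ => by simp)
theorem CB.mono {Λ S₀ : Finset Site} {j : Site → ℝ} {v : Site} {ρ ρ' a a' : ℝ}
    (h : CB Λ S₀ j v ρ a) (h1 : ρ ≤ ρ') (h2 : a ≤ a') : CB Λ S₀ j v ρ' a' := by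
  exact fun F hF hb => (h F (hF.mono (bal_mono v h1)) hb).trans h2
theorem CB.scale {Λ S₀ : Finset Site} {j : Site → ℝ} {v : Site} {ρ a c : ℝ}
    (h : CB Λ S₀ j v ρ a) {F : Finset Site → ℝ} (hF : Meas (bal v ρ) F) (hc : ∀ S, |F S| ≤ c) :
    |cov Λ S₀ j F (hx v)| ≤ c * a := by
  rcases ((abs_nonneg _).trans (hc ∅)).eq_or_lt with e | hc0
  · rw [cov_congr (F' := fun _ => 0) fun S _ => abs_nonpos_iff.1 (e ▸ hc S), cov_const, ← e]
    simp
  · have h1 := h (fun S => c⁻¹ * F S) (fun S S' k => by simp only [hF S S' k]) fun S => by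
      rw [abs_mul, abs_of_pos (inv_pos.2 hc0), inv_mul_le_iff₀ hc0, mul_one]
      exact hc S
    rwa [cov_mul, abs_mul, abs_of_pos (inv_pos.2 hc0), inv_mul_le_iff₀ hc0] at h1
theorem NB.mono {b b' ρ ρ' a a' : ℝ} (h : NB b ρ a) (h0 : 0 < ρ) (hb : b' ≤ b) (h1 : ρ ≤ ρ')
    (h2 : a ≤ a') : NB b' ρ' a' := by
  intro Λ S₀ j v k1 k2 k3
  exact (h Λ S₀ j v ((bal_mono v (by linarith)).trans k1) (k2.mono hb)
    (k3.mono (one_div_le_one_div_of_le h0 h1))).mono h1 h2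
/-- translation (`gib_aut` with `trA`) -/
theorem nb_of_zero {b ρ a : ℝ} (h : ∀ (Λ S₀ : Finset Site) (j : Site → ℝ),
    bal 0 (2 * ρ) ⊆ Λ → Bd j b → Lip j (1 / ρ) → CB Λ S₀ j 0 ρ a) : NB b ρ a := by
  intro Λ S₀ j v k1 k2 k3 F hF hb
  have e0 : (trA v).fS 0 = v := by rw [trA_apply, zero_add]
  have h1 := h ((trA v).symm.mS Λ) ((trA v).symm.mS S₀) (fun x => j ((trA v).fS x))
    ((trA v).mS_subset.1 (by rwa [Aut.mS_bal, Aut.mS_symm, e0])) (fun x => k2 _)
    (fun x y => by rw [← (trA v).dst_eq]; exact k3 _ _) (fun S => F ((trA v).mS S))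
    ((trA v).meas (by rwa [Aut.mS_bal, e0])) fun S => hb _
  have e1 : ∀ S, hx v ((trA v).mS S) = hx 0 S := fun S => by
    have := (trA v).hx_eq 0 S
    rwa [e0] at this
  rw [← (trA v).mS_symm Λ, ← (trA v).mS_symm S₀]
  unfold cov at h1 ⊢
  simp only [gib_aut (trA v), e1]
  exact h1

/-- the plain recursion -/
def Rec0 : Prop := ∃ a₀ C : ℝ, 1 ≤ a₀ ∧ 0 ≤ C ∧ ∀ lam : ℝ, 100 ≤ lam → ∃ ρ₀ : ℝ,
  ∀ (ρ b a n : ℝ) (Λ S₀ : Finset Site) (j : Site → ℝ), ρ₀ ≤ ρ → b ≤ 1 / 12 →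
    bal 0 (2 * (lam * ρ)) ⊆ Λ → Bd j b → Lip j (1 / ρ) → NB b (ρ / 2) a → CB Λ S₀ j 0 ρ n →
    CB Λ S₀ j 0 (lam * ρ) ((a₀ / lam ^ 2 + 80 * b * lam ^ 2 * ρ ^ 2 * a) * n +
      C * ρ ^ 2 * (1 / 2) ^ ρ)

/-- the recursion with rotation symmetry -/
def Rec1 : Prop := ∃ C : ℝ, 0 ≤ C ∧ ∀ η : ℝ, 0 < η → ∃ lam₀ : ℝ, ∀ lam : ℝ, lam₀ ≤ lam → ∃ ρ₀ : ℝ,
  ∀ (ρ b a n : ℝ) (Λ S₀ : Finset Site) (j : Site → ℝ), ρ₀ ≤ ρ → b ≤ 1 / 12 →
    bal 0 (2 * (lam * ρ)) ⊆ Λ → Bd j b → Lip j (1 / ρ) → (∀ x ∈ bal 0 (7 * ρ), j x = j 0) →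
    NB b (ρ / 2) a → CB Λ S₀ j 0 ρ n →
    CB Λ S₀ j 0 (lam * ρ) ((η / lam ^ 2 + 80 * b * lam ^ 2 * ρ ^ 2 * a) * n +
      C * ρ ^ 2 * (1 / 2) ^ ρ)

/-- Theorem G -/
def ThG (b A ε : ℝ) : Prop := ∀ ρ : ℝ, 1 ≤ ρ → NB b ρ (A * ρ ^ (-(2 + ε)))

end Pool.Agent.TAF.U
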