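import Pool.Agent.P.MP_cb4022_pr.U.JPot
import Pool.Agent.P.MP_cb4022_pr.U.Link

/-! First properties of the observables (paper C1, C2, C3, C5, C8). -/

open scoped Classical symmDiff

noncomputable section

namespace Pool.Agent.TAF.U

section
variable {s R : ℝ} {D H : Finset Site} {V U : Finset Tri} {x : ℂ} {t : Tri} {i p q : Fin 3}
  {m : ℤ} {ξ : Finset Edge}

/-- a reading is admissible -/
def RdOK (D H : Finset Site) (V U : Finset Tri) (t : Tri) (i : Fin 3) : Prop :=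
  t ∉ V ∪ U ∧ (side t i ∈ allowed D H → nbr t i ∉ V ∪ U)

theorem ObsB_ne1 (i : Fin 3) : i + 1 ≠ i := by revert i; decide
theorem ObsB_ne2 (i : Fin 3) : i + 2 ≠ i := by revert i; decide

theorem ObsB_odd_single (t : Tri) (i : Fin 3) (τ : Tri) :
    IsOdd {side t i} τ ↔ τ = t ∨ τ = nbr t i := by
  have h1 : side τ (i + 1) ≠ side t i := fun h => ObsB_ne1 i (side_eq_side h).1
  have h2 : side τ (i + 2) ≠ side t i := fun h => ObsB_ne2 i (side_eq_side h).1
  rw [isOdd_iff _ τ i]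
  simp only [Finset.mem_singleton, h1, h2, iff_self, iff_true]
  refine ⟨fun h => (side_eq_side h.symm).2, ?_⟩
  rintro (rfl | rfl)
  · rfl
  · exact side_nbr _ _

theorem ObsB_side_tz (ξ : Finset Edge) (t : Tri) (i : Fin 3) : side (tz ξ t i) i = side t i := by
  unfold tz
  split_ifs
  · exact side_nbr _ _
  · rfl

theorem ObsB_third {p q r : Fin 3} (h : p ≠ q) (h1 : r ≠ p) (h2 : r ≠ q) :
    (r + 1 = p ∧ r + 2 = q) ∨ (r + 1 = q ∧ r + 2 = p) := by
  revert p q r; decide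

theorem ObsB_cocycle {φ : Edge → ℤ} {t : Tri} (h : dv φ t = 0) (p q r : Fin 3) :
    inc φ t p q + inc φ t q r = inc φ t p r := by
  rw [dv, Fin.sum_univ_three] at h
  have h' : φ (side t 0) + φ (side t 1) + φ (side t 2) = 0 := by
    split_ifs at h <;> omega
  fin_cases p <;> fin_cases q <;> fin_cases r <;> cases t.2 <;> simp [inc] <;>
    split_ifs <;> omega

theorem ObsB_inc_sub (φ ψ : Edge → ℤ) (k : ℤ) (t : Tri) (p q : Fin 3) :
    inc (fun e => φ e - k * ψ e) t p q = inc φ t p q - k * inc ψ t p q := by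
  simp only [inc]
  split_ifs <;> ring

theorem ObsB_ttV (h : Frame s R D H V U) {v : Tri} (hv : v ∈ V) : TT v H := by
  obtain ⟨p, -, h1, -⟩ := h.inn v hv
  exact ⟨_, h1⟩

theorem ObsB_ne_zero (h : Frame s R D H V U) {c : Site} (hc : c ∉ bal 0 s) : c ≠ 0 := by
  rintro rfl
  exact hc (h.hs h.zero)

theorem ObsB_x_ne (hx : ‖x‖ = 1) : x ≠ 0 := by
  rintro rfl
  simp at hx

theorem read_mem (hr : RdOK D H V U t i) (hξ : ξ ∈ Om D H (insert t (V ∪ U))) :
    ξ.erase (side t i) ∈ Om D H (insert (tz ξ t i) (V ∪ U)) ∧ tz ξ t i ∉ V ∪ U := by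
  obtain ⟨h1, h2⟩ := mem_Om.1 hξ
  by_cases he : side t i ∈ ξ
  · have h3 := hr.2 (h1 he)
    have h4 : ξ.erase (side t i) = ξ ∆ {side t i} := by
      ext e
      simp only [Finset.mem_erase, Finset.mem_symmDiff, Finset.mem_singleton]
      constructor
      · exact fun h => Or.inl ⟨h.2, h.1⟩
      · rintro (h | h)
        · exact ⟨h.2, h.1⟩
        · exact absurd (h.1 ▸ he) h.2
    rw [tz, if_pos he]
    refine ⟨mem_Om.2 ⟨(Finset.erase_subset _ _).trans h1, fun τ => ?_⟩, h3⟩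
    rw [h4, isOdd_symmDiff, ObsB_odd_single, h2, Finset.mem_insert, Finset.mem_insert]
    by_cases h5 : τ = t
    · subst h5
      simp [(nbr_ne τ i).symm, hr.1, -Finset.mem_union]
    · by_cases h6 : τ = nbr t i
      · subst h6
        simp [nbr_ne, h3, -Finset.mem_union]
      · simp [h5, h6, -Finset.mem_union]
  · rw [tz, if_neg he, Finset.erase_eq_of_notMem he]
    exact ⟨hξ, hr.1⟩

theorem read_simple (h : Frame s R D H V U) (hr : RdOK D H V U t i)
    (hξ : ξ ∈ Om D H (insert t (V ∪ U))) : Simple (ξ.erase (side t i)) := by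
  obtain ⟨h1, h2⟩ := mem_Om.1 (read_mem hr hξ).1
  intro τ
  by_cases ho : IsOdd (ξ.erase (side t i)) τ
  · rcases Finset.mem_insert.1 ((h2 τ).1 ho) with rfl | h3
    · refine deg_le_two_of_not_mem (i := i) ?_
      rw [ObsB_side_tz]
      exact Finset.notMem_erase _ _
    · rcases Finset.mem_union.1 h3 with h3 | h3
      · obtain ⟨j, hj⟩ := (h.inn τ h3).not_allowed (D := D)
        exact deg_le_two_of_not_mem fun h4 => hj (h1 h4)
      · obtain ⟨j, hj⟩ := (h.out τ h3).not_allowed (H := H)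
        exact deg_le_two_of_not_mem fun h4 => hj (h1 h4)
  · exact deg_le_two_of_not_odd ho

/-- structure of a configuration with pattern A -/
theorem patA_spec (h : Frame s R D H V U) (hr : RdOK D H V U t i)
    (hξ : ξ ∈ Om D H (insert t (V ∪ U))) (hA : PatA ξ V U t i) :
    ∃ V' ⊆ V, ∃ v ∈ V \ V', V'.card = U.card ∧ Conn (ξ.erase (side t i)) (tz ξ t i) v ∧
      (∀ u ∈ U, ¬ Conn (ξ.erase (side t i)) u (tz ξ t i)) ∧
      (∀ τ, dv (Lf (ξ.erase (side t i)) U) τ =
        (if τ ∈ U then 1 else 0) - (if τ ∈ V' then 1 else 0)) ∧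
      (∀ τ, dv (zeta ξ t i) τ = (if τ = t then 1 else 0) - (if τ = v then 1 else 0)) ∧
      ∃ η Φ, IsPot D H (Lf (ξ.erase (side t i)) U) U.card η Φ := by
  obtain ⟨hm, hz⟩ := read_mem hr hξ
  have hs := read_simple h hr hξ
  have ho := (mem_Om.1 hm).2
  have oz := (ho _).2 (Finset.mem_insert_self _ _)
  have oV : ∀ v ∈ V, IsOdd (ξ.erase (side t i)) v :=
    fun v hv => (ho v).2 (Finset.mem_insert_of_mem (Finset.mem_union_left _ hv))
  have oU : ∀ u ∈ U, IsOdd (ξ.erase (side t i)) u :=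
    fun u hu => (ho u).2 (Finset.mem_insert_of_mem (Finset.mem_union_right _ hu))
  obtain ⟨hT, v, hv, hc⟩ := hA
  obtain ⟨V', hV', hcard, hiff, hdv⟩ := dv_Lf hs oV oU h.disjoint hT
  have hn : ∀ u ∈ U, ¬ Conn (ξ.erase (side t i)) u (tz ξ t i) := by
    intro u hu hc'
    obtain ⟨v', hv', hc''⟩ := hT u hu
    rcases three_odd hs (oU u hu) oz (oV v' hv') hc' hc'' with e | e | e
    · exact hz (Finset.mem_union_right _ (e ▸ hu))
    · exact Finset.disjoint_left.1 h.disjoint hv' (e ▸ hu)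
    · exact hz (Finset.mem_union_left _ (e ▸ hv'))
  refine ⟨V', hV', v, Finset.mem_sdiff.2 ⟨hv, fun h1 => ?_⟩, hcard, hc, hn, hdv, fun τ => ?_, ?_⟩
  · obtain ⟨u, hu, h2⟩ := (hiff v hv).1 h1
    exact hn u hu (h2.trans hc.symm)
  · have h1 := dv_line hs oz (oV v hv) (fun e => hz (Finset.mem_union_left _ (e ▸ hv))) hc τ
    rw [zeta, Finsupp.coe_add, Finsupp.coe_neg, dv_add, dv_neg, h1, tz]
    by_cases he : side t i ∈ ξ
    · rw [if_pos he, if_pos he, dv_into]
      ring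
    · rw [if_neg he, if_neg he, Finsupp.coe_zero, dv_zero]
      ring
  · obtain ⟨η, Φ, h1, -⟩ := exists_isPot h.zero h.connH h.connO
      (fun τ ⟨j, hj⟩ => h.toDom.not_tt ⟨j, h.hs hj⟩) (fun v hv => ObsB_ttV h (hV' hv))
      (fun u hu => by
        obtain ⟨j, -, hj, -⟩ := h.out u hu
        exact ⟨_, hj⟩) hdv
    exact ⟨η, Φ, hcard ▸ h1⟩

theorem norm_wt (hx : ‖x‖ = 1) : ‖wt D H U x t i p m ξ‖ = 1 := by
  rw [wt, norm_mul, norm_zpow, norm_zpow, norm_om, hx, one_zpow, one_zpow, mul_one]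

theorem norm_obs_le_pr (hx : ‖x‖ = 1) : ‖obs D H V U x t i p m‖ ≤
    pr (Om D H (insert t (V ∪ U))) fun ξ => PatA ξ V U t i := by
  refine norm_avg_le fun ξ _ => ?_
  split_ifs
  · exact (norm_wt hx).le
  · simp

theorem norm_obs_le (hx : ‖x‖ = 1) : ‖obs D H V U x t i p m‖ ≤ 1 :=
  (norm_obs_le_pr hx).trans (pr_le_one _ _)

theorem norm_amp_le_pr (hx : ‖x‖ = 1) :
    ‖amp D H V U x‖ ≤ pr (Om D H (V ∪ U)) fun ξ => Thru ξ V U := by
  refine norm_avg_le fun ξ _ => ?_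
  split_ifs
  · rw [norm_zpow, hx, one_zpow]
  · simp

theorem amp_one : amp D H V U 1 = (pr (Om D H (V ∪ U)) fun ξ => Thru ξ V U : ℝ) := by
  simp only [amp, pr, avg, one_zpow, smul_eq_mul, Complex.real_smul, Complex.ofReal_mul,
    Complex.ofReal_sum]
  congr 1
  refine Finset.sum_congr rfl fun ξ _ => ?_
  split_ifs <;> simp

/-- C1 -/
theorem obs_mon (hx : ‖x‖ = 1) (n : ℤ) :
    obs D H V U x t i p (m + n) = (x * om ^ U.card) ^ n * obs D H V U x t i p m := by
  rw [obs, obs, ← avg_mul_left]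
  refine avg_congr fun ξ _ => ?_
  split_ifs
  · have e1 : ∀ a b : ℤ, a + U.card * (m + n) + b = U.card * n + (a + U.card * m + b) :=
      fun a b => by ring
    have e2 : ∀ a b : ℤ, m + n + a - b = n + (m + a - b) := fun a b => by ring
    rw [wt, wt, e1, e2, zpow_add₀ om_ne, zpow_add₀ (ObsB_x_ne hx) n, mul_zpow, zpow_mul,
      zpow_natCast]
    ring
  · rw [mul_zero]

/-- C2 -/
theorem obs_anchor (h : Frame s R D H V U) (hr : RdOK D H V U t i)
    (hp : vtx t p ∈ D \ bal 0 s) (hq : vtx t q ∈ D \ bal 0 s) :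
    obs D H V U x t i q (m + inc kap t p q) = obs D H V U x t i p m := by
  by_cases hpq : p = q
  · rw [hpq, inc_self, add_zero]
  refine avg_congr fun ξ hξ => ?_
  split_ifs with hA
  swap
  · rfl
  obtain ⟨V', hV', -, -, -, -, -, hdv, -, η, Φ, hP⟩ := patA_spec h hr hξ hA
  obtain ⟨hp1, hp2⟩ := Finset.mem_sdiff.1 hp
  obtain ⟨hq1, hq2⟩ := Finset.mem_sdiff.1 hq
  have h0 : dv (Lf (ξ.erase (side t i)) U) t = 0 := by
    rw [hdv, if_neg fun h1 => hr.1 (Finset.mem_union_right _ h1),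
      if_neg fun h1 => hr.1 (Finset.mem_union_left _ (hV' h1)), sub_zero]
  have h1 : inc (fun e => Lf (ξ.erase (side t i)) U e - U.card * kap e) t p q =
      Φ (vtx t q) - Φ (vtx t p) := by
    refine inc_of_cob fun r h1 h2 => ?_
    have h3 : Inside (side t r) D ∧ ¬ Touch (side t r) H := by
      rw [inside_side, touch_side]
      rcases ObsB_third hpq h1 h2 with ⟨e1, e2⟩ | ⟨e1, e2⟩ <;> rw [e1, e2]
      · exact ⟨⟨hp1, hq1⟩, fun h4 => h4.elim (fun h4 => hp2 (h.hs h4)) fun h4 => hq2 (h.hs h4)⟩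
      · exact ⟨⟨hq1, hp1⟩, fun h4 => h4.elim (fun h4 => hq2 (h.hs h4)) fun h4 => hp2 (h.hs h4)⟩
    have h4 : η (side t r) = 0 := by
      by_contra h4
      exact h3.2 (hP.supp _ h4)
    rw [hP.pot _ h3.1, h4, add_zero]
  rw [ObsB_inc_sub] at h1
  have h2 := ObsB_cocycle h0 p q (i + 1)
  have h3 := off_inc (ObsB_ne_zero h hp2) (ObsB_ne_zero h hq2)
  rw [wt, wt, jv_eq (h.toDom.sub h.zero) h.hs h.connD hP hp1 hp2,
    jv_eq (h.toDom.sub h.zero) h.hs h.connD hP hq1 hq2]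
  congr 2
  · linear_combination h2 - h1
  · linear_combination -h3

/-- C3 -/
theorem obs_swap (h : Frame s R D H V U) (hx : ‖x‖ = 1) (hr : RdOK D H V U t i)
    (ha : side t i ∈ allowed D H) (hp : vtx t (i + 1) ∈ D \ bal 0 s) :
    obs D H V U x (nbr t i) i (i + 2) m = obs D H V U x t i (i + 1) m := by
  have hT : insert t (V ∪ U) ∆ {t, nbr t i} = insert (nbr t i) (V ∪ U) := by
    have h1 := hr.1
    have h2 := hr.2 ha
    have h3 := nbr_ne t i
    ext τ
    rw [Finset.mem_symmDiff]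
    simp only [Finset.mem_insert, Finset.mem_singleton]
    by_cases h5 : τ = t
    · subst h5
      simp [h3.symm, h1, -Finset.mem_union]
    · by_cases h6 : τ = nbr t i
      · subst h6
        simp [h3, h2, -Finset.mem_union]
      · simp [h5, h6, -Finset.mem_union]
  have hb := Om_xor (T := insert t (V ∪ U)) (Q := {t, nbr t i})
    (Finset.singleton_subset_iff.2 ha) fun τ => by
      rw [ObsB_odd_single, Finset.mem_insert, Finset.mem_singleton]
  rw [hT] at hb
  rw [obs, obs, ← avg_bij _ hb]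
  refine avg_congr fun ξ _ => ?_
  have e0 : side t i ∈ ξ ∆ {side t i} ↔ side t i ∉ ξ := by simp [Finset.mem_symmDiff]
  have e1 : (ξ ∆ {side t i}).erase (side (nbr t i) i) = ξ.erase (side t i) := by
    ext e
    simp only [side_nbr, Finset.mem_erase, Finset.mem_symmDiff, Finset.mem_singleton]
    tauto
  have e2 : tz (ξ ∆ {side t i}) (nbr t i) i = tz ξ t i := by
    simp only [tz, side_nbr, nbr_nbr, e0]
    split_ifs <;> rfl
  have e3 : into (nbr t i) i = -into t i := by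
    rw [into, into, side_nbr, nbr_snd, ← Finsupp.single_neg]
    cases t.2 <;> rfl
  have e4 : zeta (ξ ∆ {side t i}) (nbr t i) i = zeta ξ t i - into t i := by
    rw [zeta, zeta, e1, e2, side_nbr, e3]
    simp only [e0]
    split_ifs <;> abel
  have e5 : inc (Lf (ξ.erase (side t i)) U) (nbr t i) (i + 2) (i + 1) = 0 := by
    refine inc_eq_zero fun r h1 h2 => ?_
    obtain rfl : r = i := ((fin3_cases i r).resolve_right fun h3 => h3.elim h2 h1)
    by_contra h3
    rw [side_nbr] at h3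
    exact Finset.notMem_erase _ _ (Lf_supp h3).1
  have e6 := off_dn_up (e := side t i) (c := vtx t (i + 1))
    (by rw [lft_side, rgt_side]; split_ifs <;> simp) (ObsB_ne_zero h (Finset.mem_sdiff.1 hp).2)
  have e7 : off (vtx t (i + 1)) (nbr t i) + Mc (into t i) = off (vtx t (i + 1)) t := by
    rw [Mc_into]
    rw [up_side, dn_side] at e6
    split_ifs at e6 ⊢ <;> omega
  have e8 : PatA (ξ ∆ {side t i}) V U (nbr t i) i ↔ PatA ξ V U t i := by
    rw [PatA, PatA, e1, e2]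
  simp only [e8]
  split_ifs
  · rw [wt, wt, e1, e4, e5, inc_self, vtx_nbr2, ← add_sub_assoc, map_sub]
    congr 2
    linear_combination e7
  · rfl

/-- total wall index on the sheet `m` -/
def JW (D : Finset Site) (U : Finset Tri) (t : Tri) (i : Fin 3) (m : ℤ) : ℤ :=
  ∑ u ∈ U, (Jw D u t i + m)

/-- C5 -/
theorem obs_wall (h : Frame s R D H V U) (hx : ‖x‖ = 1) (ht : t ∉ U) (h0 : vtx t i ∈ D)
    (h1 : vtx t (i + 1) ∉ D) (h2 : vtx t (i + 2) ∉ D) :
    obs D H V U x t i i m =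
      om ^ JW D U t i m * x ^ (m + off (vtx t i) t) * amp D H V (insert t U) x := by
  have ha : side t i ∉ allowed D H := fun ha =>
    (touch_side.1 (mem_allowed.1 ha).1).elim h1 h2
  have hV : t ∉ V := fun hv => by
    obtain ⟨j, -, h3, h4⟩ := h.inn t hv
    have h5 : ∀ k, vtx t k ∈ D → k = i := fun k hk =>
      (fin3_cases i k).resolve_right fun h6 => h6.elim (fun e => h1 (e ▸ hk)) fun e => h2 (e ▸ hk)
    have h6 := (h5 _ (h.toDom.sub h3)).trans (h5 _ (h.toDom.sub h4)).symm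
    revert h6
    generalize j = k
    revert k
    decide
  have hr : RdOK D H V U t i :=
    ⟨fun h3 => (Finset.mem_union.1 h3).elim hV ht, fun h3 => absurd h3 ha⟩
  rw [obs, amp, Finset.union_insert, ← avg_mul_left]
  refine avg_congr fun ξ hξ => ?_
  have he : side t i ∉ ξ := fun he => ha ((mem_Om.1 hξ).1 he)
  have e1 : PatA ξ V U t i ↔ Thru ξ V (insert t U) := by
    rw [PatA, tz, if_neg he, Finset.erase_eq_of_notMem he, Thru, Thru, Finset.forall_mem_insert,
      and_comm]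
  by_cases hA : PatA ξ V U t i
  · obtain ⟨V', hV', -, -, hc, -, -, hdv, -, -⟩ := patA_spec h hr hξ hA
    have e2 := jv_wall h.toDom (φ := Lf (ξ.erase (side t i)) U)
      (fun e he => (mem_allowed.1 ((mem_Om.1 hξ).1 (Finset.mem_of_mem_erase (Lf_supp he).1))).1)
      (fun v hv => ObsB_ttV h (hV' hv)) h.out hc hdv h0 h1
    have e3 : Lf (ξ.erase (side t i)) U + zeta ξ t i = Lf ξ (insert t U) := by
      rw [zeta, tz, if_neg he, if_neg he, Finset.erase_eq_of_notMem he, Lf, Lf,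
        Finset.sum_insert ht]
      abel
    rw [if_pos hA, if_pos (e1.1 hA), wt, e3, sub_eq_add_neg, zpow_add₀ (ObsB_x_ne hx), mul_assoc,
      JW, Finset.sum_add_distrib, ← e2, Finset.sum_const, nsmul_eq_mul, add_right_comm]
  · rw [if_neg hA, if_neg fun h3 => hA (e1.2 h3), mul_zero]

theorem amp_conj (hx : ‖x‖ = 1) :
    amp D H V U ((starRingEnd ℂ) x) = (starRingEnd ℂ) (amp D H V U x) := by
  simp only [amp, avg, Complex.real_smul, map_mul, Complex.conj_ofReal, map_sum]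
  congr 1
  refine Finset.sum_congr rfl fun ξ _ => ?_
  split_ifs
  · rw [map_zpow₀]
  · rw [map_zero]

theorem obs_wall_conj (h : Frame s R D H V U) (hx : ‖x‖ = 1) (ht : t ∉ U) (h0 : vtx t i ∈ D)
    (h1 : vtx t (i + 1) ∉ D) (h2 : vtx t (i + 2) ∉ D) :
    obs D H V U x t i i m = (om ^ JW D U t i m) ^ 2 *
      (starRingEnd ℂ) (obs D H V U ((starRingEnd ℂ) x) t i i m) := by
  rw [obs_wall h hx ht h0 h1 h2, obs_wall h (by rwa [RCLike.norm_conj]) ht h0 h1 h2, amp_conj hx,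
    map_mul, map_mul, map_zpow₀, map_zpow₀, Complex.conj_conj, Complex.conj_conj, conj_om, inv_zpow]
  have := zpow_ne_zero (JW D U t i m) om_ne
  field_simp

/-- C8 -/
theorem norm_obs_le_arc (h : Frame s R D H V U) (hx : ‖x‖ = 1) (hr : RdOK D H V U t i)
    {r R' a : ℝ} (ha : ArcB U.card 0 r R' a) (h1 : s + 1 ≤ r) (h2 : R' + 1 ≤ R) (h3 : r + 1 ≤ R')
    (ht : AllIn t (bal 0 (r - 1))) : ‖obs D H V U x t i p m‖ ≤ a := by
  have n1 : ∀ τ, AllIn τ (bal 0 r) → ¬ TT τ (ann 0 r R') := fun τ h4 ⟨j, hj⟩ =>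
    absurd (mem_bal.1 (h4 j)) (not_le.2 (mem_ann.1 hj).1)
  have n2 : ∀ τ, AllIn τ (bal 0 R' : Set Site)ᶜ → ¬ TT τ (ann 0 r R') := fun τ h4 ⟨j, hj⟩ =>
    h4 j (mem_bal.2 (mem_ann.1 hj).2)
  have aV : ∀ v ∈ V, AllIn v (bal 0 r) :=
    fun v hv j => bal_mono 0 h1 ((h.inn v hv).allIn h.hs j)
  have aU : ∀ u ∈ U, AllIn u (bal 0 R' : Set Site)ᶜ :=
    fun u hu j hj => (h.out u hu).allIn h.hR j (bal_mono 0 (by linarith) hj)
  have at1 : AllIn t (bal 0 r) := fun j => bal_mono 0 (by linarith) (ht j)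
  have at2 : AllIn (nbr t i) (bal 0 r) := fun j => by
    have h4 := dst_vtx (nbr t i) j (i + 2)
    have h5 := dst_tri (vtx (nbr t i) j) (vtx t (i + 1)) 0
    have h6 := mem_bal.1 (ht (i + 1))
    rw [vtx_nbr2] at h4
    exact mem_bal.2 (by linarith)
  have nT : ∀ z, AllIn z (bal 0 r) → ∀ τ ∈ insert z (V ∪ U), ¬ TT τ (ann 0 r R') := by
    intro z hz τ hτ
    rcases Finset.mem_insert.1 hτ with rfl | hτ
    · exact n1 _ hz
    · exact (Finset.mem_union.1 hτ).elim (fun h4 => n1 τ (aV τ h4)) fun h4 => n2 τ (aU τ h4)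
  refine (norm_obs_le_pr hx).trans ((pr_mono fun ξ hξ hA => ?_).trans (pr_arc_Om ha
    (Finset.sdiff_subset.trans ((bal_mono 0 (by linarith)).trans h.hR))
    (Finset.disjoint_left.2 fun c h4 h5 => ?_) (nT t at1)))
  · have ho := (mem_Om.1 (read_mem hr hξ).1).2
    refine (arc_congr fun e he => ?_).1 (arc_thru (read_simple h hr hξ)
      (fun v hv => (ho v).2 (Finset.mem_insert_of_mem (Finset.mem_union_left _ hv)))
      (fun u hu => (ho u).2 (Finset.mem_insert_of_mem (Finset.mem_union_right _ hu))) hA.1 h3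
      (fun τ h4 h5 => nT (tz ξ t i) (by unfold tz; split_ifs <;> assumption) τ ((ho τ).1 h5) h4)
      aV aU)
    rw [Finset.mem_erase, and_iff_right]
    rintro rfl
    exact n1 t at1 he.tt
  · have h6 := mem_bal.1 (h.hs h5)
    have h7 := (mem_ann.1 h4).1
    linarith

theorem rdOK_of_mem (h : Frame s R D H V U) {e : Edge} (h1 : rgt e ∉ bal 0 (s + 2))
    (h2 : bal (rgt e) 2 ⊆ D) : RdOK D H V U (up e) e.2 ∧ RdOK D H V U (dn e) e.2 ∧
      e ∈ allowed D H := by
  have key : ∀ τ j, vtx τ j = rgt e → τ ∉ V ∪ U := by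
    intro τ j hj hτ
    rcases Finset.mem_union.1 hτ with hτ | hτ
    · exact h1 (bal_mono 0 (by linarith) (hj ▸ (h.inn τ hτ).allIn h.hs j))
    · obtain ⟨k, -, hk, -⟩ := h.out τ hτ
      exact hk (h2 (mem_bal.2 (hj ▸ (dst_vtx τ (k + 1) j).trans one_le_two)))
  have k1 := key (up e) (e.2 + 1) rfl
  have k2 := key (dn e) (e.2 + 2) (vtx_nbr2 _ _)
  refine ⟨⟨k1, fun _ => k2⟩, ⟨k2, fun _ => by rwa [nbr_dn]⟩, mem_allowed.2
    ⟨Or.inr (h2 (mem_bal.2 (by simp))), fun h3 => h1 (bal_mono 0 (by linarith) (h.hs h3.2))⟩⟩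

/-- one line is always through -/
theorem amp_single (h : Frame s R D H V U) (hV : V.card = 1) (hU : U.card = 1) :
    amp D H V U 1 = 1 := by
  have hne : (Om D H (V ∪ U)).Nonempty := by
    refine Om_nonempty h.toDom (fun τ hτ => ?_) ?_
    · rcases Finset.mem_union.1 hτ with hτ | hτ
      · obtain ⟨j, h1, h2, -⟩ := h.inn τ hτ
        exact ⟨j, Finset.mem_sdiff.2 ⟨h.toDom.not_tt ⟨_, h.hs h2⟩ j, h1⟩⟩
      · obtain ⟨j, h1, -⟩ := h.out τ hτ
        exact ⟨j, Finset.mem_sdiff.2 ⟨h1, fun h2 => (h.out τ hτ).allIn h.hR j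
          (bal_mono 0 (by linarith [h.gap]) h2)⟩⟩
    · rw [Finset.card_union_of_disjoint h.disjoint, hV, hU]
      decide
  refine (avg_congr fun ξ hξ => ?_).trans (avg_const hne 1)
  rw [if_pos, one_zpow]
  intro u hu
  have ho := (mem_Om.1 hξ).2
  obtain ⟨t', o1, n1, c1, -⟩ := exists_mate (h.simple hξ) ((ho u).2 (Finset.mem_union_right _ hu))
  refine ⟨t', (Finset.mem_union.1 ((ho t').1 o1)).resolve_right fun h1 => n1 ?_, c1⟩
  exact Finset.card_le_one.1 hU.le _ h1 _ hu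

end

end Pool.Agent.TAF.U
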