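import Pool.Agent.P.MP_cb4022_pr.U.FDef

/-! The observable on one class of the exploration from the inside (paper F3). -/

open scoped Classical symmDiff

noncomputable section

namespace Pool.Agent.TAF.U

/-- contribution of one configuration to `obsE` -/
def trm (D H : Finset Site) (V U : Finset Tri) (x : ℂ) (e : Edge) (m : ℤ) (ξ : Finset Edge) : ℂ :=
  if PatA ξ V U (up e) e.2 then wt D H U x (up e) e.2 (e.2 + 1) m ξ else 0

theorem obsE_eq (D H : Finset Site) (V U : Finset Tri) (x : ℂ) (e : Edge) (m : ℤ) :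
    obsE D H V U x e m = avg (Om D H (insert (up e) (V ∪ U))) (trm D H V U x e m) := rfl

def pX (ξ : Finset Edge) (V : Finset Tri) (e : Edge) (r : ℝ) : Finset Site :=
  exX (ξ.erase e) (insert (tz ξ (up e) e.2) V) (bal 0 r : Set Site)ᶜ
def pE (ξ : Finset Edge) (V : Finset Tri) (e : Edge) (r : ℝ) : Finset Edge :=
  exE (ξ.erase e) (insert (tz ξ (up e) e.2) V) (bal 0 r : Set Site)ᶜ
def pT (ξ : Finset Edge) (V : Finset Tri) (e : Edge) (r : ℝ) : Finset Tri :=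
  tips (ξ.erase e) (insert (tz ξ (up e) e.2) V) (bal 0 r : Set Site)ᶜ

def PGood (ξ : Finset Edge) (V : Finset Tri) (e : Edge) (r : ℝ) : Prop :=
  (pT ξ V e r).card + 1 = V.card ∧ ∃ v ∈ V, Conn (pE ξ V e r) (tz ξ (up e) e.2) v

/-- the part of the weight that is seen by the exploration -/
def wIn (H : Finset Site) (x : ℂ) (m : ℤ) (ξ : Finset Edge) (V : Finset Tri) (e : Edge) (r : ℝ) :
    ℂ :=
  om ^ (jv (bal 0 r) H (Lf (pE ξ V e r) (pT ξ V e r)) (pT ξ V e r).card (rgt e) +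
      (pT ξ V e r).card * m) *
    x ^ (m + off (rgt e) (up e) - Mc (Lf (pE ξ V e r) (pT ξ V e r) + zeta ξ (up e) e.2))

structure PH (s r R : ℝ) (D H : Finset Site) (V U : Finset Tri) (e : Edge) : Prop where
  fr : Frame s R D H V U
  card : V.card = U.card + 1
  s3 : 3 ≤ s
  lo : 2 * s ≤ ‖pos (rgt e)‖
  hi : ‖pos (rgt e)‖ ≤ 4 * s
  r1 : 6 * s ≤ r
  r2 : r + 6 ≤ R

section
variable {s r R : ℝ} {D H : Finset Site} {V U : Finset Tri} {e : Edge} {ξ : Finset Edge} {x : ℂ}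
  {m : ℤ}

theorem norm_wIn (hx : ‖x‖ = 1) : ‖wIn H x m ξ V e r‖ = 1 := by
  rw [wIn, norm_mul, norm_zpow, norm_zpow, norm_om, hx, one_zpow, one_zpow, one_mul]

theorem norm_trm_le (hx : ‖x‖ = 1) : ‖trm D H V U x e m ξ‖ ≤ 1 := by
  rw [trm]
  split_ifs
  · exact (norm_wt hx).le
  · simp

theorem PH.rot (h : PH s r R D H V U e) : PH s r R D (rotA.mS H) (rotA.mT V) U (gE e) := by
  have e1 : ‖pos (rgt (gE e))‖ = ‖pos (rgt e)‖ := by
    rw [show rgt (gE e) = gS (rgt e) from rotA.rgt_fE e, pos_gS, norm_mul, norm_ta, one_mul]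
  exact ⟨h.fr.rot, by rw [rotA.card_mT, h.card], h.s3, e1 ▸ h.lo, e1 ▸ h.hi, h.r1, h.r2⟩

theorem PCls_rd (h : PH s r R D H V U e) :
    RdOK D H V U (up e) e.2 ∧ RdOK D H V U (dn e) e.2 ∧ e ∈ allowed D H := by
  refine rdOK_of_mem h.fr (fun h1 => ?_) fun y hy => h.fr.hR (mem_bal.2 ?_)
  · rw [mem_bal, dst_zero] at h1
    linarith [h.lo, h.s3]
  · have h1 := dst_tri y (rgt e) 0
    rw [dst_zero (rgt e)] at h1
    linarith [mem_bal.1 hy, h.hi, h.r1, h.r2, h.s3]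

theorem PCls_side (ξ : Finset Edge) (e : Edge) : side (tz ξ (up e) e.2) e.2 = e := by
  rw [ObsB_side_tz, side_up]

theorem PCls_tz (ξ : Finset Edge) (e : Edge) :
    tz ξ (up e) e.2 = if e ∈ ξ then dn e else up e := by
  rw [tz, side_up, nbr_up]

theorem PCls_st (h : PH s r R D H V U e) {t : Tri} (ht : t ∈ insert (tz ξ (up e) e.2) V) :
    AllIn t (bal 0 (4 * s + 1)) := by
  rcases Finset.mem_insert.1 ht with rfl | ht
  · obtain ⟨p, hp⟩ : ∃ p, vtx (tz ξ (up e) e.2) p = rgt e := by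
      have h1 := rgt_side (tz ξ (up e) e.2) e.2
      rw [PCls_side] at h1
      split_ifs at h1
      exacts [⟨_, h1.symm⟩, ⟨_, h1.symm⟩]
    intro i
    have h1 := Link_dst_le (tz ξ (up e) e.2) i p 0
    rw [hp, dst_zero (rgt e)] at h1
    exact mem_bal.2 (by linarith [h.hi])
  · exact fun i => bal_mono 0 (by linarith [h.s3]) ((h.fr.inn t ht).allIn h.fr.hs i)

theorem PCls_ins (h : PH s r R D H V U e) : Inside e (bal 0 (4 * s + 1)) := by
  have h1 := PCls_st (ξ := ∅) h (Finset.mem_insert_self _ _)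
  have h2 : Inside (side (tz ∅ (up e) e.2) e.2) (bal 0 (4 * s + 1)) := inside_side.2 ⟨h1 _, h1 _⟩
  rwa [PCls_side] at h2

theorem PCls_nm (h : PH s r R D H V U e) (hξ : ξ ∈ Om D H (insert (up e) (V ∪ U))) :
    tz ξ (up e) e.2 ∉ V :=
  fun h1 => (read_mem (PCls_rd h).1 hξ).2 (Finset.mem_union_left _ h1)

/-- `rdOK_of_mem`, `read_mem`, `read_simple` -/
theorem PH.inH (h : PH s r R D H V U e) (hξ : ξ ∈ Om D H (insert (up e) (V ∪ U))) :
    InH s r R D H (insert (tz ξ (up e) e.2) V) U (ξ.erase e) := by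
  have h1 := read_mem (PCls_rd h).1 hξ
  have h2 := read_simple h.fr (PCls_rd h).1 hξ
  rw [side_up] at h1 h2
  exact ⟨h.fr.toDom, by rw [Finset.insert_union]; exact h1.1, h2,
    fun t ht i => bal_mono 0 (by linarith [h.s3, h.r1]) (PCls_st h ht i), h.fr.out,
    by linarith [h.s3, h.r1], h.r2⟩

theorem PCls_insX (h : PH s r R D H V U e) (hξ : ξ ∈ Om D H (insert (up e) (V ∪ U))) :
    Inside e (pX ξ V e r) := by
  have h1 := Expl_inside (Reach.start (ξ := ξ.erase e) (Finset.mem_insert_self _ V))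
    ((h.inH hξ).good.far _ (Finset.mem_insert_self _ _)) e.2
  rwa [PCls_side] at h1

theorem PCls_act (h : PH s r R D H V U e) (hξ : ξ ∈ Om D H (insert (up e) (V ∪ U)))
    {S : Finset Site} (hS : S ∈ Gr D (H ∪ pX ξ V e r)) :
    (e ∈ ξ ∆ bd S ↔ e ∈ ξ) ∧ (ξ ∆ bd S).erase e = ξ.erase e ∆ bd S ∧
      tz (ξ ∆ bd S) (up e) e.2 = tz ξ (up e) e.2 := by
  have a1 : e ∉ bd S := fun a => (mem_allowed.1 (bd_Gr hS a)).2 (by
    rw [Finset.coe_union]
    exact ⟨Or.inr (PCls_insX h hξ).1, Or.inr (PCls_insX h hξ).2⟩)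
  have a2 : e ∈ ξ ∆ bd S ↔ e ∈ ξ := by
    rw [Finset.mem_symmDiff]
    tauto
  refine ⟨a2, ?_, by simp only [PCls_tz, a2]⟩
  ext e'
  simp only [Finset.mem_erase, Finset.mem_symmDiff]
  by_cases a : e' = e
  · subst a
    tauto
  · tauto

/-- both ends of `e` are in `pX`, so `e ∉ bd S`; `expl_act`, `exX_anti` -/
theorem PH.act (h : PH s r R D H V U e) (hξ : ξ ∈ Om D H (insert (up e) (V ∪ U)))
    {S : Finset Site} (hS : S ∈ Gr D (H ∪ pX ξ V e r)) {r' : ℝ} (h1 : 6 * s ≤ r') (h2 : r' ≤ r) :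
    ξ ∆ bd S ∈ Om D H (insert (up e) (V ∪ U)) ∧ pX (ξ ∆ bd S) V e r' = pX ξ V e r' ∧
      pE (ξ ∆ bd S) V e r' = pE ξ V e r' ∧ pT (ξ ∆ bd S) V e r' = pT ξ V e r' := by
  obtain ⟨-, a2, a3⟩ := PCls_act h hξ hS
  have a4 : pX ξ V e r' ⊆ H ∪ pX ξ V e r := (exX_anti (Set.compl_subset_compl.2
    (Finset.coe_subset.2 (bal_mono 0 h2)))).trans Finset.subset_union_right
  have a5 := expl_act (ξ := ξ.erase e) ((mem_Gr.1 hS).2.imp a4.trans fun a => a.mono_right a4)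
  refine ⟨Om_act hξ (Gr_mono le_rfl Finset.subset_union_left hS), ?_⟩
  simp only [pX, pE, pT, a2, a3]
  exact ⟨a5.1, a5.2.1, a5.2.2.1⟩

theorem PCls_anch (h : PH s r R D H V U e) (hg : PGood ξ V e r) :
    Anch (ξ.erase e) (insert (tz ξ (up e) e.2) V) (bal 0 r : Set Site)ᶜ H := by
  intro t ht
  rcases Finset.mem_insert.1 ht with rfl | h1
  · obtain ⟨v, hv, hc⟩ := hg.2
    exact ⟨v, Finset.mem_insert_of_mem hv, hc, ObsB_ttV h.fr hv⟩
  · exact ⟨t, ht, Conn.refl _ _, ObsB_ttV h.fr h1⟩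

/-- `Anch` holds since `tz` is joined to `V`; `InH.frame` -/
theorem PH.frame (h : PH s r R D H V U e) (hξ : ξ ∈ Om D H (insert (up e) (V ∪ U)))
    (hg : PGood ξ V e r) : Frame r R D (H ∪ pX ξ V e r) (pT ξ V e r) U := by
  exact (h.inH hξ).frame (PCls_anch h hg)

/-- parity, `arc_tips_out`, `arc_congr` -/
theorem PH.arc (h : PH s r R D H V U e) (hξ : ξ ∈ Om D H (insert (up e) (V ∪ U)))
    (hc : U.card < (pT ξ V e r).card) : Arc (U.card + 2) ξ 0 (5 * s) (r - 1) := by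
  have hI := h.inH hξ
  have h1 := hI.good.parity
  rw [Finset.card_insert_of_notMem (PCls_nm h hξ), h.card] at h1
  have h2 : U.card + 2 ≤ (pT ξ V e r).card := by
    obtain ⟨k, hk⟩ := h1
    have : (tips (ξ.erase e) (insert (tz ξ (up e) e.2) V) (bal 0 r : Set Site)ᶜ).card =
      (pT ξ V e r).card := rfl
    omega
  have h3 : ∀ y ∈ bal 0 (4 * s + 1), y ∉ ann 0 (5 * s) (r - 1) := fun y h3 h4 => by
    linarith [mem_bal.1 h3, (mem_ann.1 h4).1, h.s3]
  have h4 := arc_tips_out hI.good (p := 0) (r := 5 * s) (R := r - 1) (by linarith [h.s3, h.r1])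
    (fun t ⟨i, hi⟩ ho => ?_)
    (fun t ht i => bal_mono 0 (by linarith [h.s3]) (PCls_st h ht i)) (by rw [sub_add_cancel])
  · refine (arc_congr fun e' he' => ?_).1 (h4.mono h2)
    refine Finset.mem_erase.trans (and_iff_right ?_)
    rintro rfl
    exact he'.elim (h3 _ (PCls_ins h).1) (h3 _ (PCls_ins h).2)
  · rcases Finset.mem_union.1 (((mem_Om.1 hI.mem).2 t).1 ho) with a | a
    · exact h3 _ (PCls_st h a i) hi
    · exact (h.fr.out t a).allIn h.fr.hR i (mem_bal.2 (by linarith [(mem_ann.1 hi).2, h.r2]))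

theorem PCls_out {St : Finset Tri} (h : InH s r R D H St U ξ)
    (ht : Thru (ξ \ exE ξ St (bal 0 r : Set Site)ᶜ) (tips ξ St (bal 0 r : Set Site)ᶜ) U)
    (hc : (tips ξ St (bal 0 r : Set Site)ᶜ).card ≤ U.card) :
    (∀ τ ∈ tips ξ St (bal 0 r : Set Site)ᶜ, ∃ u ∈ U,
      Conn (ξ \ exE ξ St (bal 0 r : Set Site)ᶜ) u τ) ∧
    ∀ τ, dv (Lf (ξ \ exE ξ St (bal 0 r : Set Site)ᶜ) U) τ = (if τ ∈ U then 1 else 0) -
      (if τ ∈ tips ξ St (bal 0 r : Set Site)ᶜ then 1 else 0) := by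
  obtain ⟨V', h1, h2, h3, h4⟩ := dv_Lf (h.simple.mono Finset.sdiff_subset)
    (fun v hv => (InOut_odd h v).2 (Or.inl hv)) (fun u hu => (InOut_odd h u).2 (Or.inr hu))
    (Finset.disjoint_right.2 fun u hu => InOut_nt h hu) ht
  obtain rfl := Finset.eq_of_subset_of_card_le h1 (h2 ▸ hc)
  exact ⟨fun τ hτ => (h3 τ hτ).1 hτ, h4⟩

/-- `InH.card_le`, `conn_cases`, `InH.conn_iff`, `three_odd` -/
theorem PH.good (h : PH s r R D H V U e) (hξ : ξ ∈ Om D H (insert (up e) (V ∪ U)))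
    (hc : (pT ξ V e r).card ≤ U.card) (hA : PatA ξ V U (up e) e.2) : PGood ξ V e r := by
  have hI := h.inH hξ
  rw [PatA, side_up] at hA
  obtain ⟨hT, v, hv, c1⟩ := hA
  have hT' : Thru (ξ.erase e) (insert (tz ξ (up e) e.2) V) U := fun u hu =>
    (hT u hu).imp fun v hv => ⟨Finset.mem_insert_of_mem hv.1, hv.2⟩
  have h1 : U.card ≤ (pT ξ V e r).card := hI.card_le hT'
  refine ⟨by rw [h.card]; omega, ?_⟩
  rcases conn_cases (ξ := ξ.erase e) (T := (bal 0 r : Set Site)ᶜ)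
    (Finset.mem_insert_self (tz ξ (up e) e.2) V) with ⟨τ, hτ, c2⟩ | h2
  · obtain ⟨u, hu, c3⟩ := (PCls_out hI (hI.thru_iff.1 hT') hc).1 τ hτ
    have c4 : Conn (ξ.erase e) (tz ξ (up e) e.2) u :=
      (c2.mono exE_subset).trans (c3.symm.mono Finset.sdiff_subset)
    rcases three_odd hI.simple (hI.good.odd _ (Finset.mem_insert_self _ _))
      (hI.good.odd v (Finset.mem_insert_of_mem hv))
      (((mem_Om.1 hI.mem).2 u).2 (Finset.mem_union_right _ hu)) c1 c4 with a | a | a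
    · exact (PCls_nm h hξ (a ▸ hv)).elim
    · exact (InOut_ns hI hu (a ▸ Finset.mem_insert_self _ _)).elim
    · exact (InOut_ns hI hu (a ▸ Finset.mem_insert_of_mem hv)).elim
  · exact ⟨v, hv, (h2 v c1).2.2⟩

/-- the component of the moving end contains no tip -/
theorem PCls_notip (h : PH s r R D H V U e) (hξ : ξ ∈ Om D H (insert (up e) (V ∪ U))) {v τ : Tri}
    (hv : v ∈ V) (c0 : Conn (pE ξ V e r) (tz ξ (up e) e.2) v)
    (c1 : Conn (pE ξ V e r) (tz ξ (up e) e.2) τ) : τ ∉ pT ξ V e r := fun hτ => by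
  have hG := (h.inH hξ).good
  have m1 := Finset.mem_insert_self (tz ξ (up e) e.2) V
  have m2 := Finset.mem_insert_of_mem (b := tz ξ (up e) e.2) hv
  rcases three_odd (hG.simple.mono exE_subset) ((hG.odd_exE _).2 (Or.inl m1))
    ((hG.odd_exE _).2 (Or.inl m2)) ((hG.odd_exE _).2 (Or.inr hτ)) c0 c1 with a | a | a
  · exact PCls_nm h hξ (a ▸ hv)
  · exact Finset.disjoint_left.1 hG.disjoint m1 ((congrArg (· ∈ pT ξ V e r) a).mpr hτ)
  · exact Finset.disjoint_left.1 hG.disjoint m2 (a ▸ hτ)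

theorem PCls_in (h : PH s r R D H V U e) (hξ : ξ ∈ Om D H (insert (up e) (V ∪ U)))
    (hg : (pT ξ V e r).card + 1 = V.card) {v : Tri} (hv : v ∈ V)
    (c0 : Conn (pE ξ V e r) (tz ξ (up e) e.2) v) : (V.erase v).card = (pT ξ V e r).card ∧
      ∀ τ, dv (Lf (pE ξ V e r) (pT ξ V e r)) τ =
        (if τ ∈ pT ξ V e r then 1 else 0) - (if τ ∈ V.erase v then 1 else 0) := by
  have hG := (h.inH hξ).good
  have hc : (V.erase v).card = (pT ξ V e r).card := by
    rw [Finset.card_erase_of_mem hv]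
    omega
  obtain ⟨V', h1, h2, h3, h4⟩ := dv_Lf (hG.simple.mono exE_subset)
    (fun v hv => (hG.odd_exE v).2 (Or.inl hv)) (fun u hu => (hG.odd_exE u).2 (Or.inr hu))
    hG.disjoint fun τ hτ => (reach_conn (mem_tips.1 hτ).1).imp fun t ht => ⟨ht.1, ht.2.symm⟩
  have h5 : V' ⊆ V.erase v := fun t ht => by
    obtain ⟨τ, hτ, c1⟩ := (h3 t (h1 ht)).1 ht
    refine Finset.mem_erase.2 ⟨?_, (Finset.mem_insert.1 (h1 ht)).resolve_left ?_⟩
    · rintro rfl
      exact PCls_notip h hξ hv c0 (c0.trans c1.symm) hτ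
    · rintro rfl
      exact PCls_notip h hξ hv c0 c1.symm hτ
  obtain rfl := Finset.eq_of_subset_of_card_le h5 (hc.trans h2.symm).le
  exact ⟨hc, h4⟩

theorem PCls_zeta (h : PH s r R D H V U e) (hξ : ξ ∈ Om D H (insert (up e) (V ∪ U)))
    (hg : PGood ξ V e r) : zeta ξ (up e) e.2 =
      -line (pE ξ V e r) (tz ξ (up e) e.2) + if e ∈ ξ then into (up e) e.2 else 0 := by
  obtain ⟨v, hv, c0⟩ := hg.2
  rw [zeta, side_up, line_congr (ξ := pE ξ V e r) fun τ c1 i => ⟨fun a => exE_subset a, fun a => ?_⟩]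
  have h1 := reach_of_conn (Reach.start (Finset.mem_insert_self _ _)) c1
  exact Expl_side h1 (fun b => PCls_notip h hξ hv c0 c1 (mem_tips.2 ⟨h1, b⟩)) a

theorem PCls_dom (h : PH s r R D H V U e) : Dom s r (bal 0 r) H :=
  ⟨h.fr.zero, h.fr.hs, le_rfl, by linarith [h.s3, h.r1], h.fr.connH, sconn_bal 0 r,
    sconn_compl_bal 0 r⟩

theorem PCls_ann (h : PH s r R D H V U e) : rgt e ∈ ann 0 s r := by
  rw [mem_ann, dst_zero]
  exact ⟨by linarith [h.s3, h.lo], by linarith [h.s3, h.hi, h.r1]⟩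

theorem PCls_jv (h : PH s r R D H V U e) (hξ : ξ ∈ Om D H (insert (up e) (V ∪ U)))
    (hg : PGood ξ V e r) (hT : Thru (ξ.erase e \ pE ξ V e r) (pT ξ V e r) U) :
    jv D H (Lf (ξ.erase e \ pE ξ V e r) U + Lf (pE ξ V e r) (pT ξ V e r)) U.card (rgt e) =
      jv (bal 0 r) H (Lf (pE ξ V e r) (pT ξ V e r)) U.card (rgt e) +
        Mc (Lf (ξ.erase e \ pE ξ V e r) U) := by
  have hI := h.inH hξ
  have hF := h.frame hξ hg
  have hd := PCls_dom h
  obtain ⟨v, hv, c0⟩ := hg.2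
  have hk : (pT ξ V e r).card = U.card := by
    have := hg.1
    rw [h.card] at this
    omega
  obtain ⟨hc, d1⟩ := PCls_in h hξ hg.1 hv c0
  have d2 : ∀ τ, dv (Lf (ξ.erase e \ pE ξ V e r) U) τ = (if τ ∈ U then 1 else 0) -
      (if τ ∈ pT ξ V e r then 1 else 0) := (PCls_out hI hT hk.le).2
  have hs : ∀ e', Lf (ξ.erase e \ pE ξ V e r) U e' ≠ 0 → ¬ Inside e' (H ∪ pX ξ V e r : Finset Site) :=
    fun e' he' => (mem_allowed.1 ((mem_Om.1 (hI.mem_Om (PCls_anch h hg))).1 (Lf_supp he').1)).2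
  generalize Lf (ξ.erase e \ pE ξ V e r) U = φ at *
  generalize Lf (pE ξ V e r) (pT ξ V e r) = ψ at *
  obtain ⟨η, Φ', p1, p2⟩ := exists_isPot h.fr.zero h.fr.connH hd.connO (JPot_sep hd)
    (fun t ht => ObsB_ttV h.fr (Finset.mem_of_mem_erase ht)) (fun t ht => (mem_tips.1 ht).2) d1
  rw [hc, hk] at p1 p2
  have d3 : ∀ t, AllIn t D → dv (φ + ψ + η : Edge →₀ ℤ) t = if t = tau0 then -(U.card : ℤ) else 0 := by
    intro t ht
    have a : t ∉ U := fun a => (JPot_out_tt' (h.fr.out t a)).elim fun i hi => hi (ht i)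
    rw [Finsupp.coe_add, Finsupp.coe_add, dv_add, dv_add, d1, d2, p2, if_neg a]
    split_ifs <;> ring
  obtain ⟨Φ, q1, q2⟩ := exists_pot h.fr.connO (φ + ψ + η) U.card d3 (Mc (φ + ψ + η))
  have p3 : IsPot D H (φ + ψ) U.card η Φ :=
    ⟨p1.supp, fun t ht => d3 t (JPot_sep h.fr.toDom t ht), q1, q2⟩
  have a1 := mem_ann.1 (PCls_ann h)
  have a2 : rgt e ∈ bal 0 r := mem_bal.2 a1.2
  have a3 : rgt e ∉ bal 0 s := fun a => (mem_bal.1 a).not_gt a1.1
  have a4 : bal 0 r ⊆ D := (bal_mono 0 (by linarith [h.r2])).trans h.fr.hR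
  rw [jv_eq (h.fr.toDom.sub h.fr.zero) h.fr.hs h.fr.connD p3 (a4 a2) a3,
    jv_eq (hd.sub h.fr.zero) h.fr.hs hd.connD p1 a2 a3]
  have a5 := Jn.const (Φ := fun y => Φ y - Φ' y) (fun e' he' => ?_)
    (hF.connH 0 hF.zero (rgt e) (Finset.mem_union_right _ (PCls_insX h hξ).2))
  · simp only [q2, p1.zero, map_add] at a5
    linarith
  · have b1 := p1.pot e' ⟨hF.hs he'.1, hF.hs he'.2⟩
    have b2 := q1 e' ⟨a4 (hF.hs he'.1), a4 (hF.hs he'.2)⟩
    have b3 : φ e' = 0 := by_contra fun b => hs e' b he'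
    simp only [cob, Finsupp.add_apply] at b1 b2 ⊢
    linarith

/-- The weight splits: `InH.thru_iff`, `InH.Lf_eq`; the potentials in `D` and in `bal 0 r` (same
`η`) differ by a constant on the connected set `H ∪ pX`, which contains `0` and `rgt e`. -/
theorem PH.split (h : PH s r R D H V U e) (hx : ‖x‖ = 1)
    (hξ : ξ ∈ Om D H (insert (up e) (V ∪ U))) (hg : PGood ξ V e r) :
    trm D H V U x e m ξ = wIn H x m ξ V e r *
      if Thru (ξ.erase e \ pE ξ V e r) (pT ξ V e r) U then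
        (x / om) ^ (-Mc (Lf (ξ.erase e \ pE ξ V e r) U)) else 0 := by
  have hI := h.inH hξ
  obtain ⟨v, hv, c0⟩ := hg.2
  have hk : (pT ξ V e r).card = U.card := by
    have := hg.1
    rw [h.card] at this
    omega
  have hP : PatA ξ V U (up e) e.2 ↔ Thru (ξ.erase e \ pE ξ V e r) (pT ξ V e r) U := by
    rw [PatA, side_up]
    refine ⟨fun hA => hI.thru_iff.1 fun u hu =>
      (hA.1 u hu).imp fun v hv => ⟨Finset.mem_insert_of_mem hv.1, hv.2⟩,
      fun hT => ⟨fun u hu => ?_, v, hv, c0.mono exE_subset⟩⟩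
    obtain ⟨t, ht, c1⟩ := hI.thru_iff.2 hT u hu
    rcases Finset.mem_insert.1 ht with rfl | ht
    · exact ⟨v, hv, c1.trans (c0.mono exE_subset)⟩
    · exact ⟨t, ht, c1⟩
  rw [trm]
  simp only [hP]
  split_ifs with hT
  swap
  · rw [mul_zero]
  have hL : Lf (ξ.erase e) U = Lf (ξ.erase e \ pE ξ V e r) U + Lf (pE ξ V e r) (pT ξ V e r) :=
    hI.Lf_eq (hI.thru_iff.2 hT) hk.le
  have hx0 := ObsB_x_ne hx
  rw [wt, side_up, inc_self, add_zero, show vtx (up e) (e.2 + 1) = rgt e from rfl, hL,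
    PCls_jv h hξ hg hT, wIn, hk, div_zpow, add_assoc (Lf _ U), map_add]
  generalize Mc (Lf (ξ.erase e \ pE ξ V e r) U) = a
  generalize Mc (Lf (pE ξ V e r) (pT ξ V e r) + zeta ξ (up e) e.2) = b
  generalize jv (bal 0 r) H (Lf (pE ξ V e r) (pT ξ V e r)) U.card (rgt e) = c
  rw [show c + a + U.card * m = (c + U.card * m) + a by ring,
    show m + off (rgt e) (up e) - (a + b) = (m + off (rgt e) (up e) - b) + -a by ring,
    zpow_add₀ om_ne _ a, zpow_add₀ hx0 _ (-a), zpow_neg om, div_inv_eq_mul]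
  ring

/-- `PH.act`, `PH.split`, `line_congr` for `zeta`, `InH.mem_Om`, `avg_coset` -/
theorem PH.cls (h : PH s r R D H V U e) (hx : ‖x‖ = 1) (hξ : ξ ∈ Om D H (insert (up e) (V ∪ U)))
    (hc : (pT ξ V e r).card ≤ U.card) :
    avg (Gr D (H ∪ pX ξ V e r)) (fun S => trm D H V U x e m (ξ ∆ bd S)) =
      if PGood ξ V e r then
        wIn H x m ξ V e r * amp D (H ∪ pX ξ V e r) (pT ξ V e r) U (x / om) else 0 := by
  have key : ∀ S ∈ Gr D (H ∪ pX ξ V e r), PGood (ξ ∆ bd S) V e r ↔ PGood ξ V e r := fun S hS => by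
    obtain ⟨-, -, a2, a3⟩ := h.act hξ hS h.r1 le_rfl
    rw [PGood, PGood, a2, a3, (PCls_act h hξ hS).2.2]
  split_ifs with hg
  · have hF := h.frame hξ hg
    rw [amp, ← avg_coset (H := H ∪ pX ξ V e r) (T := pT ξ V e r ∪ U) hF.connH hF.connO
      ((h.inH hξ).mem_Om (PCls_anch h hg)), ← avg_mul_left]
    refine avg_congr fun S hS => ?_
    obtain ⟨a0, -, a2, a3⟩ := h.act hξ hS h.r1 le_rfl
    obtain ⟨b1, b2, b3⟩ := PCls_act h hξ hS
    have a4 : pX ξ V e r ⊆ H ∪ pX ξ V e r := Finset.subset_union_right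
    have a5 : (ξ.erase e ∆ bd S) \ pE ξ V e r = (ξ.erase e \ pE ξ V e r) ∆ bd S :=
      (expl_act ((mem_Gr.1 hS).2.imp a4.trans fun a => a.mono_right a4)).2.2.2
    rw [h.split hx a0 ((key S hS).2 hg), wIn, wIn, PCls_zeta h a0 ((key S hS).2 hg),
      PCls_zeta h hξ hg, a2, a3, b2, b3, a5]
    simp only [b1]
    rfl
  · refine (avg_congr fun S hS => ?_).trans (avg_zero _)
    obtain ⟨a0, -, -, a3⟩ := h.act hξ hS h.r1 le_rfl
    exact if_neg fun hA => hg ((key S hS).1 (h.good a0 (a3 ▸ hc) hA))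

theorem PCls_Mc {φ : Edge →₀ ℤ} {A B : Finset Tri}
    (h : ∀ τ, dv φ τ = (if τ ∈ A then 1 else 0) - (if τ ∈ B then 1 else 0)) :
    Mc (rotA.mF φ) = Mc φ + sV A - sV B := by
  rw [Mc_rot φ (A ∪ B) fun t ht => by_contra fun a => ht (by
    rw [Finset.mem_union, not_or] at a
    rw [h, if_neg a.1, if_neg a.2, sub_zero])]
  simp only [h, mul_sub, mul_ite, mul_one, mul_zero, Finset.sum_sub_distrib, Finset.sum_ite_mem,
    Finset.union_inter_cancel_left, Finset.union_inter_cancel_right, sV]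
  ring

/-- `expl_congr` and the transport lemmas of `AutL`; `jv_rot`, `Mc_rot`, `off_rot` -/
theorem PH.rot_cls (h : PH s r R D H V U e) (hx : ‖x‖ = 1)
    (hξ : ξ ∈ Om D H (insert (up e) (V ∪ U))) {ξ' : Finset Edge}
    (hξ' : ξ' ∈ Om D (rotA.mS H) (insert (up (gE e)) (rotA.mT V ∪ U)))
    (he : ∀ e', Inside e' (bal 0 r) → (gE e' ∈ ξ' ↔ e' ∈ ξ)) :
    pX ξ' (rotA.mT V) (gE e) r = rotA.mS (pX ξ V e r) ∧
      pT ξ' (rotA.mT V) (gE e) r = rotA.mT (pT ξ V e r) ∧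
      (PGood ξ' (rotA.mT V) (gE e) r ↔ PGood ξ V e r) ∧
      (PGood ξ V e r → wIn (rotA.mS H) x (m + secS (rgt e)) ξ' (rotA.mT V) (gE e) r =
        wIn H x m ξ V e r * x ^ sV V * (x / om) ^ (-sV (pT ξ V e r))) := by
  have b0 : Inside e (bal 0 r) :=
    ⟨bal_mono 0 (by linarith [h.s3, h.r1]) (PCls_ins h).1,
      bal_mono 0 (by linarith [h.s3, h.r1]) (PCls_ins h).2⟩
  have b1 := he e b0
  have u1 : up (gE e) = rotA.fT (up e) := rotA.up_fE e
  have u2 : dn (gE e) = rotA.fT (dn e) := rotA.dn_fE e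
  have b2 : tz ξ' (up (gE e)) (gE e).2 = rotA.fT (tz ξ (up e) e.2) := by
    rw [PCls_tz, PCls_tz, u1, u2]
    simp only [b1]
    split_ifs <;> rfl
  obtain ⟨c1, c2, c3⟩ := expl_congr_off (ξ := rotA.mE (ξ.erase e)) (ξ' := ξ'.erase (gE e))
    (St := rotA.mT (insert (tz ξ (up e) e.2) V)) (T := rotA.fS '' (bal 0 r : Set Site)ᶜ)
    fun e' he' => by
      obtain ⟨e', rfl⟩ := rotA.fE.surjective e'
      rw [rotA.touch_iff, not_touch_iff, compl_compl] at he'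
      rw [rotA.mem_mE, Finset.mem_erase, Finset.mem_erase]
      exact and_congr rotA.fE.injective.ne_iff.symm (he e' he').symm
  rw [rotA.exX_eq, rot_image_compl_bal, rotA.mT_insert, ← b2] at c1
  rw [rotA.exE_eq, rot_image_compl_bal, rotA.mT_insert, ← b2] at c2
  rw [rotA.tips_eq, rot_image_compl_bal, rotA.mT_insert, ← b2] at c3
  replace c2 : pE ξ' (rotA.mT V) (gE e) r = rotA.mE (pE ξ V e r) := c2
  replace c3 : pT ξ' (rotA.mT V) (gE e) r = rotA.mT (pT ξ V e r) := c3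
  have c4 : PGood ξ' (rotA.mT V) (gE e) r ↔ PGood ξ V e r := by
    rw [PGood, PGood, c2, c3, b2, rotA.card_mT, rotA.card_mT, rotA.fT.surjective.exists]
    simp only [rotA.mem_mT, rotA.conn_iff]
  refine ⟨c1, c3, c4, fun hg => ?_⟩
  have hG := (h.inH hξ).good
  have hs : Simple (pE ξ V e r) := hG.simple.mono exE_subset
  have o1 : IsOdd (pE ξ V e r) (tz ξ (up e) e.2) :=
    (hG.odd_exE _).2 (Or.inl (Finset.mem_insert_self _ _))
  obtain ⟨v, hv, c0⟩ := hg.2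
  obtain ⟨hc, d1⟩ := PCls_in h hξ hg.1 hv c0
  have z1 : zeta ξ' (up (gE e)) (gE e).2 = rotA.mF (zeta ξ (up e) e.2) := by
    rw [PCls_zeta h.rot hξ' (c4.2 hg), PCls_zeta h hξ hg, c2, b2, rotA.line_eq hs o1,
      rotA.mF_add, rotA.mF_neg]
    simp only [b1]
    split_ifs
    · rw [rotA.mF_into, u1]
      rfl
    · rfl
  have d2 : ∀ τ, dv (zeta ξ (up e) e.2) τ = (if τ ∈ ({up e} : Finset Tri) then 1 else 0) -
      (if τ ∈ ({v} : Finset Tri) then 1 else 0) := fun τ => by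
    have a := dv_line hs o1 ((hG.odd_exE _).2 (Or.inl (Finset.mem_insert_of_mem hv)))
      (fun a => PCls_nm h hξ (a ▸ hv)) c0 τ
    rw [PCls_zeta h hξ hg, Finsupp.coe_add, Finsupp.coe_neg, dv_add, dv_neg, a, PCls_tz]
    simp only [Finset.mem_singleton]
    by_cases b : e ∈ ξ
    · simp only [if_pos b, dv_into, dn]
      ring
    · simp only [if_neg b, Finsupp.coe_zero, dv_zero]
      ring
  have j1 := jv_rot (U := pT ξ V e r) (PCls_dom h) (fun t ht => ObsB_ttV h.fr (Finset.mem_of_mem_erase ht))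
    (fun t ht => (mem_tips.1 ht).2) hc d1 (PCls_ann h)
  have j2 : off (gS (rgt e)) (rotA.fT (up e)) = off (rgt e) (up e) + secT (up e) - secS (rgt e) :=
    off_rot (t := up e) (p := e.2 + 1) (ObsB_ne_zero h.fr fun a =>
      (mem_bal.1 a).not_gt (mem_ann.1 (PCls_ann h)).1)
  have j3 := PCls_Mc d1
  have j4 := PCls_Mc d2
  have j5 : sV V = secT v + sV (V.erase v) := (Finset.add_sum_erase V secT hv).symm
  have hx0 := ObsB_x_ne hx
  rw [sV, sV, Finset.sum_singleton, Finset.sum_singleton] at j4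
  rw [wIn, wIn, c2, c3, z1, rotA.Lf_eq (U := pT ξ V e r) hs fun u hu => (hG.odd_exE u).2 (Or.inr hu),
    rotA.card_mT,
    show rgt (gE e) = gS (rgt e) from rotA.rgt_fE e, u1, j2, map_add, map_add, j3, j4,
    eq_sub_of_add_eq j1, div_zpow, ← sV]
  generalize Mc (Lf (pE ξ V e r) (pT ξ V e r)) = a
  generalize Mc (zeta ξ (up e) e.2) = b
  generalize jv (bal 0 r) H (Lf (pE ξ V e r) (pT ξ V e r)) (pT ξ V e r).card (rgt e) = c
  generalize ((pT ξ V e r).card : ℤ) = k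
  rw [show c + sV (pT ξ V e r) - k * secS (rgt e) + k * (m + secS (rgt e)) =
      (c + k * m) + sV (pT ξ V e r) by ring,
    show m + secS (rgt e) + (off (rgt e) (up e) + secT (up e) - secS (rgt e)) -
      (a + sV (pT ξ V e r) - sV (V.erase v) + (b + secT (up e) - secT v)) =
      (m + off (rgt e) (up e) - (a + b)) + sV V + -sV (pT ξ V e r) by rw [j5]; ring,
    zpow_add₀ om_ne _ (sV _), zpow_add₀ hx0 _ (-_), zpow_add₀ hx0 _ (sV V), zpow_neg om,
    div_inv_eq_mul]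
  ring

end

end Pool.Agent.TAF.U
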