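import Pool.Agent.P.MP_cb4022_pr.U.Geo

/-! Potentials, hugging flows, colourings (paper A1 to A4). -/

open scoped Classical symmDiff

noncomputable section

namespace Pool.Agent.TAF.U

section
variable {A : Type*} [AddCommGroup A]

theorem Pot_prim (g : ℤ → A) : ∃ G : ℤ → A, G 0 = 0 ∧ ∀ n, G (n + 1) - G n = g n := by
  refine ⟨fun n => ∑ k ∈ Finset.range n.toNat, g k -
    ∑ k ∈ Finset.range (-n).toNat, g (-(k + 1)), by simp, fun n => ?_⟩
  rcases le_or_gt 0 n with h | h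
  · obtain ⟨m, rfl⟩ := Int.eq_ofNat_of_zero_le h
    simp only
    rw [show ((m : ℤ) + 1).toNat = m + 1 by omega, show (-((m : ℤ) + 1)).toNat = 0 by omega,
      show (-(m : ℤ)).toNat = 0 by omega, Int.toNat_natCast, Finset.sum_range_succ]
    abel
  · obtain ⟨m, rfl⟩ : ∃ m : ℕ, n = -((m : ℤ) + 1) := ⟨(-n - 1).toNat, by omega⟩
    simp only
    rw [show (-((m : ℤ) + 1) + 1).toNat = 0 by omega, show (-((m : ℤ) + 1)).toNat = 0 by omega,
      show (-(-((m : ℤ) + 1) + 1)).toNat = m by omega,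
      show (- -((m : ℤ) + 1)).toNat = m + 1 by omega, Finset.sum_range_succ]
    abel

/-- A1. Define `Φ (0, b)` by summing along the column and then `Φ (a, b)` along the rows. -/
theorem pot (φ : Edge → A) (h : ∀ t, dv φ t = 0) : ∃ Φ : Site → A, ∀ e, cob Φ e = φ e := by
  obtain ⟨C, -, hC⟩ := Pot_prim fun b => -φ ((0, b), 1)
  choose R R0 hR using fun b => Pot_prim fun a => φ ((a, b), 2)
  have hu : ∀ a b, φ ((a, b), 0) + φ ((a, b), 1) + φ ((a, b), 2) = 0 := fun a b => by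
    have h1 := h ((a, b), true)
    rw [dv_eq _ _ 0, if_pos rfl, neg_eq_zero] at h1
    exact h1
  have hd : ∀ a b, φ ((a, b), 0) + φ ((a + 1, b), 1) + φ ((a, b + 1), 2) = 0 := fun a b => by
    have h1 := h ((a + 1, b + 1), false)
    rw [dv_eq _ _ 0] at h1
    simpa [side, nbr, sg] using h1
  have st : ∀ a b, C b + R b (a + 1) - (C (b + 1) + R (b + 1) (a + 1)) - φ ((a + 1, b), 1) =
      C b + R b a - (C (b + 1) + R (b + 1) a) - φ ((a, b), 1) := fun a b => by
    linear_combination (norm := abel) hR b a - hR (b + 1) a + hu a b - hd a b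
  have h1 : ∀ b a, C b + R b a - (C (b + 1) + R (b + 1) a) - φ ((a, b), 1) = 0 := fun b a => by
    induction a using Int.induction_on with
    | zero =>
      rw [R0, R0]
      linear_combination (norm := abel) -hC b
    | succ n ih => rw [st, ih]
    | pred n ih => rw [← st, sub_add_cancel, ih]
  refine ⟨fun x => C x.2 + R x.2 x.1, ?_⟩
  rintro ⟨⟨a, b⟩, i⟩
  rw [cob, lft_eq, rgt_eq]
  fin_cases i
  · change C (b + 1) + R (b + 1) a - (C b + R b (a + 1)) = φ ((a, b), 0)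
    linear_combination (norm := abel) -h1 b a - hR b a - hu a b
  · exact sub_eq_zero.1 (h1 b a)
  · change C b + R b (a + 1) - (C b + R b a) = φ ((a, b), 2)
    linear_combination (norm := abel) hR b a

theorem zero_of_far {Φ : Site → A} (hf : (Function.support Φ).Finite) {X : Set Site}
    (hX : SConn X) (hi : X.Infinite) (h0 : ∀ e, Inside e X → cob Φ e = 0) : ∀ x ∈ X, Φ x = 0 := by
  intro x hx
  obtain ⟨y, hy, h1⟩ := hi.exists_notMem_finite hf
  rw [Jn.const h0 (hX x hx y hy)]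
  exact Function.notMem_support.1 h1

theorem pot_fin (φ : Edge → A) (hf : (Function.support φ).Finite) (h : ∀ t, dv φ t = 0) :
    ∃ Φ : Site → A, (Function.support Φ).Finite ∧ ∀ e, cob Φ e = φ e := by
  obtain ⟨Φ, hΦ⟩ := pot φ h
  obtain ⟨r, -, hr⟩ := exists_bal (hf.toFinset.image lft) 0
  obtain ⟨y, hy⟩ := (bal 0 r).finite_toSet.infinite_compl.nonempty
  refine ⟨fun x => Φ x - Φ y, (bal 0 r).finite_toSet.subset fun x hx => ?_, fun e => ?_⟩
  · by_contra h1
    refine hx (sub_eq_zero.2 (Jn.const (fun e he => ?_) (sconn_compl_bal 0 r x h1 y hy)))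
    rw [hΦ]
    by_contra h2
    exact he.1 (hr (Finset.mem_image_of_mem _ (hf.mem_toFinset.2 h2)))
  · rw [← hΦ, cob, cob, sub_sub_sub_cancel_right]

theorem Pot_single (e : Edge) (c : A) (t : Tri) :
    dv (Pi.single e c) t = (if t = dn e then c else 0) - (if t = up e then c else 0) := by
  have key : ∑ j, (Pi.single e c : Edge → A) (side t j) = if t = up e ∨ t = dn e then c else 0 := by
    rw [Finset.sum_eq_single e.2]
    · rw [Pi.single_apply]
      congr 1
      rw [side_eq_iff, eq_self, true_and]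
    · exact fun j _ hj => Pi.single_eq_of_ne (fun h => hj (side_eq_iff.1 h).1) _
    · simp
  rw [dv, key]
  by_cases h1 : t = up e
  · subst h1
    simp [up_ne_dn]
  · by_cases h2 : t = dn e
    · subst h2
      simp [h1]
    · simp [h1, h2]

theorem Pot_dv (φ : Edge → A) {S : Finset Edge} (hS : ∀ e, φ e ≠ 0 → e ∈ S) (t : Tri) :
    dv φ t = ∑ e ∈ S, ((if t = dn e then φ e else 0) - (if t = up e then φ e else 0)) := by
  have e1 : φ = ∑ e ∈ S, Pi.single e (φ e) := by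
    funext x
    rw [Finset.sum_apply]
    simp only [Pi.single_apply, Finset.sum_ite_eq]
    split_ifs with h
    · rfl
    · exact by_contra fun h1 => h (hS x h1)
  conv_lhs => rw [e1, dv_sum]
  simp only [Pot_single]

theorem Pot_mem (φ : Edge → A) {S : Finset Edge} (hS : ∀ e, φ e ≠ 0 → e ∈ S) {t : Tri}
    (h : dv φ t ≠ 0) : t ∈ S.image up ∪ S.image dn := by
  rw [Pot_dv φ hS] at h
  obtain ⟨e, he, h1⟩ := Finset.exists_ne_zero_of_sum_ne_zero h
  by_cases h2 : t = dn e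
  · exact Finset.mem_union_right _ (Finset.mem_image.2 ⟨e, he, h2.symm⟩)
  · refine Finset.mem_union_left _ (Finset.mem_image.2 ⟨e, he, by_contra fun h3 => h1 ?_⟩)
    rw [if_neg h2, if_neg (Ne.symm h3), sub_zero]

theorem Pot_set (φ : Edge → A) (hf : (Function.support φ).Finite) :
    ∃ W : Finset Tri, ∀ t, dv φ t ≠ 0 ↔ t ∈ W :=
  ⟨(hf.toFinset.image up ∪ hf.toFinset.image dn).filter fun t => dv φ t ≠ 0, fun t => by
    rw [Finset.mem_filter]
    exact ⟨fun h => ⟨Pot_mem φ (fun e he => hf.mem_toFinset.2 he) h, h⟩, fun h => h.2⟩⟩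

theorem Pot_parts (φ : Edge → A) {S : Finset Edge} (hS : ∀ e, φ e ≠ 0 → e ∈ S) (f : Tri → ℤ)
    (T : Finset Tri) (hT : ∀ t, dv φ t ≠ 0 → t ∈ T) :
    ∑ t ∈ T, f t • dv φ t = ∑ e ∈ S, (f (dn e) - f (up e)) • φ e := by
  rw [Finset.sum_subset (Finset.subset_union_left (s₂ := S.image up ∪ S.image dn))
    fun t _ ht => by rw [by_contra fun h => ht (hT t h : _), smul_zero]]
  simp only [Pot_dv φ hS, Finset.smul_sum]
  rw [Finset.sum_comm]
  refine Finset.sum_congr rfl fun e he => ?_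
  simp only [smul_sub, Finset.sum_sub_distrib, smul_ite, smul_zero, Finset.sum_ite_eq',
    Finset.mem_union, Finset.mem_image_of_mem _ he, or_true, true_or, if_true, sub_smul]

theorem Pot_smul (ψ : Edge → ℤ) (c : A) (t : Tri) : dv (fun e => ψ e • c) t = dv ψ t • c := by
  simp only [dv, ← Finset.sum_smul]
  split_ifs
  · rw [neg_smul]
  · rfl

theorem sum_dv (φ : Edge → A) (hf : (Function.support φ).Finite) (T : Finset Tri)
    (hT : ∀ t, dv φ t ≠ 0 → t ∈ T) : ∑ t ∈ T, dv φ t = 0 := by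
  simpa using Pot_parts φ (fun e he => hf.mem_toFinset.2 he) (fun _ => 1) T hT

end

/-- summation by parts -/
theorem lc_parts (φ : Edge →₀ ℤ) (w : Edge → ℤ) (f : Tri → ℤ)
    (hw : ∀ e, φ e ≠ 0 → w e = f (dn e) - f (up e)) (T : Finset Tri)
    (hT : ∀ t, dv φ t ≠ 0 → t ∈ T) :
    Finsupp.linearCombination ℤ w φ = ∑ t ∈ T, f t * dv φ t := by
  have h := Pot_parts φ (S := φ.support) (fun e he => Finsupp.mem_support_iff.2 he) f T hT
  simp only [smul_eq_mul] at h
  rw [h, Finsupp.linearCombination_apply, Finsupp.sum]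
  refine Finset.sum_congr rfl fun e he => ?_
  rw [hw e (Finsupp.mem_support_iff.1 he), smul_eq_mul, mul_comm]

theorem lc_pair (φ : Edge →₀ ℤ) (w : Edge → ℤ) (f : Tri → ℤ)
    (hw : ∀ e, φ e ≠ 0 → w e = f (dn e) - f (up e)) {a b : Tri}
    (h : ∀ t, dv φ t = (if t = b then 1 else 0) - (if t = a then 1 else 0)) :
    Finsupp.linearCombination ℤ w φ = f b - f a := by
  rw [lc_parts φ w f hw {a, b} fun t ht => by
    by_contra h1
    rw [Finset.mem_insert, Finset.mem_singleton, not_or] at h1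
    exact ht (by rw [h, if_neg h1.1, if_neg h1.2, sub_zero])]
  simp [h, mul_sub]

/-- there is a unit flow from `t` to `t'` on edges that touch `X` -/
def Pot_H (X : Set Site) (t t' : Tri) : Prop :=
  ∃ φ : Edge →₀ ℤ, (∀ e, φ e ≠ 0 → Touch e X) ∧
    ∀ τ, dv φ τ = (if τ = t' then 1 else 0) - (if τ = t then 1 else 0)

theorem Pot_refl (X : Set Site) (t : Tri) : Pot_H X t t :=
  ⟨0, fun e he => absurd rfl he, fun τ => by simp⟩

theorem Pot_symm {X : Set Site} {t t' : Tri} (h : Pot_H X t t') : Pot_H X t' t := by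
  obtain ⟨φ, h1, h2⟩ := h
  exact ⟨-φ, fun e he => h1 e (by simpa using he), fun τ => by
    rw [Finsupp.coe_neg, dv_neg, h2, neg_sub]⟩

theorem Pot_trans {X : Set Site} {a b c : Tri} (h : Pot_H X a b) (h' : Pot_H X b c) :
    Pot_H X a c := by
  obtain ⟨φ, h1, h2⟩ := h
  obtain ⟨ψ, h3, h4⟩ := h'
  refine ⟨φ + ψ, fun e he => ?_, fun τ => by rw [Finsupp.coe_add, dv_add, h2, h4]; ring⟩
  by_cases h5 : φ e = 0
  · exact h3 e (by simpa [h5] using he)
  · exact h1 e h5

theorem Pot_round {X : Set Site} (t : Tri) (i : Fin 3) (h : vtx t i ∈ X) :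
    Pot_H X t (vtx t i, true) := by
  have st : ∀ (b : Bool) (i : Fin 3), (∀ t : Tri, t.2 = !b → vtx t (i + 2) ∈ X →
      Pot_H X t (vtx t (i + 2), true)) → ∀ t : Tri, t.2 = b → vtx t i ∈ X →
      Pot_H X t (vtx t i, true) := fun b i ih t ht h => by
    have e1 : i + 1 + 1 = i + 2 := add_assoc i 1 1
    have e2 : i + 1 + 2 = i := (add_assoc i 1 2).trans (add_zero i)
    have e3 := vtx_nbr1 t (i + 1)
    rw [e1, e2] at e3
    have h1 := ih (nbr t (i + 1)) (by rw [nbr_snd, ht]) (by rwa [e3])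
    rw [e3] at h1
    refine Pot_trans (Pot_symm ⟨into t (i + 1), fun e he => ?_, dv_into t (i + 1)⟩) h1
    rw [(Finsupp.single_apply_ne_zero.1 he).1, touch_side, e2]
    exact Or.inr h
  have a0 : ∀ t : Tri, t.2 = true → vtx t 0 ∈ X → Pot_H X t (vtx t 0, true) := by
    rintro ⟨x, b⟩ rfl -
    exact Pot_refl X _
  have a1 := st false 1 a0
  have a2 := st true 2 a1
  have a3 := st false 0 a2
  have a4 := st true 1 a3
  have a5 := st false 2 a4
  fin_cases i <;> cases ht : t.2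
  exacts [a3 t ht h, a0 t ht h, a1 t ht h, a4 t ht h, a5 t ht h, a2 t ht h]

/-- A2. Round one site the six triangles form a cycle (use `into`, `dv_into`); adjacent sites
share a triangle. -/
theorem hug {X : Set Site} (hX : SConn X) {t t' : Tri} (ht : TT t X) (ht' : TT t' X) :
    ∃ φ : Edge →₀ ℤ, (∀ e, φ e ≠ 0 → Touch e X) ∧
      ∀ τ, dv φ τ = (if τ = t' then 1 else 0) - (if τ = t then 1 else 0) := by
  obtain ⟨i, hi⟩ := ht
  obtain ⟨j, hj⟩ := ht'
  have key : ∀ a b, Jn X a b → Pot_H X (a, true) (b, true) := fun a b h => by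
    induction h with
    | refl => exact Pot_refl X _
    | tail _ h ih =>
      obtain ⟨h1, h2, h3⟩ := h
      refine Pot_trans ih ?_
      obtain ⟨e, ⟨rfl, rfl⟩ | ⟨rfl, rfl⟩⟩ := adj_iff.1 h3 <;>
        exact Pot_trans (Pot_symm (Pot_round (up e) _ h1)) (Pot_round (up e) _ h2)
  exact Pot_trans (Pot_round t i hi)
    (Pot_trans (key _ _ (hX _ hi _ hj)) (Pot_symm (Pot_round t' j hj)))

theorem Pot_flow {A : Type*} [AddCommGroup A] {X : Set Site} (hX : SConn X) {W : Finset Tri}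
    (hW : ∀ t ∈ W, TT t X) (g : Tri → A) (hg : ∑ t ∈ W, g t = 0) :
    ∃ ψ : Edge → A, (Function.support ψ).Finite ∧ (∀ e, ψ e ≠ 0 → Touch e X) ∧
      ∀ τ, dv ψ τ = if τ ∈ W then g τ else 0 := by
  rcases W.eq_empty_or_nonempty with rfl | ⟨t₀, h0⟩
  · exact ⟨0, by simp, fun e he => absurd rfl he, fun τ => by simp⟩
  have h1 : ∀ t, ∃ φ : Edge →₀ ℤ, t ∈ W → (∀ e, φ e ≠ 0 → Touch e X) ∧
      ∀ τ, dv φ τ = (if τ = t then 1 else 0) - (if τ = t₀ then 1 else 0) := fun t => by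
    by_cases ht : t ∈ W
    · exact (hug hX (hW t₀ h0) (hW t ht)).imp fun φ h _ => h
    · exact ⟨0, fun h => absurd h ht⟩
  choose φ hφ using h1
  have h2 : ∀ e, (∑ t ∈ W, fun e => φ t e • g t) e ≠ 0 → ∃ t ∈ W, φ t e ≠ 0 := fun e he => by
    rw [Finset.sum_apply] at he
    obtain ⟨t, ht, h3⟩ := Finset.exists_ne_zero_of_sum_ne_zero he
    exact ⟨t, ht, fun h4 => h3 (by rw [h4, zero_smul])⟩
  refine ⟨∑ t ∈ W, fun e => φ t e • g t,
    (W.biUnion fun t => (φ t).support).finite_toSet.subset fun e he => ?_, fun e he => ?_,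
    fun τ => ?_⟩
  · simpa using h2 e he
  · obtain ⟨t, ht, h3⟩ := h2 e he
    exact (hφ t ht).1 e h3
  · rw [dv_sum, Finset.sum_congr rfl fun t ht => by rw [Pot_smul, (hφ t ht).2, sub_smul],
      Finset.sum_sub_distrib, ← Finset.smul_sum, hg, smul_zero, sub_zero]
    simp

/-- A3. Subtract the sum of `hug t₀ t • dv φ t` and apply `pot_fin`. -/
theorem col {A : Type*} [AddCommGroup A] (φ : Edge → A) (hf : (Function.support φ).Finite)
    {T : Set Site} (hT : SConn T) (h : ∀ t, dv φ t ≠ 0 → TT t T) :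
    ∃ Φ : Site → A, (Function.support Φ).Finite ∧ ∀ e, ¬ Touch e T → cob Φ e = φ e := by
  obtain ⟨W, hW⟩ := Pot_set φ hf
  obtain ⟨ψ, h1, h2, h3⟩ := Pot_flow hT (fun t ht => h t ((hW t).2 ht)) (dv φ)
    (sum_dv φ hf W fun t => (hW t).1)
  obtain ⟨Φ, h4, h5⟩ := pot_fin (φ - ψ) ((hf.union h1).subset (Function.support_sub φ ψ))
    fun t => by
      rw [dv_sub, h3]
      split_ifs with ht
      · exact sub_self _
      · rw [sub_zero]
        exact by_contra fun h6 => ht ((hW t).1 h6)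
  refine ⟨Φ, h4, fun e he => ?_⟩
  rw [h5, Pi.sub_apply, (by_contra fun h6 => he (h2 e h6) : ψ e = 0), sub_zero]

/-- the indicator of a configuration as a flow modulo two -/
theorem dv_ind (ξ : Finset Edge) (t : Tri) :
    dv (fun e => if e ∈ ξ then (1 : ZMod 2) else 0) t = if IsOdd ξ t then 1 else 0 := by
  rw [dv_eq _ _ 0, isOdd_iff _ _ 0]
  by_cases h0 : side t 0 ∈ ξ <;> by_cases h1 : side t (0 + 1) ∈ ξ <;>
    by_cases h2 : side t (0 + 2) ∈ ξ <;> cases t.2 <;>
    simp only [h0, h1, h2, if_true, if_false, iff_self, iff_false, iff_true, not_true,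
      Bool.false_eq_true] <;> decide

theorem Pot_fin (ξ : Finset Edge) :
    (Function.support fun e => if e ∈ ξ then (1 : ZMod 2) else 0).Finite :=
  ξ.finite_toSet.subset fun e he => by_contra fun h => he (if_neg h)

theorem Pot_ne (ξ : Finset Edge) (t : Tri) :
    dv (fun e => if e ∈ ξ then (1 : ZMod 2) else 0) t ≠ 0 ↔ IsOdd ξ t := by
  rw [dv_ind]
  simp

theorem even_odd {ξ : Finset Edge} {T : Finset Tri} (h : ∀ t, IsOdd ξ t ↔ t ∈ T) :
    Even T.card := by
  have h1 := sum_dv _ (Pot_fin ξ) T fun t ht => (h t).1 ((Pot_ne ξ t).1 ht)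
  rw [Finset.sum_congr rfl fun t ht => by rw [dv_ind, if_pos ((h t).2 ht)], Finset.sum_const,
    nsmul_eq_mul, mul_one] at h1
  exact (ZMod.natCast_eq_zero_iff_even).1 h1

theorem exists_oddSet (ξ : Finset Edge) : ∃ T : Finset Tri, ∀ t, IsOdd ξ t ↔ t ∈ T := by
  simpa only [Pot_ne] using Pot_set _ (Pot_fin ξ)

theorem col2 (ξ : Finset Edge) {T : Set Site} (hT : SConn T) (h : ∀ t, IsOdd ξ t → TT t T) :
    ∃ S : Finset Site, ∀ e, ¬ Touch e T → (e ∈ ξ ↔ e ∈ bd S) := by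
  obtain ⟨Φ, h1, h2⟩ := col _ (Pot_fin ξ) hT fun t ht => h t ((Pot_ne ξ t).1 ht)
  refine ⟨h1.toFinset, fun e he => ?_⟩
  have h3 := h2 e he
  have h4 : ∀ a b : ZMod 2, a - b = 1 ↔ ¬ (a ≠ 0 ↔ b ≠ 0) := by decide
  simp only [mem_bd, Set.Finite.mem_toFinset, Function.mem_support]
  rw [← h4, ← cob, h3]
  simp

theorem pot2 (ξ : Finset Edge) (h : ∀ t, ¬ IsOdd ξ t) : ∃ S : Finset Site, bd S = ξ := by
  obtain ⟨S, hS⟩ := col2 ξ (T := ∅) (fun a ha => ha.elim) fun t ht => absurd ht (h t)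
  exact ⟨S, Finset.ext fun e => (hS e fun he => he.elim id id).symm⟩

theorem bd_injective : Function.Injective bd := by
  intro S S' h
  have h1 := bd_symmDiff S S'
  rw [h, symmDiff_self] at h1
  have h2 := zero_of_far (Φ := fun x => if x ∈ S ∆ S' then (1 : ℤ) else 0)
    ((S ∆ S').finite_toSet.subset fun x hx => by_contra fun h => hx (if_neg h))
    (sconn_compl_bal 0 (-1)) (bal 0 (-1)).finite_toSet.infinite_compl fun e _ => by
      have h3 : e ∉ bd (S ∆ S') := by rw [h1]; exact Finset.notMem_empty e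
      rw [mem_bd, not_not] at h3
      simp only [cob, h3, sub_self]
  rw [← symmDiff_eq_bot]
  refine Finset.eq_empty_of_forall_notMem fun x hx => ?_
  have h4 := h2 x fun h5 => by linarith [mem_bal.1 h5, dst_nonneg x 0]
  simp only [if_pos hx] at h4
  exact one_ne_zero h4

theorem hug2 {X : Set Site} (hX : SConn X) {T : Finset Tri} (hT : ∀ t ∈ T, TT t X)
    (he : Even T.card) : ∃ π : Finset Edge, (∀ e ∈ π, Touch e X) ∧ ∀ t, IsOdd π t ↔ t ∈ T := by
  obtain ⟨ψ, h1, h2, h3⟩ := Pot_flow hX hT (fun _ => (1 : ZMod 2)) (by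
    rw [Finset.sum_const, nsmul_eq_mul, mul_one]
    exact (ZMod.natCast_eq_zero_iff_even).2 he)
  refine ⟨h1.toFinset, fun e he => h2 e (h1.mem_toFinset.1 he), fun t => ?_⟩
  have h4 : ∀ a : ZMod 2, (if a ≠ 0 then 1 else 0) = a := by decide
  rw [← Pot_ne]
  simp only [Set.Finite.mem_toFinset, Function.mem_support, h4]
  rw [h3]
  simp

/-- A4 -/
theorem cross {T P σ : Set Site} (hT : SConn T) (hP : SConn P) (hd : Disjoint T P)
    (hfin : {e : Edge | ¬ (lft e ∈ σ ↔ rgt e ∈ σ) ∧ ¬ Touch e T}.Finite)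
    (h1 : (P ∩ σ).Infinite) (h0 : (P \ σ).Infinite) : False := by
  obtain ⟨S, hS⟩ := col2 hfin.toFinset hT fun t ht => by
    by_contra h
    have h2 : ∀ i, side t i ∈ hfin.toFinset ↔ ¬ (vtx t (i + 1) ∈ σ ↔ vtx t (i + 2) ∈ σ) :=
      fun i => by
        rw [hfin.mem_toFinset, Set.mem_ofPred_eq, and_iff_left fun h3 => h (Touch.tt h3),
          lft_side, rgt_side]
        split_ifs <;> tauto
    rw [isOdd_iff _ t 0, h2, h2, h2] at ht
    have e1 : (0 + 1 + 1 : Fin 3) = 0 + 2 := rfl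
    have e2 : (0 + 1 + 2 : Fin 3) = 0 := rfl
    have e3 : (0 + 2 + 1 : Fin 3) = 0 := rfl
    have e4 : (0 + 2 + 2 : Fin 3) = 0 + 1 := rfl
    rw [e1, e2, e3, e4] at ht
    tauto
  obtain ⟨a, ⟨a1, a2⟩, a3⟩ := h1.exists_notMem_finset S
  obtain ⟨b, ⟨b1, b2⟩, b3⟩ := h0.exists_notMem_finset S
  have h3 := Jn.const (Φ := fun x => if (x ∈ σ ↔ x ∈ S) then (1 : ℤ) else 0) (fun e he => by
    have h4 : ¬ Touch e T := fun h5 => h5.elim (fun h6 => Set.disjoint_left.1 hd h6 he.1)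
      fun h6 => Set.disjoint_left.1 hd h6 he.2
    have h5 := hS e h4
    rw [hfin.mem_toFinset, Set.mem_ofPred_eq, and_iff_left h4, mem_bd] at h5
    have h6 : (lft e ∈ σ ↔ lft e ∈ S) ↔ (rgt e ∈ σ ↔ rgt e ∈ S) := by tauto
    simp only [cob, h6, sub_self]) (hP a a1 b b1)
  simp [a2, a3, b2, b3] at h3

end Pool.Agent.TAF.U
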