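import Pool.Agent.P.MP_cb4022_pr.U.Basic

/-! A Riemann-Hilbert estimate on an annulus (paper E6, first half). -/

open scoped Classical
open Metric Filter Topology MeasureTheory

noncomputable section

namespace Pool.Agent.TAF.U

theorem RH1_open (a b : ℝ) : IsOpen {w : ℂ | a < ‖w‖ ∧ ‖w‖ < b} :=
  (isOpen_lt continuous_const continuous_norm).inter (isOpen_lt continuous_norm continuous_const)

/-- `Complex.circleIntegral_sub_center_inv_smul_eq_of_differentiable_on_annulus_off_countable` -/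
theorem circleAverage_eq {a b : ℝ} (ha : 0 ≤ a) {f : ℂ → ℂ}
    (hf : DifferentiableOn ℂ f {w | a < ‖w‖ ∧ ‖w‖ < b}) {r r' : ℝ} (hr : r ∈ Set.Ioo a b)
    (hr' : r' ∈ Set.Ioo a b) : Real.circleAverage f 0 r = Real.circleAverage f 0 r' := by
  wlog h : r ≤ r' generalizing r r'
  · exact (this hr' hr (le_of_not_ge h)).symm
  have h0 : 0 < r := ha.trans_lt hr.1
  rw [Real.circleAverage_eq_circleIntegral h0.ne',
    Real.circleAverage_eq_circleIntegral (h0.trans_le h).ne']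
  congr 1
  refine (Complex.circleIntegral_sub_center_inv_smul_eq_of_differentiable_on_annulus_off_countable
    h0 h Set.countable_empty (hf.continuousOn.mono fun z hz => ?_) fun z hz => ?_).symm
  · have h1 := mem_closedBall_zero_iff.1 hz.1
    have h2 := hz.2
    rw [mem_ball_zero_iff, not_lt] at h2
    exact ⟨hr.1.trans_le h2, h1.trans_lt hr'.2⟩
  · have h1 := mem_ball_zero_iff.1 hz.1.1
    have h2 := hz.1.2
    rw [mem_closedBall_zero_iff, not_le] at h2
    exact hf.differentiableAt ((RH1_open a b).mem_nhds ⟨hr.1.trans h2, h1.trans hr'.2⟩)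

theorem RH1_sphere {r : ℝ} (hr : 0 < r) {t : ℂ} (ht : t ∈ sphere (0 : ℂ) |r|) : ‖t‖ = r := by
  rwa [mem_sphere_zero_iff_norm, abs_of_pos hr] at ht

theorem RH1_int {r : ℝ} (hr : 0 < r) {F : ℂ → ℂ} {s : Set ℂ} (hF : ContinuousOn F s)
    (hs : ∀ t : ℂ, ‖t‖ = r → t ∈ s) : CircleIntegrable F 0 r :=
  (hF.mono fun t ht => hs t (mem_sphere_zero_iff_norm.1 ht)).circleIntegrable hr.le

theorem RH1_ker (w : ℂ) : ContinuousOn (fun t : ℂ => t / (t - w)) {t | t ≠ w} :=
  continuousOn_id.div (continuousOn_id.sub continuousOn_const) fun _ ht => sub_ne_zero.2 ht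

theorem RH1_norm_le {r C : ℝ} (hr : 0 < r) {F : ℂ → ℂ} (h : ∀ t : ℂ, ‖t‖ = r → ‖F t‖ ≤ C) :
    ‖Real.circleAverage F 0 r‖ ≤ C := by
  have h1 := intervalIntegral.norm_integral_le_of_norm_le_const (a := 0) (b := 2 * Real.pi)
    (f := fun θ => F (circleMap 0 r θ)) (C := C)
    fun θ _ => h _ (by rw [norm_circleMap_zero, abs_of_pos hr])
  have hπ := Real.two_pi_pos
  rw [sub_zero, abs_of_pos hπ] at h1
  rw [Real.circleAverage_def, norm_smul, norm_inv, Real.norm_of_nonneg hπ.le,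
    inv_mul_le_iff₀ hπ]
  linarith

/-- Cauchy formula on an annulus: `circleAverage_eq` for `t * dslope f w t` -/
theorem annulus_cauchy {a b : ℝ} (ha : 0 ≤ a) {f : ℂ → ℂ}
    (hf : DifferentiableOn ℂ f {w | a < ‖w‖ ∧ ‖w‖ < b}) {r r' : ℝ} {w : ℂ} (h1 : a < r)
    (h2 : r < ‖w‖) (h3 : ‖w‖ < r') (h4 : r' < b) :
    f w = Real.circleAverage (fun t => f t * (t / (t - w))) 0 r' -
      Real.circleAverage (fun t => f t * (t / (t - w))) 0 r := by
  have h0 : 0 < r := ha.trans_lt h1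
  have h0' : 0 < r' := h0.trans (h2.trans h3)
  have hw : {w : ℂ | a < ‖w‖ ∧ ‖w‖ < b} ∈ 𝓝 w :=
    (RH1_open a b).mem_nhds ⟨h1.trans h2, h3.trans h4⟩
  have hd : DifferentiableOn ℂ (fun t => t * dslope f w t) {w | a < ‖w‖ ∧ ‖w‖ < b} :=
    differentiableOn_id.mul ((Complex.differentiableOn_dslope hw).2 hf)
  have e := circleAverage_eq ha hd ⟨h1, (h2.trans h3).trans h4⟩ ⟨h1.trans (h2.trans h3), h4⟩
  have key : ∀ ρ : ℝ, a < ρ → ρ < b → ρ ≠ ‖w‖ →
      Real.circleAverage (fun t => t * dslope f w t) 0 ρ =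
        Real.circleAverage (fun t => f t * (t / (t - w))) 0 ρ -
          f w * Real.circleAverage (fun t => t / (t - w)) 0 ρ := by
    intro ρ k1 k2 k3
    have hρ : 0 < ρ := ha.trans_lt k1
    have hne : ∀ t : ℂ, ‖t‖ = ρ → t ≠ w := fun t ht h => k3 (by rw [← ht, h])
    have i1 : CircleIntegrable (fun t => t / (t - w)) 0 ρ := RH1_int hρ (RH1_ker w) hne
    have i2 : CircleIntegrable (fun t => f t * (t / (t - w))) 0 ρ :=
      RH1_int hρ ((hf.continuousOn.mono Set.inter_subset_left).mul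
        ((RH1_ker w).mono Set.inter_subset_right)) fun t ht => ⟨⟨ht ▸ k1, ht ▸ k2⟩, hne t ht⟩
    rw [← smul_eq_mul (f w), ← Real.circleAverage_fun_smul,
      ← Real.circleAverage_fun_sub i2 (i1.const_fun_smul (a := f w))]
    refine Real.circleAverage_congr_sphere fun t ht => ?_
    simp only [dslope_of_ne f (hne t (RH1_sphere hρ ht)), slope, vsub_eq_sub, smul_eq_mul]
    ring
  have e1 : Real.circleAverage (fun t => t / (t - w)) 0 r' = 1 := by
    have := (diffContOnCl_const (𝕜 := ℂ) (s := ball (0 : ℂ) |r'|) (c := (1 : ℂ))).circleAverage_smul_div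
      (w := w) (by rwa [mem_ball_zero_iff, abs_of_pos h0'])
    simpa using this
  have e2 : Real.circleAverage (fun t => t / (t - w)) 0 r = 0 := by
    have hne : ∀ t ∈ closure (ball (0 : ℂ) |r|), t - w ≠ 0 := fun t ht h => by
      have := mem_closedBall_zero_iff.1 (closure_ball_subset_closedBall ht)
      rw [sub_eq_zero.1 h, abs_of_pos h0] at this
      exact absurd h2 (not_lt.2 this)
    have hdd : DifferentiableOn ℂ (fun t => t / (t - w)) (closure (ball (0 : ℂ) |r|)) :=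
      differentiableOn_id.div (differentiableOn_id.sub (differentiableOn_const w)) hne
    rw [hdd.diffContOnCl.circleAverage, zero_div]
  rw [key r h1 ((h2.trans h3).trans h4) h2.ne, key r' (h1.trans (h2.trans h3)) h4 h3.ne', e1,
    e2] at e
  linear_combination e

theorem RH1_conj (F : ℂ → ℂ) (k : ℂ) (r : ℝ) :
    Real.circleAverage (fun t => k * (starRingEnd ℂ) (F t)) 0 r =
      k * (starRingEnd ℂ) (Real.circleAverage F 0 r) := by
  rw [Real.circleAverage_def, Real.circleAverage_def, intervalIntegral.integral_const_mul,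
    intervalIntegral.intervalIntegral_conj]
  simp only [Complex.real_smul, map_mul, Complex.conj_ofReal]
  ring

/-- dominated convergence on the circles that tend to the unit circle -/
theorem RH1_dct {D K : ℂ → ℂ} {g : ℝ → ℝ} {C ρ : ℝ} (hρ0 : 0 < ρ) (hρ : ρ < 1)
    (hc : ContinuousOn (fun t => D t * K t) {t | ρ < ‖t‖ ∧ ‖t‖ < 1})
    (hK : ∀ t : ℂ, ρ < ‖t‖ → ‖t‖ < 1 → ‖K t‖ ≤ C)
    (hg : IntervalIntegrable g volume 0 (2 * Real.pi))
    (hd : ∀ r ∈ Set.Ioo ρ 1, ∀ᵐ t, t ∈ Set.Icc 0 (2 * Real.pi) → ‖D (circleMap 0 r t)‖ ≤ g t)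
    (hl : ∀ᵐ t, t ∈ Set.Icc 0 (2 * Real.pi) →
      Tendsto (fun r : ℝ => D (circleMap 0 r t)) (𝓝[<] 1) (𝓝 0)) :
    Tendsto (fun r : ℝ => Real.circleAverage (fun t => D t * K t) 0 r) (𝓝[<] 1) (𝓝 0) := by
  have hn : ∀ r ∈ Set.Ioo ρ 1, ∀ θ, ρ < ‖circleMap 0 r θ‖ ∧ ‖circleMap 0 r θ‖ < 1 :=
    fun r hr θ => by rwa [norm_circleMap_zero, abs_of_pos (hρ0.trans hr.1)]
  have hI : Set.uIoc 0 (2 * Real.pi) ⊆ Set.Icc 0 (2 * Real.pi) := by
    rw [Set.uIoc_of_le Real.two_pi_pos.le]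
    exact Set.Ioc_subset_Icc_self
  have h := intervalIntegral.tendsto_integral_filter_of_dominated_convergence (l := 𝓝[<] (1 : ℝ))
    (F := fun r θ => D (circleMap 0 r θ) * K (circleMap 0 r θ)) (f := fun _ => 0)
    (fun θ => g θ * C) ?_ ?_ (hg.mul_const C) ?_
  · simpa [Real.circleAverage_def] using h.const_smul (2 * Real.pi)⁻¹
  · filter_upwards [Ioo_mem_nhdsLT hρ] with r hr
    exact (hc.comp_continuous (continuous_circleMap 0 r) (hn r hr)).aestronglyMeasurable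
  · filter_upwards [Ioo_mem_nhdsLT hρ] with r hr
    filter_upwards [hd r hr] with θ hθ hθ'
    rw [norm_mul]
    exact mul_le_mul (hθ (hI hθ')) (hK _ (hn r hr θ).1 (hn r hr θ).2) (norm_nonneg _)
      ((norm_nonneg _).trans (hθ (hI hθ')))
  · filter_upwards [hl] with θ hθ hθ'
    refine squeeze_zero_norm' (a := fun r => ‖D (circleMap 0 r θ)‖ * C) ?_ ?_
    · filter_upwards [Ioo_mem_nhdsLT hρ] with r hr
      rw [norm_mul]
      exact mul_le_mul_of_nonneg_left (hK _ (hn r hr θ).1 (hn r hr θ).2) (norm_nonneg _)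
    · simpa using (hθ (hI hθ')).norm.mul_const C

/-- expansion of the kernel on the small circle -/
theorem RH1_expand {ε M : ℝ} (h0 : 0 < ε) (h4 : ε ≤ 1 / 4) {F : ℂ → ℂ}
    (hF : ContinuousOn F {t | ‖t‖ = ε}) (hM : ∀ t : ℂ, ‖t‖ = ε → ‖F t‖ ≤ M) {u : ℂ}
    (hu : ‖u‖ ≤ 1) : ‖Real.circleAverage (fun t => F t * (1 - u * t)⁻¹) 0 ε‖ ≤
      ‖Real.circleAverage F 0 ε‖ + ‖Real.circleAverage (fun t => F t * t) 0 ε‖ +
        2 * ε ^ 2 * M := by
  have hut : ∀ t : ℂ, ‖t‖ = ε → ‖u * t‖ ≤ ε := fun t ht => by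
    rw [norm_mul, ht]
    exact mul_le_of_le_one_left h0.le hu
  have hlow : ∀ t : ℂ, ‖t‖ = ε → 1 / 2 ≤ ‖1 - u * t‖ := fun t ht => by
    have := norm_sub_norm_le (1 : ℂ) (u * t)
    rw [norm_one] at this
    linarith [hut t ht]
  have hne : ∀ t : ℂ, ‖t‖ = ε → 1 - u * t ≠ 0 := fun t ht =>
    norm_pos_iff.1 (by linarith [hlow t ht])
  have i1 := RH1_int h0 hF fun _ ht => ht
  have i2 : CircleIntegrable (fun t => F t * t) 0 ε :=
    RH1_int h0 (hF.mul continuousOn_id) fun _ ht => ht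
  have i3 : CircleIntegrable (fun t => F t * ((u * t) ^ 2 * (1 - u * t)⁻¹)) 0 ε :=
    RH1_int h0 (hF.mul (((continuousOn_const.mul continuousOn_id).pow 2).mul
      ((continuousOn_const.sub (continuousOn_const.mul continuousOn_id)).inv₀ hne)))
      fun _ ht => ht
  have e : Real.circleAverage (fun t => F t * (1 - u * t)⁻¹) 0 ε =
      Real.circleAverage F 0 ε + u • Real.circleAverage (fun t => F t * t) 0 ε +
        Real.circleAverage (fun t => F t * ((u * t) ^ 2 * (1 - u * t)⁻¹)) 0 ε := by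
    have i4 : CircleIntegrable (fun t => F t + u • (F t * t)) 0 ε :=
      i1.add (i2.const_fun_smul (a := u))
    rw [← Real.circleAverage_fun_smul, ← Real.circleAverage_fun_add i1 (i2.const_fun_smul (a := u)),
      ← Real.circleAverage_fun_add i4 i3]
    refine Real.circleAverage_congr_sphere fun t ht => ?_
    have := hne t (RH1_sphere h0 ht)
    simp only [smul_eq_mul]
    field_simp
    ring
  have b3 : ‖Real.circleAverage (fun t => F t * ((u * t) ^ 2 * (1 - u * t)⁻¹)) 0 ε‖ ≤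
      M * (ε ^ 2 * 2) := RH1_norm_le h0 fun t ht => by
    rw [norm_mul, norm_mul, norm_pow, norm_inv]
    refine mul_le_mul (hM t ht) (mul_le_mul (pow_le_pow_left₀ (norm_nonneg _) (hut t ht) 2) ?_
      (by positivity) (by positivity)) (by positivity) ((norm_nonneg _).trans (hM t ht))
    exact (inv_anti₀ (by norm_num) (hlow t ht)).trans (by norm_num)
  have b2 : ‖u • Real.circleAverage (fun t => F t * t) 0 ε‖ ≤
      ‖Real.circleAverage (fun t => F t * t) 0 ε‖ := by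
    rw [norm_smul]
    exact mul_le_of_le_one_left (norm_nonneg _) hu
  rw [e]
  refine norm_add₃_le.trans ?_
  linarith

theorem RH1_conj_ker {r : ℝ} (hr : 0 < r) {t w : ℂ} (ht : ‖t‖ = r) (hw : t ≠ w) :
    t / (t - w) = (starRingEnd ℂ) (1 - (starRingEnd ℂ) w / (r : ℂ) ^ 2 * t)⁻¹ := by
  have h1 : t * (starRingEnd ℂ) t = (r : ℂ) ^ 2 := by
    rw [Complex.mul_conj, Complex.normSq_eq_norm_sq, ht]
    push_cast
    rfl
  have hr' : (r : ℂ) ≠ 0 := by exact_mod_cast hr.ne'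
  have ht0 : t ≠ 0 := norm_pos_iff.1 (ht ▸ hr)
  have h2 : (starRingEnd ℂ) t = (r : ℂ) ^ 2 / t := by rw [eq_div_iff ht0, mul_comm, h1]
  have h3 := sub_ne_zero.2 hw
  simp only [map_inv₀, map_sub, map_one, map_mul, map_div₀, map_pow, Complex.conj_conj,
    Complex.conj_ofReal, h2]
  field_simp

/-- Let the outer radius tend to `1` (dominated convergence), use `conj t = 1 / t`, move back to
the small circle, expand `1 / (1 - conj w * t)`. The means of `S` and `k₁ * conj S'` agree. -/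
theorem annulus_rh {a ε : ℝ} (ha : 0 < a) (hε : a < ε) (h4 : ε ≤ 1 / 4) {S S' : ℂ → ℂ}
    (hS : DifferentiableOn ℂ S {w | a < ‖w‖ ∧ ‖w‖ < 1})
    (hS' : DifferentiableOn ℂ S' {w | a < ‖w‖ ∧ ‖w‖ < 1}) {k₁ : ℂ} (hk : ‖k₁‖ = 1) {g : ℝ → ℝ}
    (hg : IntervalIntegrable g volume 0 (2 * Real.pi))
    (hd : ∀ r ∈ Set.Ico (1 / 2 : ℝ) 1, ∀ᵐ t, t ∈ Set.Icc 0 (2 * Real.pi) →
      ‖S (circleMap 0 r t)‖ ≤ g t ∧ ‖S' (circleMap 0 r t)‖ ≤ g t)
    (hl : ∀ᵐ t, t ∈ Set.Icc 0 (2 * Real.pi) → Tendsto (fun r : ℝ => S (circleMap 0 r t) -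
      k₁ * (starRingEnd ℂ) (S' (circleMap 0 r t))) (𝓝[<] 1) (𝓝 0))
    {M M' : ℝ} (hM : ∀ w ∈ sphere (0 : ℂ) ε, ‖S w‖ ≤ M) (hM' : ∀ w ∈ sphere (0 : ℂ) ε, ‖S' w‖ ≤ M')
    {w : ℂ} (h1 : 1 / 2 ≤ ‖w‖) (h2 : ‖w‖ < 1) :
    ‖S w‖ ≤ ‖Real.circleAverage S 0 ε‖ + ‖Real.circleAverage (fun t => S' t * t) 0 ε‖ +
      4 * ε * M + 2 * ε ^ 2 * M' := by
  have h0 : 0 < ε := ha.trans hε
  have hε1 : ε ∈ Set.Ioo a 1 := ⟨hε, by linarith⟩
  have hcD : ContinuousOn (fun t => S t - k₁ * (starRingEnd ℂ) (S' t)) {w | a < ‖w‖ ∧ ‖w‖ < 1} :=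
    hS.continuousOn.sub (continuousOn_const.mul
      (Complex.continuous_conj.comp_continuousOn hS'.continuousOn))
  have hdD : ∀ ρ : ℝ, 1 / 2 ≤ ρ → ∀ r ∈ Set.Ioo ρ 1, ∀ᵐ t, t ∈ Set.Icc 0 (2 * Real.pi) →
      ‖S (circleMap 0 r t) - k₁ * (starRingEnd ℂ) (S' (circleMap 0 r t))‖ ≤ g t + g t := by
    intro ρ hρ r hr
    filter_upwards [hd r ⟨hρ.trans hr.1.le, hr.2⟩] with t ht ht'
    refine (norm_sub_le _ _).trans (add_le_add (ht ht').1 ?_)
    rw [norm_mul, hk, one_mul, Complex.norm_conj]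
    exact (ht ht').2
  have hM1 : ∀ t : ℂ, ‖t‖ = ε → ‖S t‖ ≤ M := fun t ht => hM t (mem_sphere_zero_iff_norm.2 ht)
  have hM2 : ∀ t : ℂ, ‖t‖ = ε → ‖S' t‖ ≤ M' := fun t ht => hM' t (mem_sphere_zero_iff_norm.2 ht)
  have hmem : ∀ r ∈ Set.Ioo a 1, ∀ t : ℂ, ‖t‖ = r → t ∈ {w : ℂ | a < ‖w‖ ∧ ‖w‖ < 1} :=
    fun r hr t ht => ⟨ht ▸ hr.1, ht ▸ hr.2⟩
  -- the means
  have hmean : Real.circleAverage S 0 ε = k₁ * (starRingEnd ℂ) (Real.circleAverage S' 0 ε) := by
    have hT := RH1_dct (D := fun t => S t - k₁ * (starRingEnd ℂ) (S' t)) (K := fun _ => 1)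
      (C := 1) (ρ := 1 / 2) (by norm_num) (by norm_num)
      ((hcD.mono fun t ht => ⟨by linarith [ht.1], ht.2⟩).mul continuousOn_const)
      (fun _ _ _ => norm_one.le) (hg.add hg) (hdD _ le_rfl) hl
    refine sub_eq_zero.1 (tendsto_nhds_unique tendsto_const_nhds (hT.congr' ?_))
    filter_upwards [Ioo_mem_nhdsLT hε1.2] with r hr
    have hr' : r ∈ Set.Ioo a 1 := ⟨hε.trans hr.1, hr.2⟩
    simp only [mul_one]
    have i2 : CircleIntegrable (fun t => k₁ * (starRingEnd ℂ) (S' t)) 0 r :=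
      RH1_int (h0.trans hr.1) (continuousOn_const.mul
        (Complex.continuous_conj.comp_continuousOn hS'.continuousOn)) (hmem r hr')
    rw [Real.circleAverage_fun_sub (RH1_int (h0.trans hr.1) hS.continuousOn (hmem r hr')) i2,
      RH1_conj, circleAverage_eq ha.le hS hr' hε1, circleAverage_eq ha.le hS' hr' hε1]
  have hmean' : ‖Real.circleAverage S' 0 ε‖ = ‖Real.circleAverage S 0 ε‖ := by
    rw [hmean, norm_mul, hk, one_mul, Complex.norm_conj]
  -- the inner circle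
  have hin : ‖Real.circleAverage (fun t => S t * (t / (t - w))) 0 ε‖ ≤ M * (4 * ε) :=
    RH1_norm_le h0 fun t ht => by
      have k1 := norm_sub_norm_le w t
      rw [norm_sub_rev, ht] at k1
      rw [norm_mul, norm_div, ht]
      refine mul_le_mul (hM1 t ht) ?_ (by positivity) ((norm_nonneg _).trans (hM1 t ht))
      rw [div_le_iff₀ (by linarith)]
      nlinarith
  -- the outer circle
  obtain ⟨ρ, hρ⟩ : ∃ ρ : ℝ, ρ = (1 + ‖w‖) / 2 := ⟨_, rfl⟩
  have hρw : ‖w‖ < ρ := by linarith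
  have hρ1 : ρ < 1 := by linarith
  have hρ2 : ‖w‖ ≤ ρ ^ 2 := by nlinarith [sq_nonneg (1 - ‖w‖)]
  have hne : ∀ t : ℂ, ρ < ‖t‖ → t ≠ w := fun t ht h => lt_asymm hρw (h ▸ ht)
  have hT := RH1_dct (D := fun t => S t - k₁ * (starRingEnd ℂ) (S' t)) (K := fun t => t / (t - w))
    (C := 1 / (ρ - ‖w‖)) (ρ := ρ) (by linarith) hρ1
    ((hcD.mono fun t ht => ⟨by linarith [ht.1], ht.2⟩).mul
      ((RH1_ker w).mono fun t ht => hne t ht.1))
    (fun t k1 k2 => by
      rw [norm_div]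
      exact div_le_div₀ zero_le_one k2.le (by linarith) (by linarith [norm_sub_norm_le t w]))
    (hg.add hg) (hdD _ (by linarith)) hl
  have hT' := hT.norm.add_const (‖Real.circleAverage S 0 ε‖ +
    ‖Real.circleAverage (fun t => S' t * t) 0 ε‖ + 4 * ε * M + 2 * ε ^ 2 * M')
  rw [norm_zero, zero_add] at hT'
  refine ge_of_tendsto hT' ?_
  filter_upwards [Ioo_mem_nhdsLT hρ1] with r hr
  have hr0 : 0 < r := by linarith [hr.1]
  have hr' : r ∈ Set.Ioo a 1 := ⟨by linarith [hr.1], hr.2⟩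
  have hu : ‖(starRingEnd ℂ) w / (r : ℂ) ^ 2‖ ≤ 1 := by
    rw [norm_div, Complex.norm_conj, norm_pow, Complex.norm_real, Real.norm_of_nonneg hr0.le,
      div_le_one (by positivity)]
    exact hρ2.trans (pow_le_pow_left₀ (by linarith) hr.1.le 2)
  generalize hu' : (starRingEnd ℂ) w / (r : ℂ) ^ 2 = u at hu
  have hdu : DifferentiableOn ℂ (fun t => S' t * (1 - u * t)⁻¹) {w | a < ‖w‖ ∧ ‖w‖ < 1} := by
    refine hS'.mul (((differentiableOn_const 1).sub
      ((differentiableOn_const u).mul differentiableOn_id)).inv fun t ht h => ?_)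
    have k1 : ‖u * t‖ < 1 := by
      rw [norm_mul]
      exact (mul_le_of_le_one_left (norm_nonneg _) hu).trans_lt ht.2
    have k2 : (1 : ℂ) = u * t := sub_eq_zero.1 h
    rw [← k2, norm_one] at k1
    exact lt_irrefl _ k1
  have hnr : ∀ t : ℂ, ‖t‖ = r → t ≠ w := fun t ht => hne t (ht ▸ hr.1)
  have iD : CircleIntegrable (fun t => (S t - k₁ * (starRingEnd ℂ) (S' t)) * (t / (t - w))) 0 r :=
    RH1_int hr0 ((hcD.mono Set.inter_subset_left).mul ((RH1_ker w).mono Set.inter_subset_right))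
      fun t ht => ⟨hmem r hr' t ht, hnr t ht⟩
  have iU : CircleIntegrable (fun t => k₁ * (starRingEnd ℂ) (S' t * (1 - u * t)⁻¹)) 0 r :=
    RH1_int hr0 (continuousOn_const.mul
      (Complex.continuous_conj.comp_continuousOn hdu.continuousOn)) (hmem r hr')
  have e : Real.circleAverage (fun t => S t * (t / (t - w))) 0 r =
      Real.circleAverage (fun t => (S t - k₁ * (starRingEnd ℂ) (S' t)) * (t / (t - w))) 0 r +
        k₁ * (starRingEnd ℂ) (Real.circleAverage (fun t => S' t * (1 - u * t)⁻¹) 0 ε) := by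
    rw [← circleAverage_eq ha.le hdu hr' hε1, ← RH1_conj, ← Real.circleAverage_fun_add iD iU]
    refine Real.circleAverage_congr_sphere fun t ht => ?_
    have k1 := RH1_sphere hr0 ht
    simp only [map_mul]
    rw [← hu', ← RH1_conj_ker hr0 k1 (hnr t k1)]
    ring
  have hx := RH1_expand h0 h4 (hS'.continuousOn.mono (hmem ε hε1)) hM2 hu
  rw [annulus_cauchy ha.le hS hε (by linarith) (hρw.trans hr.1) hr.2, e]
  refine (norm_sub_le _ _).trans ((add_le_add (norm_add_le _ _) hin).trans ?_)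
  rw [norm_mul, hk, one_mul, Complex.norm_conj]
  linarith

theorem RH1_phi (a b : ℝ) :
    IntervalIntegrable (fun s : ℝ => |Real.sin (s / 2)| ^ (-(1 / 3 : ℝ))) volume a b := by
  have hper : Function.Periodic (fun s : ℝ => |Real.sin (s / 2)| ^ (-(1 / 3 : ℝ)))
      (2 * Real.pi) := fun s => by
    simp only
    rw [show (s + 2 * Real.pi) / 2 = s / 2 + Real.pi by ring, Real.sin_add_pi, abs_neg]
  have hπ := Real.pi_pos
  have h1 : IntervalIntegrable (fun s : ℝ => |Real.sin (s / 2)| ^ (-(1 / 3 : ℝ))) volume 0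
      Real.pi := by
    refine ((intervalIntegral.intervalIntegrable_rpow' (r := -(1 / 3)) (a := 0) (b := Real.pi)
      (by norm_num)).div_const (Real.pi ^ (-(1 / 3 : ℝ)))).mono_fun' ?_ ?_
    · exact (((Real.continuous_sin.comp (continuous_id.div_const 2)).abs.measurable).pow_const
        _).aestronglyMeasurable
    · rw [Set.uIoc_of_le hπ.le]
      filter_upwards [ae_restrict_mem measurableSet_Ioc] with s hs
      have k1 := Real.mul_le_sin (x := s / 2) (by linarith [hs.1]) (by linarith [hs.2])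
      have k2 : 2 / Real.pi * (s / 2) = s / Real.pi := by ring
      rw [Real.norm_of_nonneg (Real.rpow_nonneg (abs_nonneg _) _), ← Real.div_rpow hs.1.le hπ.le]
      exact Real.rpow_le_rpow_of_nonpos (div_pos hs.1 hπ) ((k2 ▸ k1).trans (le_abs_self _))
        (by norm_num)
  have h2 := (IntervalIntegrable.iff_comp_neg (by finiteness)).1 h1
  simp only [neg_div, Real.sin_neg, abs_neg, neg_zero] at h2
  refine hper.intervalIntegrable (t := -Real.pi) Real.two_pi_pos.ne' ?_ a b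
  rw [show -Real.pi + 2 * Real.pi = Real.pi by ring]
  exact h2.symm.trans h1

theorem RH1_sin (t s : ℝ) : ‖Complex.exp (t * Complex.I) - Complex.exp (s * Complex.I)‖ =
    2 * |Real.sin ((t - s) / 2)| ∧
    ‖1 - Complex.exp ((t - s) * Complex.I)‖ = 2 * |Real.sin ((t - s) / 2)| := by
  have h := Complex.norm_exp_I_mul_ofReal_sub_one (t - s)
  rw [norm_mul, Real.norm_of_nonneg zero_le_two, Real.norm_eq_abs, mul_comm Complex.I,
    Complex.ofReal_sub] at h
  refine ⟨?_, by rw [norm_sub_rev, h]⟩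
  have e : Complex.exp (t * Complex.I) - Complex.exp (s * Complex.I) =
      (Complex.exp ((t - s) * Complex.I) - 1) * Complex.exp (s * Complex.I) := by
    rw [sub_mul, ← Complex.exp_add, one_mul]
    congr 2
    ring
  rw [e, norm_mul, Complex.norm_exp_ofReal_mul_I, mul_one, h]

theorem RH1_half {r : ℝ} (h0 : 0 ≤ r) (h1 : r ≤ 1) {u : ℂ} (hu : ‖u‖ = 1) :
    ‖1 - u‖ ≤ 2 * ‖1 - r * u‖ := by
  have k1 := norm_sub_norm_le (1 : ℂ) (r * u)
  rw [norm_one, norm_mul, hu, mul_one, Complex.norm_real, Real.norm_of_nonneg h0] at k1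
  have k2 := norm_sub_le (1 - r * u) (((1 - r : ℝ) : ℂ) * u)
  rw [norm_mul, hu, mul_one, Complex.norm_real, Real.norm_of_nonneg (sub_nonneg.2 h1)] at k2
  have e : 1 - r * u - ((1 - r : ℝ) : ℂ) * u = 1 - u := by
    push_cast
    ring
  rw [e] at k2
  linarith

theorem RH1_prod {k : ℕ} {a : Fin k → ℝ} {C : ℝ} (hC : 1 ≤ C) (h0 : ∀ j, 0 ≤ a j)
    (h : ∀ i j, i ≠ j → a i ≤ C ∨ a j ≤ C) : ∏ j, a j ≤ C ^ k * (1 + ∑ j, a j) := by
  have hs : 0 ≤ ∑ j, a j := Finset.sum_nonneg fun j _ => h0 j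
  have hk : ∀ T : Finset (Fin k), (∀ j ∈ T, a j ≤ C) → ∏ j ∈ T, a j ≤ C ^ k := fun T hT => by
    refine (Finset.prod_le_prod (fun j _ => h0 j) hT).trans ?_
    rw [Finset.prod_const]
    exact pow_le_pow_right₀ hC (by simpa using Finset.card_le_univ T)
  have hC0 : 0 ≤ C ^ k := by positivity
  by_cases h1 : ∀ j, a j ≤ C
  · exact (hk _ fun j _ => h1 j).trans (le_mul_of_one_le_right hC0 (by linarith))
  · obtain ⟨i, hi⟩ := not_forall.1 h1
    rw [← Finset.mul_prod_erase _ _ (Finset.mem_univ i), mul_comm]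
    refine mul_le_mul (hk _ fun j hj => (h i j (Finset.ne_of_mem_erase hj).symm).resolve_left hi)
      ?_ (h0 i) hC0
    linarith [Finset.single_le_sum (fun j _ => h0 j) (Finset.mem_univ i)]

/-- an integrable majorant for distinct boundary points: at most one factor is small -/
theorem exists_majorant {k : ℕ} (θ : Fin k → ℝ)
    (hθ : ∀ i j, Complex.exp (θ i * Complex.I) = Complex.exp (θ j * Complex.I) → i = j) :
    ∃ g : ℝ → ℝ, IntervalIntegrable g volume 0 (2 * Real.pi) ∧ ∀ (r t : ℝ), 0 ≤ r → r ≤ 1 →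
      (∀ j, Complex.exp (t * Complex.I) ≠ Complex.exp (θ j * Complex.I)) →
      ∏ j, ‖1 - r * Complex.exp ((t - θ j) * Complex.I)‖ ^ (-(1 / 3 : ℝ)) ≤ g t := by
  have h1 : ∀ᶠ δ in 𝓝[>] (0 : ℝ), ∀ i j, i ≠ j →
      δ < ‖Complex.exp (θ i * Complex.I) - Complex.exp (θ j * Complex.I)‖ / 4 := by
    refine eventually_all.2 fun i => eventually_all.2 fun j => ?_
    by_cases hij : i = j
    · exact Eventually.of_forall fun _ h => absurd hij h
    · have : 0 < ‖Complex.exp (θ i * Complex.I) - Complex.exp (θ j * Complex.I)‖ / 4 :=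
        div_pos (norm_pos_iff.2 (sub_ne_zero.2 fun h => hij (hθ i j h))) (by norm_num)
      filter_upwards [Ioo_mem_nhdsGT this] with δ hδ _
      exact hδ.2
  obtain ⟨δ, hδ, hδ0, hδ1⟩ := (h1.and (Ioo_mem_nhdsGT one_pos)).exists
  refine ⟨fun t => (δ ^ (-(1 / 3 : ℝ))) ^ k *
    (1 + ∑ j, |Real.sin ((t - θ j) / 2)| ^ (-(1 / 3 : ℝ))), ?_, fun r t h0 h1 ht => ?_⟩
  · refine (intervalIntegrable_const.add ?_).const_mul _
    have := IntervalIntegrable.sum Finset.univ
      (f := fun (j : Fin k) (t : ℝ) => |Real.sin ((t - θ j) / 2)| ^ (-(1 / 3 : ℝ)))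
      (μ := volume) (a := 0) (b := 2 * Real.pi) fun j _ => by
        simpa using (RH1_phi (0 - θ j) (2 * Real.pi - θ j)).comp_sub_right (θ j)
    rwa [Finset.sum_fn] at this
  · have hpos : ∀ j, 0 < |Real.sin ((t - θ j) / 2)| := fun j => by
      have := norm_pos_iff.2 (sub_ne_zero.2 (ht j))
      rw [(RH1_sin t (θ j)).1] at this
      linarith
    refine (Finset.prod_le_prod (fun j _ => Real.rpow_nonneg (norm_nonneg _) _) fun j _ => ?_).trans
      (RH1_prod (Real.one_le_rpow_of_pos_of_le_one_of_nonpos hδ0 hδ1.le (by norm_num))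
        (fun j => Real.rpow_nonneg (abs_nonneg _) _) fun i j hij => ?_)
    · refine Real.rpow_le_rpow_of_nonpos (hpos j) ?_ (by norm_num)
      have k1 := RH1_half h0 h1 (u := Complex.exp ((t - θ j) * Complex.I))
        (by rw [← Complex.ofReal_sub, Complex.norm_exp_ofReal_mul_I])
      rw [(RH1_sin t (θ j)).2] at k1
      linarith
    · have k1 := hδ i j hij
      have k2 := norm_sub_le_norm_sub_add_norm_sub (Complex.exp (θ i * Complex.I))
        (Complex.exp (t * Complex.I)) (Complex.exp (θ j * Complex.I))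
      rw [norm_sub_rev _ (Complex.exp (t * Complex.I)), (RH1_sin t (θ i)).1,
        (RH1_sin t (θ j)).1] at k2
      by_cases k3 : δ ≤ |Real.sin ((t - θ i) / 2)|
      · exact Or.inl (Real.rpow_le_rpow_of_nonpos hδ0 k3 (by norm_num))
      · exact Or.inr (Real.rpow_le_rpow_of_nonpos hδ0 (by linarith [not_le.1 k3]) (by norm_num))

end Pool.Agent.TAF.U
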