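import Pool.Agent.P.MP_cb4022_pr.U.Lim2

/-! The finite form of the Riemann-Hilbert estimate (paper E6 + E7). -/

open scoped Classical symmDiff
open Metric Filter Topology

noncomputable section

namespace Pool.Agent.TAF.U

theorem Frame.mono {s R R' : ℝ} {D H : Finset Site} {V U U' : Finset Tri} (h : Frame s R D H V U)
    (h1 : R' ≤ R) (h2 : s + 6 ≤ R') (h3 : U' ⊆ U) : Frame s R' D H V U' := by
  exact ⟨⟨h.zero, h.hs, (bal_mono 0 h1).trans h.hR, h2, h.connH, h.connD, h.connO⟩, h.inn,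
    fun u hu => h.out u (h3 hu)⟩

/-- the phase of a rotation by `2 pi / 3` -/
def rph (e : ℝ) : ℂ := Complex.exp (-(2 * Real.pi * e / 3 : ℝ) * Complex.I)

/-- the hypotheses on three inner data with common outer data -/
structure RHH (s R m m' δ δ' κ κ' e e' : ℝ) (x : ℂ) (D : Finset Site) (H : Fin 3 → Finset Site)
    (V : Fin 3 → Finset Tri) (U : Finset Tri) (u : Tri) (c : Fin 3 → ℂ) (b b' : Fin 2 → ℂ) :
    Prop where
  new : u ∉ U
  fr : ∀ j, Frame s R D (H j) (V j) (insert u U)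
  hx : ∀ j, HX (V j) U x
  hc : ∀ j, ‖c j‖ ≤ 1
  hb : ∀ j, ‖b j‖ ≤ 1
  hb' : ∀ j, ‖b' j‖ ≤ 1
  bd : ∀ j ed l, Band s ed → ‖obsE D (H j) (V j) U x ed l‖ ≤ m
  bd' : ∀ j ed l, Band s ed → ‖obsE D (H j) (V j) U ((starRingEnd ℂ) x) ed l‖ ≤ m'
  rot : ∀ (j : Fin 2) ed l, Band s ed →
    ‖obsE D (H j.succ) (V j.succ) U x (gE ed) (l + secS (rgt ed)) -
      b j * obsE D (H j.castSucc) (V j.castSucc) U x ed l‖ ≤ δ
  rot' : ∀ (j : Fin 2) ed l, Band s ed →
    ‖obsE D (H j.succ) (V j.succ) U ((starRingEnd ℂ) x) (gE ed) (l + secS (rgt ed)) -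
      b' j * obsE D (H j.castSucc) (V j.castSucc) U ((starRingEnd ℂ) x) ed l‖ ≤ δ'
  k1 : ‖c 0 + c 1 * b 0 * rph e + c 2 * b 0 * b 1 * rph e ^ 2‖ ≤ κ
  k2 : ‖(starRingEnd ℂ) (c 0) + (starRingEnd ℂ) (c 1) * b' 0 * rph (e' - 1) +
    (starRingEnd ℂ) (c 2) * b' 0 * b' 1 * rph (e' - 1) ^ 2‖ ≤ κ'

theorem RHF_band {s : ℝ} (hs : 1 ≤ s) : ∃ ed, Band s ed := by
  obtain ⟨y, l, h, -⟩ := exists_polar 0 (R := 3 * s) (by linarith)
  have h1 : ‖((3 * s : ℝ) : ℂ) * Complex.exp ((0 : ℝ) * Complex.I)‖ = 3 * s := by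
    rw [norm_mul, Complex.norm_exp_ofReal_mul_I, mul_one, Complex.norm_real,
      Real.norm_of_nonneg (by linarith)]
  have h2 := (abs_norm_sub_norm_le _ _).trans h
  rw [h1, abs_le] at h2
  refine ⟨(y, 2), ?_, ?_⟩ <;> rw [rgt_two] <;> linarith [h2.1, h2.2]

theorem RHF_conj {k : ℕ} {e e' : ℝ} {x : ℂ} (he : e + e' = -(k : ℝ) / 3)
    (hx : x * om ^ k = Complex.exp ((2 * Real.pi * e : ℝ) * Complex.I)) :
    (starRingEnd ℂ) x * om ^ k = Complex.exp ((2 * Real.pi * e' : ℝ) * Complex.I) := by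
  have h1 := congrArg (starRingEnd ℂ) hx
  rw [map_mul, map_pow, conj_om, ← Complex.exp_conj, map_mul, Complex.conj_ofReal, Complex.conj_I,
    inv_pow, mul_inv_eq_iff_eq_mul₀ (pow_ne_zero _ om_ne)] at h1
  rw [h1, om, ← Complex.exp_nat_mul, ← Complex.exp_add, ← Complex.exp_add]
  congr 1
  have : e' = -(k : ℝ) / 3 - e := by linarith
  rw [this]
  push_cast
  ring

theorem RHF_shift (e : ℝ) : Complex.exp ((2 * Real.pi * (e - 1) : ℝ) * Complex.I) =
    Complex.exp ((2 * Real.pi * e : ℝ) * Complex.I) := by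
  have : ((2 * Real.pi * (e - 1) : ℝ) : ℂ) * Complex.I =
      (2 * Real.pi * e : ℝ) * Complex.I - 2 * Real.pi * Complex.I := by push_cast; ring
  rw [this, Complex.exp_sub, Complex.exp_two_pi_mul_I, div_one]

theorem RHF_norm_rph (e : ℝ) : ‖rph e‖ = 1 := by
  rw [rph, ← Complex.ofReal_neg, Complex.norm_exp_ofReal_mul_I]

theorem RHF_exp {k : ℕ} {lam T e : ℝ} (hl : 0 < lam) (hT : Real.exp (-T) ≤ 4 / lam) (he : e ≤ 0)
    (hk : -e ≤ (k : ℝ) + 1) : Real.exp (e * T) ≤ 4 ^ ((k : ℝ) + 1) * lam ^ e := by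
  have h1 : Real.exp (e * T) = Real.exp (-T) ^ (-e) := by
    rw [← Real.exp_mul]; congr 1; ring
  rw [h1]
  refine (Real.rpow_le_rpow (Real.exp_pos _).le hT (by linarith)).trans ?_
  rw [Real.div_rpow (by norm_num) hl.le, Real.rpow_neg hl.le, div_inv_eq_mul]
  exact mul_le_mul_of_nonneg_right (Real.rpow_le_rpow_of_exponent_le (by norm_num) hk)
    (Real.rpow_nonneg hl.le _)

theorem RHF_sum3 {c p : Fin 3 → ℂ} {m : ℝ} (hc : ∀ j, ‖c j‖ ≤ 1) (hp : ∀ j, ‖p j‖ ≤ m) :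
    ‖∑ j, c j * p j‖ ≤ 3 * m := by
  refine (norm_sum_le _ _).trans ?_
  have : ∀ j, ‖c j * p j‖ ≤ m := fun j => by
    rw [norm_mul]
    exact (mul_le_of_le_one_left (norm_nonneg _) (hc j)).trans (hp j)
  rw [Fin.sum_univ_three]
  linarith [this 0, this 1, this 2]

/-- cancellation in the leading Fourier coefficient -/
theorem RHF_Iw {p : Fin 3 → ℂ → ℂ} {e T m δ κ : ℝ} {c : Fin 3 → ℂ} {b : Fin 2 → ℂ}
    (hc : ∀ j, ‖c j‖ ≤ 1) (hb : ∀ j, ‖b j‖ ≤ 1)
    (hp : ∀ j, Continuous fun t : ℝ => p j (t + T * Complex.I))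
    (per : ∀ j, ∀ t : ℝ, p j (t + T * Complex.I + 2 * Real.pi) =
      Complex.exp ((2 * Real.pi * e : ℝ) * Complex.I) * p j (t + T * Complex.I))
    (hm : ∀ t : ℝ, ‖p 0 (t + T * Complex.I)‖ ≤ m)
    (hr : ∀ (j : Fin 2) (t : ℝ), ‖p j.succ (t + T * Complex.I + 2 * Real.pi / 3) -
      b j * p j.castSucc (t + T * Complex.I)‖ ≤ δ)
    (hk : ‖c 0 + c 1 * b 0 * rph e + c 2 * b 0 * b 1 * rph e ^ 2‖ ≤ κ) :
    ‖Iw (fun z => ∑ j, c j * p j z) e T‖ ≤ κ * m + 3 * δ := by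
  rw [Iw_sum _ c e hp, Fin.sum_univ_three]
  have h0 : ‖Iw (p 0) e T‖ ≤ m := norm_Iw_le hm
  have h1 : ‖Iw (p 1) e T - b 0 * rph e * Iw (p 0) e T‖ ≤ δ :=
    Iw_shift (hp 0) (hp 1) (per 1) (hr 0)
  have h2 : ‖Iw (p 2) e T - b 1 * rph e * Iw (p 1) e T‖ ≤ δ :=
    Iw_shift (hp 1) (hp 2) (per 2) (hr 1)
  have e1 : c 0 * Iw (p 0) e T + c 1 * Iw (p 1) e T + c 2 * Iw (p 2) e T =
      (c 0 + c 1 * b 0 * rph e + c 2 * b 0 * b 1 * rph e ^ 2) * Iw (p 0) e T +
        c 1 * (Iw (p 1) e T - b 0 * rph e * Iw (p 0) e T) +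
        c 2 * (b 1 * (rph e * (Iw (p 1) e T - b 0 * rph e * Iw (p 0) e T))) +
        c 2 * (Iw (p 2) e T - b 1 * rph e * Iw (p 1) e T) := by ring
  have one : ∀ {a z : ℂ} {r : ℝ}, ‖a‖ ≤ 1 → ‖z‖ ≤ r → ‖a * z‖ ≤ r := fun ha hz => by
    rw [norm_mul]
    exact (mul_le_of_le_one_left (norm_nonneg _) ha).trans hz
  have a0 : ‖(c 0 + c 1 * b 0 * rph e + c 2 * b 0 * b 1 * rph e ^ 2) * Iw (p 0) e T‖ ≤ κ * m := by
    rw [norm_mul]
    exact mul_le_mul hk h0 (norm_nonneg _) ((norm_nonneg _).trans hk)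
  have a1 := one (hc 1) h1
  have a2 := one (hc 2) (one (hb 1) (one (RHF_norm_rph e).le h1))
  have a3 := one (hc 2) h2
  rw [e1]
  refine (norm_add_le _ _).trans ?_
  refine (add_le_add (norm_add₃_le) le_rfl).trans ?_
  linarith

theorem RHF_num {lam T m δ κ I : ℝ} (hl : 0 < lam) (hT : Real.exp (-T) ≤ 4 / lam) (hm : 0 ≤ m)
    (hδ : 0 ≤ δ) (hκ : 0 ≤ κ) (hI : I ≤ κ * m + 3 * (δ + 2000 * m / lam)) :
    I + Real.exp (-T) * (3 * m) ≤ 6012 * (κ * m + δ + m / lam) := by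
  have h1 : Real.exp (-T) * (3 * m) ≤ 4 / lam * (3 * m) :=
    mul_le_mul_of_nonneg_right hT (by positivity)
  have h2 : 4 / lam * (3 * m) = 12 * (m / lam) := by ring
  have h3 : 2000 * m / lam = 2000 * (m / lam) := by ring
  have h4 : 0 ≤ κ * m := mul_nonneg hκ hm
  rw [h3] at hI
  linarith

theorem RHF_enum {k : ℕ} {U : Finset Tri} (h : U.card = k) :
    ∃ v : Fin k → Tri, Function.Injective v ∧ U = Finset.univ.image v := by
  let E := U.equivFinOfCardEq h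
  refine ⟨fun j => (E.symm j : Tri), fun a b hab => E.symm.injective (Subtype.ext hab), ?_⟩
  ext t
  simp only [Finset.mem_image, Finset.mem_univ, true_and]
  exact ⟨fun ht => ⟨E ⟨t, ht⟩, by simp⟩, fun ⟨j, hj⟩ => hj ▸ (E.symm j).2⟩

theorem RHF_ulim (uf : Ultrafilter ℕ) {ι : Type} {c : ℕ → ι → ℂ} (h : ∀ n j, ‖c n j‖ ≤ 1) :
    ∃ c₀ : ι → ℂ, (∀ j, ‖c₀ j‖ ≤ 1) ∧ ∀ j, Tendsto (fun n => c n j) uf (𝓝 (c₀ j)) := by
  choose c₀ h₀ using fun j => exists_ulim uf (f := fun n => c n j) (M := 1)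
    (Eventually.of_forall fun n => h n j)
  exact ⟨c₀, fun j => le_of_tendsto' (h₀ j).norm fun n => h n j, h₀⟩

/-- the limit functions of three families of observables related by rotations -/
theorem RHF_lim {uf : Ultrafilter ℕ} {lam Lam T : ℝ} {s : ℕ → ℝ} {D : ℕ → Finset Site}
    {ψ φ G : ℕ → ℂ → ℂ} (h : SeqD uf lam Lam T s D ψ φ G) {H : ℕ → Fin 3 → Finset Site}
    {V : ℕ → Fin 3 → Finset Tri} {U : ℕ → Finset Tri} {x : ℂ} {k : ℕ} (hk : 1 ≤ k)
    (hU : ∀ n, (U n).card = k) {e m δ κ : ℝ}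
    (hx : x * om ^ k = Complex.exp ((2 * Real.pi * e : ℝ) * Complex.I))
    (hf : ∀ n j, Frame (s n) (lam * s n) (D n) (H n j) (V n j) (U n))
    (hX : ∀ n j, HX (V n j) (U n) x)
    (hbd : ∀ n j ed l, Band (s n) ed → ‖obsE (D n) (H n j) (V n j) (U n) x ed l‖ ≤ m)
    {b : ℕ → Fin 2 → ℂ} {b₀ : Fin 2 → ℂ} (hb : ∀ j, ‖b₀ j‖ ≤ 1)
    (hbl : ∀ j, Tendsto (fun n => b n j) uf (𝓝 (b₀ j)))
    (hrot : ∀ n (j : Fin 2) ed l, Band (s n) ed →
      ‖obsE (D n) (H n j.succ) (V n j.succ) (U n) x (gE ed) (l + secS (rgt ed)) -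
        b n j * obsE (D n) (H n j.castSucc) (V n j.castSucc) (U n) x ed l‖ ≤ δ)
    {c : Fin 3 → ℂ} (hc : ∀ j, ‖c j‖ ≤ 1)
    (hκ : ‖c 0 + c 1 * b₀ 0 * rph e + c 2 * b₀ 0 * b₀ 1 * rph e ^ 2‖ ≤ κ) :
    ∃ p : Fin 3 → ℂ → ℂ,
      (∀ j, IsLim uf T D ψ G (fun n => obsE (D n) (H n j) (V n j) (U n) x) (p j)) ∧
      (∀ j, ∀ z ∈ strip T, ‖p j z‖ ≤ 1) ∧
      DifferentiableOn ℂ (fun z => ∑ j, c j * p j z) (strip T) ∧
      (∀ z ∈ strip T, ∑ j, c j * p j (z + 2 * Real.pi) =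
        Complex.exp ((2 * Real.pi * e : ℝ) * Complex.I) * ∑ j, c j * p j z) ∧
      (∀ t : ℝ, ‖∑ j, c j * p j (t + T * Complex.I)‖ ≤ 3 * m) ∧
      ‖Iw (fun z => ∑ j, c j * p j z) e T‖ ≤ κ * m + 3 * (δ + 2000 * m / lam) := by
  have hT : 0 < T := by linarith [h.two_le]
  have hne : ∀ n, (U n).Nonempty := fun n => Finset.card_pos.1 (by rw [hU n]; exact hk)
  have hx1 : ‖x‖ = 1 := (hX 0 0).1
  choose p dp hp using fun j => h.exists_lim (H := fun n => H n j) (V := fun n => V n j)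
    fun n => ⟨hf n j, hne n, hX n j⟩
  have per : ∀ j, ∀ z ∈ strip T, p j (z + 2 * Real.pi) =
      Complex.exp ((2 * Real.pi * e : ℝ) * Complex.I) * p j z := by
    intro j z hz
    refine h.lim_per (hp j) (fun n ed l => ?_) hz
    rw [obsE, obs_mon hx1, zpow_one, hU n, hx, obsE]
  have him : ∀ t : ℝ, ((t : ℂ) + T * Complex.I).im = T := fun t => by simp
  have hst : ∀ t : ℝ, (t : ℂ) + T * Complex.I ∈ strip T := fun t =>
    ⟨by rw [him]; exact hT, by rw [him]; linarith⟩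
  have hm : ∀ j, ∀ t : ℝ, ‖p j (t + T * Complex.I)‖ ≤ m := fun j t =>
    h.lim_band (hp j) (hbd · j) (by rw [him]; norm_num)
  refine ⟨p, hp, fun j z hz => h.lim_bound (hp j) (fun n ed l => norm_obs_le hx1) hz,
    DifferentiableOn.fun_sum fun j _ => (dp j).const_mul _, fun z hz => ?_,
    fun t => RHF_sum3 hc fun j => hm j t, ?_⟩
  · rw [Finset.mul_sum]
    refine Finset.sum_congr rfl fun j _ => ?_
    rw [per j z hz]; ring
  · refine RHF_Iw hc hb (fun j => cont_line hT (dp j)) (fun j t => per j _ (hst t)) (hm 0)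
      (fun j t => ?_) hκ
    exact h.lim_rot (hp j.castSucc) (hp j.succ) (dp _) (dp _)
      (fun n ed l hB => ⟨hbd n _ ed l hB, hbd n _ ed l hB⟩) (hbl j) (hb j)
      (fun n ed l hB => hrot n j ed l hB) t

/-- Sequence form. Enumerate `U n` and `u n` by `Option (Fin k)`, take the limits of the angles
(`exists_angle`) and of `c`, `b`, `b'` (`exists_ulim`). If two angles agree use `lim_deg`.
Otherwise apply `rh` to `∑ c j * p j` and `∑ conj (c j) * p' j` (`exists_lim`, `lim_bound`,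
`lim_band`, `lim_per` with `obs_mon`, `lim_wall`, `lim_rot`, `Iw_sum`, `Iw_shift`) and come back
with `lim_star`, `obs_wall`; `exp (e T) ≤ (4 / lam) ^ (- e)`. -/
theorem rhf_seq (k : ℕ) (hk : 1 ≤ k) : ∃ C : ℝ, 0 < C ∧ ∀ (uf : Ultrafilter ℕ)
    (lam Lam T η e e' m m' δ δ' κ κ' : ℝ) (x : ℂ) (s : ℕ → ℝ) (D : ℕ → Finset Site)
    (ψ φ G : ℕ → ℂ → ℂ) (H : ℕ → Fin 3 → Finset Site) (V : ℕ → Fin 3 → Finset Tri)
    (U : ℕ → Finset Tri) (u : ℕ → Tri) (c : ℕ → Fin 3 → ℂ) (b b' : ℕ → Fin 2 → ℂ),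
    SeqD uf lam Lam T s D ψ φ G → 0 < η → e ≤ 0 → e' ≤ 1 → e + e' = -(k : ℝ) / 3 →
    x * om ^ k = Complex.exp ((2 * Real.pi * e : ℝ) * Complex.I) → (∀ n, (U n).card = k) →
    (∀ n, RHH (s n) (lam * s n) m m' δ δ' κ κ' e e' x (D n) (H n) (V n) (U n) (u n) (c n) (b n)
      (b' n)) →
    ∀ᶠ n in uf, ‖∑ j, c n j * amp (D n) (H n j) (V n j) (insert (u n) (U n)) x‖ ≤
      C * (lam ^ e * (κ * m + δ + m / lam) + lam ^ (e' - 1) * (κ' * m' + δ' + m' / lam)) + η := by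
  obtain ⟨C, hC, hrh⟩ := rh k
  have hK : (0 : ℝ) < 4 ^ ((k : ℝ) + 1) := by positivity
  refine ⟨C * (4 ^ ((k : ℝ) + 1) * 6012), by positivity, ?_⟩
  intro uf lam Lam T η e e' m m' δ δ' κ κ' x s D ψ φ G H V U u c b b' h hη he he' hee hx hU hR
  have hl : 0 < lam := by linarith [h.big]
  have hx1 : ‖x‖ = 1 := ((hR 0).hx 0).1
  obtain ⟨n₀, hn₀⟩ := (h.hs.eventually_ge_atTop 1).exists
  obtain ⟨ed, hed⟩ := RHF_band hn₀
  have hm : 0 ≤ m := (norm_nonneg _).trans ((hR n₀).bd 0 ed 0 hed)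
  have hm' : 0 ≤ m' := (norm_nonneg _).trans ((hR n₀).bd' 0 ed 0 hed)
  have hδ : 0 ≤ δ := (norm_nonneg _).trans ((hR n₀).rot 0 ed 0 hed)
  have hδ' : 0 ≤ δ' := (norm_nonneg _).trans ((hR n₀).rot' 0 ed 0 hed)
  have hκ : 0 ≤ κ := (norm_nonneg _).trans (hR 0).k1
  have hκ' : 0 ≤ κ' := (norm_nonneg _).trans (hR 0).k2
  choose v hvi hvU using fun n => RHF_enum (hU n)
  obtain rfl : U = fun n => Finset.univ.image (v n) := funext hvU
  have hfr : ∀ n j, Frame (s n) (lam * s n) (D n) (H n j) (V n j) (Finset.univ.image (v n)) :=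
    fun n j => ((hR n).fr j).mono le_rfl ((hR n).fr j).gap (Finset.subset_insert _ _)
  choose i hi using fun n j =>
    (hfr n 0).out (v n j) (Finset.mem_image_of_mem _ (Finset.mem_univ j))
  choose a ha using fun n => ((hR n).fr 0).out (u n) (Finset.mem_insert_self _ _)
  choose θ hθ using fun j => h.exists_angle (t := fun n => v n j) (i := fun n => i n j)
    fun n => hi n j
  obtain ⟨τ, hτ⟩ := h.exists_angle (t := u) (i := a) ha
  by_cases hdeg : ∃ a b : Option (Fin k), a ≠ b ∧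
      Complex.exp ((a.elim τ θ : ℝ) * Complex.I) = Complex.exp ((b.elim τ θ : ℝ) * Complex.I)
  · obtain ⟨a₁, a₂, h12, hE⟩ := hdeg
    have him : ∀ n, Finset.univ.image (fun o : Option (Fin k) => o.elim (u n) (v n)) =
        insert (u n) (Finset.univ.image (v n)) := by
      intro n
      ext t
      simp [Option.exists, eq_comm]
    have hinj : ∀ n, Function.Injective fun o : Option (Fin k) => o.elim (u n) (v n) := by
      intro n o o' hoo
      have hn : ∀ j, v n j ≠ u n := fun j hj =>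
        (hR n).new (hj ▸ Finset.mem_image_of_mem _ (Finset.mem_univ j))
      cases o <;> cases o'
      · rfl
      · exact absurd hoo.symm (hn _)
      · exact absurd hoo (hn _)
      · exact congrArg some (hvi n hoo)
    have hlim := fun j => h.lim_deg (u := fun n o => o.elim (u n) (v n))
      (i := fun n o => o.elim (a n) (i n)) (θ := fun o => o.elim τ θ) hinj
      (fun n o => by cases o; exacts [ha n, hi n _]) (fun o => by cases o; exacts [hτ, hθ _])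
      h12 hE (H := fun n => H n j) (V := fun n => V n j) fun n => by rw [him]; exact (hR n).fr j
    simp only [him] at hlim
    have hev := fun j => (hlim j).eventually (ge_mem_nhds (show (0 : ℝ) < η / 3 by positivity))
    filter_upwards [eventually_all.2 hev] with n hn
    have h1 := RHF_sum3 (hR n).hc fun j => (norm_amp_le_pr hx1).trans (hn j)
    have h2 : 0 ≤ C * (4 ^ ((k : ℝ) + 1) * 6012) * (lam ^ e * (κ * m + δ + m / lam) +
        lam ^ (e' - 1) * (κ' * m' + δ' + m' / lam)) := by positivity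
    linarith
  have hd1 : ∀ i j, Complex.exp (θ i * Complex.I) = Complex.exp (θ j * Complex.I) → i = j := by
    intro i j hij
    by_contra hne
    exact hdeg ⟨some i, some j, fun h => hne (Option.some.inj h), hij⟩
  have hd2 : ∀ j, Complex.exp (τ * Complex.I) ≠ Complex.exp (θ j * Complex.I) :=
    fun j hj => hdeg ⟨none, some j, by simp, hj⟩
  obtain ⟨c₀, hc₀, hcl⟩ := RHF_ulim uf fun n => (hR n).hc
  obtain ⟨b₀, hb₀, hbl⟩ := RHF_ulim uf fun n => (hR n).hb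
  obtain ⟨b₁, hb₁, hbl'⟩ := RHF_ulim uf fun n => (hR n).hb'
  have hcj : ∀ j, Tendsto (fun n => (starRingEnd ℂ) (c n j)) uf (𝓝 ((starRingEnd ℂ) (c₀ j))) :=
    fun j => (Complex.continuous_conj.tendsto _).comp (hcl j)
  have k1 : ‖c₀ 0 + c₀ 1 * b₀ 0 * rph e + c₀ 2 * b₀ 0 * b₀ 1 * rph e ^ 2‖ ≤ κ :=
    le_of_tendsto' (((hcl 0).add (((hcl 1).mul (hbl 0)).mul_const _)).add
      ((((hcl 2).mul (hbl 0)).mul (hbl 1)).mul_const _)).norm fun n => (hR n).k1
  have k2 : ‖(starRingEnd ℂ) (c₀ 0) + (starRingEnd ℂ) (c₀ 1) * b₁ 0 * rph (e' - 1) +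
      (starRingEnd ℂ) (c₀ 2) * b₁ 0 * b₁ 1 * rph (e' - 1) ^ 2‖ ≤ κ' :=
    le_of_tendsto' (((hcj 0).add (((hcj 1).mul (hbl' 0)).mul_const _)).add
      ((((hcj 2).mul (hbl' 0)).mul (hbl' 1)).mul_const _)).norm fun n => (hR n).k2
  obtain ⟨p, hp, p1, dp, per, pm, pI⟩ := RHF_lim h hk hU hx hfr (fun n => (hR n).hx)
    (fun n => (hR n).bd) hb₀ hbl (fun n => (hR n).rot) hc₀ k1
  have hX' : ∀ n j, HX (V n j) (Finset.univ.image (v n)) ((starRingEnd ℂ) x) := fun n j =>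
    ⟨by rw [RCLike.norm_conj, hx1], ((hR n).hx j).2.imp_left fun h1 => by rw [h1, map_one]⟩
  obtain ⟨p', hp', p1', dp', per', pm', pI'⟩ := RHF_lim h hk hU (e := e' - 1)
    (by rw [RHF_shift]; exact RHF_conj hee hx) hfr hX' (fun n => (hR n).bd') hb₁ hbl'
    (fun n => (hR n).rot') (c := fun j => (starRingEnd ℂ) (c₀ j))
    (fun j => by rw [RCLike.norm_conj]; exact hc₀ j) k2
  rw [RHF_shift] at per'
  obtain ⟨k₀, hk₀, hwall⟩ := h.lim_wall hk hvi hi hθ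
  have key := hrh θ T e e' (3 * m) (3 * m') (3 * 1) (fun z => ∑ j, c₀ j * p j z)
    (fun z => ∑ j, (starRingEnd ℂ) (c₀ j) * p' j z) k₀ hd1 h.two_le he he' hee dp dp'
    (fun z hz => ⟨RHF_sum3 hc₀ fun j => p1 j z hz,
      RHF_sum3 (fun j => by rw [RCLike.norm_conj]; exact hc₀ j) fun j => p1' j z hz⟩)
    (fun z hz => ⟨per z hz, per' z hz⟩) hk₀ (fun t ht => by
      have h1 := tendsto_finsetSum Finset.univ fun j _ =>
        (hwall (fun n => H n j) (fun n => V n j) x (p j) (p' j) hx1 (fun n => hfr n j) (hp j)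
          (hp' j) t ht).const_mul (c₀ j)
      simp only [mul_zero, Finset.sum_const_zero] at h1
      refine h1.congr fun y => ?_
      rw [map_sum, Finset.mul_sum, ← Finset.sum_sub_distrib]
      refine Finset.sum_congr rfl fun j _ => ?_
      rw [map_mul, Complex.conj_conj]
      ring) fun t => ⟨pm t, pm' t⟩
  obtain ⟨l, hl'⟩ := h.adm_of_psi (x := fun n => vtx (u n) (a n)) (z := τ)
    (Eventually.of_forall fun n => (ha n).1) hτ
  have hη6 : 0 < η / 6 := by positivity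
  have hstar := fun j => h.lim_star hk hi hθ hx1 (fun n => hfr n j) (hp j) hd2
    (Eventually.of_forall ha) hl' hη6
  have hy1 : ∀ᶠ y : ℝ in 𝓝[>] 0, y ∈ Set.Ioc (0 : ℝ) (1 / 2) := Ioc_mem_nhdsGT (by norm_num)
  obtain ⟨y, hy, hyn⟩ := (hy1.and (eventually_all.2 hstar)).exists
  have him : ((τ : ℂ) + y * Complex.I).im = y := by simp
  have hz := key (τ + y * Complex.I) (by rw [him]; exact hy.1) (by rw [him]; exact hy.2)
  have hzs : (τ : ℂ) + y * Complex.I ∈ strip T :=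
    ⟨by rw [him]; exact hy.1, by rw [him]; linarith [hy.2, h.two_le]⟩
  have hk0 : (0 : ℝ) ≤ k := Nat.cast_nonneg k
  have b1 := mul_le_mul (RHF_exp (k := k) hl h.exp_le he (by linarith))
    (RHF_num hl h.exp_le hm hδ hκ pI) (by positivity) (by positivity)
  have b2 := mul_le_mul (RHF_exp (k := k) (e := e' - 1) hl h.exp_le (by linarith) (by linarith))
    (RHF_num hl h.exp_le hm' hδ' hκ' pI') (by positivity) (by positivity)
  have hz2 := hz.trans (mul_le_mul_of_nonneg_left (add_le_add b1 b2) hC.le)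
  have hcc := fun j => (tendsto_iff_norm_sub_tendsto_zero.1 (hcl j)).eventually
    (ge_mem_nhds hη6)
  filter_upwards [eventually_all.2 hyn, eventually_all.2 hcc] with n h1 h2
  have e1 : ‖∑ j, c n j * amp (D n) (H n j) (V n j) (insert (u n) (Finset.univ.image (v n))) x‖ =
      ‖∑ j, c n j *
        obs (D n) (H n j) (V n j) (Finset.univ.image (v n)) x (u n) (a n) (a n) (l n)‖ := by
    simp only [fun j => obs_wall (m := l n) (hfr n j) hx1 (hR n).new (ha n).1 (ha n).2.1 (ha n).2.2,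
      mul_left_comm (c n _), ← Finset.mul_sum]
    rw [norm_mul, norm_mul, norm_zpow, norm_zpow, norm_om, hx1, one_zpow, one_zpow, one_mul,
      one_mul]
  have e2 : ∑ j, c n j *
      obs (D n) (H n j) (V n j) (Finset.univ.image (v n)) x (u n) (a n) (a n) (l n) =
      ∑ j, c₀ j * p j (τ + y * Complex.I) + ∑ j, c n j *
        (obs (D n) (H n j) (V n j) (Finset.univ.image (v n)) x (u n) (a n) (a n) (l n) -
          p j (τ + y * Complex.I)) + ∑ j, p j (τ + y * Complex.I) * (c n j - c₀ j) := by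
    rw [← Finset.sum_add_distrib, ← Finset.sum_add_distrib]
    exact Finset.sum_congr rfl fun j _ => by ring
  have a1 := RHF_sum3 (hR n).hc h1
  have a2 := RHF_sum3 (fun j => p1 j _ hzs) h2
  rw [e1, e2]
  refine norm_add₃_le.trans ?_
  linarith

/-- by contradiction from `rhf_seq` (`hyperfilter ℕ`, `exists_CD`, `exists_seqD`) -/
theorem rhf (k : ℕ) (hk : 1 ≤ k) : ∃ C : ℝ, 0 < C ∧ ∀ (lam Lam η e e' m m' δ δ' κ κ' : ℝ) (x : ℂ),
    10000 ≤ lam → 0 < η → e ≤ 0 → e' ≤ 1 → e + e' = -(k : ℝ) / 3 →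
    x * om ^ k = Complex.exp ((2 * Real.pi * e : ℝ) * Complex.I) →
    ∃ s₀ : ℝ, ∀ (s : ℝ) (D : Finset Site) (H : Fin 3 → Finset Site) (V : Fin 3 → Finset Tri)
      (U : Finset Tri) (u : Tri) (c : Fin 3 → ℂ) (b b' : Fin 2 → ℂ), s₀ ≤ s →
      D ⊆ bal 0 (Lam * s) → U.card = k → RHH s (lam * s) m m' δ δ' κ κ' e e' x D H V U u c b b' →
      ‖∑ j, c j * amp D (H j) (V j) (insert u U) x‖ ≤
        C * (lam ^ e * (κ * m + δ + m / lam) + lam ^ (e' - 1) * (κ' * m' + δ' + m' / lam)) + η := by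
  obtain ⟨C, hC, hseq⟩ := rhf_seq k hk
  refine ⟨C, hC, fun lam Lam η e e' m m' δ δ' κ κ' x hl hη he he' hee hx => ?_⟩
  by_contra hcon
  simp only [not_exists, not_forall] at hcon
  choose s D H V U u c b b' hs hD hU hR hbad using fun n : ℕ => hcon n
  have hst : Tendsto s (hyperfilter ℕ) atTop :=
    (tendsto_atTop_mono hs tendsto_natCast_atTop_atTop).mono_left Nat.hyperfilter_le_atTop
  choose ψ φ G hcd using fun n => exists_CD (lam := lam) (Lam := Lam)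
    (mul_nonneg (by linarith) ((Nat.cast_nonneg n).trans (hs n))) ((hR n).fr 0).hR (hD n)
    ((hR n).fr 0).connD ((hR n).fr 0).connO
  obtain ⟨T, hT⟩ := exists_seqD (hyperfilter ℕ) hl hst hcd
  obtain ⟨n, hn⟩ := (hseq _ lam Lam T η e e' m m' δ δ' κ κ' x s D ψ φ G H V U u c b b' hT hη he he'
    hee hx hU hR).exists
  exact hbad n hn

/-- one frame: `c = ![1, 0, 0]`, `b = b' = 0`, `δ = m`, `δ' = m'`, `κ = κ' = 1` -/
theorem rhf_one (k : ℕ) (hk : 1 ≤ k) : ∃ C : ℝ, 0 < C ∧ ∀ (lam Lam η e e' m m' : ℝ) (x : ℂ),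
    10000 ≤ lam → 0 < η → e ≤ 0 → e' ≤ 1 → e + e' = -(k : ℝ) / 3 →
    x * om ^ k = Complex.exp ((2 * Real.pi * e : ℝ) * Complex.I) →
    ∃ s₀ : ℝ, ∀ (s : ℝ) (D H : Finset Site) (V U : Finset Tri) (u : Tri), s₀ ≤ s →
      D ⊆ bal 0 (Lam * s) → U.card = k → u ∉ U → Frame s (lam * s) D H V (insert u U) →
      HX V U x → (∀ ed l, Band s ed → ‖obsE D H V U x ed l‖ ≤ m ∧
        ‖obsE D H V U ((starRingEnd ℂ) x) ed l‖ ≤ m') →
      ‖amp D H V (insert u U) x‖ ≤ C * (lam ^ e * m + lam ^ (e' - 1) * m') + η := by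
  obtain ⟨C, hC, hf⟩ := rhf k hk
  refine ⟨C * 3, by positivity, fun lam Lam η e e' m m' x hl hη he he' hee hx => ?_⟩
  obtain ⟨s₀, hs₀⟩ := hf lam Lam η e e' m m' m m' 1 1 x hl hη he he' hee hx
  refine ⟨max s₀ 1, fun s D H V U u hs hD hU hu hF hX hb => ?_⟩
  obtain ⟨ed, hed⟩ := RHF_band ((le_max_right _ _).trans hs)
  have hm : 0 ≤ m := (norm_nonneg _).trans (hb ed 0 hed).1
  have hm' : 0 ≤ m' := (norm_nonneg _).trans (hb ed 0 hed).2
  have h := hs₀ s D (fun _ => H) (fun _ => V) U u ![1, 0, 0] 0 0 ((le_max_left _ _).trans hs) hD hU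
    { new := hu
      fr := fun _ => hF
      hx := fun _ => hX
      hc := fun j => by fin_cases j <;> simp
      hb := fun j => by simp
      hb' := fun j => by simp
      bd := fun _ ed l hB => (hb ed l hB).1
      bd' := fun _ ed l hB => (hb ed l hB).2
      rot := fun _ ed l hB => by simpa using (hb _ _ hB.rot).1
      rot' := fun _ ed l hB => by simpa using (hb _ _ hB.rot).2
      k1 := by simp
      k2 := by simp }
  have e1 : ∑ j : Fin 3, (![1, 0, 0] : Fin 3 → ℂ) j * amp D H V (insert u U) x =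
      amp D H V (insert u U) x := by simp [Fin.sum_univ_three]
  rw [e1] at h
  have hl0 : 0 < lam := by linarith
  have a1 : 1 * m + m + m / lam ≤ 3 * m := by
    have := div_le_self hm (show 1 ≤ lam by linarith)
    linarith
  have a2 : 1 * m' + m' + m' / lam ≤ 3 * m' := by
    have := div_le_self hm' (show 1 ≤ lam by linarith)
    linarith
  have a3 := mul_le_mul_of_nonneg_left
    (add_le_add (mul_le_mul_of_nonneg_left a1 (Real.rpow_nonneg hl0.le e))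
      (mul_le_mul_of_nonneg_left a2 (Real.rpow_nonneg hl0.le (e' - 1)))) hC.le
  linarith

end Pool.Agent.TAF.U
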