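import Pool.Agent.P.MP_cb4022_pr.U.Markov
import Pool.Agent.P.MP_cb4022_pr.U.Link

/-! Russo-Seymour-Welsh, part 1: the doubling inequality (paper B1, B2). -/

open scoped Classical symmDiff

noncomputable section

namespace Pool.Agent.TAF.U

/-- `D` and its neighbours -/
def Nb (D : Finset Site) : Set Site := {x | x ∈ D ∨ ∃ y ∈ D, tri.Adj x y}

theorem RSW1_vtx_nb {D : Finset Site} {t : Tri} (h : TT t D) (i : Fin 3) : vtx t i ∈ Nb D := by
  obtain ⟨k, hk⟩ := h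
  by_cases e : i = k
  · exact Or.inl (by rw [e]; exact hk)
  · exact Or.inr ⟨_, hk, adj_vtx t e⟩

theorem RSW1_side {D : Finset Site} {ξ : Finset Edge} {Y : Set Site}
    (hξ : ∀ e ∈ ξ, Touch e Y ∧ Touch e D) {u u' : Tri} (hc : Conn ξ u u') (hu : TT u D)
    (i : Fin 3) (hi : vtx u i ∈ Y) :
    TT u' D ∧ ∀ j, vtx u' j ∈ Y → Jn (Nb D ∩ Y) (vtx u i) (vtx u' j) := by
  induction hc with
  | refl => exact ⟨hu, fun j hj => Jn.vtx ⟨RSW1_vtx_nb hu i, hi⟩ ⟨RSW1_vtx_nb hu j, hj⟩⟩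
  | @tail τ _ _ h ih =>
    obtain ⟨k, hk, rfl⟩ := h
    have hD : TT (nbr τ k) D := Touch.tt (i := k) (by rw [side_nbr]; exact (hξ _ hk).2)
    refine ⟨hD, fun j hj => ?_⟩
    rcases touch_side.1 (hξ _ hk).1 with h1 | h1
    · refine (ih.2 _ h1).trans ?_
      rw [← vtx_nbr2] at h1 ⊢
      exact Jn.vtx ⟨RSW1_vtx_nb hD _, h1⟩ ⟨RSW1_vtx_nb hD j, hj⟩
    · refine (ih.2 _ h1).trans ?_
      rw [← vtx_nbr1] at h1 ⊢
      exact Jn.vtx ⟨RSW1_vtx_nb hD _, h1⟩ ⟨RSW1_vtx_nb hD j, hj⟩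

/-- B1: along a path of walls that touch `D` the yellow vertices are joined, and so are the blue
ones -/
theorem hex_side {D S : Finset Site} {u u' : Tri} (hc : Conn (res (bd S) D) u u') (hu : TT u D)
    (i j : Fin 3) :
    (vtx u i ∈ S → vtx u' j ∈ S → Jn (Nb D ∩ S) (vtx u i) (vtx u' j)) ∧
    (vtx u i ∉ S → vtx u' j ∉ S → Jn (Nb D \ S) (vtx u i) (vtx u' j)) := by
  constructor
  · intro hi hj
    refine (RSW1_side (Y := (S : Set Site)) (fun e he => ⟨?_, (mem_res.1 he).2⟩) hc hu i hi).2 j hj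
    have := mem_bd.1 (mem_res.1 he).1
    simp only [Touch, Finset.mem_coe]
    tauto
  · intro hi hj
    refine (RSW1_side (Y := (S : Set Site)ᶜ) (fun e he => ⟨?_, (mem_res.1 he).2⟩) hc hu i hi).2
      j hj
    have := mem_bd.1 (mem_res.1 he).1
    simp only [Touch, Set.mem_compl_iff, Finset.mem_coe]
    tauto

/-- the rectangle `lo ≤ 2 i + j ≤ hi`, `0 ≤ j ≤ b` -/
def rect (lo hi b : ℤ) : Finset Site :=
  (Finset.Icc (-|lo| - |b|) (|hi| + |b|) ×ˢ Finset.Icc 0 b).filter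
    fun x => lo ≤ 2 * x.1 + x.2 ∧ 2 * x.1 + x.2 ≤ hi

theorem mem_rect {lo hi b : ℤ} {x : Site} :
    x ∈ rect lo hi b ↔ 0 ≤ x.2 ∧ x.2 ≤ b ∧ lo ≤ 2 * x.1 + x.2 ∧ 2 * x.1 + x.2 ≤ hi := by
  simp only [rect, Finset.mem_filter, Finset.mem_product, Finset.mem_Icc]
  have h1 := le_abs_self lo
  have h2 := neg_abs_le lo
  have h3 := le_abs_self hi
  have h4 := neg_abs_le hi
  have h5 := le_abs_self b
  have h6 := abs_nonneg b
  have h7 := abs_nonneg lo
  have h8 := abs_nonneg hi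
  omega

/-- left-right crossing inside `Y` -/
def LR (lo hi b : ℤ) (Y : Set Site) : Prop :=
  ∃ x y : Site, x ∈ Y ∩ rect lo hi b ∧ 2 * x.1 + x.2 ≤ lo + 1 ∧ hi - 1 ≤ 2 * y.1 + y.2 ∧
    Jn (Y ∩ rect lo hi b) x y
/-- top-bottom crossing inside `Y` -/
def TB (lo hi b : ℤ) (Y : Set Site) : Prop :=
  ∃ x y : Site, x ∈ Y ∩ rect lo hi b ∧ x.2 = b ∧ y.2 = 0 ∧ Jn (Y ∩ rect lo hi b) x y

theorem RSW1_adj {x y : Site} : tri.Adj x y ↔
    (y.1 = x.1 + 1 ∧ y.2 = x.2) ∨ (y.1 = x.1 - 1 ∧ y.2 = x.2) ∨ (y.1 = x.1 ∧ y.2 = x.2 + 1) ∨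
      (y.1 = x.1 ∧ y.2 = x.2 - 1) ∨ (y.1 = x.1 + 1 ∧ y.2 = x.2 - 1) ∨
      (y.1 = x.1 - 1 ∧ y.2 = x.2 + 1) := by
  obtain ⟨a, b⟩ := x
  obtain ⟨c, d⟩ := y
  simp only [tri, Prod.mk_sub_mk, Finset.mem_insert, Finset.mem_singleton, Prod.mk.injEq]
  omega

theorem RSW1_ray {X : Set Site} (f : ℕ → Site) (h : ∀ n, f n ∈ X)
    (h' : ∀ n, tri.Adj (f n) (f (n + 1))) (n : ℕ) : Jn X (f 0) (f n) := by
  induction n with
  | zero => exact Jn.refl _ _
  | succ n ih => exact ih.trans (Jn.single (h n) (h (n + 1)) (h' n))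

theorem RSW1_left {X : Set Site} {x z : Site} (h : ∀ w : Site, w.2 = x.2 → w.1 ≤ x.1 → w ∈ X)
    (h1 : z.2 = x.2) (h2 : z.1 ≤ x.1) : Jn X x z := by
  have := RSW1_ray (X := X) (fun n => (x.1 - n, x.2)) (fun n => h _ rfl (by simp))
    (fun n => RSW1_adj.2 (by simp; omega)) (x.1 - z.1).toNat
  convert this using 1 <;> ext <;> simp only <;> omega

theorem RSW1_right {X : Set Site} {x z : Site} (h : ∀ w : Site, w.2 = x.2 → x.1 ≤ w.1 → w ∈ X)
    (h1 : z.2 = x.2) (h2 : x.1 ≤ z.1) : Jn X x z := by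
  have := RSW1_ray (X := X) (fun n => (x.1 + n, x.2)) (fun n => h _ rfl (by simp))
    (fun n => RSW1_adj.2 (by simp; omega)) (z.1 - x.1).toNat
  convert this using 1 <;> ext <;> simp only <;> omega

theorem RSW1_up {X : Set Site} {x z : Site} (h : ∀ w : Site, w.1 = x.1 → x.2 ≤ w.2 → w ∈ X)
    (h1 : z.1 = x.1) (h2 : x.2 ≤ z.2) : Jn X x z := by
  have := RSW1_ray (X := X) (fun n => (x.1, x.2 + n)) (fun n => h _ rfl (by simp))
    (fun n => RSW1_adj.2 (by simp; omega)) (z.2 - x.2).toNat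
  convert this using 1 <;> ext <;> simp only <;> omega

theorem RSW1_down {X : Set Site} {x z : Site} (h : ∀ w : Site, w.1 = x.1 → w.2 ≤ x.2 → w ∈ X)
    (h1 : z.1 = x.1) (h2 : z.2 ≤ x.2) : Jn X x z := by
  have := RSW1_ray (X := X) (fun n => (x.1, x.2 - n)) (fun n => h _ rfl (by simp))
    (fun n => RSW1_adj.2 (by simp; omega)) (x.2 - z.2).toNat
  convert this using 1 <;> ext <;> simp only <;> omega

/-- a path may be followed inside the set of sites joined to its start -/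
theorem RSW1_jn_cmp {X : Set Site} {a b : Site} (h : Jn X a b) : Jn {z | Jn X a z} a b := by
  induction h with
  | refl => exact Jn.refl _ _
  | tail h1 h2 ih => exact ih.trans (Jn.single h1 (Relation.ReflTransGen.tail h1 h2) h2.2.2)

theorem RSW1_sconn {X : Set Site} {a : Site} (h : ∀ z ∈ X, Jn X a z) : SConn X :=
  fun x hx y hy => (h x hx).symm.trans (h y hy)

/-- `cross` with horizontal rays added to the first path, vertical zigzags to the second, and the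
colouring by a half-plane -/
theorem not_LR_TB {lo hi b : ℤ} {Y Y' : Set Site} (hd : Disjoint Y Y') (h : LR lo hi b Y)
    (h' : TB lo hi b Y') : False := by
  obtain ⟨x, y, hx, hx1, hy1, hxy⟩ := h
  obtain ⟨x', y', hx', hx2, hy2, hxy'⟩ := h'
  have hy := hxy.mem hx
  have hy' := hxy'.mem hx'
  have rx := mem_rect.1 hx.2
  have ry := mem_rect.1 hy.2
  refine cross
    (T := {z | Jn (Y ∩ rect lo hi b) x z ∨ (z.2 = x.2 ∧ z.1 ≤ x.1) ∨ (z.2 = y.2 ∧ y.1 ≤ z.1)})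
    (P := {z | Jn (Y' ∩ rect lo hi b) x' z ∨ (z.1 = x'.1 ∧ x'.2 ≤ z.2) ∨
      (z.1 = y'.1 ∧ z.2 ≤ y'.2)})
    (σ := {z | (z.1 ≤ 0 ∧ x.2 < z.2) ∨ (0 < z.1 ∧ y.2 < z.2)}) ?_ ?_ ?_ ?_ ?_ ?_
  · refine RSW1_sconn (a := x) ?_
    rintro z (hz | hz | hz)
    · exact (RSW1_jn_cmp hz).mono fun w hw => Or.inl hw
    · exact RSW1_left (fun w h1 h2 => Or.inr (Or.inl ⟨h1, h2⟩)) hz.1 hz.2
    · exact ((RSW1_jn_cmp hxy).mono fun w hw => Or.inl hw).trans
        (RSW1_right (fun w h1 h2 => Or.inr (Or.inr ⟨h1, h2⟩)) hz.1 hz.2)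
  · refine RSW1_sconn (a := x') ?_
    rintro z (hz | hz | hz)
    · exact (RSW1_jn_cmp hz).mono fun w hw => Or.inl hw
    · exact RSW1_up (fun w h1 h2 => Or.inr (Or.inl ⟨h1, h2⟩)) hz.1 hz.2
    · exact ((RSW1_jn_cmp hxy').mono fun w hw => Or.inl hw).trans
        (RSW1_down (fun w h1 h2 => Or.inr (Or.inr ⟨h1, h2⟩)) hz.1 hz.2)
  · rw [Set.disjoint_left]
    intro z hz hz'
    have k1 : z ∈ Y ∩ rect lo hi b ∨
        (0 ≤ z.2 ∧ z.2 ≤ b ∧ (2 * z.1 + z.2 < lo ∨ hi < 2 * z.1 + z.2)) := by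
      rcases hz with hz | hz | hz
      · exact Or.inl (hz.mem hx)
      · by_cases e : z.1 = x.1
        · exact Or.inl (by rw [Prod.ext e hz.1]; exact hx)
        · exact Or.inr (by omega)
      · by_cases e : z.1 = y.1
        · exact Or.inl (by rw [Prod.ext e hz.1]; exact hy)
        · exact Or.inr (by omega)
    have k2 : z ∈ Y' ∩ rect lo hi b ∨ z.2 < 0 ∨ b < z.2 := by
      rcases hz' with hz | hz | hz
      · exact Or.inl (hz.mem hx')
      · by_cases e : z.2 = x'.2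
        · exact Or.inl (by rw [Prod.ext hz.1 e]; exact hx')
        · exact Or.inr (by omega)
      · by_cases e : z.2 = y'.2
        · exact Or.inl (by rw [Prod.ext hz.1 e]; exact hy')
        · exact Or.inr (by omega)
    rcases k1 with k1 | k1 <;> rcases k2 with k2 | k2
    · exact Set.disjoint_left.1 hd k1.1 k2.1
    · have := mem_rect.1 k1.2
      omega
    · have := mem_rect.1 k2.2
      omega
    · omega
  · refine (((Set.finite_Icc (min x.1 0 - 2) (max y.1 0 + 2)).prod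
      (Set.finite_Icc (-2) (b + 2))).prod (Set.finite_univ (α := Fin 3))).subset ?_
    rintro ⟨⟨p, q⟩, i⟩ ⟨h1, h2⟩
    have h3 : ¬ (((lft ((p, q), i)).2 = x.2 ∧ (lft ((p, q), i)).1 ≤ x.1) ∨
        ((lft ((p, q), i)).2 = y.2 ∧ y.1 ≤ (lft ((p, q), i)).1)) := fun h => h2 (Or.inl (Or.inr h))
    have h4 : ¬ (((rgt ((p, q), i)).2 = x.2 ∧ (rgt ((p, q), i)).1 ≤ x.1) ∨
        ((rgt ((p, q), i)).2 = y.2 ∧ y.1 ≤ (rgt ((p, q), i)).1)) := fun h => h2 (Or.inr (Or.inr h))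
    simp only [Set.mem_ofPred_eq] at h1
    simp only [Set.mem_prod, Set.mem_Icc, Set.mem_univ, and_true]
    clear h2
    fin_cases i <;> simp only [lft_eq, rgt_eq, Fin.zero_eta, Fin.mk_one, Fin.reduceFinMk,
      Matrix.cons_val_zero, Matrix.cons_val_one, Matrix.cons_val] at h1 h3 h4 <;> omega
  · refine Set.infinite_of_injective_forall_mem (f := fun n : ℕ => ((x'.1, b + 1 + n) : Site))
      (fun m n h => by simpa using h) fun n => ⟨Or.inr (Or.inl ⟨rfl, ?_⟩), ?_⟩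
    · simp only
      omega
    · simp only [Set.mem_ofPred_eq]
      omega
  · refine Set.infinite_of_injective_forall_mem (f := fun n : ℕ => ((y'.1, -1 - n) : Site))
      (fun m n h => by simpa using h) fun n => ⟨Or.inr (Or.inr ⟨rfl, ?_⟩), ?_⟩
    · simp only
      omega
    · simp only [Set.mem_ofPred_eq]
      omega

/-- the part of a path between its last visit to `A` and the next visit to `B` -/
theorem RSW1_extract {X Z A B : Set Site} {P Q : Site → Prop}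
    (hX : ∀ w ∈ X, w ∈ A ∨ w ∈ Z ∨ w ∈ B) (hAB : ∀ z ∈ A, ∀ w ∈ B, ¬ tri.Adj z w)
    (hA : ∀ z ∈ A, ∀ w ∈ Z, tri.Adj z w → P w) (hB : ∀ z ∈ Z, ∀ w ∈ B, tri.Adj z w → Q z)
    {a b : Site} (h : Jn X a b) (ha : a ∈ A) (hb : b ∉ A) (hb' : b ∉ Z) :
    ∃ x y, x ∈ Z ∧ P x ∧ Q y ∧ Jn Z x y := by
  have key : b ∈ A ∨ (∃ x, x ∈ Z ∧ P x ∧ Jn Z x b) ∨ ∃ x y, x ∈ Z ∧ P x ∧ Q y ∧ Jn Z x y := by
    clear hb hb'
    induction h with
    | refl => exact Or.inl ha
    | @tail z w _ h2 ih =>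
      rcases ih with ih | ⟨x, hx, hP, hJ⟩ | ih
      · rcases hX w h2.2.1 with hw | hw | hw
        · exact Or.inl hw
        · exact Or.inr (Or.inl ⟨w, hw, hA z ih w hw h2.2.2, Jn.refl _ _⟩)
        · exact absurd h2.2.2 (hAB z ih w hw)
      · rcases hX w h2.2.1 with hw | hw | hw
        · exact Or.inl hw
        · exact Or.inr (Or.inl ⟨x, hx, hP, hJ.trans (Jn.single (hJ.mem hx) hw h2.2.2)⟩)
        · exact Or.inr (Or.inr ⟨x, z, hx, hP, hB z (hJ.mem hx) w hw h2.2.2, hJ⟩)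
      · exact Or.inr (Or.inr ih)
  rcases key with k | ⟨x, hx, -, hJ⟩ | k
  · exact absurd k hb
  · exact absurd (hJ.mem hx) hb'
  · exact k

theorem RSW1_finite_nb (D : Finset Site) : (Nb D).Finite := by
  refine (D.finite_toSet.biUnion fun y _ => finite_ball y 1).subset ?_
  rintro x (hx | ⟨y, hy, h⟩)
  · exact Set.mem_biUnion hx (by simp)
  · exact Set.mem_biUnion hy (dst_adj h).le

theorem RSW1_nb_row {lo hi b : ℤ} {z : Site} (h : z ∈ Nb (rect lo hi b)) :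
    -1 ≤ z.2 ∧ z.2 ≤ b + 1 := by
  rcases h with h | ⟨y, hy, h⟩
  · have := mem_rect.1 h
    omega
  · have := mem_rect.1 hy
    have := RSW1_adj.1 h
    omega

/-- the top left corner -/
theorem RSW1_corner {lo hi b : ℤ} {t : Tri} {q k l : Fin 3} (hq : vtx t q ∈ rect lo hi b)
    (hk : (vtx t k).2 = b + 1) (hl : (vtx t l).2 ≤ b) (hl' : 2 * (vtx t l).1 + (vtx t l).2 < lo) :
    t = (((lo - b + 1) / 2 - 1, b), true) := by
  have hq := mem_rect.1 hq
  obtain ⟨⟨i, j⟩, c⟩ := t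
  fin_cases q <;> fin_cases k <;> fin_cases l <;> cases c <;>
    simp [vtx, sg] at hq hk hl hl' ⊢ <;> omega

/-- colour the outside (left and right blue, top and bottom yellow), follow the wall from one corner
(`exists_mate`, `isOdd_res`, `hex_side`) -/
theorem LR_or_TB {lo hi b : ℤ} (h : lo + 2 ≤ hi) (hb : 0 ≤ b) (S : Finset Site) :
    LR lo hi b (S : Set Site)ᶜ ∨ TB lo hi b S := by
  set D := rect lo hi b with hD
  let S' : Finset Site :=
    S ∩ D ∪ (RSW1_finite_nb D).toFinset.filter fun z => z.2 = b + 1 ∨ z.2 = -1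
  have hS' : ∀ z ∈ Nb D, z ∈ S' ↔ (z ∈ S ∧ z ∈ D) ∨ z.2 = b + 1 ∨ z.2 = -1 := fun z hz => by
    simp [S', hz]
  let u : Tri := (((lo - b + 1) / 2 - 1, b), true)
  have u0 : vtx u 0 = ((lo - b + 1) / 2 - 1, b) := rfl
  have u1 : vtx u 1 = ((lo - b + 1) / 2, b) := by simp [u, vtx, sg]
  have u2 : vtx u 2 = ((lo - b + 1) / 2 - 1, b + 1) := by simp [u, vtx, sg]
  have d1 : vtx u 1 ∈ D := by
    rw [u1, mem_rect]
    simp only
    omega
  have hu : TT u D := ⟨1, d1⟩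
  have d0 : vtx u 0 ∉ D := by
    rw [u0, mem_rect]
    simp only
    omega
  have d2 : vtx u 2 ∉ D := by
    rw [u2, mem_rect]
    simp only
    omega
  have s0 : vtx u 0 ∉ S' := by
    rw [hS' _ (RSW1_vtx_nb hu 0)]
    rintro (h1 | h1)
    · exact d0 h1.2
    · rw [u0] at h1
      simp only at h1
      omega
  have s2 : vtx u 2 ∈ S' := (hS' _ (RSW1_vtx_nb hu 2)).2 (Or.inr (Or.inl (by rw [u2])))
  have hodd : IsOdd (res (bd S') D) u :=
    (isOdd_res (Or.inl (not_isOdd_bd S' u))).2 ⟨1, d1, d2, d0, side_mem_bd.2 fun e => s0 (e.1 s2)⟩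
  obtain ⟨u', ho, hne, hc, -⟩ :=
    exists_mate ((simple_bd S').mono (Finset.filter_subset _ _)) hodd
  obtain ⟨q, hq, hq1, hq2, hq3⟩ := (isOdd_res (Or.inl (not_isOdd_bd S' u'))).1 ho
  have hu' : TT u' D := ⟨q, hq⟩
  obtain ⟨k, l, hk, hk', hl, hl'⟩ : ∃ k l, vtx u' k ∈ S' ∧ vtx u' k ∉ D ∧ vtx u' l ∉ S' ∧
      vtx u' l ∉ D := by
    have := side_mem_bd.1 hq3
    by_cases e : vtx u' (q + 1) ∈ S'
    · exact ⟨q + 1, q + 2, e, hq1, by tauto, hq2⟩
    · exact ⟨q + 2, q + 1, by tauto, hq2, e, hq1⟩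
  have k1 : (vtx u' k).2 = b + 1 ∨ (vtx u' k).2 = -1 :=
    ((hS' _ (RSW1_vtx_nb hu' k)).1 hk).resolve_left fun e => hk' e.2
  have l1 : ¬ ((vtx u' l).2 = b + 1 ∨ (vtx u' l).2 = -1) := fun e =>
    hl ((hS' _ (RSW1_vtx_nb hu' l)).2 (Or.inr e))
  have l2 := RSW1_nb_row (RSW1_vtx_nb hu' l)
  have l3 := mt mem_rect.2 hl'
  by_cases c1 : (vtx u' k).2 = -1
  · right
    refine RSW1_extract (Z := (S : Set Site) ∩ D) (A := {z | z.2 = b + 1}) (B := {z | z.2 = -1})
      (P := fun x => x.2 = b) (Q := fun y => y.2 = 0) ?_ ?_ ?_ ?_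
      ((hex_side hc hu 2 k).1 s2 hk) (by rw [u2]; rfl) ?_ fun e => hk' e.2
    · intro w hw
      rcases (hS' w hw.1).1 hw.2 with e | e | e
      · exact Or.inr (Or.inl e)
      · exact Or.inl e
      · exact Or.inr (Or.inr e)
    · intro z hz w hw e
      have := RSW1_adj.1 e
      simp only [Set.mem_ofPred_eq] at hz hw
      omega
    · intro z hz w hw e
      have := RSW1_adj.1 e
      have := mem_rect.1 hw.2
      simp only [Set.mem_ofPred_eq] at hz
      omega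
    · intro z hz w hw e
      have := RSW1_adj.1 e
      have := mem_rect.1 hz.2
      simp only [Set.mem_ofPred_eq] at hw
      omega
    · simp only [Set.mem_ofPred_eq]
      omega
  · by_cases c2 : 2 * (vtx u' l).1 + (vtx u' l).2 < lo
    · exact absurd (RSW1_corner hq (k1.resolve_right c1) (by omega) c2) hne
    · left
      refine RSW1_extract (Z := (S : Set Site)ᶜ ∩ D) (A := {z | 2 * z.1 + z.2 < lo})
        (B := {z | hi < 2 * z.1 + z.2}) (P := fun x => 2 * x.1 + x.2 ≤ lo + 1)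
        (Q := fun y => hi - 1 ≤ 2 * y.1 + y.2) ?_ ?_ ?_ ?_
        ((hex_side hc hu 0 l).2 s0 hl) ?_ c2 fun e => hl' e.2
      · intro w hw
        have e1 := mt (hS' w hw.1).2 hw.2
        have e2 := RSW1_nb_row hw.1
        by_cases e3 : w ∈ D
        · exact Or.inr (Or.inl ⟨fun e => e1 (Or.inl ⟨e, e3⟩), e3⟩)
        · have e4 := mt mem_rect.2 e3
          have e5 : ¬ (w.2 = b + 1 ∨ w.2 = -1) := fun e => e1 (Or.inr e)
          by_cases e6 : 2 * w.1 + w.2 < lo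
          · exact Or.inl e6
          · refine Or.inr (Or.inr ?_)
            simp only [Set.mem_ofPred_eq]
            omega
      · intro z hz w hw e
        have := RSW1_adj.1 e
        simp only [Set.mem_ofPred_eq] at hz hw
        omega
      · intro z hz w _ e
        have := RSW1_adj.1 e
        simp only [Set.mem_ofPred_eq] at hz
        omega
      · intro z _ w hw e
        have := RSW1_adj.1 e
        simp only [Set.mem_ofPred_eq] at hw
        omega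
      · rw [u0]
        simp only [Set.mem_ofPred_eq]
        omega

/-- probability of a blue crossing -/
def tauR (a b : ℕ) : ℝ :=
  pr (rect 0 (2 * a) b).powerset fun S => LR 0 (2 * a) b (S : Set Site)ᶜ

theorem RSW1_mS_rect (c lo hi b : ℤ) :
    (trA (c, 0)).mS (rect lo hi b) = rect (2 * c + lo) (2 * c + hi) b := by
  ext x
  obtain ⟨y, rfl⟩ := (trA (c, 0)).fS.surjective x
  rw [Aut.mS, Finset.mem_map_equiv, Equiv.symm_apply_apply, mem_rect, mem_rect, trA_apply]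
  simp only [Prod.fst_add, Prod.snd_add]
  omega

theorem RSW1_LR_shift (c lo hi b : ℤ) (S : Finset Site) :
    LR (2 * c + lo) (2 * c + hi) b ((trA (c, 0)).mS S : Set Site)ᶜ ↔
      LR lo hi b (S : Set Site)ᶜ := by
  have e : ((trA (c, 0)).mS S : Set Site)ᶜ ∩ rect (2 * c + lo) (2 * c + hi) b =
      (trA (c, 0)).fS '' ((S : Set Site)ᶜ ∩ rect lo hi b) := by
    rw [← RSW1_mS_rect, Set.image_inter (trA (c, 0)).fS.injective,
      Set.image_compl_eq (trA (c, 0)).fS.bijective, Aut.coe_mS, Aut.coe_mS]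
  rw [LR, LR, e]
  constructor
  · rintro ⟨x, y, hx, h1, h2, hJ⟩
    obtain ⟨x, rfl⟩ := (trA (c, 0)).fS.surjective x
    obtain ⟨y, rfl⟩ := (trA (c, 0)).fS.surjective y
    rw [trA_apply] at h1 h2
    simp only [Prod.fst_add, Prod.snd_add] at h1 h2
    exact ⟨x, y, ((trA (c, 0)).fS.injective.mem_set_image).1 hx, by omega, by omega,
      (trA (c, 0)).jn_iff.1 hJ⟩
  · rintro ⟨x, y, hx, h1, h2, hJ⟩
    refine ⟨(trA (c, 0)).fS x, (trA (c, 0)).fS y, Set.mem_image_of_mem _ hx, ?_, ?_,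
      (trA (c, 0)).jn_iff.2 hJ⟩
    · rw [trA_apply]
      simp only [Prod.fst_add, Prod.snd_add]
      omega
    · rw [trA_apply]
      simp only [Prod.fst_add, Prod.snd_add]
      omega

theorem RSW1_pr_restrict {A D : Finset Site} (h : A ⊆ D) (P : Finset Site → Prop) :
    pr D.powerset (fun S => P (S ∩ A)) = pr A.powerset P :=
  avg_restrict h fun S => if P S then (1 : ℝ) else 0

theorem tauR_shift (a b : ℕ) (c : ℤ) {D : Finset Site} (hD : rect (2 * c) (2 * c + 2 * a) b ⊆ D) :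
    pr D.powerset (fun S => LR (2 * c) (2 * c + 2 * a) b (S : Set Site)ᶜ) = tauR a b := by
  have e1 : pr D.powerset (fun S => LR (2 * c) (2 * c + 2 * a) b (S : Set Site)ᶜ) =
      pr (rect (2 * c) (2 * c + 2 * a) b).powerset
        (fun S => LR (2 * c) (2 * c + 2 * a) b (S : Set Site)ᶜ) := by
    rw [← RSW1_pr_restrict hD]
    refine pr_congr fun S _ => ?_
    have e : (S : Set Site)ᶜ ∩ rect (2 * c) (2 * c + 2 * a) b =
        ((S ∩ rect (2 * c) (2 * c + 2 * a) b : Finset Site) : Set Site)ᶜ ∩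
          rect (2 * c) (2 * c + 2 * a) b := by
      ext z
      simp only [Set.mem_inter_iff, Set.mem_compl_iff, Finset.mem_coe, Finset.mem_inter]
      tauto
    rw [LR, LR, e]
  have e2 := RSW1_mS_rect c 0 (2 * a) b
  rw [add_zero] at e2
  rw [e1, ← e2, ← pr_bij _ ((trA (c, 0)).bijOn_powerset _), tauR]
  refine pr_congr fun S _ => ?_
  have := RSW1_LR_shift c 0 (2 * a) b S
  rwa [add_zero] at this

/-- the left side of the long rectangle is joined to the right half of its bottom row -/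
def LBR (a b : ℕ) (Y : Set Site) : Prop :=
  ∃ x y : Site, x ∈ Y ∩ rect (-2 * a) (2 * a) b ∧ 2 * x.1 + x.2 ≤ -2 * a + 1 ∧ y.2 = 0 ∧ 0 ≤ y.1 ∧
    Jn (Y ∩ rect (-2 * a) (2 * a) b) x y

end Pool.Agent.TAF.U
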