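import Pool.Agent.P.MP_cb4022_pr.U.RSW1

/-! Russo-Seymour-Welsh, part 2: reflection argument (paper B2). -/

open scoped Classical symmDiff

noncomputable section

namespace Pool.Agent.TAF.U

theorem RSW2_adj {u v : Site} : tri.Adj u v ↔
    (v.1 = u.1 + 1 ∧ v.2 = u.2) ∨ (v.1 = u.1 - 1 ∧ v.2 = u.2) ∨ (v.1 = u.1 ∧ v.2 = u.2 + 1) ∨
      (v.1 = u.1 ∧ v.2 = u.2 - 1) ∨ (v.1 = u.1 + 1 ∧ v.2 = u.2 - 1) ∨
      (v.1 = u.1 - 1 ∧ v.2 = u.2 + 1) := by
  obtain ⟨a, b⟩ := u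
  obtain ⟨c, d⟩ := v
  simp only [tri, Prod.mk_sub_mk, Finset.mem_insert, Finset.mem_singleton, Prod.mk.injEq]
  omega

theorem RSW2_map {f : Site → Site} (hf : ∀ u v, tri.Adj u v → tri.Adj (f u) (f v))
    {X Y : Set Site} (h : ∀ x ∈ X, f x ∈ Y) {a b : Site} (hj : Jn X a b) : Jn Y (f a) (f b) := by
  induction hj with
  | refl => exact Jn.refl _ _
  | tail _ h' ih => exact ih.trans (Jn.single (h _ h'.1) (h _ h'.2.1) (hf _ _ h'.2.2))

/-- a path stays in the component of its start -/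
theorem RSW2_comp {X : Set Site} {a b : Site} (hj : Jn X a b) :
    Jn {z | z ∈ X ∧ Jn X a z} a b := by
  induction hj with
  | refl => exact Jn.refl _ _
  | tail h0 h ih =>
    exact ih.trans (Jn.single ⟨h.1, h0⟩ ⟨h.2.1, h0.trans (Jn.single h.1 h.2.1 h.2.2)⟩ h.2.2)

/-- the mirror -/
def RSW2_m (x : Site) : Site := (-x.1 - x.2, x.2)

theorem RSW2_mm (x : Site) : RSW2_m (RSW2_m x) = x := by
  ext <;> simp [RSW2_m]

theorem RSW2_m_adj (u v : Site) (h : tri.Adj u v) : tri.Adj (RSW2_m u) (RSW2_m v) := by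
  rw [RSW2_adj] at h ⊢
  simp only [RSW2_m]
  omega

theorem RSW2_m_fix {x : Site} (h : 2 * x.1 + x.2 = 0) : RSW2_m x = x := by
  ext
  · simp only [RSW2_m]
    omega
  · rfl

theorem RSW2_m_rect {c b : ℤ} {x : Site} (h : x ∈ rect (-2 * c) (2 * c) b) :
    RSW2_m x ∈ rect (-2 * c) (2 * c) b := by
  rw [mem_rect] at h ⊢
  simp only [RSW2_m]
  omega

/-- the rectangle with one more row below -/
def RSW2_R (lo hi b : ℤ) : Set Site :=
  {x | -1 ≤ x.2 ∧ x.2 ≤ b ∧ lo ≤ 2 * x.1 + x.2 ∧ 2 * x.1 + x.2 ≤ hi}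

theorem RSW2_up_adj (u v : Site) (h : tri.Adj u v) : tri.Adj (u.1, u.2 + 1) (v.1, v.2 + 1) := by
  rw [RSW2_adj] at h ⊢
  simp only
  omega

theorem RSW2_dn_adj (u v : Site) (h : tri.Adj u v) : tri.Adj (u.1, u.2 - 1) (v.1, v.2 - 1) := by
  rw [RSW2_adj] at h ⊢
  simp only
  omega

theorem RSW2_hex {lo hi b : ℤ} (h : lo + 2 ≤ hi) (hb : 0 ≤ b) (B : Set Site) :
    (∃ x y : Site, x ∈ B ∩ RSW2_R lo hi b ∧ 2 * x.1 + x.2 ≤ lo + 1 ∧ hi - 1 ≤ 2 * y.1 + y.2 ∧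
      Jn (B ∩ RSW2_R lo hi b) x y) ∨
    ∃ x y : Site, x ∈ Bᶜ ∩ RSW2_R lo hi b ∧ x.2 = b ∧ y.2 = -1 ∧
      Jn (Bᶜ ∩ RSW2_R lo hi b) x y := by
  have hR : ∀ x : Site, x ∈ rect (lo + 1) (hi + 1) (b + 1) → (x.1, x.2 - 1) ∈ RSW2_R lo hi b :=
    fun x hx => by
      rw [mem_rect] at hx
      simp only [RSW2_R, Set.mem_ofPred_eq]
      omega
  rcases LR_or_TB (lo := lo + 1) (hi := hi + 1) (b := b + 1) (by omega) (by omega)
    ((rect (lo + 1) (hi + 1) (b + 1)).filter fun x => (x.1, x.2 - 1) ∉ B) with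
    ⟨x, y, h1, h2, h3, h4⟩ | ⟨x, y, h1, h2, h3, h4⟩
  · have key : ∀ z ∈ (((rect (lo + 1) (hi + 1) (b + 1)).filter fun x => (x.1, x.2 - 1) ∉ B :
        Finset Site) : Set Site)ᶜ ∩ rect (lo + 1) (hi + 1) (b + 1),
        (z.1, z.2 - 1) ∈ B ∩ RSW2_R lo hi b := fun z hz =>
      ⟨by_contra fun hn => hz.1 (Finset.mem_filter.2 ⟨hz.2, hn⟩), hR z hz.2⟩
    exact Or.inl ⟨_, _, key x h1, by simp only; omega, by simp only; omega,
      RSW2_map RSW2_dn_adj key h4⟩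
  · have key : ∀ z ∈ (((rect (lo + 1) (hi + 1) (b + 1)).filter fun x => (x.1, x.2 - 1) ∉ B :
        Finset Site) : Set Site) ∩ rect (lo + 1) (hi + 1) (b + 1),
        (z.1, z.2 - 1) ∈ Bᶜ ∩ RSW2_R lo hi b := fun z hz =>
      ⟨(Finset.mem_filter.1 hz.1).2, hR z hz.2⟩
    exact Or.inr ⟨_, _, key x h1, by simp only; omega, by simp only; omega,
      RSW2_map RSW2_dn_adj key h4⟩

theorem RSW2_cross {lo hi b : ℤ} {Y Y' : Set Site} (hd : Disjoint Y Y') {x y x' y' : Site}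
    (h1 : x ∈ Y ∩ RSW2_R lo hi b) (h2 : 2 * x.1 + x.2 ≤ lo + 1) (h3 : hi - 1 ≤ 2 * y.1 + y.2)
    (h4 : Jn (Y ∩ RSW2_R lo hi b) x y) (k1 : x' ∈ Y' ∩ RSW2_R lo hi b) (k2 : x'.2 = b)
    (k3 : y'.2 = -1) (k4 : Jn (Y' ∩ RSW2_R lo hi b) x' y') : False := by
  have key : ∀ Z : Set Site, ∀ z ∈ Z ∩ RSW2_R lo hi b, (z.1, z.2 + 1) ∈
      (fun x : Site => (x.1, x.2 - 1)) ⁻¹' Z ∩ rect (lo + 1) (hi + 1) (b + 1) := fun Z z hz => by
    refine ⟨by simpa using hz.1, ?_⟩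
    have h5 := hz.2
    simp only [RSW2_R, Set.mem_ofPred_eq] at h5
    rw [Finset.mem_coe, mem_rect]
    simp only
    omega
  exact not_LR_TB (lo := lo + 1) (hi := hi + 1) (b := b + 1)
    (hd.preimage fun x : Site => (x.1, x.2 - 1))
    ⟨_, _, key Y x h1, by simp only; omega, by simp only; omega, RSW2_map RSW2_up_adj (key Y) h4⟩
    ⟨_, _, key Y' x' k1, by simp only; omega, by simp only; omega,
      RSW2_map RSW2_up_adj (key Y') k4⟩

/-- the yellow sites of the left half that are joined to its top row -/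
def RSW2_W (a b : ℕ) (S : Finset Site) : Set Site :=
  {x | ∃ t : Site, t.2 = b ∧ t ∈ (S : Set Site) ∩ rect (-2 * a) 0 b ∧
    Jn ((S : Set Site) ∩ rect (-2 * a) 0 b) t x}

/-- the explored set -/
def RSW2_X (a b : ℕ) (W : Set Site) : Set Site :=
  {x | x ∈ rect (-2 * a) 0 b ∧ (x ∈ W ∨ x.2 = b ∨ ∃ w ∈ W, tri.Adj w x)}

/-- the fresh sites -/
def RSW2_F (a b : ℕ) (X : Set Site) : Finset Site :=
  (rect (-2 * a) (2 * a) b).filter fun x => x ∉ X ∧ RSW2_m x ∉ X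

/-- the left margin -/
def RSW2_M (a b : ℕ) : Set Site := {x | 0 ≤ x.2 ∧ x.2 ≤ b ∧ 2 * x.1 + x.2 < -2 * a}

/-- the blue sites of the auxiliary colouring -/
def RSW2_B (a b : ℕ) (X : Set Site) (S : Finset Site) : Set Site :=
  {x | (x ∈ X ∨ x ∈ RSW2_M a b) ∨ (x.2 < 0 ∧ 0 ≤ 2 * x.1 + x.2) ∨ (x ∈ RSW2_F a b X ∧ x ∉ S)}

/-- the auxiliary crossing event -/
def RSW2_A (a b : ℕ) (X : Set Site) (S : Finset Site) : Prop :=
  ∃ x y : Site, (x ∈ X ∨ x ∈ RSW2_M a b) ∧ y.2 < 0 ∧ Jn (RSW2_B a b X S) x y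

/-- mirror and colour flip -/
def RSW2_fl (F S : Finset Site) : Finset Site := F.filter fun x => RSW2_m x ∉ S

section
variable {a b : ℕ} {S S' : Finset Site} {x : Site}

theorem RSW2_W_mem (h : x ∈ RSW2_W a b S) : x ∈ S ∧ x ∈ rect (-2 * a) 0 b := by
  obtain ⟨t, -, h1, h2⟩ := h
  exact h2.mem h1

theorem RSW2_W_top (h1 : x ∈ S) (h2 : x ∈ rect (-2 * a) 0 b) (h3 : x.2 = b) :
    x ∈ RSW2_W a b S := ⟨x, h3, ⟨h1, h2⟩, Jn.refl _ _⟩

theorem RSW2_W_step {w : Site} (hw : w ∈ RSW2_W a b S) (h1 : x ∈ S) (h2 : x ∈ rect (-2 * a) 0 b)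
    (h3 : tri.Adj w x) : x ∈ RSW2_W a b S := by
  have h4 := RSW2_W_mem hw
  obtain ⟨t, k1, k2, k3⟩ := hw
  exact ⟨t, k1, k2, k3.trans (Jn.single h4 ⟨h1, h2⟩ h3)⟩

theorem RSW2_W_path (h : x ∈ RSW2_W a b S) :
    ∃ t : Site, t.2 = b ∧ t ∈ RSW2_W a b S ∧ Jn (RSW2_W a b S) t x := by
  obtain ⟨t, k1, k2, k3⟩ := h
  exact ⟨t, k1, ⟨t, k1, k2, Jn.refl _ _⟩,
    Jn.mono (Y := RSW2_W a b S) (fun z hz => ⟨t, k1, k2, hz.2⟩) (RSW2_comp k3)⟩

theorem RSW2_W_X (h : x ∈ RSW2_W a b S) : x ∈ RSW2_X a b (RSW2_W a b S) :=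
  ⟨(RSW2_W_mem h).2, Or.inl h⟩

theorem RSW2_blue (h : x ∈ RSW2_X a b (RSW2_W a b S)) (h' : x ∉ RSW2_W a b S) : x ∉ S := by
  intro hS
  rcases h.2 with h1 | h1 | ⟨w, hw, h1⟩
  · exact h' h1
  · exact h' (RSW2_W_top hS h.1 h1)
  · exact h' (RSW2_W_step hw hS h.1 h1)

/-- stopping property -/
theorem RSW2_stop (h : ∀ x ∈ RSW2_X a b (RSW2_W a b S), x ∈ S' ↔ x ∈ S) :
    RSW2_W a b S' = RSW2_W a b S := by
  ext x
  constructor
  · rintro ⟨t, k1, k2, k3⟩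
    induction k3 with
    | refl => exact RSW2_W_top ((h t ⟨k2.2, Or.inr (Or.inl k1)⟩).1 k2.1) k2.2 k1
    | tail _ h' ih =>
      exact RSW2_W_step ih ((h _ ⟨h'.2.1.2, Or.inr (Or.inr ⟨_, ih, h'.2.2⟩)⟩).1 h'.2.1.1)
        h'.2.1.2 h'.2.2
  · intro hx
    obtain ⟨t, k1, k2, k3⟩ := RSW2_W_path hx
    have key : RSW2_W a b S ⊆ (S' : Set Site) ∩ rect (-2 * a) 0 b := fun z hz =>
      ⟨(h z (RSW2_W_X hz)).2 (RSW2_W_mem hz).1, (RSW2_W_mem hz).2⟩
    exact ⟨t, k1, key k2, k3.mono key⟩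

theorem RSW2_F_mem {X : Set Site} : x ∈ RSW2_F a b X ↔
    x ∈ rect (-2 * a) (2 * a) b ∧ x ∉ X ∧ RSW2_m x ∉ X := Finset.mem_filter

theorem RSW2_F_m {X : Set Site} (h : x ∈ RSW2_F a b X) : RSW2_m x ∈ RSW2_F a b X := by
  rw [RSW2_F_mem] at h ⊢
  exact ⟨RSW2_m_rect h.1, h.2.2, by rw [RSW2_mm]; exact h.2.1⟩

theorem RSW2_L_sub (h : x ∈ rect (-2 * a) 0 b) : x ∈ rect (-2 * a) (2 * a) b := by
  rw [mem_rect] at h ⊢
  omega

/-- one of the two auxiliary crossings -/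
theorem RSW2_or (W : Set Site) (S : Finset Site) : RSW2_A a b (RSW2_X a b W) S ∨
    RSW2_A a b (RSW2_X a b W) (RSW2_fl (RSW2_F a b (RSW2_X a b W)) S) := by
  have hX : ∀ z ∈ RSW2_X a b W, z ∈ rect (-2 * a) (2 * a) b := fun z hz => RSW2_L_sub hz.1
  have hT : ∀ z : Site, z.2 = b → -2 * a ≤ 2 * z.1 + z.2 → 2 * z.1 + z.2 ≤ 0 →
      z ∈ RSW2_X a b W := fun z h1 h2 h3 =>
    ⟨mem_rect.2 ⟨by omega, by omega, h2, h3⟩, Or.inr (Or.inl h1)⟩
  generalize RSW2_X a b W = X at hX hT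
  rcases RSW2_hex (lo := -2 * a - 2) (hi := 2 * a + 2) (b := b) (by omega) (by omega)
    (RSW2_B a b X S) with ⟨x, y, h1, h2, h3, h4⟩ | ⟨x, y, h1, h2, h3, h4⟩
  · refine Or.inl ⟨x, y, ?_, ?_, h4.mono Set.inter_subset_left⟩
    · rcases h1.1 with h | h | h
      · exact h
      · omega
      · have := mem_rect.1 (RSW2_F_mem.1 h.1).1
        omega
    · rcases (h4.mem h1).1 with (h | h) | h | h
      · have := mem_rect.1 (hX y h)
        omega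
      · have := h.2.2
        omega
      · exact h.1
      · have := mem_rect.1 (RSW2_F_mem.1 h.1).1
        omega
  · refine Or.inr ⟨RSW2_m x, RSW2_m y, ?_, by simp only [RSW2_m]; omega,
      RSW2_map RSW2_m_adj (fun z hz => ?_) h4⟩
    · have k1 : ¬ 2 * x.1 + x.2 < -2 * a := fun h =>
        h1.1 (Or.inl (Or.inr ⟨by omega, by omega, h⟩))
      have k2 : ¬ 2 * x.1 + x.2 ≤ 0 := fun h => h1.1 (Or.inl (Or.inl (hT x h2 (by omega) h)))
      by_cases k3 : 2 * x.1 + x.2 ≤ 2 * a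
      · exact Or.inl (hT _ h2 (by simp only [RSW2_m]; omega) (by simp only [RSW2_m]; omega))
      · refine Or.inr ?_
        simp only [RSW2_M, RSW2_m, Set.mem_ofPred_eq]
        omega
    · obtain ⟨k0, k1, k2, k3, k4⟩ := hz
      by_cases c1 : z.2 < 0
      · have k5 : ¬ 0 ≤ 2 * z.1 + z.2 := fun h => k0 (Or.inr (Or.inl ⟨c1, h⟩))
        refine Or.inr (Or.inl ?_)
        simp only [RSW2_m]
        omega
      · by_cases c2 : 2 * a < 2 * z.1 + z.2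
        · refine Or.inl (Or.inr ?_)
          simp only [RSW2_M, RSW2_m, Set.mem_ofPred_eq]
          omega
        · by_cases c3 : RSW2_m z ∈ X
          · exact Or.inl (Or.inl c3)
          · have k5 : ¬ 2 * z.1 + z.2 < -2 * a := fun h =>
              k0 (Or.inl (Or.inr ⟨by omega, k2, h⟩))
            have k6 : z ∈ RSW2_F a b X := RSW2_F_mem.2 ⟨mem_rect.2 ⟨by omega, k2, by omega,
              by omega⟩, fun h => k0 (Or.inl (Or.inl h)), c3⟩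
            refine Or.inr (Or.inr ⟨RSW2_F_m k6, fun h => ?_⟩)
            have k7 := (Finset.mem_filter.1 h).2
            rw [RSW2_mm] at k7
            exact k0 (Or.inr (Or.inr ⟨k6, k7⟩))

theorem RSW2_fl_bij {F : Finset Site} (hF : ∀ x ∈ F, RSW2_m x ∈ F) :
    Set.BijOn (RSW2_fl F) F.powerset F.powerset := by
  have h1 : Set.MapsTo (RSW2_fl F) F.powerset F.powerset := fun S _ =>
    Finset.mem_coe.2 (Finset.mem_powerset.2 (Finset.filter_subset _ _))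
  have h2 : Set.LeftInvOn (RSW2_fl F) (RSW2_fl F) F.powerset := fun S hS => by
    have h3 := Finset.mem_powerset.1 (Finset.mem_coe.1 hS)
    ext x
    simp only [RSW2_fl, Finset.mem_filter, RSW2_mm]
    exact ⟨fun h => by_contra fun hn => h.2 ⟨hF x h.1, hn⟩, fun h => ⟨h3 h, fun h' => h'.2 h⟩⟩
  exact Set.InvOn.bijOn ⟨h2, h2⟩ h1 h1

theorem RSW2_half (W : Set Site) (S : Finset Site) :
    1 / 2 ≤ pr (RSW2_F a b (RSW2_X a b W)).powerset
      fun T => RSW2_A a b (RSW2_X a b W) (S ∆ T) := by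
  have h1 := RSW2_or (a := a) (b := b) W
  generalize RSW2_X a b W = X at h1
  have e1 : pr (RSW2_F a b X).powerset (fun T => RSW2_A a b X (S ∆ T)) =
      pr (RSW2_F a b X).powerset (RSW2_A a b X) := by
    refine Eq.trans (pr_congr fun T _ => ?_) (avg_shift (D := RSW2_F a b X)
      (S₀ := S ∩ RSW2_F a b X) Finset.inter_subset_right
      fun T => if RSW2_A a b X T then (1 : ℝ) else 0)
    have e2 : RSW2_B a b X (S ∆ T) = RSW2_B a b X (T ∆ (S ∩ RSW2_F a b X)) := by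
      refine Set.ext fun z => or_congr_right (or_congr_right
        (and_congr_right fun hz => not_congr ?_))
      rw [Finset.mem_symmDiff, Finset.mem_symmDiff, Finset.mem_inter, and_iff_left hz, or_comm]
    rw [RSW2_A, RSW2_A, e2]
  have e3 := pr_bij _ (RSW2_fl_bij (F := RSW2_F a b X) fun x hx => RSW2_F_m hx) (RSW2_A a b X)
  have e4 := pr_or (RSW2_F a b X).powerset (RSW2_A a b X)
    fun T => RSW2_A a b X (RSW2_fl (RSW2_F a b X) T)
  have e5 : pr (RSW2_F a b X).powerset (fun T => RSW2_A a b X T ∨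
      RSW2_A a b X (RSW2_fl (RSW2_F a b X) T)) = 1 :=
    (avg_congr fun T _ => if_pos (h1 T)).trans (avg_const (Finset.powerset_nonempty _) (1 : ℝ))
  rw [e1]
  linarith

/-- the blue crossing of the left half next to the explored yellow sites -/
theorem RSW2_gamma (ha : 1 ≤ a) (hW : ∀ w ∈ RSW2_W a b S, w.2 ≠ 0) :
    ∃ s e : Site, s ∈ RSW2_X a b (RSW2_W a b S) \ RSW2_W a b S ∧ 2 * s.1 + s.2 ≤ -2 * a + 1 ∧
      -1 ≤ 2 * e.1 + e.2 ∧ Jn (RSW2_X a b (RSW2_W a b S) \ RSW2_W a b S) s e := by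
  rcases LR_or_TB (lo := -2 * a) (hi := 0) (b := b) (by omega) (by omega)
    ((rect (-2 * a) 0 b).filter fun x => x ∉ RSW2_X a b (RSW2_W a b S) \ RSW2_W a b S) with
    ⟨x, y, h1, h2, h3, h4⟩ | ⟨x, y, h1, h2, h3, h4⟩
  · have key : (((rect (-2 * a) 0 b).filter fun x =>
        x ∉ RSW2_X a b (RSW2_W a b S) \ RSW2_W a b S : Finset Site) : Set Site)ᶜ ∩
        rect (-2 * a) 0 b ⊆ RSW2_X a b (RSW2_W a b S) \ RSW2_W a b S := fun z hz =>
      by_contra fun hn => hz.1 (Finset.mem_filter.2 ⟨hz.2, hn⟩)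
    exact ⟨x, y, key h1, h2, by omega, h4.mono key⟩
  · refine absurd h3 (hW y ?_)
    clear h3
    induction h4 with
    | refl =>
      exact by_contra fun hn => (Finset.mem_filter.1 h1.1).2 ⟨⟨h1.2, Or.inr (Or.inl h2)⟩, hn⟩
    | tail _ h' ih =>
      exact by_contra fun hn => (Finset.mem_filter.1 h'.2.1.1).2
        ⟨⟨h'.2.1.2, Or.inr (Or.inr ⟨_, ih, h'.2.2⟩)⟩, hn⟩

/-- the last visit of the auxiliary path to its source -/
theorem RSW2_last {X : Set Site} (hX : ∀ z ∈ X, 0 ≤ z.2) (h : RSW2_A a b X S) :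
    ∃ z : Site, z.2 = 0 ∧ 0 ≤ z.1 ∧ (z ∈ X ∨ ∃ x u : Site, (x ∈ X ∨ x ∈ RSW2_M a b) ∧
      u ∈ RSW2_F a b X \ S ∧ tri.Adj x u ∧ Jn (RSW2_F a b X \ S : Finset Site) u z) := by
  obtain ⟨x, y, h1, h2, h3⟩ := h
  by_contra hn
  have key : (y ∈ X ∨ y ∈ RSW2_M a b) ∨ ∃ x u : Site, (x ∈ X ∨ x ∈ RSW2_M a b) ∧
      u ∈ RSW2_F a b X \ S ∧ tri.Adj x u ∧ Jn (RSW2_F a b X \ S : Finset Site) u y := by
    clear h2
    induction h3 with
    | refl => exact Or.inl h1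
    | @tail z z' _ h' ih =>
      have hadj := RSW2_adj.1 h'.2.2
      rcases h'.2.1 with h | h | h
      · exact Or.inl h
      · refine absurd ?_ hn
        rcases ih with (k | k) | ⟨x', u, k1, k2, k3, k4⟩
        · have := hX z k
          exact ⟨z, by omega, by omega, Or.inl k⟩
        · obtain ⟨k1, k2, k3⟩ := k
          omega
        · have := mem_rect.1 (RSW2_F_mem.1 (Finset.mem_sdiff.1 (k4.mem k2)).1).1
          exact ⟨z, by omega, by omega, Or.inr ⟨x', u, k1, k2, k3, k4⟩⟩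
      · rcases ih with k | ⟨x', u, k1, k2, k3, k4⟩
        · exact Or.inr ⟨z, z', k, Finset.mem_sdiff.2 h, h'.2.2, Jn.refl _ _⟩
        · exact Or.inr ⟨x', u, k1, k2, k3,
            k4.trans (Jn.single (k4.mem k2) (Finset.mem_coe.2 (Finset.mem_sdiff.2 h)) h'.2.2)⟩
  rcases key with (k | k) | ⟨x', u, -, k2, -, k4⟩
  · have := hX y k
    omega
  · have := k.1
    omega
  · have := mem_rect.1 (RSW2_F_mem.1 (Finset.mem_sdiff.1 (k4.mem k2)).1).1
    omega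

/-- a blue explored site that is joined to the bottom row through fresh sites lies on the crossing -/
theorem RSW2_meet {s e z : Site} (hs : s ∈ RSW2_X a b (RSW2_W a b S) \ RSW2_W a b S)
    (h1 : 2 * s.1 + s.2 ≤ -2 * a + 1) (h2 : -1 ≤ 2 * e.1 + e.2)
    (h3 : Jn (RSW2_X a b (RSW2_W a b S) \ RSW2_W a b S) s e)
    (hx : x ∈ RSW2_X a b (RSW2_W a b S)) (hz : z.2 = 0)
    (hj : Jn (insert x (RSW2_F a b (RSW2_X a b (RSW2_W a b S)) : Set Site)) x z) :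
    Jn (RSW2_X a b (RSW2_W a b S) \ RSW2_W a b S) s x := by
  by_contra hn
  obtain ⟨γ, hγ⟩ : ∃ γ : Set Site, γ = {z | z ∈ RSW2_X a b (RSW2_W a b S) \ RSW2_W a b S ∧
    Jn (RSW2_X a b (RSW2_W a b S) \ RSW2_W a b S) s z} := ⟨_, rfl⟩
  have g1 : Jn γ s e := hγ ▸ RSW2_comp h3
  have g2 : s ∈ γ := hγ ▸ ⟨hs, Jn.refl _ _⟩
  have g3 : ∀ z ∈ γ, z ∈ RSW2_X a b (RSW2_W a b S) ∧ z ∉ RSW2_W a b S := fun z hz => (hγ ▸ hz).1
  have g4 : x ∉ γ := fun h => hn (hγ ▸ h).2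
  have g5 : ∀ z : Site, z ∈ rect (-2 * a) 0 b → RSW2_m z ∈ γ → z ∈ γ := fun z k1 k2 => by
    have k3 := mem_rect.1 (g3 _ k2).1.1
    have k4 := mem_rect.1 k1
    simp only [RSW2_m] at k3
    rwa [RSW2_m_fix (by omega)] at k2
  have s1 : γ ⊆ (γ ∪ RSW2_m ⁻¹' γ) ∩ rect (-2 * a) (2 * a) b := fun z hz =>
    ⟨Or.inl hz, RSW2_L_sub (g3 z hz).1.1⟩
  have s2 : ∀ z ∈ γ, RSW2_m z ∈ (γ ∪ RSW2_m ⁻¹' γ) ∩ rect (-2 * a) (2 * a) b := fun z hz =>
    ⟨Or.inr (by rw [Set.mem_preimage, RSW2_mm]; exact hz), RSW2_m_rect (RSW2_L_sub (g3 z hz).1.1)⟩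
  have he := g1.mem g2
  have s3 : Jn ((γ ∪ RSW2_m ⁻¹' γ) ∩ rect (-2 * a) (2 * a) b) e (RSW2_m e) := by
    have k1 := mem_rect.1 (g3 e he).1.1
    by_cases k2 : 2 * e.1 + e.2 = 0
    · rw [RSW2_m_fix k2]
      exact Jn.refl _ _
    · refine Jn.single (s1 he) (s2 e he) (RSW2_adj.2 ?_)
      dsimp only [RSW2_m]
      omega
  have t1 : RSW2_W a b S ⊆ (RSW2_W a b S ∪ insert x (RSW2_F a b (RSW2_X a b (RSW2_W a b S)) :
      Set Site)) ∩ rect (-2 * a) (2 * a) b := fun w hw =>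
    ⟨Or.inl hw, RSW2_L_sub (RSW2_W_mem hw).2⟩
  have t2 : insert x (RSW2_F a b (RSW2_X a b (RSW2_W a b S)) : Set Site) ⊆
      (RSW2_W a b S ∪ insert x (RSW2_F a b (RSW2_X a b (RSW2_W a b S)) : Set Site)) ∩
        rect (-2 * a) (2 * a) b := fun w hw => by
    refine ⟨Or.inr hw, ?_⟩
    rcases hw with rfl | hw
    · exact RSW2_L_sub hx.1
    · exact (RSW2_F_mem.1 hw).1
  have t3 := t2 (Set.mem_insert x _)
  refine not_LR_TB (lo := -2 * a) (hi := 2 * a) (b := b) (Y := γ ∪ RSW2_m ⁻¹' γ)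
    (Y' := RSW2_W a b S ∪ insert x (RSW2_F a b (RSW2_X a b (RSW2_W a b S)) : Set Site))
    (Set.disjoint_left.2 fun w k1 k2 => ?_)
    ⟨s, RSW2_m s, s1 g2, h1, by simp only [RSW2_m]; omega,
      ((g1.mono s1).trans s3).trans (RSW2_map RSW2_m_adj s2 g1).symm⟩ ?_
  · rcases k2 with k2 | rfl | k2
    · exact (g3 w (k1.elim id (g5 w (RSW2_W_mem k2).2))).2 k2
    · exact g4 (k1.elim id (g5 _ hx.1))
    · rcases k1 with k1 | k1
      · exact (RSW2_F_mem.1 k2).2.1 (g3 w k1).1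
      · exact (RSW2_F_mem.1 k2).2.2 (g3 _ k1).1
  · rcases hx.2 with k | k | ⟨w, hw, k⟩
    · obtain ⟨t, k1, k2, k3⟩ := RSW2_W_path k
      exact ⟨t, z, t1 k2, k1, hz, (k3.mono t1).trans (hj.mono t2)⟩
    · exact ⟨x, z, t3, k, hz, hj.mono t2⟩
    · obtain ⟨t, k1, k2, k3⟩ := RSW2_W_path hw
      exact ⟨t, z, t1 k2, k1, hz, ((k3.mono t1).trans (Jn.single (t1 hw) t3 k)).trans (hj.mono t2)⟩

/-- the auxiliary crossing gives the true crossing -/
theorem RSW2_true (ha : 1 ≤ a) (hW : ∀ w ∈ RSW2_W a b S, w.2 ≠ 0)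
    (h : RSW2_A a b (RSW2_X a b (RSW2_W a b S)) S) : LBR a b (S : Set Site)ᶜ := by
  obtain ⟨s, e, g1, g2, g3, g4⟩ := RSW2_gamma ha hW
  obtain ⟨z, z1, z2, z3⟩ := RSW2_last (fun z hz => (mem_rect.1 hz.1).1) h
  have s1 : RSW2_X a b (RSW2_W a b S) \ RSW2_W a b S ⊆
      (S : Set Site)ᶜ ∩ rect (-2 * a) (2 * a) b := fun w hw =>
    ⟨RSW2_blue hw.1 hw.2, RSW2_L_sub hw.1.1⟩
  have s2 : ((RSW2_F a b (RSW2_X a b (RSW2_W a b S)) \ S : Finset Site) : Set Site) ⊆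
      (S : Set Site)ᶜ ∩ rect (-2 * a) (2 * a) b := fun w hw =>
    ⟨(Finset.mem_sdiff.1 hw).2, (RSW2_F_mem.1 (Finset.mem_sdiff.1 hw).1).1⟩
  rcases z3 with k | ⟨x, u, k1 | k1, k2, k3, k4⟩
  · exact ⟨s, z, s1 g1, g2, z1, z2, (RSW2_meet g1 g2 g3 g4 k z1 (Jn.refl _ _)).mono s1⟩
  · have k5 := RSW2_F_mem.1 (Finset.mem_sdiff.1 k2).1
    have s3 : ((RSW2_F a b (RSW2_X a b (RSW2_W a b S)) \ S : Finset Site) : Set Site) ⊆
        insert x (RSW2_F a b (RSW2_X a b (RSW2_W a b S)) : Set Site) := fun w hw =>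
      Or.inr (Finset.mem_sdiff.1 hw).1
    have k6 := RSW2_meet g1 g2 g3 g4 k1 z1
      ((Jn.single (Set.mem_insert _ _) (s3 k2) k3).trans (k4.mono s3))
    exact ⟨s, z, s1 g1, g2, z1, z2, ((k6.mono s1).trans
      (Jn.single (s1 (k6.mem g1)) (s2 k2) k3)).trans (k4.mono s2)⟩
  · refine ⟨u, z, s2 k2, ?_, z1, z2, k4.mono s2⟩
    have k5 := k1.2.2
    have k6 := RSW2_adj.1 k3
    omega

end

/-- The reflection step of B2. `L = rect (-2a) 0 b`, mirror `(i, j) ↦ (-i - j, j)`,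
`W` the yellow sites of `L` joined to the top row in `L`, `X₀ = W ∪` neighbours in `L` `∪` top row
of `L`; resample the complement of `X₀ ∪ mirror X₀` with `markov_act`. If the blue path of the
auxiliary colouring misses `X₀` it starts on the left side and is truly blue. -/
theorem lbr_half {a b : ℕ} (ha : 1 ≤ a) (hb : 1 ≤ b) :
    tauR a b / 2 ≤ pr (rect (-2 * a) (2 * a) b).powerset fun S => LBR a b (S : Set Site)ᶜ := by
  have stop : ∀ S T : Finset Site, T ⊆ RSW2_F a b (RSW2_X a b (RSW2_W a b S)) →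
      RSW2_W a b (S ∆ T) = RSW2_W a b S := fun S T hT => RSW2_stop fun x hx => by
    have h1 : x ∉ T := fun h => (RSW2_F_mem.1 (hT h)).2.1 hx
    rw [Finset.mem_symmDiff]
    tauto
  have e1 := tauR_shift a b (-a) (D := rect (-2 * a) (2 * a) b) (fun x hx => by
    rw [mem_rect] at hx ⊢
    omega)
  rw [show (2 * -(a : ℤ)) + 2 * a = 0 by ring, show (2 * -(a : ℤ)) = -2 * a by ring] at e1
  rw [← e1, pr, pr, markov_act (rect (-2 * a) (2 * a) b).powerset (fun S T => S ∆ T)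
    (fun S => (RSW2_F a b (RSW2_X a b (RSW2_W a b S))).powerset)
    (fun _ _ => Finset.powerset_nonempty _) (fun S hS T hT => ?_)
    fun S => if LBR a b (S : Set Site)ᶜ then (1 : ℝ) else 0, div_eq_inv_mul, ← avg_mul_left]
  · refine avg_mono fun S _ => ?_
    split_ifs with hE
    · have hW : ∀ w ∈ RSW2_W a b S, w.2 ≠ 0 := by
        rintro w ⟨t, k1, k2, k3⟩ h0
        exact not_LR_TB disjoint_compl_left hE ⟨t, w, k2, k1, h0, k3⟩
      refine le_trans (by norm_num) ((RSW2_half (RSW2_W a b S) S).trans (pr_mono fun T hT h => ?_))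
      have e2 := stop S T (Finset.mem_powerset.1 hT)
      exact RSW2_true ha (by rw [e2]; exact hW) (by rw [e2]; exact h)
    · rw [mul_zero]
      exact pr_nonneg _ _
  · have hT' := Finset.mem_powerset.1 hT
    refine ⟨Finset.mem_powerset.2 fun x hx => ?_, by rw [stop S T hT'],
      symmDiff_symmDiff_cancel_right _ _⟩
    rcases Finset.mem_symmDiff.1 hx with h | h
    · exact Finset.mem_powerset.1 hS h.1
    · exact (RSW2_F_mem.1 (hT' h.1)).1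

theorem RSW2_row {Y : Set Site} {i : ℤ} (n : ℕ)
    (h : ∀ k : ℤ, i ≤ k → k ≤ i + n → ((k, -1) : Site) ∈ Y) : Jn Y (i, -1) (i + n, -1) := by
  induction n with
  | zero => simpa using Jn.refl _ _
  | succ n ih =>
    refine (ih fun k h1 h2 => h k h1 (by push_cast; omega)).trans (Jn.single
      (h _ (by omega) (by push_cast; omega)) (h _ (by omega) le_rfl) (RSW2_adj.2 ?_))
    dsimp only
    omega

/-- a top-bottom path that avoids the path of `LBR` ends to the right of the origin -/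
theorem RSW2_block {a b : ℕ} (ha : 1 ≤ a) {Y Y' : Set Site} (hd : Disjoint Y Y') (h : LBR a b Y)
    {x y : Site} (h1 : x ∈ Y' ∩ rect (-2 * a) (2 * a) b) (h2 : x.2 = b) (h3 : y.2 = 0)
    (h4 : Jn (Y' ∩ rect (-2 * a) (2 * a) b) x y) : 0 < y.1 := by
  by_contra hn
  obtain ⟨s, e, k1, k2, k3, k4, k5⟩ := h
  have sub : ∀ (Z Z' : Set Site), Z ∩ rect (-2 * a) (2 * a) b ⊆
      (Z ∩ rect (-2 * a) (2 * a) b ∪ Z') ∩ RSW2_R (-2 * a) (2 * a) b := fun Z Z' z hz => by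
    refine ⟨Or.inl hz, ?_⟩
    have := mem_rect.1 hz.2
    simp only [RSW2_R, Set.mem_ofPred_eq]
    omega
  have he := k5.mem k1
  have he' := mem_rect.1 he.2
  have hy := h4.mem h1
  have hy' := mem_rect.1 hy.2
  have p1 : ∃ e' : Site, 2 * (a : ℤ) - 1 ≤ 2 * e'.1 + e'.2 ∧ Jn ((Y ∩ rect (-2 * a) (2 * a) b ∪
      {z | z.2 = -1 ∧ 1 ≤ z.1}) ∩ RSW2_R (-2 * a) (2 * a) b) e e' := by
    by_cases c : e.1 = a
    · exact ⟨e, by omega, Jn.refl _ _⟩
    · have row : ∀ k : ℤ, e.1 + 1 ≤ k → k ≤ a → ((k, -1) : Site) ∈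
          (Y ∩ rect (-2 * a) (2 * a) b ∪ {z | z.2 = -1 ∧ 1 ≤ z.1}) ∩
            RSW2_R (-2 * a) (2 * a) b := fun k c1 c2 => by
        refine ⟨Or.inr ⟨rfl, by simp only; omega⟩, ?_⟩
        simp only [RSW2_R, Set.mem_ofPred_eq]
        omega
      refine ⟨(e.1 + 1 + ((a - e.1 - 1).toNat : ℕ), -1), by simp only; omega,
        (Jn.single (sub _ _ he) (row _ le_rfl (by omega)) (RSW2_adj.2 ?_)).trans
          (RSW2_row _ fun k c1 c2 => row k c1 (by omega))⟩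
      dsimp only
      omega
  have p2 : ∃ y' : Site, y'.2 = -1 ∧ Jn ((Y' ∩ rect (-2 * a) (2 * a) b ∪
      {z | z.2 = -1 ∧ z.1 ≤ 0}) ∩ RSW2_R (-2 * a) (2 * a) b) y y' := by
    refine ⟨(min (y.1 + 1) 0, -1), rfl, Jn.single (sub _ _ hy)
      ⟨Or.inr ⟨rfl, min_le_right _ _⟩, ?_⟩ (RSW2_adj.2 ?_)⟩
    · simp only [RSW2_R, Set.mem_ofPred_eq]
      omega
    · dsimp only
      omega
  obtain ⟨e', q1, q2⟩ := p1
  obtain ⟨y', q3, q4⟩ := p2
  refine RSW2_cross (Set.disjoint_left.2 fun z c1 c2 => ?_) (sub _ _ k1) k2 q1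
    ((k5.mono (sub _ _)).trans q2) (sub _ _ h1) h2 q3 ((h4.mono (sub _ _)).trans q4)
  rcases c1 with c1 | c1 <;> rcases c2 with c2 | c2
  · exact Set.disjoint_left.1 hd c1.1 c2.1
  · have := mem_rect.1 c1.2
    have := c2.1
    omega
  · have := mem_rect.1 c2.2
    have := c1.1
    omega
  · have := c1.2
    have := c2.2
    omega

theorem RSW2_LBR_mono {a b : ℕ} {Y Y' : Set Site} (h : Y ⊆ Y') (hY : LBR a b Y) : LBR a b Y' := by
  obtain ⟨x, y, h1, h2, h3, h4, h5⟩ := hY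
  exact ⟨x, y, ⟨h h1.1, h1.2⟩, h2, h3, h4, h5.mono (Set.inter_subset_inter_left _ h)⟩

/-- the mirror image of a colouring -/
def RSW2_mir (D S : Finset Site) : Finset Site := D.filter fun x => RSW2_m x ∈ S

theorem RSW2_mir_bij {D : Finset Site} (hD : ∀ x ∈ D, RSW2_m x ∈ D) :
    Set.BijOn (RSW2_mir D) D.powerset D.powerset := by
  have h1 : Set.MapsTo (RSW2_mir D) D.powerset D.powerset := fun S _ =>
    Finset.mem_coe.2 (Finset.mem_powerset.2 (Finset.filter_subset _ _))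
  have h2 : Set.LeftInvOn (RSW2_mir D) (RSW2_mir D) D.powerset := fun S hS => by
    have h3 := Finset.mem_powerset.1 (Finset.mem_coe.1 hS)
    ext x
    simp only [RSW2_mir, Finset.mem_filter, RSW2_mm]
    exact ⟨fun h => h.2.2, fun h => ⟨h3 h, hD x (h3 h), h⟩⟩
  exact Set.InvOn.bijOn ⟨h2, h2⟩ h1 h1

/-- mirror image, `harris`, `cross` -/
theorem tauR_double {a b : ℕ} (ha : 1 ≤ a) (hb : 1 ≤ b) : tauR a b ^ 2 / 4 ≤ tauR (2 * a) b := by
  have e1 := tauR_shift (2 * a) b (-a) (D := rect (-2 * a) (2 * a) b) (fun x hx => by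
    rw [mem_rect] at hx ⊢
    push_cast at hx
    omega)
  rw [show (2 * -(a : ℤ)) + 2 * ((2 * a : ℕ) : ℤ) = 2 * a by push_cast; ring,
    show (2 * -(a : ℤ)) = -2 * a by ring] at e1
  have e2 := lbr_half ha hb
  have e3 := pr_bij _ (RSW2_mir_bij (D := rect (-2 * a) (2 * a) b) fun x hx => RSW2_m_rect hx)
    fun S => LBR a b (S : Set Site)ᶜ
  have e4 := harris (rect (-2 * a) (2 * a) b) (P := fun S => LBR a b (S : Set Site)ᶜ)
    (Q := fun S => LBR a b (RSW2_mir (rect (-2 * a) (2 * a) b) S : Set Site)ᶜ)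
    (fun S S' h _ => RSW2_LBR_mono (Set.compl_subset_compl.2 (Finset.coe_subset.2 h)))
    (fun S S' h _ => RSW2_LBR_mono (Set.compl_subset_compl.2 fun x hx =>
      Finset.mem_filter.2 ⟨(Finset.mem_filter.1 hx).1, h (Finset.mem_filter.1 hx).2⟩))
  have e5 : (pr (rect (-2 * a) (2 * a) b).powerset fun S => LBR a b (S : Set Site)ᶜ ∧
      LBR a b (RSW2_mir (rect (-2 * a) (2 * a) b) S : Set Site)ᶜ) ≤
      pr (rect (-2 * a) (2 * a) b).powerset fun S => LR (-2 * a) (2 * a) b (S : Set Site)ᶜ := by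
    refine pr_mono fun S _ h => (LR_or_TB (by omega) (by omega) S).resolve_right ?_
    rintro ⟨x, y, h1, h2, h3, h4⟩
    have key : ∀ z ∈ (S : Set Site) ∩ rect (-2 * a) (2 * a) b, RSW2_m z ∈
        (RSW2_mir (rect (-2 * a) (2 * a) b) S : Set Site) ∩ rect (-2 * a) (2 * a) b := fun z hz =>
      ⟨Finset.mem_filter.2 ⟨RSW2_m_rect hz.2, by rw [RSW2_mm]; exact hz.1⟩, RSW2_m_rect hz.2⟩
    have c1 := RSW2_block ha disjoint_compl_left h.1 h1 h2 h3 h4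
    have c2 := RSW2_block ha disjoint_compl_left h.2 (key x h1) h2 (y := RSW2_m y) h3
      (RSW2_map RSW2_m_adj key h4)
    simp only [RSW2_m] at c2
    omega
  have e6 : 0 ≤ tauR a b := pr_nonneg _ _
  rw [e3] at e4
  rw [← e1]
  refine le_trans ?_ (e4.trans e5)
  calc tauR a b ^ 2 / 4 = tauR a b / 2 * (tauR a b / 2) := by ring
    _ ≤ _ := mul_le_mul e2 e2 (by positivity) (pr_nonneg _ _)

end Pool.Agent.TAF.U
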