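import Pool.Agent.P.MP_cb4022_pr.U.RSW2

/-! Russo-Seymour-Welsh, part 3: the one-arm bound (paper B3). -/

open scoped Classical symmDiff

noncomputable section

namespace Pool.Agent.TAF.U

theorem RSW3_adj {u v : Site} : tri.Adj u v ↔
    (v.1 - u.1 = 1 ∧ v.2 - u.2 = 0) ∨ (v.1 - u.1 = -1 ∧ v.2 - u.2 = 0) ∨
    (v.1 - u.1 = 0 ∧ v.2 - u.2 = 1) ∨ (v.1 - u.1 = 0 ∧ v.2 - u.2 = -1) ∨
    (v.1 - u.1 = 1 ∧ v.2 - u.2 = -1) ∨ (v.1 - u.1 = -1 ∧ v.2 - u.2 = 1) := by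
  obtain ⟨a, b⟩ := u
  obtain ⟨c, d⟩ := v
  simp only [tri, Prod.mk_sub_mk, Finset.mem_insert, Finset.mem_singleton, Prod.mk.injEq]

theorem RSW3_map {φ : Site → Site} (hφ : ∀ u v, tri.Adj u v → tri.Adj (φ u) (φ v))
    {X : Set Site} {x y : Site} (h : Jn X x y) : Jn (φ '' X) (φ x) (φ y) := by
  induction h with
  | refl => exact Jn.refl _ _
  | tail _ h ih => exact ih.trans (Jn.single ⟨_, h.1, rfl⟩ ⟨_, h.2.1, rfl⟩ (hφ _ _ h.2.2))

/-- a path that passes a slab contains a crossing of the slab -/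
theorem RSW3_slab (f : Site → ℤ) (k lo hi : ℤ) (hf : ∀ u v, tri.Adj u v → f v ≤ f u + k)
    (h0 : lo + k - 1 ≤ hi) {Y : Set Site} {x y : Site} (hx : x ∈ Y) (h : Jn Y x y)
    (h1 : f x ≤ lo + k - 1) (h2 : hi - k + 1 ≤ f y) :
    ∃ x' y', x' ∈ Y ∩ {w | lo ≤ f w ∧ f w ≤ hi} ∧ f x' ≤ lo + k - 1 ∧ hi - k + 1 ≤ f y' ∧
      Jn (Y ∩ {w | lo ≤ f w ∧ f w ≤ hi}) x' y' := by
  have start : ∀ w ∈ Y, f w ≤ lo + k - 1 → f w < lo ∨
      ∃ x', x' ∈ Y ∩ {w | lo ≤ f w ∧ f w ≤ hi} ∧ f x' ≤ lo + k - 1 ∧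
        Jn (Y ∩ {w | lo ≤ f w ∧ f w ≤ hi}) x' w := fun w hw h => by
    rcases lt_or_ge (f w) lo with h' | h'
    · exact Or.inl h'
    · exact Or.inr ⟨w, ⟨hw, h', by omega⟩, h, Jn.refl _ _⟩
  have key : (∃ x' y', x' ∈ Y ∩ {w | lo ≤ f w ∧ f w ≤ hi} ∧ f x' ≤ lo + k - 1 ∧
      hi - k + 1 ≤ f y' ∧ Jn (Y ∩ {w | lo ≤ f w ∧ f w ≤ hi}) x' y') ∨ f y < lo ∨
      ∃ x', x' ∈ Y ∩ {w | lo ≤ f w ∧ f w ≤ hi} ∧ f x' ≤ lo + k - 1 ∧
        Jn (Y ∩ {w | lo ≤ f w ∧ f w ≤ hi}) x' y := by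
    clear h2
    induction h with
    | refl => exact Or.inr (start x hx h1)
    | @tail z w _ hzw ih =>
      have hs := hf z w hzw.2.2
      rcases ih with ih | ih | ⟨x', a1, a2, a3⟩
      · exact Or.inl ih
      · exact Or.inr (start w hzw.2.1 (by omega))
      · rcases le_or_gt (hi - k + 1) (f z) with h' | h'
        · exact Or.inl ⟨x', z, a1, a2, h', a3⟩
        · rcases lt_or_ge (f w) lo with h'' | h''
          · exact Or.inr (Or.inl h'')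
          · exact Or.inr (Or.inr ⟨x', a1, a2,
              a3.trans (Jn.single (a3.mem a1) ⟨hzw.2.1, h'', by omega⟩ hzw.2.2)⟩)
  rcases key with h | h | ⟨x', a1, a2, a3⟩
  · exact h
  · omega
  · exact ⟨x', y, a1, a2, h2, a3⟩

theorem RSW3_LR {lo hi b : ℤ} (h0 : lo + 1 ≤ hi) {Y Y' : Set Site} (hY : Y' ⊆ Y)
    (hb : ∀ w ∈ Y', 0 ≤ w.2 ∧ w.2 ≤ b) {x y : Site} (hx : x ∈ Y') (h : Jn Y' x y)
    (h1 : 2 * x.1 + x.2 ≤ lo + 1) (h2 : hi - 1 ≤ 2 * y.1 + y.2) : LR lo hi b Y := by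
  obtain ⟨x', y', a1, a2, a3, a4⟩ := RSW3_slab (fun w => 2 * w.1 + w.2) 2 lo hi
    (fun u v h => by rw [RSW3_adj] at h; omega) (by omega) hx h (by omega) (by omega)
  have hs : Y' ∩ {w | lo ≤ 2 * w.1 + w.2 ∧ 2 * w.1 + w.2 ≤ hi} ⊆ Y ∩ rect lo hi b :=
    fun w hw => ⟨hY hw.1, mem_rect.2 ⟨(hb w hw.1).1, (hb w hw.1).2, hw.2⟩⟩
  exact ⟨x', y', hs a1, by omega, by omega, a4.mono hs⟩

theorem RSW3_LR_mono {lo hi b : ℤ} {Y Y' : Set Site} (hY : Y ⊆ Y') (h : LR lo hi b Y) :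
    LR lo hi b Y' := by
  obtain ⟨x, y, a1, a2, a3, a4⟩ := h
  have hs : Y ∩ rect lo hi b ⊆ Y' ∩ rect lo hi b := Set.inter_subset_inter_left _ hY
  exact ⟨x, y, hs a1, a2, a3, a4.mono hs⟩

theorem RSW3_bij (φ : Site ≃ Site) (D : Finset Site) :
    Set.BijOn (fun S : Finset Site => S.map φ.toEmbedding) D.powerset
      (D.map φ.toEmbedding).powerset := by
  refine ⟨fun S hS => ?_, (Finset.map_injective _).injOn, fun S hS => ?_⟩
  · exact Finset.mem_coe.2 (Finset.mem_powerset.2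
      (Finset.map_subset_map.2 (Finset.mem_powerset.1 hS)))
  · obtain ⟨u, hu, rfl⟩ := Finset.subset_map_iff.1 (Finset.mem_powerset.1 hS)
    exact ⟨u, Finset.mem_coe.2 (Finset.mem_powerset.2 hu), rfl⟩

theorem RSW3_true (D : Finset Site) : pr D.powerset (fun _ => True) = 1 := by
  rw [pr]
  simp only [if_true]
  exact avg_const (Finset.powerset_nonempty D) _

theorem RSW3_restrict {A D : Finset Site} (h : A ⊆ D) (P : Finset Site → Prop) :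
    pr D.powerset (fun S => P (S ∩ A)) = pr A.powerset P :=
  avg_restrict h fun S => if P S then (1 : ℝ) else 0

/-- rhombus `0 ≤ i, j ≤ 2 n`, reflection `(i, j) ↦ (j, i)` with colour flip -/
theorem tauR_base {n : ℕ} (hn : 1 ≤ n) : 1 / 2 ≤ tauR n (2 * n) := by
  set D : Finset Site := Finset.Icc (0 : ℤ) (2 * n) ×ˢ Finset.Icc (0 : ℤ) (2 * n) with hD
  have memD : ∀ x : Site, x ∈ D ↔ (0 ≤ x.1 ∧ x.1 ≤ 2 * n) ∧ 0 ≤ x.2 ∧ x.2 ≤ 2 * n := fun x => by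
    rw [hD, Finset.mem_product, Finset.mem_Icc, Finset.mem_Icc]
  have hsub : rect (2 * (n : ℤ)) (2 * (n : ℤ) + 2 * n) ((2 * n : ℕ) : ℤ) ⊆ D := fun x hx => by
    rw [mem_rect] at hx
    rw [memD]
    omega
  have hA := tauR_shift n (2 * n) n hsub
  set A : Finset Site → Prop := fun S =>
    LR (2 * (n : ℤ)) (2 * (n : ℤ) + 2 * n) ((2 * n : ℕ) : ℤ) (S : Set Site)ᶜ with hAdef
  have hmap : D.map (Equiv.prodComm ℤ ℤ).toEmbedding = D := by
    ext x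
    rw [Finset.mem_map_equiv, memD, memD]
    exact and_comm
  have h1 : pr D.powerset (fun S => A (D \ S.map (Equiv.prodComm ℤ ℤ).toEmbedding)) =
      pr D.powerset A := by
    have e1 := pr_bij _ (RSW3_bij (Equiv.prodComm ℤ ℤ) D) fun S => A (D \ S)
    rw [hmap] at e1
    exact e1.trans (avg_compl D fun S => if A S then (1 : ℝ) else 0)
  have h2 : pr D.powerset (fun _ => True) ≤
      pr D.powerset fun S => A S ∨ A (D \ S.map (Equiv.prodComm ℤ ℤ).toEmbedding) := by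
    refine pr_mono fun S hS _ => ?_
    have hSD := Finset.mem_powerset.1 hS
    rcases LR_or_TB (lo := 0) (hi := 6 * n) (b := ((2 * n : ℕ) : ℤ)) (by omega) (by omega) S with
      ⟨x, y, a1, a2, a3, a4⟩ | ⟨x, y, a1, a2, a3, a4⟩
    · exact Or.inl (RSW3_LR (by omega) Set.inter_subset_left
        (fun w hw => ⟨(mem_rect.1 hw.2).1, (mem_rect.1 hw.2).2.1⟩) a1 a4 (by omega) (by omega))
    · have a5 := a4.mem a1
      have a6 := RSW3_map (φ := Prod.swap) (fun u v h => by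
        rw [RSW3_adj] at h ⊢
        simp only [Prod.fst_swap, Prod.snd_swap]
        omega) (a4.symm.mono Set.inter_subset_left)
      have hx := (memD x).1 (hSD a1.1)
      have hy := (memD y).1 (hSD a5.1)
      refine Or.inr (RSW3_LR (by omega) ?_ ?_ (Set.mem_image_of_mem _ a5.1) a6 ?_ ?_)
      · rintro _ ⟨w, hw, rfl⟩ h
        exact (Finset.mem_sdiff.1 h).2 (Finset.mem_map.2 ⟨w, hw, rfl⟩)
      · rintro _ ⟨w, hw, rfl⟩
        have := (memD w).1 (hSD hw)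
        simp only [Prod.snd_swap]
        omega
      · simp only [Prod.fst_swap, Prod.snd_swap]
        omega
      · simp only [Prod.fst_swap, Prod.snd_swap]
        omega
  have h3 := h2.trans (pr_or _ _ _)
  rw [RSW3_true, h1, hA] at h3
  linarith

theorem RSW3_long (k : ℕ) : ∃ τ : ℝ, 0 < τ ∧ ∀ n : ℕ, 1 ≤ n → τ ≤ tauR (2 ^ k * n) (2 * n) := by
  induction k with
  | zero => exact ⟨1 / 2, by norm_num, fun n hn => by simpa using tauR_base hn⟩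
  | succ k ih =>
    obtain ⟨τ, h0, h⟩ := ih
    refine ⟨τ ^ 2 / 4, by positivity, fun n hn => ?_⟩
    have h1 : 1 ≤ 2 ^ k * n := Nat.mul_pos (by positivity) hn
    have h2 := tauR_double h1 (show 1 ≤ 2 * n by omega)
    rw [show 2 * (2 ^ k * n) = 2 ^ (k + 1) * n by ring] at h2
    refine le_trans ?_ h2
    have := pow_le_pow_left₀ h0.le (h n hn) 2
    linarith

theorem RSW3_prob (φ : Site ≃ Site) {n : ℕ} {D : Finset Site}
    (h : (rect (-16 * n) (16 * n) (2 * n)).map φ.symm.toEmbedding ⊆ D) :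
    pr D.powerset (fun S => LR (-16 * n) (16 * n) (2 * n) (φ '' S)ᶜ) =
      tauR (2 ^ 4 * n) (2 * n) := by
  have e1 : 2 * (-8 * (n : ℤ)) = -16 * n := by ring
  have e2 : -16 * (n : ℤ) + 2 * ((2 ^ 4 * n : ℕ) : ℤ) = 16 * n := by push_cast; ring
  have e3 : ((2 * n : ℕ) : ℤ) = 2 * n := by push_cast; ring
  have h1 := tauR_shift (2 ^ 4 * n) (2 * n) (-8 * n) (D := D.map φ.toEmbedding)
  rw [e1, e2, e3] at h1
  rw [← h1 fun x hx => Finset.mem_map_equiv.2 (h (Finset.mem_map.2 ⟨x, hx, rfl⟩)),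
    ← pr_bij _ (RSW3_bij φ D)]
  simp only [Finset.coe_map, Equiv.coe_toEmbedding]

theorem RSW3_block {φ : Site → Site} (hφ : ∀ u v, tri.Adj u v → tri.Adj (φ u) (φ v)) {n : ℤ}
    (hn : 0 ≤ n) {S T : Set Site}
    (hT : ∀ w ∈ T, (φ w).1 ≤ 4 * n ∧ -(φ w).1 - (φ w).2 ≤ 6 * n) {x z : Site}
    (hx : x ∈ S ∩ T) (h : Jn (S ∩ T) x z) (h0 : (φ x).2 ≤ 0) (h1 : 2 * n ≤ (φ z).2) :
    TB (-16 * n) (16 * n) (2 * n) (φ '' S) := by
  obtain ⟨x', y', a1, a2, a3, a4⟩ := RSW3_slab (fun w => w.2) 1 0 (2 * n)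
    (fun u v h => by rw [RSW3_adj] at h; omega) (by omega) (Set.mem_image_of_mem φ hx) (RSW3_map hφ h)
    (by omega) (by omega)
  have hs : φ '' (S ∩ T) ∩ {w | 0 ≤ w.2 ∧ w.2 ≤ 2 * n} ⊆
      φ '' S ∩ rect (-16 * n) (16 * n) (2 * n) := by
    rintro _ ⟨⟨w, hw, rfl⟩, b1, b2⟩
    have := hT w hw.2
    exact ⟨⟨w, hw.1, rfl⟩, mem_rect.2 ⟨b1, b2, by omega, by omega⟩⟩
  have a5 := a4.mem a1
  have b1 : 0 ≤ x'.2 := a1.2.1
  have b2 : y'.2 ≤ 2 * n := a5.2.2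
  exact ⟨y', x', hs a5, by omega, by omega, a4.symm.mono hs⟩

theorem RSW3_near {x p : Site} {n : ℕ} (h : dst x p ≤ n) :
    x.2 - p.2 ≤ 2 * n ∧ x.1 - p.1 ≤ 2 * n ∧ -(x.1 - p.1) - (x.2 - p.2) ≤ 2 * n := by
  have h1 := pow_le_pow_left₀ (dst_nonneg _ _) h 2
  rw [dst_sq] at h1
  have h2 : (x.1 - p.1) ^ 2 + (x.1 - p.1) * (x.2 - p.2) + (x.2 - p.2) ^ 2 ≤ (n : ℤ) ^ 2 := by
    exact_mod_cast h1
  generalize x.1 - p.1 = i at h2
  generalize x.2 - p.2 = j at h2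
  have hn : (0 : ℤ) ≤ 2 * n := by positivity
  refine ⟨?_, ?_, ?_⟩ <;> refine (abs_le_of_sq_le_sq' ?_ hn).2
  · nlinarith [sq_nonneg (2 * i + j), sq_nonneg j]
  · nlinarith [sq_nonneg (i + 2 * j), sq_nonneg i]
  · nlinarith [sq_nonneg (i - j), sq_nonneg (i + j)]

theorem RSW3_far {x p : Site} {n : ℕ} (h1 : x.2 - p.2 < 4 * n) (h2 : x.1 - p.1 < 4 * n)
    (h3 : -(x.1 - p.1) - (x.2 - p.2) < 4 * n) : dst x p ≤ 8 * n := by
  refine (abs_le_of_sq_le_sq' ?_ (by positivity)).2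
  rw [dst_sq]
  have h4 : (x.1 - p.1) ^ 2 + (x.1 - p.1) * (x.2 - p.2) + (x.2 - p.2) ^ 2 ≤ (8 * n : ℤ) ^ 2 := by
    generalize x.1 - p.1 = i at *
    generalize x.2 - p.2 = j at *
    nlinarith [mul_nonneg (sub_nonneg.2 h1.le) (sub_nonneg.2 h2.le),
      mul_nonneg (sub_nonneg.2 h1.le) (sub_nonneg.2 h3.le),
      mul_nonneg (sub_nonneg.2 h2.le) (sub_nonneg.2 h3.le), sq_nonneg (n : ℤ)]
  exact_mod_cast h4

theorem RSW3_crs_mono {Y Y' : Set Site} (hY : Y ⊆ Y') {p b : Site} {r R : ℝ}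
    (h : Crs Y p r R b) : Crs Y' p r R b := by
  obtain ⟨a1, ⟨x, a2, a3⟩, y, a4, a5⟩ := h
  exact ⟨hY a1, ⟨x, a2, a3.mono hY⟩, y, a4, a5.mono hY⟩

/-- the three frames in which the sides of the triangle are horizontal -/
theorem RSW3_frames (p : Site) (m : ℤ) : ∃ φ₀ φ₁ φ₂ : Site ≃ Site,
    (∀ x, φ₀ x = (x.1 - p.1, x.2 - p.2 - m)) ∧
    (∀ x, φ₁ x = (-(x.1 - p.1) - (x.2 - p.2), x.1 - p.1 - m)) ∧
    ∀ x, φ₂ x = (x.2 - p.2, -(x.1 - p.1) - (x.2 - p.2) - m) := by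
  refine ⟨(Equiv.subRight p).trans (Equiv.subRight (0, m)),
    ((Equiv.subRight p).trans gS).trans (Equiv.subRight (0, m)),
    (((Equiv.subRight p).trans gS).trans gS).trans (Equiv.subRight (0, m)),
    fun x => ?_, fun x => ?_, fun x => ?_⟩ <;> ext <;> simp [gS]
  ring

theorem RSW3_three {p b : Site} {n : ℕ} (hn : 1 ≤ n) {φ₀ φ₁ φ₂ : Site → Site}
    (h₀ : ∀ x, φ₀ x = (x.1 - p.1, x.2 - p.2 - 2 * n))
    (h₁ : ∀ x, φ₁ x = (-(x.1 - p.1) - (x.2 - p.2), x.1 - p.1 - 2 * n))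
    (h₂ : ∀ x, φ₂ x = (x.2 - p.2, -(x.1 - p.1) - (x.2 - p.2) - 2 * n)) {S : Set Site}
    (h : Crs S p n (8 * n) b) :
    TB (-16 * n) (16 * n) (2 * n) (φ₀ '' S) ∨ TB (-16 * n) (16 * n) (2 * n) (φ₁ '' S) ∨
      TB (-16 * n) (16 * n) (2 * n) (φ₂ '' S) := by
  obtain ⟨a1, ⟨x, a2, a3⟩, y, a4, a5⟩ := h
  obtain ⟨b1, b2, b3⟩ := RSW3_near a2
  obtain ⟨u, z, c1, c2, c3, c4, -⟩ := (a3.symm.trans a5).exit
    (Z := {w | w.2 - p.2 < 4 * n ∧ w.1 - p.1 < 4 * n ∧ -(w.1 - p.1) - (w.2 - p.2) < 4 * n})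
    (a3.mem a1) ⟨by omega, by omega, by omega⟩
    fun hy => absurd (RSW3_far hy.1 hy.2.1 hy.2.2) (not_le.2 a4)
  set T : Set Site := {w | w.2 - p.2 ≤ 4 * n ∧ w.1 - p.1 ≤ 4 * n ∧
    -(w.1 - p.1) - (w.2 - p.2) ≤ 4 * n} with hT
  have hs : S ∩ {w | w.2 - p.2 < 4 * n ∧ w.1 - p.1 < 4 * n ∧
      -(w.1 - p.1) - (w.2 - p.2) < 4 * n} ⊆ S ∩ T :=
    fun w hw => ⟨hw.1, hw.2.1.le, hw.2.2.1.le, hw.2.2.2.le⟩
  obtain ⟨-, d1, d2, d3⟩ := id c2
  have c5 := RSW3_adj.1 c4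
  have hz : z ∈ S ∩ T := ⟨c3.1, by omega, by omega, by omega⟩
  have hx : x ∈ S ∩ T := ⟨a3.mem a1, by omega, by omega, by omega⟩
  have hj : Jn (S ∩ T) x z := (c1.mono hs).trans (Jn.single (hs c2) hz c4)
  have c6 : 4 * n ≤ z.2 - p.2 ∨ 4 * n ≤ z.1 - p.1 ∨ 4 * n ≤ -(z.1 - p.1) - (z.2 - p.2) := by
    by_contra hc
    exact c3.2 ⟨by omega, by omega, by omega⟩
  rcases c6 with c6 | c6 | c6
  · refine Or.inl (RSW3_block (fun u v h => ?_) (by omega) (fun w hw => ?_) hx hj ?_ ?_)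
    · rw [RSW3_adj] at h ⊢; simp only [h₀]; omega
    · obtain ⟨e1, e2, e3⟩ := hw; simp only [h₀]; omega
    · simp only [h₀]; omega
    · simp only [h₀]; omega
  · refine Or.inr (Or.inl (RSW3_block (fun u v h => ?_) (by omega) (fun w hw => ?_) hx hj ?_ ?_))
    · rw [RSW3_adj] at h ⊢; simp only [h₁]; omega
    · obtain ⟨e1, e2, e3⟩ := hw; simp only [h₁]; omega
    · simp only [h₁]; omega
    · simp only [h₁]; omega
  · refine Or.inr (Or.inr (RSW3_block (fun u v h => ?_) (by omega) (fun w hw => ?_) hx hj ?_ ?_))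
    · rw [RSW3_adj] at h ⊢; simp only [h₂]; omega
    · obtain ⟨e1, e2, e3⟩ := hw; simp only [h₂]; omega
    · simp only [h₂]; omega
    · simp only [h₂]; omega

/-- Three long rectangles, images under `rotA`, surround the centre: a yellow path from the
centre crosses one of them in the short direction; `not_LR_TB`, `harris`. -/
theorem armB_one : ∃ K q : ℝ, 2 ≤ K ∧ 0 ≤ q ∧ q < 1 ∧ ∀ r, 1 ≤ r → ArmB r (K * r) q := by
  obtain ⟨τ, τ0, hτ⟩ := RSW3_long 4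
  have τ1 : τ ≤ 1 := (hτ 1 le_rfl).trans (pr_le_one _ _)
  refine ⟨16, 1 - τ * (τ * τ), by norm_num, ?_, sub_lt_self _ (by positivity), fun r hr p Y => ?_⟩
  · exact sub_nonneg.2 (mul_le_one₀ τ1 (by positivity) (mul_le_one₀ τ1 τ0.le τ1))
  have hn : 1 ≤ ⌈r⌉₊ := Nat.ceil_pos.2 (by linarith)
  have hr1 : r ≤ ⌈r⌉₊ := Nat.le_ceil r
  have hr2 : (⌈r⌉₊ : ℝ) ≤ 2 * r := by linarith [Nat.ceil_lt_add_one (show 0 ≤ r by linarith)]
  generalize ⌈r⌉₊ = n at hn hr1 hr2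
  obtain ⟨φ₀, φ₁, φ₂, h₀, h₁, h₂⟩ := RSW3_frames p (2 * n)
  obtain ⟨D, hY, d₀, d₁, d₂⟩ : ∃ D : Finset Site, Y ⊆ D ∧
      (rect (-16 * n) (16 * n) (2 * n)).map φ₀.symm.toEmbedding ⊆ D ∧
      (rect (-16 * n) (16 * n) (2 * n)).map φ₁.symm.toEmbedding ⊆ D ∧
      (rect (-16 * n) (16 * n) (2 * n)).map φ₂.symm.toEmbedding ⊆ D :=
    ⟨(Y ∪ _) ∪ (_ ∪ _), Finset.subset_union_left.trans Finset.subset_union_left,
      Finset.subset_union_right.trans Finset.subset_union_left,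
      Finset.subset_union_left.trans Finset.subset_union_right,
      Finset.subset_union_right.trans Finset.subset_union_right⟩
  have anti : ∀ (φ : Site ≃ Site) (S S' : Finset Site), S ⊆ S' → S' ⊆ D →
      LR (-16 * n) (16 * n) (2 * n) (φ '' S')ᶜ → LR (-16 * n) (16 * n) (2 * n) (φ '' S)ᶜ :=
    fun φ S S' h _ => RSW3_LR_mono (Set.compl_subset_compl.2 (Set.image_mono h))
  have e1 := harris D (anti φ₁) (anti φ₂)
  have e2 := harris D (anti φ₀) (Q := fun S => LR (-16 * n) (16 * n) (2 * n) (φ₁ '' S)ᶜ ∧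
    LR (-16 * n) (16 * n) (2 * n) (φ₂ '' S)ᶜ)
    fun S S' h h' k => ⟨anti φ₁ S S' h h' k.1, anti φ₂ S S' h h' k.2⟩
  rw [RSW3_prob φ₁ d₁, RSW3_prob φ₂ d₂] at e1
  rw [RSW3_prob φ₀ d₀] at e2
  have t1 := hτ n hn
  have e3 : τ * (τ * τ) ≤ _ := (mul_le_mul t1 ((mul_le_mul t1 t1 τ0.le (τ0.le.trans t1)).trans e1)
    (by positivity) (τ0.le.trans t1)).trans e2
  rw [← RSW3_restrict hY]
  refine le_trans (pr_mono fun S _ h => ?_)
    ((pr_not (Finset.powerset_nonempty D) _).trans_le (sub_le_sub_left e3 1))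
  obtain ⟨b, a1, ⟨x, a2, a3⟩, y, a4, a5⟩ := h
  have hc : Crs (S : Set Site) p n (8 * n) b :=
    RSW3_crs_mono (Finset.coe_subset.2 Finset.inter_subset_left)
      ⟨a1, ⟨x, a2.trans hr1, a3⟩, y, by linarith, a5⟩
  rintro ⟨k₀, k₁, k₂⟩
  rcases RSW3_three hn h₀ h₁ h₂ hc with k | k | k
  · exact not_LR_TB disjoint_compl_left k₀ k
  · exact not_LR_TB disjoint_compl_left k₁ k
  · exact not_LR_TB disjoint_compl_left k₂ k

theorem ArmB.nonneg {r R q : ℝ} (h : ArmB r R q) : 0 ≤ q := (pr_nonneg _ _).trans (h 0 ∅)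

theorem ArmB.mono {r R r' R' q q' : ℝ} (h : ArmB r' R' q') (h1 : r ≤ r') (h2 : R' ≤ R)
    (h3 : q' ≤ q) : ArmB r R q := by
  intro p Y
  refine le_trans (pr_mono fun S _ hS => ?_) ((h p Y).trans h3)
  obtain ⟨b, a1, ⟨x, a2, a3⟩, y, a4, a5⟩ := hS
  exact ⟨b, a1, ⟨x, a2.trans h1, a3⟩, y, h2.trans_lt a4, a5⟩

/-- a path crosses both annuli inside disjoint sets of sites -/
theorem ArmB.mul {r r' R q q' : ℝ} (h : ArmB r r' q) (h' : ArmB (r' + 2) R q') (h1 : r ≤ r')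
    (h2 : r' + 2 ≤ R) : ArmB r R (q * q') := by
  intro p Y
  have hA : Y.filter (fun x => dst x p ≤ r' + 1) ⊆ Y := Finset.filter_subset _ _
  have hB : Y.filter (fun x => ¬ dst x p ≤ r' + 1) ⊆ Y := Finset.filter_subset _ _
  have e := avg_indep hA hB (Finset.disjoint_filter_filter_not _ _ _)
    (fun S => if ∃ b, Crs S p r r' b then 1 else 0)
    (fun S => if ∃ b, Crs S p (r' + 2) R b then 1 else 0)
  refine le_trans ?_ (e.trans_le (mul_le_mul (h p _) (h' p _) (pr_nonneg _ _) h.nonneg))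
  refine avg_mono fun S hS => ?_
  have hSY := Finset.mem_powerset.1 hS
  by_cases hc : ∃ b, Crs S p r R b
  · obtain ⟨b, a1, ⟨x, a2, a3⟩, y, a4, a5⟩ := id hc
    have step : ∀ u v, tri.Adj u v → dst v p ≤ dst u p + 1 := fun u v huv => by
      have := dst_tri v u p
      rw [dst_adj huv.symm] at this
      linarith
    obtain ⟨u, z, c1, c2, c3, c4, -⟩ := (a3.symm.trans a5).exit (Z := {w | dst w p ≤ r'})
      (a3.mem a1) (a2.trans h1) (show ¬ dst y p ≤ r' from not_le.2 (by linarith))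
    obtain ⟨u', z', d1, d2, d3, d4, -⟩ := (a5.symm.trans a3).exit (Z := {w | r' + 1 < dst w p})
      (a5.mem a1) (show r' + 1 < dst y p by linarith)
      (show ¬ r' + 1 < dst x p from not_lt.2 (by linarith))
    have s1 : (S : Set Site) ∩ {w | dst w p ≤ r'} ⊆
        (S ∩ Y.filter (fun x => dst x p ≤ r' + 1) : Finset Site) := fun w hw =>
      Finset.mem_coe.2 (Finset.mem_inter.2 ⟨hw.1, Finset.mem_filter.2 ⟨hSY hw.1, by
        have : dst w p ≤ r' := hw.2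
        linarith⟩⟩)
    have s2 : (S : Set Site) ∩ {w | r' + 1 < dst w p} ⊆
        (S ∩ Y.filter (fun x => ¬ dst x p ≤ r' + 1) : Finset Site) := fun w hw =>
      Finset.mem_coe.2 (Finset.mem_inter.2 ⟨hw.1, Finset.mem_filter.2 ⟨hSY hw.1, not_le.2 hw.2⟩⟩)
    have hz : z ∈ ((S ∩ Y.filter (fun x => dst x p ≤ r' + 1) : Finset Site) : Set Site) :=
      Finset.mem_coe.2 (Finset.mem_inter.2 ⟨c3.1, Finset.mem_filter.2 ⟨hSY c3.1, by
        have e1 : dst u p ≤ r' := c2.2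
        linarith [step u z c4]⟩⟩)
    have k1 : ∃ b, Crs (S ∩ Y.filter (fun x => dst x p ≤ r' + 1) : Finset Site) p r r' b :=
      ⟨u, s1 c2, ⟨x, a2, c1.symm.mono s1⟩, z, not_le.1 c3.2, Jn.single (s1 c2) hz c4⟩
    have k2 : ∃ b, Crs (S ∩ Y.filter (fun x => ¬ dst x p ≤ r' + 1) : Finset Site) p (r' + 2) R b :=
      ⟨u', s2 d2, ⟨u', by
        have e1 : dst z' p ≤ r' + 1 := not_lt.1 d3.2
        linarith [step z' u' d4.symm], Jn.refl _ _⟩, y, a4, d1.symm.mono s2⟩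
    rw [if_pos hc, if_pos k1, if_pos k2, mul_one]
  · rw [if_neg hc]
    exact mul_nonneg (by split_ifs <;> norm_num) (by split_ifs <;> norm_num)

theorem RSW3_pow : ∃ K q : ℝ, 2 ≤ K ∧ 0 < q ∧ q < 1 ∧
    ∀ (m : ℕ) (r : ℝ), 1 ≤ r → ArmB r (K ^ m * r) (q ^ m) := by
  obtain ⟨K, q, hK, -, q1, h⟩ := armB_one
  refine ⟨K + 2, max q (1 / 2), by linarith, lt_max_of_lt_right (by norm_num),
    max_lt q1 (by norm_num), fun m => ?_⟩
  induction m with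
  | zero => exact fun r _ p Y => by rw [pow_zero (max q (1 / 2))]; exact pr_le_one _ _
  | succ m ih =>
    intro r hr
    have h1 : K * r + 2 ≤ (K + 2) * r := by linarith
    have h2 : r ≤ K * r := le_mul_of_one_le_left (by linarith) (by linarith)
    have h3 : (K + 2) * r ≤ (K + 2) ^ m * ((K + 2) * r) :=
      le_mul_of_one_le_left (by linarith) (one_le_pow₀ (by linarith))
    have h4 := ((h r hr).mono le_rfl le_rfl (le_max_left q (1 / 2))).mul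
      ((ih ((K + 2) * r) (by linarith)).mono h1 le_rfl le_rfl) h2 (h1.trans h3)
    rwa [← mul_assoc, ← pow_succ, ← pow_succ'] at h4

theorem armB_decay : ∃ C α : ℝ, 0 < C ∧ 0 < α ∧ α ≤ 1 ∧
    ∀ r R, 1 ≤ r → r ≤ R → ArmB r R (C * (r / R) ^ α) := by
  obtain ⟨K, q, hK, q0, q1, h⟩ := RSW3_pow
  have K0 : 0 < K := by linarith
  have b0 : 0 < 1 / K := by positivity
  have b1 : 1 / K < 1 := (div_lt_one K0).2 (by linarith)
  have a0 : 0 < min (Real.logb (1 / K) q) 1 :=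
    lt_min (Real.logb_pos_of_base_lt_one b0 b1 q0 q1) one_pos
  have hq : q ≤ (1 / K) ^ min (Real.logb (1 / K) q) 1 :=
    (Real.rpow_logb b0 b1.ne q0).symm.trans_le
      (Real.rpow_le_rpow_of_exponent_ge b0 b1.le (min_le_left _ _))
  refine ⟨K ^ min (Real.logb (1 / K) q) 1, _, Real.rpow_pos_of_pos K0 _, a0, min_le_right _ _,
    fun r R hr hR => ?_⟩
  generalize min (Real.logb (1 / K) q) 1 = α at a0 hq
  have r0 : 0 < r := by linarith
  have R0 : 0 < R := by linarith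
  obtain ⟨m, m1, m2⟩ := exists_nat_pow_near ((one_le_div r0).2 hR) (show 1 < K by linarith)
  refine (h m r hr).mono le_rfl ((le_div_iff₀ r0).1 m1) ?_
  have e1 : (1 / K) ^ m ≤ K * (r / R) := by
    rw [div_lt_iff₀ r0, pow_succ] at m2
    rw [one_div_pow, ← mul_div_assoc, div_le_div_iff₀ (pow_pos K0 m) R0]
    linarith
  calc q ^ m ≤ ((1 / K) ^ α) ^ m := pow_le_pow_left₀ q0.le hq m
    _ = ((1 / K) ^ m) ^ α := Real.rpow_pow_comm b0.le α m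
    _ ≤ (K * (r / R)) ^ α := Real.rpow_le_rpow (by positivity) e1 a0.le
    _ = K ^ α * (r / R) ^ α := Real.mul_rpow K0.le (by positivity)

theorem armB_small {q : ℝ} (hq : 0 < q) : ∃ K : ℝ, 2 ≤ K ∧ ∀ r, 1 ≤ r → ArmB r (K * r) q := by
  obtain ⟨K, q₀, hK, -, q1, h⟩ := RSW3_pow
  obtain ⟨m, hm⟩ := exists_pow_lt_of_lt_one hq q1
  refine ⟨max 2 (K ^ m), le_max_left _ _, fun r hr => (h m r hr).mono le_rfl ?_ hm.le⟩
  exact mul_le_mul_of_nonneg_right (le_max_right _ _) (by linarith)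

theorem ArmB.shift {r R q : ℝ} (h : ArmB r R q) (p : Site) {Y S₀ : Finset Site} (hS : S₀ ⊆ Y) :
    pr Y.powerset (fun S => ∃ b, Crs (S ∆ S₀ : Finset Site) p r R b) ≤ q :=
  (avg_shift hS fun S => if ∃ b, Crs S p r R b then (1 : ℝ) else 0).trans_le (h p Y)

theorem ArmB.blue {r R q : ℝ} (h : ArmB r R q) (p : Site) (Y : Finset Site) :
    pr Y.powerset (fun S => ∃ b, Crs (Y \ S : Finset Site) p r R b) ≤ q :=
  (avg_compl Y fun S => if ∃ b, Crs S p r R b then (1 : ℝ) else 0).trans_le (h p Y)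

end Pool.Agent.TAF.U
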