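import Pool.Agent.P.MP_cb4022_pr.U.FDef

/-! Sector indices of sources (paper F5, signs). -/

open scoped Classical symmDiff

noncomputable section

namespace Pool.Agent.TAF.U

/-- the index of a vertex in `X` -/
def fv (X : Set Site) (t : Tri) : Fin 3 := if h : ∃ p, vtx t p ∈ X then h.choose else 0

theorem fv_eq {X : Set Site} {t : Tri} {p : Fin 3} (h0 : vtx t p ∈ X) (h1 : vtx t (p + 1) ∉ X)
    (h2 : vtx t (p + 2) ∉ X) : fv X t = p := by
  have hex : ∃ p, vtx t p ∈ X := ⟨p, h0⟩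
  rw [fv, dif_pos hex]
  have h := hex.choose_spec
  rcases fin3_cases p hex.choose with e | e | e
  · exact e
  · exact absurd (e ▸ h) h1
  · exact absurd (e ▸ h) h2

def Av (D : Finset Site) (u u' : Tri) : ℤ :=
  Jw D u u' (fv D u') - off (vtx u' (fv D u')) u'

/-- a flow from `tau0` to `v` along `H` with its potential on `H` -/
def IsIn (H : Finset Site) (v : Tri) (η : Edge →₀ ℤ) (Ψ : Site → ℤ) : Prop :=
  (∀ e, η e ≠ 0 → Touch e H) ∧
    (∀ t, dv η t = (if t = v then 1 else 0) - (if t = tau0 then 1 else 0)) ∧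
    (∀ e, Inside e H → cob Ψ e = η e - kap e) ∧ Ψ 0 = Mc η

def inVal (v' : Tri) (p : Fin 3) (η : Edge →₀ ℤ) (Ψ : Site → ℤ) : ℤ :=
  Ψ (vtx v' (p + 2)) + inc (fun e => η e - kap e) v' (p + 2) p - off (vtx v' p) v'

def Bv (H : Finset Site) (v v' : Tri) : ℤ :=
  if h : ∃ P : (Edge →₀ ℤ) × (Site → ℤ), IsIn H v P.1 P.2 then
    inVal v' (fv (H : Set Site)ᶜ v') h.choose.1 h.choose.2 else 0

def Ap (D : Finset Site) (u u' : Tri) : ℤ := Av D u u' - Av D u' u'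
def Bp (H : Finset Site) (v v' : Tri) : ℤ := Bv H v v' - Bv H v' v'

theorem Sgn1_f (p : Fin 3) : p + 1 + 1 = p + 2 ∧ p + 1 + 2 = p ∧ p + 2 + 1 = p ∧
    p + 2 + 2 = p + 1 ∧ p + 1 ≠ p ∧ p + 2 ≠ p ∧ p + 1 ≠ p + 2 := by
  revert p
  decide

theorem Sgn1_inc1 (φ : Edge → ℤ) (t : Tri) (p : Fin 3) : inc φ t p (p + 1) =
    if t.2 then φ (side t (p + 2)) else -φ (side t (p + 2)) := by
  rw [inc, if_pos rfl]

theorem Sgn1_inc2 (φ : Edge → ℤ) (t : Tri) (p : Fin 3) : inc φ t (p + 2) p =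
    if t.2 then φ (side t (p + 1)) else -φ (side t (p + 1)) := by
  rw [inc, if_pos (Sgn1_f p).2.2.1.symm, (Sgn1_f p).2.2.2.1]

theorem Sgn1_end {τ : Tri} {i p : Fin 3} (h : p ≠ i) :
    vtx τ p = lft (side τ i) ∨ vtx τ p = rgt (side τ i) := by
  rw [lft_side, rgt_side]
  rcases fin3_cases i p with rfl | rfl | rfl
  · exact absurd rfl h
  · split_ifs <;> simp
  · split_ifs <;> simp

/-- at the end of a line -/
theorem Sgn1_in {l : Edge →₀ ℤ} {τ : Tri} {i p : Fin 3} (hp : p ≠ i)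
    (hz : ∀ r, r ≠ i → l (side τ r) = 0) (hd : dv l τ = 1) :
    inc l τ p (p + 1) + isL l (side τ i) (vtx τ p) = 0 := by
  obtain ⟨f1, f2, f3, f4, f5, f6, f7⟩ := Sgn1_f i
  rw [dv_eq _ τ i, hz _ f5, hz _ f6, add_zero, add_zero] at hd
  rw [JPot_isL_vtx, Sgn1_inc1]
  rcases fin3_cases i p with rfl | rfl | rfl
  · exact absurd rfl hp
  · rw [f2]
    cases hb : τ.2
    · simp only [hb, Bool.false_eq_true, if_false] at hd ⊢
      simp [hd]
    · simp only [hb, if_true] at hd ⊢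
      have h1 : l (side τ i) = -1 := by omega
      simp [h1]
  · rw [f4, hz _ f5]
    cases hb : τ.2
    · simp only [hb, Bool.false_eq_true, if_false] at hd ⊢
      simp [hd, f7.symm]
    · simp only [hb, if_true] at hd ⊢
      have h1 : l (side τ i) = -1 := by omega
      simp [h1, f7.symm]

/-- at the start of a line -/
theorem Sgn1_out {l : Edge →₀ ℤ} {τ : Tri} {i p : Fin 3} (hp : p ≠ i)
    (hz : ∀ r, r ≠ i → l (side τ r) = 0) (hd : dv l τ = -1) :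
    isL l (side τ i) (vtx τ p) = inc l τ (p + 2) p := by
  obtain ⟨f1, f2, f3, f4, f5, f6, f7⟩ := Sgn1_f i
  rw [dv_eq _ τ i, hz _ f5, hz _ f6, add_zero, add_zero] at hd
  rw [JPot_isL_vtx, Sgn1_inc2]
  rcases fin3_cases i p with rfl | rfl | rfl
  · exact absurd rfl hp
  · rw [f1, hz _ f6]
    cases hb : τ.2
    · simp only [hb, Bool.false_eq_true, if_false] at hd ⊢
      simp [hd, f7]
    · simp only [hb, if_true] at hd ⊢
      have h1 : l (side τ i) = 1 := by omega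
      simp [h1, f7]
  · rw [f3]
    cases hb : τ.2
    · simp only [hb, Bool.false_eq_true, if_false] at hd ⊢
      simp [hd]
    · simp only [hb, if_true] at hd ⊢
      have h1 : l (side τ i) = 1 := by omega
      simp [h1]

theorem Sgn1_only {ξ : Finset Edge} (hs : Simple ξ) {τ : Tri} (ho : IsOdd ξ τ) {i : Fin 3}
    (hi : side τ i ∈ ξ) (t : Tri) (r : Fin 3) (hr : r ≠ i) : line ξ t (side τ r) = 0 := by
  by_contra hne
  exact hr (Line_side_unique hs ho hi (line_supp hne).1)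

/-- the present side of an outer tip -/
theorem Sgn1_side {ξ : Finset Edge} {D : Finset Site} (hξ : ∀ e ∈ ξ, Touch e D) {u : Tri}
    (ho : IsOdd ξ u) {p : Fin 3} (h1 : vtx u (p + 1) ∉ D) (h2 : vtx u (p + 2) ∉ D) :
    ∃ i, side u i ∈ ξ ∧ p ≠ i := by
  obtain ⟨i, hi⟩ := Line_exists_side ho
  refine ⟨i, hi, ?_⟩
  rintro rfl
  exact (touch_side.1 (hξ _ hi)).elim h1 h2

theorem Sgn1_Av {D : Finset Site} (hb : bal 0 6 ⊆ D) (hD : SConn D) (hO : SConn (D : Set Site)ᶜ)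
    {u : Tri} (hu : OutTip D u) {φ : Edge →₀ ℤ} (hφ : IsRef D u φ) :
    ∃ Φ : Site → ℤ, (∀ e, Inside e D → cob Φ e = φ e - kap e) ∧ Φ 0 = Mc φ ∧
      ∀ t p, vtx t p ∈ D → vtx t (p + 1) ∉ D → vtx t (p + 2) ∉ D →
        Av D u t = Φ (vtx t p) + inc φ t p (p + 1) - off (vtx t p) t := by
  obtain ⟨Φ, h1, h2⟩ := JPot_ref_pot hO hu hφ
  refine ⟨Φ, h1, h2, fun t p a0 a1 a2 => ?_⟩
  rw [Av, fv_eq (X := D) a0 a1 a2, Jw_spec hb hD hO hu hφ h1 h2 a0 a1]

section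
variable {s R : ℝ} {D H : Finset Site} {ξ : Finset Edge} {u v u' v' : Tri}

/-- `hug`, `exists_pot` with `D = bal 0 s` -/
theorem exists_isIn (h0 : (0 : Site) ∈ H) (hs : H ⊆ bal 0 s) (hH : SConn H) (hv : InTip s H v) :
    ∃ η Ψ, IsIn H v η Ψ := by
  obtain ⟨p, a0, a1, -⟩ := hv
  obtain ⟨η, h1, h2⟩ := hug hH (tt_tau0 h0) (t' := v) ⟨_, a1⟩
  obtain ⟨Ψ, h3, h4⟩ := exists_pot (sconn_compl_bal 0 s) η 1 (fun t ht => by
    rw [h2, if_neg fun e => a0 (by rw [← e]; exact ht p)]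
    split_ifs <;> ring) (Mc η)
  exact ⟨η, Ψ, h1, h2, fun e he => by rw [h3 e ⟨hs he.1, hs he.2⟩, one_mul], h4⟩

/-- the difference of two choices is `cob Ξ` with `Ξ = 0` off `bal 0 s` -/
theorem Bv_spec (h0 : (0 : Site) ∈ H) (hs : H ⊆ bal 0 s) (hH : SConn H) {η : Edge →₀ ℤ}
    {Ψ : Site → ℤ} (h : IsIn H v η Ψ) {p : Fin 3} (p0 : vtx v' p ∉ bal 0 s)
    (p1 : vtx v' (p + 1) ∈ H) (p2 : vtx v' (p + 2) ∈ H) : Bv H v v' = inVal v' p η Ψ := by
  have hex : ∃ P : (Edge →₀ ℤ) × (Site → ℤ), IsIn H v P.1 P.2 := ⟨(η, Ψ), h⟩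
  rw [Bv, dif_pos hex, fv_eq (X := (H : Set Site)ᶜ) (fun hh => p0 (hs hh)) (fun hh => hh p1)
    fun hh => hh p2]
  obtain ⟨a1, a2, a3, a4⟩ := hex.choose_spec
  obtain ⟨b1, b2, b3, b4⟩ := h
  have hz : ∀ {θ : Edge →₀ ℤ}, (∀ e, θ e ≠ 0 → Touch e H) → ∀ e,
      Inside e (bal 0 s : Set Site)ᶜ → θ e = 0 := fun hθ e he => by
    by_contra hne
    exact (hθ e hne).elim (fun hh => he.1 (hs hh)) fun hh => he.2 (hs hh)
  obtain ⟨Ξ, c1, c2, c3⟩ := JPot_diff (k := 1) h0 hH (sconn_compl_bal 0 s) (JPot_inf _)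
    (fun e he => (hz a1 e he).trans (hz b1 e he).symm) (fun t => (a2 t).trans (b2 t).symm)
    (fun e he => by rw [a3 e he, one_mul]) (fun e he => by rw [b3 e he, one_mul]) a4 b4
  have d1 : inc (cob Ξ) v' (p + 2) p = Ξ (vtx v' p) - Ξ (vtx v' (p + 2)) :=
    inc_of_cob fun _ _ _ => rfl
  have d2 := c3 _ p2
  rw [c2 _ p0, Sgn1_inc2, c1] at d1
  simp only [inVal, Sgn1_inc2]
  split_ifs at d1 ⊢ <;> omega

/-- `η' = rotA.mF η + kg`, `Ψ' (gS a) = Ψ a - secS a + secT v`; `kap_rot`, `Mc_rot`, `off_rot` -/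
theorem Bv_rot (h0 : (0 : Site) ∈ H) (hs : H ⊆ bal 0 s) (hH : SConn H) (hv : InTip s H v)
    (hv' : InTip s H v') :
    Bv (rotA.mS H) (gT v) (gT v') = Bv H v v' + secT v - secT v' := by
  obtain ⟨η, Ψ, hI⟩ := exists_isIn h0 hs hH hv
  obtain ⟨p, p0, p1, p2⟩ := hv'
  have z0 : (0 : Site) ∈ rotA.mS H := (rotA.mem_mS (x := 0)).2 h0
  have b2 : rotA.mS H ⊆ bal 0 s := AutL_sub s hs
  have b3 : SConn (rotA.mS H) := by
    rw [rotA.coe_mS, rotA.sconn_iff]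
    exact hH
  have hk : ∀ e, (rotA.mF η + kg) (rotA.fE e) - kap (rotA.fE e) = η e - kap e - cob secS e :=
    fun e => by
      have a2 : kap e + kg (rotA.fE e) - kap (rotA.fE e) = -cob secS e := kap_rot e
      rw [Finsupp.add_apply, Aut.mF_apply]
      omega
  obtain ⟨a1, a2, a3, a4⟩ := id hI
  have hQ : IsIn (rotA.mS H) (gT v) (rotA.mF η + kg)
      fun x => Ψ (gS.symm x) - secS (gS.symm x) + secT v := by
    refine ⟨fun e he => ?_, fun t => ?_, fun e he => ?_, ?_⟩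
    · obtain ⟨e, rfl⟩ := rotA.fE.surjective e
      by_cases h1 : η e = 0
      · have h2 : kg (rotA.fE e) ≠ 0 := fun h2 => he (by simp [h1, h2])
        exact (kg_touch h2).imp (fun hh => by rw [hh]; exact z0) fun hh => by rw [hh]; exact z0
      · rw [rotA.coe_mS, rotA.touch_iff]
        exact a1 e h1
    · obtain ⟨t, rfl⟩ := rotA.fT.surjective t
      have e3 : ∀ t', rotA.fT t = gT t' ↔ t = t' := fun _ => gT.injective.eq_iff
      rw [Finsupp.coe_add, dv_add, rotA.dv_mF, a2, dv_kg]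
      simp only [e3]
      ring
    · obtain ⟨e, rfl⟩ := rotA.fE.surjective e
      rw [rotA.coe_mS, rotA.inside_iff] at he
      have c3 : gS.symm (lft (rotA.fE e)) = lft e := by
        rw [rotA.lft_fE]
        exact gS.symm_apply_apply _
      have c4 : gS.symm (rgt (rotA.fE e)) = rgt e := by
        rw [rotA.rgt_fE]
        exact gS.symm_apply_apply _
      rw [hk, ← a3 e he]
      simp only [cob, c3, c4]
      ring
    · have c1 : gS.symm 0 = 0 := rfl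
      have c2 : secS 0 = 0 := by simp [secS]
      have c3 := Mc_rot η {v, tau0} fun t ht => by
        by_contra hn
        rw [Finset.mem_insert, Finset.mem_singleton, not_or] at hn
        exact ht (by rw [a2, if_neg hn.1, if_neg hn.2, sub_zero])
      have c4 : ∑ t ∈ ({v, tau0} : Finset Tri), secT t * dv η t = secT v := by
        by_cases n : v = tau0
        · rw [n]
          simp [secT_tau0]
        · rw [Finset.sum_pair n, secT_tau0, a2, if_pos rfl, if_neg n]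
          ring
      rw [c4] at c3
      rw [map_add, Mc_kg, c3]
      simp only [c1, c2, a4]
      ring
  have v0 : vtx (gT v') (p + 1) = gS (vtx v' p) := rotA.vtx_eq v' p
  have v1 : vtx (gT v') (p + 1 + 1) = gS (vtx v' (p + 1)) := rotA.AutL_vtx v' p 1
  have v2 : vtx (gT v') (p + 1 + 2) = gS (vtx v' (p + 2)) := rotA.AutL_vtx v' p 2
  have s1 : side (gT v') (p + 1 + 1) = rotA.fE (side v' (p + 1)) := rotA.AutL_side v' p 1
  have d1 : inc (cob secS) v' (p + 2) p = secS (vtx v' p) - secS (vtx v' (p + 2)) :=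
    inc_of_cob fun _ _ _ => rfl
  have d2 := off_rot (t := v') (p := p) fun e => p0 (e ▸ hs h0)
  have d3 : (gT v').2 = v'.2 := rfl
  rw [Bv_spec h0 hs hH hI p0 p1 p2, Bv_spec (p := p + 1) z0 b2 b3 hQ
    (by rw [v0, ← rot_bal]; exact fun hh => p0 (rotA.mem_mS.1 hh))
    (by rw [v1]; exact rotA.mem_mS.2 p1) (by rw [v2]; exact rotA.mem_mS.2 p2)]
  rw [Sgn1_inc2] at d1
  simp only [inVal, Sgn1_inc2, v0, v2, s1, hk, d2, d3, Equiv.symm_apply_apply]
  split_ifs at d1 ⊢ <;> omega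

theorem Sgn1_all (h : Dom s R D H) (iv : InTip s H v) : AllIn v D := by
  obtain ⟨p, -, a, -⟩ := iv
  exact JPot_sep h v ⟨_, a⟩

theorem Sgn1_ne (h : Dom s R D H) (iv : InTip s H v) (ou : OutTip D u) : v ≠ u := by
  rintro rfl
  obtain ⟨p, -, a, -⟩ := ou
  exact a (Sgn1_all h iv _)

theorem Sgn1_Y (h : Dom s R D H) (hξ : ξ ⊆ allowed D H) (f : Edge) (hf : f ∈ ξ) :
    Touch f (D \ H : Finset Site) := by
  obtain ⟨a1, a2⟩ := mem_allowed.1 (hξ hf)
  by_contra hn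
  simp only [Touch, Finset.coe_sdiff, Set.mem_sdiff, Finset.mem_coe, not_or, not_and,
    not_not] at hn
  have a3 : Touch f H := a1.imp hn.1 hn.2
  have a4 := JPot_sep h _ a3.tt_up
  exact a2 ⟨hn.1 (a4 _), hn.2 (a4 _)⟩

theorem Sgn1_mem (h : Dom s R D H) {p : Fin 3} (a0 : vtx u p ∈ D) (a1 : vtx u (p + 1) ∉ D) :
    vtx u p ∈ D \ H :=
  Finset.mem_sdiff.2 ⟨a0, fun hh => a1 (JPot_sep h u ⟨p, hh⟩ _)⟩

/-- the potential of a through line, read at both walls -/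
theorem Sgn1_thru (h : Dom s R D H) (hξ : ξ ⊆ allowed D H) (hs : Simple ξ) (iv : InTip s H v)
    (ou : OutTip D u) (o1 : IsOdd ξ v) (o2 : IsOdd ξ u) (c1 : Conn ξ v u) :
    ∃ Φ : Site → ℤ, (∀ e, Inside e (D \ H : Finset Site) → cob Φ e = line ξ v e - kap e) ∧
      (∀ t p, vtx t p ∈ D → vtx t (p + 1) ∉ D → vtx t (p + 2) ∉ D →
        Av D u t = Φ (vtx t p) + inc (line ξ v) t p (p + 1) - off (vtx t p) t) ∧
      ∀ t p, vtx t p ∉ bal 0 s → vtx t (p + 1) ∈ H → vtx t (p + 2) ∈ H →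
        Bv H v t + Mc (line ξ v) = Φ (vtx t p) - inc (line ξ v) t (p + 2) p - off (vtx t p) t := by
  obtain ⟨η, Ψ, hI⟩ := exists_isIn h.zero h.hs h.connH iv
  obtain ⟨a1, a2, a3, a4⟩ := id hI
  have hb : bal 0 6 ⊆ D := (bal_mono 0 (by linarith [h.gap, h.nonneg])).trans h.hR
  have hφ : IsRef D u (line ξ v + η) := by
    refine ⟨fun e he => ?_, fun t => ?_⟩
    · by_cases h1 : line ξ v e = 0
      · have h2 : η e ≠ 0 := fun h2 => he (by simp [h1, h2])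
        exact (a1 e h2).imp (fun hh => h.sub hh) fun hh => h.sub hh
      · exact (mem_allowed.1 (hξ (line_supp h1).1)).1
    · rw [Finsupp.coe_add, dv_add, dv_line hs o1 o2 (Sgn1_ne h iv ou) c1, a2]
      ring
  obtain ⟨Φ, b1, b2, b3⟩ := Sgn1_Av hb h.connD h.connO ou hφ
  refine ⟨Φ, fun e he => ?_, fun t p q0 q1 q2 => ?_, fun t p q0 q1 q2 => ?_⟩
  · have m1 := Finset.mem_sdiff.1 he.1
    have m2 := Finset.mem_sdiff.1 he.2
    have z : η e = 0 := by
      by_contra hne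
      exact (a1 e hne).elim m1.2 m2.2
    rw [b1 e ⟨m1.1, m2.1⟩, Finsupp.add_apply, z, add_zero]
  · have e1 : inc η t p (p + 1) = 0 := inc_eq_zero fun r _ _ => by
      by_contra hne
      exact q1 (JPot_sep h t (a1 _ hne).tt _)
    rw [b3 t p q0 q1 q2, Finsupp.coe_add, inc_add, e1, add_zero]
  · have c := Jn.const (Φ := fun x => Φ x - Ψ x) (fun e he => ?_) (h.connH _ q2 _ h.zero)
    · have hA := JPot_sep h t ⟨_, q1⟩
      have d1 : inc (cob Φ) t (p + 2) p = Φ (vtx t p) - Φ (vtx t (p + 2)) :=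
        inc_of_cob fun _ _ _ => rfl
      rw [Sgn1_inc2, b1 _ (inside_side.2 ⟨hA _, hA _⟩), Finsupp.add_apply] at d1
      rw [map_add] at b2
      rw [Bv_spec h.zero h.hs h.connH hI q0 q1 q2]
      simp only [inVal, Sgn1_inc2]
      split_ifs at d1 ⊢ <;> omega
    · have z : line ξ v e = 0 := by
        by_contra hne
        exact (mem_allowed.1 (hξ (line_supp hne).1)).2 he
      have d1 := b1 e ⟨h.sub he.1, h.sub he.2⟩
      have d2 := a3 e he
      simp only [cob, Finsupp.add_apply] at d1 d2 ⊢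
      omega

/-- R1. Take `η` from `exists_isIn`, the potential `Φ` of `line ξ v + η` in `D` (`exists_pot`,
`Jw_spec`, `Bv_spec`), and `side_lemma` on the component of `v'` with `Y = D \ H`, `k = 1`, and
`a = 1` if `v = v'`, `a = 0` otherwise. -/
theorem Av_Bv (h : Dom s R D H) (hξ : ξ ⊆ allowed D H) (hs : Simple ξ) (iv : InTip s H v)
    (iv' : InTip s H v') (ou : OutTip D u) (ou' : OutTip D u') (o1 : IsOdd ξ v) (o2 : IsOdd ξ u)
    (o3 : IsOdd ξ v') (o4 : IsOdd ξ u') (c1 : Conn ξ v u) (c2 : Conn ξ v' u') :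
    Av D u u' + Mc (line ξ v') = Bv H v v' + Mc (line ξ v) := by
  obtain ⟨Φ, b1, b2, b3⟩ := Sgn1_thru h hξ hs iv ou o1 o2 c1
  have n1 := Sgn1_ne h iv' ou'
  have n2 := Sgn1_ne h iv' ou
  have hA := Sgn1_all h iv'
  obtain ⟨p, p0, p1, p2⟩ := ou'
  obtain ⟨q, q0, q1, q2⟩ := iv'
  obtain ⟨i, i1, i2⟩ := Sgn1_side (fun e he => (mem_allowed.1 (hξ he)).1) o4 p1 p2
  obtain ⟨j, j1⟩ := Line_exists_side o3
  have j2 : q ≠ j := by
    rintro rfl
    exact (mem_allowed.1 (hξ j1)).2 (inside_side.2 ⟨q1, q2⟩)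
  have m1 := Sgn1_mem h p0 p1
  have m2 : vtx v' q ∈ D \ H := Finset.mem_sdiff.2 ⟨hA _, fun hh => q0 (h.hs hh)⟩
  have y0 : (1 : ℤ) = 0 ∨ (0 : Site) ∉ ((D \ H : Finset Site) : Set Site) :=
    Or.inr fun hh => (Finset.mem_sdiff.1 hh).2 h.zero
  rw [b2 u' p p0 p1 p2, b3 v' q q0 q1 q2]
  by_cases hv : v = v'
  · subst hv
    obtain ⟨ρ, r1, r2⟩ := side_lemma hs o3 (a := 1) y0 (Sgn1_Y h hξ) (Φ := Φ) (ψ := 0)
      (fun e he => by rw [b1 e he]; simp) fun _ _ _ => rfl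
    have d1 := r1 u' c2 i i1 _ m1 (Sgn1_end i2)
    have d2 := r1 v (Conn.refl _ _) j j1 _ m2 (Sgn1_end j2)
    have d3 := r2 u' o4 n1.symm c2
    have d4 := Sgn1_in i2 (Sgn1_only hs o4 i1 v)
      (by rw [dv_line hs o3 o4 n1 c2, if_pos rfl, if_neg n1.symm, sub_zero])
    have d5 := Sgn1_out j2 (Sgn1_only hs o3 j1 v) (line_isLine hs o3).2.1
    omega
  · have hn : ∀ τ, Conn ξ v' τ → ∀ r, line ξ v (side τ r) = 0 := fun τ hτ =>
      line_side_zero fun hh => (three_odd hs o1 o2 o3 c1 (hh.trans hτ.symm)).elim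
        (Sgn1_ne h iv ou) fun hh => hh.elim hv n2.symm
    obtain ⟨ρ, r1, r2⟩ := side_lemma hs o3 (a := 0) y0 (Sgn1_Y h hξ) (Φ := Φ) (ψ := line ξ v)
      (fun e he => by rw [b1 e he]; simp) hn
    have d1 := r1 u' c2 i i1 _ m1 (Sgn1_end i2)
    have d2 := r1 v' (Conn.refl _ _) j j1 _ m2 (Sgn1_end j2)
    have d3 := r2 u' o4 n1.symm c2
    have d4 : inc (line ξ v) u' p (p + 1) = 0 := inc_eq_zero fun r _ _ => hn _ c2 r
    have d5 : inc (line ξ v) v' (q + 2) q = 0 := inc_eq_zero fun r _ _ => hn _ (Conn.refl _ _) r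
    omega

theorem Ap_Bp (h : Dom s R D H) (hξ : ξ ⊆ allowed D H) (hs : Simple ξ) (iv : InTip s H v)
    (iv' : InTip s H v') (ou : OutTip D u) (ou' : OutTip D u') (o1 : IsOdd ξ v) (o2 : IsOdd ξ u)
    (o3 : IsOdd ξ v') (o4 : IsOdd ξ u') (c1 : Conn ξ v u) (c2 : Conn ξ v' u') :
    Ap D u u' + Mc (line ξ v') = Bp H v v' + Mc (line ξ v) := by
  have a := Av_Bv h hξ hs iv iv' ou ou' o1 o2 o3 o4 c1 c2
  have b := Av_Bv h hξ hs iv' iv' ou' ou' o3 o4 o3 o4 c2 c2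
  simp only [Ap, Bp]; omega

/-- `two_lines` for the difference of the two potentials, read at the present sides of `u`, `u'` -/
theorem Ap_anti (h : Dom s R D H) (hR : 2 * s + 6 ≤ R) (hξ : ξ ⊆ allowed D H) (hs : Simple ξ)
    (iv : InTip s H v) (iv' : InTip s H v') (ou : OutTip D u) (ou' : OutTip D u') (o1 : IsOdd ξ v)
    (o2 : IsOdd ξ u) (o3 : IsOdd ξ v') (o4 : IsOdd ξ u') (c1 : Conn ξ v u) (c2 : Conn ξ v' u')
    (hne : u ≠ u') : Ap D u u' + Ap D u' u = 1 := by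
  obtain ⟨Φ, b1, b2, -⟩ := Sgn1_thru h hξ hs iv ou o1 o2 c1
  obtain ⟨Φ', b3, b4, -⟩ := Sgn1_thru h hξ hs iv' ou' o3 o4 c2
  have n1 := Sgn1_ne h iv ou
  have n2 := Sgn1_ne h iv' ou'
  have hn : ¬ Conn ξ v v' := fun hh => (three_odd hs o1 o2 o4 c1 (hh.trans c2)).elim n1
    fun hh => hh.elim (Sgn1_ne h iv ou') hne
  have tt : ∀ {w}, InTip s H w → TT w H := fun ⟨_, _, a, _⟩ => ⟨_, a⟩
  have t2 := JPot_out_tt' ou
  have t4 := JPot_out_tt' ou'
  obtain ⟨p, p0, p1, p2⟩ := ou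
  obtain ⟨q, q0, q1, q2⟩ := ou'
  obtain ⟨i, i1, i2⟩ := Sgn1_side (fun e he => (mem_allowed.1 (hξ he)).1) o2 p1 p2
  obtain ⟨j, j1, j2⟩ := Sgn1_side (fun e he => (mem_allowed.1 (hξ he)).1) o4 q1 q2
  have d0 := two_lines h hR hξ hs o1 o2 o3 o4 (tt iv) t2 (tt iv') t4 c1 c2 hn
    (Δ := fun x => Φ x - Φ' x) (fun e he => by
      have a1 := b1 e he
      have a2 := b3 e he
      simp only [cob] at a1 a2 ⊢
      omega) i1 j1 (c1.trans (conn_up_side i1)) (c2.trans (conn_up_side j1))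
    (Sgn1_mem h p0 p1) (Sgn1_mem h q0 q1) (Sgn1_end i2) (Sgn1_end j2)
  have d1 := Sgn1_in i2 (Sgn1_only hs o2 i1 v)
    (by rw [dv_line hs o1 o2 n1 c1, if_pos rfl, if_neg n1.symm, sub_zero])
  have d2 := Sgn1_in j2 (Sgn1_only hs o4 j1 v')
    (by rw [dv_line hs o3 o4 n2 c2, if_pos rfl, if_neg n2.symm, sub_zero])
  have d3 : inc (line ξ v) u' q (q + 1) = 0 := inc_eq_zero fun r _ _ =>
    line_side_zero (fun hh => hn (hh.trans c2.symm)) r
  have d4 : inc (line ξ v') u p (p + 1) = 0 := inc_eq_zero fun r _ _ =>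
    line_side_zero (fun hh => hn (c1.trans hh.symm)) r
  rw [Ap, Ap, b2 u p p0 p1 p2, b2 u' q q0 q1 q2, b4 u p p0 p1 p2, b4 u' q q0 q1 q2]
  omega

/-- A realised pairing `a b`, `c d`: `ref D a + line ξ a` is a reference flow for `b`, and the
potential of `line ξ a` is constant along the line from `c` to `d` (`side_lemma` with
`a = k = 0`, `Y = D`). -/
theorem Av_real (hb : bal 0 6 ⊆ D) (hD : SConn D) (hO : SConn (D : Set Site)ᶜ) (hs : Simple ξ)
    (hξ : ∀ e ∈ ξ, Touch e D) {a b c d : Tri} (ta : OutTip D a) (tb : OutTip D b)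
    (tc : OutTip D c) (td : OutTip D d) (oa : IsOdd ξ a) (ob : IsOdd ξ b) (oc : IsOdd ξ c)
    (od : IsOdd ξ d) (hab : a ≠ b) (c1 : Conn ξ a b) (c2 : Conn ξ c d) (hn : ¬ Conn ξ a c) :
    Av D b c - Av D a c = Av D b d - Av D a d := by
  have hr := ref_isRef (hb (by simp [mem_bal])) hD (JPot_out_tt ta)
  have hφ : IsRef D b (ref D a + line ξ a) := by
    refine ⟨fun e he => ?_, fun t => ?_⟩
    · by_cases h1 : line ξ a e = 0
      · exact hr.1 e fun h2 => he (by simp [h1, h2])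
      · exact hξ e (line_supp h1).1
    · rw [Finsupp.coe_add, dv_add, dv_line hs oa ob hab c1, hr.2]
      ring
  obtain ⟨Φ, b1, -, b2⟩ := Sgn1_Av hb hD hO ta hr
  obtain ⟨Φ', b3, -, b4⟩ := Sgn1_Av hb hD hO tb hφ
  have hz : ∀ τ, Conn ξ c τ → ∀ r, line ξ a (side τ r) = 0 := fun τ hτ =>
    line_side_zero fun hh => hn (hh.trans hτ.symm)
  obtain ⟨A, hA⟩ := JPot_const hs oc hξ (a := 0) (Φ := fun x => Φ' x - Φ x) (ψ := line ξ a)
    (fun e he => by
      have a1 := b1 e he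
      have a2 := b3 e he
      simp only [cob, Finsupp.add_apply] at a1 a2 ⊢
      omega) hz
  have key : ∀ t, OutTip D t → IsOdd ξ t → Conn ξ c t → Av D b t - Av D a t = A := by
    rintro t ⟨p, p0, p1, p2⟩ ot ct
    obtain ⟨i, i1, i2⟩ := Sgn1_side hξ ot p1 p2
    have d1 := hA _ i1 (ct.trans (conn_up_side i1)) _ p0 (Sgn1_end i2)
    have d2 : inc (line ξ a) t p (p + 1) = 0 := inc_eq_zero fun r _ _ => hz t ct r
    rw [b2 t p p0 p1 p2, b4 t p p0 p1 p2, Finsupp.coe_add, inc_add, d2]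
    omega
  rw [key c tc oc (Conn.refl _ _), key d td od c2]

end

end Pool.Agent.TAF.U
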