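import Pool.Agent.P.MP_cb4022_pr.U.Sgn1

/-! The sign of a pairing of four sources (paper F5, signs). -/

open scoped Classical symmDiff

noncomputable section

namespace Pool.Agent.TAF.U

/-- a labelling of the four elements of `U` with `a, b` and `c, d` joined -/
def Lab (ξ : Finset Edge) (U : Finset Tri) (a b c d : Tri) : Prop :=
  U = {a, b, c, d} ∧ U.card = 4 ∧ Conn ξ a b ∧ Conn ξ c d

def sgnP (f : Tri → Tri → ℤ) (ξ : Finset Edge) (U : Finset Tri) : ℝ :=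
  if h : ∃ q : Tri × Tri × Tri × Tri, Lab ξ U q.1 q.2.1 q.2.2.1 q.2.2.2 then
    (-1) ^ (f h.choose.1 h.choose.2.2.1 + f h.choose.2.1 h.choose.2.2.2) else 1

def WellP (f : Tri → Tri → ℤ) (ξ : Finset Edge) (U : Finset Tri) : Prop :=
  ∀ a b c d a' b' c' d', Lab ξ U a b c d → Lab ξ U a' b' c' d' →
    Even (f a c + f b d + (f a' c' + f b' d'))

def Anti (f : Tri → Tri → ℤ) (U : Finset Tri) : Prop :=
  ∀ u ∈ U, ∀ u' ∈ U, u ≠ u' → Odd (f u u' + f u' u)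

/-- `ξ` pairs the elements of `U` inside `D` -/
def Pairs (D : Finset Site) (U : Finset Tri) (ξ : Finset Edge) : Prop :=
  (∀ e ∈ ξ, Touch e D) ∧ ∀ t, IsOdd ξ t ↔ t ∈ U

def SameP (U : Finset Tri) (ξ ξ' : Finset Edge) : Prop :=
  ∀ a ∈ U, ∀ b ∈ U, Conn ξ a b ↔ Conn ξ' a b

/-- `π` pairs the elements of `V` inside `H` -/
def InPair (H : Finset Site) (V : Finset Tri) (π : Finset Edge) : Prop :=
  Simple π ∧ (∀ e ∈ π, Inside e H) ∧ ∀ t, IsOdd π t ↔ t ∈ V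

section
variable {s R : ℝ} {D H : Finset Site} {V U : Finset Tri} {ξ ξ' π ζ : Finset Edge}
  {f : Tri → Tri → ℤ}

theorem Sgn2_par {K : Type*} [Field K] {m n : ℤ} (h : Even (m + n)) :
    (-1 : K) ^ m = (-1) ^ n := by
  rcases Int.even_or_odd n with hn | hn
  · rw [hn.neg_one_zpow, ((Int.even_add.1 h).2 hn).neg_one_zpow]
  · have hm : Odd m := by
      rw [← Int.not_even_iff_odd] at hn ⊢
      exact fun hm => hn ((Int.even_add.1 h).1 hm)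
    rw [hn.neg_one_zpow, hm.neg_one_zpow]

theorem Sgn2_par_inv {m n : ℤ} (h : (-1 : ℝ) ^ m = (-1) ^ n) : Even (m + n) := by
  rcases Int.even_or_odd m with hm | hm <;> rcases Int.even_or_odd n with hn | hn
  · exact hm.add hn
  · rw [hm.neg_one_zpow, hn.neg_one_zpow] at h; norm_num at h
  · rw [hm.neg_one_zpow, hn.neg_one_zpow] at h; norm_num at h
  · exact hm.add_odd hn

theorem Sgn2_ne {a b c d : Tri} (hU : U = {a, b, c, d}) (h4 : U.card = 4) :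
    a ≠ b ∧ a ≠ c ∧ a ≠ d ∧ b ≠ c ∧ b ≠ d ∧ c ≠ d := by
  have key : ∀ x y z : Tri, U ⊆ {x, y, z} → False := fun x y z h => by
    have := (Finset.card_le_card h).trans Finset.card_le_three
    omega
  subst hU
  refine ⟨?_, ?_, ?_, ?_, ?_, ?_⟩ <;> rintro rfl
  · exact key a c d (by simp)
  · exact key a b d (by intro t; simp only [Finset.mem_insert, Finset.mem_singleton]; tauto)
  · exact key a b c (by intro t; simp only [Finset.mem_insert, Finset.mem_singleton]; tauto)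
  · exact key a b d (by simp)
  · exact key a b c (by intro t; simp only [Finset.mem_insert, Finset.mem_singleton]; tauto)
  · exact key a b c (by simp)

theorem Sgn2_card {a b c d : Tri} (h1 : a ≠ b) (h2 : a ≠ c) (h3 : a ≠ d) (h4 : b ≠ c)
    (h5 : b ≠ d) (h6 : c ≠ d) : ({a, b, c, d} : Finset Tri).card = 4 :=
  Finset.card_eq_four.2 ⟨a, b, c, d, h1, h2, h3, h4, h5, h6, rfl⟩

theorem Sgn2_mem {a b c d : Tri} (hU : U = {a, b, c, d}) (t : Tri) :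
    t ∈ U ↔ t = a ∨ t = b ∨ t = c ∨ t = d := by
  simp only [hU, Finset.mem_insert, Finset.mem_singleton]

theorem Sgn2_mems {a b c d : Tri} (hU : U = {a, b, c, d}) : a ∈ U ∧ b ∈ U ∧ c ∈ U ∧ d ∈ U := by
  simp [hU]

theorem Sgn2_sum {a b c d : Tri} (hU : U = {a, b, c, d}) (h4 : U.card = 4) {M : Type*}
    [AddCommMonoid M] (g : Tri → M) : ∑ u ∈ U, g u = g a + g b + g c + g d := by
  obtain ⟨h1, h2, h3, h4, h5, h6⟩ := Sgn2_ne hU h4
  rw [hU, Finset.sum_insert (by simp [h1, h2, h3]), Finset.sum_insert (by simp [h4, h5]),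
    Finset.sum_pair h6, add_assoc, add_assoc]

theorem Sgn2_swap2 {a b c d : Tri} (h : Lab ξ U a b c d) : Lab ξ U a b d c :=
  ⟨by rw [h.1, Finset.pair_comm c d], h.2.1, h.2.2.1, h.2.2.2.symm⟩

theorem Sgn2_swap {a b c d : Tri} (h : Lab ξ U a b c d) : Lab ξ U c d a b :=
  ⟨by ext t; rw [Sgn2_mem h.1]; simp only [Finset.mem_insert, Finset.mem_singleton]; tauto,
    h.2.1, h.2.2.2, h.2.2.1⟩

theorem Sgn2_not (hs : Simple ξ) (ho : ∀ t, IsOdd ξ t ↔ t ∈ U) {a b c : Tri} (ha : a ∈ U)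
    (hb : b ∈ U) (hc : c ∈ U) (h1 : a ≠ b) (h2 : a ≠ c) (h3 : b ≠ c) (hab : Conn ξ a b) :
    ¬ Conn ξ a c := fun hac => by
  rcases three_odd hs ((ho a).2 ha) ((ho b).2 hb) ((ho c).2 hc) hab hac with h | h | h
  exacts [h1 h, h2 h, h3 h]

theorem Sgn2_mate (hs : Simple ξ) (ho : ∀ t, IsOdd ξ t ↔ t ∈ U) {a : Tri} (ha : a ∈ U) :
    ∃ b ∈ U, a ≠ b ∧ Conn ξ a b := by
  obtain ⟨b, hb, hne, hc, -⟩ := exists_mate hs ((ho a).2 ha)
  exact ⟨b, (ho b).1 hb, hne.symm, hc⟩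

/-- the other two sources are joined as well -/
theorem Sgn2_second (hs : Simple ξ) (ho : ∀ t, IsOdd ξ t ↔ t ∈ U) {a b c d : Tri}
    (hU : U = {a, b, c, d}) (h4 : U.card = 4) (hab : Conn ξ a b) : Lab ξ U a b c d := by
  refine ⟨hU, h4, hab, ?_⟩
  obtain ⟨h1, h2, h3, h4, h5, h6⟩ := Sgn2_ne hU h4
  obtain ⟨ma, mb, mc, md⟩ := Sgn2_mems hU
  obtain ⟨m, hm, hne, hc⟩ := Sgn2_mate hs ho mc
  rcases (Sgn2_mem hU m).1 hm with rfl | rfl | rfl | rfl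
  · exact (Sgn2_not hs ho ma mb mc h1 h2 h4 hab hc.symm).elim
  · exact (Sgn2_not hs ho ma mb mc h1 h2 h4 hab (hab.trans hc.symm)).elim
  · exact (hne rfl).elim
  · exact hc

theorem Sgn2_extend (hs : Simple ξ) (ho : ∀ t, IsOdd ξ t ↔ t ∈ U) (h4 : U.card = 4) {a b : Tri}
    (ha : a ∈ U) (hb : b ∈ U) (hne : a ≠ b) (hab : Conn ξ a b) : ∃ c d, Lab ξ U a b c d := by
  have hsub : ({a, b} : Finset Tri) ⊆ U := by
    intro t ht
    rcases Finset.mem_insert.1 ht with rfl | ht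
    · exact ha
    · exact Finset.mem_singleton.1 ht ▸ hb
  have h2 : (U \ {a, b}).card = 2 := by
    rw [Finset.card_sdiff_of_subset hsub, h4, Finset.card_pair hne]
  obtain ⟨c, d, -, hcd⟩ := Finset.card_eq_two.1 h2
  refine ⟨c, d, Sgn2_second hs ho ?_ h4 hab⟩
  rw [← Finset.union_sdiff_of_subset hsub, hcd]
  ext t
  simp only [Finset.mem_union, Finset.mem_insert, Finset.mem_singleton, or_assoc]

theorem Sgn2_conn (hs : Simple ξ) (ho : ∀ t, IsOdd ξ t ↔ t ∈ U) {a b c d : Tri}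
    (h : Lab ξ U a b c d) {x y : Tri} (hx : x ∈ U) (hy : y ∈ U) (hxy : x ≠ y) :
    Conn ξ x y ↔ (x = a ∧ y = b) ∨ (x = b ∧ y = a) ∨ (x = c ∧ y = d) ∨ (x = d ∧ y = c) := by
  obtain ⟨hU, h4, hab, hcd⟩ := h
  obtain ⟨h1, h2, h3, h4, h5, h6⟩ := Sgn2_ne hU h4
  obtain ⟨ma, mb, mc, md⟩ := Sgn2_mems hU
  have n := Sgn2_not hs ho ma mb mc h1 h2 h4 hab
  constructor
  · intro hc
    rcases (Sgn2_mem hU x).1 hx with rfl | rfl | rfl | rfl <;>
      rcases (Sgn2_mem hU y).1 hy with rfl | rfl | rfl | rfl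
    · exact (hxy rfl).elim
    · exact Or.inl ⟨rfl, rfl⟩
    · exact (n hc).elim
    · exact (n (hc.trans hcd.symm)).elim
    · exact Or.inr (Or.inl ⟨rfl, rfl⟩)
    · exact (hxy rfl).elim
    · exact (n (hab.trans hc)).elim
    · exact (n ((hab.trans hc).trans hcd.symm)).elim
    · exact (n hc.symm).elim
    · exact (n (hab.trans hc.symm)).elim
    · exact (hxy rfl).elim
    · exact Or.inr (Or.inr (Or.inl ⟨rfl, rfl⟩))
    · exact (n (hc.symm.trans hcd.symm)).elim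
    · exact (n ((hab.trans hc.symm).trans hcd.symm)).elim
    · exact Or.inr (Or.inr (Or.inr ⟨rfl, rfl⟩))
    · exact (hxy rfl).elim
  · rintro (⟨rfl, rfl⟩ | ⟨rfl, rfl⟩ | ⟨rfl, rfl⟩ | ⟨rfl, rfl⟩)
    exacts [hab, hab.symm, hcd, hcd.symm]

theorem Sgn2_same (hs : Simple ξ) (hs' : Simple ξ') (ho : ∀ t, IsOdd ξ t ↔ t ∈ U)
    (ho' : ∀ t, IsOdd ξ' t ↔ t ∈ U) {a b c d : Tri} (h : Lab ξ U a b c d)
    (h' : Lab ξ' U a b c d) : SameP U ξ ξ' := by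
  intro x hx y hy
  by_cases hxy : x = y
  · subst hxy
    exact iff_of_true (Conn.refl _ _) (Conn.refl _ _)
  · rw [Sgn2_conn hs ho h hx hy hxy, Sgn2_conn hs' ho' h' hx hy hxy]

theorem sgnP_cases (f : Tri → Tri → ℤ) (ξ : Finset Edge) (U : Finset Tri) :
    sgnP f ξ U = 1 ∨ sgnP f ξ U = -1 := by
  unfold sgnP
  split_ifs with h
  · rcases Int.even_or_odd (f h.choose.1 h.choose.2.2.1 + f h.choose.2.1 h.choose.2.2.2) with
      e | e
    exacts [Or.inl e.neg_one_zpow, Or.inr e.neg_one_zpow]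
  · exact Or.inl rfl

theorem sgnP_congr (h : SameP U ξ ξ') : sgnP f ξ U = sgnP f ξ' U := by
  have e : Lab ξ U = Lab ξ' U := by
    funext a b c d
    refine propext (and_congr_right fun hU => and_congr_right fun _ => ?_)
    obtain ⟨ma, mb, mc, md⟩ := Sgn2_mems hU
    exact and_congr (h a ma b mb) (h c mc d md)
  unfold sgnP
  rw [e]

theorem WellP.eq (h : WellP f ξ U) {a b c d : Tri} (hl : Lab ξ U a b c d) :
    sgnP f ξ U = (-1) ^ (f a c + f b d) := by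
  have ex : ∃ q : Tri × Tri × Tri × Tri, Lab ξ U q.1 q.2.1 q.2.2.1 q.2.2.2 := ⟨(a, b, c, d), hl⟩
  unfold sgnP
  rw [dif_pos ex]
  exact Sgn2_par (h _ _ _ _ _ _ _ _ ex.choose_spec hl)

theorem Pairs.simple (h : Pairs D U ξ) (hU : ∀ u ∈ U, OutTip D u) : Simple ξ := by
  intro t
  by_cases ht : IsOdd ξ t
  · obtain ⟨p, -, h1, h2⟩ := hU t ((h.2 t).1 ht)
    exact deg_le_two_of_not_mem (i := p) fun he => (touch_side.1 (h.1 _ he)).elim h1 h2
  · exact deg_le_two_of_not_odd ht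

/-- `exists_mate` twice -/
theorem exists_lab (hs : Simple ξ) (ho : ∀ t, IsOdd ξ t ↔ t ∈ U) (h4 : U.card = 4) :
    ∃ a b c d, Lab ξ U a b c d := by
  obtain ⟨a, ha⟩ : U.Nonempty := Finset.card_pos.1 (by omega)
  obtain ⟨b, hb, hne, hc⟩ := Sgn2_mate hs ho ha
  exact ⟨a, b, Sgn2_extend hs ho h4 ha hb hne hc⟩

/-- the pairing is unique (`three_odd`): eight labellings -/
theorem wellP_of (hs : Simple ξ) (ho : ∀ t, IsOdd ξ t ↔ t ∈ U) (ha : Anti f U)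
    (hr : ∀ a b c d, Lab ξ U a b c d → Even (f a c + f b c + (f a d + f b d))) : WellP f ξ U := by
  intro a b c d a' b' c' d' hl hl'
  obtain ⟨h1, h2, h3, h4, h5, h6⟩ := Sgn2_ne hl.1 hl.2.1
  obtain ⟨ma, mb, mc, md⟩ := Sgn2_mems hl.1
  obtain ⟨g1, g2, g3, g4, g5, g6⟩ := Sgn2_ne hl'.1 hl'.2.1
  obtain ⟨na, nb, nc, nd⟩ := Sgn2_mems hl'.1
  have e0 := hr a b c d hl
  have e1 := ha a ma c mc h2
  have e2 := ha a ma d md h3
  have e3 := ha b mb c mc h4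
  have e4 := ha b mb d md h5
  simp only [Int.even_iff, Int.odd_iff] at e0 e1 e2 e3 e4 ⊢
  rcases (Sgn2_conn hs ho hl na nb g1).1 hl'.2.2.1 with
      ⟨rfl, rfl⟩ | ⟨rfl, rfl⟩ | ⟨rfl, rfl⟩ | ⟨rfl, rfl⟩ <;>
    rcases (Sgn2_conn hs ho hl nc nd g6).1 hl'.2.2.2 with
      ⟨rfl, rfl⟩ | ⟨rfl, rfl⟩ | ⟨rfl, rfl⟩ | ⟨rfl, rfl⟩ <;>
    first | omega | exact (g2 rfl).elim | exact (g3 rfl).elim

theorem Sgn2_three (hs : Simple ξ) (hs' : Simple ξ') (ho : ∀ t, IsOdd ξ t ↔ t ∈ U)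
    (ho' : ∀ t, IsOdd ξ' t ↔ t ∈ U) (h : U.card ≤ 3) {a b : Tri} (ha : a ∈ U) (hb : b ∈ U)
    (hab : Conn ξ a b) : Conn ξ' a b := by
  by_cases h1 : a = b
  · exact h1 ▸ Conn.refl _ _
  obtain ⟨m, hm, h2, hc⟩ := Sgn2_mate hs' ho' ha
  by_cases h3 : b = m
  · exact h3 ▸ hc
  obtain ⟨n, hn, h6, hc'⟩ := Sgn2_mate hs ho hm
  have k := Sgn2_not hs ho ha hb hm h1 h2 h3 hab
  have h4 : a ≠ n := by
    rintro rfl
    exact k hc'.symm
  have h5 : b ≠ n := by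
    rintro rfl
    exact k (hab.trans hc'.symm)
  have hsub : ({a, b, m, n} : Finset Tri) ⊆ U := by
    intro t ht
    rcases (Sgn2_mem rfl t).1 ht with rfl | rfl | rfl | rfl <;> assumption
  have := Finset.card_le_card hsub
  rw [Sgn2_card h1 h2 h4 h3 h5 h6] at this
  omega

/-- at most two sources: one pairing only -/
theorem sameP_of_card (hs : Simple ξ) (hs' : Simple ξ') (ho : ∀ t, IsOdd ξ t ↔ t ∈ U)
    (ho' : ∀ t, IsOdd ξ' t ↔ t ∈ U) (h : U.card ≤ 3) : SameP U ξ ξ' := by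
  exact fun a ha b hb => ⟨Sgn2_three hs hs' ho ho' h ha hb, Sgn2_three hs' hs ho' ho h ha hb⟩

/-- four sources, two of them joined in both configurations -/
theorem sameP_of_pair (hs : Simple ξ) (hs' : Simple ξ') (ho : ∀ t, IsOdd ξ t ↔ t ∈ U)
    (ho' : ∀ t, IsOdd ξ' t ↔ t ∈ U) (h : U.card = 4) {a b : Tri} (ha : a ∈ U) (hb : b ∈ U)
    (hab : a ≠ b) (c1 : Conn ξ a b) (c2 : Conn ξ' a b) : SameP U ξ ξ' := by
  obtain ⟨c, d, hl⟩ := Sgn2_extend hs ho h ha hb hab c1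
  exact Sgn2_same hs hs' ho ho' hl (Sgn2_second hs' ho' hl.1 h c2)

theorem Sgn2_real (h : Dom s R D H) (hU : ∀ u ∈ U, OutTip D u) (hξ : Pairs D U ξ)
    {a b c d : Tri} (hl : Lab ξ U a b c d) :
    Even (Ap D a c + Ap D b c + (Ap D a d + Ap D b d)) := by
  have hs := hξ.simple hU
  obtain ⟨h1, h2, h3, h4, h5, h6⟩ := Sgn2_ne hl.1 hl.2.1
  obtain ⟨ma, mb, mc, md⟩ := Sgn2_mems hl.1
  have hb : bal 0 6 ⊆ D := (bal_mono 0 (by linarith [h.nonneg, h.gap])).trans h.hR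
  have := Av_real hb h.connD h.connO hs hξ.1 (hU a ma) (hU b mb) (hU c mc) (hU d md)
    ((hξ.2 a).2 ma) ((hξ.2 b).2 mb) ((hξ.2 c).2 mc) ((hξ.2 d).2 md) h1 hl.2.2.1 hl.2.2.2
    (Sgn2_not hs hξ.2 ma mb mc h1 h2 h4 hl.2.2.1)
  simp only [Ap, Int.even_iff]
  omega

theorem wellP_Ap (h : Dom s R D H) (hU : ∀ u ∈ U, OutTip D u) (ha : Anti (Ap D) U)
    (hξ : Pairs D U ξ) : WellP (Ap D) ξ U := by
  exact wellP_of (hξ.simple hU) hξ.2 ha fun _ _ _ _ hl => Sgn2_real h hU hξ hl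

theorem Sgn2_cross (h : Dom s R D H) (hU : ∀ u ∈ U, OutTip D u) (ha : Anti (Ap D) U)
    (hξ : Pairs D U ξ) (hξ' : Pairs D U ξ') {a b c d : Tri} (hl : Lab ξ U a b c d)
    (hc : Conn ξ' a c) : sgnP (Ap D) ξ U ≠ sgnP (Ap D) ξ' U := by
  obtain ⟨h1, h2, h3, h4, h5, h6⟩ := Sgn2_ne hl.1 hl.2.1
  obtain ⟨ma, mb, mc, md⟩ := Sgn2_mems hl.1
  have hl' : Lab ξ' U a c b d := Sgn2_second (hξ'.simple hU) hξ'.2
    (by rw [hl.1, Finset.insert_comm b c]) hl.2.1 hc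
  rw [(wellP_Ap h hU ha hξ).eq hl, (wellP_Ap h hU ha hξ').eq hl']
  intro he
  have e0 := Sgn2_par_inv he
  have e1 := Sgn2_real h hU hξ hl
  have e2 := Sgn2_real h hU hξ' hl'
  have e3 := ha b mb c mc h4
  simp only [Int.even_iff, Int.odd_iff] at e0 e1 e2 e3
  omega

/-- the sign separates the pairings that can be realised: add the relations `Av_real` of the two
pairings -/
theorem sameP_of_sgn (h : Dom s R D H) (hU : ∀ u ∈ U, OutTip D u) (h4 : U.card = 4)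
    (ha : Anti (Ap D) U) (hξ : Pairs D U ξ) (hξ' : Pairs D U ξ')
    (he : sgnP (Ap D) ξ U = sgnP (Ap D) ξ' U) : SameP U ξ ξ' := by
  have hs := hξ.simple hU
  have hs' := hξ'.simple hU
  obtain ⟨a, b, c, d, hl⟩ := exists_lab hs hξ.2 h4
  obtain ⟨ma, mb, mc, md⟩ := Sgn2_mems hl.1
  obtain ⟨m, hm, hne, hc⟩ := Sgn2_mate hs' hξ'.2 ma
  rcases (Sgn2_mem hl.1 m).1 hm with rfl | rfl | rfl | rfl
  · exact (hne rfl).elim
  · exact sameP_of_pair hs hs' hξ.2 hξ'.2 h4 ma mb hne hl.2.2.1 hc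
  · exact (Sgn2_cross h hU ha hξ hξ' hl hc he).elim
  · exact (Sgn2_cross h hU ha hξ hξ' (Sgn2_swap2 hl) hc he).elim

theorem exists_affine (h : Dom s R D H) (hU : ∀ u ∈ U, OutTip D u) (h4 : U.card = 4)
    {F : Finset Edge → ℝ} (h1 : ∀ ξ, |F ξ| ≤ 1)
    (hF : ∀ ξ ξ', Pairs D U ξ → Pairs D U ξ' → SameP U ξ ξ' → F ξ = F ξ') :
    ∃ A B : ℝ, |B| ≤ 1 ∧ (Anti (Ap D) U → ∀ ξ, Pairs D U ξ → F ξ = A + B * sgnP (Ap D) ξ U) := by
  by_cases ha : Anti (Ap D) U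
  swap
  · exact ⟨0, 0, by simp, fun h' => (ha h').elim⟩
  have key : ∀ σ : ℝ, ∃ p : ℝ, |p| ≤ 1 ∧ ∀ ξ, Pairs D U ξ → sgnP (Ap D) ξ U = σ → F ξ = p := by
    intro σ
    by_cases hex : ∃ ξ₀, Pairs D U ξ₀ ∧ sgnP (Ap D) ξ₀ U = σ
    · obtain ⟨ξ₀, p0, e0⟩ := hex
      exact ⟨F ξ₀, h1 ξ₀, fun ξ p1 e1 =>
        hF ξ ξ₀ p1 p0 (sameP_of_sgn h hU h4 ha p1 p0 (e1.trans e0.symm))⟩
    · exact ⟨0, by simp, fun ξ p1 e1 => (hex ⟨ξ, p1, e1⟩).elim⟩
  obtain ⟨p, hp, kp⟩ := key 1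
  obtain ⟨q, hq, kq⟩ := key (-1)
  refine ⟨(p + q) / 2, (p - q) / 2, ?_, fun _ ξ hξ => ?_⟩
  · rw [abs_le] at hp hq ⊢
    constructor <;> linarith [hp.1, hp.2, hq.1, hq.2]
  · rcases sgnP_cases (Ap D) ξ U with e | e
    · rw [kp ξ hξ e, e]; ring
    · rw [kq ξ hξ e, e]; ring

theorem anti_of_thru (h : Frame s R D H V U) (hR : 2 * s + 6 ≤ R) (hζ : ζ ∈ Om D H (V ∪ U))
    (ht : Thru ζ V U) : Anti (Ap D) U := by
  intro u hu u' hu' hne
  obtain ⟨v, hv, c1⟩ := ht u hu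
  obtain ⟨v', hv', c2⟩ := ht u' hu'
  have o := (mem_Om.1 hζ).2
  rw [Ap_anti h.toDom hR (mem_Om.1 hζ).1 (h.simple hζ) (h.inn v hv) (h.inn v' hv') (h.out u hu)
    (h.out u' hu') ((o v).2 (Finset.mem_union_left _ hv)) ((o u).2 (Finset.mem_union_right _ hu))
    ((o v').2 (Finset.mem_union_left _ hv')) ((o u').2 (Finset.mem_union_right _ hu'))
    c1.symm c2.symm hne]
  exact odd_one

theorem pairs_union (h : Frame s R D H V U) (hπ : InPair H V π) (hζ : ζ ∈ Om D H (V ∪ U)) :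
    Pairs D U (π ∪ ζ) := by
  obtain ⟨hA, o⟩ := mem_Om.1 hζ
  have hd : Disjoint π ζ := Finset.disjoint_left.2 fun e h1 h2 =>
    (mem_allowed.1 (hA h2)).2 (hπ.2.1 e h1)
  refine ⟨fun e he => ?_, fun t => ?_⟩
  · rcases Finset.mem_union.1 he with he | he
    · exact Or.inl (h.toDom.sub (hπ.2.1 e he).1)
    · exact (mem_allowed.1 (hA he)).1
  · have e : π ∪ ζ = π ∆ ζ := hd.symmDiff_eq_sup.symm
    have : t ∈ V → t ∉ U := fun hv => Finset.disjoint_left.1 h.disjoint hv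
    rw [e, isOdd_symmDiff, hπ.2.2, o, Finset.mem_union]
    tauto

theorem Sgn2_ov (hζ : ζ ∈ Om D H (V ∪ U)) {v : Tri} (hv : v ∈ V) : IsOdd ζ v :=
  ((mem_Om.1 hζ).2 v).2 (Finset.mem_union_left _ hv)

theorem Sgn2_ou (hζ : ζ ∈ Om D H (V ∪ U)) {u : Tri} (hu : u ∈ U) : IsOdd ζ u :=
  ((mem_Om.1 hζ).2 u).2 (Finset.mem_union_right _ hu)

/-- a labelling of the inner sources gives a labelling of the outer sources -/
theorem Sgn2_lift (h : Frame s R D H V U) (h4 : U.card = 4) (hζ : ζ ∈ Om D H (V ∪ U))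
    (ht : Thru ζ V U) {a b c d : Tri} (hl : Lab π V a b c d) :
    ∃ a' b' c' d', Lab (π ∪ ζ) U a' b' c' d' ∧
      Even (Ap D a' c' + Ap D b' d' + (Bp H a c + Bp H b d) + Mc (Lf ζ U)) := by
  have hs := h.simple hζ
  have hd := h.disjoint
  obtain ⟨V', hV', hc, hm, -⟩ := dv_Lf hs (fun v => Sgn2_ov hζ) (fun u => Sgn2_ou hζ) hd ht
  have hVV : V' = V := Finset.eq_of_subset_of_card_le hV' (by rw [hc, h4, hl.2.1])
  have ex : ∀ v ∈ V, ∃ u ∈ U, Conn ζ v u := fun v hv => by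
    obtain ⟨u, hu, hc⟩ := (hm v hv).1 (hVV ▸ hv)
    exact ⟨u, hu, hc.symm⟩
  have nvu : ∀ v ∈ V, ∀ u ∈ U, v ≠ u := fun v hv u hu e =>
    Finset.disjoint_left.1 hd hv (e ▸ hu)
  have inj : ∀ v ∈ V, ∀ w ∈ V, ∀ u ∈ U, ∀ u', v ≠ w → Conn ζ v u → Conn ζ w u' → u ≠ u' := by
    rintro v hv w hw u hu u' hne c1 c2 rfl
    rcases three_odd hs (Sgn2_ou hζ hu) (Sgn2_ov hζ hv) (Sgn2_ov hζ hw) c1.symm c2.symm with
      e | e | e
    exacts [nvu v hv u hu e.symm, nvu w hw u hu e.symm, hne e]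
  have key : ∀ v ∈ V, ∀ w ∈ V, ∀ u ∈ U, ∀ u' ∈ U, Conn ζ v u → Conn ζ w u' →
      Ap D u u' + Mc (line ζ w) = Bp H v w + Mc (line ζ v) := fun v hv w hw u hu u' hu' c1 c2 =>
    Ap_Bp h.toDom (mem_Om.1 hζ).1 hs (h.inn v hv) (h.inn w hw) (h.out u hu) (h.out u' hu')
      (Sgn2_ov hζ hv) (Sgn2_ou hζ hu) (Sgn2_ov hζ hw) (Sgn2_ou hζ hu') c1 c2
  have rev : ∀ v ∈ V, ∀ u ∈ U, Conn ζ v u → Mc (line ζ u) = -Mc (line ζ v) :=
    fun v hv u hu c1 => by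
      rw [line_rev hs (Sgn2_ov hζ hv) (Sgn2_ou hζ hu) (nvu v hv u hu) c1, map_neg]
  obtain ⟨h1, h2, h3, h4', h5, h6⟩ := Sgn2_ne hl.1 hl.2.1
  obtain ⟨ma, mb, mc, md⟩ := Sgn2_mems hl.1
  obtain ⟨a', ma', ca⟩ := ex a ma
  obtain ⟨b', mb', cb⟩ := ex b mb
  obtain ⟨c', mc', cc⟩ := ex c mc
  obtain ⟨d', md', cd⟩ := ex d md
  have hsub : ({a', b', c', d'} : Finset Tri) ⊆ U := by
    intro t ht
    rcases (Sgn2_mem rfl t).1 ht with rfl | rfl | rfl | rfl <;> assumption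
  have hU : U = {a', b', c', d'} := (Finset.eq_of_subset_of_card_le hsub (by
    rw [h4, Sgn2_card (inj a ma b mb _ ma' _ h1 ca cb) (inj a ma c mc _ ma' _ h2 ca cc)
      (inj a ma d md _ ma' _ h3 ca cd) (inj b mb c mc _ mb' _ h4' cb cc)
      (inj b mb d md _ mb' _ h5 cb cd) (inj c mc d md _ mc' _ h6 cc cd)])).symm
  have l1 : π ⊆ π ∪ ζ := Finset.subset_union_left
  have l2 : ζ ⊆ π ∪ ζ := Finset.subset_union_right
  refine ⟨a', b', c', d', ⟨hU, h4,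
    ((ca.symm.mono l2).trans (hl.2.2.1.mono l1)).trans (cb.mono l2),
    ((cc.symm.mono l2).trans (hl.2.2.2.mono l1)).trans (cd.mono l2)⟩, ?_⟩
  have k1 := key a ma c mc a' ma' c' mc' ca cc
  have k2 := key b mb d md b' mb' d' md' cb cd
  have r1 := rev a ma a' ma' ca
  have r2 := rev b mb b' mb' cb
  have r3 := rev c mc c' mc' cc
  have r4 := rev d md d' md' cd
  rw [Lf, map_neg, Sgn2_sum hU h4, map_add, map_add, map_add, Int.even_iff]
  omega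

/-- `Ap_Bp` transports `Anti` and the relation of `wellP_of` from `U` to `V`; `line_rev` -/
theorem sgn_thru (h : Frame s R D H V U) (hR : 2 * s + 6 ≤ R) (hV : V.card = 4) (h4 : U.card = 4)
    (hπ : InPair H V π) (hζ : ζ ∈ Om D H (V ∪ U)) (ht : Thru ζ V U) :
    WellP (Bp H) π V ∧ sgnP (Ap D) (π ∪ ζ) U = sgnP (Bp H) π V * (-1) ^ (-Mc (Lf ζ U)) := by
  have hA := wellP_Ap h.toDom h.out (anti_of_thru h hR hζ ht) (pairs_union h hπ hζ)
  have hw : WellP (Bp H) π V := by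
    intro a b c d a' b' c' d' hl hl'
    obtain ⟨_, _, _, _, l1, e1⟩ := Sgn2_lift h h4 hζ ht hl
    obtain ⟨_, _, _, _, l2, e2⟩ := Sgn2_lift h h4 hζ ht hl'
    have e3 := hA _ _ _ _ _ _ _ _ l1 l2
    simp only [Int.even_iff] at e1 e2 e3 ⊢
    omega
  refine ⟨hw, ?_⟩
  obtain ⟨a, b, c, d, hl⟩ := exists_lab hπ.1 hπ.2.2 hV
  obtain ⟨_, _, _, _, l1, e1⟩ := Sgn2_lift h h4 hζ ht hl
  rw [hA.eq l1, hw.eq hl, ← zpow_add₀ (by norm_num)]
  refine Sgn2_par ?_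
  simp only [Int.even_iff] at e1 ⊢
  omega

theorem InPair.rot (h : InPair H V π) : InPair (rotA.mS H) (rotA.mT V) (rotA.mE π) := by
  refine ⟨rotA.simple_iff.2 h.1, fun e he => ?_, fun t => ?_⟩
  · obtain ⟨e, rfl⟩ := rotA.fE.surjective e
    rw [Aut.coe_mS, Aut.inside_iff]
    exact h.2.1 e (rotA.mem_mE.1 he)
  · obtain ⟨t, rfl⟩ := rotA.fT.surjective t
    rw [Aut.isOdd_iff, Aut.mem_mT, h.2.2]

theorem Sgn2_lab_rot {a b c d : Tri} :
    Lab (rotA.mE π) (rotA.mT V) (rotA.fT a) (rotA.fT b) (rotA.fT c) (rotA.fT d) ↔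
      Lab π V a b c d := by
  have e : ({rotA.fT a, rotA.fT b, rotA.fT c, rotA.fT d} : Finset Tri) = rotA.mT {a, b, c, d} := by
    simp only [Aut.mT, Finset.map_insert, Finset.map_singleton, Equiv.coe_toEmbedding]
  simp only [Lab, Aut.conn_iff, e, Aut.mT, Finset.map_inj, Finset.card_map]

theorem Sgn2_rot (h : Frame s R D H V U) {a b c d : Tri} (hl : Lab π V a b c d) :
    Even (Bp (rotA.mS H) (rotA.fT a) (rotA.fT c) + Bp (rotA.mS H) (rotA.fT b) (rotA.fT d) +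
      (sV V + (Bp H a c + Bp H b d))) := by
  obtain ⟨ma, mb, mc, md⟩ := Sgn2_mems hl.1
  have k : ∀ v ∈ V, ∀ w ∈ V, Bp (rotA.mS H) (rotA.fT v) (rotA.fT w) =
      Bp H v w + secT v - secT w := fun v hv w hw => by
    have k1 := Bv_rot h.zero h.hs h.connH (h.inn v hv) (h.inn w hw)
    have k2 := Bv_rot h.zero h.hs h.connH (h.inn w hw) (h.inn w hw)
    change Bv _ (gT v) (gT w) - Bv _ (gT w) (gT w) = Bv H v w - Bv H w w + _ - _
    omega
  rw [k a ma c mc, k b mb d md, sV, Sgn2_sum hl.1 hl.2.1, Int.even_iff]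
  omega

theorem wellP_rot (h : Frame s R D H V U) :
    WellP (Bp (rotA.mS H)) (rotA.mE π) (rotA.mT V) ↔ WellP (Bp H) π V := by
  constructor
  · intro hw a b c d a' b' c' d' hl hl'
    have e1 := Sgn2_rot h hl
    have e2 := Sgn2_rot h hl'
    have e3 := hw _ _ _ _ _ _ _ _ (Sgn2_lab_rot.2 hl) (Sgn2_lab_rot.2 hl')
    simp only [Int.even_iff] at e1 e2 e3 ⊢
    omega
  · intro hw a b c d a' b' c' d' hl hl'
    obtain ⟨a, rfl⟩ := rotA.fT.surjective a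
    obtain ⟨b, rfl⟩ := rotA.fT.surjective b
    obtain ⟨c, rfl⟩ := rotA.fT.surjective c
    obtain ⟨d, rfl⟩ := rotA.fT.surjective d
    obtain ⟨a', rfl⟩ := rotA.fT.surjective a'
    obtain ⟨b', rfl⟩ := rotA.fT.surjective b'
    obtain ⟨c', rfl⟩ := rotA.fT.surjective c'
    obtain ⟨d', rfl⟩ := rotA.fT.surjective d'
    rw [Sgn2_lab_rot] at hl hl'
    have e1 := Sgn2_rot h hl
    have e2 := Sgn2_rot h hl'
    have e3 := hw _ _ _ _ _ _ _ _ hl hl'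
    simp only [Int.even_iff] at e1 e2 e3 ⊢
    omega

theorem sgn_rot (h : Frame s R D H V U) (hV : V.card = 4) (hπ : InPair H V π)
    (hw : WellP (Bp H) π V) :
    sgnP (Bp (rotA.mS H)) (rotA.mE π) (rotA.mT V) = (-1) ^ sV V * sgnP (Bp H) π V := by
  obtain ⟨a, b, c, d, hl⟩ := exists_lab hπ.1 hπ.2.2 hV
  rw [((wellP_rot h).2 hw).eq (Sgn2_lab_rot.2 hl), hw.eq hl, ← zpow_add₀ (by norm_num)]
  exact Sgn2_par (Sgn2_rot h hl)

/-- If all three amplitudes vanish (`amp_eq_zero`, `Frame.card_le`) there is nothing to prove.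
Otherwise `sgn_thru`, `wellP_rot`, `sgn_rot`. -/
theorem sgn_amp3 (h : Frame s R D H V U) (hR : 2 * s + 6 ≤ R) (hV : V.card ≤ 4) (h4 : U.card = 4)
    (hπ : InPair H V π) :
    (sgnP (Bp H) π V : ℂ) * amp D H V U (-1) +
      (sgnP (Bp (rotA.mS H)) (rotA.mE π) (rotA.mT V) : ℂ) * amp D (rotA.mS H) (rotA.mT V) U (-1) +
      (sgnP (Bp (rotA.mS (rotA.mS H))) (rotA.mE (rotA.mE π)) (rotA.mT (rotA.mT V)) : ℂ) *
        amp D (rotA.mS (rotA.mS H)) (rotA.mT (rotA.mT V)) U (-1) =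
    (sgnP (Bp H) π V : ℂ) * amp3 D H V U := by
  by_cases hw : V.card = 4 ∧ WellP (Bp H) π V
  · have e1 := sgn_rot h hw.1 hπ hw.2
    have e2 := sgn_rot h.rot (by rw [Aut.card_mT, hw.1]) hπ.rot ((wellP_rot h).2 hw.2)
    rw [e2, e1, amp3, zpow_add₀ (by norm_num)]
    push_cast
    ring
  · have key : ∀ {H' : Finset Site} {V' : Finset Tri} {π' : Finset Edge}, Frame s R D H' V' U →
        InPair H' V' π' → V'.card = V.card → (WellP (Bp H') π' V' → WellP (Bp H) π V) →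
        amp D H' V' U (-1) = 0 := by
      intro H' V' π' h' hπ' hc hW
      refine amp_eq_zero fun ζ hζ ht => hw ?_
      have := h'.card_le hζ ht
      exact ⟨by omega, hW (sgn_thru h' hR (by omega) h4 hπ' hζ ht).1⟩
    have z0 := key h hπ rfl id
    have z1 := key h.rot hπ.rot (Aut.card_mT _ _) (wellP_rot h).1
    have z2 := key h.rot.rot hπ.rot.rot (by rw [Aut.card_mT, Aut.card_mT])
      fun k => (wellP_rot h).1 ((wellP_rot h.rot).1 k)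
    rw [amp3, z0, z1, z2]
    simp

end

end Pool.Agent.TAF.U
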