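import Pool.Agent.P.MP_cb4022_pr.U.Mix
import Pool.Agent.P.MP_cb4022_pr.U.Nice

/-! The sum of the covariances near a flat boundary (paper H4, CovB). -/

open scoped Classical symmDiff

noncomputable section

namespace Pool.Agent.TAF.U

theorem arc_dep (N : ℕ) (p : Site) (r R : ℝ) :
    Dep {x | r - 1 < dst x p ∧ dst x p ≤ R + 1} (ind fun S => Arc N (bd S) p r R) := by
  intro S S' h
  have key : Arc N (bd S) p r R ↔ Arc N (bd S') p r R := by
    refine arc_congr fun e he => ?_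
    have h1 : dst (lft e) (rgt e) = 1 := dst_adj (adj_lft_rgt e)
    have h2 := dst_tri (lft e) (rgt e) p
    have h3 := dst_tri (rgt e) (lft e) p
    rw [dst_comm (rgt e) (lft e)] at h3
    have h4 : (r - 1 < dst (lft e) p ∧ dst (lft e) p ≤ R + 1) ∧
        r - 1 < dst (rgt e) p ∧ dst (rgt e) p ≤ R + 1 := by
      rcases he with he | he
      · obtain ⟨p1, p2⟩ := mem_ann.1 he
        refine ⟨⟨?_, ?_⟩, ?_, ?_⟩ <;> linarith
      · obtain ⟨p1, p2⟩ := mem_ann.1 he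
        refine ⟨⟨?_, ?_⟩, ?_, ?_⟩ <;> linarith
    rw [mem_bd, mem_bd, h _ h4.1, h _ h4.2]
  simp only [ind, key]

theorem SumC_sub {D Λ S S₀ : Finset Site} (hΛ : Λ ⊆ D) (hS : S₀ ⊆ D) (h : Off Λ S S₀) :
    S ⊆ D := fun x hx => by
  by_cases e : x ∈ Λ
  · exact hΛ e
  · exact hS ((h x e).1 hx)

theorem SumC_triv (Λ S₀ : Finset Site) (j : Site → ℝ) {F : Finset Site → ℝ}
    (f1 : ∀ S, |F S| ≤ 1) (w : Site) : |cov Λ S₀ j F (hx w)| ≤ 12 := by
  refine (abs_cov_le (b := 6) f1 fun S => ?_).trans (by norm_num)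
  rw [abs_of_nonneg (hx_nonneg w S)]
  exact hx_le w S

/-- `cov_total` with `Λ ∩ bal w r`; without four arcs `F` is constant on the fibre (`pivot`);
`mix_hx` for the second term -/
theorem cov_pivot {D Q Λ S₀ : Finset Site} {j : Site → ℝ} {F : Finset Site → ℝ} {w : Site}
    {r R a : ℝ} (hΛ : Λ ⊆ D) (hS : S₀ ⊆ D) (hj : Bd j (1 / 12)) (hF : Meas Q F)
    (f1 : ∀ S, |F S| ≤ 1) (hQ : bal w (R + 1) ∩ D ⊆ Q) (hr : r + 2 ≤ R) (ha0 : 0 ≤ a)
    (ha : ∀ S, Off Λ S S₀ → |cov (Λ ∩ bal w r) S j F (hx w)| ≤ a) :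
    |cov Λ S₀ j F (hx w)| ≤ a * gib Λ S₀ j (ind fun S => Arc 4 (bd S) w (r + 1) R) +
      4000 * (1 / 2) ^ r := by
  rw [cov_total (Λ' := Λ ∩ bal w r) Finset.inter_subset_left]
  refine (abs_add_le _ _).trans (add_le_add ?_ ?_)
  · rw [← gib_mul]
    refine abs_gib_le_gib fun S hS₀ => ?_
    by_cases hA : Arc 4 (bd S) w (r + 1) R
    · simpa only [ind, if_pos hA, mul_one] using ha S hS₀
    · have hSD := SumC_sub hΛ hS hS₀
      rw [cov_congr (F' := fun _ => F S) fun S' hS' => (hF S S' (pivot hSD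
        (SumC_sub (Finset.inter_subset_left.trans hΛ) hSD hS')
        (fun x hx => (hS' x fun e => hx (Finset.mem_inter.1 e).2).symm) hQ hr hA)).symm, cov_const]
      simp only [ind, if_neg hA, mul_zero, abs_zero, le_refl]
  · have hp : (0 : ℝ) ≤ 2000 * (1 / 2) ^ r := by positivity
    rw [cov_comm, cov_congr (F' := fun S => (if Off Λ S S₀ then
      gib (Λ ∩ bal w r) S j (hx w) - gib Λ S₀ j (hx w) else 0) + gib Λ S₀ j (hx w))
      fun S hS₀ => by rw [if_pos hS₀, sub_add_cancel], cov_add, cov_const, add_zero]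
    refine (abs_cov_le (a := 2000 * (1 / 2) ^ r) (b := 1) (fun S => ?_)
      fun S => abs_gib_le fun S' _ => f1 S').trans (le_of_eq (by ring))
    split_ifs with hS₀
    · exact mix_hx hj hS₀ w r
    · rwa [abs_zero]

/-- the four-arc bound near the boundary at the site `w` -/
def PiW (D Λ S₀ : Finset Site) (j : Site → ℝ) (w : Site) (R C : ℝ) : Prop :=
  ∀ r : ℝ, 1 ≤ r → r ≤ R → (∃ o ∉ D, dst o w ≤ r) →
    gib Λ S₀ j (ind fun S => Arc 4 (bd S) w r R) ≤ C * (r / R) ^ (5 / 4 : ℝ)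

/-- One site. `d` is a lower bound for the distance to `Dᶜ` that is sharp up to a factor `2`, or
`d = 1`. With `r = max (2 d) (s ^ (1 / 8))`: `cov_pivot`, `ThG` at the radius `d / 4` (or
`cb_triv` if `d < 4`). -/
theorem cov_site {b A ε C : ℝ} (hb : b ≤ 1 / 12) (hA : 0 ≤ A) (hε : 0 < ε) (hε' : ε ≤ 1 / 16)
    (hG : ThG b A ε) (hC : 0 ≤ C) : ∃ C' s₀ : ℝ, 0 ≤ C' ∧ ∀ (D Q Λ S₀ : Finset Site) (j : Site → ℝ)
      (F : Finset Site → ℝ) (w : Site) (s d : ℝ), s₀ ≤ s → Λ ⊆ D → S₀ ⊆ D → Bd j b →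
      Lip j (2 / s) → Meas Q F → (∀ S, |F S| ≤ 1) → bal w (s / 2) ∩ D ⊆ Q ∩ Λ →
      PiW D Λ S₀ j w (s / 3) C → 1 ≤ d → d ≤ s / 20 → (∃ o ∉ D, dst o w ≤ 2 * d) →
      (d = 1 ∨ ∀ o ∉ D, d < dst o w) →
      |cov Λ S₀ j F (hx w)| ≤
        C' * (d ^ (-(2 + ε)) * (max d (s ^ (1 / 8 : ℝ)) / s) ^ (5 / 4 : ℝ) +
          (1 / 2) ^ (s ^ (1 / 8 : ℝ))) := by
  refine ⟨81 * (768 + 64 * A) * C + 4000, 100, by positivity,
    fun D Q Λ S₀ j F w s d hs hΛ hS hj hL hF f1 hQ hP hd1 hd2 ho hd => ?_⟩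
  set t : ℝ := s ^ (1 / 8 : ℝ) with ht
  have hs0 : 0 < s := by linarith
  have hd0 : 0 < d := by linarith
  have ht2 : t ≤ s / 10 := by
    have h1 : t ≤ s ^ (1 / 2 : ℝ) := Real.rpow_le_rpow_of_exponent_le (by linarith) (by norm_num)
    rw [← Real.sqrt_eq_rpow] at h1
    refine h1.trans (Real.sqrt_le_iff.2 ⟨by positivity, by nlinarith⟩)
  set r : ℝ := max (2 * d) t with hr
  have hr1 : 2 * d ≤ r := le_max_left _ _
  have hr2 : t ≤ r := le_max_right _ _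
  have hr3 : r ≤ s / 10 := max_le (by linarith) ht2
  have hm1 : d ≤ max d t := le_max_left _ _
  have hm2 : t ≤ max d t := le_max_right _ _
  have hr4 : r ≤ 2 * max d t := max_le (by linarith) (by linarith)
  have hdp : 0 < d ^ (-(2 + ε)) := Real.rpow_pos_of_pos hd0 _
  have h64 : (4 : ℝ) ^ (2 + ε) ≤ 64 := by
    calc (4 : ℝ) ^ (2 + ε) ≤ 4 ^ ((3 : ℕ) : ℝ) :=
          Real.rpow_le_rpow_of_exponent_le (by norm_num) (by push_cast; linarith)
      _ = 64 := by rw [Real.rpow_natCast]; norm_num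
  have h4p : (0 : ℝ) < 4 ^ (2 + ε) := by positivity
  have hq : (d / 4) ^ (-(2 + ε)) = 4 ^ (2 + ε) * d ^ (-(2 + ε)) := by
    rw [Real.div_rpow hd0.le (by norm_num), Real.rpow_neg (by norm_num : (0 : ℝ) ≤ 4)]
    field_simp
  have ha : ∀ S, Off Λ S S₀ → |cov (Λ ∩ bal w r) S j F (hx w)| ≤
      (768 + 64 * A) * d ^ (-(2 + ε)) := by
    intro S _
    by_cases h4 : d < 4
    · have h1 : 1 ≤ (d / 4) ^ (-(2 + ε)) :=
        Real.one_le_rpow_of_pos_of_le_one_of_nonpos (by positivity) (by linarith) (by linarith)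
      rw [hq] at h1
      have h2 : 1 ≤ 64 * d ^ (-(2 + ε)) := h1.trans (by gcongr)
      have h3 := SumC_triv (Λ ∩ bal w r) S j f1 w
      have h5 : 0 ≤ A * d ^ (-(2 + ε)) := by positivity
      linarith
    · rw [not_lt] at h4
      have hfar : ∀ o ∉ D, d < dst o w := hd.resolve_left (by linarith)
      have hin : ∀ x, dst x w ≤ d / 2 → x ∈ Q ∧ x ∈ Λ := fun x hx => by
        have h1 : x ∈ D := by
          by_contra h
          linarith [hfar x h]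
        exact Finset.mem_inter.1 (hQ (Finset.mem_inter.2 ⟨mem_bal.2 (by linarith), h1⟩))
      have h1 := hG (d / 4) (by linarith) (Λ ∩ bal w r) S j w
        (fun x hx => by
          have h2 := mem_bal.1 hx
          exact Finset.mem_inter.2 ⟨(hin x (by linarith)).2, mem_bal.2 (by linarith)⟩)
        hj (hL.mono (by
          rw [div_le_div_iff₀ hs0 (by positivity)]
          linarith)) F
        (hF.mono fun x hx => (hin x (by linarith [mem_bal.1 hx])).1) f1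
      rw [hq] at h1
      refine h1.trans ?_
      calc A * (4 ^ (2 + ε) * d ^ (-(2 + ε))) ≤ A * (64 * d ^ (-(2 + ε))) := by gcongr
        _ ≤ _ := by nlinarith
  have h1 := cov_pivot (r := r) (R := s / 3) hΛ hS (hj.mono hb) hF f1
    (fun x hx => by
      obtain ⟨p1, p2⟩ := Finset.mem_inter.1 hx
      have p3 := mem_bal.1 p1
      exact (Finset.mem_inter.1 (hQ (Finset.mem_inter.2 ⟨mem_bal.2 (by linarith), p2⟩))).1)
    (by linarith) (by positivity) ha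
  have h2 := hP (r + 1) (by linarith) (by linarith)
    (by obtain ⟨o, p1, p2⟩ := ho; exact ⟨o, p1, by linarith⟩)
  have hm0 : 0 ≤ max d t / s := by positivity
  have h3 : ((r + 1) / (s / 3)) ^ (5 / 4 : ℝ) ≤ 81 * (max d t / s) ^ (5 / 4 : ℝ) := by
    have p1 : (r + 1) / (s / 3) ≤ 9 * (max d t / s) := by
      rw [div_le_iff₀ (by positivity)]
      have : 9 * (max d t / s) * (s / 3) = 3 * max d t := by field_simp; ring
      rw [this]
      linarith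
    have p2 : (9 : ℝ) ^ (5 / 4 : ℝ) ≤ 81 := by
      calc (9 : ℝ) ^ (5 / 4 : ℝ) ≤ 9 ^ ((2 : ℕ) : ℝ) :=
            Real.rpow_le_rpow_of_exponent_le (by norm_num) (by norm_num)
        _ = 81 := by rw [Real.rpow_natCast]; norm_num
    calc ((r + 1) / (s / 3)) ^ (5 / 4 : ℝ) ≤ (9 * (max d t / s)) ^ (5 / 4 : ℝ) :=
          Real.rpow_le_rpow (by positivity) p1 (by norm_num)
      _ = 9 ^ (5 / 4 : ℝ) * (max d t / s) ^ (5 / 4 : ℝ) := Real.mul_rpow (by norm_num) hm0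
      _ ≤ _ := by gcongr
  have h4 : (1 / 2 : ℝ) ^ r ≤ (1 / 2) ^ t :=
    Real.rpow_le_rpow_of_exponent_ge (by norm_num) (by norm_num) hr2
  have h5 : 0 ≤ d ^ (-(2 + ε)) * (max d t / s) ^ (5 / 4 : ℝ) := by positivity
  have h6 : (0 : ℝ) ≤ (1 / 2) ^ t := by positivity
  have h7 : 0 ≤ 81 * (768 + 64 * A) * C := by positivity
  calc |cov Λ S₀ j F (hx w)| ≤ (768 + 64 * A) * d ^ (-(2 + ε)) *
        (C * (81 * (max d t / s) ^ (5 / 4 : ℝ))) + 4000 * (1 / 2) ^ t := by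
        refine h1.trans (add_le_add (mul_le_mul_of_nonneg_left (h2.trans ?_) (by positivity)) ?_)
        · gcongr
        · gcongr
    _ = 81 * (768 + 64 * A) * C * (d ^ (-(2 + ε)) * (max d t / s) ^ (5 / 4 : ℝ)) +
        4000 * (1 / 2) ^ t := by ring
    _ ≤ _ := by nlinarith

theorem SumC_geo {q B : ℝ} (hq : 1 < q) (hB : 0 ≤ B) {T : Finset ℕ} (h : ∀ k ∈ T, q ^ k ≤ B) :
    ∑ k ∈ T, q ^ k ≤ q / (q - 1) * B := by
  have hq1 : 0 < q - 1 := by linarith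
  have hq0 : 0 < q := by linarith
  rcases T.eq_empty_or_nonempty with rfl | hT
  · rw [Finset.sum_empty]
    positivity
  calc ∑ k ∈ T, q ^ k ≤ ∑ k ∈ Finset.range (T.max' hT + 1), q ^ k :=
        Finset.sum_le_sum_of_subset_of_nonneg
          (fun k hk => Finset.mem_range.2 (Nat.lt_succ_of_le (T.le_max' k hk)))
          fun k _ _ => by positivity
    _ = (q ^ (T.max' hT + 1) - 1) / (q - 1) := geom_sum_eq hq.ne' _
    _ ≤ q * B / (q - 1) := by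
        have h1 := h _ (T.max'_mem hT)
        rw [pow_succ]
        gcongr
        nlinarith
    _ = _ := by ring

theorem SumC_tail : ∃ B : ℝ, 0 ≤ B ∧ ∀ s : ℝ, 1 ≤ s →
    s ^ 3 * (1 / 2 : ℝ) ^ (s ^ (1 / 8 : ℝ)) ≤ B := by
  have hl : 0 < Real.log 2 := Real.log_pos (by norm_num)
  refine ⟨(Nat.factorial 24 : ℝ) / Real.log 2 ^ 24, by positivity, fun s hs => ?_⟩
  have hs0 : 0 ≤ s := by linarith
  set t : ℝ := s ^ (1 / 8 : ℝ) with ht
  have ht0 : 0 ≤ t := Real.rpow_nonneg hs0 _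
  have h1 : s ^ 3 = t ^ 24 := by
    rw [ht, ← Real.rpow_natCast (s ^ (1 / 8 : ℝ)), ← Real.rpow_mul hs0, ← Real.rpow_natCast]
    norm_num
  have h2 : (1 / 2 : ℝ) ^ t = (Real.exp (t * Real.log 2))⁻¹ := by
    rw [Real.rpow_def_of_pos (by norm_num), one_div, Real.log_inv, ← Real.exp_neg]
    congr 1
    ring
  have h3 := Real.pow_div_factorial_le_exp (t * Real.log 2) (by positivity) 24
  rw [div_le_iff₀ (by positivity), mul_pow] at h3
  rw [h1, h2, ← div_eq_mul_inv, div_le_div_iff₀ (Real.exp_pos _) (by positivity)]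
  linarith

theorem SumC_term {ε s d : ℝ} (hε : 0 < ε) (hs : 1 ≤ s) (hd : 1 ≤ d) :
    s * d * (d ^ (-(2 + ε)) * (max d (s ^ (1 / 8 : ℝ)) / s) ^ (5 / 4 : ℝ)) ≤
      s ^ (-(1 / 4) : ℝ) * d ^ (1 / 4 - ε) + s ^ (-(3 / 32) : ℝ) * d⁻¹ := by
  have hs0 : 0 < s := by linarith
  have hd0 : 0 < d := by linarith
  have ht0 : 0 < s ^ (1 / 8 : ℝ) := Real.rpow_pos_of_pos hs0 _
  have h1 : 0 ≤ s ^ (-(1 / 4) : ℝ) * d ^ (1 / 4 - ε) := by positivity
  have h2 : 0 ≤ s ^ (-(3 / 32) : ℝ) * d⁻¹ := by positivity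
  have e1 : s = Real.exp (Real.log s) := (Real.exp_log hs0).symm
  have e2 : d = Real.exp (Real.log d) := (Real.exp_log hd0).symm
  have hld : 0 ≤ Real.log d := Real.log_nonneg hd
  rcases max_choice d (s ^ (1 / 8 : ℝ)) with e | e <;> rw [e]
  · refine le_add_of_le_of_nonneg (le_of_eq ?_) h2
    rw [Real.rpow_def_of_pos hd0, Real.rpow_def_of_pos hd0, Real.rpow_def_of_pos hs0,
      Real.rpow_def_of_pos (div_pos hd0 hs0), Real.log_div hd0.ne' hs0.ne']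
    nth_rewrite 1 [e1, e2]
    rw [← Real.exp_add, ← Real.exp_add, ← Real.exp_add, ← Real.exp_add]
    congr 1
    ring
  · refine le_add_of_nonneg_of_le h1 ?_
    rw [Real.rpow_def_of_pos hd0, Real.rpow_def_of_pos (div_pos ht0 hs0),
      Real.log_div ht0.ne' hs0.ne', Real.log_rpow hs0, Real.rpow_def_of_pos hs0,
      show d⁻¹ = Real.exp (-Real.log d) by rw [Real.exp_neg, Real.exp_log hd0]]
    nth_rewrite 1 [e1, e2]
    rw [← Real.exp_add, ← Real.exp_add, ← Real.exp_add, ← Real.exp_add]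
    apply Real.exp_le_exp.2
    have : 0 ≤ Real.log d * ε := by positivity
    nlinarith

theorem SumC_num {ε : ℝ} (hε : 0 < ε) (hε' : ε ≤ 1 / 16) : ∃ B : ℝ, 0 ≤ B ∧ ∀ s : ℝ, 1 ≤ s →
    ∀ T : Finset ℕ, (∀ k ∈ T, (2 : ℝ) ^ k ≤ s) →
      ∑ k ∈ T, s * 2 ^ k * (((2 : ℝ) ^ k) ^ (-(2 + ε)) *
        (max ((2 : ℝ) ^ k) (s ^ (1 / 8 : ℝ)) / s) ^ (5 / 4 : ℝ) + (1 / 2) ^ (s ^ (1 / 8 : ℝ))) ≤
        B * s ^ (-ε) := by
  obtain ⟨B, hB, hB'⟩ := SumC_tail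
  set q : ℝ := 2 ^ (1 / 4 - ε) with hq
  have hq1 : 1 < q := Real.one_lt_rpow (by norm_num) (by linarith)
  have hq2 : 0 ≤ q / (q - 1) := div_nonneg (by linarith) (by linarith)
  refine ⟨q / (q - 1) + 2 + 2 * B, by positivity, fun s hs T hT => ?_⟩
  have hs0 : 0 < s := by linarith
  have hqk : ∀ k : ℕ, ((2 : ℝ) ^ k) ^ (1 / 4 - ε) = q ^ k := fun k => by
    rw [hq, ← Real.rpow_natCast, ← Real.rpow_natCast, ← Real.rpow_mul (by norm_num),
      ← Real.rpow_mul (by norm_num), mul_comm]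
  have h1 : ∑ k ∈ T, q ^ k ≤ q / (q - 1) * s ^ (1 / 4 - ε) :=
    SumC_geo hq1 (by positivity) fun k hk => by
      rw [← hqk]
      exact Real.rpow_le_rpow (by positivity) (hT k hk) (by linarith)
  have h2 : ∑ k ∈ T, ((2 : ℝ) ^ k)⁻¹ ≤ 2 := by
    refine le_trans (le_of_eq (Finset.sum_congr rfl fun k _ => ?_))
      (sum_le_hasSum T (fun k _ => by positivity) hasSum_geometric_two)
    rw [one_div, inv_pow]
  have h3 : ∑ k ∈ T, (2 : ℝ) ^ k ≤ 2 * s :=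
    (SumC_geo one_lt_two hs0.le hT).trans (le_of_eq (by norm_num))
  have h4 : s ^ (-(1 / 4) : ℝ) * s ^ (1 / 4 - ε) = s ^ (-ε) := by
    rw [← Real.rpow_add hs0]
    congr 1
    ring
  have h5 : s ^ (-(3 / 32) : ℝ) ≤ s ^ (-ε) := Real.rpow_le_rpow_of_exponent_le hs (by linarith)
  have h6 : s * s * (1 / 2 : ℝ) ^ (s ^ (1 / 8 : ℝ)) ≤ B * s ^ (-ε) := by
    have p1 : s⁻¹ ≤ s ^ (-ε) := by
      rw [← Real.rpow_neg_one]
      exact Real.rpow_le_rpow_of_exponent_le hs (by linarith)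
    calc s * s * (1 / 2 : ℝ) ^ (s ^ (1 / 8 : ℝ)) =
          s ^ 3 * (1 / 2 : ℝ) ^ (s ^ (1 / 8 : ℝ)) * s⁻¹ := by field_simp
      _ ≤ B * s ^ (-ε) := mul_le_mul (hB' s hs) p1 (by positivity) hB
  calc _ ≤ ∑ k ∈ T, (s ^ (-(1 / 4) : ℝ) * q ^ k + s ^ (-(3 / 32) : ℝ) * ((2 : ℝ) ^ k)⁻¹ +
        s * (1 / 2 : ℝ) ^ (s ^ (1 / 8 : ℝ)) * 2 ^ k) := by
        refine Finset.sum_le_sum fun k _ => ?_
        have p1 := SumC_term hε hs (one_le_pow₀ (one_le_two (α := ℝ)) (n := k))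
        rw [hqk] at p1
        rw [mul_add]
        linarith
    _ = s ^ (-(1 / 4) : ℝ) * ∑ k ∈ T, q ^ k + s ^ (-(3 / 32) : ℝ) * ∑ k ∈ T, ((2 : ℝ) ^ k)⁻¹ +
        s * (1 / 2 : ℝ) ^ (s ^ (1 / 8 : ℝ)) * ∑ k ∈ T, (2 : ℝ) ^ k := by
        rw [Finset.sum_add_distrib, Finset.sum_add_distrib, Finset.mul_sum, Finset.mul_sum,
          Finset.mul_sum]
    _ ≤ s ^ (-(1 / 4) : ℝ) * (q / (q - 1) * s ^ (1 / 4 - ε)) + s ^ (-ε) * 2 +
        s * (1 / 2 : ℝ) ^ (s ^ (1 / 8 : ℝ)) * (2 * s) := by gcongr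
    _ = q / (q - 1) * (s ^ (-(1 / 4) : ℝ) * s ^ (1 / 4 - ε)) + s ^ (-ε) * 2 +
        2 * (s * s * (1 / 2 : ℝ) ^ (s ^ (1 / 8 : ℝ))) := by ring
    _ ≤ _ := by
        rw [h4]
        linarith

theorem SumC_count {D Y : Finset Site} {W : Set Site} {r₁ η ρ d : ℝ} (h : Nice D W r₁ η)
    {p : Site} (h1 : 1 ≤ ρ) (hρ : 200 * ρ ≤ r₁) (hW : ∀ x ∈ D, dst x p ≤ 2 * ρ → x ∈ W)
    (hd : 1 ≤ d) (hY : ∀ w ∈ Y, dst w p ≤ ρ ∧ (∃ x ∈ D, dst x w ≤ 1) ∧ ∃ o ∉ D, dst o w ≤ 2 * d) :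
    (Y.card : ℝ) ≤ 9720 * ρ * d := by
  have h2 := count_near (ρ := 2 * ρ) (d := 3 * d) (p := p) h (by linarith) (by linarith) hW
    (by linarith)
  set Z := (D ∩ bal p (2 * ρ)).filter fun w => ∃ o ∉ D, dst o w ≤ 3 * d with hZ
  have h3 : Y ⊆ Z.biUnion fun x => bal x 1 := fun w hw => by
    obtain ⟨p1, ⟨x, p2, p3⟩, o, p4, p5⟩ := hY w hw
    have p6 := dst_tri x w p
    have p7 := dst_tri o w x
    rw [dst_comm w x] at p7
    refine Finset.mem_biUnion.2 ⟨x, Finset.mem_filter.2 ⟨Finset.mem_inter.2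
      ⟨p2, mem_bal.2 (by linarith)⟩, o, p4, by linarith⟩, mem_bal.2 ?_⟩
    rwa [dst_comm]
  have h4 : (Y.card : ℝ) ≤ ∑ x ∈ Z, ((bal x 1).card : ℝ) := by
    exact_mod_cast (Finset.card_le_card h3).trans Finset.card_biUnion_le
  have h5 : ∑ x ∈ Z, ((bal x 1).card : ℝ) ≤ Z.card * 36 := by
    rw [← nsmul_eq_mul]
    exact Finset.sum_le_card_nsmul _ _ _ fun x _ =>
      (card_bal x zero_le_one).trans (le_of_eq (by norm_num))
  have h6 : 0 ≤ (ρ - 1) * d := mul_nonneg (by linarith) (by linarith)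
  nlinarith

theorem SumC_zero {D Λ S₀ : Finset Site} (j : Site → ℝ) (F : Finset Site → ℝ) {w : Site}
    (hΛ : Λ ⊆ D) (hS : S₀ ⊆ D) (h : ¬ ∃ x ∈ D, dst x w ≤ 1) : cov Λ S₀ j F (hx w) = 0 := by
  rw [cov_comm, cov_congr (F' := fun _ => hx w ∅) fun S hS₀ => hx_dep w S ∅ fun x hx =>
    iff_of_false (fun e => h ⟨x, SumC_sub hΛ hS hS₀ e, mem_bal.1 hx⟩) (Finset.notMem_empty x),
    cov_const]

theorem SumC_idx (D : Finset Site) (s : ℝ) (hs : 20 ≤ s) : ∃ idx : Site → ℕ,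
    ∀ w, (∃ o ∉ D, dst o w ≤ s / 20) → (2 : ℝ) ^ idx w ≤ s / 20 ∧
      (∃ o ∉ D, dst o w ≤ 2 * 2 ^ idx w) ∧
      ((2 : ℝ) ^ idx w = 1 ∨ ∀ o ∉ D, (2 : ℝ) ^ idx w < dst o w) := by
  have key : ∀ w, ∃ k : ℕ, (∃ o ∉ D, dst o w ≤ s / 20) → (2 : ℝ) ^ k ≤ s / 20 ∧
      (∃ o ∉ D, dst o w ≤ 2 * 2 ^ k) ∧ ((2 : ℝ) ^ k = 1 ∨ ∀ o ∉ D, (2 : ℝ) ^ k < dst o w) := by
    intro w
    by_cases h : ∃ o ∉ D, dst o w ≤ s / 20
    swap
    · exact ⟨0, fun h' => absurd h' h⟩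
    obtain ⟨o, ho, hd⟩ := h
    have hex : ∃ k : ℕ, ∃ o ∉ D, dst o w ≤ 2 * 2 ^ k := by
      obtain ⟨k, hk⟩ := pow_unbounded_of_one_lt (dst o w) (one_lt_two (α := ℝ))
      have : (0 : ℝ) < 2 ^ k := by positivity
      exact ⟨k, o, ho, by linarith⟩
    have h1 : (2 : ℝ) ^ Nat.find hex = 1 ∨ ∀ o ∉ D, (2 : ℝ) ^ Nat.find hex < dst o w := by
      rcases Nat.eq_zero_or_eq_succ_pred (Nat.find hex) with e | e
      · exact Or.inl (by rw [e, pow_zero])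
      · refine Or.inr fun o' ho' => not_le.1 fun hle => ?_
        refine Nat.find_min hex (m := (Nat.find hex).pred) (by omega) ⟨o', ho', ?_⟩
        rwa [e, pow_succ'] at hle
    refine ⟨Nat.find hex, fun _ => ⟨?_, Nat.find_spec hex, h1⟩⟩
    rcases h1 with h1 | h1
    · rw [h1]; linarith
    · exact (h1 o ho).le.trans hd
  choose idx hidx using key
  exact ⟨idx, hidx⟩

/-- Sites at distance more than `s / 20` from `Dᶜ`: `ThG` at the radius `s / 40`. The others are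
sorted by dyadic distance (`cov_site`, `count_near`; a site outside `D` without neighbour in `D`
has constant `hx`). Small `s`: `cb_triv`, `card_bal`. -/
theorem sum_cov {b A ε C : ℝ} (hb : b ≤ 1 / 12) (hA : 0 ≤ A) (hε : 0 < ε) (hε' : ε ≤ 1 / 16)
    (hG : ThG b A ε) (hC : 0 ≤ C) {M : ℝ} (hM : 1 ≤ M) : ∃ C' : ℝ, 0 ≤ C' ∧
      ∀ (D Q Λ S₀ X : Finset Site) (W : Set Site) (j : Site → ℝ) (F : Finset Site → ℝ) (p : Site)
        (s r₁ η : ℝ), Nice D W r₁ η → 1 ≤ s → 200 * (M * s) ≤ r₁ →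
        (∀ x ∈ D, dst x p ≤ 2 * (M * s) → x ∈ W) → Λ ⊆ D → S₀ ⊆ D → Bd j b → Lip j (2 / s) →
        Meas Q F → (∀ S, |F S| ≤ 1) → X ⊆ bal p (M * s) →
        (∀ w ∈ X, bal w (s / 2) ∩ D ⊆ Q ∩ Λ ∧ PiW D Λ S₀ j w (s / 3) C) →
        ∑ w ∈ X, |cov Λ S₀ j F (hx w)| ≤ C' * s ^ (-ε) := by
  obtain ⟨C₁, s₀, hC₁, hsite⟩ := cov_site hb hA hε hε' hG hC
  obtain ⟨B, hB, hnum⟩ := SumC_num hε hε'
  set s₁ : ℝ := max s₀ 40 with hs₁
  have hs₁0 : 40 ≤ s₁ := le_max_right _ _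
  have hM0 : 0 ≤ M := by linarith
  have hs₁p : 0 ≤ s₁ := by linarith
  refine ⟨432 * M ^ 2 * s₁ ^ 3 + 36 * M ^ 2 * (64000 * A) + 9720 * M * C₁ * B, by positivity,
    fun D Q Λ S₀ X W j F p s r₁ η hN hs hr hW hΛ hS hj hL hF f1 hX hw => ?_⟩
  have hs0 : 0 < s := by linarith
  have hMs : 1 ≤ M * s := one_le_mul_of_one_le_of_one_le hM hs
  have hsp : 0 < s ^ (-ε) := Real.rpow_pos_of_pos hs0 _
  have hcard : (X.card : ℝ) ≤ 36 * M ^ 2 * s ^ 2 := by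
    have h1 : (X.card : ℝ) ≤ (bal p (M * s)).card := by exact_mod_cast Finset.card_le_card hX
    have h2 := card_bal p (r := M * s) (by linarith)
    nlinarith
  have t1 : 0 ≤ 432 * M ^ 2 * s₁ ^ 3 * s ^ (-ε) := by positivity
  have t2 : 0 ≤ 36 * M ^ 2 * (64000 * A) * s ^ (-ε) := by positivity
  have t3 : 0 ≤ 9720 * M * C₁ * B * s ^ (-ε) := by positivity
  by_cases hsm : s < s₁
  · have h1 : ∑ w ∈ X, |cov Λ S₀ j F (hx w)| ≤ X.card * 12 := by
      rw [← nsmul_eq_mul]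
      exact Finset.sum_le_card_nsmul _ _ _ fun w _ => SumC_triv Λ S₀ j f1 w
    have h2 : s⁻¹ ≤ s ^ (-ε) := by
      rw [← Real.rpow_neg_one]
      exact Real.rpow_le_rpow_of_exponent_le hs (by linarith)
    have h3 : s ^ 2 ≤ s₁ ^ 3 * s ^ (-ε) := by
      calc s ^ 2 = s ^ 3 * s⁻¹ := by field_simp
        _ ≤ s₁ ^ 3 * s ^ (-ε) := by gcongr
    have h4 : 432 * M ^ 2 * s ^ 2 ≤ 432 * M ^ 2 * (s₁ ^ 3 * s ^ (-ε)) := by gcongr
    linarith
  rw [not_lt] at hsm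
  have hs40 : 40 ≤ s := hs₁0.trans hsm
  obtain ⟨idx, hidx⟩ := SumC_idx D s (by linarith)
  have hfar : ∑ w ∈ X.filter fun w => ¬ ∃ o ∉ D, dst o w ≤ s / 20, |cov Λ S₀ j F (hx w)| ≤
      36 * M ^ 2 * (64000 * A) * s ^ (-ε) := by
    have h1 : (s / 40) ^ (-(2 + ε)) ≤ 64000 * (s ^ (-ε) / s ^ 2) := by
      have p1 : (40 : ℝ) ^ (2 + ε) ≤ 64000 := by
        calc (40 : ℝ) ^ (2 + ε) ≤ 40 ^ ((3 : ℕ) : ℝ) :=
              Real.rpow_le_rpow_of_exponent_le (by norm_num) (by push_cast; linarith)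
          _ = 64000 := by rw [Real.rpow_natCast]; norm_num
      have p2 : s ^ (-(2 + ε)) = s ^ (-ε) / s ^ 2 := by
        rw [← Real.rpow_natCast, ← Real.rpow_sub hs0]
        congr 1
        push_cast
        ring
      rw [Real.div_rpow hs0.le (by norm_num), Real.rpow_neg (by norm_num : (0 : ℝ) ≤ 40),
        div_inv_eq_mul, p2, mul_comm]
      gcongr
    have h2 : ∑ w ∈ X.filter fun w => ¬ ∃ o ∉ D, dst o w ≤ s / 20, |cov Λ S₀ j F (hx w)| ≤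
        (X.filter fun w => ¬ ∃ o ∉ D, dst o w ≤ s / 20).card *
          (A * (64000 * (s ^ (-ε) / s ^ 2))) := by
      rw [← nsmul_eq_mul]
      refine Finset.sum_le_card_nsmul _ _ _ fun w hw' => ?_
      obtain ⟨p1, p2⟩ := Finset.mem_filter.1 hw'
      have hin : ∀ x, dst x w ≤ s / 20 → x ∈ Q ∧ x ∈ Λ := fun x hx => by
        have h3 : x ∈ D := by
          by_contra h
          exact p2 ⟨x, h, hx⟩
        exact Finset.mem_inter.1
          ((hw w p1).1 (Finset.mem_inter.2 ⟨mem_bal.2 (by linarith), h3⟩))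
      refine (hG (s / 40) (by linarith) Λ S₀ j w
        (fun x hx => (hin x (by linarith [mem_bal.1 hx])).2) hj (hL.mono (by
          rw [div_le_div_iff₀ hs0 (by positivity)]
          linarith)) F (hF.mono fun x hx => (hin x (by linarith [mem_bal.1 hx])).1) f1).trans ?_
      gcongr
    have h3 : ((X.filter fun w => ¬ ∃ o ∉ D, dst o w ≤ s / 20).card : ℝ) ≤ 36 * M ^ 2 * s ^ 2 :=
      le_trans (by exact_mod_cast Finset.card_filter_le _ _) hcard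
    refine h2.trans ((mul_le_mul_of_nonneg_right h3 (by positivity)).trans (le_of_eq ?_))
    field_simp
  set Y := (X.filter fun w => ∃ o ∉ D, dst o w ≤ s / 20).filter fun w => ∃ x ∈ D, dst x w ≤ 1
    with hY
  have hmem : ∀ w ∈ Y, w ∈ X ∧ (∃ o ∉ D, dst o w ≤ s / 20) ∧ ∃ x ∈ D, dst x w ≤ 1 :=
    fun w hw' => by
      obtain ⟨p1, p2⟩ := Finset.mem_filter.1 hw'
      obtain ⟨p3, p4⟩ := Finset.mem_filter.1 p1
      exact ⟨p3, p4, p2⟩
  have hnear : ∑ w ∈ X.filter fun w => ∃ o ∉ D, dst o w ≤ s / 20, |cov Λ S₀ j F (hx w)| =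
      ∑ w ∈ Y, |cov Λ S₀ j F (hx w)| := by
    refine (Finset.sum_filter_of_ne fun w _ h => ?_).symm
    by_contra h'
    exact h (by rw [SumC_zero j F hΛ hS h', abs_zero])
  have hY1 : ∑ w ∈ Y, |cov Λ S₀ j F (hx w)| ≤ 9720 * M * C₁ * B * s ^ (-ε) := by
    rw [← Finset.sum_fiberwise_of_maps_to (s := Y) (t := Y.image idx) (g := idx)
      fun a ha => Finset.mem_image_of_mem idx ha]
    have h1 := hnum s hs (Y.image idx) fun k hk => by
      obtain ⟨w, p1, rfl⟩ := Finset.mem_image.1 hk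
      linarith [(hidx w (hmem w p1).2.1).1]
    calc _ ≤ ∑ k ∈ Y.image idx, 9720 * M * C₁ * (s * 2 ^ k * (((2 : ℝ) ^ k) ^ (-(2 + ε)) *
          (max ((2 : ℝ) ^ k) (s ^ (1 / 8 : ℝ)) / s) ^ (5 / 4 : ℝ) +
            (1 / 2) ^ (s ^ (1 / 8 : ℝ)))) := by
          refine Finset.sum_le_sum fun k _ => ?_
          have hk1 : (1 : ℝ) ≤ 2 ^ k := one_le_pow₀ one_le_two
          have p1 : ((Y.filter fun w => idx w = k).card : ℝ) ≤ 9720 * (M * s) * 2 ^ k :=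
            SumC_count hN hMs hr hW hk1 fun w hw' => by
              obtain ⟨q1, rfl⟩ := Finset.mem_filter.1 hw'
              obtain ⟨q2, q3, q4⟩ := hmem w q1
              exact ⟨mem_bal.1 (hX q2), q4, (hidx w q3).2.1⟩
          have p2 : ∑ w ∈ Y.filter fun w => idx w = k, |cov Λ S₀ j F (hx w)| ≤
              (Y.filter fun w => idx w = k).card * (C₁ * (((2 : ℝ) ^ k) ^ (-(2 + ε)) *
                (max ((2 : ℝ) ^ k) (s ^ (1 / 8 : ℝ)) / s) ^ (5 / 4 : ℝ) +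
                  (1 / 2) ^ (s ^ (1 / 8 : ℝ)))) := by
            rw [← nsmul_eq_mul]
            refine Finset.sum_le_card_nsmul _ _ _ fun w hw' => ?_
            obtain ⟨q1, rfl⟩ := Finset.mem_filter.1 hw'
            obtain ⟨q2, q3, -⟩ := hmem w q1
            obtain ⟨q5, q6, q7⟩ := hidx w q3
            exact hsite D Q Λ S₀ j F w s _ ((le_max_left _ _).trans hsm) hΛ hS hj hL hF f1
              (hw w q2).1 (hw w q2).2 hk1 q5 q6 q7
          refine p2.trans ((mul_le_mul_of_nonneg_right p1 (by positivity)).trans (le_of_eq ?_))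
          ring
      _ ≤ 9720 * M * C₁ * (B * s ^ (-ε)) := by
          rw [← Finset.mul_sum]
          gcongr
      _ = _ := by ring
  rw [← Finset.sum_filter_add_sum_filter_not X fun w => ∃ o ∉ D, dst o w ≤ s / 20, hnear]
  linarith

end Pool.Agent.TAF.U
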