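import Pool.Agent.P.MP_cb4022_pr.U.SumC
import Pool.Agent.P.MP_cb4022_pr.U.HB0

/-! Four arcs near a flat boundary for small couplings (paper H4). -/

open scoped Classical symmDiff

noncomputable section

namespace Pool.Agent.TAF.U

/-- the bound at the single scale `s` -/
def UA (D : Finset Site) (W : Set Site) (b L s u : ℝ) : Prop :=
  ∀ (p o : Site) (S₀ : Finset Site) (j : Site → ℝ), o ∉ D → dst o p ≤ s →
    (∀ x ∈ D, dst x p ≤ 2 * (L * s) → x ∈ W) → S₀ ⊆ D → Bd j b → Lip j (1 / s) →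
    gib (D ∩ ann p s (L * s)) S₀ j (ind fun S => Arc 4 (bd S) p s (L * s)) ≤ u

theorem ThmH_off_sub {D Λ S S₀ : Finset Site} (hΛ : Λ ⊆ D) (hS : S₀ ⊆ D) (h : Off Λ S S₀) :
    S ⊆ D := fun x hx => by
  by_cases hx' : x ∈ Λ
  · exact hΛ hx'
  · exact hS ((h x hx').1 hx)

theorem ThmH_ind_le {P Q : Finset Site → Prop} {S : Finset Site} (h : P S → Q S) :
    ind P S ≤ ind Q S := by
  unfold ind
  by_cases hP : P S
  · simp [hP, h hP]
  · simp only [hP, if_false]; split_ifs <;> norm_num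

theorem ThmH_abs_ind (P : Finset Site → Prop) (S : Finset Site) : |ind P S| ≤ 1 := by
  unfold ind
  split_ifs <;> simp

theorem ThmH_dep_mono {A B : Set Site} {F : Finset Site → ℝ} (h : Dep A F) (hAB : A ⊆ B) :
    Dep B F := fun S S' hS => h S S' fun x hx => hS x (hAB hx)

theorem ThmH_pow_le {L r R : ℝ} {m : ℕ} (hL : 2 ≤ L) (hr : 1 ≤ r) (hrR : r ≤ R)
    (h : R < L * (r * (2 * L) ^ m)) :
    ((2 * L) ^ (-(5 / 4) : ℝ)) ^ m ≤ L ^ (5 / 4 : ℝ) * (r / R) ^ (5 / 4 : ℝ) := by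
  have hL0 : 0 < L := by linarith
  have hR0 : 0 < R := by linarith
  have h2 : 0 < (2 * L) ^ m := by positivity
  rw [← Real.mul_rpow hL0.le (by positivity), ← Real.rpow_natCast,
    ← Real.rpow_mul (by positivity), mul_comm (-(5 / 4) : ℝ), Real.rpow_mul (by positivity),
    Real.rpow_natCast, Real.rpow_neg h2.le, ← Real.inv_rpow h2.le]
  refine Real.rpow_le_rpow (by positivity) ?_ (by norm_num)
  rw [inv_eq_one_div, ← mul_div_assoc, div_le_div_iff₀ h2 hR0]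
  nlinarith

/-- `gib_prod_le` for the annuli `ann w (s i) (L * s i)`, `s i = r (2 L) ^ i`, `L * s i ≤ R`;
`Arc.sub`, `arc_dep` -/
theorem piW_of_UA {D Λ S₀ : Finset Site} {W : Set Site} {b L R : ℝ} {j : Site → ℝ} {w : Site}
    (hL : 2 ≤ L) (h : ∀ s, 1 ≤ s → L * s ≤ R → UA D W b L s ((2 * L) ^ (-(5 / 4) : ℝ)))
    (hΛ : Λ ⊆ D) (hS : S₀ ⊆ D) (h1 : D ∩ bal w R ⊆ Λ) (h2 : ∀ x ∈ D, dst x w ≤ 2 * R → x ∈ W)
    (hj : Bd j b) (hl : Lip j (L / R)) : PiW D Λ S₀ j w R (L ^ (5 / 4 : ℝ)) := by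
  intro r hr hrR ⟨o, ho, hor⟩
  have hL0 : 0 < L := by linarith
  have hR0 : 0 < R := by linarith
  have hex : ∃ m : ℕ, R < L * (r * (2 * L) ^ m) := by
    obtain ⟨m, hm⟩ := pow_unbounded_of_one_lt R (by linarith : (1 : ℝ) < 2 * L)
    refine ⟨m, hm.trans_le ?_⟩
    have h2 : 0 < (2 * L) ^ m := by positivity
    have h3 : (1 : ℝ) ≤ L * r := by nlinarith
    nlinarith
  have hm := Nat.find_spec hex
  have hlt : ∀ i < Nat.find hex, L * (r * (2 * L) ^ i) ≤ R := fun i hi =>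
    not_lt.1 (Nat.find_min hex hi)
  generalize Nat.find hex = m at hm hlt
  have hge : ∀ i : ℕ, r ≤ r * (2 * L) ^ i := fun i =>
    le_mul_of_one_le_right (by linarith) (one_le_pow₀ (by linarith))
  have hstep : ∀ i k : ℕ, k < i → L * (r * (2 * L) ^ k) + 1 ≤ r * (2 * L) ^ i := by
    intro i k hk
    have h3 : (2 * L) ^ (k + 1) ≤ (2 * L) ^ i := pow_le_pow_right₀ (by linarith) hk
    have h4 := hge k
    have h5 : r * (2 * L) ^ (k + 1) ≤ r * (2 * L) ^ i :=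
      mul_le_mul_of_nonneg_left h3 (by linarith)
    rw [pow_succ] at h5
    nlinarith
  have key := gib_prod_le (Λ := Λ) (S₀ := S₀) (j := j) m
    (fun i => D ∩ ann w (r * (2 * L) ^ i) (L * (r * (2 * L) ^ i)))
    (fun i S => Arc 4 (bd S) w (r * (2 * L) ^ i) (L * (r * (2 * L) ^ i)))
    (u := (2 * L) ^ (-(5 / 4) : ℝ)) (by positivity) ?_ ?_ ?_
  · refine le_trans (gib_mono fun S _ => ThmH_ind_le fun ha i hi => ?_)
      (key.trans (ThmH_pow_le hL hr hrR hm))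
    refine ha.sub (fun t _ => not_isOdd_bd S t) (hge i) (hlt i hi) ?_
    have h4 := hge i
    nlinarith
  · intro i hi x hx
    rw [Finset.mem_inter] at hx
    exact h1 (Finset.mem_inter.2 ⟨hx.1, mem_bal.2 ((mem_ann.1 hx.2).2.trans (hlt i hi))⟩)
  · intro i _ k hk
    refine ThmH_dep_mono (arc_dep 4 w _ _) fun x hx hx' => ?_
    have h3 := (mem_ann.1 (Finset.mem_inter.1 hx').2).1
    have h4 := hstep i k hk
    linarith [hx.2]
  · intro i hi S hSo
    have h3 := hge i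
    have h4 := hlt i hi
    refine h _ (hr.trans h3) h4 w o S j ho (hor.trans h3) (fun x hx hx' => h2 x hx ?_)
      (ThmH_off_sub hΛ hS hSo) hj (hl.mono ?_)
    · linarith
    · rw [div_le_div_iff₀ hR0 (by linarith)]
      linarith

theorem ThmH_big (C : ℝ) (hC : 0 < C) :
    ∃ L : ℝ, 20 ≤ L ∧ C * (16 / L) ^ (11 / 8 : ℝ) ≤ (2 * L) ^ (-(5 / 4) : ℝ) / 2 := by
  obtain ⟨K, hK⟩ : ∃ K : ℝ, K = 2 * C * 16 ^ (11 / 8 : ℝ) * 2 ^ (5 / 4 : ℝ) := ⟨_, rfl⟩
  have hK0 : 0 < K := by rw [hK]; positivity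
  have h2 : (2 : ℝ) ^ 8 ≤ (K + 2) ^ 8 := pow_le_pow_left₀ (by norm_num) (by linarith) 8
  refine ⟨(K + 2) ^ 8, by linarith, ?_⟩
  obtain ⟨M, hM⟩ : ∃ M : ℝ, M = K + 2 := ⟨_, rfl⟩
  rw [← hM]
  have hM0 : 0 < M := by linarith
  have e1 : (M ^ 8) ^ (11 / 8 : ℝ) = M ^ 11 := by
    rw [← Real.rpow_natCast, ← Real.rpow_mul hM0.le, ← Real.rpow_natCast]
    norm_num
  have e2 : (M ^ 8) ^ (5 / 4 : ℝ) = M ^ 10 := by
    rw [← Real.rpow_natCast, ← Real.rpow_mul hM0.le, ← Real.rpow_natCast]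
    norm_num
  rw [Real.div_rpow (by norm_num) (by positivity), Real.rpow_neg (by positivity),
    Real.mul_rpow (by norm_num) (by positivity), e1, e2, ← mul_div_assoc, inv_eq_one_div, div_div,
    div_le_div_iff₀ (by positivity) (by positivity)]
  have h3 : 0 < M ^ 10 := by positivity
  calc C * 16 ^ (11 / 8 : ℝ) * (2 ^ (5 / 4 : ℝ) * M ^ 10 * 2) = K * M ^ 10 := by rw [hK]; ring
    _ ≤ M * M ^ 10 := mul_le_mul_of_nonneg_right (by linarith) h3.le
    _ = 1 * M ^ 11 := by ring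

theorem ThmH_touch {e : Edge} {p : Site} {r R : ℝ} {D : Finset Site}
    (h : Touch e ((D ∩ ann p r R : Finset Site) : Set Site)) :
    (r - 1 ≤ dst (lft e) p ∧ dst (lft e) p ≤ R + 1) ∧
      (r - 1 ≤ dst (rgt e) p ∧ dst (rgt e) p ≤ R + 1) := by
  have h1 : dst (lft e) (rgt e) ≤ 1 := dst_vtx _ _ _
  have h2 : dst (rgt e) (lft e) ≤ 1 := dst_vtx _ _ _
  have h3 := dst_tri (lft e) (rgt e) p
  have h4 := dst_tri (rgt e) (lft e) p
  rcases h with h | h <;>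
  · have h5 := mem_ann.1 (Finset.mem_inter.1 h).2
    refine ⟨⟨?_, ?_⟩, ?_, ?_⟩ <;> linarith [h5.1, h5.2]

/-- with the coupling switched off in the middle annulus -/
theorem ThmH_zero {C : ℝ}
    (hC : ∀ (D S₀ : Finset Site) (W : Set Site) (p o : Site)
      (s R r₁ η : ℝ), Nice D W r₁ η → 1 ≤ s → s ≤ R → 3 * R ≤ r₁ → η * R ≤ s →
      (∀ x ∈ D, dst x p ≤ s → x ∈ W) → o ∉ D → dst o p ≤ s → S₀ ⊆ D →
      pr (D ∩ ann p s R).powerset (fun S => Arc 3 (bd (S₀ ∆ S)) p s R) ≤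
        C * (s / R) ^ (11 / 8 : ℝ))
    {D S₀ : Finset Site} {W : Set Site} {p o : Site} {j : Site → ℝ} {L s r₁ : ℝ} (hL : 20 ≤ L)
    (hN : Nice D W r₁ (1 / L)) (hs : 1 ≤ s) (hr : 200 * (L * s) ≤ r₁) (ho : o ∉ D)
    (hop : dst o p ≤ s) (hW : ∀ x ∈ D, dst x p ≤ 2 * (L * s) → x ∈ W) (hS : S₀ ⊆ D)
    (hj : ∀ x, 4 * s - 1 ≤ dst x p → dst x p ≤ L * s / 4 + 1 → j x = 0) :
    gib (D ∩ ann p s (L * s)) S₀ j (ind fun S => Arc 4 (bd S) p s (L * s)) ≤
      C * (16 / L) ^ (11 / 8 : ℝ) := by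
  have hL0 : 0 < L := by linarith
  have hLs : 20 * s ≤ L * s := mul_le_mul_of_nonneg_right hL (by linarith)
  have hsub : D ∩ ann p (4 * s) (L * s / 4) ⊆ D ∩ ann p s (L * s) := by
    intro x hx
    rw [Finset.mem_inter, mem_ann] at hx ⊢
    exact ⟨hx.1, by linarith [hx.2.1], by linarith [hx.2.2]⟩
  rw [← gib_dlr hsub]
  refine (gib_mono fun S hSo => ?_).trans (gib_const _).le
  have hSD : S ⊆ D := ThmH_off_sub Finset.inter_subset_left hS hSo
  rw [gib_zero]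
  · have h1 := hC D S W p o (4 * s) (L * s / 4) r₁ (1 / L) hN (by linarith) (by linarith)
      (by linarith) (by
        have e : 1 / L * (L * s / 4) = s / 4 := by field_simp
        rw [e]; linarith) (fun x hx hx' => hW x hx (by linarith)) ho (by linarith) hSD
    have e : 4 * s / (L * s / 4) = 16 / L := by
      have hs0 : s ≠ 0 := by linarith
      field_simp
      norm_num
    rw [e] at h1
    refine le_trans (avg_mono fun T _ => ?_) h1
    exact ThmH_ind_le (Q := fun S => Arc 3 (bd S) p (4 * s) (L * s / 4)) fun ha =>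
      (ha.sub (fun t _ => not_isOdd_bd _ t) (by linarith) (by linarith) (by linarith)).mono
        (by norm_num)
  · intro e he
    obtain ⟨h1, h2⟩ := ThmH_touch he
    rw [ew, hj _ h1.1 h1.2, hj _ h2.1 h2.2, add_zero]

/-- Switch the coupling off on `ann p (4 s - 1) (L s / 4 + 1)` (`exists_plateau` with `w = s`,
`gib_interp`, `sum_cov` with `Q = ann p s (L s)`, `M = L`, `arc_link`, `piW_of_UA`); then
`gib_dlr`, `gib_zero`, `Arc.sub`, `arc3_bound` on `ann p (4 s) (L s / 4)`. -/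
theorem ua_step {b A ε : ℝ} (hb0 : 0 < b) (hb : b ≤ 1 / 12) (hA : 0 ≤ A) (hε : 0 < ε)
    (hε' : ε ≤ 1 / 16) (hG : ThG b A ε) : ∃ L b₀ : ℝ, 20 ≤ L ∧ 0 < b₀ ∧ b₀ ≤ b ∧
      ∀ (D : Finset Site) (W : Set Site) (r₁ s : ℝ), Nice D W r₁ (1 / L) → 1 ≤ s →
        200 * (L * s) ≤ r₁ →
        (∀ s', 1 ≤ s' → 2 * s' ≤ s → UA D W b₀ L s' ((2 * L) ^ (-(5 / 4) : ℝ))) →
        UA D W b₀ L s ((2 * L) ^ (-(5 / 4) : ℝ)) := by
  obtain ⟨C, hC0, hC⟩ := arc3_bound
  obtain ⟨L, hL, hLC⟩ := ThmH_big C hC0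
  have hL0 : 0 < L := by linarith
  obtain ⟨C', hC'0, hC'⟩ := sum_cov (C := L ^ (5 / 4 : ℝ)) hb hA hε hε' hG (by positivity)
    (M := L) (by linarith)
  have hu : 0 < (2 * L) ^ (-(5 / 4) : ℝ) := by positivity
  obtain ⟨b₀, hb₀, hb₀b, hb₀C⟩ : ∃ b₀ : ℝ, 0 < b₀ ∧ b₀ ≤ b ∧
      b₀ * C' ≤ (2 * L) ^ (-(5 / 4) : ℝ) / 2 := by
    refine ⟨min b ((2 * L) ^ (-(5 / 4) : ℝ) / 2 / (C' + 1)), lt_min hb0 (by positivity),
      min_le_left _ _, ?_⟩
    refine (mul_le_mul_of_nonneg_right (min_le_right _ _) hC'0).trans ?_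
    rw [div_mul_eq_mul_div, div_le_iff₀ (by linarith)]
    nlinarith
  refine ⟨L, b₀, hL, hb₀, hb₀b, ?_⟩
  intro D W r₁ s hN hs hr ih p o S₀ j ho hop hW hS hj hl
  have hs0 : 0 < s := by linarith
  have hLs : 20 * s ≤ L * s := mul_le_mul_of_nonneg_right hL hs0.le
  obtain ⟨g, g01, gl, g1, g0⟩ := exists_plateau p (4 * s - 1) (L * s / 4 + 1) hs0
  have hz := ThmH_zero hC (j := fun x => j x * (1 - g (dst x p))) hL hN hs hr ho hop hW hS
    fun x h1 h2 => by rw [g1 _ h1 h2, sub_self, mul_zero]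
  have hX : ∀ x, j x ≠ j x * (1 - g (dst x p)) →
      x ∈ (bal p (L * s)).filter fun x => g (dst x p) ≠ 0 := by
    intro x hx
    have h1 : g (dst x p) ≠ 0 := fun h => hx (by rw [h, sub_zero, mul_one])
    exact Finset.mem_filter.2 ⟨mem_bal.2 (by linarith [(g0 _ h1).2]), h1⟩
  have hi := gib_interp (Λ := D ∩ ann p s (L * s)) (S₀ := S₀) (j := j)
    (j' := fun x => j x * (1 - g (dst x p))) (F := ind fun S => Arc 4 (bd S) p s (L * s))
    ((bal p (L * s)).filter fun x => g (dst x p) ≠ 0) (fun e _ => ⟨hX _, hX _⟩) (c := C') hb₀.le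
    ?_ ?_
  · linarith [(abs_le.1 hi).1]
  · intro w _
    have e : j w * (1 - g (dst w p)) - j w = -(j w * g (dst w p)) := by ring
    rw [e, abs_neg, abs_mul, abs_of_nonneg (g01 _).1]
    exact (mul_le_of_le_one_right (abs_nonneg _) (g01 _).2).trans (hj w)
  · intro t ht
    have e : (fun x => j x + t * (j x * (1 - g (dst x p)) - j x)) =
        fun x => j x * (1 - t * g (dst x p)) := by
      funext x; ring
    rw [e]
    have hbd : Bd (fun x => j x * (1 - t * g (dst x p))) b₀ := cut_bd hj (fun x => g01 _) ht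
    have hlip : Lip (fun x => j x * (1 - t * g (dst x p))) (2 / s) := by
      refine (cut_lip hj hl gl (fun x => g01 _) ht).mono ?_
      have h1 : 0 < 1 / s := by positivity
      have h2 : 2 / s = 2 * (1 / s) := by ring
      rw [h2]
      nlinarith
    refine (hC' D (ann p s (L * s)) _ S₀ _ W _ _ p s r₁ (1 / L) hN hs hr hW
      Finset.inter_subset_left hS (hbd.mono hb₀b) hlip (fun S S' h => ?_) (ThmH_abs_ind _)
      (Finset.filter_subset _ _) fun w hw => ?_).trans ?_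
    · simp only [ind, arc_link h]
    · obtain ⟨h1, h2⟩ := g0 _ (Finset.mem_filter.1 hw).2
      have hin : ∀ x, dst x w ≤ s / 2 → x ∈ ann p s (L * s) := by
        intro x hx
        have h3 := dst_tri x w p
        have h4 := dst_tri w x p
        rw [dst_comm w x] at h4
        exact mem_ann.2 ⟨by linarith, by linarith⟩
      refine ⟨fun x hx => ?_, piW_of_UA (W := W) (b := b₀) (by linarith)
        (fun s' h3 h4 => ih s' h3 ?_) Finset.inter_subset_left hS (fun x hx => ?_)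
        (fun x hx hx' => hW x hx ?_) hbd (hlip.mono ?_)⟩
      · rw [Finset.mem_inter] at hx
        have h3 := hin x (mem_bal.1 hx.1)
        exact Finset.mem_inter.2 ⟨h3, Finset.mem_inter.2 ⟨hx.2, h3⟩⟩
      · nlinarith
      · rw [Finset.mem_inter] at hx
        exact Finset.mem_inter.2 ⟨hx.1, hin x (by linarith [mem_bal.1 hx.2])⟩
      · linarith [dst_tri x w p]
      · rw [div_le_div_iff₀ hs0 (by linarith)]
        nlinarith
    · exact mul_le_of_le_one_right hC'0 (Real.rpow_le_one_of_one_le_of_nonpos hs (by linarith))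

/-- H4: induction on `n` for all `s ≤ 2 ^ n` -/
theorem thH {b A ε : ℝ} (hb0 : 0 < b) (hb : b ≤ 1 / 12) (hA : 0 ≤ A) (hε : 0 < ε)
    (hε' : ε ≤ 1 / 16) (hG : ThG b A ε) : ∃ η b₀ C : ℝ, 0 < η ∧ 0 < b₀ ∧ b₀ ≤ b ∧ 0 ≤ C ∧
      ∀ (D Λ S₀ : Finset Site) (W : Set Site) (j : Site → ℝ) (w : Site) (r₁ R : ℝ),
        Nice D W r₁ η → 200 * R ≤ r₁ → Λ ⊆ D → S₀ ⊆ D → D ∩ bal w R ⊆ Λ →
        (∀ x ∈ D, dst x w ≤ 2 * R → x ∈ W) → Bd j b₀ → Lip j (1 / R) → PiW D Λ S₀ j w R C := by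
  obtain ⟨L, b₀, hL, hb₀, hb₀b, hstep⟩ := ua_step hb0 hb hA hε hε' hG
  have hL0 : 0 < L := by linarith
  refine ⟨1 / L, b₀, L ^ (5 / 4 : ℝ), by positivity, hb₀, hb₀b, by positivity, ?_⟩
  intro D Λ S₀ W j w r₁ R hN hR hΛ hS h1 h2 hj hl
  have key : ∀ n : ℕ, ∀ s : ℝ, 1 ≤ s → s ≤ 2 ^ n → 200 * (L * s) ≤ r₁ →
      UA D W b₀ L s ((2 * L) ^ (-(5 / 4) : ℝ)) := by
    intro n
    induction n with
    | zero =>
      intro s hs hs' hr
      refine hstep D W r₁ s hN hs hr fun s' h3 h4 => ?_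
      rw [pow_zero] at hs'
      linarith
    | succ n ih =>
      intro s hs hs' hr
      refine hstep D W r₁ s hN hs hr fun s' h3 h4 => ih s' h3 ?_ ?_
      · rw [pow_succ] at hs'
        linarith
      · have h5 : L * s' ≤ L * s := mul_le_mul_of_nonneg_left (by linarith) hL0.le
        linarith
  intro r hr hrR
  refine piW_of_UA (W := W) (b := b₀) (by linarith) (fun s hs hs' => ?_) hΛ hS h1 h2 hj
    (hl.mono ?_) r hr hrR
  · obtain ⟨n, hn⟩ := pow_unbounded_of_one_lt s (by norm_num : (1 : ℝ) < 2)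
    exact key n s hs hn.le (by linarith)
  · exact div_le_div_of_nonneg_right (by linarith) (by linarith)

end Pool.Agent.TAF.U
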