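import Pool.Agent.P.MP_cb4022_pr.U.ObsB

/-! Discrete holomorphicity (paper C4). -/

open scoped Classical symmDiff

noncomputable section

namespace Pool.Agent.TAF.U

section
variable {s R : ℝ} {D H : Finset Site} {V U : Finset Tri} {x : ℂ} {t : Tri} {p : Fin 3}
  {m : ℤ} {ξ : Finset Edge}

/-- hypotheses of the tripod relation -/
structure TriH (s R : ℝ) (D H : Finset Site) (V U : Finset Tri) (x : ℂ) (t : Tri) : Prop where
  fr : Frame s R D H V U
  ne : U.Nonempty
  hx : HX V U x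
  t0 : t ∉ V ∪ U
  t1 : ∀ i, nbr t i ∉ V ∪ U
  vt : ∀ i, vtx t i ∈ D \ bal 0 s

/-- the contribution of one configuration -/
def term (D H : Finset Site) (V U : Finset Tri) (x : ℂ) (t : Tri) (p : Fin 3) (m : ℤ)
    (ξ : Finset Edge) (i : Fin 3) : ℂ :=
  if PatA ξ V U t i then wt D H U x t i p m ξ else 0

theorem Tri1_rd (h : TriH s R D H V U x t) (i : Fin 3) : RdOK D H V U t i :=
  ⟨h.t0, fun _ => h.t1 i⟩

theorem Tri1_tz (ξ : Finset Edge) (t : Tri) (i : Fin 3) : Conn ξ t (tz ξ t i) := by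
  unfold tz
  split_ifs with h
  · exact Conn.step h
  · exact Conn.refl _ _

theorem Tri1_sub (ξ : Finset Edge) (t : Tri) (i : Fin 3) :
    ξ \ Finset.univ.image (side t) ⊆ ξ.erase (side t i) := fun e he => by
  obtain ⟨h1, h2⟩ := Finset.mem_sdiff.1 he
  exact Finset.mem_erase.2 ⟨fun h => h2 (Finset.mem_image.2 ⟨i, Finset.mem_univ _, h.symm⟩), h1⟩

/-- a path to `t` first arrives at a neighbour of `t` -/
theorem Tri1_star {σ : Tri} (hσ : σ ≠ t) (hc : Conn ξ σ t) :
    ∃ k, side t k ∈ ξ ∧ Conn (ξ \ Finset.univ.image (side t)) σ (nbr t k) := by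
  have h0 : ¬ Conn (ξ \ Finset.univ.image (side t)) σ t := fun h =>
    hσ (conn_of_deg_zero (fun i => by simp) h.symm)
  have key : ∀ τ, Conn ξ σ τ → Conn (ξ \ Finset.univ.image (side t)) σ τ ∨
      ∃ k, side t k ∈ ξ ∧ Conn (ξ \ Finset.univ.image (side t)) σ (nbr t k) := by
    intro τ hτ
    induction hτ with
    | refl => exact Or.inl (Conn.refl _ _)
    | @tail y z _ h ih =>
      obtain ⟨l, hl, rfl⟩ := h
      rcases ih with ih | ih
      · by_cases hm : side y l ∈ Finset.univ.image (side t)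
        · obtain ⟨k, -, hk⟩ := Finset.mem_image.1 hm
          rcases (side_eq_side hk).2 with e | e
          · exact absurd (e ▸ ih) h0
          · exact Or.inr ⟨k, hk ▸ hl, e ▸ ih⟩
        · exact Or.inl (ih.trans (Conn.step (Finset.mem_sdiff.2 ⟨hl, hm⟩)))
      · exact Or.inr ih
  exact (key t hc).resolve_left h0

theorem Tri1_zeta {i : Fin 3} {e : Edge} (h : zeta ξ t i e ≠ 0) : e ∈ ξ ∧ Conn ξ t (up e) := by
  by_cases h1 : line (ξ.erase (side t i)) (tz ξ t i) e = 0
  · by_cases h2 : side t i ∈ ξ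
    · have h3 : side t i = e := by
        by_contra hne
        apply h
        rw [zeta, if_pos h2, Finsupp.add_apply, Finsupp.neg_apply, h1, into, Finsupp.single_apply,
          if_neg hne, neg_zero, add_zero]
      subst h3
      exact ⟨h2, conn_up_side h2⟩
    · exact absurd (by rw [zeta, if_neg h2, add_zero, Finsupp.neg_apply, h1, neg_zero]) h
  · obtain ⟨h2, h3⟩ := line_supp h1
    exact ⟨Finset.erase_subset _ _ h2,
      (Tri1_tz ξ t i).trans (h3.mono (Finset.erase_subset _ _))⟩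

/-- if a source joined to `t` is joined to the end of the moving line in every reading, then the
three readings agree -/
theorem Tri1_gen (h : TriH s R D H V U x t) (hξ : ξ ∈ Om D H (insert t (V ∪ U)))
    (hS : ∀ σ ∈ V ∪ U, Conn ξ σ t → ∀ j, Conn (ξ.erase (side t j)) σ (tz ξ t j)) (i j : Fin 3) :
    term D H V U x t p m ξ i = term D H V U x t p m ξ j := by
  have hsub : ∀ i, ξ.erase (side t i) ⊆ ξ := fun i => Finset.erase_subset _ _
  have hU : ∀ i, PatA ξ V U t i → ∀ u ∈ U, ¬ Conn ξ u t := fun i hA u hu hc => by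
    obtain ⟨V', -, v, -, -, -, hn, -⟩ := patA_spec h.fr (Tri1_rd h i) hξ hA
    exact hn u hu (hS u (Finset.mem_union_right _ hu) hc i)
  have hcg : ∀ u, ¬ Conn ξ u t → ∀ j τ, Conn ξ u τ → ∀ k,
      (side τ k ∈ ξ ↔ side τ k ∈ ξ.erase (side t j)) := by
    intro u hu j τ hc k
    refine ⟨fun hk => Finset.mem_erase.2 ⟨fun e => hu ?_, hk⟩, fun hk => hsub j hk⟩
    rcases (side_eq_side e).2 with e' | e'
    · exact e' ▸ hc
    · exact e' ▸ hc.trans (Conn.step hk)
  have hvt : ∀ i v, Conn (ξ.erase (side t i)) (tz ξ t i) v → Conn ξ v t := fun i v hc =>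
    ((Tri1_tz ξ t i).trans (hc.mono (hsub i))).symm
  have hP : ∀ i j, PatA ξ V U t i → PatA ξ V U t j := by
    intro i j hA
    refine ⟨fun u hu => ?_, ?_⟩
    · obtain ⟨v, hv, hc⟩ := hA.1 u hu
      exact ⟨v, hv, (conn_congr (hcg u (hU i hA u hu) j) v).2 (hc.mono (hsub i))⟩
    · obtain ⟨v, hv, hc⟩ := hA.2
      exact ⟨v, hv, (hS v (Finset.mem_union_left _ hv) (hvt i v hc) j).symm⟩
  by_cases hA : PatA ξ V U t i
  swap
  · rw [term, term, if_neg hA, if_neg fun hB => hA (hP j i hB)]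
  have hB := hP i j hA
  have hL : ∀ j, Lf (ξ.erase (side t j)) U = Lf ξ U := fun j => by
    unfold Lf
    congr 1
    exact Finset.sum_congr rfl fun u hu => line_congr (hcg u (hU i hA u hu) j)
  have hinc : ∀ q, inc (Lf ξ U) t p q = 0 := fun q =>
    inc_eq_zero fun r _ _ => Lf_side_zero (hU i hA) r
  obtain ⟨V1, -, v1, hv1, -, c1, -, -, d1, -⟩ := patA_spec h.fr (Tri1_rd h i) hξ hA
  obtain ⟨V2, -, v2, hv2, -, c2, -, -, d2, -⟩ := patA_spec h.fr (Tri1_rd h j) hξ hB
  have m1 : v1 ∈ V ∪ U := Finset.mem_union_left _ (Finset.mem_sdiff.1 hv1).1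
  have m2 : v2 ∈ V ∪ U := Finset.mem_union_left _ (Finset.mem_sdiff.1 hv2).1
  have hv : v1 = v2 := by
    obtain ⟨r1, r2⟩ := read_mem (Tri1_rd h j) hξ
    have ho := (mem_Om.1 r1).2
    rcases three_odd (read_simple h.fr (Tri1_rd h j) hξ) ((ho _).2 (Finset.mem_insert_self _ _))
      ((ho _).2 (Finset.mem_insert_of_mem m1)) ((ho _).2 (Finset.mem_insert_of_mem m2))
      (hS v1 m1 (hvt i v1 c1) j).symm c2 with e | e | e
    · exact absurd (e ▸ m1) r2
    · exact absurd (e ▸ m2) r2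
    · exact e
  have hsupp : ∀ e, (zeta ξ t i - zeta ξ t j) e ≠ 0 → e ∈ ξ ∧ Conn ξ t (up e) := fun e he => by
    by_cases h1 : zeta ξ t i e = 0
    · refine Tri1_zeta (i := j) fun h2 => he ?_
      rw [Finsupp.sub_apply, h1, h2, sub_zero]
    · exact Tri1_zeta h1
  have hal : ∀ e ∈ ξ, Touch e D ∧ ¬ Inside e H := fun e he => mem_allowed.1 ((mem_Om.1 hξ).1 he)
  obtain ⟨u, hu⟩ := h.ne
  obtain ⟨v, hv', hc⟩ := hA.1 u hu
  have hM : Mc (zeta ξ t i - zeta ξ t j) = 0 := by
    refine Mc_zero_of_chain (ξ := ξ) (H := H) (O := (D : Set Site)ᶜ) (u := u) (v := v)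
      (fun τ => ?_) h.fr.zero h.fr.connH h.fr.connO D.finite_toSet.infinite_compl (fun e he => ?_)
      (fun e he => ?_) ?_ ?_ (hc.mono (hsub i)) fun τ hτ k => ?_
    · rw [Finsupp.coe_sub, dv_sub, d1, d2, hv, sub_self]
    · by_contra hne
      exact (hal e (hsupp e hne).1).2 he
    · by_contra hne
      exact not_touch_iff.2 he (hal e (hsupp e hne).1).1
    · obtain ⟨q, -, h1, -⟩ := h.fr.out u hu
      exact ⟨_, h1⟩
    · obtain ⟨q, -, h1, -⟩ := h.fr.inn v hv'
      exact ⟨_, h1⟩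
    · by_contra hne
      obtain ⟨h1, h2⟩ := hsupp _ hne
      exact hU i hA u hu ((hτ.trans (conn_up_side h1)).trans h2.symm)
  rw [map_sub, sub_eq_zero] at hM
  rw [term, term, if_pos hA, if_pos hB, wt, wt, hL, hL, hinc, hinc, map_add, map_add, hM]

/-- degree one: the three readings have the same pattern and weight -/
theorem tripod_one (h : TriH s R D H V U x t) (hξ : ξ ∈ Om D H (insert t (V ∪ U)))
    (hd : deg ξ t = 1) (i j : Fin 3) : term D H V U x t p m ξ i = term D H V U x t p m ξ j := by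
  refine Tri1_gen h hξ (fun σ hσ hc j => ?_) i j
  by_cases hj : side t j ∈ ξ
  · obtain ⟨k, hk, hc'⟩ := Tri1_star (fun e : σ = t => h.t0 (e ▸ hσ)) hc
    have hkj : k = j := by
      rw [deg_eq ξ t j, if_pos hj] at hd
      rcases fin3_cases j k with e | e | e
      · exact e
      · rw [← e, if_pos hk] at hd
        omega
      · rw [← e, if_pos hk] at hd
        omega
    rw [tz, if_pos hj, ← hkj]
    exact hc'.mono (Tri1_sub ξ t k)
  · rwa [tz, if_neg hj, Finset.erase_eq_of_notMem hj]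

/-- degree three, two of the strands form a loop: in the configuration without the three sides
of `t` the neighbours `b` and `c` are joined. `Mc_zero_of_chain`. -/
theorem tripod_loop (h : TriH s R D H V U x t) (hξ : ξ ∈ Om D H (insert t (V ∪ U)))
    (hd : ∀ i, side t i ∈ ξ) {b c : Fin 3} (hbc : b ≠ c)
    (hl : Conn (ξ \ Finset.univ.image (side t)) (nbr t b) (nbr t c)) (i j : Fin 3) :
    term D H V U x t p m ξ i = term D H V U x t p m ξ j := by
  refine Tri1_gen h hξ (fun σ hσ hc j => ?_) i j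
  obtain ⟨k, -, hk⟩ := Tri1_star (fun e : σ = t => h.t0 (e ▸ hσ)) hc
  have hs : Simple (ξ \ Finset.univ.image (side t)) :=
    (read_simple h.fr (Tri1_rd h j) hξ).mono (Tri1_sub ξ t j)
  have ho := (mem_Om.1 hξ).2
  have hσt : σ ≠ t := fun e => h.t0 (e ▸ hσ)
  have hσn : ∀ l, σ ≠ nbr t l := fun l e => h.t1 l (e ▸ hσ)
  have key : ∀ τ l, τ ≠ t → (side τ l ∈ ξ \ Finset.univ.image (side t) ↔
      side τ l ∈ ξ ∧ τ ≠ nbr t l) := by
    intro τ l hτ
    rw [Finset.mem_sdiff, Finset.mem_image]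
    refine and_congr_right fun _ => ⟨fun h1 e => h1 ⟨l, Finset.mem_univ _, by rw [e, side_nbr]⟩, ?_⟩
    rintro h1 ⟨r, -, e⟩
    obtain ⟨rfl, e' | e'⟩ := side_eq_side e
    · exact hτ e'
    · exact h1 e'
  have oσ : IsOdd (ξ \ Finset.univ.image (side t)) σ := by
    have := (ho σ).2 (Finset.mem_insert_of_mem hσ)
    rw [isOdd_iff _ _ 0] at this ⊢
    simp only [key σ _ hσt, hσn, ne_eq, not_false_eq_true, and_true]
    exact this
  have on : ∀ l, IsOdd (ξ \ Finset.univ.image (side t)) (nbr t l) := fun l => by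
    have h1 : ¬ IsOdd ξ (nbr t l) := fun h1 => by
      rcases Finset.mem_insert.1 ((ho _).1 h1) with e | e
      · exact nbr_ne t l e
      · exact h.t1 l e
    have n1 : nbr t l ≠ nbr t (l + 1) := fun e => by
      have := nbr_inj e
      revert this
      generalize l = i
      revert i
      decide
    have n2 : nbr t l ≠ nbr t (l + 2) := fun e => by
      have := nbr_inj e
      revert this
      generalize l = i
      revert i
      decide
    have h2 : side (nbr t l) l ∈ ξ := by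
      rw [side_nbr]
      exact hd l
    rw [isOdd_iff _ _ l] at h1 ⊢
    simp only [key _ _ (nbr_ne t l), n1, n2, ne_eq, not_true_eq_false, not_false_eq_true, and_true,
      and_false]
    tauto
  have hno : ¬ Conn (ξ \ Finset.univ.image (side t)) σ (nbr t b) := fun h1 => by
    rcases three_odd hs oσ (on b) (on c) h1 (h1.trans hl) with e | e | e
    · exact hσn b e
    · exact hσn c e
    · exact hbc (nbr_inj e)
  have hkb : k ≠ b := fun e => hno (e ▸ hk)
  have hkc : k ≠ c := fun e => hno ((e ▸ hk).trans hl.symm)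
  have st : ∀ l, l ≠ j → Conn (ξ.erase (side t j)) t (nbr t l) := fun l hl' =>
    Conn.step (Finset.mem_erase.2 ⟨fun e => hl' (side_inj e), hd l⟩)
  have hk' := hk.mono (Tri1_sub ξ t j)
  have hl' := hl.mono (Tri1_sub ξ t j)
  rw [tz, if_pos (hd j)]
  by_cases h1 : k = j
  · exact h1 ▸ hk'
  by_cases h2 : b = j
  · exact h2 ▸ ((hk'.trans (st k h1).symm).trans (st c fun e => hbc (h2.trans e.symm))).trans
      hl'.symm
  have h3 : c = j := by omega
  exact h3 ▸ ((hk'.trans (st k h1).symm).trans (st b h2)).trans hl'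

end

end Pool.Agent.TAF.U
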