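import Pool.Agent.P.MP_cb4022_pr.U.FDef
import Pool.Agent.P.MP_cb4022_pr.U.RHF

/-! From observables near the centre to amplitudes (paper F2 UB, F4). In every proof: write
`U = insert u (U.erase u)`, apply `rhf` or `rhf_one` for each ratio `lam`, with `η` a multiple of a
power of `lam`, then `dyadic_unif` and `Frame.mono`; the ratio `R / s` is at most `Lam + 1`, and
small ratios are absorbed in the constant. -/

open scoped Classical symmDiff

noncomputable section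

namespace Pool.Agent.TAF.U

theorem VStep_s_nonneg {s R : ℝ} {D H : Finset Site} {V U : Finset Tri}
    (h : Frame s R D H V U) : 0 ≤ s := by
  simpa using mem_bal.1 (h.hs h.zero)

theorem Frame.ratio_le {s R Lam : ℝ} {D H : Finset Site} {V U : Finset Tri}
    (h : Frame s R D H V U) (hD : D ⊆ bal 0 (Lam * s)) : R ≤ Lam * s + 2 := by
  have hR : 0 ≤ R := by linarith [VStep_s_nonneg h, h.gap]
  have e : dst (⌊R⌋, 0) 0 = (⌊R⌋ : ℝ) := by
    have h1 : pos (⌊R⌋, 0) = ((⌊R⌋ : ℝ) : ℂ) := Complex.ext (by simp [pos]) (by simp [pos])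
    rw [dst_zero, h1, Complex.norm_real, Real.norm_of_nonneg (by exact_mod_cast Int.floor_nonneg.2 hR)]
  have h1 := mem_bal.1 (hD (h.hR (mem_bal.2 (e.trans_le (Int.floor_le R)))))
  rw [e] at h1
  linarith [Int.lt_floor_add_one R]

/-- the observable near the centre needs `U.card` arcs (`norm_obs_le_arc`, `rdOK_of_mem`) -/
theorem obsE_le_arc {s R a : ℝ} {D H : Finset Site} {V U : Finset Tri} (h : Frame s R D H V U)
    (hs : 3 ≤ s) (hR : 6 * s ≤ R) {x : ℂ} (hx : ‖x‖ = 1) (ha : ArcB U.card 0 (5 * s) (R - 1) a)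
    {e : Edge} (he : Band s e) (l : ℤ) : ‖obsE D H V U x e l‖ ≤ a := by
  have h1 : 2 * s ≤ dst (rgt e) 0 := by rw [dst_zero]; exact he.1
  have h2 : dst (rgt e) 0 ≤ 4 * s := by rw [dst_zero]; exact he.2
  refine norm_obs_le_arc h hx (rdOK_of_mem h (fun hm => ?_) fun y hy => h.hR (mem_bal.2 ?_)).1 ha
    (by linarith) (by linarith) (by linarith) fun j => mem_bal.2 ?_
  · linarith [mem_bal.1 hm]
  · linarith [mem_bal.1 hy, dst_tri y (rgt e) 0]
  · have h3 : dst (vtx (up e) j) (rgt e) ≤ 1 := dst_vtx _ _ _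
    linarith [dst_tri (vtx (up e) j) (rgt e) 0]

section Core

variable {P : Finset Tri → Finset Tri → Prop}
  {F : Finset Site → Finset Site → Finset Tri → Finset Tri → ℝ} {γ : ℝ}

/-- the bound `F ≤ C * lam ^ (-γ)` for frames of ratio `lam` and large `s` -/
def VStep_At (P : Finset Tri → Finset Tri → Prop)
    (F : Finset Site → Finset Site → Finset Tri → Finset Tri → ℝ) (Lam lam b : ℝ) : Prop :=
  ∃ s₀ : ℝ, ∀ s, s₀ ≤ s → ∀ (D H : Finset Site) (V U : Finset Tri), Frame s (lam * s) D H V U →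
    D ⊆ bal 0 (Lam * s) → P V U → F D H V U ≤ b

theorem VStep_core {lam₀ C Lam : ℝ} (h0 : 7 ≤ lam₀) (hC : 0 ≤ C) (hγ : 0 ≤ γ)
    (h : ∀ lam, lam₀ ≤ lam → VStep_At P F Lam lam (C * lam ^ (-γ))) :
    ∃ s₀ : ℝ, 1 ≤ s₀ ∧ ∀ (s R : ℝ) (D H : Finset Site) (V U : Finset Tri), s₀ ≤ s → lam₀ * s ≤ R →
      Frame s R D H V U → D ⊆ bal 0 (Lam * s) → P V U → F D H V U ≤ C * 2 ^ γ * (s / R) ^ γ := by
  obtain ⟨s₀, hs₀⟩ := dyadic_unif (by linarith) h (Lam + 2)
  refine ⟨max s₀ 1, le_max_right _ _, fun s R D H V U hs hR hF hD hP => ?_⟩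
  have hs1 : 1 ≤ s := (le_max_right _ _).trans hs
  have hs0 : 0 < s := by linarith
  have hr := hF.ratio_le hD
  obtain ⟨l, l1, l2, l3, hl⟩ := hs₀ s ((le_max_left _ _).trans hs) (R / s) ((le_div_iff₀ hs0).2 hR)
    ((div_le_iff₀ hs0).2 (by linarith))
  have hl0 : 0 < l := by linarith
  have hR0 : 0 < R := by linarith [hF.gap]
  refine (hl D H V U (hF.mono ((le_div_iff₀ hs0).1 l2) (by nlinarith) subset_rfl) hD hP).trans ?_
  rw [mul_assoc, ← Real.mul_rpow (by norm_num) (by positivity), Real.rpow_neg hl0.le,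
    ← Real.inv_rpow hl0.le]
  refine mul_le_mul_of_nonneg_left (Real.rpow_le_rpow (by positivity) ?_ hγ) hC
  rw [div_le_iff₀ hs0] at l3
  rw [← mul_div_assoc, le_div_iff₀ hR0, inv_mul_le_iff₀ hl0]
  linarith

theorem VStep_B {lam₀ C : ℝ} (h0 : 7 ≤ lam₀) (hC : 0 ≤ C) (hγ : 0 ≤ γ)
    (hF : ∀ D H V U, F D H V U ≤ 1)
    (h : ∀ Lam lam, lam₀ ≤ lam → VStep_At P F Lam lam (C * lam ^ (-γ))) :
    ∃ C' : ℝ, ∀ Lam : ℝ, ∃ s₀ : ℝ, ∀ (s R : ℝ) (D H : Finset Site) (V U : Finset Tri), s₀ ≤ s →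
      Frame s R D H V U → D ⊆ bal 0 (Lam * s) → P V U → F D H V U ≤ C' * (s / R) ^ γ := by
  refine ⟨max (C * 2 ^ γ) (lam₀ ^ γ), fun Lam => ?_⟩
  obtain ⟨s₀, h1, hs₀⟩ := VStep_core h0 hC hγ (h Lam)
  refine ⟨s₀, fun s R D H V U hs hFr hD hP => ?_⟩
  have hs0 : 0 < s := by linarith
  have hR0 : 0 < R := by linarith [hFr.gap]
  rcases le_total (lam₀ * s) R with hR | hR
  · exact (hs₀ s R D H V U hs hR hFr hD hP).trans
      (mul_le_mul_of_nonneg_right (le_max_left _ _) (by positivity))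
  · refine (hF D H V U).trans (le_trans ?_
      (mul_le_mul_of_nonneg_right (le_max_right _ _) (by positivity)))
    rw [← Real.mul_rpow (by linarith) (by positivity)]
    refine Real.one_le_rpow ?_ hγ
    rw [← mul_div_assoc, le_div_iff₀ hR0]
    linarith

theorem VStep_C (hγ : 0 ≤ γ)
    (h : ∀ η : ℝ, 0 < η → ∃ lam₀ : ℝ, ∀ Lam lam, lam₀ ≤ lam →
      VStep_At P F Lam lam (η * lam ^ (-γ))) (η : ℝ) (hη : 0 < η) :
    ∃ lam₀ : ℝ, ∀ Lam : ℝ, ∃ s₀ : ℝ, ∀ (s R : ℝ) (D H : Finset Site) (V U : Finset Tri), s₀ ≤ s →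
      lam₀ * s ≤ R → Frame s R D H V U → D ⊆ bal 0 (Lam * s) → P V U →
      F D H V U ≤ η * (s / R) ^ γ := by
  have h2 : (0 : ℝ) < 2 ^ γ := by positivity
  obtain ⟨lam₀, hl⟩ := h (η / 2 ^ γ) (by positivity)
  refine ⟨max lam₀ 7, fun Lam => ?_⟩
  obtain ⟨s₀, -, hs₀⟩ := VStep_core (le_max_right lam₀ 7) (C := η / 2 ^ γ) (by positivity) hγ
    fun lam hlam => hl Lam lam ((le_max_left _ _).trans hlam)
  refine ⟨s₀, fun s R D H V U hs hR hFr hD hP => ?_⟩
  have h3 := hs₀ s R D H V U hs hR hFr hD hP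
  rwa [div_mul_cancel₀ _ h2.ne'] at h3

end Core

theorem VStep_ratio {s lam : ℝ} (hs : 0 < s) (hl : 0 < lam) (a : ℝ) :
    (s / (lam * s)) ^ a = lam ^ (-a) := by
  rw [Real.rpow_neg hl.le, ← Real.inv_rpow hl.le]
  congr 1
  field_simp

theorem VStep_small {a η : ℝ} (ha : 0 < a) (hη : 0 < η) (C : ℝ) :
    ∃ lam₀ : ℝ, ∀ lam, lam₀ ≤ lam → C * lam ^ (-a) ≤ η := by
  have h := (tendsto_rpow_neg_atTop ha).const_mul C
  rw [mul_zero] at h
  exact Filter.eventually_atTop.1 (h.eventually (ge_mem_nhds hη))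

theorem VStep_split {k : ℕ} {U : Finset Tri} (h : U.card = k + 1) :
    ∃ (u : Tri) (U' : Finset Tri), u ∉ U' ∧ U'.card = k ∧ U = insert u U' := by
  obtain ⟨u, U', h1, h2, h3⟩ := Finset.card_eq_succ.1 h
  exact ⟨u, U', h1, h3, h2.symm⟩

theorem VStep_sub {s R : ℝ} {D H : Finset Site} {V U : Finset Tri} {u : Tri}
    (h : Frame s R D H V (insert u U)) : Frame s R D H V U :=
  h.mono le_rfl h.gap (Finset.subset_insert _ _)

theorem VStep_arc {k : ℕ} {g : ℝ} (hg : 0 ≤ g) (h : ExpB k g) : ∃ C : ℝ, 0 ≤ C ∧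
    ∀ (s lam : ℝ) (D H : Finset Site) (V U : Finset Tri) (x : ℂ) (e : Edge) (l : ℤ), 3 ≤ s →
      6 ≤ lam → Frame s (lam * s) D H V U → U.card = k → ‖x‖ = 1 → Band s e →
      ‖obsE D H V U x e l‖ ≤ C * lam ^ (-g) := by
  obtain ⟨C, hC⟩ := h
  refine ⟨|C| * 10 ^ g, by positivity, fun s lam D H V U x e l hs hl hF hU hx he => ?_⟩
  have h1 : 6 * s ≤ lam * s := by nlinarith
  have hl0 : 0 < lam := by linarith
  have h2 : 0 < lam * s - 1 := by linarith
  refine (obsE_le_arc hF hs h1 hx (hU ▸ hC (5 * s) (lam * s - 1) (by linarith) (by linarith))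
    he l).trans ?_
  rw [mul_assoc, Real.rpow_neg hl0.le, ← Real.inv_rpow hl0.le,
    ← Real.mul_rpow (by norm_num) (by positivity)]
  refine mul_le_mul (le_abs_self C) (Real.rpow_le_rpow (by positivity) ?_ hg) (by positivity)
    (abs_nonneg C)
  rw [← div_eq_mul_inv, div_le_div_iff₀ h2 hl0]
  nlinarith

theorem VStep_om (k : ℕ) :
    om ^ k = Complex.exp ((2 * Real.pi * (-(k : ℝ) / 6) : ℝ) * Complex.I) := by
  rw [om, ← Complex.exp_nat_mul]
  congr 1
  push_cast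
  ring

theorem VStep_xN (N : ℕ) :
    xN (N + 1) * om ^ N = Complex.exp ((2 * Real.pi * (-(N : ℝ) / 3) : ℝ) * Complex.I) := by
  rw [xN, Nat.add_sub_cancel, VStep_om, ← Complex.exp_add]
  congr 1
  push_cast
  ring

/-- `x = 1`, `e = e' = - k / 6`, `amp_one` -/
theorem thB_of {k : ℕ} (hk : 1 ≤ k) {g : ℝ} (hg : 0 ≤ g) (h : ExpB k g) :
    ThB (k + 1) (g + k / 6) := by
  obtain ⟨C, hC, hb⟩ := VStep_arc hg h
  obtain ⟨C₁, hC₁, hr⟩ := rhf_one k hk
  have hk0 : (0 : ℝ) ≤ k := Nat.cast_nonneg k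
  refine VStep_B (P := fun _ U => U.card = k + 1) (lam₀ := 10000) (C := 2 * C₁ * C + 1)
    (F := fun D H V U => pr (Om D H (V ∪ U)) fun ξ => Thru ξ V U) (by norm_num) (by positivity)
    (by positivity) (fun _ _ _ _ => pr_le_one _ _) fun Lam lam hl => ?_
  have hl0 : 0 < lam := by linarith
  obtain ⟨s₀, hs₀⟩ := hr lam Lam (lam ^ (-(g + k / 6))) (-(k : ℝ) / 6) (-(k : ℝ) / 6)
    (C * lam ^ (-g)) (C * lam ^ (-g)) 1 hl (by positivity) (by linarith) (by linarith) (by ring)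
    (by rw [one_mul, VStep_om])
  refine ⟨max s₀ 3, fun s hs D H V U hF hD hU1 => ?_⟩
  obtain ⟨u, U, hu, hU, rfl⟩ := VStep_split hU1
  have h1 := hs₀ s D H V U u ((le_max_left _ _).trans hs) hD hU hu hF ⟨norm_one, Or.inl rfl⟩
    fun ed l hB => by
      rw [map_one, and_self]
      exact hb s lam D H V U 1 ed l ((le_max_right _ _).trans hs) (by linarith) (VStep_sub hF) hU
        norm_one hB
  rw [amp_one, Complex.norm_real, Real.norm_of_nonneg (pr_nonneg _ _)] at h1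
  refine h1.trans ?_
  have e1 : lam ^ (-(k : ℝ) / 6) * lam ^ (-g) = lam ^ (-(g + k / 6)) := by
    rw [← Real.rpow_add hl0]
    congr 1
    ring
  have e2 : lam ^ (-(k : ℝ) / 6 - 1) ≤ lam ^ (-(k : ℝ) / 6) :=
    Real.rpow_le_rpow_of_exponent_le (by linarith) (by linarith)
  have e3 := mul_le_mul_of_nonneg_left e2 (show 0 ≤ C₁ * C * lam ^ (-g) by positivity)
  have e4 : C₁ * C * (lam ^ (-(k : ℝ) / 6) * lam ^ (-g)) = C₁ * C * lam ^ (-(g + k / 6)) := by
    rw [e1]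
  linarith

/-- a bound for the observable in the band -/
def VStep_OB (N : ℕ) (x : ℂ) (g : ℝ) : Prop := ∃ C : ℝ, 0 ≤ C ∧ ∀ Lam : ℝ, ∃ s₀ : ℝ,
  ∀ (s lam : ℝ) (D H : Finset Site) (V U : Finset Tri) (e : Edge) (l : ℤ), s₀ ≤ s → 6 ≤ lam →
    Frame s (lam * s) D H V U → D ⊆ bal 0 (Lam * s) → V.card = N + 1 → U.card = N → Band s e →
    ‖obsE D H V U x e l‖ ≤ C * lam ^ (-g)

theorem VStep_PB {N : ℕ} (h : PB N) : VStep_OB N (xN (N + 1)) (aN N) := by
  obtain ⟨C, hC⟩ := h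
  refine ⟨|C|, abs_nonneg C, fun Lam => ?_⟩
  obtain ⟨s₀, hs₀⟩ := hC Lam
  refine ⟨max s₀ 1, fun s lam D H V U e l hs hl hF hD hV hU he => ?_⟩
  have hs1 : 1 ≤ s := (le_max_right _ _).trans hs
  have hl0 : 0 < lam := by linarith
  have h1 := hs₀ s _ D H V U e l ((le_max_left _ _).trans hs) hF hD hV hU he.1 he.2
  rw [VStep_ratio (by linarith) hl0] at h1
  exact h1.trans (mul_le_mul_of_nonneg_right (le_abs_self C) (by positivity))

theorem VStep_pow {N : ℕ} {lam : ℝ} (hl : 0 < lam) :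
    lam ^ (-(N : ℝ) / 3) * lam ^ (-aN N) = lam ^ (-aN (N + 1)) := by
  rw [← Real.rpow_add hl, aN_succ]
  congr 1
  ring

theorem VStep_bv {N : ℕ} (h1 : 1 ≤ N) {g : ℝ} (hg : aN (N + 1) ≤ 1 + g)
    (h : VStep_OB N (xN (N + 1)) (aN N)) (h' : VStep_OB N ((starRingEnd ℂ) (xN (N + 1))) g) :
    BV (N + 1) := by
  obtain ⟨C, hC, hb⟩ := h
  obtain ⟨C', hC', hb'⟩ := h'
  obtain ⟨C₁, hC₁, hr⟩ := rhf_one N h1
  have hk0 : (0 : ℝ) ≤ N := Nat.cast_nonneg N
  obtain ⟨C₂, hC₂⟩ := VStep_B (P := fun V U => V.card = N + 1 ∧ U.card = N + 1) (lam₀ := 10000)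
    (C := C₁ * (C + C') + 1) (F := fun D H V U => ‖amp D H V U (xN (N + 1))‖) (by norm_num)
    (by positivity) (aN_nonneg (N + 1))
    (fun _ _ _ _ => (norm_amp_le_pr (norm_xN _)).trans (pr_le_one _ _)) fun Lam lam hl => by
      have hl0 : 0 < lam := by linarith
      obtain ⟨s₀, hs₀⟩ := hr lam Lam (lam ^ (-aN (N + 1))) (-(N : ℝ) / 3) 0
        (C * lam ^ (-aN N)) (C' * lam ^ (-g)) _ hl (by positivity) (by linarith) (by linarith)
        (by ring) (VStep_xN N)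
      obtain ⟨s₁, hs₁⟩ := hb Lam
      obtain ⟨s₂, hs₂⟩ := hb' Lam
      refine ⟨max s₀ (max s₁ s₂), fun s hs D H V U hF hD ⟨hV, hU1⟩ => ?_⟩
      obtain ⟨u, U, hu, hU, rfl⟩ := VStep_split hU1
      simp only [max_le_iff] at hs
      refine (hs₀ s D H V U u hs.1 hD hU hu hF ⟨norm_xN _, Or.inr (by rw [hV, hU])⟩
        fun ed l hB => ⟨hs₁ s lam D H V U ed l hs.2.1 (by linarith) (VStep_sub hF) hD hV hU hB,
          hs₂ s lam D H V U ed l hs.2.2 (by linarith) (VStep_sub hF) hD hV hU hB⟩).trans ?_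
      have e1 := VStep_pow (N := N) hl0
      have e2 : lam ^ ((0 : ℝ) - 1) * lam ^ (-g) ≤ lam ^ (-aN (N + 1)) := by
        rw [← Real.rpow_add hl0]
        exact Real.rpow_le_rpow_of_exponent_le (by linarith) (by linarith)
      have e3 := mul_le_mul_of_nonneg_left e2 (show 0 ≤ C₁ * C' by positivity)
      have e4 : C₁ * C * (lam ^ (-(N : ℝ) / 3) * lam ^ (-aN N)) = C₁ * C * lam ^ (-aN (N + 1)) := by
        rw [e1]
      generalize lam ^ ((0 : ℝ) - 1) = q at e3 ⊢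
      linarith
  refine ⟨C₂, fun Lam => ?_⟩
  obtain ⟨s₀, hs₀⟩ := hC₂ Lam
  exact ⟨s₀, fun s R D H V U hs hF hD hV hU => hs₀ s R D H V U hs hF hD ⟨hV, hU⟩⟩

/-- `e = - N / 3`, `e' = 0`, `m' = 1` -/
theorem bv_of {N : ℕ} (h1 : 1 ≤ N) (h2 : N ≤ 2) (h : PB N) : BV (N + 1) := by
  refine VStep_bv h1 (g := 0) ?_ (VStep_PB h) ⟨1, zero_le_one, fun Lam => ⟨0, ?_⟩⟩
  · interval_cases N <;> norm_num [aN]
  · intro s lam D H V U e l _ _ _ _ _ _ _
    rw [neg_zero, Real.rpow_zero, mul_one]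
    exact norm_obs_le (by rw [RCLike.norm_conj, norm_xN])

theorem VStep_conj : (starRingEnd ℂ) (xN (3 + 1)) = xN (3 + 1) := by
  rw [xN_four, map_neg, map_one]

/-- `x = -1` is real, so `m' = m` -/
theorem bv_four (h : PB 3) : BV 4 := by
  refine VStep_bv (N := 3) (by norm_num) (g := aN 3) (by norm_num [aN]) (VStep_PB h) ?_
  rw [VStep_conj]
  exact VStep_PB h

/-- the three rotated inner sets -/
def VStep_H (H : Finset Site) : Fin 3 → Finset Site := ![H, rotA.mS H, rotA.mS (rotA.mS H)]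

/-- the three rotated inner sources -/
def VStep_V (V : Finset Tri) : Fin 3 → Finset Tri := ![V, rotA.mT V, rotA.mT (rotA.mT V)]

/-- the phases of the two rotations -/
def VStep_b (N : ℕ) (V : Finset Tri) (j : Fin 2) : ℂ :=
  cN N * xN (N + 1) ^ sV (VStep_V V j.castSucc)

theorem VStep_fr {s R : ℝ} {D H : Finset Site} {V U : Finset Tri} (h : Frame s R D H V U)
    (j : Fin 3) : Frame s R D (VStep_H H j) (VStep_V V j) U := by
  fin_cases j
  exacts [h, h.rot, h.rot.rot]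

theorem VStep_card (V : Finset Tri) (j : Fin 3) : (VStep_V V j).card = V.card := by
  fin_cases j <;> simp [VStep_V]

theorem VStep_norm_b (N : ℕ) (V : Finset Tri) (j : Fin 2) : ‖VStep_b N V j‖ ≤ 1 := by
  rw [VStep_b, norm_mul, norm_zpow, norm_cN, norm_xN, one_zpow, one_mul]

theorem VStep_PC {N : ℕ} (h : PC N) {η : ℝ} (hη : 0 < η) : ∃ lam₀ : ℝ, ∀ Lam : ℝ, ∃ s₀ : ℝ,
    ∀ (s lam : ℝ) (D H : Finset Site) (V U : Finset Tri), s₀ ≤ s → lam₀ ≤ lam → 0 < lam →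
      Frame s (lam * s) D H V U → D ⊆ bal 0 (Lam * s) → V.card = N + 1 → U.card = N →
      ∀ (j : Fin 2) ed l, Band s ed →
        ‖obsE D (VStep_H H j.succ) (VStep_V V j.succ) U (xN (N + 1)) (gE ed) (l + secS (rgt ed)) -
          VStep_b N V j * obsE D (VStep_H H j.castSucc) (VStep_V V j.castSucc) U (xN (N + 1)) ed l‖ ≤
          η * lam ^ (-aN N) := by
  obtain ⟨lam₀, hl₀⟩ := h η hη
  refine ⟨lam₀, fun Lam => ?_⟩
  obtain ⟨s₀, hs₀⟩ := hl₀ Lam
  refine ⟨max s₀ 1, fun s lam D H V U hs hl hl0 hF hD hV hU j ed l he => ?_⟩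
  have hs1 : 1 ≤ s := (le_max_right _ _).trans hs
  have h1 := hs₀ s _ D _ _ U ed l ((le_max_left _ _).trans hs)
    (mul_le_mul_of_nonneg_right hl (by linarith)) (VStep_fr hF j.castSucc) hD
    ((VStep_card V _).trans hV) hU he.1 he.2
  rw [VStep_ratio (by linarith) hl0] at h1
  have e1 : VStep_H H j.succ = rotA.mS (VStep_H H j.castSucc) := by fin_cases j <;> rfl
  have e2 : VStep_V V j.succ = rotA.mT (VStep_V V j.castSucc) := by fin_cases j <;> rfl
  rw [e1, e2]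
  exact h1

theorem VStep_cN (N : ℕ) : cN (N + 1) = cN N * rph (-(N : ℝ) / 3) := by
  rw [cN, cN, rph, ← Complex.exp_add, aN_succ]
  congr 1
  push_cast
  ring

/-- Inner data `H`, `g H`, `g g H`; `c = ![- cN (N + 1) * x ^ sV V, 1, 0]`,
`b = ![cN N * x ^ sV V, cN N * x ^ sV (g V)]`, `κ = 0`, `b' = 0`, `δ' = m'`, `κ' = 1`; `m'` is
bounded by `obsE_le_arc`. -/
theorem cv_of {N : ℕ} (h1 : 1 ≤ N) {g : ℝ} (hg : 0 ≤ g) (hE : ExpB N g) (h2 : aN (N + 1) < 1 + g)
    (hB : PB N) (hC : PC N) : CV (N + 1) := by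
  obtain ⟨C, hC0, hb⟩ := VStep_PB hB
  obtain ⟨C', hC', hb'⟩ := VStep_arc hg hE
  obtain ⟨C₁, hC₁, hr⟩ := rhf N h1
  have hk0 : (0 : ℝ) ≤ N := Nat.cast_nonneg N
  intro η hη
  obtain ⟨lam₀, hl₀⟩ := VStep_C (P := fun V U => V.card = N + 1 ∧ U.card = N + 1)
    (F := fun D H V U => ‖amp D (rotA.mS H) (rotA.mT V) U (xN (N + 1)) -
      cN (N + 1) * xN (N + 1) ^ sV V * amp D H V U (xN (N + 1))‖) (aN_nonneg (N + 1))
    (fun η hη => by
      obtain ⟨l₁, hl₁⟩ := VStep_PC hC (η := η / (4 * C₁)) (by positivity)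
      obtain ⟨l₂, hl₂⟩ := VStep_small one_pos (show 0 < η / 4 by positivity) (C₁ * C)
      obtain ⟨l₃, hl₃⟩ := VStep_small (sub_pos.2 h2) (show 0 < η / 4 by positivity) (3 * C₁ * C')
      refine ⟨max (max 10000 l₁) (max l₂ l₃), fun Lam lam hl => ?_⟩
      simp only [max_le_iff] at hl
      obtain ⟨⟨hl, k1⟩, k2, k3⟩ := hl
      have hl0 : 0 < lam := by linarith
      obtain ⟨s₀, hs₀⟩ := hr lam Lam (η / 4 * lam ^ (-aN (N + 1))) (-(N : ℝ) / 3) 0
        (C * lam ^ (-aN N)) (C' * lam ^ (-g)) (η / (4 * C₁) * lam ^ (-aN N)) (C' * lam ^ (-g)) 0 1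
        _ hl (by positivity) (by linarith) (by linarith) (by ring) (VStep_xN N)
      obtain ⟨s₁, hs₁⟩ := hb Lam
      obtain ⟨s₂, hs₂⟩ := hl₁ Lam
      refine ⟨max (max s₀ 3) (max s₁ s₂), fun s hs D H V U hF hD ⟨hV, hU1⟩ => ?_⟩
      obtain ⟨u, U, hu, hU, rfl⟩ := VStep_split hU1
      simp only [max_le_iff] at hs
      have hx' : ‖(starRingEnd ℂ) (xN (N + 1))‖ = 1 := by rw [RCLike.norm_conj, norm_xN]
      have hc0 : ‖-(cN (N + 1) * xN (N + 1) ^ sV V)‖ = 1 := by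
        rw [norm_neg, norm_mul, norm_zpow, norm_cN, norm_xN, one_zpow, one_mul]
      have hbd' : ∀ j ed l, Band s ed → ‖obsE D (VStep_H H j) (VStep_V V j) U
          ((starRingEnd ℂ) (xN (N + 1))) ed l‖ ≤ C' * lam ^ (-g) := fun j ed l hB =>
        hb' s lam D _ _ U _ ed l hs.1.2 (by linarith) (VStep_fr (VStep_sub hF) j) hU hx' hB
      have key := hs₀ s D (VStep_H H) (VStep_V V) U u ![-(cN (N + 1) * xN (N + 1) ^ sV V), 1, 0]
        (VStep_b N V) 0 hs.1.1 hD hU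
        { new := hu
          fr := VStep_fr hF
          hx := fun j => ⟨norm_xN _, Or.inr (by rw [VStep_card, hV, hU])⟩
          hc := fun j => by
            fin_cases j
            · exact hc0.le
            · simp
            · simp
          hb := VStep_norm_b N V
          hb' := fun j => by simp
          bd := fun j ed l hB => hs₁ s lam D _ _ U ed l hs.2.1 (by linarith)
            (VStep_fr (VStep_sub hF) j) hD ((VStep_card V j).trans hV) hU hB
          bd' := hbd'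
          rot := hs₂ s lam D H V U hs.2.2 k1 hl0 (VStep_sub hF) hD hV hU
          rot' := fun j ed l hB => by simpa using hbd' _ _ _ hB.rot
          k1 := by
            have e : VStep_b N V 0 = cN N * xN (N + 1) ^ sV V := rfl
            simp only [Matrix.cons_val_zero, Matrix.cons_val_one, Matrix.cons_val, e, VStep_cN N]
            refine le_of_eq (norm_eq_zero.2 ?_)
            ring
          k2 := by simpa using hc0.le }
      have e0 : ∑ j, (![-(cN (N + 1) * xN (N + 1) ^ sV V), 1, 0] : Fin 3 → ℂ) j *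
          amp D (VStep_H H j) (VStep_V V j) (insert u U) (xN (N + 1)) =
          amp D (rotA.mS H) (rotA.mT V) (insert u U) (xN (N + 1)) -
            cN (N + 1) * xN (N + 1) ^ sV V * amp D H V (insert u U) (xN (N + 1)) := by
        simp [Fin.sum_univ_three, VStep_H, VStep_V]
        ring
      rw [e0] at key
      refine key.trans ?_
      have hp : 0 ≤ lam ^ (-aN (N + 1)) := by positivity
      have e1 := VStep_pow (N := N) hl0
      have e2 : lam ^ ((0 : ℝ) - 1) * lam ^ (-g) =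
          lam ^ (-(1 + g - aN (N + 1))) * lam ^ (-aN (N + 1)) := by
        rw [← Real.rpow_add hl0, ← Real.rpow_add hl0]
        congr 1
        ring
      have a2 := mul_le_mul_of_nonneg_right (hl₂ lam k2) hp
      have a3 := mul_le_mul_of_nonneg_right (hl₃ lam k3) hp
      rw [Real.rpow_neg_one] at a2
      have a4 : C' * lam ^ (-g) / lam ≤ C' * lam ^ (-g) := div_le_self (by positivity) (by linarith)
      have a5 := mul_le_mul_of_nonneg_left a4 (show 0 ≤ C₁ * lam ^ ((0 : ℝ) - 1) by positivity)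
      have a6 : C₁ * (lam ^ (-(N : ℝ) / 3) * (0 * (C * lam ^ (-aN N)) +
          η / (4 * C₁) * lam ^ (-aN N) + C * lam ^ (-aN N) / lam)) =
          η / 4 * lam ^ (-aN (N + 1)) + C₁ * C * lam⁻¹ * lam ^ (-aN (N + 1)) := by
        rw [← e1]
        field_simp
        ring
      have a7 : 3 * C₁ * C' * (lam ^ ((0 : ℝ) - 1) * lam ^ (-g)) =
          3 * C₁ * C' * lam ^ (-(1 + g - aN (N + 1))) * lam ^ (-aN (N + 1)) := by
        rw [e2]
        ring
      rw [mul_add, a6]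
      generalize lam ^ ((0 : ℝ) - 1) = q at a5 a7 ⊢
      linarith) η hη
  refine ⟨lam₀, fun Lam => ?_⟩
  obtain ⟨s₀, hs₀⟩ := hl₀ Lam
  exact ⟨s₀, fun s R D H V U hs hR hF hD hV hU => hs₀ s R D H V U hs hR hF hD ⟨hV, hU⟩⟩

theorem VStep_cN3 : cN 3 = ta := by
  rw [cN, ta]
  congr 2
  norm_num [aN]

theorem VStep_rph {e : ℝ} (he : e = -1) : rph e = ta := by
  rw [rph, ta, he]
  congr 1
  push_cast
  ring

theorem VStep_k (a b : ℤ) : (1 : ℂ) + (-1) ^ a * (ta * (-1) ^ a) * ta +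
    (-1) ^ (a + b) * (ta * (-1) ^ a) * (ta * (-1) ^ b) * ta ^ 2 = 0 := by
  have h : ∀ n : ℤ, ((-1 : ℂ) ^ n) * (-1) ^ n = 1 := fun n => by
    rw [← mul_zpow]
    simp
  rw [zpow_add₀ (by norm_num)]
  linear_combination (ta ^ 2 + ta ^ 4 * ((-1) ^ b * (-1) ^ b)) * h a + ta ^ 4 * h b + ta_sum +
    ta * ta_cube

/-- `c = ![1, (-1) ^ sV V, (-1) ^ (sV V + sV (g V))]`, `b' = b`, `κ = κ' = 0`
(`cN 3 = rph (-1) = ta`, `ta_sum`) -/
theorem cv_four (hB : PB 3) (hC : PC 3) : CV4 := by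
  obtain ⟨C, hC0, hb⟩ := VStep_PB hB
  obtain ⟨C₁, hC₁, hr⟩ := rhf 3 (by norm_num)
  intro η hη
  have a3 : aN 3 = 1 := by norm_num [aN]
  obtain ⟨lam₀, hl₀⟩ := VStep_C (P := fun V U => V.card = 3 + 1 ∧ U.card = 3 + 1)
    (F := fun D H V U => ‖amp3 D H V U‖) (γ := 2) (by norm_num)
    (fun η hη => by
      obtain ⟨l₁, hl₁⟩ := VStep_PC hC (η := η / (6 * C₁)) (by positivity)
      obtain ⟨l₂, hl₂⟩ := VStep_small one_pos (show 0 < η / 3 by positivity) (2 * C₁ * C)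
      refine ⟨max (max 10000 l₁) l₂, fun Lam lam hl => ?_⟩
      simp only [max_le_iff] at hl
      obtain ⟨⟨hl, k1⟩, k2⟩ := hl
      have hl0 : 0 < lam := by linarith
      obtain ⟨s₀, hs₀⟩ := hr lam Lam (η / 3 * lam ^ (-2 : ℝ)) (-((3 : ℕ) : ℝ) / 3) 0
        (C * lam ^ (-aN 3)) (C * lam ^ (-aN 3)) (η / (6 * C₁) * lam ^ (-aN 3))
        (η / (6 * C₁) * lam ^ (-aN 3)) 0 0
        _ hl (by positivity) (by norm_num) (by linarith) (by ring) (VStep_xN 3)
      obtain ⟨s₁, hs₁⟩ := hb Lam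
      obtain ⟨s₂, hs₂⟩ := hl₁ Lam
      refine ⟨max s₀ (max s₁ s₂), fun s hs D H V U hF hD ⟨hV, hU1⟩ => ?_⟩
      obtain ⟨u, U, hu, hU, rfl⟩ := VStep_split hU1
      simp only [max_le_iff] at hs
      have hbd : ∀ j ed l, Band s ed → ‖obsE D (VStep_H H j) (VStep_V V j) U
          (xN (3 + 1)) ed l‖ ≤ C * lam ^ (-aN 3) := fun j ed l hB =>
        hs₁ s lam D _ _ U ed l hs.2.1 (by linarith)
          (VStep_fr (VStep_sub hF) j) hD ((VStep_card V j).trans hV) hU hB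
      have hrot := hs₂ s lam D H V U hs.2.2 k1 hl0 (VStep_sub hF) hD hV hU
      have b0 : VStep_b 3 V 0 = ta * (-1) ^ sV V := by
        rw [VStep_b, VStep_cN3, xN_four]
        rfl
      have b1 : VStep_b 3 V 1 = ta * (-1) ^ sV (rotA.mT V) := by
        rw [VStep_b, VStep_cN3, xN_four]
        rfl
      have key := hs₀ s D (VStep_H H) (VStep_V V) U u
        ![1, (-1) ^ sV V, (-1) ^ (sV V + sV (rotA.mT V))] (VStep_b 3 V) (VStep_b 3 V) hs.1 hD hU
        { new := hu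
          fr := VStep_fr hF
          hx := fun j => ⟨norm_xN _, Or.inr (by rw [VStep_card, hV, hU])⟩
          hc := fun j => by fin_cases j <;> simp
          hb := VStep_norm_b 3 V
          hb' := VStep_norm_b 3 V
          bd := hbd
          bd' := by rw [VStep_conj]; exact hbd
          rot := hrot
          rot' := by rw [VStep_conj]; exact hrot
          k1 := by
            rw [b0, b1, VStep_rph (by norm_num)]
            exact le_of_eq (norm_eq_zero.2 (VStep_k _ _))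
          k2 := by
            rw [b0, b1, VStep_rph (by norm_num)]
            simp only [Matrix.cons_val_zero, Matrix.cons_val_one, Matrix.cons_val, map_one,
              map_zpow₀, map_neg]
            exact le_of_eq (norm_eq_zero.2 (VStep_k _ _)) }
      have e0 : ∑ j, (![1, (-1) ^ sV V, (-1) ^ (sV V + sV (rotA.mT V))] : Fin 3 → ℂ) j *
          amp D (VStep_H H j) (VStep_V V j) (insert u U) (xN (3 + 1)) = amp3 D H V (insert u U) := by
        rw [xN_four, Fin.sum_univ_three, amp3, ← one_mul (amp D H V (insert u U) (-1))]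
        rfl
      rw [e0] at key
      refine key.trans ?_
      have e1 : lam ^ (-2 : ℝ) = lam⁻¹ * lam⁻¹ := by
        rw [← Real.rpow_neg_one, ← Real.rpow_add hl0]
        norm_num
      have a2 := mul_le_mul_of_nonneg_right (hl₂ lam k2) (show 0 ≤ lam⁻¹ * lam⁻¹ by positivity)
      rw [Real.rpow_neg_one] at a2
      rw [a3, show -((3 : ℕ) : ℝ) / 3 = -1 by norm_num, zero_sub, Real.rpow_neg_one, e1]
      have a6 : C₁ * (lam⁻¹ * (0 * (C * lam⁻¹) + η / (6 * C₁) * lam⁻¹ + C * lam⁻¹ / lam) +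
          lam⁻¹ * (0 * (C * lam⁻¹) + η / (6 * C₁) * lam⁻¹ + C * lam⁻¹ / lam)) =
          η / 3 * (lam⁻¹ * lam⁻¹) + 2 * C₁ * C * lam⁻¹ * (lam⁻¹ * lam⁻¹) := by
        field_simp
        ring
      rw [a6]
      linarith) η hη
  refine ⟨lam₀, fun Lam => ?_⟩
  obtain ⟨s₀, hs₀⟩ := hl₀ Lam
  refine ⟨s₀, fun s R D H V U hs hR hF hD hV hU => ?_⟩
  have h := hs₀ s R D H V U hs hR hF hD ⟨hV, hU⟩
  rwa [Real.rpow_two] at h

end Pool.Agent.TAF.U
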