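import Pool.Agent.P.MP_cb4022_pr.U.Zt
import Pool.Agent.P.MP_cb4022_pr.U.Gate
import Pool.Agent.P.MP_cb4022_pr.U.JPot

/-! The gate at a boundary point; the wall index (paper E7). -/

open scoped Classical symmDiff
open Metric

noncomputable section

namespace Pool.Agent.TAF.U

/-- the sites near the preimage of `A` -/
def WGate_apx (D : Finset Site) (φ : ℂ → ℂ) (A : Set ℂ) : Finset Site :=
  D.filter fun y => ∃ z ∈ φ '' A, ‖pos y - z‖ < 0.7

theorem WGate_sub (D : Finset Site) (φ : ℂ → ℂ) (A : Set ℂ) : WGate_apx D φ A ⊆ D :=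
  Finset.filter_subset _ _

theorem WGate_mem {D : Finset Site} {φ : ℂ → ℂ} {A : Set ℂ} {y : Site} :
    y ∈ WGate_apx D φ A ↔ y ∈ D ∧ ∃ v ∈ A, ‖pos y - φ v‖ < 0.7 := by
  simp only [WGate_apx, Finset.mem_filter, Set.exists_mem_image]

theorem WGate_conn {D : Finset Site} {ψ φ G : ℂ → ℂ} (h : CM (OmD D) ψ φ G) {A : Set ℂ}
    (hA : A ⊆ ball 0 1) (hc : IsPreconnected A) : SConn (WGate_apx D φ A) := by
  have h1 : IsPreconnected (φ '' A) := hc.image φ (h.dφ.continuousOn.mono hA)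
  have h2 := approx (D : Set Site) h1 (by
    rintro z ⟨v, hv, rfl⟩
    exact mem_OmD.1 (h.mφ (hA hv)))
  have e : (WGate_apx D φ A : Set Site) =
      {x | x ∈ (D : Set Site) ∧ ∃ z ∈ φ '' A, ‖pos x - z‖ < 0.7} := by
    ext x
    simp only [WGate_apx, Finset.coe_filter, Set.mem_ofPred_eq, Finset.mem_coe]
  rw [e]
  exact h2

theorem WGate_near {D : Finset Site} {ψ : ℂ → ℂ} {ε : ℝ} (hW : Wolff (OmD D) ψ 1 ε) {y : Site}
    (hy : y ∈ D) {z : ℂ} (hz : ‖pos y - z‖ < 0.7) : ‖ψ (pos y) - ψ z‖ ≤ ε := by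
  have hb : closedBall (pos y) 0 ∪ segment ℝ (pos y) z ⊆ ball (pos y) 0.7 := by
    refine Set.union_subset (closedBall_subset_ball (by norm_num)) ?_
    refine (convex_ball _ _).segment_subset (mem_ball_self (by norm_num)) ?_
    rwa [mem_ball, dist_comm, dist_eq_norm]
  have hs : segment ℝ (pos y) z ⊆ ball (pos y) 0.7 := Set.subset_union_right.trans hb
  refine hW (segment ℝ (pos y) z) (fun u hu => mem_OmD.2 ⟨y, hy, ?_⟩)
    (convex_segment _ _).isPreconnected ?_ _ (left_mem_segment _ _ _) _ (right_mem_segment _ _ _)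
  · have := hs hu
    rwa [mem_ball, dist_comm, dist_eq_norm] at this
  · intro a ha b hb
    rw [segment_eq_image_lineMap] at ha hb
    obtain ⟨s, hs, rfl⟩ := ha
    obtain ⟨t, ht, rfl⟩ := hb
    rw [← dist_eq_norm, dist_lineMap_lineMap, dist_eq_norm, dist_eq_norm, Real.norm_eq_abs]
    have : |s - t| ≤ 1 := abs_le.2 ⟨by linarith [hs.1, ht.2], by linarith [hs.2, ht.1]⟩
    nlinarith [norm_nonneg (pos y - z), abs_nonneg (s - t)]

theorem WGate_close {D : Finset Site} {ψ φ G : ℂ → ℂ} (h : CM (OmD D) ψ φ G) {ε : ℝ}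
    (hW : Wolff (OmD D) ψ 1 ε) {A : Set ℂ} (hA : A ⊆ ball 0 1) {y : Site}
    (hy : y ∈ WGate_apx D φ A) : ∃ v ∈ A, ‖ψ (pos y) - v‖ ≤ ε := by
  obtain ⟨h1, v, hv, h2⟩ := WGate_mem.1 hy
  have := WGate_near hW h1 h2
  rw [h.inv2 v (hA hv)] at this
  exact ⟨v, hv, this⟩

theorem WGate_self {D : Finset Site} {ψ φ G : ℂ → ℂ} (h : CM (OmD D) ψ φ G) {A : Set ℂ}
    {y : Site} (hy : y ∈ D) (hA : ψ (pos y) ∈ A) : y ∈ WGate_apx D φ A := by
  refine WGate_mem.2 ⟨hy, _, hA, ?_⟩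
  rw [h.inv1 _ (pos_mem_OmD.2 hy), sub_self, norm_zero]
  norm_num

/-- an edge of `D` that leaves the disc round `w` has an end near the preimage of the circle -/
theorem WGate_ivt {D : Finset Site} {ψ φ G : ℂ → ℂ} (h : CM (OmD D) ψ φ G) {w : ℂ} {σ : ℝ}
    {a b : Site} (ha : a ∈ D) (hb : b ∈ D) (hab : tri.Adj a b) (h1 : ‖ψ (pos a) - w‖ < σ)
    (h2 : σ ≤ ‖ψ (pos b) - w‖) :
    a ∈ WGate_apx D φ (sphere w σ ∩ ball 0 1) ∨ b ∈ WGate_apx D φ (sphere w σ ∩ ball 0 1) := by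
  have hs := seg_sub_OmD ha hb (Or.inr hab)
  have hc : ContinuousOn (fun z => ‖ψ z - w‖) (segment ℝ (pos a) (pos b)) :=
    ((h.dψ.continuousOn.mono hs).sub continuousOn_const).norm
  obtain ⟨z, hz, e⟩ := (convex_segment (pos a) (pos b)).isPreconnected.intermediate_value
    (left_mem_segment _ _ _) (right_mem_segment _ _ _) hc ⟨h1.le, h2⟩
  have hm : ψ z ∈ sphere w σ ∩ ball 0 1 := ⟨by rw [mem_sphere, dist_eq_norm]; exact e,
    h.mψ (hs hz)⟩
  have hd := dist_add_dist_of_mem_segment hz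
  have h3 : dist (pos a) (pos b) = 1 := by rw [dist_eq_norm]; exact dst_adj hab
  rw [h3, dist_comm z, dist_eq_norm, dist_eq_norm] at hd
  by_cases h4 : ‖pos a - z‖ < 0.7
  · exact Or.inl (WGate_mem.2 ⟨ha, _, hm, by rwa [h.inv1 z (hs hz)]⟩)
  · refine Or.inr (WGate_mem.2 ⟨hb, _, hm, ?_⟩)
    rw [h.inv1 z (hs hz)]
    linarith [not_lt.1 h4]

theorem WGate_ray {w z : ℂ} (hw : ‖w‖ = 1) (hz : ‖z‖ ≤ 1) {τ : ℝ} (hτ : τ ∈ Set.Icc (0 : ℝ) 1) :
    ‖z - w‖ ≤ 2 * ‖τ * z - w‖ := by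
  have h1 : ‖z - τ * z‖ = (1 - τ) * ‖z‖ := by
    rw [show z - τ * z = ((1 - τ : ℝ) : ℂ) * z by push_cast; ring, norm_mul, Complex.norm_real,
      Real.norm_of_nonneg (by linarith [hτ.2])]
  have h2 : ‖(τ : ℂ) * z‖ = τ * ‖z‖ := by
    rw [norm_mul, Complex.norm_real, Real.norm_of_nonneg hτ.1]
  have h3 := norm_sub_le_norm_sub_add_norm_sub z (τ * z) w
  have h4 := norm_sub_norm_le w (τ * z)
  rw [norm_sub_rev w] at h4
  linarith

theorem WGate_zero {D : Finset Site} {ψ φ G : ℂ → ℂ} (h : CM (OmD D) ψ φ G) : (0 : Site) ∈ D :=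
  pos_mem_OmD.1 (by rw [pos_zero]; exact h.zero)

/-- the sites near the preimage of a radius: `approx` for `φ '' segment ℝ 0 (ψ (pos x))` -/
theorem radius_set {D : Finset Site} {ψ φ G : ℂ → ℂ} (h : CM (OmD D) ψ φ G) {ε : ℝ}
    (hW : Wolff (OmD D) ψ 1 ε) {x : Site} (hx : x ∈ D) : ∃ X : Set Site, X ⊆ D ∧ SConn X ∧
      (0 : Site) ∈ X ∧ x ∈ X ∧ ∀ y ∈ X, ∃ τ ∈ Set.Icc (0 : ℝ) 1,
        ‖ψ (pos y) - τ * ψ (pos x)‖ ≤ ε := by
  have hA : segment ℝ 0 (ψ (pos x)) ⊆ ball 0 1 :=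
    (convex_ball _ _).segment_subset (mem_ball_self one_pos) (h.mψ (pos_mem_OmD.2 hx))
  refine ⟨WGate_apx D φ (segment ℝ 0 (ψ (pos x))), WGate_sub _ _ _,
    WGate_conn h hA (convex_segment _ _).isPreconnected, WGate_self h (WGate_zero h) ?_,
    WGate_self h hx (right_mem_segment _ _ _), fun y hy => ?_⟩
  · rw [pos_zero, h.psi_zero]
    exact left_mem_segment _ _ _
  · obtain ⟨v, ⟨a, b, ha, hb, hab, rfl⟩, hv⟩ := WGate_close h hW hA hy
    refine ⟨b, ⟨hb, by linarith⟩, ?_⟩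
    simpa using hv

/-- a short arc round `w` -/
theorem WGate_arc (Lam : ℝ) {b ε₂ : ℝ} (hb : 0 < b) (h2 : 0 < ε₂) (h3 : ε₂ ≤ 1) :
    ∃ ε₁ : ℝ, 0 < ε₁ ∧ ∀ (lam s : ℝ) (D : Finset Site) (ψ φ G : ℂ → ℂ), 1 ≤ s →
      CD lam Lam s D ψ φ G → ∀ w : ℂ, ‖w‖ = 1 → ∃ σ ∈ Set.Ioo ε₁ ε₂,
        ∀ u ∈ sphere w σ ∩ ball 0 1, ∀ v ∈ sphere w σ ∩ ball 0 1, ‖φ u - φ v‖ ≤ b * s := by
  have hL : 0 < |Lam| + 1 := by positivity
  set B : ℝ := 7 * (|Lam| + 1) / b with hB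
  have B0 : 0 < B := by positivity
  have e0 : 0 < ε₂ * Real.exp (-B ^ 2) := by positivity
  refine ⟨ε₂ * Real.exp (-B ^ 2), e0, fun lam s D ψ φ G hs h w hw => ?_⟩
  have hlt : ε₂ * Real.exp (-B ^ 2) < ε₂ :=
    mul_lt_of_lt_one_right h2 ((Real.exp_lt_exp.2 (by rw [neg_lt_zero]; positivity)).trans_eq
      Real.exp_zero)
  have hM : Set.MapsTo φ (ball 0 1) (ball 0 ((|Lam| + 1) * s)) := fun v hv =>
    ball_subset_ball (by nlinarith [le_abs_self Lam]) (OmD_sub_ball h.out (h.cm.mφ hv))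
  have hi : Set.InjOn φ (ball 0 1) := fun u hu v hv e => by
    rw [← h.cm.inv2 u hu, e, h.cm.inv2 v hv]
  obtain ⟨σ, hσ, hS⟩ := length_area isOpen_ball h.cm.dφ hi (by positivity) hM w e0 hlt
  have e1 : 7 * ((|Lam| + 1) * s) / √(Real.log (ε₂ / (ε₂ * Real.exp (-B ^ 2)))) = b * s := by
    rw [show ε₂ / (ε₂ * Real.exp (-B ^ 2)) = Real.exp (B ^ 2) by
      rw [Real.exp_neg]; field_simp, Real.log_exp, Real.sqrt_sq B0.le, hB]
    field_simp
  rw [e1] at hS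
  refine ⟨σ, hσ, fun u hu v hv => hS.diam (by positivity)
    (isClosed_sphere.measurableSet.inter isOpen_ball.measurableSet) subset_rfl
    (arc_connected hw (e0.trans hσ.1) (hσ.2.le.trans h3)).isPreconnected
    (h.cm.dφ.continuousOn.mono Set.inter_subset_right) hu hv⟩

theorem WGate_far {lam Lam s : ℝ} {D : Finset Site} {ψ φ G : ℂ → ℂ} (h : CD lam Lam s D ψ φ G)
    (hl : 4 ≤ lam) (hs : 1 ≤ s) {x : Site} (hx : ‖pos x‖ ≤ s) : ‖ψ (pos x)‖ ≤ 1 / 3 := by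
  refine (h.psi_le hl hs (by linarith)).trans ?_
  rw [div_le_div_iff₀ (by linarith) (by norm_num)]
  linarith

/-- Order of constants: `K` from `armB_small`, `d` from `cd_wolff` for `ε₂ / 2`, `ρ = d s / 4`,
`r = ρ / (2 K)`, then `ε₁` so small that `length_area` for `φ` gives `σ ∈ (ε₁, ε₂ / 2)` with
`Γ = φ '' (sphere w σ ∩ ball 0 1)` of diameter at most `r / 2`. `X` is `approx` of `Γ`,
`Z = X ∪ {x ∈ D | ‖ψ x - w‖ < σ}`, `p ∈ X`, `Rg = cmp (D ∩ bal p ρ) p`, `Out` is the component of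
`0` in `{x ∈ D | 2 ε₂ < ‖ψ x - w‖}` (use `radius_set` and `‖w - z‖ ≤ 2 ‖w - τ z‖`), `e₀` is a side
of a triangle from `cd_exists_wall`. -/
theorem wall_gate (Lam : ℝ) {q ε₂ : ℝ} (hq : 0 < q) (h2 : 0 < ε₂) (h3 : ε₂ ≤ 1 / 20) :
    ∃ ε₁ s₀ : ℝ, 0 < ε₁ ∧ ∀ (lam s : ℝ) (D : Finset Site) (ψ φ G : ℂ → ℂ), 4 ≤ lam → s₀ ≤ s →
      CD lam Lam s D ψ φ G → ∀ w : ℂ, ‖w‖ = 1 →
      ∃ (Z X Rg : Finset Site) (Out : Set Site) (p : Site) (r ρ : ℝ) (e₀ : Edge),
        ArmB (r + 1) (ρ - 1) q ∧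
        (∀ H ⊆ bal 0 s, GateD D H Z X Rg Out (D : Set Site)ᶜ p r ρ e₀) ∧
        (∀ x ∈ D, ‖ψ (pos x) - w‖ ≤ ε₁ → x ∈ Z) ∧ (∀ x ∈ Z, ‖ψ (pos x) - w‖ ≤ ε₂) ∧
        ∀ x ∈ D, 10 * ε₂ ≤ ‖ψ (pos x) - w‖ → x ∈ Out := by
  obtain ⟨K, hK, hA⟩ := armB_small hq
  obtain ⟨d, d0, hd⟩ := cd_wolff Lam (half_pos h2)
  have K0 : 0 < K := by linarith
  obtain ⟨ε₁, e1, hσ⟩ := WGate_arc Lam (b := d / (16 * K)) (by positivity) (half_pos h2)
    (by linarith)
  obtain ⟨s₁, hs₁⟩ := cd_exists_wall Lam e1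
  refine ⟨ε₁, max (max 1 s₁) (24 * K / d), e1, fun lam s D ψ φ G hl hs h w hw => ?_⟩
  have s1 : 1 ≤ s := (le_max_left _ _).trans ((le_max_left _ _).trans hs)
  have s2 : s₁ ≤ s := (le_max_right _ _).trans ((le_max_left _ _).trans hs)
  have s3 : 24 * K ≤ d * s := by
    have := (le_max_right _ _).trans hs
    rwa [div_le_iff₀ d0, mul_comm s] at this
  have hW := hd lam s D ψ φ G hl s1 h
  have hW1 : Wolff (OmD D) ψ 1 (ε₂ / 2) := hW.mono (by linarith) le_rfl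
  obtain ⟨σ, ⟨σ1, σ2⟩, hΓ⟩ := hσ lam s D ψ φ G s1 h w hw
  obtain ⟨t, i, t1, t2, -, t3⟩ := hs₁ lam s D ψ φ G hl s2 h w hw
  obtain ⟨r, hr⟩ : ∃ r, r = d * s / (8 * K) := ⟨_, rfl⟩
  have r1 : K * r = d * s / 8 := by rw [hr]; field_simp
  have r2 : 3 ≤ r := by rw [hr, le_div_iff₀ (by positivity)]; linarith
  have r3 : d / (16 * K) * s = r / 2 := by rw [hr]; field_simp; norm_num
  have r4 : 2 * r ≤ d * s / 8 := by nlinarith
  rw [r3] at hΓ
  have hc := arc_connected hw (e1.trans σ1) (by linarith : σ ≤ 1)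
  set A := sphere w σ ∩ ball 0 1 with hAd
  have hA1 : A ⊆ ball 0 1 := Set.inter_subset_right
  set X := WGate_apx D φ A with hX
  have cX : SConn X := WGate_conn h.cm hA1 hc.isPreconnected
  obtain ⟨v₀, hv₀⟩ := hc.nonempty
  obtain ⟨p, pD, hp⟩ := mem_OmD.1 (h.cm.mφ (hA1 hv₀))
  have pX : p ∈ X := WGate_mem.2 ⟨pD, v₀, hv₀, hp⟩
  have Xb : ∀ y ∈ X, dst y p ≤ r := fun y hy => by
    obtain ⟨-, v, hv, h1⟩ := WGate_mem.1 hy
    have a1 := norm_sub_le_norm_sub_add_norm_sub (pos y) (φ v) (pos p)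
    have a2 := norm_sub_le_norm_sub_add_norm_sub (φ v) (φ v₀) (pos p)
    rw [norm_sub_rev (φ v₀)] at a2
    rw [dst]
    linarith [hΓ v hv v₀ hv₀]
  have Xw : ∀ y ∈ X, ‖ψ (pos y) - w‖ ≤ ε₂ := fun y hy => by
    obtain ⟨v, hv, h1⟩ := WGate_close h.cm hW1 hA1 hy
    have a1 := norm_sub_le_norm_sub_add_norm_sub (ψ (pos y)) v w
    have a2 : ‖v - w‖ = σ := by simpa [dist_eq_norm] using hv.1
    linarith
  set Z' := D.filter fun x => ‖ψ (pos x) - w‖ < σ with hZ'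
  have Zw : ∀ y ∈ X ∪ Z', y ∈ D ∧ ‖ψ (pos y) - w‖ ≤ ε₂ := fun y hy => by
    rcases Finset.mem_union.1 hy with a | a
    · exact ⟨WGate_sub _ _ _ a, Xw y a⟩
    · exact ⟨(Finset.mem_filter.1 a).1, by linarith [(Finset.mem_filter.1 a).2]⟩
  have XB : X ⊆ D ∩ bal p (d * s / 4) := fun y hy =>
    Finset.mem_inter.2 ⟨WGate_sub _ _ _ hy, mem_bal.2 (by linarith [Xb y hy])⟩
  have Rw : ∀ y ∈ cmp (D ∩ bal p (d * s / 4)) p, y ∈ D ∧ ‖ψ (pos y) - w‖ ≤ 2 * ε₂ := fun y hy => by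
    obtain ⟨a1, a2⟩ := mem_cmp.1 hy
    refine ⟨(Finset.mem_inter.1 a1).1, ?_⟩
    have a3 := wolff_jn hW (X := (D ∩ bal p (d * s / 4) : Finset Site)) (c := p) (r := d * s / 4)
      (fun x hx => (Finset.mem_inter.1 hx).1) (fun x hx => mem_bal.1 (Finset.mem_inter.1 hx).2)
      (by linarith) (XB pX) a2 (z := pos p) (w := pos y) (by norm_num) (by norm_num)
    have a4 := norm_sub_le_norm_sub_add_norm_sub (ψ (pos y)) (ψ (pos p)) w
    rw [norm_sub_rev] at a3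
    linarith [Xw p pX]
  have nH : ∀ y, ‖ψ (pos y) - w‖ ≤ 2 * ε₂ → y ∉ bal 0 s := fun y hy hb => by
    have a1 := WGate_far h hl s1 (x := y) (by rw [← dst_zero]; exact mem_bal.1 hb)
    have a2 := norm_sub_norm_le w (ψ (pos y))
    rw [norm_sub_rev] at a2
    linarith
  have z0 : (0 : Site) ∈ D := WGate_zero h.cm
  have w0 : ‖ψ (pos 0) - w‖ = 1 := by rw [pos_zero, h.cm.psi_zero, zero_sub, norm_neg, hw]
  set O := D.filter fun x => 2 * ε₂ < ‖ψ (pos x) - w‖ with hO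
  have Ow : ∀ y ∈ cmp O 0, y ∈ D ∧ 2 * ε₂ < ‖ψ (pos y) - w‖ := fun y hy =>
    Finset.mem_filter.1 (mem_cmp.1 hy).1
  have ivt : ∀ a ∈ Z', ∀ b ∈ D, b ∉ Z' → tri.Adj a b → a ∈ X ∨ b ∈ X := fun a ha b hb hn hab =>
    WGate_ivt h.cm (Finset.mem_filter.1 ha).1 hb hab (Finset.mem_filter.1 ha).2
      (not_lt.1 fun hh => hn (Finset.mem_filter.2 ⟨hb, hh⟩))
  have e1' : ∀ x ∈ D, ‖ψ (pos x) - w‖ ≤ ε₁ → x ∈ X ∪ Z' := fun x hx hh =>
    Finset.mem_union_right _ (Finset.mem_filter.2 ⟨hx, by linarith⟩)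
  have b1 : i + 2 + 1 = i := by generalize i = j; revert j; decide
  have b2 : i + 2 + 2 = i + 1 := by generalize i = j; revert j; decide
  refine ⟨X ∪ Z', X, cmp (D ∩ bal p (d * s / 4)) p, cmp O 0, p, r, d * s / 4, side t (i + 2),
    (hA (r + 1) (by linarith)).mono le_rfl (by linarith) le_rfl, fun H hH => ?_, e1',
    fun x hx => (Zw x hx).2, fun x hx hh => ?_⟩
  · refine
      { connO := h.connO
        zsub := fun y hy => Finset.mem_sdiff.2 ⟨(Zw y hy).1,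
          fun a => nH y (by linarith [(Zw y hy).2]) (hH a)⟩
        zconn := sconn_of_jn cX (fun y hy => Finset.mem_union_left _ hy) fun y hy => ?_
        xsub := fun y hy => Finset.mem_inter.2 ⟨Finset.mem_union_left _ hy, mem_bal.2 (Xb y hy)⟩
        znb := fun a ha b hab => ?_
        rsub := fun y hy => Finset.mem_sdiff.2 ⟨(Rw y hy).1, fun a => nH y (Rw y hy).2 (hH a)⟩
        xr := fun y hy => mem_cmp.2 ⟨XB hy, (cX p pX y hy).mono XB⟩
        rcl := fun a ha b hb hab => cmp_closed ha hb hab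
        rρ := by linarith
        oconn := sconn_cmp O 0
        d1 := Set.disjoint_left.2 fun y hy hy' => by linarith [(Ow y hy).2, (Rw y hy').2]
        d2 := Set.disjoint_left.2 fun y hy hy' => by linarith [(Ow y hy).2, (Zw y hy').2]
        d3 := Set.disjoint_left.2 fun y hy hy' => hy' (Ow y hy).1
        wall := Or.inl rfl
        hW := fun x _ hx => hx
        e1 := touch_side.2 (Or.inl (by rw [b1]; exact e1' _ t1 t3))
        e2 := Or.inr (touch_side.2 (Or.inr (by rw [b2]; exact t2))) }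
    · rcases Finset.mem_union.1 hy with a | a
      · exact ⟨y, a, Jn.refl _ _⟩
      · have n0 : (0 : Site) ∉ (Z' : Set Site) := fun hh => by
          linarith [(Finset.mem_filter.1 hh).2]
        obtain ⟨u, v, j1, u1, v1, uv, -⟩ :=
          (h.connD y (Zw y hy).1 0 z0).exit (Z := Z') (Zw y hy).1 a n0
        have j2 : Jn (X ∪ Z' : Finset Site) y u :=
          j1.mono fun x hx => Finset.mem_union_right _ hx.2
        rcases ivt u u1.2 v v1.1 v1.2 uv with c | c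
        · exact ⟨u, c, j2⟩
        · exact ⟨v, c, j2.trans (Jn.single (Finset.mem_union_right _ u1.2)
            (Finset.mem_union_left _ c) uv)⟩
    · obtain ⟨a1, a2⟩ := Finset.mem_sdiff.1 ha
      by_cases bD : b ∈ D
      · by_cases bZ : b ∈ Z'
        · exact Or.inl (Finset.mem_union_right _ bZ)
        · exact Or.inl (Finset.mem_union_left _
            ((ivt a ((Finset.mem_union.1 a1).resolve_left a2) b bD bZ hab).resolve_left a2))
      · exact Or.inr bD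
  · obtain ⟨Y, y1, y2, y3, y4, y5⟩ := radius_set h.cm hW1 hx
    have YO : Y ⊆ O := fun y hy => by
      obtain ⟨τ, hτ, a1⟩ := y5 y hy
      refine Finset.mem_filter.2 ⟨y1 hy, ?_⟩
      have a2 := WGate_ray hw (h.cm.norm_lt (pos_mem_OmD.2 hx)).le hτ
      have a3 := norm_sub_le_norm_sub_add_norm_sub (τ * ψ (pos x)) (ψ (pos y)) w
      rw [norm_sub_rev] at a1
      linarith
    exact mem_cmp.2 ⟨YO y4, (y2 0 y3 x y4).mono YO⟩

theorem WGate_norm (z : ℂ) : ‖Complex.exp (z * Complex.I)‖ = Real.exp (-z.im) := by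
  rw [Complex.norm_exp]
  simp

/-- a point of the sector is far from the ray -/
theorem WGate_sep {a θ τ : ℝ} (ha : 0 < a) (h1 : a ≤ 1) (hτ : 0 ≤ τ) {z : ℂ}
    (hr : z.re ∈ Set.Icc (θ + a) (θ + 2 * Real.pi - a)) (hi : z.im ≤ 1 / 2) :
    a / 4 ≤ ‖Complex.exp (z * Complex.I) - τ * Complex.exp (θ * Complex.I)‖ := by
  obtain ⟨r, hr0⟩ : ∃ r, r = Real.exp (-z.im) := ⟨_, rfl⟩
  have r1 : 1 / 2 ≤ r := by linarith [Real.add_one_le_exp (-z.im)]
  obtain ⟨α, hα⟩ : ∃ α, α = z.re - θ := ⟨_, rfl⟩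
  have e : Complex.exp (z * Complex.I) - τ * Complex.exp (θ * Complex.I) =
      (((r * Real.cos α - τ : ℝ) : ℂ) + (r * Real.sin α : ℝ) * Complex.I) *
        Complex.exp (θ * Complex.I) := by
    have : z * Complex.I = ((-z.im : ℝ) : ℂ) + (α : ℂ) * Complex.I + θ * Complex.I := by
      rw [hα]
      apply Complex.ext <;> simp
    rw [this, Complex.exp_add, Complex.exp_add, ← Complex.ofReal_exp, ← hr0, Complex.exp_mul_I α]
    push_cast
    ring
  rw [e, norm_mul, Complex.norm_exp_ofReal_mul_I, mul_one, Complex.norm_add_mul_I]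
  refine Real.le_sqrt_of_sq_le ?_
  have hp := Real.pi_gt_three
  have c1 : Real.cos α ≤ Real.cos a := by
    rcases le_total α Real.pi with c | c
    · exact Real.cos_le_cos_of_nonneg_of_le_pi ha.le c (by linarith [hr.1])
    · rw [← Real.cos_two_pi_sub α]
      exact Real.cos_le_cos_of_nonneg_of_le_pi ha.le (by linarith) (by linarith [hr.2])
  have c2 : a / 2 ≤ Real.sin a := by
    have := Real.sin_gt_sub_cube ha
    nlinarith [mul_le_mul h1 h1 ha.le zero_le_one, mul_pos ha ha]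
  have c3 := Real.sin_sq_add_cos_sq α
  have c4 := Real.sin_sq_add_cos_sq a
  have c5 : a / 4 ≤ r * Real.sin a := by nlinarith
  have c6 : (a / 4) ^ 2 ≤ (r * Real.sin a) ^ 2 := pow_le_pow_left₀ (by positivity) c5 2
  have c7 : τ * r * Real.cos α ≤ τ * r * Real.cos a :=
    mul_le_mul_of_nonneg_left c1 (by positivity)
  have c8 : (r * Real.cos α - τ) ^ 2 + (r * Real.sin α) ^ 2 =
      r ^ 2 - 2 * (τ * r * Real.cos α) + τ ^ 2 := by linear_combination r ^ 2 * c3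
  have c9 : (r * Real.cos a - τ) ^ 2 + (r * Real.sin a) ^ 2 =
      r ^ 2 - 2 * (τ * r * Real.cos a) + τ ^ 2 := by linear_combination r ^ 2 * c4
  nlinarith [sq_nonneg (r * Real.cos a - τ)]

/-- `Jw_const` with `X` from `radius_set` and `Z` the `approx` of the preimage of the sector
`1 / 2 ≤ ‖w‖ < 1`, angle in `[θ + a, θ + 2 pi - a]`; `exists_lift`, `cd_wall` -/
theorem Jw_arc (Lam : ℝ) {a : ℝ} (ha : 0 < a) (h1 : a ≤ 1) : ∃ s₀ : ℝ, ∀ (lam s : ℝ)
    (D : Finset Site) (ψ φ G : ℂ → ℂ), 4 ≤ lam → s₀ ≤ s → CD lam Lam s D ψ φ G →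
      ∀ (u : Tri) (i : Fin 3) (θ : ℝ), OutTip D u → vtx u i ∈ D →
      ‖ψ (pos (vtx u i)) - Complex.exp (θ * Complex.I)‖ ≤ a / 100 →
      ∀ (t t' : Tri) (p p' : Fin 3) (l l' : ℤ), vtx t p ∈ D → vtx t (p + 1) ∉ D →
        vtx t' p' ∈ D → vtx t' (p' + 1) ∉ D →
        (zt ψ G (vtx t p) l).re ∈ Set.Icc (θ + a) (θ + 2 * Real.pi - a) →
        (zt ψ G (vtx t' p') l').re ∈ Set.Icc (θ + a) (θ + 2 * Real.pi - a) →
        Jw D u t p + l = Jw D u t' p' + l' := by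
  obtain ⟨d, d0, hd⟩ := cd_wolff Lam (ε := a / 100) (by positivity)
  obtain ⟨s₁, hs₁⟩ := cd_wall Lam (ε := 1 / 4) (by norm_num)
  refine ⟨max (max 10 s₁) (max (1 / d) (40 / a)),
    fun lam s D ψ φ G hl hs h u i θ hu ui uθ t t' p p' l l' t1 t2 t1' t2' m m' => ?_⟩
  have s1 : 10 ≤ s := (le_max_left _ _).trans ((le_max_left _ _).trans hs)
  have s2 : s₁ ≤ s := (le_max_right _ _).trans ((le_max_left _ _).trans hs)
  have s3 : 1 ≤ d * s := by
    have := (le_max_left _ _).trans ((le_max_right _ _).trans hs)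
    rwa [div_le_iff₀ d0, mul_comm s] at this
  have s4 : 10 / s ≤ a / 4 := by
    have := (le_max_right _ _).trans ((le_max_right _ _).trans hs)
    rw [div_le_iff₀ ha] at this
    rw [div_le_div_iff₀ (by linarith) (by norm_num)]
    linarith
  have hW : Wolff (OmD D) ψ 1 (a / 100) := (hd lam s D ψ φ G hl (by linarith) h).mono s3 le_rfl
  obtain ⟨X, x1, x2, x3, x4, x5⟩ := radius_set h.cm hW ui
  set B : Set ℂ := Set.Icc (θ + a) (θ + 2 * Real.pi - a) ×ℂ Set.Ioc 0 (1 / 2) with hB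
  set A : Set ℂ := (fun z => Complex.exp (z * Complex.I)) '' B with hA
  have cB : Convex ℝ B :=
    ((convex_Icc _ _).linear_preimage Complex.reLm).inter
      ((convex_Ioc _ _).linear_preimage Complex.imLm)
  have cA : IsPreconnected A := cB.isPreconnected.image _ (by fun_prop)
  have hA1 : A ⊆ ball 0 1 := by
    rintro _ ⟨z, hz, rfl⟩
    rw [mem_ball_zero_iff, WGate_norm]
    exact (Real.exp_lt_exp.2 (neg_lt_zero.2 hz.2.1)).trans_eq Real.exp_zero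
  have cl : ∀ y ∈ WGate_apx D φ A, ∃ z ∈ B,
      ‖ψ (pos y) - Complex.exp (z * Complex.I)‖ ≤ a / 100 := fun y hy => by
    obtain ⟨_, ⟨z, hz, rfl⟩, hv⟩ := WGate_close h.cm hW hA1 hy
    exact ⟨z, hz, hv⟩
  have n0 : ∀ y, 0.4 ≤ ‖ψ (pos y)‖ → y ≠ 0 := by
    rintro y hy rfl
    rw [pos_zero, h.cm.psi_zero, norm_zero] at hy
    norm_num at hy
  obtain ⟨μ, μ1, μ2⟩ := exists_lift h.cm hW (Z := WGate_apx D φ A) (WGate_sub _ _ _) (R := s)
    (c := 0.4) (θ := θ) (a := a / 2) s1 (by norm_num) (by linarith)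
    (by rw [show 5 * (a / 100) / 0.4 = a / 8 by ring]; linarith) fun y hy => by
      obtain ⟨z, hz, hv⟩ := cl y hy
      have a1 : 1 / 2 ≤ ‖Complex.exp (z * Complex.I)‖ := by
        rw [WGate_norm]
        linarith [Real.add_one_le_exp (-z.im), hz.2.2]
      have a2 : 0.4 ≤ ‖ψ (pos y)‖ := by
        have := norm_sub_norm_le (Complex.exp (z * Complex.I)) (ψ (pos y))
        rw [norm_sub_rev] at this
        linarith
      refine ⟨?_, a2, ?_⟩
      · by_contra hh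
        linarith [WGate_far h hl (by linarith) (not_le.1 hh).le]
      · obtain ⟨k, hk⟩ := exists_sheet h.cm (WGate_sub _ _ _ hy) (n0 y a2) (z := z) (a := a / 50)
          (by linarith) (by nlinarith)
        have a3 := (Complex.abs_re_le_norm _).trans hk
        rw [Complex.sub_re, abs_le] at a3
        exact ⟨k, by linarith [a3.1, hz.1.1], by linarith [a3.2, hz.1.2]⟩
  have key : ∀ (τ : Tri) (q : Fin 3) (k : ℤ), vtx τ q ∈ D → vtx τ (q + 1) ∉ D →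
      (zt ψ G (vtx τ q) k).re ∈ Set.Icc (θ + a) (θ + 2 * Real.pi - a) →
      vtx τ q ∈ WGate_apx D φ A ∧ k = μ (vtx τ q) := fun τ q k a1 a2 a3 => by
    have a4 := hs₁ lam s D ψ φ G hl s2 h _ a1 _ a2
      (adj_vtx τ (by generalize q = j; revert j; decide))
    have a5 := h.cm.norm_lt (pos_mem_OmD.2 a1)
    have a6 : vtx τ q ∈ WGate_apx D φ A := by
      refine WGate_self h.cm a1 ⟨zt ψ G (vtx τ q) k, ⟨a3, ?_, ?_⟩,
        exp_zt h.cm a1 (n0 _ (by linarith)) k⟩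
      · show 0 < (zt ψ G (vtx τ q) k).im
        rw [zt_im, neg_pos]
        exact Real.log_neg (by linarith) a5
      · show (zt ψ G (vtx τ q) k).im ≤ 1 / 2
        rw [zt_im]
        have b1 := Real.one_sub_inv_le_log_of_pos (x := ‖ψ (pos (vtx τ q))‖) (by linarith)
        have b2 : ‖ψ (pos (vtx τ q))‖⁻¹ ≤ (3 / 4)⁻¹ := inv_anti₀ (by norm_num) (by linarith)
        norm_num at b2
        linarith
    exact ⟨a6, (μ2 _ a6).2 k ⟨by linarith [a3.1], by linarith [a3.2]⟩⟩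
  obtain ⟨k1, k2⟩ := key t p l t1 t2 m
  obtain ⟨k3, k4⟩ := key t' p' l' t1' t2' m'
  rw [k2, k4]
  refine Jw_const ((bal_mono 0 (by nlinarith)).trans h.inn) h.connD h.connO hu x2 x1 x3 ⟨i, x4⟩
    (WGate_conn h.cm hA1 cA) (WGate_sub _ _ _) (Set.disjoint_left.2 fun y hy hy' => ?_) μ1 k1 t2
    k3 t2'
  obtain ⟨τ, hτ, a1⟩ := x5 y hy
  obtain ⟨z, hz, a2⟩ := cl y hy'
  have a3 := WGate_sep ha h1 hτ.1 hz.1 hz.2.2
  have a4 : ‖τ * ψ (pos (vtx u i)) - τ * Complex.exp (θ * Complex.I)‖ ≤ a / 100 := by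
    rw [← mul_sub, norm_mul, Complex.norm_real, Real.norm_of_nonneg hτ.1]
    nlinarith [hτ.1, hτ.2, norm_nonneg (ψ (pos (vtx u i)) - Complex.exp (θ * Complex.I))]
  have a5 := norm_sub_le_norm_sub_add_norm_sub (Complex.exp (z * Complex.I)) (ψ (pos y))
    (τ * Complex.exp (θ * Complex.I))
  have a6 := norm_sub_le_norm_sub_add_norm_sub (ψ (pos y)) (τ * ψ (pos (vtx u i)))
    (τ * Complex.exp (θ * Complex.I))
  rw [norm_sub_rev] at a2
  linarith

end Pool.Agent.TAF.U
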