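import Pool.Agent.P.MP_cb4022_pr.U.Conf
import Pool.Agent.P.MP_cb4022_pr.U.LenA

/-! Uniform continuity of Riemann maps for connected sets (paper E3). -/

open scoped Classical
open Metric

noncomputable section

namespace Pool.Agent.TAF.U

theorem Wolff_osc {ψ : ℂ → ℂ} {Ω C : Set ℂ} {p : ℂ} {r l L : ℝ} (hΩ : IsOpen Ω)
    (hs : ShortArc ψ Ω p r l) (hl : 0 ≤ l) (hL : 0 ≤ L) {h : ℂ → ℝ}
    (hd : ∀ z ∈ sphere p r ∩ Ω, DifferentiableAt ℝ h (ψ z) ∧ ‖fderiv ℝ h (ψ z)‖ ≤ L)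
    (hC : IsPreconnected C) (hc : ContinuousOn (fun z => h (ψ z)) C)
    (hv : ∀ z ∈ C, ∃ z' ∈ sphere p r ∩ Ω, h (ψ z') = h (ψ z)) {a b : ℂ} (ha : a ∈ C)
    (hb : b ∈ C) : |h (ψ a) - h (ψ b)| ≤ L * l := by
  have key : ∀ a ∈ C, ∀ b ∈ C, h (ψ b) - h (ψ a) ≤ L * l := fun a ha b hb =>
    hs.interval hl hL (isClosed_sphere.measurableSet.inter hΩ.measurableSet) subset_rfl hd
      fun t ht => by
        obtain ⟨z, hz, rfl⟩ := hC.intermediate_value ha hb hc (Set.Ioo_subset_Icc_self ht)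
        obtain ⟨z', h1, h2⟩ := hv z hz
        exact ⟨ψ z', ⟨z', h1, rfl⟩, h2⟩
  exact abs_sub_le_iff.2 ⟨key b hb a ha, key a ha b hb⟩

theorem Wolff_dir {x y : ℂ} (hx : x ≠ 0) (hy : y ≠ 0) :
    ‖‖x‖⁻¹ • x - ‖y‖⁻¹ • y‖ ≤ 2 / ‖y‖ * ‖x - y‖ := by
  have h1 := norm_pos_iff.2 hx
  have h2 := norm_pos_iff.2 hy
  have e : ‖x‖⁻¹ • x - ‖y‖⁻¹ • y = ‖y‖⁻¹ • (((‖y‖ - ‖x‖) * ‖x‖⁻¹) • x + (x - y)) := by
    match_scalars <;> field_simp <;> ring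
  have h3 : ‖((‖y‖ - ‖x‖) * ‖x‖⁻¹) • x‖ ≤ ‖x - y‖ := by
    rw [norm_smul, norm_mul, norm_inv, norm_norm, inv_mul_cancel_right₀ h1.ne', norm_sub_rev x]
    exact abs_norm_sub_norm_le y x
  rw [e, norm_smul, norm_inv, norm_norm, div_eq_mul_inv, mul_comm 2, mul_assoc]
  exact mul_le_mul_of_nonneg_left ((norm_add_le _ _).trans (by linarith)) (by positivity)

theorem Wolff_dirD (T : ℂ →L[ℝ] ℝ) (hT : ∀ z, |T z| ≤ ‖z‖) {w : ℂ} (hw : w ≠ 0) :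
    DifferentiableAt ℝ (fun x : ℂ => T (‖x‖⁻¹ • x)) w ∧
      ‖fderiv ℝ (fun x : ℂ => T (‖x‖⁻¹ • x)) w‖ ≤ 2 / ‖w‖ := by
  refine ⟨T.differentiableAt.comp w (((differentiableAt_id.norm ℝ hw).inv
    (norm_ne_zero_iff.2 hw)).smul differentiableAt_id), norm_fderiv_le_of_lip' ℝ (by positivity) ?_⟩
  filter_upwards [isOpen_ne.mem_nhds hw] with x hx
  rw [← map_sub]
  exact (hT _).trans (Wolff_dir hx hw)

variable {Ω : Set ℂ} {ψ φ G : ℂ → ℂ}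

theorem Wolff_circ (h : CM Ω ψ φ G) {p z : ℂ} {r : ℝ} (hp : r < ‖p‖) (hz : z ∈ Ω)
    (hr : ‖z - p‖ ≤ r) : ∃ z' ∈ sphere p r ∩ Ω, ‖ψ z'‖ = ‖ψ z‖ := by
  have h1 := h.norm_lt hz
  have hs : closedBall (0 : ℂ) ‖ψ z‖ ⊆ ball 0 1 := closedBall_subset_ball h1
  have hs' := sphere_subset_closedBall.trans hs
  obtain ⟨w, hw, h2⟩ : ∃ w ∈ sphere (0 : ℂ) ‖ψ z‖, r ≤ ‖φ w - p‖ := by
    by_contra hn
    push Not at hn
    have h2 := Complex.norm_le_of_forall_mem_frontier_norm_le (f := fun w => φ w - p)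
      (U := ball 0 ‖ψ z‖) isBounded_ball ((h.dφ.sub_const p).diffContOnCl_ball hs) (C := r)
      (fun w hw => (hn w (frontier_ball_subset_sphere hw)).le) (z := 0) (by
        refine subset_closure (mem_ball_self (norm_pos_iff.2 (h.psi_ne hz ?_)))
        rintro rfl
        rw [zero_sub, norm_neg] at hr
        linarith)
    rw [h.phi_zero, zero_sub, norm_neg] at h2
    linarith
  obtain ⟨v, hv, h3⟩ := (isPreconnected_sphere (by simp) (0 : ℂ) ‖ψ z‖).intermediate_value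
    (mem_sphere_zero_iff_norm.2 rfl) hw
    ((h.dφ.continuousOn.mono hs').sub continuousOn_const (g := fun _ => p)).norm
    (show r ∈ Set.Icc ‖φ (ψ z) - p‖ ‖φ w - p‖ from ⟨by rwa [h.inv1 z hz], h2⟩)
  exact ⟨φ v, ⟨mem_sphere_iff_norm.2 h3, h.mφ (hs' hv)⟩, by
    rw [h.inv2 v (hs' hv), mem_sphere_zero_iff_norm.1 hv]⟩

theorem Wolff_ray (h : CM Ω ψ φ G) {p z : ℂ} {r : ℝ} (hp : r < ‖p‖) (hz : z ∈ Ω)
    (hr : ‖z - p‖ ≤ r) : ∃ z' ∈ sphere p r ∩ Ω, ‖ψ z'‖⁻¹ • ψ z' = ‖ψ z‖⁻¹ • ψ z := by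
  have hm : ∀ t ∈ Set.Icc (0 : ℝ) 1, t • ψ z ∈ ball (0 : ℂ) 1 := fun t ht => by
    rw [mem_ball_zero_iff, norm_smul, Real.norm_of_nonneg ht.1]
    exact (mul_le_of_le_one_left (norm_nonneg _) ht.2).trans_lt (h.norm_lt hz)
  have hc : ContinuousOn (fun t : ℝ => ‖φ (t • ψ z) - p‖) (Set.Icc 0 1) :=
    ((h.dφ.continuousOn.comp (by fun_prop) hm).sub continuousOn_const).norm
  obtain ⟨t, ht, h1⟩ := intermediate_value_Ioc' zero_le_one hc (show r ∈ Set.Ico _ _ from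
    ⟨by rwa [one_smul, h.inv1 z hz], by rwa [zero_smul, h.phi_zero, zero_sub, norm_neg]⟩)
  have h2 := hm t (Set.Ioc_subset_Icc_self ht)
  refine ⟨_, ⟨mem_sphere_iff_norm.2 h1, h.mφ h2⟩, ?_⟩
  rw [h.inv2 _ h2, norm_smul, Real.norm_of_nonneg ht.1.le, smul_smul, mul_inv, mul_right_comm,
    inv_mul_cancel₀ ht.1.ne', one_mul]

theorem Wolff_far (h : CM Ω ψ φ G) {s Λ r l : ℝ} (hs : 0 < s) (hΛ : 1 ≤ Λ)
    (hM : Ω ⊆ ball 0 (Λ * s)) {C : Set ℂ} (hC : C ⊆ Ω) (hc : IsPreconnected C) {p : ℂ}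
    (hp : 3 * s / 4 ≤ ‖p‖) (hr : r < s / 4) (hd : ∀ z ∈ C, ‖z - p‖ ≤ r)
    (hS : ShortArc ψ Ω p r l) (hl : 0 ≤ l) {a b : ℂ} (ha : a ∈ C) (hb : b ∈ C) :
    ‖ψ a - ψ b‖ ≤ 9 * Λ * l := by
  have hrp : r < ‖p‖ := by linarith
  have h1 : ∀ z ∈ Ω, ‖z - p‖ ≤ r → 1 ≤ 2 * Λ * ‖ψ z‖ := fun z hz hr' => by
    have a1 := h.psi_ge hM hz
    have a2 := norm_sub_norm_le p z
    rw [norm_sub_rev] at a2
    exact le_of_mul_le_mul_left (by linarith) (half_pos hs)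
  have h2 : ∀ z ∈ Ω, ‖z - p‖ ≤ r → ψ z ≠ 0 := fun z hz hr' e => by
    have := h1 z hz hr'
    rw [e, norm_zero, mul_zero] at this
    linarith
  have hψ := h.dψ.continuousOn.mono hC
  have e1 := Wolff_osc h.isOpen hS hl zero_le_one (h := fun x => ‖x‖)
    (fun z hz => ⟨differentiableAt_id.norm ℝ (h2 z hz.2 (mem_sphere_iff_norm.1 hz.1).le),
      (norm_fderiv_le_of_lipschitz ℝ lipschitzWith_one_norm).trans_eq NNReal.coe_one⟩) hc hψ.norm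
    (fun z hz => Wolff_circ h hrp (hC hz) (hd z hz)) ha hb
  have e2 : ∀ T : ℂ →L[ℝ] ℝ, (∀ z, |T z| ≤ ‖z‖) →
      |T (‖ψ a‖⁻¹ • ψ a - ‖ψ b‖⁻¹ • ψ b)| ≤ 4 * Λ * l := fun T hT => by
    rw [map_sub]
    refine Wolff_osc h.isOpen hS hl (by linarith) (h := fun x => T (‖x‖⁻¹ • x)) (fun z hz => ?_) hc
      (fun z hz => ?_) (fun z hz => ?_) ha hb
    · have a1 := (mem_sphere_iff_norm.1 hz.1).le
      refine (Wolff_dirD T hT (h2 z hz.2 a1)).imp_right fun a2 => a2.trans ?_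
      rw [div_le_iff₀ (norm_pos_iff.2 (h2 z hz.2 a1))]
      linarith [h1 z hz.2 a1]
    · exact (Wolff_dirD T hT (h2 z (hC hz) (hd z hz))).1.continuousAt.comp_continuousWithinAt
        (hψ z hz)
    · obtain ⟨z', a1, a2⟩ := Wolff_ray h hrp (hC hz) (hd z hz)
      exact ⟨z', a1, congrArg T a2⟩
  have e3 := (Complex.norm_le_abs_re_add_abs_im (‖ψ a‖⁻¹ • ψ a - ‖ψ b‖⁻¹ • ψ b)).trans (add_le_add
    (e2 Complex.reCLM Complex.abs_re_le_norm) (e2 Complex.imCLM Complex.abs_im_le_norm))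
  have a1 := norm_ne_zero_iff.2 (h2 a (hC ha) (hd a ha))
  have a2 := norm_ne_zero_iff.2 (h2 b (hC hb) (hd b hb))
  have e4 : ψ a - ψ b = ((‖ψ a‖ - ‖ψ b‖) * ‖ψ a‖⁻¹) • ψ a +
      ‖ψ b‖ • (‖ψ a‖⁻¹ • ψ a - ‖ψ b‖⁻¹ • ψ b) := by
    generalize ‖ψ a‖ = x, ‖ψ b‖ = y at a1 a2
    match_scalars <;> field_simp <;> ring
  rw [e4]
  refine (norm_add_le _ _).trans ?_
  rw [norm_smul, norm_smul, norm_mul, norm_inv, norm_norm, inv_mul_cancel_right₀ a1, norm_norm,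
    Real.norm_eq_abs]
  nlinarith [mul_le_of_le_one_left (norm_nonneg (‖ψ a‖⁻¹ • ψ a - ‖ψ b‖⁻¹ • ψ b))
    (h.norm_lt (hC hb)).le, mul_le_mul_of_nonneg_right hΛ hl]

/-- E3. Put `c = 1 / (2 Lam)`; `‖ψ z‖ ≥ c` if `‖z‖ ≥ s / 2` (`CM.psi_ge`). If `C` meets
`ball 0 (3 s / 4)` use a Cauchy estimate. Otherwise take `p ∈ C` and `r ∈ (d s, √d s)` from
`length_area`, `A = sphere p r ∩ Ω`. Every value of `‖ψ‖` on `C` is a value on `A` (else `φ` maps a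
circle round `0` into `ball p r`, against the maximum principle for `φ - p`), and every value of
`ψ / ‖ψ‖` on `C` is a value on `A` (follow the radius). `ShortArc.interval` for `‖w‖`,
`re w / ‖w‖` and `im w / ‖w‖`. -/
theorem wolff (Lam : ℝ) {ε : ℝ} (hε : 0 < ε) : ∃ d : ℝ, 0 < d ∧ ∀ (Ω : Set ℂ) (ψ φ G : ℂ → ℂ)
    (s : ℝ), CM Ω ψ φ G → 0 < s → ball 0 s ⊆ Ω → Ω ⊆ ball 0 (Lam * s) → Wolff Ω ψ (d * s) ε := by
  obtain ⟨Λ, hΛ, hΛ'⟩ : ∃ Λ : ℝ, 1 ≤ Λ ∧ Lam ≤ Λ := ⟨max 1 Lam, le_max_left _ _, le_max_right _ _⟩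
  obtain ⟨l, hl, hl'⟩ : ∃ l : ℝ, 0 < l ∧ 9 * Λ * l = ε :=
    ⟨ε / (9 * Λ), by positivity, mul_div_cancel₀ _ (by positivity)⟩
  have hx := Real.exp_pos (-(7 / l) ^ 2)
  have hx1 : Real.exp (-(7 / l) ^ 2) < 1 := Real.exp_lt_one_iff.2 (neg_lt_zero.2 (by positivity))
  refine ⟨min (Real.exp (-(7 / l) ^ 2) / 4) (ε / 8), by positivity,
    fun Ω ψ φ G s h hs h1 h2 C hC hc hd a ha b hb => ?_⟩
  have d1 := mul_le_mul_of_nonneg_right (min_le_left (Real.exp (-(7 / l) ^ 2) / 4) (ε / 8)) hs.le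
  have d2 := mul_le_mul_of_nonneg_right (min_le_right (Real.exp (-(7 / l) ^ 2) / 4) (ε / 8)) hs.le
  have d3 : Real.exp (-(7 / l) ^ 2) / 4 * s < s / 4 := by nlinarith
  rcases lt_or_ge ‖b‖ (3 * s / 4) with h3 | h3
  · have hsub : ball b (s / 4) ⊆ Ω := (ball_subset_ball' (by rw [dist_zero_right]; linarith)).trans h1
    have e := Complex.dist_le_div_mul_dist_of_mapsTo_ball (h.dψ.mono hsub) (R₂ := 2)
      (fun z hz => by
        rw [mem_closedBall_iff_norm]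
        linarith [norm_sub_le (ψ z) (ψ b), h.norm_lt (hsub hz), h.norm_lt (hC hb)])
      (z := a) (mem_ball_iff_norm.2 (by linarith [hd a ha b hb]))
    rw [dist_eq_norm, dist_eq_norm] at e
    refine e.trans ?_
    rw [div_mul_eq_mul_div, div_le_iff₀ (by linarith)]
    linarith [hd a ha b hb]
  · obtain ⟨r, hr, hS⟩ := length_area h.isOpen h.dψ
      (fun x hx y hy e => by rw [← h.inv1 x hx, e, h.inv1 y hy]) one_pos h.mψ b
      (by positivity) d3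
    have e : s / 4 / (Real.exp (-(7 / l) ^ 2) / 4 * s) = Real.exp ((7 / l) ^ 2) := by
      rw [Real.exp_neg]
      field_simp
    rw [e, Real.log_exp, Real.sqrt_sq (by positivity), mul_one, div_div_cancel₀ (by norm_num)] at hS
    rw [← hl']
    exact Wolff_far h hs hΛ (h2.trans (ball_subset_ball (mul_le_mul_of_nonneg_right hΛ' hs.le)))
      hC hc h3 hr.2 (fun z hz => by linarith [hd z hz b hb, hr.1]) hS hl.le ha hb

end Pool.Agent.TAF.U
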