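import Pool.Agent.P.MP_cb4022_pr.U.Wolff
import Pool.Agent.P.MP_cb4022_pr.U.Cut

/-! The conformal coordinate of lifted sites (paper E7, finite statements). -/

open scoped Classical symmDiff
open Metric

noncomputable section

namespace Pool.Agent.TAF.U

theorem Zt_int {n : ℤ} (h : |2 * Real.pi * n| < 2 * Real.pi) : n = 0 := by
  rw [abs_mul, abs_of_pos Real.two_pi_pos] at h
  have h1 : |(n : ℝ)| < 1 := lt_of_mul_lt_mul_left (by rwa [mul_one]) Real.two_pi_pos.le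
  rw [← Int.cast_abs, ← Int.cast_one, Int.cast_lt] at h1
  exact Int.abs_lt_one_iff.1 h1

theorem Zt_pos_ne {x : Site} (h : x ≠ 0) : pos x ≠ 0 := fun h0 => by
  have h1 := one_le_dst h
  rw [dst_zero, h0, norm_zero] at h1
  linarith

theorem Zt_norm_exp (z : ℂ) : ‖Complex.exp (z * Complex.I)‖ = Real.exp (-z.im) := by
  rw [Complex.norm_exp]
  simp

theorem Zt_polar {R : ℝ} (hR : 0 < R) (t : ℝ) :
    Complex.exp (((t : ℂ) - (Real.log R : ℝ) * Complex.I) * Complex.I) =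
      R * Complex.exp (t * Complex.I) := by
  have h : ((t : ℂ) - (Real.log R : ℝ) * Complex.I) * Complex.I =
      (Real.log R : ℝ) + t * Complex.I := by
    linear_combination (-((Real.log R : ℝ) : ℂ)) * Complex.I_mul_I
  rw [h, Complex.exp_add, ← Complex.ofReal_exp, Real.exp_log hR]

theorem Zt_exp {p w g u : ℂ} (hp : p ≠ 0) (hw : w = p * Complex.exp g) (l : ℤ)
    (hu : u = ((Complex.arg p + 2 * Real.pi * l + g.im : ℝ) : ℂ) -
      (Real.log ‖w‖ : ℝ) * Complex.I) : Complex.exp (u * Complex.I) = w := by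
  have hw0 : w ≠ 0 := hw ▸ mul_ne_zero hp (Complex.exp_ne_zero _)
  have h1 : ‖w‖ = ‖p‖ * Real.exp g.re := by rw [hw, norm_mul, Complex.norm_exp]
  have h2 : ((Complex.arg p + 2 * Real.pi * l + g.im : ℝ) : ℂ) * Complex.I =
      Complex.arg p * Complex.I + l * (2 * Real.pi * Complex.I) + g.im * Complex.I := by
    push_cast
    ring
  rw [hu, Zt_polar (norm_pos_iff.2 hw0), h2, Complex.exp_add, Complex.exp_add,
    Complex.exp_int_mul_two_pi_mul_I, mul_one, h1]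
  have h3 := Complex.norm_mul_exp_arg_mul_I p
  have h4 : Complex.exp g = Complex.exp g.re * Complex.exp (g.im * Complex.I) := by
    rw [← Complex.exp_add, Complex.re_add_im]
  rw [hw, h4]
  push_cast
  linear_combination Complex.exp g.re * Complex.exp (g.im * Complex.I) * h3

theorem Zt_log {u w z : ℂ} (hu : Complex.exp (u * Complex.I) = w) {a : ℝ} (ha : a ≤ 1 / 2)
    (hz : ‖w - Complex.exp (z * Complex.I)‖ ≤ a * ‖Complex.exp (z * Complex.I)‖) :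
    ∃ n : ℤ, ‖u + 2 * Real.pi * n - z‖ ≤ 3 / 2 * a := by
  have hE := Complex.exp_ne_zero (z * Complex.I)
  set E := Complex.exp (z * Complex.I) with hEe
  have h1 : ‖(w - E) / E‖ ≤ a := by
    rw [norm_div, div_le_iff₀ (norm_pos_iff.2 hE)]
    exact hz
  have h2 := Complex.norm_log_one_add_half_le_self (h1.trans ha)
  have h3 : 1 + (w - E) / E ≠ 0 := fun h0 => by
    have h4 : (w - E) / E = -1 := by linear_combination h0
    rw [h4, norm_neg, norm_one] at h1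
    linarith
  have h4 : Complex.exp (z * Complex.I + Complex.log (1 + (w - E) / E)) =
      Complex.exp (u * Complex.I) := by
    rw [Complex.exp_add, Complex.exp_log h3, hu, ← hEe]
    field_simp
    ring
  obtain ⟨n, hn⟩ := Complex.exp_eq_exp_iff_exists_int.1 h4
  refine ⟨n, ?_⟩
  have h5 : (u + 2 * Real.pi * n - z) * Complex.I = Complex.log (1 + (w - E) / E) := by
    linear_combination -hn
  rw [← mul_one ‖u + 2 * Real.pi * n - z‖, ← Complex.norm_I, ← norm_mul, h5]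
  linarith

theorem Zt_seg {a b u v : ℂ} (hu : u ∈ segment ℝ a b) (hv : v ∈ segment ℝ a b) :
    ‖u - v‖ ≤ ‖b - a‖ := by
  rw [segment_eq_image'] at hu hv
  obtain ⟨s, hs, rfl⟩ := hu
  obtain ⟨t, ht, rfl⟩ := hv
  rw [add_sub_add_left_eq_sub, ← sub_smul, norm_smul, Real.norm_eq_abs]
  exact mul_le_of_le_one_left (norm_nonneg _)
    (abs_le.2 ⟨by linarith [hs.1, ht.2], by linarith [hs.2, ht.1]⟩)

theorem Zt_two {a u A U g k : ℂ} {ε : ℝ} (hA : A = a * Complex.exp g) (hU : U = u * Complex.exp k)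
    (ha : 10 ≤ ‖a‖) (hu : ‖u - a‖ ≤ 1) (h : ‖U - A‖ ≤ ε) (hε : 10 * ε ≤ ‖A‖) (h0 : 0 < ‖A‖) :
    |(k - g).im| ≠ 2 := by
  intro h2
  have h3 : Complex.exp k = Complex.exp (k - g) * Complex.exp g := by
    rw [← Complex.exp_add, sub_add_cancel]
  have h4 : (Complex.exp (k - g) - 1) * (u * A) = (U - A) * a - (u - a) * A := by
    rw [hU, h3, hA]
    ring
  have h5 : ‖a‖ - 1 ≤ ‖u‖ := by
    have := norm_sub_norm_le a u
    rw [norm_sub_rev] at this
    linarith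
  have h6 : (Complex.exp (k - g)).re < 0 := by
    rw [Complex.exp_re, ← Real.cos_abs, h2]
    exact mul_neg_of_pos_of_neg (Real.exp_pos _) Real.cos_two_neg
  have h7 : 1 ≤ ‖Complex.exp (k - g) - 1‖ := by
    have := neg_le_of_abs_le (Complex.abs_re_le_norm (Complex.exp (k - g) - 1))
    rw [Complex.sub_re, Complex.one_re] at this
    linarith
  have h8 : ‖u‖ * ‖A‖ ≤ ε * ‖a‖ + 1 * ‖A‖ := by
    have h9 := norm_sub_le ((U - A) * a) ((u - a) * A)
    rw [← h4, norm_mul, norm_mul, norm_mul, norm_mul] at h9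
    have h10 := mul_le_mul_of_nonneg_right h7 (mul_nonneg (norm_nonneg u) h0.le)
    have h11 := mul_le_mul_of_nonneg_right h (norm_nonneg a)
    have h12 := mul_le_mul_of_nonneg_right hu h0.le
    linarith
  nlinarith [mul_le_mul_of_nonneg_right h5 h0.le, mul_le_mul_of_nonneg_right hε (norm_nonneg a),
    mul_le_mul_of_nonneg_right ha h0.le]

/-- a lattice domain at scale `s` with its conformal map -/
structure CD (lam Lam s : ℝ) (D : Finset Site) (ψ φ G : ℂ → ℂ) : Prop where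
  inn : bal 0 (lam * s) ⊆ D
  out : D ⊆ bal 0 (Lam * s)
  connD : SConn D
  connO : SConn (D : Set Site)ᶜ
  cm : CM (OmD D) ψ φ G

theorem exists_CD {lam Lam s : ℝ} {D : Finset Site} (h0 : 0 ≤ lam * s)
    (h1 : bal 0 (lam * s) ⊆ D) (h2 : D ⊆ bal 0 (Lam * s)) (h3 : SConn D)
    (h4 : SConn (D : Set Site)ᶜ) : ∃ ψ φ G, CD lam Lam s D ψ φ G := by
  have hz : (0 : ℂ) ∈ OmD D := by
    rw [← pos_zero, pos_mem_OmD]
    exact h1 (mem_bal.2 (by rwa [dst_self]))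
  obtain ⟨ψ, φ, G, h⟩ := exists_CM (isOpen_OmD D) (preconn_OmD h3) hz (OmD_sub_ball h2)
    (hasLogs_OmD h4)
  exact ⟨ψ, φ, G, h1, h2, h3, h4, h⟩

/-- the coordinate `- I * log (ψ (pos x))` on the sheet `l` -/
def zt (ψ G : ℂ → ℂ) (x : Site) (l : ℤ) : ℂ :=
  ((Complex.arg (pos x) + 2 * Real.pi * l + (G (pos x)).im : ℝ) : ℂ) -
    (Real.log ‖ψ (pos x)‖ : ℝ) * Complex.I

theorem zt_add (ψ G : ℂ → ℂ) (x : Site) (l n : ℤ) :
    zt ψ G x (l + n) = zt ψ G x l + 2 * Real.pi * n := by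
  simp only [zt]
  push_cast
  ring

theorem zt_im (ψ G : ℂ → ℂ) (x : Site) (l : ℤ) : (zt ψ G x l).im = -Real.log ‖ψ (pos x)‖ := by
  simp only [zt, Complex.sub_im, Complex.ofReal_im, Complex.mul_im, Complex.ofReal_re,
    Complex.I_im, Complex.I_re]
  ring

theorem Zt_re (ψ G : ℂ → ℂ) (x : Site) (l : ℤ) :
    (zt ψ G x l).re = Complex.arg (pos x) + 2 * Real.pi * l + (G (pos x)).im := by
  simp only [zt, Complex.sub_re, Complex.ofReal_im, Complex.mul_re, Complex.ofReal_re,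
    Complex.I_im, Complex.I_re]
  ring

theorem zt_inj {ψ G : ℂ → ℂ} {x : Site} {l l' : ℤ} (h : ‖zt ψ G x l - zt ψ G x l'‖ < 6) :
    l = l' := by
  have h1 := zt_add ψ G x l' (l - l')
  rw [add_sub_cancel] at h1
  rw [h1, add_sub_cancel_left] at h
  refine sub_eq_zero.1 (Zt_int (n := l - l') ?_)
  have h2 : (2 * Real.pi * ((l - l' : ℤ) : ℂ) : ℂ) = ((2 * Real.pi * (l - l' : ℤ) : ℝ) : ℂ) := by
    push_cast
    ring
  rw [h2, Complex.norm_real, Real.norm_eq_abs] at h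
  linarith [Real.pi_gt_three]

section
variable {D : Finset Site} {ψ φ G : ℂ → ℂ} {d ε : ℝ}

theorem exp_zt (h : CM (OmD D) ψ φ G) {x : Site} (hx : x ∈ D) (h0 : x ≠ 0) (l : ℤ) :
    Complex.exp (zt ψ G x l * Complex.I) = ψ (pos x) := by
  refine Zt_exp (Zt_pos_ne h0) (h.expG _ (pos_mem_OmD.2 hx)) l ?_
  simp only [zt]

/-- choose the sheet with the principal logarithm of `ψ (pos x) / exp (z I)` -/
theorem exists_sheet (h : CM (OmD D) ψ φ G) {x : Site} (hx : x ∈ D) (h0 : x ≠ 0) {z : ℂ} {a : ℝ}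
    (ha : a ≤ 1 / 2) (hz : ‖ψ (pos x) - Complex.exp (z * Complex.I)‖ ≤
      a * ‖Complex.exp (z * Complex.I)‖) : ∃ l, ‖zt ψ G x l - z‖ ≤ 2 * a := by
  obtain ⟨n, hn⟩ := Zt_log (exp_zt h hx h0 0) ha hz
  refine ⟨0 + n, ?_⟩
  rw [zt_add]
  have h1 := (norm_nonneg _).trans hn
  linarith

/-- the discs round the sites of the path form a small connected set -/
theorem wolff_jn (hW : Wolff (OmD D) ψ d ε) {X : Set Site} (hX : X ⊆ D) {c a b : Site} {r : ℝ}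
    (hr : ∀ x ∈ X, dst x c ≤ r) (hd : 2 * r + 2 ≤ d) (ha : a ∈ X) (hab : Jn X a b) {z w : ℂ}
    (hz : ‖pos a - z‖ < 0.7) (hw : ‖pos b - w‖ < 0.7) : ‖ψ z - ψ w‖ ≤ ε := by
  have hX' : ((D.filter fun x => x ∈ X : Finset Site) : Set Site) = X := by
    ext x
    simp only [Finset.coe_filter, Set.mem_ofPred_eq]
    exact ⟨fun h => h.2, fun h => ⟨hX h, h⟩⟩
  have hm : ∀ x, x ∈ cmp (D.filter fun x => x ∈ X) a ↔ x ∈ X ∧ Jn X a x := fun x => by
    rw [mem_cmp, hX', ← Finset.mem_coe, hX']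
  refine hW (OmD (cmp (D.filter fun x => x ∈ X) a)) (fun u hu => ?_)
    (preconn_OmD (sconn_cmp _ _)) (fun u hu v hv => ?_) z
    (mem_OmD.2 ⟨a, (hm a).2 ⟨ha, Jn.refl _ _⟩, hz⟩) w
    (mem_OmD.2 ⟨b, (hm b).2 ⟨hab.mem ha, hab⟩, hw⟩)
  · obtain ⟨x, hx, hx'⟩ := mem_OmD.1 hu
    exact mem_OmD.2 ⟨x, hX ((hm x).1 hx).1, hx'⟩
  · obtain ⟨x, hx, hx'⟩ := mem_OmD.1 hu
    obtain ⟨y, hy, hy'⟩ := mem_OmD.1 hv
    have h1 := hr x ((hm x).1 hx).1
    have h2 := hr y ((hm y).1 hy).1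
    have h3 := dst_tri x c y
    rw [dst_comm c y] at h3
    have h4 : u - v = (pos x - pos y) - (pos x - u) + (pos y - v) := by ring
    have h5 : ‖u - v‖ ≤ dst x y + ‖pos x - u‖ + ‖pos y - v‖ := by
      rw [h4]
      exact (norm_add_le _ _).trans (add_le_add_left (norm_sub_le _ _) _)
    linarith

/-- `arg_step`; along the edge `exp (G z - G a) = (ψ z / ψ a) * (a / z)` stays near `1`, so
`G z - G a` is the principal logarithm -/
theorem zt_step (h : CM (OmD D) ψ φ G) (hW : Wolff (OmD D) ψ 1 ε) {e : Edge} (he : Inside e D)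
    {R c : ℝ} (hR : 10 ≤ R) (h1 : R ≤ ‖pos (rgt e)‖) (hc : 0 < c) (h2 : c ≤ ‖ψ (pos (rgt e))‖)
    (h3 : 10 * ε ≤ c) (l : ℤ) :
    ‖zt ψ G (lft e) (l + kap e) - zt ψ G (rgt e) l‖ ≤ 5 * ε / c + 10 / R := by
  have hd : ‖pos (lft e) - pos (rgt e)‖ = 1 := dst_adj (adj_lft_rgt e)
  have hseg : segment ℝ (pos (rgt e)) (pos (lft e)) ⊆ OmD D :=
    seg_sub_OmD he.2 he.1 (Or.inr (adj_lft_rgt e).symm)
  have hpc : IsPreconnected (segment ℝ (pos (rgt e)) (pos (lft e))) :=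
    (convex_segment _ _).isPreconnected
  have hdiam : ∀ u ∈ segment ℝ (pos (rgt e)) (pos (lft e)),
      ∀ v ∈ segment ℝ (pos (rgt e)) (pos (lft e)), ‖u - v‖ ≤ 1 :=
    fun u hu v hv => hd ▸ Zt_seg hu hv
  have hl := left_mem_segment ℝ (pos (rgt e)) (pos (lft e))
  have hr := right_mem_segment ℝ (pos (rgt e)) (pos (lft e))
  have hψ := fun u hu => hW _ hseg hpc hdiam u hu _ hl
  have hε : 0 ≤ ε := (norm_nonneg _).trans (hψ _ hl)
  have hb : R - 1 ≤ ‖pos (lft e)‖ := by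
    have := norm_sub_norm_le (pos (rgt e)) (pos (lft e))
    rw [norm_sub_rev, hd] at this
    linarith
  have hr0 : rgt e ≠ 0 := fun h0 => by
    rw [h0, pos_zero, norm_zero] at h1
    linarith
  have hl0 : lft e ≠ 0 := fun h0 => by
    rw [h0, pos_zero, norm_zero] at hb
    linarith
  have hG : |(G (pos (lft e)) - G (pos (rgt e))).im| < 2 := by
    by_contra hn
    have hc' : ContinuousOn (fun u => |(G u - G (pos (rgt e))).im|)
        (segment ℝ (pos (rgt e)) (pos (lft e))) :=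
      (Complex.continuous_im.comp_continuousOn
        ((h.dG.continuousOn.mono hseg).sub continuousOn_const)).abs
    obtain ⟨u, hu, hu'⟩ := hpc.intermediate_value hl hr hc'
      (show (2 : ℝ) ∈ Set.Icc _ _ from ⟨by simp, not_lt.1 hn⟩)
    exact Zt_two (h.expG _ (hseg hl)) (h.expG _ (hseg hu)) (hR.trans h1) (hdiam u hu _ hl)
      (hψ u hu) (h3.trans h2) (hc.trans_le h2) hu'
  have hεc : ε / c ≤ 1 / 10 := by
    rw [div_le_iff₀ hc]
    linarith
  have hεc0 : 0 ≤ ε / c := div_nonneg hε hc.le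
  obtain ⟨n, hn⟩ := Zt_log (exp_zt h he.1 hl0 (l + kap e)) (z := zt ψ G (rgt e) l) (a := ε / c)
    (by linarith) (by
      rw [exp_zt h he.2 hr0 l]
      refine (hψ _ hr).trans ?_
      calc ε = ε / c * c := (div_mul_cancel₀ _ hc.ne').symm
        _ ≤ _ := mul_le_mul_of_nonneg_left h2 hεc0)
  have harg := arg_step (e := e) (by linarith) (by linarith)
  have harg' : 2 / ‖pos (rgt e)‖ ≤ 1 / 5 := by
    rw [div_le_iff₀ (by linarith)]
    linarith
  have hre := (Complex.abs_re_le_norm _).trans hn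
  have hre' : (zt ψ G (lft e) (l + kap e) + 2 * Real.pi * n - zt ψ G (rgt e) l).re =
      (Complex.arg (pos (lft e)) + 2 * Real.pi * kap e - Complex.arg (pos (rgt e))) +
        (G (pos (lft e)) - G (pos (rgt e))).im + 2 * Real.pi * n := by
    rw [← zt_add, Complex.sub_re, Zt_re, Zt_re, Complex.sub_im]
    push_cast
    ring
  have hn0 : n = 0 := by
    refine Zt_int ?_
    rw [hre', abs_le] at hre
    rw [abs_lt] at hG
    rw [abs_le] at harg
    rw [abs_lt]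
    constructor <;> linarith [Real.pi_gt_three, hre.1, hre.2, hG.1, hG.2, harg.1, harg.2]
  rw [hn0, Int.cast_zero, mul_zero, add_zero] at hn
  have h4 : 0 ≤ 10 / R := div_nonneg (by norm_num) (by linarith)
  rw [mul_div_assoc]
  linarith

theorem exists_lift (h : CM (OmD D) ψ φ G) (hW : Wolff (OmD D) ψ 1 ε) {Z : Set Site} (hZ : Z ⊆ D)
    {R c θ a : ℝ} (hR : 10 ≤ R) (hc : 0 < c) (h3 : 10 * ε ≤ c) (ha : 5 * ε / c + 10 / R ≤ a)
    (h1 : ∀ x ∈ Z, R ≤ ‖pos x‖ ∧ c ≤ ‖ψ (pos x)‖ ∧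
      ∃ l, (zt ψ G x l).re ∈ Set.Icc (θ + a) (θ + 2 * Real.pi - a)) :
    ∃ μ : Site → ℤ, (∀ e, Inside e Z → cob μ e = kap e) ∧ ∀ x ∈ Z,
      (zt ψ G x (μ x)).re ∈ Set.Icc (θ + a) (θ + 2 * Real.pi - a) ∧
      ∀ l, (zt ψ G x l).re ∈ Set.Icc θ (θ + 2 * Real.pi) → l = μ x := by
  have h1' : ∀ x, ∃ l, x ∈ Z →
      (zt ψ G x l).re ∈ Set.Icc (θ + a) (θ + 2 * Real.pi - a) := fun x => by
    by_cases hx : x ∈ Z
    · obtain ⟨l, hl⟩ := (h1 x hx).2.2
      exact ⟨l, fun _ => hl⟩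
    · exact ⟨0, fun h => absurd h hx⟩
  choose μ hμ using h1'
  have huniq : ∀ x ∈ Z, ∀ l, (zt ψ G x l).re ∈ Set.Icc θ (θ + 2 * Real.pi) → l = μ x := by
    intro x hx l hl
    have hε : 0 ≤ ε := by
      have := hW {pos x} (Set.singleton_subset_iff.2 (pos_mem_OmD.2 (hZ hx)))
        isPreconnected_singleton (by simp) (pos x) rfl (pos x) rfl
      exact (norm_nonneg _).trans this
    have ha0 : 0 < a := by
      have h4 : 0 < 10 / R := div_pos (by norm_num) (by linarith)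
      have h5 : 0 ≤ 5 * ε / c := by positivity
      linarith
    have h2 := hμ x hx
    rw [Zt_re] at hl h2
    refine sub_eq_zero.1 (Zt_int (n := l - μ x) ?_)
    push_cast
    rw [abs_lt]
    constructor <;> linarith [hl.1, hl.2, h2.1, h2.2]
  refine ⟨μ, fun e he => ?_, fun x hx => ⟨hμ x hx, huniq x hx⟩⟩
  have h2 := (zt_step h hW ⟨hZ he.1, hZ he.2⟩ hR (h1 _ he.2).1 hc (h1 _ he.2).2.1 h3
    (μ (rgt e))).trans ha
  have h4 := abs_le.1 ((Complex.abs_re_le_norm _).trans h2)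
  rw [Complex.sub_re] at h4
  have h5 := hμ _ he.2
  have h6 := huniq _ he.1 (μ (rgt e) + kap e)
    ⟨by linarith [h4.1, h5.1], by linarith [h4.2, h5.2]⟩
  unfold cob
  omega

end

theorem exists_polar (t : ℝ) {R : ℝ} (hR : 2 ≤ R) : ∃ (y : Site) (l : ℤ),
    ‖pos y - R * Complex.exp (t * Complex.I)‖ ≤ 2 / 3 ∧
      |Complex.arg (pos y) + 2 * Real.pi * l - t| ≤ 2 / R := by
  obtain ⟨y, hy⟩ := exists_near (R * Complex.exp (t * Complex.I))
  have hR0 : 0 < R := by linarith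
  have hn : ‖(R : ℂ) * Complex.exp (t * Complex.I)‖ = R := by
    rw [norm_mul, Complex.norm_exp_ofReal_mul_I, mul_one, Complex.norm_real, Real.norm_eq_abs,
      abs_of_pos hR0]
  have hy0 : pos y ≠ 0 := fun h0 => by
    rw [h0, zero_sub, norm_neg, hn] at hy
    linarith
  have h1 : Complex.exp (((t : ℂ) - (Real.log R : ℝ) * Complex.I) * Complex.I) =
      R * Complex.exp (t * Complex.I) := Zt_polar hR0 t
  have h2 : Complex.exp (((Complex.arg (pos y) : ℂ) - (Real.log ‖pos y‖ : ℝ) * Complex.I) *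
      Complex.I) = pos y := by
    rw [Zt_polar (norm_pos_iff.2 hy0), Complex.norm_mul_exp_arg_mul_I]
  obtain ⟨n, hn'⟩ := Zt_log h2 (z := (t : ℂ) - (Real.log R : ℝ) * Complex.I) (a := 2 / 3 / R)
    (by rw [div_le_iff₀ hR0]; linarith) (by rw [h1, hn, div_mul_cancel₀ _ hR0.ne']; exact hy)
  refine ⟨y, n, hy, ?_⟩
  have h3 := (Complex.abs_re_le_norm _).trans hn'
  have h4 : ((Complex.arg (pos y) : ℂ) - (Real.log ‖pos y‖ : ℝ) * Complex.I + 2 * Real.pi * n -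
      ((t : ℂ) - (Real.log R : ℝ) * Complex.I)).re =
      Complex.arg (pos y) + 2 * Real.pi * n - t := by
    simp
  rw [h4] at h3
  refine h3.trans ?_
  have h5 : 3 / 2 * (2 / 3 / R) = 1 / R := by ring
  rw [h5]
  exact div_le_div_of_nonneg_right (by norm_num) hR0.le

theorem CD.Zt_ball {lam Lam s : ℝ} {D : Finset Site} {ψ φ G : ℂ → ℂ} (h : CD lam Lam s D ψ φ G)
    (hl : 4 ≤ lam) (hs : 1 ≤ s) : ball 0 (3 * s) ⊆ OmD D :=
  (ball_subset_ball (by nlinarith)).trans (ball_sub_OmD h.inn)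

theorem CD.Zt_sub {lam Lam s : ℝ} {D : Finset Site} {ψ φ G : ℂ → ℂ} (h : CD lam Lam s D ψ φ G)
    (hs : 1 ≤ s) : OmD D ⊆ ball 0 ((|Lam| + 1) * s) :=
  (OmD_sub_ball h.out).trans (ball_subset_ball (by nlinarith [le_abs_self Lam]))

theorem CD.psi_le {lam Lam s : ℝ} {D : Finset Site} {ψ φ G : ℂ → ℂ} (h : CD lam Lam s D ψ φ G)
    (hl : 4 ≤ lam) (hs : 1 ≤ s) {z : ℂ} (hz : ‖z‖ < 3 * s) : ‖ψ z‖ ≤ ‖z‖ / (3 * s) := by
  exact h.cm.psi_le (h.Zt_ball hl hs) hz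

theorem CD.psi_ge {lam Lam s : ℝ} {D : Finset Site} {ψ φ G : ℂ → ℂ} (h : CD lam Lam s D ψ φ G)
    (hs : 1 ≤ s) {z : ℂ} (hz : z ∈ OmD D) : ‖z‖ ≤ (|Lam| + 1) * s * ‖ψ z‖ := by
  exact h.cm.psi_ge (h.Zt_sub hs) hz

/-- (b): `CM.dist_G` -/
theorem CD.polar {lam Lam s : ℝ} {D : Finset Site} {ψ φ G : ℂ → ℂ} (h : CD lam Lam s D ψ φ G)
    (hl : 10 ≤ lam) (hs : 1 ≤ s) {x : Site} (h0 : x ≠ 0) (hx : ‖pos x‖ ≤ 4 * s) (l : ℤ) :
    ‖zt ψ G x l - (((Complex.arg (pos x) + 2 * Real.pi * l : ℝ) : ℂ) -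
      (Real.log ‖pos x‖ + (G 0).re : ℝ) * Complex.I)‖ ≤ 100 / lam := by
  have h1 : 9 / 10 * (lam * s) ≤ lam * s - 1 := by nlinarith
  have h2 : 9 * s ≤ lam * s - 1 := by nlinarith
  have hb := ball_sub_OmD h.inn
  have hz : pos x ∈ OmD D := hb (mem_ball_zero_iff.2 (by linarith))
  have h3 := h.cm.dist_G hb (h.Zt_sub hs) (by linarith) (z := pos x) (by linarith)
  have h4 : Real.log ‖ψ (pos x)‖ = Real.log ‖pos x‖ + (G (pos x)).re := by
    rw [h.cm.expG _ hz, norm_mul, Complex.norm_exp,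
      Real.log_mul (norm_ne_zero_iff.2 (Zt_pos_ne h0)) (Real.exp_ne_zero _), Real.log_exp]
  have h5 : zt ψ G x l - (((Complex.arg (pos x) + 2 * Real.pi * l : ℝ) : ℂ) -
      (Real.log ‖pos x‖ + (G 0).re : ℝ) * Complex.I) = -Complex.I * (G (pos x) - G 0) := by
    rw [zt, h4]
    apply Complex.ext <;> simp [h.cm.imG]
    ring
  rw [h5, norm_mul, norm_neg, Complex.norm_I, one_mul]
  refine h3.trans ?_
  rw [div_le_div_iff₀ (by linarith) (by linarith)]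
  nlinarith [mul_le_mul_of_nonneg_left hx (by linarith : 0 ≤ lam)]

theorem cd_wolff (Lam : ℝ) {ε : ℝ} (hε : 0 < ε) : ∃ d : ℝ, 0 < d ∧ ∀ (lam s : ℝ) (D : Finset Site)
    (ψ φ G : ℂ → ℂ), 4 ≤ lam → 1 ≤ s → CD lam Lam s D ψ φ G → Wolff (OmD D) ψ (d * s) ε := by
  obtain ⟨d, hd, h⟩ := wolff (|Lam| + 1) hε
  exact ⟨d, hd, fun lam s D ψ φ G hl hs hc => h _ ψ φ G s hc.cm (by linarith)
    ((ball_subset_ball (by linarith)).trans (hc.Zt_ball hl hs)) (hc.Zt_sub hs)⟩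

theorem Zt_wolff (Lam : ℝ) {ε : ℝ} (hε : 0 < ε) : ∃ s₀ : ℝ, ∀ (lam s : ℝ) (D : Finset Site)
    (ψ φ G : ℂ → ℂ), 4 ≤ lam → s₀ ≤ s → CD lam Lam s D ψ φ G → 1 ≤ s ∧ Wolff (OmD D) ψ 4 ε := by
  obtain ⟨d, hd, h⟩ := cd_wolff Lam hε
  refine ⟨max 1 (4 / d), fun lam s D ψ φ G hl hs hc => ?_⟩
  have h1 : 1 ≤ s := (le_max_left _ _).trans hs
  have h2 := (div_le_iff₀ hd).1 ((le_max_right _ _).trans hs)
  exact ⟨h1, (h lam s D ψ φ G hl h1 hc).mono (by linarith) le_rfl⟩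

/-- a site next to `Dᶜ` is mapped near the unit circle (`CM.exit`) -/
theorem cd_wall (Lam : ℝ) {ε : ℝ} (hε : 0 < ε) : ∃ s₀ : ℝ, ∀ (lam s : ℝ) (D : Finset Site)
    (ψ φ G : ℂ → ℂ), 4 ≤ lam → s₀ ≤ s → CD lam Lam s D ψ φ G → ∀ x ∈ D, ∀ y ∉ D, tri.Adj x y →
      1 - ε ≤ ‖ψ (pos x)‖ := by
  obtain ⟨s₀, h⟩ := Zt_wolff Lam hε
  refine ⟨s₀, fun lam s D ψ φ G hl hs hc x hx y hy hxy => ?_⟩
  refine hc.cm.exit (h lam s D ψ φ G hl hs hc).2 (pos_mem_OmD.2 hx)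
    (fun h1 => hy (pos_mem_OmD.1 h1)) ?_
  have h2 : ‖pos x - pos y‖ = 1 := dst_adj hxy
  linarith

/-- Wall triangles accumulate everywhere. Outside the compact union of the closed discs of radius
`0.69` a point of the domain is in the disc of a site next to `Dᶜ`; `CM.compact_lt`,
`exists_outTip`, `wolff_jn`. -/
theorem cd_exists_wall (Lam : ℝ) {ε : ℝ} (hε : 0 < ε) : ∃ s₀ : ℝ, ∀ (lam s : ℝ) (D : Finset Site)
    (ψ φ G : ℂ → ℂ), 4 ≤ lam → s₀ ≤ s → CD lam Lam s D ψ φ G → ∀ w : ℂ, ‖w‖ = 1 →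
      ∃ t i, vtx t i ∈ D ∧ vtx t (i + 1) ∉ D ∧ vtx t (i + 2) ∉ D ∧
        ‖ψ (pos (vtx t i)) - w‖ ≤ ε := by
  obtain ⟨s₀, h⟩ := Zt_wolff Lam (half_pos hε)
  refine ⟨s₀, fun lam s D ψ φ G hl hs hc w hw => ?_⟩
  have hW := (h lam s D ψ φ G hl hs hc).2
  obtain ⟨r, hr, hK⟩ := hc.cm.compact_lt (K := ⋃ x ∈ D, closedBall (pos x) 0.69)
    (D.isCompact_biUnion fun x _ => isCompact_closedBall _ _)
    (Set.iUnion₂_mono fun x _ => closedBall_subset_ball (by norm_num))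
  obtain ⟨ρ, hρ, hρ1⟩ := exists_between (max_lt (max_lt hr one_pos) (sub_lt_self 1 (half_pos hε)))
  have hρr : r < ρ := ((le_max_left _ _).trans (le_max_left _ _)).trans_lt hρ
  have hρ0 : 0 < ρ := ((le_max_right _ _).trans (le_max_left _ _)).trans_lt hρ
  have hρε : 1 - ε / 2 < ρ := (le_max_right _ _).trans_lt hρ
  have hn : ‖(ρ : ℂ) * w‖ = ρ := by
    rw [norm_mul, hw, mul_one, Complex.norm_real, Real.norm_eq_abs, abs_of_pos hρ0]
  have hb : (ρ : ℂ) * w ∈ ball (0 : ℂ) 1 := mem_ball_zero_iff.2 (by rwa [hn])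
  have hψ := hc.cm.inv2 _ hb
  obtain ⟨x, hx, hx'⟩ := mem_OmD.1 (hc.cm.mφ hb)
  obtain ⟨y, hy⟩ := exists_near (φ (ρ * w))
  have hyD : y ∉ D := fun hyD => by
    have h1 := hK (φ (ρ * w)) (Set.mem_iUnion₂.2 ⟨y, hyD, by
      rw [mem_closedBall, dist_comm, dist_eq_norm]
      linarith⟩)
    rw [hψ, hn] at h1
    linarith
  have hxy : tri.Adj x y := by
    refine (adj_of_dst ?_).resolve_left fun e => hyD (e ▸ hx)
    have h1 : dst x y ≤ ‖pos x - φ (ρ * w)‖ + ‖pos y - φ (ρ * w)‖ := by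
      rw [norm_sub_rev (pos y)]
      exact norm_sub_le_norm_sub_add_norm_sub _ _ _
    linarith
  obtain ⟨t, p, h1, h2, h3, h4⟩ := exists_outTip hc.connO hx hyD hxy
  refine ⟨t, p, h1, h2, h3, ?_⟩
  have h5 := wolff_jn hW (X := (D ∩ bal y 1 : Finset Site)) (c := y) (r := 1)
    (fun u hu => (Finset.mem_inter.1 hu).1) (fun u hu => mem_bal.1 (Finset.mem_inter.1 hu).2)
    (by norm_num) (Finset.mem_inter.2 ⟨hx, mem_bal.2 (dst_adj hxy).le⟩) h4 hx'
    (w := pos (vtx t p)) (by rw [sub_self, norm_zero]; norm_num)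
  rw [hψ, norm_sub_rev] at h5
  have h6 : ‖(ρ : ℂ) * w - w‖ = 1 - ρ := by
    rw [← sub_one_mul, norm_mul, hw, mul_one, ← Complex.ofReal_one, ← Complex.ofReal_sub,
      Complex.norm_real, Real.norm_eq_abs, abs_of_neg (by linarith)]
    ring
  have h7 := norm_sub_le_norm_sub_add_norm_sub (ψ (pos (vtx t p))) (ρ * w) w
  linarith

theorem cd_exists_site (Lam : ℝ) {η : ℝ} (hη : 0 < η) (A : ℝ) : ∃ s₀ : ℝ, ∀ (lam s : ℝ)
    (D : Finset Site) (ψ φ G : ℂ → ℂ), 4 ≤ lam → s₀ ≤ s → CD lam Lam s D ψ φ G → ∀ z : ℂ,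
      0 < z.im → z.im ≤ A → ∃ x ∈ D, x ≠ 0 ∧ ∃ l, ‖zt ψ G x l - z‖ ≤ η := by
  have ha : 0 < min (η / 2) (1 / 2) := lt_min (half_pos hη) (by norm_num)
  obtain ⟨s₀, h⟩ := Zt_wolff Lam (mul_pos ha (Real.exp_pos (-A)))
  refine ⟨s₀, fun lam s D ψ φ G hl hs hc z hz hA => ?_⟩
  have hW := (h lam s D ψ φ G hl hs hc).2
  have hn := Zt_norm_exp z
  have hb : Complex.exp (z * Complex.I) ∈ ball (0 : ℂ) 1 := by
    rw [mem_ball_zero_iff, hn]
    exact Real.exp_lt_one_iff.2 (by linarith)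
  obtain ⟨x, hx, hx'⟩ := mem_OmD.1 (hc.cm.mφ hb)
  have h1 := wolff_jn hW (X := {x}) (c := x) (r := 0) (a := x) (b := x)
    (Set.singleton_subset_iff.2 hx) (fun u hu => by rw [hu, dst_self]) (by norm_num) rfl
    (Jn.refl _ _) (z := pos x) (by rw [sub_self, norm_zero]; norm_num) hx'
  rw [hc.cm.inv2 _ hb] at h1
  have h2 : ‖ψ (pos x) - Complex.exp (z * Complex.I)‖ ≤
      min (η / 2) (1 / 2) * ‖Complex.exp (z * Complex.I)‖ := by
    refine h1.trans (mul_le_mul_of_nonneg_left ?_ ha.le)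
    rw [hn]
    exact Real.exp_le_exp.2 (by linarith)
  have h0 : x ≠ 0 := fun h0 => by
    rw [h0, pos_zero, hc.cm.psi_zero, zero_sub, norm_neg, hn] at h2
    nlinarith [Real.exp_pos (-z.im), min_le_right (η / 2) (1 / 2)]
  obtain ⟨l, hl⟩ := exists_sheet hc.cm hx h0 (min_le_right _ _) h2
  exact ⟨x, hx, h0, l, by linarith [min_le_left (η / 2) (1 / 2)]⟩

/-- `CM.phi_lip` -/
theorem cd_close (Lam : ℝ) {a δ : ℝ} (ha : 0 < a) (hδ : 0 < δ) : ∃ b : ℝ, 0 < b ∧ ∀ (lam s : ℝ)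
    (D : Finset Site) (ψ φ G : ℂ → ℂ), 1 ≤ s → CD lam Lam s D ψ φ G → ∀ x ∈ D, ∀ y ∈ D,
      ∀ l l' : ℤ, x ≠ 0 → y ≠ 0 → a ≤ (zt ψ G x l).im → ‖zt ψ G x l - zt ψ G y l'‖ ≤ b →
        dst x y ≤ δ * s := by
  have ha' : 0 < 1 - Real.exp (-(a / 2)) := sub_pos.2 (Real.exp_lt_one_iff.2 (by linarith))
  set a' := 1 - Real.exp (-(a / 2)) with ha'e
  have hL : 0 < |Lam| + 1 := by positivity
  refine ⟨min (min (a / 2) 1) (δ * a' / (4 * (|Lam| + 1))),
    lt_min (lt_min (half_pos ha) one_pos) (by positivity),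
    fun lam s D ψ φ G hs hc x hx y hy l l' hx0 hy0 h1 h2 => ?_⟩
  have hb1 := h2.trans ((min_le_left _ _).trans (min_le_left _ _))
  have hb2 := h2.trans ((min_le_left _ _).trans (min_le_right _ _))
  have hb3 := h2.trans (min_le_right _ _)
  have ex := exp_zt hc.cm hx hx0 l
  have ey := exp_zt hc.cm hy hy0 l'
  have h3 := abs_le.1 ((Complex.abs_im_le_norm _).trans hb1)
  rw [Complex.sub_im] at h3
  have nx : ‖ψ (pos x)‖ ≤ 1 - a' := by
    rw [← ex, Zt_norm_exp, ha'e, sub_sub_cancel]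
    exact Real.exp_le_exp.2 (by linarith)
  have ny : ‖ψ (pos y)‖ ≤ 1 - a' := by
    rw [← ey, Zt_norm_exp, ha'e, sub_sub_cancel]
    exact Real.exp_le_exp.2 (by linarith [h3.2])
  have h4 := hc.cm.phi_lip (hc.Zt_sub hs) ha' nx ny
  rw [hc.cm.inv1 _ (pos_mem_OmD.2 hx), hc.cm.inv1 _ (pos_mem_OmD.2 hy)] at h4
  have h5 : ‖ψ (pos x) - ψ (pos y)‖ ≤ 2 * ‖zt ψ G x l - zt ψ G y l'‖ := by
    have e : ψ (pos x) - ψ (pos y) =
        ψ (pos y) * (Complex.exp ((zt ψ G x l - zt ψ G y l') * Complex.I) - 1) := by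
      rw [← ex, ← ey, mul_sub, mul_one, ← Complex.exp_add]
      congr 2
      ring
    have e' : ‖(zt ψ G x l - zt ψ G y l') * Complex.I‖ = ‖zt ψ G x l - zt ψ G y l'‖ := by
      rw [norm_mul, Complex.norm_I, mul_one]
    have h6 := Complex.norm_exp_sub_one_le (e'.le.trans hb2)
    rw [e, norm_mul, ← e']
    exact (mul_le_of_le_one_left (norm_nonneg _) (by linarith)).trans h6
  refine h4.trans ?_
  calc 2 * ((|Lam| + 1) * s) / a' * ‖ψ (pos x) - ψ (pos y)‖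
      ≤ 2 * ((|Lam| + 1) * s) / a' * (2 * (δ * a' / (4 * (|Lam| + 1)))) :=
        mul_le_mul_of_nonneg_left (by linarith) (by positivity)
    _ = δ * s := by
        field_simp
        ring

/-- a ball in the bulk with a lift: `CM.exit`, `wolff_jn`, `exists_sheet`, `exists_lift` -/
theorem cd_bulk (Lam : ℝ) {a η : ℝ} (ha : 0 < a) (hη : 0 < η) : ∃ δ s₀ : ℝ, 0 < δ ∧
    ∀ (lam s : ℝ) (D : Finset Site) (ψ φ G : ℂ → ℂ), 4 ≤ lam → s₀ ≤ s → CD lam Lam s D ψ φ G →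
      ∀ c ∈ D, ∀ l : ℤ, 2 * s ≤ ‖pos c‖ → a ≤ (zt ψ G c l).im →
        bal c (δ * s) ⊆ D \ bal 0 (3 / 2 * s) ∧ ∃ μ : Site → ℤ, μ c = l ∧
          (∀ e, Inside e (bal c (δ * s)) → cob μ e = kap e) ∧
          ∀ x ∈ bal c (δ * s), ‖zt ψ G x (μ x) - zt ψ G c l‖ ≤ η := by
  have ha' : 0 < 1 - Real.exp (-a) := sub_pos.2 (Real.exp_lt_one_iff.2 (by linarith))
  set a' := 1 - Real.exp (-a) with ha'e
  have hL : 1 ≤ |Lam| + 1 := by linarith [abs_nonneg Lam]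
  set L := |Lam| + 1 with hLe
  have hL0 : 0 < L := by linarith
  obtain ⟨α, hα0, hα1, hα2, hα3⟩ : ∃ α : ℝ, 0 < α ∧ α ≤ 1 / 10 ∧ α ≤ η / 2 ∧ α ≤ a' / 2 :=
    ⟨min (1 / 10) (min (η / 2) (a' / 2)), lt_min (by norm_num) (lt_min (by linarith) (by linarith)),
      min_le_left _ _, (min_le_right _ _).trans (min_le_left _ _),
      (min_le_right _ _).trans (min_le_right _ _)⟩
  have hκ : 0 < 1 / L := by positivity
  have hκ1 : 1 / L ≤ 1 := (div_le_one hL0).2 hL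
  obtain ⟨d, hd, hW⟩ := cd_wolff Lam (mul_pos hα0 hκ)
  refine ⟨min (d / 4) (1 / 4), max 14 (4 / d), lt_min (by linarith) (by norm_num),
    fun lam s D ψ φ G hl hs hc c hcD l h1 h2 => ?_⟩
  have hs1 : 14 ≤ s := (le_max_left _ _).trans hs
  have hs2 : 4 ≤ d * s := by
    have := (div_le_iff₀ hd).1 ((le_max_right _ _).trans hs)
    linarith
  have hW := hW lam s D ψ φ G hl (by linarith) hc
  have hr0 : 0 ≤ min (d / 4) (1 / 4) * s :=
    mul_nonneg (le_min (by linarith) (by norm_num)) (by linarith)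
  have hr1 : min (d / 4) (1 / 4) * s ≤ d / 4 * s :=
    mul_le_mul_of_nonneg_right (min_le_left _ _) (by linarith)
  have hr2 : min (d / 4) (1 / 4) * s ≤ 1 / 4 * s :=
    mul_le_mul_of_nonneg_right (min_le_right _ _) (by linarith)
  set r := min (d / 4) (1 / 4) * s
  have hc0 : c ≠ 0 := fun h0 => by
    rw [h0, pos_zero, norm_zero] at h1
    linarith
  have ec := exp_zt hc.cm hcD hc0 l
  have hsub : ∀ x ∈ bal c r, x ∈ D := fun x hx => by
    by_contra hxD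
    have h3 := hc.cm.exit hW (pos_mem_OmD.2 hcD) (fun h => hxD (pos_mem_OmD.1 h))
      (by
        have h4 : dst c x ≤ r := dst_comm x c ▸ mem_bal.1 hx
        exact h4.trans (by linarith))
    have h4 : ‖ψ (pos c)‖ ≤ 1 - a' := by
      rw [← ec, Zt_norm_exp, ha'e, sub_sub_cancel]
      exact Real.exp_le_exp.2 (by linarith)
    nlinarith
  have hfar : ∀ x ∈ bal c r, 7 / 4 * s ≤ ‖pos x‖ := fun x hx => by
    have h3 := dst_tri c x 0
    rw [dst_zero, dst_zero, dst_comm] at h3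
    linarith [mem_bal.1 hx]
  have hge : ∀ x ∈ bal c r, 1 / L ≤ ‖ψ (pos x)‖ := fun x hx => by
    have h3 := hc.psi_ge (by linarith) (pos_mem_OmD.2 (hsub x hx))
    rw [div_le_iff₀ hL0]
    have h4 : s * 1 ≤ s * (‖ψ (pos x)‖ * L) := by linarith [hfar x hx]
    exact le_of_mul_le_mul_left h4 (by linarith)
  have hcb : c ∈ bal c r := mem_bal.2 (by rwa [dst_self])
  have hsheet : ∀ x ∈ bal c r, ∃ l', ‖zt ψ G x l' - zt ψ G c l‖ ≤ 2 * α := fun x hx => by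
    refine exists_sheet hc.cm (hsub x hx) (fun h0 => ?_) (by linarith) ?_
    · have h3 := hfar x hx
      rw [h0, pos_zero, norm_zero] at h3
      linarith
    · rw [ec]
      refine (wolff_jn hW (X := bal c r) (c := c) (r := r) (fun u hu => hsub u hu)
        (fun u hu => mem_bal.1 hu) (by linarith) hx (sconn_bal c r x hx c hcb)
        (by rw [sub_self, norm_zero]; norm_num) (by rw [sub_self, norm_zero]; norm_num)).trans ?_
      exact mul_le_mul_of_nonneg_left (hge c hcb) hα0.le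
  have hwin : ∀ {x : Site} {l' : ℤ}, ‖zt ψ G x l' - zt ψ G c l‖ ≤ 2 * α →
      (zt ψ G x l').re ∈ Set.Icc ((zt ψ G c l).re - Real.pi + 1)
        ((zt ψ G c l).re - Real.pi + 2 * Real.pi - 1) := fun h3 => by
    have h4 := abs_le.1 ((Complex.abs_re_le_norm _).trans h3)
    rw [Complex.sub_re] at h4
    exact ⟨by linarith [h4.1, Real.pi_gt_three], by linarith [h4.2, Real.pi_gt_three]⟩
  obtain ⟨μ, hμ, hμ'⟩ := exists_lift hc.cm (hW.mono (by linarith) le_rfl) (Z := bal c r)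
    (fun u hu => hsub u hu) (R := 20) (c := 1 / L) (θ := (zt ψ G c l).re - Real.pi) (a := 1)
    (by norm_num) hκ (by nlinarith) (by
      rw [mul_div_assoc, mul_div_assoc, div_self hκ.ne']
      linarith) fun x hx => ⟨by linarith [hfar x hx], hge x hx,
        (hsheet x hx).imp fun l' h3 => hwin h3⟩
  have huniq : ∀ x ∈ bal c r, ∀ l', ‖zt ψ G x l' - zt ψ G c l‖ ≤ 2 * α → l' = μ x :=
    fun x hx l' h3 => (hμ' x hx).2 l' ⟨by linarith [(hwin h3).1], by linarith [(hwin h3).2]⟩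
  refine ⟨fun x hx => Finset.mem_sdiff.2 ⟨hsub x hx, fun h3 => ?_⟩, μ,
    (huniq c hcb l (by rw [sub_self, norm_zero]; linarith)).symm, hμ, fun x hx => ?_⟩
  · have h4 := mem_bal.1 h3
    rw [dst_zero] at h4
    linarith [hfar x hx]
  · obtain ⟨l', h3⟩ := hsheet x hx
    rw [← huniq x hx l' h3]
    linarith

end Pool.Agent.TAF.U
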